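import Pool.Agent.Helper19.DP1.Core2a

/-! Core2b: quadratic forms. -/

namespace Pool.Agent.Helper19.DP1
open Polynomial Classical
noncomputable section

section
variable {L : Type*} [Field L] {m n : ℕ} {P Q : L[X]} {p : Option L}

theorem disc2_add (P Q : L[X]) : disc2 (P + Q) = disc2 P + pol2 P Q + disc2 Q := by
  simp only [disc2, pol2, coeff_add]
  ring

theorem disc2_C_mul (c : L) : disc2 (C c * P) = c ^ 2 * disc2 P := by
  simp only [disc2, coeff_C_mul]
  ring

/-- factorisation of a quadratic form -/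
theorem c2b_fact [IsAlgClosed L] (hP : P.natDegree ≤ 2) (h0 : P ≠ 0) :
    ∃ r s : Option L, ∃ c : L, c ≠ 0 ∧ P = C c * (lin r * lin s) := by
  obtain ⟨r, hr⟩ := exists_zero (n := 2) (by norm_num) hP
  obtain ⟨Q, hQ, hPQ⟩ := exists_mul_lin (n := 1) hP hr
  obtain ⟨s, hs⟩ := exists_zero (n := 1) (by norm_num) hQ
  obtain ⟨c, hc⟩ := eq_C_mul_lin hQ hs
  refine ⟨r, s, c, ?_, ?_⟩
  · rintro rfl
    apply h0
    rw [hPQ, hc]
    simp
  · rw [hPQ, hc]
    ring

theorem c2b_coeff_none_none (c : L) :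
    (C c * (lin none * lin none) : L[X]).coeff 0 = c ∧
    (C c * (lin none * lin none) : L[X]).coeff 1 = 0 ∧
    (C c * (lin none * lin none) : L[X]).coeff 2 = 0 := by
  simp only [lin, mul_one, coeff_C]
  norm_num

theorem c2b_coeff_none_some (c t : L) :
    (C c * (lin none * lin (some t)) : L[X]).coeff 0 = - (c * t) ∧
    (C c * (lin none * lin (some t)) : L[X]).coeff 1 = c ∧
    (C c * (lin none * lin (some t)) : L[X]).coeff 2 = 0 := by
  simp only [lin, one_mul, coeff_C_mul, coeff_sub, coeff_X, coeff_C]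
  norm_num

theorem c2b_coeff_some_some (c t u : L) :
    (C c * (lin (some t) * lin (some u)) : L[X]).coeff 0 = c * (t * u) ∧
    (C c * (lin (some t) * lin (some u)) : L[X]).coeff 1 = - (c * (t + u)) ∧
    (C c * (lin (some t) * lin (some u)) : L[X]).coeff 2 = c := by
  have h : (C c * (lin (some t) * lin (some u)) : L[X]) =
      C c * X ^ 2 - C (c * (t + u)) * X + C (c * (t * u)) := by
    simp only [lin, C_mul, C_add]
    ring
  rw [h]
  simp only [coeff_add, coeff_sub, coeff_C_mul, coeff_X_pow, coeff_X, coeff_C]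
  norm_num

theorem c2b_ev_some (hQ : Q.natDegree ≤ 2) (t : L) :
    ev 2 Q (some t) = Q.coeff 2 * t ^ 2 + Q.coeff 1 * t + Q.coeff 0 := by
  simp only [ev]
  rw [eval_eq_sum_range' (n := 3) (by omega)]
  simp only [Finset.sum_range_succ, Finset.sum_range_zero]
  ring

theorem c2b_res (hQ : Q.natDegree ≤ 2) (c : L) (r s : Option L) :
    pol2 (C c * (lin r * lin s)) Q ^ 2 - 4 * disc2 (C c * (lin r * lin s)) * disc2 Q =
      16 * c ^ 2 * ev 2 Q r * ev 2 Q s := by
  rcases r with _ | t <;> rcases s with _ | u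
  · obtain ⟨h0, h1, h2⟩ := c2b_coeff_none_none c
    simp only [pol2, disc2, h0, h1, h2, ev]
    ring
  · obtain ⟨h0, h1, h2⟩ := c2b_coeff_none_some c u
    rw [c2b_ev_some hQ]
    simp only [pol2, disc2, h0, h1, h2, ev]
    ring
  · rw [mul_comm (lin (some t)) (lin none)]
    obtain ⟨h0, h1, h2⟩ := c2b_coeff_none_some c t
    rw [c2b_ev_some hQ]
    simp only [pol2, disc2, h0, h1, h2, ev]
    ring
  · obtain ⟨h0, h1, h2⟩ := c2b_coeff_some_some c t u
    rw [c2b_ev_some hQ, c2b_ev_some hQ]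
    simp only [pol2, disc2, h0, h1, h2]
    ring

theorem c2b_disc_zero {c : L} (hc : c ≠ 0) (r s : Option L) :
    disc2 (C c * (lin r * lin s)) = 0 ↔ r = s := by
  rcases r with _ | t <;> rcases s with _ | u
  · obtain ⟨h0, h1, h2⟩ := c2b_coeff_none_none c
    simp only [disc2, h0, h1, h2]
    norm_num
  · obtain ⟨h0, h1, h2⟩ := c2b_coeff_none_some c u
    simp only [disc2, h0, h1, h2]
    simp [hc]
  · rw [mul_comm (lin (some t)) (lin none)]
    obtain ⟨h0, h1, h2⟩ := c2b_coeff_none_some c t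
    simp only [disc2, h0, h1, h2]
    simp [hc]
  · obtain ⟨h0, h1, h2⟩ := c2b_coeff_some_some c t u
    simp only [disc2, h0, h1, h2]
    have : (-(c * (t + u))) ^ 2 - 4 * c * (c * (t * u)) = (c * (t - u)) ^ 2 := by ring
    rw [this]
    constructor
    · intro h
      have h' := pow_eq_zero_iff (n := 2) (by norm_num) |>.mp h
      rcases mul_eq_zero.mp h' with h'' | h''
      · exact absurd h'' hc
      · rw [sub_eq_zero.mp h'']
    · intro h
      have h' : t = u := Option.some_injective _ h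
      rw [h']
      ring

/-- common zeros of two quadratic forms -/
theorem common_zero_iff [IsAlgClosed L] (h2 : (2 : L) ≠ 0) (hP : P.natDegree ≤ 2)
    (hQ : Q.natDegree ≤ 2) :
    (∃ p, ev 2 P p = 0 ∧ ev 2 Q p = 0) ↔ pol2 P Q ^ 2 = 4 * disc2 P * disc2 Q := by
  by_cases h0 : P = 0
  · subst h0
    constructor
    · intro _
      simp [pol2, disc2]
    · intro _
      obtain ⟨p, hp⟩ := exists_zero (n := 2) (by norm_num) hQ
      exact ⟨p, ev_zero, hp⟩
  · obtain ⟨r, s, c, hc, rfl⟩ := c2b_fact hP h0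
    have hres := c2b_res hQ c r s
    have hl : ∀ p : Option L, ev 2 (C c * (lin r * lin s)) p = 0 ↔ p = r ∨ p = s := by
      intro p
      rw [ev_C_mul, show (2 : ℕ) = 1 + 1 by norm_num,
        ev_mul (natDegree_lin r) (natDegree_lin s), mul_eq_zero, mul_eq_zero, ev_lin, ev_lin]
      simp [hc]
    have h16 : (16 : L) ≠ 0 := by
      have : (16 : L) = 2 ^ 4 := by norm_num
      rw [this]
      exact pow_ne_zero _ h2
    rw [← sub_eq_zero (a := pol2 _ _ ^ 2), hres]
    constructor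
    · rintro ⟨p, hp, hq⟩
      rcases (hl p).mp hp with h | h
      · rw [← h, hq]
        ring
      · rw [← h, hq]
        ring
    · intro h
      rcases mul_eq_zero.mp h with h | h
      · rcases mul_eq_zero.mp h with h | h
        · exact absurd h (mul_ne_zero h16 (pow_ne_zero _ hc))
        · exact ⟨r, (hl r).mpr (Or.inl rfl), h⟩
      · exact ⟨s, (hl s).mpr (Or.inr rfl), h⟩

theorem disc2_ne_iff [IsAlgClosed L] (h2 : (2 : L) ≠ 0) (hP : P.natDegree ≤ 2) :
    disc2 P ≠ 0 ↔ ∃ r s : Option L, r ≠ s ∧ ∃ c ≠ 0, P = C c * (lin r * lin s) := by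
  constructor
  · intro h
    have h0 : P ≠ 0 := by
      rintro rfl
      apply h
      simp [disc2]
    obtain ⟨r, s, c, hc, rfl⟩ := c2b_fact hP h0
    refine ⟨r, s, ?_, c, hc, rfl⟩
    intro hrs
    exact h ((c2b_disc_zero hc r s).mpr hrs)
  · rintro ⟨r, s, hrs, c, hc, rfl⟩ h
    exact hrs ((c2b_disc_zero hc r s).mp h)

theorem disc2_eq_iff [IsAlgClosed L] (h2 : (2 : L) ≠ 0) (hP : P.natDegree ≤ 2) (h0 : P ≠ 0) :
    disc2 P = 0 ↔ ∃ r : Option L, ∃ c ≠ 0, P = C c * lin r ^ 2 := by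
  constructor
  · intro h
    obtain ⟨r, s, c, hc, rfl⟩ := c2b_fact hP h0
    have hrs := (c2b_disc_zero hc r s).mp h
    subst hrs
    exact ⟨r, c, hc, by rw [sq]⟩
  · rintro ⟨r, c, hc, rfl⟩
    rw [sq]
    exact (c2b_disc_zero hc r r).mpr rfl

end

end
end Pool.Agent.Helper19.DP1
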