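import Pool.Agent.Helper19.DP1.Core3b

/-! Core3c: zero sets of forms over `K`. -/

namespace Pool.Agent.Helper19.DP1
open Polynomial Classical
noncomputable section

section
variable {K : Type*} [Field K] [Fintype K] {m n l : ℕ}

/-! ### zero sets of forms over `K` -/

theorem c3c_up_ne_zero {P : K[X]} (h0 : P ≠ 0) : up P ≠ 0 :=
  fun h => h0 (up_injective (by rw [h, up_zero]))

theorem c3c_finite {P : K[X]} (hP : P.natDegree ≤ n) (h0 : P ≠ 0) :
    {p : P1 K | ev n (up P) p = 0}.Finite :=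
  finite_zeros (by rw [natDegree_up]; exact hP) (c3c_up_ne_zero h0)

theorem mem_Zf {P : K[X]} (hP : P.natDegree ≤ n) (h0 : P ≠ 0) {p : P1 K} :
    p ∈ Zf n P ↔ ev n (up P) p = 0 := by
  unfold Zf
  rw [dif_pos (c3c_finite hP h0)]
  simp

theorem Zf_stable (P : K[X]) : IsStabG (frob K) (Zf n P) := by
  unfold Zf
  split_ifs with h
  · intro p hp
    rw [Set.Finite.mem_toFinset, Set.mem_setOf_eq] at hp ⊢
    rw [ev_up_frob, hp, zero_pow Fintype.card_ne_zero]
  · intro p hp
    exact absurd hp (Finset.notMem_empty p)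

theorem card_Zf_le {P : K[X]} (hP : P.natDegree ≤ n) (h0 : P ≠ 0) : (Zf n P).card ≤ n := by
  have h := ncard_zeros (P := up P) (n := n) (by rw [natDegree_up]; exact hP) (c3c_up_ne_zero h0)
  unfold Zf
  rw [dif_pos (c3c_finite hP h0)]
  rwa [Set.ncard_eq_toFinset_card _ (c3c_finite hP h0)] at h

theorem c3c_Zf_congr {P Q : K[X]}
    (h : {p : P1 K | ev n (up P) p = 0} = {p : P1 K | ev n (up Q) p = 0}) : Zf n P = Zf n Q := by
  unfold Zf
  simp only [h]

theorem Zf_C_mul {P : K[X]} {a : K} (ha : a ≠ 0) : Zf n (C a * P) = Zf n P := by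
  apply c3c_Zf_congr
  ext p
  rw [Set.mem_setOf_eq, Set.mem_setOf_eq, up_mul, up_C, ev_C_mul, mul_eq_zero]
  have : algebraMap K (Om K) a ≠ 0 := by
    rw [Ne, map_eq_zero]; exact ha
  simp [this]

theorem Zf_eq_of_up_eq {T : Finset (P1 K)} {B : K[X]} (hB : up B = BT T) : Zf T.card B = T := by
  have h1 : B.natDegree ≤ T.card := by
    rw [← natDegree_up, hB]; exact natDegree_BT T
  have h2 : B ≠ 0 := by
    rintro rfl
    rw [up_zero] at hB
    exact BT_ne_zero T hB.symm
  ext p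
  rw [mem_Zf h1 h2, hB, ev_BT]

/-- forms with the same (maximal) zero set are proportional -/
theorem c3c_prop {T : Finset (P1 K)} {B P : K[X]} (hB : up B = BT T) (hP : P.natDegree ≤ T.card)
    (h0 : P ≠ 0) (h : Zf T.card P = T) : ∃ a : K, a ≠ 0 ∧ P = C a * B := by
  obtain ⟨Q, hQ, hPQ⟩ := exists_mul_BT (P := up P) (n := T.card) (T := T)
    (by rw [natDegree_up]; exact hP) le_rfl (by
      intro p hp
      rw [← mem_Zf hP h0, h]
      exact hp)
  rw [Nat.sub_self, Nat.le_zero] at hQ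
  obtain ⟨c, rfl⟩ : ∃ c, Q = C c := ⟨_, eq_C_of_natDegree_eq_zero hQ⟩
  have hB0 : B ≠ 0 := by
    rintro rfl
    rw [up_zero] at hB
    exact BT_ne_zero T hB.symm
  have hlc : B.leadingCoeff ≠ 0 := leadingCoeff_ne_zero.mpr hB0
  rw [← hB] at hPQ
  have h1 : algebraMap K (Om K) (P.coeff B.natDegree) =
      algebraMap K (Om K) B.leadingCoeff * c := by
    have := congrArg (fun R => R.coeff B.natDegree) hPQ
    simp only [coeff_up, coeff_mul_C] at this
    exact this
  have h2 : c = algebraMap K (Om K) (P.coeff B.natDegree / B.leadingCoeff) := by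
    have h3 : algebraMap K (Om K) B.leadingCoeff ≠ 0 := by
      rw [Ne, map_eq_zero]; exact hlc
    rw [map_div₀, h1]
    field_simp
  have h3 : P = C (P.coeff B.natDegree / B.leadingCoeff) * B := by
    apply up_injective
    rw [up_mul, up_C, ← h2, hPQ, mul_comm]
  refine ⟨_, ?_, h3⟩
  intro h4
  rw [h4, C_0, zero_mul] at h3
  exact h0 h3

/-- forms with `l` distinct zeros, up to scalars, are the stable sets of size `l` -/
theorem sum_forms_eq (h : Finset (P1 K) → ℤ) :
    ∑ P ∈ (V K l).filter (fun P => P ≠ 0 ∧ (Zf l P).card = l), h (Zf l P) =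
      ((Fintype.card K : ℤ) - 1) * ∑ T ∈ Stab K l, h T := by
  have hmaps : ∀ P ∈ (V K l).filter (fun P => P ≠ 0 ∧ (Zf l P).card = l),
      Zf l P ∈ Stab K l := by
    intro P hP
    rw [Finset.mem_filter] at hP
    rw [mem_Stab]
    exact ⟨Zf_stable P, hP.2.2⟩
  rw [← Finset.sum_fiberwise_of_maps_to hmaps, Finset.mul_sum]
  apply Finset.sum_congr rfl
  intro T hT
  rw [mem_Stab] at hT
  obtain ⟨hst, hcard⟩ := hT
  obtain ⟨B, hB⟩ := exists_BTK hst
  have hB0 : B ≠ 0 := by
    rintro rfl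
    rw [up_zero] at hB
    exact BT_ne_zero T hB.symm
  have hBdeg : B.natDegree ≤ l := by
    rw [← natDegree_up, hB, ← hcard]; exact natDegree_BT T
  have hZB : Zf l B = T := by
    have := Zf_eq_of_up_eq hB
    rwa [hcard] at this
  have hfib : (((V K l).filter (fun P => P ≠ 0 ∧ (Zf l P).card = l)).filter
      (fun P => Zf l P = T)) =
      ((Finset.univ : Finset K).filter (fun a => a ≠ 0)).image (fun a => C a * B) := by
    ext P
    simp only [Finset.mem_filter, Finset.mem_image, Finset.mem_univ, true_and, mem_V]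
    constructor
    · rintro ⟨⟨h1, h2, -⟩, h4⟩
      obtain ⟨a, ha, hPa⟩ := c3c_prop hB (by rw [hcard]; exact h1) h2 (by rw [hcard]; exact h4)
      exact ⟨a, ha, hPa.symm⟩
    · rintro ⟨a, ha, rfl⟩
      refine ⟨⟨?_, ?_, ?_⟩, ?_⟩
      · rw [natDegree_C_mul ha]; exact hBdeg
      · exact mul_ne_zero (by rw [Ne, C_eq_zero]; exact ha) hB0
      · rw [Zf_C_mul ha, hZB, hcard]
      · rw [Zf_C_mul ha, hZB]
  have hcardfib : (((Finset.univ : Finset K).filter (fun a => a ≠ 0)).image
      (fun a => C a * B)).card = Fintype.card K - 1 := by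
    rw [Finset.card_image_of_injective]
    · rw [Finset.filter_ne' Finset.univ (0 : K), Finset.card_erase_of_mem (Finset.mem_univ _),
        Finset.card_univ]
    · intro a b hab
      have := mul_right_cancel₀ hB0 hab
      exact C_injective this
  have h1 : ∑ P ∈ ((V K l).filter (fun P => P ≠ 0 ∧ (Zf l P).card = l)).filter
      (fun P => Zf l P = T), h (Zf l P) =
      ∑ P ∈ ((V K l).filter (fun P => P ≠ 0 ∧ (Zf l P).card = l)).filter
      (fun P => Zf l P = T), h T := by
    apply Finset.sum_congr rfl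
    intro P hP
    rw [Finset.mem_filter] at hP
    rw [hP.2]
  rw [h1, Finset.sum_const, hfib, hcardfib, nsmul_eq_mul, Nat.cast_sub Fintype.card_pos,
    Nat.cast_one]

theorem mob_eq {P : K[X]} (h0 : P ≠ 0) (hd : P.natDegree = n) (hc : (Zf n P).card = n) :
    mob P = mu K (Zf n P) := by
  subst hd
  unfold mob
  rw [if_pos ⟨h0, hc⟩]

theorem mob_eq_zero {P : K[X]} (h0 : P ≠ 0) (hd : P.natDegree = n) (hc : (Zf n P).card ≠ n) :
    mob P = 0 := by
  subst hd
  unfold mob
  rw [if_neg (fun h => hc h.2)]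

theorem mob_C_mul {P : K[X]} {a : K} (ha : a ≠ 0) : mob (C a * P) = mob P := by
  have h1 : C a * P ≠ 0 ↔ P ≠ 0 := by
    rw [mul_ne_zero_iff]
    simp [ha]
  unfold mob
  rw [natDegree_C_mul ha, Zf_C_mul ha]
  simp only [h1]

theorem sum_Mon_mob (h : Finset (P1 K) → ℤ) :
    ∑ P ∈ Mon K n, mob P * h (Zf n P) =
      ∑ T ∈ (Stab K n).filter (fun T => none ∉ T), mu K T * h T := by
  have h1 : ∑ P ∈ Mon K n, mob P * h (Zf n P) =
      ∑ P ∈ (Mon K n).filter (fun P => (Zf n P).card = n), mu K (Zf n P) * h (Zf n P) := by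
    rw [Finset.sum_filter]
    apply Finset.sum_congr rfl
    intro P hP
    rw [mem_Mon] at hP
    split_ifs with hc
    · rw [mob_eq hP.1.ne_zero hP.2 hc]
    · rw [mob_eq_zero hP.1.ne_zero hP.2 hc, zero_mul]
  rw [h1]
  apply Finset.sum_bij (fun P _ => Zf n P)
  · intro P hP
    rw [Finset.mem_filter, mem_Mon] at hP
    rw [Finset.mem_filter, mem_Stab]
    refine ⟨⟨Zf_stable P, hP.2⟩, ?_⟩
    rw [mem_Zf hP.1.2.le hP.1.1.ne_zero]
    change ¬ (up P).coeff n = 0
    rw [coeff_up, map_eq_zero]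
    have := hP.1.1.leadingCoeff
    rw [leadingCoeff, hP.1.2] at this
    rw [this]
    exact one_ne_zero
  · intro P hP Q hQ hPQ
    rw [Finset.mem_filter, mem_Mon] at hP hQ
    obtain ⟨B, hB⟩ := exists_BTK (Zf_stable (n := n) P)
    obtain ⟨a, ha, hPa⟩ := c3c_prop hB (by rw [hP.2]; exact hP.1.2.le) hP.1.1.ne_zero
      (by rw [hP.2])
    obtain ⟨b, hb, hQb⟩ := c3c_prop (P := Q) hB (by rw [hP.2]; exact hQ.1.2.le) hQ.1.1.ne_zero
      (by rw [hP.2]; exact hPQ.symm)
    have h2 : P = C (a / b) * Q := by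
      rw [hPa, hQb, ← mul_assoc, ← C_mul, div_mul_cancel₀ _ hb]
    have h3 : a / b = 1 := by
      have h4 := hP.1.1.leadingCoeff
      rw [h2, leadingCoeff_mul, leadingCoeff_C, hQ.1.1.leadingCoeff, mul_one] at h4
      exact h4
    rw [h2, h3, C_1, one_mul]
  · intro T hT
    rw [Finset.mem_filter, mem_Stab] at hT
    obtain ⟨⟨hst, hcard⟩, hnone⟩ := hT
    obtain ⟨B, hB⟩ := exists_BTK hst
    have hB0 : B ≠ 0 := by
      rintro rfl
      rw [up_zero] at hB
      exact BT_ne_zero T hB.symm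
    have hBdeg : B.natDegree ≤ n := by
      rw [← natDegree_up, hB, ← hcard]; exact natDegree_BT T
    have hZB : Zf n B = T := by
      have := Zf_eq_of_up_eq hB
      rwa [hcard] at this
    have hcoef : B.coeff n ≠ 0 := by
      intro h0
      apply hnone
      rw [← hZB, mem_Zf hBdeg hB0]
      change (up B).coeff n = 0
      rw [coeff_up, h0, map_zero]
    have hnd : B.natDegree = n := le_antisymm hBdeg (le_natDegree_of_ne_zero hcoef)
    have hinv : (B.coeff n)⁻¹ ≠ 0 := inv_ne_zero hcoef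
    refine ⟨C (B.coeff n)⁻¹ * B, ?_, ?_⟩
    · rw [Finset.mem_filter, mem_Mon, Zf_C_mul hinv, hZB]
      refine ⟨⟨?_, ?_⟩, hcard⟩
      · unfold Monic
        rw [leadingCoeff_mul, leadingCoeff_C, leadingCoeff, hnd, inv_mul_cancel₀ hcoef]
      · rw [natDegree_C_mul hinv, hnd]
    · rw [Zf_C_mul hinv, hZB]
  · intro P hP
    rfl

end

end
end Pool.Agent.Helper19.DP1
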