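import Pool.Agent.Helper19.DP1.Core1a
import Pool.Agent.Helper19.DP1.Core3c

/-! Core4: the sums of `mu` over stable sets of given size (the inverse zeta function of `P^1`). -/

namespace Pool.Agent.Helper19.DP1
open Polynomial Classical
noncomputable section

section
variable {K : Type*} [Field K] [Fintype K]

theorem mu_empty : mu K ∅ = 1 := muG_empty

theorem c4_stab_union {S T : Finset (P1 K)} (hS : IsStabG (frob K) S)
    (hT : IsStabG (frob K) T) : IsStabG (frob K) (S ∪ T) := by
  intro x hx
  rw [Finset.mem_union] at hx ⊢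
  exact hx.imp (hS x) (hT x)

theorem c4_stab_inter {S T : Finset (P1 K)} (hS : IsStabG (frob K) S)
    (hT : IsStabG (frob K) T) : IsStabG (frob K) (S ∩ T) := by
  intro x hx
  rw [Finset.mem_inter] at hx ⊢
  exact ⟨hS x hx.1, hT x hx.2⟩

theorem c4_stab_sdiff {S T : Finset (P1 K)} (hS : IsStabG (frob K) S)
    (hT : IsStabG (frob K) T) : IsStabG (frob K) (S \ T) := by
  intro x hx
  rw [Finset.mem_sdiff] at hx ⊢
  exact ⟨hS x hx.1, fun h => hx.2 (stab_of_apply_mem frob_injective hT h)⟩

theorem c4_mu_union {S T : Finset (P1 K)} (hS : IsStabG (frob K) S)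
    (hT : IsStabG (frob K) T) (hd : Disjoint S T) : mu K (S ∪ T) = mu K S * mu K T := by
  have h := muG_union (φ := frob K) frob_injective hS hT hd
  unfold mu
  rw [← h]

theorem c4_powersetCard {S : Finset (P1 K)} (l : ℕ) :
    ∑ T ∈ (Stab K l).filter (fun T => T ⊆ S), mu K T = ∑ T ∈ S.powersetCard l, mu K T := by
  apply Finset.sum_subset
  · intro T hT
    rw [Finset.mem_filter, mem_Stab] at hT
    rw [Finset.mem_powersetCard]
    exact ⟨hT.2, hT.1.2⟩
  · intro T hT hT'
    rw [Finset.mem_powersetCard] at hT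
    apply muG_of_not
    intro h
    apply hT'
    rw [Finset.mem_filter, mem_Stab]
    exact ⟨⟨h, hT.2⟩, hT.1⟩

/-- inclusion-exclusion for a finite stable set -/
theorem sum_mu_subsets {S : Finset (P1 K)} (hS : IsStabG (frob K) S) {N : ℕ} (hN : S.card ≤ N) :
    ∑ l ∈ Finset.range (N + 1), ∑ T ∈ (Stab K l).filter (fun T => T ⊆ S), mu K T =
      if S = ∅ then 1 else 0 := by
  have h1 : ∑ l ∈ Finset.range (N + 1), ∑ T ∈ (Stab K l).filter (fun T => T ⊆ S), mu K T
      = ∑ T ∈ S.powerset, mu K T := by
    rw [Finset.sum_powerset]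
    rw [Finset.sum_congr rfl (fun l _ => c4_powersetCard (S := S) l)]
    symm
    apply Finset.sum_subset
    · intro l hl
      rw [Finset.mem_range] at hl ⊢
      omega
    · intro l _ hl'
      rw [Finset.mem_range] at hl'
      rw [Finset.powersetCard_eq_empty.mpr (by omega), Finset.sum_empty]
  rw [h1]
  by_cases h : S = ∅
  · subst h
    simp [mu_empty]
  · rw [if_neg h]
    exact sum_muG_powerset frob_injective hS (Finset.nonempty_iff_ne_empty.mpr h)

/-- removing a rational point -/
theorem c4_insert {S : Finset (P1 K)} {p : P1 K} (hp : frob K p = p) (hpS : p ∉ S) (l : ℕ) :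
    MS K S (l + 1) = MS K (insert p S) (l + 1) - MS K (insert p S) l := by
  unfold MS
  rw [← Finset.sum_filter_add_sum_filter_not ((Stab K (l + 1)).filter (fun T => Disjoint T S))
    (fun T => p ∉ T)]
  have hA : ((Stab K (l + 1)).filter (fun T => Disjoint T S)).filter (fun T => p ∉ T) =
      (Stab K (l + 1)).filter (fun T => Disjoint T (insert p S)) := by
    ext T
    simp only [Finset.mem_filter, Finset.disjoint_insert_right]
    tauto
  rw [hA, sub_eq_add_neg]
  congr 1
  rw [← Finset.sum_neg_distrib]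
  symm
  refine Finset.sum_bij' (fun T _ => insert p T) (fun T _ => T.erase p) ?_ ?_ ?_ ?_ ?_
  · intro T hT
    simp only [Finset.mem_filter, Finset.disjoint_insert_right, mem_Stab] at hT
    obtain ⟨⟨h1, h2⟩, h3, h4⟩ := hT
    simp only [Finset.mem_filter, mem_Stab, not_not]
    refine ⟨⟨⟨?_, ?_⟩, ?_⟩, Finset.mem_insert_self _ _⟩
    · intro x hx
      rw [Finset.mem_insert] at hx ⊢
      rcases hx with rfl | hx
      · left; exact hp
      · right; exact h1 x hx
    · rw [Finset.card_insert_of_notMem h3, h2]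
    · rw [Finset.disjoint_insert_left]
      exact ⟨hpS, h4⟩
  · intro T hT
    simp only [Finset.mem_filter, mem_Stab, not_not] at hT
    obtain ⟨⟨⟨h1, h2⟩, h3⟩, h4⟩ := hT
    simp only [Finset.mem_filter, Finset.disjoint_insert_right, mem_Stab]
    refine ⟨⟨?_, ?_⟩, Finset.notMem_erase _ _, ?_⟩
    · intro x hx
      rw [Finset.mem_erase] at hx ⊢
      refine ⟨?_, h1 x hx.2⟩
      intro h
      apply hx.1
      apply frob_injective
      rw [h, hp]
    · rw [Finset.card_erase_of_mem h4, h2]
      rfl
    · exact Finset.disjoint_of_subset_left (Finset.erase_subset _ _) h3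
  · intro T hT
    simp only [Finset.mem_filter, Finset.disjoint_insert_right, mem_Stab] at hT
    exact Finset.erase_insert hT.2.1
  · intro T hT
    simp only [Finset.mem_filter, mem_Stab, not_not] at hT
    exact Finset.insert_erase hT.2
  · intro T hT
    simp only [Finset.mem_filter, Finset.disjoint_insert_right, mem_Stab] at hT
    obtain ⟨⟨h1, h2⟩, h3, h4⟩ := hT
    have : mu K (insert p T) = mu K {p} * mu K T := by
      rw [Finset.insert_eq]
      apply c4_mu_union
      · intro x hx
        rw [Finset.mem_singleton] at hx ⊢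
        rw [hx, hp]
      · exact h1
      · rw [Finset.disjoint_singleton_left]
        exact h3
    rw [this]
    have h5 : mu K {p} = -1 := muG_singleton hp
    rw [h5]
    ring

theorem MS_zero (S : Finset (P1 K)) : MS K S 0 = 1 := by
  unfold MS
  rw [Finset.sum_filter, sum_Stab_zero]
  simp [mu_empty]

theorem c4_card_mon {T : Finset (P1 K)} (hT : IsStabG (frob K) T) (h0 : none ∉ T) {n : ℕ}
    (hn : T.card ≤ n) :
    ((Mon K n).filter (fun P => T ⊆ Zf n P)).card = Fintype.card K ^ (n - T.card) := by
  have h := card_interp (n := n) (T := insert none T) (by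
    intro x hx
    rw [Finset.mem_insert] at hx ⊢
    rcases hx with rfl | hx
    · left; rfl
    · right; exact hT x hx) (by
    rw [Finset.card_insert_of_notMem h0]
    omega) (fun p => if p = none then 1 else 0) (by
    intro p hp
    rcases p with _ | t
    · simp [frob]
    · simp [frob])
  rw [Finset.card_insert_of_notMem h0] at h
  have h3 : n + 1 - (T.card + 1) = n - T.card := by omega
  rw [h3] at h
  rw [← h]
  congr 1
  ext P
  simp only [Finset.mem_filter, mem_Mon, mem_V, Finset.mem_insert, forall_eq_or_imp, if_true]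
  constructor
  · rintro ⟨⟨h1, h2⟩, h3⟩
    refine ⟨h2.le, ?_, ?_⟩
    · show (up P).coeff n = 1
      rw [coeff_up, ← h2]
      rw [h1.coeff_natDegree, map_one]
    · intro p hp
      rw [if_neg (by rintro rfl; exact h0 hp)]
      rw [← mem_Zf h2.le h1.ne_zero]
      exact h3 hp
  · rintro ⟨h1, h2, h3⟩
    have h4 : P.coeff n = 1 := by
      have : (up P).coeff n = 1 := h2
      rw [coeff_up] at this
      exact (algebraMap K (Om K)).injective (by rw [this, map_one])
    have h5 : P.natDegree = n := by
      apply le_antisymm h1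
      apply le_natDegree_of_ne_zero
      rw [h4]
      exact one_ne_zero
    have h6 : P.Monic := by
      rw [Monic, leadingCoeff, h5, h4]
    refine ⟨⟨h6, h5⟩, ?_⟩
    intro p hp
    rw [mem_Zf h1 h6.ne_zero]
    rw [h3 p hp, if_neg (by rintro rfl; exact h0 hp)]

/-- the affine sums -/
theorem c4_aff {n : ℕ} (hn : 1 ≤ n) :
    ∑ l ∈ Finset.range (n + 1), MS K {none} l * (Fintype.card K : ℤ) ^ (n - l) = 0 := by
  have h1 : ∑ P ∈ Mon K n, ∑ l ∈ Finset.range (n + 1),
      ∑ T ∈ (Stab K l).filter (fun T => T ⊆ Zf n P), mu K T = 0 := by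
    apply Finset.sum_eq_zero
    intro P hP
    rw [mem_Mon] at hP
    rw [sum_mu_subsets (Zf_stable P) (card_Zf_le hP.2.le hP.1.ne_zero)]
    rw [if_neg]
    intro h
    obtain ⟨p, hp⟩ := exists_zero (P := up P) hn (by rw [natDegree_up]; exact hP.2.le)
    rw [← mem_Zf hP.2.le hP.1.ne_zero, h] at hp
    simp at hp
  rw [Finset.sum_comm] at h1
  rw [← h1]
  apply Finset.sum_congr rfl
  intro l hl
  rw [Finset.mem_range] at hl
  have h2 : ∀ P ∈ Mon K n, ∑ T ∈ (Stab K l).filter (fun T => T ⊆ Zf n P), mu K T =
      ∑ T ∈ (Stab K l).filter (fun T => Disjoint T {none}),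
        if T ⊆ Zf n P then mu K T else 0 := by
    intro P hP
    rw [mem_Mon] at hP
    rw [← Finset.sum_filter, Finset.filter_filter]
    apply Finset.sum_congr _ (fun _ _ => rfl)
    apply Finset.filter_congr
    intro T hT
    constructor
    · intro h
      refine ⟨?_, h⟩
      rw [Finset.disjoint_singleton_right]
      intro h0
      have := h h0
      rw [mem_Zf hP.2.le hP.1.ne_zero] at this
      have h3 : (up P).coeff n = 0 := this
      rw [coeff_up, ← hP.2, hP.1.coeff_natDegree, map_one] at h3
      exact one_ne_zero h3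
    · intro h
      exact h.2
  rw [Finset.sum_congr rfl h2, Finset.sum_comm]
  unfold MS
  rw [Finset.sum_mul]
  apply Finset.sum_congr rfl
  intro T hT
  rw [Finset.mem_filter, mem_Stab, Finset.disjoint_singleton_right] at hT
  rw [← Finset.sum_filter, Finset.sum_const, c4_card_mon hT.1.1 hT.2 (by omega), hT.1.2]
  rw [nsmul_eq_mul, mul_comm]
  push_cast
  ring

theorem c4_aff_one : MS K {none} 1 = -(Fintype.card K : ℤ) := by
  have h := c4_aff (K := K) (n := 1) le_rfl
  rw [Finset.sum_range_succ, Finset.sum_range_succ, Finset.sum_range_zero, MS_zero] at h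
  simp at h
  linarith

theorem c4_aff_ge {l : ℕ} (hl : 2 ≤ l) : MS K {none} l = 0 := by
  obtain ⟨n, rfl⟩ : ∃ n, l = n + 2 := ⟨l - 2, by omega⟩
  have h := c4_aff (K := K) (n := n + 2) (by omega)
  have h1 := c4_aff (K := K) (n := n + 1) (by omega)
  rw [Finset.sum_range_succ] at h
  have h2 : ∑ l ∈ Finset.range (n + 2), MS K {none} l * (Fintype.card K : ℤ) ^ (n + 2 - l) =
      (Fintype.card K : ℤ) * ∑ l ∈ Finset.range (n + 2), MS K {none} l *
        (Fintype.card K : ℤ) ^ (n + 1 - l) := by
    rw [Finset.mul_sum]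
    apply Finset.sum_congr rfl
    intro l hl
    rw [Finset.mem_range] at hl
    have : n + 2 - l = (n + 1 - l) + 1 := by omega
    rw [this, pow_succ]
    ring
  rw [h2, h1] at h
  simpa using h

theorem c4_none : MS K (insert none ∅) = MS K {none} := rfl

theorem c4_step (l : ℕ) : MS K ∅ (l + 1) = MS K {none} (l + 1) - MS K {none} l := by
  have h := c4_insert (K := K) (S := ∅) (p := none) rfl (by simp) l
  simpa using h

theorem MS_empty_zero : MS K ∅ 0 = 1 := MS_zero _
theorem MS_empty_one : MS K ∅ 1 = -((Fintype.card K : ℤ) + 1) := by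
  rw [c4_step, zero_add, c4_aff_one, MS_zero]
  ring
theorem MS_empty_two : MS K ∅ 2 = (Fintype.card K : ℤ) := by
  rw [c4_step, c4_aff_ge (by norm_num), c4_aff_one]
  ring
theorem MS_empty_ge {l : ℕ} (hl : 3 ≤ l) : MS K ∅ l = 0 := by
  obtain ⟨n, rfl⟩ : ∃ n, l = n + 3 := ⟨l - 3, by omega⟩
  rw [c4_step, c4_aff_ge (by omega), c4_aff_ge (by omega)]
  ring
/-- the sum over all stable sets -/
theorem sum_Stab_mu (l : ℕ) : ∑ T ∈ Stab K l, mu K T = MS K ∅ l := by
  unfold MS
  apply Finset.sum_congr _ (fun _ _ => rfl)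
  symm
  apply Finset.filter_true_of_mem
  intro T _
  exact Finset.disjoint_empty_right T

/-- recursion for the sums over sets disjoint from `S` -/
theorem MS_rec {S : Finset (P1 K)} (hS : IsStabG (frob K) S) (l : ℕ) :
    ∑ j ∈ Finset.range (l + 1), eS K S j * MS K S (l - j) = MS K ∅ l := by
  have h1 : ∀ j ∈ Finset.range (l + 1), eS K S j * MS K S (l - j) =
      ∑ T ∈ (Stab K l).filter (fun T => (T ∩ S).card = j), mu K T := by
    intro j hj
    rw [Finset.mem_range] at hj
    have h2 : eS K S j = ∑ A ∈ (Stab K j).filter (fun T => T ⊆ S), mu K A :=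
      (c4_powersetCard (S := S) j).symm
    rw [h2]
    unfold MS
    rw [Finset.sum_mul_sum, ← Finset.sum_product']
    refine Finset.sum_bij' (fun x _ => x.1 ∪ x.2) (fun T _ => (T ∩ S, T \ S)) ?_ ?_ ?_ ?_ ?_
    · intro x hx
      simp only [Finset.mem_product, Finset.mem_filter, mem_Stab] at hx ⊢
      obtain ⟨⟨⟨h3, h4⟩, h5⟩, ⟨h6, h7⟩, h8⟩ := hx
      have h9 : Disjoint x.1 x.2 := Finset.disjoint_of_subset_left h5 h8.symm
      refine ⟨⟨c4_stab_union h3 h6, ?_⟩, ?_⟩
      · rw [Finset.card_union_of_disjoint h9, h4, h7]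
        omega
      · rw [Finset.union_inter_distrib_right, Finset.inter_eq_left.mpr h5,
          Finset.disjoint_iff_inter_eq_empty.mp h8, Finset.union_empty, h4]
    · intro T hT
      simp only [Finset.mem_product, Finset.mem_filter, mem_Stab] at hT ⊢
      obtain ⟨⟨h3, h4⟩, h5⟩ := hT
      refine ⟨⟨⟨c4_stab_inter h3 hS, h5⟩, Finset.inter_subset_right⟩,
        ⟨c4_stab_sdiff h3 hS, ?_⟩, Finset.sdiff_disjoint⟩
      have := Finset.card_sdiff_add_card_inter T S
      omega
    · intro x hx
      simp only [Finset.mem_product, Finset.mem_filter, mem_Stab] at hx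
      obtain ⟨⟨⟨h3, h4⟩, h5⟩, ⟨h6, h7⟩, h8⟩ := hx
      have h10 := Finset.disjoint_iff_inter_eq_empty.mp h8
      apply Prod.ext
      · show (x.1 ∪ x.2) ∩ S = x.1
        rw [Finset.union_inter_distrib_right, Finset.inter_eq_left.mpr h5, h10,
          Finset.union_empty]
      · show (x.1 ∪ x.2) \ S = x.2
        rw [Finset.union_sdiff_distrib, Finset.sdiff_eq_empty_iff_subset.mpr h5,
          Finset.sdiff_eq_self_of_disjoint h8, Finset.empty_union]
    · intro T hT
      show T ∩ S ∪ T \ S = T
      rw [Finset.union_comm]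
      exact Finset.sdiff_union_inter T S
    · intro x hx
      simp only [Finset.mem_product, Finset.mem_filter, mem_Stab] at hx
      obtain ⟨⟨⟨h3, h4⟩, h5⟩, ⟨h6, h7⟩, h8⟩ := hx
      have h9 : Disjoint x.1 x.2 := Finset.disjoint_of_subset_left h5 h8.symm
      exact (c4_mu_union h3 h6 h9).symm
  rw [Finset.sum_congr rfl h1, ← sum_Stab_mu]
  rw [Finset.sum_fiberwise_of_maps_to]
  intro T hT
  rw [mem_Stab] at hT
  rw [Finset.mem_range]
  have := Finset.card_le_card (Finset.inter_subset_left (s₁ := T) (s₂ := S))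
  omega

theorem c4_rat_one {p : P1 K} (hp : frob K p = p) : MS K {p} 1 = -(Fintype.card K : ℤ) := by
  have h := c4_insert (K := K) (S := ∅) (p := p) hp (by simp) 0
  rw [zero_add, MS_empty_one, insert_empty_eq, MS_zero] at h
  linarith

theorem c4_rat_ge {p : P1 K} (hp : frob K p = p) {l : ℕ} (hl : 2 ≤ l) : MS K {p} l = 0 := by
  induction l, hl using Nat.le_induction with
  | base =>
    have h := c4_insert (K := K) (S := ∅) (p := p) hp (by simp) 1
    rw [MS_empty_two, insert_empty_eq, c4_rat_one hp] at h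
    linarith
  | succ n hn ih =>
    have h := c4_insert (K := K) (S := ∅) (p := p) hp (by simp) n
    rw [MS_empty_ge (by omega), insert_empty_eq, ih] at h
    linarith

theorem MS_rat_one (r : Option K) : MS K {upP r} 1 = -(Fintype.card K : ℤ) :=
  c4_rat_one (frob_upP r)
theorem MS_rat_ge (r : Option K) {l : ℕ} (hl : 2 ≤ l) : MS K {upP r} l = 0 :=
  c4_rat_ge (frob_upP r) hl

theorem c4_two {p p' : P1 K} (hp : frob K p = p) (hp' : frob K p' = p') (h : p ≠ p') {l : ℕ}
    (hl : 1 ≤ l) : MS K {p, p'} l = 1 - (Fintype.card K : ℤ) := by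
  induction l, hl using Nat.le_induction with
  | base =>
    have h := c4_insert (K := K) (S := {p'}) (p := p) hp (by simpa using h) 0
    rw [zero_add, c4_rat_one hp', MS_zero] at h
    linarith
  | succ n hn ih =>
    have h := c4_insert (K := K) (S := {p'}) (p := p) hp (by simpa using h) n
    rw [c4_rat_ge hp' (by omega), ih] at h
    linarith

theorem MS_two_rat {r s : Option K} (h : r ≠ s) {l : ℕ} (hl : 1 ≤ l) :
    MS K {upP r, upP s} l = 1 - (Fintype.card K : ℤ) :=
  c4_two (frob_upP r) (frob_upP s) (fun h' => h (upP_injective h')) hl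

theorem c4_conj_eS {S : Finset (P1 K)} (hS : IsStabG (frob K) S) (hc : S.card = 2)
    (hm : mu K S = -1) : eS K S 0 = 1 ∧ eS K S 1 = 0 ∧ eS K S 2 = -1 ∧
      ∀ j, 3 ≤ j → eS K S j = 0 := by
  obtain ⟨a, b, hab, rfl⟩ := Finset.card_eq_two.mp hc
  have hno : frob K a ≠ a ∧ frob K b ≠ b := by
    by_contra hcon
    have h1 : frob K a = a ∧ frob K b = b := by
      have ha := hS a (by simp)
      have hb := hS b (by simp)
      rw [Finset.mem_insert, Finset.mem_singleton] at ha hb
      by_cases h1 : frob K a = a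
      · refine ⟨h1, ?_⟩
        rcases hb with hb | hb
        · exact absurd (frob_injective (hb.trans h1.symm)) (Ne.symm hab)
        · exact hb
      · have h2 : frob K b = b := by
          by_contra h2
          exact hcon ⟨h1, h2⟩
        refine ⟨?_, h2⟩
        rcases ha with ha | ha
        · exact ha
        · exact absurd (frob_injective (ha.trans h2.symm)) hab
    have h2 : mu K ({a, b} : Finset (P1 K)) = mu K {a} * mu K {b} := by
      rw [Finset.insert_eq]
      apply c4_mu_union
      · intro x hx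
        rw [Finset.mem_singleton] at hx ⊢
        rw [hx, h1.1]
      · intro x hx
        rw [Finset.mem_singleton] at hx ⊢
        rw [hx, h1.2]
      · rw [Finset.disjoint_singleton]
        exact hab
    have h3 : mu K {a} = -1 := muG_singleton h1.1
    have h4 : mu K {b} = -1 := muG_singleton h1.2
    rw [h2, h3, h4] at hm
    norm_num at hm
  have hsing : ∀ x : P1 K, frob K x ≠ x → mu K {x} = 0 := by
    intro x hx
    apply muG_of_not
    intro h
    have := h x (Finset.mem_singleton_self x)
    rw [Finset.mem_singleton] at this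
    exact hx this
  refine ⟨?_, ?_, ?_, ?_⟩
  · simp [eS, mu_empty]
  · unfold eS
    apply Finset.sum_eq_zero
    intro T hT
    rw [Finset.mem_powersetCard, Finset.card_eq_one] at hT
    obtain ⟨h1, x, rfl⟩ := hT
    apply hsing
    have : x ∈ ({a, b} : Finset (P1 K)) := h1 (Finset.mem_singleton_self x)
    rw [Finset.mem_insert, Finset.mem_singleton] at this
    rcases this with rfl | rfl
    · exact hno.1
    · exact hno.2
  · unfold eS
    rw [← hc, Finset.powersetCard_self, Finset.sum_singleton, hm]
  · intro j hj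
    unfold eS
    rw [Finset.powersetCard_eq_empty.mpr (by omega), Finset.sum_empty]

theorem c4_conj_rec {S : Finset (P1 K)} (hS : IsStabG (frob K) S) (hc : S.card = 2)
    (hm : mu K S = -1) : MS K S 1 = MS K ∅ 1 ∧ ∀ l, MS K S (l + 2) = MS K S l + MS K ∅ (l + 2) := by
  obtain ⟨h0, h1, h2, h3⟩ := c4_conj_eS hS hc hm
  constructor
  · have h := MS_rec hS 1
    rw [Finset.sum_range_succ, Finset.sum_range_succ, Finset.sum_range_zero, h0, h1] at h
    simpa using h
  · intro l
    have h := MS_rec hS (l + 2)
    rw [Finset.sum_range_succ', Finset.sum_range_succ', Finset.sum_range_succ'] at h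
    have h4 : ∑ k ∈ Finset.range l, eS K S (k + 1 + 1 + 1) * MS K S (l + 2 - (k + 1 + 1 + 1)) = 0 := by
      apply Finset.sum_eq_zero
      intro k _
      rw [h3 _ (by omega), zero_mul]
    rw [h4] at h
    simp only [zero_add, h1] at h
    norm_num [h0, h2] at h
    linarith

theorem MS_conj {S : Finset (P1 K)} (hS : IsStabG (frob K) S) (hc : S.card = 2)
    (hm : mu K S = -1) {l : ℕ} (hl : 1 ≤ l) :
    MS K S l = (-1) ^ l * (1 + (Fintype.card K : ℤ)) := by
  obtain ⟨h1, h2⟩ := c4_conj_rec hS hc hm
  have h3 : ∀ n : ℕ, MS K S (n + 1) = (-1) ^ (n + 1) * (1 + (Fintype.card K : ℤ)) ∧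
      MS K S (n + 2) = (-1) ^ (n + 2) * (1 + (Fintype.card K : ℤ)) := by
    intro n
    induction n with
    | zero =>
      constructor
      · rw [zero_add, h1, MS_empty_one]
        ring
      · rw [h2 0, MS_zero, zero_add, MS_empty_two]
        ring
    | succ n ih =>
      refine ⟨ih.2, ?_⟩
      rw [h2 (n + 1), MS_empty_ge (by omega), ih.1]
      ring
  obtain ⟨n, rfl⟩ : ∃ n, l = n + 1 := ⟨l - 1, by omega⟩
  exact (h3 n).1

theorem MS_three_rat {r s t : Option K} (h1 : r ≠ s) (h2 : r ≠ t) (h3 : s ≠ t) (l : ℕ) :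
    MS K {upP r, upP s, upP t} l = (l + 1 : ℤ) - l * (Fintype.card K : ℤ) := by
  induction l with
  | zero => rw [MS_zero]; simp
  | succ n ih =>
    have h := c4_insert (K := K) (S := {upP s, upP t}) (p := upP r) (frob_upP r) (by
      rw [Finset.mem_insert, Finset.mem_singleton]
      rintro (h | h)
      · exact h1 (upP_injective h)
      · exact h2 (upP_injective h)) n
    rw [MS_two_rat h3 (by omega), ih] at h
    push_cast
    linarith

/-- `S` = a rational point and a pair of conjugate points -/
theorem MS_rat_conj {S : Finset (P1 K)} {r : Option K} (hS : IsStabG (frob K) S)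
    (hr : upP r ∉ S) (hc : S.card = 2) (hm : mu K S = -1) (l : ℕ) :
    MS K (insert (upP r) S) l = if Even l then 1 else -(Fintype.card K : ℤ) := by
  induction l with
  | zero => rw [MS_zero]; simp
  | succ n ih =>
    have h := c4_insert (K := K) (S := S) (p := upP r) (frob_upP r) hr n
    rw [MS_conj hS hc hm (by omega), ih] at h
    rcases Nat.even_or_odd n with he | ho
    · rw [if_pos he] at h
      have h4 : Odd (n + 1) := he.add_one
      rw [if_neg (by rw [Nat.not_even_iff_odd]; exact h4)]
      rw [h4.neg_one_pow] at h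
      linarith
    · rw [if_neg (by rw [Nat.not_even_iff_odd]; exact ho)] at h
      have h4 : Even (n + 1) := ho.add_one
      rw [if_pos h4]
      rw [h4.neg_one_pow] at h
      linarith

/-- affine version for monic polynomials: sums of `mob` over monic polynomials of degree `n`
without common zero with a given finite stable set -/
theorem sum_mob_disjoint {S : Finset (P1 K)} (hS : IsStabG (frob K) S) (n : ℕ) :
    ∑ P ∈ (Mon K n).filter (fun P => Disjoint (Zf n P) S), mob P = MS K (insert none S) n := by
  have h := sum_Mon_mob (K := K) (n := n) (fun T => if Disjoint T S then 1 else 0)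
  simp only [mul_ite, mul_one, mul_zero] at h
  rw [← Finset.sum_filter, ← Finset.sum_filter, Finset.filter_filter] at h
  unfold MS
  rw [h]
  apply Finset.sum_congr _ (fun _ _ => rfl)
  apply Finset.filter_congr
  intro T _
  rw [Finset.disjoint_insert_right]

theorem sum_mob_Mon {n : ℕ} (hn : 2 ≤ n) : ∑ P ∈ Mon K n, mob P = 0 := by
  have h := sum_mob_disjoint (K := K) (S := ∅) (by intro x hx; simp at hx) n
  rw [insert_empty_eq, c4_aff_ge hn] at h
  rw [← h]
  apply Finset.sum_congr _ (fun _ _ => rfl)
  symm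
  apply Finset.filter_true_of_mem
  intro T _
  exact Finset.disjoint_empty_right _

/-- the sum of `mob` over monic polynomials of degree `n ≥ 1` not vanishing at `x` -/
theorem sum_mob_eval_ne {n : ℕ} (hn : 1 ≤ n) (x : K) :
    ∑ P ∈ (Mon K n).filter (fun P => P.eval x ≠ 0), mob P = 1 - (Fintype.card K : ℤ) := by
  have h := sum_mob_disjoint (K := K) (S := {upP (some x)}) (by
    intro y hy
    rw [Finset.mem_singleton] at hy ⊢
    rw [hy, frob_upP]) n
  have h1 := MS_two_rat (K := K) (r := none) (s := some x) (by simp) hn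
  have h2 : (upP (none : Option K)) = none := rfl
  rw [h2] at h1
  rw [h1] at h
  rw [← h]
  apply Finset.sum_congr _ (fun _ _ => rfl)
  apply Finset.filter_congr
  intro P hP
  rw [mem_Mon] at hP
  rw [Finset.disjoint_singleton_right, mem_Zf hP.2.le hP.1.ne_zero, ev_upP]
  show _ ↔ ¬ algebraMap K (Om K) (P.eval x) = 0
  rw [map_eq_zero]

end

end
end Pool.Agent.Helper19.DP1
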