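import Pool.Agent.Helper19.DP1.Defs

/-! Core2a: forms over a field `L`. -/

namespace Pool.Agent.Helper19.DP1
open Polynomial Classical
noncomputable section

section
variable {L : Type*} [Field L] {m n : ℕ} {P Q : L[X]} {p : Option L}

theorem ev_zero : ev n (0 : L[X]) p = 0 := by
  cases p <;> simp [ev]

theorem ev_add : ev n (P + Q) p = ev n P p + ev n Q p := by
  cases p <;> simp [ev]

theorem ev_sub : ev n (P - Q) p = ev n P p - ev n Q p := by
  cases p <;> simp [ev]

theorem ev_neg : ev n (-P) p = - ev n P p := by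
  cases p <;> simp [ev]

theorem ev_C_mul (c : L) : ev n (C c * P) p = c * ev n P p := by
  cases p <;> simp [ev]

/-- constants as forms of degree 0 -/
theorem ev_C_zero (c : L) : ev 0 (C c : L[X]) p = c := by
  cases p <;> simp [ev]

theorem ev_mul (hP : P.natDegree ≤ m) (hQ : Q.natDegree ≤ n) :
    ev (m + n) (P * Q) p = ev m P p * ev n Q p := by
  cases p with
  | none => exact coeff_mul_add_eq_of_natDegree_le hP hQ
  | some t => simp [ev]

theorem ev_pow (hP : P.natDegree ≤ m) (k : ℕ) : ev (m * k) (P ^ k) p = ev m P p ^ k := by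
  induction k with
  | zero =>
    rw [mul_zero, pow_zero, pow_zero, ← C_1, ev_C_zero]
  | succ k ih =>
    rw [Nat.mul_succ, pow_succ, pow_succ, ev_mul _ hP, ih]
    rw [mul_comm m k]
    exact natDegree_pow_le_of_le k hP

theorem natDegree_lin (r : Option L) : (lin r).natDegree ≤ 1 := by
  cases r with
  | none => simp [lin]
  | some t => simp [lin]

theorem lin_ne_zero (r : Option L) : lin r ≠ 0 := by
  cases r with
  | none => simp [lin]
  | some t => exact X_sub_C_ne_zero t

theorem ev_lin (r : Option L) : ev 1 (lin r) p = 0 ↔ p = r := by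
  cases r with
  | none =>
    cases p with
    | none => simp [ev, lin, coeff_one]
    | some t => simp [ev, lin]
  | some c =>
    cases p with
    | none => simp [ev, lin, coeff_X]
    | some t => simp [ev, lin, sub_eq_zero]

theorem natDegree_BT (T : Finset (Option L)) : (BT T).natDegree ≤ T.card := by
  unfold BT
  refine (natDegree_prod_le _ _).trans ?_
  refine (Finset.sum_le_card_nsmul T _ 1 (fun r _ => natDegree_lin r)).trans ?_
  simp

theorem BT_ne_zero (T : Finset (Option L)) : BT T ≠ 0 :=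
  Finset.prod_ne_zero_iff.2 (fun r _ => lin_ne_zero r)

theorem BT_insert {T : Finset (Option L)} {r : Option L} (hr : r ∉ T) :
    BT (insert r T) = lin r * BT T := Finset.prod_insert hr

theorem ev_BT (T : Finset (Option L)) : ev T.card (BT T) p = 0 ↔ p ∈ T := by
  induction T using Finset.induction_on with
  | empty =>
    have h : BT (∅ : Finset (Option L)) = C 1 := by simp [BT]
    rw [h, Finset.card_empty, ev_C_zero]
    simp
  | insert a T ha ih =>
    rw [BT_insert ha, Finset.card_insert_of_notMem ha, add_comm,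
      ev_mul (natDegree_lin a) (natDegree_BT T), mul_eq_zero, ev_lin, ih, Finset.mem_insert]

theorem BT_union {S T : Finset (Option L)} (h : Disjoint S T) : BT (S ∪ T) = BT S * BT T :=
  Finset.prod_union h

theorem exists_mul_lin {r : Option L} (hP : P.natDegree ≤ n + 1) (h : ev (n + 1) P r = 0) :
    ∃ Q : L[X], Q.natDegree ≤ n ∧ P = lin r * Q := by
  cases r with
  | none =>
    refine ⟨P, ?_, by simp [lin]⟩
    have h' : P.coeff (n + 1) = 0 := h
    rw [natDegree_le_iff_coeff_eq_zero] at hP ⊢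
    intro k hk
    rcases Nat.lt_or_ge (n + 1) k with h1 | h1
    · exact hP k h1
    · have : k = n + 1 := by omega
      rw [this]; exact h'
  | some t =>
    have h' : P.eval t = 0 := h
    obtain ⟨Q, hQ⟩ := dvd_iff_isRoot.2 h'
    refine ⟨Q, ?_, hQ⟩
    by_cases hQ0 : Q = 0
    · rw [hQ0]; simp
    · rw [hQ, natDegree_mul (X_sub_C_ne_zero t) hQ0, natDegree_X_sub_C] at hP
      omega

theorem exists_mul_BT {T : Finset (Option L)} (hP : P.natDegree ≤ n) (hT : T.card ≤ n)
    (h : ∀ p ∈ T, ev n P p = 0) : ∃ Q : L[X], Q.natDegree ≤ n - T.card ∧ P = BT T * Q := by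
  induction T using Finset.induction_on generalizing n P with
  | empty => exact ⟨P, by simpa using hP, by simp [BT]⟩
  | insert a T ha ih =>
    rw [Finset.card_insert_of_notMem ha] at hT
    obtain ⟨k, rfl⟩ : ∃ k, n = k + 1 := ⟨n - 1, by omega⟩
    obtain ⟨Q, hQ, rfl⟩ := exists_mul_lin hP (h a (Finset.mem_insert_self a T))
    obtain ⟨R, hR, rfl⟩ := ih hQ (by omega) (by
      intro p hp
      have h1 := h p (Finset.mem_insert_of_mem hp)
      rw [add_comm k 1, ev_mul (natDegree_lin a) hQ, mul_eq_zero, ev_lin] at h1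
      rcases h1 with h1 | h1
      · rw [h1] at hp; exact absurd hp ha
      · exact h1)
    refine ⟨R, ?_, ?_⟩
    · rw [Finset.card_insert_of_notMem ha]
      omega
    · rw [BT_insert ha, mul_assoc]

theorem eq_zero_of_ev {T : Finset (Option L)} (hP : P.natDegree ≤ n) (hT : n < T.card)
    (h : ∀ p ∈ T, ev n P p = 0) : P = 0 := by
  obtain ⟨S, hS, hSc⟩ := Finset.exists_subset_card_eq hT.le
  obtain ⟨Q, hQ, hPQ⟩ := exists_mul_BT (T := S) hP hSc.le (fun p hp => h p (hS hp))
  rw [hSc, Nat.sub_self] at hQ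
  have hne : ∃ p ∈ T, p ∉ S := by
    by_contra hcon
    push Not at hcon
    have := Finset.card_le_card (show T ⊆ S from hcon)
    omega
  obtain ⟨p, hpT, hpS⟩ := hne
  have h1 := h p hpT
  have hQc : Q = C (Q.coeff 0) := eq_C_of_natDegree_le_zero hQ
  have hB : (BT S).natDegree ≤ n := by rw [← hSc]; exact natDegree_BT S
  rw [hPQ] at h1
  have h2 : ev (n + 0) (BT S * Q) p = ev n (BT S) p * ev 0 Q p := ev_mul hB hQ
  rw [add_zero, h1] at h2
  have h3 : ev n (BT S) p ≠ 0 := by
    rw [← hSc, Ne, ev_BT]; exact hpS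
  have h4 : ev 0 Q p = 0 := by
    rcases mul_eq_zero.1 h2.symm with h5 | h5
    · exact absurd h5 h3
    · exact h5
  rw [hQc, ev_C_zero] at h4
  rw [hPQ, hQc, h4, C_0, mul_zero]

/-- converse of `exists_mul_BT` -/
theorem ev_BT_mul {T : Finset (Option L)} (hQ : Q.natDegree ≤ n) :
    ∀ p ∈ T, ev (T.card + n) (BT T * Q) p = 0 := by
  intro p hp
  rw [ev_mul (natDegree_BT T) hQ, (ev_BT T).2 hp, zero_mul]

theorem dv_zero : dv n (0 : L[X]) p := by
  cases p <;> simp [dv]

theorem dv_ev (h : dv n P p) : ev n P p = 0 := by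
  cases p with
  | none => exact h.1
  | some t => exact h.1

theorem dv_add (hP : dv n P p) (hQ : dv n Q p) : dv n (P + Q) p := by
  cases p with
  | none =>
    refine ⟨?_, ?_⟩
    · rw [coeff_add, hP.1, hQ.1, add_zero]
    · rw [coeff_add, hP.2, hQ.2, add_zero]
  | some t =>
    refine ⟨?_, ?_⟩
    · rw [eval_add, hP.1, hQ.1, add_zero]
    · rw [derivative_add, eval_add, hP.2, hQ.2, add_zero]

theorem dv_neg (hP : dv n P p) : dv n (-P) p := by
  cases p with
  | none =>
    refine ⟨?_, ?_⟩
    · rw [coeff_neg, hP.1, neg_zero]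
    · rw [coeff_neg, hP.2, neg_zero]
  | some t =>
    refine ⟨?_, ?_⟩
    · rw [eval_neg, hP.1, neg_zero]
    · rw [derivative_neg, eval_neg, hP.2, neg_zero]

theorem dv_C_mul (c : L) (hP : dv n P p) : dv n (C c * P) p := by
  cases p with
  | none =>
    refine ⟨?_, ?_⟩
    · rw [coeff_C_mul, hP.1, mul_zero]
    · rw [coeff_C_mul, hP.2, mul_zero]
  | some t =>
    refine ⟨?_, ?_⟩
    · rw [eval_mul, hP.1, mul_zero]
    · rw [derivative_C_mul, eval_mul, hP.2, mul_zero]

theorem dv_mul_right (hm : 1 ≤ m) (hPd : P.natDegree ≤ m) (hQd : Q.natDegree ≤ n)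
    (hP : dv m P p) : dv (m + n) (P * Q) p := by
  cases p with
  | none =>
    obtain ⟨h1, h2⟩ := hP
    rw [natDegree_le_iff_coeff_eq_zero] at hPd hQd
    have hPz : ∀ k, m - 1 ≤ k → P.coeff k = 0 := by
      intro k hk
      rcases Nat.lt_or_ge m k with h3 | h3
      · exact hPd k h3
      · have : k = m ∨ k = m - 1 := by omega
        rcases this with h4 | h4
        · rw [h4]; exact h1
        · rw [h4]; exact h2
    refine ⟨?_, ?_⟩
    · rw [coeff_mul]
      apply Finset.sum_eq_zero
      rintro ⟨i, j⟩ hij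
      have hij' : i + j = m + n := Finset.HasAntidiagonal.mem_antidiagonal.1 hij
      rcases Nat.lt_or_ge i (m - 1) with h3 | h3
      · rw [hQd j (by omega), mul_zero]
      · rw [hPz i h3, zero_mul]
    · rw [coeff_mul]
      apply Finset.sum_eq_zero
      rintro ⟨i, j⟩ hij
      have hij' : i + j = m + n - 1 := Finset.HasAntidiagonal.mem_antidiagonal.1 hij
      rcases Nat.lt_or_ge i (m - 1) with h3 | h3
      · rw [hQd j (by omega), mul_zero]
      · rw [hPz i h3, zero_mul]
  | some t =>
    obtain ⟨h1, h2⟩ := hP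
    refine ⟨?_, ?_⟩
    · rw [eval_mul, h1, zero_mul]
    · rw [derivative_mul, eval_add, eval_mul, eval_mul, h1, h2]; ring

theorem dv_mul_of_ev (hm : 1 ≤ m) (hn : 1 ≤ n) (hPd : P.natDegree ≤ m) (hQd : Q.natDegree ≤ n)
    (hP : ev m P p = 0) (hQ : ev n Q p = 0) : dv (m + n) (P * Q) p := by
  cases p with
  | none =>
    have h1 : P.coeff m = 0 := hP
    have h2 : Q.coeff n = 0 := hQ
    rw [natDegree_le_iff_coeff_eq_zero] at hPd hQd
    have hPz : ∀ k, m ≤ k → P.coeff k = 0 := by
      intro k hk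
      rcases Nat.lt_or_ge m k with h3 | h3
      · exact hPd k h3
      · have : k = m := by omega
        rw [this]; exact h1
    have hQz : ∀ k, n ≤ k → Q.coeff k = 0 := by
      intro k hk
      rcases Nat.lt_or_ge n k with h3 | h3
      · exact hQd k h3
      · have : k = n := by omega
        rw [this]; exact h2
    refine ⟨?_, ?_⟩
    · rw [coeff_mul]
      apply Finset.sum_eq_zero
      rintro ⟨i, j⟩ hij
      have hij' : i + j = m + n := Finset.HasAntidiagonal.mem_antidiagonal.1 hij
      rcases Nat.lt_or_ge i m with h3 | h3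
      · rw [hQz j (by omega), mul_zero]
      · rw [hPz i h3, zero_mul]
    · rw [coeff_mul]
      apply Finset.sum_eq_zero
      rintro ⟨i, j⟩ hij
      have hij' : i + j = m + n - 1 := Finset.HasAntidiagonal.mem_antidiagonal.1 hij
      rcases Nat.lt_or_ge i m with h3 | h3
      · rw [hQz j (by omega), mul_zero]
      · rw [hPz i h3, zero_mul]
  | some t =>
    have h1 : P.eval t = 0 := hP
    have h2 : Q.eval t = 0 := hQ
    refine ⟨?_, ?_⟩
    · rw [eval_mul, h1, zero_mul]
    · rw [derivative_mul, eval_add, eval_mul, eval_mul, h1, h2]; ring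

theorem dv_of_dv_mul (hn : 1 ≤ n) (hPd : P.natDegree ≤ m) (hQd : Q.natDegree ≤ n)
    (h : dv (m + n) (P * Q) p) (hP : ev m P p ≠ 0) : dv n Q p := by
  cases p with
  | none =>
    have hP' : P.coeff m ≠ 0 := hP
    obtain ⟨h1, h2⟩ := h
    rw [coeff_mul_add_eq_of_natDegree_le hPd hQd] at h1
    have h3 : Q.coeff n = 0 := (mul_eq_zero.1 h1).resolve_left hP'
    have hQd' : Q.natDegree ≤ n - 1 := by
      rw [natDegree_le_iff_coeff_eq_zero] at hQd ⊢
      intro k hk
      rcases Nat.lt_or_ge n k with h4 | h4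
      · exact hQd k h4
      · have : k = n := by omega
        rw [this]; exact h3
    have e : m + n - 1 = m + (n - 1) := by omega
    rw [e, coeff_mul_add_eq_of_natDegree_le hPd hQd'] at h2
    exact ⟨h3, (mul_eq_zero.1 h2).resolve_left hP'⟩
  | some t =>
    have hP' : P.eval t ≠ 0 := hP
    obtain ⟨h1, h2⟩ := h
    rw [eval_mul] at h1
    have h3 : Q.eval t = 0 := (mul_eq_zero.1 h1).resolve_left hP'
    rw [derivative_mul, eval_add, eval_mul, eval_mul, h3, mul_zero, zero_add] at h2
    exact ⟨h3, (mul_eq_zero.1 h2).resolve_left hP'⟩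

theorem dv_lin_mul {r : Option L} (hn : 1 ≤ n) (hQ : Q.natDegree ≤ n)
    (h : dv (n + 1) (lin r * Q) r) : ev n Q r = 0 := by
  cases r with
  | none =>
    obtain ⟨h1, h2⟩ := h
    simpa [lin, ev] using h2
  | some t =>
    obtain ⟨h1, h2⟩ := h
    simpa [lin, ev, derivative_mul] using h2

theorem dv_iff {r : Option L} (hn : 2 ≤ n) (hP : P.natDegree ≤ n) :
    dv n P r ↔ ∃ Q : L[X], Q.natDegree ≤ n - 2 ∧ P = lin r ^ 2 * Q := by
  obtain ⟨k, rfl⟩ : ∃ k, n = k + 2 := ⟨n - 2, by omega⟩
  rw [Nat.add_sub_cancel]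
  constructor
  · intro h
    obtain ⟨Q, hQ, rfl⟩ := exists_mul_lin (n := k + 1) hP (dv_ev h)
    have h1 := dv_lin_mul (by omega) hQ h
    obtain ⟨R, hR, rfl⟩ := exists_mul_lin hQ h1
    exact ⟨R, hR, by ring⟩
  · rintro ⟨Q, hQ, rfl⟩
    have h1 : dv (1 + 1) (lin r * lin r) r :=
      dv_mul_of_ev le_rfl le_rfl (natDegree_lin r) (natDegree_lin r) ((ev_lin r).2 rfl)
        ((ev_lin r).2 rfl)
    have h2 : (lin r * lin r).natDegree ≤ 1 + 1 :=
      natDegree_mul_le_of_le (natDegree_lin r) (natDegree_lin r)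
    have h3 := dv_mul_right (by omega) h2 hQ h1
    rw [sq]
    have e : k + 2 = 1 + 1 + k := by omega
    rw [e]
    exact h3

theorem natDegree_lin_sq (r : Option L) : (lin r ^ 2).natDegree ≤ 2 := by
  have := natDegree_pow_le_of_le 2 (natDegree_lin r)
  simpa using this

theorem natDegree_BT_sq (T : Finset (Option L)) : (BT T ^ 2).natDegree ≤ 2 * T.card :=
  natDegree_pow_le_of_le 2 (natDegree_BT T)

theorem ev_BT_sq (T : Finset (Option L)) : ev (2 * T.card) (BT T ^ 2) p = 0 ↔ p ∈ T := by
  rw [mul_comm, ev_pow (natDegree_BT T), pow_eq_zero_iff two_ne_zero, ev_BT]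

theorem ev_lin_sq (r : Option L) : ev 2 (lin r ^ 2) p = 0 ↔ p = r := by
  have h := ev_pow (p := p) (natDegree_lin r) 2
  rw [one_mul] at h
  rw [h, pow_eq_zero_iff two_ne_zero, ev_lin]

theorem exists_mul_BT_sq {T : Finset (Option L)} (hP : P.natDegree ≤ n) (hT : 2 * T.card ≤ n)
    (h : ∀ p ∈ T, dv n P p) :
    ∃ Q : L[X], Q.natDegree ≤ n - 2 * T.card ∧ P = BT T ^ 2 * Q := by
  induction T using Finset.induction_on generalizing n P with
  | empty => exact ⟨P, by simpa using hP, by simp [BT]⟩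
  | insert a T ha ih =>
    rw [Finset.card_insert_of_notMem ha] at hT
    obtain ⟨k, rfl⟩ : ∃ k, n = k + 2 := ⟨n - 2, by omega⟩
    obtain ⟨Q, hQ, rfl⟩ := (dv_iff (by omega) hP).1 (h a (Finset.mem_insert_self a T))
    rw [Nat.add_sub_cancel] at hQ
    obtain ⟨R, hR, rfl⟩ := ih hQ (by omega) (by
      intro p hp
      have h1 := h p (Finset.mem_insert_of_mem hp)
      have hk : 1 ≤ k := by
        have := Finset.card_pos.2 ⟨p, hp⟩
        omega
      rw [add_comm k 2] at h1
      refine dv_of_dv_mul hk (natDegree_lin_sq a) hQ h1 ?_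
      rw [Ne, ev_lin_sq]
      rintro rfl
      exact ha hp)
    refine ⟨R, ?_, ?_⟩
    · rw [Finset.card_insert_of_notMem ha]
      omega
    · rw [BT_insert ha]; ring

theorem eq_zero_of_dv {T : Finset (Option L)} (hP : P.natDegree ≤ n) (hT : n < 2 * T.card)
    (h : ∀ p ∈ T, dv n P p) : P = 0 := by
  obtain ⟨S, hS, hSc⟩ := Finset.exists_subset_card_eq (show n / 2 ≤ T.card by omega)
  have h2S : 2 * S.card ≤ n := by rw [hSc]; omega
  obtain ⟨Q, hQ, hPQ⟩ := exists_mul_BT_sq (T := S) hP h2S (fun p hp => h p (hS hp))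
  have hne : ∃ p ∈ T, p ∉ S := by
    by_contra hcon
    push Not at hcon
    have := Finset.card_le_card (show T ⊆ S from hcon)
    omega
  obtain ⟨p, hpT, hpS⟩ := hne
  have h1 := h p hpT
  have hB : ev (2 * S.card) (BT S ^ 2) p ≠ 0 := by rw [Ne, ev_BT_sq]; exact hpS
  have hn : n = 2 * S.card + (n - 2 * S.card) := by omega
  rcases Nat.lt_or_ge (n - 2 * S.card) 1 with h3 | h3
  · have hk : n - 2 * S.card = 0 := by omega
    rw [hk] at hQ hn
    have h4 := dv_ev h1
    rw [hn, hPQ, ev_mul (natDegree_BT_sq S) hQ] at h4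
    have h5 : ev 0 Q p = 0 := (mul_eq_zero.1 h4).resolve_left hB
    have hQc : Q = C (Q.coeff 0) := eq_C_of_natDegree_le_zero hQ
    rw [hQc, ev_C_zero] at h5
    rw [hPQ, hQc, h5, C_0, mul_zero]
  · have hk : n - 2 * S.card = 1 := by omega
    rw [hk] at hQ hn
    rw [hn, hPQ] at h1
    have h4 := dv_of_dv_mul le_rfl (natDegree_BT_sq S) hQ h1 hB
    have hQ0 : Q = 0 := by
      cases p with
      | none =>
        obtain ⟨h5, h6⟩ := h4
        rw [eq_X_add_C_of_natDegree_le_one hQ, h5, h6]
        simp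
      | some t =>
        obtain ⟨h5, h6⟩ := h4
        rw [eq_X_add_C_of_natDegree_le_one hQ] at h5 h6
        simp only [derivative_add, derivative_mul, derivative_C, derivative_X, zero_mul, mul_one,
          zero_add, add_zero, eval_C] at h6
        rw [h6] at h5
        simp only [C_0, zero_mul, zero_add, eval_C] at h5
        rw [eq_X_add_C_of_natDegree_le_one hQ, h5, h6]
        simp
    rw [hPQ, hQ0, mul_zero]

/-- mixed version: double zeros at `S`, simple zeros at `T` -/
theorem eq_zero_of_dv_ev {S T : Finset (Option L)} (hP : P.natDegree ≤ n) (hST : Disjoint S T)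
    (hT : n < 2 * S.card + T.card) (hS : ∀ p ∈ S, dv n P p) (h : ∀ p ∈ T, ev n P p = 0) :
    P = 0 := by
  rcases Nat.lt_or_ge n (2 * S.card) with h1 | h1
  · exact eq_zero_of_dv hP h1 hS
  · obtain ⟨Q, hQ, hPQ⟩ := exists_mul_BT_sq hP h1 hS
    have hQ0 : Q = 0 := by
      refine eq_zero_of_ev (T := T) hQ (by omega) ?_
      intro p hp
      have h2 := h p hp
      have hn : n = 2 * S.card + (n - 2 * S.card) := by omega
      rw [hn, hPQ, ev_mul (natDegree_BT_sq S) hQ] at h2
      refine (mul_eq_zero.1 h2).resolve_left ?_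
      rw [ev_BT_sq]
      intro hpS
      exact Finset.disjoint_left.1 hST hpS hp
    rw [hPQ, hQ0, mul_zero]

/-- a form of degree `k` which does not vanish at `p` -/
theorem exists_ev_ne (k : ℕ) (p : Option L) : ∃ U : L[X], U.natDegree ≤ k ∧ ev k U p ≠ 0 := by
  cases p with
  | none => exact ⟨X ^ k, by simp, by simp [ev]⟩
  | some t => exact ⟨1, by simp, by simp [ev]⟩

/-- interpolation -/
theorem exists_interp {T : Finset (Option L)} (hT : T.card ≤ n + 1) (g : Option L → L) :
    ∃ P : L[X], P.natDegree ≤ n ∧ ∀ p ∈ T, ev n P p = g p := by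
  induction T using Finset.induction_on with
  | empty => exact ⟨0, by simp, by simp⟩
  | insert a T ha ih =>
    rw [Finset.card_insert_of_notMem ha] at hT
    obtain ⟨P, hP, hPe⟩ := ih (by omega)
    obtain ⟨U, hU, hUe⟩ := exists_ev_ne (n - T.card) a
    have hn : n = T.card + (n - T.card) := by omega
    have hR : (BT T * U).natDegree ≤ n := by
      rw [hn]
      exact natDegree_mul_le_of_le (natDegree_BT T) hU
    have hRe : ∀ p, ev n (BT T * U) p = ev T.card (BT T) p * ev (n - T.card) U p := by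
      intro p
      have := ev_mul (p := p) (natDegree_BT T) hU
      rwa [← hn] at this
    have hRa : ev n (BT T * U) a ≠ 0 := by
      rw [hRe]
      refine mul_ne_zero ?_ hUe
      rw [Ne, ev_BT]; exact ha
    refine ⟨P + C ((g a - ev n P a) / ev n (BT T * U) a) * (BT T * U), ?_, ?_⟩
    · refine natDegree_add_le_of_degree_le hP ?_
      exact (natDegree_C_mul_le _ _).trans hR
    · intro p hp
      rw [ev_add, ev_C_mul]
      rcases Finset.mem_insert.1 hp with rfl | hp
      · field_simp
        ring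
      · rw [hRe p, (ev_BT T).2 hp, zero_mul, mul_zero, add_zero]
        exact hPe p hp

theorem finite_zeros (hP : P.natDegree ≤ n) (h0 : P ≠ 0) : {p | ev n P p = 0}.Finite := by
  by_contra hinf
  obtain ⟨T, hT, hTc⟩ := Set.Infinite.exists_subset_card_eq hinf (n + 1)
  exact h0 (eq_zero_of_ev (T := T) hP (by omega) (fun p hp => hT hp))

theorem ncard_zeros (hP : P.natDegree ≤ n) (h0 : P ≠ 0) : Set.ncard {p | ev n P p = 0} ≤ n := by
  have hfin := finite_zeros hP h0
  rw [Set.ncard_eq_toFinset_card _ hfin]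
  by_contra hcon
  push Not at hcon
  exact h0 (eq_zero_of_ev (T := hfin.toFinset) hP hcon (fun p hp => by
    simpa using hp))

theorem exists_zero [IsAlgClosed L] (hn : 1 ≤ n) (hP : P.natDegree ≤ n) :
    ∃ p, ev n P p = 0 := by
  by_cases h : P.coeff n = 0
  · exact ⟨none, h⟩
  · have h1 : P.natDegree = n := le_antisymm hP (le_natDegree_of_ne_zero h)
    obtain ⟨t, ht⟩ := IsAlgClosed.exists_root P (by
      intro h2
      have h3 : P.natDegree = 0 := natDegree_eq_of_degree_eq_some h2
      rw [h1] at h3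
      exact absurd h3 (by omega))
    exact ⟨some t, ht⟩

/-- a form of degree 1 which vanishes only at the given point -/
theorem eq_C_mul_lin {r : Option L} (hP : P.natDegree ≤ 1) (h : ev 1 P r = 0) :
    ∃ c : L, P = C c * lin r := by
  obtain ⟨Q, hQ, rfl⟩ := exists_mul_lin (n := 0) hP h
  refine ⟨Q.coeff 0, ?_⟩
  rw [← eq_C_of_natDegree_le_zero hQ, mul_comm]

end

end
end Pool.Agent.Helper19.DP1
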