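import Pool.Agent.Helper19.DP1.Defs

/-! Core3a: forms over `K`, base change, Frobenius, descent. -/

namespace Pool.Agent.Helper19.DP1
open Polynomial Classical
noncomputable section

set_option linter.unusedSectionVars false

section
variable {K : Type*} [Field K] [Fintype K] {m n l : ℕ}

/-! ### the finite sets `V`, `Mon` -/

theorem c3a_coeff_sum (c : Fin n → K) (j : Fin n) :
    (∑ i : Fin n, C (c i) * X ^ (i : ℕ) : K[X]).coeff (j : ℕ) = c j := by
  rw [finsetSum_coeff, Finset.sum_eq_single j]
  · simp
  · intro i _ hi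
    rw [coeff_C_mul_X_pow, if_neg]
    intro h
    exact hi (Fin.ext h.symm)
  · intro h
    exact absurd (Finset.mem_univ _) h

theorem c3a_natDegree_sum (c : Fin (n + 1) → K) :
    (∑ i : Fin (n + 1), C (c i) * X ^ (i : ℕ) : K[X]).natDegree ≤ n := by
  apply natDegree_sum_le_of_forall_le
  intro i _
  refine (natDegree_C_mul_X_pow_le _ _).trans ?_
  exact Nat.lt_succ_iff.mp i.2

theorem c3a_degree_sum (c : Fin n → K) :
    (∑ i : Fin n, C (c i) * X ^ (i : ℕ) : K[X]).degree < n := by
  rcases Nat.eq_zero_or_pos n with h | h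
  · subst h
    simp
  · refine lt_of_le_of_lt (degree_sum_le _ _) ?_
    rw [Finset.sup_lt_iff (by rw [bot_lt_iff_ne_bot]; simp)]
    intro i _
    refine lt_of_le_of_lt (degree_C_mul_X_pow_le _ _) ?_
    exact_mod_cast i.2

theorem c3a_inj : Function.Injective
    (fun c : Fin n → K => (∑ i : Fin n, C (c i) * X ^ (i : ℕ) : K[X])) := by
  intro c d h
  funext j
  rw [← c3a_coeff_sum c j, ← c3a_coeff_sum d j]
  exact congrArg (fun P : K[X] => P.coeff (j : ℕ)) h

theorem mem_V {P : K[X]} : P ∈ V K n ↔ P.natDegree ≤ n := by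
  unfold V
  rw [Finset.mem_image]
  constructor
  · rintro ⟨c, -, rfl⟩
    exact c3a_natDegree_sum c
  · intro h
    refine ⟨fun i => P.coeff i, Finset.mem_univ _, ?_⟩
    rw [Fin.sum_univ_eq_sum_range (fun i => C (P.coeff i) * X ^ i) (n + 1)]
    exact (as_sum_range_C_mul_X_pow' P (Nat.lt_succ_of_le h)).symm

theorem card_V : (V K n).card = Fintype.card K ^ (n + 1) := by
  unfold V
  rw [Finset.card_image_of_injective _ c3a_inj, Finset.card_univ, Fintype.card_fun,
    Fintype.card_fin]

theorem mem_Mon {P : K[X]} : P ∈ Mon K n ↔ P.Monic ∧ P.natDegree = n := by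
  unfold Mon
  rw [Finset.mem_image]
  constructor
  · rintro ⟨c, -, rfl⟩
    have hd := c3a_degree_sum c
    refine ⟨monic_X_pow_add hd, natDegree_eq_of_degree_eq_some ?_⟩
    rw [degree_add_eq_left_of_degree_lt (by rw [degree_X_pow]; exact hd), degree_X_pow]
  · rintro ⟨hm, hn⟩
    refine ⟨fun i => P.coeff i, Finset.mem_univ _, ?_⟩
    rw [Fin.sum_univ_eq_sum_range (fun i => C (P.coeff i) * X ^ i) n]
    have := hm.as_sum
    rw [hn] at this
    exact this.symm

theorem card_Mon : (Mon K n).card = Fintype.card K ^ n := by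
  unfold Mon
  rw [Finset.card_image_of_injective _ (by
    intro c d h
    exact c3a_inj (add_left_cancel h)), Finset.card_univ, Fintype.card_fun, Fintype.card_fin]

/-- sums over `V` in coordinates -/
theorem sum_V {M : Type*} [AddCommMonoid M] (f : K[X] → M) :
    ∑ P ∈ V K n, f P = ∑ c : Fin (n + 1) → K, f (∑ i : Fin (n + 1), C (c i) * X ^ (i : ℕ)) := by
  unfold V
  rw [Finset.sum_image (fun c _ d _ h => c3a_inj h)]

theorem sum_V1 {M : Type*} [AddCommMonoid M] (f : K[X] → M) :
    ∑ P ∈ V K 1, f P = ∑ a : K, ∑ b : K, f (C a * X + C b) := by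
  rw [sum_V, ← Fintype.sum_prod_type' (fun a b : K => f (C a * X + C b))]
  refine Fintype.sum_equiv ⟨fun c => (c 1, c 0), fun p => ![p.2, p.1], ?_, ?_⟩ _ _ ?_
  · intro c
    funext i
    fin_cases i <;> rfl
  · intro p
    rfl
  · intro c
    show f (∑ i : Fin 2, C (c i) * X ^ (i : ℕ)) = f (C (c 1) * X + C (c 0))
    rw [Fin.sum_univ_two]
    congr 1
    simp [add_comm]

theorem sum_V2 {M : Type*} [AddCommMonoid M] (f : K[X] → M) :
    ∑ P ∈ V K 2, f P = ∑ a : K, ∑ b : K, ∑ c : K, f (C a * X ^ 2 + C b * X + C c) := by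
  have h1 : ∑ a : K, ∑ b : K, ∑ c : K, f (C a * X ^ 2 + C b * X + C c) =
      ∑ p : K × K × K, f (C p.1 * X ^ 2 + C p.2.1 * X + C p.2.2) := by
    rw [Fintype.sum_prod_type]
    refine Finset.sum_congr rfl fun a _ => ?_
    rw [Fintype.sum_prod_type]
  rw [sum_V, h1]
  refine Fintype.sum_equiv ⟨fun c => (c 2, c 1, c 0), fun p => ![p.2.2, p.2.1, p.1], ?_, ?_⟩ _ _ ?_
  · intro c
    funext i
    fin_cases i <;> rfl
  · intro p
    rfl
  · intro c
    show f (∑ i : Fin 3, C (c i) * X ^ (i : ℕ)) = f (C (c 2) * X ^ 2 + C (c 1) * X + C (c 0))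
    rw [Fin.sum_univ_three]
    congr 1
    show C (c 0) * X ^ 0 + C (c 1) * X ^ 1 + C (c 2) * X ^ 2 =
      (C (c 2) * X ^ 2 + C (c 1) * X + C (c 0) : K[X])
    ring

/-! ### base change -/

theorem up_zero : up (0 : K[X]) = 0 := by simp [up]
theorem up_add (P Q : K[X]) : up (P + Q) = up P + up Q := by simp [up]
theorem up_sub (P Q : K[X]) : up (P - Q) = up P - up Q := by simp [up]
theorem up_mul (P Q : K[X]) : up (P * Q) = up P * up Q := by simp [up]
theorem up_pow (P : K[X]) (k : ℕ) : up (P ^ k) = up P ^ k := by simp [up]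
theorem up_C (a : K) : up (C a) = C (algebraMap K (Om K) a) := by simp [up]
theorem up_X : up (X : K[X]) = X := by simp [up]
theorem up_injective : Function.Injective (up : K[X] → (Om K)[X]) :=
  map_injective _ (algebraMap K (Om K)).injective
theorem natDegree_up (P : K[X]) : (up P).natDegree = P.natDegree := natDegree_map _
theorem coeff_up (P : K[X]) (i : ℕ) : (up P).coeff i = algebraMap K (Om K) (P.coeff i) :=
  coeff_map _ _
theorem derivative_up (P : K[X]) : derivative (up P) = up (derivative P) := derivative_map _ _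
theorem disc2_up (P : K[X]) : disc2 (up P) = algebraMap K (Om K) (disc2 P) := by
  have h4 : algebraMap K (Om K) 4 = 4 := map_ofNat _ 4
  simp only [disc2, coeff_up, map_sub, map_mul, map_pow, h4]
theorem pol2_up (P Q : K[X]) : pol2 (up P) (up Q) = algebraMap K (Om K) (pol2 P Q) := by
  have h4 : algebraMap K (Om K) 4 = 4 := map_ofNat _ 4
  have h2 : algebraMap K (Om K) 2 = 2 := map_ofNat _ 2
  simp only [pol2, coeff_up, map_sub, map_mul, h4, h2]
theorem up2_cub (a : K[X] × K[X] × K[X]) :
    up2 (cub a) = cub (up a.1, up a.2.1, up a.2.2) := by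
  simp [up2, cub, up]
theorem up2_quart (c : K[X] × K[X] × K[X] × K[X]) :
    up2 (quart c) = quart (up c.1, up c.2.1, up c.2.2.1, up c.2.2.2) := by
  simp [up2, quart, up]

/-! ### Frobenius -/

theorem pow_card_add (x y : Om K) :
    (x + y) ^ Fintype.card K = x ^ Fintype.card K + y ^ Fintype.card K :=
  map_add (FiniteField.frobeniusAlgHom K (Om K)) x y

theorem pow_card_injective : Function.Injective (fun x : Om K => x ^ Fintype.card K) :=
  (FiniteField.frobeniusAlgHom K (Om K)).toRingHom.injective

/-- descent for elements -/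
theorem pow_card_eq_iff {x : Om K} :
    x ^ Fintype.card K = x ↔ ∃ a : K, algebraMap K (Om K) a = x := by
  constructor
  · intro hx
    have hq : 1 < Fintype.card K := Fintype.one_lt_card
    have hne : (X ^ Fintype.card K - X : (Om K)[X]) ≠ 0 :=
      FiniteField.X_pow_card_sub_X_ne_zero _ hq
    have hsub : (Finset.univ.image (algebraMap K (Om K))) ⊆
        (X ^ Fintype.card K - X : (Om K)[X]).roots.toFinset := by
      intro y hy
      rw [Finset.mem_image] at hy
      obtain ⟨a, -, rfl⟩ := hy
      rw [Multiset.mem_toFinset, mem_roots hne, IsRoot.def, eval_sub, eval_pow, eval_X,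
        ← map_pow, FiniteField.pow_card, sub_self]
    have hcard : (X ^ Fintype.card K - X : (Om K)[X]).roots.toFinset.card ≤
        (Finset.univ.image (algebraMap K (Om K))).card := by
      rw [Finset.card_image_of_injective _ (algebraMap K (Om K)).injective, Finset.card_univ]
      refine (Multiset.toFinset_card_le _).trans ?_
      refine (card_roots' _).trans ?_
      rw [FiniteField.X_pow_card_sub_X_natDegree_eq _ hq]
    have heq := Finset.eq_of_subset_of_card_le hsub hcard
    have hmem : x ∈ (X ^ Fintype.card K - X : (Om K)[X]).roots.toFinset := by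
      rw [Multiset.mem_toFinset, mem_roots hne, IsRoot.def, eval_sub, eval_pow, eval_X, hx,
        sub_self]
    rw [← heq, Finset.mem_image] at hmem
    obtain ⟨a, -, ha⟩ := hmem
    exact ⟨a, ha⟩
  · rintro ⟨a, rfl⟩
    rw [← map_pow, FiniteField.pow_card]

theorem frob_injective : Function.Injective (frob K) :=
  Option.map_injective pow_card_injective

theorem frob_upP (r : Option K) : frob K (upP r) = upP r := by
  cases r with
  | none => rfl
  | some a =>
    show some ((algebraMap K (Om K) a) ^ Fintype.card K) = some (algebraMap K (Om K) a)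
    rw [pow_card_eq_iff.mpr ⟨a, rfl⟩]

theorem upP_injective : Function.Injective (upP : Option K → P1 K) :=
  Option.map_injective (algebraMap K (Om K)).injective

theorem frob_eq_iff {p : P1 K} : frob K p = p ↔ ∃ r : Option K, upP r = p := by
  constructor
  · intro h
    cases p with
    | none => exact ⟨none, rfl⟩
    | some x =>
      have h1 : some (x ^ Fintype.card K) = some x := h
      obtain ⟨a, ha⟩ := pow_card_eq_iff.mp (Option.some_injective _ h1)
      refine ⟨some a, ?_⟩
      show some (algebraMap K (Om K) a) = some x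
      rw [ha]
  · rintro ⟨r, rfl⟩
    exact frob_upP r

theorem ev_upP (P : K[X]) (r : Option K) :
    ev n (up P) (upP r) = algebraMap K (Om K) (ev n P r) := by
  cases r with
  | none => exact coeff_up P n
  | some a =>
    show (up P).eval (algebraMap K (Om K) a) = algebraMap K (Om K) (P.eval a)
    unfold up
    rw [eval_map, eval₂_at_apply]

theorem c3a_alg_eq_zero {a : K} : algebraMap K (Om K) a = 0 ↔ a = 0 :=
  map_eq_zero_iff _ (algebraMap K (Om K)).injective

theorem dv_upP (P : K[X]) (r : Option K) : dv n (up P) (upP r) ↔ dv n P r := by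
  cases r with
  | none =>
    show ((up P).coeff n = 0 ∧ (up P).coeff (n - 1) = 0) ↔ (P.coeff n = 0 ∧ P.coeff (n - 1) = 0)
    rw [coeff_up, coeff_up, c3a_alg_eq_zero, c3a_alg_eq_zero]
  | some a =>
    show ((up P).eval (algebraMap K (Om K) a) = 0 ∧
      (derivative (up P)).eval (algebraMap K (Om K) a) = 0) ↔
      (P.eval a = 0 ∧ (derivative P).eval a = 0)
    rw [derivative_up]
    unfold up
    rw [eval_map, eval₂_at_apply, eval_map, eval₂_at_apply, c3a_alg_eq_zero, c3a_alg_eq_zero]

theorem lin_upP (r : Option K) : lin (upP r) = up (lin r) := by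
  cases r with
  | none =>
    show (1 : (Om K)[X]) = up 1
    simp [up]
  | some a =>
    show (X - C (algebraMap K (Om K) a) : (Om K)[X]) = up (X - C a)
    simp [up]

theorem phi_coeff (P : (Om K)[X]) (i : ℕ) : (phi K P).coeff i = P.coeff i ^ Fintype.card K := by
  unfold phi
  rw [coe_mapRingHom, coeff_map]
  rfl

theorem phi_C (a : Om K) : phi K (C a) = C (a ^ Fintype.card K) := by
  unfold phi
  rw [coe_mapRingHom, map_C]
  rfl

theorem c3a_phi_X : phi K (X : (Om K)[X]) = X := by
  unfold phi
  rw [coe_mapRingHom, map_X]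

theorem phi_injective : Function.Injective (phi K) := by
  unfold phi
  rw [coe_mapRingHom]
  exact map_injective _ (FiniteField.frobeniusAlgHom K (Om K)).toRingHom.injective

theorem natDegree_phi (P : (Om K)[X]) : (phi K P).natDegree = P.natDegree := by
  unfold phi
  rw [coe_mapRingHom]
  exact natDegree_map _

theorem phi_up (P : K[X]) : phi K (up P) = up P := by
  ext i
  rw [phi_coeff, coeff_up, pow_card_eq_iff.mpr ⟨_, rfl⟩]

/-- descent for forms -/
theorem phi_eq_iff {P : (Om K)[X]} : phi K P = P ↔ ∃ P0 : K[X], up P0 = P := by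
  constructor
  · intro h
    have h1 : ∀ i, ∃ a : K, algebraMap K (Om K) a = P.coeff i := by
      intro i
      apply pow_card_eq_iff.mp
      rw [← phi_coeff, h]
    choose a ha using h1
    refine ⟨∑ i ∈ Finset.range (P.natDegree + 1), C (a i) * X ^ i, ?_⟩
    conv_rhs => rw [P.as_sum_range_C_mul_X_pow]
    unfold up
    rw [Polynomial.map_sum]
    refine Finset.sum_congr rfl fun i _ => ?_
    rw [Polynomial.map_mul, map_C, Polynomial.map_pow, map_X, ha]
  · rintro ⟨P0, rfl⟩
    exact phi_up P0

theorem c3a_eval_phi (P : (Om K)[X]) (x : Om K) :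
    (phi K P).eval (x ^ Fintype.card K) = (P.eval x) ^ Fintype.card K := by
  unfold phi
  rw [coe_mapRingHom, eval_map]
  exact eval₂_at_apply (FiniteField.frobeniusAlgHom K (Om K)).toRingHom x

theorem ev_phi (P : (Om K)[X]) (p : P1 K) :
    ev n (phi K P) (frob K p) = ev n P p ^ Fintype.card K := by
  cases p with
  | none => exact phi_coeff P n
  | some x => exact c3a_eval_phi P x

theorem c3a_derivative_phi (P : (Om K)[X]) : derivative (phi K P) = phi K (derivative P) := by
  unfold phi
  rw [coe_mapRingHom]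
  exact derivative_map _ _

theorem c3a_pow_eq_zero {x : Om K} : x ^ Fintype.card K = 0 ↔ x = 0 :=
  pow_eq_zero_iff Fintype.card_ne_zero

theorem dv_phi (P : (Om K)[X]) (p : P1 K) : dv n (phi K P) (frob K p) ↔ dv n P p := by
  cases p with
  | none =>
    show ((phi K P).coeff n = 0 ∧ (phi K P).coeff (n - 1) = 0) ↔
      (P.coeff n = 0 ∧ P.coeff (n - 1) = 0)
    rw [phi_coeff, phi_coeff, c3a_pow_eq_zero, c3a_pow_eq_zero]
  | some x =>
    show ((phi K P).eval (x ^ Fintype.card K) = 0 ∧
      (derivative (phi K P)).eval (x ^ Fintype.card K) = 0) ↔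
      (P.eval x = 0 ∧ (derivative P).eval x = 0)
    rw [c3a_derivative_phi, c3a_eval_phi, c3a_eval_phi, c3a_pow_eq_zero, c3a_pow_eq_zero]

theorem ev_up_frob (P : K[X]) (p : P1 K) :
    ev n (up P) (frob K p) = ev n (up P) p ^ Fintype.card K := by
  rw [← ev_phi, phi_up]

theorem dv_up_frob (P : K[X]) (p : P1 K) : dv n (up P) (frob K p) ↔ dv n (up P) p := by
  rw [← dv_phi (up P) p, phi_up]

theorem phi_lin (r : P1 K) : phi K (lin r) = lin (frob K r) := by
  cases r with
  | none => exact map_one _
  | some x =>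
    show phi K (X - C x) = X - C (x ^ Fintype.card K)
    rw [map_sub, phi_C, c3a_phi_X]

theorem phi_BT (T : Finset (P1 K)) : phi K (BT T) = BT (T.image (frob K)) := by
  unfold BT
  rw [map_prod, Finset.prod_image (fun x _ y _ h => frob_injective h)]
  exact Finset.prod_congr rfl fun p _ => phi_lin p

end

end
end Pool.Agent.Helper19.DP1
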