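import Pool.Agent.Helper19.DP1.Core1a
import Pool.Agent.Helper19.DP1.Core2a
import Pool.Agent.Helper19.DP1.Core3a

/-! Core3b: stable sets, counting forms with prescribed values. -/

namespace Pool.Agent.Helper19.DP1
open Polynomial Classical
noncomputable section

section
variable {K : Type*} [Field K] [Fintype K] {m n l : ℕ}

/-! ### stable sets -/

theorem c3b_frob_iter (N : ℕ) (t : Om K) :
    (frob K)^[N] (some t) = some (t ^ (Fintype.card K ^ N)) := by
  induction N with
  | zero => simp
  | succ N ih =>
    rw [Function.iterate_succ_apply', ih]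
    show some ((t ^ (Fintype.card K ^ N)) ^ Fintype.card K) = _
    rw [← pow_mul, pow_succ]

theorem c3b_fix_finite {N : ℕ} (hN : 0 < N) : {p : P1 K | (frob K)^[N] p = p}.Finite := by
  have hq : 1 < Fintype.card K := Fintype.one_lt_card
  have h1 : 1 < Fintype.card K ^ N := Nat.one_lt_pow hN.ne' hq
  have hne : (X ^ (Fintype.card K ^ N) - X : (Om K)[X]) ≠ 0 := FiniteField.X_pow_card_sub_X_ne_zero _ h1
  have hsub : {p : P1 K | (frob K)^[N] p = p} ⊆
      insert none (some '' ((X ^ (Fintype.card K ^ N) - X : (Om K)[X]).rootSet (Om K))) := by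
    intro p hp
    cases p with
    | none => exact Set.mem_insert _ _
    | some t =>
      right
      refine ⟨t, ?_, rfl⟩
      rw [mem_rootSet]
      refine ⟨hne, ?_⟩
      have hp' : (frob K)^[N] (some t) = some t := hp
      rw [c3b_frob_iter] at hp'
      have := Option.some.inj hp'
      simp [this]
  refine Set.Finite.subset ?_ hsub
  exact ((rootSet_finite _ _).image _).insert _

theorem c3b_stab_finite (l : ℕ) :
    {T : Finset (P1 K) | IsStabG (frob K) T ∧ T.card = l}.Finite := by
  have hfix := c3b_fix_finite (K := K) (Nat.factorial_pos l)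
  have hsub : {T : Finset (P1 K) | IsStabG (frob K) T ∧ T.card = l} ⊆
      ((hfix.toFinset.powerset : Finset (Finset (P1 K))) : Set (Finset (P1 K))) := by
    rintro T ⟨hT, hc⟩
    rw [Finset.mem_coe, Finset.mem_powerset]
    intro x hx
    rw [Set.Finite.mem_toFinset, Set.mem_ofPred_eq]
    -- pigeonhole
    have hni : ¬ Function.Injective
        (fun n : Fin (l + 1) => (⟨(frob K)^[n] x, iter_mem hT hx n⟩ : T)) := by
      intro hinj
      have := Fintype.card_le_of_injective _ hinj
      rw [Fintype.card_fin, Fintype.card_coe, hc] at this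
      omega
    unfold Function.Injective at hni
    push Not at hni
    obtain ⟨a, b, hab, hne⟩ := hni
    have hab' : (frob K)^[(a : ℕ)] x = (frob K)^[(b : ℕ)] x := congrArg Subtype.val hab
    have key : ∃ k, 0 < k ∧ k ≤ l ∧ (frob K)^[k] x = x := by
      have hne' : (a : ℕ) ≠ b := fun h => hne (Fin.ext h)
      have ha := a.2
      have hb := b.2
      rcases lt_or_gt_of_ne hne' with hlt | hlt
      · refine ⟨b - a, by omega, by omega, ?_⟩
        have : (frob K)^[(a : ℕ)] ((frob K)^[(b : ℕ) - a] x) = (frob K)^[(a : ℕ)] x := by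
          rw [← Function.iterate_add_apply, show (a : ℕ) + (b - a) = b by omega, hab']
        exact frob_injective.iterate _ this
      · refine ⟨a - b, by omega, by omega, ?_⟩
        have : (frob K)^[(b : ℕ)] ((frob K)^[(a : ℕ) - b] x) = (frob K)^[(b : ℕ)] x := by
          rw [← Function.iterate_add_apply, show (b : ℕ) + (a - b) = a by omega, ← hab']
        exact frob_injective.iterate _ this
    obtain ⟨k, hk0, hkl, hk⟩ := key
    obtain ⟨c, hc'⟩ := Nat.dvd_factorial hk0 hkl
    rw [hc', Function.iterate_mul]
    have : Function.IsFixedPt ((frob K)^[k]) x := hk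
    exact this.iterate c
  exact (Finset.finite_toSet _).subset hsub

theorem mem_Stab {T : Finset (P1 K)} : T ∈ Stab K l ↔ IsStabG (frob K) T ∧ T.card = l := by
  unfold Stab
  rw [dif_pos (c3b_stab_finite l), Set.Finite.mem_toFinset, Set.mem_ofPred_eq]

theorem exists_BTK {T : Finset (P1 K)} (h : IsStabG (frob K) T) :
    ∃ B : K[X], up B = BT T := by
  rw [← phi_eq_iff, phi_BT, stab_image frob_injective h]

theorem sum_Stab_zero {M : Type*} [AddCommMonoid M] (f : Finset (P1 K) → M) :
    ∑ T ∈ Stab K 0, f T = f ∅ := by
  have : Stab K 0 = {∅} := by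
    ext T
    rw [mem_Stab, Finset.mem_singleton, Finset.card_eq_zero]
    constructor
    · intro h; exact h.2
    · rintro rfl
      exact ⟨fun x hx => by simp at hx, rfl⟩
  rw [this, Finset.sum_singleton]

theorem sum_Stab_one {M : Type*} [AddCommMonoid M] (f : Finset (P1 K) → M) :
    ∑ T ∈ Stab K 1, f T = ∑ r : Option K, f {upP r} := by
  have : Stab K 1 = (Finset.univ : Finset (Option K)).image (fun r => ({upP r} : Finset (P1 K))) := by
    ext T
    rw [mem_Stab, Finset.mem_image]
    constructor
    · rintro ⟨hT, hc⟩
      obtain ⟨p, rfl⟩ := Finset.card_eq_one.mp hc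
      have := hT p (Finset.mem_singleton_self p)
      rw [Finset.mem_singleton, frob_eq_iff] at this
      obtain ⟨r, rfl⟩ := this
      exact ⟨r, Finset.mem_univ _, rfl⟩
    · rintro ⟨r, _, rfl⟩
      refine ⟨?_, Finset.card_singleton _⟩
      intro x hx
      rw [Finset.mem_singleton] at hx ⊢
      rw [hx, frob_upP]
  rw [this, Finset.sum_image]
  intro a _ b _ hab
  exact upP_injective (Finset.singleton_injective hab)

/-- the set of equivariant functions -/
def c3bE (T : Finset (P1 K)) (hT : IsStabG (frob K) T) : Set (T → Om K) :=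
  {g : T → Om K | ∀ p : T, g ⟨frob K p, hT p p.2⟩ = g p ^ Fintype.card K}

/-- evaluation -/
def c3bev (n : ℕ) (T : Finset (P1 K)) (P : K[X]) : T → Om K := fun p => ev n (up P) p

theorem c3bev_mem (T : Finset (P1 K)) (hT : IsStabG (frob K) T) (P : K[X]) :
    c3bev n T P ∈ c3bE T hT := by
  intro p
  show ev n (up P) (frob K p) = ev n (up P) p ^ Fintype.card K
  exact ev_up_frob P p

theorem c3bE_finite_card (T : Finset (P1 K)) (hT : IsStabG (frob K) T) (hc : T.card = n + 1) :
    c3bE T hT = c3bev n T '' ((V K n : Finset K[X]) : Set K[X]) ∧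
      Set.InjOn (c3bev n T) ((V K n : Finset K[X]) : Set K[X]) := by
  constructor
  · ext g
    constructor
    · intro hg
      obtain ⟨P, hP, hPg⟩ := exists_interp (n := n) (T := T) hc.le
        (fun p => if h : p ∈ T then g ⟨p, h⟩ else 0)
      have hphi : phi K P = P := by
        have hd : phi K P - P = 0 := by
          apply eq_zero_of_ev (n := n) (T := T)
          · refine (natDegree_sub_le _ _).trans ?_
            rw [natDegree_phi]
            simp [hP]
          · omega
          · intro p hp
            have hp2 : p ∈ T.image (frob K) := by rwa [stab_image frob_injective hT]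
            obtain ⟨r, hr, rfl⟩ := Finset.mem_image.mp hp2
            rw [ev_sub, ev_phi, hPg _ (hT r hr), hPg _ hr, dif_pos (hT r hr), dif_pos hr]
            have := hg ⟨r, hr⟩
            rw [this, sub_self]
        exact sub_eq_zero.mp hd
      obtain ⟨P0, rfl⟩ := phi_eq_iff.mp hphi
      refine ⟨P0, ?_, ?_⟩
      · rw [Finset.mem_coe, mem_V]
        rwa [natDegree_up] at hP
      · funext p
        show ev n (up P0) p = g p
        rw [hPg _ p.2, dif_pos p.2]
    · rintro ⟨P, _, rfl⟩
      exact c3bev_mem T hT P
  · intro P hP Q hQ hPQ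
    rw [Finset.mem_coe, mem_V] at hP hQ
    apply up_injective
    rw [← sub_eq_zero, ← up_sub]
    apply eq_zero_of_ev (n := n) (T := T)
    · rw [natDegree_up]
      exact (natDegree_sub_le _ _).trans (max_le hP hQ)
    · omega
    · intro p hp
      have := congrFun hPQ ⟨p, hp⟩
      rw [up_sub, ev_sub]
      exact sub_eq_zero.mpr this

theorem c3bE_finite (T : Finset (P1 K)) (hT : IsStabG (frob K) T) : (c3bE T hT).Finite := by
  rcases Nat.eq_zero_or_pos T.card with h0 | hpos
  · have hE : IsEmpty T := by
      rw [Finset.card_eq_zero] at h0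
      subst h0
      exact ⟨fun x => absurd x.2 (Finset.notMem_empty _)⟩
    exact Set.toFinite _
  · obtain ⟨k, hk⟩ : ∃ k, T.card = k + 1 := ⟨T.card - 1, by omega⟩
    rw [(c3bE_finite_card T hT hk).1]
    exact (Finset.finite_toSet _).image _

/-- the number of Frobenius compatible functions on a stable set of size `n` is `q^n` -/
theorem card_equivariant {T : Finset (P1 K)} (hT : IsStabG (frob K) T) :
    Set.ncard {g : T → Om K | ∀ p : T, g ⟨frob K p, hT p p.2⟩ = g p ^ Fintype.card K} =
      Fintype.card K ^ T.card := by
  show Set.ncard (c3bE T hT) = _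
  rcases Nat.eq_zero_or_pos T.card with h0 | hpos
  · have hE : IsEmpty T := by
      rw [Finset.card_eq_zero] at h0
      subst h0
      exact ⟨fun x => absurd x.2 (Finset.notMem_empty _)⟩
    rw [h0, pow_zero]
    have : c3bE T hT = Set.univ := by
      ext g
      simp only [Set.mem_univ, iff_true]
      intro p
      exact (hE.false p).elim
    rw [this, Set.ncard_univ]
    simp
  · obtain ⟨k, hk⟩ : ∃ k, T.card = k + 1 := ⟨T.card - 1, by omega⟩
    obtain ⟨h1, h2⟩ := c3bE_finite_card T hT hk
    rw [h1, Set.InjOn.ncard_image h2, Set.ncard_coe_finset, card_V, hk]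

theorem card_vanish {T : Finset (P1 K)} (hT : IsStabG (frob K) T) (hc : T.card ≤ n + 1) :
    ((V K n).filter (fun P => ∀ p ∈ T, ev n (up P) p = 0)).card =
      Fintype.card K ^ (n + 1 - T.card) := by
  obtain ⟨B, hB⟩ := exists_BTK hT
  have hB0 : B ≠ 0 := by
    intro h0
    apply BT_ne_zero T
    rw [← hB, h0, up_zero]
  have hBd : B.natDegree ≤ T.card := by
    rw [← natDegree_up, hB]
    exact natDegree_BT T
  rcases Nat.lt_or_ge n T.card with hlt | hge
  · have hn : T.card = n + 1 := by omega
    have : (V K n).filter (fun P => ∀ p ∈ T, ev n (up P) p = 0) = {0} := by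
      ext P
      rw [Finset.mem_filter, mem_V, Finset.mem_singleton]
      constructor
      · rintro ⟨hP, hz⟩
        apply up_injective
        rw [up_zero]
        apply eq_zero_of_ev (n := n) (T := T) _ hlt hz
        rwa [natDegree_up]
      · rintro rfl
        refine ⟨by simp, fun p _ => ?_⟩
        rw [up_zero, ev_zero]
    rw [this, Finset.card_singleton, hn]
    simp
  · have himg : (V K n).filter (fun P => ∀ p ∈ T, ev n (up P) p = 0) =
        (V K (n - T.card)).image (fun Q => B * Q) := by
      ext P
      rw [Finset.mem_filter, mem_V, Finset.mem_image]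
      constructor
      · rintro ⟨hP, hz⟩
        obtain ⟨Q, hQd, hQ⟩ := exists_mul_BT (P := up P) (n := n) (T := T) (by rwa [natDegree_up])
          hge hz
        have hphi : phi K Q = Q := by
          have h1 : BT T * phi K Q = BT T * Q := by
            rw [← hQ, ← phi_up P]
            conv_rhs => rw [hQ, map_mul, phi_BT, stab_image frob_injective hT]
          exact mul_left_cancel₀ (BT_ne_zero T) h1
        obtain ⟨Q0, rfl⟩ := phi_eq_iff.mp hphi
        refine ⟨Q0, ?_, ?_⟩
        · rw [mem_V]
          rwa [natDegree_up] at hQd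
        · apply up_injective
          rw [up_mul, hB, hQ]
      · rintro ⟨Q, hQ, rfl⟩
        rw [mem_V] at hQ
        constructor
        · refine natDegree_mul_le.trans ?_
          omega
        · intro p hp
          rw [up_mul, hB]
          have h2 : T.card + (n - T.card) = n := by omega
          rw [← h2]
          exact ev_BT_mul (by rwa [natDegree_up]) p hp
    rw [himg, Finset.card_image_of_injective, card_V]
    · congr 1
      omega
    · intro Q Q' hQ
      exact mul_left_cancel₀ hB0 hQ

theorem card_dv {T : Finset (P1 K)} (hT : IsStabG (frob K) T) (hc : 2 * T.card ≤ n + 1) :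
    ((V K n).filter (fun P => ∀ p ∈ T, dv n (up P) p)).card =
      Fintype.card K ^ (n + 1 - 2 * T.card) := by
  obtain ⟨B, hB⟩ := exists_BTK hT
  have hB0 : B ≠ 0 := by
    intro h0
    apply BT_ne_zero T
    rw [← hB, h0, up_zero]
  have hBd : B.natDegree ≤ T.card := by
    rw [← natDegree_up, hB]
    exact natDegree_BT T
  rcases Nat.lt_or_ge n (2 * T.card) with hlt | hge
  · have hn : 2 * T.card = n + 1 := by omega
    have : (V K n).filter (fun P => ∀ p ∈ T, dv n (up P) p) = {0} := by
      ext P
      rw [Finset.mem_filter, mem_V, Finset.mem_singleton]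
      constructor
      · rintro ⟨hP, hz⟩
        apply up_injective
        rw [up_zero]
        apply eq_zero_of_dv (n := n) (T := T) _ hlt hz
        rwa [natDegree_up]
      · rintro rfl
        refine ⟨by simp, fun p _ => ?_⟩
        rw [up_zero]
        exact dv_zero
    rw [this, Finset.card_singleton, hn]
    simp
  · have himg : (V K n).filter (fun P => ∀ p ∈ T, dv n (up P) p) =
        (V K (n - 2 * T.card)).image (fun Q => B ^ 2 * Q) := by
      ext P
      rw [Finset.mem_filter, mem_V, Finset.mem_image]
      constructor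
      · rintro ⟨hP, hz⟩
        obtain ⟨Q, hQd, hQ⟩ := exists_mul_BT_sq (P := up P) (n := n) (T := T)
          (by rwa [natDegree_up]) hge hz
        have hphi : phi K Q = Q := by
          have h1 : BT T ^ 2 * phi K Q = BT T ^ 2 * Q := by
            rw [← hQ, ← phi_up P]
            conv_rhs => rw [hQ, map_mul, map_pow, phi_BT, stab_image frob_injective hT]
          exact mul_left_cancel₀ (pow_ne_zero 2 (BT_ne_zero T)) h1
        obtain ⟨Q0, rfl⟩ := phi_eq_iff.mp hphi
        refine ⟨Q0, ?_, ?_⟩
        · rw [mem_V]
          rwa [natDegree_up] at hQd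
        · apply up_injective
          rw [up_mul, up_pow, hB, hQ]
      · rintro ⟨Q, hQ, rfl⟩
        rw [mem_V] at hQ
        constructor
        · refine natDegree_mul_le.trans ?_
          rw [natDegree_pow]
          omega
        · intro p hp
          rw [up_mul, up_pow, hB]
          rcases Nat.eq_zero_or_pos T.card with h0 | hpos
          · rw [Finset.card_eq_zero] at h0
            subst h0
            simp at hp
          have h1 : dv (T.card + T.card) (BT T * BT T) p := by
            apply dv_mul_of_ev hpos hpos (natDegree_BT T) (natDegree_BT T)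
            · exact (ev_BT T).mpr hp
            · exact (ev_BT T).mpr hp
          have h2 : (T.card + T.card) + (n - 2 * T.card) = n := by omega
          rw [sq, ← h2]
          apply dv_mul_right (by omega) _ (by rwa [natDegree_up]) h1
          exact natDegree_mul_le.trans (add_le_add (natDegree_BT T) (natDegree_BT T))
    rw [himg, Finset.card_image_of_injective, card_V]
    · congr 1
      omega
    · intro Q Q' hQ
      exact mul_left_cancel₀ (pow_ne_zero 2 hB0) hQ

/-- counting forms with prescribed (Frobenius compatible) values on a stable set -/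
theorem card_interp {T : Finset (P1 K)} (hT : IsStabG (frob K) T) (hc : T.card ≤ n + 1)
    (g : P1 K → Om K) (hg : ∀ p ∈ T, g (frob K p) = g p ^ Fintype.card K) :
    ((V K n).filter (fun P => ∀ p ∈ T, ev n (up P) p = g p)).card =
      Fintype.card K ^ (n + 1 - T.card) := by
  set E : Finset (T → Om K) := (c3bE_finite T hT).toFinset with hE
  have hEcard : E.card = Fintype.card K ^ T.card := by
    rw [hE, ← Set.ncard_eq_toFinset_card _ (c3bE_finite T hT)]
    exact card_equivariant hT
  set F : (T → Om K) → Finset K[X] := fun g0 => (V K n).filter (fun P => c3bev n T P = g0) with hF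
  -- every fibre has at most `q^(n+1-|T|)` elements
  have hle : ∀ g0, (F g0).card ≤ Fintype.card K ^ (n + 1 - T.card) := by
    intro g0
    rcases (F g0).eq_empty_or_nonempty with he | ⟨P0, hP0⟩
    · rw [he]; simp
    · rw [← card_vanish hT hc]
      apply Finset.card_le_card_of_injOn (fun P => P - P0)
      · intro P hP
        simp only [hF, Finset.coe_filter, Set.mem_ofPred_eq, Finset.mem_filter] at hP hP0 ⊢
        rw [mem_V] at hP hP0
        refine ⟨?_, ?_⟩
        · rw [mem_V]
          exact (natDegree_sub_le _ _).trans (max_le hP.1 hP0.1)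
        · intro p hp
          rw [up_sub, ev_sub]
          have h1 := congrFun hP.2 ⟨p, hp⟩
          have h2 := congrFun hP0.2 ⟨p, hp⟩
          have h3 : ev n (up P) p = ev n (up P0) p := h1.trans h2.symm
          rw [h3, sub_self]
      · intro P _ Q _ hPQ
        have : P - P0 = Q - P0 := hPQ
        exact sub_left_injective this
  have hsum : ∑ g0 ∈ E, (F g0).card = Fintype.card K ^ (n + 1) := by
    rw [← card_V (K := K) (n := n)]
    rw [Finset.card_eq_sum_card_fiberwise (f := c3bev n T) (t := E)]
    intro P _
    rw [hE]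
    simp only [Set.Finite.coe_toFinset]
    exact c3bev_mem T hT P
  have hmem : (fun p : T => g p) ∈ E := by
    rw [hE, Set.Finite.mem_toFinset]
    intro p
    exact hg p p.2
  have hall : ∀ g0 ∈ E, (F g0).card = Fintype.card K ^ (n + 1 - T.card) := by
    by_contra hcon
    push Not at hcon
    obtain ⟨g1, hg1, hne⟩ := hcon
    have hlt : ∑ g0 ∈ E, (F g0).card < ∑ _g0 ∈ E, Fintype.card K ^ (n + 1 - T.card) := by
      apply Finset.sum_lt_sum
      · intro g0 _
        exact hle g0
      · exact ⟨g1, hg1, lt_of_le_of_ne (hle g1) hne⟩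
    rw [hsum, Finset.sum_const, hEcard, smul_eq_mul, ← pow_add] at hlt
    rw [show T.card + (n + 1 - T.card) = n + 1 by omega] at hlt
    exact lt_irrefl _ hlt
  rw [← hall _ hmem]
  congr 1
  apply Finset.filter_congr
  intro P _
  constructor
  · intro h
    funext p
    exact h p p.2
  · intro h p hp
    exact congrFun h ⟨p, hp⟩

end

end
end Pool.Agent.Helper19.DP1
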