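import Pool.Agent.Helper19.DP1.Core1b
import Pool.Agent.Helper19.DP1.Core3b

/-! Core5a: Stickelberger. -/

namespace Pool.Agent.Helper19.DP1
open Polynomial Classical
noncomputable section

section
variable {K : Type*} [Field K] [Fintype K]

/-- determinant of the standard representatives of two points of `P^1` -/
def cr {L : Type*} [Field L] (p r : Option L) : L :=
  match p, r with
  | none, none => 0
  | none, some _ => 1
  | some _, none => -1
  | some s, some t => s - t

theorem cr_eq_zero {L : Type*} [Field L] (p r : Option L) : cr p r = 0 ↔ p = r := by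
  cases p <;> cases r <;> simp [cr, sub_eq_zero]

theorem c5a_cr_swap {L : Type*} [Field L] (p r : Option L) : cr p r = - cr r p := by
  cases p <;> cases r <;> simp [cr]

theorem c5a_char {h2 : (2 : K) ≠ 0} : ringChar K ≠ 2 := by
  intro h
  apply h2
  have := ringChar.Nat.cast_ringChar (R := K)
  rw [h] at this
  exact_mod_cast this

theorem c5a_odd (h2 : (2 : K) ≠ 0) : Fintype.card K % 2 = 1 :=
  FiniteField.odd_card_of_char_ne_two (c5a_char (h2 := h2))

theorem c5a_cr_frob (h2 : (2 : K) ≠ 0) (p r : P1 K) :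
    cr (frob K p) (frob K r) = cr p r ^ Fintype.card K := by
  have hq : Fintype.card K ≠ 0 := Fintype.card_ne_zero
  have ho : Odd (Fintype.card K) := Nat.odd_iff.mpr (c5a_odd h2)
  cases p with
  | none =>
    cases r with
    | none => simp [cr, frob, hq]
    | some t => simp [cr, frob]
  | some s =>
    cases r with
    | none => simp [cr, frob, ho.neg_one_pow]
    | some t =>
      show s ^ Fintype.card K - t ^ Fintype.card K = (s - t) ^ Fintype.card K
      exact (map_sub (FiniteField.frobeniusAlgHom K (Om K)) s t).symm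

/-- Stickelberger's theorem for a labelled stable set: `d` is the square of the product of the
`cr (x i) (x j)`, `i < j`. -/
theorem mu_eq_chi (h2 : (2 : K) ≠ 0) {n : ℕ} (x : Fin n → P1 K) (hx : Function.Injective x)
    (hs : IsStabG (frob K) (Finset.univ.image x)) (d : K)
    (hd : algebraMap K (Om K) d =
      (∏ i : Fin n, ∏ j ∈ Finset.Ioi i, cr (x i) (x j)) ^ 2) :
    mu K (Finset.univ.image x) = (-1) ^ n * quadraticChar K d := by
  obtain ⟨σ, hσ, -⟩ := exists_label frob_injective x hx (by convert hs)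
  have hm : muG (frob K) (Finset.univ.image x) = (-1) ^ n * (Equiv.Perm.sign σ : ℤ) := by
    convert muG_label x hx σ hσ
  unfold mu
  rw [hm]
  congr 1
  set δ : Om K := ∏ i : Fin n, ∏ j ∈ Finset.Ioi i, cr (x i) (x j) with hδ
  have hδ0 : δ ≠ 0 := by
    rw [hδ]
    refine Finset.prod_ne_zero_iff.mpr fun i _ => Finset.prod_ne_zero_iff.mpr fun j hj => ?_
    rw [Ne, cr_eq_zero]
    intro h
    exact (Finset.mem_Ioi.mp hj).ne (hx h)
  have hd0 : d ≠ 0 := by
    intro h
    rw [h, map_zero] at hd
    exact pow_ne_zero 2 hδ0 hd.symm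
  have h1 : δ ^ Fintype.card K = (Equiv.Perm.sign σ : ℤ) * δ := by
    have e1 : δ ^ Fintype.card K = ∏ i : Fin n, ∏ j ∈ Finset.Ioi i, cr (x (σ i)) (x (σ j)) := by
      rw [hδ, ← Finset.prod_pow]
      refine Finset.prod_congr rfl fun i _ => ?_
      rw [← Finset.prod_pow]
      refine Finset.prod_congr rfl fun j _ => ?_
      rw [← c5a_cr_frob h2, hσ, hσ]
    rw [e1]
    exact Equiv.Perm.prod_Ioi_comp_eq_sign_mul_prod σ (f := fun i j => cr (x i) (x j))
      (fun i j => c5a_cr_swap _ _)
  have hq : Fintype.card K = (Fintype.card K - 1) + 1 := by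
    have := Fintype.card_pos (α := K); omega
  have h3 : δ ^ (Fintype.card K - 1) = ((Equiv.Perm.sign σ : ℤ) : Om K) := by
    have : δ ^ (Fintype.card K - 1) * δ = ((Equiv.Perm.sign σ : ℤ) : Om K) * δ := by
      rw [← pow_succ, ← hq, h1]
    exact mul_right_cancel₀ hδ0 this
  have h4 : ((quadraticChar K d : ℤ) : Om K) = ((Equiv.Perm.sign σ : ℤ) : Om K) := by
    have e1 : ((quadraticChar K d : ℤ) : K) = d ^ (Fintype.card K / 2) :=
      quadraticChar_eq_pow_of_char_ne_two' (c5a_char (h2 := h2)) d
    have e2 : ((quadraticChar K d : ℤ) : Om K) = algebraMap K (Om K) (d ^ (Fintype.card K / 2)) := by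
      rw [← e1]; simp
    rw [e2, map_pow, hd, ← pow_mul, ← h3]
    congr 1
    have := c5a_odd h2
    omega
  have h2' : (2 : Om K) ≠ 0 := by
    intro h
    apply h2
    apply (algebraMap K (Om K)).injective
    rw [map_ofNat, map_zero]
    exact h
  have hc : (1 : Om K) ≠ -1 := by
    intro h
    apply h2'
    linear_combination h
  rcases Int.units_eq_one_or (Equiv.Perm.sign σ) with hs1 | hs1 <;>
  rcases quadraticChar_dichotomy hd0 with hq1 | hq1 <;>
  rw [hs1, hq1] at h4 ⊢ <;> simp at h4 ⊢
  · exact hc h4.symm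
  · exact hc h4

end

end
end Pool.Agent.Helper19.DP1
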