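import Pool.Agent.Helper19.DP1.Core2b
import Pool.Agent.Helper19.DP1.Core3c
import Pool.Agent.Helper19.DP1.Core5a

/-! Core5b: two points. -/

namespace Pool.Agent.Helper19.DP1
open Polynomial Classical
noncomputable section

section
variable {L : Type*} [Field L]

/-- homogeneous coordinates of the standard representative -/
def c5b_a : Option L → L
  | none => 1
  | some t => t
/-- homogeneous coordinates of the standard representative -/
def c5b_b : Option L → L
  | none => 0
  | some _ => 1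
/-- sign -/
def c5b_e : Option L → L
  | none => -1
  | some _ => 1

lemma c5b_lin (p : Option L) : lin p = C (c5b_e p) * (C (c5b_b p) * X - C (c5b_a p)) := by
  cases p with
  | none => simp [lin, c5b_a, c5b_b, c5b_e]
  | some t => simp [lin, c5b_a, c5b_b, c5b_e]

lemma c5b_cr (p r : Option L) : cr p r = c5b_a p * c5b_b r - c5b_b p * c5b_a r := by
  cases p <;> cases r <;> simp [cr, c5b_a, c5b_b]

lemma c5b_e_sq (p : Option L) : c5b_e p ^ 2 = 1 := by
  cases p <;> simp [c5b_e]

lemma c5b_quad (c : L) (r s : Option L) : C c * (lin r * lin s) =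
    C (c * c5b_e r * c5b_e s * (c5b_b r * c5b_b s)) * X ^ 2 +
    C (-(c * c5b_e r * c5b_e s * (c5b_a r * c5b_b s + c5b_b r * c5b_a s))) * X +
    C (c * c5b_e r * c5b_e s * (c5b_a r * c5b_a s)) := by
  rw [c5b_lin r, c5b_lin s]
  simp only [C_mul, C_neg, C_add]
  ring

lemma c5b_coeff (c : L) (r s : Option L) :
    (C c * (lin r * lin s)).coeff 2 = c * c5b_e r * c5b_e s * (c5b_b r * c5b_b s) ∧
    (C c * (lin r * lin s)).coeff 1 =
      -(c * c5b_e r * c5b_e s * (c5b_a r * c5b_b s + c5b_b r * c5b_a s)) ∧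
    (C c * (lin r * lin s)).coeff 0 = c * c5b_e r * c5b_e s * (c5b_a r * c5b_a s) := by
  rw [c5b_quad]
  refine ⟨?_, ?_, ?_⟩
  · rw [coeff_add, coeff_add, coeff_C_mul, coeff_C_mul, coeff_X_pow, coeff_X, coeff_C]
    norm_num
  · rw [coeff_add, coeff_add, coeff_C_mul, coeff_C_mul, coeff_X_pow, coeff_X, coeff_C]
    norm_num
  · rw [coeff_add, coeff_add, coeff_C_mul, coeff_C_mul, coeff_X_pow, coeff_X, coeff_C]
    norm_num

lemma c5b_disc2 (c : L) (r s : Option L) :
    disc2 (C c * (lin r * lin s)) = c ^ 2 * cr r s ^ 2 := by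
  obtain ⟨h2, h1, h0⟩ := c5b_coeff c r s
  unfold disc2
  rw [h2, h1, h0, c5b_cr]
  have e1 := c5b_e_sq r
  have e2 := c5b_e_sq s
  linear_combination (c ^ 2 * c5b_e s ^ 2 * (c5b_a r * c5b_b s - c5b_b r * c5b_a s) ^ 2) * e1 +
    (c ^ 2 * (c5b_a r * c5b_b s - c5b_b r * c5b_a s) ^ 2) * e2

lemma c5b_ev (c : L) (hc : c ≠ 0) (r s p : Option L) :
    ev 2 (C c * (lin r * lin s)) p = 0 ↔ p = r ∨ p = s := by
  rw [ev_C_mul]
  have h : ev 2 (lin r * lin s) p = ev 1 (lin r) p * ev 1 (lin s) p :=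
    ev_mul (m := 1) (n := 1) (natDegree_lin r) (natDegree_lin s)
  rw [h, mul_eq_zero, mul_eq_zero, ev_lin, ev_lin]
  simp [hc]

lemma c5b_lead (c : L) (r s : Option L) : (C c * (lin r * lin s)).leadingCoeff = c := by
  have h : ∀ p : Option L, (lin p).leadingCoeff = 1 := by
    intro p
    cases p with
    | none => simp [lin]
    | some t => simp [lin]
  rw [leadingCoeff_mul, leadingCoeff_mul, h, h, leadingCoeff_C]
  ring

end

section
variable {K : Type*} [Field K] [Fintype K]

lemma c5b_two (h2 : (2 : K) ≠ 0) : (2 : Om K) ≠ 0 := by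
  have h := (algebraMap K (Om K)).injective
  intro h0
  apply h2
  apply h
  rw [map_zero, map_ofNat]
  exact h0

lemma c5b_up_ne {P : K[X]} (h0 : P ≠ 0) : up P ≠ 0 := by
  intro h
  apply h0
  apply up_injective
  rw [h, up_zero]

lemma c5b_Zf {P : K[X]} (hP : P.natDegree ≤ 2) (h0 : P ≠ 0) {c : Om K} (hc : c ≠ 0)
    {r s : P1 K} (h : up P = C c * (lin r * lin s)) : Zf 2 P = {r, s} := by
  ext p
  rw [mem_Zf hP h0, h, c5b_ev c hc]
  simp

/-- quadratic forms -/
theorem card_Zf_two (h2 : (2 : K) ≠ 0) {P : K[X]} (hP : P.natDegree ≤ 2) (h0 : P ≠ 0) :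
    (Zf 2 P).card = if disc2 P = 0 then 1 else 2 := by
  have hP' : (up P).natDegree ≤ 2 := by rw [natDegree_up]; exact hP
  split_ifs with hd
  · have h : disc2 (up P) = 0 := by rw [disc2_up, hd, map_zero]
    obtain ⟨r, c, hc, hr⟩ := (disc2_eq_iff (c5b_two h2) hP' (c5b_up_ne h0)).1 h
    rw [c5b_Zf hP h0 hc (r := r) (s := r) (by rw [hr]; ring)]
    simp
  · have h : disc2 (up P) ≠ 0 := by
      rw [disc2_up]
      simpa using hd
    obtain ⟨r, s, hrs, c, hc, hr⟩ := (disc2_ne_iff (c5b_two h2) hP').1 h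
    rw [c5b_Zf hP h0 hc hr]
    exact Finset.card_pair hrs

theorem mu_Zf_two (h2 : (2 : K) ≠ 0) {P : K[X]} (hP : P.natDegree ≤ 2) (hd : disc2 P ≠ 0) :
    mu K (Zf 2 P) = quadraticChar K (disc2 P) := by
  have hP' : (up P).natDegree ≤ 2 := by rw [natDegree_up]; exact hP
  have h0 : P ≠ 0 := by
    intro h
    apply hd
    rw [h]
    simp [disc2]
  have h : disc2 (up P) ≠ 0 := by
    rw [disc2_up]
    simpa using hd
  obtain ⟨r, s, hrs, c, hc, hr⟩ := (disc2_ne_iff (c5b_two h2) hP').1 h
  have hZ := c5b_Zf hP h0 hc hr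
  -- the leading coefficient is in `K`
  have hl : c = algebraMap K (Om K) P.leadingCoeff := by
    have h3 := c5b_lead c r s
    rw [← hr] at h3
    rw [← h3, leadingCoeff, natDegree_up, coeff_up]
    rfl
  have hl0 : P.leadingCoeff ≠ 0 := by simpa using h0
  set l := P.leadingCoeff with hldef
  let x : Fin 2 → P1 K := ![r, s]
  have hx : Function.Injective x := by
    intro i j hij
    fin_cases i <;> fin_cases j
    · rfl
    · exact absurd hij hrs
    · exact absurd hij.symm hrs
    · rfl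
  have him : Finset.univ.image x = Zf 2 P := by
    rw [hZ]
    ext p
    simp only [Finset.mem_image, Finset.mem_univ, true_and, Fin.exists_fin_two,
      Finset.mem_insert, Finset.mem_singleton]
    constructor
    · rintro (h | h)
      · exact Or.inl h.symm
      · exact Or.inr h.symm
    · rintro (h | h)
      · exact Or.inl h.symm
      · exact Or.inr h.symm
  have hmu := mu_eq_chi h2 x hx (by rw [him]; exact Zf_stable P) (disc2 P / l ^ 2) (by
    rw [map_div₀, ← disc2_up, hr, c5b_disc2, map_pow, ← hl]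
    have e1 : (∏ i : Fin 2, ∏ j ∈ Finset.Ioi i, cr (x i) (x j)) = cr r s := by
      have i0 : Finset.Ioi (0 : Fin 2) = {1} := by decide
      have i1 : Finset.Ioi (1 : Fin 2) = ∅ := by decide
      rw [Fin.prod_univ_two, i0, i1]
      simp [x]
    rw [e1]
    field_simp)
  rw [him] at hmu
  rw [hmu]
  have h5 : quadraticChar K (disc2 P) =
      quadraticChar K (disc2 P / l ^ 2) * quadraticChar K (l ^ 2) := by
    rw [← map_mul, div_mul_cancel₀ _ (pow_ne_zero 2 hl0)]
  rw [h5, quadraticChar_sq_one' hl0]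
  ring

end

end
end Pool.Agent.Helper19.DP1
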