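import Pool.Agent.Helper19.DP1.Core3c
import Pool.Agent.Helper19.DP1.Core5a

/-! Core5c: the Moebius function of `w^2 - k u^2`. -/

namespace Pool.Agent.Helper19.DP1
open Polynomial Classical
noncomputable section

section
variable {K : Type*} [Field K] [Fintype K]

theorem c5c_two_ne (h2 : (2 : K) ≠ 0) : (2 : Om K) ≠ 0 := by
  intro h
  apply h2
  apply (algebraMap K (Om K)).injective
  rw [map_ofNat, map_zero]
  exact h

theorem c5c_roots {L : Type*} [Field L] [IsAlgClosed L] (h2 : (2 : L) ≠ 0) (a b c : L)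
    (ha : a ≠ 0) : ∃ r s : L, b = -(a * (r + s)) ∧ c = a * (r * s) := by
  obtain ⟨t, ht⟩ := IsAlgClosed.exists_pow_nat_eq (b ^ 2 - 4 * a * c) (n := 2) (by norm_num)
  refine ⟨(-b + t) / (2 * a), (-b - t) / (2 * a), ?_, ?_⟩
  · field_simp
    ring
  · field_simp
    have h4 : (4 : L) ≠ 0 := by
      have : (4 : L) = 2 * 2 := by norm_num
      rw [this]; exact mul_ne_zero h2 h2
    linear_combination ht

theorem c5c_natDegree (w2 w1 w0 u1 u0 k : K) (hw : w2 ≠ 0) :
    ((C w2 * X ^ 2 + C w1 * X + C w0) ^ 2 - C k * (C u1 * X + C u0) ^ 2 : K[X]).natDegree = 4 := by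
  have h1 : ((C w2 * X ^ 2 + C w1 * X + C w0) ^ 2 - C k * (C u1 * X + C u0) ^ 2 : K[X]) =
      C (w2 ^ 2) * X ^ 4 + C (2 * w2 * w1) * X ^ 3 +
        C (w1 ^ 2 + 2 * w2 * w0 - k * u1 ^ 2) * X ^ 2 +
        C (2 * w1 * w0 - 2 * k * u1 * u0) * X + C (w0 ^ 2 - k * u0 ^ 2) := by
    simp only [C_add, C_mul, C_pow, C_sub, C_ofNat]
    ring
  rw [h1]
  compute_degree!

theorem c5c_up_eq (w2 w1 w0 u1 u0 k : K) (ρ a b c d : Om K) (hρ : ρ ^ 2 = algebraMap K (Om K) k)
    (hb1 : algebraMap K (Om K) w1 - ρ * algebraMap K (Om K) u1 =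
      -(algebraMap K (Om K) w2 * (a + b)))
    (hb0 : algebraMap K (Om K) w0 - ρ * algebraMap K (Om K) u0 =
      algebraMap K (Om K) w2 * (a * b))
    (hd1 : algebraMap K (Om K) w1 + ρ * algebraMap K (Om K) u1 =
      -(algebraMap K (Om K) w2 * (c + d)))
    (hd0 : algebraMap K (Om K) w0 + ρ * algebraMap K (Om K) u0 =
      algebraMap K (Om K) w2 * (c * d)) :
    up ((C w2 * X ^ 2 + C w1 * X + C w0) ^ 2 - C k * (C u1 * X + C u0) ^ 2 : K[X]) =
      C (algebraMap K (Om K) w2 ^ 2) * ((X - C a) * (X - C b) * ((X - C c) * (X - C d))) := by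
  simp only [up_sub, up_mul, up_pow, up_add, up_C, up_X]
  rw [← hρ]
  set W2 := algebraMap K (Om K) w2
  set W1 := algebraMap K (Om K) w1
  set W0 := algebraMap K (Om K) w0
  set U1 := algebraMap K (Om K) u1
  set U0 := algebraMap K (Om K) u0
  have e1 : (C W2 * X ^ 2 + C W1 * X + C W0 : (Om K)[X]) - C ρ * (C U1 * X + C U0) =
      C W2 * ((X - C a) * (X - C b)) := by
    have h1 : (C (W1 - ρ * U1) : (Om K)[X]) = C (-(W2 * (a + b))) := by rw [hb1]
    have h0 : (C (W0 - ρ * U0) : (Om K)[X]) = C (W2 * (a * b)) := by rw [hb0]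
    simp only [C_sub, C_mul, C_neg, C_add] at h1 h0
    linear_combination X * h1 + h0
  have e2 : (C W2 * X ^ 2 + C W1 * X + C W0 : (Om K)[X]) + C ρ * (C U1 * X + C U0) =
      C W2 * ((X - C c) * (X - C d)) := by
    have h1 : (C (W1 + ρ * U1) : (Om K)[X]) = C (-(W2 * (c + d))) := by rw [hd1]
    have h0 : (C (W0 + ρ * U0) : (Om K)[X]) = C (W2 * (c * d)) := by rw [hd0]
    simp only [C_mul, C_neg, C_add] at h1 h0
    linear_combination X * h1 + h0
  calc (C W2 * X ^ 2 + C W1 * X + C W0 : (Om K)[X]) ^ 2 - C (ρ ^ 2) * (C U1 * X + C U0) ^ 2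
      = ((C W2 * X ^ 2 + C W1 * X + C W0) - C ρ * (C U1 * X + C U0)) *
        ((C W2 * X ^ 2 + C W1 * X + C W0) + C ρ * (C U1 * X + C U0)) := by
        rw [C_pow]; ring
    _ = (C W2 * ((X - C a) * (X - C b))) * (C W2 * ((X - C c) * (X - C d))) := by rw [e1, e2]
    _ = _ := by rw [C_pow]; ring

/-- `mob (w^2 - k u^2)` for a quadratic `w` of exact degree 2, `u` of degree `≤ 1` and `k ≠ 0`:
it is `χ(N(disc (w - √k u)))` unless `w`, `u` have a common zero (or `u = 0`). -/
theorem mob_quad (h2 : (2 : K) ≠ 0) (w2 w1 w0 u1 u0 k : K) (hw : w2 ≠ 0) (hk : k ≠ 0) :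
    mob ((C w2 * X ^ 2 + C w1 * X + C w0) ^ 2 - C k * (C u1 * X + C u0) ^ 2 : K[X]) =
      if u1 ^ 2 * w0 - u1 * u0 * w1 + u0 ^ 2 * w2 = 0 then 0
      else quadraticChar K ((w1 ^ 2 + k * u1 ^ 2 - 4 * w2 * w0) ^ 2
        - k * (2 * w1 * u1 - 4 * w2 * u0) ^ 2) := by
  have h2' : (2 : Om K) ≠ 0 := c5c_two_ne h2
  obtain ⟨ρ, hρ⟩ := IsAlgClosed.exists_pow_nat_eq (algebraMap K (Om K) k) (n := 2) (by norm_num)
  set P : K[X] := (C w2 * X ^ 2 + C w1 * X + C w0) ^ 2 - C k * (C u1 * X + C u0) ^ 2 with hP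
  have hdeg : P.natDegree = 4 := c5c_natDegree w2 w1 w0 u1 u0 k hw
  have hP0 : P ≠ 0 := by
    intro h
    rw [h] at hdeg
    simp at hdeg
  have hW2 : algebraMap K (Om K) w2 ≠ 0 := by
    rw [Ne, map_eq_zero]; exact hw
  obtain ⟨a, b, hb1, hb0⟩ := c5c_roots h2' (algebraMap K (Om K) w2)
    (algebraMap K (Om K) w1 - ρ * algebraMap K (Om K) u1)
    (algebraMap K (Om K) w0 - ρ * algebraMap K (Om K) u0) hW2
  obtain ⟨c, d, hd1, hd0⟩ := c5c_roots h2' (algebraMap K (Om K) w2)
    (algebraMap K (Om K) w1 + ρ * algebraMap K (Om K) u1)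
    (algebraMap K (Om K) w0 + ρ * algebraMap K (Om K) u0) hW2
  have hup := c5c_up_eq w2 w1 w0 u1 u0 k ρ a b c d hρ hb1 hb0 hd1 hd0
  rw [← hP] at hup
  set x : Fin 4 → P1 K := ![some a, some b, some c, some d] with hx
  have hZ : Zf 4 P = Finset.univ.image x := by
    ext p
    rw [mem_Zf hdeg.le hP0, hup]
    cases p with
    | none =>
      have h1 : ev 4 (C (algebraMap K (Om K) w2 ^ 2) *
          ((X - C a) * (X - C b) * ((X - C c) * (X - C d)))) (none : P1 K) =
          (up P).coeff 4 := by rw [hup]; rfl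
      rw [h1]
      have h3 : (up P).coeff 4 ≠ 0 := by
        rw [coeff_up, Ne, map_eq_zero]
        have := leadingCoeff_ne_zero.mpr hP0
        rwa [leadingCoeff, hdeg] at this
      constructor
      · intro h; exact absurd h h3
      · intro h
        rw [Finset.mem_image] at h
        obtain ⟨i, -, hi⟩ := h
        fin_cases i <;> simp [hx] at hi
    | some t =>
      show eval t (C (algebraMap K (Om K) w2 ^ 2) *
          ((X - C a) * (X - C b) * ((X - C c) * (X - C d)))) = 0 ↔ _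
      simp only [eval_mul, eval_C, eval_sub, eval_X]
      constructor
      · intro h
        rw [Finset.mem_image]
        rcases mul_eq_zero.mp h with h | h
        · exact absurd h (pow_ne_zero 2 hW2)
        rcases mul_eq_zero.mp h with h | h
        · rcases mul_eq_zero.mp h with h | h
          · exact ⟨0, Finset.mem_univ _, by simp [hx, sub_eq_zero.mp h]⟩
          · exact ⟨1, Finset.mem_univ _, by simp [hx, sub_eq_zero.mp h]⟩
        · rcases mul_eq_zero.mp h with h | h
          · exact ⟨2, Finset.mem_univ _, by simp [hx, sub_eq_zero.mp h]⟩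
          · exact ⟨3, Finset.mem_univ _, by simp [hx, sub_eq_zero.mp h]⟩
      · intro h
        rw [Finset.mem_image] at h
        obtain ⟨i, -, hi⟩ := h
        fin_cases i <;> simp [hx] at hi <;> simp [hi]
  set δ : Om K := ∏ i : Fin 4, ∏ j ∈ Finset.Ioi i, cr (x i) (x j) with hδ
  have hδe : δ = (a - b) * (a - c) * (a - d) * ((b - c) * (b - d)) * (c - d) := by
    rw [hδ]
    simp only [Fin.prod_univ_four]
    have i0 : Finset.Ioi (0 : Fin 4) = {1, 2, 3} := by decide
    have i1 : Finset.Ioi (1 : Fin 4) = {2, 3} := by decide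
    have i2 : Finset.Ioi (2 : Fin 4) = {3} := by decide
    have i3 : Finset.Ioi (3 : Fin 4) = ∅ := by decide
    rw [i0, i1, i2, i3]
    rw [Finset.prod_insert (by decide), Finset.prod_insert (by decide),
      Finset.prod_insert (by decide), Finset.prod_singleton, Finset.prod_singleton,
      Finset.prod_singleton, Finset.prod_empty]
    have e01 : cr (x 0) (x 1) = a - b := rfl
    have e02 : cr (x 0) (x 2) = a - c := rfl
    have e03 : cr (x 0) (x 3) = a - d := rfl
    have e12 : cr (x 1) (x 2) = b - c := rfl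
    have e13 : cr (x 1) (x 3) = b - d := rfl
    have e23 : cr (x 2) (x 3) = c - d := rfl
    rw [e01, e02, e03, e12, e13, e23]
    ring
  set R : K := u1 ^ 2 * w0 - u1 * u0 * w1 + u0 ^ 2 * w2 with hR
  set Q : K := (w1 ^ 2 + k * u1 ^ 2 - 4 * w2 * w0) ^ 2 - k * (2 * w1 * u1 - 4 * w2 * u0) ^ 2 with hQ
  -- the square of `δ`
  have hδ2 : algebraMap K (Om K) (Q * (4 * k * R / w2 ^ 5) ^ 2) = δ ^ 2 := by
    have hres : algebraMap K (Om K) (4 * k * R) =
        algebraMap K (Om K) w2 ^ 3 * ((a - c) * (a - d) * ((b - c) * (b - d))) := by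
      rw [hR]
      simp only [map_mul, map_add, map_sub, map_pow, map_ofNat, ← hρ]
      have ha : algebraMap K (Om K) w2 * ((a - c) * (a - d)) =
          2 * ρ * (algebraMap K (Om K) u1 * a + algebraMap K (Om K) u0) := by
        linear_combination a * hb1 + hb0 - a * hd1 - hd0
      have hb : algebraMap K (Om K) w2 * ((b - c) * (b - d)) =
          2 * ρ * (algebraMap K (Om K) u1 * b + algebraMap K (Om K) u0) := by
        linear_combination b * hb1 + hb0 - b * hd1 - hd0
      calc _ = algebraMap K (Om K) w2 * ((2 * ρ * (algebraMap K (Om K) u1 * a +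
            algebraMap K (Om K) u0)) * (2 * ρ * (algebraMap K (Om K) u1 * b +
            algebraMap K (Om K) u0))) := by
            linear_combination 4 * ρ ^ 2 * (algebraMap K (Om K) u1) ^ 2 * hb0
              - 4 * ρ ^ 2 * (algebraMap K (Om K) u1 * algebraMap K (Om K) u0) * hb1
        _ = _ := by rw [← ha, ← hb]; ring
    have hdisc : algebraMap K (Om K) Q =
        algebraMap K (Om K) w2 ^ 4 * ((a - b) ^ 2 * (c - d) ^ 2) := by
      rw [hQ]
      simp only [map_mul, map_add, map_sub, map_pow, map_ofNat, ← hρ]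
      set W2 := algebraMap K (Om K) w2
      set W1 := algebraMap K (Om K) w1
      set W0 := algebraMap K (Om K) w0
      set U1 := algebraMap K (Om K) u1
      set U0 := algebraMap K (Om K) u0
      have h1 : W1 ^ 2 + ρ ^ 2 * U1 ^ 2 - 4 * W2 * W0 - ρ * (2 * W1 * U1 - 4 * W2 * U0) =
          W2 ^ 2 * (a - b) ^ 2 := by
        linear_combination ((W1 - ρ * U1) - W2 * (a + b)) * hb1 - 4 * W2 * hb0
      have h3 : W1 ^ 2 + ρ ^ 2 * U1 ^ 2 - 4 * W2 * W0 + ρ * (2 * W1 * U1 - 4 * W2 * U0) =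
          W2 ^ 2 * (c - d) ^ 2 := by
        linear_combination ((W1 + ρ * U1) - W2 * (c + d)) * hd1 - 4 * W2 * hd0
      calc _ = (W1 ^ 2 + ρ ^ 2 * U1 ^ 2 - 4 * W2 * W0 - ρ * (2 * W1 * U1 - 4 * W2 * U0)) *
            (W1 ^ 2 + ρ ^ 2 * U1 ^ 2 - 4 * W2 * W0 + ρ * (2 * W1 * U1 - 4 * W2 * U0)) := by ring
        _ = _ := by rw [h1, h3]; ring
    rw [map_mul, map_pow, map_div₀, map_pow, hres, hdisc, hδe]
    field_simp
  have hxinj : Function.Injective x ↔ δ ≠ 0 := by
    rw [hδ]
    constructor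
    · intro h
      refine Finset.prod_ne_zero_iff.mpr fun i _ => Finset.prod_ne_zero_iff.mpr fun j hj => ?_
      rw [Ne, cr_eq_zero]
      intro h'
      exact (Finset.mem_Ioi.mp hj).ne (h h')
    · intro h i j hij
      by_contra hne
      apply h
      rcases lt_or_gt_of_ne hne with hlt | hlt
      · exact Finset.prod_eq_zero (Finset.mem_univ i) (Finset.prod_eq_zero (Finset.mem_Ioi.mpr hlt)
          ((cr_eq_zero _ _).mpr hij))
      · exact Finset.prod_eq_zero (Finset.mem_univ j) (Finset.prod_eq_zero (Finset.mem_Ioi.mpr hlt)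
          ((cr_eq_zero _ _).mpr hij.symm))
  have h4 : (4 : K) ≠ 0 := by
    have : (4 : K) = 2 * 2 := by norm_num
    rw [this]; exact mul_ne_zero h2 h2
  by_cases hδ0 : δ = 0
  · have hcard : (Zf 4 P).card ≠ 4 := by
      rw [hZ]
      intro h
      have : Function.Injective x := by
        have h' : (Finset.univ.image x).card = (Finset.univ : Finset (Fin 4)).card := by
          rw [h]; rfl
        have h'' := Finset.card_image_iff.mp h'
        rwa [Finset.coe_univ, Set.injOn_univ] at h''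
      exact (hxinj.mp this) hδ0
    rw [mob_eq_zero hP0 hdeg hcard]
    rw [hδ0] at hδ2
    have h5 : Q * (4 * k * R / w2 ^ 5) ^ 2 = 0 := by
      rw [← map_eq_zero (algebraMap K (Om K)), hδ2]
      simp
    rcases mul_eq_zero.mp h5 with h | h
    · rw [h]; simp
    · have h6 : 4 * k * R / w2 ^ 5 = 0 := pow_eq_zero_iff (two_ne_zero) |>.mp h
      rw [div_eq_zero_iff] at h6
      rcases h6 with h6 | h6
      · rw [if_pos]
        exact (mul_eq_zero.mp h6).resolve_left (mul_ne_zero h4 hk)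
      · exact absurd h6 (pow_ne_zero 5 hw)
  · have hinj := hxinj.mpr hδ0
    have hcard : (Zf 4 P).card = 4 := by
      rw [hZ, Finset.card_image_of_injective _ hinj]
      simp
    rw [mob_eq hP0 hdeg hcard]
    have hst : IsStabG (frob K) (Finset.univ.image x) := by
      rw [← hZ]
      exact Zf_stable P
    rw [hZ, mu_eq_chi h2 x hinj hst _ hδ2]
    have hne : Q * (4 * k * R / w2 ^ 5) ^ 2 ≠ 0 := by
      intro h
      rw [h, map_zero] at hδ2
      exact pow_ne_zero 2 hδ0 hδ2.symm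
    have hR0 : R ≠ 0 := by
      intro h
      rw [h] at hne
      simp at hne
    rw [if_neg hR0, map_mul]
    have h6 : quadraticChar K ((4 * k * R / w2 ^ 5) ^ 2) = 1 := by
      apply quadraticChar_sq_one'
      exact div_ne_zero (mul_ne_zero (mul_ne_zero h4 hk) hR0) (pow_ne_zero 5 hw)
    rw [h6]
    ring

theorem mob_sq (w : K[X]) (hw : 1 ≤ w.natDegree) : mob (w ^ 2) = 0 := by
  have hw0 : w ≠ 0 := by
    intro h
    rw [h] at hw
    simp at hw
  have hdeg : (w ^ 2).natDegree = 2 * w.natDegree := by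
    rw [natDegree_pow]
  have hw20 : w ^ 2 ≠ 0 := pow_ne_zero 2 hw0
  refine mob_eq_zero hw20 hdeg ?_
  have hsub : Zf (2 * w.natDegree) (w ^ 2) ⊆ Zf w.natDegree w := by
    intro p hp
    rw [mem_Zf hdeg.le hw20] at hp
    rw [mem_Zf le_rfl hw0]
    cases p with
    | none =>
      exfalso
      have h1 : (up (w ^ 2)).coeff (2 * w.natDegree) = 0 := hp
      rw [coeff_up, map_eq_zero, ← hdeg] at h1
      exact (leadingCoeff_ne_zero.mpr hw20) h1
    | some t =>
      have h1 : eval t (up (w ^ 2)) = 0 := hp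
      rw [up_pow, eval_pow] at h1
      exact pow_eq_zero_iff (two_ne_zero) |>.mp h1
  have := (Finset.card_le_card hsub).trans (card_Zf_le le_rfl hw0)
  omega

end

end
end Pool.Agent.Helper19.DP1
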