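import Pool.Agent.Helper19.DP1.Core2b
import Pool.Agent.Helper19.DP1.Core3b
import Pool.Agent.Helper19.DP1.Core5a
import Pool.Agent.Helper19.DP1.Core5b

/-! Core5d: six points. -/

namespace Pool.Agent.Helper19.DP1
open Polynomial Classical
noncomputable section

section
variable {L : Type*} [Field L]

lemma c5d_res (c c' : L) (r s r' s' : Option L) :
    pol2 (C c * (lin r * lin s)) (C c' * (lin r' * lin s')) ^ 2
      - 4 * disc2 (C c * (lin r * lin s)) * disc2 (C c' * (lin r' * lin s')) =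
    16 * (c ^ 2 * c' ^ 2 * (cr r r' * cr r s' * cr s r' * cr s s')) := by
  obtain ⟨h2, h1, h0⟩ := c5b_coeff c r s
  obtain ⟨k2, k1, k0⟩ := c5b_coeff c' r' s'
  rw [c5b_disc2, c5b_disc2]
  unfold pol2
  rw [h2, h1, h0, k2, k1, k0]
  simp only [c5b_cr]
  have e1 := c5b_e_sq r
  have e2 := c5b_e_sq s
  have e3 := c5b_e_sq r'
  have e4 := c5b_e_sq s'
  set er := c5b_e r
  set es := c5b_e s
  set er' := c5b_e r'
  set es' := c5b_e s'
  have hE : er ^ 2 * es ^ 2 * (er' ^ 2 * es' ^ 2) = 1 := by rw [e1, e2, e3, e4]; ring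
  set a := c5b_a r
  set b := c5b_b r
  set a2 := c5b_a s
  set b2 := c5b_b s
  set a' := c5b_a r'
  set b' := c5b_b r'
  set a2' := c5b_a s'
  set b2' := c5b_b s'
  linear_combination (c ^ 2 * c' ^ 2 * (2 * (a * b2 + b * a2) * (a' * b2' + b' * a2')
    - 4 * (b * b2) * (a' * a2') - 4 * (b' * b2') * (a * a2)) ^ 2) * hE

lemma c5d_pol2_sum (P Q : L[X]) :
    pol2 P (-(P + Q)) ^ 2 - 4 * disc2 P * disc2 (-(P + Q)) =
      pol2 P Q ^ 2 - 4 * disc2 P * disc2 Q ∧
    pol2 Q (-(P + Q)) ^ 2 - 4 * disc2 Q * disc2 (-(P + Q)) =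
      pol2 P Q ^ 2 - 4 * disc2 P * disc2 Q := by
  unfold pol2 disc2
  simp only [coeff_neg, coeff_add]
  constructor <;> ring

end

section
variable {K : Type*} [Field K] [Fintype K]

lemma c5d_lead_phi (P : (Om K)[X]) :
    (phi K P).leadingCoeff = P.leadingCoeff ^ Fintype.card K := by
  rw [leadingCoeff, natDegree_phi, phi_coeff]
  rfl

/-- a squarefree product of three quadratic forms `D0 D1 D2` over the algebraic closure with
`D0 + D1 + D2 = 0`, the zero set being stable and Frobenius acting on the product by the sign `e`: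
`mu` of the zero set is `e` times the quadratic character of the product of the discriminants. -/
theorem mu_three (h2 : (2 : K) ≠ 0) (D : Fin 3 → (Om K)[X]) (hD : ∀ i, (D i).natDegree ≤ 2)
    (hsum : D 0 + D 1 + D 2 = 0) (T : Finset (P1 K)) (hT : IsStabG (frob K) T)
    (hTc : T.card = 6) (hz : ∀ p ∈ T, ∃ i, ev 2 (D i) p = 0)
    (r : K) (hr0 : r ≠ 0)
    (hr : algebraMap K (Om K) r = pol2 (D 0) (D 1) ^ 2 - 4 * disc2 (D 0) * disc2 (D 1))
    (d : K) (hd : algebraMap K (Om K) d = disc2 (D 0) * disc2 (D 1) * disc2 (D 2))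
    (e : ℤ) (he : e = 1 ∨ e = -1)
    (hphi : phi K (D 0 * D 1 * D 2) = C (e : Om K) * (D 0 * D 1 * D 2)) :
    mu K T = e * quadraticChar K d := by
  have hom2 := c5b_two h2
  have hrne : algebraMap K (Om K) r ≠ 0 := by simpa using hr0
  have hD2 : D 2 = -(D 0 + D 1) := by linear_combination hsum
  have hr1 : pol2 (D 0) (D 2) ^ 2 - 4 * disc2 (D 0) * disc2 (D 2) = algebraMap K (Om K) r := by
    rw [hr, hD2]; exact (c5d_pol2_sum (D 0) (D 1)).1
  have hr2 : pol2 (D 1) (D 2) ^ 2 - 4 * disc2 (D 1) * disc2 (D 2) = algebraMap K (Om K) r := by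
    rw [hr, hD2]; exact (c5d_pol2_sum (D 0) (D 1)).2
  have pz : ∀ P : (Om K)[X], pol2 0 P = 0 := by intro P; simp [pol2]
  have pz' : ∀ P : (Om K)[X], pol2 P 0 = 0 := by intro P; simp [pol2]
  have dz : disc2 (0 : (Om K)[X]) = 0 := by simp [disc2]
  have hne : ∀ i, D i ≠ 0 := by
    intro i h
    apply hrne
    fin_cases i
    · have h' : D 0 = 0 := h
      rw [← hr1, h', pz, dz]; ring
    · have h' : D 1 = 0 := h
      rw [← hr2, h', pz, dz]; ring
    · have h' : D 2 = 0 := h
      rw [← hr1, h', pz', dz]; ring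
  -- the zeros of each form inside `T`
  let Z : Fin 3 → Finset (P1 K) := fun i => T.filter (fun p => ev 2 (D i) p = 0)
  have hZle : ∀ i, (Z i).card ≤ 2 := by
    intro i
    have hf := finite_zeros (hD i) (hne i)
    have hs : (Z i : Set (P1 K)) ⊆ {p | ev 2 (D i) p = 0} := by
      intro p hp
      exact (Finset.mem_filter.1 hp).2
    have := Set.ncard_le_ncard hs hf
    rw [Set.ncard_coe_finset] at this
    exact this.trans (ncard_zeros (hD i) (hne i))
  have hTZ : T = Z 0 ∪ Z 1 ∪ Z 2 := by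
    ext p
    constructor
    · intro hp
      obtain ⟨i, hi⟩ := hz p hp
      fin_cases i
      · exact Finset.mem_union_left _ (Finset.mem_union_left _ (Finset.mem_filter.2 ⟨hp, hi⟩))
      · exact Finset.mem_union_left _ (Finset.mem_union_right _ (Finset.mem_filter.2 ⟨hp, hi⟩))
      · exact Finset.mem_union_right _ (Finset.mem_filter.2 ⟨hp, hi⟩)
    · intro hp
      rcases Finset.mem_union.1 hp with hp | hp
      · rcases Finset.mem_union.1 hp with hp | hp
        · exact (Finset.mem_filter.1 hp).1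
        · exact (Finset.mem_filter.1 hp).1
      · exact (Finset.mem_filter.1 hp).1
  have hcard : 6 ≤ (Z 0).card + (Z 1).card + (Z 2).card := by
    rw [← hTc]
    conv_lhs => rw [hTZ]
    exact (Finset.card_union_le _ _).trans (Nat.add_le_add_right (Finset.card_union_le _ _) _)
  have hZ2 : ∀ i, (Z i).card = 2 := by
    intro i
    have h0 := hZle 0
    have h1 := hZle 1
    have h2 := hZle 2
    fin_cases i
    · show (Z 0).card = 2
      omega
    · show (Z 1).card = 2
      omega
    · show (Z 2).card = 2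
      omega
  -- factorisations
  have hfac : ∀ i, ∃ a b : P1 K, a ≠ b ∧ ∃ c ≠ 0, D i = C c * (lin a * lin b) ∧ Z i = {a, b} := by
    intro i
    have hdi : disc2 (D i) ≠ 0 := by
      intro h0
      obtain ⟨a, c, hc, ha⟩ := (disc2_eq_iff hom2 (hD i) (hne i)).1 h0
      have hsub : Z i ⊆ {a} := by
        intro p hp
        have h3 := (Finset.mem_filter.1 hp).2
        have h4 : D i = C c * (lin a * lin a) := by rw [ha]; ring
        rw [h4, c5b_ev c hc] at h3
        simpa using h3
      have := Finset.card_le_card hsub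
      rw [hZ2 i] at this
      simp at this
    obtain ⟨a, b, hab, c, hc, h⟩ := (disc2_ne_iff hom2 (hD i)).1 hdi
    refine ⟨a, b, hab, c, hc, h, ?_⟩
    have hsub : Z i ⊆ {a, b} := by
      intro p hp
      have h3 := (Finset.mem_filter.1 hp).2
      rw [h, c5b_ev c hc] at h3
      simpa using h3
    apply Finset.eq_of_subset_of_card_le hsub
    rw [hZ2 i, Finset.card_pair hab]
  obtain ⟨a0, b0, hab0, c0, hc0, hf0, hZ0⟩ := hfac 0
  obtain ⟨a1, b1, hab1, c1, hc1, hf1, hZ1⟩ := hfac 1
  obtain ⟨a2, b2, hab2, c2, hc2, hf2, hZ2'⟩ := hfac 2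
  let x : Fin 6 → P1 K := ![a0, b0, a1, b1, a2, b2]
  have him : Finset.univ.image x = T := by
    rw [hTZ, hZ0, hZ1, hZ2']
    ext p
    simp only [Finset.mem_image, Finset.mem_univ, true_and, Finset.mem_union, Finset.mem_insert,
      Finset.mem_singleton]
    constructor
    · rintro ⟨i, rfl⟩
      fin_cases i
      · exact Or.inl (Or.inl (Or.inl rfl))
      · exact Or.inl (Or.inl (Or.inr rfl))
      · exact Or.inl (Or.inr (Or.inl rfl))
      · exact Or.inl (Or.inr (Or.inr rfl))
      · exact Or.inr (Or.inl rfl)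
      · exact Or.inr (Or.inr rfl)
    · rintro (((h | h) | (h | h)) | (h | h))
      · exact ⟨0, h.symm⟩
      · exact ⟨1, h.symm⟩
      · exact ⟨2, h.symm⟩
      · exact ⟨3, h.symm⟩
      · exact ⟨4, h.symm⟩
      · exact ⟨5, h.symm⟩
  have hx : Function.Injective x := by
    have h3 : (Finset.univ.image x).card = (Finset.univ : Finset (Fin 6)).card := by
      rw [him, hTc]; simp
    have h4 := Finset.card_image_iff.1 h3
    intro i j hij
    exact h4 (Finset.mem_coe.2 (Finset.mem_univ i)) (Finset.mem_coe.2 (Finset.mem_univ j)) hij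
  -- the constant
  set c : Om K := c0 * c1 * c2 with hc
  have hcne : c ≠ 0 := mul_ne_zero (mul_ne_zero hc0 hc1) hc2
  have hcq : c ^ Fintype.card K = (e : Om K) * c := by
    have h3 := congrArg leadingCoeff hphi
    rw [c5d_lead_phi, leadingCoeff_mul, leadingCoeff_mul, leadingCoeff_mul, leadingCoeff_mul,
      leadingCoeff_mul, leadingCoeff_C, hf0, hf1, hf2, c5b_lead, c5b_lead, c5b_lead] at h3
    exact h3
  have he2 : (e : Om K) ^ 2 = 1 := by rcases he with rfl | rfl <;> simp
  have hc2q : (c ^ 2) ^ Fintype.card K = c ^ 2 := by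
    rw [← pow_mul, mul_comm, pow_mul, hcq, mul_pow, he2, one_mul]
  obtain ⟨m, hm⟩ := pow_card_eq_iff.1 hc2q
  have hm0 : m ≠ 0 := by
    intro h
    rw [h, map_zero] at hm
    exact pow_ne_zero 2 hcne hm.symm
  have hchim : quadraticChar K m = e := by
    by_cases hsq : IsSquare m
    · rw [(quadraticChar_one_iff_isSquare hm0).2 hsq]
      obtain ⟨n, hn⟩ := hsq
      have h3 : c = algebraMap K (Om K) n ∨ c = -algebraMap K (Om K) n := by
        apply sq_eq_sq_iff_eq_or_eq_neg.1
        rw [← hm, hn, map_mul]; ring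
      have h4 : c ^ Fintype.card K = c := by
        rcases h3 with h3 | h3
        · exact pow_card_eq_iff.2 ⟨n, h3.symm⟩
        · exact pow_card_eq_iff.2 ⟨-n, by rw [map_neg]; exact h3.symm⟩
      rw [h4] at hcq
      rcases he with rfl | rfl
      · rfl
      · exfalso
        have : (2 : Om K) * c = 0 := by
          push_cast at hcq
          linear_combination hcq
        exact mul_ne_zero hom2 hcne this
    · rw [quadraticChar_neg_one_iff_not_isSquare.2 hsq]
      rcases he with rfl | rfl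
      · exfalso
        apply hsq
        have h4 : c ^ Fintype.card K = c := by rw [hcq]; simp
        obtain ⟨n, hn⟩ := pow_card_eq_iff.1 h4
        refine ⟨n, (algebraMap K (Om K)).injective ?_⟩
        rw [hm, map_mul, hn]; ring
      · rfl
  have h16 : (16 : K) ≠ 0 := by
    have : (16 : K) = 2 ^ 4 := by norm_num
    rw [this]
    exact pow_ne_zero 4 h2
  have h16' : (16 : Om K) ≠ 0 := by
    have : (16 : Om K) = 2 ^ 4 := by norm_num
    rw [this]
    exact pow_ne_zero 4 hom2
  -- resultants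
  have q01 := c5d_res c0 c1 a0 b0 a1 b1
  have q02 := c5d_res c0 c2 a0 b0 a2 b2
  have q12 := c5d_res c1 c2 a1 b1 a2 b2
  rw [← hf0, ← hf1, ← hr] at q01
  rw [← hf0, ← hf2, hr1] at q02
  rw [← hf1, ← hf2, hr2] at q12
  rw [hf0, hf1, hf2, c5b_disc2, c5b_disc2, c5b_disc2] at hd
  have hmu := mu_eq_chi h2 x hx (by rw [him]; exact hT) (d * (r / 16) ^ 6 / m ^ 5) (by
    have e1 : (∏ i : Fin 6, ∏ j ∈ Finset.Ioi i, cr (x i) (x j)) =
        cr a0 b0 * cr a1 b1 * cr a2 b2 *
        ((cr a0 a1 * cr a0 b1 * cr b0 a1 * cr b0 b1) *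
        (cr a0 a2 * cr a0 b2 * cr b0 a2 * cr b0 b2) *
        (cr a1 a2 * cr a1 b2 * cr b1 a2 * cr b1 b2)) := by
      have i0 : Finset.Ioi (0 : Fin 6) = {1, 2, 3, 4, 5} := by decide
      have i1 : Finset.Ioi (1 : Fin 6) = {2, 3, 4, 5} := by decide
      have i2 : Finset.Ioi (2 : Fin 6) = {3, 4, 5} := by decide
      have i3 : Finset.Ioi (3 : Fin 6) = {4, 5} := by decide
      have i4 : Finset.Ioi (4 : Fin 6) = {5} := by decide
      have i5 : Finset.Ioi (5 : Fin 6) = ∅ := by decide
      rw [Fin.prod_univ_six, i0, i1, i2, i3, i4, i5]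
      have x0 : x 0 = a0 := rfl
      have x1 : x 1 = b0 := rfl
      have x2 : x 2 = a1 := rfl
      have x3 : x 3 = b1 := rfl
      have x4 : x 4 = a2 := rfl
      have x5 : x 5 = b2 := rfl
      rw [Finset.prod_insert (by decide), Finset.prod_insert (by decide),
        Finset.prod_insert (by decide), Finset.prod_insert (by decide), Finset.prod_singleton,
        Finset.prod_insert (by decide), Finset.prod_insert (by decide),
        Finset.prod_insert (by decide), Finset.prod_singleton,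
        Finset.prod_insert (by decide), Finset.prod_insert (by decide), Finset.prod_singleton,
        Finset.prod_insert (by decide), Finset.prod_singleton, Finset.prod_singleton,
        Finset.prod_empty, x0, x1, x2, x3, x4, x5]
      ring
    rw [e1, map_div₀, map_mul, map_pow, map_pow, map_div₀, map_ofNat, hm, hd]
    set R01 := cr a0 a1 * cr a0 b1 * cr b0 a1 * cr b0 b1
    set R02 := cr a0 a2 * cr a0 b2 * cr b0 a2 * cr b0 b2
    set R12 := cr a1 a2 * cr a1 b2 * cr b1 a2 * cr b1 b2
    have g01 : algebraMap K (Om K) r / 16 = c0 ^ 2 * c1 ^ 2 * R01 := by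
      rw [div_eq_iff h16', q01]; ring
    have g02 : algebraMap K (Om K) r / 16 = c0 ^ 2 * c2 ^ 2 * R02 := by
      rw [div_eq_iff h16', q02]; ring
    have g12 : algebraMap K (Om K) r / 16 = c1 ^ 2 * c2 ^ 2 * R12 := by
      rw [div_eq_iff h16', q12]; ring
    have g6 : (algebraMap K (Om K) r / 16) ^ 6 = (c0 ^ 2 * c1 ^ 2 * R01) ^ 2 *
        (c0 ^ 2 * c2 ^ 2 * R02) ^ 2 * (c1 ^ 2 * c2 ^ 2 * R12) ^ 2 := by
      rw [← g01, ← g02, ← g12]; ring
    rw [g6, div_eq_iff (pow_ne_zero 5 (pow_ne_zero 2 hcne)), hc]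
    ring)
  rw [him] at hmu
  rw [hmu]
  have h5 : quadraticChar K (d * (r / 16) ^ 6 / m ^ 5) * quadraticChar K m ^ 5 =
      quadraticChar K d := by
    rw [← map_pow, ← map_mul, div_mul_cancel₀ _ (pow_ne_zero 5 hm0), map_mul]
    have : (r / 16) ^ 6 = ((r / 16) ^ 3) ^ 2 := by ring
    rw [this, quadraticChar_sq_one' (pow_ne_zero 3 (div_ne_zero hr0 h16)), mul_one]
  rw [← h5, hchim]
  rcases he with rfl | rfl <;> ring

end

end
end Pool.Agent.Helper19.DP1
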