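import Pool.Agent.Helper19.DP1.Core2a

/-! Core7a: the symmetry on forms and points. -/

namespace Pool.Agent.Helper19.DP1
open Polynomial Classical
noncomputable section

section
variable {L : Type*} [Field L] {m n w d : ℕ} {P Q : L[X]} {f g : L[X][X]} {r p : Option L} {v : L}
  {s : L[X]}

lemma natDegree_reflect_le' (hP : P.natDegree ≤ n) : (P.reflect n).natDegree ≤ n := by
  rw [natDegree_le_iff_coeff_eq_zero]
  intro k hk
  rw [coeff_reflect, revAt_eq_self_of_lt hk]
  exact (natDegree_le_iff_coeff_eq_zero.1 hP) k hk

lemma natDegree_comp_XC (c : L) : (P.comp (X + C c)).natDegree = P.natDegree := by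
  rw [← taylor_apply, natDegree_taylor]

lemma sym_none : sym none n P = P := rfl

lemma sym_some (c : L) : sym (some c) n P = (P.comp (X + C c)).reflect n := rfl

theorem natDegree_sym (hP : P.natDegree ≤ n) : (sym r n P).natDegree ≤ n := by
  cases r with
  | none => exact hP
  | some c =>
    rw [sym_some]
    exact natDegree_reflect_le' (by rw [natDegree_comp_XC]; exact hP)

theorem sym_add : sym r n (P + Q) = sym r n P + sym r n Q := by
  cases r with
  | none => rfl
  | some c => rw [sym_some, sym_some, sym_some, add_comp, reflect_add]

theorem sym_C_mul (c : L) : sym r n (C c * P) = C c * sym r n P := by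
  cases r with
  | none => rfl
  | some t => rw [sym_some, sym_some, mul_comp, C_comp, reflect_C_mul]

theorem sym_mul (hP : P.natDegree ≤ m) (hQ : Q.natDegree ≤ n) :
    sym r (m + n) (P * Q) = sym r m P * sym r n Q := by
  cases r with
  | none => rfl
  | some t =>
    rw [sym_some, sym_some, sym_some, mul_comp, reflect_mul]
    · rw [natDegree_comp_XC]; exact hP
    · rw [natDegree_comp_XC]; exact hQ

theorem sym_bij (r : Option L) (n : ℕ) :
    Set.BijOn (sym r n) {P : L[X] | P.natDegree ≤ n} {P : L[X] | P.natDegree ≤ n} := by
  refine ⟨fun P hP => natDegree_sym hP, ?_, ?_⟩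
  · intro P _ Q _ h
    cases r with
    | none => exact h
    | some c =>
      have h1 := congrArg (fun R : L[X] => (R.reflect n)) h
      simp only [sym_some, reflect_reflect] at h1
      rw [← taylor_apply, ← taylor_apply] at h1
      exact taylor_injective c h1
  · intro P hP
    cases r with
    | none => exact ⟨P, hP, rfl⟩
    | some c =>
      refine ⟨taylor (-c) (P.reflect n), ?_, ?_⟩
      · change (taylor (-c) (P.reflect n)).natDegree ≤ n
        rw [natDegree_taylor]
        exact natDegree_reflect_le' hP
      · rw [sym_some, ← taylor_apply, taylor_taylor, add_neg_cancel, taylor_zero, reflect_reflect]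

theorem symU_ne_zero (r p : Option L) : symU r p ≠ 0 := by
  cases r with
  | none => exact one_ne_zero
  | some c =>
    cases p with
    | none => exact one_ne_zero
    | some t =>
      change (if t = c then (1 : L) else (t - c)⁻¹) ≠ 0
      split_ifs with h
      · exact one_ne_zero
      · exact inv_ne_zero (sub_ne_zero.2 h)

lemma symP_some_some (c t : L) :
    symP (some c) (some t) = if t = c then none else some ((t - c)⁻¹) := rfl

lemma symP_some_none (c : L) : symP (some c) none = some 0 := rfl

theorem symP_bijective (r : Option L) : Function.Bijective (symP r) := by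
  cases r with
  | none =>
    have : symP (none : Option L) = id := by
      funext p; rfl
    rw [this]; exact Function.bijective_id
  | some c =>
    constructor
    · intro p p' h
      cases p with
      | none =>
        cases p' with
        | none => rfl
        | some t =>
          rw [symP_some_none, symP_some_some] at h
          split_ifs at h with h1
          have h2 := Option.some_injective _ h
          exact absurd h2.symm (inv_ne_zero (sub_ne_zero.2 h1))
      | some t =>
        cases p' with
        | none =>
          rw [symP_some_none, symP_some_some] at h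
          split_ifs at h with h1
          have h2 := Option.some_injective _ h
          exact absurd h2 (inv_ne_zero (sub_ne_zero.2 h1))
        | some t' =>
          rw [symP_some_some, symP_some_some] at h
          split_ifs at h with h1 h2 h2
          · rw [h1, h2]
          · have h3 := inv_injective (Option.some_injective _ h)
            rw [sub_left_inj] at h3
            rw [h3]
    · intro y
      cases y with
      | none => exact ⟨some c, by rw [symP_some_some, if_pos rfl]⟩
      | some s =>
        by_cases hs : s = 0
        · exact ⟨none, by rw [symP_some_none, hs]⟩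
        · refine ⟨some (s⁻¹ + c), ?_⟩
          have h1 : s⁻¹ + c ≠ c := by
            intro h
            exact inv_ne_zero hs (by simpa using h)
          rw [symP_some_some, if_neg h1, add_sub_cancel_right, inv_inv]

theorem symP_self (r : Option L) : symP r r = none := by
  cases r with
  | none => rfl
  | some c => rw [symP_some_some, if_pos rfl]

lemma eval_reflect (hP : P.natDegree ≤ n) {x : L} (hx : x ≠ 0) :
    (P.reflect n).eval x⁻¹ = x⁻¹ ^ n * P.eval x := by
  letI : Invertible x := invertibleOfNonzero hx
  have h := eval₂_reflect_mul_pow (RingHom.id L) x n P hP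
  rw [invOf_eq_inv] at h
  change (P.reflect n).eval x⁻¹ * x ^ n = P.eval x at h
  rw [← h, mul_comm, mul_assoc, ← mul_pow, mul_inv_cancel₀ hx, one_pow, mul_one]

theorem ev_sym (hP : P.natDegree ≤ n) : ev n (sym r n P) (symP r p) = symU r p ^ n * ev n P p := by
  cases r with
  | none =>
    have h1 : symU (none : Option L) p = 1 := rfl
    have h2 : symP (none : Option L) p = p := rfl
    rw [h1, h2, one_pow, one_mul, sym_none]
  | some c =>
    have hQ : (P.comp (X + C c)).natDegree ≤ n := by rw [natDegree_comp_XC]; exact hP
    cases p with
    | none =>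
      have h1 : symU (some c) (none : Option L) = 1 := rfl
      rw [h1, one_pow, one_mul, symP_some_none, sym_some]
      change ((P.comp (X + C c)).reflect n).eval 0 = P.coeff n
      rw [← coeff_zero_eq_eval_zero, coeff_reflect, revAt_zero, ← taylor_apply]
      rcases hP.lt_or_eq with h | h
      · rw [coeff_eq_zero_of_natDegree_lt h, coeff_eq_zero_of_natDegree_lt]
        rw [natDegree_taylor]; exact h
      · rw [← h, coeff_taylor_natDegree]; rfl
    | some t =>
      have h1 : symU (some c) (some t) = if t = c then 1 else (t - c)⁻¹ := rfl
      rw [h1, symP_some_some, sym_some]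
      split_ifs with h
      · rw [one_pow, one_mul]
        change ((P.comp (X + C c)).reflect n).coeff n = P.eval t
        rw [coeff_reflect, revAt_le le_rfl, Nat.sub_self, ← taylor_apply, taylor_coeff_zero, h]
      · change ((P.comp (X + C c)).reflect n).eval (t - c)⁻¹ = _ * P.eval t
        rw [eval_reflect hQ (sub_ne_zero.2 h), eval_comp, eval_add, eval_X, eval_C, sub_add_cancel]

lemma dv_lin_iff {k : ℕ} (hQ : Q.natDegree ≤ k) : dv (k + 1) (lin r * Q) r ↔ ev k Q r = 0 := by
  constructor
  · intro h
    cases r with
    | none =>
      obtain ⟨_, h2⟩ := h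
      simpa [lin, ev] using h2
    | some t =>
      obtain ⟨_, h2⟩ := h
      simpa [lin, ev, derivative_mul] using h2
  · intro h
    rcases Nat.eq_zero_or_pos k with rfl | hk
    · have hQc : Q = C (Q.coeff 0) := eq_C_of_natDegree_le_zero hQ
      rw [hQc, ev_C_zero] at h
      rw [hQc, h, C_0, mul_zero]
      exact dv_zero
    · rw [add_comm]
      exact dv_mul_of_ev le_rfl hk (natDegree_lin r) hQ ((ev_lin r).2 rfl) h

lemma dv_C_mul_iff {c : L} (hc : c ≠ 0) : dv n (C c * P) p ↔ dv n P p := by
  constructor
  · intro h
    have h1 := dv_C_mul c⁻¹ h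
    rwa [← mul_assoc, ← C_mul, inv_mul_cancel₀ hc, C_1, one_mul] at h1
  · exact dv_C_mul c

theorem dv_sym (hn : 1 ≤ n) (hP : P.natDegree ≤ n) :
    dv n (sym r n P) (symP r p) ↔ dv n P p := by
  obtain ⟨k, rfl⟩ : ∃ k, n = k + 1 := ⟨n - 1, by omega⟩
  have hU := symU_ne_zero r p
  by_cases h : ev (k + 1) P p = 0
  · obtain ⟨Q, hQ, rfl⟩ := exists_mul_lin hP h
    have h1 : ev 1 (sym r 1 (lin p)) (symP r p) = 0 := by
      rw [ev_sym (natDegree_lin p), (ev_lin p).2 rfl, mul_zero]
    obtain ⟨c, hc⟩ := eq_C_mul_lin (natDegree_sym (natDegree_lin p)) h1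
    have hc0 : c ≠ 0 := by
      rintro rfl
      rw [C_0, zero_mul] at hc
      have h2 : sym r 1 (lin p) = sym r 1 0 := by
        rw [hc]
        have := sym_C_mul (r := r) (n := 1) (P := (0 : L[X])) 0
        simpa using this.symm
      exact lin_ne_zero p ((sym_bij r 1).injOn (natDegree_lin p) (by simp) h2)
    have h3 : sym r (k + 1) (lin p * Q) = C c * (lin (symP r p) * sym r k Q) := by
      rw [add_comm k 1, sym_mul (natDegree_lin p) hQ, hc, mul_assoc]
    rw [h3, dv_C_mul_iff hc0, dv_lin_iff (natDegree_sym hQ), dv_lin_iff hQ, ev_sym hQ, mul_eq_zero]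
    constructor
    · rintro (h4 | h4)
      · exact absurd h4 (pow_ne_zero k hU)
      · exact h4
    · exact Or.inr
  · constructor
    · intro h1
      have h2 := dv_ev h1
      rw [ev_sym hP] at h2
      exact absurd ((mul_eq_zero.1 h2).resolve_left (pow_ne_zero _ hU)) h
    · intro h1
      exact absurd (dv_ev h1) h

end

end
end Pool.Agent.Helper19.DP1
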