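import Pool.Agent.Helper19.DP1.Core6c
import Pool.Agent.Helper19.DP1.Core7a

/-! Core7b: the symmetry on polynomials in `Y`. -/

namespace Pool.Agent.Helper19.DP1
open Polynomial Classical
noncomputable section

section
variable {L : Type*} [Field L] {m n w d : ℕ} {P Q : L[X]} {f g : L[X][X]} {r p : Option L} {v : L}
  {s : L[X]}

lemma sym_zero' : sym r n (0 : L[X]) = 0 := by
  have := sym_C_mul (r := r) (n := n) (P := (0 : L[X])) 0
  simpa using this

lemma sym_zero_one : sym r 0 (1 : L[X]) = 1 := by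
  cases r with
  | none => rfl
  | some c => rw [sym_some]; simp

/-- `sym` as an additive homomorphism -/
def symHom (r : Option L) (n : ℕ) : L[X] →+ L[X] where
  toFun := sym r n
  map_zero' := sym_zero'
  map_add' _ _ := sym_add

lemma sym_sum {ι : Type*} (S : Finset ι) (F : ι → L[X]) :
    sym r n (∑ i ∈ S, F i) = ∑ i ∈ S, sym r n (F i) := map_sum (symHom r n) F S

lemma sym_pow' (hs : s.natDegree ≤ w) (k : ℕ) : sym r (w * k) (s ^ k) = sym r w s ^ k := by
  induction k with
  | zero => rw [mul_zero, pow_zero, pow_zero, sym_zero_one]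
  | succ k ih =>
    rw [Nat.mul_succ, pow_succ, pow_succ, sym_mul _ hs, ih]
    rw [mul_comm w k]
    exact natDegree_pow_le_of_le k hs

/-- shape without monicity -/
def Shp (w d : ℕ) (f : L[X][X]) : Prop :=
  f.natDegree ≤ d ∧ ∀ k ≤ d, (f.coeff k).natDegree ≤ w * (d - k)

lemma WP.shp (hf : WP w d f) : Shp w d f := by
  refine ⟨hf.2.1.le, fun k hk => ?_⟩
  have := hf.2.2 (d - k) (Nat.sub_le _ _)
  rwa [Nat.sub_sub_self hk] at this

lemma coeff_symY (k : ℕ) : (symY w d r f).coeff k =
    if k ≤ d then sym r (w * (d - k)) (f.coeff k) else 0 := by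
  unfold symY
  rw [finsetSum_coeff]
  simp only [coeff_C_mul_X_pow]
  split_ifs with hk
  · rw [Finset.sum_eq_single (d - k)]
    · rw [Nat.sub_sub_self hk, if_pos rfl]
    · intro b hb hbk
      rw [if_neg]
      have := Finset.mem_range.1 hb
      omega
    · intro h
      exact absurd (Finset.mem_range.2 (by omega)) h
  · apply Finset.sum_eq_zero
    intro i _
    rw [if_neg]
    omega

lemma coeff_symY_le {k : ℕ} (hk : k ≤ d) : (symY w d r f).coeff k =
    sym r (w * (d - k)) (f.coeff k) := by rw [coeff_symY, if_pos hk]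

lemma coeff_symY_gt {k : ℕ} (hk : d < k) : (symY w d r f).coeff k = 0 := by
  rw [coeff_symY, if_neg (by omega)]

lemma natDegree_symY : (symY w d r f).natDegree ≤ d := by
  rw [natDegree_le_iff_coeff_eq_zero]
  intro k hk
  exact coeff_symY_gt hk

theorem WP_symY (hf : WP w d f) : WP w d (symY w d r f) := by
  have hlead : (symY w d r f).coeff d = 1 := by
    rw [coeff_symY_le le_rfl, Nat.sub_self, mul_zero]
    have h1 : f.coeff d = 1 := by
      have := hf.1.coeff_natDegree
      rwa [hf.2.1] at this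
    rw [h1, sym_zero_one]
  have hdeg : (symY w d r f).natDegree = d :=
    le_antisymm natDegree_symY (le_natDegree_of_ne_zero (by rw [hlead]; exact one_ne_zero))
  refine ⟨?_, hdeg, ?_⟩
  · rw [Monic, leadingCoeff, hdeg, hlead]
  · intro i hi
    rw [coeff_symY_le (Nat.sub_le _ _), Nat.sub_sub_self hi]
    exact natDegree_sym (hf.2.2 i hi)

lemma WP_ext (hf : WP w d f) (hg : WP w d g) (h : ∀ k < d, f.coeff k = g.coeff k) : f = g := by
  ext1 k
  rcases lt_trichotomy k d with hk | hk | hk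
  · exact h k hk
  · have h1 := hf.1.coeff_natDegree
    have h2 := hg.1.coeff_natDegree
    rw [hf.2.1] at h1
    rw [hg.2.1] at h2
    rw [hk, h1, h2]
  · rw [coeff_eq_zero_of_natDegree_lt (by rw [hf.2.1]; exact hk),
      coeff_eq_zero_of_natDegree_lt (by rw [hg.2.1]; exact hk)]

theorem symY_bij (w d : ℕ) (r : Option L) :
    Set.BijOn (symY w d r) {f : L[X][X] | WP w d f} {f : L[X][X] | WP w d f} := by
  refine ⟨fun f hf => WP_symY hf, ?_, ?_⟩
  · intro f hf g hg h
    apply WP_ext hf hg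
    intro k hk
    have h1 : (symY w d r f).coeff k = (symY w d r g).coeff k := by rw [h]
    rw [coeff_symY_le hk.le, coeff_symY_le hk.le] at h1
    exact (sym_bij r (w * (d - k))).injOn (WP.shp hf |>.2 k hk.le) (WP.shp hg |>.2 k hk.le) h1
  · intro g hg
    have hgd : g.coeff d = 1 := by
      have := hg.1.coeff_natDegree
      rwa [hg.2.1] at this
    have hex : ∀ k, ∃ P : L[X], (k ≤ d → P.natDegree ≤ w * (d - k) ∧
        sym r (w * (d - k)) P = g.coeff k) := by
      intro k
      by_cases hk : k ≤ d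
      · obtain ⟨P, hP, hPe⟩ := (sym_bij r (w * (d - k))).surjOn (WP.shp hg |>.2 k hk)
        exact ⟨P, fun _ => ⟨hP, hPe⟩⟩
      · exact ⟨0, fun h => absurd h hk⟩
    choose F hF using hex
    set f : L[X][X] := ∑ i ∈ Finset.range (d + 1), C (F i) * X ^ i with hf
    have hcoef : ∀ k ≤ d, f.coeff k = F k := by
      intro k hk
      rw [hf, finsetSum_coeff]
      simp only [coeff_C_mul_X_pow]
      rw [Finset.sum_eq_single k]
      · rw [if_pos rfl]
      · intro b _ hb
        rw [if_neg (fun h => hb h.symm)]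
      · intro h
        exact absurd (Finset.mem_range.2 (by omega)) h
    have hcoef' : ∀ k, d < k → f.coeff k = 0 := by
      intro k hk
      rw [hf, finsetSum_coeff]
      simp only [coeff_C_mul_X_pow]
      apply Finset.sum_eq_zero
      intro i hi
      rw [if_neg]
      have := Finset.mem_range.1 hi
      omega
    have hFd : F d = 1 := by
      obtain ⟨h1, h2⟩ := hF d le_rfl
      rw [Nat.sub_self, mul_zero] at h1 h2
      refine (sym_bij r 0).injOn h1 (by simp) ?_
      rw [h2, hgd, sym_zero_one]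
    have hlead : f.coeff d = 1 := by rw [hcoef d le_rfl, hFd]
    have hdeg : f.natDegree = d := by
      refine le_antisymm (natDegree_le_iff_coeff_eq_zero.2 (fun k hk => hcoef' k hk))
        (le_natDegree_of_ne_zero (by rw [hlead]; exact one_ne_zero))
    refine ⟨f, ⟨?_, hdeg, ?_⟩, ?_⟩
    · rw [Monic, leadingCoeff, hdeg, hlead]
    · intro i hi
      rw [hcoef _ (Nat.sub_le _ _)]
      have := (hF (d - i) (Nat.sub_le _ _)).1
      rwa [Nat.sub_sub_self hi] at this
    · ext1 k
      by_cases hk : k ≤ d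
      · rw [coeff_symY_le hk, hcoef k hk]
        exact (hF k hk).2
      · rw [coeff_symY_gt (by omega), coeff_eq_zero_of_natDegree_lt (by rw [hg.2.1]; omega)]

theorem symY_mul {d1 d2 : ℕ} (hf : WP w d1 f) (hg : WP w d2 g) :
    symY w (d1 + d2) r (f * g) = symY w d1 r f * symY w d2 r g := by
  ext1 k
  rw [coeff_mul]
  by_cases hk : k ≤ d1 + d2
  · rw [coeff_symY_le hk, coeff_mul, sym_sum]
    apply Finset.sum_congr rfl
    rintro ⟨a, b⟩ hab
    have hab' : a + b = k := Finset.HasAntidiagonal.mem_antidiagonal.1 hab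
    simp only
    by_cases ha : a ≤ d1
    · by_cases hb : b ≤ d2
      · rw [coeff_symY_le ha, coeff_symY_le hb,
          ← sym_mul ((WP.shp hf).2 a ha) ((WP.shp hg).2 b hb), ← mul_add]
        congr 2
        omega
      · rw [coeff_symY_gt (k := b) (by omega), mul_zero,
          coeff_eq_zero_of_natDegree_lt (p := g) (by rw [hg.2.1]; omega), mul_zero, sym_zero']
    · rw [coeff_symY_gt (k := a) (by omega), zero_mul,
        coeff_eq_zero_of_natDegree_lt (p := f) (by rw [hf.2.1]; omega), zero_mul, sym_zero']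
  · rw [coeff_symY_gt (by omega)]
    symm
    apply Finset.sum_eq_zero
    rintro ⟨a, b⟩ hab
    have hab' : a + b = k := Finset.HasAntidiagonal.mem_antidiagonal.1 hab
    simp only
    by_cases ha : a ≤ d1
    · rw [coeff_symY_gt (k := b) (by omega), mul_zero]
    · rw [coeff_symY_gt (k := a) (by omega), zero_mul]

lemma eval_eq_of_natDegree_le (hf : f.natDegree ≤ d) (s : L[X]) :
    f.eval s = ∑ k ∈ Finset.range (d + 1), f.coeff k * s ^ k :=
  eval_eq_sum_range' (by omega) s

lemma symY_eval_shp (hf : Shp w d f) (hs : s.natDegree ≤ w) :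
    (symY w d r f).eval (sym r w s) = sym r (w * d) (f.eval s) := by
  rw [eval_eq_of_natDegree_le natDegree_symY, eval_eq_of_natDegree_le hf.1, sym_sum]
  apply Finset.sum_congr rfl
  intro k hk
  have hk' : k ≤ d := by have := Finset.mem_range.1 hk; omega
  have hsk : (s ^ k).natDegree ≤ w * k := by
    rw [mul_comm w k]; exact natDegree_pow_le_of_le k hs
  rw [coeff_symY_le hk', ← sym_pow' hs k, ← sym_mul (hf.2 k hk') hsk, ← mul_add]
  congr 2
  omega

lemma natDegree_eval_shp (hf : Shp w d f) (hs : s.natDegree ≤ w) :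
    (f.eval s).natDegree ≤ w * d := by
  rw [eval_eq_of_natDegree_le hf.1]
  apply natDegree_sum_le_of_forall_le
  intro k hk
  have hk' : k ≤ d := by have := Finset.mem_range.1 hk; omega
  have hsk : (s ^ k).natDegree ≤ w * k := by
    rw [mul_comm w k]; exact natDegree_pow_le_of_le k hs
  refine (natDegree_mul_le_of_le (hf.2 k hk') hsk).trans ?_
  rw [← mul_add]
  have : d - k + k = d := by omega
  rw [this]

theorem symY_eval (hf : WP w d f) (hs : s.natDegree ≤ w) :
    (symY w d r f).eval (sym r w s) = sym r (w * d) (f.eval s) := symY_eval_shp (WP.shp hf) hs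

lemma shp_derivative (hf : Shp w (d + 1) f) : Shp w d f.derivative := by
  refine ⟨(natDegree_derivative_le f).trans (by have := hf.1; omega), fun k hk => ?_⟩
  rw [coeff_derivative]
  have h1 := hf.2 (k + 1) (by omega)
  have e : d + 1 - (k + 1) = d - k := by omega
  rw [e] at h1
  have e2 : ((k : L[X]) + 1) = C ((k : L) + 1) := by simp
  rw [e2, mul_comm]
  exact (natDegree_C_mul_le _ _).trans h1

lemma symY_derivative : (symY w (d + 1) r f).derivative = symY w d r f.derivative := by
  ext1 k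
  rw [coeff_derivative]
  have e2 : ((k : L[X]) + 1) = C ((k : L) + 1) := by simp
  by_cases hk : k ≤ d
  · rw [coeff_symY_le (k := k + 1) (by omega), coeff_symY_le hk, coeff_derivative, e2,
      mul_comm (f.coeff (k + 1)), sym_C_mul, mul_comm]
    congr 2
    congr 1
    omega
  · rw [coeff_symY_gt (by omega), coeff_symY_gt (by omega), zero_mul]

theorem sing_symY (hf : WP w d f) (hw : 1 ≤ w) (hd : 1 ≤ d) :
    Sing w d (symY w d r f) (symP r p) (symU r p ^ w * v) ↔ Sing w d f p v := by
  obtain ⟨k, rfl⟩ : ∃ k, d = k + 1 := ⟨d - 1, by omega⟩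
  have hU := symU_ne_zero r p
  have hsh := WP.shp hf
  have hwd : 1 ≤ w * (k + 1) := Nat.mul_pos hw (by omega)
  have key : ∀ s : L[X], s.natDegree ≤ w →
      ((ev w (sym r w s) (symP r p) = symU r p ^ w * v ∧
        ev (w * (k + 1 - 1)) ((symY w (k + 1) r f).derivative.eval (sym r w s)) (symP r p) = 0 ∧
        dv (w * (k + 1)) ((symY w (k + 1) r f).eval (sym r w s)) (symP r p)) ↔
      (ev w s p = v ∧ ev (w * (k + 1 - 1)) (f.derivative.eval s) p = 0 ∧
        dv (w * (k + 1)) (f.eval s) p)) := by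
    intro s hs
    rw [Nat.add_sub_cancel, symY_derivative, symY_eval_shp (shp_derivative hsh) hs,
      symY_eval_shp hsh hs, ev_sym hs, ev_sym (natDegree_eval_shp (shp_derivative hsh) hs),
      dv_sym hwd (natDegree_eval_shp hsh hs), mul_eq_zero, mul_right_inj' (pow_ne_zero w hU)]
    constructor
    · rintro ⟨h1, h2, h3⟩
      exact ⟨h1, h2.resolve_left (pow_ne_zero _ hU), h3⟩
    · rintro ⟨h1, h2, h3⟩
      exact ⟨h1, Or.inr h2, h3⟩
  constructor
  · rintro ⟨s', hs', h⟩
    obtain ⟨s, hs, rfl⟩ := (sym_bij r w).surjOn hs'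
    exact ⟨s, hs, (key s hs).1 h⟩
  · rintro ⟨s, hs, h⟩
    exact ⟨sym r w s, natDegree_sym hs, (key s hs).2 h⟩

theorem bad_symY (hf : WP w d f) (hw : 1 ≤ w) (hd : 1 ≤ d) :
    Bad w d (symY w d r f) (symP r p) ↔ Bad w d f p := by
  have hU := pow_ne_zero w (symU_ne_zero r p)
  constructor
  · rintro ⟨v, hv⟩
    refine ⟨(symU r p ^ w)⁻¹ * v, (sing_symY (r := r) hf hw hd).1 ?_⟩
    rwa [mul_inv_cancel_left₀ hU]
  · rintro ⟨v, hv⟩
    exact ⟨_, (sing_symY hf hw hd).2 hv⟩

lemma fib_symY (hf : WP w d f) : fib w d (symY w d r f) (symP r p) =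
    C ((symU r p ^ w) ^ d) * (fib w d f p).comp (C (symU r p ^ w)⁻¹ * X) := by
  have hU := pow_ne_zero w (symU_ne_zero r p)
  unfold fib
  rw [Polynomial.sum_comp, Finset.mul_sum]
  apply Finset.sum_congr rfl
  intro i hi
  have hi' : i ≤ d := by have := Finset.mem_range.1 hi; omega
  rw [coeff_symY_le (Nat.sub_le _ _), Nat.sub_sub_self hi', ev_sym (hf.2.2 i hi'), mul_comp,
    C_comp, pow_comp, X_comp, mul_pow, ← C_pow, ← mul_assoc, ← mul_assoc, ← C_mul, ← C_mul]
  congr 2
  have h1 : ((symU r p ^ w) ^ d) = symU r p ^ (w * i) * (symU r p ^ w) ^ (d - i) := by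
    rw [← pow_mul, ← pow_mul, ← pow_add, ← mul_add]
    congr 2
    omega
  have h2 : (symU r p ^ w) ^ (d - i) ≠ 0 := pow_ne_zero _ hU
  rw [inv_pow, h1]
  field_simp

lemma scale_sq (u : L) (hu : u ≠ 0) (a b : L) :
    C (u ^ 4) * ((X ^ 2 + C a * X + C b) ^ 2 : L[X]).comp (C u⁻¹ * X) =
      (X ^ 2 + C (a * u) * X + C (b * u ^ 2)) ^ 2 := by
  have h1 : C u * C u⁻¹ = (1 : L[X]) := by rw [← C_mul, mul_inv_cancel₀ hu, C_1]
  have h2 : (C u) ^ 2 * ((C u⁻¹ * X) ^ 2 + C a * (C u⁻¹ * X) + C b : L[X]) =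
      X ^ 2 + C (a * u) * X + C (b * u ^ 2) := by
    rw [C_mul, C_mul, C_pow]
    linear_combination ((C u * C u⁻¹ + 1) * X ^ 2 + C a * C u * X) * h1
  rw [← h2]
  simp only [pow_comp, add_comp, mul_comp, X_comp, C_comp, C_pow]
  ring

theorem noSq_symY (hf : WP 1 4 f) : NoSq (symY 1 4 r f) ↔ NoSq f := by
  constructor
  · intro h p a b hab
    have hU := pow_ne_zero 1 (symU_ne_zero r p)
    apply h (symP r p) (a * (symU r p ^ 1)) (b * (symU r p ^ 1) ^ 2)
    rw [fib_symY hf, hab]
    exact scale_sq _ hU a b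
  · intro h p' a b hab
    obtain ⟨p, rfl⟩ := (symP_bijective r).2 p'
    have hU := pow_ne_zero 1 (symU_ne_zero r p)
    set u := symU r p ^ 1 with hu
    apply h p (a * u⁻¹) (b * u⁻¹ ^ 2)
    rw [fib_symY hf, ← hu] at hab
    rw [← scale_sq u⁻¹ (inv_ne_zero hU) a b, ← hab, mul_comp, C_comp, comp_assoc, inv_inv]
    have e : ((C u⁻¹ * X : L[X]).comp (C u * X)) = X := by
      rw [mul_comp, C_comp, X_comp, ← mul_assoc, ← C_mul, inv_mul_cancel₀ hU, C_1, one_mul]
    rw [e, comp_X, ← mul_assoc, ← C_mul, ← mul_pow, inv_mul_cancel₀ hU, one_pow, C_1, one_mul]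

end

end
end Pool.Agent.Helper19.DP1
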