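import Pool.Agent.Helper19.DP1.Core1a
import Pool.Agent.Helper19.DP1.Core3b
import Pool.Agent.Helper19.DP1.Core7b

/-! Core7c: the symmetry over `K`. -/

namespace Pool.Agent.Helper19.DP1
open Polynomial Classical
noncomputable section

section
variable {K : Type*} [Field K] [Fintype K]

theorem up_sym (r : Option K) (n : ℕ) (P : K[X]) :
    up (sym r n P) = sym (upP r) n (up P) := by
  cases r with
  | none => rfl
  | some c =>
    change ((P.comp (X + C c)).reflect n).map (algebraMap K (Om K)) =
      ((P.map (algebraMap K (Om K))).comp (X + C (algebraMap K (Om K) c))).reflect n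
    rw [← reflect_map, Polynomial.map_comp, Polynomial.map_add, map_X, map_C]

theorem up2_symY (w d : ℕ) (r : Option K) (f : K[X][X]) :
    up2 (symY w d r f) = symY w d (upP r) (up2 f) := by
  ext1 k
  have h1 : ∀ g : K[X][X], (up2 g).coeff k = up (g.coeff k) := by
    intro g
    unfold up2
    rw [coeff_map]
    rfl
  rw [h1, coeff_symY, coeff_symY, h1]
  split_ifs
  · exact up_sym _ _ _
  · exact up_zero

theorem upP_symP (r p : Option K) : upP (symP r p) = symP (upP r) (upP p) := by
  cases r with
  | none => rfl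
  | some c =>
    cases p with
    | none =>
      change some (algebraMap K (Om K) 0) = some 0
      rw [map_zero]
    | some t =>
      have e1 : upP (some c) = some (algebraMap K (Om K) c) := rfl
      have e2 : upP (some t) = some (algebraMap K (Om K) t) := rfl
      rw [e1, e2, symP_some_some, symP_some_some]
      by_cases h : t = c
      · rw [if_pos h, if_pos (by rw [h])]
        rfl
      · rw [if_neg h, if_neg (fun h' => h ((algebraMap K (Om K)).injective h'))]
        change some (algebraMap K (Om K) (t - c)⁻¹) = _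
        rw [map_inv₀, map_sub]

theorem frob_symP (r : Option K) (p : P1 K) :
    frob K (symP (upP r) p) = symP (upP r) (frob K p) := by
  cases r with
  | none => rfl
  | some c =>
    have e1 : upP (some c) = some (algebraMap K (Om K) c) := rfl
    rw [e1]
    have hc : (algebraMap K (Om K) c) ^ Fintype.card K = algebraMap K (Om K) c :=
      pow_card_eq_iff.2 ⟨c, rfl⟩
    cases p with
    | none =>
      change some ((0 : Om K) ^ Fintype.card K) = some 0
      rw [zero_pow Fintype.card_ne_zero]
    | some t =>
      have e2 : frob K (some t) = some (t ^ Fintype.card K) := rfl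
      rw [e2, symP_some_some, symP_some_some]
      by_cases h : t = algebraMap K (Om K) c
      · rw [if_pos h, if_pos (by rw [h, hc])]
        rfl
      · rw [if_neg h, if_neg (fun h' => h (pow_card_injective (K := K) (by
          simp only
          rw [h', hc])))]
        change some (((t - algebraMap K (Om K) c)⁻¹) ^ Fintype.card K) = _
        rw [inv_pow]
        congr 2
        have h3 := pow_card_add (t - algebraMap K (Om K) c) (algebraMap K (Om K) c)
        rw [sub_add_cancel, hc] at h3
        rw [h3, add_sub_cancel_right]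

theorem mu_symP (r : Option K) (T : Finset (P1 K)) :
    mu K (T.image (symP (upP r))) = mu K T :=
  muG_image (symP (upP r)) (symP_bijective (upP r)).1 (fun x => (frob_symP r x).symm) T

lemma stab_symP (r : Option K) (T : Finset (P1 K)) :
    IsStabG (frob K) (T.image (symP (upP r))) ↔ IsStabG (frob K) T := by
  constructor
  · intro h x hx
    have h1 := h (symP (upP r) x) (Finset.mem_image_of_mem _ hx)
    rw [frob_symP] at h1
    obtain ⟨y, hy, hyx⟩ := Finset.mem_image.1 h1
    rw [← (symP_bijective (upP r)).1 hyx]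
    exact hy
  · intro h x hx
    obtain ⟨y, hy, rfl⟩ := Finset.mem_image.1 hx
    rw [frob_symP]
    exact Finset.mem_image_of_mem _ (h y hy)

theorem image_symP_mem_Stab (r : Option K) (l : ℕ) (T : Finset (P1 K)) :
    T.image (symP (upP r)) ∈ Stab K l ↔ T ∈ Stab K l := by
  rw [mem_Stab, mem_Stab, stab_symP, Finset.card_image_of_injective _ (symP_bijective (upP r)).1]

/-- invariance of the partial sums `SVG` -/
theorem SVG_sym (r : Option K) (l : ℕ) (G G' : K[X][X] → Finset (P1 K) → Prop)
    (h : ∀ (f : K[X][X]) (T : Finset (P1 K)), WP 1 4 f → NoSq (up2 f) → T ∈ Stab K l →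
      (∀ p ∈ T, Bad 1 4 (up2 f) p) →
      (G f T ↔ G' (symY 1 4 r f) (T.image (symP (upP r))))) :
    SVG K l G = SVG K l G' := by
  unfold SVG
  set Φ : K[X] × K[X] × K[X] × K[X] → K[X] × K[X] × K[X] × K[X] := fun c =>
    ((symY 1 4 r (quart c)).coeff 3, (symY 1 4 r (quart c)).coeff 2,
      (symY 1 4 r (quart c)).coeff 1, (symY 1 4 r (quart c)).coeff 0) with hΦ
  have hq : ∀ c, WP 1 4 (quart c) → quart (Φ c) = symY 1 4 r (quart c) := by
    intro c hc
    exact (eq_quart (WP_symY hc)).symm
  have hbad : ∀ (f : K[X][X]), WP 1 4 f → ∀ T : Finset (P1 K),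
      ((∀ p ∈ T.image (symP (upP r)), Bad 1 4 (up2 (symY 1 4 r f)) p) ↔
        ∀ p ∈ T, Bad 1 4 (up2 f) p) := by
    intro f hf T
    rw [Finset.forall_mem_image]
    constructor
    · intro h1 p hp
      have h2 := h1 hp
      rwa [up2_symY, bad_symY (WP_up2 hf) le_rfl (by omega)] at h2
    · intro h1 p hp
      rw [up2_symY, bad_symY (WP_up2 hf) le_rfl (by omega)]
      exact h1 p hp
  refine Finset.sum_bij (fun c _ => Φ c) ?_ ?_ ?_ ?_
  · intro c hc
    rw [mem_Q4] at hc ⊢
    rw [hq c hc.1]
    refine ⟨WP_symY hc.1, ?_⟩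
    rw [up2_symY, noSq_symY (WP_up2 hc.1)]
    exact hc.2
  · intro c hc c' hc' he
    rw [mem_Q4] at hc hc'
    apply quart_injective
    apply (symY_bij 1 4 r).injOn hc.1 hc'.1
    rw [← hq c hc.1, ← hq c' hc'.1, he]
  · intro c' hc'
    rw [mem_Q4] at hc'
    obtain ⟨f, hf, hfc⟩ := (symY_bij 1 4 r).surjOn hc'.1
    have hf' : WP 1 4 f := hf
    refine ⟨(f.coeff 3, f.coeff 2, f.coeff 1, f.coeff 0), ?_, ?_⟩
    · rw [mem_Q4, ← eq_quart hf']
      refine ⟨hf', ?_⟩
      have h1 := hc'.2
      rwa [← hfc, up2_symY, noSq_symY (WP_up2 hf')] at h1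
    · apply quart_injective
      rw [hq _ (by rw [← eq_quart hf']; exact hf'), ← eq_quart hf', hfc]
  · intro c hc
    rw [mem_Q4] at hc
    refine Finset.sum_bij (fun T _ => T.image (symP (upP r))) ?_ ?_ ?_ ?_
    · intro T hT
      rw [Finset.mem_filter] at hT ⊢
      obtain ⟨h1, h2, h3⟩ := hT
      rw [hq c hc.1]
      exact ⟨(image_symP_mem_Stab r l T).2 h1, (hbad _ hc.1 T).2 h2,
        (h _ T hc.1 hc.2 h1 h2).1 h3⟩
    · intro T _ T' _ he
      exact Finset.image_injective (symP_bijective (upP r)).1 he
    · intro T' hT'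
      rw [Finset.mem_filter, hq c hc.1] at hT'
      obtain ⟨h1, h2, h3⟩ := hT'
      obtain ⟨T, rfl⟩ : ∃ T : Finset (P1 K), T.image (symP (upP r)) = T' := by
        refine ⟨T'.preimage (symP (upP r)) (symP_bijective (upP r)).1.injOn, ?_⟩
        rw [Finset.image_preimage]
        apply Finset.filter_true_of_mem
        intro x _
        exact (symP_bijective (upP r)).2 x
      have h1' := (image_symP_mem_Stab r l T).1 h1
      have h2' := (hbad _ hc.1 T).1 h2
      refine ⟨T, ?_, rfl⟩
      rw [Finset.mem_filter]
      exact ⟨h1', h2', (h _ T hc.1 hc.2 h1' h2').2 h3⟩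
    · intro T _
      exact (mu_symP r T).symm

end

end
end Pool.Agent.Helper19.DP1
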