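import Pool.Agent.Helper19.DP1.Core3a

/-! Core8: twisted forms `Rs σ` of `K^n`. -/

namespace Pool.Agent.Helper19.DP1
open Polynomial Classical
noncomputable section

section
variable {K : Type*} [Field K] [Fintype K] {n : ℕ}

theorem c8_pow_sum {ι : Type*} (s : Finset ι) (f : ι → Om K) :
    (∑ i ∈ s, f i) ^ Fintype.card K = ∑ i ∈ s, f i ^ Fintype.card K := by
  exact map_sum (FiniteField.frobeniusAlgHom K (Om K)) f s

theorem c8_sub_pow (x y : Om K) :
    (x - y) ^ Fintype.card K = x ^ Fintype.card K - y ^ Fintype.card K := by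
  exact map_sub (FiniteField.frobeniusAlgHom K (Om K)) x y

theorem c8_algebraMap_pow (a : K) :
    (algebraMap K (Om K) a) ^ Fintype.card K = algebraMap K (Om K) a := by
  rw [← map_pow, FiniteField.pow_card]

/-- the field with `q^N` elements inside the algebraic closure -/
theorem c8_field (N : ℕ) (hN : 1 ≤ N) : ∃ S : Finset (Om K), S.card = Fintype.card K ^ N ∧
    ∀ c ∈ S, c ^ (Fintype.card K ^ N) = c := by
  set p := ringChar K with hp
  have : CharP K p := ringChar.charP K
  have : CharP (Om K) p := charP_of_injective_algebraMap (algebraMap K (Om K)).injective p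
  obtain ⟨m, hpr, hq⟩ := FiniteField.card K p
  have hqp : p ∣ Fintype.card K ^ N := by
    rw [hq]
    exact dvd_pow (dvd_pow_self _ m.ne_zero) (by omega)
  have hq1 : 1 < Fintype.card K := Fintype.one_lt_card
  have hsep : (X ^ (Fintype.card K ^ N) - X : (Om K)[X]).Separable :=
    galois_poly_separable p _ hqp
  have hdeg : (X ^ (Fintype.card K ^ N) - X : (Om K)[X]).natDegree = Fintype.card K ^ N :=
    FiniteField.X_pow_card_pow_sub_X_natDegree_eq _ (by omega) hq1
  have hne : (X ^ (Fintype.card K ^ N) - X : (Om K)[X]) ≠ 0 := by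
    intro h
    rw [h, natDegree_zero] at hdeg
    have : 0 < Fintype.card K ^ N := by positivity
    omega
  refine ⟨(X ^ (Fintype.card K ^ N) - X : (Om K)[X]).roots.toFinset, ?_, ?_⟩
  · rw [Multiset.toFinset_card_of_nodup (nodup_roots hsep)]
    rw [← (IsAlgClosed.splits _).natDegree_eq_card_roots, hdeg]
  · intro c hc
    rw [Multiset.mem_toFinset, mem_roots hne, IsRoot.def] at hc
    simp only [eval_sub, eval_pow, eval_X] at hc
    exact sub_eq_zero.mp hc

/-- elements of `Rs σ` obtained as traces -/
theorem c8_trace_mem (σ : Equiv.Perm (Fin n)) (N : ℕ) (hN : σ ^ N = 1) (c : Om K)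
    (hc : c ^ (Fintype.card K ^ N) = c) (i : Fin n) :
    (fun j => ∑ k ∈ Finset.range N, if (σ ^ k) i = j then c ^ (Fintype.card K ^ k) else 0) ∈
      Rs K σ := by
  intro j
  show (∑ k ∈ Finset.range N, if (σ ^ k) i = j then c ^ (Fintype.card K ^ k) else 0) ^
    Fintype.card K = ∑ k ∈ Finset.range N,
      if (σ ^ k) i = σ j then c ^ (Fintype.card K ^ k) else 0
  rw [c8_pow_sum]
  have h1 : ∀ k ∈ Finset.range N, (if (σ ^ k) i = j then c ^ (Fintype.card K ^ k) else 0) ^
      Fintype.card K =
      (fun k => if (σ ^ k) i = σ j then c ^ (Fintype.card K ^ k) else (0 : Om K)) (k + 1) := by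
    intro k _
    have h2 : (σ ^ (k + 1)) i = σ j ↔ (σ ^ k) i = j := by
      rw [pow_succ', Equiv.Perm.mul_apply]
      exact σ.injective.eq_iff
    simp only [h2]
    split_ifs with h
    · rw [← pow_mul, pow_succ]
    · rw [zero_pow Fintype.card_ne_zero]
  rw [Finset.sum_congr rfl h1]
  have h3 := Finset.sum_range_succ (fun k => if (σ ^ k) i = σ j then c ^ (Fintype.card K ^ k)
    else (0 : Om K)) N
  have h4 := Finset.sum_range_succ' (fun k => if (σ ^ k) i = σ j then c ^ (Fintype.card K ^ k)
    else (0 : Om K)) N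
  rw [h3] at h4
  have h5 : (if (σ ^ N) i = σ j then c ^ (Fintype.card K ^ N) else (0 : Om K)) =
      (if (σ ^ 0) i = σ j then c ^ (Fintype.card K ^ 0) else (0 : Om K)) := by
    rw [hN, hc]
    simp
  rw [h5] at h4
  exact (add_right_cancel h4).symm

/-- `Rs σ` spans -/
theorem c8_span (σ : Equiv.Perm (Fin n)) : Submodule.span (Om K) (Rs K σ) = ⊤ := by
  by_contra hne
  obtain ⟨f, hf0, hf⟩ := Submodule.exists_le_ker_of_lt_top _ (lt_top_iff_ne_top.mpr hne)
  apply hf0
  have hN : σ ^ orderOf σ = 1 := pow_orderOf_eq_one σ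
  have hN1 : 1 ≤ orderOf σ := orderOf_pos σ
  set N := orderOf σ with hNdef
  obtain ⟨S, hS, hSc⟩ := c8_field (K := K) N hN1
  -- the values of `f` on the standard basis
  have key : ∀ i : Fin n, f (Pi.single i 1) = 0 := by
    intro i
    have hpoly : (∑ k ∈ Finset.range N, C (f (Pi.single ((σ ^ k) i) 1)) *
        X ^ (Fintype.card K ^ k) : (Om K)[X]) = 0 := by
      apply eq_zero_of_natDegree_lt_card_of_eval_eq_zero' _ S
      · intro c hc
        have h1 := c8_trace_mem σ N hN c (hSc c hc) i
        have h2 : f (fun j => ∑ k ∈ Finset.range N,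
            if (σ ^ k) i = j then c ^ (Fintype.card K ^ k) else 0) = 0 :=
          hf (Submodule.subset_span h1)
        have h3 : (fun j => ∑ k ∈ Finset.range N,
            if (σ ^ k) i = j then c ^ (Fintype.card K ^ k) else 0) =
            ∑ k ∈ Finset.range N, (c ^ (Fintype.card K ^ k)) •
              (Pi.single ((σ ^ k) i) (1 : Om K) : Fin n → Om K) := by
          funext j
          rw [Finset.sum_apply]
          apply Finset.sum_congr rfl
          intro k _
          rw [Pi.smul_apply, Pi.single_apply, smul_eq_mul]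
          by_cases h : (σ ^ k) i = j
          · rw [if_pos h, if_pos h.symm, mul_one]
          · rw [if_neg h, if_neg (Ne.symm h), mul_zero]
        rw [h3, map_sum] at h2
        rw [eval_finsetSum]
        rw [← h2]
        apply Finset.sum_congr rfl
        intro k _
        rw [map_smul, eval_mul, eval_C, eval_pow, eval_X, smul_eq_mul, mul_comm]
      · rw [hS]
        have hq1 : 1 < Fintype.card K := Fintype.one_lt_card
        have hle : (∑ k ∈ Finset.range N, C (f (Pi.single ((σ ^ k) i) 1)) *
            X ^ (Fintype.card K ^ k) : (Om K)[X]).natDegree ≤ Fintype.card K ^ (N - 1) := by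
          apply natDegree_sum_le_of_forall_le
          intro k hk
          rw [Finset.mem_range] at hk
          refine (natDegree_C_mul_X_pow_le _ _).trans ?_
          exact Nat.pow_le_pow_right (by omega) (by omega)
        refine lt_of_le_of_lt hle ?_
        exact Nat.pow_lt_pow_right hq1 (by omega)
    have h4 : (∑ k ∈ Finset.range N, C (f (Pi.single ((σ ^ k) i) 1)) *
        X ^ (Fintype.card K ^ k) : (Om K)[X]).coeff 1 = 0 := by
      rw [hpoly, coeff_zero]
    rw [finsetSum_coeff] at h4
    rw [Finset.sum_eq_single 0] at h4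
    · simpa using h4
    · intro k _ hk
      rw [coeff_C_mul, coeff_X_pow, if_neg, mul_zero]
      intro h
      have hq1 : 1 < Fintype.card K := Fintype.one_lt_card
      have := Nat.one_lt_pow hk hq1
      omega
    · intro h
      exact absurd (Finset.mem_range.mpr (by omega)) h
  apply LinearMap.pi_ext'
  intro i
  apply LinearMap.ext_ring
  simpa using key i

theorem c8_one_mem (σ : Equiv.Perm (Fin n)) : (fun _ => (1 : Om K)) ∈ Rs K σ := by
  intro i
  simp

/-- a basis of `Ω^(n+1)` consisting of elements of `Rs σ`, starting with the vector `1` -/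
theorem exists_Rs_basis (σ : Equiv.Perm (Fin (n + 1))) :
    ∃ e : Fin (n + 1) → (Fin (n + 1) → Om K), (∀ j, e j ∈ Rs K σ) ∧ (e 0 = fun _ => 1) ∧
      LinearIndependent (Om K) e := by
  have h1 : (fun _ => (1 : Om K)) ≠ (0 : Fin (n + 1) → Om K) := by
    intro h
    have := congrFun h 0
    simp at this
  have hli : LinearIndepOn (Om K) id ({fun _ => (1 : Om K)} : Set (Fin (n + 1) → Om K)) :=
    LinearIndepOn.singleton h1
  obtain ⟨b, hb1, hb2, hb3, hb4⟩ := exists_linearIndepOn_id_extension hli
    (Set.singleton_subset_iff.mpr (c8_one_mem σ))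
  have hspan : Submodule.span (Om K) b = ⊤ := by
    rw [eq_top_iff, ← c8_span σ]
    exact Submodule.span_le.mpr hb3
  have hspan' : ⊤ ≤ Submodule.span (Om K) (Set.range (Subtype.val : b → Fin (n + 1) → Om K)) := by
    rw [Subtype.range_coe, hspan]
  let B : Module.Basis b (Om K) (Fin (n + 1) → Om K) := Module.Basis.mk hb4 hspan'
  have : Finite b := Module.Finite.finite_basis B
  have : Fintype b := Fintype.ofFinite b
  have hcard : Fintype.card b = n + 1 := by
    have := Module.finrank_eq_card_basis B
    rw [← this, Module.finrank_fin_fun]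
  let eqv : Fin (n + 1) ≃ b := (finCongr hcard.symm).trans (Fintype.equivFin b).symm
  have h1b : (fun _ => (1 : Om K)) ∈ b := hb2 rfl
  let i0 : Fin (n + 1) := eqv.symm ⟨_, h1b⟩
  refine ⟨fun j => (eqv (Equiv.swap 0 i0 j)).1, ?_, ?_, ?_⟩
  · intro j
    exact hb1 (eqv (Equiv.swap 0 i0 j)).2
  · simp [i0]
  · exact (hb4.comp (fun j => eqv (Equiv.swap 0 i0 j))
      (eqv.injective.comp (Equiv.swap 0 i0).injective))

/-- coordinates of elements of `Rs σ` lie in `K` -/
theorem mem_Rs_iff (σ : Equiv.Perm (Fin (n + 1))) (e : Fin (n + 1) → (Fin (n + 1) → Om K))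
    (he : ∀ j, e j ∈ Rs K σ) (hl : LinearIndependent (Om K) e) (x : Fin (n + 1) → Om K) :
    x ∈ Rs K σ ↔ ∃ c : Fin (n + 1) → K, x = ∑ j, (algebraMap K (Om K) (c j)) • e j := by
  constructor
  · intro hx
    have hcard : Fintype.card (Fin (n + 1)) = Module.finrank (Om K) (Fin (n + 1) → Om K) := by
      rw [Module.finrank_fin_fun, Fintype.card_fin]
    let B := basisOfLinearIndependentOfCardEqFinrank hl hcard
    have hB : ∀ j, B j = e j := by
      intro j
      simp [B]
    have hrepr : x = ∑ j, B.repr x j • e j := by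
      conv_lhs => rw [← B.sum_repr x]
      apply Finset.sum_congr rfl
      intro j _
      rw [hB]
    have hfix : ∀ j, (B.repr x j) ^ Fintype.card K = B.repr x j := by
      have h2 : ∑ j, ((B.repr x j) ^ Fintype.card K - B.repr x j) • e j = 0 := by
        funext i
        have h3 := hx (σ.symm i)
        rw [Equiv.apply_symm_apply] at h3
        have h4 : x (σ.symm i) = ∑ j, B.repr x j * e j (σ.symm i) := by
          conv_lhs => rw [hrepr]
          rw [Finset.sum_apply]
          rfl
        have h5 : x i = ∑ j, B.repr x j * e j i := by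
          conv_lhs => rw [hrepr]
          rw [Finset.sum_apply]
          rfl
        rw [h4, h5, c8_pow_sum] at h3
        rw [Finset.sum_apply]
        simp only [Pi.smul_apply, smul_eq_mul, Pi.zero_apply, sub_mul]
        rw [Finset.sum_sub_distrib, ← h3, sub_eq_zero]
        apply Finset.sum_congr rfl
        intro j _
        rw [mul_pow]
        have h6 := he j (σ.symm i)
        rw [Equiv.apply_symm_apply] at h6
        rw [h6]
      have h3 := Fintype.linearIndependent_iff.mp hl _ h2
      intro j
      exact sub_eq_zero.mp (h3 j)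
    have hex : ∀ j, ∃ a : K, algebraMap K (Om K) a = B.repr x j :=
      fun j => pow_card_eq_iff.mp (hfix j)
    choose c hc using hex
    refine ⟨c, ?_⟩
    simp only [hc]
    exact hrepr
  · rintro ⟨c, rfl⟩
    intro i
    rw [Finset.sum_apply, Finset.sum_apply, c8_pow_sum]
    apply Finset.sum_congr rfl
    intro j _
    rw [Pi.smul_apply, Pi.smul_apply, smul_eq_mul, smul_eq_mul, mul_pow, c8_algebraMap_pow,
      he j i]

theorem c8_coord_inj (e : Fin n → (Fin n → Om K)) (hl : LinearIndependent (Om K) e) :
    Function.Injective (fun c : Fin n → K => ∑ j, (algebraMap K (Om K) (c j)) • e j) := by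
  intro c c' h
  have h1 : ∑ j, (algebraMap K (Om K) (c j) - algebraMap K (Om K) (c' j)) • e j = 0 := by
    simp only [sub_smul]
    rw [Finset.sum_sub_distrib]
    exact sub_eq_zero.mpr h
  have h2 := Fintype.linearIndependent_iff.mp hl _ h1
  funext j
  exact (algebraMap K (Om K)).injective (sub_eq_zero.mp (h2 j))

theorem ncard_Rs (σ : Equiv.Perm (Fin n)) : Set.ncard (Rs K σ) = Fintype.card K ^ n := by
  rcases n with _ | n
  · have : Rs K σ = {0} := by
      ext x
      simp only [Set.mem_singleton_iff]
      constructor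
      · intro _
        funext i
        exact i.elim0
      · rintro rfl
        intro i
        exact i.elim0
    rw [this, Set.ncard_singleton, pow_zero]
  · obtain ⟨e, he, _, hl⟩ := exists_Rs_basis (K := K) σ
    have h1 : Rs K σ = (fun c : Fin (n + 1) → K => ∑ j, (algebraMap K (Om K) (c j)) • e j) ''
        Set.univ := by
      ext x
      rw [mem_Rs_iff σ e he hl, Set.image_univ, Set.mem_range]
      constructor
      · rintro ⟨c, h⟩
        exact ⟨c, h.symm⟩
      · rintro ⟨c, h⟩
        exact ⟨c, h.symm⟩
    rw [h1, Set.ncard_image_of_injective _ (c8_coord_inj e hl), Set.ncard_univ,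
      Nat.card_eq_fintype_card, Fintype.card_fun, Fintype.card_fin]

/-- version for forms: `m : Fin (n+1) → Ω[X]` of bounded degree with `phi (m i) = m (σ i)` are the
combinations `∑ e_j(i) w_j` with `w_j` over `K` -/
theorem mem_Rs_forms_iff (σ : Equiv.Perm (Fin (n + 1))) (e : Fin (n + 1) → (Fin (n + 1) → Om K))
    (he : ∀ j, e j ∈ Rs K σ) (hl : LinearIndependent (Om K) e) (D : ℕ)
    (m : Fin (n + 1) → (Om K)[X]) :
    ((∀ i, (m i).natDegree ≤ D) ∧ ∀ i, phi K (m i) = m (σ i)) ↔
      ∃ c : Fin (n + 1) → K[X], (∀ j, (c j).natDegree ≤ D) ∧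
        ∀ i, m i = ∑ j, C (e j i) * up (c j) := by
  constructor
  · rintro ⟨h1, h2⟩
    have h3 : ∀ k : ℕ, (fun i => (m i).coeff k) ∈ Rs K σ := by
      intro k i
      show (m i).coeff k ^ Fintype.card K = (m (σ i)).coeff k
      rw [← phi_coeff, h2]
    have h4 : ∀ k : ℕ, ∃ c : Fin (n + 1) → K,
        (fun i => (m i).coeff k) = ∑ j, (algebraMap K (Om K) (c j)) • e j :=
      fun k => (mem_Rs_iff σ e he hl _).mp (h3 k)
    choose c hc using h4
    refine ⟨fun j => ∑ k ∈ Finset.range (D + 1), C (c k j) * X ^ k, ?_, ?_⟩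
    · intro j
      apply natDegree_sum_le_of_forall_le
      intro k hk
      rw [Finset.mem_range] at hk
      exact (natDegree_C_mul_X_pow_le _ _).trans (by omega)
    · intro i
      ext k
      rw [finsetSum_coeff]
      by_cases hk : k ≤ D
      · have h5 := congrFun (hc k) i
        rw [h5, Finset.sum_apply]
        apply Finset.sum_congr rfl
        intro j _
        rw [coeff_C_mul, coeff_up, Pi.smul_apply, smul_eq_mul, mul_comm]
        congr 2
        rw [finsetSum_coeff, Finset.sum_eq_single k]
        · rw [coeff_C_mul, coeff_X_pow, if_pos rfl, mul_one]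
        · intro b _ hb
          rw [coeff_C_mul, coeff_X_pow, if_neg (Ne.symm hb), mul_zero]
        · intro h
          exact absurd (Finset.mem_range.mpr (by omega)) h
      · rw [coeff_eq_zero_of_natDegree_lt (lt_of_le_of_lt (h1 i) (by omega))]
        symm
        apply Finset.sum_eq_zero
        intro j _
        rw [coeff_C_mul, coeff_up]
        have h6 : (∑ k ∈ Finset.range (D + 1), C (c k j) * X ^ k : K[X]).coeff k = 0 := by
          rw [finsetSum_coeff]
          apply Finset.sum_eq_zero
          intro b hb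
          rw [Finset.mem_range] at hb
          rw [coeff_C_mul, coeff_X_pow, if_neg (by omega), mul_zero]
        rw [h6, map_zero, mul_zero]
  · rintro ⟨c, h1, h2⟩
    constructor
    · intro i
      rw [h2 i]
      apply natDegree_sum_le_of_forall_le
      intro j _
      refine (natDegree_C_mul_le _ _).trans ?_
      rw [natDegree_up]
      exact h1 j
    · intro i
      rw [h2 i, h2 (σ i), map_sum]
      apply Finset.sum_congr rfl
      intro j _
      rw [map_mul, phi_C, phi_up, he j i]

theorem forms_coord_unique (e : Fin (n + 1) → (Fin (n + 1) → Om K))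
    (hl : LinearIndependent (Om K) e) (c c' : Fin (n + 1) → K[X])
    (h : ∀ i, ∑ j, C (e j i) * up (c j) = ∑ j, C (e j i) * up (c' j)) : c = c' := by
  funext j
  ext k
  have h1 : (fun j => (c j).coeff k) = (fun j => (c' j).coeff k) := by
    apply c8_coord_inj e hl
    funext i
    have h2 := congrArg (fun P => P.coeff k) (h i)
    simp only [finsetSum_coeff, coeff_C_mul, coeff_up] at h2
    simp only [Finset.sum_apply, Pi.smul_apply, smul_eq_mul]
    rw [Finset.sum_congr rfl (fun j _ => mul_comm _ _), h2]
    exact Finset.sum_congr rfl (fun j _ => mul_comm _ _)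
  exact congrFun h1 j

/-- linear conditions on `Rs σ` -/
theorem ncard_Rs_trace (σ : Equiv.Perm (Fin n)) (x : Fin n → Om K) (hx : x ∈ Rs K σ)
    (hn : 1 ≤ n) (hx0 : ∃ i, x i ≠ 0) (a : K) :
    Set.ncard {r | r ∈ Rs K σ ∧ ∑ i, x i * r i = algebraMap K (Om K) a} =
      Fintype.card K ^ (n - 1) := by
  obtain ⟨n, rfl⟩ : ∃ n', n = n' + 1 := ⟨n - 1, by omega⟩
  rw [Nat.add_sub_cancel]
  obtain ⟨e, he, _, hl⟩ := exists_Rs_basis (K := K) σ
  -- the traces of the basis vectors lie in `K`
  have h1 : ∀ j, ∃ t : K, algebraMap K (Om K) t = ∑ i, x i * e j i := by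
    intro j
    apply pow_card_eq_iff.mp
    rw [c8_pow_sum]
    have h2 : ∀ i, (x i * e j i) ^ Fintype.card K = x (σ i) * e j (σ i) := by
      intro i
      rw [mul_pow, hx i, he j i]
    rw [Finset.sum_congr rfl (fun i _ => h2 i)]
    exact Equiv.sum_comp σ (fun i => x i * e j i)
  choose t ht using h1
  have ht0 : ∃ j, t j ≠ 0 := by
    by_contra hcon
    push Not at hcon
    obtain ⟨i0, hi0⟩ := hx0
    apply hi0
    have hcard : Fintype.card (Fin (n + 1)) = Module.finrank (Om K) (Fin (n + 1) → Om K) := by
      rw [Module.finrank_fin_fun, Fintype.card_fin]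
    let B := basisOfLinearIndependentOfCardEqFinrank hl hcard
    have hB : ∀ j, B j = e j := by
      intro j
      simp [B]
    let F : (Fin (n + 1) → Om K) →ₗ[Om K] Om K :=
      ∑ i, (x i) • LinearMap.proj i
    have hF : ∀ y, F y = ∑ i, x i * y i := by
      intro y
      simp [F]
    have hF0 : F = 0 := by
      apply B.ext
      intro j
      rw [hB, hF, ← ht j, hcon j, map_zero, LinearMap.zero_apply]
    have := hF (Pi.single i0 1)
    rw [hF0, LinearMap.zero_apply, Finset.sum_eq_single i0] at this
    · simpa using this.symm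
    · intro i _ hi
      rw [Pi.single_apply, if_neg hi, mul_zero]
    · intro h
      exact absurd (Finset.mem_univ _) h
  let f : (Fin (n + 1) → K) →+ K :=
    { toFun := fun c => ∑ j, c j * t j
      map_zero' := by simp
      map_add' := by
        intro c d
        simp only [Pi.add_apply, add_mul]
        rw [Finset.sum_add_distrib] }
  have hfapp : ∀ c, f c = ∑ j, c j * t j := fun c => rfl
  have hsurj : ∀ b : K, b ∈ Set.range f := by
    intro b
    obtain ⟨j, hj⟩ := ht0
    refine ⟨Pi.single j (b / t j), ?_⟩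
    rw [hfapp, Finset.sum_eq_single j]
    · rw [Pi.single_eq_same, div_mul_cancel₀ _ hj]
    · intro i _ hi
      rw [Pi.single_apply, if_neg hi, zero_mul]
    · intro h
      exact absurd (Finset.mem_univ _) h
  have hfib : ∀ b : K, (Finset.univ.filter (fun g => f g = b)).card =
      (Finset.univ.filter (fun g => f g = a)).card :=
    fun b => AddMonoidHom.card_fiber_eq_of_mem_range f (hsurj b) (hsurj a)
  have htot : Fintype.card K * (Finset.univ.filter (fun g => f g = a)).card =
      Fintype.card K ^ (n + 1) := by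
    have h3 := Finset.card_eq_sum_card_fiberwise (s := (Finset.univ : Finset (Fin (n + 1) → K)))
      (t := Finset.univ) (f := f) (fun _ _ => Finset.mem_coe.mpr (Finset.mem_univ _))
    rw [Finset.card_univ, Fintype.card_fun, Fintype.card_fin] at h3
    rw [h3, Finset.sum_congr rfl (fun b _ => hfib b), Finset.sum_const, smul_eq_mul,
      Finset.card_univ]
  have hfa : (Finset.univ.filter (fun g => f g = a)).card = Fintype.card K ^ n := by
    rw [pow_succ'] at htot
    exact Nat.eq_of_mul_eq_mul_left Fintype.card_pos htot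
  have himg : {r | r ∈ Rs K σ ∧ ∑ i, x i * r i = algebraMap K (Om K) a} =
      (fun c : Fin (n + 1) → K => ∑ j, (algebraMap K (Om K) (c j)) • e j) ''
        ((Finset.univ.filter (fun g => f g = a) : Finset (Fin (n + 1) → K)) :
          Set (Fin (n + 1) → K)) := by
    have hval : ∀ c : Fin (n + 1) → K,
        ∑ i, x i * (∑ j, (algebraMap K (Om K) (c j)) • e j) i = algebraMap K (Om K) (f c) := by
      intro c
      rw [hfapp, map_sum]
      simp only [Finset.sum_apply, Pi.smul_apply, smul_eq_mul, Finset.mul_sum]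
      rw [Finset.sum_comm]
      apply Finset.sum_congr rfl
      intro j _
      rw [map_mul, ht j, Finset.mul_sum]
      apply Finset.sum_congr rfl
      intro i _
      ring
    ext r
    simp only [Set.mem_ofPred_eq, Finset.coe_filter, Finset.mem_univ, true_and, Set.mem_image]
    constructor
    · rintro ⟨h4, h5⟩
      obtain ⟨c, rfl⟩ := (mem_Rs_iff σ e he hl r).mp h4
      refine ⟨c, ?_, rfl⟩
      rw [hval] at h5
      exact (algebraMap K (Om K)).injective h5
    · rintro ⟨c, h4, rfl⟩
      refine ⟨(mem_Rs_iff σ e he hl _).mpr ⟨c, rfl⟩, ?_⟩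
      rw [hval, h4]
  rw [himg, Set.ncard_image_of_injective _ (c8_coord_inj e hl), Set.ncard_coe_finset, hfa]

end

end
end Pool.Agent.Helper19.DP1
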