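import Pool.Agent.Helper19.DP1.Core1b
import Pool.Agent.Helper19.DP1.Core2b
import Pool.Agent.Helper19.DP1.Core3c
import Pool.Agent.Helper19.DP1.Core4
import Pool.Agent.Helper19.DP1.Core5b
import Pool.Agent.Helper19.DP1.Core5c
import Pool.Agent.Helper19.DP1.Core5d
import Pool.Agent.Helper19.DP1.Core7c
import Pool.Agent.Helper19.DP1.Core8
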