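import Pool.Agent.Helper19.DP1.Defs

/-! Core1a: combinatorics of `muG` (abstract finite stable sets). -/

namespace Pool.Agent.Helper19.DP1
open Polynomial Classical
noncomputable section

section
variable {P : Type*} [DecidableEq P] {φ : P → P}

theorem stab_image (hφ : Function.Injective φ) {T : Finset P} (h : IsStabG φ T) : T.image φ = T := by
  apply Finset.eq_of_subset_of_card_le
  · intro y hy
    obtain ⟨x, hx, rfl⟩ := Finset.mem_image.mp hy
    exact h x hx
  · rw [Finset.card_image_of_injective _ hφ]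

theorem stab_of_apply_mem (hφ : Function.Injective φ) {T : Finset P} (h : IsStabG φ T) {x : P}
    (hx : φ x ∈ T) : x ∈ T := by
  rw [← stab_image hφ h] at hx
  obtain ⟨y, hy, hyx⟩ := Finset.mem_image.mp hx
  rwa [← hφ hyx]

theorem stab_union {S T : Finset P} (hS : IsStabG φ S) (hT : IsStabG φ T) :
    IsStabG φ (S ∪ T) := by
  intro x hx
  rcases Finset.mem_union.mp hx with h | h
  · exact Finset.mem_union_left _ (hS x h)
  · exact Finset.mem_union_right _ (hT x h)

theorem stab_inter {S T : Finset P} (hS : IsStabG φ S) (hT : IsStabG φ T) :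
    IsStabG φ (S ∩ T) := by
  intro x hx
  rw [Finset.mem_inter] at hx ⊢
  exact ⟨hS x hx.1, hT x hx.2⟩

theorem stab_sdiff (hφ : Function.Injective φ) {S T : Finset P} (hS : IsStabG φ S)
    (hT : IsStabG φ T) : IsStabG φ (S \ T) := by
  intro x hx
  rw [Finset.mem_sdiff] at hx ⊢
  exact ⟨hS x hx.1, fun h => hx.2 (stab_of_apply_mem hφ hT h)⟩

theorem muG_empty : muG φ (∅ : Finset P) = 1 := by
  unfold muG
  rw [if_pos]
  · simp
  · intro x hx
    simp at hx

theorem muG_of_not {T : Finset P} (h : ¬ IsStabG φ T) : muG φ T = 0 := by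
  unfold muG
  rw [if_neg h]

theorem muG_sq {T : Finset P} (h : IsStabG φ T) : muG φ T ^ 2 = 1 := by
  unfold muG
  rw [if_pos h, ← pow_mul, mul_comm, pow_mul]
  simp

theorem orbG_self (x : P) : x ∈ orbG φ x := ⟨0, rfl⟩

theorem iter_mem {T : Finset P} (h : IsStabG φ T) {x : P} (hx : x ∈ T) (n : ℕ) : φ^[n] x ∈ T := by
  induction n with
  | zero => exact hx
  | succ n ih => rw [Function.iterate_succ_apply']; exact h _ ih

theorem orbG_subset {T : Finset P} (h : IsStabG φ T) {x : P} (hx : x ∈ T) :
    orbG φ x ⊆ (T : Set P) := by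
  rintro y ⟨n, rfl⟩
  exact iter_mem h hx n

theorem exists_period (hφ : Function.Injective φ) {T : Finset P} (h : IsStabG φ T) {x : P}
    (hx : x ∈ T) : ∃ n, 0 < n ∧ φ^[n] x = x := by
  have hni : ¬ Function.Injective (fun n : ℕ => (⟨φ^[n] x, iter_mem h hx n⟩ : T)) := by
    intro hinj
    exact not_injective_infinite_finite _ hinj
  unfold Function.Injective at hni
  push Not at hni
  obtain ⟨a, b, hab, hne⟩ := hni
  have hab' : φ^[a] x = φ^[b] x := congrArg Subtype.val hab
  rcases lt_or_gt_of_ne hne with hlt | hlt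
  · refine ⟨b - a, by omega, ?_⟩
    have : φ^[a] (φ^[b - a] x) = φ^[a] x := by
      rw [← Function.iterate_add_apply, show a + (b - a) = b by omega, hab']
    exact hφ.iterate a this
  · refine ⟨a - b, by omega, ?_⟩
    have : φ^[b] (φ^[a - b] x) = φ^[b] x := by
      rw [← Function.iterate_add_apply, show b + (a - b) = a by omega, ← hab']
    exact hφ.iterate b this

theorem orbG_symm (hφ : Function.Injective φ) {T : Finset P} (h : IsStabG φ T) {x y : P}
    (hx : x ∈ T) (hy : y ∈ orbG φ x) : x ∈ orbG φ y := by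
  obtain ⟨n, rfl⟩ := hy
  obtain ⟨m, hm, hmx⟩ := exists_period hφ h hx
  -- n ≤ m * n
  refine ⟨m * n - n, ?_⟩
  rw [← Function.iterate_add_apply]
  have hle : n ≤ m * n := Nat.le_mul_of_pos_left n hm
  rw [show m * n - n + n = m * n by omega, mul_comm, Function.iterate_mul]
  have : Function.IsFixedPt (φ^[m]) x := hmx
  rw [mul_comm] at hle
  have h2 : (φ^[n])^[m] x = (φ^[m])^[n] x := by
    rw [← Function.iterate_mul, ← Function.iterate_mul, mul_comm]
  rw [h2, (this.iterate n)]

theorem orbG_trans {x y z : P} (hy : y ∈ orbG φ x) (hz : z ∈ orbG φ y) : z ∈ orbG φ x := by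
  obtain ⟨n, rfl⟩ := hy
  obtain ⟨m, rfl⟩ := hz
  exact ⟨m + n, by rw [Function.iterate_add_apply]⟩

theorem orbG_eq (hφ : Function.Injective φ) {T : Finset P} (h : IsStabG φ T) {x y : P}
    (hx : x ∈ T) (hy : y ∈ orbG φ x) : orbG φ y = orbG φ x := by
  ext z
  constructor
  · intro hz
    exact orbG_trans hy hz
  · intro hz
    exact orbG_trans (orbG_symm hφ h hx hy) hz

theorem muG_singleton {x : P} (h : φ x = x) : muG φ {x} = -1 := by
  unfold muG
  rw [if_pos]
  · simp
  · intro y hy
    rw [Finset.mem_singleton] at hy ⊢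
    rw [hy, h]

theorem muG_union (hφ : Function.Injective φ) {S T : Finset P} (hS : IsStabG φ S)
    (hT : IsStabG φ T) (hd : Disjoint S T) : muG φ (S ∪ T) = muG φ S * muG φ T := by
  unfold muG
  rw [if_pos hS, if_pos hT, if_pos (stab_union hS hT), ← pow_add]
  congr 1
  rw [Finset.coe_union, Set.image_union]
  apply Set.ncard_union_eq
  · rw [Set.disjoint_left]
    rintro o ⟨x, hx, rfl⟩ ⟨y, hy, hyx⟩
    have hxS : x ∈ S := hx
    have hyT : y ∈ T := hy
    have : x ∈ orbG φ y := by rw [hyx]; exact orbG_self x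
    have hxT : x ∈ T := orbG_subset hT hyT this
    exact Finset.disjoint_left.mp hd hxS hxT
  · exact (S.finite_toSet).image _
  · exact (T.finite_toSet).image _

/-- the basic identity of the inclusion-exclusion -/
theorem sum_muG_powerset (hφ : Function.Injective φ) {S : Finset P} (hS : IsStabG φ S)
    (hne : S.Nonempty) : ∑ T ∈ S.powerset, muG φ T = 0 := by
  obtain ⟨x, hx⟩ := hne
  set O : Finset P := S.filter (fun y => y ∈ orbG φ x) with hO
  have hxO : x ∈ O := by
    rw [hO, Finset.mem_filter]
    exact ⟨hx, orbG_self x⟩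
  have hOS : O ⊆ S := Finset.filter_subset _ _
  have hOst : IsStabG φ O := by
    intro y hy
    rw [hO, Finset.mem_filter] at hy ⊢
    refine ⟨hS y hy.1, ?_⟩
    exact orbG_trans hy.2 ⟨1, rfl⟩
  have hmuO : muG φ O = -1 := by
    unfold muG
    rw [if_pos hOst]
    have : orbG φ '' (O : Set P) = {orbG φ x} := by
      ext o
      constructor
      · rintro ⟨y, hy, rfl⟩
        have hy' : y ∈ O := hy
        rw [hO, Finset.mem_filter] at hy'
        rw [Set.mem_singleton_iff]
        exact orbG_eq hφ hS hx hy'.2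
      · intro ho
        rw [Set.mem_singleton_iff] at ho
        exact ⟨x, hxO, ho.symm⟩
    rw [this]
    simp
  have hsub : ∀ T : Finset P, IsStabG φ T → x ∈ T → O ⊆ T := by
    intro T hT hxT y hy
    rw [hO, Finset.mem_filter] at hy
    exact orbG_subset hT hxT hy.2
  have hdis : ∀ T : Finset P, IsStabG φ T → T ⊆ S → x ∉ T → Disjoint T O := by
    intro T hT hTS hxT
    rw [Finset.disjoint_left]
    intro y hy hyO
    rw [hO, Finset.mem_filter] at hyO
    exact hxT (orbG_subset hT hy (orbG_symm hφ hS hx hyO.2))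
  have hfil : ∑ T ∈ S.powerset, muG φ T = ∑ T ∈ S.powerset.filter (fun T => IsStabG φ T), muG φ T := by
    rw [Finset.sum_filter_of_ne]
    intro T _ hT
    by_contra hc
    exact hT (muG_of_not hc)
  rw [hfil]
  apply Finset.sum_involution (fun T _ => if x ∈ T then T \ O else T ∪ O)
  · intro T hT
    rw [Finset.mem_filter, Finset.mem_powerset] at hT
    by_cases hxT : x ∈ T
    · simp only [hxT, if_true]
      have h1 : T = (T \ O) ∪ O := by
        rw [Finset.sdiff_union_of_subset (hsub T hT.2 hxT)]
      have h2 : muG φ T = muG φ (T \ O) * muG φ O := by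
        conv_lhs => rw [h1]
        exact muG_union hφ (stab_sdiff hφ hT.2 hOst) hOst Finset.sdiff_disjoint
      rw [h2, hmuO]; ring
    · simp only [hxT, if_false]
      rw [muG_union hφ hT.2 hOst (hdis T hT.2 hT.1 hxT), hmuO]; ring
  · intro T hT hne
    by_cases hxT : x ∈ T
    · simp only [hxT, if_true]
      intro he
      have : x ∈ T \ O := by rw [he]; exact hxT
      rw [Finset.mem_sdiff] at this
      exact this.2 hxO
    · simp only [hxT, if_false]
      intro he
      apply hxT
      rw [← he]
      exact Finset.mem_union_right _ hxO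
  · intro T hT
    rw [Finset.mem_filter, Finset.mem_powerset] at hT ⊢
    by_cases hxT : x ∈ T
    · simp only [hxT, if_true]
      exact ⟨(Finset.sdiff_subset).trans hT.1, stab_sdiff hφ hT.2 hOst⟩
    · simp only [hxT, if_false]
      exact ⟨Finset.union_subset hT.1 hOS, stab_union hT.2 hOst⟩
  · intro T hT
    rw [Finset.mem_filter, Finset.mem_powerset] at hT
    by_cases hxT : x ∈ T
    · simp only [hxT, if_true]
      have : x ∉ T \ O := by
        rw [Finset.mem_sdiff]; tauto
      simp only [this, if_false]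
      exact Finset.sdiff_union_of_subset (hsub T hT.2 hxT)
    · simp only [hxT, if_false]
      have : x ∈ T ∪ O := Finset.mem_union_right _ hxO
      simp only [this, if_true]
      exact Finset.union_sdiff_cancel_right (hdis T hT.2 hT.1 hxT)

theorem muG_image {P' : Type*} [DecidableEq P'] {φ' : P' → P'} (ψ : P → P') (hψ : Function.Injective ψ)
    (hc : ∀ x, ψ (φ x) = φ' (ψ x)) (T : Finset P) : muG φ' (T.image ψ) = muG φ T := by
  have hst : IsStabG φ' (T.image ψ) ↔ IsStabG φ T := by
    constructor
    · intro h x hx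
      have := h (ψ x) (Finset.mem_image_of_mem ψ hx)
      rw [← hc, Finset.mem_image] at this
      obtain ⟨y, hy, hyx⟩ := this
      rwa [← hψ hyx]
    · intro h y hy
      obtain ⟨x, hx, rfl⟩ := Finset.mem_image.mp hy
      rw [← hc]
      exact Finset.mem_image_of_mem ψ (h x hx)
  have hit : ∀ n : ℕ, ∀ x, φ'^[n] (ψ x) = ψ (φ^[n] x) := by
    intro n
    induction n with
    | zero => intro x; rfl
    | succ n ih =>
      intro x
      rw [Function.iterate_succ_apply', Function.iterate_succ_apply', ih, hc]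
  have horb : ∀ x, orbG φ' (ψ x) = ψ '' orbG φ x := by
    intro x
    ext y
    constructor
    · rintro ⟨n, rfl⟩
      exact ⟨φ^[n] x, ⟨n, rfl⟩, (hit n x).symm⟩
    · rintro ⟨z, ⟨n, rfl⟩, rfl⟩
      exact ⟨n, (hit n x).symm⟩
  unfold muG
  by_cases h : IsStabG φ T
  · rw [if_pos h, if_pos (hst.mpr h)]
    congr 1
    have : orbG φ' '' ((T.image ψ : Finset P') : Set P') = (fun s : Set P => ψ '' s) '' (orbG φ '' (T : Set P)) := by
      rw [Finset.coe_image, Set.image_image, Set.image_image]
      apply Set.image_congr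
      intro x _
      exact horb x
    rw [this]
    exact Set.ncard_image_of_injective _ (Set.image_injective.mpr hψ)
  · rw [if_neg h, if_neg (fun h' => h (hst.mp h'))]

end

end
end Pool.Agent.Helper19.DP1
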