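import Pool.Agent.Helper19.DP1.Defs

/-! Core1b: labelings of stable sets. -/

namespace Pool.Agent.Helper19.DP1
open Polynomial Classical
noncomputable section

section
variable {P : Type*} [DecidableEq P] {φ : P → P}

/-! auxiliary: number of cycles of a permutation -/

/-- the cycle of `i` as a finset -/
def c1b_orb {n : ℕ} (σ : Equiv.Perm (Fin n)) (i : Fin n) : Finset (Fin n) :=
  Finset.univ.filter (fun j => σ.SameCycle i j)

theorem c1b_mem_orb {n : ℕ} (σ : Equiv.Perm (Fin n)) (i j : Fin n) :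
    j ∈ c1b_orb σ i ↔ σ.SameCycle i j := by simp [c1b_orb]

theorem c1b_orb_support {n : ℕ} (σ : Equiv.Perm (Fin n)) {i : Fin n} (hi : i ∈ σ.support) :
    c1b_orb σ i = (σ.cycleOf i).support := by
  ext j
  rw [c1b_mem_orb, Equiv.Perm.mem_support_cycleOf_iff]
  exact ⟨fun h => ⟨h, hi⟩, fun h => h.1⟩

theorem c1b_orb_fixed {n : ℕ} (σ : Equiv.Perm (Fin n)) {i : Fin n} (hi : i ∉ σ.support) :
    c1b_orb σ i = {i} := by
  ext j
  rw [c1b_mem_orb, Finset.mem_singleton]
  have hfi : σ i = i := by simpa using hi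
  constructor
  · rintro ⟨k, hk⟩
    rw [← hk]
    exact Equiv.Perm.zpow_apply_eq_self_of_apply_eq_self hfi k
  · rintro rfl
    exact Equiv.Perm.SameCycle.refl _ _

theorem c1b_card_orb {n : ℕ} (σ : Equiv.Perm (Fin n)) :
    (Finset.univ.image (c1b_orb σ)).card = σ.cycleFactorsFinset.card + (n - σ.support.card) := by
  have h1 : (Finset.univ : Finset (Fin n)).image (c1b_orb σ) =
      σ.cycleFactorsFinset.image Equiv.Perm.support ∪
        (σ.supportᶜ).image (fun i => ({i} : Finset (Fin n))) := by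
    ext T
    simp only [Finset.mem_image, Finset.mem_univ, true_and, Finset.mem_union, Finset.mem_compl]
    constructor
    · rintro ⟨i, rfl⟩
      by_cases hi : i ∈ σ.support
      · left
        exact ⟨σ.cycleOf i, Equiv.Perm.cycleOf_mem_cycleFactorsFinset_iff.mpr hi,
          (c1b_orb_support σ hi).symm⟩
      · right
        exact ⟨i, hi, (c1b_orb_fixed σ hi).symm⟩
    · rintro (⟨c, hc, rfl⟩ | ⟨i, hi, rfl⟩)
      · have hne : c.support.Nonempty := by
          rw [Equiv.Perm.mem_cycleFactorsFinset_iff] at hc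
          exact hc.1.nonempty_support
        obtain ⟨a, ha⟩ := hne
        refine ⟨a, ?_⟩
        have h2 : c = σ.cycleOf a := Equiv.Perm.cycle_is_cycleOf ha hc
        have h3 : a ∈ σ.support := Equiv.Perm.mem_cycleFactorsFinset_support_le hc ha
        rw [c1b_orb_support σ h3, ← h2]
      · exact ⟨i, c1b_orb_fixed σ hi⟩
  rw [h1, Finset.card_union_of_disjoint, Finset.card_image_of_injOn, Finset.card_image_of_injOn,
    Finset.card_compl, Fintype.card_fin]
  · intro a _ b _ hab
    simpa using hab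
  · intro c hc d hd hcd
    rw [Finset.mem_coe] at hc hd
    have hne : c.support.Nonempty := by
      rw [Equiv.Perm.mem_cycleFactorsFinset_iff] at hc
      exact hc.1.nonempty_support
    obtain ⟨a, ha⟩ := hne
    have hcd' : c.support = d.support := hcd
    have ha' : a ∈ d.support := hcd' ▸ ha
    rw [Equiv.Perm.cycle_is_cycleOf ha hc, Equiv.Perm.cycle_is_cycleOf ha' hd]
  · rw [Finset.disjoint_left]
    intro T hT hT'
    simp only [Finset.mem_image, Finset.mem_compl] at hT hT'
    obtain ⟨c, hc, rfl⟩ := hT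
    obtain ⟨i, hi, h⟩ := hT'
    have h3 : i ∈ c.support := by rw [← h]; simp
    exact hi (Equiv.Perm.mem_cycleFactorsFinset_support_le hc h3)

theorem c1b_iterate {n : ℕ} (x : Fin n → P) (σ : Equiv.Perm (Fin n))
    (h : ∀ i, φ (x i) = x (σ i)) (k : ℕ) (i : Fin n) : φ^[k] (x i) = x ((σ ^ k) i) := by
  induction k generalizing i with
  | zero => simp
  | succ k ih =>
    rw [Function.iterate_succ_apply, h, ih, pow_succ, Equiv.Perm.mul_apply]

/-- number of orbits and sign of a permutation -/
theorem muG_label {n : ℕ} (x : Fin n → P) (hx : Function.Injective x) (σ : Equiv.Perm (Fin n))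
    (h : ∀ i, φ (x i) = x (σ i)) :
    muG φ (Finset.univ.image x) = (-1) ^ n * (Equiv.Perm.sign σ : ℤ) := by
  have hs : IsStabG φ (Finset.univ.image x) := by
    intro y hy
    simp only [Finset.mem_image, Finset.mem_univ, true_and] at hy ⊢
    obtain ⟨i, rfl⟩ := hy
    exact ⟨σ i, (h i).symm⟩
  rw [muG, if_pos hs]
  have horb : ∀ i, orbG φ (x i) = x '' (c1b_orb σ i : Set (Fin n)) := by
    intro i
    ext y
    simp only [orbG, Set.mem_ofPred_eq, Set.mem_image, Finset.mem_coe, c1b_mem_orb]
    constructor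
    · rintro ⟨k, rfl⟩
      exact ⟨(σ ^ k) i, ⟨k, by simp⟩, (c1b_iterate x σ h k i).symm⟩
    · rintro ⟨j, hj, rfl⟩
      obtain ⟨k, hk⟩ := hj.exists_nat_pow_eq
      exact ⟨k, by rw [c1b_iterate x σ h, hk]⟩
  have himg : orbG φ '' ((Finset.univ.image x : Finset P) : Set P) =
      (fun T : Finset (Fin n) => x '' (T : Set (Fin n))) ''
        ((Finset.univ.image (c1b_orb σ) : Finset (Finset (Fin n))) : Set (Finset (Fin n))) := by
    ext S
    simp only [Finset.coe_image, Finset.coe_univ, Set.image_univ, Set.mem_image, Set.mem_range]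
    constructor
    · rintro ⟨_, ⟨i, rfl⟩, rfl⟩
      exact ⟨_, ⟨i, rfl⟩, (horb i).symm⟩
    · rintro ⟨_, ⟨i, rfl⟩, rfl⟩
      exact ⟨_, ⟨i, rfl⟩, horb i⟩
  have hcard : Set.ncard (orbG φ '' ((Finset.univ.image x : Finset P) : Set P)) =
      σ.cycleFactorsFinset.card + (n - σ.support.card) := by
    rw [himg, Set.ncard_image_of_injective, Set.ncard_coe_finset, c1b_card_orb]
    intro S T hST
    have : (S : Set (Fin n)) = T := Set.image_injective.mpr hx hST
    exact_mod_cast this
  rw [hcard]
  have hle : σ.support.card ≤ n := by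
    simpa using Finset.card_le_univ σ.support
  have hsign : (Equiv.Perm.sign σ : ℤ) = (-1) ^ (σ.support.card + σ.cycleFactorsFinset.card) := by
    rw [Equiv.Perm.sign_of_cycleType, Equiv.Perm.sum_cycleType]
    have : Multiset.card σ.cycleType = σ.cycleFactorsFinset.card := by
      rw [Equiv.Perm.cycleType_def]
      simp
    rw [this]
    simp
  rw [hsign]
  obtain ⟨m, hm⟩ := Nat.exists_eq_add_of_le hle
  rw [← pow_add]
  have e1 : n + (σ.support.card + σ.cycleFactorsFinset.card) =
      (σ.cycleFactorsFinset.card + (n - σ.support.card)) + 2 * σ.support.card := by omega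
  rw [e1, pow_add _ _ (2 * _), pow_mul]
  simp

theorem exists_label (hφ : Function.Injective φ) {n : ℕ} (x : Fin n → P)
    (hx : Function.Injective x) (hs : IsStabG φ (Finset.univ.image x)) :
    ∃! σ : Equiv.Perm (Fin n), ∀ i, φ (x i) = x (σ i) := by
  have h1 : ∀ i, ∃ j, x j = φ (x i) := by
    intro i
    have := hs (x i) (by simp)
    simpa using this
  choose f hf using h1
  have hfinj : Function.Injective f := by
    intro i j hij
    apply hx
    apply hφ
    rw [← hf, ← hf, hij]
  refine ⟨Equiv.ofBijective f (Finite.injective_iff_bijective.mp hfinj), fun i => (hf i).symm, ?_⟩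
  intro τ hτ
  ext i
  have : x (τ i) = x (f i) := by rw [← hτ, hf]
  rw [hx this]
  rfl

/-- labelings of the members of a finite family `F` of stable `n`-subsets, with Frobenius acting
on the labels by `σ` -/
def Lab (φ : P → P) (n : ℕ) (F : Finset (Finset P)) (σ : Equiv.Perm (Fin n)) :
    Set (Fin n → P) :=
  {x | Function.Injective x ∧ Finset.univ.image x ∈ F ∧ ∀ i, φ (x i) = x (σ i)}

/-- all labelings -/
theorem c1b_all_finite (n : ℕ) (F : Finset (Finset P)) :
    {x : Fin n → P | Finset.univ.image x ∈ F}.Finite := by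
  have h1 : (Set.univ.pi (fun _ : Fin n => ((F.biUnion id : Finset P) : Set P))).Finite :=
    Set.Finite.pi (fun _ => Finset.finite_toSet _)
  refine h1.subset ?_
  intro x hx i _
  simp only [Finset.coe_biUnion, id, Set.mem_iUnion, Finset.mem_coe]
  exact ⟨_, hx, by simp⟩

theorem Lab_finite (n : ℕ) (F : Finset (Finset P)) (σ : Equiv.Perm (Fin n)) :
    (Lab φ n F σ).Finite :=
  (c1b_all_finite n F).subset (fun _ hx => hx.2.1)

/-- number of labelings of a set of size `n` -/
theorem c1b_card_bij {n : ℕ} (T : Finset P) (hT : T.card = n) (s : Finset (Fin n → P))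
    (hs : ∀ x, x ∈ s ↔ Function.Injective x ∧ Finset.univ.image x = T) :
    s.card = n.factorial := by
  have e : Fin n ≃ T := (T.equivFinOfCardEq hT).symm
  have h1 : Fintype.card (Fin n ≃ T) = n.factorial := by
    rw [Fintype.card_equiv e, Fintype.card_fin]
  rw [← h1, ← Finset.card_univ]
  symm
  refine Finset.card_bij (fun (g : Fin n ≃ T) _ => fun i => ((g i : T) : P)) ?_ ?_ ?_
  · intro g _
    rw [hs]
    refine ⟨fun i j hij => g.injective (Subtype.ext hij), ?_⟩
    ext y
    simp only [Finset.mem_image, Finset.mem_univ, true_and]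
    constructor
    · rintro ⟨i, rfl⟩
      exact (g i).2
    · intro hy
      exact ⟨g.symm ⟨y, hy⟩, by simp⟩
  · intro g _ g' _ h
    ext i
    exact congrFun h i
  · intro x hx
    rw [hs] at hx
    obtain ⟨hinj, himg⟩ := hx
    have hmem : ∀ i, x i ∈ T := fun i => by rw [← himg]; simp
    have hb : Function.Bijective (fun i => (⟨x i, hmem i⟩ : T)) := by
      refine ⟨fun i j hij => hinj (by simpa using hij), ?_⟩
      rintro ⟨y, hy⟩
      rw [← himg] at hy
      simp only [Finset.mem_image, Finset.mem_univ, true_and] at hy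
      obtain ⟨i, hi⟩ := hy
      exact ⟨i, Subtype.ext hi⟩
    refine ⟨Equiv.ofBijective _ hb, Finset.mem_univ _, ?_⟩
    funext i
    rfl

/-- sum over unordered stable sets = average over labelings -/
theorem sum_Lab (hφ : Function.Injective φ) (n : ℕ) (F : Finset (Finset P))
    (hF : ∀ T ∈ F, IsStabG φ T ∧ T.card = n) (h : Finset P → ℤ) :
    ∑ σ : Equiv.Perm (Fin n), ∑ x ∈ (Lab_finite (φ := φ) n F σ).toFinset,
      h (Finset.univ.image x) = (n.factorial : ℤ) * ∑ T ∈ F, h T := by
  set A : Finset (Fin n → P) := (c1b_all_finite n F).toFinset.filter Function.Injective with hA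
  have memA : ∀ x, x ∈ A ↔ Finset.univ.image x ∈ F ∧ Function.Injective x := by
    intro x
    rw [hA, Finset.mem_filter, Set.Finite.mem_toFinset]
    rfl
  have h1 : ∀ σ : Equiv.Perm (Fin n), (Lab_finite (φ := φ) n F σ).toFinset =
      A.filter (fun x => ∀ i, φ (x i) = x (σ i)) := by
    intro σ
    ext x
    rw [Set.Finite.mem_toFinset, Finset.mem_filter, memA]
    constructor
    · rintro ⟨a, b, c⟩
      exact ⟨⟨b, a⟩, c⟩
    · rintro ⟨⟨b, a⟩, c⟩
      exact ⟨a, b, c⟩
  have h2 : ∑ σ : Equiv.Perm (Fin n), ∑ x ∈ (Lab_finite (φ := φ) n F σ).toFinset,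
      h (Finset.univ.image x) = ∑ x ∈ A, h (Finset.univ.image x) := by
    simp_rw [h1, Finset.sum_filter]
    rw [Finset.sum_comm]
    refine Finset.sum_congr rfl ?_
    intro x hx
    rw [memA] at hx
    obtain ⟨σ, hσ, hu⟩ := exists_label hφ x hx.2 (hF _ hx.1).1
    rw [Finset.sum_eq_single σ]
    · rw [if_pos hσ]
    · intro τ _ hne
      rw [if_neg]
      intro hc
      exact hne (hu τ hc)
    · intro hc
      exact absurd (Finset.mem_univ _) hc
  rw [h2, ← Finset.sum_fiberwise_of_maps_to (s := A) (t := F)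
    (g := fun x => Finset.univ.image x) (fun x hx => ((memA x).mp hx).1), Finset.mul_sum]
  refine Finset.sum_congr rfl ?_
  intro T hT
  have h3 : ∑ x ∈ A with Finset.univ.image x = T, h (Finset.univ.image x) =
      ∑ x ∈ A with Finset.univ.image x = T, h T := by
    refine Finset.sum_congr rfl ?_
    intro x hx
    rw [Finset.mem_filter] at hx
    rw [hx.2]
  rw [h3, Finset.sum_const, c1b_card_bij T (hF T hT).2]
  · simp
  · intro x
    rw [Finset.mem_filter, memA]
    constructor
    · rintro ⟨⟨_, b⟩, c⟩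
      exact ⟨b, c⟩
    · rintro ⟨b, c⟩
      exact ⟨⟨c ▸ hT, b⟩, c⟩

/-- two tuples with the same multiset differ by a permutation -/
theorem c1b_exists_perm {n : ℕ} (x y : Fin n → P)
    (h : (Finset.univ : Finset (Fin n)).val.map x = (Finset.univ : Finset (Fin n)).val.map y) :
    ∃ τ : Equiv.Perm (Fin n), y ∘ τ = x := by
  have h1 : ∀ p : P, Nonempty ({i // x i = p} ≃ {i // y i = p}) := by
    intro p
    rw [← Fintype.card_eq]
    have h2 := congrArg (Multiset.count p) h
    rw [Multiset.count_map, Multiset.count_map] at h2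
    rw [Fintype.card_subtype, Fintype.card_subtype]
    have e1 : ∀ z : Fin n → P, (Finset.univ.filter (fun i => z i = p)).card =
        Multiset.card (Multiset.filter (fun a => p = z a) (Finset.univ : Finset (Fin n)).val) := by
      intro z
      rw [Finset.card_def, Finset.filter_val]
      congr 1
      refine Multiset.filter_congr ?_
      intro i _
      exact eq_comm
    rw [e1, e1, h2]
  refine ⟨Equiv.ofFiberEquiv (fun p => (h1 p).some), ?_⟩
  funext i
  exact Equiv.ofFiberEquiv_map (fun p => (h1 p).some) i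

theorem c1b_self_inv {n : ℕ} (τ : Equiv.Perm (Fin n)) (i : Fin n) : τ (τ⁻¹ i) = i := by
  rw [← Equiv.Perm.mul_apply, mul_inv_cancel, Equiv.Perm.one_apply]

theorem c1b_map_comp {n : ℕ} (x : Fin n → P) (τ : Equiv.Perm (Fin n)) :
    (Finset.univ : Finset (Fin n)).val.map (x ∘ τ) = (Finset.univ : Finset (Fin n)).val.map x := by
  rw [← Multiset.map_map, Multiset.map_univ_val_equiv]

/-- labelled objects with possible repetitions: `A` is a set of `n`-tuples invariant under
relabeling; the number of pairs `(σ, x)`, `x ∈ A`, `φ ∘ x = x ∘ σ`, is `n!` times the number of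
multisets (as elements of `Sym P n`) of members `x ∈ A` with `φ`-stable multiset. -/
theorem card_twisted (hφ : Function.Injective φ) (n : ℕ) (A : Set (Fin n → P))
    (hA : ∀ x ∈ A, ∀ τ : Equiv.Perm (Fin n), x ∘ τ ∈ A)
    (hfin : {x | x ∈ A ∧ ∃ σ : Equiv.Perm (Fin n), ∀ i, φ (x i) = x (σ i)}.Finite) :
    ∑ σ : Equiv.Perm (Fin n), Set.ncard {x | x ∈ A ∧ ∀ i, φ (x i) = x (σ i)} =
      n.factorial * Set.ncard {s : Multiset P | s.map φ = s ∧
        ∃ x ∈ A, s = (Finset.univ : Finset (Fin n)).val.map x} := by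
  set B : Finset (Fin n → P) := hfin.toFinset with hB
  have memB : ∀ x, x ∈ B ↔ x ∈ A ∧ ∃ σ : Equiv.Perm (Fin n), ∀ i, φ (x i) = x (σ i) := by
    intro x
    rw [hB, Set.Finite.mem_toFinset]
    rfl
  set ms : (Fin n → P) → Multiset P := fun x => (Finset.univ : Finset (Fin n)).val.map x with hms
  have hM : {s : Multiset P | s.map φ = s ∧
        ∃ x ∈ A, s = (Finset.univ : Finset (Fin n)).val.map x} = ((B.image ms : Finset _) : Set _) := by
    ext s
    rw [Finset.mem_coe, Finset.mem_image]
    constructor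
    · rintro ⟨h1, x, hx, rfl⟩
      refine ⟨x, ?_, rfl⟩
      rw [memB]
      refine ⟨hx, ?_⟩
      rw [Multiset.map_map] at h1
      obtain ⟨τ, hτ⟩ := c1b_exists_perm (φ ∘ x) x h1
      exact ⟨τ, fun i => (congrFun hτ i).symm⟩
    · rintro ⟨x, hx, rfl⟩
      rw [memB] at hx
      obtain ⟨hxA, σ, hσ⟩ := hx
      refine ⟨?_, x, hxA, rfl⟩
      rw [hms]
      dsimp only
      rw [Multiset.map_map]
      have : φ ∘ x = x ∘ σ := funext hσ
      rw [this, c1b_map_comp]
  rw [hM, Set.ncard_coe_finset]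
  have h1 : ∀ σ : Equiv.Perm (Fin n), Set.ncard {x | x ∈ A ∧ ∀ i, φ (x i) = x (σ i)} =
      ∑ x ∈ B, if (∀ i, φ (x i) = x (σ i)) then 1 else 0 := by
    intro σ
    rw [← Finset.card_filter, ← Set.ncard_coe_finset]
    congr 1
    ext x
    rw [Finset.mem_coe, Finset.mem_filter, memB]
    constructor
    · rintro ⟨a, b⟩
      exact ⟨⟨a, σ, b⟩, b⟩
    · rintro ⟨⟨a, _⟩, b⟩
      exact ⟨a, b⟩
  simp_rw [h1]
  rw [Finset.sum_comm, ← Finset.sum_fiberwise_of_maps_to (s := B) (t := B.image ms)
    (g := ms) (fun x hx => Finset.mem_image_of_mem _ hx)]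
  have h2 : ∀ s ∈ B.image ms, ∑ x ∈ B with ms x = s, ∑ σ : Equiv.Perm (Fin n),
      (if (∀ i, φ (x i) = x (σ i)) then 1 else 0) = n.factorial := by
    intro s hs
    rw [Finset.mem_image] at hs
    obtain ⟨x0, hx0, rfl⟩ := hs
    rw [memB] at hx0
    obtain ⟨hx0A, σ0, hσ0⟩ := hx0
    have h3 : n.factorial = (Finset.univ : Finset (Equiv.Perm (Fin n))).card := by
      rw [Finset.card_univ, Fintype.card_perm, Fintype.card_fin]
    rw [h3, Finset.card_eq_sum_card_fiberwise (f := fun ρ : Equiv.Perm (Fin n) => x0 ∘ ρ)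
      (t := B.filter (fun x => ms x = ms x0))]
    · refine Finset.sum_congr rfl ?_
      intro x hx
      rw [Finset.mem_filter] at hx
      obtain ⟨ρ1, hρ1⟩ := c1b_exists_perm x x0 hx.2
      rw [← Finset.card_filter]
      symm
      have hσ0' : ∀ i, φ (x0 i) = x0 (σ0 i) := hσ0
      have hxi : ∀ i, x i = x0 (ρ1 i) := fun i => (congrFun hρ1 i).symm
      refine Finset.card_bij (fun ρ _ => ρ1⁻¹ * ρ * (ρ1⁻¹ * σ0 * ρ1)) ?_ ?_ ?_
      · intro ρ hρ
        rw [Finset.mem_filter] at hρ ⊢
        refine ⟨Finset.mem_univ _, fun i => ?_⟩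
        have h4 : ∀ j, x0 (ρ j) = x j := fun j => congrFun hρ.2 j
        rw [hxi i, hσ0', hxi]
        simp only [Equiv.Perm.mul_apply, c1b_self_inv]
        rw [h4, hxi, c1b_self_inv]
      · intro ρ _ ρ' _ h
        simpa using h
      · intro σ hσ
        rw [Finset.mem_filter] at hσ
        refine ⟨ρ1 * σ * (ρ1⁻¹ * σ0 * ρ1)⁻¹, ?_, by group⟩
        rw [Finset.mem_filter]
        refine ⟨Finset.mem_univ _, ?_⟩
        funext i
        have h5 : ∀ j, x (σ j) = x0 (σ0 (ρ1 j)) := fun j => by
          rw [← hσ.2 j, hxi j, hσ0']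
        simp only [Function.comp_apply, Equiv.Perm.mul_apply, mul_inv_rev, inv_inv]
        rw [← hxi, h5]
        simp only [c1b_self_inv]
        rw [hxi]
    · intro ρ _
      rw [Finset.coe_filter]
      refine ⟨?_, c1b_map_comp x0 ρ⟩
      rw [memB]
      refine ⟨hA x0 hx0A ρ, ρ⁻¹ * σ0 * ρ, fun i => ?_⟩
      simp only [Function.comp_apply, Equiv.Perm.mul_apply, c1b_self_inv]
      exact hσ0 _
  rw [Finset.sum_congr rfl h2, Finset.sum_const, smul_eq_mul, mul_comm]

end

end
end Pool.Agent.Helper19.DP1
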