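import Pool.Agent.Helper19.DP1.Core2a

/-! Core6a: shapes and fibres. -/

namespace Pool.Agent.Helper19.DP1
open Polynomial Classical
noncomputable section

set_option linter.unusedSimpArgs false
set_option linter.unusedVariables false

section
variable {L : Type*} [Field L] {w d d1 d2 : ℕ} {f g h : L[X][X]} {p : Option L} {v : L}
  {s : L[X]}

/-! ### auxiliary -/

theorem c6a_ev_sum {ι : Type*} (S : Finset ι) (F : ι → L[X]) (n : ℕ) :
    ev n (∑ i ∈ S, F i) p = ∑ i ∈ S, ev n (F i) p := by
  cases p with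
  | none => simp [ev, finsetSum_coeff]
  | some t => simp [ev, eval_finsetSum]

theorem c6a_coeff (hf : WP w d f) (k : ℕ) : (f.coeff k).natDegree ≤ w * (d - k) := by
  obtain ⟨_, h2, h3⟩ := hf
  rcases le_or_gt k d with h | h
  · have := h3 (d - k) (by omega)
    rwa [show d - (d - k) = k by omega] at this
  · rw [coeff_eq_zero_of_natDegree_lt (by omega)]
    simp

theorem c6a_wp (h1 : f.Monic) (h2 : f.natDegree = d)
    (h3 : ∀ k ≤ d, (f.coeff k).natDegree ≤ w * (d - k)) : WP w d f := by
  refine ⟨h1, h2, fun i hi => ?_⟩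
  have := h3 (d - i) (by omega)
  rwa [show d - (d - i) = i by omega] at this

theorem c6a_coeff_zero (hf : WP w d f) {k : ℕ} (hk : d < k) : f.coeff k = 0 :=
  coeff_eq_zero_of_natDegree_lt (by rw [hf.2.1]; exact hk)

theorem c6a_coeff_top (hf : WP w d f) : f.coeff d = 1 := by
  have h := hf.1.coeff_natDegree
  rwa [hf.2.1] at h

/-! ### shape -/

theorem c6a_cub_coeff (a : L[X] × L[X] × L[X]) (k : ℕ) : (cub a).coeff k =
    if k = 3 then 1 else if k = 2 then a.1 else if k = 1 then a.2.1 else if k = 0 then a.2.2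
    else 0 := by
  unfold cub
  simp only [coeff_add, coeff_X_pow, coeff_C_mul, coeff_X, coeff_C]
  rcases k with _ | _ | _ | _ | k
  · simp
  · simp
  · simp
  · simp
  · simp

theorem c6a_quart_coeff (c : L[X] × L[X] × L[X] × L[X]) (k : ℕ) : (quart c).coeff k =
    if k = 4 then 1 else if k = 3 then c.1 else if k = 2 then c.2.1 else
    if k = 1 then c.2.2.1 else if k = 0 then c.2.2.2 else 0 := by
  unfold quart
  simp only [coeff_add, coeff_X_pow, coeff_C_mul, coeff_X, coeff_C]
  rcases k with _ | _ | _ | _ | _ | k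
  · simp
  · simp
  · simp
  · simp
  · simp
  · simp

theorem c6a_monic_of_coeff (h1 : f.coeff d = 1) (h2 : ∀ k, d < k → f.coeff k = 0) :
    f.Monic ∧ f.natDegree = d := by
  have h3 : f.natDegree ≤ d := natDegree_le_iff_coeff_eq_zero.2 h2
  have h4 : f.natDegree = d := by
    apply le_antisymm h3
    apply le_natDegree_of_ne_zero
    rw [h1]; exact one_ne_zero
  refine ⟨?_, h4⟩
  rw [Monic, leadingCoeff, h4, h1]

theorem WP_cub {a : L[X] × L[X] × L[X]} (h1 : a.1.natDegree ≤ 2) (h2 : a.2.1.natDegree ≤ 4)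
    (h3 : a.2.2.natDegree ≤ 6) : WP 2 3 (cub a) := by
  have h := c6a_monic_of_coeff (f := cub a) (d := 3) (by rw [c6a_cub_coeff]; simp)
    (fun k hk => by
      rw [c6a_cub_coeff, if_neg (by omega), if_neg (by omega), if_neg (by omega),
        if_neg (by omega)])
  refine c6a_wp h.1 h.2 fun k hk => ?_
  rw [c6a_cub_coeff]
  interval_cases k
  · simpa using h3
  · simpa using h2
  · simpa using h1
  · simp

theorem WP_quart {c : L[X] × L[X] × L[X] × L[X]} (h1 : c.1.natDegree ≤ 1)
    (h2 : c.2.1.natDegree ≤ 2) (h3 : c.2.2.1.natDegree ≤ 3) (h4 : c.2.2.2.natDegree ≤ 4) :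
    WP 1 4 (quart c) := by
  have h := c6a_monic_of_coeff (f := quart c) (d := 4) (by rw [c6a_quart_coeff]; simp)
    (fun k hk => by
      rw [c6a_quart_coeff, if_neg (by omega), if_neg (by omega), if_neg (by omega),
        if_neg (by omega), if_neg (by omega)])
  refine c6a_wp h.1 h.2 fun k hk => ?_
  rw [c6a_quart_coeff]
  interval_cases k
  · simpa using h4
  · simpa using h3
  · simpa using h2
  · simpa using h1
  · simp

theorem eq_cub (hf : WP 2 3 f) : f = cub (f.coeff 2, f.coeff 1, f.coeff 0) := by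
  ext1 k
  rw [c6a_cub_coeff]
  have ht := c6a_coeff_top hf
  rcases k with _ | _ | _ | _ | k
  · simp
  · simp
  · simp
  · simpa using ht
  · rw [c6a_coeff_zero hf (by omega)]; simp

theorem eq_quart (hf : WP 1 4 f) : f = quart (f.coeff 3, f.coeff 2, f.coeff 1, f.coeff 0) := by
  ext1 k
  rw [c6a_quart_coeff]
  have ht := c6a_coeff_top hf
  rcases k with _ | _ | _ | _ | _ | k
  · simp
  · simp
  · simp
  · simp
  · simpa using ht
  · rw [c6a_coeff_zero hf (by omega)]; simp

theorem cub_injective : Function.Injective (cub : L[X] × L[X] × L[X] → L[X][X]) := by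
  rintro ⟨a, b, c⟩ ⟨a', b', c'⟩ h
  have h0 := congrArg (fun q : L[X][X] => q.coeff 0) h
  have h1 := congrArg (fun q : L[X][X] => q.coeff 1) h
  have h2 := congrArg (fun q : L[X][X] => q.coeff 2) h
  simp only [c6a_cub_coeff] at h0 h1 h2
  simp at h0 h1 h2
  rw [h0, h1, h2]

theorem quart_injective : Function.Injective (quart : L[X] × L[X] × L[X] × L[X] → L[X][X]) := by
  rintro ⟨a, b, c, e⟩ ⟨a', b', c', e'⟩ h
  have h0 := congrArg (fun q : L[X][X] => q.coeff 0) h
  have h1 := congrArg (fun q : L[X][X] => q.coeff 1) h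
  have h2 := congrArg (fun q : L[X][X] => q.coeff 2) h
  have h3 := congrArg (fun q : L[X][X] => q.coeff 3) h
  simp only [c6a_quart_coeff] at h0 h1 h2 h3
  simp at h0 h1 h2 h3
  rw [h0, h1, h2, h3]

theorem WP_mul (hf : WP w d1 f) (hg : WP w d2 g) : WP w (d1 + d2) (f * g) := by
  refine c6a_wp (hf.1.mul hg.1) ?_ fun k hk => ?_
  · rw [hf.1.natDegree_mul hg.1, hf.2.1, hg.2.1]
  · rw [coeff_mul]
    refine natDegree_sum_le_of_forall_le _ _ fun x hx => ?_
    have hx' : x.1 + x.2 = k := Finset.HasAntidiagonal.mem_antidiagonal.1 hx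
    rcases le_or_gt x.1 d1 with h1 | h1
    · rcases le_or_gt x.2 d2 with h2 | h2
      · refine natDegree_mul_le.trans ?_
        refine (add_le_add (c6a_coeff hf x.1) (c6a_coeff hg x.2)).trans ?_
        rw [← Nat.mul_add]
        exact Nat.mul_le_mul_left _ (by omega)
      · rw [c6a_coeff_zero hg h2, mul_zero]; simp
    · rw [c6a_coeff_zero hf h1, zero_mul]; simp

theorem WP_X_sub_C (hs : s.natDegree ≤ w) : WP w 1 (X - C s) := by
  refine c6a_wp (monic_X_sub_C s) (natDegree_X_sub_C s) fun k hk => ?_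
  interval_cases k
  · simpa using hs
  · simp [coeff_X, coeff_C]

theorem c6a_coeff_comp {R : Type*} [CommRing R] {f : R[X]} {d : ℕ} (hf : f.natDegree ≤ d) (s : R)
    (j : ℕ) : (f.comp (X + C s)).coeff j =
      ∑ k ∈ Finset.range (d + 1), f.coeff k * (s ^ (k - j) * (k.choose j : R)) := by
  rw [comp, eval₂_eq_sum_range' C (Nat.lt_succ_of_le hf), finsetSum_coeff]
  refine Finset.sum_congr rfl fun k _ => ?_
  rw [coeff_C_mul, coeff_X_add_C_pow]

theorem WP_comp (hf : WP w d f) (hs : s.natDegree ≤ w) : WP w d (f.comp (X + C s)) := by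
  have hc := c6a_coeff_comp (f := f) (d := d) hf.2.1.le s
  have h := c6a_monic_of_coeff (f := f.comp (X + C s)) (d := d) (by
    rw [hc, Finset.sum_eq_single d]
    · rw [c6a_coeff_top hf]; simp
    · intro k hk hkd
      have : k < d := by
        have := Finset.mem_range.1 hk; omega
      rw [Nat.choose_eq_zero_of_lt this]; simp
    · intro h; exact absurd (Finset.mem_range.2 (Nat.lt_succ_self d)) h)
    (fun j hj => by
      rw [hc]
      refine Finset.sum_eq_zero fun k hk => ?_
      rw [Nat.choose_eq_zero_of_lt (by have := Finset.mem_range.1 hk; omega)]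
      simp)
  refine c6a_wp h.1 h.2 fun j hj => ?_
  rw [hc]
  refine natDegree_sum_le_of_forall_le _ _ fun k hk => ?_
  have hk' : k ≤ d := by have := Finset.mem_range.1 hk; omega
  rcases lt_or_ge k j with hkj | hkj
  · rw [Nat.choose_eq_zero_of_lt hkj]; simp
  · refine natDegree_mul_le.trans ?_
    have h1 := c6a_coeff hf k
    have h2 : (s ^ (k - j) * ((k.choose j : ℕ) : L[X])).natDegree ≤ w * (k - j) := by
      refine natDegree_mul_le.trans ?_
      rw [natDegree_natCast, add_zero]
      refine natDegree_pow_le.trans ?_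
      rw [mul_comm]
      exact Nat.mul_le_mul_right _ hs
    refine (add_le_add h1 h2).trans ?_
    rw [← Nat.mul_add]
    exact Nat.mul_le_mul_left _ (by omega)

theorem c6a_pow (hs : s.natDegree ≤ w) (k : ℕ) : (s ^ k).natDegree ≤ w * k := by
  refine natDegree_pow_le.trans ?_
  rw [mul_comm]
  exact Nat.mul_le_mul_right _ hs

theorem c6a_eval (hf : WP w d f) :
    f.eval s = ∑ k ∈ Finset.range (d + 1), f.coeff k * s ^ k := by
  rw [eval_eq_sum_range, hf.2.1]

theorem natDegree_eval (hf : WP w d f) (hs : s.natDegree ≤ w) :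
    (f.eval s).natDegree ≤ w * d := by
  rw [c6a_eval hf]
  refine natDegree_sum_le_of_forall_le _ _ fun k hk => ?_
  have hk' : k ≤ d := by have := Finset.mem_range.1 hk; omega
  refine natDegree_mul_le.trans ?_
  refine (add_le_add (c6a_coeff hf k) (c6a_pow hs k)).trans ?_
  rw [← Nat.mul_add]
  exact Nat.mul_le_mul_left _ (by omega)

theorem c6a_derivative_eval {R : Type*} [CommRing R] {f : R[X]} {d : ℕ} (hf : f.natDegree ≤ d)
    (s : R) : f.derivative.eval s =
      ∑ k ∈ Finset.range d, (f.coeff (k + 1) * ((k : R) + 1)) * s ^ k := by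
  have h1 : f.derivative.natDegree < d + 1 := by
    have := natDegree_derivative_le f
    omega
  rw [eval_eq_sum_range' h1, Finset.sum_range_succ]
  have h2 : f.derivative.coeff d = 0 := by
    rw [coeff_derivative, coeff_eq_zero_of_natDegree_lt (by omega), zero_mul]
  rw [h2, zero_mul, add_zero]
  refine Finset.sum_congr rfl fun k _ => ?_
  rw [coeff_derivative]

theorem natDegree_derivative_eval (hf : WP w d f) (hs : s.natDegree ≤ w) :
    (f.derivative.eval s).natDegree ≤ w * (d - 1) := by
  rw [c6a_derivative_eval hf.2.1.le]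
  refine natDegree_sum_le_of_forall_le _ _ fun k hk => ?_
  have hk' : k < d := Finset.mem_range.1 hk
  have h1 : (f.coeff (k + 1) * ((k : L[X]) + 1)).natDegree ≤ w * (d - (k + 1)) := by
    refine natDegree_mul_le.trans ?_
    have h2 : ((k : L[X]) + 1).natDegree = 0 := by
      rw [show ((k : L[X]) + 1) = ((k + 1 : ℕ) : L[X]) by push_cast; rfl, natDegree_natCast]
    rw [h2, add_zero]
    exact c6a_coeff hf (k + 1)
  refine natDegree_mul_le.trans ?_
  refine (add_le_add h1 (c6a_pow hs k)).trans ?_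
  rw [← Nat.mul_add]
  exact Nat.mul_le_mul_left _ (by omega)

/-- a section contained in the curve splits off -/
theorem exists_factor (hf : WP w (d + 1) f) (hs : s.natDegree ≤ w) (h : f.eval s = 0) :
    ∃ g : L[X][X], WP w d g ∧ f = (X - C s) * g := by
  obtain ⟨g, hg⟩ := dvd_iff_isRoot.2 h
  refine ⟨g, ?_, hg⟩
  have hgm : g.Monic := by
    have h1 := hf.1
    rw [hg] at h1
    exact Monic.of_mul_monic_left (monic_X_sub_C s) h1
  have hgd : g.natDegree = d := by
    have h1 := hf.2.1
    rw [hg, (monic_X_sub_C s).natDegree_mul hgm, natDegree_X_sub_C] at h1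
    omega
  have hrec : ∀ k, g.coeff k = f.coeff (k + 1) + s * g.coeff (k + 1) := by
    intro k
    rw [hg, sub_mul, coeff_sub, coeff_X_mul, coeff_C_mul]
    ring
  have hind : ∀ i, ∀ k, k + i = d → (g.coeff k).natDegree ≤ w * i := by
    intro i
    induction i with
    | zero =>
      intro k hk
      have : g.coeff k = 1 := by
        have h2 := hgm.coeff_natDegree
        rw [hgd] at h2
        rw [show k = d by omega]; exact h2
      rw [this]; simp
    | succ i ih =>
      intro k hk
      rw [hrec k]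
      refine (natDegree_add_le _ _).trans (max_le ?_ ?_)
      · have := c6a_coeff hf (k + 1)
        rwa [show d + 1 - (k + 1) = i + 1 by omega] at this
      · refine natDegree_mul_le.trans ?_
        have := ih (k + 1) (by omega)
        rw [Nat.mul_add, mul_one, add_comm]
        exact add_le_add this hs
  exact c6a_wp hgm hgd fun k hk => hind (d - k) k (by omega)

/-! ### fibres -/

theorem c6a_fib_coeff (f : L[X][X]) (k : ℕ) : (fib w d f p).coeff k =
    if k ≤ d then ev (w * (d - k)) (f.coeff k) p else 0 := by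
  unfold fib
  rw [finsetSum_coeff]
  simp only [coeff_C_mul, coeff_X_pow]
  split_ifs with h
  · rw [Finset.sum_eq_single (d - k)]
    · rw [if_pos (by omega), mul_one, show d - (d - k) = k by omega]
    · intro i hi hik
      have := Finset.mem_range.1 hi
      rw [if_neg (by omega), mul_zero]
    · intro h'
      exact absurd (Finset.mem_range.2 (by omega)) h'
  · refine Finset.sum_eq_zero fun i _ => ?_
    rw [if_neg (by omega), mul_zero]

theorem fib_monic (hf : WP w d f) : (fib w d f p).Monic ∧ (fib w d f p).natDegree = d := by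
  have h1 : (fib w d f p).coeff d = 1 := by
    rw [c6a_fib_coeff, if_pos le_rfl, c6a_coeff_top hf, Nat.sub_self, mul_zero, ← C_1, ev_C_zero]
  have h2 : (fib w d f p).natDegree ≤ d := by
    rw [natDegree_le_iff_coeff_eq_zero]
    intro k hk
    rw [c6a_fib_coeff, if_neg (by omega)]
  have h3 : (fib w d f p).natDegree = d := by
    apply le_antisymm h2
    apply le_natDegree_of_ne_zero
    rw [h1]; exact one_ne_zero
  exact ⟨by rw [Monic, leadingCoeff, h3, h1], h3⟩

theorem fib_eval (hf : WP w d f) (hs : s.natDegree ≤ w) :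
    (fib w d f p).eval (ev w s p) = ev (w * d) (f.eval s) p := by
  rw [c6a_eval hf, c6a_ev_sum, eval_eq_sum_range, (fib_monic (p := p) hf).2]
  refine Finset.sum_congr rfl fun k hk => ?_
  have hk' : k ≤ d := by have := Finset.mem_range.1 hk; omega
  rw [c6a_fib_coeff, if_pos hk', ← ev_pow hs, ← ev_mul (c6a_coeff hf k) (c6a_pow hs k)]
  congr 1
  rw [← Nat.mul_add, Nat.sub_add_cancel hk']

theorem fib_derivative_eval (hf : WP w d f) (hd : 1 ≤ d) (hs : s.natDegree ≤ w) :
    (fib w d f p).derivative.eval (ev w s p) = ev (w * (d - 1)) (f.derivative.eval s) p := by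
  rw [c6a_derivative_eval hf.2.1.le, c6a_ev_sum,
    c6a_derivative_eval (fib_monic (p := p) hf).2.le]
  refine Finset.sum_congr rfl fun k hk => ?_
  have hk' : k < d := Finset.mem_range.1 hk
  rw [c6a_fib_coeff, if_pos (by omega)]
  have e1 : f.coeff (k + 1) * ((k : L[X]) + 1) * s ^ k =
      C ((k : L) + 1) * (f.coeff (k + 1) * s ^ k) := by
    rw [C_add, C_1, map_natCast]; ring
  have e2 : ev (w * (d - (k + 1))) (f.coeff (k + 1)) p * ((k : L) + 1) * ev w s p ^ k =
      ((k : L) + 1) * (ev (w * (d - (k + 1))) (f.coeff (k + 1)) p * ev (w * k) (s ^ k) p) := by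
    rw [ev_pow hs]; ring
  rw [e1, ev_C_mul, e2, ← ev_mul (c6a_coeff hf (k + 1)) (c6a_pow hs k)]
  congr 2
  rw [← Nat.mul_add]
  congr 1
  omega

theorem fib_mul (hf : WP w d1 f) (hg : WP w d2 g) :
    fib w (d1 + d2) (f * g) p = fib w d1 f p * fib w d2 g p := by
  ext k
  rw [c6a_fib_coeff, coeff_mul, coeff_mul]
  split_ifs with hk
  · rw [c6a_ev_sum]
    refine Finset.sum_congr rfl fun x hx => ?_
    have hx' : x.1 + x.2 = k := Finset.HasAntidiagonal.mem_antidiagonal.1 hx
    rw [c6a_fib_coeff, c6a_fib_coeff]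
    rcases le_or_gt x.1 d1 with h1 | h1
    · rcases le_or_gt x.2 d2 with h2 | h2
      · rw [if_pos h1, if_pos h2, ← ev_mul (c6a_coeff hf x.1) (c6a_coeff hg x.2)]
        congr 1
        rw [← Nat.mul_add]
        congr 1
        omega
      · rw [if_neg (by omega : ¬ x.2 ≤ d2), c6a_coeff_zero hg h2, mul_zero, mul_zero, ev_zero]
    · rw [if_neg (by omega : ¬ x.1 ≤ d1), c6a_coeff_zero hf h1, zero_mul, zero_mul, ev_zero]
  · symm
    refine Finset.sum_eq_zero fun x hx => ?_
    have hx' : x.1 + x.2 = k := Finset.HasAntidiagonal.mem_antidiagonal.1 hx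
    rw [c6a_fib_coeff, c6a_fib_coeff]
    rcases le_or_gt x.1 d1 with h1 | h1
    · rw [if_neg (by omega : ¬ x.2 ≤ d2), mul_zero]
    · rw [if_neg (by omega : ¬ x.1 ≤ d1), zero_mul]

theorem fib_X_sub_C (hs : s.natDegree ≤ w) : fib w 1 (X - C s) p = X - C (ev w s p) := by
  ext k
  rw [c6a_fib_coeff]
  rcases k with _ | _ | k
  · simp [coeff_X, ev_neg]
  · rw [if_pos (by omega)]
    simp only [zero_add, coeff_sub, coeff_X, coeff_C, if_true, one_ne_zero, if_false, sub_zero,
      Nat.sub_self, mul_zero]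
    rw [← C_1, ev_C_zero]
  · rw [if_neg (by omega)]
    simp [coeff_X, coeff_C]

theorem fib_comp (hf : WP w d f) (hs : s.natDegree ≤ w) :
    fib w d (f.comp (X + C s)) p = (fib w d f p).comp (X + C (ev w s p)) := by
  ext j
  rw [c6a_fib_coeff, c6a_coeff_comp (fib_monic (p := p) hf).2.le, c6a_coeff_comp hf.2.1.le]
  split_ifs with hj
  · rw [c6a_ev_sum]
    refine Finset.sum_congr rfl fun k hk => ?_
    have hk' : k ≤ d := by have := Finset.mem_range.1 hk; omega
    rw [c6a_fib_coeff, if_pos hk']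
    rcases lt_or_ge k j with hkj | hkj
    · rw [Nat.choose_eq_zero_of_lt hkj]
      simp [ev_zero]
    · have e1 : f.coeff k * (s ^ (k - j) * ((k.choose j : ℕ) : L[X])) =
          C ((k.choose j : ℕ) : L) * (f.coeff k * s ^ (k - j)) := by
        rw [map_natCast]; ring
      rw [e1, ev_C_mul, ← ev_pow hs, show ev (w * (d - k)) (f.coeff k) p *
        (ev (w * (k - j)) (s ^ (k - j)) p * ((k.choose j : ℕ) : L)) = ((k.choose j : ℕ) : L) *
        (ev (w * (d - k)) (f.coeff k) p * ev (w * (k - j)) (s ^ (k - j)) p) by ring,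
        ← ev_mul (c6a_coeff hf k) (c6a_pow hs (k - j))]
      congr 2
      rw [← Nat.mul_add]
      congr 1
      omega
  · symm
    refine Finset.sum_eq_zero fun k hk => ?_
    rw [Nat.choose_eq_zero_of_lt (by have := Finset.mem_range.1 hk; omega)]
    simp

end

end
end Pool.Agent.Helper19.DP1
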