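import Pool.Agent.Helper19.DP1.Core6a

/-! Core6b: singular points. -/

namespace Pool.Agent.Helper19.DP1
open Polynomial Classical
noncomputable section

section
variable {L : Type*} [Field L] {w d d1 d2 : ℕ} {f g h : L[X][X]} {p : Option L} {v : L}
  {s : L[X]}

/-! ### singular points -/

/-- every value is attained by a section -/
theorem exists_section (w : ℕ) (p : Option L) (v : L) : ∃ s : L[X], s.natDegree ≤ w ∧
    ev w s p = v := by
  obtain ⟨P, hP, h⟩ := exists_interp (T := {p}) (n := w) (by simp) (fun _ => v)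
  exact ⟨P, hP, h p (by simp)⟩

theorem c6b_ev_one : ev 0 (1 : L[X]) p = 1 := by
  have := ev_C_zero (p := p) (1 : L)
  simpa using this

theorem c6b_dv_sub (hf : WP w d f) (hw : 1 ≤ w) (hd : 1 ≤ d) {s s' : L[X]}
    (hs : s.natDegree ≤ w) (hs' : s'.natDegree ≤ w) (he : ev w s' p = ev w s p)
    (h0 : ev (w * (d - 1)) (f.derivative.eval s) p = 0) :
    dv (w * d) (f.eval s' - f.eval s) p := by
  obtain ⟨e, rfl⟩ : ∃ e, d = e + 1 := ⟨d - 1, by omega⟩
  have hF : WP w (e + 1) (f - C (f.eval s)) := by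
    refine ⟨?_, ?_, ?_⟩
    · have hlt : (C (f.eval s)).degree < f.degree := by
        have hfd : f.degree = ((e + 1 : ℕ) : WithBot ℕ) := by
          rw [degree_eq_natDegree hf.1.ne_zero, hf.2.1]
        rw [hfd]
        refine lt_of_le_of_lt degree_C_le ?_
        exact_mod_cast Nat.succ_pos e
      exact Monic.sub_of_left hf.1 hlt
    · rw [natDegree_sub_C, hf.2.1]
    · intro i hi
      rw [coeff_sub]
      by_cases h0 : e + 1 - i = 0
      · have hi' : i = e + 1 := by omega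
        subst hi'
        rw [h0, coeff_C_zero]
        refine le_trans (natDegree_sub_le _ _) (max_le ?_ ?_)
        · have := hf.2.2 (e + 1) le_rfl
          rwa [Nat.sub_self] at this
        · exact natDegree_eval hf hs
      · rw [coeff_C_of_ne_zero h0, sub_zero]
        exact hf.2.2 i hi
  obtain ⟨g, hg, hfg⟩ := exists_factor hF hs (by simp)
  have hd' : f.derivative = g + (X - C s) * g.derivative := by
    have := congrArg derivative hfg
    simpa using this
  have h1 : f.derivative.eval s = g.eval s := by rw [hd']; simp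
  have h2 : f.eval s' - f.eval s = (s' - s) * g.eval s' := by
    have := congrArg (fun F : L[X][X] => F.eval s') hfg
    simpa using this
  rw [h2]
  have h3 : ev (w * e) (g.eval s) p = 0 := by
    rw [← h1]
    simpa using h0
  have h4 : ev (w * e) (g.eval s') p = 0 := by
    rw [← fib_eval hg hs', he, fib_eval hg hs, h3]
  rcases Nat.eq_zero_or_pos e with he0 | he0
  · exfalso
    subst he0
    have hg1 : g = 1 := by
      have h7 : g.natDegree = 0 := hg.2.1
      have h8 := hg.1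
      exact (Monic.natDegree_eq_zero h8).1 h7
    rw [hg1] at h3
    simp only [eval_one, mul_zero] at h3
    rw [c6b_ev_one] at h3
    exact one_ne_zero h3
  · have h5 := dv_mul_of_ev (p := p) (P := s' - s) (Q := g.eval s') (m := w) (n := w * e) hw
      (Nat.mul_pos hw he0) (le_trans (natDegree_sub_le _ _) (max_le hs' hs))
      (natDegree_eval hg hs') (by rw [ev_sub, he, sub_self]) h4
    have h6 : w + w * e = w * (e + 1) := by ring
    rwa [h6] at h5

/-- the section used to test singularity does not matter -/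
theorem sing_iff (hf : WP w d f) (hw : 1 ≤ w) (hd : 1 ≤ d) (hs : s.natDegree ≤ w) :
    Sing w d f p (ev w s p) ↔
      ev (w * (d - 1)) (f.derivative.eval s) p = 0 ∧ dv (w * d) (f.eval s) p := by
  constructor
  · rintro ⟨t, ht, hts, h1, h2⟩
    have h3 : ev (w * (d - 1)) (f.derivative.eval s) p = 0 := by
      rw [← fib_derivative_eval hf hd hs, ← hts, fib_derivative_eval hf hd ht, h1]
    refine ⟨h3, ?_⟩
    have h4 := c6b_dv_sub hf hw hd ht hs hts.symm h1
    have h5 := dv_add h4 h2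
    simpa using h5
  · rintro ⟨h1, h2⟩
    exact ⟨s, hs, rfl, h1, h2⟩

theorem sing_comp (hf : WP w d f) (hw : 1 ≤ w) (hd : 1 ≤ d) (hs : s.natDegree ≤ w) :
    Sing w d (f.comp (X + C s)) p v ↔ Sing w d f p (v + ev w s p) := by
  obtain ⟨t, ht, rfl⟩ := exists_section w p v
  have hts : (t + s).natDegree ≤ w := le_trans (natDegree_add_le _ _) (max_le ht hs)
  rw [← ev_add, sing_iff (WP_comp hf hs) hw hd ht, sing_iff hf hw hd hts]
  have h1 : (f.comp (X + C s)).derivative.eval t = f.derivative.eval (t + s) := by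
    rw [derivative_comp]
    simp
  have h2 : (f.comp (X + C s)).eval t = f.eval (t + s) := by
    simp
  rw [h1, h2]

theorem bad_comp (hf : WP w d f) (hw : 1 ≤ w) (hd : 1 ≤ d) (hs : s.natDegree ≤ w) :
    Bad w d (f.comp (X + C s)) p ↔ Bad w d f p := by
  constructor
  · rintro ⟨v, hv⟩
    exact ⟨_, (sing_comp hf hw hd hs).1 hv⟩
  · rintro ⟨v, hv⟩
    refine ⟨v - ev w s p, (sing_comp hf hw hd hs).2 ?_⟩
    simpa using hv

theorem c6b_dvd {F : L[X]} (hF : F ≠ 0) (h1 : F.eval v = 0) (h2 : F.derivative.eval v = 0) :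
    (X - C v) ^ 2 ∣ F := by
  rw [← le_rootMultiplicity_iff hF]
  exact (one_lt_rootMultiplicity_iff_isRoot hF).2 ⟨h1, h2⟩

/-- a singular point is a multiple root of the fibre -/
theorem sing_fib (hf : WP w d f) (hw : 1 ≤ w) (hd : 1 ≤ d) (h : Sing w d f p v) :
    (X - C v) ^ 2 ∣ fib w d f p := by
  obtain ⟨s, hs, rfl, h1, h2⟩ := h
  refine c6b_dvd (fib_monic hf).1.ne_zero ?_ ?_
  · rw [fib_eval hf hs]
    exact dv_ev h2
  · rw [fib_derivative_eval hf hd hs, h1]

theorem c6b_dvd_mul {F : L[X]} {v v' : L} (hv : v ≠ v') (h1 : (X - C v) ^ 2 ∣ F)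
    (h2 : (X - C v') ^ 2 ∣ F) : (X - C v) ^ 2 * (X - C v') ^ 2 ∣ F :=
  IsCoprime.mul_dvd ((isCoprime_X_sub_C_of_isUnit_sub
    (sub_ne_zero.2 hv).isUnit).pow) h1 h2

theorem c6b_natDegree {v v' : L} : ((X - C v) ^ 2 * (X - C v') ^ 2).natDegree = 4 := by
  rw [natDegree_mul (pow_ne_zero _ (X_sub_C_ne_zero _)) (pow_ne_zero _ (X_sub_C_ne_zero _)),
    natDegree_pow, natDegree_pow, natDegree_X_sub_C, natDegree_X_sub_C]

theorem sing_unique3 (hf : WP w 3 f) (hw : 1 ≤ w) {v' : L} (h : Sing w 3 f p v)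
    (h' : Sing w 3 f p v') : v = v' := by
  by_contra hne
  have h1 := c6b_dvd_mul hne (sing_fib hf hw (by norm_num) h) (sing_fib hf hw (by norm_num) h')
  have h2 := natDegree_le_of_dvd h1 (fib_monic hf).1.ne_zero
  rw [c6b_natDegree, (fib_monic hf).2] at h2
  omega

theorem sing_unique4 (hf : WP 1 4 f) (hq : NoSq f) {v' : L} (h : Sing 1 4 f p v)
    (h' : Sing 1 4 f p v') : v = v' := by
  by_contra hne
  have h1 := c6b_dvd_mul hne (sing_fib hf le_rfl (by norm_num) h)
    (sing_fib hf le_rfl (by norm_num) h')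
  have hm : ((X - C v) ^ 2 * (X - C v') ^ 2 : L[X]).Monic :=
    ((monic_X_sub_C v).pow 2).mul ((monic_X_sub_C v').pow 2)
  have h3 : fib 1 4 f p = (X - C v) ^ 2 * (X - C v') ^ 2 := by
    refine eq_of_monic_of_dvd_of_natDegree_le hm (fib_monic hf).1 h1 ?_
    rw [c6b_natDegree, (fib_monic hf).2]
  refine hq p (-(v + v')) (v * v') ?_
  rw [h3, C_neg, C_add, C_mul]
  ring

theorem not_sing_one (hf : WP w 1 f) : ¬ Sing w 1 f p v := by
  rintro ⟨s, hs, rfl, h1, h2⟩
  have h3 : f = X + C (f.coeff 0) := hf.1.eq_X_add_C hf.2.1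
  have h4 : f.derivative = 1 := by rw [h3]; simp
  rw [h4] at h1
  simp only [Nat.sub_self, mul_zero, eval_one] at h1
  rw [c6b_ev_one] at h1
  exact one_ne_zero h1

theorem sing_mul_of_both (hf : WP w d1 f) (hg : WP w d2 g) (hw : 1 ≤ w) (h1 : 1 ≤ d1)
    (h2 : 1 ≤ d2) (hfv : (fib w d1 f p).eval v = 0) (hgv : (fib w d2 g p).eval v = 0) :
    Sing w (d1 + d2) (f * g) p v := by
  obtain ⟨s, hs, rfl⟩ := exists_section w p v
  have hfg := WP_mul hf hg
  rw [sing_iff hfg hw (by omega) hs]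
  constructor
  · rw [← fib_derivative_eval hfg (by omega) hs, fib_mul hf hg]
    simp [hfv, hgv]
  · rw [eval_mul, mul_add]
    rw [fib_eval hf hs] at hfv
    rw [fib_eval hg hs] at hgv
    exact dv_mul_of_ev (Nat.mul_pos hw h1) (Nat.mul_pos hw h2) (natDegree_eval hf hs)
      (natDegree_eval hg hs) hfv hgv

theorem sing_mul_left (hf : WP w d1 f) (hg : WP w d2 g) (hw : 1 ≤ w) (h1 : 1 ≤ d1)
    (hgv : (fib w d2 g p).eval v ≠ 0) : Sing w (d1 + d2) (f * g) p v ↔ Sing w d1 f p v := by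
  obtain ⟨s, hs, rfl⟩ := exists_section w p v
  have hfg := WP_mul hf hg
  rw [sing_iff hfg hw (by omega) hs, sing_iff hf hw h1 hs,
    ← fib_derivative_eval hfg (by omega) hs, ← fib_derivative_eval hf h1 hs, fib_mul hf hg,
    derivative_mul, eval_add, eval_mul, eval_mul, eval_mul, mul_add]
  rw [fib_eval hg hs] at hgv ⊢
  constructor
  · rintro ⟨ha, hb⟩
    rw [mul_comm (f.eval s), add_comm (w * d1)] at hb
    have hc := dv_of_dv_mul (Nat.mul_pos hw h1) (natDegree_eval hg hs) (natDegree_eval hf hs) hb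
      hgv
    refine ⟨?_, hc⟩
    rw [fib_eval hf hs, dv_ev hc, zero_mul, add_zero] at ha
    exact (mul_eq_zero.1 ha).resolve_right hgv
  · rintro ⟨ha, hb⟩
    refine ⟨?_, ?_⟩
    · rw [ha, fib_eval hf hs, dv_ev hb]
      simp
    · exact dv_mul_right (Nat.mul_pos hw h1) (natDegree_eval hf hs) (natDegree_eval hg hs) hb

theorem sing_mul_right (hf : WP w d1 f) (hg : WP w d2 g) (hw : 1 ≤ w) (h2 : 1 ≤ d2)
    (hfv : (fib w d1 f p).eval v ≠ 0) : Sing w (d1 + d2) (f * g) p v ↔ Sing w d2 g p v := by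
  rw [mul_comm, add_comm]
  exact sing_mul_left hg hf hw h2 hfv

/-- singular points of double covers `Y^2 + a Y + b` -/
theorem sing_quad (h2 : (2 : L) ≠ 0) (hf : WP w 2 f) (hw : 1 ≤ w) :
    Sing w 2 f p v ↔ 2 * v + ev w (f.coeff 1) p = 0 ∧
      dv (2 * w) ((f.coeff 1) ^ 2 - 4 * f.coeff 0) p := by
  obtain ⟨s, hs, rfl⟩ := exists_section w p v
  obtain ⟨a, ha⟩ : ∃ a, a = f.coeff 1 := ⟨_, rfl⟩
  obtain ⟨b, hb⟩ : ∃ b, b = f.coeff 0 := ⟨_, rfl⟩
  have hf2 : f = X ^ 2 + C a * X + C b := by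
    have hle : f.natDegree ≤ 2 := le_of_eq hf.2.1
    have h := eq_quadratic_of_degree_le_two (p := f) (natDegree_le_iff_degree_le.1 hle)
    have hc : f.coeff 2 = 1 := by
      have := hf.1.coeff_natDegree
      rwa [hf.2.1] at this
    rw [hc] at h
    rw [ha, hb]
    simpa using h
  rw [sing_iff hf hw (by norm_num) hs, ← ha, ← hb]
  have had : a.natDegree ≤ w := by
    have := hf.2.2 1 (by norm_num)
    simpa [ha] using this
  have hC2 : (C (2 : L) : L[X]) = 2 := rfl
  have hC4 : (C (4 : L) : L[X]) = 4 := rfl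
  have hd1 : f.derivative.eval s = C 2 * s + a := by
    rw [hf2, hC2]
    simp [one_add_one_eq_two]
  have hd2 : f.eval s = s ^ 2 + a * s + b := by
    rw [hf2]
    simp
  have hw1 : w * (2 - 1) = w := by simp
  rw [hw1, hd1, hd2, ev_add, ev_C_mul]
  refine and_congr_right fun h0 => ?_
  have h5 : dv (w + w) ((C 2 * s + a) * (C 2 * s + a)) p := by
    have hdeg : (C 2 * s + a).natDegree ≤ w :=
      le_trans (natDegree_add_le _ _) (max_le (le_trans (natDegree_C_mul_le _ _) hs) had)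
    refine dv_mul_of_ev hw hw hdeg hdeg ?_ ?_ <;> rw [ev_add, ev_C_mul, h0]
  have h6 : w + w = w * 2 := by ring
  rw [h6] at h5
  rw [mul_comm 2 w]
  have h4 : (4 : L) ≠ 0 := by
    have : (4 : L) = 2 * 2 := by norm_num
    rw [this]
    exact mul_ne_zero h2 h2
  constructor
  · intro hx
    have h7 := dv_add h5 (dv_neg (dv_C_mul 4 hx))
    have h8 : (C 2 * s + a) * (C 2 * s + a) + -(C 4 * (s ^ 2 + a * s + b)) = a ^ 2 - 4 * b := by
      rw [hC2, hC4]
      ring
    rwa [h8] at h7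
  · intro hx
    have h7 := dv_C_mul (4⁻¹ : L) (dv_add h5 (dv_neg hx))
    have h8 : C (4⁻¹ : L) * ((C 2 * s + a) * (C 2 * s + a) + -(a ^ 2 - 4 * b)) =
        s ^ 2 + a * s + b := by
      have h9 : (C 2 * s + a) * (C 2 * s + a) + -(a ^ 2 - 4 * b) =
          C 4 * (s ^ 2 + a * s + b) := by
        rw [hC2, hC4]
        ring
      rw [h9, ← mul_assoc, ← C_mul, inv_mul_cancel₀ h4, C_1, one_mul]
    rwa [h8] at h7

/-- a curve `f` with a double section is singular everywhere -/
theorem bad_of_double (hf : WP w d f) (hw : 1 ≤ w) (hs : s.natDegree ≤ w)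
    (h : (X - C s) ^ 2 ∣ f) : ∀ p, Bad w d f p := by
  intro p
  obtain ⟨g, rfl⟩ := h
  refine ⟨ev w s p, s, hs, rfl, ?_, ?_⟩
  · have : (derivative ((X - C s) ^ 2 * g)).eval s = 0 := by
      rw [derivative_mul, derivative_pow]
      simp
    rw [this, ev_zero]
  · have : ((X - C s) ^ 2 * g).eval s = 0 := by simp
    rw [this]
    exact dv_zero

end

end
end Pool.Agent.Helper19.DP1
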