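import Pool.Agent.Helper19.DP1.Core3a
import Pool.Agent.Helper19.DP1.Core6b

/-! Core6c: `NoSq`; structure over `K`. -/

namespace Pool.Agent.Helper19.DP1
open Polynomial Classical
noncomputable section

section
variable {L : Type*} [Field L] {w d d1 d2 : ℕ} {f g h : L[X][X]} {p : Option L} {v : L}
  {s : L[X]}

/-! ### `NoSq` -/

theorem c6c_sq {g : L[X]} (c : L) (h : ∀ a b : L, g ≠ (X ^ 2 + C a * X + C b) ^ 2) :
    ∀ a b : L, g.comp (X + C c) ≠ (X ^ 2 + C a * X + C b) ^ 2 := by
  intro a b hab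
  apply h (a - 2 * c) (c ^ 2 - a * c + b)
  have h1 : (g.comp (X + C c)).comp (X - C c) = g := by
    rw [comp_assoc]
    simp
  rw [hab] at h1
  rw [← h1]
  simp only [pow_comp, add_comp, mul_comp, X_comp, C_comp, C_add, C_sub, C_mul, C_pow]
  have : (C (2 : L) : L[X]) = 2 := by rfl
  rw [this]
  ring

theorem noSq_comp (hf : WP 1 4 f) (hs : s.natDegree ≤ 1) :
    NoSq (f.comp (X + C s)) ↔ NoSq f := by
  constructor
  · intro h p
    have h1 : fib 1 4 f p = (fib 1 4 (f.comp (X + C s)) p).comp (X + C (-(ev 1 s p))) := by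
      rw [fib_comp hf hs, comp_assoc]
      simp
    intro a b
    rw [h1]
    exact c6c_sq _ (h p) a b
  · intro h p
    intro a b
    rw [fib_comp hf hs]
    exact c6c_sq _ (h p) a b

theorem c6c_coeff_quart (c : L[X] × L[X] × L[X] × L[X]) :
    (quart c).coeff 4 = 1 ∧ (quart c).coeff 3 = c.1 ∧ (quart c).coeff 2 = c.2.1 ∧
      (quart c).coeff 1 = c.2.2.1 ∧ (quart c).coeff 0 = c.2.2.2 := by
  unfold quart
  simp only [coeff_add, coeff_X_pow, coeff_C_mul, coeff_X, coeff_C]
  norm_num

theorem c6c_fib_quart (c : L[X] × L[X] × L[X] × L[X]) (p : Option L) :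
    fib 1 4 (quart c) p = X ^ 4 + C (ev 1 c.1 p) * X ^ 3 + C (ev 2 c.2.1 p) * X ^ 2 +
      C (ev 3 c.2.2.1 p) * X + C (ev 4 c.2.2.2 p) := by
  obtain ⟨h4, h3, h2, h1, h0⟩ := c6c_coeff_quart c
  have hone : ev 0 (1 : L[X]) p = 1 := by
    have := ev_C_zero (p := p) (1 : L)
    rwa [C_1] at this
  unfold fib
  simp only [Finset.sum_range_succ, Finset.sum_range_zero, zero_add, Nat.sub_zero, Nat.sub_self,
    mul_zero, mul_one, one_mul]
  rw [show 4 - 1 = 3 from rfl, show 4 - 2 = 2 from rfl, show 4 - 3 = 1 from rfl, h4, h3, h2, h1,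
    h0, hone]
  simp

/-- `f = (Y^2 + a Y + b)^2 + A Y + B`: no fibre is a square iff `A`, `B` have no common zero -/
theorem noSq_iff (h2 : (2 : L) ≠ 0) {a b A B : L[X]} (ha : a.natDegree ≤ 1)
    (hb : b.natDegree ≤ 2) (hA : A.natDegree ≤ 3) (hB : B.natDegree ≤ 4) :
    NoSq ((X ^ 2 + C a * X + C b) ^ 2 + C A * X + C B : L[X][X]) ↔
      ∀ p : Option L, ¬ (ev 3 A p = 0 ∧ ev 4 B p = 0) := by
  have hq : ((X ^ 2 + C a * X + C b) ^ 2 + C A * X + C B : L[X][X]) =
      quart (2 * a, a ^ 2 + 2 * b, 2 * a * b + A, b ^ 2 + B) := by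
    unfold quart
    simp only [C_add, C_mul, C_pow]
    have : (C (2 : L[X]) : L[X][X]) = 2 := rfl
    rw [this]
    ring
  have hfib : ∀ p : Option L, fib 1 4 ((X ^ 2 + C a * X + C b) ^ 2 + C A * X + C B : L[X][X]) p =
      (X ^ 2 + C (ev 1 a p) * X + C (ev 2 b p)) ^ 2 + C (ev 3 A p) * X + C (ev 4 B p) := by
    intro p
    rw [hq, c6c_fib_quart]
    have e1 : ev 1 (2 * a) p = 2 * ev 1 a p := by
      have := ev_C_mul (n := 1) (P := a) (p := p) (2 : L)
      exact this
    have e2 : ev 2 (a ^ 2 + 2 * b) p = (ev 1 a p) ^ 2 + 2 * ev 2 b p := by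
      rw [ev_add]
      have h3 := ev_C_mul (n := 2) (P := b) (p := p) (2 : L)
      have h4 := ev_pow (m := 1) (P := a) (p := p) ha 2
      rw [one_mul] at h4
      rw [h4]
      congr 1
    have e3 : ev 3 (2 * a * b + A) p = 2 * ev 1 a p * ev 2 b p + ev 3 A p := by
      rw [ev_add]
      have h3 : ev (1 + 2) (2 * a * b) p = ev 1 (2 * a) p * ev 2 b p := by
        apply ev_mul _ hb
        have : (2 * a : L[X]) = C 2 * a := rfl
        rw [this, natDegree_C_mul h2]
        exact ha
      rw [show 3 = 1 + 2 from rfl, h3, e1]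
    have e4 : ev 4 (b ^ 2 + B) p = (ev 2 b p) ^ 2 + ev 4 B p := by
      rw [ev_add]
      have h4 := ev_pow (m := 2) (P := b) (p := p) hb 2
      rw [show 2 * 2 = 4 from rfl] at h4
      rw [h4]
    simp only [e1, e2, e3, e4, C_add, C_mul, C_pow]
    have : (C (2 : L) : L[X]) = 2 := rfl
    rw [this]
    ring
  constructor
  · rintro hn p ⟨h3, h4⟩
    apply hn p (ev 1 a p) (ev 2 b p)
    rw [hfib, h3, h4]
    simp
  · intro hn p α β hαβ
    rw [hfib] at hαβ
    have key : ∀ x y z t : L, (X ^ 2 + C x * X + C y) ^ 2 + C z * X + C t =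
        X ^ 4 + C (2 * x) * X ^ 3 + C (x ^ 2 + 2 * y) * X ^ 2 + C (2 * x * y + z) * X +
          C (y ^ 2 + t) := by
      intro x y z t
      simp only [C_add, C_mul, C_pow]
      have : (C (2 : L) : L[X]) = 2 := rfl
      rw [this]
      ring
    have key0 := key α β 0 0
    rw [C_0, zero_mul, add_zero, add_zero] at key0
    rw [key, key0] at hαβ
    have c3 := congrArg (fun P : L[X] => P.coeff 3) hαβ
    have c2 := congrArg (fun P : L[X] => P.coeff 2) hαβ
    have c1 := congrArg (fun P : L[X] => P.coeff 1) hαβ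
    have c0 := congrArg (fun P : L[X] => P.coeff 0) hαβ
    simp only [coeff_add, coeff_X_pow, coeff_C_mul, coeff_X, coeff_C] at c3 c2 c1 c0
    norm_num at c3 c2 c1 c0
    have c3' : ev 1 a p = α := by
      rcases c3 with h | h
      · exact h
      · exact absurd h h2
    rw [c3'] at c2 c1
    have c2' : ev 2 b p = β := by
      have : (2 : L) * ev 2 b p = 2 * β := by
        first
          | exact c2
          | linear_combination c2
          | (rcases c2 with h | h
             · rw [h]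
             · exact absurd h h2)
      exact mul_left_cancel₀ h2 this
    rw [c2'] at c1 c0
    apply hn p
    constructor
    · first
        | exact c1
        | linear_combination c1
    · first
        | exact c0
        | linear_combination c0

/-- a quartic without square fibre has no double section (over an algebraically closed field) -/
theorem noSq_not_double [IsAlgClosed L] (h2 : (2 : L) ≠ 0) (hf : WP 1 4 f) (hq : NoSq f)
    (hs : s.natDegree ≤ 1) : ¬ (X - C s) ^ 2 ∣ f := by
  rintro ⟨k, hk⟩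
  have h0 : f.eval s = 0 := by
    rw [hk]; simp
  obtain ⟨g, hg, hfg⟩ := exists_factor (d := 3) hf hs h0
  have hXs : (X - C s : L[X][X]) ≠ 0 := X_sub_C_ne_zero s
  have hgk : g = (X - C s) * k := by
    apply mul_left_cancel₀ hXs
    rw [← hfg, hk]; ring
  have h1 : g.eval s = 0 := by
    rw [hgk]; simp
  obtain ⟨h, hh, hgh⟩ := exists_factor (d := 2) hg hs h1
  have hd1 : (h.coeff 1).natDegree ≤ 1 := by
    have := hh.2.2 1 (by norm_num)
    simpa using this
  have hd0 : (h.coeff 0).natDegree ≤ 2 := by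
    have := hh.2.2 2 (by norm_num)
    simpa using this
  have h4C : ∀ c : L[X], (4 : L[X]) * c = C 4 * c := fun c => rfl
  have hdeg : ((h.coeff 1) ^ 2 - 4 * h.coeff 0).natDegree ≤ 2 := by
    refine (natDegree_sub_le _ _).trans (max_le ?_ ?_)
    · exact natDegree_pow_le.trans (by omega)
    · rw [h4C]
      exact (natDegree_C_mul_le _ _).trans hd0
  obtain ⟨p, hp⟩ := exists_zero (n := 2) (by norm_num) hdeg
  have hpe : (ev 1 (h.coeff 1) p) ^ 2 = 4 * ev 2 (h.coeff 0) p := by
    rw [ev_sub, h4C, ev_C_mul] at hp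
    have h5 := ev_pow (m := 1) (P := h.coeff 1) (p := p) hd1 2
    rw [one_mul] at h5
    rw [h5] at hp
    exact sub_eq_zero.mp hp
  have hfibh : fib 1 2 h p = X ^ 2 + C (ev 1 (h.coeff 1) p) * X + C (ev 2 (h.coeff 0) p) := by
    have hone : ev 0 (h.coeff 2) p = 1 := by
      have h5 : h.coeff 2 = 1 := by
        have := hh.1.leadingCoeff
        rwa [leadingCoeff, hh.2.1] at this
      rw [h5]
      have := ev_C_zero (p := p) (1 : L)
      rwa [C_1] at this
    unfold fib
    simp only [Finset.sum_range_succ, Finset.sum_range_zero, zero_add, Nat.sub_zero, Nat.sub_self,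
      mul_zero, mul_one, one_mul]
    rw [show 2 - 1 = 1 from rfl, hone]
    simp
  have hfib : fib 1 4 f p = (X - C (ev 1 s p)) * ((X - C (ev 1 s p)) * fib 1 2 h p) := by
    have e1 : fib 1 3 g p = (X - C (ev 1 s p)) * fib 1 2 h p := by
      rw [hgh]
      have := fib_mul (p := p) (WP_X_sub_C hs) hh
      rw [fib_X_sub_C hs] at this
      exact this
    have e2 : fib 1 4 f p = (X - C (ev 1 s p)) * fib 1 3 g p := by
      rw [hfg]
      have := fib_mul (p := p) (WP_X_sub_C hs) hg
      rw [fib_X_sub_C hs] at this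
      exact this
    rw [e2, e1]
  obtain ⟨α, hα⟩ : ∃ α, α = ev 1 (h.coeff 1) p / 2 := ⟨_, rfl⟩
  have hα1 : ev 1 (h.coeff 1) p = 2 * α := by
    rw [hα]; field_simp
  have hα0 : ev 2 (h.coeff 0) p = α ^ 2 := by
    have h4 : (4 : L) ≠ 0 := by
      have : (4 : L) = 2 * 2 := by norm_num
      rw [this]; exact mul_ne_zero h2 h2
    apply mul_left_cancel₀ h4
    rw [← hpe, hα1]; ring
  apply hq p (α - ev 1 s p) (-(ev 1 s p) * α)
  rw [hfib, hfibh, hα1, hα0]
  simp only [C_sub, C_mul, C_neg, C_pow]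
  have : (C (2 : L) : L[X]) = 2 := rfl
  rw [this]
  ring

end

section
variable {K : Type*} [Field K] [Fintype K] {w d : ℕ} {f : K[X][X]} {p : P1 K} {v : Om K}

theorem c6c_map_injective :
    Function.Injective (mapRingHom (algebraMap K (Om K)) : K[X] →+* (Om K)[X]) := by
  intro a b hab
  exact up_injective (by unfold up; exact hab)

theorem c6c_coeff_up2 (f : K[X][X]) (i : ℕ) : (up2 f).coeff i = up (f.coeff i) := by
  unfold up2
  rw [coeff_map]
  rfl

theorem WP_up2 (hf : WP w d f) : WP w d (up2 f) := by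
  refine ⟨hf.1.map _, ?_, ?_⟩
  · unfold up2
    rw [hf.1.natDegree_map, hf.2.1]
  · intro i hi
    rw [c6c_coeff_up2, natDegree_up]
    exact hf.2.2 i hi

theorem c6c_map_phi (f : K[X][X]) : (up2 f).map (phi K) = up2 f := by
  ext1 i
  rw [coeff_map, c6c_coeff_up2, phi_up]

theorem c6c_eval_phi {g : (Om K)[X][X]} (hg : g.map (phi K) = g) (s : (Om K)[X]) :
    g.eval (phi K s) = phi K (g.eval s) := by
  conv_lhs => rw [← hg]
  rw [eval_map, eval₂_hom]

theorem sing_frob (hf : WP w d f) (h : Sing w d (up2 f) p v) :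
    Sing w d (up2 f) (frob K p) (v ^ Fintype.card K) := by
  obtain ⟨s, hs, hv, h1, h2⟩ := h
  have hd : (up2 f).derivative.map (phi K) = (up2 f).derivative := by
    rw [← derivative_map, c6c_map_phi]
  refine ⟨phi K s, ?_, ?_, ?_, ?_⟩
  · rw [natDegree_phi]; exact hs
  · rw [ev_phi, hv]
  · rw [c6c_eval_phi hd, ev_phi, h1, zero_pow Fintype.card_ne_zero]
  · rw [c6c_eval_phi (c6c_map_phi f), dv_phi]
    exact h2

theorem bad_frob (hf : WP w d f) (h : Bad w d (up2 f) p) : Bad w d (up2 f) (frob K p) := by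
  obtain ⟨v, hv⟩ := h
  exact ⟨_, sing_frob hf hv⟩

theorem up2_comp (f : K[X][X]) (s : K[X]) :
    up2 (f.comp (X + C s)) = (up2 f).comp (X + C (up s)) := by
  unfold up2
  rw [Polynomial.map_comp, Polynomial.map_add, map_X, map_C]
  rfl

theorem up2_mul (f g : K[X][X]) : up2 (f * g) = up2 f * up2 g := by
  unfold up2
  rw [Polynomial.map_mul]

theorem up2_injective : Function.Injective (up2 : K[X][X] → (Om K)[X][X]) :=
  Polynomial.map_injective _ c6c_map_injective

theorem mem_C3 {a : K[X] × K[X] × K[X]} : a ∈ C3 K ↔ WP 2 3 (cub a) := by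
  unfold C3
  rw [Finset.mem_product, Finset.mem_product, mem_V, mem_V, mem_V]
  constructor
  · rintro ⟨h1, h2, h3⟩
    exact WP_cub h1 h2 h3
  · intro h
    have h1 := cub_injective (eq_cub h)
    have e1 : (cub a).coeff 2 = a.1 := congrArg (fun x => x.1) h1.symm
    have e2 : (cub a).coeff 1 = a.2.1 := congrArg (fun x => x.2.1) h1.symm
    have e3 : (cub a).coeff 0 = a.2.2 := congrArg (fun x => x.2.2) h1.symm
    refine ⟨?_, ?_, ?_⟩
    · have := h.2.2 1 (by norm_num)
      rw [← e1]; simpa using this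
    · have := h.2.2 2 (by norm_num)
      rw [← e2]; simpa using this
    · have := h.2.2 3 (by norm_num)
      rw [← e3]; simpa using this

theorem mem_Q4 {c : K[X] × K[X] × K[X] × K[X]} :
    c ∈ Q4 K ↔ WP 1 4 (quart c) ∧ NoSq (up2 (quart c)) := by
  unfold Q4
  rw [Finset.mem_filter, Finset.mem_product, Finset.mem_product, Finset.mem_product, mem_V, mem_V,
    mem_V, mem_V]
  apply and_congr_left
  intro _
  constructor
  · rintro ⟨h1, h2, h3, h4⟩
    exact WP_quart h1 h2 h3 h4
  · intro h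
    obtain ⟨-, e1, e2, e3, e4⟩ := c6c_coeff_quart c
    refine ⟨?_, ?_, ?_, ?_⟩
    · have := h.2.2 1 (by norm_num)
      rw [← e1]; simpa using this
    · have := h.2.2 2 (by norm_num)
      rw [← e2]; simpa using this
    · have := h.2.2 3 (by norm_num)
      rw [← e3]; simpa using this
    · have := h.2.2 4 (by norm_num)
      rw [← e4]; simpa using this

end

end
end Pool.Agent.Helper19.DP1
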