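import Mathlib

/-!
# Average number of lines on degree 1 del Pezzo surfaces (MP_a9e003_ag): definitions

`K` is a finite field with `2 ≠ 0`, `Om K` its algebraic closure, `q = #K`.
A binary form of degree `n` over a field `L` is represented by a polynomial `P : L[X]` with
`P.natDegree ≤ n` (dehomogenised); a point of `P^1(L)` is an element of `Option L` (`none` is the
point at infinity), and `ev n P p` is the value of the form at the point (with respect to the
standard representatives `(t,1)` and `(1,0)`).
-/

namespace Pool.Agent.Helper19.DP1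

open Polynomial Classical

noncomputable section

/-! ### combinatorics of a map `φ` on a type -/

section comb
variable {P : Type*}

/-- a finite set stable under `φ` -/
def IsStabG (φ : P → P) (T : Finset P) : Prop := ∀ x ∈ T, φ x ∈ T

/-- forward orbit -/
def orbG (φ : P → P) (x : P) : Set P := {y | ∃ n : ℕ, y = φ^[n] x}

/-- `(-1)^(number of φ-orbits)` for stable `T`, `0` for unstable `T` -/
def muG (φ : P → P) (T : Finset P) : ℤ :=
  if IsStabG φ T then (-1) ^ (Set.ncard (orbG φ '' (T : Set P))) else 0

end comb

/-! ### forms over a field `L` -/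

section forms
variable {L : Type*} [Field L]

/-- value of the form `P` of degree `n` at a point of `P^1(L)` -/
def ev (n : ℕ) (P : L[X]) : Option L → L
  | none => P.coeff n
  | some t => P.eval t

/-- the form `P` of degree `n` vanishes doubly at the point (used for `n ≥ 1`) -/
def dv (n : ℕ) (P : L[X]) : Option L → Prop
  | none => P.coeff n = 0 ∧ P.coeff (n - 1) = 0
  | some t => P.eval t = 0 ∧ P.derivative.eval t = 0

/-- the linear form vanishing exactly at `p` -/
def lin : Option L → L[X]
  | none => 1
  | some t => X - C t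

/-- the product of the linear forms of the points of `T`, a form of degree `T.card` -/
def BT (T : Finset (Option L)) : L[X] := ∏ p ∈ T, lin p

/-- discriminant of a quadratic form -/
def disc2 (P : L[X]) : L := (P.coeff 1) ^ 2 - 4 * P.coeff 2 * P.coeff 0

/-- polar form of `disc2` : `disc2 (P+R) = disc2 P + pol2 P R + disc2 R` -/
def pol2 (P R : L[X]) : L :=
  2 * P.coeff 1 * R.coeff 1 - 4 * P.coeff 2 * R.coeff 0 - 4 * R.coeff 2 * P.coeff 0

/-- `f` (a polynomial in `Y` over `L[X]`) is monic of degree `d` in `Y` and the coefficient of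
`Y^(d-i)` is a form of degree `w*i`. -/
def WP (w d : ℕ) (f : L[X][X]) : Prop :=
  f.Monic ∧ f.natDegree = d ∧ ∀ i ≤ d, (f.coeff (d - i)).natDegree ≤ w * i

/-- the curve `f = 0` is singular at the point with base point `p` and fibre coordinate `v`
(tested along one section through the point; the choice of the section does not matter) -/
def Sing (w d : ℕ) (f : L[X][X]) (p : Option L) (v : L) : Prop :=
  ∃ s : L[X], s.natDegree ≤ w ∧ ev w s p = v ∧
    ev (w * (d - 1)) (f.derivative.eval s) p = 0 ∧ dv (w * d) (f.eval s) p

/-- there is a singular point over `p` -/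
def Bad (w d : ℕ) (f : L[X][X]) (p : Option L) : Prop := ∃ v, Sing w d f p v

/-- the fibre of `f` over `p`, a monic polynomial of degree `d` over `L` -/
def fib (w d : ℕ) (f : L[X][X]) (p : Option L) : L[X] :=
  ∑ i ∈ Finset.range (d + 1), C (ev (w * i) (f.coeff (d - i)) p) * X ^ (d - i)

/-- no fibre of the quartic `f` is a square -/
def NoSq (f : L[X][X]) : Prop :=
  ∀ p : Option L, ∀ a b : L, fib 1 4 f p ≠ (X ^ 2 + C a * X + C b) ^ 2

/-- the points of `T` are singular and their singular points lie on one section of degree 1 -/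
def Coll (f : L[X][X]) (T : Finset (Option L)) : Prop :=
  ∃ s : L[X], s.natDegree ≤ 1 ∧ ∀ p ∈ T, Sing 1 4 f p (ev 1 s p)

/-- monic cubic in `Y` from three coefficients -/
def cub (a : L[X] × L[X] × L[X]) : L[X][X] :=
  X ^ 3 + C a.1 * X ^ 2 + C a.2.1 * X + C a.2.2

/-- monic quartic in `Y` from four coefficients -/
def quart (c : L[X] × L[X] × L[X] × L[X]) : L[X][X] :=
  X ^ 4 + C c.1 * X ^ 3 + C c.2.1 * X ^ 2 + C c.2.2.1 * X + C c.2.2.2

/-! #### the symmetry moving a point `r` of `P^1` to infinity -/

/-- action on forms of degree `n` -/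
def sym (r : Option L) (n : ℕ) (P : L[X]) : L[X] :=
  match r with
  | none => P
  | some c => (P.comp (X + C c)).reflect n

/-- action on points -/
def symP (r : Option L) (p : Option L) : Option L :=
  match r with
  | none => p
  | some c =>
    match p with
    | none => some 0
    | some t => if t = c then none else some ((t - c)⁻¹)

/-- the scaling unit -/
def symU (r : Option L) (p : Option L) : L :=
  match r with
  | none => 1
  | some c =>
    match p with
    | none => 1
    | some t => if t = c then 1 else (t - c)⁻¹

/-- action on monic polynomials of degree `d` in `Y` -/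
def symY (w d : ℕ) (r : Option L) (f : L[X][X]) : L[X][X] :=
  ∑ i ∈ Finset.range (d + 1), C (sym r (w * i) (f.coeff (d - i))) * X ^ (d - i)

end forms

/-! ### the finite field -/

section fin
variable (K : Type*) [Field K] [Fintype K]

/-- the algebraic closure -/
abbrev Om := AlgebraicClosure K

/-- the projective line over the algebraic closure -/
abbrev P1 := Option (Om K)

/-- Frobenius on points -/
def frob : P1 K → P1 K := Option.map (fun x => x ^ Fintype.card K)

/-- Frobenius on forms over the algebraic closure -/
def phi : (Om K)[X] →+* (Om K)[X] :=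
  mapRingHom (FiniteField.frobeniusAlgHom K (Om K)).toRingHom

/-- `(-1)^(number of Frobenius orbits)` for stable finite sets -/
def mu (T : Finset (P1 K)) : ℤ := muG (frob K) T

/-- stable finite sets of size `l` in `P^1` -/
def Stab (l : ℕ) : Finset (Finset (P1 K)) :=
  if h : {T : Finset (P1 K) | IsStabG (frob K) T ∧ T.card = l}.Finite then h.toFinset else ∅

/-- forms of degree `n` over `K`, as a finite set of polynomials -/
def V (n : ℕ) : Finset K[X] :=
  (Finset.univ : Finset (Fin (n + 1) → K)).image (fun c => ∑ i : Fin (n + 1), C (c i) * X ^ (i : ℕ))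

variable {K}

/-- base change of forms to the algebraic closure -/
def up (P : K[X]) : (Om K)[X] := P.map (algebraMap K (Om K))

/-- base change of polynomials in `Y` -/
def up2 (f : K[X][X]) : (Om K)[X][X] := f.map (mapRingHom (algebraMap K (Om K)))

/-- rational points of `P^1` -/
def upP (r : Option K) : P1 K := r.map (algebraMap K (Om K))

/-- the set of zeros in `P^1` over the algebraic closure of a nonzero form of degree `n` -/
def Zf (n : ℕ) (P : K[X]) : Finset (P1 K) :=
  if h : {p : P1 K | ev n (up P) p = 0}.Finite then h.toFinset else ∅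

/-- the Moebius function of nonzero polynomials over `K` (`0` if there is a multiple root) -/
def mob (P : K[X]) : ℤ :=
  if P ≠ 0 ∧ (Zf P.natDegree P).card = P.natDegree then mu K (Zf P.natDegree P) else 0

variable (K)

/-- monic polynomials of degree `n` -/
def Mon (n : ℕ) : Finset K[X] :=
  (Finset.univ : Finset (Fin n → K)).image (fun c => X ^ n + ∑ i : Fin n, C (c i) * X ^ (i : ℕ))

/-- coefficient triples `(a2,a4,a6)` -/
def C3 : Finset (K[X] × K[X] × K[X]) := V K 2 ×ˢ V K 4 ×ˢ V K 6

/-- coefficient quadruples `(c1,c2,c3,c4)` such that no fibre of the quartic is a square -/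
def Q4 : Finset (K[X] × K[X] × K[X] × K[X]) :=
  (V K 1 ×ˢ V K 2 ×ˢ V K 3 ×ˢ V K 4).filter (fun c => NoSq (up2 (quart c)))

/-- the sums of the inclusion-exclusion for the family of all sextics -/
def SU (l : ℕ) : ℤ :=
  ∑ a ∈ C3 K, ∑ T ∈ (Stab K l).filter (fun T => ∀ p ∈ T, Bad 2 3 (up2 (cub a)) p), mu K T

/-- partial sums of the inclusion-exclusion for quartics, restricted by a condition `G` -/
def SVG (l : ℕ) (G : K[X][X] → Finset (P1 K) → Prop) : ℤ :=
  ∑ c ∈ Q4 K, ∑ T ∈ (Stab K l).filter
    (fun T => (∀ p ∈ T, Bad 1 4 (up2 (quart c)) p) ∧ G (quart c) T), mu K T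

/-- the sums of the inclusion-exclusion for the family of quartics -/
def SV (l : ℕ) : ℤ := SVG K l (fun _ _ => True)

/-- order of `GL_2` -/
def G2 : ℤ := (Fintype.card K : ℤ) * ((Fintype.card K : ℤ) - 1) ^ 2 * ((Fintype.card K : ℤ) + 1)

/-- sums of `mu` over stable sets disjoint from `S` -/
def MS (S : Finset (P1 K)) (l : ℕ) : ℤ := ∑ T ∈ (Stab K l).filter (fun T => Disjoint T S), mu K T

/-- sums of `mu` over subsets of `S` of size `j` -/
def eS (S : Finset (P1 K)) (j : ℕ) : ℤ := ∑ T ∈ S.powersetCard j, mu K T

/-- twisted forms of `K^n`: functions `x` on `Fin n` with `x_i^q = x_(σ i)` -/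
def Rs {n : ℕ} (σ : Equiv.Perm (Fin n)) : Set (Fin n → Om K) :=
  {x | ∀ i, x i ^ Fintype.card K = x (σ i)}

end fin

end

end Pool.Agent.Helper19.DP1
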