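import Pool.Agent.Helper19.DP1.FGroup

/-! Substitutions acting on sextics: transformation of the equation, smoothness, lines. -/

namespace Pool.Agent.Helper19.DP1

open MvPolynomial

noncomputable section

section
variable {K : Type*} [Field K]

theorem sext_injective : Function.Injective (sext : _ → MvPolynomial (Fin 4) K) := by
  intro a a' h
  -- substitute `x0,x1` and `z = 0`, `1`, `-1`... use the evaluation to polynomials in `z`
  have key : ∀ (P2 P4 P6 Q2 Q4 Q6 : MvPolynomial (Fin 2) K),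
      (X 3 ^ 2 - (X 2 ^ 3 + inc P2 * X 2 ^ 2 + inc P4 * X 2 + inc P6) : MvPolynomial (Fin 4) K) =
        X 3 ^ 2 - (X 2 ^ 3 + inc Q2 * X 2 ^ 2 + inc Q4 * X 2 + inc Q6) → P2 = Q2 ∧ P4 = Q4 ∧ P6 = Q6 := by
    intro P2 P4 P6 Q2 Q4 Q6 hPQ
    -- map to `(MvPolynomial (Fin 2) K)[Z]`
    let ev : MvPolynomial (Fin 4) K →ₐ[K] Polynomial (MvPolynomial (Fin 2) K) :=
      aeval ![Polynomial.C (X 0), Polynomial.C (X 1), Polynomial.X, 0]
    have hinc : ∀ P : MvPolynomial (Fin 2) K, ev (inc P) = Polynomial.C P := by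
      intro P
      have : ev.comp inc = (Polynomial.CAlgHom (R := K) (A := MvPolynomial (Fin 2) K)) := by
        apply MvPolynomial.algHom_ext
        intro i
        rw [AlgHom.comp_apply]
        fin_cases i
        · show ev (inc (X 0)) = _
          rw [inc_X0]; simp [ev]
        · show ev (inc (X 1)) = _
          rw [inc_X1]; simp [ev]
      exact DFunLike.congr_fun this P
    have h1 := congrArg ev hPQ
    simp only [map_sub, map_add, map_mul, map_pow, hinc] at h1
    have hX2 : ev (X 2) = Polynomial.X := by simp [ev]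
    have hX3 : ev (X 3) = 0 := by simp [ev]
    rw [hX2, hX3] at h1
    have h2 : (Polynomial.X ^ 3 + Polynomial.C P2 * Polynomial.X ^ 2 + Polynomial.C P4 * Polynomial.X +
        Polynomial.C P6 : Polynomial (MvPolynomial (Fin 2) K)) =
        Polynomial.X ^ 3 + Polynomial.C Q2 * Polynomial.X ^ 2 + Polynomial.C Q4 * Polynomial.X +
        Polynomial.C Q6 := by
      linear_combination -h1
    refine ⟨?_, ?_, ?_⟩
    · have := congrArg (fun p => Polynomial.coeff p 2) h2
      simpa [Polynomial.coeff_X, Polynomial.coeff_C] using this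
    · have := congrArg (fun p => Polynomial.coeff p 1) h2
      simpa [Polynomial.coeff_X, Polynomial.coeff_C, Polynomial.coeff_X_pow] using this
    · have := congrArg (fun p => Polynomial.coeff p 0) h2
      simpa [Polynomial.coeff_X, Polynomial.coeff_C, Polynomial.coeff_X_pow] using this
  obtain ⟨h2, h4, h6⟩ := key _ _ _ _ _ _ h
  ext1
  · exact bf_injective 2 h2
  · ext1
    · exact bf_injective 4 h4
    · exact bf_injective 6 h6

theorem C_mul_sext_injective {c c' : K} {a a' : (Fin 3 → K) × (Fin 5 → K) × (Fin 7 → K)}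
    (h : C c * sext a = C c' * sext a') (hc : c ≠ 0) : c = c' ∧ a = a' := by
  -- coefficient of `y^2`
  have h1 : ∀ (b : (Fin 3 → K) × (Fin 5 → K) × (Fin 7 → K)),
      aeval (![0, 0, 0, 1] : Fin 4 → K) (sext b) = 1 := by
    intro b
    have hinc : ∀ n (f : Fin (n + 1 + 1) → K), aeval (![0, 0, 0, 1] : Fin 4 → K) (inc (bf (n + 1) f)) = 0 := by
      intro n f
      unfold bf
      rw [map_sum, map_sum]
      apply Finset.sum_eq_zero
      intro i _
      simp only [map_mul, map_pow, inc_X0, inc_X1, inc_C, aeval_X]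
      have : (i : ℕ) ≠ 0 ∨ n + 1 - (i : ℕ) ≠ 0 := by omega
      rcases this with h | h
      · simp [zero_pow h]
      · simp [zero_pow h]
    unfold sext
    rw [map_sub, map_add, map_add, map_add, map_mul, map_mul, hinc 1, hinc 3, hinc 5]
    simp
  have h2 := congrArg (aeval (![0, 0, 0, 1] : Fin 4 → K)) h
  rw [map_mul, map_mul, h1, h1] at h2
  simp only [algHom_C, Algebra.algebraMap_self, RingHom.id_apply, mul_one] at h2
  refine ⟨h2, ?_⟩
  subst h2
  apply sext_injective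
  exact mul_left_cancel₀ (by simpa using hc) h

/-- transformation of the equation -/
theorem IsSub.apply_sext {ψ : MvPolynomial (Fin 4) K ≃ₐ[K] MvPolynomial (Fin 4) K}
    {g : Matrix.GeneralLinearGroup (Fin 2) K} {e : Kˣ} {s : Fin 3 → K} (h : IsSub ψ g e s)
    (a : (Fin 3 → K) × (Fin 5 → K) × (Fin 7 → K)) :
    ∃ a', ψ (sext a) = C ((e : K) ^ 6) * sext a' := by
  have he : ∀ n : ℕ, C (((e⁻¹ : Kˣ) : K) ^ n) * C ((e : K) ^ n) = (1 : MvPolynomial (Fin 2) K) := by
    intro n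
    rw [← map_mul, ← mul_pow, Units.inv_mul, one_pow, map_one]
  have hs := bf_homog 2 s
  have ha2 := sub2_homog g (bf_homog 2 a.1)
  have ha4 := sub2_homog g (bf_homog 4 a.2.1)
  have ha6 := sub2_homog g (bf_homog 6 a.2.2)
  have hCh : ∀ (n : ℕ) (c : K) {P : MvPolynomial (Fin 2) K}, P.IsHomogeneous n → (C c * P).IsHomogeneous n := by
    intro n c P hP
    have := (isHomogeneous_C (Fin 2) c).mul hP
    rwa [zero_add] at this
  obtain ⟨b2, hb2⟩ := exists_bf (n := 2)
    (P := C (((e⁻¹ : Kˣ) : K) ^ 2) * (C 3 * bf 2 s + sub2 g (bf 2 a.1)))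
    (hCh 2 _ ((hCh 2 _ hs).add ha2))
  obtain ⟨b4, hb4⟩ := exists_bf (n := 4)
    (P := C (((e⁻¹ : Kˣ) : K) ^ 4) * (C 3 * (bf 2 s * bf 2 s) + C 2 * (bf 2 s * sub2 g (bf 2 a.1)) +
      sub2 g (bf 4 a.2.1)))
    (hCh 4 _ (((hCh 4 _ (hs.mul hs)).add (hCh 4 _ (hs.mul ha2))).add ha4))
  obtain ⟨b6, hb6⟩ := exists_bf (n := 6)
    (P := C (((e⁻¹ : Kˣ) : K) ^ 6) * (bf 2 s * (bf 2 s * bf 2 s) + sub2 g (bf 2 a.1) * (bf 2 s * bf 2 s) +
      sub2 g (bf 4 a.2.1) * bf 2 s + sub2 g (bf 6 a.2.2)))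
    (hCh 6 _ ((((hs.mul (hs.mul hs)).add (ha2.mul (hs.mul hs))).add (ha4.mul hs)).add ha6))
  refine ⟨(b2, b4, b6), ?_⟩
  have e6 : ∀ n : ℕ, inc (C (((e⁻¹ : Kˣ) : K) ^ n)) * C ((e : K) ^ n) = (1 : MvPolynomial (Fin 4) K) := by
    intro n
    rw [inc_C, ← map_mul, ← mul_pow, Units.inv_mul, one_pow, map_one]
  unfold sext
  simp only [map_sub, map_add, map_mul, map_pow ψ, h.2.2.2, h.2.2.1, h.inc_apply]
  rw [← hb2, ← hb4, ← hb6]
  simp only [map_mul, map_add, map_pow, inc_C] at e6 ⊢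
  have e62 := e6 2
  have e64 := e6 4
  have e66 := e6 6
  generalize (C (e : K) : MvPolynomial (Fin 4) K) = E at *
  generalize (C ((e⁻¹ : Kˣ) : K) : MvPolynomial (Fin 4) K) = E' at *
  generalize inc (bf 2 s) = S at *
  generalize inc (sub2 g (bf 2 a.1)) = A2 at *
  generalize inc (sub2 g (bf 4 a.2.1)) = A4 at *
  generalize inc (sub2 g (bf 6 a.2.2)) = A6 at *
  have h3 : (C 3 : MvPolynomial (Fin 4) K) = 3 := map_ofNat C 3
  have h2 : (C 2 : MvPolynomial (Fin 4) K) = 2 := map_ofNat C 2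
  rw [h3, h2]
  linear_combination (E ^ 4 * (3 * S + A2) * X 2 ^ 2) * e62 + (E ^ 2 * (3 * (S * S) + 2 * (S * A2) + A4) * X 2) * e64
    + (S * (S * S) + A2 * (S * S) + A4 * S + A6) * e66

end

end

end Pool.Agent.Helper19.DP1
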