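import Pool.Agent.Helper19.DP1.FInv

/-! The order of the group of substitutions. -/

namespace Pool.Agent.Helper19.DP1

open MvPolynomial

noncomputable section

section
variable {K : Type*} [Field K]

/-- the values of a substitution on the variables -/
def subVal (g : Matrix.GeneralLinearGroup (Fin 2) K) (e : Kˣ) (s : Fin 3 → K) :
    Fin 4 → MvPolynomial (Fin 4) K :=
  ![inc (lin2 g 0), inc (lin2 g 1), C ((e : K) ^ 2) * X 2 + inc (bf 2 s), C ((e : K) ^ 3) * X 3]

theorem subVal_inc (g : Matrix.GeneralLinearGroup (Fin 2) K) (e : Kˣ) (s : Fin 3 → K)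
    (P : MvPolynomial (Fin 2) K) : aeval (subVal g e s) (inc P) = inc (sub2 g P) := by
  have : (aeval (subVal g e s)).comp inc = inc.comp (sub2 g) := by
    apply MvPolynomial.algHom_ext
    intro i
    rw [AlgHom.comp_apply, AlgHom.comp_apply]
    fin_cases i
    · show aeval _ (inc (X 0)) = inc (sub2 g (X 0))
      rw [inc_X0, aeval_X]
      simp [sub2, subVal]
    · show aeval _ (inc (X 1)) = inc (sub2 g (X 1))
      rw [inc_X1, aeval_X]
      simp [sub2, subVal]
  exact DFunLike.congr_fun this P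

theorem exists_IsSub (g : Matrix.GeneralLinearGroup (Fin 2) K) (e : Kˣ) (s : Fin 3 → K) :
    ∃ ψ, IsSub ψ g e s := by
  obtain ⟨s', hs'⟩ := exists_bf (n := 2)
    (P := - (C (((e⁻¹ : Kˣ) : K) ^ 2) * sub2 g⁻¹ (bf 2 s))) (by
      apply IsHomogeneous.neg
      have := (isHomogeneous_C (Fin 2) (((e⁻¹ : Kˣ) : K) ^ 2)).mul
        (sub2_homog g⁻¹ (bf_homog 2 s))
      rwa [zero_add] at this)
  have h1 : ∀ n : ℕ, C (((e⁻¹ : Kˣ) : K) ^ n) * C ((e : K) ^ n) = (1 : MvPolynomial (Fin 4) K) := by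
    intro n
    rw [← map_mul, ← mul_pow, Units.inv_mul, one_pow, map_one]
  have hC2 : sub2 g (C (((e⁻¹ : Kˣ) : K) ^ 2)) = C (((e⁻¹ : Kˣ) : K) ^ 2) := by
    simp [sub2]
  have hleft : (aeval (subVal g e s)).comp (aeval (subVal g⁻¹ e⁻¹ s')) =
      AlgHom.id K (MvPolynomial (Fin 4) K) := by
    apply MvPolynomial.algHom_ext
    intro i
    rw [AlgHom.comp_apply, aeval_X]
    fin_cases i
    · show aeval (subVal g e s) (inc (lin2 g⁻¹ 0)) = X 0
      rw [subVal_inc, sub2_lin2, inv_mul_cancel, lin2_one, inc_X0]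
    · show aeval (subVal g e s) (inc (lin2 g⁻¹ 1)) = X 1
      rw [subVal_inc, sub2_lin2, inv_mul_cancel, lin2_one, inc_X1]
    · show aeval (subVal g e s) (C (((e⁻¹ : Kˣ) : K) ^ 2) * X 2 + inc (bf 2 s')) = X 2
      rw [map_add, map_mul, subVal_inc, ← hs', aeval_X, algHom_C, algebraMap_eq]
      show C (((e⁻¹ : Kˣ) : K) ^ 2) * (C ((e : K) ^ 2) * X 2 + inc (bf 2 s)) + _ = X 2
      rw [map_neg, map_mul, map_neg, map_mul, sub2_sub2_inv, hC2, inc_C]
      linear_combination (X 2 : MvPolynomial (Fin 4) K) * h1 2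
    · show aeval (subVal g e s) (C (((e⁻¹ : Kˣ) : K) ^ 3) * X 3) = X 3
      rw [map_mul, aeval_X, algHom_C, algebraMap_eq]
      show C (((e⁻¹ : Kˣ) : K) ^ 3) * (C ((e : K) ^ 3) * X 3) = X 3
      linear_combination (X 3 : MvPolynomial (Fin 4) K) * h1 3
  have hright : (aeval (subVal g⁻¹ e⁻¹ s')).comp (aeval (subVal g e s)) =
      AlgHom.id K (MvPolynomial (Fin 4) K) := by
    apply MvPolynomial.algHom_ext
    intro i
    rw [AlgHom.comp_apply, aeval_X]
    fin_cases i
    · show aeval (subVal g⁻¹ e⁻¹ s') (inc (lin2 g 0)) = X 0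
      rw [subVal_inc, sub2_lin2, mul_inv_cancel, lin2_one, inc_X0]
    · show aeval (subVal g⁻¹ e⁻¹ s') (inc (lin2 g 1)) = X 1
      rw [subVal_inc, sub2_lin2, mul_inv_cancel, lin2_one, inc_X1]
    · show aeval (subVal g⁻¹ e⁻¹ s') (C ((e : K) ^ 2) * X 2 + inc (bf 2 s)) = X 2
      rw [map_add, map_mul, subVal_inc, aeval_X, algHom_C, algebraMap_eq]
      show C ((e : K) ^ 2) * (C (((e⁻¹ : Kˣ) : K) ^ 2) * X 2 + inc (bf 2 s')) + _ = X 2
      rw [← hs', map_neg, map_mul, inc_C]
      linear_combination (X 2 - inc (sub2 g⁻¹ (bf 2 s)) : MvPolynomial (Fin 4) K) * h1 2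
    · show aeval (subVal g⁻¹ e⁻¹ s') (C ((e : K) ^ 3) * X 3) = X 3
      rw [map_mul, aeval_X, algHom_C, algebraMap_eq]
      show C ((e : K) ^ 3) * (C (((e⁻¹ : Kˣ) : K) ^ 3) * X 3) = X 3
      linear_combination (X 3 : MvPolynomial (Fin 4) K) * h1 3
  refine ⟨AlgEquiv.ofAlgHom (aeval (subVal g e s)) (aeval (subVal g⁻¹ e⁻¹ s')) hleft hright,
    ?_, ?_, ?_, ?_⟩
  · show aeval (subVal g e s) (X 0) = _
    rw [aeval_X]; rfl
  · show aeval (subVal g e s) (X 1) = _
    rw [aeval_X]; rfl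
  · show aeval (subVal g e s) (X 2) = _
    rw [aeval_X]; rfl
  · show aeval (subVal g e s) (X 3) = _
    rw [aeval_X]; rfl

theorem IsSub.ext {ψ ψ' : MvPolynomial (Fin 4) K ≃ₐ[K] MvPolynomial (Fin 4) K}
    {g : Matrix.GeneralLinearGroup (Fin 2) K} {e : Kˣ} {s : Fin 3 → K}
    (h : IsSub ψ g e s) (h' : IsSub ψ' g e s) : ψ = ψ' := by
  have : (ψ : MvPolynomial (Fin 4) K →ₐ[K] MvPolynomial (Fin 4) K) = ψ' := by
    apply MvPolynomial.algHom_ext
    intro i
    fin_cases i
    · exact h.1.trans h'.1.symm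
    · exact h.2.1.trans h'.2.1.symm
    · exact h.2.2.1.trans h'.2.2.1.symm
    · exact h.2.2.2.trans h'.2.2.2.symm
  apply AlgEquiv.ext
  intro x
  exact DFunLike.congr_fun this x

theorem lin2_injective {g g' : Matrix.GeneralLinearGroup (Fin 2) K}
    (h : ∀ i, lin2 g i = lin2 g' i) : g = g' := by
  apply Units.ext
  ext i j
  have hi := h i
  unfold lin2 at hi
  have h0 := congrArg (aeval (![1, 0] : Fin 2 → K)) hi
  have h1 := congrArg (aeval (![0, 1] : Fin 2 → K)) hi
  simp at h0 h1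
  fin_cases j
  · exact h0
  · exact h1

theorem IsSub.unique {ψ : MvPolynomial (Fin 4) K ≃ₐ[K] MvPolynomial (Fin 4) K}
    {g g' : Matrix.GeneralLinearGroup (Fin 2) K} {e e' : Kˣ} {s s' : Fin 3 → K}
    (h : IsSub ψ g e s) (h' : IsSub ψ g' e' s') : g = g' ∧ e = e' ∧ s = s' := by
  have hg : g = g' := by
    apply lin2_injective
    intro i
    fin_cases i
    · exact inc_injective (h.1.symm.trans h'.1)
    · exact inc_injective (h.2.1.symm.trans h'.2.1)
  have h2 := h.2.2.1.symm.trans h'.2.2.1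
  have h3 := h.2.2.2.symm.trans h'.2.2.2
  have hinc : ∀ (P : MvPolynomial (Fin 2) K) (c : K),
      aeval ![X 0, X 1, C c, C c] (inc P) = P := by
    intro P c
    have : (aeval ![X 0, X 1, C c, C c]).comp (inc : MvPolynomial (Fin 2) K →ₐ[K] _) = AlgHom.id K _ := by
      apply MvPolynomial.algHom_ext
      intro i
      rw [AlgHom.comp_apply]
      fin_cases i
      · show aeval _ (inc (X 0)) = _
        rw [inc_X0]; simp
      · show aeval _ (inc (X 1)) = _
        rw [inc_X1]; simp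
    exact DFunLike.congr_fun this P
  have h20 := congrArg (aeval (![X 0, X 1, C 0, C 0] : Fin 4 → MvPolynomial (Fin 2) K)) h2
  have h21 := congrArg (aeval (![X 0, X 1, C 1, C 1] : Fin 4 → MvPolynomial (Fin 2) K)) h2
  have h31 := congrArg (aeval (![X 0, X 1, C 1, C 1] : Fin 4 → MvPolynomial (Fin 2) K)) h3
  rw [map_add, map_add, hinc, hinc, map_mul, map_mul] at h20 h21
  rw [map_mul, map_mul] at h31
  simp only [aeval_X, algHom_C, algebraMap_eq] at h20 h21 h31
  have hs : bf 2 s = bf 2 s' := by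
    simpa using h20
  have he2 : (e : K) ^ 2 = (e' : K) ^ 2 := by
    rw [hs] at h21
    have := add_right_cancel h21
    apply C_injective (Fin 2) K
    simpa using this
  have he3 : (e : K) ^ 3 = (e' : K) ^ 3 := by
    apply C_injective (Fin 2) K
    simpa using h31
  have he : (e : K) = e' := by
    have h4 : (e : K) ^ 2 * e = (e : K) ^ 2 * e' := by
      calc (e : K) ^ 2 * e = (e : K) ^ 3 := by ring
        _ = (e' : K) ^ 3 := he3
        _ = (e' : K) ^ 2 * e' := by ring
        _ = (e : K) ^ 2 * e' := by rw [he2]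
    exact mul_left_cancel₀ (pow_ne_zero 2 e.ne_zero) h4
  exact ⟨hg, Units.ext he, bf_injective 2 hs⟩

/-- parametrisation of the group -/
def subEquiv (K : Type*) [Field K] :
    (Matrix.GeneralLinearGroup (Fin 2) K × Kˣ × (Fin 3 → K)) ≃ subGroup K :=
  Equiv.ofBijective (fun x => ⟨(exists_IsSub x.1 x.2.1 x.2.2).choose,
    ⟨x.1, x.2.1, x.2.2, (exists_IsSub x.1 x.2.1 x.2.2).choose_spec⟩⟩) (by
    constructor
    · rintro ⟨g, e, s⟩ ⟨g', e', s'⟩ h
      have h1 := (exists_IsSub g e s).choose_spec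
      have h2 := (exists_IsSub g' e' s').choose_spec
      have h3 : (exists_IsSub g e s).choose = (exists_IsSub g' e' s').choose :=
        congrArg Subtype.val h
      rw [← h3] at h2
      obtain ⟨a, b, c⟩ := h1.unique h2
      rw [a, b, c]
    · rintro ⟨ψ, g, e, s, h⟩
      refine ⟨(g, e, s), ?_⟩
      apply Subtype.ext
      exact ((exists_IsSub g e s).choose_spec).ext h)

instance [Finite K] : Finite (subGroup K) :=
  Finite.of_equiv _ (subEquiv K)

theorem card_subGroup (K : Type*) [Field K] [Fintype K] :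
    (Nat.card (subGroup K) : ℤ) = ((Fintype.card K : ℤ) ^ 2 - 1) *
      ((Fintype.card K : ℤ) ^ 2 - (Fintype.card K : ℤ)) * (((Fintype.card K : ℤ) - 1) *
      (Fintype.card K : ℤ) ^ 3) := by
  classical
  have hq : 1 < Fintype.card K := Fintype.one_lt_card
  rw [← Nat.card_congr (subEquiv K), Nat.card_prod, Nat.card_prod, Matrix.card_GL_field]
  have h1 : Nat.card Kˣ = Fintype.card K - 1 := by
    rw [Nat.card_eq_fintype_card, Fintype.card_units]
  have h2 : Nat.card (Fin 3 → K) = Fintype.card K ^ 3 := by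
    rw [Nat.card_eq_fintype_card, Fintype.card_fun, Fintype.card_fin]
  rw [h1, h2, Fin.prod_univ_two]
  have h3 : Fintype.card K ^ (1 : ℕ) ≤ Fintype.card K ^ 2 := Nat.pow_le_pow_right (by omega) (by omega)
  have h4 : 1 ≤ Fintype.card K ^ 2 := Nat.one_le_pow _ _ (by omega)
  simp only [Fin.val_zero, Fin.val_one, pow_zero, pow_one] at h3 ⊢
  push_cast [Nat.cast_sub h4, Nat.cast_sub h3, Nat.cast_sub hq.le]
  ring

end

end

end Pool.Agent.Helper19.DP1
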