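import Pool.Agent.Helper19.DP1.Core6c

/-! M28: transfer from sextics with a line to quartics. -/

namespace Pool.Agent.Helper19.DP1
open Polynomial Classical
noncomputable section

section
variable {L : Type*} [Field L] {a2 a3 a4 : L[X]} {p : Option L}

/-- the quartic attached to `(a2,a3,a4)` -/
def m28q (a2 a3 a4 : L[X]) : L[X][X] :=
  quart (0, C (-2) * a2, C (-8) * a3, a2 ^ 2 - C 4 * a4)

theorem m28q_wp (h2 : a2.natDegree ≤ 2) (h3 : a3.natDegree ≤ 3) (h4 : a4.natDegree ≤ 4) :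
    WP 1 4 (m28q a2 a3 a4) := by
  apply WP_quart
  · simp
  · exact (natDegree_C_mul_le _ _).trans h2
  · exact (natDegree_C_mul_le _ _).trans h3
  · refine (natDegree_sub_le _ _).trans (max_le ?_ ((natDegree_C_mul_le _ _).trans h4))
    exact natDegree_pow_le_of_le 2 h2

theorem m28_cub_wp (h2 : a2.natDegree ≤ 2) (h3 : a3.natDegree ≤ 3) (h4 : a4.natDegree ≤ 4) :
    WP 2 3 (cub (a2, a4, a3 ^ 2)) :=
  WP_cub h2 h4 (natDegree_pow_le_of_le 2 h3)

theorem m28_eval (s : L[X]) : (m28q a2 a3 a4).eval s =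
    s ^ 4 - 2 * a2 * s ^ 2 - 8 * a3 * s + (a2 ^ 2 - 4 * a4) := by
  have c2 : (C (2 : L)) = 2 := rfl
  have c8 : (C (8 : L)) = 8 := rfl
  have c4 : (C (4 : L)) = 4 := rfl
  simp only [m28q, quart, eval_add, eval_mul, eval_pow, eval_X, eval_C, C_neg, c2, c8, c4, C_0,
    eval_zero]
  ring

theorem m28_deval (s : L[X]) : (m28q a2 a3 a4).derivative.eval s =
    4 * s ^ 3 - 4 * a2 * s - 8 * a3 := by
  have c2 : (C (2 : L)) = 2 := rfl
  have c8 : (C (8 : L)) = 8 := rfl
  have c4 : (C (4 : L)) = 4 := rfl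
  simp only [m28q, quart, derivative_add, derivative_mul, derivative_X_pow, derivative_X, derivative_C,
    eval_add, eval_mul, eval_pow, eval_X, eval_C, C_neg, c2, c8, c4, C_0, eval_zero, eval_one,
    derivative_zero, Nat.cast_ofNat, eval_ofNat, map_ofNat]
  push_cast
  ring

theorem m28_ceval (t : L[X]) : (cub (a2, a4, a3 ^ 2)).eval t =
    t ^ 3 + a2 * t ^ 2 + a4 * t + a3 ^ 2 := by
  simp only [cub, eval_add, eval_mul, eval_pow, eval_X, eval_C]

theorem m28_cdeval (t : L[X]) : (cub (a2, a4, a3 ^ 2)).derivative.eval t =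
    3 * t ^ 2 + 2 * a2 * t + a4 := by
  simp only [cub, derivative_add, derivative_mul, derivative_X_pow, derivative_X, derivative_C,
    eval_add, eval_mul, eval_pow, eval_X, eval_C, eval_zero, eval_one,
    Nat.cast_ofNat, eval_ofNat, map_ofNat]
  push_cast
  ring

theorem m28_fib : fib 1 4 (m28q a2 a3 a4) p = X ^ 4 + C (-2 * ev 2 a2 p) * X ^ 2 +
      C (-8 * ev 3 a3 p) * X + C (ev 4 (a2 ^ 2) p - 4 * ev 4 a4 p) := by
  rw [m28q, c6c_fib_quart, ev_C_mul, ev_C_mul, ev_sub, ev_C_mul, ev_zero]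
  simp

theorem m28_local (h : (2 : L) ≠ 0) (h2 : a2.natDegree ≤ 2) (h3 : a3.natDegree ≤ 3)
    (h4 : a4.natDegree ≤ 4) :
    Bad 2 3 (cub (a2, a4, a3 ^ 2)) p ↔
      (∃ a b : L, fib 1 4 (m28q a2 a3 a4) p = (X ^ 2 + C a * X + C b) ^ 2) ∨
        Bad 1 4 (m28q a2 a3 a4) p := by
  have hwf := m28q_wp h2 h3 h4
  have hwF := m28_cub_wp h2 h3 h4
  have h4' : (4 : L) ≠ 0 := by
    have : (4 : L) = 2 * 2 := by norm_num
    rw [this]; exact mul_ne_zero h h
  have h8' : (8 : L) ≠ 0 := by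
    have : (8 : L) = 2 * (2 * 2) := by norm_num
    rw [this]; exact mul_ne_zero h (mul_ne_zero h h)
  have hC2 : (C (2⁻¹ : L)) * 2 = 1 := by
    have : (2 : L[X]) = C 2 := rfl
    rw [this, ← C_mul, inv_mul_cancel₀ h, C_1]
  have hsq : ev 4 (a2 ^ 2) p = ev 2 a2 p ^ 2 := ev_pow (m := 2) h2 2
  constructor
  · rintro ⟨z0, hz⟩
    obtain ⟨t, ht, rfl⟩ := exists_section 2 p z0
    have hz' := (sing_iff hwF (by norm_num) (by norm_num) ht).1 hz
    obtain ⟨e1, e2⟩ := hz'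
    rw [m28_cdeval] at e1
    rw [m28_ceval] at e2
    have e3 := dv_ev e2
    have t2 : ev 4 (t ^ 2) p = ev 2 t p ^ 2 := ev_pow (m := 2) ht 2
    have t3 : ev 6 (t ^ 3) p = ev 2 t p ^ 3 := ev_pow (m := 2) ht 3
    have at1 : ev 4 (a2 * t) p = ev 2 a2 p * ev 2 t p := ev_mul (m := 2) (n := 2) h2 ht
    have at2 : ev 6 (a2 * t ^ 2) p = ev 2 a2 p * ev 2 t p ^ 2 := by
      rw [← t2]; exact ev_mul (m := 2) (n := 4) h2 (natDegree_pow_le_of_le 2 ht)
    have a4t : ev 6 (a4 * t) p = ev 4 a4 p * ev 2 t p := ev_mul (m := 4) (n := 2) h4 ht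
    have a3s : ev 6 (a3 ^ 2) p = ev 3 a3 p ^ 2 := ev_pow (m := 3) h3 2
    have f1 : 3 * ev 2 t p ^ 2 + 2 * (ev 2 a2 p * ev 2 t p) + ev 4 a4 p = 0 := by
      rw [← t2, ← at1, ← ev_C_mul, ← ev_C_mul, ← ev_add, ← ev_add]
      refine Eq.trans (congrArg (fun P => ev 4 P p) ?_) e1
      have c2 : (C (2 : L)) = 2 := rfl
      have c3 : (C (3 : L)) = 3 := rfl
      rw [c2, c3]; ring
    have f2 : ev 2 t p ^ 3 + ev 2 a2 p * ev 2 t p ^ 2 + ev 4 a4 p * ev 2 t p + ev 3 a3 p ^ 2 = 0 := by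
      rw [← t3, ← at2, ← a4t, ← a3s, ← ev_add, ← ev_add, ← ev_add]
      exact e3
    by_cases hz0 : ev 2 t p = 0
    · left
      rw [hz0] at f1 f2
      have g4 : ev 4 a4 p = 0 := by linear_combination f1
      have g3 : ev 3 a3 p = 0 := by
        have : ev 3 a3 p ^ 2 = 0 := by linear_combination f2
        exact pow_eq_zero_iff (by norm_num) |>.mp this
      refine ⟨0, -(ev 2 a2 p), ?_⟩
      rw [m28_fib, g3, g4, hsq]
      have c2 : (C (2 : L)) = 2 := rfl
      simp only [C_neg, C_mul, C_pow, mul_zero, sub_zero, C_0, c2]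
      ring
    · right
      obtain ⟨s, hs, hsv⟩ := exists_section 1 p (ev 3 a3 p / ev 2 t p)
      have hs2 : (s ^ 2).natDegree ≤ 2 := natDegree_pow_le_of_le 2 hs
      have hs2v : ev 2 (s ^ 2) p = ev 1 s p ^ 2 := ev_pow (m := 1) hs 2
      have hzd : (C (2⁻¹ : L) * (s ^ 2 - a2)).natDegree ≤ 2 :=
        (natDegree_C_mul_le _ _).trans ((natDegree_sub_le _ _).trans (max_le hs2 h2))
      have hzv : ev 2 (C (2⁻¹ : L) * (s ^ 2 - a2)) p = ev 2 t p := by
        rw [ev_C_mul, ev_sub, hs2v, hsv]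
        field_simp
        linear_combination f2 - ev 2 t p * f1
      have hz2 : Sing 2 3 (cub (a2, a4, a3 ^ 2)) p (ev 2 (C (2⁻¹ : L) * (s ^ 2 - a2)) p) := by
        rw [hzv]; exact hz
      obtain ⟨k1, k2⟩ := (sing_iff hwF (by norm_num) (by norm_num) hzd).1 hz2
      rw [m28_ceval] at k2
      set z := C (2⁻¹ : L) * (s ^ 2 - a2) with hzdef
      have hz2a : 2 * z = s ^ 2 - a2 := by
        rw [hzdef]; linear_combination (s ^ 2 - a2) * hC2
      have hd3 : (a3 - s * z).natDegree ≤ 3 :=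
        (natDegree_sub_le _ _).trans (max_le h3 (natDegree_mul_le_of_le hs hzd))
      have hev3 : ev 3 (a3 - s * z) p = 0 := by
        have : ev 3 (s * z) p = ev 1 s p * ev 2 z p := ev_mul (m := 1) (n := 2) hs hzd
        rw [ev_sub, this, hsv, hzv, div_mul_cancel₀ _ hz0, sub_self]
      refine ⟨ev 1 s p, (sing_iff hwf (by norm_num) (by norm_num) hs).2 ⟨?_, ?_⟩⟩
      · rw [m28_deval]
        have : 4 * s ^ 3 - 4 * a2 * s - 8 * a3 = C (-8) * (a3 - s * z) := by
          have c8 : (C (-8 : L)) = -8 := by rw [C_neg]; rfl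
          rw [c8]
          linear_combination (-4 * s) * hz2a
        rw [this]
        show ev 3 _ p = 0
        rw [ev_C_mul, hev3, mul_zero]
      · rw [m28_eval]
        have hf4 : (s ^ 4 - 2 * a2 * s ^ 2 - 8 * a3 * s + (a2 ^ 2 - 4 * a4)).natDegree ≤ 4 := by
          rw [← m28_eval]; exact natDegree_eval hwf hs
        apply dv_of_dv_mul (m := 2) (n := 4) (P := z) (by norm_num) hzd hf4 _ (by rw [hzv]; exact hz0)
        have : z * (s ^ 4 - 2 * a2 * s ^ 2 - 8 * a3 * s + (a2 ^ 2 - 4 * a4)) =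
            C 4 * ((a3 - s * z) * (a3 - s * z)) + C (-4) * (z ^ 3 + a2 * z ^ 2 + a4 * z + a3 ^ 2) := by
          have c4 : (C (4 : L)) = 4 := rfl
          rw [C_neg, c4]
          have e1 : s ^ 2 = 2 * z + a2 := by linear_combination -hz2a
          have e2 : s ^ 4 = (2 * z + a2) ^ 2 := by rw [← e1]; ring
          rw [e2, e1]
          linear_combination (-4 * z ^ 2) * e1
        rw [this]
        apply dv_add
        · apply dv_C_mul
          exact dv_mul_of_ev (m := 3) (n := 3) (by norm_num) (by norm_num) hd3 hd3 hev3 hev3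
        · apply dv_C_mul
          exact k2
  · rintro (⟨a, b, hab⟩ | ⟨v0, hv⟩)
    · rw [m28_fib, hsq] at hab
      have hexp : ((X ^ 2 + C a * X + C b) ^ 2 : L[X]) = X ^ 4 + C (2 * a) * X ^ 3 +
          C (a ^ 2 + 2 * b) * X ^ 2 + C (2 * a * b) * X + C (b ^ 2) := by
        have c2 : (C (2 : L)) = 2 := rfl
        simp only [C_add, C_mul, C_pow, c2]
        ring
      rw [hexp] at hab
      have k3 := congrArg (fun P : L[X] => P.coeff 3) hab
      have k2 := congrArg (fun P : L[X] => P.coeff 2) hab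
      have k1 := congrArg (fun P : L[X] => P.coeff 1) hab
      have k0 := congrArg (fun P : L[X] => P.coeff 0) hab
      simp only [coeff_add, coeff_X_pow, coeff_C_mul, coeff_X, coeff_C] at k3 k2 k1 k0
      norm_num at k3 k2 k1 k0
      have ha : a = 0 := by
        rcases k3 with h0 | h0
        · exact absurd h0 h
        · exact h0
      subst ha
      have hb : b = -(ev 2 a2 p) := by
        apply mul_left_cancel₀ h
        linear_combination -k2
      have g3 : ev 3 a3 p = 0 := by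
        apply mul_left_cancel₀ h8'
        linear_combination -k1
      have g4 : ev 4 a4 p = 0 := by
        apply mul_left_cancel₀ h4'
        rw [hb] at k0
        linear_combination -k0
      refine ⟨0, ?_⟩
      have h0 : ev 2 (0 : L[X]) p = 0 := ev_zero
      rw [← h0, sing_iff hwF (by norm_num) (by norm_num) (by simp), m28_ceval, m28_cdeval]
      constructor
      · have : (3 * 0 ^ 2 + 2 * a2 * 0 + a4 : L[X]) = a4 := by ring
        rw [this]; exact g4
      · have : (0 ^ 3 + a2 * 0 ^ 2 + a4 * 0 + a3 ^ 2 : L[X]) = a3 * a3 := by ring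
        rw [this]
        exact dv_mul_of_ev (m := 3) (n := 3) (by norm_num) (by norm_num) h3 h3 g3 g3
    · obtain ⟨s, hs, rfl⟩ := exists_section 1 p v0
      obtain ⟨e1, e2⟩ := (sing_iff hwf (by norm_num) (by norm_num) hs).1 hv
      have hs2 : (s ^ 2).natDegree ≤ 2 := natDegree_pow_le_of_le 2 hs
      have hzd : (C (2⁻¹ : L) * (s ^ 2 - a2)).natDegree ≤ 2 :=
        (natDegree_C_mul_le _ _).trans ((natDegree_sub_le _ _).trans (max_le hs2 h2))
      set z := C (2⁻¹ : L) * (s ^ 2 - a2) with hzdef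
      have hz2a : 2 * z = s ^ 2 - a2 := by
        rw [hzdef]; linear_combination (s ^ 2 - a2) * hC2
      have hd3 : (a3 - s * z).natDegree ≤ 3 :=
        (natDegree_sub_le _ _).trans (max_le h3 (natDegree_mul_le_of_le hs hzd))
      have c8 : (C (-8 : L)) = -8 := by rw [C_neg]; rfl
      have hev3 : ev 3 (a3 - s * z) p = 0 := by
        have h5 : (m28q a2 a3 a4).derivative.eval s = C (-8) * (a3 - s * z) := by
          rw [m28_deval, c8]
          linear_combination (-4 * s) * hz2a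
        rw [h5] at e1
        have e1' : ev 3 (C (-8) * (a3 - s * z)) p = 0 := e1
        rw [ev_C_mul] at e1'
        exact (mul_eq_zero.mp e1').resolve_left (neg_ne_zero.mpr h8')
      have hf4 : ((m28q a2 a3 a4).eval s).natDegree ≤ 4 := natDegree_eval hwf hs
      have c4 : (C (4⁻¹ : L)) * 4 = 1 := by
        have : (4 : L[X]) = C 4 := rfl
        rw [this, ← C_mul, inv_mul_cancel₀ h4', C_1]
      have e1s : s ^ 2 = 2 * z + a2 := by linear_combination -hz2a
      have e2s : s ^ 4 = (2 * z + a2) ^ 2 := by rw [← e1s]; ring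
      refine ⟨ev 2 z p, (sing_iff hwF (by norm_num) (by norm_num) hzd).2 ⟨?_, ?_⟩⟩
      · rw [m28_cdeval]
        have : 3 * z ^ 2 + 2 * a2 * z + a4 =
            (C (-2) * s) * (a3 - s * z) + C (-4⁻¹) * (m28q a2 a3 a4).eval s := by
          have c2 : (C (2 : L)) = 2 := rfl
          rw [m28_eval, C_neg, C_neg, c2, e2s, e1s]
          linear_combination (-2 * z) * e1s + (z ^ 2 - 2 * a3 * s - a4) * c4
        rw [this]
        show ev 4 _ p = 0
        rw [ev_add, ev_C_mul]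
        have h5 : ev 4 ((m28q a2 a3 a4).eval s) p = 0 := dv_ev e2
        have h6 : ev 4 ((C (-2) * s) * (a3 - s * z)) p = ev 1 (C (-2) * s) p * ev 3 (a3 - s * z) p :=
          ev_mul (m := 1) (n := 3) ((natDegree_C_mul_le _ _).trans hs) hd3
        rw [h5, h6, hev3]; ring
      · rw [m28_ceval]
        have : z ^ 3 + a2 * z ^ 2 + a4 * z + a3 ^ 2 =
            C (-4⁻¹) * ((m28q a2 a3 a4).eval s * z) + (a3 - s * z) * (a3 - s * z) := by
          rw [m28_eval, C_neg, e2s, e1s]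
          linear_combination (-z ^ 2) * e1s + (z * (z ^ 2 - 2 * a3 * s - a4)) * c4
        rw [this]
        apply dv_add
        · apply dv_C_mul
          exact dv_mul_right (m := 4) (n := 2) (by norm_num) hf4 hzd e2
        · exact dv_mul_of_ev (m := 3) (n := 3) (by norm_num) (by norm_num) hd3 hd3 hev3 hev3

end

section
variable {K : Type*} [Field K] [Fintype K]

theorem m28_up2q (a2 a3 a4 : K[X]) :
    up2 (m28q a2 a3 a4) = m28q (up a2) (up a3) (up a4) := by
  unfold m28q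
  rw [up2_quart]
  unfold up
  simp only [Polynomial.map_zero, Polynomial.map_mul, Polynomial.map_sub, Polynomial.map_pow,
    Polynomial.map_neg, Polynomial.map_ofNat, map_neg, map_ofNat]

theorem m28_up2c (a2 a3 a4 : K[X]) :
    up2 (cub (a2, a4, a3 ^ 2)) = cub (up a2, up a4, up a3 ^ 2) := by
  rw [up2_cub]
  unfold up
  simp only [Polynomial.map_pow]

theorem m28_good (h2 : (2 : K) ≠ 0) {a2 a3 a4 : K[X]} (h : a2.natDegree ≤ 2) (h3 : a3.natDegree ≤ 3)
    (h4 : a4.natDegree ≤ 4) :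
    (∀ p, ¬ Bad 2 3 (up2 (cub (a2, a4, a3 ^ 2))) p) ↔
      NoSq (up2 (m28q a2 a3 a4)) ∧ ∀ p, ¬ Bad 1 4 (up2 (m28q a2 a3 a4)) p := by
  have hO : (2 : Om K) ≠ 0 := by
    have := (map_ne_zero (algebraMap K (Om K))).mpr h2
    rwa [map_ofNat] at this
  have g2 : (up a2).natDegree ≤ 2 := by rw [natDegree_up]; exact h
  have g3 : (up a3).natDegree ≤ 3 := by rw [natDegree_up]; exact h3
  have g4 : (up a4).natDegree ≤ 4 := by rw [natDegree_up]; exact h4
  rw [m28_up2c, m28_up2q]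
  unfold NoSq
  constructor
  · intro hb
    refine ⟨fun p a b hab => hb p ((m28_local hO g2 g3 g4).2 (Or.inl ⟨a, b, hab⟩)),
      fun p hp => hb p ((m28_local hO g2 g3 g4).2 (Or.inr hp))⟩
  · rintro ⟨h5, h6⟩ p hp
    rcases (m28_local hO g2 g3 g4).1 hp with ⟨a, b, hab⟩ | hq
    · exact h5 p a b hab
    · exact h6 p hq

/-- the coefficients of the translated quartic -/
def m28T (x : K[X] × K[X] × K[X] × K[X]) : K[X] × K[X] × K[X] × K[X] :=
  (4 * x.1, 6 * x.1 ^ 2 - 2 * x.2.1, 4 * x.1 ^ 3 - 4 * x.2.1 * x.1 - 8 * x.2.2.1,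
    x.1 ^ 4 - 2 * x.2.1 * x.1 ^ 2 - 8 * x.2.2.1 * x.1 + x.2.1 ^ 2 - 4 * x.2.2.2)

theorem m28T_comp (x : K[X] × K[X] × K[X] × K[X]) :
    quart (m28T x) = (m28q x.2.1 x.2.2.1 x.2.2.2).comp (X + C x.1) := by
  obtain ⟨m, a2, a3, a4⟩ := x
  have c2 : (C (2 : K)) = 2 := rfl
  have c8 : (C (8 : K)) = 8 := rfl
  have c4 : (C (4 : K)) = 4 := rfl
  have d2 : (C (2 : K[X])) = 2 := rfl
  have d8 : (C (8 : K[X])) = 8 := rfl
  have d4 : (C (4 : K[X])) = 4 := rfl
  have d6 : (C (6 : K[X])) = 6 := rfl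
  simp only [m28q, m28T, quart, add_comp, mul_comp, pow_comp, sub_comp, neg_comp, zero_comp,
    ofNat_comp, X_comp, C_comp, C_neg, c2, c8, c4, C_0, C_sub, C_add, C_mul, C_pow, d2, d4, d6, d8]
  ring

/-- the inverse map -/
def m28S (c : K[X] × K[X] × K[X] × K[X]) : K[X] × K[X] × K[X] × K[X] :=
  (C 4⁻¹ * c.1,
    C 2⁻¹ * (6 * (C 4⁻¹ * c.1) ^ 2 - c.2.1),
    C 8⁻¹ * (4 * (C 4⁻¹ * c.1) ^ 3 - 4 * (C 2⁻¹ * (6 * (C 4⁻¹ * c.1) ^ 2 - c.2.1)) * (C 4⁻¹ * c.1) -
      c.2.2.1),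
    C 4⁻¹ * ((C 4⁻¹ * c.1) ^ 4 - 2 * (C 2⁻¹ * (6 * (C 4⁻¹ * c.1) ^ 2 - c.2.1)) * (C 4⁻¹ * c.1) ^ 2
      - 8 * (C 8⁻¹ * (4 * (C 4⁻¹ * c.1) ^ 3 -
        4 * (C 2⁻¹ * (6 * (C 4⁻¹ * c.1) ^ 2 - c.2.1)) * (C 4⁻¹ * c.1) - c.2.2.1)) * (C 4⁻¹ * c.1)
      + (C 2⁻¹ * (6 * (C 4⁻¹ * c.1) ^ 2 - c.2.1)) ^ 2 - c.2.2.2))

theorem m28_C (n : ℕ) [n.AtLeastTwo] (h : (OfNat.ofNat n : K) ≠ 0) (P : K[X]) :
    (OfNat.ofNat n : K[X]) * (C (OfNat.ofNat n : K)⁻¹ * P) = P := by
  have : (OfNat.ofNat n : K[X]) = C (OfNat.ofNat n : K) := rfl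
  rw [this, ← mul_assoc, ← C_mul, mul_inv_cancel₀ h, C_1, one_mul]

theorem m28_TS (h2 : (2 : K) ≠ 0) (c : K[X] × K[X] × K[X] × K[X]) : m28T (m28S c) = c := by
  have h4 : (4 : K) ≠ 0 := by
    have : (4 : K) = 2 * 2 := by norm_num
    rw [this]; exact mul_ne_zero h2 h2
  have h8 : (8 : K) ≠ 0 := by
    have : (8 : K) = 2 * (2 * 2) := by norm_num
    rw [this]; exact mul_ne_zero h2 (mul_ne_zero h2 h2)
  obtain ⟨c1, c2, c3, c4⟩ := c
  have e4 : ∀ P : K[X], 4 * (C (4 : K)⁻¹ * P) = P := m28_C 4 h4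
  have e8 : ∀ P : K[X], 8 * (C (8 : K)⁻¹ * P) = P := m28_C 8 h8
  have e2 : ∀ P : K[X], 2 * (C (2 : K)⁻¹ * P) = P := m28_C 2 h2
  unfold m28T m28S
  simp only
  refine Prod.ext (e4 _) (Prod.ext ?_ (Prod.ext ?_ ?_))
  · simp only
    rw [e2]; ring
  · simp only
    rw [e8]; ring
  · simp only
    rw [e4]; ring

theorem m28_injT (h2 : (2 : K) ≠ 0) : Function.Injective (m28T : K[X] × K[X] × K[X] × K[X] → _) := by
  have h2' : (2 : K[X]) ≠ 0 := by
    have : (2 : K[X]) = C 2 := rfl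
    rw [this]; exact C_ne_zero.mpr h2
  have h4 : (4 : K[X]) ≠ 0 := by
    have : (4 : K[X]) = 2 * 2 := by norm_num
    rw [this]; exact mul_ne_zero h2' h2'
  have h8 : (8 : K[X]) ≠ 0 := by
    have : (8 : K[X]) = 2 * (2 * 2) := by norm_num
    rw [this]; exact mul_ne_zero h2' (mul_ne_zero h2' h2')
  rintro ⟨m, a2, a3, a4⟩ ⟨m', a2', a3', a4'⟩ h
  unfold m28T at h
  simp only [Prod.mk.injEq] at h ⊢
  obtain ⟨e1, e2, e3, e4⟩ := h
  have k1 : m = m' := mul_left_cancel₀ h4 e1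
  subst k1
  have k2 : a2 = a2' := mul_left_cancel₀ h2' (by linear_combination -e2)
  subst k2
  have k3 : a3 = a3' := mul_left_cancel₀ h8 (by linear_combination -e3)
  subst k3
  have k4 : a4 = a4' := mul_left_cancel₀ h4 (by linear_combination -e4)
  exact ⟨rfl, rfl, rfl, k4⟩

end

section
variable (K : Type*) [Field K] [Fintype K]

/-- M28 -/
theorem transfer (h2 : (2 : K) ≠ 0) :
    Fintype.card K ^ 2 * ((V K 2 ×ˢ V K 3 ×ˢ V K 4).filter
      (fun a => ∀ p, ¬ Bad 2 3 (up2 (cub (a.1, a.2.2, a.2.1 ^ 2))) p)).card =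
    ((Q4 K).filter (fun c => ∀ p, ¬ Bad 1 4 (up2 (quart c)) p)).card := by
  rw [← card_V (K := K) (n := 1), ← Finset.card_product]
  apply Finset.card_bij (fun x _ => m28T x)
  · rintro ⟨m, a2, a3, a4⟩ hx
    rw [Finset.mem_product, Finset.mem_filter, Finset.mem_product, Finset.mem_product, mem_V, mem_V,
      mem_V, mem_V] at hx
    obtain ⟨hm, ⟨g2, g3, g4⟩, hb⟩ := hx
    simp only at hm g2 g3 g4 hb
    rw [m28_good h2 g2 g3 g4] at hb
    have hwf := m28q_wp g2 g3 g4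
    have hmu : (up m).natDegree ≤ 1 := by rw [natDegree_up]; exact hm
    rw [Finset.mem_filter, mem_Q4, m28T_comp]
    simp only
    rw [up2_comp]
    refine ⟨⟨WP_comp hwf hm, ?_⟩, ?_⟩
    · rw [noSq_comp (WP_up2 hwf) hmu]
      exact hb.1
    · intro p
      rw [bad_comp (WP_up2 hwf) (by norm_num) (by norm_num) hmu]
      exact hb.2 p
  · intro x _ y _ h
    exact m28_injT h2 h
  · intro c hc
    rw [Finset.mem_filter, mem_Q4] at hc
    obtain ⟨⟨hw, hq⟩, hb⟩ := hc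
    refine ⟨m28S c, ?_, m28_TS h2 c⟩
    have hT := m28_TS h2 c
    have hcomp := m28T_comp (m28S c)
    rw [hT] at hcomp
    obtain ⟨-, e3, e2, e1, e0⟩ := c6c_coeff_quart c
    have d1 : c.1.natDegree ≤ 1 := by
      have := hw.2.2 1 (by norm_num)
      rw [← e3]; simpa using this
    have d2 : c.2.1.natDegree ≤ 2 := by
      have := hw.2.2 2 (by norm_num)
      rw [← e2]; simpa using this
    have d3 : c.2.2.1.natDegree ≤ 3 := by
      have := hw.2.2 3 (by norm_num)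
      rw [← e1]; simpa using this
    have d4 : c.2.2.2.natDegree ≤ 4 := by
      have := hw.2.2 4 (by norm_num)
      rw [← e0]; simpa using this
    have six : (6 : K[X]) = C 6 := rfl
    have four : (4 : K[X]) = C 4 := rfl
    have two : (2 : K[X]) = C 2 := rfl
    have eight : (8 : K[X]) = C 8 := rfl
    have g1 : (m28S c).1.natDegree ≤ 1 := (natDegree_C_mul_le _ _).trans d1
    have g2 : (m28S c).2.1.natDegree ≤ 2 := by
      show (C 2⁻¹ * (6 * (m28S c).1 ^ 2 - c.2.1)).natDegree ≤ 2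
      refine (natDegree_C_mul_le _ _).trans ((natDegree_sub_le _ _).trans (max_le ?_ d2))
      rw [six]
      exact (natDegree_C_mul_le _ _).trans (natDegree_pow_le_of_le 2 g1)
    have g3 : (m28S c).2.2.1.natDegree ≤ 3 := by
      show (C 8⁻¹ * (4 * (m28S c).1 ^ 3 - 4 * (m28S c).2.1 * (m28S c).1 - c.2.2.1)).natDegree ≤ 3
      refine (natDegree_C_mul_le _ _).trans ((natDegree_sub_le _ _).trans (max_le
        ((natDegree_sub_le _ _).trans (max_le ?_ ?_)) d3))
      · rw [four]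
        exact (natDegree_C_mul_le _ _).trans (natDegree_pow_le_of_le 3 g1)
      · rw [four]
        exact natDegree_mul_le_of_le ((natDegree_C_mul_le _ _).trans g2) g1
    have g4 : (m28S c).2.2.2.natDegree ≤ 4 := by
      show (C 4⁻¹ * ((m28S c).1 ^ 4 - 2 * (m28S c).2.1 * (m28S c).1 ^ 2 -
        8 * (m28S c).2.2.1 * (m28S c).1 + (m28S c).2.1 ^ 2 - c.2.2.2)).natDegree ≤ 4
      refine (natDegree_C_mul_le _ _).trans ((natDegree_sub_le _ _).trans (max_le
        ((natDegree_add_le _ _).trans (max_le ((natDegree_sub_le _ _).trans (max_le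
          ((natDegree_sub_le _ _).trans (max_le ?_ ?_)) ?_)) ?_)) d4))
      · exact natDegree_pow_le_of_le 4 g1
      · rw [two]
        exact natDegree_mul_le_of_le (m := 2) (n := 2) ((natDegree_C_mul_le _ _).trans g2)
          (natDegree_pow_le_of_le 2 g1)
      · rw [eight]
        exact natDegree_mul_le_of_le ((natDegree_C_mul_le _ _).trans g3) g1
      · exact natDegree_pow_le_of_le 2 g2
    rw [Finset.mem_product, Finset.mem_filter, Finset.mem_product, Finset.mem_product, mem_V, mem_V,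
      mem_V, mem_V]
    refine ⟨g1, ⟨g2, g3, g4⟩, ?_⟩
    have hwf := m28q_wp g2 g3 g4
    have hmu : (up (m28S c).1).natDegree ≤ 1 := by rw [natDegree_up]; exact g1
    show ∀ p, ¬ Bad 2 3 (up2 (cub ((m28S c).2.1, (m28S c).2.2.2, (m28S c).2.2.1 ^ 2))) p
    rw [m28_good h2 g2 g3 g4]
    rw [hcomp, up2_comp] at hq hb
    rw [noSq_comp (WP_up2 hwf) hmu] at hq
    refine ⟨hq, fun p => ?_⟩
    have := hb p
    rwa [bad_comp (WP_up2 hwf) (by norm_num) (by norm_num) hmu] at this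

end

end

end Pool.Agent.Helper19.DP1
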