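import Pool.Agent.Helper19.DP1.FSmooth2
import Pool.Agent.Helper19.DP1.M28

/-! Counting smooth sextics and their lines. -/

namespace Pool.Agent.Helper19.DP1

open Classical

noncomputable section

section
variable {K : Type*} [Field K]

/-- coefficient vectors and forms -/
theorem pl_injective (n : ℕ) : Function.Injective (pl n : (Fin (n + 1) → K) → Polynomial K) := by
  intro c c' h
  funext i
  rw [← coeff_pl n c i, ← coeff_pl n c' i, h]

/-- dehomogenisation -/
def dh : MvPolynomial (Fin 2) K →ₐ[K] Polynomial K := MvPolynomial.aeval ![Polynomial.X, 1]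

theorem dh_bf (n : ℕ) (c : Fin (n + 1) → K) : dh (bf n c) = pl n c := by
  unfold dh bf pl
  rw [map_sum]
  apply Finset.sum_congr rfl
  intro i _
  simp [Polynomial.C_eq_algebraMap]

theorem dh_inj {n : ℕ} {P : MvPolynomial (Fin 2) K} (hP : P.IsHomogeneous n) (h : dh P = 0) :
    P = 0 := by
  obtain ⟨c, rfl⟩ := exists_bf hP
  rw [dh_bf] at h
  have h0 : pl n (0 : Fin (n + 1) → K) = 0 := by
    unfold pl
    apply Finset.sum_eq_zero
    intro i _
    simp
  have : c = 0 := pl_injective n (by rw [h, h0])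
  subst this
  unfold bf
  apply Finset.sum_eq_zero
  intro i _
  simp

theorem aeval_inc_poly (z y : MvPolynomial (Fin 2) K) (P : MvPolynomial (Fin 2) K) :
    MvPolynomial.aeval ![MvPolynomial.X 0, MvPolynomial.X 1, z, y] (inc P) = P := by
  have : (MvPolynomial.aeval ![MvPolynomial.X 0, MvPolynomial.X 1, z, y]).comp inc =
      AlgHom.id K (MvPolynomial (Fin 2) K) := by
    apply MvPolynomial.algHom_ext
    intro i
    rw [AlgHom.comp_apply]
    fin_cases i
    · show MvPolynomial.aeval _ (inc (MvPolynomial.X 0)) = _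
      rw [inc_X0, MvPolynomial.aeval_X]; rfl
    · show MvPolynomial.aeval _ (inc (MvPolynomial.X 1)) = _
      rw [inc_X1, MvPolynomial.aeval_X]; rfl
  exact DFunLike.congr_fun this P

/-- the lines of a surface in normal form -/
theorem mem_lines (a : (Fin 3 → K) × (Fin 5 → K) × (Fin 7 → K)) (b : (Fin 3 → K) × (Fin 4 → K)) :
    b ∈ lines (sext a) ↔ pl 3 b.2 ^ 2 = (cubA a).eval (pl 2 b.1) := by
  have h1 : MvPolynomial.aeval ![MvPolynomial.X 0, MvPolynomial.X 1, bf 2 b.1, bf 3 b.2] (sext a) =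
      bf 3 b.2 ^ 2 - (bf 2 b.1 ^ 3 + bf 2 a.1 * bf 2 b.1 ^ 2 + bf 4 a.2.1 * bf 2 b.1 + bf 6 a.2.2) := by
    unfold sext
    simp only [map_sub, map_add, map_mul, map_pow, MvPolynomial.aeval_X, aeval_inc_poly]
    rfl
  have h2 : (bf 3 b.2 ^ 2 - (bf 2 b.1 ^ 3 + bf 2 a.1 * bf 2 b.1 ^ 2 + bf 4 a.2.1 * bf 2 b.1 +
      bf 6 a.2.2)).IsHomogeneous 6 := by
    refine MvPolynomial.IsHomogeneous.sub ((bf_homog 3 b.2).pow 2) (MvPolynomial.IsHomogeneous.add
      (MvPolynomial.IsHomogeneous.add (MvPolynomial.IsHomogeneous.add ((bf_homog 2 b.1).pow 3)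
        ((bf_homog 2 a.1).mul ((bf_homog 2 b.1).pow 2))) ((bf_homog 4 a.2.1).mul (bf_homog 2 b.1)))
        (bf_homog 6 a.2.2))
  have h3 : dh (bf 3 b.2 ^ 2 - (bf 2 b.1 ^ 3 + bf 2 a.1 * bf 2 b.1 ^ 2 + bf 4 a.2.1 * bf 2 b.1 +
      bf 6 a.2.2)) = pl 3 b.2 ^ 2 - (cubA a).eval (pl 2 b.1) := by
    simp only [map_sub, map_add, map_mul, map_pow, dh_bf, cubA, cub, Polynomial.eval_add,
      Polynomial.eval_mul, Polynomial.eval_pow, Polynomial.eval_X, Polynomial.eval_C]
  show MvPolynomial.aeval _ (sext a) = 0 ↔ _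
  rw [h1]
  constructor
  · intro h
    rw [h, map_zero] at h3
    exact sub_eq_zero.mp h3.symm
  · intro h
    rw [h, sub_self] at h3
    exact dh_inj h2 h3

end

section
variable {K : Type*} [Field K] [Fintype K]

theorem pl_mem (n : ℕ) (c : Fin (n + 1) → K) : pl n c ∈ V K n := by
  rw [mem_V]; exact natDegree_pl n c

theorem pl_surj {n : ℕ} {P : Polynomial K} (h : P ∈ V K n) : ∃ c : Fin (n + 1) → K, pl n c = P := by
  unfold V at h
  rw [Finset.mem_image] at h
  obtain ⟨c, -, hc⟩ := h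
  exact ⟨c, hc⟩

/-- smooth coefficient triples -/
def C3s (K : Type*) [Field K] [Fintype K] : Finset (Polynomial K × Polynomial K × Polynomial K) :=
  (C3 K).filter (fun a => ∀ p, ¬ Bad 2 3 (up2 (cub a)) p)

/-- the triple of forms of a surface -/
def tri (a : Surf K) : Polynomial K × Polynomial K × Polynomial K :=
  (pl 2 a.1.1, pl 4 a.1.2.1, pl 6 a.1.2.2)

theorem cub_tri (a : Surf K) : cub (tri a) = cubA a.1 := rfl

theorem tri_injective : Function.Injective (tri : Surf K → _) := by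
  rintro ⟨⟨a, b, c⟩, h⟩ ⟨⟨a', b', c'⟩, h'⟩ he
  simp only [tri, Prod.mk.injEq] at he
  obtain ⟨e1, e2, e3⟩ := he
  apply Subtype.ext
  exact Prod.ext (pl_injective 2 e1) (Prod.ext (pl_injective 4 e2) (pl_injective 6 e3))

theorem tri_mem (h2 : (2 : K) ≠ 0) (a : Surf K) : tri a ∈ C3s K := by
  unfold C3s C3
  rw [Finset.mem_filter, Finset.mem_product, Finset.mem_product]
  exact ⟨⟨pl_mem 2 _, pl_mem 4 _, pl_mem 6 _⟩, (smooth_iff h2 a.1).1 a.2⟩

theorem tri_surj (h2 : (2 : K) ≠ 0) {x : Polynomial K × Polynomial K × Polynomial K}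
    (h : x ∈ C3s K) : ∃ a : Surf K, tri a = x := by
  unfold C3s C3 at h
  rw [Finset.mem_filter, Finset.mem_product, Finset.mem_product] at h
  obtain ⟨⟨h1, h3, h4⟩, h5⟩ := h
  obtain ⟨a, ha⟩ := pl_surj h1
  obtain ⟨b, hb⟩ := pl_surj h3
  obtain ⟨c, hc⟩ := pl_surj h4
  have hx : (pl 2 a, pl 4 b, pl 6 c) = x := Prod.ext ha (Prod.ext hb hc)
  refine ⟨⟨(a, b, c), (smooth_iff h2 _).2 ?_⟩, hx⟩
  show ∀ p, ¬ Bad 2 3 (up2 (cub (pl 2 a, pl 4 b, pl 6 c))) p
  rw [hx]
  exact h5

/-- sums over surfaces as sums over triples -/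
theorem sum_surf (h2 : (2 : K) ≠ 0) (f : Surf K → ℚ) (g : Polynomial K × Polynomial K × Polynomial K → ℚ)
    (hfg : ∀ a, f a = g (tri a)) : ∑ᶠ a : Surf K, f a = ∑ x ∈ C3s K, g x := by
  haveI : Fintype (Surf K) := Fintype.ofFinite _
  rw [finsum_eq_sum_of_fintype]
  apply Finset.sum_bij (fun a _ => tri a)
  · intro a _; exact tri_mem h2 a
  · intro a _ b _ h; exact tri_injective h
  · intro x hx
    obtain ⟨a, ha⟩ := tri_surj h2 hx
    exact ⟨a, Finset.mem_univ _, ha⟩
  · intro a _; exact hfg a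

/-- lines as pairs of forms -/
def Ln (x : Polynomial K × Polynomial K × Polynomial K) : Finset (Polynomial K × Polynomial K) :=
  (V K 2 ×ˢ V K 3).filter (fun b => b.2 ^ 2 = (cub x).eval b.1)

theorem lines_ncard (a : Surf K) : (lines (sext a.1)).ncard = (Ln (tri a)).card := by
  rw [← Set.ncard_coe_finset]
  apply Set.ncard_congr (fun b _ => (pl 2 b.1, pl 3 b.2))
  · intro b hb
    rw [mem_lines] at hb
    rw [Finset.mem_coe, Ln, Finset.mem_filter, Finset.mem_product]
    exact ⟨⟨pl_mem 2 _, pl_mem 3 _⟩, hb⟩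
  · intro b b' _ _ h
    simp only [Prod.mk.injEq] at h
    exact Prod.ext (pl_injective 2 h.1) (pl_injective 3 h.2)
  · intro x hx
    rw [Finset.mem_coe, Ln, Finset.mem_filter, Finset.mem_product] at hx
    obtain ⟨⟨h1, h2⟩, h3⟩ := hx
    obtain ⟨b, hb⟩ := pl_surj h1
    obtain ⟨c, hc⟩ := pl_surj h2
    refine ⟨(b, c), ?_, Prod.ext hb hc⟩
    rw [mem_lines]
    show pl 3 c ^ 2 = (cub (tri a)).eval (pl 2 b)
    rw [hb, hc]
    exact h3

/-- good triples `(a2,a3,a4)` of the transfer -/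
def G3 (K : Type*) [Field K] [Fintype K] : Finset (Polynomial K × Polynomial K × Polynomial K) :=
  (V K 2 ×ˢ V K 3 ×ˢ V K 4).filter (fun a => ∀ p, ¬ Bad 2 3 (up2 (cub (a.1, a.2.2, a.2.1 ^ 2))) p)

/-- coefficients of the translated cubic -/
def trc (x : Polynomial K × Polynomial K × Polynomial K) (b : Polynomial K) :
    Polynomial K × Polynomial K × Polynomial K :=
  (3 * b + x.1, 3 * b ^ 2 + 2 * x.1 * b + x.2.1, (cub x).eval b)

theorem cub_trc (x : Polynomial K × Polynomial K × Polynomial K) (b : Polynomial K) :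
    cub (trc x b) = (cub x).comp (Polynomial.X + Polynomial.C b) := by
  have d2 : (Polynomial.C (2 : Polynomial K)) = 2 := rfl
  have d3 : (Polynomial.C (3 : Polynomial K)) = 3 := rfl
  simp only [cub, trc, Polynomial.add_comp, Polynomial.mul_comp, Polynomial.pow_comp,
    Polynomial.X_comp, Polynomial.C_comp, Polynomial.eval_add, Polynomial.eval_mul,
    Polynomial.eval_pow, Polynomial.eval_X, Polynomial.eval_C, Polynomial.C_add, Polynomial.C_mul,
    Polynomial.C_pow, d2, d3]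
  ring

theorem trc_trc (x : Polynomial K × Polynomial K × Polynomial K) (b : Polynomial K) :
    trc (trc x b) (-b) = x := by
  apply cub_injective
  rw [cub_trc, cub_trc, Polynomial.comp_assoc]
  simp

theorem trc_C3s {x : Polynomial K × Polynomial K × Polynomial K} (hx : x ∈ C3s K)
    {b : Polynomial K} (hb : b ∈ V K 2) : trc x b ∈ C3s K := by
  unfold C3s at hx ⊢
  rw [Finset.mem_filter, mem_C3] at hx ⊢
  rw [mem_V] at hb
  have hbu : (up b).natDegree ≤ 2 := by rw [natDegree_up]; exact hb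
  rw [cub_trc, up2_comp]
  refine ⟨WP_comp hx.1 hb, fun p => ?_⟩
  rw [bad_comp (WP_up2 hx.1) (by norm_num) (by norm_num) hbu]
  exact hx.2 p

theorem neg_mem_V {n : ℕ} {b : Polynomial K} (hb : b ∈ V K n) : -b ∈ V K n := by
  rw [mem_V] at hb ⊢; rw [Polynomial.natDegree_neg]; exact hb

/-- the number of pairs (smooth sextic, line) -/
theorem sum_Ln : ∑ x ∈ C3s K, (Ln x).card = Fintype.card K ^ 3 * (G3 K).card := by
  rw [← card_V (K := K) (n := 2), ← Finset.card_product, ← Finset.card_sigma]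
  apply Finset.card_bij (fun y _ => (y.2.1, ((trc y.1 y.2.1).1, y.2.2, (trc y.1 y.2.1).2.1)))
  · rintro ⟨x, b, c⟩ hy
    rw [Finset.mem_sigma] at hy
    obtain ⟨hx, hl⟩ := hy
    simp only at hx hl
    rw [Ln, Finset.mem_filter, Finset.mem_product] at hl
    obtain ⟨⟨hb, hc⟩, he⟩ := hl
    simp only at hb hc he
    have ht := trc_C3s hx hb
    unfold C3s C3 at ht
    rw [Finset.mem_filter, Finset.mem_product, Finset.mem_product] at ht
    rw [Finset.mem_product, G3, Finset.mem_filter, Finset.mem_product, Finset.mem_product]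
    refine ⟨hb, ⟨ht.1.1, hc, ht.1.2.1⟩, ?_⟩
    have h3 : ((trc x b).1, (trc x b).2.1, c ^ 2) = trc x b := by rw [he]; rfl
    show ∀ p, ¬ Bad 2 3 (up2 (cub ((trc x b).1, (trc x b).2.1, c ^ 2))) p
    rw [h3]
    exact ht.2
  · rintro ⟨x, b, c⟩ hy ⟨x', b', c'⟩ hy' h
    simp only [Prod.mk.injEq] at h
    obtain ⟨rfl, h1, rfl, h3⟩ := h
    rw [Finset.mem_sigma] at hy hy'
    have e1 := (Finset.mem_filter.mp hy.2).2
    have e2 := (Finset.mem_filter.mp hy'.2).2
    simp only at e1 e2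
    have : trc x b = trc x' b := Prod.ext h1 (Prod.ext h3 (by
      show (cub x).eval b = (cub x').eval b
      rw [← e1, ← e2]))
    have hx : x = x' := by rw [← trc_trc x b, this, trc_trc]
    subst hx
    rfl
  · rintro ⟨b, a2, a3, a4⟩ hy
    rw [Finset.mem_product, G3, Finset.mem_filter, Finset.mem_product, Finset.mem_product] at hy
    obtain ⟨hb, ⟨h2, h3, h4⟩, hg⟩ := hy
    simp only at hb h2 h3 h4 hg
    have hmem : (a2, a4, a3 ^ 2) ∈ C3s K := by
      unfold C3s C3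
      rw [Finset.mem_filter, Finset.mem_product, Finset.mem_product]
      refine ⟨⟨h2, h4, ?_⟩, hg⟩
      rw [mem_V] at h3 ⊢
      exact Polynomial.natDegree_pow_le_of_le 2 h3
    have hx := trc_C3s hmem (neg_mem_V hb)
    have htt : trc (trc (a2, a4, a3 ^ 2) (-b)) b = (a2, a4, a3 ^ 2) := by
      have := trc_trc (a2, a4, a3 ^ 2) (-b)
      rwa [neg_neg] at this
    refine ⟨⟨trc (a2, a4, a3 ^ 2) (-b), b, a3⟩, ?_, ?_⟩
    · rw [Finset.mem_sigma]
      refine ⟨hx, ?_⟩
      show (b, a3) ∈ Ln (trc (a2, a4, a3 ^ 2) (-b))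
      rw [Ln, Finset.mem_filter, Finset.mem_product]
      refine ⟨⟨hb, h3⟩, ?_⟩
      have : (trc (trc (a2, a4, a3 ^ 2) (-b)) b).2.2 = a3 ^ 2 := by rw [htt]
      exact this.symm
    · show (b, ((trc (trc (a2, a4, a3 ^ 2) (-b)) b).1, a3, (trc (trc (a2, a4, a3 ^ 2) (-b)) b).2.1)) =
        (b, a2, a3, a4)
      rw [htt]

end

end

end Pool.Agent.Helper19.DP1
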