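import Mathlib

/-!
# Degree 1 del Pezzo surfaces as sextics in `P(1,1,2,3)` : definitions of the final statement

`K` is a finite field of odd order. The homogeneous coordinates of `P(1,1,2,3)` are
`x0 = X 0`, `x1 = X 1` (weight 1), `z = X 2` (weight 2), `y = X 3` (weight 3).
-/

namespace Pool.Agent.Helper19.DP1

open MvPolynomial

noncomputable section

section
variable {K : Type*} [Field K]

/-- the binary form `∑ c_i x0^i x1^(n-i)` -/
def bf (n : ℕ) (c : Fin (n + 1) → K) : MvPolynomial (Fin 2) K :=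
  ∑ i : Fin (n + 1), C (c i) * X 0 ^ (i : ℕ) * X 1 ^ (n - (i : ℕ))

/-- binary forms as polynomials in `x0,x1,z,y` -/
def inc : MvPolynomial (Fin 2) K →ₐ[K] MvPolynomial (Fin 4) K := rename ![0, 1]

/-- The sextic `y^2 = z^3 + a2 z^2 + a4 z + a6`, where `a2, a4, a6` are the binary forms of
degrees 2, 4, 6 with the given coefficients. -/
def sext (a : (Fin 3 → K) × (Fin 5 → K) × (Fin 7 → K)) : MvPolynomial (Fin 4) K :=
  X 3 ^ 2 - (X 2 ^ 3 + inc (bf 2 a.1) * X 2 ^ 2 + inc (bf 4 a.2.1) * X 2 + inc (bf 6 a.2.2))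

/-- The hypersurface `F = 0` is geometrically smooth: at every geometric point of `F = 0` (different
from the origin) some partial derivative is nonzero. -/
def Smooth4 (F : MvPolynomial (Fin 4) K) : Prop :=
  ∀ P : Fin 4 → AlgebraicClosure K, P ≠ 0 → aeval P F = 0 → ∃ i, aeval P (pderiv i F) ≠ 0

/-- The `K`-lines of the surface `F = 0`: the curves `z = b2(x0,x1)`, `y = b3(x0,x1)` (`b2`, `b3`
binary forms over `K` of degrees 2, 3) contained in it. -/
def lines (F : MvPolynomial (Fin 4) K) : Set ((Fin 3 → K) × (Fin 4 → K)) :=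
  {b | aeval ![X 0, X 1, bf 2 b.1, bf 3 b.2] F = (0 : MvPolynomial (Fin 2) K)}

/-- the linear forms `g_(i0) x0 + g_(i1) x1` -/
def lin2 (g : Matrix.GeneralLinearGroup (Fin 2) K) (i : Fin 2) : MvPolynomial (Fin 2) K :=
  C (g i 0) * X 0 + C (g i 1) * X 1

/-- `ψ` is the substitution `(x0,x1) ↦ g (x0,x1)`, `z ↦ e^2 z + s(x0,x1)`, `y ↦ e^3 y`. -/
def IsSub (ψ : MvPolynomial (Fin 4) K ≃ₐ[K] MvPolynomial (Fin 4) K)
    (g : Matrix.GeneralLinearGroup (Fin 2) K) (e : Kˣ) (s : Fin 3 → K) : Prop :=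
  ψ (X 0) = inc (lin2 g 0) ∧ ψ (X 1) = inc (lin2 g 1) ∧
    ψ (X 2) = C ((e : K) ^ 2) * X 2 + inc (bf 2 s) ∧ ψ (X 3) = C ((e : K) ^ 3) * X 3

end

end

end Pool.Agent.Helper19.DP1
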