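import Pool.Agent.Helper19.DP1.Defs

/-! Definitions of the finite sums over `K` to which the counting problems are reduced. -/

namespace Pool.Agent.Helper19.DP1
open Polynomial Classical
noncomputable section

section
variable (K : Type*) [Field K] [Fintype K]

variable {K} in
/-- no common zero of a cubic form `A` and a quartic form `B` -/
def Cop (A B : K[X]) : Prop := ∀ p : P1 K, ¬ (ev 3 (up A) p = 0 ∧ ev 4 (up B) p = 0)

/-- sum for two points: `f` singular at `(p,0)`, `P(p)=0` -/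
def PC3 : ℤ :=
  ∑ P ∈ V K 2, quadraticChar K (disc2 P) *
    ((((V K 1 ×ˢ V K 2 ×ˢ V K 1 ×ˢ (Finset.univ : Finset K))).filter
      (fun x => Cop (P * x.2.2.1 - 2 * x.1 * x.2.1) (C x.2.2.2 * P ^ 2 - x.2.1 ^ 2))).card : ℤ)

/-- sum for four points in general position -/
def PC6 : ℤ :=
  ∑ ε ∈ (Finset.univ : Finset K).filter (fun ε => ε ≠ 0),
    ∑ z ∈ (V K 2).filter (fun z => z.coeff 2 ≠ 0), ∑ m ∈ V K 2,
      if ∃ x : Om K, (up z).eval x = 0 ∧ 4 * (up m).eval x = algebraMap K (Om K) ε then 0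
      else mob (z ^ 2 + m)

/-- sum for three collinear points and one further point -/
def PC7 : ℤ :=
  ∑ b ∈ Mon K 3, ∑ ν ∈ (Finset.univ : Finset K).filter (fun ν => ν ≠ 0), ∑ c11 : K, ∑ c10 : K,
    ∑ c20 : K,
      if 2 * ν + c11 ≠ 0 ∧ ∀ x : Om K, (up b).eval x = 0 →
        (up ((C c11 * X + C c10) ^ 2 - 4 * (C (-3 * ν ^ 2 - 2 * c11 * ν) * X ^ 2
          + C (-(c10 * ν + ν * (2 * ν + c11) * b.coeff 2)) * X + C c20))).eval x ≠ 0
      then mob b else 0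

/-- sum for five points -/
def PC8 : ℤ :=
  ∑ κ ∈ (Finset.univ : Finset K).filter (fun κ => κ ≠ 0), ∑ c1 ∈ V K 1, ∑ c2 ∈ V K 2,
    if c2.coeff 2 ≠ 0 ∧ c1.coeff 1 ^ 2 ≠ 4 * c2.coeff 2 then
      mob ((c2 + C κ) ^ 2 - C κ * c1 ^ 2) else 0

/-- number of twisted quartics with nodes at a twisted coordinate triangle and without square
lines through the base point -/
def Ec (σ : Equiv.Perm (Fin 3)) : ℕ :=
  Set.ncard {x : (Fin 3 → Om K) × (Fin 3 → Om K) | x.1 ∈ Rs K σ ∧ x.2 ∈ Rs K σ ∧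
    (∑ i, x.2 i = 1) ∧ (∀ i, x.2 i ^ 2 ≠ x.1 i) ∧
    ¬ ∃ u : Fin 3 → Om K, (∀ i, u i ^ 2 = x.1 i) ∧ ∑ i, u i = 1}

/-- `x` (i.e. determinant of two linear forms) -/
def det1 {L : Type*} [Field L] (a b : L[X]) : L := a.coeff 1 * b.coeff 0 - a.coeff 0 * b.coeff 1

/-- affine frames in the space of sections of degree 1, twisted by `σ` -/
def Fr (σ : Equiv.Perm (Fin 3)) : Set (Fin 3 → (Om K)[X]) :=
  {m | (∀ i, (m i).natDegree ≤ 1) ∧ (∀ i, phi K (m i) = m (σ i)) ∧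
    det1 (m 0 - m 2) (m 1 - m 2) ≠ 0}

/-- quadruples of lines with six distinct intersection abscissae, twisted by `σ` -/
def Qu (σ : Equiv.Perm (Fin 4)) : Set (Fin 4 → (Om K)[X]) :=
  {m | (∀ i, (m i).natDegree ≤ 1) ∧ (∀ i, phi K (m i) = m (σ i)) ∧
    ∀ i j k l : Fin 4, i < j → k < l → (i, j) ≠ (k, l) → det1 (m i - m j) (m k - m l) ≠ 0}

end

section
variable (K : Type*) [Field K] [Fintype K]

/-- general position -/
def Gen (f : K[X][X]) (T : Finset (P1 K)) : Prop :=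
  ∀ T' ⊆ T, T'.card = 3 → ¬ Coll (up2 f) T'

/-- general position, the pencil of conics through the points having its vertex-type base line over
the rational point `r` -/
def GenAt (r : Option K) (f : K[X][X]) (T : Finset (P1 K)) : Prop :=
  Gen K f T ∧ ∃ l m : K[X], l.natDegree ≤ 1 ∧ m.natDegree ≤ 2 ∧ l ≠ 0 ∧ ev 1 l r = 0 ∧
    ∀ p ∈ T, ∃ v, Sing 1 4 (up2 f) p v ∧ ev 1 (up l) p * v + ev 2 (up m) p = 0

/-- three collinear points and the fourth point over `r` -/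
def ColAt (r : Option K) (f : K[X][X]) (T : Finset (P1 K)) : Prop :=
  ∃ T' ⊆ T, T'.card = 3 ∧ Coll (up2 f) T' ∧ upP r ∈ T ∧ upP r ∉ T'

/-- five points, the vertex of the line pair lying over `r` -/
def VtxAt (r : Option K) (f : K[X][X]) (T : Finset (P1 K)) : Prop :=
  ∃ a b : (Om K)[X], a.natDegree ≤ 1 ∧ b.natDegree ≤ 1 ∧ a ≠ b ∧ ev 1 (a - b) (upP r) = 0 ∧
    upP r ∈ T ∧ ∃ h : (Om K)[X][X], WP 1 2 h ∧ up2 f = (X - C a) * (X - C b) * h ∧
      ∀ p ∈ T, p ≠ upP r → ev 4 (h.eval a * h.eval b) p = 0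

end

end
end Pool.Agent.Helper19.DP1
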