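import Pool.Agent.Helper19.DP1.M1
import Pool.Agent.Helper19.DP1.Core2b
import Pool.Agent.Helper19.DP1.Sums

/-! M10: the sum for two points. -/

namespace Pool.Agent.Helper19.DP1
open Polynomial Classical
noncomputable section

set_option linter.unusedSectionVars false

section field
variable {F : Type*} [Field F] [Fintype F]

theorem m10_char (h2 : (2 : F) ≠ 0) : ringChar F ≠ 2 := by
  intro h
  apply h2
  have := ringChar.Nat.cast_ringChar (R := F)
  rw [h] at this
  exact_mod_cast this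

theorem m10_sqrts (h2 : (2 : F) ≠ 0) (a : F) :
    ∑ t : F, (if t ^ 2 = a then (1 : ℤ) else 0) = quadraticChar F a + 1 := by
  rw [← quadraticChar_card_sqrts (m10_char h2) a]
  rw [Finset.sum_boole]
  congr 2
  ext x
  simp

theorem m10_chi_sq (a y : F) (hy : y ≠ 0) :
    quadraticChar F (a * y ^ 2) = quadraticChar F a := by
  rw [map_mul, quadraticChar_sq_one' hy, mul_one]

theorem m10_chi_sq_self {a : F} (ha : a ≠ 0) : quadraticChar F a * quadraticChar F a = 1 := by
  rw [← sq]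
  exact quadraticChar_sq_one ha

/-- sum of `χ(D y^2)` -/
theorem m10_sum_sq (D : F) :
    ∑ y : F, quadraticChar F (D * y ^ 2) = ((Fintype.card F : ℤ) - 1) * quadraticChar F D := by
  rw [← Finset.add_sum_erase _ _ (Finset.mem_univ (0 : F))]
  have h : ∀ y ∈ Finset.univ.erase (0 : F), quadraticChar F (D * y ^ 2) = quadraticChar F D := by
    intro y hy
    exact m10_chi_sq D y (Finset.ne_of_mem_erase hy)
  rw [Finset.sum_congr rfl h, Finset.sum_const, Finset.card_erase_of_mem (Finset.mem_univ _),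
    Finset.card_univ]
  simp only [nsmul_eq_mul, ne_eq, OfNat.ofNat_ne_zero, not_false_eq_true, zero_pow, mul_zero,
    quadraticChar_zero, zero_add]
  rw [Nat.cast_sub Fintype.card_pos]
  simp

/-- number of zeros of a binary quadratic form -/
theorem m10_zeros (h2 : (2 : F) ≠ 0) (A B C : F) (h : ¬ (A = 0 ∧ B = 0 ∧ C = 0)) :
    ∑ x : F, ∑ y : F, (if A * x ^ 2 + B * x * y + C * y ^ 2 = 0 then (1 : ℤ) else 0) =
      Fintype.card F + ((Fintype.card F : ℤ) - 1) * quadraticChar F (B ^ 2 - 4 * A * C) := by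
  rw [Finset.sum_comm]
  by_cases hA : A = 0
  · subst hA
    rw [← Finset.add_sum_erase _ _ (Finset.mem_univ (0 : F))]
    have h0 : ∑ x : F, (if 0 * x ^ 2 + B * x * 0 + C * 0 ^ 2 = 0 then (1 : ℤ) else 0) =
        Fintype.card F := by
      simp
    rw [h0]
    congr 1
    have h1 : ∀ y ∈ Finset.univ.erase (0 : F),
        ∑ x : F, (if 0 * x ^ 2 + B * x * y + C * y ^ 2 = 0 then (1 : ℤ) else 0) =
        quadraticChar F (B ^ 2 - 4 * 0 * C) := by
      intro y hy
      have hy0 : y ≠ 0 := Finset.ne_of_mem_erase hy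
      by_cases hB : B = 0
      · subst hB
        have hC : C ≠ 0 := fun hC => h ⟨rfl, rfl, hC⟩
        have : ∀ x : F, ¬ (0 * x ^ 2 + 0 * x * y + C * y ^ 2 = 0) := by
          intro x hx
          have : C * y ^ 2 = 0 := by linear_combination hx
          exact mul_ne_zero hC (pow_ne_zero 2 hy0) this
        simp only [this, if_false]
        simp
      · have : ∀ x : F, (0 * x ^ 2 + B * x * y + C * y ^ 2 = 0) ↔ x = - (C * y) / B := by
          intro x
          rw [eq_div_iff hB]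
          constructor
          · intro hx
            apply mul_left_cancel₀ hy0
            linear_combination hx
          · intro hx
            linear_combination y * hx
        simp only [this]
        have h4 : B ^ 2 - 4 * 0 * C = B ^ 2 := by ring
        rw [h4, quadraticChar_sq_one' hB]
        simp
    rw [Finset.sum_congr rfl h1, Finset.sum_const, Finset.card_erase_of_mem (Finset.mem_univ _),
      Finset.card_univ, nsmul_eq_mul, Nat.cast_sub Fintype.card_pos]
    simp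
  · have h1 : ∀ y : F,
        ∑ x : F, (if A * x ^ 2 + B * x * y + C * y ^ 2 = 0 then (1 : ℤ) else 0) =
        quadraticChar F ((B ^ 2 - 4 * A * C) * y ^ 2) + 1 := by
      intro y
      rw [← m10_sqrts h2]
      have h2A : 2 * A ≠ 0 := mul_ne_zero h2 hA
      let e : F ≃ F := (Equiv.mulLeft₀ (2 * A) h2A).trans (Equiv.addRight (B * y))
      refine Fintype.sum_equiv e _ _ ?_
      intro x
      have he : e x = 2 * A * x + B * y := rfl
      rw [he]
      congr 1
      rw [eq_iff_iff]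
      constructor
      · intro hx
        linear_combination (4 * A) * hx
      · intro hx
        have h4A : (4 * A) ≠ 0 := by
          have : (4 * A) = 2 * (2 * A) := by ring
          rw [this]
          exact mul_ne_zero h2 h2A
        apply mul_left_cancel₀ h4A
        linear_combination hx
    simp only [h1]
    rw [Finset.sum_add_distrib, m10_sum_sq]
    simp
    ring

/-- number of non-zeros of a binary quadratic form -/
theorem m10_nonzeros (h2 : (2 : F) ≠ 0) (A B C : F) (h : ¬ (A = 0 ∧ B = 0 ∧ C = 0)) :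
    ∑ x : F, ∑ y : F, (if A * x ^ 2 + B * x * y + C * y ^ 2 ≠ 0 then (1 : ℤ) else 0) =
      ((Fintype.card F : ℤ) - 1) * (Fintype.card F - quadraticChar F (B ^ 2 - 4 * A * C)) := by
  have h1 : ∀ x y : F, (if A * x ^ 2 + B * x * y + C * y ^ 2 ≠ 0 then (1 : ℤ) else 0) =
      1 - (if A * x ^ 2 + B * x * y + C * y ^ 2 = 0 then (1 : ℤ) else 0) := by
    intro x y
    by_cases hx : A * x ^ 2 + B * x * y + C * y ^ 2 = 0
    · simp [hx]
    · simp [hx]
  simp only [h1, Finset.sum_sub_distrib]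
  rw [m10_zeros h2 A B C h]
  simp
  ring

end field

section sums
variable {K : Type*} [Field K] [Fintype K]

theorem m10_translate {M : Type*} [AddCommMonoid M] {n : ℕ} {g : K[X]} (hg : g.natDegree ≤ n)
    (f : K[X] → M) : ∑ u ∈ V K n, f (u + g) = ∑ u ∈ V K n, f u := by
  apply Finset.sum_nbij' (fun u => u + g) (fun u => u - g)
  · intro u hu
    rw [mem_V] at hu ⊢
    exact (natDegree_add_le _ _).trans (max_le hu hg)
  · intro u hu
    rw [mem_V] at hu ⊢
    exact (natDegree_sub_le _ _).trans (max_le hu hg)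
  · intro u _
    exact add_sub_cancel_right u g
  · intro u _
    exact sub_add_cancel u g
  · intro u _
    rfl

theorem m10_coeffs (a b c : K) :
    (C a * X ^ 2 + C b * X + C c : K[X]).coeff 0 = c ∧
    (C a * X ^ 2 + C b * X + C c : K[X]).coeff 1 = b ∧
    (C a * X ^ 2 + C b * X + C c : K[X]).coeff 2 = a := by
  simp only [coeff_add, coeff_C_mul, coeff_X_pow, coeff_X, coeff_C]
  norm_num

theorem m10_disc (a b c : K) : disc2 (C a * X ^ 2 + C b * X + C c : K[X]) = b ^ 2 - 4 * a * c := by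
  obtain ⟨h0, h1, h2⟩ := m10_coeffs a b c
  simp only [disc2, h0, h1, h2]

theorem m10_sum_linear (h2 : (2 : K) ≠ 0) (a b : K) (ha : a ≠ 0) :
    ∑ x : K, quadraticChar K (b + a * x) = 0 := by
  have : ∑ x : K, quadraticChar K (b + a * x) = ∑ y : K, quadraticChar K y := by
    refine Fintype.sum_equiv ((Equiv.mulLeft₀ a ha).trans (Equiv.addLeft b)) _ _ ?_
    intro x
    rfl
  rw [this]
  exact quadraticChar_sum_zero (m10_char h2)

theorem m10_sum_disc (h2 : (2 : K) ≠ 0) :
    ∑ w ∈ V K 2, quadraticChar K (disc2 w) =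
      (Fintype.card K : ℤ) * ((Fintype.card K : ℤ) - 1) := by
  rw [sum_V2]
  simp only [m10_disc]
  rw [← Finset.add_sum_erase _ _ (Finset.mem_univ (0 : K))]
  have h4 : (4 : K) ≠ 0 := by
    have : (4 : K) = 2 * 2 := by norm_num
    rw [this]
    exact mul_ne_zero h2 h2
  have h1 : ∀ a ∈ Finset.univ.erase (0 : K),
      ∑ b : K, ∑ c : K, quadraticChar K (b ^ 2 - 4 * a * c) = 0 := by
    intro a ha
    have ha0 : a ≠ 0 := Finset.ne_of_mem_erase ha
    apply Finset.sum_eq_zero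
    intro b _
    have := m10_sum_linear h2 (-(4 * a)) (b ^ 2) (neg_ne_zero.mpr (mul_ne_zero h4 ha0))
    rw [← this]
    apply Finset.sum_congr rfl
    intro c _
    congr 1
    ring
  rw [Finset.sum_eq_zero h1, add_zero]
  have h3 : ∀ b c : K, quadraticChar K (b ^ 2 - 4 * 0 * c) = quadraticChar K (1 * b ^ 2) := by
    intro b c
    congr 1
    ring
  simp only [h3]
  simp only [Finset.sum_const, Finset.card_univ, nsmul_eq_mul]
  rw [← Finset.mul_sum, m10_sum_sq]
  simp

theorem m10_sum_disc_sq (h2 : (2 : K) ≠ 0) :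
    ∑ w ∈ V K 2, quadraticChar K (disc2 w) * quadraticChar K (disc2 w) =
      (Fintype.card K : ℤ) ^ 2 * ((Fintype.card K : ℤ) - 1) := by
  have h4 : (4 : K) ≠ 0 := by
    have : (4 : K) = 2 * 2 := by norm_num
    rw [this]
    exact mul_ne_zero h2 h2
  have h1 : ∀ x : K, quadraticChar K x * quadraticChar K x =
      1 - (if x = 0 then (1 : ℤ) else 0) := by
    intro x
    by_cases hx : x = 0
    · simp [hx]
    · rw [m10_chi_sq_self hx, if_neg hx, sub_zero]
  simp only [h1]
  rw [Finset.sum_sub_distrib]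
  have hcard : ∑ w ∈ V K 2, (1 : ℤ) = (Fintype.card K : ℤ) ^ 3 := by
    rw [Finset.sum_const, card_V]
    simp
  rw [hcard, sum_V2]
  simp only [m10_disc]
  have h5 : ∑ a : K, ∑ b : K, ∑ c : K, (if b ^ 2 - 4 * a * c = 0 then (1 : ℤ) else 0) =
      ∑ a : K, ∑ c : K, (quadraticChar K (4 * a * c) + 1) := by
    apply Finset.sum_congr rfl
    intro a _
    rw [Finset.sum_comm]
    apply Finset.sum_congr rfl
    intro c _
    rw [← m10_sqrts h2]
    simp only [sub_eq_zero]
  rw [h5]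
  simp only [Finset.sum_add_distrib]
  have h6 : ∑ a : K, ∑ c : K, quadraticChar K (4 * a * c) = 0 := by
    apply Finset.sum_eq_zero
    intro a _
    by_cases ha : a = 0
    · simp [ha]
    · have := m10_sum_linear h2 (4 * a) 0 (mul_ne_zero h4 ha)
      simpa using this
  rw [h6]
  simp
  ring

theorem m10_single (t : K) (Q : Prop) :
    ∑ x : K, (if x = t ∧ Q then (1 : ℤ) else 0) = if Q then 1 else 0 := by
  by_cases hQ : Q
  · simp [hQ]
  · simp [hQ]

/-- the cone of squares orthogonal to `w` -/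
theorem m10_Z (h2 : (2 : K) ≠ 0) {w : K[X]} (hD : disc2 w ≠ 0) :
    ∑ u ∈ V K 2, (if pol2 w u = 0 ∧ disc2 u = 0 then (1 : ℤ) else 0) =
      Fintype.card K + ((Fintype.card K : ℤ) - 1) * quadraticChar K (disc2 w) := by
  have h4 : (4 : K) ≠ 0 := by
    have : (4 : K) = 2 * 2 := by norm_num
    rw [this]
    exact mul_ne_zero h2 h2
  rw [sum_V2]
  set a := w.coeff 2 with ha
  set b := w.coeff 1 with hb
  set c := w.coeff 0 with hc
  have hDw : disc2 w = b ^ 2 - 4 * a * c := rfl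
  have hp : ∀ x y z : K, pol2 w (C x * X ^ 2 + C y * X + C z) =
      2 * b * y - 4 * a * z - 4 * x * c := by
    intro x y z
    obtain ⟨h0, h1, h2⟩ := m10_coeffs x y z
    simp only [pol2, h0, h1, h2]
    rfl
  simp only [hp, m10_disc]
  by_cases hc0 : c = 0
  · have hb0 : b ≠ 0 := by
      rintro hb0
      apply hD
      rw [hDw, hb0, hc0]
      ring
    have hz := m10_zeros h2 (c ^ 2) (2 * a * c - b ^ 2) (a ^ 2) (by
      rintro ⟨-, h, -⟩
      apply hb0
      have : b ^ 2 = 0 := by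
        rw [hc0] at h
        linear_combination -h
      exact pow_eq_zero_iff (n := 2) (by norm_num) |>.mp this)
    have hchi : quadraticChar K ((2 * a * c - b ^ 2) ^ 2 - 4 * c ^ 2 * a ^ 2) =
        quadraticChar K (disc2 w) := by
      have : (2 * a * c - b ^ 2) ^ 2 - 4 * c ^ 2 * a ^ 2 = disc2 w * b ^ 2 := by
        rw [hDw]
        ring
      rw [this, m10_chi_sq _ _ hb0]
    rw [← hchi, ← hz]
    apply Finset.sum_congr rfl
    intro x _
    rw [Finset.sum_comm]
    apply Finset.sum_congr rfl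
    intro z _
    have hy : ∀ y : K, (2 * b * y - 4 * a * z - 4 * x * c = 0 ∧ y ^ 2 - 4 * x * z = 0) ↔
        (y = (2 * a * z + 2 * x * c) / b ∧
          c ^ 2 * x ^ 2 + (2 * a * c - b ^ 2) * x * z + a ^ 2 * z ^ 2 = 0) := by
      intro y
      rw [eq_div_iff hb0]
      constructor
      · rintro ⟨e1, e2⟩
        have e1' : y * b = 2 * a * z + 2 * x * c := by
          apply mul_left_cancel₀ h2
          linear_combination e1
        refine ⟨e1', ?_⟩
        apply mul_left_cancel₀ h4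
        linear_combination (-(y * b) - (2 * a * z + 2 * x * c)) * e1' + b ^ 2 * e2
      · rintro ⟨e1, e2⟩
        refine ⟨by linear_combination 2 * e1, ?_⟩
        apply mul_left_cancel₀ (pow_ne_zero 2 hb0)
        linear_combination (y * b + (2 * a * z + 2 * x * c)) * e1 + 4 * e2
    simp only [hy]
    exact m10_single _ _
  · have hz := m10_zeros h2 c (-(2 * b)) (4 * a) (by
      rintro ⟨h, -, -⟩
      exact hc0 h)
    have hchi : quadraticChar K ((-(2 * b)) ^ 2 - 4 * c * (4 * a)) =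
        quadraticChar K (disc2 w) := by
      have : (-(2 * b)) ^ 2 - 4 * c * (4 * a) = disc2 w * 2 ^ 2 := by
        rw [hDw]
        ring
      rw [this, m10_chi_sq _ _ h2]
    rw [← hchi, ← hz, Finset.sum_comm]
    apply Finset.sum_congr rfl
    intro y _
    rw [Finset.sum_comm]
    apply Finset.sum_congr rfl
    intro z _
    have hx : ∀ x : K, (2 * b * y - 4 * a * z - 4 * x * c = 0 ∧ y ^ 2 - 4 * x * z = 0) ↔
        (x = (b * y - 2 * a * z) / (2 * c) ∧
          c * y ^ 2 + -(2 * b) * y * z + 4 * a * z ^ 2 = 0) := by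
      intro x
      rw [eq_div_iff (mul_ne_zero h2 hc0)]
      constructor
      · rintro ⟨e1, e2⟩
        have e1' : x * (2 * c) = b * y - 2 * a * z := by
          apply mul_left_cancel₀ h2
          linear_combination -e1
        refine ⟨e1', ?_⟩
        linear_combination (2 * z) * e1' + c * e2
      · rintro ⟨e1, e2⟩
        refine ⟨by linear_combination (-2) * e1, ?_⟩
        apply mul_left_cancel₀ hc0
        linear_combination (-2 * z) * e1 + e2
    simp only [hx]
    exact m10_single _ _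

theorem m10_pol_add (P u w : K[X]) (l : K) :
    pol2 P (u + C l * w) = pol2 P u + l * pol2 P w := by
  simp only [pol2, coeff_add, coeff_C_mul]
  ring

theorem m10_pol_self (P : K[X]) : pol2 P P = 2 * disc2 P := by
  simp only [pol2, disc2]
  ring

theorem m10_disc_add (P u : K[X]) (l : K) :
    disc2 (u + C l * P) = disc2 u + l * pol2 P u + l ^ 2 * disc2 P := by
  simp only [pol2, disc2, coeff_add, coeff_C_mul]
  ring

theorem m10_Cw (h2 : (2 : K) ≠ 0) {w : K[X]} (hw : w ∈ V K 2) (hD : disc2 w ≠ 0) :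
    ∑ u ∈ V K 2, (if pol2 w u ^ 2 - 4 * disc2 w * disc2 u ≠ 0 then quadraticChar K (disc2 u)
      else 0) = ((Fintype.card K : ℤ) - 1) *
        (1 - (Fintype.card K : ℤ) * quadraticChar K (disc2 w)) := by
  have hwd : w.natDegree ≤ 2 := mem_V.mp hw
  have h4 : (4 : K) ≠ 0 := by
    have : (4 : K) = 2 * 2 := by norm_num
    rw [this]
    exact mul_ne_zero h2 h2
  have h1 : ∀ u : K[X], (if pol2 w u ^ 2 - 4 * disc2 w * disc2 u ≠ 0 then
      quadraticChar K (disc2 u) else 0) = quadraticChar K (disc2 u) -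
      (if pol2 w u ^ 2 - 4 * disc2 w * disc2 u = 0 then quadraticChar K (disc2 u) else 0) := by
    intro u
    by_cases h : pol2 w u ^ 2 - 4 * disc2 w * disc2 u = 0
    · simp [h]
    · simp [h]
  simp only [h1]
  rw [Finset.sum_sub_distrib, m10_sum_disc h2]
  -- decomposition along `w`
  have h3 : ∑ u ∈ V K 2, (if pol2 w u ^ 2 - 4 * disc2 w * disc2 u = 0 then
      quadraticChar K (disc2 u) else 0) =
      ∑ l : K, ∑ u ∈ V K 2, (if pol2 w u = 2 * disc2 w * l then
        (if pol2 w u ^ 2 - 4 * disc2 w * disc2 u = 0 then quadraticChar K (disc2 u) else 0)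
        else 0) := by
    rw [Finset.sum_comm]
    apply Finset.sum_congr rfl
    intro u _
    rw [Finset.sum_eq_single (pol2 w u / (2 * disc2 w))]
    · have e : pol2 w u = 2 * disc2 w * (pol2 w u / (2 * disc2 w)) := by field_simp
      rw [if_pos e]
    · intro l _ hl
      rw [if_neg]
      intro h
      apply hl
      rw [h]
      field_simp
    · intro h
      exact absurd (Finset.mem_univ _) h
  rw [h3]
  have h5 : ∀ l : K, ∑ u ∈ V K 2, (if pol2 w u = 2 * disc2 w * l then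
        (if pol2 w u ^ 2 - 4 * disc2 w * disc2 u = 0 then quadraticChar K (disc2 u) else 0)
        else 0) =
      quadraticChar K (disc2 w * l ^ 2) *
        ∑ u ∈ V K 2, (if pol2 w u = 0 ∧ disc2 u = 0 then (1 : ℤ) else 0) := by
    intro l
    rw [← m10_translate (n := 2) (g := C l * w) ((natDegree_C_mul_le _ _).trans hwd),
      Finset.mul_sum]
    apply Finset.sum_congr rfl
    intro u _
    rw [m10_pol_add, m10_pol_self, m10_disc_add]
    by_cases hp : pol2 w u = 0
    · rw [hp]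
      have e1 : (0 : K) + l * (2 * disc2 w) = 2 * disc2 w * l := by ring
      rw [if_pos e1]
      by_cases hd : disc2 u = 0
      · rw [hd, if_pos (by ring), if_pos ⟨rfl, rfl⟩, mul_one]
        congr 1
        ring
      · rw [if_neg, if_neg]
        · simp
        · rintro ⟨-, h⟩
          exact hd h
        · intro h
          apply hd
          apply mul_left_cancel₀ (mul_ne_zero h4 hD)
          linear_combination -h
    · rw [if_neg, if_neg]
      · simp
      · rintro ⟨h, -⟩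
        exact hp h
      · intro h
        apply hp
        linear_combination h
  simp only [h5]
  rw [← Finset.sum_mul, m10_sum_sq, m10_Z h2 hD]
  have hs : quadraticChar K (disc2 w) * quadraticChar K (disc2 w) = 1 := m10_chi_sq_self hD
  linear_combination (-((Fintype.card K : ℤ) - 1) ^ 2) * hs

/-- the basic sum -/
theorem m10_X (h2 : (2 : K) ≠ 0) :
    ∑ w ∈ V K 2, ∑ u ∈ V K 2, (if pol2 w u ^ 2 - 4 * disc2 w * disc2 u ≠ 0 then
      quadraticChar K (disc2 w) * quadraticChar K (disc2 u) else 0) =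
      - ((Fintype.card K : ℤ) - 1) * G2 K := by
  have h1 : ∀ w ∈ V K 2, ∑ u ∈ V K 2, (if pol2 w u ^ 2 - 4 * disc2 w * disc2 u ≠ 0 then
      quadraticChar K (disc2 w) * quadraticChar K (disc2 u) else 0) =
      ((Fintype.card K : ℤ) - 1) * quadraticChar K (disc2 w) -
      ((Fintype.card K : ℤ) - 1) * (Fintype.card K : ℤ) *
        (quadraticChar K (disc2 w) * quadraticChar K (disc2 w)) := by
    intro w hw
    by_cases hD : disc2 w = 0
    · simp [hD]
    · have := m10_Cw h2 hw hD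
      have h3 : ∀ u : K[X], (if pol2 w u ^ 2 - 4 * disc2 w * disc2 u ≠ 0 then
          quadraticChar K (disc2 w) * quadraticChar K (disc2 u) else 0) =
          quadraticChar K (disc2 w) * (if pol2 w u ^ 2 - 4 * disc2 w * disc2 u ≠ 0 then
          quadraticChar K (disc2 u) else 0) := by
        intro u
        rw [mul_ite, mul_zero]
      simp only [h3]
      rw [← Finset.mul_sum, this]
      ring
  rw [Finset.sum_congr rfl h1, Finset.sum_sub_distrib, ← Finset.mul_sum, ← Finset.mul_sum,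
    m10_sum_disc h2, m10_sum_disc_sq h2]
  unfold G2
  ring

end sums

section cop
variable {L : Type*} [Field L]

/-- resultant of a linear and a quadratic form -/
def m10rs (g2 g1 g0 h1 h0 : L) : L := g2 * h0 ^ 2 - g1 * h0 * h1 + g0 * h1 ^ 2

theorem m10_common [IsAlgClosed L] {h g : L[X]} (hh : h.natDegree ≤ 1) (hg : g.natDegree ≤ 2) :
    (∃ p, ev 1 h p = 0 ∧ ev 2 g p = 0) ↔
      m10rs (g.coeff 2) (g.coeff 1) (g.coeff 0) (h.coeff 1) (h.coeff 0) = 0 := by
  have evh : ∀ t : L, ev 1 h (some t) = h.coeff 1 * t + h.coeff 0 := by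
    intro t
    simp only [ev]
    rw [eval_eq_sum_range' (n := 2) (by omega)]
    simp only [Finset.sum_range_succ, Finset.sum_range_zero]
    ring
  unfold m10rs
  constructor
  · rintro ⟨p, hp, hq⟩
    rcases p with _ | t
    · have e1 : h.coeff 1 = 0 := hp
      have e2 : g.coeff 2 = 0 := hq
      rw [e1, e2]
      ring
    · rw [evh] at hp
      rw [c2b_ev_some hg] at hq
      have e : h.coeff 0 = - (h.coeff 1 * t) := by linear_combination hp
      rw [e]
      linear_combination (h.coeff 1) ^ 2 * hq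
  · intro hr
    by_cases h1 : h.coeff 1 = 0
    · by_cases h0 : h.coeff 0 = 0
      · obtain ⟨p, hp⟩ := exists_zero (n := 2) (by norm_num) hg
        refine ⟨p, ?_, hp⟩
        rcases p with _ | t
        · exact h1
        · rw [evh, h1, h0]
          ring
      · refine ⟨none, h1, ?_⟩
        rw [h1] at hr
        have : g.coeff 2 * h.coeff 0 ^ 2 = 0 := by linear_combination hr
        rcases mul_eq_zero.mp this with h' | h'
        · exact h'
        · exact absurd h' (pow_ne_zero 2 h0)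
    · refine ⟨some (-(h.coeff 0) / h.coeff 1), ?_, ?_⟩
      · rw [evh]
        field_simp
        ring
      · rw [c2b_ev_some hg]
        field_simp
        linear_combination hr

theorem m10_cop_aux [IsAlgClosed L] (h2 : (2 : L) ≠ 0) {P β α γ : L[X]} (hP : P.natDegree ≤ 2)
    (hβ : β.natDegree ≤ 2) (hα : α.natDegree ≤ 1) (hγ : γ.natDegree ≤ 1) (ρ : L) :
    (∀ p : Option L, ¬ (ev 3 (P * γ - C 2 * (α * β)) p = 0 ∧
      ev 4 (C (ρ ^ 2) * P ^ 2 - β ^ 2) p = 0)) ↔
    (pol2 P β ^ 2 - 4 * disc2 P * disc2 β ≠ 0 ∧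
      m10rs (β.coeff 2 - ρ * P.coeff 2) (β.coeff 1 - ρ * P.coeff 1) (β.coeff 0 - ρ * P.coeff 0)
        (γ.coeff 1 - 2 * ρ * α.coeff 1) (γ.coeff 0 - 2 * ρ * α.coeff 0) ≠ 0 ∧
      m10rs (β.coeff 2 + ρ * P.coeff 2) (β.coeff 1 + ρ * P.coeff 1) (β.coeff 0 + ρ * P.coeff 0)
        (γ.coeff 1 + 2 * ρ * α.coeff 1) (γ.coeff 0 + 2 * ρ * α.coeff 0) ≠ 0) := by
  have hA : ∀ p, ev 3 (P * γ - C 2 * (α * β)) p =
      ev 2 P p * ev 1 γ p - 2 * (ev 1 α p * ev 2 β p) := by
    intro p
    rw [ev_sub, ev_C_mul, show (3 : ℕ) = 2 + 1 by norm_num, ev_mul hP hγ,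
      show (2 + 1 : ℕ) = 1 + 2 by norm_num, ev_mul hα hβ]
  have hB : ∀ p, ev 4 (C (ρ ^ 2) * P ^ 2 - β ^ 2) p =
      (ρ * ev 2 P p - ev 2 β p) * (ρ * ev 2 P p + ev 2 β p) := by
    intro p
    rw [ev_sub, ev_C_mul, show (4 : ℕ) = 2 * 2 by norm_num, ev_pow hP, ev_pow hβ]
    ring
  have c1 : (∃ p, ev 2 P p = 0 ∧ ev 2 β p = 0) ↔
      pol2 P β ^ 2 - 4 * disc2 P * disc2 β = 0 := by
    rw [common_zero_iff h2 hP hβ, sub_eq_zero]
  have hsub : ∀ (n : ℕ) (U W : L[X]) (k : L) (p : Option L),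
      ev n (U - C k * W) p = ev n U p - k * ev n W p := by
    intro n U W k p
    rw [ev_sub, ev_C_mul]
  have hadd : ∀ (n : ℕ) (U W : L[X]) (k : L) (p : Option L),
      ev n (U + C k * W) p = ev n U p + k * ev n W p := by
    intro n U W k p
    rw [ev_add, ev_C_mul]
  have c2 : (∃ p, ev 1 (γ - C (2 * ρ) * α) p = 0 ∧ ev 2 (β - C ρ * P) p = 0) ↔
      m10rs (β.coeff 2 - ρ * P.coeff 2) (β.coeff 1 - ρ * P.coeff 1) (β.coeff 0 - ρ * P.coeff 0)
        (γ.coeff 1 - 2 * ρ * α.coeff 1) (γ.coeff 0 - 2 * ρ * α.coeff 0) = 0 := by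
    rw [m10_common]
    · simp only [coeff_sub, coeff_C_mul]
    · exact (natDegree_sub_le _ _).trans (max_le hγ ((natDegree_C_mul_le _ _).trans hα))
    · exact (natDegree_sub_le _ _).trans (max_le hβ ((natDegree_C_mul_le _ _).trans hP))
  have c3 : (∃ p, ev 1 (γ + C (2 * ρ) * α) p = 0 ∧ ev 2 (β + C ρ * P) p = 0) ↔
      m10rs (β.coeff 2 + ρ * P.coeff 2) (β.coeff 1 + ρ * P.coeff 1) (β.coeff 0 + ρ * P.coeff 0)
        (γ.coeff 1 + 2 * ρ * α.coeff 1) (γ.coeff 0 + 2 * ρ * α.coeff 0) = 0 := by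
    rw [m10_common]
    · simp only [coeff_add, coeff_C_mul]
    · exact (natDegree_add_le _ _).trans (max_le hγ ((natDegree_C_mul_le _ _).trans hα))
    · exact (natDegree_add_le _ _).trans (max_le hβ ((natDegree_C_mul_le _ _).trans hP))
  rw [Ne, Ne, Ne, ← c1, ← c2, ← c3]
  constructor
  · intro H
    refine ⟨?_, ?_, ?_⟩
    · rintro ⟨p, hp, hq⟩
      apply H p
      rw [hA, hB, hp, hq]
      constructor <;> ring
    · rintro ⟨p, hp, hq⟩
      rw [hsub] at hp hq
      apply H p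
      rw [hA, hB]
      have e1 : ev 1 γ p = 2 * ρ * ev 1 α p := by linear_combination hp
      have e2 : ev 2 β p = ρ * ev 2 P p := by linear_combination hq
      rw [e1, e2]
      constructor <;> ring
    · rintro ⟨p, hp, hq⟩
      rw [hadd] at hp hq
      apply H p
      rw [hA, hB]
      have e1 : ev 1 γ p = - (2 * ρ * ev 1 α p) := by linear_combination hp
      have e2 : ev 2 β p = - (ρ * ev 2 P p) := by linear_combination hq
      rw [e1, e2]
      constructor <;> ring
  · rintro ⟨n1, n2, n3⟩ p ⟨hp, hq⟩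
    rw [hA] at hp
    rw [hB] at hq
    rcases mul_eq_zero.mp hq with h | h
    · have e2 : ev 2 β p = ρ * ev 2 P p := by linear_combination -h
      rw [e2] at hp
      have : ev 2 P p * (ev 1 γ p - 2 * ρ * ev 1 α p) = 0 := by linear_combination hp
      rcases mul_eq_zero.mp this with h' | h'
      · exact n1 ⟨p, h', by rw [e2, h', mul_zero]⟩
      · apply n2
        refine ⟨p, ?_, ?_⟩
        · rw [hsub, h']
        · rw [hsub, e2, sub_self]
    · have e2 : ev 2 β p = - (ρ * ev 2 P p) := by linear_combination h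
      rw [e2] at hp
      have : ev 2 P p * (ev 1 γ p + 2 * ρ * ev 1 α p) = 0 := by linear_combination hp
      rcases mul_eq_zero.mp this with h' | h'
      · exact n1 ⟨p, h', by rw [e2, h', mul_zero, neg_zero]⟩
      · apply n3
        refine ⟨p, ?_, ?_⟩
        · rw [hadd, h']
        · rw [hadd, e2, neg_add_cancel]

end cop

section main
variable {K : Type*} [Field K] [Fintype K]

theorem m10_two_Om (h2 : (2 : K) ≠ 0) : (2 : Om K) ≠ 0 := by
  have h := (map_ne_zero (algebraMap K (Om K))).mpr h2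
  rwa [map_ofNat] at h

theorem m10_cop (h2 : (2 : K) ≠ 0) {P β α γ : K[X]} (hP : P ∈ V K 2) (hβ : β ∈ V K 2)
    (hα : α ∈ V K 1) (hγ : γ ∈ V K 1) (c : K) (ρ : Om K) (hρ : ρ ^ 2 = algebraMap K (Om K) c) :
    Cop (P * γ - 2 * α * β) (C c * P ^ 2 - β ^ 2) ↔
    (pol2 P β ^ 2 - 4 * disc2 P * disc2 β ≠ 0 ∧
      m10rs ((up β).coeff 2 - ρ * (up P).coeff 2) ((up β).coeff 1 - ρ * (up P).coeff 1)
        ((up β).coeff 0 - ρ * (up P).coeff 0)
        ((up γ).coeff 1 - 2 * ρ * (up α).coeff 1) ((up γ).coeff 0 - 2 * ρ * (up α).coeff 0) ≠ 0 ∧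
      m10rs ((up β).coeff 2 + ρ * (up P).coeff 2) ((up β).coeff 1 + ρ * (up P).coeff 1)
        ((up β).coeff 0 + ρ * (up P).coeff 0)
        ((up γ).coeff 1 + 2 * ρ * (up α).coeff 1) ((up γ).coeff 0 + 2 * ρ * (up α).coeff 0) ≠ 0)
    := by
  rw [mem_V] at hP hβ hα hγ
  rw [← natDegree_up] at hP hβ hα hγ
  have h := m10_cop_aux (m10_two_Om h2) hP hβ hα hγ ρ
  have e1 : up (P * γ - 2 * α * β) = up P * up γ - C 2 * (up α * up β) := by
    rw [up_sub, up_mul, up_mul, up_mul]
    have : up (2 : K[X]) = C 2 := by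
      have : (2 : K[X]) = C 2 := rfl
      rw [this, up_C, map_ofNat]
    rw [this]
    ring
  have e2 : up (C c * P ^ 2 - β ^ 2) = C (ρ ^ 2) * up P ^ 2 - up β ^ 2 := by
    rw [up_sub, up_mul, up_pow, up_pow, up_C, hρ]
  have e3 : (pol2 (up P) (up β) ^ 2 - 4 * disc2 (up P) * disc2 (up β) ≠ 0) ↔
      (pol2 P β ^ 2 - 4 * disc2 P * disc2 β ≠ 0) := by
    rw [pol2_up, disc2_up, disc2_up]
    have : algebraMap K (Om K) (pol2 P β) ^ 2 - 4 * algebraMap K (Om K) (disc2 P) *
        algebraMap K (Om K) (disc2 β) =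
        algebraMap K (Om K) (pol2 P β ^ 2 - 4 * disc2 P * disc2 β) := by
      simp only [map_sub, map_mul, map_pow, map_ofNat]
    rw [this]
    exact map_ne_zero _
  unfold Cop
  rw [e1, e2, h, e3]

end main

section counts
variable {K : Type*} [Field K] [Fintype K]

theorem m10_sum_rsF {F : Type*} [Field F] [Fintype F] (h2 : (2 : F) ≠ 0) (g2 g1 g0 : F)
    (h : ¬ (g2 = 0 ∧ g1 = 0 ∧ g0 = 0)) :
    ∑ a : F, ∑ b : F, (if m10rs g2 g1 g0 a b ≠ 0 then (1 : ℤ) else 0) =
      ((Fintype.card F : ℤ) - 1) *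
        (Fintype.card F - quadraticChar F (g1 ^ 2 - 4 * g2 * g0)) := by
  have h1 := m10_nonzeros h2 g0 (-g1) g2 (by
    rintro ⟨a, b, c⟩
    exact h ⟨c, neg_eq_zero.mp b, a⟩)
  have h3 : (-g1) ^ 2 - 4 * g0 * g2 = g1 ^ 2 - 4 * g2 * g0 := by ring
  rw [h3] at h1
  rw [← h1]
  apply Finset.sum_congr rfl
  intro a _
  apply Finset.sum_congr rfl
  intro b _
  have h4 : m10rs g2 g1 g0 a b = g0 * a ^ 2 + -g1 * a * b + g2 * b ^ 2 := by
    unfold m10rs
    ring
  rw [h4]

theorem m10_coeffs1 (a b : K) :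
    (C a * X + C b : K[X]).coeff 0 = b ∧ (C a * X + C b : K[X]).coeff 1 = a := by
  simp only [coeff_add, coeff_C_mul, coeff_X, coeff_C]
  norm_num

theorem m10_sum_rs (h2 : (2 : K) ≠ 0) (g2 g1 g0 : K) (h : ¬ (g2 = 0 ∧ g1 = 0 ∧ g0 = 0)) :
    ∑ γ ∈ V K 1, (if m10rs g2 g1 g0 (γ.coeff 1) (γ.coeff 0) ≠ 0 then (1 : ℤ) else 0) =
      ((Fintype.card K : ℤ) - 1) *
        (Fintype.card K - quadraticChar K (g1 ^ 2 - 4 * g2 * g0)) := by
  rw [sum_V1, ← m10_sum_rsF h2 g2 g1 g0 h]
  simp only [(m10_coeffs1 _ _).1, (m10_coeffs1 _ _).2]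

/-- the number of admissible `(α, γ)` -/
def m10N (c : K) (P β : K[X]) : ℤ :=
  ∑ α ∈ V K 1, ∑ γ ∈ V K 1,
    (if Cop (P * γ - 2 * α * β) (C c * P ^ 2 - β ^ 2) then (1 : ℤ) else 0)

theorem m10_ne_zero {P β : K[X]} (h : pol2 P β ^ 2 - 4 * disc2 P * disc2 β ≠ 0) (r : K) :
    ¬ (β.coeff 2 - r * P.coeff 2 = 0 ∧ β.coeff 1 - r * P.coeff 1 = 0 ∧
      β.coeff 0 - r * P.coeff 0 = 0) := by
  rintro ⟨e2, e1, e0⟩
  apply h
  have e2' : β.coeff 2 = r * P.coeff 2 := by linear_combination e2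
  have e1' : β.coeff 1 = r * P.coeff 1 := by linear_combination e1
  have e0' : β.coeff 0 = r * P.coeff 0 := by linear_combination e0
  simp only [pol2, disc2, e2', e1', e0']
  ring

theorem m10rs_map {L M : Type*} [Field L] [Field M] (f : L →+* M) (g2 g1 g0 h1 h0 : L) :
    m10rs (f g2) (f g1) (f g0) (f h1) (f h0) = f (m10rs g2 g1 g0 h1 h0) := by
  unfold m10rs
  simp only [map_sub, map_add, map_mul, map_pow]

theorem m10_cop_sq (h2 : (2 : K) ≠ 0) {P β α γ : K[X]} (hP : P ∈ V K 2) (hβ : β ∈ V K 2)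
    (hα : α ∈ V K 1) (hγ : γ ∈ V K 1) (r : K) :
    Cop (P * γ - 2 * α * β) (C (r ^ 2) * P ^ 2 - β ^ 2) ↔
    (pol2 P β ^ 2 - 4 * disc2 P * disc2 β ≠ 0 ∧
      m10rs (β.coeff 2 - r * P.coeff 2) (β.coeff 1 - r * P.coeff 1) (β.coeff 0 - r * P.coeff 0)
        (γ.coeff 1 - 2 * r * α.coeff 1) (γ.coeff 0 - 2 * r * α.coeff 0) ≠ 0 ∧
      m10rs (β.coeff 2 + r * P.coeff 2) (β.coeff 1 + r * P.coeff 1) (β.coeff 0 + r * P.coeff 0)
        (γ.coeff 1 + 2 * r * α.coeff 1) (γ.coeff 0 + 2 * r * α.coeff 0) ≠ 0) := by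
  rw [m10_cop h2 hP hβ hα hγ (r ^ 2) (algebraMap K (Om K) r) (by rw [map_pow])]
  have h2' : (2 : Om K) = algebraMap K (Om K) 2 := (map_ofNat _ 2).symm
  simp only [coeff_up, h2']
  simp only [← map_mul, ← map_sub, ← map_add]
  rw [m10rs_map, m10rs_map, _root_.map_ne_zero, _root_.map_ne_zero]

theorem m10N_zero (h2 : (2 : K) ≠ 0) {P β : K[X]} (hP : P ∈ V K 2) (hβ : β ∈ V K 2) :
    m10N 0 P β = if pol2 P β ^ 2 - 4 * disc2 P * disc2 β ≠ 0 then
      (Fintype.card K : ℤ) ^ 2 * (((Fintype.card K : ℤ) - 1) *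
        ((Fintype.card K : ℤ) - quadraticChar K (disc2 β))) else 0 := by
  unfold m10N
  have hc : ∀ α ∈ V K 1, ∀ γ ∈ V K 1,
      (if Cop (P * γ - 2 * α * β) (C 0 * P ^ 2 - β ^ 2) then (1 : ℤ) else 0) =
      if pol2 P β ^ 2 - 4 * disc2 P * disc2 β ≠ 0 then
        (if m10rs (β.coeff 2) (β.coeff 1) (β.coeff 0) (γ.coeff 1) (γ.coeff 0) ≠ 0
          then (1 : ℤ) else 0) else 0 := by
    intro α hα γ hγ
    have h := m10_cop_sq h2 hP hβ hα hγ 0
    rw [zero_pow (by norm_num : (2 : ℕ) ≠ 0)] at h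
    rw [← ite_and]
    apply if_congr _ rfl rfl
    rw [h]
    simp only [zero_mul, mul_zero, sub_zero, add_zero]
    tauto
  rw [Finset.sum_congr rfl fun α hα => Finset.sum_congr rfl fun γ hγ => hc α hα γ hγ]
  by_cases hΔ : pol2 P β ^ 2 - 4 * disc2 P * disc2 β ≠ 0
  · simp only [if_pos hΔ]
    have hne := m10_ne_zero hΔ 0
    simp only [zero_mul, sub_zero] at hne
    rw [Finset.sum_congr rfl fun α _ => m10_sum_rs h2 _ _ _ hne, Finset.sum_const, card_V]
    simp only [nsmul_eq_mul]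
    push_cast
    rfl
  · simp only [if_neg hΔ]
    simp

theorem m10N_sq (h2 : (2 : K) ≠ 0) {P β : K[X]} (hP : P ∈ V K 2) (hβ : β ∈ V K 2) {r : K}
    (hr : r ≠ 0) :
    m10N (r ^ 2) P β = if pol2 P β ^ 2 - 4 * disc2 P * disc2 β ≠ 0 then
      ((Fintype.card K : ℤ) - 1) ^ 2 *
        (((Fintype.card K : ℤ) - quadraticChar K (disc2 β - r * pol2 P β + r ^ 2 * disc2 P)) *
        ((Fintype.card K : ℤ) - quadraticChar K (disc2 β + r * pol2 P β + r ^ 2 * disc2 P)))
      else 0 := by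
  unfold m10N
  have h4r : (4 * r) ≠ 0 := by
    have : (4 * r) = 2 * (2 * r) := by ring
    rw [this]
    exact mul_ne_zero h2 (mul_ne_zero h2 hr)
  let f : K[X] → ℤ := fun h => if m10rs (β.coeff 2 - r * P.coeff 2) (β.coeff 1 - r * P.coeff 1)
    (β.coeff 0 - r * P.coeff 0) (h.coeff 1) (h.coeff 0) ≠ 0 then 1 else 0
  let f' : K[X] → ℤ := fun h => if m10rs (β.coeff 2 + r * P.coeff 2) (β.coeff 1 + r * P.coeff 1)
    (β.coeff 0 + r * P.coeff 0) (h.coeff 1) (h.coeff 0) ≠ 0 then 1 else 0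
  have hc : ∀ α ∈ V K 1, ∀ γ ∈ V K 1,
      (if Cop (P * γ - 2 * α * β) (C (r ^ 2) * P ^ 2 - β ^ 2) then (1 : ℤ) else 0) =
      if pol2 P β ^ 2 - 4 * disc2 P * disc2 β ≠ 0 then
        f (γ - C (2 * r) * α) * f' (γ + C (2 * r) * α) else 0 := by
    intro α hα γ hγ
    have h := m10_cop_sq h2 hP hβ hα hγ r
    simp only [f, f', coeff_sub, coeff_add, coeff_C_mul]
    rw [ite_zero_mul_ite_zero, one_mul, ← ite_and]
    apply if_congr _ rfl rfl
    exact h
  rw [Finset.sum_congr rfl fun α hα => Finset.sum_congr rfl fun γ hγ => hc α hα γ hγ]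
  by_cases hΔ : pol2 P β ^ 2 - 4 * disc2 P * disc2 β ≠ 0
  · simp only [if_pos hΔ]
    have hbij : ∑ α ∈ V K 1, ∑ γ ∈ V K 1, f (γ - C (2 * r) * α) * f' (γ + C (2 * r) * α) =
        (∑ h ∈ V K 1, f h) * (∑ h ∈ V K 1, f' h) := by
      rw [Finset.sum_mul_sum, ← Finset.sum_product', ← Finset.sum_product']
      apply Finset.sum_nbij'
        (fun x : K[X] × K[X] => (x.2 - C (2 * r) * x.1, x.2 + C (2 * r) * x.1))
        (fun x : K[X] × K[X] => (C (1 / (4 * r)) * (x.2 - x.1), C (1 / 2) * (x.1 + x.2)))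
      · intro x hx
        rw [Finset.mem_product, mem_V, mem_V] at hx ⊢
        exact ⟨(natDegree_sub_le _ _).trans (max_le hx.2 ((natDegree_C_mul_le _ _).trans hx.1)),
          (natDegree_add_le _ _).trans (max_le hx.2 ((natDegree_C_mul_le _ _).trans hx.1))⟩
      · intro x hx
        rw [Finset.mem_product, mem_V, mem_V] at hx ⊢
        exact ⟨(natDegree_C_mul_le _ _).trans
            ((natDegree_sub_le _ _).trans (max_le hx.2 hx.1)),
          (natDegree_C_mul_le _ _).trans ((natDegree_add_le _ _).trans (max_le hx.1 hx.2))⟩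
      · intro x _
        have e1 : (C (1 / (4 * r)) * C (4 * r) : K[X]) = 1 := by
          rw [← C_mul, one_div, inv_mul_cancel₀ h4r, C_1]
        have e2 : (C (1 / 2) * C 2 : K[X]) = 1 := by
          rw [← C_mul, one_div, inv_mul_cancel₀ h2, C_1]
        have e3 : (C (4 * r) : K[X]) = 2 * C (2 * r) := by
          have : (2 : K[X]) = C 2 := rfl
          rw [this, ← C_mul]
          congr 1
          ring
        have e4 : (C 2 : K[X]) = 2 := rfl
        rw [e3] at e1
        rw [e4] at e2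
        apply Prod.ext
        · show C (1 / (4 * r)) * ((x.2 + C (2 * r) * x.1) - (x.2 - C (2 * r) * x.1)) = x.1
          linear_combination x.1 * e1
        · show C (1 / 2) * ((x.2 - C (2 * r) * x.1) + (x.2 + C (2 * r) * x.1)) = x.2
          linear_combination x.2 * e2
      · intro x _
        have e1 : (C (2 * r) * C (1 / (4 * r)) : K[X]) = C (1 / 2) := by
          rw [← C_mul]
          congr 1
          have h22 : (4 : K) ≠ 0 := left_ne_zero_of_mul h4r
          rw [mul_one_div, div_eq_div_iff h4r h2]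
          ring
        have e2 : (C (1 / 2) * C 2 : K[X]) = 1 := by
          rw [← C_mul, one_div, inv_mul_cancel₀ h2, C_1]
        have e4 : (C 2 : K[X]) = 2 := rfl
        rw [e4] at e2
        apply Prod.ext
        · show C (1 / 2) * (x.1 + x.2) - C (2 * r) * (C (1 / (4 * r)) * (x.2 - x.1)) = x.1
          linear_combination (-(x.2 - x.1)) * e1 + x.1 * e2
        · show C (1 / 2) * (x.1 + x.2) + C (2 * r) * (C (1 / (4 * r)) * (x.2 - x.1)) = x.2
          linear_combination (x.2 - x.1) * e1 + x.2 * e2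
      · intro x _
        rfl
    rw [hbij]
    have hne := m10_ne_zero hΔ r
    have hne' := m10_ne_zero hΔ (-r)
    have e1 := m10_sum_rs h2 _ _ _ hne
    have e2 := m10_sum_rs h2 _ _ _ hne'
    simp only [neg_mul, sub_neg_eq_add] at e2
    simp only [f, f']
    rw [e1, e2]
    have d1 : (β.coeff 1 - r * P.coeff 1) ^ 2 - 4 * (β.coeff 2 - r * P.coeff 2) *
        (β.coeff 0 - r * P.coeff 0) = disc2 β - r * pol2 P β + r ^ 2 * disc2 P := by
      simp only [disc2, pol2]
      ring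
    have d2 : (β.coeff 1 + r * P.coeff 1) ^ 2 - 4 * (β.coeff 2 + r * P.coeff 2) *
        (β.coeff 0 + r * P.coeff 0) = disc2 β + r * pol2 P β + r ^ 2 * disc2 P := by
      simp only [disc2, pol2]
      ring
    rw [d1, d2]
    ring
  · simp only [if_neg hΔ]
    simp

end counts

section nonsq
variable {K : Type*} [Field K] [Fintype K]

attribute [-instance] instDecidableEqQuadraticAlgebra

instance m10_fintypeQ (c : K) : Fintype (QuadraticAlgebra K c 0) :=
  Fintype.ofEquiv _ (QuadraticAlgebra.equivProd c 0).symm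

theorem m10_cardQ (c : K) : Fintype.card (QuadraticAlgebra K c 0) = Fintype.card K ^ 2 := by
  rw [Fintype.card_congr (QuadraticAlgebra.equivProd c 0), Fintype.card_prod, sq]

theorem m10_sumQ (h2 : (2 : K) ≠ 0) (c : K) (ψ : QuadraticAlgebra K c 0 → ℤ) :
    ∑ a : K, ∑ g : K, ψ ⟨g, -(2 * a)⟩ = ∑ h : QuadraticAlgebra K c 0, ψ h := by
  rw [← Fintype.sum_prod_type']
  have h2' : (-2 : K) ≠ 0 := neg_ne_zero.mpr h2
  refine Fintype.sum_equiv
    ((Equiv.prodComm K K).trans ((Equiv.prodCongr (Equiv.refl K) (Equiv.mulLeft₀ (-2) h2')).trans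
      (QuadraticAlgebra.equivProd c 0).symm)) _ _ ?_
  intro x
  have : ((Equiv.prodComm K K).trans ((Equiv.prodCongr (Equiv.refl K)
    (Equiv.mulLeft₀ (-2) h2')).trans (QuadraticAlgebra.equivProd c 0).symm)) x =
    (⟨x.2, -2 * x.1⟩ : QuadraticAlgebra K c 0) := rfl
  rw [this, neg_mul]

theorem m10_nonsq (h2 : (2 : K) ≠ 0) {c : K} (hc : ¬ IsSquare c) :
    ∃ Φ : K → K → K → ℤ, (∀ α β γ, Φ (c * α) (c * β) (c * γ) = Φ α β γ) ∧
      ∀ P ∈ V K 2, ∀ β ∈ V K 2, m10N c P β =
        if pol2 P β ^ 2 - 4 * disc2 P * disc2 β ≠ 0 then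
          ((Fintype.card K : ℤ) ^ 2 - 1) *
            ((Fintype.card K : ℤ) ^ 2 - Φ (disc2 P) (pol2 P β) (disc2 β)) else 0 := by
  have hF : Fact (∀ r : K, r ^ 2 ≠ c + 0 * r) := ⟨by
    intro r hr
    apply hc
    exact ⟨r, by linear_combination -hr⟩⟩
  have hc0 : c ≠ 0 := by
    rintro rfl
    exact hc ⟨0, by ring⟩
  have h2F : (2 : QuadraticAlgebra K c 0) ≠ 0 := by
    have h := (_root_.map_ne_zero (algebraMap K (QuadraticAlgebra K c 0))).mpr h2
    rwa [map_ofNat] at h
  refine ⟨fun α β γ => quadraticChar (QuadraticAlgebra K c 0) ⟨γ + c * α, -β⟩, ?_, ?_⟩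
  · intro α β γ
    have e : (⟨c * γ + c * (c * α), -(c * β)⟩ : QuadraticAlgebra K c 0) =
        ⟨γ + c * α, -β⟩ * (⟨0, 1⟩ : QuadraticAlgebra K c 0) ^ 2 := by
      rw [sq]
      ext
      · simp
        ring
      · simp
        ring
    show quadraticChar (QuadraticAlgebra K c 0) ⟨c * γ + c * (c * α), -(c * β)⟩ =
      quadraticChar (QuadraticAlgebra K c 0) ⟨γ + c * α, -β⟩
    rw [e, m10_chi_sq]
    intro h
    have := congrArg QuadraticAlgebra.im h
    simp at this
  · intro P hP β hβ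
    obtain ⟨ρ, hρ⟩ := IsAlgClosed.exists_pow_nat_eq (algebraMap K (Om K) c) (n := 2) (by norm_num)
    have hlift : ∀ s : Om K, s ^ 2 = algebraMap K (Om K) c →
        ∃ j : QuadraticAlgebra K c 0 →+* Om K, ∀ x y : K, j ⟨x, y⟩ =
          algebraMap K (Om K) x + algebraMap K (Om K) y * s := by
      intro s hs
      have hs' : s * s = c • (1 : Om K) + (0 : K) • s := by
        rw [zero_smul, add_zero, ← Algebra.algebraMap_eq_smul_one, ← hs, sq]
      refine ⟨(QuadraticAlgebra.lift ⟨s, hs'⟩ : QuadraticAlgebra K c 0 →ₐ[K] Om K).toRingHom, ?_⟩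
      intro x y
      have : ((QuadraticAlgebra.lift ⟨s, hs'⟩ : QuadraticAlgebra K c 0 →ₐ[K] Om K).toRingHom)
        ⟨x, y⟩ = x • (1 : Om K) + y • s := rfl
      rw [this, ← Algebra.algebraMap_eq_smul_one, Algebra.smul_def]
    obtain ⟨j, hj⟩ := hlift ρ hρ
    obtain ⟨j', hj'⟩ := hlift (-ρ) (by rw [neg_sq, hρ])
    have hcop : ∀ α ∈ V K 1, ∀ γ ∈ V K 1,
        (Cop (P * γ - 2 * α * β) (C c * P ^ 2 - β ^ 2) ↔
        (pol2 P β ^ 2 - 4 * disc2 P * disc2 β ≠ 0 ∧
          m10rs (⟨β.coeff 2, -P.coeff 2⟩ : QuadraticAlgebra K c 0) ⟨β.coeff 1, -P.coeff 1⟩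
            ⟨β.coeff 0, -P.coeff 0⟩ ⟨γ.coeff 1, -(2 * α.coeff 1)⟩
            ⟨γ.coeff 0, -(2 * α.coeff 0)⟩ ≠ 0)) := by
      intro α hα γ hγ
      rw [m10_cop h2 hP hβ hα hγ c ρ hρ]
      apply and_congr_right
      intro _
      have e1 : ∀ x y : K, algebraMap K (Om K) x - ρ * algebraMap K (Om K) y = j ⟨x, -y⟩ := by
        intro x y
        rw [hj, map_neg]
        ring
      have e2 : ∀ x y : K, algebraMap K (Om K) x - 2 * ρ * algebraMap K (Om K) y =
          j ⟨x, -(2 * y)⟩ := by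
        intro x y
        rw [hj, map_neg, map_mul, map_ofNat]
        ring
      have e3 : ∀ x y : K, algebraMap K (Om K) x + ρ * algebraMap K (Om K) y = j' ⟨x, -y⟩ := by
        intro x y
        rw [hj', map_neg]
        ring
      have e4 : ∀ x y : K, algebraMap K (Om K) x + 2 * ρ * algebraMap K (Om K) y =
          j' ⟨x, -(2 * y)⟩ := by
        intro x y
        rw [hj', map_neg, map_mul, map_ofNat]
        ring
      simp only [coeff_up, e1, e2, e3, e4]
      rw [m10rs_map, m10rs_map, _root_.map_ne_zero, _root_.map_ne_zero, and_self]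
    unfold m10N
    have hc2 : ∀ α ∈ V K 1, ∀ γ ∈ V K 1,
        (if Cop (P * γ - 2 * α * β) (C c * P ^ 2 - β ^ 2) then (1 : ℤ) else 0) =
        if pol2 P β ^ 2 - 4 * disc2 P * disc2 β ≠ 0 then
          (if m10rs (⟨β.coeff 2, -P.coeff 2⟩ : QuadraticAlgebra K c 0) ⟨β.coeff 1, -P.coeff 1⟩
            ⟨β.coeff 0, -P.coeff 0⟩ ⟨γ.coeff 1, -(2 * α.coeff 1)⟩
            ⟨γ.coeff 0, -(2 * α.coeff 0)⟩ ≠ 0 then (1 : ℤ) else 0) else 0 := by
      intro α hα γ hγ
      rw [← ite_and]
      exact if_congr (hcop α hα γ hγ) rfl rfl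
    rw [Finset.sum_congr rfl fun α hα => Finset.sum_congr rfl fun γ hγ => hc2 α hα γ hγ]
    by_cases hΔ : pol2 P β ^ 2 - 4 * disc2 P * disc2 β ≠ 0
    · simp only [if_pos hΔ]
      rw [sum_V1]
      simp only [sum_V1, (m10_coeffs1 _ _).1, (m10_coeffs1 _ _).2]
      have hswap : ∀ (ψ : QuadraticAlgebra K c 0 → QuadraticAlgebra K c 0 → ℤ),
          ∑ a : K, ∑ b : K, ∑ g : K, ∑ d : K, ψ ⟨g, -(2 * a)⟩ ⟨d, -(2 * b)⟩ =
          ∑ x : QuadraticAlgebra K c 0, ∑ y : QuadraticAlgebra K c 0, ψ x y := by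
        intro ψ
        rw [← m10_sumQ h2 c (fun x => ∑ y : QuadraticAlgebra K c 0, ψ x y)]
        apply Finset.sum_congr rfl
        intro a _
        rw [Finset.sum_comm]
        apply Finset.sum_congr rfl
        intro g _
        exact m10_sumQ h2 c (fun y => ψ ⟨g, -(2 * a)⟩ y)
      rw [hswap (fun x y => if m10rs (⟨β.coeff 2, -P.coeff 2⟩ : QuadraticAlgebra K c 0)
        ⟨β.coeff 1, -P.coeff 1⟩ ⟨β.coeff 0, -P.coeff 0⟩ x y ≠ 0 then (1 : ℤ) else 0)]
      have hne : ¬ ((⟨β.coeff 2, -P.coeff 2⟩ : QuadraticAlgebra K c 0) = 0 ∧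
          (⟨β.coeff 1, -P.coeff 1⟩ : QuadraticAlgebra K c 0) = 0 ∧
          (⟨β.coeff 0, -P.coeff 0⟩ : QuadraticAlgebra K c 0) = 0) := by
        rintro ⟨a2, a1, a0⟩
        apply m10_ne_zero hΔ 0
        have b2 := congrArg QuadraticAlgebra.re a2
        have b1 := congrArg QuadraticAlgebra.re a1
        have b0 := congrArg QuadraticAlgebra.re a0
        simp at b2 b1 b0
        simp [b2, b1, b0]
      rw [m10_sum_rsF h2F _ _ _ hne, m10_cardQ]
      have hd : (⟨β.coeff 1, -P.coeff 1⟩ : QuadraticAlgebra K c 0) ^ 2 -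
          4 * ⟨β.coeff 2, -P.coeff 2⟩ * ⟨β.coeff 0, -P.coeff 0⟩ =
          ⟨disc2 β + c * disc2 P, -pol2 P β⟩ := by
        have h4 : (4 : QuadraticAlgebra K c 0) = ⟨4, 0⟩ := by
          rw [← QuadraticAlgebra.algebraMap_eq, map_ofNat]
        rw [sq, h4]
        ext
        · simp [disc2]
          ring
        · simp [pol2]
          ring
      rw [hd]
      push_cast
      rfl
    · simp only [if_neg hΔ]
      simp

end nonsq

section final
variable (K : Type*) [Field K] [Fintype K]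

/-- the sums `Σ χ(disc P) N(c, P, β)` -/
def m10f (c : K) : ℤ := ∑ P ∈ V K 2, ∑ β ∈ V K 2, quadraticChar K (disc2 P) * m10N c P β

theorem m10_PC3 : PC3 K = ∑ c : K, m10f K c := by
  unfold PC3 m10f
  rw [Finset.sum_comm]
  apply Finset.sum_congr rfl
  intro P _
  rw [Finset.sum_comm]
  simp only [← Finset.mul_sum]
  congr 1
  rw [Finset.card_filter]
  push_cast
  simp only [Finset.sum_product]
  rw [Finset.sum_comm]
  apply Finset.sum_congr rfl
  intro β _
  unfold m10N
  rw [Finset.sum_comm (s := (Finset.univ : Finset K)) (t := V K 1)]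
  apply Finset.sum_congr rfl
  intro α _
  rw [Finset.sum_comm]

/-- splitting of a sum over `K` according to squares -/
theorem m10_split (h2 : (2 : K) ≠ 0) (f : K → ℤ) :
    2 * ∑ c : K, f c = f 0 + (f 0 + ∑ r ∈ Finset.univ.erase (0 : K), f (r ^ 2)) +
      2 * ∑ c : K, (if quadraticChar K c = -1 then f c else 0) := by
  have h1 : ∑ r : K, f (r ^ 2) = ∑ c : K, (quadraticChar K c + 1) * f c := by
    have h3 : ∀ r : K, f (r ^ 2) = ∑ c : K, (if r ^ 2 = c then f c else 0) := by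
      intro r
      simp
    simp only [h3]
    rw [Finset.sum_comm]
    apply Finset.sum_congr rfl
    intro c _
    rw [← m10_sqrts h2, Finset.sum_mul]
    apply Finset.sum_congr rfl
    intro r _
    rw [ite_mul, one_mul, zero_mul]
  have h4 : f 0 + ∑ r ∈ Finset.univ.erase (0 : K), f (r ^ 2) = ∑ r : K, f (r ^ 2) := by
    rw [← Finset.add_sum_erase _ _ (Finset.mem_univ (0 : K)), zero_pow (by norm_num)]
  rw [h4, h1]
  have h5 : f 0 = ∑ c : K, (if c = 0 then f c else 0) := by simp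
  rw [h5, ← Finset.sum_add_distrib, Finset.mul_sum, Finset.mul_sum, ← Finset.sum_add_distrib]
  apply Finset.sum_congr rfl
  intro c _
  by_cases hc : c = 0
  · subst hc
    simp
    ring
  · rcases quadraticChar_dichotomy hc with h | h
    · rw [h, if_neg hc, if_neg (by norm_num)]
      ring
    · rw [h, if_neg hc, if_pos rfl]
      ring

theorem m10_exists_nonsq (h2 : (2 : K) ≠ 0) : ∃ ν : K, quadraticChar K ν = -1 :=
  quadraticChar_exists_neg_one (m10_char h2)

/-- `Σ χ(disc P)` over nondegenerate pairs -/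
theorem m10_S1 (h2 : (2 : K) ≠ 0) :
    ∑ P ∈ V K 2, ∑ β ∈ V K 2, (if pol2 P β ^ 2 - 4 * disc2 P * disc2 β ≠ 0 then
      quadraticChar K (disc2 P) else 0) = 0 := by
  obtain ⟨ν, hν⟩ := m10_exists_nonsq K h2
  have hν0 : ν ≠ 0 := by
    rintro rfl
    simp at hν
  exact sum_sim h2 (fun α _ _ => quadraticChar K α) ν hν0 (by
    intro α β γ
    show quadraticChar K (ν * α) = - quadraticChar K α
    rw [map_mul, hν]
    ring)

theorem m10_f_zero (h2 : (2 : K) ≠ 0) :
    m10f K 0 = (Fintype.card K : ℤ) ^ 2 * ((Fintype.card K : ℤ) - 1) ^ 2 * G2 K := by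
  unfold m10f
  have h1 : ∀ P ∈ V K 2, ∀ β ∈ V K 2, quadraticChar K (disc2 P) * m10N 0 P β =
      (Fintype.card K : ℤ) ^ 3 * ((Fintype.card K : ℤ) - 1) *
        (if pol2 P β ^ 2 - 4 * disc2 P * disc2 β ≠ 0 then quadraticChar K (disc2 P) else 0) -
      (Fintype.card K : ℤ) ^ 2 * ((Fintype.card K : ℤ) - 1) *
        (if pol2 P β ^ 2 - 4 * disc2 P * disc2 β ≠ 0 then
          quadraticChar K (disc2 P) * quadraticChar K (disc2 β) else 0) := by
    intro P hP β hβ
    rw [m10N_zero h2 hP hβ]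
    split_ifs
    · ring
    · ring
  rw [Finset.sum_congr rfl fun P hP => Finset.sum_congr rfl fun β hβ => h1 P hP β hβ]
  simp only [Finset.sum_sub_distrib, ← Finset.mul_sum]
  rw [m10_S1 K h2, m10_X h2]
  ring

theorem m10_shift (h2 : (2 : K) ≠ 0) (r : K) :
    ∑ P ∈ V K 2, ∑ β ∈ V K 2, (if pol2 P β ^ 2 - 4 * disc2 P * disc2 β ≠ 0 then
      quadraticChar K (disc2 P) *
        quadraticChar K (disc2 β + r * pol2 P β + r ^ 2 * disc2 P) else 0) =
      - ((Fintype.card K : ℤ) - 1) * G2 K := by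
  rw [← m10_X h2]
  apply Finset.sum_congr rfl
  intro P hP
  have hPd : P.natDegree ≤ 2 := mem_V.mp hP
  rw [← m10_translate (n := 2) (g := C r * P) ((natDegree_C_mul_le _ _).trans hPd)
    (fun u => if pol2 P u ^ 2 - 4 * disc2 P * disc2 u ≠ 0 then
      quadraticChar K (disc2 P) * quadraticChar K (disc2 u) else 0)]
  apply Finset.sum_congr rfl
  intro β _
  rw [m10_pol_add, m10_pol_self, m10_disc_add]
  have : (pol2 P β + r * (2 * disc2 P)) ^ 2 -
      4 * disc2 P * (disc2 β + r * pol2 P β + r ^ 2 * disc2 P) =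
      pol2 P β ^ 2 - 4 * disc2 P * disc2 β := by ring
  rw [this]

theorem m10_f_sq (h2 : (2 : K) ≠ 0) {r : K} (hr : r ≠ 0) :
    m10f K (r ^ 2) = 2 * (Fintype.card K : ℤ) * ((Fintype.card K : ℤ) - 1) ^ 3 * G2 K := by
  unfold m10f
  have h1 : ∀ P ∈ V K 2, ∀ β ∈ V K 2, quadraticChar K (disc2 P) * m10N (r ^ 2) P β =
      ((Fintype.card K : ℤ) - 1) ^ 2 * (Fintype.card K : ℤ) ^ 2 *
        (if pol2 P β ^ 2 - 4 * disc2 P * disc2 β ≠ 0 then quadraticChar K (disc2 P) else 0) -
      ((Fintype.card K : ℤ) - 1) ^ 2 * (Fintype.card K : ℤ) *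
        (if pol2 P β ^ 2 - 4 * disc2 P * disc2 β ≠ 0 then
          quadraticChar K (disc2 P) *
            quadraticChar K (disc2 β + (-r) * pol2 P β + (-r) ^ 2 * disc2 P) else 0) -
      ((Fintype.card K : ℤ) - 1) ^ 2 * (Fintype.card K : ℤ) *
        (if pol2 P β ^ 2 - 4 * disc2 P * disc2 β ≠ 0 then
          quadraticChar K (disc2 P) *
            quadraticChar K (disc2 β + r * pol2 P β + r ^ 2 * disc2 P) else 0) +
      ((Fintype.card K : ℤ) - 1) ^ 2 *
        (if pol2 P β ^ 2 - 4 * disc2 P * disc2 β ≠ 0 then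
          quadraticChar K (disc2 P) *
            quadraticChar K (disc2 β - r * pol2 P β + r ^ 2 * disc2 P) *
            quadraticChar K (disc2 β + r * pol2 P β + r ^ 2 * disc2 P) else 0) := by
    intro P hP β hβ
    have e : disc2 β + (-r) * pol2 P β + (-r) ^ 2 * disc2 P =
      disc2 β - r * pol2 P β + r ^ 2 * disc2 P := by ring
    rw [m10N_sq h2 hP hβ hr, e]
    split_ifs
    · ring
    · ring
  rw [Finset.sum_congr rfl fun P hP => Finset.sum_congr rfl fun β hβ => h1 P hP β hβ]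
  simp only [Finset.sum_sub_distrib, Finset.sum_add_distrib, ← Finset.mul_sum]
  obtain ⟨ν, hν⟩ := m10_exists_nonsq K h2
  have hν0 : ν ≠ 0 := by
    rintro rfl
    simp at hν
  have hS3 := sum_sim h2 (fun α β γ => quadraticChar K α *
            quadraticChar K (γ - r * β + r ^ 2 * α) *
            quadraticChar K (γ + r * β + r ^ 2 * α)) ν hν0 (by
    intro α β γ
    have e1 : ν * γ - r * (ν * β) + r ^ 2 * (ν * α) = ν * (γ - r * β + r ^ 2 * α) := by ring
    have e2 : ν * γ + r * (ν * β) + r ^ 2 * (ν * α) = ν * (γ + r * β + r ^ 2 * α) := by ring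
    show quadraticChar K (ν * α) * quadraticChar K (ν * γ - r * (ν * β) + r ^ 2 * (ν * α)) *
            quadraticChar K (ν * γ + r * (ν * β) + r ^ 2 * (ν * α)) = _
    rw [e1, e2, map_mul, map_mul, map_mul, hν]
    ring)
  rw [m10_S1 K h2, m10_shift K h2, m10_shift K h2, hS3]
  ring

theorem m10_f_nonsq (h2 : (2 : K) ≠ 0) {c : K} (hc : quadraticChar K c = -1) :
    m10f K c = 0 := by
  have hcs : ¬ IsSquare c := quadraticChar_neg_one_iff_not_isSquare.mp hc
  have hc0 : c ≠ 0 := by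
    rintro rfl
    simp at hc
  obtain ⟨Φ, hΦ, hN⟩ := m10_nonsq h2 hcs
  unfold m10f
  have h1 : ∀ P ∈ V K 2, ∀ β ∈ V K 2, quadraticChar K (disc2 P) * m10N c P β =
      ((Fintype.card K : ℤ) ^ 2 - 1) * (Fintype.card K : ℤ) ^ 2 *
        (if pol2 P β ^ 2 - 4 * disc2 P * disc2 β ≠ 0 then quadraticChar K (disc2 P) else 0) -
      ((Fintype.card K : ℤ) ^ 2 - 1) *
        (if pol2 P β ^ 2 - 4 * disc2 P * disc2 β ≠ 0 then
          quadraticChar K (disc2 P) * Φ (disc2 P) (pol2 P β) (disc2 β) else 0) := by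
    intro P hP β hβ
    rw [hN P hP β hβ]
    split_ifs
    · ring
    · ring
  rw [Finset.sum_congr rfl fun P hP => Finset.sum_congr rfl fun β hβ => h1 P hP β hβ]
  simp only [Finset.sum_sub_distrib, ← Finset.mul_sum]
  have hS3 := sum_sim h2 (fun α β γ => quadraticChar K α * Φ α β γ) c hc0 (by
    intro α β γ
    show quadraticChar K (c * α) * Φ (c * α) (c * β) (c * γ) = _
    rw [map_mul, hc, hΦ]
    ring)
  rw [m10_S1 K h2, hS3]
  ring

/-- M10 -/
theorem PC3_eq (h2 : (2 : K) ≠ 0) :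
    PC3 K = (Fintype.card K : ℤ) * ((Fintype.card K : ℤ) - 1) ^ 2 *
      ((Fintype.card K : ℤ) ^ 2 - (Fintype.card K : ℤ) + 1) * G2 K := by
  have h := m10_split K h2 (m10f K)
  rw [← m10_PC3] at h
  have h3 : ∑ r ∈ Finset.univ.erase (0 : K), m10f K (r ^ 2) =
      ((Fintype.card K : ℤ) - 1) *
        (2 * (Fintype.card K : ℤ) * ((Fintype.card K : ℤ) - 1) ^ 3 * G2 K) := by
    rw [Finset.sum_congr rfl fun r hr => m10_f_sq K h2 (Finset.ne_of_mem_erase hr),
      Finset.sum_const, Finset.card_erase_of_mem (Finset.mem_univ _), Finset.card_univ,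
      nsmul_eq_mul, Nat.cast_sub Fintype.card_pos]
    simp
  have h4 : ∑ c : K, (if quadraticChar K c = -1 then m10f K c else 0) = 0 := by
    apply Finset.sum_eq_zero
    intro c _
    split_ifs with hc
    · exact m10_f_nonsq K h2 hc
    · rfl
  rw [h3, h4, m10_f_zero K h2] at h
  linarith

end final

end
end Pool.Agent.Helper19.DP1
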