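import Pool.Agent.Helper19.DP1.Core5b
import Pool.Agent.Helper19.DP1.Core6c
import Pool.Agent.Helper19.DP1.Sums

/-! M11: two singular points. -/

namespace Pool.Agent.Helper19.DP1
open Polynomial Classical
noncomputable section

section
variable {L : Type*} [Field L]

theorem m11_eval_zero (c : L[X] × L[X] × L[X] × L[X]) : (quart c).eval 0 = c.2.2.2 := by
  simp [quart]

theorem m11_deriv_eval_zero (c : L[X] × L[X] × L[X] × L[X]) :
    (quart c).derivative.eval 0 = c.2.2.1 := by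
  simp [quart]

theorem m11_C2 : (2 : L[X]) = C 2 := (map_ofNat C 2).symm

theorem m11_natDegree_C_two_mul (a : L[X]) (n : ℕ) (ha : a.natDegree ≤ n) :
    (2 * a).natDegree ≤ n := by
  rw [m11_C2]
  exact (natDegree_C_mul_le _ _).trans ha

theorem m11_natDegree_mul {a b : L[X]} {m n : ℕ} (ha : a.natDegree ≤ m) (hb : b.natDegree ≤ n) :
    (a * b).natDegree ≤ m + n := natDegree_mul_le.trans (add_le_add ha hb)

theorem m11_natDegree_sq {a : L[X]} {m : ℕ} (ha : a.natDegree ≤ m) :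
    (a ^ 2).natDegree ≤ 2 * m := by
  rw [natDegree_pow]
  omega

/-- the parametrisation -/
def m11par (P : L[X]) (x : L[X] × L[X] × L[X] × L) : L[X] × L[X] × L[X] × L[X] :=
  (2 * x.1, x.1 ^ 2 + 2 * x.2.1, P * x.2.2.1, C x.2.2.2 * P ^ 2)

theorem m11_quart_par (P : L[X]) (x : L[X] × L[X] × L[X] × L) :
    quart (m11par P x) = (X ^ 2 + C x.1 * X + C x.2.1) ^ 2
      + C (P * x.2.2.1 - 2 * x.1 * x.2.1) * X + C (C x.2.2.2 * P ^ 2 - x.2.1 ^ 2) := by
  simp only [quart, m11par, C_mul, C_add, C_sub, C_pow, map_ofNat]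
  ring

theorem m11_par_injective (h2 : (2 : L) ≠ 0) {P : L[X]} (hP : P ≠ 0) :
    Function.Injective (m11par P) := by
  have h2' : (2 : L[X]) ≠ 0 := by
    rw [m11_C2, Ne, C_eq_zero]
    exact h2
  rintro ⟨a, b, g, c⟩ ⟨a', b', g', c'⟩ h
  simp only [m11par, Prod.mk.injEq] at h
  obtain ⟨h1, h3, h4, h5⟩ := h
  have ha : a = a' := mul_left_cancel₀ h2' h1
  subst ha
  have hb : b = b' := mul_left_cancel₀ h2' (add_left_cancel h3)
  have hg : g = g' := mul_left_cancel₀ hP h4
  have hc : c = c' := C_injective (mul_right_cancel₀ (pow_ne_zero 2 hP) h5)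
  rw [hb, hg, hc]

end

section
variable {K : Type*} [Field K] [Fintype K]

theorem m11_two (h2 : (2 : K) ≠ 0) : (2 : Om K) ≠ 0 := by
  intro h0
  apply h2
  apply (algebraMap K (Om K)).injective
  rw [map_ofNat, map_zero, h0]

theorem m11_up_ne_zero {P : K[X]} (h0 : P ≠ 0) : up P ≠ 0 :=
  fun h => h0 (up_injective (by rw [h, up_zero]))

theorem m11_sing_zero {c : K[X] × K[X] × K[X] × K[X]} (hc : WP 1 4 (quart c)) (p : P1 K) :
    Sing 1 4 (up2 (quart c)) p 0 ↔
      ev 3 (up c.2.2.1) p = 0 ∧ dv 4 (up c.2.2.2) p := by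
  have h := sing_iff (p := p) (s := 0) (WP_up2 hc) le_rfl (by norm_num) (by simp)
  rw [ev_zero] at h
  rw [h, up2_quart, m11_eval_zero, m11_deriv_eval_zero]

/-- number of quartics singular at the points `(p,0)`, `p ∈ T` -/
def m11N (K : Type*) [Field K] [Fintype K] (T : Finset (P1 K)) : ℕ :=
  ((Q4 K).filter (fun c => ∀ p ∈ T, Sing 1 4 (up2 (quart c)) p 0)).card

/-- coefficients of the translate of a quartic by a section -/
def m11tr {L : Type*} [Field L] (l : L[X]) (c : L[X] × L[X] × L[X] × L[X]) :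
    L[X] × L[X] × L[X] × L[X] :=
  (((quart c).comp (X + C l)).coeff 3, ((quart c).comp (X + C l)).coeff 2,
    ((quart c).comp (X + C l)).coeff 1, ((quart c).comp (X + C l)).coeff 0)

theorem m11_tr {l : K[X]} (hl : l.natDegree ≤ 1) {c : K[X] × K[X] × K[X] × K[X]}
    (hc : WP 1 4 (quart c)) : quart (m11tr l c) = (quart c).comp (X + C l) :=
  (eq_quart (WP_comp hc hl)).symm

theorem m11_tr_Q4 {l : K[X]} (hl : l.natDegree ≤ 1) {c : K[X] × K[X] × K[X] × K[X]}
    (hc : c ∈ Q4 K) : m11tr l c ∈ Q4 K := by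
  rw [mem_Q4] at hc ⊢
  rw [m11_tr hl hc.1]
  refine ⟨WP_comp hc.1 hl, ?_⟩
  rw [up2_comp]
  exact (noSq_comp (WP_up2 hc.1) (by rwa [natDegree_up])).mpr hc.2

theorem m11_tr_tr {l : K[X]} (hl : l.natDegree ≤ 1) {c : K[X] × K[X] × K[X] × K[X]}
    (hc : c ∈ Q4 K) : m11tr (-l) (m11tr l c) = c := by
  have hc' := m11_tr_Q4 hl hc
  rw [mem_Q4] at hc hc'
  apply quart_injective
  rw [m11_tr (by rwa [natDegree_neg]) hc'.1, m11_tr hl hc.1, comp_assoc]
  simp

theorem m11_sing_tr {l : K[X]} (hl : l.natDegree ≤ 1) {c : K[X] × K[X] × K[X] × K[X]}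
    (hc : c ∈ Q4 K) (p : P1 K) (v : Om K) :
    Sing 1 4 (up2 (quart (m11tr l c))) p v ↔
      Sing 1 4 (up2 (quart c)) p (v + ev 1 (up l) p) := by
  rw [mem_Q4] at hc
  rw [m11_tr hl hc.1, up2_comp]
  exact sing_comp (WP_up2 hc.1) le_rfl (by norm_num) (by rwa [natDegree_up])

/-- translation invariance -/
theorem m11_card_tr {l : K[X]} (hl : l.natDegree ≤ 1) (T : Finset (P1 K)) :
    ((Q4 K).filter (fun c => ∀ p ∈ T, Sing 1 4 (up2 (quart c)) p (ev 1 (up l) p))).card
      = m11N K T := by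
  have hl' : (-l).natDegree ≤ 1 := by rwa [natDegree_neg]
  unfold m11N
  apply Finset.card_bij' (fun c _ => m11tr l c) (fun c _ => m11tr (-l) c)
  · intro c hc
    rw [Finset.mem_filter] at hc ⊢
    refine ⟨m11_tr_Q4 hl hc.1, fun p hp => ?_⟩
    rw [m11_sing_tr hl hc.1, zero_add]
    exact hc.2 p hp
  · intro c hc
    rw [Finset.mem_filter] at hc ⊢
    refine ⟨m11_tr_Q4 hl' hc.1, fun p hp => ?_⟩
    rw [m11_sing_tr hl' hc.1]
    have h1 : ev 1 (up l) p + ev 1 (up (-l)) p = 0 := by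
      rw [← ev_add, ← up_add, add_neg_cancel, up_zero, ev_zero]
    rw [h1]
    exact hc.2 p hp
  · intro c hc
    rw [Finset.mem_filter] at hc
    exact m11_tr_tr hl hc.1
  · intro c hc
    rw [Finset.mem_filter] at hc
    have := m11_tr_tr hl' hc.1
    rwa [neg_neg] at this

/-- the number of quartics with singular points over `T` -/
theorem m11_card_bad {T : Finset (P1 K)} (hT : T ∈ Stab K 2) :
    ((Q4 K).filter (fun c => ∀ p ∈ T, Bad 1 4 (up2 (quart c)) p)).card
      = Fintype.card K ^ 2 * m11N K T := by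
  rw [mem_Stab] at hT
  obtain ⟨hst, hcard⟩ := hT
  have hex : ∀ c ∈ (Q4 K).filter (fun c => ∀ p ∈ T, Bad 1 4 (up2 (quart c)) p),
      ∃! l : K[X], l.natDegree ≤ 1 ∧ ∀ p ∈ T, Sing 1 4 (up2 (quart c)) p (ev 1 (up l) p) := by
    intro c hc
    rw [Finset.mem_filter, mem_Q4] at hc
    obtain ⟨⟨hw, hq⟩, hb⟩ := hc
    choose! v hv using hb
    have hg : ∀ p ∈ T, v (frob K p) = v p ^ Fintype.card K := by
      intro p hp
      exact sing_unique4 (WP_up2 hw) hq (hv _ (hst p hp)) (sing_frob hw (hv p hp))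
    have hci := card_interp (n := 1) hst (by omega) v hg
    rw [hcard] at hci
    norm_num at hci
    obtain ⟨l, hl⟩ := Finset.card_eq_one.mp hci
    have hmem : ∀ l' : K[X], (l'.natDegree ≤ 1 ∧ ∀ p ∈ T, ev 1 (up l') p = v p) ↔ l' = l := by
      intro l'
      have : l' ∈ (V K 1).filter (fun P => ∀ p ∈ T, ev 1 (up P) p = v p) ↔ l' ∈ ({l} : Finset K[X]) := by
        rw [hl]
      rwa [Finset.mem_filter, mem_V, Finset.mem_singleton] at this
    obtain ⟨hl1, hl2⟩ := (hmem l).mpr rfl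
    refine ⟨l, ⟨hl1, fun p hp => ?_⟩, ?_⟩
    · rw [hl2 p hp]
      exact hv p hp
    · rintro l' ⟨h1, h3⟩
      rw [← hmem l']
      refine ⟨h1, fun p hp => ?_⟩
      exact sing_unique4 (WP_up2 hw) hq (h3 p hp) (hv p hp)
  choose! g hg using hex
  rw [Finset.card_eq_sum_card_fiberwise (f := g) (t := V K 1)]
  · have : ∀ l ∈ V K 1, (((Q4 K).filter (fun c => ∀ p ∈ T, Bad 1 4 (up2 (quart c)) p)).filter
        (fun c => g c = l)).card = m11N K T := by
      intro l hl
      rw [mem_V] at hl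
      rw [← m11_card_tr hl T]
      congr 1
      ext c
      simp only [Finset.mem_filter]
      constructor
      · rintro ⟨⟨h1, h3⟩, h4⟩
        refine ⟨h1, ?_⟩
        have := (hg c (Finset.mem_filter.mpr ⟨h1, h3⟩)).1.2
        rwa [h4] at this
      · rintro ⟨h1, h3⟩
        have hb : ∀ p ∈ T, Bad 1 4 (up2 (quart c)) p := fun p hp => ⟨_, h3 p hp⟩
        refine ⟨⟨h1, hb⟩, ?_⟩
        exact ((hg c (Finset.mem_filter.mpr ⟨h1, hb⟩)).2 l ⟨hl, h3⟩).symm
    rw [Finset.sum_congr rfl this, Finset.sum_const, card_V, smul_eq_mul]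
  · intro c hc
    rw [Finset.mem_coe] at hc ⊢
    rw [mem_V]
    exact (hg c hc).1.1

/-- evaluation of `m11N` -/
theorem m11_N_eq (h2 : (2 : K) ≠ 0) {P : K[X]} (hP : P.natDegree ≤ 2) (h0 : P ≠ 0)
    (hc : (Zf 2 P).card = 2) :
    m11N K (Zf 2 P) = ((((V K 1 ×ˢ V K 2 ×ˢ V K 1 ×ˢ (Finset.univ : Finset K))).filter
      (fun x => Cop (P * x.2.2.1 - 2 * x.1 * x.2.1) (C x.2.2.2 * P ^ 2 - x.2.1 ^ 2))).card) := by
  unfold m11N
  symm
  apply Finset.card_bij (fun x _ => m11par P x)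
  · rintro ⟨a, b, g, k⟩ hx
    rw [Finset.mem_filter, Finset.mem_product, Finset.mem_product, Finset.mem_product, mem_V,
      mem_V, mem_V] at hx
    obtain ⟨⟨ha, hb, hg, -⟩, hcop⟩ := hx
    dsimp only at ha hb hg hcop
    have hwp : WP 1 4 (quart (m11par P (a, b, g, k))) := by
      apply WP_quart
      · exact m11_natDegree_C_two_mul _ _ ha
      · exact (natDegree_add_le _ _).trans (max_le (m11_natDegree_sq ha)
          (m11_natDegree_C_two_mul _ _ hb))
      · exact m11_natDegree_mul hP hg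
      · exact (natDegree_C_mul_le _ _).trans (m11_natDegree_sq hP)
    rw [Finset.mem_filter, mem_Q4]
    refine ⟨⟨hwp, ?_⟩, ?_⟩
    · have h3 : up2 (quart (m11par P (a, b, g, k))) =
          (X ^ 2 + C (up a) * X + C (up b)) ^ 2 + C (up (P * g - 2 * a * b)) * X
            + C (up (C k * P ^ 2 - b ^ 2)) := by
        rw [m11_quart_par]
        simp [up2, up, Polynomial.map_add, Polynomial.map_mul, Polynomial.map_pow]
      rw [h3, noSq_iff (m11_two h2)]
      · intro p hp
        exact hcop p hp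
      · rwa [natDegree_up]
      · rwa [natDegree_up]
      · rw [natDegree_up]
        refine (natDegree_sub_le _ _).trans (max_le (m11_natDegree_mul hP hg) ?_)
        exact m11_natDegree_mul (m11_natDegree_C_two_mul _ _ ha) hb
      · rw [natDegree_up]
        refine (natDegree_sub_le _ _).trans (max_le ?_ (m11_natDegree_sq hb))
        exact (natDegree_C_mul_le _ _).trans (m11_natDegree_sq hP)
    · intro p hp
      rw [mem_Zf hP h0] at hp
      rw [m11_sing_zero hwp]
      constructor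
      · show ev 3 (up (P * g)) p = 0
        rw [up_mul, show 3 = 2 + 1 by rfl, ev_mul (by rwa [natDegree_up]) (by rwa [natDegree_up]),
          hp, zero_mul]
      · show dv 4 (up (C k * P ^ 2)) p
        rw [up_mul, up_C]
        apply dv_C_mul
        rw [up_pow, sq, show 4 = 2 + 2 by rfl]
        exact dv_mul_of_ev (by norm_num) (by norm_num) (by rwa [natDegree_up])
          (by rwa [natDegree_up]) hp hp
  · intro x _ y _ h
    exact m11_par_injective h2 h0 h
  · intro c hcm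
    rw [Finset.mem_filter, mem_Q4] at hcm
    obtain ⟨⟨hw, hq⟩, hs⟩ := hcm
    have hcQ : c ∈ Q4 K := mem_Q4.mpr ⟨hw, hq⟩
    have hdeg : c.1.natDegree ≤ 1 ∧ c.2.1.natDegree ≤ 2 ∧ c.2.2.1.natDegree ≤ 3 ∧
        c.2.2.2.natDegree ≤ 4 := by
      unfold Q4 at hcQ
      rw [Finset.mem_filter, Finset.mem_product, Finset.mem_product, Finset.mem_product, mem_V,
        mem_V, mem_V, mem_V] at hcQ
      exact hcQ.1
    obtain ⟨hd1, hd2, hd3, hd4⟩ := hdeg
    -- the zero set of P
    obtain ⟨B, hB⟩ := exists_BTK (Zf_stable (n := 2) P)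
    have hBd : B.natDegree ≤ 2 := by
      rw [← natDegree_up, hB]; exact (natDegree_BT _).trans hc.le
    obtain ⟨e, he, hPe⟩ := c3c_prop (P := P) hB (by rw [hc]; exact hP) h0 (by rw [hc])
    have hB0 : B ≠ 0 := by
      rintro rfl
      rw [mul_zero] at hPe
      exact h0 hPe
    -- c3 = B * γ0
    have hsing : ∀ p ∈ Zf 2 P, ev 3 (up c.2.2.1) p = 0 ∧ dv 4 (up c.2.2.2) p := fun p hp =>
      (m11_sing_zero hw p).mp (hs p hp)
    obtain ⟨g0, hg0, hg⟩ := exists_mul_BT (P := up c.2.2.1) (n := 3) (T := Zf 2 P)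
      (by rwa [natDegree_up]) (by omega) (fun p hp => (hsing p hp).1)
    obtain ⟨k0, hk0, hk⟩ := exists_mul_BT_sq (P := up c.2.2.2) (n := 4) (T := Zf 2 P)
      (by rwa [natDegree_up]) (by omega) (fun p hp => (hsing p hp).2)
    rw [hc] at hg0 hk0
    norm_num at hg0 hk0
    have hphig : phi K g0 = g0 := by
      have h1 : BT (Zf 2 P) * phi K g0 = BT (Zf 2 P) * g0 := by
        rw [← hg, ← phi_up c.2.2.1]
        conv_rhs => rw [hg, map_mul, phi_BT, stab_image frob_injective (Zf_stable P)]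
      exact mul_left_cancel₀ (BT_ne_zero _) h1
    have hphik : phi K k0 = k0 := by
      have h1 : BT (Zf 2 P) ^ 2 * phi K k0 = BT (Zf 2 P) ^ 2 * k0 := by
        rw [← hk, ← phi_up c.2.2.2]
        conv_rhs => rw [hk, map_mul, map_pow, phi_BT, stab_image frob_injective (Zf_stable P)]
      exact mul_left_cancel₀ (pow_ne_zero 2 (BT_ne_zero _)) h1
    obtain ⟨g1, rfl⟩ := phi_eq_iff.mp hphig
    obtain ⟨k1, rfl⟩ := phi_eq_iff.mp hphik
    rw [natDegree_up] at hg0 hk0
    obtain ⟨k2, rfl⟩ : ∃ k, k1 = C k := ⟨_, eq_C_of_natDegree_eq_zero (by omega)⟩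
    have hg' : c.2.2.1 = B * g1 := by
      apply up_injective
      rw [hg, up_mul, hB]
    have hk' : c.2.2.2 = B ^ 2 * C k2 := by
      apply up_injective
      rw [hk, up_mul, up_pow, hB]
    have h2' : C (2 : K) = 2 := m11_C2.symm
    have hinv : (2 : K[X]) * C (2⁻¹ : K) = 1 := by
      rw [← h2', ← C_mul, mul_inv_cancel₀ h2, C_1]
    have hinve : (C e : K[X]) * C (e⁻¹ : K) = 1 := by
      rw [← C_mul, mul_inv_cancel₀ he, C_1]
    set a : K[X] := C 2⁻¹ * c.1 with ha
    set b : K[X] := C 2⁻¹ * (c.2.1 - a ^ 2) with hb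
    set g : K[X] := C e⁻¹ * g1 with hgd
    have ha2 : 2 * a = c.1 := by rw [ha, ← mul_assoc, hinv, one_mul]
    have hb2 : a ^ 2 + 2 * b = c.2.1 := by
      rw [hb, ← mul_assoc, hinv, one_mul]; ring
    have hg2 : P * g = c.2.2.1 := by
      rw [hPe, hgd, hg']
      linear_combination (B * g1) * hinve
    have hk2 : C (k2 * (e⁻¹) ^ 2) * P ^ 2 = c.2.2.2 := by
      rw [hPe, hk', C_mul, C_pow]
      linear_combination (C k2 * B ^ 2 * (C e * C e⁻¹ + 1)) * hinve
    have had : a.natDegree ≤ 1 := (natDegree_C_mul_le _ _).trans hd1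
    have hbd : b.natDegree ≤ 2 := by
      refine (natDegree_C_mul_le _ _).trans ((natDegree_sub_le _ _).trans (max_le hd2 ?_))
      exact m11_natDegree_sq had
    have hgdg : g.natDegree ≤ 1 := (natDegree_C_mul_le _ _).trans hg0
    refine ⟨(a, b, g, k2 * (e⁻¹) ^ 2), ?_, ?_⟩
    · rw [Finset.mem_filter, Finset.mem_product, Finset.mem_product, Finset.mem_product, mem_V,
        mem_V, mem_V]
      refine ⟨⟨had, hbd, hgdg, Finset.mem_univ _⟩, ?_⟩
      have hcc : m11par P (a, b, g, k2 * (e⁻¹) ^ 2) = c := by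
        simp only [m11par]
        rw [ha2, hb2, hg2, hk2]
      have h3 : up2 (quart c) =
          (X ^ 2 + C (up a) * X + C (up b)) ^ 2 + C (up (P * g - 2 * a * b)) * X
            + C (up (C (k2 * (e⁻¹) ^ 2) * P ^ 2 - b ^ 2)) := by
        rw [← hcc, m11_quart_par]
        simp [up2, up, Polynomial.map_add, Polynomial.map_mul, Polynomial.map_pow]
      rw [h3, noSq_iff (m11_two h2)] at hq
      · exact hq
      · rwa [natDegree_up]
      · rwa [natDegree_up]
      · rw [natDegree_up]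
        refine (natDegree_sub_le _ _).trans (max_le (m11_natDegree_mul hP hgdg) ?_)
        exact m11_natDegree_mul (m11_natDegree_C_two_mul _ _ had) hbd
      · rw [natDegree_up]
        refine (natDegree_sub_le _ _).trans (max_le ?_ (m11_natDegree_sq hbd))
        exact (natDegree_C_mul_le _ _).trans (m11_natDegree_sq hP)
    · simp only [m11par]
      rw [ha2, hb2, hg2, hk2]

end

section
variable (K : Type*) [Field K] [Fintype K]

/-- M11 -/
theorem SV_two_aux (h2 : (2 : K) ≠ 0) :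
    ((Fintype.card K : ℤ) - 1) * SV K 2 = (Fintype.card K : ℤ) ^ 2 * PC3 K := by
  have h1 : SV K 2 = ∑ T ∈ Stab K 2, mu K T * ((Fintype.card K : ℤ) ^ 2 * (m11N K T : ℤ)) := by
    unfold SV SVG
    simp only [and_true]
    simp_rw [Finset.sum_filter]
    rw [Finset.sum_comm]
    apply Finset.sum_congr rfl
    intro T hT
    rw [← Finset.sum_filter, Finset.sum_const, m11_card_bad hT, nsmul_eq_mul]
    push_cast
    ring
  have h3 : SV K 2 = (Fintype.card K : ℤ) ^ 2 * ∑ T ∈ Stab K 2, mu K T * (m11N K T : ℤ) := by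
    rw [h1, Finset.mul_sum]
    apply Finset.sum_congr rfl
    intro T _
    ring
  have h4 := sum_forms_eq (K := K) (l := 2) (fun T => mu K T * (m11N K T : ℤ))
  rw [h3]
  have h5 : PC3 K = ∑ P ∈ (V K 2).filter (fun P => P ≠ 0 ∧ (Zf 2 P).card = 2),
      mu K (Zf 2 P) * (m11N K (Zf 2 P) : ℤ) := by
    unfold PC3
    rw [Finset.sum_filter]
    apply Finset.sum_congr rfl
    intro P hP
    rw [mem_V] at hP
    by_cases h0 : P = 0
    · rw [if_neg (fun h => h.1 h0), h0]
      simp [disc2]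
    · by_cases hd : disc2 P = 0
      · rw [if_neg, hd]
        · simp
        · rintro ⟨-, h6⟩
          rw [card_Zf_two h2 hP h0, if_pos hd] at h6
          omega
      · have h6 : (Zf 2 P).card = 2 := by
          rw [card_Zf_two h2 hP h0, if_neg hd]
        rw [if_pos ⟨h0, h6⟩, mu_Zf_two h2 hP hd, m11_N_eq h2 hP h0 h6]
  rw [h5, h4]
  ring

end

end
end Pool.Agent.Helper19.DP1
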