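import Pool.Agent.Helper19.DP1.Core1b
import Pool.Agent.Helper19.DP1.Core4
import Pool.Agent.Helper19.DP1.Core5b
import Pool.Agent.Helper19.DP1.Core6c

/-! M12: three collinear points. -/

namespace Pool.Agent.Helper19.DP1
open Polynomial Classical
noncomputable section

section
variable {K : Type*} [Field K] [Fintype K]

/-! ### two points -/

theorem m12_stab_two {T : Finset (P1 K)} (hT : T ∈ Stab K 2) :
    (∃ r s : Option K, r ≠ s ∧ T = {upP r, upP s} ∧ mu K T = 1) ∨ mu K T = -1 := by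
  rw [mem_Stab] at hT
  obtain ⟨hs, hc⟩ := hT
  obtain ⟨x, y, hxy, rfl⟩ := Finset.card_eq_two.mp hc
  set z : Fin 2 → P1 K := ![x, y] with hz
  have hzinj : Function.Injective z := by
    intro i j hij
    fin_cases i <;> fin_cases j <;> simp_all [hxy.symm]
  have himg : Finset.univ.image z = {x, y} := by
    ext p
    simp [hz, Fin.exists_fin_two, eq_comm]
  have hs' : IsStabG (frob K) (Finset.univ.image z) := by
    rw [himg]; exact hs
  obtain ⟨σ, hσ, -⟩ := exists_label frob_injective z hzinj hs'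
  have hmu : mu K {x, y} = (-1) ^ 2 * (Equiv.Perm.sign σ : ℤ) := by
    rw [← himg]
    exact muG_label z hzinj σ hσ
  have hall : ∀ τ : Equiv.Perm (Fin 2), τ = 1 ∨ τ = Equiv.swap 0 1 := by decide
  have hcases := hall σ
  rcases hcases with rfl | rfl
  · left
    have h0 : frob K x = x := by simpa [hz] using hσ 0
    have h1 : frob K y = y := by simpa [hz] using hσ 1
    obtain ⟨r, rfl⟩ := frob_eq_iff.mp h0
    obtain ⟨s, rfl⟩ := frob_eq_iff.mp h1
    refine ⟨r, s, fun h => hxy (by rw [h]), rfl, ?_⟩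
    rw [hmu]; simp
  · right
    rw [hmu]
    simp

theorem m12_MS_three {T : Finset (P1 K)} (hT : T ∈ Stab K 2) :
    MS K T 3 = mu K T - (Fintype.card K : ℤ) := by
  rcases m12_stab_two hT with ⟨r, s, hrs, rfl, hm⟩ | hm
  · rw [MS_two_rat hrs (by norm_num), hm]
  · rw [mem_Stab] at hT
    rw [MS_conj hT.1 hT.2 hm (by norm_num), hm]
    ring

/-- number of quadratic forms with vanishing discriminant -/
theorem m12_card_disc (h2 : (2 : K) ≠ 0) :
    ((V K 2).filter (fun P => disc2 P = 0)).card = Fintype.card K ^ 2 := by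
  have h4 : (4 : K) ≠ 0 := by
    have : (4 : K) = 2 * 2 := by norm_num
    rw [this]; exact mul_ne_zero h2 h2
  rw [Finset.card_filter, sum_V2]
  have hd : ∀ a b c : K, disc2 (C a * X ^ 2 + C b * X + C c) = b ^ 2 - 4 * a * c := by
    intro a b c
    simp [disc2, coeff_X]
  simp_rw [hd]
  have h1 : ∀ a : K, (∑ b : K, ∑ c : K, if b ^ 2 - 4 * a * c = 0 then 1 else 0) =
      Fintype.card K := by
    intro a
    by_cases ha : a = 0
    · subst ha
      have : ∀ b c : K, (if b ^ 2 - 4 * 0 * c = 0 then 1 else 0 : ℕ) = if b = 0 then 1 else 0 := by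
        intro b c
        simp
      simp_rw [this]
      simp
    · have : ∀ b : K, (∑ c : K, if b ^ 2 - 4 * a * c = 0 then 1 else 0 : ℕ) = 1 := by
        intro b
        rw [Finset.sum_eq_single (b ^ 2 / (4 * a))]
        · rw [if_pos]
          field_simp
          ring
        · intro c _ hc
          rw [if_neg]
          intro h
          apply hc
          field_simp
          linear_combination -h
        · intro h; exact absurd (Finset.mem_univ _) h
      simp_rw [this]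
      simp
  simp_rw [h1]
  simp [pow_two]

theorem m12_card_Stab_two (h2 : (2 : K) ≠ 0) :
    ((Stab K 2).card : ℤ) = (Fintype.card K : ℤ) ^ 2 := by
  have h1 := sum_forms_eq (K := K) (l := 2) (fun _ => 1)
  have h3 : ((V K 2).filter (fun P => P ≠ 0 ∧ (Zf 2 P).card = 2)) =
      (V K 2).filter (fun P => ¬ (disc2 P = 0)) := by
    apply Finset.filter_congr
    intro P hP
    rw [mem_V] at hP
    constructor
    · rintro ⟨h0, hc⟩ hd
      rw [card_Zf_two h2 hP h0, if_pos hd] at hc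
      norm_num at hc
    · intro hd
      have h0 : P ≠ 0 := by
        rintro rfl
        apply hd
        simp [disc2]
      exact ⟨h0, by rw [card_Zf_two h2 hP h0, if_neg hd]⟩
  rw [h3] at h1
  have h4 := Finset.card_filter_add_card_filter_not (s := V K 2) (fun P => disc2 P = 0)
  rw [m12_card_disc h2, card_V] at h4
  have h5 : (((V K 2).filter (fun P => ¬ (disc2 P = 0))).card : ℤ) =
      (Fintype.card K : ℤ) ^ 3 - (Fintype.card K : ℤ) ^ 2 := by
    have := congrArg (Nat.cast : ℕ → ℤ) h4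
    push_cast at this
    linarith
  simp only [Finset.sum_const, nsmul_eq_mul, mul_one] at h1
  rw [h5] at h1
  have hq : ((Fintype.card K : ℤ) - 1) ≠ 0 := by
    have := Fintype.one_lt_card (α := K)
    have : (1 : ℤ) < Fintype.card K := by exact_mod_cast this
    linarith
  apply mul_left_cancel₀ hq
  linarith

theorem m12_sum_MS (h2 : (2 : K) ≠ 0) :
    ∑ δ ∈ (V K 2).filter (fun P => P ≠ 0), MS K (Zf 2 δ) 3 = - G2 K := by
  have h1 := sum_forms_eq (K := K) (l := 2) (fun T => MS K T 3)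
  have h3 : ∑ δ ∈ (V K 2).filter (fun P => P ≠ 0), MS K (Zf 2 δ) 3 =
      ∑ δ ∈ (V K 2).filter (fun P => P ≠ 0 ∧ (Zf 2 P).card = 2), MS K (Zf 2 δ) 3 := by
    rw [← Finset.filter_filter]
    symm
    apply Finset.sum_subset (Finset.filter_subset _ _)
    intro P hP hP'
    rw [Finset.mem_filter, mem_V] at hP
    rw [Finset.mem_filter, not_and] at hP'
    have hc : (Zf 2 P).card ≠ 2 := hP' (by rw [Finset.mem_filter, mem_V]; exact hP)
    have hc1 : (Zf 2 P).card = 1 := by
      have := card_Zf_two h2 hP.1 hP.2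
      split_ifs at this with h
      · exact this
      · exact absurd this hc
    obtain ⟨x, hx⟩ := Finset.card_eq_one.mp hc1
    have hst := Zf_stable (n := 2) P
    have hfx : frob K x = x := by
      have := hst x (by rw [hx]; simp)
      rw [hx] at this
      simpa using this
    obtain ⟨r, hr⟩ := frob_eq_iff.mp hfx
    rw [hx, ← hr]
    exact MS_rat_ge r (by norm_num)
  rw [h3, h1, Finset.sum_congr rfl (fun T hT => m12_MS_three hT), Finset.sum_sub_distrib,
    sum_Stab_mu, MS_empty_two, Finset.sum_const, nsmul_eq_mul, m12_card_Stab_two h2, G2]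
  ring

/-! ### the quartics singular at `(p,0)`, `p ∈ T` -/

theorem m12_two_ne (h2 : (2 : K) ≠ 0) : (2 : Om K) ≠ 0 := by
  have : (2 : Om K) = algebraMap K (Om K) 2 := (map_ofNat (algebraMap K (Om K)) 2).symm
  rw [this]
  exact (_root_.map_ne_zero _).mpr h2

/-- the condition `NoSq` for quartics with constant coefficient zero -/
theorem m12_noSq_aux {L : Type*} [Field L] (h2 : (2 : L) ≠ 0) {c1 c2 c3 : L[X]}
    (h1 : c1.natDegree ≤ 1) (h2' : c2.natDegree ≤ 2) (h3 : c3.natDegree ≤ 3) :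
    NoSq (quart (c1, c2, c3, 0)) ↔
      ∀ p, ¬ (ev 3 c3 p = 0 ∧ ev 2 (c1 ^ 2 - 4 * c2) p = 0) := by
  set a : L[X] := C (2⁻¹) * c1 with ha
  set b : L[X] := C (2⁻¹) * (c2 - a ^ 2) with hb
  have hC2 : (C (2 : L)⁻¹ : L[X]) * 2 = 1 := by
    have : (2 : L[X]) = C (2 : L) := (map_ofNat (C : L →+* L[X]) 2).symm
    rw [this, ← C_mul, inv_mul_cancel₀ h2, C_1]
  have e1 : c1 = 2 * a := by rw [ha]; linear_combination (-c1) * hC2
  have e2 : c2 = a ^ 2 + 2 * b := by rw [hb]; linear_combination (-(c2 - a ^ 2)) * hC2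
  have ea : a.natDegree ≤ 1 := (natDegree_C_mul_le _ _).trans h1
  have eb : b.natDegree ≤ 2 := by
    refine (natDegree_C_mul_le _ _).trans ?_
    refine (natDegree_sub_le _ _).trans (max_le h2' ?_)
    exact (natDegree_pow_le).trans (by omega)
  have eA : (c3 - 2 * a * b).natDegree ≤ 3 := by
    refine (natDegree_sub_le _ _).trans (max_le h3 ?_)
    have : (2 * a * b : L[X]) = C 2 * (a * b) := by
      rw [(map_ofNat (C : L →+* L[X]) 2)]; ring
    rw [this]
    exact (natDegree_C_mul_le _ _).trans (natDegree_mul_le.trans (by omega))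
  have eB : (-(b ^ 2)).natDegree ≤ 4 := by
    rw [natDegree_neg]
    exact (natDegree_pow_le).trans (by omega)
  have hq : quart (c1, c2, c3, 0) =
      ((X ^ 2 + C a * X + C b) ^ 2 + C (c3 - 2 * a * b) * X + C (-(b ^ 2)) : L[X][X]) := by
    rw [quart]
    dsimp only
    rw [e1, e2]
    simp only [C_mul, C_add, C_pow, C_sub, C_neg, C_0]
    have : (C (2 : L[X]) : L[X][X]) = 2 := map_ofNat C 2
    rw [this]
    ring
  rw [hq, noSq_iff h2 ea eb eA eB]
  apply forall_congr'
  intro p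
  have ev_a2b : ev 3 (2 * a * b) p = 2 * ev 1 a p * ev 2 b p := by
    have : (2 * a * b : L[X]) = C 2 * (a * b) := by
      rw [(map_ofNat (C : L →+* L[X]) 2)]; ring
    rw [this, ev_C_mul]
    have := ev_mul (m := 1) (n := 2) (p := p) ea eb
    rw [show (1 + 2 : ℕ) = 3 from rfl] at this
    rw [this]; ring
  have ev_b2 : ev 4 (-(b ^ 2)) p = - (ev 2 b p) ^ 2 := by
    rw [ev_neg]
    have := ev_pow (m := 2) (p := p) eb 2
    rw [show (2 * 2 : ℕ) = 4 from rfl] at this
    rw [this]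
  have ev_d : ev 2 (c1 ^ 2 - 4 * c2) p = -8 * ev 2 b p := by
    have : (c1 ^ 2 - 4 * c2 : L[X]) = C (-8) * b := by
      rw [e1, e2]
      have : (C (-8 : L) : L[X]) = -8 := by rw [C_neg, map_ofNat]
      rw [this]
      ring
    rw [this, ev_C_mul]
  have h8 : (-8 : L) ≠ 0 := by
    have : (-8 : L) = -(2 ^ 3) := by norm_num
    rw [this]
    exact neg_ne_zero.mpr (pow_ne_zero 3 h2)
  rw [ev_sub, ev_a2b, ev_b2, ev_d]
  have key : (ev 3 c3 p - 2 * ev 1 a p * ev 2 b p = 0 ∧ -ev 2 b p ^ 2 = 0) ↔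
      (ev 3 c3 p = 0 ∧ -8 * ev 2 b p = 0) := by
    constructor
    · rintro ⟨hA, hB⟩
      have hb0 : ev 2 b p = 0 := by
        have : ev 2 b p ^ 2 = 0 := neg_eq_zero.mp hB
        exact pow_eq_zero_iff (two_ne_zero) |>.mp this
      rw [hb0] at hA ⊢
      exact ⟨by simpa using hA, by simp⟩
    · rintro ⟨hA, hB⟩
      have hb0 : ev 2 b p = 0 := by
        rcases mul_eq_zero.mp hB with h | h
        · exact absurd h h8
        · exact h
      rw [hb0, hA]
      simp
  rw [key]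

/-- the condition `NoSq` -/
theorem m12_noSq (h2 : (2 : K) ≠ 0) {c1 c2 B : K[X]} {κ : K} (h1 : c1.natDegree ≤ 1)
    (h2' : c2.natDegree ≤ 2) (hB : B.natDegree ≤ 3) {T : Finset (P1 K)} (hBT : up B = BT T)
    (hT : T.card = 3) :
    NoSq (up2 (quart (c1, c2, C κ * B, 0))) ↔
      κ ≠ 0 ∧ ∀ p ∈ T, ev 2 (up (c1 ^ 2 - 4 * c2)) p ≠ 0 := by
  have h2o := m12_two_ne h2
  have e4 : (up (c1 ^ 2 - 4 * c2) : (Om K)[X]) = up c1 ^ 2 - 4 * up c2 := by
    rw [up_sub, up_mul, up_pow]
    congr 2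
    simp [up]
  rw [up2_quart]
  dsimp only
  rw [up_zero, m12_noSq_aux h2o (by rw [natDegree_up]; exact h1) (by rw [natDegree_up]; exact h2')
    (by rw [natDegree_up]; exact (natDegree_C_mul_le _ _).trans hB), e4, up_mul, up_C, hBT]
  have hd : (up c1 ^ 2 - 4 * up c2 : (Om K)[X]).natDegree ≤ 2 := by
    rw [← e4, natDegree_up]
    refine (natDegree_sub_le _ _).trans (max_le ?_ ?_)
    · exact (natDegree_pow_le).trans (by omega)
    · have : (4 * c2 : K[X]) = C 4 * c2 := by rw [map_ofNat]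
      rw [this]
      exact (natDegree_C_mul_le _ _).trans h2'
  have hev : ∀ p, ev 3 (C (algebraMap K (Om K) κ) * BT T) p = 0 ↔ κ = 0 ∨ p ∈ T := by
    intro p
    rw [ev_C_mul, mul_eq_zero]
    have := ev_BT (p := p) T
    rw [hT] at this
    rw [this]
    simp
  constructor
  · intro h
    constructor
    · intro hκ
      obtain ⟨p, hp⟩ := exists_zero (n := 2) (by norm_num) hd
      exact h p ⟨(hev p).mpr (Or.inl hκ), hp⟩
    · intro p hp h0
      exact h p ⟨(hev p).mpr (Or.inr hp), h0⟩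
  · rintro ⟨hκ, h⟩ p ⟨hp1, hp2⟩
    rcases (hev p).mp hp1 with h' | h'
    · exact hκ h'
    · exact h p h' hp2

/-- singular at `(p,0)` -/
theorem m12_sing_zero {L : Type*} [Field L] {c : L[X] × L[X] × L[X] × L[X]}
    (hf : WP 1 4 (quart c)) (p : Option L) :
    Sing 1 4 (quart c) p 0 ↔ ev 3 c.2.2.1 p = 0 ∧ dv 4 c.2.2.2 p := by
  have h := sing_iff (p := p) (s := 0) hf le_rfl (by norm_num) (by simp)
  rw [ev_zero] at h
  rw [h]
  have e1 : (quart c).derivative.eval 0 = c.2.2.1 := by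
    simp [quart, derivative_pow]
  have e2 : (quart c).eval 0 = c.2.2.2 := by
    simp [quart]
  rw [e1, e2]

variable (K) in
/-- the parameters `(s, κ, c1, δ)` -/
def m12_I (T : Finset (P1 K)) : Finset (K[X] × K × K[X] × K[X]) :=
  V K 1 ×ˢ (Finset.univ.filter (fun κ : K => κ ≠ 0)) ×ˢ V K 1 ×ˢ
    (V K 2).filter (fun δ => ∀ p ∈ T, ev 2 (up δ) p ≠ 0)

/-- the quartic with `s = 0` -/
def m12_f0 (B : K[X]) (x : K[X] × K × K[X] × K[X]) : K[X][X] :=
  quart (x.2.2.1, C 4⁻¹ * (x.2.2.1 ^ 2 - x.2.2.2), C x.2.1 * B, 0)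

/-- the quartic -/
def m12_f (B : K[X]) (x : K[X] × K × K[X] × K[X]) : K[X][X] :=
  (m12_f0 B x).comp (X + C (-x.1))

/-- its coefficients -/
def m12_c (B : K[X]) (x : K[X] × K × K[X] × K[X]) : K[X] × K[X] × K[X] × K[X] :=
  ((m12_f B x).coeff 3, (m12_f B x).coeff 2, (m12_f B x).coeff 1, (m12_f B x).coeff 0)

variable (K) in
/-- the quartics -/
def m12_A (T : Finset (P1 K)) : Finset (K[X] × K[X] × K[X] × K[X]) :=
  (Q4 K).filter (fun c => (∀ p ∈ T, Bad 1 4 (up2 (quart c)) p) ∧ Coll (up2 (quart c)) T)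

theorem m12_four_ne {L : Type*} [Field L] (h2 : (2 : L) ≠ 0) : (4 : L) ≠ 0 := by
  have : (4 : L) = 2 * 2 := by norm_num
  rw [this]; exact mul_ne_zero h2 h2

theorem m12_up_neg (P : K[X]) : up (-P) = - up P := by
  have := up_sub 0 P
  rw [zero_sub, up_zero, zero_sub] at this
  exact this

section bij
variable {T : Finset (P1 K)} {B : K[X]}

theorem m12_natDegree_B (hBT : up B = BT T) (hTc : T.card = 3) : B.natDegree ≤ 3 := by
  rw [← natDegree_up, hBT, ← hTc]
  exact natDegree_BT T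

theorem m12_WP0 (hB : B.natDegree ≤ 3) {x : K[X] × K × K[X] × K[X]} (hx : x ∈ m12_I K T) :
    WP 1 4 (m12_f0 B x) := by
  simp only [m12_I, Finset.mem_product, Finset.mem_filter, mem_V, Finset.mem_univ, true_and] at hx
  obtain ⟨h1, h2, h3, h4, h5⟩ := hx
  refine WP_quart h3 ?_ ((natDegree_C_mul_le _ _).trans hB) (by simp)
  refine (natDegree_C_mul_le _ _).trans ((natDegree_sub_le _ _).trans (max_le ?_ h4))
  exact natDegree_pow_le.trans (by omega)

theorem m12_WP (hB : B.natDegree ≤ 3) {x : K[X] × K × K[X] × K[X]} (hx : x ∈ m12_I K T) :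
    WP 1 4 (m12_f B x) := by
  refine WP_comp (m12_WP0 hB hx) ?_
  simp only [m12_I, Finset.mem_product, mem_V] at hx
  rw [natDegree_neg]
  exact hx.1

theorem m12_quart_c (hB : B.natDegree ≤ 3) {x : K[X] × K × K[X] × K[X]} (hx : x ∈ m12_I K T) :
    quart (m12_c B x) = m12_f B x :=
  (eq_quart (m12_WP hB hx)).symm

theorem m12_delta (h2 : (2 : K) ≠ 0) (c1 δ : K[X]) :
    c1 ^ 2 - 4 * (C 4⁻¹ * (c1 ^ 2 - δ)) = δ := by
  have : (4 : K[X]) * C 4⁻¹ = 1 := by
    have h : (4 : K[X]) = C (4 : K) := (map_ofNat (C : K →+* K[X]) 4).symm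
    rw [h, ← C_mul, mul_inv_cancel₀ (m12_four_ne h2), C_1]
  linear_combination (-(c1 ^ 2 - δ)) * this

theorem m12_noSq_f (h2 : (2 : K) ≠ 0) (hBT : up B = BT T) (hTc : T.card = 3)
    {x : K[X] × K × K[X] × K[X]} (hx : x ∈ m12_I K T) : NoSq (up2 (m12_f B x)) := by
  have hB := m12_natDegree_B hBT hTc
  have hW := m12_WP0 hB hx
  have hx' := hx
  simp only [m12_I, Finset.mem_product, Finset.mem_filter, mem_V, Finset.mem_univ, true_and] at hx'
  obtain ⟨h1, hκ, h3, h4, h5⟩ := hx'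
  rw [m12_f, up2_comp, noSq_comp (WP_up2 hW) (by rw [natDegree_up, natDegree_neg]; exact h1),
    m12_f0, m12_noSq h2 h3 ?_ hB hBT hTc]
  · refine ⟨hκ, ?_⟩
    rw [m12_delta h2]
    exact h5
  · refine (natDegree_C_mul_le _ _).trans ((natDegree_sub_le _ _).trans (max_le ?_ h4))
    exact natDegree_pow_le.trans (by omega)

theorem m12_sing_f (hBT : up B = BT T) (hTc : T.card = 3)
    {x : K[X] × K × K[X] × K[X]} (hx : x ∈ m12_I K T) {p : P1 K} (hp : p ∈ T) :
    Sing 1 4 (up2 (m12_f B x)) p (ev 1 (up x.1) p) := by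
  have hB := m12_natDegree_B hBT hTc
  have hW := m12_WP0 hB hx
  have hx' := hx
  simp only [m12_I, Finset.mem_product, mem_V] at hx'
  rw [m12_f, up2_comp, sing_comp (WP_up2 hW) le_rfl (by norm_num)
    (by rw [natDegree_up, natDegree_neg]; exact hx'.1), m12_up_neg, ev_neg, add_neg_cancel]
  rw [m12_f0, up2_quart]
  have hW' := WP_up2 hW
  rw [m12_f0, up2_quart] at hW'
  rw [m12_sing_zero hW']
  dsimp only
  rw [up_mul, up_C, hBT, ev_C_mul, up_zero]
  refine ⟨?_, dv_zero⟩
  have := (ev_BT (p := p) T).mpr hp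
  rw [hTc] at this
  rw [this, mul_zero]

theorem m12_mem_A (h2 : (2 : K) ≠ 0) (hBT : up B = BT T) (hTc : T.card = 3)
    {x : K[X] × K × K[X] × K[X]} (hx : x ∈ m12_I K T) : m12_c B x ∈ m12_A K T := by
  have hB := m12_natDegree_B hBT hTc
  rw [m12_A, Finset.mem_filter, mem_Q4, m12_quart_c hB hx]
  refine ⟨⟨m12_WP hB hx, m12_noSq_f h2 hBT hTc hx⟩, fun p hp => ⟨_, m12_sing_f hBT hTc hx hp⟩, ?_⟩
  refine ⟨up x.1, ?_, fun p hp => m12_sing_f hBT hTc hx hp⟩
  rw [natDegree_up]
  simp only [m12_I, Finset.mem_product, mem_V] at hx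
  exact hx.1

theorem m12_comp_back (f : K[X][X]) (s : K[X]) : (f.comp (X + C (-s))).comp (X + C s) = f := by
  rw [comp_assoc]
  simp

theorem m12_inj (h2 : (2 : K) ≠ 0) (hBT : up B = BT T) (hTc : T.card = 3)
    {x y : K[X] × K × K[X] × K[X]} (hx : x ∈ m12_I K T) (hy : y ∈ m12_I K T)
    (h : m12_c B x = m12_c B y) : x = y := by
  have hB := m12_natDegree_B hBT hTc
  have hB0 : B ≠ 0 := by
    rintro rfl
    rw [up_zero] at hBT
    exact BT_ne_zero T hBT.symm
  have hf : m12_f B x = m12_f B y := by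
    rw [← m12_quart_c hB hx, ← m12_quart_c hB hy, h]
  have hx' := hx
  have hy' := hy
  simp only [m12_I, Finset.mem_product, Finset.mem_filter, mem_V, Finset.mem_univ, true_and]
    at hx' hy'
  have hs : x.1 = y.1 := by
    apply up_injective
    rw [← sub_eq_zero]
    refine eq_zero_of_ev (n := 1) (T := T) ?_ (by omega) ?_
    · refine (natDegree_sub_le _ _).trans (max_le ?_ ?_)
      · rw [natDegree_up]; exact hx'.1
      · rw [natDegree_up]; exact hy'.1
    · intro p hp
      rw [ev_sub, sub_eq_zero]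
      have h1 := m12_sing_f hBT hTc hx hp
      have h2' := m12_sing_f hBT hTc hy hp
      rw [← hf] at h2'
      exact sing_unique4 (WP_up2 (m12_WP hB hx)) (m12_noSq_f h2 hBT hTc hx) h1 h2'
  have hf0 : m12_f0 B x = m12_f0 B y := by
    rw [← m12_comp_back (m12_f0 B x) x.1, ← m12_comp_back (m12_f0 B y) y.1]
    rw [m12_f, m12_f] at hf
    rw [hf, hs]
  rw [m12_f0, m12_f0] at hf0
  have := quart_injective hf0
  simp only [Prod.mk.injEq, and_true] at this
  obtain ⟨e1, e2, e3⟩ := this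
  have hδ : x.2.2.2 = y.2.2.2 := by
    rw [← m12_delta h2 x.2.2.1 x.2.2.2, ← m12_delta h2 y.2.2.1 y.2.2.2, e2, e1]
  have hκ : x.2.1 = y.2.1 := by
    have := mul_right_cancel₀ hB0 e3
    exact C_injective this
  ext1
  · exact hs
  · ext1
    · exact hκ
    · ext1
      · exact e1
      · exact hδ

theorem m12_surj (h2 : (2 : K) ≠ 0) (hTs : IsStabG (frob K) T) (hBT : up B = BT T)
    (hTc : T.card = 3) {c : K[X] × K[X] × K[X] × K[X]} (hc : c ∈ m12_A K T) :
    ∃ x ∈ m12_I K T, m12_c B x = c := by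
  have hB := m12_natDegree_B hBT hTc
  have hB0 : B ≠ 0 := by
    rintro rfl
    rw [up_zero] at hBT
    exact BT_ne_zero T hBT.symm
  rw [m12_A, Finset.mem_filter, mem_Q4] at hc
  obtain ⟨⟨hW, hN⟩, -, s', hs', hsing⟩ := hc
  -- the section is over K
  have hphi : phi K s' = s' := by
    rw [← sub_eq_zero]
    refine eq_zero_of_ev (n := 1) (T := T) ?_ (by omega) ?_
    · refine (natDegree_sub_le _ _).trans (max_le ?_ hs')
      rw [natDegree_phi]; exact hs'
    · intro p hp
      obtain ⟨r, hr, hrp⟩ : ∃ r ∈ T, frob K r = p := by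
        have := stab_image frob_injective hTs
        rw [← this] at hp
        simpa only [Finset.mem_image] using hp
      rw [ev_sub, sub_eq_zero, ← hrp, ev_phi]
      have h3 := sing_frob hW (hsing r hr)
      have h4 := hsing _ (hTs r hr)
      exact sing_unique4 (WP_up2 hW) hN h3 h4
  obtain ⟨s, rfl⟩ := phi_eq_iff.mp hphi
  rw [natDegree_up] at hs'
  set f0 : K[X][X] := (quart c).comp (X + C s) with hf0
  have hW0 : WP 1 4 f0 := WP_comp hW hs'
  obtain ⟨c0, hc0⟩ : ∃ c0 : K[X] × K[X] × K[X] × K[X], f0 = quart c0 :=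
    ⟨_, eq_quart hW0⟩
  have hN0 : NoSq (up2 f0) := by
    rw [hf0, up2_comp, noSq_comp (WP_up2 hW) (by rw [natDegree_up]; exact hs')]
    exact hN
  have hsing0 : ∀ p ∈ T, Sing 1 4 (up2 f0) p 0 := by
    intro p hp
    rw [hf0, up2_comp, sing_comp (WP_up2 hW) le_rfl (by norm_num)
      (by rw [natDegree_up]; exact hs'), zero_add]
    exact hsing p hp
  have hW0' := WP_up2 hW0
  rw [hc0, up2_quart] at hW0' hsing0
  rw [hc0] at hW0 hN0
  have hdeg : c0.1.natDegree ≤ 1 ∧ c0.2.1.natDegree ≤ 2 ∧ c0.2.2.1.natDegree ≤ 3 ∧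
      c0.2.2.2.natDegree ≤ 4 := by
    have := (mem_Q4 (c := c0)).mpr ⟨hW0, hN0⟩
    rw [Q4, Finset.mem_filter] at this
    simp only [Finset.mem_product, mem_V] at this
    exact this.1
  obtain ⟨d1, d2, d3, d4⟩ := hdeg
  have hc4 : c0.2.2.2 = 0 := by
    apply up_injective
    rw [up_zero]
    refine eq_zero_of_dv (n := 4) (T := T) (by rw [natDegree_up]; exact d4) (by omega) ?_
    intro p hp
    exact ((m12_sing_zero hW0' p).mp (hsing0 p hp)).2
  have hc3 : ∃ κ : K, c0.2.2.1 = C κ * B := by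
    obtain ⟨Q, hQ, hQ'⟩ := exists_mul_BT (n := 3) (T := T) (P := up c0.2.2.1)
      (by rw [natDegree_up]; exact d3) (by omega)
      (fun p hp => ((m12_sing_zero hW0' p).mp (hsing0 p hp)).1)
    have hQphi : phi K Q = Q := by
      have h5 : phi K (up c0.2.2.1) = up c0.2.2.1 := phi_up _
      rw [hQ', ← hBT, map_mul, phi_up, hBT] at h5
      exact mul_left_cancel₀ (BT_ne_zero T) h5
    obtain ⟨Q0, rfl⟩ := phi_eq_iff.mp hQphi
    rw [natDegree_up, hTc] at hQ
    refine ⟨Q0.coeff 0, ?_⟩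
    apply up_injective
    rw [hQ', up_mul, hBT, mul_comm]
    congr 2
    exact eq_C_of_natDegree_le_zero (by simpa using hQ)
  obtain ⟨κ, hκ⟩ := hc3
  have hc0' : c0 = (c0.1, c0.2.1, C κ * B, 0) := by
    rw [← hκ, ← hc4]
  rw [hc0', m12_noSq h2 d1 d2 hB hBT hTc] at hN0
  refine ⟨(s, κ, c0.1, c0.1 ^ 2 - 4 * c0.2.1), ?_, ?_⟩
  · simp only [m12_I, Finset.mem_product, Finset.mem_filter, mem_V, Finset.mem_univ, true_and]
    refine ⟨hs', hN0.1, d1, ?_, hN0.2⟩
    refine (natDegree_sub_le _ _).trans (max_le ?_ ?_)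
    · exact natDegree_pow_le.trans (by omega)
    · have : (4 * c0.2.1 : K[X]) = C 4 * c0.2.1 := by rw [map_ofNat]
      rw [this]
      exact (natDegree_C_mul_le _ _).trans d2
  · have hx0 : m12_f0 B (s, κ, c0.1, c0.1 ^ 2 - 4 * c0.2.1) = quart c0 := by
      rw [m12_f0]
      dsimp only
      conv_rhs => rw [hc0']
      congr 3
      have : (C 4⁻¹ : K[X]) * 4 = 1 := by
        have h : (4 : K[X]) = C (4 : K) := (map_ofNat (C : K →+* K[X]) 4).symm
        rw [h, ← C_mul, inv_mul_cancel₀ (m12_four_ne h2), C_1]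
      linear_combination c0.2.1 * this
    have hx1 : m12_f B (s, κ, c0.1, c0.1 ^ 2 - 4 * c0.2.1) = quart c := by
      rw [m12_f, hx0, ← hc0, hf0]
      dsimp only
      have := m12_comp_back (quart c) (-s)
      rw [neg_neg] at this
      exact this
    apply quart_injective
    rw [m12_c, hx1]
    exact (eq_quart hW).symm

theorem m12_card (h2 : (2 : K) ≠ 0) (hT : T ∈ Stab K 3) :
    ((m12_A K T).card : ℤ) = (Fintype.card K : ℤ) ^ 4 * ((Fintype.card K : ℤ) - 1) *
      (((V K 2).filter (fun δ => ∀ p ∈ T, ev 2 (up δ) p ≠ 0)).card : ℤ) := by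
  rw [mem_Stab] at hT
  obtain ⟨hTs, hTc⟩ := hT
  obtain ⟨B, hBT⟩ := exists_BTK hTs
  have h1 : (m12_I K T).card = (m12_A K T).card := by
    refine Finset.card_bij (fun x _ => m12_c B x) ?_ ?_ ?_
    · intro x hx
      exact m12_mem_A h2 hBT hTc hx
    · intro x hx y hy h
      exact m12_inj h2 hBT hTc hx hy h
    · intro c hc
      obtain ⟨x, hx, h⟩ := m12_surj h2 hTs hBT hTc hc
      exact ⟨x, hx, h⟩
  rw [← h1, m12_I]
  simp only [Finset.card_product, card_V]
  have h3 : ((Finset.univ.filter (fun κ : K => κ ≠ 0)).card : ℤ) = (Fintype.card K : ℤ) - 1 := by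
    rw [Finset.filter_ne', Finset.card_erase_of_mem (Finset.mem_univ _), Finset.card_univ]
    have := Fintype.card_pos (α := K)
    omega
  push_cast
  rw [h3]
  ring

end bij

/-- M12 -/
theorem SV_three_coll (K : Type*) [Field K] [Fintype K] (h2 : (2 : K) ≠ 0) :
    SVG K 3 (fun f T => Coll (up2 f) T) =
      - (Fintype.card K : ℤ) ^ 4 * ((Fintype.card K : ℤ) - 1) * G2 K := by
  have h1 : SVG K 3 (fun f T => Coll (up2 f) T) =
      ∑ T ∈ Stab K 3, ((m12_A K T).card : ℤ) * mu K T := by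
    rw [SVG]
    simp_rw [Finset.sum_filter]
    rw [Finset.sum_comm]
    refine Finset.sum_congr rfl ?_
    intro T _
    rw [← Finset.sum_filter, Finset.sum_const, nsmul_eq_mul, m12_A]
  have h3 : ∀ T ∈ Stab K 3, ((m12_A K T).card : ℤ) * mu K T =
      (Fintype.card K : ℤ) ^ 4 * ((Fintype.card K : ℤ) - 1) *
        ∑ δ ∈ V K 2, if ∀ p ∈ T, ev 2 (up δ) p ≠ 0 then mu K T else 0 := by
    intro T hT
    rw [m12_card h2 hT, ← Finset.sum_filter, Finset.sum_const, nsmul_eq_mul]
    ring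
  rw [h1, Finset.sum_congr rfl h3, ← Finset.mul_sum, Finset.sum_comm]
  have h4 : ∑ δ ∈ V K 2, ∑ T ∈ Stab K 3, (if ∀ p ∈ T, ev 2 (up δ) p ≠ 0 then mu K T else 0) =
      ∑ δ ∈ (V K 2).filter (fun P => P ≠ 0), MS K (Zf 2 δ) 3 := by
    rw [Finset.sum_filter]
    refine Finset.sum_congr rfl ?_
    intro δ hδ
    rw [mem_V] at hδ
    split_ifs with h0
    · rw [MS, Finset.sum_filter]
      refine Finset.sum_congr rfl ?_
      intro T _
      have : (∀ p ∈ T, ev 2 (up δ) p ≠ 0) ↔ Disjoint T (Zf 2 δ) := by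
        rw [Finset.disjoint_left]
        refine forall₂_congr ?_
        intro p _
        rw [mem_Zf hδ h0]
      simp only [this]
    · refine Finset.sum_eq_zero ?_
      intro T hT
      rw [if_neg]
      intro h
      rw [mem_Stab] at hT
      have hne : T.Nonempty := by
        rw [← Finset.card_pos, hT.2]; norm_num
      obtain ⟨p, hp⟩ := hne
      rw [not_not] at h0
      apply h p hp
      rw [h0, up_zero, ev_zero]
  rw [h4, m12_sum_MS h2]
  ring

end

end
end Pool.Agent.Helper19.DP1
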