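import Pool.Agent.Helper19.DP1.Core6c
import Pool.Agent.Helper19.DP1.Sums

/-! M13, part a: normal form of quartics with three non-collinear nodes. -/

namespace Pool.Agent.Helper19.DP1
open Polynomial Classical
noncomputable section

section
variable {L : Type*} [Field L]

/-- the first kind of monomials -/
def m13P (m : Fin 3 → L[X]) (i : Fin 3) : L[X][X] :=
  ∏ j : Fin 3, if j = i then 1 else (X - C (m j)) ^ 2

/-- the second kind of monomials -/
def m13Q (m : Fin 3 → L[X]) (i : Fin 3) : L[X][X] :=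
  (∏ j : Fin 3, (X - C (m j))) * (X - C (m i))

/-- the normal form -/
def m13F (m : Fin 3 → L[X]) (b g : Fin 3 → L) : L[X][X] :=
  ∑ i : Fin 3, (C (C (b i)) * m13P m i + C (C (g i)) * m13Q m i)

/-- `γ` in terms of `β` and `θ` -/
def m13g (b t : Fin 3 → L) (i : Fin 3) : L := 1 - ∑ j, b j - 2 * (t i - b i)

/-- the section `m i` passes through `(x k, v k)` for `k ≠ i` -/
def m13N (m : Fin 3 → L[X]) (x : Fin 3 → Option L) (v : Fin 3 → L) : Prop :=
  ∀ k i : Fin 3, i ≠ k → ev 1 (m i) (x k) = v k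

theorem m13F_perm (m : Fin 3 → L[X]) (b g : Fin 3 → L) (σ : Equiv.Perm (Fin 3)) :
    m13F (m ∘ σ) (b ∘ σ) (g ∘ σ) = m13F m b g := by
  unfold m13F
  rw [← Equiv.sum_comp σ (fun i => (C (C (b i)) * m13P m i + C (C (g i)) * m13Q m i))]
  refine Finset.sum_congr rfl fun i _ => ?_
  have h1 : m13P (m ∘ σ) i = m13P m (σ i) := by
    unfold m13P
    rw [← Equiv.prod_comp σ (fun j => if j = σ i then (1 : L[X][X]) else (X - C (m j)) ^ 2)]
    refine Finset.prod_congr rfl fun j _ => ?_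
    simp [σ.injective.eq_iff]
  have h2 : m13Q (m ∘ σ) i = m13Q m (σ i) := by
    unfold m13Q
    rw [← Equiv.prod_comp σ (fun j => (X - C (m j) : L[X][X]))]
    rfl
  rw [h1, h2]
  rfl

theorem m13P_WP {m : Fin 3 → L[X]} (hm : ∀ i, (m i).natDegree ≤ 1) (i : Fin 3) :
    WP 1 4 (m13P m i) := by
  have h2 : ∀ j, WP 1 2 ((X - C (m j)) ^ 2 : L[X][X]) := by
    intro j
    rw [pow_two]
    exact WP_mul (WP_X_sub_C (hm j)) (WP_X_sub_C (hm j))
  unfold m13P
  fin_cases i <;> simp [Fin.prod_univ_three] <;> exact WP_mul (h2 _) (h2 _)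

theorem m13Q_WP {m : Fin 3 → L[X]} (hm : ∀ i, (m i).natDegree ≤ 1) (i : Fin 3) :
    WP 1 4 (m13Q m i) := by
  have h1 : ∀ j, WP 1 1 ((X - C (m j)) : L[X][X]) := fun j => WP_X_sub_C (hm j)
  unfold m13Q
  rw [Fin.prod_univ_three]
  exact WP_mul (WP_mul (WP_mul (h1 _) (h1 _)) (h1 _)) (h1 _)

theorem m13_WP_comb {ι : Type*} (s : Finset ι) (c : ι → L) (P : ι → L[X][X]) {w d : ℕ}
    (hP : ∀ i ∈ s, WP w d (P i)) (hc : ∑ i ∈ s, c i = 1) :
    WP w d (∑ i ∈ s, C (C (c i)) * P i) := by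
  have hdeg : (∑ i ∈ s, C (C (c i)) * P i).natDegree ≤ d := by
    refine natDegree_sum_le_of_forall_le _ _ fun i hi => ?_
    refine (natDegree_C_mul_le _ _).trans ?_
    rw [(hP i hi).2.1]
  have hco : (∑ i ∈ s, C (C (c i)) * P i).coeff d = 1 := by
    rw [finsetSum_coeff]
    have : ∀ i ∈ s, (C (C (c i)) * P i).coeff d = C (c i) := by
      intro i hi
      rw [coeff_C_mul]
      have h1 := (hP i hi).1
      have h2 := (hP i hi).2.1
      have : (P i).coeff d = 1 := by rw [← h2]; exact h1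
      rw [this, mul_one]
    rw [Finset.sum_congr rfl this, ← map_sum, hc, map_one]
  have hmon : (∑ i ∈ s, C (C (c i)) * P i).Monic := monic_of_natDegree_le_of_coeff_eq_one d hdeg hco
  refine ⟨hmon, ?_, ?_⟩
  · refine le_antisymm hdeg ?_
    refine le_natDegree_of_ne_zero ?_
    rw [hco]; exact one_ne_zero
  · intro i hi
    rw [finsetSum_coeff]
    refine natDegree_sum_le_of_forall_le _ _ fun j hj => ?_
    rw [coeff_C_mul]
    exact (natDegree_C_mul_le _ _).trans ((hP j hj).2.2 i hi)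

theorem m13F_WP {m : Fin 3 → L[X]} (hm : ∀ i, (m i).natDegree ≤ 1) {b g : Fin 3 → L}
    (h : ∑ i, b i + ∑ i, g i = 1) : WP 1 4 (m13F m b g) := by
  have := m13_WP_comb (Finset.univ : Finset (Fin 3 ⊕ Fin 3)) (Sum.elim b g)
    (Sum.elim (m13P m) (m13Q m)) (w := 1) (d := 4)
    (by rintro (i | i) _; exacts [m13P_WP hm i, m13Q_WP hm i])
    (by simpa [Fintype.sum_sum_type] using h)
  rw [Fintype.sum_sum_type] at this
  simp only [Sum.elim_inl, Sum.elim_inr] at this
  unfold m13F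
  rwa [Finset.sum_add_distrib]

theorem m13F_eval (m : Fin 3 → L[X]) (b g : Fin 3 → L) (s : L[X]) :
    (m13F m b g).eval s = C (b 0) * ((s - m 1) ^ 2 * (s - m 2) ^ 2)
      + C (b 1) * ((s - m 0) ^ 2 * (s - m 2) ^ 2) + C (b 2) * ((s - m 0) ^ 2 * (s - m 1) ^ 2)
      + (s - m 0) * (s - m 1) * (s - m 2) * (C (g 0) * (s - m 0) + C (g 1) * (s - m 1)
        + C (g 2) * (s - m 2)) := by
  unfold m13F m13P m13Q
  simp [Fin.sum_univ_three, Fin.prod_univ_three]
  ring

theorem m13F_deriv (m : Fin 3 → L[X]) (b g : Fin 3 → L) (i j k : Fin 3) (hij : i ≠ j)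
    (hik : i ≠ k) (hjk : j ≠ k) : (m13F m b g).derivative.eval (m i) =
      (m i - m j) * ((m i - m k) * (2 * C (b i) * ((m i - m j) + (m i - m k)) +
        (C (g j) * (m i - m j) + C (g k) * (m i - m k)))) := by
  unfold m13F m13P m13Q
  fin_cases i <;> fin_cases j <;> fin_cases k <;>
    first
    | exact absurd rfl hij
    | exact absurd rfl hik
    | exact absurd rfl hjk
    | (simp [Fin.sum_univ_three, Fin.prod_univ_three, derivative_mul, derivative_pow]
       ring)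


theorem m13F_eval_self (m : Fin 3 → L[X]) (b g : Fin 3 → L) (i j k : Fin 3) (hij : i ≠ j)
    (hik : i ≠ k) (hjk : j ≠ k) : (m13F m b g).eval (m i) =
      C (b i) * ((m i - m j) ^ 2 * (m i - m k) ^ 2) := by
  unfold m13F m13P m13Q
  fin_cases i <;> fin_cases j <;> fin_cases k <;>
    first
    | exact absurd rfl hij
    | exact absurd rfl hik
    | exact absurd rfl hjk
    | (simp [Fin.sum_univ_three, Fin.prod_univ_three, -mul_eq_mul_left_iff,
        -mul_eq_mul_right_iff]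
       done)
    | (simp [Fin.sum_univ_three, Fin.prod_univ_three, -mul_eq_mul_left_iff,
        -mul_eq_mul_right_iff]
       ring)

theorem m13_others (k : Fin 3) : ∃ i j : Fin 3, i ≠ j ∧ i ≠ k ∧ j ≠ k := by
  revert k; decide

theorem m13_deg_sub {P Q : L[X]} {n : ℕ} (hP : P.natDegree ≤ n) (hQ : Q.natDegree ≤ n) :
    (P - Q).natDegree ≤ n := (natDegree_sub_le _ _).trans (max_le hP hQ)

theorem m13_deg_add {P Q : L[X]} {n : ℕ} (hP : P.natDegree ≤ n) (hQ : Q.natDegree ≤ n) :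
    (P + Q).natDegree ≤ n := (natDegree_add_le _ _).trans (max_le hP hQ)

theorem m13_deg_mul {P Q : L[X]} {m n : ℕ} (hP : P.natDegree ≤ m) (hQ : Q.natDegree ≤ n) :
    (P * Q).natDegree ≤ m + n := natDegree_mul_le.trans (add_le_add hP hQ)

theorem m13_deg_C_mul {P : L[X]} {n : ℕ} (c : L) (hP : P.natDegree ≤ n) :
    (C c * P).natDegree ≤ n := (natDegree_C_mul_le _ _).trans hP

theorem m13_sing {m : Fin 3 → L[X]} (hm : ∀ i, (m i).natDegree ≤ 1) {b g : Fin 3 → L}
    (h : ∑ i, b i + ∑ i, g i = 1) {x : Fin 3 → Option L} {v : Fin 3 → L} (hN : m13N m x v)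
    (k : Fin 3) : Sing 1 4 (m13F m b g) (x k) (v k) := by
  obtain ⟨i, j, hij, hik, hjk⟩ := m13_others k
  have hW := m13F_WP hm h
  have hd : ∀ a b : Fin 3, (m a - m b).natDegree ≤ 1 := fun a b => m13_deg_sub (hm a) (hm b)
  have hz : ev 1 (m i - m j) (x k) = 0 := by
    rw [ev_sub, hN k i hik, hN k j hjk, sub_self]
  have := (sing_iff hW le_rfl (by norm_num) (hm i) (p := x k)).2 ⟨?_, ?_⟩
  · rwa [hN k i hik] at this
  · rw [m13F_deriv m b g i j k hij hik hjk]
    show ev (1 + 2) _ _ = 0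
    rw [ev_mul (hd i j), hz, zero_mul]
    refine m13_deg_mul (m := 1) (n := 1) (hd i k) ?_
    refine m13_deg_add ?_ ?_
    · have : (2 * C (b i) : L[X]) = C (2 * b i) := by rw [map_mul, map_ofNat]
      rw [this]
      exact m13_deg_C_mul _ (m13_deg_add (hd _ _) (hd _ _))
    · exact m13_deg_add (m13_deg_C_mul _ (hd _ _)) (m13_deg_C_mul _ (hd _ _))
  · rw [m13F_eval_self m b g i j k hij hik hjk]
    have e : C (b i) * ((m i - m j) ^ 2 * (m i - m k) ^ 2) =
      (m i - m j) * ((m i - m j) * (C (b i) * (m i - m k) ^ 2)) := by ring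
    rw [e]
    have hd2 : (C (b i) * (m i - m k) ^ 2).natDegree ≤ 2 := by
      refine m13_deg_C_mul _ ?_
      rw [pow_two]; exact m13_deg_mul (hd _ _) (hd _ _)
    refine dv_mul_of_ev (m := 1) (n := 3) le_rfl (by norm_num) (hd i j) ?_ hz ?_
    · exact m13_deg_mul (m := 1) (n := 2) (hd i j) hd2
    · show ev (1 + 2) _ _ = 0
      rw [ev_mul (hd i j) hd2, hz, zero_mul]

theorem m13_det_self {a : L[X]} : det1 a a = 0 := by unfold det1; ring

theorem m13_ne {m : Fin 3 → L[X]} (hdet : det1 (m 0 - m 2) (m 1 - m 2) ≠ 0) {i j : Fin 3}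
    (hij : i ≠ j) : m i - m j ≠ 0 := by
  intro h
  apply hdet
  have h' : m i = m j := sub_eq_zero.1 h
  unfold det1
  fin_cases i <;> fin_cases j <;> first | exact absurd rfl hij | (simp at h'; simp [h']; try ring)

theorem m13_form_eq {P : L[X]} (hP : P.natDegree ≤ 1) : P = C (P.coeff 1) * X + C (P.coeff 0) :=
  eq_X_add_C_of_natDegree_le_one hP

theorem m13_comb {a c s : L[X]} (ha : a.natDegree ≤ 1) (hc : c.natDegree ≤ 1)
    (hs : s.natDegree ≤ 1) (hdet : det1 a c ≠ 0) : ∃ u w : L, s = C u * a + C w * c := by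
  have h1 : s.coeff 1 = det1 s c / det1 a c * a.coeff 1 + det1 a s / det1 a c * c.coeff 1 := by
    field_simp
    unfold det1
    ring
  have h0 : s.coeff 0 = det1 s c / det1 a c * a.coeff 0 + det1 a s / det1 a c * c.coeff 0 := by
    field_simp
    unfold det1
    ring
  refine ⟨det1 s c / det1 a c, det1 a s / det1 a c, ?_⟩
  generalize det1 s c / det1 a c = u at *
  generalize det1 a s / det1 a c = w at *
  have hh1 := m13_form_eq ha
  have hh2 := m13_form_eq hc
  have hh3 := m13_form_eq hs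
  conv_rhs => rw [hh1, hh2]
  conv_lhs => rw [hh3, h1, h0]
  simp only [map_add, map_mul]
  ring

theorem m13_indep {a c : L[X]} (hdet : det1 a c ≠ 0) {u w : L}
    (h : C u * a + C w * c = 0) : u = 0 ∧ w = 0 := by
  have h1 : u * a.coeff 1 + w * c.coeff 1 = 0 := by
    have := congrArg (fun P => P.coeff 1) h
    simpa using this
  have h0 : u * a.coeff 0 + w * c.coeff 0 = 0 := by
    have := congrArg (fun P => P.coeff 0) h
    simpa using this
  unfold det1 at hdet
  constructor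
  · have : u * (a.coeff 1 * c.coeff 0 - a.coeff 0 * c.coeff 1) = 0 := by
      linear_combination c.coeff 0 * h1 - c.coeff 1 * h0
    exact (mul_eq_zero.1 this).resolve_right hdet
  · have : w * (a.coeff 1 * c.coeff 0 - a.coeff 0 * c.coeff 1) = 0 := by
      linear_combination a.coeff 1 * h0 - a.coeff 0 * h1
    exact (mul_eq_zero.1 this).resolve_right hdet

theorem m13F_inj {m : Fin 3 → L[X]} (hdet : det1 (m 0 - m 2) (m 1 - m 2) ≠ 0)
    {b g b' g' : Fin 3 → L} (h : m13F m b g = m13F m b' g') : b = b' ∧ g = g' := by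
  have hb : b = b' := by
    funext i
    obtain ⟨j, k, hjk, hji, hki⟩ := m13_others i
    have := congrArg (fun f => f.eval (m i)) h
    simp only [m13F_eval_self m b g i j k hji.symm hki.symm hjk,
      m13F_eval_self m b' g' i j k hji.symm hki.symm hjk] at this
    have hne : (m i - m j) ^ 2 * (m i - m k) ^ 2 ≠ 0 :=
      mul_ne_zero (pow_ne_zero _ (m13_ne hdet hji.symm)) (pow_ne_zero _ (m13_ne hdet hki.symm))
    exact C_injective (mul_right_cancel₀ hne this)
  subst hb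
  refine ⟨rfl, ?_⟩
  unfold m13F at h
  rw [Finset.sum_add_distrib, Finset.sum_add_distrib, add_right_inj] at h
  unfold m13Q at h
  have h2 : (∏ j : Fin 3, (X - C (m j)) : L[X][X]) * (∑ i, C (C (g i)) * (X - C (m i))) =
      (∏ j : Fin 3, (X - C (m j)) : L[X][X]) * (∑ i, C (C (g' i)) * (X - C (m i))) := by
    rw [Finset.mul_sum, Finset.mul_sum]
    convert h using 2 <;> (try ring)
  have hne : (∏ j : Fin 3, (X - C (m j)) : L[X][X]) ≠ 0 :=
    Finset.prod_ne_zero_iff.2 fun j _ => X_sub_C_ne_zero _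
  have h3 := mul_left_cancel₀ hne h2
  have c1 := congrArg (fun f => f.coeff 1) h3
  have c0 := congrArg (fun f => f.coeff 0) h3
  simp [Fin.sum_univ_three, coeff_X, coeff_C] at c1 c0
  have e1 : g 0 + g 1 + g 2 = g' 0 + g' 1 + g' 2 := by
    apply C_injective
    simpa using c1
  have e0 : C (g 0 - g' 0) * (m 0 - m 2) + C (g 1 - g' 1) * (m 1 - m 2) = 0 := by
    have e1' : C (g 2) = C (g' 0) + C (g' 1) + C (g' 2) - C (g 0) - C (g 1) := by
      rw [← map_add, ← map_add, ← map_sub, ← map_sub]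
      congr 1
      linear_combination e1
    have e2' : (C (g 2) - C (g' 2)) * m 2 =
      (C (g' 0) + C (g' 1) - C (g 0) - C (g 1)) * m 2 := by rw [e1']; ring
    simp only [map_sub]
    linear_combination -c0 - e2'
  obtain ⟨a1, a2⟩ := m13_indep hdet e0
  funext i
  have b0 : g 0 = g' 0 := sub_eq_zero.1 a1
  have b1 : g 1 = g' 1 := sub_eq_zero.1 a2
  have b2 : g 2 = g' 2 := by rw [b0, b1] at e1; exact add_left_cancel e1
  fin_cases i
  exacts [b0, b1, b2]


theorem m13_lin_of_zero {P : L[X]} (hP : P.natDegree ≤ 1) (h0 : P ≠ 0) {p : Option L}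
    (h : ev 1 P p = 0) : ∃ c : L, c ≠ 0 ∧ P = C c * lin p := by
  obtain ⟨c, hc⟩ := eq_C_mul_lin hP h
  refine ⟨c, ?_, hc⟩
  rintro rfl
  exact h0 (by rw [hc]; simp)

theorem m13_val {m : Fin 3 → L[X]} (hm : ∀ i, (m i).natDegree ≤ 1)
    (hdet : det1 (m 0 - m 2) (m 1 - m 2) ≠ 0) {x : Fin 3 → Option L} (hx : Function.Injective x)
    {v : Fin 3 → L} (hN : m13N m x v) {f : L[X][X]} (hf : WP 1 4 f)
    (hs : ∀ k, Sing 1 4 f (x k) (v k)) {i j k : Fin 3} (hij : i ≠ j) (hik : i ≠ k)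
    (hjk : j ≠ k) : ∃ b : L, f.eval (m i) = C b * ((m i - m j) ^ 2 * (m i - m k) ^ 2) := by
  have hdv : ∀ l, l ≠ i → dv 4 (f.eval (m i)) (x l) := by
    intro l hl
    have h1 := hs l
    rw [← hN l i hl.symm] at h1
    exact ((sing_iff hf le_rfl (by norm_num) (hm i)).1 h1).2
  have hxx : x j ≠ x k := fun h => hjk (hx h)
  obtain ⟨c, hc, e1⟩ := m13_lin_of_zero (p := x k) (m13_deg_sub (hm i) (hm j)) (m13_ne hdet hij)
    (by rw [ev_sub, hN k i hik, hN k j hjk, sub_self])
  obtain ⟨c', hc', e2⟩ := m13_lin_of_zero (p := x j) (m13_deg_sub (hm i) (hm k))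
    (m13_ne hdet hik) (by rw [ev_sub, hN j i hij, hN j k hjk.symm, sub_self])
  obtain ⟨Q, hQ, e3⟩ := exists_mul_BT_sq (T := ({x j, x k} : Finset (Option L)))
    (natDegree_eval (s := m i) hf (hm i)) (by rw [Finset.card_pair hxx]) (by
      intro p hp
      rcases Finset.mem_insert.1 hp with rfl | hp
      · exact hdv j hij.symm
      · rw [Finset.mem_singleton.1 hp]; exact hdv k hik.symm)
  rw [Finset.card_pair hxx] at hQ
  have hQ0 : Q = C (Q.coeff 0) := eq_C_of_natDegree_le_zero hQ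
  have hBT : BT ({x j, x k} : Finset (Option L)) = lin (x j) * lin (x k) := by
    unfold BT
    rw [Finset.prod_pair hxx]
  refine ⟨Q.coeff 0 / (c * c') ^ 2, ?_⟩
  rw [e3, hBT, e1, e2, hQ0]
  have : C (Q.coeff 0 / (c * c') ^ 2) * ((C c * lin (x k)) ^ 2 * (C c' * lin (x j)) ^ 2) =
    C (Q.coeff 0 / (c * c') ^ 2 * (c * c') ^ 2) * (lin (x j) * lin (x k)) ^ 2 := by
    simp only [map_mul, map_pow]
    ring
  simp only [coeff_C_zero]
  rw [this, div_mul_cancel₀ _ (pow_ne_zero _ (mul_ne_zero hc hc'))]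
  ring

theorem m13_normal {m : Fin 3 → L[X]} (hm : ∀ i, (m i).natDegree ≤ 1)
    (hdet : det1 (m 0 - m 2) (m 1 - m 2) ≠ 0) {x : Fin 3 → Option L} (hx : Function.Injective x)
    {v : Fin 3 → L} (hN : m13N m x v) {f : L[X][X]} (hf : WP 1 4 f)
    (hs : ∀ k, Sing 1 4 f (x k) (v k)) :
    ∃ b g : Fin 3 → L, ∑ i, b i + ∑ i, g i = 1 ∧ f = m13F m b g := by
  obtain ⟨b0, hb0⟩ := m13_val hm hdet hx hN hf hs (i := 0) (j := 1) (k := 2) (by decide)
    (by decide) (by decide)
  obtain ⟨b1, hb1⟩ := m13_val hm hdet hx hN hf hs (i := 1) (j := 0) (k := 2) (by decide)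
    (by decide) (by decide)
  obtain ⟨b2, hb2⟩ := m13_val hm hdet hx hN hf hs (i := 2) (j := 0) (k := 1) (by decide)
    (by decide) (by decide)
  have hW := m13_WP_comb (Finset.univ : Finset (Fin 5))
    ![(1 : L), -b0, -b1, -b2, b0 + b1 + b2] ![f, m13P m 0, m13P m 1, m13P m 2, m13Q m 0]
    (w := 1) (d := 4) (by
      intro i _
      fin_cases i
      exacts [hf, m13P_WP hm 0, m13P_WP hm 1, m13P_WP hm 2, m13Q_WP hm 0])
    (by simp [Fin.sum_univ_five]; ring)
  simp only [Fin.sum_univ_five, Matrix.cons_val] at hW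
  set F := C (C (1 : L)) * f + C (C (-b0)) * m13P m 0 + C (C (-b1)) * m13P m 1
    + C (C (-b2)) * m13P m 2 + C (C (b0 + b1 + b2)) * m13Q m 0 with hF
  have hP : ∀ i : Fin 3, ∀ s : L[X], (m13P m i).eval s =
      ∏ j : Fin 3, if j = i then 1 else (s - m j) ^ 2 := by
    intro i s
    unfold m13P
    rw [eval_prod]
    refine Finset.prod_congr rfl fun j _ => ?_
    split_ifs <;> simp
  have hQ : ∀ i : Fin 3, ∀ s : L[X], (m13Q m i).eval s = (∏ j : Fin 3, (s - m j)) * (s - m i) := by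
    intro i s
    unfold m13Q
    rw [eval_mul, eval_prod]
    simp
  have hFe : ∀ s : L[X], F.eval s = f.eval s - C b0 * ((s - m 1) ^ 2 * (s - m 2) ^ 2)
      - C b1 * ((s - m 0) ^ 2 * (s - m 2) ^ 2) - C b2 * ((s - m 0) ^ 2 * (s - m 1) ^ 2)
      + C (b0 + b1 + b2) * ((s - m 0) * (s - m 1) * (s - m 2) * (s - m 0)) := by
    intro s
    rw [hF]
    simp only [eval_add, eval_mul, eval_C, hP, hQ]
    simp [Fin.prod_univ_three]
    ring
  have z0 : F.eval (m 0) = 0 := by rw [hFe, hb0]; ring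
  have z1 : F.eval (m 1) = 0 := by rw [hFe, hb1]; ring
  have z2 : F.eval (m 2) = 0 := by rw [hFe, hb2]; ring
  obtain ⟨F1, hF1, e1⟩ := exists_factor (w := 1) (d := 3) hW (hm 0) z0
  have z1' : F1.eval (m 1) = 0 := by
    rw [e1, eval_mul, eval_sub, eval_X, eval_C] at z1
    exact (mul_eq_zero.1 z1).resolve_left (m13_ne hdet (by decide))
  obtain ⟨F2, hF2, e2⟩ := exists_factor (w := 1) (d := 2) hF1 (hm 1) z1'
  have z2' : F2.eval (m 2) = 0 := by
    rw [e1, e2, eval_mul, eval_mul, eval_sub, eval_X, eval_C, eval_sub, eval_X, eval_C] at z2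
    have := (mul_eq_zero.1 z2).resolve_left (m13_ne hdet (by decide))
    exact (mul_eq_zero.1 this).resolve_left (m13_ne hdet (by decide))
  obtain ⟨F3, hF3, e3⟩ := exists_factor (w := 1) (d := 1) hF2 (hm 2) z2'
  have hF3' : F3 = X - C (-F3.coeff 0) := by
    have h1 := hF3.1
    have h2 := hF3.2.1
    have := eq_X_add_C_of_natDegree_le_one (p := F3) (by rw [h2])
    have h3 : F3.coeff 1 = 1 := by rw [← h2]; exact h1
    rw [h3] at this
    rw [this]
    simp
  have hs0 : (-F3.coeff 0).natDegree ≤ 1 := by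
    rw [natDegree_neg]
    simpa using hF3.2.2 1 le_rfl
  obtain ⟨u, w, huw⟩ := m13_comb (m13_deg_sub (hm 0) (hm 2)) (m13_deg_sub (hm 1) (hm 2))
    (m13_deg_sub hs0 (hm 2)) hdet
  set s := -F3.coeff 0 with hsdef
  have hs1 : s = C u * m 0 + C w * m 1 + C (1 - u - w) * m 2 := by
    simp only [map_sub, map_one]
    linear_combination huw
  refine ⟨![b0, b1, b2], ![u - (b0 + b1 + b2), w, 1 - u - w], ?_, ?_⟩
  · simp [Fin.sum_univ_three]
  · have hf1 : f = F + C (C b0) * m13P m 0 + C (C b1) * m13P m 1 + C (C b2) * m13P m 2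
        - C (C (b0 + b1 + b2)) * m13Q m 0 := by
      rw [hF]
      simp only [map_neg, map_one]
      ring
    have hf2 : F = C (C u) * m13Q m 0 + C (C w) * m13Q m 1 + C (C (1 - u - w)) * m13Q m 2 := by
      rw [e1, e2, e3, hF3', hs1]
      unfold m13Q
      simp only [Fin.prod_univ_three, map_add, map_mul, map_sub, map_one]
      ring
    rw [hf1, hf2]
    unfold m13F
    simp only [Fin.sum_univ_three, Matrix.cons_val, map_add, map_sub, map_one]
    ring


/-- value of the fibre of the normal form -/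
def m13G (a : Fin 3 → L) (b g : Fin 3 → L) (v : L) : L :=
  b 0 * ((v - a 1) ^ 2 * (v - a 2) ^ 2)
      + b 1 * ((v - a 0) ^ 2 * (v - a 2) ^ 2) + b 2 * ((v - a 0) ^ 2 * (v - a 1) ^ 2)
      + (v - a 0) * (v - a 1) * (v - a 2) * (g 0 * (v - a 0) + g 1 * (v - a 1)
        + g 2 * (v - a 2))

theorem m13_fib {m : Fin 3 → L[X]} (hm : ∀ i, (m i).natDegree ≤ 1) {b g : Fin 3 → L}
    (h : ∑ i, b i + ∑ i, g i = 1) (p : Option L) (v : L) :
    (fib 1 4 (m13F m b g) p).eval v = m13G (fun i => ev 1 (m i) p) b g v := by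
  obtain ⟨s, hs, hv⟩ := exists_section 1 p v
  rw [← hv, fib_eval (m13F_WP hm h) hs, m13F_eval]
  have hd : ∀ i, (s - m i).natDegree ≤ 1 := fun i => m13_deg_sub hs (hm i)
  have hd2 : ∀ i, ((s - m i) ^ 2).natDegree ≤ 2 := fun i => by
    rw [pow_two]; exact m13_deg_mul (hd i) (hd i)
  have e1 : ∀ i, ev 1 (s - m i) p = ev 1 s p - ev 1 (m i) p := fun i => ev_sub
  have e2 : ∀ i, ev 2 ((s - m i) ^ 2) p = (ev 1 s p - ev 1 (m i) p) ^ 2 := by
    intro i
    have := ev_pow (p := p) (hd i) 2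
    rw [e1] at this
    exact this
  have e4 : ∀ i j, ev 4 ((s - m i) ^ 2 * (s - m j) ^ 2) p =
      (ev 1 s p - ev 1 (m i) p) ^ 2 * (ev 1 s p - ev 1 (m j) p) ^ 2 := by
    intro i j
    have := ev_mul (p := p) (hd2 i) (hd2 j)
    rw [e2, e2] at this
    exact this
  have hd3 : ((s - m 0) * (s - m 1) * (s - m 2)).natDegree ≤ 3 :=
    m13_deg_mul (m := 2) (n := 1) (m13_deg_mul (m := 1) (n := 1) (hd 0) (hd 1)) (hd 2)
  have e3 : ev 3 ((s - m 0) * (s - m 1) * (s - m 2)) p =
      (ev 1 s p - ev 1 (m 0) p) * (ev 1 s p - ev 1 (m 1) p) * (ev 1 s p - ev 1 (m 2) p) := by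
    have h1 := ev_mul (p := p) (m := 2) (n := 1)
      (m13_deg_mul (m := 1) (n := 1) (hd 0) (hd 1)) (hd 2)
    have h2 := ev_mul (p := p) (m := 1) (n := 1) (hd 0) (hd 1)
    rw [h2, e1, e1, e1] at h1
    exact h1
  have hd1 : (C (g 0) * (s - m 0) + C (g 1) * (s - m 1) + C (g 2) * (s - m 2)).natDegree ≤ 1 :=
    m13_deg_add (m13_deg_add (m13_deg_C_mul _ (hd _)) (m13_deg_C_mul _ (hd _)))
      (m13_deg_C_mul _ (hd _))
  have e5 := ev_mul (p := p) (m := 3) (n := 1) hd3 hd1
  have e5' : ev 4 ((s - m 0) * (s - m 1) * (s - m 2) * (C (g 0) * (s - m 0) + C (g 1) * (s - m 1)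
        + C (g 2) * (s - m 2))) p = _ := e5
  show ev 4 _ p = _
  rw [ev_add, ev_add, ev_add, ev_C_mul, ev_C_mul, ev_C_mul, e4, e4, e4, e5', e3, ev_add, ev_add,
    ev_C_mul, ev_C_mul, ev_C_mul, e1, e1, e1]
  rfl

theorem m13_noSq [Infinite L] {m : Fin 3 → L[X]} (hm : ∀ i, (m i).natDegree ≤ 1)
    {b g : Fin 3 → L} (h : ∑ i, b i + ∑ i, g i = 1) : NoSq (m13F m b g) ↔
      ∀ (p : Option L) (A B : L),
        ¬ ∀ v, m13G (fun i => ev 1 (m i) p) b g v = (v ^ 2 + A * v + B) ^ 2 := by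
  unfold NoSq
  refine forall_congr' fun p => forall_congr' fun A => forall_congr' fun B => ?_
  refine not_congr ⟨?_, ?_⟩
  · intro e v
    rw [← m13_fib hm h, e]
    simp
  · intro e
    refine Polynomial.funext fun v => ?_
    rw [m13_fib hm h, e]
    simp

/-- a square fibre with three different values -/
theorem m13_three {a b g : Fin 3 → L} {A B : L} (h01 : a 0 ≠ a 1) (h02 : a 0 ≠ a 2)
    (h12 : a 1 ≠ a 2) (h : ∀ v, m13G a b g v = (v ^ 2 + A * v + B) ^ 2) :
    ∃ u : Fin 3 → L, (∀ i, u i ^ 2 = b i) ∧ ∑ i, u i = 1 := by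
  have h01' := sub_ne_zero.2 h01
  have h02' := sub_ne_zero.2 h02
  have h12' := sub_ne_zero.2 h12
  have h10' := sub_ne_zero.2 h01.symm
  have h20' := sub_ne_zero.2 h02.symm
  have h21' := sub_ne_zero.2 h12.symm
  have e0 := h (a 0)
  have e1 := h (a 1)
  have e2 := h (a 2)
  unfold m13G at e0 e1 e2
  refine ⟨![((a 0) ^ 2 + A * a 0 + B) / ((a 0 - a 1) * (a 0 - a 2)),
    ((a 1) ^ 2 + A * a 1 + B) / ((a 1 - a 0) * (a 1 - a 2)),
    ((a 2) ^ 2 + A * a 2 + B) / ((a 2 - a 0) * (a 2 - a 1))], ?_, ?_⟩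
  · intro i
    fin_cases i
    · simp only [Fin.zero_eta, Matrix.cons_val]
      rw [div_pow, div_eq_iff (pow_ne_zero _ (mul_ne_zero h01' h02'))]
      linear_combination -e0
    · simp only [Fin.mk_one, Matrix.cons_val]
      rw [div_pow, div_eq_iff (pow_ne_zero _ (mul_ne_zero h10' h12'))]
      linear_combination -e1
    · simp only [Fin.reduceFinMk, Matrix.cons_val]
      rw [div_pow, div_eq_iff (pow_ne_zero _ (mul_ne_zero h20' h21'))]
      linear_combination -e2
  · simp only [Fin.sum_univ_three, Matrix.cons_val]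
    rw [div_add_div _ _ (mul_ne_zero h01' h02') (mul_ne_zero h10' h12'),
      div_add_div _ _ (mul_ne_zero (mul_ne_zero h01' h02') (mul_ne_zero h10' h12'))
        (mul_ne_zero h20' h21'), div_eq_one_iff_eq (mul_ne_zero (mul_ne_zero (mul_ne_zero h01' h02')
          (mul_ne_zero h10' h12')) (mul_ne_zero h20' h21'))]
    ring

/-- a square fibre through a node: `a i = a j = α`, `a k = β` -/
theorem m13_two [Infinite L] (h2 : (2 : L) ≠ 0) {α β bi bj bk gi gj gk A B : L} (hab : α ≠ β)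
    (hs : bi + bj + bk + (gi + gj + gk) = 1)
    (h : ∀ v, (v - α) ^ 2 * (bk * (v - α) ^ 2 + (gi + gj) * ((v - α) * (v - β)) +
      (bi + bj + gk) * (v - β) ^ 2) = (v ^ 2 + A * v + B) ^ 2) :
    (bk + (gi + gj) / 2) ^ 2 = bk := by
  have hαβ := sub_ne_zero.2 hab
  have hβα := sub_ne_zero.2 hab.symm
  have h0 := h α
  have hB : B = -α ^ 2 - A * α := by
    have : (α ^ 2 + A * α + B) ^ 2 = 0 := by rw [← h0]; ring
    have := pow_eq_zero_iff (two_ne_zero) |>.1 this
    linear_combination this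
  have hpol : (X - C α) ^ 2 * (C bk * (X - C α) ^ 2 + C (gi + gj) * ((X - C α) * (X - C β)) +
      C (bi + bj + gk) * (X - C β) ^ 2) = (X - C α) ^ 2 * (X + C (A + α)) ^ 2 := by
    refine Polynomial.funext fun v => ?_
    have := h v
    simp only [eval_mul, eval_pow, eval_sub, eval_X, eval_C, eval_add]
    rw [this, hB]
    ring
  have hp2 := mul_left_cancel₀ (pow_ne_zero 2 (X_sub_C_ne_zero α)) hpol
  have ea := congrArg (fun P => P.eval α) hp2
  have eb := congrArg (fun P => P.eval β) hp2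
  simp only [eval_mul, eval_pow, eval_sub, eval_X, eval_C, eval_add] at ea eb
  set u := (β + A + α) / (β - α) with hu
  have hu1 : u * (β - α) = β + A + α := div_mul_cancel₀ _ hβα
  have hbk : bk = u ^ 2 := by
    apply mul_right_cancel₀ (pow_ne_zero 2 hβα)
    rw [← mul_pow, hu1]
    linear_combination eb
  have hc : bi + bj + gk = (1 - u) ^ 2 := by
    apply mul_right_cancel₀ (pow_ne_zero 2 hβα)
    have : (1 - u) * (β - α) = -(2 * α + A) := by linear_combination -hu1
    rw [← mul_pow, this]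
    linear_combination ea
  have hg : gi + gj = 2 * (u - u ^ 2) := by linear_combination hs - hbk - hc
  rw [hg, mul_div_assoc, mul_comm, div_mul_cancel₀ _ h2, hbk]
  ring

theorem m13G_node {a b g : Fin 3 → L} {i j k : Fin 3} (hij : i ≠ j) (hik : i ≠ k)
    (hjk : j ≠ k) {α β : L} (hi : a i = α) (hj : a j = α) (hk : a k = β) (v : L) :
    m13G a b g v = (v - α) ^ 2 * (b k * (v - α) ^ 2 + (g i + g j) * ((v - α) * (v - β)) +
      (b i + b j + g k) * (v - β) ^ 2) := by
  unfold m13G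
  fin_cases i <;> fin_cases j <;> fin_cases k <;>
    first
    | exact absurd rfl hij
    | exact absurd rfl hik
    | exact absurd rfl hjk
    | (simp at hi hj hk
       simp [hi, hj, hk, -mul_eq_mul_left_iff, -mul_eq_mul_right_iff]
       ring)

theorem m13_sum {M : Type*} [AddCommMonoid M] (f : Fin 3 → M) {i j k : Fin 3} (hij : i ≠ j)
    (hik : i ≠ k) (hjk : j ≠ k) : ∑ l, f l = f i + f j + f k := by
  rw [Fin.sum_univ_three]
  fin_cases i <;> fin_cases j <;> fin_cases k <;>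
    first
    | exact absurd rfl hij
    | exact absurd rfl hik
    | exact absurd rfl hjk
    | (simp; done)
    | (simp; abel)

theorem m13g_sum {b t : Fin 3 → L} (ht : ∑ i, t i = 1) :
    ∑ i, b i + ∑ i, m13g b t i = 1 := by
  unfold m13g
  simp only [Fin.sum_univ_three] at *
  linear_combination (-2 : L) * ht

theorem m13g_pair (h2 : (2 : L) ≠ 0) {b t : Fin 3 → L} (ht : ∑ i, t i = 1) {i j k : Fin 3}
    (hij : i ≠ j) (hik : i ≠ k) (hjk : j ≠ k) :
    b k + (m13g b t i + m13g b t j) / 2 = t k := by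
  have e : m13g b t i + m13g b t j = 2 * (t k - b k) := by
    unfold m13g
    rw [m13_sum b hij hik hjk]
    rw [m13_sum t hij hik hjk] at ht
    linear_combination (-2 : L) * ht
  rw [e, mul_div_assoc, mul_comm, div_mul_cancel₀ _ h2]
  ring

theorem m13_zero_unique {P : L[X]} (hP : P.natDegree ≤ 1) (h0 : P ≠ 0) {p q : Option L}
    (hp : ev 1 P p = 0) (hq : ev 1 P q = 0) : p = q := by
  obtain ⟨c, hc, e⟩ := m13_lin_of_zero hP h0 hp
  rw [e, ev_C_mul] at hq
  exact ((ev_lin p).1 ((mul_eq_zero.1 hq).resolve_left hc)).symm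

theorem m13_noSq_iff [IsAlgClosed L] (h2 : (2 : L) ≠ 0) {m : Fin 3 → L[X]}
    (hm : ∀ i, (m i).natDegree ≤ 1) (hdet : det1 (m 0 - m 2) (m 1 - m 2) ≠ 0)
    {x : Fin 3 → Option L} (hx : Function.Injective x)
    {v : Fin 3 → L} (hN : m13N m x v) {b t : Fin 3 → L} (ht : ∑ i, t i = 1) :
    NoSq (m13F m b (m13g b t)) ↔ (∀ i, t i ^ 2 ≠ b i) ∧
      ¬ ∃ u : Fin 3 → L, (∀ i, u i ^ 2 = b i) ∧ ∑ i, u i = 1 := by
  have hsum := m13g_sum (b := b) ht
  have : Infinite L := IsAlgClosed.instInfinite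
  rw [m13_noSq hm hsum]
  have hnode : ∀ i j k : Fin 3, i ≠ j → i ≠ k → j ≠ k → v k ≠ ev 1 (m k) (x k) := by
    intro i j k hij hik hjk h
    have h1 : ev 1 (m i - m k) (x k) = 0 := by rw [ev_sub, hN k i hik, h, sub_self]
    have h3 : ev 1 (m i - m k) (x j) = 0 := by
      rw [ev_sub, hN j i hij, hN j k hjk.symm, sub_self]
    have := m13_zero_unique (m13_deg_sub (hm i) (hm k)) (m13_ne hdet hik) h1 h3
    exact hjk (hx this).symm
  constructor
  · intro H
    constructor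
    · intro k hk
      obtain ⟨i, j, hij, hik, hjk⟩ := m13_others k
      have hp := m13g_pair h2 (b := b) ht hij hik hjk
      set e := t k * v k + (1 - t k) * ev 1 (m k) (x k) with he
      refine H (x k) (-(v k + e)) (v k * e) fun w => ?_
      rw [m13G_node hij hik hjk (hN k i hik) (hN k j hjk) rfl]
      have hg1 : m13g b t i + m13g b t j = 2 * (t k - b k) := by
        rw [← hp]
        field_simp
        ring
      have hg2 : b i + b j + m13g b t k = (1 - t k) ^ 2 := by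
        rw [m13_sum b hij hik hjk, m13_sum (m13g b t) hij hik hjk] at hsum
        linear_combination hsum - hg1 - hk
      rw [hg1, hg2, ← hk, he]
      ring
    · rintro ⟨u, hu, hu1⟩
      set g := m13g b t with hg
      obtain ⟨p, hp⟩ := exists_zero (L := L) (n := 1) le_rfl
        (P := C (g 0 - 2 * (u 1 * u 2)) * m 0 + C (g 1 - 2 * (u 0 * u 2)) * m 1
          + C (g 2 - 2 * (u 0 * u 1)) * m 2)
        (m13_deg_add (m13_deg_add (m13_deg_C_mul _ (hm _)) (m13_deg_C_mul _ (hm _)))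
          (m13_deg_C_mul _ (hm _)))
      rw [ev_add, ev_add, ev_C_mul, ev_C_mul, ev_C_mul] at hp
      refine H p (-(u 0 * (ev 1 (m 1) p + ev 1 (m 2) p) + u 1 * (ev 1 (m 0) p + ev 1 (m 2) p)
        + u 2 * (ev 1 (m 0) p + ev 1 (m 1) p)))
        (u 0 * (ev 1 (m 1) p * ev 1 (m 2) p) + u 1 * (ev 1 (m 0) p * ev 1 (m 2) p)
          + u 2 * (ev 1 (m 0) p * ev 1 (m 1) p)) fun w => ?_
      unfold m13G
      simp only [Fin.sum_univ_three] at hu1 hsum
      rw [← hu 0, ← hu 1, ← hu 2] at hsum ⊢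
      have e0 : w ^ 2 = (u 0 + u 1 + u 2) * w ^ 2 := by rw [hu1, one_mul]
      rw [e0]
      have hdd : (g 0 - 2 * (u 1 * u 2)) + (g 1 - 2 * (u 0 * u 2)) + (g 2 - 2 * (u 0 * u 1)) = 0 := by
        linear_combination hsum - (u 0 + u 1 + u 2 + 1) * hu1
      linear_combination ((w - ev 1 (m 0) p) * (w - ev 1 (m 1) p) * (w - ev 1 (m 2) p)) *
        (w * hdd - hp)
  · rintro ⟨H1, H2⟩ p A B hG
    by_cases hdist : ∃ i j : Fin 3, i ≠ j ∧ ev 1 (m i) p = ev 1 (m j) p
    · obtain ⟨i, j, hij, hev⟩ := hdist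
      obtain ⟨k, hik, hjk⟩ : ∃ k : Fin 3, i ≠ k ∧ j ≠ k := by
        clear hev; revert i j; decide
      have hpx : p = x k := by
        refine m13_zero_unique (m13_deg_sub (hm i) (hm j)) (m13_ne hdet hij) ?_ ?_
        · rw [ev_sub, hev, sub_self]
        · rw [ev_sub, hN k i hik, hN k j hjk, sub_self]
      subst hpx
      have hne := hnode i j k hij hik hjk
      have hs' := hsum
      rw [m13_sum b hij hik hjk, m13_sum (m13g b t) hij hik hjk] at hs'
      have := m13_two h2 hne hs' (A := A) (B := B) (fun w => by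
        have e := m13G_node (a := fun i => ev 1 (m i) (x k)) (b := b) (g := m13g b t) hij hik hjk
          (hN k i hik) (hN k j hjk) rfl w
        exact e.symm.trans (hG w))
      rw [m13g_pair h2 ht hij hik hjk] at this
      exact H1 k this
    · push Not at hdist
      exact H2 (m13_three (hdist 0 1 (by decide)) (hdist 0 2 (by decide))
        (hdist 1 2 (by decide)) hG)

end

end
end Pool.Agent.Helper19.DP1
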