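import Pool.Agent.Helper19.DP1.Core1b
import Pool.Agent.Helper19.DP1.Core3b
import Pool.Agent.Helper19.DP1.M13a

/-! M13, part b: the labelled bijection. -/

namespace Pool.Agent.Helper19.DP1
open Polynomial Classical
noncomputable section

section
variable {L : Type*} [Field L]

theorem m13_im {P : Type*} [DecidableEq P] {x : Fin 3 → P} {p : P} :
    p ∈ Finset.univ.image x ↔ ∃ k, x k = p := by simp

theorem m13_im_card {P : Type*} [DecidableEq P] {x : Fin 3 → P} (hx : Function.Injective x) :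
    (Finset.univ.image x).card = 3 := by
  rw [Finset.card_image_of_injective _ hx]
  simp

theorem m13_agree {P Q : L[X]} (hP : P.natDegree ≤ 1) (hQ : Q.natDegree ≤ 1) {p q : Option L}
    (hpq : p ≠ q) (hp : ev 1 P p = ev 1 Q p) (hq : ev 1 P q = ev 1 Q q) : P = Q := by
  refine sub_eq_zero.1 ?_
  refine eq_zero_of_ev (T := ({p, q} : Finset (Option L))) (n := 1) (m13_deg_sub hP hQ)
    (by rw [Finset.card_pair hpq]; norm_num) ?_
  intro r hr
  rcases Finset.mem_insert.1 hr with rfl | hr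
  · rw [ev_sub, hp, sub_self]
  · rw [Finset.mem_singleton.1 hr, ev_sub, hq, sub_self]

theorem m13_det_zero {a c : L[X]} (ha : a.natDegree ≤ 1) (hc : c.natDegree ≤ 1) (h0 : a ≠ 0)
    (hdet : det1 a c = 0) {p : Option L} (hp : ev 1 a p = 0) : ev 1 c p = 0 := by
  have ea := m13_form_eq ha
  have ec := m13_form_eq hc
  unfold det1 at hdet
  cases p with
  | none =>
    have h1 : a.coeff 1 = 0 := hp
    have h2 : a.coeff 0 ≠ 0 := by
      intro h
      apply h0
      rw [ea, h1, h]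
      simp
    rw [h1, zero_mul, zero_sub, neg_eq_zero] at hdet
    exact (mul_eq_zero.1 hdet).resolve_left h2
  | some t =>
    have h1 : a.eval t = 0 := hp
    rw [ea] at h1
    simp only [eval_add, eval_mul, eval_C, eval_X] at h1
    have h2 : a.coeff 1 ≠ 0 := by
      intro h
      rw [h, zero_mul, zero_add] at h1
      apply h0
      rw [ea, h1, h]
      simp
    show c.eval t = 0
    rw [ec]
    simp only [eval_add, eval_mul, eval_C, eval_X]
    have : a.coeff 1 * (c.coeff 1 * t + c.coeff 0) = 0 := by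
      linear_combination c.coeff 1 * h1 + hdet
    exact (mul_eq_zero.1 this).resolve_left h2

theorem m13_det_same {a c : L[X]} (ha : a.natDegree ≤ 1) (hc : c.natDegree ≤ 1)
    {p : Option L} (hp : ev 1 a p = 0) (hq : ev 1 c p = 0) : det1 a c = 0 := by
  obtain ⟨α, rfl⟩ := eq_C_mul_lin ha hp
  obtain ⟨γ, rfl⟩ := eq_C_mul_lin hc hq
  unfold det1
  simp only [coeff_C_mul]
  ring

theorem m13_nodes [IsAlgClosed L] {m : Fin 3 → L[X]} (hm : ∀ i, (m i).natDegree ≤ 1) :
    ∃ (x : Fin 3 → Option L) (v : Fin 3 → L), m13N m x v := by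
  have : ∀ k : Fin 3, ∃ (p : Option L) (w : L), ∀ i, i ≠ k → ev 1 (m i) p = w := by
    intro k
    obtain ⟨i, j, hij, hik, hjk⟩ := m13_others k
    obtain ⟨p, hp⟩ := exists_zero (L := L) (n := 1) le_rfl (m13_deg_sub (hm i) (hm j))
    refine ⟨p, ev 1 (m i) p, ?_⟩
    intro l hl
    rw [ev_sub, sub_eq_zero] at hp
    have : l = i ∨ l = j := by
      clear hp; revert i j k l; decide
    rcases this with rfl | rfl
    · rfl
    · exact hp.symm
  choose x v h using this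
  exact ⟨x, v, fun k i hi => h k i hi⟩

theorem m13_inj_x {m : Fin 3 → L[X]} (hm : ∀ i, (m i).natDegree ≤ 1)
    (hdet : det1 (m 0 - m 2) (m 1 - m 2) ≠ 0)
    {x : Fin 3 → Option L} {v : Fin 3 → L} (hN : m13N m x v) : Function.Injective x := by
  intro k l hkl
  by_contra hne
  apply hdet
  have hv : v k = v l := by
    obtain ⟨i, hik, hil⟩ : ∃ i : Fin 3, i ≠ k ∧ i ≠ l := by
      clear hkl; revert k l; decide
    rw [← hN k i hik, ← hN l i hil, hkl]
  have hall : ∀ i, ev 1 (m i) (x k) = v k := by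
    intro i
    by_cases hik : i = k
    · subst hik
      rw [hkl, hN l i hne, hv]
    · exact hN k i hik
  exact m13_det_same (m13_deg_sub (hm 0) (hm 2)) (m13_deg_sub (hm 1) (hm 2)) (p := x k)
    (by rw [ev_sub, hall, hall, sub_self]) (by rw [ev_sub, hall, hall, sub_self])

theorem m13_x_unique {m : Fin 3 → L[X]} (hm : ∀ i, (m i).natDegree ≤ 1)
    (hdet : det1 (m 0 - m 2) (m 1 - m 2) ≠ 0)
    {x x' : Fin 3 → Option L} {v v' : Fin 3 → L} (hN : m13N m x v) (hN' : m13N m x' v') :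
    x = x' := by
  funext k
  obtain ⟨i, j, hij, hik, hjk⟩ := m13_others k
  refine m13_zero_unique (m13_deg_sub (hm i) (hm j)) (m13_ne hdet hij) ?_ ?_
  · rw [ev_sub, hN k i hik, hN k j hjk, sub_self]
  · rw [ev_sub, hN' k i hik, hN' k j hjk, sub_self]

theorem m13_m_unique {m m' : Fin 3 → L[X]} (hm : ∀ i, (m i).natDegree ≤ 1)
    (hm' : ∀ i, (m' i).natDegree ≤ 1)
    {x : Fin 3 → Option L} {v : Fin 3 → L} (hx : Function.Injective x)
    (hN : m13N m x v) (hN' : m13N m' x v) : m = m' := by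
  funext i
  obtain ⟨j, k, hjk, hji, hki⟩ := m13_others i
  exact m13_agree (hm i) (hm' i) (p := x j) (q := x k) (fun h => hjk (hx h))
    (by rw [hN j i hji.symm, hN' j i hji.symm]) (by rw [hN k i hki.symm, hN' k i hki.symm])

end

section
variable {K : Type*} [Field K] [Fintype K]

theorem m13_mapF (m : Fin 3 → (Om K)[X]) (b g : Fin 3 → Om K) :
    (m13F m b g).map (phi K) = m13F (fun i => phi K (m i)) (fun i => b i ^ Fintype.card K)
      (fun i => g i ^ Fintype.card K) := by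
  unfold m13F m13P m13Q
  simp only [Polynomial.map_sum, Polynomial.map_add, Polynomial.map_mul, Polynomial.map_C,
    phi_C, Polynomial.map_prod, Polynomial.map_sub, Polynomial.map_X]
  refine Finset.sum_congr rfl fun i _ => ?_
  have e : (∏ j : Fin 3, (if j = i then (1 : (Om K)[X][X]) else (X - C (m j)) ^ 2).map (phi K)) =
      ∏ j : Fin 3, if j = i then 1 else (X - C (phi K (m j))) ^ 2 := by
    refine Finset.prod_congr rfl fun j _ => ?_
    split_ifs <;> simp
  rw [e]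

theorem m13_mapF_perm {m : Fin 3 → (Om K)[X]} {σ : Equiv.Perm (Fin 3)}
    (hm : ∀ i, phi K (m i) = m (σ i)) (b g : Fin 3 → Om K) :
    (m13F m b g).map (phi K) = m13F m (fun i => b (σ.symm i) ^ Fintype.card K)
      (fun i => g (σ.symm i) ^ Fintype.card K) := by
  rw [m13_mapF, ← m13F_perm m _ _ σ]
  congr 1
  · funext i; exact hm i
  · funext i; simp
  · funext i; simp

theorem m13_map_up2 (f : K[X][X]) : (up2 f).map (phi K) = up2 f := by
  unfold up2
  rw [Polynomial.map_map]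
  congr 1
  refine RingHom.ext fun P => ?_
  exact phi_up P

theorem m13_desc {f : (Om K)[X][X]} (hf : WP 1 4 f) (h : f.map (phi K) = f) :
    ∃ c : K[X] × K[X] × K[X] × K[X], up2 (quart c) = f ∧ WP 1 4 (quart c) := by
  have hc : ∀ i, phi K (f.coeff i) = f.coeff i := by
    intro i
    conv_rhs => rw [← h]
    rw [coeff_map]
  have hd : ∀ i, ∃ P : K[X], up P = f.coeff i := fun i => phi_eq_iff.1 (hc i)
  choose P hP using hd
  refine ⟨(P 3, P 2, P 1, P 0), ?_, ?_⟩
  · rw [up2_quart, eq_quart hf]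
    simp only [hP]
  · have hn : ∀ i, (P i).natDegree = (f.coeff i).natDegree := by
      intro i
      rw [← hP, natDegree_up]
    have := hf.2.2
    refine WP_quart ?_ ?_ ?_ ?_
    · rw [hn]; exact this 1 (by norm_num)
    · rw [hn]; exact this 2 (by norm_num)
    · rw [hn]; exact this 3 (by norm_num)
    · rw [hn]; exact this 4 (by norm_num)

theorem m13_over {m : Fin 3 → (Om K)[X]} {σ : Equiv.Perm (Fin 3)}
    (hm : ∀ i, phi K (m i) = m (σ i)) (hdet : det1 (m 0 - m 2) (m 1 - m 2) ≠ 0)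
    {b g : Fin 3 → Om K} : (m13F m b g).map (phi K) = m13F m b g ↔ b ∈ Rs K σ ∧ g ∈ Rs K σ := by
  rw [m13_mapF_perm hm]
  constructor
  · intro h
    obtain ⟨h1, h2⟩ := m13F_inj hdet h
    constructor
    · intro i
      have := congrFun h1 (σ i)
      simpa using this
    · intro i
      have := congrFun h2 (σ i)
      simpa using this
  · rintro ⟨h1, h2⟩
    congr 1
    · funext i
      have := h1 (σ.symm i)
      simpa using this
    · funext i
      have := h2 (σ.symm i)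
      simpa using this

omit [Fintype K] in
theorem m13_two_ne (h2 : (2 : K) ≠ 0) : (2 : Om K) ≠ 0 := by
  intro h
  apply h2
  have : algebraMap K (Om K) 2 = 0 := by rw [map_ofNat]; exact h
  exact (map_eq_zero _).1 this

theorem m13_g_Rs (h2 : (2 : K) ≠ 0) {σ : Equiv.Perm (Fin 3)} {b t : Fin 3 → Om K}
    (hb : b ∈ Rs K σ) : m13g b t ∈ Rs K σ ↔ t ∈ Rs K σ := by
  have h2' := m13_two_ne h2
  have key : ∀ i, m13g b t i ^ Fintype.card K =
      1 - ∑ j, b j - 2 * (t i ^ Fintype.card K - b (σ i)) := by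
    intro i
    have hF : ∀ y : Om K, FiniteField.frobeniusAlgHom K (Om K) y = y ^ Fintype.card K :=
      fun y => rfl
    rw [← hF]
    unfold m13g
    rw [map_sub, map_sub, map_mul, map_sub, map_one, map_ofNat, map_sum, hF, hF, hb i]
    congr 2
    rw [← Equiv.sum_comp σ b]
    exact Finset.sum_congr rfl fun j _ => hb j
  constructor
  · intro h i
    have h1 := h i
    rw [key] at h1
    unfold m13g at h1
    have : 2 * (t i ^ Fintype.card K - t (σ i)) = 0 := by linear_combination -h1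
    exact sub_eq_zero.1 ((mul_eq_zero.1 this).resolve_left h2')
  · intro h i
    rw [key, h i]
    rfl

end


section
variable (K : Type*) [Field K] [Fintype K]

/-- the parameter set of `Ec` -/
def m13E (σ : Equiv.Perm (Fin 3)) : Set ((Fin 3 → Om K) × (Fin 3 → Om K)) :=
  {x | x.1 ∈ Rs K σ ∧ x.2 ∈ Rs K σ ∧
    (∑ i, x.2 i = 1) ∧ (∀ i, x.2 i ^ 2 ≠ x.1 i) ∧
    ¬ ∃ u : Fin 3 → Om K, (∀ i, u i ^ 2 = x.1 i) ∧ ∑ i, u i = 1}

/-- bad non-collinear triples -/
def m13T (c : K[X] × K[X] × K[X] × K[X]) : Finset (Finset (P1 K)) :=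
  (Stab K 3).filter (fun T => (∀ p ∈ T, Bad 1 4 (up2 (quart c)) p) ∧ ¬ Coll (up2 (quart c)) T)

/-- quartics with a labelled bad non-collinear triple -/
def m13S (σ : Equiv.Perm (Fin 3)) :
    Set ((K[X] × K[X] × K[X] × K[X]) × (Fin 3 → P1 K)) :=
  {y | y.1 ∈ Q4 K ∧ y.2 ∈ Lab (frob K) 3 (m13T K y.1) σ}

/-- the correspondence -/
def m13R (a : (Fin 3 → (Om K)[X]) × ((Fin 3 → Om K) × (Fin 3 → Om K)))
    (y : (K[X] × K[X] × K[X] × K[X]) × (Fin 3 → P1 K)) : Prop :=
  up2 (quart y.1) = m13F a.1 a.2.1 (m13g a.2.1 a.2.2) ∧ ∃ v, m13N a.1 y.2 v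

variable {K}

theorem m13_fwd (h2 : (2 : K) ≠ 0) {σ : Equiv.Perm (Fin 3)}
    {a : (Fin 3 → (Om K)[X]) × ((Fin 3 → Om K) × (Fin 3 → Om K))}
    (ha : a ∈ Fr K σ ×ˢ m13E K σ) : ∃ y, y ∈ m13S K σ ∧ m13R K a y := by
  obtain ⟨m, b, t⟩ := a
  obtain ⟨⟨hm, hphi, hdet⟩, hb, ht, ht1, hE1, hE2⟩ := ha
  simp only at hm hphi hdet hb ht ht1 hE1 hE2
  obtain ⟨x, v, hN⟩ := m13_nodes hm
  have hx := m13_inj_x hm hdet hN
  have hsum := m13g_sum (b := b) ht1
  have hW := m13F_WP hm hsum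
  have hq : NoSq (m13F m b (m13g b t)) :=
    (m13_noSq_iff (m13_two_ne h2) hm hdet hx hN ht1).2 ⟨hE1, hE2⟩
  obtain ⟨c, hc, hcW⟩ := m13_desc hW ((m13_over hphi hdet).2 ⟨hb, (m13_g_Rs h2 hb).2 ht⟩)
  have hfr : ∀ i, frob K (x i) = x (σ i) := by
    intro k
    obtain ⟨i, j, hij, hik, hjk⟩ := m13_others k
    have hij' : σ i ≠ σ j := fun h => hij (σ.injective h)
    have hik' : σ i ≠ σ k := fun h => hik (σ.injective h)
    have hjk' : σ j ≠ σ k := fun h => hjk (σ.injective h)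
    refine m13_zero_unique (m13_deg_sub (hm (σ i)) (hm (σ j))) (m13_ne hdet hij') ?_ ?_
    · rw [← hphi i, ← hphi j, ← map_sub, ev_phi, ev_sub, hN k i hik, hN k j hjk, sub_self]
      exact zero_pow Fintype.card_ne_zero
    · rw [ev_sub, hN (σ k) _ hik', hN (σ k) _ hjk', sub_self]
  have hS := m13_sing hm hsum hN
  refine ⟨(c, x), ⟨mem_Q4.2 ⟨hcW, by rw [hc]; exact hq⟩, hx, ?_, hfr⟩, hc, v, hN⟩
  unfold m13T
  rw [Finset.mem_filter, mem_Stab]
  refine ⟨⟨?_, ?_⟩, ?_, ?_⟩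
  · intro p hp
    obtain ⟨k, rfl⟩ := m13_im.1 hp
    rw [hfr]
    exact m13_im.2 ⟨_, rfl⟩
  · exact m13_im_card hx
  · intro p hp
    obtain ⟨k, rfl⟩ := m13_im.1 hp
    exact ⟨v k, by rw [hc]; exact hS k⟩
  · rintro ⟨s, hs, hs'⟩
    have hv : ∀ k, ev 1 s (x k) = v k := by
      intro k
      have h1 := hs' (x k) (m13_im.2 ⟨_, rfl⟩)
      rw [hc] at h1
      exact sing_unique4 hW hq h1 (hS k)
    have hsm : ∀ i, s = m i := by
      intro i
      obtain ⟨j, k, hjk, hji, hki⟩ := m13_others i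
      exact m13_agree hs (hm i) (p := x j) (q := x k) (fun h => hjk (hx h))
        (by rw [hv, hN j i hji.symm]) (by rw [hv, hN k i hki.symm])
    have := m13_ne hdet (show (0 : Fin 3) ≠ 1 by decide)
    exact this (by rw [← hsm 0, ← hsm 1, sub_self])

theorem m13_bwd (h2 : (2 : K) ≠ 0) {σ : Equiv.Perm (Fin 3)}
    {y : (K[X] × K[X] × K[X] × K[X]) × (Fin 3 → P1 K)}
    (hy : y ∈ m13S K σ) : ∃ a, a ∈ Fr K σ ×ˢ m13E K σ ∧ m13R K a y := by
  obtain ⟨c, x⟩ := y
  obtain ⟨hc, hx, hT, hfr⟩ := hy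
  simp only at hc hx hT hfr
  obtain ⟨hcW, hq⟩ := mem_Q4.1 hc
  have hW : WP 1 4 (up2 (quart c)) := WP_up2 hcW
  unfold m13T at hT
  rw [Finset.mem_filter] at hT
  obtain ⟨hT1, hbad, hcoll⟩ := hT
  have hbad' : ∀ k, ∃ w, Sing 1 4 (up2 (quart c)) (x k) w := fun k =>
    hbad (x k) (m13_im.2 ⟨_, rfl⟩)
  choose v hv using hbad'
  have hm' : ∀ i : Fin 3, ∃ P : (Om K)[X], P.natDegree ≤ 1 ∧ ∀ k, i ≠ k → ev 1 P (x k) = v k := by
    intro i
    obtain ⟨P, hP, hP'⟩ := exists_interp (n := 1) (T := ((Finset.univ.erase i).image x))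
      (by rw [Finset.card_image_of_injective _ hx]; simp) (Function.extend x v 0)
    refine ⟨P, hP, fun k hk => ?_⟩
    rw [hP' (x k) (Finset.mem_image_of_mem _ (Finset.mem_erase.2 ⟨hk.symm, Finset.mem_univ _⟩))]
    exact hx.extend_apply v 0 k
  choose m hm hN' using hm'
  have hN : m13N m x v := fun k i hik => hN' i k hik
  have hne : ∀ i j, i ≠ j → m i ≠ m j := by
    intro i j hij h
    apply hcoll
    refine ⟨m i, hm i, ?_⟩
    intro p hp
    obtain ⟨k, rfl⟩ := m13_im.1 hp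
    have : ev 1 (m i) (x k) = v k := by
      by_cases hik : i = k
      · rw [h]
        exact hN k j (fun hjk => hij (hik.trans hjk.symm))
      · exact hN k i hik
    rw [this]
    exact hv k
  have hdet : det1 (m 0 - m 2) (m 1 - m 2) ≠ 0 := by
    intro h
    have h0 : m 0 - m 2 ≠ 0 := sub_ne_zero.2 (hne 0 2 (by decide))
    have h1 : m 1 - m 2 ≠ 0 := sub_ne_zero.2 (hne 1 2 (by decide))
    have e1 : ev 1 (m 0 - m 2) (x 1) = 0 := by
      rw [ev_sub, hN 1 0 (by decide), hN 1 2 (by decide), sub_self]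
    have e2 := m13_det_zero (m13_deg_sub (hm 0) (hm 2)) (m13_deg_sub (hm 1) (hm 2)) h0 h e1
    have e3 : ev 1 (m 1 - m 2) (x 0) = 0 := by
      rw [ev_sub, hN 0 1 (by decide), hN 0 2 (by decide), sub_self]
    have := m13_zero_unique (m13_deg_sub (hm 1) (hm 2)) h1 e2 e3
    exact absurd (hx this) (by decide)
  have hvf : ∀ k, v k ^ Fintype.card K = v (σ k) := by
    intro k
    have h1 := sing_frob hcW (hv k)
    rw [hfr] at h1
    exact sing_unique4 hW hq h1 (hv (σ k))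
  have hphi : ∀ i, phi K (m i) = m (σ i) := by
    intro i
    obtain ⟨j, k, hjk, hji, hki⟩ := m13_others i
    have hjk' : σ j ≠ σ k := fun h => hjk (σ.injective h)
    have hji' : σ i ≠ σ j := fun h => hji (σ.injective h).symm
    have hki' : σ i ≠ σ k := fun h => hki (σ.injective h).symm
    refine m13_agree (by rw [natDegree_phi]; exact hm i) (hm _) (p := x (σ j)) (q := x (σ k))
      (fun h => hjk' (hx h)) ?_ ?_
    · rw [← hfr j, ev_phi, hN j i hji.symm, hvf, hfr, hN _ _ hji']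
    · rw [← hfr k, ev_phi, hN k i hki.symm, hvf, hfr, hN _ _ hki']
  obtain ⟨b, g, hbg, hF⟩ := m13_normal hm hdet hx hN hW hv
  have h2' := m13_two_ne h2
  set t : Fin 3 → Om K := fun i => b i + (∑ j, g j - g i) / 2 with ht
  have ht1 : ∑ i, t i = 1 := by
    rw [ht]
    simp only [Fin.sum_univ_three] at hbg ⊢
    field_simp
    linear_combination 2 * hbg
  have hg : m13g b t = g := by
    funext i
    unfold m13g
    rw [ht]
    simp only
    field_simp
    linear_combination -hbg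
  rw [← hg] at hF
  have hover := (m13_over hphi hdet (b := b) (g := m13g b t)).1 (by rw [← hF]; exact m13_map_up2 _)
  rw [hF] at hq
  obtain ⟨hE1, hE2⟩ := (m13_noSq_iff h2' hm hdet hx hN ht1).1 hq
  exact ⟨(m, b, t), ⟨⟨hm, hphi, hdet⟩, hover.1, (m13_g_Rs h2 hover.1).1 hover.2, ht1, hE1, hE2⟩,
    hF, v, hN⟩

theorem m13_uniq1 (h2 : (2 : K) ≠ 0) {σ : Equiv.Perm (Fin 3)}
    {a a' : (Fin 3 → (Om K)[X]) × ((Fin 3 → Om K) × (Fin 3 → Om K))}
    {y : (K[X] × K[X] × K[X] × K[X]) × (Fin 3 → P1 K)}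
    (ha : a ∈ Fr K σ ×ˢ m13E K σ) (ha' : a' ∈ Fr K σ ×ˢ m13E K σ) (hy : y ∈ m13S K σ)
    (h : m13R K a y) (h' : m13R K a' y) : a = a' := by
  obtain ⟨m, b, t⟩ := a
  obtain ⟨⟨hm, hphi, hdet⟩, hb, ht, ht1, hE1, hE2⟩ := ha
  obtain ⟨m', b', t'⟩ := a'
  obtain ⟨⟨hm', hphi', hdet'⟩, hb', ht', ht1', hE1', hE2'⟩ := ha'
  simp only at hm hphi hdet hb ht ht1 hE1 hE2 hm' hphi' hdet' hb' ht' ht1' hE1' hE2'
  obtain ⟨hF, v, hN⟩ := h
  obtain ⟨hF', v', hN'⟩ := h'
  simp only at hF hN hF' hN'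
  obtain ⟨hcW, hq⟩ := mem_Q4.1 hy.1
  have hW : WP 1 4 (up2 (quart y.1)) := WP_up2 hcW
  have hx : Function.Injective y.2 := hy.2.1
  have hvv : v = v' := by
    funext k
    have h1 := m13_sing hm (m13g_sum (b := b) ht1) hN k
    have h3 := m13_sing hm' (m13g_sum (b := b') ht1') hN' k
    rw [← hF] at h1
    rw [← hF'] at h3
    exact sing_unique4 hW hq h1 h3
  subst hvv
  have hmm : m = m' := m13_m_unique hm hm' hx hN hN'
  subst hmm
  rw [hF] at hF'
  obtain ⟨e1, e2⟩ := m13F_inj hdet hF'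
  subst e1
  have e3 : t = t' := by
    funext i
    have := congrFun e2 i
    unfold m13g at this
    have h3 : 2 * (t i - t' i) = 0 := by linear_combination -this
    exact sub_eq_zero.1 ((mul_eq_zero.1 h3).resolve_left (m13_two_ne h2))
  rw [e3]

theorem m13_uniq2 {σ : Equiv.Perm (Fin 3)}
    {a : (Fin 3 → (Om K)[X]) × ((Fin 3 → Om K) × (Fin 3 → Om K))}
    {y y' : (K[X] × K[X] × K[X] × K[X]) × (Fin 3 → P1 K)}
    (ha : a ∈ Fr K σ ×ˢ m13E K σ)
    (h : m13R K a y) (h' : m13R K a y') : y = y' := by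
  obtain ⟨m, b, t⟩ := a
  obtain ⟨⟨hm, hphi, hdet⟩, hb, ht, ht1, hE1, hE2⟩ := ha
  obtain ⟨hF, v, hN⟩ := h
  obtain ⟨hF', v', hN'⟩ := h'
  refine Prod.ext ?_ (m13_x_unique hm hdet hN hN')
  exact quart_injective (up2_injective (hF.trans hF'.symm))

theorem m13_card (h2 : (2 : K) ≠ 0) (σ : Equiv.Perm (Fin 3)) :
    Set.ncard (m13S K σ) = Set.ncard (Fr K σ) * Ec K σ := by
  have hEc : Ec K σ = Set.ncard (m13E K σ) := rfl
  rw [hEc, ← Set.ncard_prod]
  symm
  refine Set.ncard_congr (fun a ha => Classical.choose (m13_fwd h2 ha)) ?_ ?_ ?_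
  · intro a ha
    exact (Classical.choose_spec (m13_fwd h2 ha)).1
  · intro a a' ha ha' h
    have s1 := Classical.choose_spec (m13_fwd h2 ha)
    have s2 := Classical.choose_spec (m13_fwd h2 ha')
    rw [← h] at s2
    exact m13_uniq1 h2 ha ha' s1.1 s1.2 s2.2
  · intro y hy
    obtain ⟨a, ha, hR⟩ := m13_bwd h2 hy
    exact ⟨a, ha, m13_uniq2 ha (Classical.choose_spec (m13_fwd h2 ha)).2 hR⟩

theorem m13_ncard_S (σ : Equiv.Perm (Fin 3)) :
    Set.ncard (m13S K σ) = ∑ c ∈ Q4 K, (Lab_finite (φ := frob K) 3 (m13T K c) σ).toFinset.card := by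
  have : m13S K σ = (((Q4 K).sigma
      (fun c => (Lab_finite (φ := frob K) 3 (m13T K c) σ).toFinset)).image
        (fun z => (z.1, z.2)) : Finset _) := by
    ext y
    simp only [m13S, Set.mem_ofPred_eq, Finset.coe_image, Set.mem_image, Finset.mem_coe,
      Finset.mem_sigma, Set.Finite.mem_toFinset]
    constructor
    · intro h
      exact ⟨⟨y.1, y.2⟩, ⟨h.1, h.2⟩, rfl⟩
    · rintro ⟨z, ⟨h1, h3⟩, rfl⟩
      exact ⟨h1, h3⟩
  rw [this, Set.ncard_coe_finset, Finset.card_image_of_injective, Finset.card_sigma]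
  rintro ⟨a1, a2⟩ ⟨b1, b2⟩ h
  simp only [Prod.mk.injEq] at h
  obtain ⟨rfl, rfl⟩ := h
  rfl

end

section
variable (K : Type*) [Field K] [Fintype K]

/-- M13 -/
theorem SV_three_nc_aux (h2 : (2 : K) ≠ 0) :
    6 * SVG K 3 (fun f T => ¬ Coll (up2 f) T) =
      - ∑ σ : Equiv.Perm (Fin 3), (Equiv.Perm.sign σ : ℤ) * (Set.ncard (Fr K σ) : ℤ) *
        (Ec K σ : ℤ) := by
  have hstep : ∀ c ∈ Q4 K, (6 : ℤ) * ∑ T ∈ (Stab K 3).filter
      (fun T => (∀ p ∈ T, Bad 1 4 (up2 (quart c)) p) ∧ ¬ Coll (up2 (quart c)) T), mu K T =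
      - ∑ σ : Equiv.Perm (Fin 3), (Equiv.Perm.sign σ : ℤ) *
        ((Lab_finite (φ := frob K) 3 (m13T K c) σ).toFinset.card : ℤ) := by
    intro c _
    have h := sum_Lab (φ := frob K) frob_injective 3 (m13T K c) (by
      intro T hT
      exact mem_Stab.1 (Finset.mem_filter.1 hT).1) (mu K)
    have h6 : ((Nat.factorial 3 : ℕ) : ℤ) = 6 := by decide
    rw [h6] at h
    unfold m13T at h ⊢
    rw [← h, ← Finset.sum_neg_distrib]
    refine Finset.sum_congr rfl fun σ _ => ?_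
    rw [Finset.sum_congr rfl (g := fun _ => -(Equiv.Perm.sign σ : ℤ))]
    · rw [Finset.sum_const, nsmul_eq_mul]
      ring
    · intro x hx
      rw [Set.Finite.mem_toFinset] at hx
      have := muG_label (φ := frob K) x hx.1 σ hx.2.2
      unfold mu
      rw [this]
      ring
  unfold SVG
  rw [Finset.mul_sum]
  trans (∑ c ∈ Q4 K, - ∑ σ : Equiv.Perm (Fin 3), (Equiv.Perm.sign σ : ℤ) *
        ((Lab_finite (φ := frob K) 3 (m13T K c) σ).toFinset.card : ℤ))
  · exact Finset.sum_congr rfl fun c hc => by convert hstep c hc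
  rw [Finset.sum_neg_distrib, Finset.sum_comm]
  congr 1
  refine Finset.sum_congr rfl fun σ _ => ?_
  rw [← Finset.mul_sum, mul_assoc]
  congr 1
  have h1 := m13_card h2 σ
  rw [m13_ncard_S] at h1
  exact_mod_cast h1

end

end
end Pool.Agent.Helper19.DP1
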