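import Pool.Agent.Helper19.DP1.Core8
import Pool.Agent.Helper19.DP1.Sums

/-! M14: the number of twisted affine frames in the space of sections of degree 1. -/

namespace Pool.Agent.Helper19.DP1
open Polynomial Classical
noncomputable section

section
variable (K : Type*) [Field K] [Fintype K]

theorem m14_card_GL :
    (Set.ncard {M : Matrix (Fin 2) (Fin 2) K | M.det ≠ 0} : ℤ) = G2 K := by
  have h1 : Set.ncard {M : Matrix (Fin 2) (Fin 2) K | M.det ≠ 0} =
      Nat.card (Matrix.GeneralLinearGroup (Fin 2) K) := by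
    have : {M : Matrix (Fin 2) (Fin 2) K | M.det ≠ 0} =
        Set.range (fun g : Matrix.GeneralLinearGroup (Fin 2) K => (g : Matrix (Fin 2) (Fin 2) K)) := by
      ext M
      simp only [Set.mem_ofPred_eq, Set.mem_range]
      constructor
      · intro h
        exact ⟨Matrix.GeneralLinearGroup.mkOfDetNeZero M h, rfl⟩
      · rintro ⟨g, rfl⟩
        exact g.det_ne_zero
    rw [this, ← Set.image_univ, Set.ncard_image_of_injective _ Units.val_injective,
      Set.ncard_univ]
  rw [h1, Matrix.card_GL_field]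
  simp only [Fin.prod_univ_two, Fin.val_zero, Fin.val_one, pow_zero, pow_one]
  have hq : 1 ≤ Fintype.card K := Fintype.card_pos
  have h3 : 1 ≤ Fintype.card K ^ 2 := Nat.one_le_pow _ _ hq
  have h4 : Fintype.card K ≤ Fintype.card K ^ 2 := Nat.le_self_pow (by norm_num) _
  push_cast [h3, h4]
  unfold G2
  ring

theorem m14_det1_comb {L : Type*} [Field L] (w0 w1 w2 : L[X]) (a b : Fin 3 → L) :
    det1 ((w0 + C (a 0) * w1 + C (b 0) * w2) - (w0 + C (a 2) * w1 + C (b 2) * w2))
      ((w0 + C (a 1) * w1 + C (b 1) * w2) - (w0 + C (a 2) * w1 + C (b 2) * w2)) =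
    ((a 0 - a 2) * (b 1 - b 2) - (b 0 - b 2) * (a 1 - a 2)) * det1 w1 w2 := by
  simp only [det1, coeff_add, coeff_sub, coeff_C_mul]
  ring

theorem m14_det1_up (a b : K[X]) : det1 (up a) (up b) = algebraMap K (Om K) (det1 a b) := by
  simp only [det1, coeff_up, map_sub, map_mul]

/-- M14 -/
theorem ncard_Fr (h2 : (2 : K) ≠ 0) (σ : Equiv.Perm (Fin 3)) :
    (Set.ncard (Fr K σ) : ℤ) = (Fintype.card K : ℤ) ^ 2 * G2 K := by
  obtain ⟨e, he, h0, hl⟩ := exists_Rs_basis (K := K) σ
  -- the determinant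
  have hdet : (e 1 0 - e 1 2) * (e 2 1 - e 2 2) - (e 2 0 - e 2 2) * (e 1 1 - e 1 2) ≠ 0 := by
    have h1 : IsUnit (Matrix.of e) := by
      apply Matrix.linearIndependent_rows_iff_isUnit.mp
      exact hl
    have h3 := (Matrix.isUnit_iff_isUnit_det _).mp h1
    rw [Matrix.det_fin_three] at h3
    have h4 := h3.ne_zero
    have e00 : e 0 0 = 1 := by rw [h0]
    have e01 : e 0 1 = 1 := by rw [h0]
    have e02 : e 0 2 = 1 := by rw [h0]
    simp only [Matrix.of_apply, e00, e01, e02] at h4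
    intro h5
    apply h4
    rw [← h5]
    ring
  set Φ : (Fin 3 → K[X]) → (Fin 3 → (Om K)[X]) := fun c i => ∑ j, C (e j i) * up (c j) with hΦ
  have hinj : Function.Injective Φ := fun c c' h =>
    forms_coord_unique e hl c c' (fun i => congrFun h i)
  have hmi : ∀ c i, Φ c i = up (c 0) + C (e 1 i) * up (c 1) + C (e 2 i) * up (c 2) := by
    intro c i
    have h3 := Fin.sum_univ_three (fun j : Fin 3 => C (e j i) * up (c j))
    have h4 : e 0 i = 1 := by rw [h0]
    refine h3.trans ?_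
    rw [h4, map_one, one_mul]
  have hFr : Fr K σ = Φ '' {c | (∀ j, (c j).natDegree ≤ 1) ∧ det1 (c 1) (c 2) ≠ 0} := by
    ext m
    simp only [Set.mem_image, Set.mem_ofPred_eq, Fr]
    constructor
    · rintro ⟨h3, h4, h5⟩
      obtain ⟨c, hc, hm⟩ := (mem_Rs_forms_iff σ e he hl 1 m).mp ⟨h3, h4⟩
      have hm' : Φ c = m := by
        funext i; rw [hm i]
      refine ⟨c, ⟨hc, ?_⟩, hm'⟩
      intro h6
      apply h5
      rw [← hm', hmi, hmi, hmi, m14_det1_comb, m14_det1_up, h6, map_zero, mul_zero]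
    · rintro ⟨c, ⟨hc, h6⟩, rfl⟩
      have h7 := (mem_Rs_forms_iff σ e he hl 1 (Φ c)).mpr ⟨c, hc, fun i => rfl⟩
      refine ⟨h7.1, h7.2, ?_⟩
      rw [hmi, hmi, hmi, m14_det1_comb, m14_det1_up]
      refine mul_ne_zero hdet ?_
      rw [Ne, map_eq_zero_iff _ (algebraMap K (Om K)).injective]
      exact h6
  rw [hFr, Set.ncard_image_of_injective _ hinj]
  set Ψ : (K × K) × Matrix (Fin 2) (Fin 2) K → (Fin 3 → K[X]) := fun x =>
    ![C x.1.1 * X + C x.1.2, C (x.2 0 0) * X + C (x.2 0 1), C (x.2 1 0) * X + C (x.2 1 1)] with hΨ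
  have hc1 : ∀ a b : K, (C a * X + C b).coeff 1 = a := by
    intro a b; simp
  have hc0 : ∀ a b : K, (C a * X + C b).coeff 0 = b := by
    intro a b; simp
  have hlin : ∀ P : K[X], P.natDegree ≤ 1 → P = C (P.coeff 1) * X + C (P.coeff 0) := by
    intro P hP
    exact eq_X_add_C_of_natDegree_le_one hP
  have hΨinj : Function.Injective Ψ := by
    rintro ⟨⟨a, b⟩, M⟩ ⟨⟨a', b'⟩, M'⟩ h
    have h00 := congrArg (fun P => (P.coeff 1, P.coeff 0)) (congrFun h 0)
    have h01 := congrArg (fun P => (P.coeff 1, P.coeff 0)) (congrFun h 1)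
    have h02 := congrArg (fun P => (P.coeff 1, P.coeff 0)) (congrFun h 2)
    simp only [hΨ, Matrix.cons_val_zero, Matrix.cons_val_one, Matrix.cons_val, hc1, hc0,
      Prod.mk.injEq] at h00 h01 h02
    ext i j
    · exact h00.1
    · exact h00.2
    · fin_cases i <;> fin_cases j
      · exact h01.1
      · exact h01.2
      · exact h02.1
      · exact h02.2
  have hset : {c : Fin 3 → K[X] | (∀ j, (c j).natDegree ≤ 1) ∧ det1 (c 1) (c 2) ≠ 0} =
      Ψ '' ((Set.univ : Set (K × K)) ×ˢ {M : Matrix (Fin 2) (Fin 2) K | M.det ≠ 0}) := by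
    ext c
    simp only [Set.mem_image, Set.mem_ofPred_eq, Set.mem_prod, Set.mem_univ, true_and]
    constructor
    · rintro ⟨h3, h4⟩
      refine ⟨⟨((c 0).coeff 1, (c 0).coeff 0),
        !![(c 1).coeff 1, (c 1).coeff 0; (c 2).coeff 1, (c 2).coeff 0]⟩, ?_, ?_⟩
      · simp only [Matrix.det_fin_two_of]
        simpa [det1] using h4
      · funext i
        fin_cases i
        · exact (hlin _ (h3 0)).symm
        · exact (hlin _ (h3 1)).symm
        · exact (hlin _ (h3 2)).symm
    · rintro ⟨⟨⟨a, b⟩, M⟩, h3, rfl⟩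
      refine ⟨?_, ?_⟩
      · intro j
        fin_cases j <;> exact natDegree_linear_le
      · simp only [hΨ, Matrix.cons_val_one, Matrix.cons_val, det1, hc1, hc0]
        rw [Matrix.det_fin_two] at h3
        exact h3
  rw [hset, Set.ncard_image_of_injective _ hΨinj, Set.ncard_prod]
  push_cast
  rw [m14_card_GL, Set.ncard_univ, Nat.card_prod, Nat.card_eq_fintype_card]
  push_cast
  ring

end

end
end Pool.Agent.Helper19.DP1
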