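import Pool.Agent.Helper19.DP1.Core8
import Pool.Agent.Helper19.DP1.Sums

/-! M15: the sum `sum_Ec`. -/

namespace Pool.Agent.Helper19.DP1
open Polynomial Classical
noncomputable section

section
variable (K : Type*) [Field K] [Fintype K]

/-! ### general part -/

theorem m15_finRs (σ : Equiv.Perm (Fin 3)) : (Rs K σ).Finite := by
  apply Set.finite_of_ncard_ne_zero
  rw [ncard_Rs]
  exact pow_ne_zero _ Fintype.card_ne_zero

/-- `Rs` as a finite set -/
def m15R (σ : Equiv.Perm (Fin 3)) : Finset (Fin 3 → Om K) := (m15_finRs K σ).toFinset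

variable {K}

theorem m15_mem_R {σ : Equiv.Perm (Fin 3)} {x : Fin 3 → Om K} :
    x ∈ m15R K σ ↔ ∀ i, x i ^ Fintype.card K = x (σ i) := by
  simp [m15R, Rs]

/-- elements of trace `a` -/
def m15T (σ : Equiv.Perm (Fin 3)) (a : K) : Finset (Fin 3 → Om K) :=
  (m15R K σ).filter (fun x => ∑ i, x i = algebraMap K (Om K) a)

theorem m15_mem_T {σ : Equiv.Perm (Fin 3)} {a : K} {x : Fin 3 → Om K} :
    x ∈ m15T σ a ↔ (∀ i, x i ^ Fintype.card K = x (σ i)) ∧ ∑ i, x i = algebraMap K (Om K) a := by
  simp only [m15T, Finset.mem_filter, m15_mem_R]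

theorem m15_card_T (σ : Equiv.Perm (Fin 3)) (a : K) :
    (m15T σ a).card = Fintype.card K ^ 2 := by
  have h := ncard_Rs_trace (K := K) σ (fun _ => 1) (by intro i; simp) (by norm_num)
    ⟨0, one_ne_zero⟩ a
  rw [← h, ← Set.ncard_coe_finset]
  congr 1
  ext x
  simp only [Finset.mem_coe, m15_mem_T, one_mul, Rs, Set.mem_ofPred_eq]

theorem m15_pow_add (x y : Om K) :
    (x + y) ^ Fintype.card K = x ^ Fintype.card K + y ^ Fintype.card K := pow_card_add x y

theorem m15_pow_neg (x : Om K) : (-x) ^ Fintype.card K = -(x ^ Fintype.card K) := by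
  have h := pow_card_add x (-x)
  rw [add_neg_cancel, zero_pow Fintype.card_ne_zero] at h
  linear_combination -h

theorem m15_pow_sub (x y : Om K) :
    (x - y) ^ Fintype.card K = x ^ Fintype.card K - y ^ Fintype.card K := by
  rw [sub_eq_add_neg, m15_pow_add, m15_pow_neg, sub_eq_add_neg]

theorem m15_pow_alg (a : K) :
    (algebraMap K (Om K) a) ^ Fintype.card K = algebraMap K (Om K) a :=
  pow_card_eq_iff.mpr ⟨a, rfl⟩

/-- number of `θ` -/
def m15n (σ : Equiv.Perm (Fin 3)) (β : Fin 3 → Om K) : ℤ :=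
  ((m15T σ (1 : K)).filter (fun θ => ∀ i, θ i ^ 2 ≠ β i)).card

/-- existence of `u` -/
def m15U (β : Fin 3 → Om K) : Prop := ∃ u : Fin 3 → Om K, (∀ i, u i ^ 2 = β i) ∧ ∑ i, u i = 1

/-- special `u` -/
def m15sp (u : Fin 3 → Om K) : Prop := ∃ i j : Fin 3, i ≠ j ∧ u i + u j = 0 ∧ u i ≠ 0

/-- special `β` -/
def m15S (β : Fin 3 → Om K) : Prop :=
  ∃ u : Fin 3 → Om K, (∀ i, u i ^ 2 = β i) ∧ ∑ i, u i = 1 ∧ m15sp u

theorem m15_Ec_eq (σ : Equiv.Perm (Fin 3)) :
    (Ec K σ : ℤ) = ∑ β ∈ m15R K σ, if m15U β then 0 else m15n σ β := by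
  have h1 : {x : (Fin 3 → Om K) × (Fin 3 → Om K) | x.1 ∈ Rs K σ ∧ x.2 ∈ Rs K σ ∧
    (∑ i, x.2 i = 1) ∧ (∀ i, x.2 i ^ 2 ≠ x.1 i) ∧
    ¬ ∃ u : Fin 3 → Om K, (∀ i, u i ^ 2 = x.1 i) ∧ ∑ i, u i = 1} =
    (((m15R K σ ×ˢ m15T σ (1 : K)).filter
      (fun x => (∀ i, x.2 i ^ 2 ≠ x.1 i) ∧ ¬ m15U x.1) :
        Finset ((Fin 3 → Om K) × (Fin 3 → Om K))) : Set _) := by
    ext x
    rw [Finset.mem_coe, Finset.mem_filter]
    simp only [Finset.mem_product, m15_mem_R, m15_mem_T, Rs,
      Set.mem_ofPred_eq, map_one, m15U]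
    tauto
  unfold Ec
  rw [h1, Set.ncard_coe_finset, Finset.card_filter, Finset.sum_product]
  push_cast
  apply Finset.sum_congr rfl
  intro β _
  by_cases hU : m15U β
  · rw [if_pos hU]
    apply Finset.sum_eq_zero
    intro θ _
    rw [if_neg]
    intro h
    exact h.2 hU
  · rw [if_neg hU, m15n, Finset.card_filter]
    push_cast
    apply Finset.sum_congr rfl
    intro θ _
    simp [hU]

omit [Fintype K] in
theorem m15_two (h2 : (2 : K) ≠ 0) : (2 : Om K) ≠ 0 := by
  intro h
  apply h2
  have : algebraMap K (Om K) 2 = 0 := by rw [map_ofNat]; exact h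
  exact (map_eq_zero_iff _ (algebraMap K (Om K)).injective).mp this

omit [Fintype K] in
theorem m15_uniq (h2 : (2 : K) ≠ 0) {u v : Fin 3 → Om K} (h : ∀ i, u i ^ 2 = v i ^ 2)
    (hu : ∑ i, u i = 1) (hv : ∑ i, v i = 1) (hs : ¬ m15sp u) : u = v := by
  have h2' := m15_two h2
  by_contra hne
  have hi : ∀ i, u i = v i ∨ u i = - v i := fun i => sq_eq_sq_iff_eq_or_eq_neg.mp (h i)
  have hs' : ∀ i j : Fin 3, i ≠ j → u i + u j = 0 → u i = 0 := by
    intro i j hij h3
    by_contra h4
    exact hs ⟨i, j, hij, h3, h4⟩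
  rw [Fin.sum_univ_three] at hu hv
  apply hne
  rcases hi 0 with h0 | h0 <;> rcases hi 1 with h1 | h1 <;> rcases hi 2 with h3 | h3
  · funext i; fin_cases i <;> assumption
  · have h5 : u 2 = 0 := by
      have : 2 * u 2 = 0 := by linear_combination hu - hv - h0 - h1 + h3
      simpa [h2'] using this
    funext i; fin_cases i
    · exact h0
    · exact h1
    · show u 2 = v 2
      linear_combination 2 * h5 - h3
  · have h5 : u 1 = 0 := by
      have : 2 * u 1 = 0 := by linear_combination hu - hv - h0 + h1 - h3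
      simpa [h2'] using this
    funext i; fin_cases i
    · exact h0
    · show u 1 = v 1
      linear_combination 2 * h5 - h1
    · exact h3
  · have h4 : u 1 + u 2 = 0 := by
      have : 2 * (u 1 + u 2) = 0 := by linear_combination hu - hv - h0 + h1 + h3
      simpa [h2'] using this
    have h5 := hs' 1 2 (by decide) h4
    have h6 : u 2 = 0 := by linear_combination h4 - h5
    funext i; fin_cases i
    · exact h0
    · show u 1 = v 1
      linear_combination 2 * h5 - h1
    · show u 2 = v 2
      linear_combination 2 * h6 - h3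
  · have h5 : u 0 = 0 := by
      have : 2 * u 0 = 0 := by linear_combination hu - hv + h0 - h1 - h3
      simpa [h2'] using this
    funext i; fin_cases i
    · show u 0 = v 0
      linear_combination 2 * h5 - h0
    · exact h1
    · exact h3
  · have h4 : u 0 + u 2 = 0 := by
      have : 2 * (u 0 + u 2) = 0 := by linear_combination hu - hv + h0 - h1 + h3
      simpa [h2'] using this
    have h5 := hs' 0 2 (by decide) h4
    have h6 : u 2 = 0 := by linear_combination h4 - h5
    funext i; fin_cases i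
    · show u 0 = v 0
      linear_combination 2 * h5 - h0
    · exact h1
    · show u 2 = v 2
      linear_combination 2 * h6 - h3
  · have h4 : u 0 + u 1 = 0 := by
      have : 2 * (u 0 + u 1) = 0 := by linear_combination hu - hv + h0 + h1 - h3
      simpa [h2'] using this
    have h5 := hs' 0 1 (by decide) h4
    have h6 : u 1 = 0 := by linear_combination h4 - h5
    funext i; fin_cases i
    · show u 0 = v 0
      linear_combination 2 * h5 - h0
    · show u 1 = v 1
      linear_combination 2 * h6 - h1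
    · exact h3
  · exfalso
    apply h2'
    linear_combination -hu - hv + h0 + h1 + h3

/-- the main decomposition -/
theorem m15_Ec_decomp (h2 : (2 : K) ≠ 0) (σ : Equiv.Perm (Fin 3)) :
    (Ec K σ : ℤ) = ∑ β ∈ m15R K σ, m15n σ β - ∑ u ∈ m15T σ (1 : K), m15n σ (u ^ 2)
      + ∑ u ∈ (m15T σ (1 : K)).filter m15sp, m15n σ (u ^ 2)
      - ∑ β ∈ (m15R K σ).filter m15S, m15n σ β := by
  rw [m15_Ec_eq]
  have h1 : ∑ β ∈ m15R K σ, (if m15U β then 0 else m15n σ β) =
      ∑ β ∈ m15R K σ, m15n σ β - ∑ β ∈ (m15R K σ).filter m15U, m15n σ β := by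
    rw [Finset.sum_filter, ← Finset.sum_sub_distrib]
    apply Finset.sum_congr rfl
    intro β _
    split_ifs <;> ring
  have h3 : ∑ β ∈ (m15R K σ).filter m15U, m15n σ β =
      ∑ β ∈ (m15R K σ).filter m15S, m15n σ β +
      ∑ β ∈ (m15R K σ).filter (fun β => m15U β ∧ ¬ m15S β), m15n σ β := by
    rw [Finset.sum_filter, Finset.sum_filter, Finset.sum_filter, ← Finset.sum_add_distrib]
    apply Finset.sum_congr rfl
    intro β _
    by_cases hS : m15S β
    · have hU : m15U β := by
        obtain ⟨u, h4, h5, _⟩ := hS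
        exact ⟨u, h4, h5⟩
      simp [hS, hU]
    · simp [hS]
  have h4 : ∑ β ∈ (m15R K σ).filter (fun β => m15U β ∧ ¬ m15S β), m15n σ β =
      ∑ u ∈ (m15T σ (1 : K)).filter (fun u => ¬ m15sp u), m15n σ (u ^ 2) := by
    symm
    apply Finset.sum_bij (fun u _ => u ^ 2)
    · intro u hu
      simp only [Finset.mem_filter, m15_mem_T, m15_mem_R, map_one] at hu ⊢
      refine ⟨?_, ⟨u, fun i => rfl, hu.1.2⟩, ?_⟩
      · intro i
        simp only [Pi.pow_apply]
        rw [← hu.1.1 i, ← pow_mul, ← pow_mul, mul_comm]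
      · rintro ⟨v, hv1, hv2, hv3⟩
        apply hu.2
        have := m15_uniq h2 (u := u) (v := v) (fun i => (hv1 i).symm) hu.1.2 hv2 hu.2
        rw [this]
        exact hv3
    · intro u hu v hv h
      simp only [Finset.mem_filter, m15_mem_T, map_one] at hu hv
      exact m15_uniq h2 (fun i => congrFun h i) hu.1.2 hv.1.2 hu.2
    · intro β hβ
      simp only [Finset.mem_filter, m15_mem_R] at hβ
      obtain ⟨hβ1, ⟨u, hu1, hu2⟩, hβ3⟩ := hβ
      have hus : ¬ m15sp u := fun h => hβ3 ⟨u, hu1, hu2, h⟩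
      have hfr : (fun i => u (σ⁻¹ i) ^ Fintype.card K) = u := by
        symm
        apply m15_uniq h2 (u := u) _ hu2 _ hus
        · intro i
          rw [← pow_mul, mul_comm, pow_mul, hu1, hu1]
          have := hβ1 (σ⁻¹ i)
          rw [this]
          simp
        · have h5 : ∑ i, u (σ⁻¹ i) ^ Fintype.card K = ∑ i, u i ^ Fintype.card K :=
            Equiv.sum_comp σ⁻¹ (fun i => u i ^ Fintype.card K)
          rw [h5, Fin.sum_univ_three, ← m15_pow_add, ← m15_pow_add]
          rw [Fin.sum_univ_three] at hu2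
          rw [hu2, one_pow]
      refine ⟨u, ?_, ?_⟩
      · simp only [Finset.mem_filter, m15_mem_T, map_one]
        refine ⟨⟨?_, hu2⟩, hus⟩
        intro i
        have := congrFun hfr (σ i)
        simpa using this
      · funext i
        exact hu1 i
    · intro u _
      rfl
  have h5 : ∑ u ∈ m15T σ (1 : K), m15n σ (u ^ 2) =
      ∑ u ∈ (m15T σ (1 : K)).filter m15sp, m15n σ (u ^ 2) +
      ∑ u ∈ (m15T σ (1 : K)).filter (fun u => ¬ m15sp u), m15n σ (u ^ 2) :=
    (Finset.sum_filter_add_sum_filter_not _ _ _).symm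
  rw [h1, h3, h4, h5]
  ring

/-- number of elements of trace `a` without zero coordinate -/
def m15Z (σ : Equiv.Perm (Fin 3)) (a : K) : ℤ :=
  ((m15T σ a).filter (fun x => ∀ i, x i ≠ 0)).card

theorem m15_sum_R (σ : Equiv.Perm (Fin 3)) :
    ∑ β ∈ m15R K σ, m15n σ β = (Fintype.card K : ℤ) ^ 2 * ∑ a : K, m15Z σ a := by
  -- |Rs*|
  have h0 : (((m15R K σ).filter (fun x => ∀ i, x i ≠ 0)).card : ℤ) = ∑ a : K, m15Z σ a := by
    have h1 : ∀ x ∈ (m15R K σ).filter (fun x => ∀ i, x i ≠ 0),
        ∃ a : K, algebraMap K (Om K) a = ∑ i, x i := by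
      intro x hx
      simp only [Finset.mem_filter, m15_mem_R] at hx
      apply pow_card_eq_iff.mp
      rw [Fin.sum_univ_three, m15_pow_add, m15_pow_add, hx.1, hx.1, hx.1]
      have := Equiv.sum_comp σ x
      rw [Fin.sum_univ_three, Fin.sum_univ_three] at this
      exact this
    have h3 : (m15R K σ).filter (fun x => ∀ i, x i ≠ 0) =
        (Finset.univ : Finset K).biUnion (fun a => (m15T σ a).filter (fun x => ∀ i, x i ≠ 0)) := by
      ext x
      simp only [Finset.mem_biUnion, Finset.mem_univ, true_and, m15T, Finset.mem_filter]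
      constructor
      · intro hx
        obtain ⟨a, ha⟩ := h1 x (by simpa using hx)
        exact ⟨a, ⟨hx.1, ha.symm⟩, hx.2⟩
      · rintro ⟨a, ⟨h4, _⟩, h5⟩
        exact ⟨h4, h5⟩
    rw [h3, Finset.card_biUnion]
    · push_cast
      rfl
    · intro a _ b _ hab
      rw [Function.onFun, Finset.disjoint_left]
      intro x hx hx'
      simp only [Finset.mem_filter, m15_mem_T] at hx hx'
      apply hab
      apply (algebraMap K (Om K)).injective
      rw [← hx.1.2, ← hx'.1.2]
  rw [← h0]
  have h1 : ∀ θ ∈ m15T σ (1 : K),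
      ((m15R K σ).filter (fun β => ∀ i, θ i ^ 2 ≠ β i)).card =
      ((m15R K σ).filter (fun x => ∀ i, x i ≠ 0)).card := by
    intro θ hθ
    rw [m15_mem_T] at hθ
    apply Finset.card_bij (fun β _ => β - θ ^ 2)
    · intro β hβ
      simp only [Finset.mem_filter, m15_mem_R] at hβ ⊢
      refine ⟨?_, ?_⟩
      · intro i
        simp only [Pi.sub_apply, Pi.pow_apply]
        rw [m15_pow_sub, hβ.1, ← pow_mul, mul_comm, pow_mul, hθ.1]
      · intro i
        simp only [Pi.sub_apply, Pi.pow_apply]
        exact sub_ne_zero.mpr (hβ.2 i).symm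
    · intro β _ β' _ h
      exact sub_left_injective h
    · intro x hx
      simp only [Finset.mem_filter, m15_mem_R] at hx
      refine ⟨x + θ ^ 2, ?_, by simp⟩
      simp only [Finset.mem_filter, m15_mem_R]
      refine ⟨?_, ?_⟩
      · intro i
        simp only [Pi.add_apply, Pi.pow_apply]
        rw [m15_pow_add, hx.1, ← pow_mul, mul_comm, pow_mul, hθ.1]
      · intro i h
        simp only [Pi.add_apply, Pi.pow_apply] at h
        exact hx.2 i (by linear_combination -h)
  have h3 : ∀ β, m15n σ β = ∑ θ ∈ m15T σ (1 : K), if (∀ i, θ i ^ 2 ≠ β i) then (1 : ℤ) else 0 := by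
    intro β
    rw [m15n, Finset.card_filter]
    push_cast
    rfl
  simp_rw [h3]
  rw [Finset.sum_comm]
  have h4 : ∀ θ ∈ m15T σ (1 : K), ∑ β ∈ m15R K σ, (if (∀ i, θ i ^ 2 ≠ β i) then (1 : ℤ) else 0) =
      (((m15R K σ).filter (fun x => ∀ i, x i ≠ 0)).card : ℤ) := by
    intro θ hθ
    rw [← h1 θ hθ, Finset.card_filter]
    push_cast
    rfl
  rw [Finset.sum_congr rfl h4, Finset.sum_const, m15_card_T]
  simp

theorem m15_sum_T (h2 : (2 : K) ≠ 0) (σ : Equiv.Perm (Fin 3)) :
    ∑ u ∈ m15T σ (1 : K), m15n σ (u ^ 2) = m15Z σ (0 : K) * m15Z σ (2 : K) := by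
  have h2' := m15_two h2
  have h3 : ∑ u ∈ m15T σ (1 : K), m15n σ (u ^ 2) =
      (((m15T σ (1 : K) ×ˢ m15T σ (1 : K)).filter (fun x => ∀ i, x.2 i ^ 2 ≠ x.1 i ^ 2)).card : ℤ) := by
    rw [Finset.card_filter, Finset.sum_product]
    push_cast
    apply Finset.sum_congr rfl
    intro u _
    rw [m15n, Finset.card_filter]
    push_cast
    rfl
  have hhalf : (2⁻¹ : Om K) = algebraMap K (Om K) (2⁻¹) := by
    rw [map_inv₀, map_ofNat]
  have hhp : (2⁻¹ : Om K) ^ Fintype.card K = 2⁻¹ := by
    rw [hhalf, m15_pow_alg]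
  rw [h3, m15Z, m15Z, ← Nat.cast_mul, ← Finset.card_product]
  congr 1
  apply Finset.card_bij (fun x _ => (x.2 - x.1, x.2 + x.1))
  · intro x hx
    simp only [Finset.mem_filter, Finset.mem_product, m15_mem_T, map_one, map_zero,
      map_ofNat] at hx ⊢
    obtain ⟨⟨⟨hu1, hu2⟩, ht1, ht2⟩, hne⟩ := hx
    refine ⟨⟨⟨?_, ?_⟩, ?_⟩, ⟨?_, ?_⟩, ?_⟩
    · intro i
      simp only [Pi.sub_apply]
      rw [m15_pow_sub, hu1, ht1]
    · simp only [Pi.sub_apply, Finset.sum_sub_distrib]
      rw [hu2, ht2, sub_self]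
    · intro i h
      simp only [Pi.sub_apply] at h
      apply hne i
      rw [sub_eq_zero.mp h]
    · intro i
      simp only [Pi.add_apply]
      rw [m15_pow_add, hu1, ht1]
    · simp only [Pi.add_apply, Finset.sum_add_distrib]
      rw [hu2, ht2]
      norm_num
    · intro i h
      simp only [Pi.add_apply] at h
      apply hne i
      rw [eq_neg_of_add_eq_zero_left h]
      ring
  · intro x _ y _ h
    simp only [Prod.mk.injEq] at h
    have h4 : ∀ i, x.2 i - x.1 i = y.2 i - y.1 i := fun i => congrFun h.1 i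
    have h5 : ∀ i, x.2 i + x.1 i = y.2 i + y.1 i := fun i => congrFun h.2 i
    ext i
    · have : 2 * (x.1 i - y.1 i) = 0 := by linear_combination h5 i - h4 i
      have := (mul_eq_zero.mp this).resolve_left h2'
      linear_combination this
    · have : 2 * (x.2 i - y.2 i) = 0 := by linear_combination h5 i + h4 i
      have := (mul_eq_zero.mp this).resolve_left h2'
      linear_combination this
  · rintro ⟨p, r⟩ hx
    simp only [Finset.mem_filter, Finset.mem_product, m15_mem_T, map_zero,
      map_ofNat] at hx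
    obtain ⟨⟨⟨hp1, hp2⟩, hp3⟩, ⟨hr1, hr2⟩, hr3⟩ := hx
    refine ⟨(fun i => 2⁻¹ * (r i - p i), fun i => 2⁻¹ * (r i + p i)), ?_, ?_⟩
    · simp only [Finset.mem_filter, Finset.mem_product, m15_mem_T, map_one]
      refine ⟨⟨⟨?_, ?_⟩, ⟨?_, ?_⟩⟩, ?_⟩
      · intro i
        rw [mul_pow, m15_pow_sub, hp1, hr1, hhp]
      · rw [← Finset.mul_sum, Finset.sum_sub_distrib, hp2, hr2]
        field_simp
        ring
      · intro i
        rw [mul_pow, m15_pow_add, hp1, hr1, hhp]
      · rw [← Finset.mul_sum, Finset.sum_add_distrib, hp2, hr2]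
        field_simp
        ring
      · intro i h
        have h6 : p i * r i = 0 := by
          field_simp at h
          have : 4 * (p i * r i) = 0 := by linear_combination h
          have h4 : (4 : Om K) ≠ 0 := by
            have : (4 : Om K) = 2 * 2 := by norm_num
            rw [this]
            exact mul_ne_zero h2' h2'
          exact (mul_eq_zero.mp this).resolve_left h4
        rcases mul_eq_zero.mp h6 with h7 | h7
        · exact hp3 i h7
        · exact hr3 i h7
    · ext i
      · simp only [Pi.sub_apply]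
        field_simp
        ring
      · simp only [Pi.add_apply]
        field_simp
        ring

/-! ### conjugation invariance -/

theorem m15_Ec_conj (σ τ : Equiv.Perm (Fin 3)) : Ec K (τ⁻¹ * σ * τ) = Ec K σ := by
  unfold Ec
  set F : (Fin 3 → Om K) × (Fin 3 → Om K) → (Fin 3 → Om K) × (Fin 3 → Om K) :=
    fun x => (x.1 ∘ τ, x.2 ∘ τ) with hF
  have hinj : Function.Injective F := by
    intro x y h
    simp only [hF, Prod.mk.injEq] at h
    ext i
    · have := congrFun h.1 (τ⁻¹ i)
      simpa using this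
    · have := congrFun h.2 (τ⁻¹ i)
      simpa using this
  symm
  rw [← Set.ncard_image_of_injective _ hinj]
  symm
  congr 1
  ext x
  simp only [Set.mem_image, Set.mem_ofPred_eq, Rs]
  constructor
  · rintro ⟨h1, h2, h3, h4, h5⟩
    refine ⟨(x.1 ∘ (τ⁻¹ : Equiv.Perm (Fin 3)), x.2 ∘ (τ⁻¹ : Equiv.Perm (Fin 3))),
      ⟨?_, ?_, ?_, ?_, ?_⟩, ?_⟩
    · intro i
      have := h1 (τ⁻¹ i)
      simpa using this
    · intro i
      have := h2 (τ⁻¹ i)
      simpa using this
    · rw [← h3]
      exact Equiv.sum_comp τ⁻¹ x.2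
    · intro i
      exact h4 (τ⁻¹ i)
    · rintro ⟨u, hu1, hu2⟩
      apply h5
      refine ⟨u ∘ τ, ?_, ?_⟩
      · intro i
        have := hu1 (τ i)
        simpa using this
      · rw [← hu2]
        exact Equiv.sum_comp τ u
    · ext i <;> simp [hF]
  · rintro ⟨y, ⟨h1, h2, h3, h4, h5⟩, rfl⟩
    refine ⟨?_, ?_, ?_, ?_, ?_⟩
    · intro i
      simp only [hF, Function.comp_apply, Equiv.Perm.mul_apply]
      rw [h1]
      simp
    · intro i
      simp only [hF, Function.comp_apply, Equiv.Perm.mul_apply]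
      rw [h2]
      simp
    · rw [← h3]
      exact Equiv.sum_comp τ y.2
    · intro i
      exact h4 (τ i)
    · rintro ⟨u, hu1, hu2⟩
      apply h5
      refine ⟨u ∘ (τ⁻¹ : Equiv.Perm (Fin 3)), ?_, ?_⟩
      · intro i
        have := hu1 (τ⁻¹ i)
        simpa [hF] using this
      · rw [← hu2]
        exact Equiv.sum_comp τ⁻¹ u

/-! ### characterisation of special `u`, `β` -/

/-- the first family of special `β` -/
def m15fb (β : Fin 3 → Om K) : Prop := β 0 = β 1 ∧ β 0 ≠ 0 ∧ β 2 = 1
/-- the first family of special `u` -/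
def m15fu (u : Fin 3 → Om K) : Prop := u 0 + u 1 = 0 ∧ u 0 ≠ 0 ∧ u 2 = 1

omit [Fintype K] in
theorem m15_sp_iff {u : Fin 3 → Om K} (hu : ∑ i, u i = 1) :
    m15sp u ↔ m15fu u ∨ m15fu (u ∘ Equiv.swap 1 2) ∨ m15fu (u ∘ Equiv.swap 0 2) := by
  rw [Fin.sum_univ_three] at hu
  have e1 : (Equiv.swap (1 : Fin 3) 2) 0 = 0 := by decide
  have e2 : (Equiv.swap (1 : Fin 3) 2) 1 = 2 := by decide
  have e3 : (Equiv.swap (1 : Fin 3) 2) 2 = 1 := by decide
  have e4 : (Equiv.swap (0 : Fin 3) 2) 0 = 2 := by decide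
  have e5 : (Equiv.swap (0 : Fin 3) 2) 1 = 1 := by decide
  have e6 : (Equiv.swap (0 : Fin 3) 2) 2 = 0 := by decide
  simp only [m15fu, Function.comp_apply, e1, e2, e3, e4, e5, e6]
  constructor
  · rintro ⟨i, j, hij, h1, h2⟩
    fin_cases i <;> fin_cases j
    · exact absurd rfl hij
    · left
      have h1' : u 0 + u 1 = 0 := h1
      exact ⟨h1', h2, by linear_combination hu - h1'⟩
    · right; left
      have h1' : u 0 + u 2 = 0 := h1
      exact ⟨h1', h2, by linear_combination hu - h1'⟩
    · left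
      have h1' : u 1 + u 0 = 0 := h1
      refine ⟨by linear_combination h1', ?_, by linear_combination hu - h1'⟩
      intro h3
      apply h2
      show u 1 = 0
      linear_combination h1' - h3
    · exact absurd rfl hij
    · right; right
      have h1' : u 1 + u 2 = 0 := h1
      refine ⟨by linear_combination h1', ?_, by linear_combination hu - h1'⟩
      intro h3
      apply h2
      show u 1 = 0
      linear_combination h1' - h3
    · right; left
      have h1' : u 2 + u 0 = 0 := h1
      refine ⟨by linear_combination h1', ?_, by linear_combination hu - h1'⟩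
      intro h3
      apply h2
      show u 2 = 0
      linear_combination h1' - h3
    · right; right
      have h1' : u 2 + u 1 = 0 := h1
      exact ⟨h1', h2, by linear_combination hu - h1'⟩
    · exact absurd rfl hij
  · rintro (⟨h1, h2, _⟩ | ⟨h1, h2, _⟩ | ⟨h1, h2, _⟩)
    · exact ⟨0, 1, by decide, h1, h2⟩
    · exact ⟨0, 2, by decide, h1, h2⟩
    · exact ⟨2, 1, by decide, h1, h2⟩

omit [Fintype K] in
theorem m15_S_of_fb {β : Fin 3 → Om K} (h : m15fb β) : m15S β := by
  obtain ⟨h1, h2, h3⟩ := h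
  obtain ⟨r, hr⟩ := IsAlgClosed.exists_pow_nat_eq (β 0) (n := 2) (by norm_num)
  refine ⟨![r, -r, 1], ?_, ?_, ?_⟩
  · intro i
    fin_cases i
    · exact hr
    · show (-r) ^ 2 = β 1
      rw [← h1, ← hr]; ring
    · show (1 : Om K) ^ 2 = β 2
      rw [h3]; ring
  · simp [Fin.sum_univ_three]
  · refine ⟨0, 1, by decide, ?_, ?_⟩
    · simp
    · simp only [Matrix.cons_val_zero]
      rintro rfl
      apply h2
      rw [← hr]; ring

omit [Fintype K] in
theorem m15_S_comp {β : Fin 3 → Om K} (τ : Equiv.Perm (Fin 3)) (h : m15S (β ∘ τ)) : m15S β := by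
  obtain ⟨u, h1, h2, i, j, hij, h3, h4⟩ := h
  refine ⟨u ∘ (τ⁻¹ : Equiv.Perm (Fin 3)), ?_, ?_, τ i, τ j, ?_, ?_, ?_⟩
  · intro i
    have := h1 (τ⁻¹ i)
    simpa using this
  · rw [← h2]
    exact Equiv.sum_comp τ⁻¹ u
  · intro h
    exact hij (τ.injective h)
  · simpa using h3
  · simpa using h4

omit [Fintype K] in
theorem m15_S_iff {β : Fin 3 → Om K} :
    m15S β ↔ m15fb β ∨ m15fb (β ∘ Equiv.swap 1 2) ∨ m15fb (β ∘ Equiv.swap 0 2) := by
  constructor
  · rintro ⟨u, h1, h2, h3⟩
    rw [m15_sp_iff h2] at h3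
    have key : ∀ (τ : Equiv.Perm (Fin 3)), m15fu (u ∘ τ) → m15fb (β ∘ τ) := by
      rintro τ ⟨h4, h5, h6⟩
      simp only [Function.comp_apply] at h4 h5 h6
      refine ⟨?_, ?_, ?_⟩
      · simp only [Function.comp_apply]
        rw [← h1, ← h1, eq_neg_of_add_eq_zero_left h4]
        ring
      · simp only [Function.comp_apply]
        rw [← h1]
        exact pow_ne_zero 2 h5
      · simp only [Function.comp_apply]
        rw [← h1, h6]
        ring
    rcases h3 with h | h | h
    · left
      exact key 1 h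
    · right; left
      exact key _ h
    · right; right
      exact key _ h
  · rintro (h | h | h)
    · exact m15_S_of_fb h
    · exact m15_S_comp _ (m15_S_of_fb h)
    · exact m15_S_comp _ (m15_S_of_fb h)

/-! ### the three-cycle -/

theorem m15_card_pos : (0 : ℕ) < Fintype.card K := Fintype.card_pos

theorem m15_mem_R_cyc {x : Fin 3 → Om K} :
    x ∈ m15R K (finRotate 3) ↔ x 0 ^ Fintype.card K = x 1 ∧ x 1 ^ Fintype.card K = x 2 ∧
      x 2 ^ Fintype.card K = x 0 := by
  rw [m15_mem_R]
  have e0 : (finRotate 3) (0 : Fin 3) = 1 := by decide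
  have e1 : (finRotate 3) (1 : Fin 3) = 2 := by decide
  have e2 : (finRotate 3) (2 : Fin 3) = 0 := by decide
  constructor
  · intro h
    refine ⟨?_, ?_, ?_⟩
    · rw [h 0, e0]
    · rw [h 1, e1]
    · rw [h 2, e2]
  · rintro ⟨h0, h1, h2⟩ i
    fin_cases i
    · show x 0 ^ _ = x (finRotate 3 0)
      rw [e0, h0]
    · show x 1 ^ _ = x (finRotate 3 1)
      rw [e1, h1]
    · show x 2 ^ _ = x (finRotate 3 2)
      rw [e2, h2]

theorem m15_cyc_const {x : Fin 3 → Om K} (hx : x ∈ m15R K (finRotate 3)) {a : K} {i : Fin 3}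
    (h : x i = algebraMap K (Om K) a) : x = fun _ => algebraMap K (Om K) a := by
  rw [m15_mem_R_cyc] at hx
  obtain ⟨h0, h1, h2⟩ := hx
  have ha := m15_pow_alg a
  fin_cases i
  · have h' : x 0 = _ := h
    rw [h', ha] at h0
    rw [← h0, ha] at h1
    funext i
    fin_cases i
    · exact h'
    · exact h0.symm
    · exact h1.symm
  · have h' : x 1 = _ := h
    rw [h', ha] at h1
    rw [← h1, ha] at h2
    funext i
    fin_cases i
    · exact h2.symm
    · exact h'
    · exact h1.symm
  · have h' : x 2 = _ := h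
    rw [h', ha] at h2
    rw [← h2, ha] at h0
    funext i
    fin_cases i
    · exact h2.symm
    · exact h0.symm
    · exact h'

theorem m15_Z_cyc_zero : m15Z (finRotate 3) (0 : K) = (Fintype.card K : ℤ) ^ 2 - 1 := by
  have h : (m15T (finRotate 3) (0 : K)).filter (fun x => ∀ i, x i ≠ 0) =
      (m15T (finRotate 3) (0 : K)).erase 0 := by
    ext x
    simp only [Finset.mem_filter, Finset.mem_erase]
    constructor
    · rintro ⟨h1, h2⟩
      refine ⟨?_, h1⟩
      rintro rfl
      exact h2 0 rfl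
    · rintro ⟨h1, h2⟩
      refine ⟨h2, ?_⟩
      intro i hi
      apply h1
      have hR : x ∈ m15R K (finRotate 3) := (Finset.mem_filter.mp h2).1
      have := m15_cyc_const hR (a := 0) (i := i) (by rw [hi, map_zero])
      rw [this]
      funext i
      simp
  rw [m15Z, h, Finset.card_erase_of_mem, m15_card_T]
  · have := m15_card_pos (K := K)
    rw [Nat.cast_sub (Nat.one_le_pow _ _ this)]
    push_cast
    ring
  · rw [m15_mem_T]
    refine ⟨?_, by simp⟩
    intro i
    simp

theorem m15_Z_cyc {a : K} (ha : a ≠ 0) : m15Z (finRotate 3) a = (Fintype.card K : ℤ) ^ 2 := by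
  have h : (m15T (finRotate 3) a).filter (fun x => ∀ i, x i ≠ 0) = m15T (finRotate 3) a := by
    apply Finset.filter_true_of_mem
    intro x hx i hi
    have hR : x ∈ m15R K (finRotate 3) := (Finset.mem_filter.mp hx).1
    have hs := (m15_mem_T.mp hx).2
    have := m15_cyc_const hR (a := 0) (i := i) (by rw [hi, map_zero])
    rw [this] at hs
    simp only [map_zero, Finset.sum_const_zero] at hs
    exact ha ((map_eq_zero_iff _ (algebraMap K (Om K)).injective).mp hs.symm)
  rw [m15Z, h, m15_card_T]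
  push_cast
  ring

theorem m15_sum_Z (σ : Equiv.Perm (Fin 3)) (Z1 : ℤ) (h : ∀ a : K, a ≠ 0 → m15Z σ a = Z1) :
    ∑ a : K, m15Z σ a = m15Z σ (0 : K) + ((Fintype.card K : ℤ) - 1) * Z1 := by
  rw [← Finset.add_sum_erase _ _ (Finset.mem_univ (0 : K))]
  congr 1
  rw [Finset.sum_congr rfl (fun a ha => h a (Finset.ne_of_mem_erase ha)), Finset.sum_const,
    Finset.card_erase_of_mem (Finset.mem_univ _), Finset.card_univ, nsmul_eq_mul,
    Nat.cast_sub Fintype.card_pos]
  simp

theorem m15_Ec_cyc (h2 : (2 : K) ≠ 0) :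
    (Ec K (finRotate 3) : ℤ) = (Fintype.card K : ℤ) ^ 2 * ((Fintype.card K : ℤ) ^ 3 - 1)
      - (Fintype.card K : ℤ) ^ 2 * ((Fintype.card K : ℤ) ^ 2 - 1)
      - (Fintype.card K : ℤ) ^ 2 := by
  have h2' := m15_two h2
  rw [m15_Ec_decomp h2, m15_sum_R, m15_sum_T h2, m15_sum_Z _ _ (fun a ha => m15_Z_cyc ha),
    m15_Z_cyc_zero, m15_Z_cyc h2]
  have hw : (m15T (finRotate 3) (1 : K)).filter m15sp = ∅ := by
    apply Finset.filter_false_of_mem
    intro u hu hsp
    have hR : u ∈ m15R K (finRotate 3) := (Finset.mem_filter.mp hu).1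
    have hs := (m15_mem_T.mp hu).2
    rw [map_one] at hs
    have key : ∀ τ : Equiv.Perm (Fin 3), ¬ m15fu (u ∘ τ) := by
      rintro τ ⟨h4, h5, h6⟩
      have := m15_cyc_const hR (a := 1) (i := τ 2) (by rw [map_one]; exact h6)
      rw [this] at h4
      simp only [Function.comp_apply, map_one] at h4
      apply h2'
      linear_combination h4
    rw [m15_sp_iff hs] at hsp
    rcases hsp with h | h | h
    · exact key 1 h
    · exact key _ h
    · exact key _ h
  have hS : (m15R K (finRotate 3)).filter m15S = {fun _ => 1} := by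
    ext β
    simp only [Finset.mem_filter, Finset.mem_singleton]
    constructor
    · rintro ⟨hR, hS⟩
      have key : ∀ τ : Equiv.Perm (Fin 3), m15fb (β ∘ τ) → β = fun _ => 1 := by
        rintro τ ⟨h4, h5, h6⟩
        have := m15_cyc_const hR (a := 1) (i := τ 2) (by rw [map_one]; exact h6)
        rw [map_one] at this
        exact this
      rw [m15_S_iff] at hS
      rcases hS with h | h | h
      · exact key 1 h
      · exact key _ h
      · exact key _ h
    · rintro rfl
      refine ⟨?_, ?_⟩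
      · rw [m15_mem_R]
        intro i
        simp
      · apply m15_S_of_fb
        exact ⟨rfl, one_ne_zero, rfl⟩
  have hn : m15n (K := K) (finRotate 3) (fun _ => 1) = (Fintype.card K : ℤ) ^ 2 := by
    rw [m15n, Finset.filter_true_of_mem, m15_card_T]
    · push_cast
      ring
    · intro θ hθ i hi
      have hR : θ ∈ m15R K (finRotate 3) := (Finset.mem_filter.mp hθ).1
      have hs := (m15_mem_T.mp hθ).2
      rw [map_one, Fin.sum_univ_three] at hs
      rcases sq_eq_sq_iff_eq_or_eq_neg.mp (hi.trans (one_pow 2).symm) with h | h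
      · have := m15_cyc_const hR (a := 1) (i := i) (by rw [map_one]; exact h)
        rw [this] at hs
        simp only [map_one] at hs
        apply h2'
        linear_combination hs
      · have := m15_cyc_const hR (a := -1) (i := i) (by rw [map_neg, map_one]; exact h)
        rw [this] at hs
        simp only [map_neg, map_one] at hs
        have h4 : (2 : Om K) * 2 = 0 := by linear_combination -hs
        exact h2' (by simpa using h4)
  rw [hw, hS, Finset.sum_empty, Finset.sum_singleton, hn]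
  ring

/-! ### the transposition -/

theorem m15_mem_R_tr {x : Fin 3 → Om K} :
    x ∈ m15R K (Equiv.swap 0 1) ↔ x 0 ^ Fintype.card K = x 1 ∧ x 1 ^ Fintype.card K = x 0 ∧
      x 2 ^ Fintype.card K = x 2 := by
  rw [m15_mem_R]
  have e0 : (Equiv.swap 0 1) (0 : Fin 3) = 1 := by decide
  have e1 : (Equiv.swap 0 1) (1 : Fin 3) = 0 := by decide
  have e2 : (Equiv.swap 0 1) (2 : Fin 3) = 2 := by decide
  constructor
  · intro h
    refine ⟨?_, ?_, ?_⟩
    · rw [h 0, e0]
    · rw [h 1, e1]
    · rw [h 2, e2]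
  · rintro ⟨h0, h1, h2⟩ i
    fin_cases i
    · show x 0 ^ _ = x (Equiv.swap 0 1 0)
      rw [e0, h0]
    · show x 1 ^ _ = x (Equiv.swap 0 1 1)
      rw [e1, h1]
    · show x 2 ^ _ = x (Equiv.swap 0 1 2)
      rw [e2, h2]

theorem m15_mem_T_tr {a : K} {x : Fin 3 → Om K} :
    x ∈ m15T (Equiv.swap 0 1) a ↔ (x 0 ^ Fintype.card K = x 1 ∧ x 1 ^ Fintype.card K = x 0 ∧
      x 2 ^ Fintype.card K = x 2) ∧ x 0 + x 1 + x 2 = algebraMap K (Om K) a := by
  rw [m15T, Finset.mem_filter, m15_mem_R_tr, Fin.sum_univ_three]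

theorem m15_tr_third (a c : K) :
    ((m15T (Equiv.swap 0 1) a).filter (fun x => x 2 = algebraMap K (Om K) c)).card =
      Fintype.card K := by
  have h := ncard_Rs_trace (K := K) (Equiv.swap (0 : Fin 2) 1) (fun _ => 1)
    (by intro i; simp) (by norm_num) ⟨0, one_ne_zero⟩ (a - c)
  have e0 : (Equiv.swap 0 1) (0 : Fin 2) = 1 := by decide
  have e1 : (Equiv.swap 0 1) (1 : Fin 2) = 0 := by decide
  set F : (Fin 2 → Om K) → (Fin 3 → Om K) := fun r => ![r 0, r 1, algebraMap K (Om K) c] with hF
  have hinj : Function.Injective F := by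
    intro r s hrs
    have h0 := congrFun hrs 0
    have h1 := congrFun hrs 1
    simp only [hF, Matrix.cons_val_zero, Matrix.cons_val_one] at h0 h1
    funext i
    fin_cases i
    · exact h0
    · exact h1
  rw [← Set.ncard_coe_finset]
  have hS : (((m15T (Equiv.swap 0 1) a).filter (fun x => x 2 = algebraMap K (Om K) c) :
      Finset (Fin 3 → Om K)) : Set (Fin 3 → Om K)) =
      F '' {r | r ∈ Rs K (Equiv.swap (0 : Fin 2) 1) ∧
        ∑ i, (fun _ => (1 : Om K)) i * r i = algebraMap K (Om K) (a - c)} := by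
    ext x
    rw [Finset.mem_coe, Finset.mem_filter, m15_mem_T_tr]
    simp only [Set.mem_image, Set.mem_ofPred_eq, one_mul, Fin.sum_univ_two, Rs, map_sub]
    constructor
    · rintro ⟨⟨⟨h0, h1, h3⟩, h4⟩, h5⟩
      refine ⟨![x 0, x 1], ⟨?_, ?_⟩, ?_⟩
      · intro i
        fin_cases i
        · show x 0 ^ _ = ![x 0, x 1] (Equiv.swap 0 1 0)
          rw [e0]; exact h0
        · show x 1 ^ _ = ![x 0, x 1] (Equiv.swap 0 1 1)
          rw [e1]; exact h1
      · show x 0 + x 1 = _
        rw [← h4, h5]; ring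
      · funext i
        fin_cases i
        · rfl
        · rfl
        · exact h5.symm
    · rintro ⟨r, ⟨h0, h1⟩, rfl⟩
      have h00 := h0 0
      have h01 := h0 1
      rw [e0] at h00
      rw [e1] at h01
      refine ⟨⟨⟨h00, h01, m15_pow_alg c⟩, ?_⟩, rfl⟩
      show r 0 + r 1 + algebraMap K (Om K) c = _
      rw [h1]; ring
  rw [hS, Set.ncard_image_of_injective _ hinj, h]
  norm_num

theorem m15_tr_zero_iff {a : K} {x : Fin 3 → Om K} (hx : x ∈ m15T (Equiv.swap 0 1) a) :
    x 1 = 0 ↔ x 0 = 0 := by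
  rw [m15_mem_T_tr] at hx
  obtain ⟨⟨h0, h1, h3⟩, h4⟩ := hx
  constructor
  · intro h
    rw [← h1, h, zero_pow Fintype.card_ne_zero]
  · intro h
    rw [← h0, h, zero_pow Fintype.card_ne_zero]

theorem m15_Z_tr_aux (a : K) : m15Z (Equiv.swap 0 1) a = (Fintype.card K : ℤ) ^ 2 -
    Fintype.card K - 1 + (if a = 0 then 1 else 0) := by
  have hA : (m15T (Equiv.swap 0 1) a).filter (fun x => x 0 = 0) =
      {![0, 0, algebraMap K (Om K) a]} := by
    ext x
    rw [Finset.mem_filter, Finset.mem_singleton]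
    constructor
    · rintro ⟨hx, h0⟩
      have h1 := (m15_tr_zero_iff hx).mpr h0
      have h4 := (m15_mem_T_tr.mp hx).2
      rw [h0, h1] at h4
      funext i
      fin_cases i
      · exact h0
      · exact h1
      · show x 2 = algebraMap K (Om K) a
        rw [← h4]; ring
    · rintro rfl
      refine ⟨?_, rfl⟩
      rw [m15_mem_T_tr]
      refine ⟨⟨?_, ?_, ?_⟩, ?_⟩
      · show (0 : Om K) ^ _ = 0
        exact zero_pow Fintype.card_ne_zero
      · show (0 : Om K) ^ _ = 0
        exact zero_pow Fintype.card_ne_zero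
      · exact m15_pow_alg a
      · show (0 : Om K) + 0 + algebraMap K (Om K) a = _
        ring
  have hAB : (((m15T (Equiv.swap 0 1) a).filter (fun x => x 0 = 0 ∧ x 2 = 0)).card : ℤ) =
      if a = 0 then 1 else 0 := by
    split_ifs with ha
    · have : (m15T (Equiv.swap 0 1) a).filter (fun x => x 0 = 0 ∧ x 2 = 0) = {0} := by
        ext x
        rw [Finset.mem_filter, Finset.mem_singleton]
        constructor
        · rintro ⟨hx, h0, h3⟩
          have h1 := (m15_tr_zero_iff hx).mpr h0
          funext i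
          fin_cases i
          · exact h0
          · exact h1
          · exact h3
        · rintro rfl
          refine ⟨?_, rfl, rfl⟩
          rw [m15_mem_T, ha]
          refine ⟨?_, by simp⟩
          intro i
          simp
      rw [this]
      simp
    · have : (m15T (Equiv.swap 0 1) a).filter (fun x => x 0 = 0 ∧ x 2 = 0) = ∅ := by
        apply Finset.filter_false_of_mem
        rintro x hx ⟨h0, h3⟩
        have h1 := (m15_tr_zero_iff hx).mpr h0
        have h4 := (m15_mem_T_tr.mp hx).2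
        rw [h0, h1, h3] at h4
        apply ha
        apply (map_eq_zero_iff _ (algebraMap K (Om K)).injective).mp
        rw [← h4]; ring
      rw [this]
      simp
  have hB := m15_tr_third a (0 : K)
  rw [map_zero] at hB
  have hB' : (((m15T (Equiv.swap 0 1) a).filter (fun x => x 2 = 0)).card : ℤ) =
    Fintype.card K := by rw [hB]
  have hA' : (((m15T (Equiv.swap 0 1) a).filter (fun x => x 0 = 0)).card : ℤ) = 1 := by
    rw [hA]; simp
  have hT : ((m15T (Equiv.swap 0 1) a).card : ℤ) = (Fintype.card K : ℤ) ^ 2 := by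
    rw [m15_card_T]; push_cast; ring
  rw [← hAB, ← hT, ← hB', ← hA', m15Z]
  simp only [Finset.card_eq_sum_ones, Finset.sum_filter]
  push_cast
  rw [← Finset.sum_sub_distrib, ← Finset.sum_sub_distrib, ← Finset.sum_add_distrib]
  apply Finset.sum_congr rfl
  intro x hx
  have h1 := m15_tr_zero_iff hx
  by_cases h0 : x 0 = 0
  · by_cases h3 : x 2 = 0
    · rw [if_neg (fun h => h 0 h0)]
      simp [h0, h3]
    · rw [if_neg (fun h => h 0 h0)]
      simp [h0, h3]
  · by_cases h3 : x 2 = 0
    · rw [if_neg (fun h => h 2 h3)]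
      simp [h0, h3]
    · rw [if_pos]
      · simp [h0, h3]
      · intro i
        fin_cases i
        · exact h0
        · exact fun h => h0 (h1.mp h)
        · exact h3

theorem m15_tr_not_pm (h2 : (2 : K) ≠ 0) :
    (((m15T (Equiv.swap 0 1) (1 : K)).filter (fun x => x 2 ^ 2 ≠ 1)).card : ℤ) =
      (Fintype.card K : ℤ) ^ 2 - 2 * Fintype.card K := by
  have h2' := m15_two h2
  have hB := m15_tr_third (1 : K) (1 : K)
  have hC := m15_tr_third (1 : K) (-1 : K)
  rw [map_one] at hB
  rw [map_neg, map_one] at hC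
  have hB' : (((m15T (Equiv.swap 0 1) (1 : K)).filter (fun x => x 2 = 1)).card : ℤ) =
    Fintype.card K := by rw [hB]
  have hC' : (((m15T (Equiv.swap 0 1) (1 : K)).filter (fun x => x 2 = -1)).card : ℤ) =
    Fintype.card K := by rw [hC]
  have hT : ((m15T (Equiv.swap 0 1) (1 : K)).card : ℤ) = (Fintype.card K : ℤ) ^ 2 := by
    rw [m15_card_T]; push_cast; ring
  have h1 : (((m15T (Equiv.swap 0 1) (1 : K)).filter (fun x => x 2 ^ 2 ≠ 1)).card : ℤ) =
      ((m15T (Equiv.swap 0 1) (1 : K)).card : ℤ) -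
      (((m15T (Equiv.swap 0 1) (1 : K)).filter (fun x => x 2 = 1)).card : ℤ) -
      (((m15T (Equiv.swap 0 1) (1 : K)).filter (fun x => x 2 = -1)).card : ℤ) := by
    simp only [Finset.card_eq_sum_ones, Finset.sum_filter]
    push_cast
    rw [← Finset.sum_sub_distrib, ← Finset.sum_sub_distrib]
    apply Finset.sum_congr rfl
    intro x _
    have hne : (1 : Om K) ≠ -1 := by
      intro h
      apply h2'
      linear_combination h
    by_cases h0 : x 2 = 1
    · have : x 2 ≠ -1 := by rw [h0]; exact hne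
      simp [h0, hne]
    · by_cases h3 : x 2 = -1
      · simp [h3, hne.symm]
      · have : x 2 ^ 2 ≠ 1 := by
          intro h
          rcases sq_eq_sq_iff_eq_or_eq_neg.mp (h.trans (one_pow 2).symm) with h | h
          · exact h0 h
          · exact h3 h
        simp [h0, h3, this]
  rw [h1, hB', hC', hT]
  ring

/-- the special vectors `(b,b,1)` -/
def m15b (b : K) : Fin 3 → Om K := ![algebraMap K (Om K) b, algebraMap K (Om K) b, 1]

theorem m15_tr_n (h2 : (2 : K) ≠ 0) (b : K) :
    m15n (K := K) (Equiv.swap 0 1) (m15b b) = (Fintype.card K : ℤ) ^ 2 - 2 * Fintype.card K -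
      ((m15T (Equiv.swap 0 1) (1 : K)).filter
        (fun x => x 2 ^ 2 ≠ 1 ∧ x 0 ^ 2 = algebraMap K (Om K) b)).card := by
  rw [← m15_tr_not_pm h2, m15n]
  simp only [Finset.card_filter]
  push_cast
  rw [← Finset.sum_sub_distrib]
  apply Finset.sum_congr rfl
  intro x hx
  obtain ⟨⟨h0, h1, h3⟩, h4⟩ := m15_mem_T_tr.mp hx
  have h5 : x 1 ^ 2 = algebraMap K (Om K) b ↔ x 0 ^ 2 = algebraMap K (Om K) b := by
    constructor
    · intro h
      rw [← h1, ← pow_mul, mul_comm, pow_mul, h, m15_pow_alg]
    · intro h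
      rw [← h0, ← pow_mul, mul_comm, pow_mul, h, m15_pow_alg]
  by_cases h6 : x 2 ^ 2 = 1
  · rw [if_neg]
    · simp [h6]
    · intro h
      exact h 2 h6
  · by_cases h7 : x 0 ^ 2 = algebraMap K (Om K) b
    · rw [if_neg]
      · simp [h6, h7]
      · intro h
        exact h 0 h7
    · rw [if_pos]
      · simp [h6, h7]
      · intro i
        fin_cases i
        · exact h7
        · exact fun h => h7 (h5.mp h)
        · exact h6

theorem m15_tr_sum (h2 : (2 : K) ≠ 0) :
    ∑ b ∈ (Finset.univ : Finset K).erase 0, (((m15T (Equiv.swap 0 1) (1 : K)).filter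
        (fun x => x 2 ^ 2 ≠ 1 ∧ x 0 ^ 2 = algebraMap K (Om K) b)).card : ℤ) =
      (Fintype.card K : ℤ) - 2 := by
  have h2' := m15_two h2
  have h4' : (4 : Om K) ≠ 0 := by
    have : (4 : Om K) = 2 * 2 := by norm_num
    rw [this]
    exact mul_ne_zero h2' h2'
  have hainj := (algebraMap K (Om K)).injective
  have h1 : ∑ b ∈ (Finset.univ : Finset K).erase 0, (((m15T (Equiv.swap 0 1) (1 : K)).filter
        (fun x => x 2 ^ 2 ≠ 1 ∧ x 0 ^ 2 = algebraMap K (Om K) b)).card : ℤ) =
      (((((Finset.univ : Finset K).erase 0) ×ˢ (m15T (Equiv.swap 0 1) (1 : K))).filter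
        (fun y => y.2 2 ^ 2 ≠ 1 ∧ y.2 0 ^ 2 = algebraMap K (Om K) y.1)).card : ℤ) := by
    simp only [Finset.card_filter]
    rw [Finset.sum_product]
    push_cast
    rfl
  have h3 : (((Finset.univ : Finset K).erase 0).erase 1).card =
      ((((Finset.univ : Finset K).erase 0) ×ˢ (m15T (Equiv.swap 0 1) (1 : K))).filter
        (fun y => y.2 2 ^ 2 ≠ 1 ∧ y.2 0 ^ 2 = algebraMap K (Om K) y.1)).card := by
    apply Finset.card_bij (fun t _ => (t ^ 2, (![algebraMap K (Om K) t, algebraMap K (Om K) t,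
      algebraMap K (Om K) (1 - 2 * t)] : Fin 3 → Om K)))
    · intro t ht
      rw [Finset.mem_filter, Finset.mem_product, m15_mem_T_tr]
      simp only [Finset.mem_erase, Finset.mem_univ, and_true] at ht ⊢
      refine ⟨⟨pow_ne_zero 2 ht.2, ⟨m15_pow_alg t, m15_pow_alg t, m15_pow_alg _⟩, ?_⟩, ?_, ?_⟩
      · show algebraMap K (Om K) t + algebraMap K (Om K) t + algebraMap K (Om K) (1 - 2 * t) = _
        rw [← map_add, ← map_add]
        congr 1
        ring
      · show algebraMap K (Om K) (1 - 2 * t) ^ 2 ≠ 1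
        intro h
        rw [← map_pow, ← map_one (algebraMap K (Om K))] at h
        have h5 := hainj h
        have h6 : (2 * 2) * (t * (t - 1)) = 0 := by linear_combination h5
        rcases mul_eq_zero.mp h6 with h7 | h7
        · exact mul_ne_zero h2 h2 h7
        · rcases mul_eq_zero.mp h7 with h8 | h8
          · exact ht.2 h8
          · exact ht.1 (sub_eq_zero.mp h8)
      · show algebraMap K (Om K) t ^ 2 = _
        rw [map_pow]
    · intro t _ t' _ h
      simp only [Prod.mk.injEq] at h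
      exact hainj (congrFun h.2 0)
    · rintro ⟨b, x⟩ hx
      rw [Finset.mem_filter, Finset.mem_product, m15_mem_T_tr] at hx
      simp only [Finset.mem_erase, Finset.mem_univ, and_true] at hx
      obtain ⟨⟨hb, ⟨h0, h1, h3⟩, h4⟩, h5, h6⟩ := hx
      rw [map_one] at h4
      have h7 : x 1 ^ 2 = x 0 ^ 2 := by
        rw [h6, ← h0, ← pow_mul, mul_comm, pow_mul, h6, m15_pow_alg]
      rcases sq_eq_sq_iff_eq_or_eq_neg.mp h7 with h8 | h8
      · rw [h8] at h0
        obtain ⟨t, ht⟩ := pow_card_eq_iff.mp h0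
        have hx2 : x 2 = algebraMap K (Om K) (1 - 2 * t) := by
          rw [map_sub, map_mul, map_one, map_ofNat, ht]
          linear_combination h4 - h8
        refine ⟨t, ?_, ?_⟩
        · simp only [Finset.mem_erase, Finset.mem_univ, and_true]
          refine ⟨?_, ?_⟩
          · rintro rfl
            apply h5
            rw [hx2]
            rw [map_sub, map_mul, map_one, map_ofNat]
            ring
          · rintro rfl
            apply hb
            apply hainj
            rw [← h6, ← ht]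
            simp
        · ext i
          · apply hainj
            rw [← h6, ← ht, map_pow]
          · fin_cases i
            · exact ht
            · show algebraMap K (Om K) t = x 1
              rw [ht, h8]
            · exact hx2.symm
      · exfalso
        apply h5
        have : x 2 = 1 := by linear_combination h4 - h8
        rw [this]; ring
  rw [h1, ← h3, Finset.card_erase_of_mem, Finset.card_erase_of_mem (Finset.mem_univ _),
    Finset.card_univ]
  · have h5 : 2 ≤ Fintype.card K := Fintype.one_lt_card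
    omega
  · simp

theorem m15_tr_n_one (h2 : (2 : K) ≠ 0) :
    m15n (K := K) (Equiv.swap 0 1) (m15b 1) =
      (Fintype.card K : ℤ) ^ 2 - 2 * Fintype.card K - 1 := by
  have h2' := m15_two h2
  rw [m15_tr_n h2]
  have : (m15T (Equiv.swap 0 1) (1 : K)).filter
        (fun x => x 2 ^ 2 ≠ 1 ∧ x 0 ^ 2 = algebraMap K (Om K) 1) = {![-1, -1, 3]} := by
    ext x
    rw [Finset.mem_filter, m15_mem_T_tr, Finset.mem_singleton, map_one]
    constructor
    · rintro ⟨⟨⟨h0, h1, h3⟩, h4⟩, h5, h6⟩
      rcases sq_eq_sq_iff_eq_or_eq_neg.mp (h6.trans (one_pow 2).symm) with h | h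
      · exfalso
        rw [h, one_pow] at h0
        apply h5
        have : x 2 = -1 := by linear_combination h4 - h + h0
        rw [this]; ring
      · have h7 : x 1 = -1 := by
          rw [← h0, h, m15_pow_neg, one_pow]
        funext i
        fin_cases i
        · exact h
        · exact h7
        · show x 2 = 3
          linear_combination h4 - h - h7
    · rintro rfl
      refine ⟨⟨⟨?_, ?_, ?_⟩, ?_⟩, ?_, ?_⟩
      · show (-1 : Om K) ^ _ = -1
        rw [m15_pow_neg, one_pow]
      · show (-1 : Om K) ^ _ = -1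
        rw [m15_pow_neg, one_pow]
      · show (3 : Om K) ^ _ = 3
        have := m15_pow_alg (K := K) 3
        rwa [map_ofNat] at this
      · show (-1 : Om K) + -1 + 3 = 1
        norm_num
      · show (3 : Om K) ^ 2 ≠ 1
        intro h
        have : (2 : Om K) * (2 * 2) = 0 := by linear_combination h
        simp [h2'] at this
      · show (-1 : Om K) ^ 2 = 1
        norm_num
  rw [this]
  simp

theorem m15_Ec_tr (h2 : (2 : K) ≠ 0) :
    (Ec K (Equiv.swap 0 1) : ℤ) = (Fintype.card K : ℤ) ^ 2 *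
      (((Fintype.card K : ℤ) - 1) * ((Fintype.card K : ℤ) ^ 2 - 1))
      - (Fintype.card K : ℤ) * ((Fintype.card K : ℤ) - 1) *
        ((Fintype.card K : ℤ) ^ 2 - (Fintype.card K : ℤ) - 1)
      + ((Fintype.card K : ℤ) ^ 2 - (Fintype.card K : ℤ) - 3) := by
  have h2' := m15_two h2
  have hainj := (algebraMap K (Om K)).injective
  have hne : (1 : Om K) ≠ -1 := by
    intro h
    apply h2'
    linear_combination h
  have hZ : ∀ a : K, a ≠ 0 → m15Z (Equiv.swap 0 1) a =
      (Fintype.card K : ℤ) ^ 2 - Fintype.card K - 1 := by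
    intro a ha
    rw [m15_Z_tr_aux, if_neg ha]; ring
  rw [m15_Ec_decomp h2, m15_sum_R, m15_sum_T h2, m15_sum_Z _ _ hZ, hZ 2 h2, m15_Z_tr_aux,
    if_pos rfl]
  -- special u
  have hu0 : (![1, 1, -1] : Fin 3 → Om K) ∉ (m15T (Equiv.swap 0 1) (1 : K)).filter m15fu := by
    rw [Finset.mem_filter]
    rintro ⟨_, h, _⟩
    apply h2'
    have h' : (1 : Om K) + 1 = 0 := h
    linear_combination h'
  have hw : (m15T (Equiv.swap 0 1) (1 : K)).filter m15sp =
      insert (![1, 1, -1] : Fin 3 → Om K) ((m15T (Equiv.swap 0 1) (1 : K)).filter m15fu) := by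
    ext u
    rw [Finset.mem_filter, Finset.mem_insert, Finset.mem_filter]
    constructor
    · rintro ⟨hu, hsp⟩
      obtain ⟨⟨h0, h1, h3⟩, h4⟩ := m15_mem_T_tr.mp hu
      have hs := (m15_mem_T.mp hu).2
      rw [map_one] at hs h4
      rw [m15_sp_iff hs] at hsp
      rcases hsp with h | h | h
      · right
        exact ⟨hu, h⟩
      · left
        obtain ⟨h5, h6, h7⟩ := h
        have h5' : u 0 + u 2 = 0 := h5
        have h7' : u 1 = 1 := h7
        rw [h7', one_pow] at h1
        funext i
        fin_cases i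
        · exact h1.symm
        · exact h7'
        · show u 2 = -1
          linear_combination h5' + h1
      · left
        obtain ⟨h5, h6, h7⟩ := h
        have h5' : u 2 + u 1 = 0 := h5
        have h7' : u 0 = 1 := h7
        rw [h7', one_pow] at h0
        funext i
        fin_cases i
        · exact h7'
        · exact h0.symm
        · show u 2 = -1
          linear_combination h5' + h0
    · rintro (rfl | ⟨hu, hf⟩)
      · refine ⟨?_, 0, 2, by decide, ?_, ?_⟩
        · rw [m15_mem_T_tr, map_one]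
          refine ⟨⟨?_, ?_, ?_⟩, ?_⟩
          · show (1 : Om K) ^ _ = 1
            rw [one_pow]
          · show (1 : Om K) ^ _ = 1
            rw [one_pow]
          · show (-1 : Om K) ^ _ = -1
            rw [m15_pow_neg, one_pow]
          · show (1 : Om K) + 1 + -1 = 1
            ring
        · show (1 : Om K) + -1 = 0
          ring
        · exact one_ne_zero
      · refine ⟨hu, ?_⟩
        have hs := (m15_mem_T.mp hu).2
        rw [map_one] at hs
        rw [m15_sp_iff hs]
        left
        exact hf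
  have hcard : (((m15T (Equiv.swap 0 1) (1 : K)).filter m15fu).card : ℤ) =
      (Fintype.card K : ℤ) - 1 := by
    have h1 : (m15T (Equiv.swap 0 1) (1 : K)).filter m15fu =
        ((m15T (Equiv.swap 0 1) (1 : K)).filter
          (fun x => x 2 = algebraMap K (Om K) 1)).erase ![0, 0, 1] := by
      ext u
      rw [Finset.mem_erase, Finset.mem_filter, Finset.mem_filter, map_one]
      constructor
      · rintro ⟨hu, h5, h6, h7⟩
        refine ⟨?_, hu, h7⟩
        rintro rfl
        exact h6 rfl
      · rintro ⟨hne', hu, h7⟩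
        have h4 := (m15_mem_T_tr.mp hu).2
        rw [map_one] at h4
        have h5 : u 0 + u 1 = 0 := by linear_combination h4 - h7
        refine ⟨hu, h5, ?_, h7⟩
        intro h0
        apply hne'
        funext i
        fin_cases i
        · exact h0
        · show u 1 = 0
          linear_combination h5 - h0
        · exact h7
    rw [h1, Finset.card_erase_of_mem, m15_tr_third, Nat.cast_sub Fintype.card_pos]
    · simp
    · rw [Finset.mem_filter, m15_mem_T_tr, map_one]
      refine ⟨⟨⟨?_, ?_, ?_⟩, ?_⟩, rfl⟩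
      · show (0 : Om K) ^ _ = 0
        exact zero_pow Fintype.card_ne_zero
      · show (0 : Om K) ^ _ = 0
        exact zero_pow Fintype.card_ne_zero
      · show (1 : Om K) ^ _ = 1
        rw [one_pow]
      · show (0 : Om K) + 0 + 1 = 1
        ring
  have hwsum : ∑ u ∈ (m15T (Equiv.swap 0 1) (1 : K)).filter m15fu,
      m15n (K := K) (Equiv.swap 0 1) (u ^ 2) =
      ((Fintype.card K : ℤ) - 1) * ((Fintype.card K : ℤ) ^ 2 - 2 * Fintype.card K) := by
    have h1 : ∀ u ∈ (m15T (Equiv.swap 0 1) (1 : K)).filter m15fu,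
        m15n (K := K) (Equiv.swap 0 1) (u ^ 2) =
          (Fintype.card K : ℤ) ^ 2 - 2 * Fintype.card K := by
      intro u hu
      rw [Finset.mem_filter] at hu
      obtain ⟨hu, h5, h6, h7⟩ := hu
      obtain ⟨⟨h0, h1, h3⟩, h4⟩ := m15_mem_T_tr.mp hu
      have hc : (u 0 ^ 2) ^ Fintype.card K = u 0 ^ 2 := by
        rw [← pow_mul, mul_comm, pow_mul, h0]
        linear_combination (u 1 - u 0) * h5
      obtain ⟨b, hb⟩ := pow_card_eq_iff.mp hc
      have hub : u ^ 2 = m15b b := by
        funext i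
        fin_cases i
        · exact hb.symm
        · show u 1 ^ 2 = algebraMap K (Om K) b
          rw [hb]
          linear_combination (u 1 - u 0) * h5
        · show u 2 ^ 2 = 1
          rw [h7]; ring
      rw [hub, m15_tr_n h2]
      have : (m15T (Equiv.swap 0 1) (1 : K)).filter
        (fun x => x 2 ^ 2 ≠ 1 ∧ x 0 ^ 2 = algebraMap K (Om K) b) = ∅ := by
        apply Finset.filter_false_of_mem
        rintro x hx ⟨h8, h9⟩
        obtain ⟨⟨h0', h1', h3'⟩, h4'⟩ := m15_mem_T_tr.mp hx
        rw [map_one] at h4'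
        have h10 : x 1 = - x 0 := by
          rcases sq_eq_sq_iff_eq_or_eq_neg.mp (h9.trans hb) with h | h
          · rw [← h0', h, h0]
            linear_combination h5
          · rw [← h0', h, m15_pow_neg, h0]
            linear_combination -h5
        apply h8
        have : x 2 = 1 := by linear_combination h4' - h10
        rw [this]; ring
      rw [this]
      simp
    rw [Finset.sum_congr rfl h1, Finset.sum_const, nsmul_eq_mul, hcard]
  have hone : m15n (K := K) (Equiv.swap 0 1) ((![1, 1, -1] : Fin 3 → Om K) ^ 2) =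
      (Fintype.card K : ℤ) ^ 2 - 2 * Fintype.card K - 1 := by
    rw [← m15_tr_n_one h2]
    congr 1
    funext i
    fin_cases i
    · show (1 : Om K) ^ 2 = algebraMap K (Om K) 1
      simp
    · show (1 : Om K) ^ 2 = algebraMap K (Om K) 1
      simp
    · show (-1 : Om K) ^ 2 = 1
      ring
  -- special β
  have hS : (m15R K (Equiv.swap 0 1)).filter m15S =
      ((Finset.univ : Finset K).erase 0).image m15b := by
    ext β
    rw [Finset.mem_filter, Finset.mem_image]
    constructor
    · rintro ⟨hR, hS⟩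
      obtain ⟨h0, h1, h3⟩ := m15_mem_R_tr.mp hR
      rw [m15_S_iff] at hS
      rcases hS with h | h | h
      · obtain ⟨h5, h6, h7⟩ := h
        rw [← h5] at h0
        obtain ⟨b, hb⟩ := pow_card_eq_iff.mp h0
        refine ⟨b, ?_, ?_⟩
        · simp only [Finset.mem_erase, Finset.mem_univ, and_true]
          rintro rfl
          apply h6
          rw [← hb, map_zero]
        · funext i
          fin_cases i
          · exact hb
          · show algebraMap K (Om K) b = β 1
            rw [hb, h5]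
          · exact h7.symm
      · obtain ⟨h5, h6, h7⟩ := h
        have h5' : β 0 = β 2 := h5
        have h7' : β 1 = 1 := h7
        rw [h7', one_pow] at h1
        refine ⟨1, by simp, ?_⟩
        funext i
        fin_cases i
        · show algebraMap K (Om K) 1 = β 0
          rw [map_one, h1]
        · show algebraMap K (Om K) 1 = β 1
          rw [map_one, h7']
        · show 1 = β 2
          rw [← h5', h1]
      · obtain ⟨h5, h6, h7⟩ := h
        have h5' : β 2 = β 1 := h5
        have h7' : β 0 = 1 := h7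
        rw [h7', one_pow] at h0
        refine ⟨1, by simp, ?_⟩
        funext i
        fin_cases i
        · show algebraMap K (Om K) 1 = β 0
          rw [map_one, h7']
        · show algebraMap K (Om K) 1 = β 1
          rw [map_one, h0]
        · show 1 = β 2
          rw [h5', h0]
    · rintro ⟨b, hb, rfl⟩
      simp only [Finset.mem_erase, Finset.mem_univ, and_true] at hb
      refine ⟨?_, ?_⟩
      · rw [m15_mem_R_tr]
        exact ⟨m15_pow_alg b, m15_pow_alg b, one_pow _⟩
      · apply m15_S_of_fb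
        refine ⟨rfl, ?_, rfl⟩
        show algebraMap K (Om K) b ≠ 0
        rw [Ne, map_eq_zero_iff _ hainj]
        exact hb
  have hSsum : ∑ β ∈ (m15R K (Equiv.swap 0 1)).filter m15S,
      m15n (K := K) (Equiv.swap 0 1) β =
      ((Fintype.card K : ℤ) - 1) * ((Fintype.card K : ℤ) ^ 2 - 2 * Fintype.card K) -
        ((Fintype.card K : ℤ) - 2) := by
    rw [hS, Finset.sum_image]
    · rw [← m15_tr_sum h2, Finset.sum_congr rfl (fun b _ => m15_tr_n h2 b),
        Finset.sum_sub_distrib, Finset.sum_const, Finset.card_erase_of_mem (Finset.mem_univ _),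
        Finset.card_univ, nsmul_eq_mul, Nat.cast_sub Fintype.card_pos]
      simp
    · intro b _ b' _ h
      exact hainj (congrFun h 0)
  rw [hw, Finset.sum_insert hu0, hwsum, hone, hSsum]
  ring

/-! ### the identity -/

theorem m15_GL (A B D : Finset K) (t : K) :
    ∑ x : K, ∑ y : K, (if x ∉ A ∧ y ∉ B ∧ t - x - y ∉ D then (1 : ℤ) else 0) =
      (Fintype.card K : ℤ) ^ 2 - Fintype.card K * (A.card + B.card + D.card) +
      (A.card * B.card + A.card * D.card + B.card * D.card) -
      ∑ x ∈ A, ∑ y ∈ B, (if t - x - y ∈ D then (1 : ℤ) else 0) := by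
  set a : K → ℤ := fun x => if x ∈ A then 1 else 0 with ha
  set b : K → ℤ := fun x => if x ∈ B then 1 else 0 with hb
  set d : K → ℤ := fun x => if x ∈ D then 1 else 0 with hd
  have sa : ∑ x, a x = A.card := by
    simp [ha]
  have sb : ∑ x, b x = B.card := by
    simp [hb]
  have sd : ∀ s : K, ∑ y, d (s - y) = D.card := by
    intro s
    have := Equiv.sum_comp (Equiv.subLeft s) d
    simp only [Equiv.subLeft_apply] at this
    rw [this]
    simp [hd]
  have h1 : ∀ x y, (if x ∉ A ∧ y ∉ B ∧ t - x - y ∉ D then (1 : ℤ) else 0) =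
      (1 - a x) * (1 - b y) * (1 - d (t - x - y)) := by
    intro x y
    simp only [ha, hb, hd]
    by_cases h1 : x ∈ A <;> by_cases h2 : y ∈ B <;> by_cases h3 : t - x - y ∈ D <;>
      simp [h1, h2, h3]
  have h3 : ∀ x, ∑ y : K, (1 - a x) * (1 - b y) * (1 - d (t - x - y)) =
      (1 - a x) * ((Fintype.card K : ℤ) - B.card - D.card) +
        ∑ y, b y * d (t - x - y) - ∑ y, a x * (b y * d (t - x - y)) := by
    intro x
    have h4 : ∀ y, (1 - a x) * (1 - b y) * (1 - d (t - x - y)) =
      (1 - a x) - (1 - a x) * b y - (1 - a x) * d (t - x - y) + b y * d (t - x - y)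
        - a x * (b y * d (t - x - y)) := by
      intro y; ring
    simp_rw [h4]
    rw [Finset.sum_sub_distrib, Finset.sum_add_distrib, Finset.sum_sub_distrib,
      Finset.sum_sub_distrib, ← Finset.mul_sum, ← Finset.mul_sum, sb, sd, Finset.sum_const,
      Finset.card_univ, nsmul_eq_mul]
    ring
  have h5 : ∑ x : K, ∑ y : K, b y * d (t - x - y) = B.card * D.card := by
    rw [Finset.sum_comm]
    have : ∀ y, ∑ x : K, b y * d (t - x - y) = b y * D.card := by
      intro y
      rw [← Finset.mul_sum]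
      congr 1
      rw [← sd (t - y)]
      apply Finset.sum_congr rfl
      intro x _
      congr 1
      ring
    rw [Finset.sum_congr rfl (fun y _ => this y), ← Finset.sum_mul, sb]
  have h6 : ∑ x : K, ∑ y : K, a x * (b y * d (t - x - y)) =
      ∑ x ∈ A, ∑ y ∈ B, (if t - x - y ∈ D then (1 : ℤ) else 0) := by
    have h7 : ∀ x, ∑ y : K, a x * (b y * d (t - x - y)) =
        if x ∈ A then ∑ y ∈ B, (if t - x - y ∈ D then (1 : ℤ) else 0) else 0 := by
      intro x
      rw [← Finset.mul_sum]
      by_cases hx : x ∈ A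
      · simp only [ha, hb, hd, if_pos hx, one_mul, ite_mul, zero_mul]
        rw [Finset.sum_ite_mem, Finset.univ_inter]
      · simp [ha, hx]
    rw [Finset.sum_congr rfl (fun x _ => h7 x), Finset.sum_ite_mem, Finset.univ_inter]
  simp_rw [h1, h3]
  rw [Finset.sum_sub_distrib, Finset.sum_add_distrib, h5, h6, ← Finset.sum_mul,
    Finset.sum_sub_distrib, sa, Finset.sum_const, Finset.card_univ, nsmul_eq_mul]
  ring

/-- parametrisation of `T 1 a` -/
def m15p (a : K) (x y : K) : Fin 3 → Om K :=
  ![algebraMap K (Om K) x, algebraMap K (Om K) y, algebraMap K (Om K) (a - x - y)]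

theorem m15_sum_T_one (a : K) (f : (Fin 3 → Om K) → ℤ) :
    ∑ θ ∈ m15T 1 a, f θ = ∑ x : K, ∑ y : K, f (m15p a x y) := by
  have hainj := (algebraMap K (Om K)).injective
  rw [← Finset.sum_product']
  symm
  apply Finset.sum_bij (fun (z : K × K) _ => m15p a z.1 z.2)
  · intro z _
    rw [m15_mem_T]
    refine ⟨?_, ?_⟩
    · intro i
      fin_cases i
      · exact m15_pow_alg _
      · exact m15_pow_alg _
      · exact m15_pow_alg _
    · rw [Fin.sum_univ_three]
      show algebraMap K (Om K) z.1 + algebraMap K (Om K) z.2 +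
        algebraMap K (Om K) (a - z.1 - z.2) = _
      rw [← map_add, ← map_add]
      congr 1
      ring
  · intro z _ w _ h
    have h0 := hainj (congrFun h 0)
    have h1 := hainj (congrFun h 1)
    exact Prod.ext h0 h1
  · intro θ hθ
    rw [m15_mem_T] at hθ
    obtain ⟨h, hs⟩ := hθ
    obtain ⟨x, hx⟩ := pow_card_eq_iff.mp (h 0)
    obtain ⟨y, hy⟩ := pow_card_eq_iff.mp (h 1)
    refine ⟨(x, y), by simp, ?_⟩
    rw [Fin.sum_univ_three] at hs
    funext i
    fin_cases i
    · exact hx
    · exact hy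
    · show algebraMap K (Om K) (a - x - y) = θ 2
      rw [map_sub, map_sub, hx, hy, ← hs]
      ring
  · intro z _
    rfl

theorem m15_Z_one (a : K) : m15Z 1 a = (Fintype.card K : ℤ) ^ 2 - 3 * Fintype.card K + 3 -
    (if a = 0 then 1 else 0) := by
  have hainj := (algebraMap K (Om K)).injective
  have h1 : m15Z 1 a = ∑ x : K, ∑ y : K, (if x ∉ ({0} : Finset K) ∧ y ∉ ({0} : Finset K) ∧
      a - x - y ∉ ({0} : Finset K) then (1 : ℤ) else 0) := by
    rw [m15Z, Finset.card_filter]
    push_cast
    rw [m15_sum_T_one]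
    apply Finset.sum_congr rfl
    intro x _
    apply Finset.sum_congr rfl
    intro y _
    congr 1
    simp only [Finset.mem_singleton, eq_iff_iff]
    constructor
    · intro h
      refine ⟨?_, ?_, ?_⟩
      · rintro rfl
        exact h 0 (map_zero _)
      · rintro rfl
        exact h 1 (map_zero _)
      · intro h3
        apply h 2
        show algebraMap K (Om K) (a - x - y) = 0
        rw [h3, map_zero]
    · rintro ⟨h3, h4, h5⟩ i
      fin_cases i
      · show algebraMap K (Om K) x ≠ 0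
        rwa [Ne, map_eq_zero_iff _ hainj]
      · show algebraMap K (Om K) y ≠ 0
        rwa [Ne, map_eq_zero_iff _ hainj]
      · show algebraMap K (Om K) (a - x - y) ≠ 0
        rwa [Ne, map_eq_zero_iff _ hainj]
  rw [h1, m15_GL]
  simp only [Finset.card_singleton, Finset.sum_singleton, sub_zero, Finset.mem_singleton]
  push_cast
  ring

/-- square roots of `b` -/
def m15s (b : K) : Finset K := Finset.univ.filter (fun x => x ^ 2 = b)

theorem m15_mem_s {b x : K} : x ∈ m15s b ↔ x ^ 2 = b := by simp [m15s]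

theorem m15_s_sq (h2 : (2 : K) ≠ 0) {r : K} (hr : r ≠ 0) : m15s (r ^ 2) = {r, -r} ∧ r ≠ -r := by
  refine ⟨?_, ?_⟩
  · ext x
    rw [m15_mem_s, Finset.mem_insert, Finset.mem_singleton]
    exact sq_eq_sq_iff_eq_or_eq_neg
  · intro h
    have : 2 * r = 0 := by linear_combination h
    rcases mul_eq_zero.mp this with h | h
    · exact h2 h
    · exact hr h

theorem m15_one_n (c0 c1 c2 : K) :
    m15n (K := K) 1 ![algebraMap K (Om K) c0, algebraMap K (Om K) c1, algebraMap K (Om K) c2] =
      (Fintype.card K : ℤ) ^ 2 - Fintype.card K *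
        ((m15s c0).card + (m15s c1).card + (m15s c2).card) +
      ((m15s c0).card * (m15s c1).card + (m15s c0).card * (m15s c2).card +
        (m15s c1).card * (m15s c2).card) -
      ∑ x ∈ m15s c0, ∑ y ∈ m15s c1, (if 1 - x - y ∈ m15s c2 then (1 : ℤ) else 0) := by
  have hainj := (algebraMap K (Om K)).injective
  rw [← m15_GL, m15n, Finset.card_filter]
  push_cast
  rw [m15_sum_T_one]
  apply Finset.sum_congr rfl
  intro x _
  apply Finset.sum_congr rfl
  intro y _
  congr 1
  simp only [m15_mem_s, eq_iff_iff]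
  have key : ∀ s c : K, (algebraMap K (Om K) s) ^ 2 = algebraMap K (Om K) c ↔ s ^ 2 = c := by
    intro s c
    rw [← map_pow]
    exact hainj.eq_iff
  constructor
  · intro h
    refine ⟨?_, ?_, ?_⟩
    · intro h3
      exact h 0 ((key _ _).mpr h3)
    · intro h3
      exact h 1 ((key _ _).mpr h3)
    · intro h3
      exact h 2 ((key _ _).mpr h3)
  · rintro ⟨h3, h4, h5⟩ i
    fin_cases i
    · exact fun h => h3 ((key _ _).mp h)
    · exact fun h => h4 ((key _ _).mp h)
    · exact fun h => h5 ((key _ _).mp h)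

/-- the function `g` -/
theorem m15_one_g (h2 : (2 : K) ≠ 0) {b : K} (hb : b ≠ 0) :
    m15n (K := K) 1 (m15b b) = (Fintype.card K : ℤ) ^ 2 - 2 * Fintype.card K -
      (2 * Fintype.card K - 5) * (m15s b).card - (if b = 1 then 1 else 0) := by
  have h1 : m15b b = ![algebraMap K (Om K) b, algebraMap K (Om K) b, algebraMap K (Om K) 1] := by
    rw [m15b, map_one]
  have hs1 := m15_s_sq h2 (one_ne_zero (α := K))
  rw [one_pow] at hs1
  have hc1 : (m15s (1 : K)).card = 2 := by
    rw [hs1.1, Finset.card_pair hs1.2]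
  rw [h1, m15_one_n, hc1]
  by_cases hsq : ∃ r : K, r ^ 2 = b
  · obtain ⟨r, rfl⟩ := hsq
    have hr : r ≠ 0 := by
      rintro rfl
      apply hb; ring
    obtain ⟨hs, hne⟩ := m15_s_sq h2 hr
    have hc : (m15s (r ^ 2)).card = 2 := by
      rw [hs, Finset.card_pair hne]
    have hT : ∑ x ∈ m15s (r ^ 2), ∑ y ∈ m15s (r ^ 2), (if 1 - x - y ∈ m15s 1 then (1 : ℤ) else 0)
        = 2 + (if r ^ 2 = 1 then 1 else 0) := by
      rw [hs, Finset.sum_pair hne, Finset.sum_pair hne, Finset.sum_pair hne]
      simp only [m15_mem_s]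
      have e1 : (1 - r - -r) ^ 2 = (1 : K) := by ring
      have e2 : (1 - -r - r) ^ 2 = (1 : K) := by ring
      rw [if_pos e1, if_pos e2]
      have e3 : (1 - r - r) ^ 2 = (1 : K) ↔ r = 1 := by
        constructor
        · intro h
          have : (2 * 2) * (r * (r - 1)) = 0 := by linear_combination h
          rcases mul_eq_zero.mp this with h7 | h7
          · exact absurd h7 (mul_ne_zero h2 h2)
          · rcases mul_eq_zero.mp h7 with h8 | h8
            · exact absurd h8 hr
            · exact sub_eq_zero.mp h8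
        · rintro rfl
          ring
      have e4 : (1 - -r - -r) ^ 2 = (1 : K) ↔ r = -1 := by
        constructor
        · intro h
          have : (2 * 2) * (r * (r + 1)) = 0 := by linear_combination h
          rcases mul_eq_zero.mp this with h7 | h7
          · exact absurd h7 (mul_ne_zero h2 h2)
          · rcases mul_eq_zero.mp h7 with h8 | h8
            · exact absurd h8 hr
            · exact eq_neg_of_add_eq_zero_left h8
        · rintro rfl
          ring
      have e5 : r ^ 2 = 1 ↔ r = 1 ∨ r = -1 := by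
        constructor
        · intro h
          exact sq_eq_sq_iff_eq_or_eq_neg.mp (h.trans (one_pow 2).symm)
        · rintro (rfl | rfl) <;> ring
      simp only [e3, e4, e5]
      have e6 : ¬ (r = 1 ∧ r = -1) := by
        rintro ⟨rfl, h⟩
        exact hs1.2 h
      by_cases h7 : r = 1
      · have : ¬ r = -1 := fun h8 => e6 ⟨h7, h8⟩
        rw [if_pos h7, if_neg this, if_pos (Or.inl h7)]
        norm_num
      · by_cases h8 : r = -1
        · rw [if_neg h7, if_pos h8, if_pos (Or.inr h8)]
          norm_num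
        · rw [if_neg h7, if_neg h8, if_neg (by tauto)]
          norm_num
    rw [hT, hc]
    push_cast
    ring
  · have hs : m15s b = ∅ := by
      ext x
      rw [m15_mem_s]
      simp only [Finset.notMem_empty, iff_false]
      exact fun h => hsq ⟨x, h⟩
    have hb1 : b ≠ 1 := by
      rintro rfl
      exact hsq ⟨1, by ring⟩
    rw [hs, if_neg hb1]
    simp
    ring

theorem m15_one_n_comp (τ : Equiv.Perm (Fin 3)) (β : Fin 3 → Om K) :
    m15n (K := K) 1 (β ∘ τ) = m15n (K := K) 1 β := by
  rw [m15n, m15n]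
  congr 1
  apply Finset.card_bij (fun θ _ => θ ∘ (τ⁻¹ : Equiv.Perm (Fin 3)))
  · intro θ hθ
    rw [Finset.mem_filter, m15_mem_T] at hθ ⊢
    obtain ⟨⟨h1, h2⟩, h3⟩ := hθ
    refine ⟨⟨?_, ?_⟩, ?_⟩
    · intro i
      exact h1 (τ⁻¹ i)
    · rw [← h2]
      exact Equiv.sum_comp τ⁻¹ θ
    · intro i
      have := h3 (τ⁻¹ i)
      simpa using this
  · intro θ _ θ' _ h
    funext i
    have := congrFun h (τ i)
    simpa using this
  · intro θ hθ
    rw [Finset.mem_filter, m15_mem_T] at hθ
    obtain ⟨⟨h1, h2⟩, h3⟩ := hθ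
    refine ⟨θ ∘ τ, ?_, ?_⟩
    · rw [Finset.mem_filter, m15_mem_T]
      refine ⟨⟨?_, ?_⟩, ?_⟩
      · intro i
        exact h1 (τ i)
      · rw [← h2]
        exact Equiv.sum_comp τ θ
      · intro i
        exact h3 (τ i)
    · funext i
      simp

theorem m15_R_comp (τ : Equiv.Perm (Fin 3)) (f : (Fin 3 → Om K) → ℤ) :
    ∑ β ∈ m15R K 1, f (β ∘ τ) = ∑ β ∈ m15R K 1, f β := by
  apply Finset.sum_bij (fun β _ => β ∘ τ)
  · intro β hβ
    rw [m15_mem_R] at hβ ⊢
    intro i
    exact hβ (τ i)
  · intro β _ β' _ h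
    funext i
    have := congrFun h (τ⁻¹ i)
    simpa using this
  · intro β hβ
    refine ⟨β ∘ (τ⁻¹ : Equiv.Perm (Fin 3)), ?_, ?_⟩
    · rw [m15_mem_R] at hβ ⊢
      intro i
      exact hβ (τ⁻¹ i)
    · funext i
      simp
  · intro β _
    rfl

theorem m15_T_comp (τ : Equiv.Perm (Fin 3)) (a : K) (f : (Fin 3 → Om K) → ℤ) :
    ∑ β ∈ m15T 1 a, f (β ∘ τ) = ∑ β ∈ m15T 1 a, f β := by
  apply Finset.sum_bij (fun β _ => β ∘ τ)
  · intro β hβ
    rw [m15_mem_T] at hβ ⊢
    refine ⟨?_, ?_⟩
    · intro i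
      exact hβ.1 (τ i)
    · rw [← hβ.2]
      exact Equiv.sum_comp τ β
  · intro β _ β' _ h
    funext i
    have := congrFun h (τ⁻¹ i)
    simpa using this
  · intro β hβ
    rw [m15_mem_T] at hβ
    refine ⟨β ∘ (τ⁻¹ : Equiv.Perm (Fin 3)), ?_, ?_⟩
    · rw [m15_mem_T]
      refine ⟨?_, ?_⟩
      · intro i
        exact hβ.1 (τ⁻¹ i)
      · rw [← hβ.2]
        exact Equiv.sum_comp τ⁻¹ β
    · funext i
      simp
  · intro β _
    rfl

theorem m15_fb_sum : ∑ β ∈ m15R K 1, (if m15fb β then m15n (K := K) 1 β else 0) =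
    ∑ b ∈ (Finset.univ : Finset K).erase 0, m15n (K := K) 1 (m15b b) := by
  have hainj := (algebraMap K (Om K)).injective
  rw [← Finset.sum_filter]
  have hS : (m15R K 1).filter m15fb = ((Finset.univ : Finset K).erase 0).image m15b := by
    ext β
    rw [Finset.mem_filter, Finset.mem_image, m15_mem_R]
    constructor
    · rintro ⟨hR, h5, h6, h7⟩
      obtain ⟨b, hb⟩ := pow_card_eq_iff.mp (hR 0)
      refine ⟨b, ?_, ?_⟩
      · simp only [Finset.mem_erase, Finset.mem_univ, and_true]
        rintro rfl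
        apply h6
        rw [map_zero] at hb
        exact hb.symm
      · funext i
        fin_cases i
        · exact hb
        · show algebraMap K (Om K) b = β 1
          rw [← h5]; exact hb
        · exact h7.symm
    · rintro ⟨b, hb, rfl⟩
      simp only [Finset.mem_erase, Finset.mem_univ, and_true] at hb
      refine ⟨?_, rfl, ?_, rfl⟩
      · intro i
        fin_cases i
        · exact m15_pow_alg b
        · exact m15_pow_alg b
        · exact one_pow _
      · show algebraMap K (Om K) b ≠ 0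
        rw [Ne, map_eq_zero_iff _ hainj]
        exact hb
  rw [hS, Finset.sum_image]
  intro b _ b' _ h
  exact hainj (congrFun h 0)

theorem m15_fu_sum : ∑ u ∈ m15T 1 (1 : K), (if m15fu u then m15n (K := K) 1 (u ^ 2) else 0) =
    ∑ r ∈ (Finset.univ : Finset K).erase 0, m15n (K := K) 1 (m15b (r ^ 2)) := by
  have hainj := (algebraMap K (Om K)).injective
  rw [← Finset.sum_filter]
  symm
  apply Finset.sum_bij (fun r _ => (![algebraMap K (Om K) r, algebraMap K (Om K) (-r), 1] :
    Fin 3 → Om K))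
  · intro r hr
    simp only [Finset.mem_erase, Finset.mem_univ, and_true] at hr
    rw [Finset.mem_filter, m15_mem_T]
    refine ⟨⟨?_, ?_⟩, ?_, ?_, rfl⟩
    · intro i
      fin_cases i
      · exact m15_pow_alg _
      · exact m15_pow_alg _
      · exact one_pow _
    · rw [Fin.sum_univ_three]
      show algebraMap K (Om K) r + algebraMap K (Om K) (-r) + 1 = _
      rw [map_neg, map_one]; ring
    · show algebraMap K (Om K) r + algebraMap K (Om K) (-r) = 0
      rw [map_neg]; ring
    · show algebraMap K (Om K) r ≠ 0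
      rw [Ne, map_eq_zero_iff _ hainj]
      exact hr
  · intro r _ r' _ h
    exact hainj (congrFun h 0)
  · intro u hu
    rw [Finset.mem_filter, m15_mem_T] at hu
    obtain ⟨⟨hR, _⟩, h5, h6, h7⟩ := hu
    obtain ⟨r, hr⟩ := pow_card_eq_iff.mp (hR 0)
    have hr' : algebraMap K (Om K) r = u 0 := hr
    refine ⟨r, ?_, ?_⟩
    · simp only [Finset.mem_erase, Finset.mem_univ, and_true]
      rintro rfl
      apply h6
      rw [← hr', map_zero]
    · funext i
      fin_cases i
      · exact hr
      · show algebraMap K (Om K) (-r) = u 1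
        rw [map_neg, hr']
        linear_combination -h5
      · exact h7.symm
  · intro r _
    congr 1
    funext i
    fin_cases i
    · show algebraMap K (Om K) (r ^ 2) = (algebraMap K (Om K) r) ^ 2
      rw [map_pow]
    · show algebraMap K (Om K) (r ^ 2) = (algebraMap K (Om K) (-r)) ^ 2
      rw [map_pow, map_neg]; ring
    · show (1 : Om K) = 1 ^ 2
      ring

/-- the vector `(1,1,-1)` -/
def m15e (u : Fin 3 → Om K) : Prop := u 0 = 1 ∧ u 1 = 1 ∧ u 2 = -1

theorem m15_e_sum : ∑ u ∈ m15T 1 (1 : K), (if m15e u then m15n (K := K) 1 (u ^ 2) else 0) =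
    m15n (K := K) 1 (m15b 1) := by
  rw [← Finset.sum_filter]
  have : (m15T 1 (1 : K)).filter m15e = {![1, 1, -1]} := by
    ext u
    rw [Finset.mem_filter, Finset.mem_singleton, m15_mem_T]
    constructor
    · rintro ⟨_, h0, h1, h3⟩
      funext i
      fin_cases i
      · exact h0
      · exact h1
      · exact h3
    · rintro rfl
      refine ⟨⟨?_, ?_⟩, rfl, rfl, rfl⟩
      · intro i
        fin_cases i
        · exact one_pow _
        · exact one_pow _
        · show (-1 : Om K) ^ _ = -1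
          rw [m15_pow_neg, one_pow]
      · rw [Fin.sum_univ_three, map_one]
        show (1 : Om K) + 1 + -1 = 1
        ring
  rw [this, Finset.sum_singleton]
  congr 1
  funext i
  fin_cases i
  · show (1 : Om K) ^ 2 = algebraMap K (Om K) 1
    simp
  · show (1 : Om K) ^ 2 = algebraMap K (Om K) 1
    simp
  · show (-1 : Om K) ^ 2 = 1
    ring

theorem m15_one_Nsp : ∑ β ∈ (m15R K 1).filter m15S, m15n (K := K) 1 β =
    3 * ∑ b ∈ (Finset.univ : Finset K).erase 0, m15n (K := K) 1 (m15b b) -
      2 * m15n (K := K) 1 (m15b 1) := by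
  rw [Finset.sum_filter]
  have e1 : (Equiv.swap (1 : Fin 3) 2) 0 = 0 := by decide
  have e2 : (Equiv.swap (1 : Fin 3) 2) 1 = 2 := by decide
  have e3 : (Equiv.swap (1 : Fin 3) 2) 2 = 1 := by decide
  have e4 : (Equiv.swap (0 : Fin 3) 2) 0 = 2 := by decide
  have e5 : (Equiv.swap (0 : Fin 3) 2) 1 = 1 := by decide
  have e6 : (Equiv.swap (0 : Fin 3) 2) 2 = 0 := by decide
  have h1 : ∀ β ∈ m15R K 1, (if m15S β then m15n (K := K) 1 β else 0) =
      (if m15fb β then m15n (K := K) 1 β else 0) +
      (if m15fb (β ∘ Equiv.swap 1 2) then m15n (K := K) 1 (β ∘ Equiv.swap 1 2) else 0) +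
      (if m15fb (β ∘ Equiv.swap 0 2) then m15n (K := K) 1 (β ∘ Equiv.swap 0 2) else 0) -
      2 * (if β = fun _ => 1 then m15n (K := K) 1 β else 0) := by
    intro β _
    rw [m15_one_n_comp, m15_one_n_comp, m15_S_iff]
    have hab : m15fb β ∧ m15fb (β ∘ Equiv.swap 1 2) ↔ β = fun _ => 1 := by
      simp only [m15fb, Function.comp_apply, e1, e2, e3]
      constructor
      · rintro ⟨⟨h1, h2, h3⟩, h4, h5, h6⟩
        funext i
        fin_cases i
        · show β 0 = 1
          rw [h4, h3]
        · exact h6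
        · exact h3
      · rintro rfl
        simp
    have hac : m15fb β ∧ m15fb (β ∘ Equiv.swap 0 2) ↔ β = fun _ => 1 := by
      simp only [m15fb, Function.comp_apply, e4, e5, e6]
      constructor
      · rintro ⟨⟨h1, h2, h3⟩, h4, h5, h6⟩
        funext i
        fin_cases i
        · exact h6
        · show β 1 = 1
          rw [← h1, h6]
        · exact h3
      · rintro rfl
        simp
    have hbc : m15fb (β ∘ Equiv.swap 1 2) ∧ m15fb (β ∘ Equiv.swap 0 2) ↔ β = fun _ => 1 := by
      simp only [m15fb, Function.comp_apply, e1, e2, e3, e4, e5, e6]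
      constructor
      · rintro ⟨⟨h1, h2, h3⟩, h4, h5, h6⟩
        funext i
        fin_cases i
        · exact h6
        · exact h3
        · show β 2 = 1
          rw [← h1, h6]
      · rintro rfl
        simp
    by_cases hA : m15fb β <;> by_cases hB : m15fb (β ∘ Equiv.swap 1 2) <;>
      by_cases hC : m15fb (β ∘ Equiv.swap 0 2)
    · have hD := hab.mp ⟨hA, hB⟩
      simp only [hA, hB, hC, true_or, if_true, if_pos hD]
      ring
    · have hD := hab.mp ⟨hA, hB⟩
      exact absurd (hac.mpr hD).2 hC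
    · have hD := hac.mp ⟨hA, hC⟩
      exact absurd (hab.mpr hD).2 hB
    · have hD : ¬ β = fun _ => 1 := fun h => hB (hab.mpr h).2
      simp only [hA, hB, hC, true_or, if_true, if_false, if_neg hD]
      ring
    · have hD := hbc.mp ⟨hB, hC⟩
      exact absurd (hab.mpr hD).1 hA
    · have hD : ¬ β = fun _ => 1 := fun h => hA (hab.mpr h).1
      simp only [hA, hB, hC, true_or, or_true, if_true, if_false, if_neg hD]
      ring
    · have hD : ¬ β = fun _ => 1 := fun h => hA (hab.mpr h).1
      simp only [hA, hB, hC, or_true, if_true, if_false, if_neg hD]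
      ring
    · have hD : ¬ β = fun _ => 1 := fun h => hA (hab.mpr h).1
      simp only [hA, hB, hC, or_false, if_false, if_neg hD]
      ring
  rw [Finset.sum_congr rfl h1, Finset.sum_sub_distrib, Finset.sum_add_distrib,
    Finset.sum_add_distrib,
    m15_R_comp (K := K) (Equiv.swap 1 2) (fun β => if m15fb β then m15n (K := K) 1 β else 0),
    m15_R_comp (K := K) (Equiv.swap 0 2) (fun β => if m15fb β then m15n (K := K) 1 β else 0),
    m15_fb_sum, ← Finset.mul_sum, Finset.sum_ite_eq', if_pos]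
  · have : m15b (K := K) 1 = fun _ => 1 := by
      funext i
      fin_cases i
      · exact map_one _
      · exact map_one _
      · rfl
    rw [this]
    ring
  · rw [m15_mem_R]
    intro i
    exact one_pow _

theorem m15_one_Wsp (h2 : (2 : K) ≠ 0) :
    ∑ u ∈ (m15T 1 (1 : K)).filter m15sp, m15n (K := K) 1 (u ^ 2) =
    3 * ∑ r ∈ (Finset.univ : Finset K).erase 0, m15n (K := K) 1 (m15b (r ^ 2)) -
      3 * m15n (K := K) 1 (m15b 1) := by
  have h2' := m15_two h2
  rw [Finset.sum_filter]
  have e1 : (Equiv.swap (1 : Fin 3) 2) 0 = 0 := by decide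
  have e2 : (Equiv.swap (1 : Fin 3) 2) 1 = 2 := by decide
  have e3 : (Equiv.swap (1 : Fin 3) 2) 2 = 1 := by decide
  have e4 : (Equiv.swap (0 : Fin 3) 2) 0 = 2 := by decide
  have e5 : (Equiv.swap (0 : Fin 3) 2) 1 = 1 := by decide
  have e6 : (Equiv.swap (0 : Fin 3) 2) 2 = 0 := by decide
  have hcomp : ∀ (u : Fin 3 → Om K) (τ : Equiv.Perm (Fin 3)),
      m15n (K := K) 1 ((u ∘ τ) ^ 2) = m15n (K := K) 1 (u ^ 2) := by
    intro u τ
    rw [← m15_one_n_comp τ (u ^ 2)]
    rfl
  have h1 : ∀ u ∈ m15T 1 (1 : K), (if m15sp u then m15n (K := K) 1 (u ^ 2) else 0) =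
      (if m15fu u then m15n (K := K) 1 (u ^ 2) else 0) +
      (if m15fu (u ∘ Equiv.swap 1 2) then m15n (K := K) 1 ((u ∘ Equiv.swap 1 2) ^ 2) else 0) +
      (if m15fu (u ∘ Equiv.swap 0 2) then m15n (K := K) 1 ((u ∘ Equiv.swap 0 2) ^ 2) else 0) -
      (if m15e u then m15n (K := K) 1 (u ^ 2) else 0) -
      (if m15e (u ∘ Equiv.swap 1 2) then m15n (K := K) 1 ((u ∘ Equiv.swap 1 2) ^ 2) else 0) -
      (if m15e (u ∘ Equiv.swap 0 2) then m15n (K := K) 1 ((u ∘ Equiv.swap 0 2) ^ 2) else 0) := by
    intro u hu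
    have hs := (m15_mem_T.mp hu).2
    rw [map_one] at hs
    rw [hcomp, hcomp, m15_sp_iff hs]
    have hab : m15e (u ∘ Equiv.swap 0 2) ↔ m15fu u ∧ m15fu (u ∘ Equiv.swap 1 2) := by
      simp only [m15fu, m15e, Function.comp_apply, e1, e2, e3, e4, e5, e6]
      constructor
      · rintro ⟨h1, h2, h3⟩
        rw [h1, h2, h3]
        simp
      · rintro ⟨⟨h1, h2, h3⟩, h4, h5, h6⟩
        exact ⟨h3, h6, by linear_combination h1 - h6⟩
    have hac : m15e (u ∘ Equiv.swap 1 2) ↔ m15fu u ∧ m15fu (u ∘ Equiv.swap 0 2) := by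
      simp only [m15fu, m15e, Function.comp_apply, e1, e2, e3, e4, e5, e6]
      constructor
      · rintro ⟨h1, h2, h3⟩
        rw [h1, h2, h3]
        simp
      · rintro ⟨⟨h1, h2, h3⟩, h4, h5, h6⟩
        exact ⟨h6, h3, by linear_combination h1 - h6⟩
    have hbc : m15e u ↔ m15fu (u ∘ Equiv.swap 1 2) ∧ m15fu (u ∘ Equiv.swap 0 2) := by
      simp only [m15fu, m15e, Function.comp_apply, e1, e2, e3, e4, e5, e6]
      constructor
      · rintro ⟨h1, h2, h3⟩
        rw [h1, h2, h3]
        simp
      · rintro ⟨⟨h1, h2, h3⟩, h4, h5, h6⟩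
        exact ⟨h6, h3, by linear_combination h1 - h6⟩
    have habc : ¬ (m15fu u ∧ m15fu (u ∘ Equiv.swap 1 2) ∧ m15fu (u ∘ Equiv.swap 0 2)) := by
      simp only [m15fu, Function.comp_apply, e1, e2, e3, e4, e5, e6]
      rintro ⟨⟨h1, h2, h3⟩, ⟨h4, h5, h6⟩, ⟨h7, h8, h9⟩⟩
      apply h2'
      linear_combination h7 - h3 - h6
    simp only [hab, hac, hbc]
    by_cases hA : m15fu u <;> by_cases hB : m15fu (u ∘ Equiv.swap 1 2) <;>
      by_cases hC : m15fu (u ∘ Equiv.swap 0 2)
    · exact absurd ⟨hA, hB, hC⟩ habc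
    all_goals simp [hA, hB, hC]
  rw [Finset.sum_congr rfl h1]
  simp only [Finset.sum_sub_distrib, Finset.sum_add_distrib]
  rw [
    m15_T_comp (K := K) (Equiv.swap 1 2) 1 (fun u => if m15fu u then m15n (K := K) 1 (u ^ 2) else 0),
    m15_T_comp (K := K) (Equiv.swap 0 2) 1 (fun u => if m15fu u then m15n (K := K) 1 (u ^ 2) else 0),
    m15_T_comp (K := K) (Equiv.swap 1 2) 1 (fun u => if m15e u then m15n (K := K) 1 (u ^ 2) else 0),
    m15_T_comp (K := K) (Equiv.swap 0 2) 1 (fun u => if m15e u then m15n (K := K) 1 (u ^ 2) else 0),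
    m15_fu_sum, m15_e_sum]
  ring

theorem m15_sum_s : ∑ b ∈ (Finset.univ : Finset K).erase 0, ((m15s b).card : ℤ) =
    (Fintype.card K : ℤ) - 1 := by
  have h := Finset.card_eq_sum_card_fiberwise (f := fun x : K => x ^ 2)
    (s := (Finset.univ : Finset K).erase 0) (t := (Finset.univ : Finset K).erase 0) (by
      intro x hx
      simp only [Finset.coe_erase, Finset.coe_univ, Set.mem_sdiff, Set.mem_univ,
        Set.mem_singleton_iff, true_and] at hx ⊢
      exact pow_ne_zero 2 hx)
  rw [Finset.card_erase_of_mem (Finset.mem_univ _), Finset.card_univ] at h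
  have h3 : ((Fintype.card K - 1 : ℕ) : ℤ) = (Fintype.card K : ℤ) - 1 := by
    rw [Nat.cast_sub Fintype.card_pos]
    simp
  rw [← h3, h]
  push_cast
  apply Finset.sum_congr rfl
  intro b hb
  congr 2
  ext x
  simp only [Finset.mem_erase, Finset.mem_univ, and_true] at hb
  rw [m15_mem_s, Finset.mem_filter]
  simp only [Finset.mem_erase, Finset.mem_univ, and_true]
  constructor
  · intro h
    refine ⟨?_, h⟩
    rintro rfl
    apply hb
    rw [← h]; ring
  · exact fun h => h.2

theorem m15_Ec_one (h2 : (2 : K) ≠ 0) :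
    (Ec K 1 : ℤ) = (Fintype.card K : ℤ) ^ 2 * ((Fintype.card K : ℤ) - 1) ^ 3
      - ((Fintype.card K : ℤ) - 1) * ((Fintype.card K : ℤ) - 2) *
        ((Fintype.card K : ℤ) ^ 2 - 3 * (Fintype.card K : ℤ) + 3)
      - (7 * (Fintype.card K : ℤ) ^ 2 - 27 * (Fintype.card K : ℤ) + 27) := by
  have hZ : ∀ a : K, a ≠ 0 → m15Z 1 a =
      (Fintype.card K : ℤ) ^ 2 - 3 * Fintype.card K + 3 := by
    intro a ha
    rw [m15_Z_one, if_neg ha]; ring
  have hcard : (((Finset.univ : Finset K).erase 0).card : ℤ) = (Fintype.card K : ℤ) - 1 := by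
    rw [Finset.card_erase_of_mem (Finset.mem_univ _), Finset.card_univ,
      Nat.cast_sub Fintype.card_pos]
    simp
  have hs1 := m15_s_sq h2 (one_ne_zero (α := K))
  rw [one_pow] at hs1
  have hc1 : (m15s (1 : K)).card = 2 := by
    rw [hs1.1, Finset.card_pair hs1.2]
  have hg1 : m15n (K := K) 1 (m15b 1) = (Fintype.card K : ℤ) ^ 2 - 6 * Fintype.card K + 9 := by
    rw [m15_one_g h2 one_ne_zero, hc1, if_pos rfl]
    push_cast
    ring
  have hgb : ∑ b ∈ (Finset.univ : Finset K).erase 0, m15n (K := K) 1 (m15b b) =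
      ((Fintype.card K : ℤ) - 1) * ((Fintype.card K : ℤ) ^ 2 - 2 * Fintype.card K) -
        (2 * Fintype.card K - 5) * ((Fintype.card K : ℤ) - 1) - 1 := by
    rw [Finset.sum_congr rfl (fun b hb => m15_one_g h2 (Finset.ne_of_mem_erase hb)),
      Finset.sum_sub_distrib, Finset.sum_sub_distrib, Finset.sum_const, nsmul_eq_mul, hcard,
      ← Finset.mul_sum, m15_sum_s, Finset.sum_ite_eq', if_pos (by simp)]
  have hgr : ∑ r ∈ (Finset.univ : Finset K).erase 0, m15n (K := K) 1 (m15b (r ^ 2)) =
      ((Fintype.card K : ℤ) - 1) * ((Fintype.card K : ℤ) ^ 2 - 6 * Fintype.card K + 10) - 2 := by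
    have h3 : ∀ r ∈ (Finset.univ : Finset K).erase 0, m15n (K := K) 1 (m15b (r ^ 2)) =
        ((Fintype.card K : ℤ) ^ 2 - 6 * Fintype.card K + 10) - (if r ^ 2 = 1 then 1 else 0) := by
      intro r hr
      have hr' := Finset.ne_of_mem_erase hr
      obtain ⟨h4, h5⟩ := m15_s_sq h2 hr'
      rw [m15_one_g h2 (pow_ne_zero 2 hr'), h4, Finset.card_pair h5]
      push_cast
      ring
    rw [Finset.sum_congr rfl h3, Finset.sum_sub_distrib, Finset.sum_const, nsmul_eq_mul, hcard]
    congr 1
    rw [← Finset.sum_filter, Finset.sum_const]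
    have : ((Finset.univ : Finset K).erase 0).filter (fun r => r ^ 2 = 1) = m15s 1 := by
      ext r
      rw [m15_mem_s, Finset.mem_filter]
      simp only [Finset.mem_erase, Finset.mem_univ, and_true]
      constructor
      · exact fun h => h.2
      · intro h
        refine ⟨?_, h⟩
        rintro rfl
        apply zero_ne_one (α := K)
        rw [← h]; ring
    rw [this, hc1]
    norm_num
  rw [m15_Ec_decomp h2, m15_sum_R, m15_sum_T h2, m15_sum_Z _ _ hZ, hZ 2 h2, m15_Z_one,
    if_pos rfl, m15_one_Nsp, m15_one_Wsp h2, hgb, hgr, hg1]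
  ring

end

section
variable (K : Type*) [Field K] [Fintype K]

/-- M15 -/
theorem sum_Ec (h2 : (2 : K) ≠ 0) :
    ∑ σ : Equiv.Perm (Fin 3), (Equiv.Perm.sign σ : ℤ) * (Ec K σ : ℤ) =
      6 * (((Fintype.card K : ℤ) - 1) * ((Fintype.card K : ℤ) - 2) ^ 2) := by
  have huniv : (Finset.univ : Finset (Equiv.Perm (Fin 3))) =
      {1, Equiv.swap 0 1, Equiv.swap 0 2, Equiv.swap 1 2, finRotate 3, (finRotate 3)⁻¹} := by
    decide
  have h02 : Ec K (Equiv.swap 0 2) = Ec K (Equiv.swap 0 1) := by
    have : (Equiv.swap 0 2 : Equiv.Perm (Fin 3)) =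
      (Equiv.swap 1 2)⁻¹ * Equiv.swap 0 1 * Equiv.swap 1 2 := by decide
    rw [this, m15_Ec_conj]
  have h12 : Ec K (Equiv.swap 1 2) = Ec K (Equiv.swap 0 1) := by
    have : (Equiv.swap 1 2 : Equiv.Perm (Fin 3)) =
      (Equiv.swap 0 2)⁻¹ * Equiv.swap 0 1 * Equiv.swap 0 2 := by decide
    rw [this, m15_Ec_conj]
  have hinv : Ec K (finRotate 3)⁻¹ = Ec K (finRotate 3) := by
    have : (finRotate 3)⁻¹ =
      (Equiv.swap 0 1)⁻¹ * finRotate 3 * Equiv.swap 0 1 := by decide
    rw [this, m15_Ec_conj]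
  have s0 : Equiv.Perm.sign (1 : Equiv.Perm (Fin 3)) = 1 := by decide
  have s1 : Equiv.Perm.sign (Equiv.swap 0 1 : Equiv.Perm (Fin 3)) = -1 := by decide
  have s2 : Equiv.Perm.sign (Equiv.swap 0 2 : Equiv.Perm (Fin 3)) = -1 := by decide
  have s3 : Equiv.Perm.sign (Equiv.swap 1 2 : Equiv.Perm (Fin 3)) = -1 := by decide
  have s4 : Equiv.Perm.sign (finRotate 3 : Equiv.Perm (Fin 3)) = 1 := by decide
  have s5 : Equiv.Perm.sign ((finRotate 3)⁻¹ : Equiv.Perm (Fin 3)) = 1 := by decide
  rw [huniv, Finset.sum_insert (by decide), Finset.sum_insert (by decide),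
    Finset.sum_insert (by decide), Finset.sum_insert (by decide), Finset.sum_insert (by decide),
    Finset.sum_singleton, h02, h12, hinv, s0, s1, s2, s3, s4, s5, m15_Ec_one h2, m15_Ec_tr h2,
    m15_Ec_cyc h2]
  push_cast
  ring

end

end
end Pool.Agent.Helper19.DP1
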