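import Pool.Agent.Helper19.DP1.Sums
import Pool.Agent.Helper19.DP1.Core6b
import Pool.Agent.Helper19.DP1.Core7c

/-! M16: four singular points in general position; reduction to the case where the pencil of
conics has its base line over infinity. -/

namespace Pool.Agent.Helper19.DP1
open Polynomial Classical
noncomputable section

section
variable {L : Type*} [Field L]

/-- existence of a pair `(l,m)` of forms of degree 1 and 2 with `l(p) v(p) + m(p) = 0` at four
points -/
theorem m16_exists_pair (v : Option L → L) (T : Finset (Option L)) (hT : T.card = 4) :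
    ∃ l m : L[X], l.natDegree ≤ 1 ∧ m.natDegree ≤ 2 ∧ l ≠ 0 ∧
      ∀ p ∈ T, ev 1 l p * v p + ev 2 m p = 0 := by
  let mk1 : (Fin 2 → L) → L[X] := fun c => C (c 0) + C (c 1) * X
  let mk2 : (Fin 3 → L) → L[X] := fun c => C (c 0) + C (c 1) * X + C (c 2) * X ^ 2
  have hd1 : ∀ c, (mk1 c).natDegree ≤ 1 := by
    intro c
    simp only [mk1]
    compute_degree
  have hd2 : ∀ c, (mk2 c).natDegree ≤ 2 := by
    intro c
    simp only [mk2]
    compute_degree
  have ha1 : ∀ c c', mk1 (c + c') = mk1 c + mk1 c' := by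
    intro c c'; simp only [mk1, Pi.add_apply, C_add]; ring
  have ha2 : ∀ c c', mk2 (c + c') = mk2 c + mk2 c' := by
    intro c c'; simp only [mk2, Pi.add_apply, C_add]; ring
  have hs1 : ∀ (a : L) c, mk1 (a • c) = C a * mk1 c := by
    intro a c; simp only [mk1, Pi.smul_apply, smul_eq_mul, C_mul]; ring
  have hs2 : ∀ (a : L) c, mk2 (a • c) = C a * mk2 c := by
    intro a c; simp only [mk2, Pi.smul_apply, smul_eq_mul, C_mul]; ring
  let Ψ : ((Fin 2 → L) × (Fin 3 → L)) →ₗ[L] (T → L) :=
    { toFun := fun c p => ev 1 (mk1 c.1) p * v p + ev 2 (mk2 c.2) p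
      map_add' := by
        intro c c'
        funext p
        simp only [Prod.fst_add, Prod.snd_add, ha1, ha2, ev_add, Pi.add_apply]
        ring
      map_smul' := by
        intro a c
        funext p
        simp only [Prod.smul_fst, Prod.smul_snd, hs1, hs2, ev_C_mul, Pi.smul_apply, smul_eq_mul,
          RingHom.id_apply]
        ring }
  have hker : LinearMap.ker Ψ ≠ ⊥ := by
    apply LinearMap.ker_ne_bot_of_finrank_lt
    rw [Module.finrank_prod, Module.finrank_fintype_fun_eq_card, Module.finrank_fintype_fun_eq_card,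
      Module.finrank_fintype_fun_eq_card, Fintype.card_fin, Fintype.card_fin, Fintype.card_coe, hT]
    norm_num
  obtain ⟨c, hc, hc0⟩ := (Submodule.ne_bot_iff _).1 hker
  have hz : ∀ p ∈ T, ev 1 (mk1 c.1) p * v p + ev 2 (mk2 c.2) p = 0 := by
    intro p hp
    have := congrFun (LinearMap.mem_ker.1 hc) ⟨p, hp⟩
    simpa [Ψ] using this
  refine ⟨mk1 c.1, mk2 c.2, hd1 _, hd2 _, ?_, hz⟩
  intro hl
  apply hc0
  have hm : mk2 c.2 = 0 := by
    apply eq_zero_of_ev (hd2 c.2) (T := T) (by rw [hT]; norm_num)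
    intro p hp
    have := hz p hp
    rw [hl, ev_zero, zero_mul, zero_add] at this
    exact this
  have e1 : c.1 = 0 := by
    funext i
    fin_cases i
    · have := congrArg (fun P => P.coeff 0) hl
      simpa [mk1] using this
    · have := congrArg (fun P => P.coeff 1) hl
      simpa [mk1, coeff_C] using this
  have e2 : c.2 = 0 := by
    funext i
    fin_cases i
    · have := congrArg (fun P => P.coeff 0) hm
      simpa [mk2] using this
    · have := congrArg (fun P => P.coeff 1) hm
      simpa [mk2, coeff_C, coeff_X_pow] using this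
    · have := congrArg (fun P => P.coeff 2) hm
      simpa [mk2, coeff_C, coeff_X] using this
  exact Prod.ext e1 e2

/-- uniqueness up to scalars: the zero of `l` is determined -/
theorem m16_unique {v : Option L → L} {T : Finset (Option L)} (hT : T.card = 4)
    (hgen : ∀ T' ⊆ T, T'.card = 3 → ¬ ∃ s : L[X], s.natDegree ≤ 1 ∧ ∀ p ∈ T', ev 1 s p = v p)
    {m m' : L[X]} {r r' : Option L} (hm : m.natDegree ≤ 2) (hm' : m'.natDegree ≤ 2)
    (h : ∀ p ∈ T, ev 1 (lin r) p * v p + ev 2 m p = 0)
    (h' : ∀ p ∈ T, ev 1 (lin r') p * v p + ev 2 m' p = 0) : r = r' ∧ m = m' := by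
  have hD : lin r * m' - lin r' * m = 0 := by
    apply eq_zero_of_ev (n := 1 + 2) (T := T) _ (by rw [hT]; norm_num)
    · intro p hp
      rw [ev_sub, ev_mul (natDegree_lin r) hm', ev_mul (natDegree_lin r') hm]
      have h1 := h p hp
      have h2 := h' p hp
      have e1 : ev 2 m p = -(ev 1 (lin r) p * v p) := by linear_combination h1
      have e2 : ev 2 m' p = -(ev 1 (lin r') p * v p) := by linear_combination h2
      rw [e1, e2]; ring
    · refine (natDegree_sub_le _ _).trans (max_le ?_ ?_)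
      · exact natDegree_mul_le_of_le (natDegree_lin r) hm'
      · exact natDegree_mul_le_of_le (natDegree_lin r') hm
  have hrr : r = r' := by
    by_contra hne
    -- `m` vanishes at `r`
    have hev : ev 2 m r = 0 := by
      have h1 : ev (1 + 2) (lin r * m' - lin r' * m) r = 0 := by rw [hD, ev_zero]
      rw [ev_sub, ev_mul (natDegree_lin r) hm', ev_mul (natDegree_lin r') hm,
        (ev_lin r).2 rfl, zero_mul, zero_sub, neg_eq_zero] at h1
      rcases mul_eq_zero.1 h1 with h2 | h2
      · exact absurd ((ev_lin r').1 h2) hne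
      · exact h2
    obtain ⟨s, hs, hms⟩ := exists_mul_lin (n := 1) hm hev
    -- the three points
    have hc3 : 3 ≤ (T.erase r).card := by
      have := Finset.pred_card_le_card_erase (s := T) (a := r)
      omega
    obtain ⟨T', hT', hT'c⟩ := Finset.exists_subset_card_eq hc3
    refine hgen T' (hT'.trans (Finset.erase_subset _ _)) hT'c ⟨-s, by rwa [natDegree_neg], ?_⟩
    intro p hp
    have hp2 := hT' hp
    rw [Finset.mem_erase] at hp2
    have h1 := h p hp2.2
    have h3 : ev 2 m p = ev 1 (lin r) p * ev 1 s p := by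
      rw [hms]; exact ev_mul (m := 1) (n := 1) (natDegree_lin r) hs
    have h4 : ev 1 (lin r) p ≠ 0 := fun h5 => hp2.1 ((ev_lin r).1 h5)
    rw [h3, ← mul_add] at h1
    rcases mul_eq_zero.1 h1 with h5 | h5
    · exact absurd h5 h4
    · rw [ev_neg]; linear_combination -h5
  refine ⟨hrr, ?_⟩
  subst hrr
  have : lin r * (m' - m) = 0 := by rw [mul_sub]; exact hD
  rcases mul_eq_zero.1 this with h5 | h5
  · exact absurd h5 (lin_ne_zero r)
  · exact (sub_eq_zero.1 h5).symm

/-- normalised existence -/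
theorem m16_exists_lin [IsAlgClosed L] (v : Option L → L) (T : Finset (Option L))
    (hT : T.card = 4) :
    ∃ (r : Option L) (m : L[X]), m.natDegree ≤ 2 ∧
      ∀ p ∈ T, ev 1 (lin r) p * v p + ev 2 m p = 0 := by
  obtain ⟨l, m, hl, hm, hl0, h⟩ := m16_exists_pair v T hT
  obtain ⟨r, hr⟩ := exists_zero (n := 1) le_rfl hl
  obtain ⟨c, hc⟩ := eq_C_mul_lin hl hr
  have hc0 : c ≠ 0 := by
    rintro rfl
    apply hl0; rw [hc, C_0, zero_mul]
  refine ⟨r, C c⁻¹ * m, (natDegree_C_mul_le _ _).trans hm, ?_⟩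
  intro p hp
  have h1 := h p hp
  rw [hc, ev_C_mul] at h1
  rw [ev_C_mul]
  have : ev 1 (lin r) p * v p + c⁻¹ * ev 2 m p =
      c⁻¹ * (c * ev 1 (lin r) p * v p + ev 2 m p) := by
    field_simp
  rw [this, h1, mul_zero]

theorem m16_sym_zero (r : Option L) (n : ℕ) : sym r n (0 : L[X]) = 0 := by
  have := sym_C_mul (r := r) (n := n) (P := (0 : L[X])) 0
  simpa using this

theorem m16_coll_sym {f : L[X][X]} (hf : WP 1 4 f) (r : Option L) (T : Finset (Option L)) :
    Coll (symY 1 4 r f) (T.image (symP r)) ↔ Coll f T := by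
  constructor
  · rintro ⟨s', hs', h⟩
    obtain ⟨s, hs, rfl⟩ := (sym_bij r 1).surjOn hs'
    have hs1 : s.natDegree ≤ 1 := hs
    refine ⟨s, hs1, fun p hp => ?_⟩
    have h1 := h (symP r p) (Finset.mem_image_of_mem _ hp)
    rw [ev_sym hs1] at h1
    exact (sing_symY hf le_rfl (by norm_num)).1 h1
  · rintro ⟨s, hs, h⟩
    refine ⟨sym r 1 s, natDegree_sym hs, fun p hp => ?_⟩
    obtain ⟨p0, hp0, rfl⟩ := Finset.mem_image.1 hp
    rw [ev_sym hs]
    exact (sing_symY hf le_rfl (by norm_num)).2 (h p0 hp0)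

end

section
variable {K : Type*} [Field K] [Fintype K]

theorem m16_gen_sym {f : K[X][X]} (hf : WP 1 4 f) (r : Option K) (T : Finset (P1 K)) :
    Gen K (symY 1 4 r f) (T.image (symP (upP r))) ↔ Gen K f T := by
  have hinj : Function.Injective (symP (upP r) : P1 K → P1 K) := (symP_bijective _).1
  constructor
  · intro h T' hT' hc hcoll
    refine h (T'.image (symP (upP r))) (Finset.image_subset_image hT') ?_ ?_
    · rw [Finset.card_image_of_injective _ hinj, hc]
    · rw [up2_symY]
      exact (m16_coll_sym (WP_up2 hf) _ _).2 hcoll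
  · intro h T'' hT'' hc hcoll
    obtain ⟨T', hT', rfl⟩ := Finset.subset_image_iff.1 hT''
    have hT'2 : T' ⊆ T := by exact_mod_cast hT'
    rw [Finset.card_image_of_injective _ hinj] at hc
    refine h T' hT'2 hc ?_
    rw [up2_symY] at hcoll
    exact (m16_coll_sym (WP_up2 hf) _ _).1 hcoll

theorem m16_genAt_sym {f : K[X][X]} (hf : WP 1 4 f) (r : Option K) (T : Finset (P1 K)) :
    GenAt K r f T ↔ GenAt K none (symY 1 4 r f) (T.image (symP (upP r))) := by
  unfold GenAt
  rw [m16_gen_sym hf]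
  have hf2 := WP_up2 hf
  refine and_congr Iff.rfl ?_
  constructor
  · rintro ⟨l, m, hl, hm, hl0, hr, h⟩
    refine ⟨sym r 1 l, sym r 2 m, natDegree_sym hl, natDegree_sym hm, ?_, ?_, ?_⟩
    · intro h0
      apply hl0
      apply (sym_bij r 1).injOn (show l ∈ {P : K[X] | P.natDegree ≤ 1} from hl)
        (show (0 : K[X]) ∈ {P : K[X] | P.natDegree ≤ 1} by simp)
      rw [h0, m16_sym_zero]
    · have := ev_sym (r := r) (p := r) hl
      rw [symP_self, hr, mul_zero] at this
      exact this
    · intro p hp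
      obtain ⟨p0, hp0, rfl⟩ := Finset.mem_image.1 hp
      obtain ⟨v, hv, hv2⟩ := h p0 hp0
      refine ⟨symU (upP r) p0 ^ 1 * v, ?_, ?_⟩
      · rw [up2_symY]
        exact (sing_symY hf2 le_rfl (by norm_num)).2 hv
      · rw [up_sym, up_sym, ev_sym (by rwa [natDegree_up]), ev_sym (by rwa [natDegree_up])]
        linear_combination (symU (upP r) p0) ^ 2 * hv2
  · rintro ⟨l', m', hl', hm', hl0', hr', h⟩
    obtain ⟨l, hl, rfl⟩ := (sym_bij r 1).surjOn (show l' ∈ {P : K[X] | P.natDegree ≤ 1} from hl')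
    obtain ⟨m, hm, rfl⟩ := (sym_bij r 2).surjOn (show m' ∈ {P : K[X] | P.natDegree ≤ 2} from hm')
    have hl1 : l.natDegree ≤ 1 := hl
    have hm1 : m.natDegree ≤ 2 := hm
    refine ⟨l, m, hl1, hm1, ?_, ?_, ?_⟩
    · rintro rfl
      exact hl0' (m16_sym_zero r 1)
    · have := ev_sym (r := r) (p := r) hl1
      rw [symP_self, hr'] at this
      have h2 := this.symm
      rcases mul_eq_zero.1 h2 with h3 | h3
      · exact absurd h3 (pow_ne_zero _ (symU_ne_zero r r))
      · exact h3
    · intro p hp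
      obtain ⟨v', hv', hv2'⟩ := h (symP (upP r) p) (Finset.mem_image_of_mem _ hp)
      have hU : symU (upP r) p ≠ 0 := symU_ne_zero _ _
      refine ⟨(symU (upP r) p)⁻¹ * v', ?_, ?_⟩
      · rw [up2_symY] at hv'
        have e : v' = symU (upP r) p ^ 1 * ((symU (upP r) p)⁻¹ * v') := by field_simp
        rw [e] at hv'
        exact (sing_symY hf2 le_rfl (by norm_num)).1 hv'
      · rw [up_sym, up_sym, ev_sym (by rwa [natDegree_up]), ev_sym (by rwa [natDegree_up])] at hv2'
        have e : symU (upP r) p ^ 2 * (ev 1 (up l) p * ((symU (upP r) p)⁻¹ * v')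
            + ev 2 (up m) p) = 0 := by
          rw [← hv2']
          field_simp
        rcases mul_eq_zero.1 e with h3 | h3
        · exact absurd h3 (pow_ne_zero _ hU)
        · exact h3

theorem m16_existsUnique {f : K[X][X]} (hf : WP 1 4 f) (hq : NoSq (up2 f))
    {T : Finset (P1 K)} (hT : T ∈ Stab K 4) (hbad : ∀ p ∈ T, Bad 1 4 (up2 f) p)
    (hgen : Gen K f T) : ∃! r : Option K, GenAt K r f T := by
  obtain ⟨hst, hc⟩ := mem_Stab.1 hT
  have hf2 := WP_up2 hf
  -- the fibre coordinate of the singular point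
  choose! v hv using hbad
  have hvu : ∀ p ∈ T, ∀ w, Sing 1 4 (up2 f) p w → w = v p :=
    fun p hp w hw => sing_unique4 hf2 hq hw (hv p hp)
  have hvf : ∀ p ∈ T, v (frob K p) = v p ^ Fintype.card K :=
    fun p hp => (hvu _ (hst p hp) _ (sing_frob hf (hv p hp))).symm
  have hgen' : ∀ T' ⊆ T, T'.card = 3 →
      ¬ ∃ s : (Om K)[X], s.natDegree ≤ 1 ∧ ∀ p ∈ T', ev 1 s p = v p := by
    rintro T' hT' hc' ⟨s, hs, h⟩
    refine hgen T' hT' hc' ⟨s, hs, fun p hp => ?_⟩
    rw [h p hp]
    exact hv p (hT' hp)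
  obtain ⟨r1, m1, hm1, h1⟩ := m16_exists_lin v T hc
  -- Frobenius invariance
  have hphi : ∀ p ∈ T, ev 1 (lin (frob K r1)) p * v p + ev 2 (phi K m1) p = 0 := by
    intro p hp
    have himg : T.image (frob K) = T := by
      convert stab_image (frob_injective (K := K)) hst
    rw [← himg] at hp
    obtain ⟨p0, hp0, rfl⟩ := Finset.mem_image.1 hp
    rw [hvf p0 hp0, ← phi_lin, ev_phi, ev_phi, ← mul_pow, ← pow_card_add, h1 p0 hp0]
    exact zero_pow Fintype.card_ne_zero
  obtain ⟨hr, hm⟩ := m16_unique hc hgen' hm1 (by rwa [natDegree_phi]) h1 hphi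
  obtain ⟨r, rfl⟩ := frob_eq_iff.1 hr.symm
  obtain ⟨m, rfl⟩ := phi_eq_iff.1 hm.symm
  rw [natDegree_up] at hm1
  refine ⟨r, ⟨hgen, lin r, m, natDegree_lin r, hm1, lin_ne_zero r, (ev_lin r).2 rfl, ?_⟩, ?_⟩
  · intro p hp
    refine ⟨v p, hv p hp, ?_⟩
    rw [← lin_upP]
    exact h1 p hp
  · rintro r' ⟨-, l, m', hl, hm', hl0, hev, h'⟩
    obtain ⟨c, hcl⟩ := eq_C_mul_lin hl hev
    have hc0 : c ≠ 0 := by
      rintro rfl
      apply hl0; rw [hcl, C_0, zero_mul]
    have h2 : ∀ p ∈ T, ev 1 (lin (upP r')) p * v p + ev 2 (up (C c⁻¹ * m')) p = 0 := by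
      intro p hp
      obtain ⟨w, hw, hw2⟩ := h' p hp
      rw [hvu p hp w hw, hcl, up_mul, up_C, ev_C_mul, ← lin_upP] at hw2
      rw [up_mul, up_C, ev_C_mul, map_inv₀]
      have hc1 : algebraMap K (Om K) c ≠ 0 := by
        rw [Ne, map_eq_zero]; exact hc0
      have : ev 1 (lin (upP r')) p * v p + (algebraMap K (Om K) c)⁻¹ * ev 2 (up m') p =
          (algebraMap K (Om K) c)⁻¹ * (algebraMap K (Om K) c * ev 1 (lin (upP r')) p * v p
            + ev 2 (up m') p) := by
        field_simp
      rw [this, hw2, mul_zero]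
    have hdeg : (up (C c⁻¹ * m')).natDegree ≤ 2 := by
      rw [natDegree_up]
      exact (natDegree_C_mul_le _ _).trans hm'
    have h3 := (m16_unique hc hgen' hdeg (by rwa [natDegree_up]) h2 h1).1
    exact upP_injective h3

end

section
variable (K : Type*) [Field K] [Fintype K]

/-- M16 -/
theorem SV_four_gen_sym (_h2 : (2 : K) ≠ 0) :
    SVG K 4 (Gen K) = ((Fintype.card K : ℤ) + 1) * SVG K 4 (GenAt K none) := by
  have hsum : SVG K 4 (Gen K) = ∑ r : Option K, SVG K 4 (GenAt K r) := by
    unfold SVG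
    rw [Finset.sum_comm]
    refine Finset.sum_congr rfl fun c hc => ?_
    obtain ⟨hf, hq⟩ := mem_Q4.1 hc
    simp only [Finset.sum_filter]
    rw [Finset.sum_comm]
    refine Finset.sum_congr rfl fun T hT => ?_
    by_cases hb : ∀ p ∈ T, Bad 1 4 (up2 (quart c)) p
    · by_cases hg : Gen K (quart c) T
      · obtain ⟨r, hr, hu⟩ := m16_existsUnique hf hq hT hb hg
        rw [if_pos ⟨hb, hg⟩, Finset.sum_eq_single r]
        · rw [if_pos ⟨hb, hr⟩]
        · intro r' _ hne
          rw [if_neg]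
          rintro ⟨-, h⟩
          exact hne (hu r' h)
        · intro h
          exact absurd (Finset.mem_univ _) h
      · rw [if_neg (fun h => hg h.2)]
        symm
        apply Finset.sum_eq_zero
        intro r _
        rw [if_neg (fun h => hg h.2.1)]
    · rw [if_neg (fun h => hb h.1)]
      symm
      apply Finset.sum_eq_zero
      intro r _
      rw [if_neg (fun h => hb h.1)]
  rw [hsum]
  have hr : ∀ r : Option K, SVG K 4 (GenAt K r) = SVG K 4 (GenAt K none) := by
    intro r
    exact SVG_sym r 4 _ _ fun f T hf _ _ _ => m16_genAt_sym hf r T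
  rw [Finset.sum_congr rfl fun r _ => hr r, Finset.sum_const, Finset.card_univ,
    Fintype.card_option, nsmul_eq_mul]
  push_cast
  ring

end

end
end Pool.Agent.Helper19.DP1
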