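import Pool.Agent.Helper19.DP1.Core3c
import Pool.Agent.Helper19.DP1.Core6c
import Pool.Agent.Helper19.DP1.Sums

/-! M17: four points in general position, base line over infinity. -/

namespace Pool.Agent.Helper19.DP1
open Polynomial Classical
noncomputable section

section
variable {L : Type*} [Field L]

theorem m17_add {p q : L[X]} {n : ℕ} (hp : natDegree p ≤ n) (hq : natDegree q ≤ n) :
    (p + q).natDegree ≤ n := natDegree_add_le_of_degree_le hp hq
theorem m17_sub {p q : L[X]} {n : ℕ} (hp : natDegree p ≤ n) (hq : natDegree q ≤ n) :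
    (p - q).natDegree ≤ n := le_trans (natDegree_sub_le _ _) (max_le hp hq)
theorem m17_C {p : L[X]} {n : ℕ} (c : L) (hp : natDegree p ≤ n) :
    (C c * p).natDegree ≤ n := le_trans (natDegree_C_mul_le _ _) hp

/-- coefficients of `((Y+k)^2+m)^2 - ε (Y+k+z)^2` -/
def m17_c (ε : L) (z m k : L[X]) : L[X] × L[X] × L[X] × L[X] :=
  (4 * k, 6 * k ^ 2 + 2 * m - C ε, 4 * k ^ 3 + 4 * k * m - 2 * C ε * (k + z),
    (k ^ 2 + m) ^ 2 - C ε * (k + z) ^ 2)

theorem m17_quart (ε : L) (z m k : L[X]) :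
    quart (m17_c ε z m k) = ((X + C k) ^ 2 + C m) ^ 2 - C (C ε) * (X + C (k + z)) ^ 2 := by
  simp only [quart, m17_c, map_add, map_sub, map_mul, map_pow, map_ofNat]
  ring

theorem m17_deg_c {ε : L} {z m k : L[X]} (hz : z.natDegree ≤ 2) (hm : m.natDegree ≤ 2)
    (hk : k.natDegree ≤ 1) : (m17_c ε z m k).1.natDegree ≤ 1 ∧
      (m17_c ε z m k).2.1.natDegree ≤ 2 ∧ (m17_c ε z m k).2.2.1.natDegree ≤ 3 ∧
      (m17_c ε z m k).2.2.2.natDegree ≤ 4 := by
  have h4 : (4 : L[X]) = C 4 := rfl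
  have h6 : (6 : L[X]) = C 6 := rfl
  have h2 : (2 : L[X]) = C 2 := rfl
  have hk2 : (k ^ 2).natDegree ≤ 2 := natDegree_pow_le_of_le 2 hk
  have hk3 : (k ^ 3).natDegree ≤ 3 := natDegree_pow_le_of_le 3 hk
  have hkm : (4 * k * m).natDegree ≤ 3 := by
    rw [h4, mul_assoc]
    exact m17_C _ (natDegree_mul_le_of_le hk hm)
  have hkz : (k + z).natDegree ≤ 2 := m17_add (hk.trans (by norm_num)) hz
  simp only [m17_c]
  refine ⟨?_, ?_, ?_, ?_⟩
  · rw [h4]
    exact m17_C _ hk
  · rw [h6, h2]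
    refine m17_sub (m17_add (m17_C _ hk2) (m17_C _ hm)) ?_
    rw [natDegree_C]; norm_num
  · refine m17_sub (m17_add ?_ hkm) ?_
    · rw [h4]
      exact m17_C _ hk3
    · rw [h2, ← C_mul]
      exact m17_C _ (hkz.trans (by norm_num))
  · refine m17_sub ?_ ?_
    · exact natDegree_pow_le_of_le 2 (m17_add hk2 hm)
    · exact m17_C _ (natDegree_pow_le_of_le 2 hkz)

theorem m17_WP2 {f : L[X][X]} (hf : WP 1 4 f) : WP 2 4 f :=
  ⟨hf.1, hf.2.1, fun i hi => (hf.2.2 i hi).trans (by omega)⟩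

/-- testing singularity at an affine point with a section of degree 2 -/
theorem m17_sing_iff {f : L[X][X]} (hf : WP 1 4 f) {t : L} {s : L[X]} (hs : s.natDegree ≤ 2) :
    Sing 1 4 f (some t) (s.eval t) ↔ (f.derivative.eval s).eval t = 0 ∧
      (f.eval s).eval t = 0 ∧ (f.eval s).derivative.eval t = 0 := by
  have key := sing_iff (p := some t) (m17_WP2 hf) (by norm_num) (by norm_num) hs
  have h1 : Sing 1 4 f (some t) (s.eval t) ↔ Sing 2 4 f (some t) (s.eval t) := by
    constructor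
    · rintro ⟨u, hu, hv, ha, hb⟩
      exact ⟨u, hu.trans (by norm_num), hv, ha, hb⟩
    · intro h
      obtain ⟨u, hu, hv⟩ := exists_section 1 (some t) (s.eval t)
      have hv' : s.eval t = ev 2 u (some t) := hv.symm
      rw [hv', sing_iff (p := some t) (m17_WP2 hf) (by norm_num) (by norm_num)
        (hu.trans (by norm_num))] at h
      exact ⟨u, hu, hv, h.1, h.2⟩
  rw [h1]
  exact key

theorem m17_sing {f : L[X][X]} (hf : WP 1 4 f) {ε : L} {z m k : L[X]} (hz : z.natDegree ≤ 2)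
    (hk : k.natDegree ≤ 1) (hF : f = ((X + C k) ^ 2 + C m) ^ 2 - C (C ε) * (X + C (k + z)) ^ 2)
    {t : L} (ht : (z ^ 2 + m).eval t = 0) : Sing 1 4 f (some t) ((-(k + z)).eval t) := by
  have hkz : (-(k + z)).natDegree ≤ 2 := by
    rw [natDegree_neg]
    exact m17_add (hk.trans (by norm_num)) hz
  rw [m17_sing_iff hf hkz]
  have h1 : f.eval (-(k + z)) = (z ^ 2 + m) ^ 2 := by
    rw [hF]
    simp only [eval_sub, eval_mul, eval_pow, eval_add, eval_X, eval_C]
    ring
  have h2 : f.derivative.eval (-(k + z)) = -4 * (z ^ 2 + m) * z := by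
    rw [hF]
    simp only [derivative_sub, derivative_mul, derivative_pow, derivative_add, derivative_X,
      derivative_C, eval_sub, eval_mul, eval_pow, eval_add, eval_X, eval_C]
    simp
    ring
  rw [h1, h2]
  refine ⟨?_, ?_, ?_⟩
  · simp only [eval_mul, ht]
    ring
  · simp [ht]
  · rw [derivative_pow]
    simp [ht]

theorem m17_noSq (h2 : (2 : L) ≠ 0) {ε : L} {z m k : L[X]} (hz : z.natDegree ≤ 2)
    (hz2 : z.coeff 2 ≠ 0) (hm : m.natDegree ≤ 2) (hk : k.natDegree ≤ 1) (hε : ε ≠ 0) :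
    NoSq (quart (m17_c ε z m k)) ↔ ¬ ∃ x, z.eval x = 0 ∧ 4 * m.eval x = ε := by
  have h4 : (4 : L) ≠ 0 := by
    have : (4 : L) = 2 * 2 := by norm_num
    rw [this]
    exact mul_ne_zero h2 h2
  obtain ⟨η, rfl⟩ : ∃ η : L, ε = 4 * η := ⟨ε / 4, by field_simp⟩
  have hη : η ≠ 0 := right_ne_zero_of_mul hε
  have hC2 : (C (2 : L) : L[X]) = 2 := rfl
  have hC4 : (C (4 : L) : L[X]) = 4 := rfl
  have hC8 : (C (8 : L) : L[X]) = 8 := rfl
  have hzz : (z ^ 2).natDegree ≤ 4 := natDegree_pow_le_of_le 2 hz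
  have hzk : (z * k).natDegree ≤ 3 := natDegree_mul_le_of_le hz hk
  have key : quart (m17_c (4 * η) z m k) =
      ((X ^ 2 + C (C 2 * k) * X + C (k ^ 2 + m - C (2 * η))) ^ 2 + C (C (-(8 * η)) * z) * X
        + C (C (4 * η) * (m - z ^ 2 - C η - C 2 * (z * k))) : L[X][X]) := by
    rw [m17_quart]
    simp only [map_add, map_sub, map_mul, map_pow, map_neg, hC2, hC4, hC8, map_ofNat]
    ring
  rw [key, noSq_iff h2 (m17_C _ hk)
    (m17_sub (m17_add (natDegree_pow_le_of_le 2 hk) hm) (by rw [natDegree_C]; norm_num))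
    (m17_C _ (hz.trans (by norm_num)))
    (m17_C _ (m17_sub (m17_sub (m17_sub (hm.trans (by norm_num)) hzz)
      (by rw [natDegree_C]; norm_num)) (m17_C _ (hzk.trans (by norm_num)))))]
  constructor
  · rintro h ⟨x, hx1, hx2⟩
    refine h (some x) ⟨?_, ?_⟩
    · simp [ev, hx1]
    · have hx3 : m.eval x = η := mul_left_cancel₀ h4 hx2
      simp [ev, hx1, hx3]
  · rintro h p ⟨hp1, hp2⟩
    rcases p with _ | x
    · have e1 : m.coeff 4 = 0 := coeff_eq_zero_of_natDegree_lt (by omega)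
      have e2 : (z ^ 2).coeff 4 = z.coeff 2 ^ 2 := by
        have := coeff_pow_of_natDegree_le (m := 2) hz
        simpa using this
      have e3 : (z * k).coeff 4 = 0 := coeff_eq_zero_of_natDegree_lt (by omega)
      simp only [ev, coeff_C_mul, coeff_sub, e1, e2, e3, coeff_C] at hp2
      simp [hη, h4, hz2] at hp2
    · have h8 : (8 : L) ≠ 0 := by
        have : (8 : L) = 2 * 4 := by norm_num
        rw [this]
        exact mul_ne_zero h2 h4
      have hx1 : z.eval x = 0 := by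
        simp only [ev, eval_mul, eval_C] at hp1
        rcases mul_eq_zero.1 hp1 with h0 | h0
        · exact absurd (neg_eq_zero.1 h0) (mul_ne_zero h8 hη)
        · exact h0
      refine h ⟨x, hx1, ?_⟩
      simp only [ev, eval_mul, eval_C, eval_sub, eval_pow, hx1] at hp2
      have h5 := (mul_eq_zero.1 hp2).resolve_left (mul_ne_zero h4 hη)
      have h6 : m.eval x = η := by linear_combination h5
      rw [h6]

theorem m17_BT {T : Finset (Option L)} (hn : none ∉ T) :
    (BT T).Monic ∧ (BT T).natDegree = T.card := by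
  have hm : ∀ p ∈ T, (lin p : L[X]).Monic ∧ (lin p : L[X]).natDegree = 1 := by
    intro p hp
    rcases p with _ | t
    · exact absurd hp hn
    · exact ⟨monic_X_sub_C t, natDegree_X_sub_C t⟩
  refine ⟨monic_prod_of_monic _ _ fun p hp => (hm p hp).1, ?_⟩
  unfold BT
  rw [natDegree_prod_of_monic _ _ fun p hp => (hm p hp).1, Finset.sum_congr rfl
    fun p hp => (hm p hp).2]
  simp

theorem m17_deg_mul {a b c : L[X]} {i j n : ℕ} (h : a * b = c) (hc : c.natDegree ≤ n)
    (hb : b.coeff j ≠ 0) (hij : n ≤ i + j) : a.natDegree ≤ i := by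
  by_cases ha : a = 0
  · simp [ha]
  · have hb0 : b ≠ 0 := by
      rintro rfl
      simp at hb
    have h1 : a.natDegree + b.natDegree = c.natDegree := by rw [← h, natDegree_mul ha hb0]
    have h2 := le_natDegree_of_ne_zero hb
    omega

end

section
variable {K : Type*} [Field K] [Fintype K]

theorem m17_surj (h2 : (2 : K) ≠ 0) {c1 c2 c3 c4 : K[X]} (h1 : c1.natDegree ≤ 1)
    (hc2 : c2.natDegree ≤ 2) (hc3 : c3.natDegree ≤ 3) (hc4 : c4.natDegree ≤ 4)
    {T : Finset (P1 K)} (hT : IsStabG (frob K) T) (hT4 : T.card = 4) (hn : none ∉ T)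
    {g : K[X]} (hg : g.natDegree ≤ 2) (hg2 : g.coeff 2 ≠ 0)
    (hs : ∀ t, some t ∈ T → Sing 1 4 (up2 (quart (c1, c2, c3, c4))) (some t)
      ((-(up g)).eval t)) :
    ∃ (ε : K) (z m k : K[X]), z.natDegree ≤ 2 ∧ z.coeff 2 ≠ 0 ∧ m.natDegree ≤ 2 ∧
      k.natDegree ≤ 1 ∧ (c1, c2, c3, c4) = m17_c ε z m k ∧ Zf 4 (z ^ 2 + m) = T := by
  have h4 : (4 : K) ≠ 0 := by
    have : (4 : K) = 2 * 2 := by norm_num
    rw [this]
    exact mul_ne_zero h2 h2
  have C2 : (2 : K[X]) = C 2 := rfl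
  have C3 : (3 : K[X]) = C 3 := rfl
  have C4 : (4 : K[X]) = C 4 := rfl
  have C6 : (6 : K[X]) = C 6 := rfl
  have C8 : (8 : K[X]) = C 8 := rfl
  obtain ⟨B, hB⟩ := exists_BTK hT
  obtain ⟨hBm, hBd⟩ := m17_BT hn
  rw [hT4] at hBd
  have hBd' : B.natDegree = 4 := by rw [← natDegree_up, hB, hBd]
  have hB4 : B.coeff 4 = 1 := by
    have h := hBm.coeff_natDegree
    rw [hBd, ← hB, coeff_up] at h
    exact (algebraMap K (Om K)).injective (by rw [h, map_one])
  obtain ⟨k, rfl⟩ : ∃ k : K[X], c1 = 4 * k := by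
    refine ⟨C (4⁻¹ : K) * c1, ?_⟩
    rw [C4, ← mul_assoc, ← C_mul, mul_inv_cancel₀ h4, C_1, one_mul]
  have hk : k.natDegree ≤ 1 := by
    rwa [C4, natDegree_C_mul h4] at h1
  obtain ⟨z, rfl⟩ : ∃ z : K[X], g = k + z := ⟨g - k, by ring⟩
  have hz : z.natDegree ≤ 2 := by
    have := m17_sub hg (hk.trans (by norm_num : 1 ≤ 2))
    rwa [add_sub_cancel_left] at this
  have hz2 : z.coeff 2 ≠ 0 := by
    rw [coeff_add, coeff_eq_zero_of_natDegree_lt (lt_of_le_of_lt hk (by norm_num)),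
      zero_add] at hg2
    exact hg2
  -- the polynomial `P`
  obtain ⟨m, hm⟩ : ∃ m : K[X], z ^ 2 + m = C (z.coeff 2 ^ 2) * B :=
    ⟨C (z.coeff 2 ^ 2) * B - z ^ 2, by ring⟩
  obtain ⟨P, hP⟩ : ∃ P : K[X], P = C (z.coeff 2 ^ 2) * B := ⟨_, rfl⟩
  rw [← hP] at hm
  have hPd : P.natDegree ≤ 4 := by
    rw [hP]
    exact m17_C _ hBd'.le
  have hP4 : P.coeff 4 = z.coeff 2 ^ 2 := by rw [hP, coeff_C_mul, hB4, mul_one]
  have hPT : ∀ p ∈ T, ev 4 (up P) p = 0 := by
    intro p hp
    rw [hP, up_mul, up_C, ev_C_mul, hB]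
    have := (ev_BT (p := p) T).2 hp
    rw [hT4] at this
    rw [this, mul_zero]
  -- `f(-g)`
  obtain ⟨F, hF⟩ : ∃ F : K[X], F = (k + z) ^ 4 - 4 * k * (k + z) ^ 3 + c2 * (k + z) ^ 2
    - c3 * (k + z) + c4 := ⟨_, rfl⟩
  obtain ⟨F', hF'⟩ : ∃ F' : K[X], F' = -4 * (k + z) ^ 3 + 12 * k * (k + z) ^ 2
    - 2 * c2 * (k + z) + c3 := ⟨_, rfl⟩
  have hfW : WP 1 4 (up2 (quart (4 * k, c2, c3, c4))) :=
    WP_up2 (WP_quart h1 hc2 hc3 hc4)
  have hgd : (-(up (k + z))).natDegree ≤ 2 := by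
    rw [natDegree_neg, natDegree_up]
    exact hg
  have hev : ∀ t, some t ∈ T → (up F').eval t = 0 ∧ (up F).eval t = 0 ∧
      (up F).derivative.eval t = 0 := by
    intro t ht
    have h := (m17_sing_iff hfW hgd).1 (hs t ht)
    have e1 : (up2 (quart (4 * k, c2, c3, c4))).eval (-(up (k + z))) = up F := by
      rw [up2_quart, hF]
      simp only [quart, eval_add, eval_mul, eval_pow, eval_X, eval_C, up_add, up_mul, up_pow,
        up_sub, C4, up_C]
      ring
    have e2 : (up2 (quart (4 * k, c2, c3, c4))).derivative.eval (-(up (k + z))) = up F' := by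
      rw [up2_quart, hF']
      have u2 : up (2 : K[X]) = 2 := by rw [C2, up_C, map_ofNat]; rfl
      have u4 : up (4 : K[X]) = 4 := by rw [C4, up_C, map_ofNat]; rfl
      have u4' : up (-4 : K[X]) = -4 := by
        have h := up_sub (0 : K[X]) 4
        rw [up_zero, u4, zero_sub, zero_sub] at h
        exact h
      have u12 : up (12 : K[X]) = 12 := by
        have e : (12 : K[X]) = C 12 := rfl
        rw [e, up_C, map_ofNat]; rfl
      simp only [quart, derivative_add, derivative_mul, derivative_pow, derivative_X,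
        derivative_C, eval_add, eval_mul, eval_pow, eval_X, eval_C, up_add, up_mul, up_pow,
        up_sub, u2, u4, u4', u12]
      simp
      ring
    rw [e1, e2] at h
    exact h
  have hz4 : (z ^ 4).natDegree ≤ 8 := natDegree_pow_le_of_le 4 hz
  have hFP : F = P ^ 2 := by
    have hd : (F - P ^ 2).natDegree ≤ 7 := by
      have e : F - P ^ 2 = ((k + z) ^ 4 - P ^ 2) + (c2 * (k + z) ^ 2
        - 4 * k * (k + z) ^ 3 - c3 * (k + z) + c4) := by rw [hF]; ring
      rw [e]
      refine m17_add ?_ (m17_add (m17_sub (m17_sub ?_ ?_) ?_) (hc4.trans (by norm_num)))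
      · refine natDegree_le_pred (n := 8) (m17_sub (natDegree_pow_le_of_le 4 hg)
          (natDegree_pow_le_of_le 2 hPd)) ?_
        have q1 := coeff_pow_of_natDegree_le (m := 4) hg
        have q2 := coeff_pow_of_natDegree_le (m := 2) hPd
        norm_num at q1 q2
        rw [coeff_sub, q1, q2,
          coeff_eq_zero_of_natDegree_lt (lt_of_le_of_lt hk (by norm_num)), hP4]
        ring
      · exact (natDegree_mul_le_of_le hc2 (natDegree_pow_le_of_le 2 hg)).trans (by norm_num)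
      · rw [C4]
        exact (natDegree_mul_le_of_le (m17_C _ hk) (natDegree_pow_le_of_le 3 hg)).trans
          (by norm_num)
      · exact (natDegree_mul_le_of_le hc3 hg).trans (by norm_num)
    have h0 : up (F - P ^ 2) = 0 := by
      refine eq_zero_of_dv (n := 7) (T := T) (by rw [natDegree_up]; exact hd)
        (by rw [hT4]; norm_num) ?_
      intro p hp
      rcases p with _ | t
      · exact absurd hp hn
      · have h := hev t hp
        have h' : (up P).eval t = 0 := hPT _ hp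
        rw [up_sub, up_pow]
        refine ⟨?_, ?_⟩
        · rw [eval_sub, eval_pow, h.2.1, h']; ring
        · rw [derivative_sub, derivative_pow, eval_sub, h.2.2]
          simp [h']
    have h1 : F - P ^ 2 = 0 := up_injective (by rw [h0, up_zero])
    exact sub_eq_zero.1 h1
  have hmd : m.natDegree ≤ 2 := by
    have e : m * (P + z ^ 2) = (c2 - 6 * k ^ 2) * (k + z) ^ 2 + (4 * k ^ 3 - c3) * (k + z)
        + (c4 - k ^ 4) := by
      linear_combination (P + z ^ 2) * hm - hFP + hF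
    refine m17_deg_mul (n := 6) (j := 4) e ?_ ?_ (by norm_num)
    · refine m17_add (m17_add ?_ ?_) ?_
      · refine (natDegree_mul_le_of_le (m := 2) ?_ (natDegree_pow_le_of_le 2 hg)).trans
          (by norm_num)
        rw [C6]
        exact m17_sub hc2 (m17_C _ (natDegree_pow_le_of_le 2 hk))
      · refine (natDegree_mul_le_of_le (m := 3) ?_ hg).trans (by norm_num)
        rw [C4]
        exact m17_sub (m17_C _ (natDegree_pow_le_of_le 3 hk)) hc3
      · exact (m17_sub hc4 (natDegree_pow_le_of_le 4 hk)).trans (by norm_num)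
    · have q1 := coeff_pow_of_natDegree_le (m := 2) hz
      norm_num at q1
      rw [coeff_add, hP4, q1, ← two_mul]
      exact mul_ne_zero h2 (pow_ne_zero 2 hz2)
  obtain ⟨e2, he2⟩ : ∃ e2 : K[X], e2 = c2 - 6 * k ^ 2 - 2 * m := ⟨_, rfl⟩
  obtain ⟨a3, ha3⟩ : ∃ a3 : K[X], a3 = c3 - 2 * k * c2 + 8 * k ^ 3 := ⟨_, rfl⟩
  obtain ⟨e0, he0⟩ : ∃ e0 : K[X], e0 = c4 - c3 * k + c2 * k ^ 2 - 3 * k ^ 4 - m ^ 2 := ⟨_, rfl⟩
  have hid : e2 * z ^ 2 - a3 * z + e0 = 0 := by
    rw [he2, ha3, he0]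
    linear_combination hFP - hF - (z ^ 2 + m + P) * hm
  obtain ⟨s, hs'⟩ : ∃ s : K[X], s = a3 - e2 * z := ⟨_, rfl⟩
  have hsz : s * z = e0 := by
    rw [hs']
    linear_combination -hid
  have hsd : s.natDegree ≤ 2 := by
    refine m17_deg_mul (n := 4) (j := 2) hsz ?_ hz2 (by norm_num)
    rw [he0, C3]
    refine m17_sub (m17_sub (m17_add (m17_sub hc4 ?_) ?_) ?_) ?_
    · exact natDegree_mul_le_of_le hc3 hk
    · exact natDegree_mul_le_of_le hc2 (natDegree_pow_le_of_le 2 hk)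
    · exact m17_C _ (natDegree_pow_le_of_le 4 hk)
    · exact natDegree_pow_le_of_le 2 hmd
  have hezd : (e2 * z).natDegree ≤ 3 := by
    have : e2 * z = a3 - s := by rw [hs']; ring
    rw [this, ha3, C2, C8]
    refine m17_sub (m17_add (m17_sub hc3 ?_) (m17_C _ (natDegree_pow_le_of_le 3 hk)))
      (hsd.trans (by norm_num))
    exact natDegree_mul_le_of_le (m17_C _ hk) hc2
  have hse : s - e2 * z = 0 := by
    have h0 : up (s - e2 * z) = 0 := by
      refine eq_zero_of_ev (n := 3) (T := T) (by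
        rw [natDegree_up]
        exact m17_sub (hsd.trans (by norm_num)) hezd) (by rw [hT4]; norm_num) ?_
      intro p hp
      rcases p with _ | t
      · exact absurd hp hn
      · have h := (hev t hp).1
        have h' : (up P).eval t = 0 := hPT _ hp
        have e : s - e2 * z = F' + 4 * P * z := by
          rw [hs', ha3, he2, hF', ← hm]
          ring
        rw [e, up_add, up_mul, up_mul]
        simp [ev, h, h']
    exact up_injective (by rw [h0, up_zero])
  have he2d : e2.natDegree ≤ 0 := by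
    have : e2 * z = s := by linear_combination -hse
    exact m17_deg_mul (n := 2) (j := 2) this hsd hz2 (by norm_num)
  have he2c : e2 = C (e2.coeff 0) := eq_C_of_natDegree_le_zero he2d
  refine ⟨-(e2.coeff 0), z, m, k, hz, hz2, hmd, hk, ?_, ?_⟩
  · have hCe : C (-(e2.coeff 0)) = -e2 := by rw [C_neg, ← he2c]
    simp only [m17_c, hCe]
    refine Prod.ext rfl (Prod.ext ?_ (Prod.ext ?_ ?_))
    · simp only
      rw [he2]; ring
    · simp only
      linear_combination -ha3 + hse - hs' - 2 * k * he2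
    · simp only
      have hc3' : c3 = 4 * k ^ 3 + 4 * k * m + 2 * e2 * (k + z) := by
        linear_combination -ha3 + hse - hs' - 2 * k * he2
      have hc2' : c2 = 6 * k ^ 2 + 2 * m + e2 := by rw [he2]; ring
      linear_combination -he0 - hsz + z * hse + k * hc3' - k ^ 2 * hc2'
  · rw [hm, hP, Zf_C_mul (pow_ne_zero 2 hz2), ← hT4]
    exact Zf_eq_of_up_eq hB

theorem m17_up (ε : K) (z m k : K[X]) : up2 (quart (m17_c ε z m k)) =
    quart (m17_c (algebraMap K (Om K) ε) (up z) (up m) (up k)) := by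
  have u2 : up (2 : K[X]) = 2 := by
    have e : (2 : K[X]) = C 2 := rfl
    rw [e, up_C, map_ofNat]; rfl
  have u4 : up (4 : K[X]) = 4 := by
    have e : (4 : K[X]) = C 4 := rfl
    rw [e, up_C, map_ofNat]; rfl
  have u6 : up (6 : K[X]) = 6 := by
    have e : (6 : K[X]) = C 6 := rfl
    rw [e, up_C, map_ofNat]; rfl
  rw [up2_quart]
  simp only [m17_c, up_add, up_mul, up_pow, up_sub, u2, u4, u6, up_C]

theorem m17_genAt (h2 : (2 : K) ≠ 0) {f : K[X][X]} {T : Finset (P1 K)}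
    (hT4 : T.card = 4) (h : GenAt K none f T) :
    none ∉ T ∧ ∃ g : K[X], g.natDegree ≤ 2 ∧ g.coeff 2 ≠ 0 ∧
      ∀ t, some t ∈ T → Sing 1 4 (up2 f) (some t) ((-(up g)).eval t) := by
  obtain ⟨hG, l, m, hl, hm, hl0, hle, hp⟩ := h
  obtain ⟨c, rfl⟩ : ∃ c : K, l = C c := by
    refine ⟨l.coeff 0, eq_C_of_natDegree_le_zero ?_⟩
    exact natDegree_le_pred (n := 1) hl hle
  have hc : c ≠ 0 := by
    rintro rfl
    simp at hl0
  have hc' : algebraMap K (Om K) c ≠ 0 := by
    rwa [Ne, map_eq_zero]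
  have hg : ∀ t, some t ∈ T → Sing 1 4 (up2 f) (some t) ((-(up (C c⁻¹ * m))).eval t) := by
    intro t ht
    obtain ⟨v, hv, he⟩ := hp _ ht
    have : (-(up (C c⁻¹ * m))).eval t = v := by
      rw [up_mul, up_C, eval_neg, eval_mul, eval_C, map_inv₀]
      simp only [ev, up_C, eval_C] at he
      have h3 : v = -((algebraMap K (Om K) c)⁻¹ * (up m).eval t) := by
        field_simp
        linear_combination he
      rw [h3]
    rw [this]
    exact hv
  have hgd : (C c⁻¹ * m).natDegree ≤ 2 := m17_C _ hm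
  -- if the degree drops, there are collinear triples
  have hcol : ∀ T' ⊆ T, T'.card = 3 → none ∉ T' → (C c⁻¹ * m).coeff 2 ≠ 0 := by
    intro T' hT' h3 hn h0
    refine hG T' hT' h3 ⟨-(up (C c⁻¹ * m)), ?_, ?_⟩
    · rw [natDegree_neg, natDegree_up]
      exact natDegree_le_pred (n := 2) hgd h0
    · intro p hp'
      rcases p with _ | t
      · exact absurd hp' hn
      · exact hg t (hT' hp')
  have hn : none ∉ T := by
    intro hn
    obtain ⟨v, hv, he⟩ := hp _ hn
    have hm2 : m.coeff 2 = 0 := by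
      simp only [ev, coeff_up] at he
      rw [show (C c : K[X]).coeff 1 = 0 from coeff_C_succ, map_zero, zero_mul, zero_add,
        map_eq_zero] at he
      exact he
    refine hcol (T.erase none) (Finset.erase_subset _ _) ?_ (Finset.notMem_erase _ _) ?_
    · rw [Finset.card_erase_of_mem hn, hT4]
    · rw [coeff_C_mul, hm2, mul_zero]
  refine ⟨hn, C c⁻¹ * m, hgd, ?_, hg⟩
  obtain ⟨T', hT', h3⟩ := Finset.exists_subset_card_eq (s := T) (n := 3) (by omega)
  exact hcol T' hT' h3 (fun h => hn (hT' h))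

/-- index set of the parametrisation -/
def m17_A (K : Type*) [Field K] [Fintype K] : Finset (K × K[X] × K[X] × K[X]) :=
  (((Finset.univ : Finset K).filter (fun ε => ε ≠ 0)) ×ˢ
    ((V K 2).filter (fun z => z.coeff 2 ≠ 0)) ×ˢ V K 2 ×ˢ V K 1).filter
    (fun x => (¬ ∃ y : Om K, (up x.2.1).eval y = 0 ∧
      4 * (up x.2.2.1).eval y = algebraMap K (Om K) x.1) ∧
      (Zf 4 (x.2.1 ^ 2 + x.2.2.1)).card = 4)

theorem m17_natDegree {z m : K[X]} (hz : z.natDegree ≤ 2) (hz2 : z.coeff 2 ≠ 0)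
    (hm : m.natDegree ≤ 2) : (z ^ 2 + m).natDegree = 4 ∧ z ^ 2 + m ≠ 0 ∧
      (z ^ 2 + m).coeff 4 = z.coeff 2 ^ 2 := by
  have e : (z ^ 2 + m).coeff 4 = z.coeff 2 ^ 2 := by
    have q1 := coeff_pow_of_natDegree_le (m := 2) hz
    norm_num at q1
    rw [coeff_add, q1, coeff_eq_zero_of_natDegree_lt (lt_of_le_of_lt hm (by norm_num)), add_zero]
  have h0 : (z ^ 2 + m).coeff 4 ≠ 0 := by
    rw [e]
    exact pow_ne_zero 2 hz2
  refine ⟨le_antisymm ?_ (le_natDegree_of_ne_zero h0), ?_, e⟩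
  · exact m17_add (natDegree_pow_le_of_le 2 hz) (hm.trans (by norm_num))
  · intro h
    rw [h, coeff_zero] at h0
    exact h0 rfl

theorem m17_sum : ∑ x ∈ m17_A K, mu K (Zf 4 (x.2.1 ^ 2 + x.2.2.1)) =
    (Fintype.card K : ℤ) ^ 2 * PC6 K := by
  rw [m17_A, Finset.sum_filter, Finset.sum_product, PC6, Finset.mul_sum]
  refine Finset.sum_congr rfl fun ε hε => ?_
  rw [Finset.sum_product, Finset.mul_sum]
  refine Finset.sum_congr rfl fun z hz => ?_
  rw [Finset.sum_product, Finset.mul_sum]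
  refine Finset.sum_congr rfl fun m hm => ?_
  rw [Finset.mem_filter, mem_V] at hz
  rw [mem_V] at hm
  obtain ⟨hd, h0, -⟩ := m17_natDegree hz.1 hz.2 hm
  trans (∑ _y ∈ V K 1, (if ∃ x : Om K, (up z).eval x = 0 ∧
    4 * (up m).eval x = algebraMap K (Om K) ε then 0 else mob (z ^ 2 + m)))
  · refine Finset.sum_congr rfl fun y _ => ?_
    dsimp only
    by_cases hx : ∃ x : Om K, (up z).eval x = 0 ∧ 4 * (up m).eval x = algebraMap K (Om K) ε
    · rw [if_pos hx, if_neg]
      exact fun h => h.1 hx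
    · rw [if_neg hx]
      by_cases hc : (Zf 4 (z ^ 2 + m)).card = 4
      · rw [if_pos ⟨hx, hc⟩, mob_eq h0 hd hc]
      · rw [if_neg (fun h => hc h.2), mob_eq_zero h0 hd hc]
  · rw [Finset.sum_const, card_V, nsmul_eq_mul, Nat.cast_pow]

theorem m17_mem_A {ε : K} {z m k : K[X]} : (ε, z, m, k) ∈ m17_A K ↔
    ε ≠ 0 ∧ z.natDegree ≤ 2 ∧ z.coeff 2 ≠ 0 ∧ m.natDegree ≤ 2 ∧ k.natDegree ≤ 1 ∧
    (¬ ∃ y : Om K, (up z).eval y = 0 ∧ 4 * (up m).eval y = algebraMap K (Om K) ε) ∧
      (Zf 4 (z ^ 2 + m)).card = 4 := by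
  simp only [m17_A, Finset.mem_filter, Finset.mem_product, mem_V, Finset.mem_univ, true_and]
  tauto

theorem m17_two (h2 : (2 : K) ≠ 0) : (2 : Om K) ≠ 0 := by
  have h : algebraMap K (Om K) 2 ≠ 0 := by rwa [Ne, map_eq_zero]
  rwa [map_ofNat] at h

theorem m17_coeff_up {z : K[X]} {n : ℕ} (h : z.coeff n ≠ 0) : (up z).coeff n ≠ 0 := by
  rw [coeff_up]
  rwa [Ne, map_eq_zero]

theorem m17_Q4 (h2 : (2 : K) ≠ 0) {ε : K} {z m k : K[X]} (h : (ε, z, m, k) ∈ m17_A K) :
    WP 1 4 (up2 (quart (m17_c ε z m k))) ∧ NoSq (up2 (quart (m17_c ε z m k))) ∧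
      m17_c ε z m k ∈ Q4 K := by
  obtain ⟨hε, hz, hz2, hm, hk, hx, -⟩ := m17_mem_A.1 h
  obtain ⟨d1, d2, d3, d4⟩ := m17_deg_c (ε := ε) hz hm hk
  have hW := WP_quart d1 d2 d3 d4
  have hN : NoSq (up2 (quart (m17_c ε z m k))) := by
    rw [m17_up, m17_noSq (m17_two h2) (by rwa [natDegree_up]) (m17_coeff_up hz2)
      (by rwa [natDegree_up]) (by rwa [natDegree_up]) (by rwa [Ne, map_eq_zero])]
    exact hx
  exact ⟨WP_up2 hW, hN, mem_Q4.2 ⟨hW, hN⟩⟩

theorem m17_mem_Zf {ε : K} {z m k : K[X]} (h : (ε, z, m, k) ∈ m17_A K) {p : P1 K} :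
    p ∈ Zf 4 (z ^ 2 + m) ↔ ∃ t, p = some t ∧ ((up z) ^ 2 + up m).eval t = 0 := by
  obtain ⟨hε, hz, hz2, hm, hk, hx, -⟩ := m17_mem_A.1 h
  obtain ⟨hd, h0, h4⟩ := m17_natDegree hz hz2 hm
  rw [mem_Zf hd.le h0]
  rcases p with _ | t
  · simp only [ev, coeff_up, h4, map_pow]
    constructor
    · intro h
      exact absurd ((map_eq_zero _).1 (pow_eq_zero_iff (two_ne_zero)|>.1 h)) hz2
    · rintro ⟨t, ht, -⟩
      simp at ht
  · simp only [ev, up_add, up_pow, Option.some.injEq, exists_eq_left']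

theorem m17_sing' {ε : K} {z m k : K[X]} (h2 : (2 : K) ≠ 0)
    (h : (ε, z, m, k) ∈ m17_A K) {t : Om K} (ht : some t ∈ Zf 4 (z ^ 2 + m)) :
    Sing 1 4 (up2 (quart (m17_c ε z m k))) (some t) ((-(up k + up z)).eval t) := by
  obtain ⟨hε, hz, hz2, hm, hk, hx, -⟩ := m17_mem_A.1 h
  obtain ⟨t', ht', h0⟩ := (m17_mem_Zf h).1 ht
  obtain rfl : t = t' := by simpa using ht'
  refine m17_sing (m17_Q4 h2 h).1 (ε := algebraMap K (Om K) ε) (m := up m)
    (by rwa [natDegree_up]) (by rwa [natDegree_up]) ?_ h0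
  rw [m17_up, m17_quart]

variable (K) in
/-- M17 -/
theorem SV_four_gen_inf (h2 : (2 : K) ≠ 0) :
    SVG K 4 (GenAt K none) = (Fintype.card K : ℤ) ^ 2 * PC6 K := by
  rw [← m17_sum, SVG, Finset.sum_sigma']
  symm
  refine Finset.sum_bij (fun x _ => ⟨m17_c x.1 x.2.1 x.2.2.1 x.2.2.2,
    Zf 4 (x.2.1 ^ 2 + x.2.2.1)⟩) ?_ ?_ ?_ ?_
  · -- well-defined
    rintro ⟨ε, z, m, k⟩ h
    obtain ⟨hε, hz, hz2, hm, hk, hx, hc⟩ := m17_mem_A.1 h
    obtain ⟨hW, hN, hQ⟩ := m17_Q4 h2 h
    simp only [Finset.mem_sigma, Finset.mem_filter]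
    refine ⟨hQ, mem_Stab.2 ⟨Zf_stable _, hc⟩, ?_, ?_, ?_⟩
    · intro p hp
      obtain ⟨t, rfl, -⟩ := (m17_mem_Zf h).1 hp
      exact ⟨_, m17_sing' h2 h hp⟩
    · rintro T' hT' h3 ⟨s, hs, hs'⟩
      have h0 : s + (up k + up z) = 0 := by
        refine eq_zero_of_ev (n := 2) (T := T') ?_ (by rw [h3]; norm_num) ?_
        · exact m17_add (hs.trans (by norm_num)) (m17_add
            (by rw [natDegree_up]; exact hk.trans (by norm_num)) (by rwa [natDegree_up]))
        · intro p hp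
          obtain ⟨t, rfl, -⟩ := (m17_mem_Zf h).1 (hT' hp)
          have e := sing_unique4 hW hN (hs' _ hp) (m17_sing' h2 h (hT' hp))
          simp only [ev] at e ⊢
          rw [eval_add, e, eval_neg, neg_add_cancel]
      have h1 : (s + (up k + up z)).coeff 2 = 0 := by rw [h0, coeff_zero]
      rw [coeff_add, coeff_add, coeff_eq_zero_of_natDegree_lt (lt_of_le_of_lt hs (by norm_num)),
        coeff_eq_zero_of_natDegree_lt (n := 2) (p := up k)
          (by rw [natDegree_up]; exact lt_of_le_of_lt hk (by norm_num)), zero_add, zero_add] at h1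
      exact m17_coeff_up hz2 h1
    · refine ⟨1, k + z, by simp, m17_add (hk.trans (by norm_num)) hz, one_ne_zero, ?_, ?_⟩
      · simp [ev, coeff_one]
      · intro p hp
        obtain ⟨t, rfl, -⟩ := (m17_mem_Zf h).1 hp
        refine ⟨_, m17_sing' h2 h hp, ?_⟩
        have u1 : up (1 : K[X]) = 1 := by
          have e : (1 : K[X]) = C 1 := rfl
          rw [e, up_C, map_one]; rfl
        simp only [ev, u1, up_add, eval_one, eval_neg]
        ring
  · -- injective
    rintro ⟨ε, z, m, k⟩ h ⟨ε', z', m', k'⟩ h' he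
    simp only [Sigma.mk.injEq, heq_eq_eq] at he
    obtain ⟨hcc, hT⟩ := he
    obtain ⟨hε, hz, hz2, hm, hk, hx, hc⟩ := m17_mem_A.1 h
    obtain ⟨hε', hz', hz2', hm', hk', hx', hc'⟩ := m17_mem_A.1 h'
    have h4 : (4 : K) ≠ 0 := by
      have : (4 : K) = 2 * 2 := by norm_num
      rw [this]
      exact mul_ne_zero h2 h2
    have C4 : (4 : K[X]) = C 4 := rfl
    have hC4 : (4 : K[X]) ≠ 0 := by
      rw [C4]
      exact C_ne_zero.2 h4
    obtain ⟨hW, hN, hQ⟩ := m17_Q4 h2 h
    have e1 : k = k' := by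
      have := congrArg Prod.fst hcc
      exact mul_left_cancel₀ hC4 this
    subst e1
    have e2 : z = z' := by
      have h0 : up (z - z') = 0 := by
        refine eq_zero_of_ev (n := 2) (T := Zf 4 (z ^ 2 + m)) ?_ (by rw [hc]; norm_num) ?_
        · rw [natDegree_up]
          exact m17_sub hz hz'
        · intro p hp
          obtain ⟨t, rfl, -⟩ := (m17_mem_Zf h).1 hp
          have s1 := m17_sing' h2 h hp
          have s2 := m17_sing' h2 h' (by rw [← hT]; exact hp)
          rw [← hcc] at s2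
          have e := sing_unique4 hW hN s1 s2
          simp only [ev, eval_neg, eval_add, up_sub, eval_sub] at e ⊢
          linear_combination -e
      exact sub_eq_zero.1 (up_injective (by rw [h0, up_zero]))
    subst e2
    have e3 : m = m' := by
      have h0 : up (m - m') = 0 := by
        refine eq_zero_of_ev (n := 2) (T := Zf 4 (z ^ 2 + m)) ?_ (by rw [hc]; norm_num) ?_
        · rw [natDegree_up]
          exact m17_sub hm hm'
        · intro p hp
          obtain ⟨t, rfl, h5⟩ := (m17_mem_Zf h).1 hp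
          obtain ⟨t', ht', h6⟩ := (m17_mem_Zf h').1 (by rw [← hT]; exact hp)
          obtain rfl : t = t' := by simpa using ht'
          simp only [ev, up_sub, eval_sub, eval_add] at h5 h6 ⊢
          linear_combination h5 - h6
      exact sub_eq_zero.1 (up_injective (by rw [h0, up_zero]))
    subst e3
    have e4 : ε = ε' := by
      have := congrArg (fun c => c.2.1) hcc
      simp only [m17_c] at this
      have h7 : C ε = C ε' := by linear_combination -this
      exact C_injective h7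
    rw [e4]
  · -- surjective
    rintro ⟨⟨c1, c2, c3, c4⟩, T⟩ hb
    simp only [Finset.mem_sigma, Finset.mem_filter] at hb
    obtain ⟨hQ, hT, -, hG⟩ := hb
    obtain ⟨hTs, hT4⟩ := mem_Stab.1 hT
    obtain ⟨hW, hN⟩ := mem_Q4.1 hQ
    obtain ⟨hn, g, hg, hg2, hs⟩ := m17_genAt h2 hT4 hG
    have hQ' := hQ
    simp only [Q4, Finset.mem_filter, Finset.mem_product, mem_V] at hQ'
    obtain ⟨⟨h1, hc2, hc3, hc4⟩, -⟩ := hQ'
    obtain ⟨ε, z, m, k, hz, hz2, hm, hk, hc, hZ⟩ :=
      m17_surj h2 h1 hc2 hc3 hc4 hTs hT4 hn hg hg2 hs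
    have hε : ε ≠ 0 := by
      rintro rfl
      rw [hc, m17_up, m17_quart] at hN
      have h8 := WP_up2 hW
      rw [hc, m17_up, m17_quart, map_zero, C_0, C_0, zero_mul, sub_zero] at h8
      rw [map_zero, C_0, C_0, zero_mul, sub_zero] at hN
      have h9 : ((X + C (up k)) ^ 2 + C (up m) : (Om K)[X][X]) ^ 2 =
          (X ^ 2 + C (C 2 * up k) * X + C (up k ^ 2 + up m)) ^ 2 + C 0 * X + C 0 := by
        have hC2 : (C (2 : Om K) : (Om K)[X]) = 2 := rfl
        simp only [map_add, map_mul, map_pow, hC2, map_ofNat, map_zero]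
        ring
      have hk' : (up k).natDegree ≤ 1 := by rwa [natDegree_up]
      have hm' : (up m).natDegree ≤ 2 := by rwa [natDegree_up]
      rw [h9, noSq_iff (m17_two h2) (m17_C _ hk') (m17_add (natDegree_pow_le_of_le 2 hk') hm')
        (by simp) (by simp)] at hN
      exact hN none ⟨ev_zero, ev_zero⟩
    refine ⟨(ε, z, m, k), m17_mem_A.2 ⟨hε, hz, hz2, hm, hk, ?_, by rw [hZ, hT4]⟩, ?_⟩
    · rw [hc, m17_up, m17_noSq (m17_two h2) (by rwa [natDegree_up]) (m17_coeff_up hz2)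
        (by rwa [natDegree_up]) (by rwa [natDegree_up]) (by rwa [Ne, map_eq_zero])] at hN
      exact hN
    · simp only [Sigma.mk.injEq, heq_eq_eq]
      exact ⟨hc.symm, hZ⟩
  · rintro ⟨ε, z, m, k⟩ h
    rfl

end
end
end Pool.Agent.Helper19.DP1
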