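import Pool.Agent.Helper19.DP1.M21
import Pool.Agent.Helper19.DP1.Core5c

/-! M18: the sum `PC6`. -/

namespace Pool.Agent.Helper19.DP1
open Polynomial Classical
noncomputable section

section
variable {K : Type*} [Field K] [Fintype K]

/-- the quartic `z^2 + g z + l X + y` -/
def m18_h (a b c g l y : K) : K[X] := m21_Q a b c ^ 2 + m21_Q (a * g) (g * b + l) (g * c + y)

omit [Fintype K] in
theorem m18_h_eq (a b c g l y : K) : m18_h a b c g l y =
    C (a ^ 2) * X ^ 4 + C (2 * a * b) * X ^ 3 + C (b ^ 2 + 2 * a * c + a * g) * X ^ 2 +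
      C (2 * b * c + g * b + l) * X + C (c ^ 2 + g * c + y) := by
  unfold m18_h m21_Q
  simp only [map_add, map_mul, map_pow, map_ofNat]
  ring

omit [Fintype K] in
theorem m18_h_eval (a b c g l y x : K) (hx : a * x ^ 2 + b * x + c = 0) :
    (m18_h a b c g l y).eval x = l * x + y := by
  unfold m18_h m21_Q
  simp only [eval_add, eval_mul, eval_pow, eval_C, eval_X]
  linear_combination (a * x ^ 2 + b * x + c + g) * hx

/-- sums over quartics with leading coefficient `a^2` -/
theorem m18_sum_Mon (F : K[X] → ℤ) {a : K} (ha : a ≠ 0) :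
    ∑ h3 : K, ∑ h2 : K, ∑ h1 : K, ∑ h0 : K,
      F (C (a ^ 2) * X ^ 4 + C h3 * X ^ 3 + C h2 * X ^ 2 + C h1 * X + C h0) =
    ∑ P ∈ Mon K 4, F (C (a ^ 2) * P) := by
  have ha2 : a ^ 2 ≠ 0 := pow_ne_zero 2 ha
  have e1 : ∑ h3 : K, ∑ h2 : K, ∑ h1 : K, ∑ h0 : K,
      F (C (a ^ 2) * X ^ 4 + C h3 * X ^ 3 + C h2 * X ^ 2 + C h1 * X + C h0) =
      ∑ t : K × K × K × K,
        F (C (a ^ 2) * X ^ 4 + C t.1 * X ^ 3 + C t.2.1 * X ^ 2 + C t.2.2.1 * X + C t.2.2.2) := by
    simp only [Fintype.sum_prod_type]
  rw [e1]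
  have key : ∀ t : K × K × K × K, C (a ^ 2) *
      (X ^ 4 + (C (t.1 / a ^ 2) * X ^ 3 + C (t.2.1 / a ^ 2) * X ^ 2 + C (t.2.2.1 / a ^ 2) * X +
        C (t.2.2.2 / a ^ 2))) =
      C (a ^ 2) * X ^ 4 + C t.1 * X ^ 3 + C t.2.1 * X ^ 2 + C t.2.2.1 * X + C t.2.2.2 := by
    intro t
    have h : ∀ u : K, (C u : K[X]) = C (a ^ 2) * C (u / a ^ 2) := by
      intro u
      rw [← C_mul, mul_div_cancel₀ _ ha2]
    rw [h t.1, h t.2.1, h t.2.2.1, h t.2.2.2]
    ring
  have hdeg : ∀ t : K × K × K × K, (C (t.1 / a ^ 2) * X ^ 3 + C (t.2.1 / a ^ 2) * X ^ 2 +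
      C (t.2.2.1 / a ^ 2) * X + C (t.2.2.2 / a ^ 2) : K[X]).degree < ((4 : ℕ) : WithBot ℕ) := by
    intro t
    refine lt_of_le_of_lt (b := ((3 : ℕ) : WithBot ℕ)) ?_ (by norm_cast)
    compute_degree
    exact le_rfl
  refine Finset.sum_bij' (fun t _ => X ^ 4 + (C (t.1 / a ^ 2) * X ^ 3 + C (t.2.1 / a ^ 2) * X ^ 2 +
      C (t.2.2.1 / a ^ 2) * X + C (t.2.2.2 / a ^ 2)))
    (fun P _ => (a ^ 2 * P.coeff 3, a ^ 2 * P.coeff 2, a ^ 2 * P.coeff 1, a ^ 2 * P.coeff 0))
    ?_ ?_ ?_ ?_ ?_
  · intro t _
    rw [mem_Mon]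
    exact ⟨monic_X_pow_add (hdeg t), by compute_degree!⟩
  · intro P _
    exact Finset.mem_univ _
  · intro t _
    ext
    · simp [coeff_X, coeff_C]
      field_simp
    · simp [coeff_X, coeff_C]
      field_simp
    · simp [coeff_X, coeff_C]
      field_simp
    · simp [coeff_X, coeff_C]
      field_simp
  · intro P hP
    obtain ⟨h1, h2⟩ := mem_Mon.mp hP
    simp only [mul_div_cancel_left₀ _ ha2]
    conv_rhs => rw [P.as_sum_range_C_mul_X_pow, h2]
    simp only [Finset.sum_range_succ, Finset.sum_range_zero, zero_add, pow_zero, mul_one, pow_one]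
    have h3 : P.coeff 4 = 1 := by rw [← h2]; exact h1.coeff_natDegree
    rw [h3, C_1]
    ring
  · intro t _
    rw [key]

/-- the triangular substitution -/
theorem m18_quartic (h2 : (2 : K) ≠ 0) (F : K[X] → ℤ) {a : K} (ha : a ≠ 0) (γ : K → K) :
    ∑ b : K, ∑ g : K, ∑ l : K, ∑ y : K, F (m18_h a b (γ b) g l y) =
      ∑ P ∈ Mon K 4, F (C (a ^ 2) * P) := by
  rw [← m18_sum_Mon F ha]
  refine Eq.trans ?_ (m21_affine (fun h3 : K => ∑ h2 : K, ∑ h1 : K, ∑ h0 : K,
      F (C (a ^ 2) * X ^ 4 + C h3 * X ^ 3 + C h2 * X ^ 2 + C h1 * X + C h0))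
      (mul_ne_zero h2 ha) 0)
  apply Finset.sum_congr rfl
  intro b _
  refine Eq.trans ?_ (m21_affine (fun h2 : K => ∑ h1 : K, ∑ h0 : K,
      F (C (a ^ 2) * X ^ 4 + C (2 * a * b + 0) * X ^ 3 + C h2 * X ^ 2 + C h1 * X + C h0))
      ha (b ^ 2 + 2 * a * γ b))
  apply Finset.sum_congr rfl
  intro g _
  refine Eq.trans ?_ (m21_affine (fun h1 : K => ∑ h0 : K,
      F (C (a ^ 2) * X ^ 4 + C (2 * a * b + 0) * X ^ 3 + C (a * g + (b ^ 2 + 2 * a * γ b)) * X ^ 2 +
        C h1 * X + C h0)) one_ne_zero (2 * b * γ b + g * b))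
  apply Finset.sum_congr rfl
  intro l _
  refine Eq.trans ?_ (m21_affine (fun h0 : K =>
      F (C (a ^ 2) * X ^ 4 + C (2 * a * b + 0) * X ^ 3 + C (a * g + (b ^ 2 + 2 * a * γ b)) * X ^ 2 +
        C (1 * l + (2 * b * γ b + g * b)) * X + C h0)) one_ne_zero (γ b ^ 2 + g * γ b))
  apply Finset.sum_congr rfl
  intro y _
  rw [m18_h_eq]
  congr 1
  rw [show 2 * a * b + 0 = 2 * a * b by ring,
    show a * g + (b ^ 2 + 2 * a * γ b) = b ^ 2 + 2 * a * γ b + a * g by ring,
    show 1 * l + (2 * b * γ b + g * b) = 2 * b * γ b + g * b + l by ring,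
    show 1 * y + (γ b ^ 2 + g * γ b) = γ b ^ 2 + g * γ b + y by ring]

/-! ### the number of excluded `ε` -/

/-- number of `ε ≠ 0` with `4 (l x + y) = ε` for a root `x` -/
def m18_N (a b c l y : K) : ℤ :=
  (((Finset.univ : Finset K).filter (fun ε => ε ≠ 0 ∧ ∃ x : Om K,
    algebraMap K (Om K) a * x ^ 2 + algebraMap K (Om K) b * x + algebraMap K (Om K) c = 0 ∧
      4 * (algebraMap K (Om K) l * x + algebraMap K (Om K) y) = algebraMap K (Om K) ε)).card : ℤ)

/-- number of rational roots with `l x + y ≠ 0` -/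
def m18_R (a b c l y : K) : ℤ :=
  ∑ x : K, if a * x ^ 2 + b * x + c = 0 ∧ l * x + y ≠ 0 then 1 else 0

theorem m18_root {L : Type*} [Field L] {a b c r s : L} (ha : a ≠ 0) (h3 : a * (r + s) = -b)
    (h4 : a * r * s = c) (x : L) : a * x ^ 2 + b * x + c = 0 ↔ x = r ∨ x = s := by
  have h5 : b = -(a * (r + s)) := by rw [h3, neg_neg]
  have : a * x ^ 2 + b * x + c = a * ((x - r) * (x - s)) := by rw [h5, ← h4]; ring
  rw [this, mul_eq_zero, mul_eq_zero, sub_eq_zero, sub_eq_zero]
  constructor
  · rintro (h | h)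
    · exact absurd h ha
    · exact h
  · intro h; exact Or.inr h

theorem m18_two (h2 : (2 : K) ≠ 0) {a b c r s : K} (l y : K) (ha : a ≠ 0) (h3 : a * (r + s) = -b)
    (h4 : a * r * s = c) : m18_N a b c l y =
      (({4 * (l * r + y), 4 * (l * s + y)} : Finset K).filter (fun ε => ε ≠ 0)).card := by
  unfold m18_N
  have ha' : (algebraMap K (Om K)) a ≠ 0 := by
    rw [Ne, map_eq_zero]; exact ha
  have hr := fun x : Om K => m18_root (a := algebraMap K (Om K) a) (b := algebraMap K (Om K) b)
    (c := algebraMap K (Om K) c) (r := algebraMap K (Om K) r) (s := algebraMap K (Om K) s) ha'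
    (by rw [← map_add, ← map_mul, h3, map_neg]) (by rw [← map_mul, ← map_mul, h4]) x
  congr 2
  ext ε
  simp only [Finset.mem_filter, Finset.mem_univ, true_and, Finset.mem_insert,
    Finset.mem_singleton]
  have hι : Function.Injective (algebraMap K (Om K)) := (algebraMap K (Om K)).injective
  have hval : ∀ t : K, 4 * (algebraMap K (Om K) l * algebraMap K (Om K) t + algebraMap K (Om K) y) =
      algebraMap K (Om K) (4 * (l * t + y)) := by
    intro t; simp only [map_mul, map_add, map_ofNat]
  constructor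
  · rintro ⟨h0, x, hx, hx'⟩
    refine ⟨?_, h0⟩
    rcases (hr x).mp hx with rfl | rfl
    · left; exact (hι (by rw [← hval]; exact hx')).symm
    · right; exact (hι (by rw [← hval]; exact hx')).symm
  · rintro ⟨h5 | h5, h0⟩
    · exact ⟨h0, _, (hr _).mpr (Or.inl rfl), by rw [hval, h5]⟩
    · exact ⟨h0, _, (hr _).mpr (Or.inr rfl), by rw [hval, h5]⟩

theorem m18_N_eq (h2 : (2 : K) ≠ 0) {a : K} (b c l y : K) (ha : a ≠ 0) :
    m18_N a b c l y = m18_R a b c l y -
      quadraticChar K (b ^ 2 - 4 * a * c) * (if l = 0 ∧ y ≠ 0 then 1 else 0) := by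
  have h4' : (4 : K) ≠ 0 := by
    rw [show (4 : K) = 2 * 2 by norm_num]
    exact mul_ne_zero h2 h2
  by_cases hD : b ^ 2 - 4 * a * c = 0
  · have h3 : a * (-b / (2 * a) + -b / (2 * a)) = -b := by field_simp; ring
    have h4 : a * (-b / (2 * a)) * (-b / (2 * a)) = c := by
      have : b ^ 2 = 4 * a * c := sub_eq_zero.mp hD
      field_simp
      rw [this]; ring
    rw [hD, quadraticChar_zero, zero_mul, sub_zero, m18_two h2 l y ha h3 h4]
    unfold m18_R
    set r := -b / (2 * a) with hr
    rw [Finset.sum_eq_single r]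
    · have e1 : a * r ^ 2 + b * r + c = 0 := (m18_root ha h3 h4 r).mpr (Or.inl rfl)
      by_cases hu : l * r + y = 0
      · rw [if_neg (fun h => h.2 hu), hu]
        simp [Finset.filter_insert, Finset.filter_singleton]
      · rw [if_pos ⟨e1, hu⟩]
        have : 4 * (l * r + y) ≠ 0 := mul_ne_zero h4' hu
        rw [Finset.insert_eq_of_mem (Finset.mem_singleton_self _), Finset.filter_singleton,
          if_pos this, Finset.card_singleton, Nat.cast_one]
    · intro x _ hx
      rw [if_neg]
      rintro ⟨h5, _⟩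
      rcases (m18_root ha h3 h4 x).mp h5 with h6 | h6 <;> exact hx h6
    · intro h; exact absurd (Finset.mem_univ _) h
  · rcases quadraticChar_dichotomy hD with hχ | hχ
    · obtain ⟨e, he⟩ := (quadraticChar_one_iff_isSquare hD).mp hχ
      have he0 : e ≠ 0 := by rintro rfl; exact hD (by rw [he, mul_zero])
      have h3 : a * ((-b + e) / (2 * a) + (-b - e) / (2 * a)) = -b := by field_simp; ring
      have h4 : a * ((-b + e) / (2 * a)) * ((-b - e) / (2 * a)) = c := by
        have h5 : e * e = b ^ 2 - 4 * a * c := he.symm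
        have h6 : (-b + e) * (-b - e) = 4 * a * c := by
          have : (-b + e) * (-b - e) = b ^ 2 - e * e := by ring
          rw [this, h5]; ring
        field_simp
        rw [h6]; ring
      have hrs : (-b + e) / (2 * a) ≠ (-b - e) / (2 * a) := by
        intro h5
        have h6 : -b + e = -b - e := by
          have h7 : (2 * a) ≠ 0 := mul_ne_zero h2 ha
          field_simp at h5
          exact h5
        have h7 : 2 * e = 0 := by linear_combination h6
        exact (mul_ne_zero h2 he0) h7
      rw [hχ, m18_two h2 l y ha h3 h4]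
      unfold m18_R
      set r := (-b + e) / (2 * a) with hr
      set s := (-b - e) / (2 * a) with hs
      have hsum : (∑ x : K, if a * x ^ 2 + b * x + c = 0 ∧ l * x + y ≠ 0 then (1 : ℤ) else 0) =
          (if l * r + y ≠ 0 then 1 else 0) + (if l * s + y ≠ 0 then 1 else 0) := by
        have : ∀ x ∈ (Finset.univ : Finset K),
            (if a * x ^ 2 + b * x + c = 0 ∧ l * x + y ≠ 0 then (1 : ℤ) else 0) =
            (if x = r then (if l * r + y ≠ 0 then 1 else 0) else 0) +
              (if x = s then (if l * s + y ≠ 0 then 1 else 0) else 0) := by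
          intro x _
          have hx := m18_root ha h3 h4 x
          by_cases hxr : x = r
          · have hxs : x ≠ s := fun h => hrs (hxr.symm.trans h)
            rw [if_pos hxr, if_neg hxs, add_zero, hxr]
            have e1 : a * r ^ 2 + b * r + c = 0 := (m18_root ha h3 h4 r).mpr (Or.inl rfl)
            simp only [e1, true_and]
          · by_cases hxs : x = s
            · rw [if_neg hxr, if_pos hxs, zero_add, hxs]
              have e1 : a * s ^ 2 + b * s + c = 0 := (m18_root ha h3 h4 s).mpr (Or.inr rfl)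
              simp only [e1, true_and]
            · rw [if_neg hxr, if_neg hxs, add_zero, if_neg]
              rintro ⟨h5, _⟩
              rcases hx.mp h5 with h6 | h6
              · exact hxr h6
              · exact hxs h6
        rw [Finset.sum_congr rfl this, Finset.sum_add_distrib, Finset.sum_ite_eq',
          Finset.sum_ite_eq', if_pos (Finset.mem_univ _), if_pos (Finset.mem_univ _)]
      rw [hsum]
      have hrs0 : r - s ≠ 0 := sub_ne_zero.mpr hrs
      by_cases hl : l = 0
      · subst hl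
        simp only [zero_mul, zero_add, true_and, Finset.insert_eq_of_mem, Finset.mem_singleton]
        rw [Finset.filter_singleton]
        by_cases hy : y = 0
        · simp [hy]
        · rw [if_pos (mul_ne_zero h4' hy), if_pos hy, Finset.card_singleton]
          norm_num
      · have huv : 4 * (l * r + y) ≠ 4 * (l * s + y) := by
          intro h
          have h5 := mul_left_cancel₀ h4' h
          have h6 : l * (r - s) = 0 := by linear_combination h5
          exact (mul_ne_zero hl hrs0) h6
        have h7 : ¬ (l = 0 ∧ y ≠ 0) := fun h => hl h.1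
        rw [if_neg h7, mul_zero, sub_zero, Finset.filter_insert, Finset.filter_singleton]
        by_cases hu : l * r + y = 0
        · have hv : l * s + y ≠ 0 := by
            intro hv; exact huv (by rw [hu, hv])
          rw [if_neg (by rw [hu, mul_zero]; exact fun h => h rfl), if_pos (mul_ne_zero h4' hv),
            if_neg (not_not.mpr hu), if_pos hv, Finset.card_singleton]
          norm_num
        · rw [if_pos (mul_ne_zero h4' hu), if_pos hu]
          by_cases hv : l * s + y = 0
          · rw [if_neg (by rw [hv, mul_zero]; exact fun h => h rfl), if_neg (not_not.mpr hv)]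
            simp
          · rw [if_pos (mul_ne_zero h4' hv), if_pos hv, Finset.card_insert_of_notMem (by
              rw [Finset.mem_singleton]; exact huv), Finset.card_singleton]
            norm_num
    · have hns : ∀ x : K, a * x ^ 2 + b * x + c ≠ 0 := by
        intro x hx
        apply (quadraticChar_neg_one_iff_not_isSquare.mp hχ)
        exact ⟨2 * a * x + b, by linear_combination (-4 * a) * hx⟩
      have hR : m18_R a b c l y = 0 := by
        unfold m18_R
        apply Finset.sum_eq_zero
        intro x _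
        rw [if_neg (fun h => hns x h.1)]
      rw [hχ, hR]
      unfold m18_N
      by_cases hl : l = 0
      · subst hl
        obtain ⟨x0, hx0⟩ : ∃ x : Om K, algebraMap K (Om K) a * x ^ 2 + algebraMap K (Om K) b * x +
            algebraMap K (Om K) c = 0 := by
          obtain ⟨x, hx⟩ : ∃ x, (up (m21_Q a b c)).IsRoot x := by
            apply IsAlgClosed.exists_root
            apply degree_ne_of_natDegree_ne
            rw [natDegree_up]
            have : 2 ≤ (m21_Q a b c).natDegree := le_natDegree_of_ne_zero (by rw [m21_coeff2]; exact ha)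
            intro h
            rw [h] at this
            exact absurd this (by decide)
          exact ⟨x, by rw [← m21_eval]; exact hx⟩
        by_cases hy : y = 0
        · subst hy
          have : (Finset.univ : Finset K).filter (fun ε => ε ≠ 0 ∧ ∃ x : Om K,
              algebraMap K (Om K) a * x ^ 2 + algebraMap K (Om K) b * x +
                algebraMap K (Om K) c = 0 ∧
              4 * (algebraMap K (Om K) 0 * x + algebraMap K (Om K) 0) = algebraMap K (Om K) ε) =
              ∅ := by
            rw [Finset.filter_eq_empty_iff]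
            rintro ε _ ⟨h0, x, _, hx⟩
            apply h0
            rw [map_zero, zero_mul, zero_add, mul_zero] at hx
            exact (map_eq_zero _).mp hx.symm
          rw [this]
          simp
        · have : (Finset.univ : Finset K).filter (fun ε => ε ≠ 0 ∧ ∃ x : Om K,
              algebraMap K (Om K) a * x ^ 2 + algebraMap K (Om K) b * x +
                algebraMap K (Om K) c = 0 ∧
              4 * (algebraMap K (Om K) 0 * x + algebraMap K (Om K) y) = algebraMap K (Om K) ε) =
              {4 * y} := by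
            ext ε
            simp only [Finset.mem_filter, Finset.mem_univ, true_and, Finset.mem_singleton,
              map_zero, zero_mul, zero_add]
            constructor
            · rintro ⟨_, x, _, hx⟩
              apply (algebraMap K (Om K)).injective
              rw [← hx]; simp only [map_mul, map_ofNat]
            · intro h
              rw [h]
              exact ⟨mul_ne_zero h4' hy, x0, hx0, by simp only [map_mul, map_ofNat]⟩
          rw [this, Finset.card_singleton, if_pos ⟨rfl, hy⟩]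
          norm_num
      · have h7 : ¬ (l = 0 ∧ y ≠ 0) := fun h => hl h.1
        rw [if_neg h7, mul_zero, sub_zero]
        have : (Finset.univ : Finset K).filter (fun ε => ε ≠ 0 ∧ ∃ x : Om K,
              algebraMap K (Om K) a * x ^ 2 + algebraMap K (Om K) b * x +
                algebraMap K (Om K) c = 0 ∧
              4 * (algebraMap K (Om K) l * x + algebraMap K (Om K) y) = algebraMap K (Om K) ε) =
              ∅ := by
          rw [Finset.filter_eq_empty_iff]
          rintro ε _ ⟨h0, x, hx, hx'⟩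
          have hl' : algebraMap K (Om K) l ≠ 0 := by rw [Ne, map_eq_zero]; exact hl
          have h4'' : (4 : Om K) ≠ 0 := by
            have : algebraMap K (Om K) 4 ≠ 0 := by rw [Ne, map_eq_zero]; exact h4'
            simpa only [map_ofNat] using this
          have hxK : x = algebraMap K (Om K) ((ε / 4 - y) / l) := by
            rw [map_div₀, map_sub, map_div₀, map_ofNat, eq_div_iff hl']
            have : algebraMap K (Om K) ε / 4 =
                algebraMap K (Om K) l * x + algebraMap K (Om K) y := by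
              rw [← hx']; field_simp
            rw [this]; ring
          apply hns ((ε / 4 - y) / l)
          apply (algebraMap K (Om K)).injective
          rw [map_zero, ← hx, hxK]
          simp only [map_add, map_mul, map_pow]
        rw [this]
        simp

/-! ### the part with the quadratic character -/

/-- the value of `mob` in terms of the discriminant -/
def m18_T (a D g y : K) : ℤ :=
  if g ^ 2 - 4 * y = 0 then 0 else quadraticChar K ((D - 2 * a * g) ^ 2 - 4 * a ^ 2 * (g ^ 2 - 4 * y))

theorem m18_mob (h2 : (2 : K) ≠ 0) {a : K} (b c g y : K) (ha : a ≠ 0) :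
    mob (m18_h a b c g 0 y) = m18_T a (b ^ 2 - 4 * a * c) g y := by
  have h4' : (4 : K) ≠ 0 := by
    rw [show (4 : K) = 2 * 2 by norm_num]
    exact mul_ne_zero h2 h2
  have key : m18_h a b c g 0 y =
      (C a * X ^ 2 + C b * X + C (c + g / 2)) ^ 2 -
        C ((g ^ 2 - 4 * y) / 4) * (C 0 * X + C 1) ^ 2 := by
    rw [m18_h_eq]
    have e1 : (c + g / 2) ^ 2 - (g ^ 2 - 4 * y) / 4 = c ^ 2 + g * c + y := by
      field_simp; ring
    rw [← e1, show b ^ 2 + 2 * a * c + a * g = b ^ 2 + 2 * a * (c + g / 2) by field_simp; ring,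
      show 2 * b * c + g * b + 0 = 2 * b * (c + g / 2) by field_simp; ring]
    simp only [map_add, map_sub, map_mul, map_pow, map_ofNat, map_zero, map_one, C_0, C_1]
    ring
  unfold m18_T
  by_cases hk : g ^ 2 - 4 * y = 0
  · rw [if_pos hk, key, hk, zero_div, C_0, zero_mul, sub_zero]
    apply mob_sq
    have : 2 ≤ (m21_Q a b (c + g / 2)).natDegree :=
      le_natDegree_of_ne_zero (by rw [m21_coeff2]; exact ha)
    unfold m21_Q at this
    omega
  · rw [if_neg hk, key, mob_quad h2 a b (c + g / 2) 0 1 _ ha (div_ne_zero hk h4'), if_neg]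
    · congr 1
      field_simp
      ring
    · intro h
      apply ha
      linear_combination h

theorem m18_T_scale {a D : K} (g y : K) (hD : D ≠ 0) :
    m18_T a D (D * g) (D ^ 2 * y) = m18_T a 1 g y := by
  unfold m18_T
  have e1 : (D * g) ^ 2 - 4 * (D ^ 2 * y) = D ^ 2 * (g ^ 2 - 4 * y) := by ring
  have e2 : (D - 2 * a * (D * g)) ^ 2 - 4 * a ^ 2 * ((D * g) ^ 2 - 4 * (D ^ 2 * y)) =
      D ^ 2 * ((1 - 2 * a * g) ^ 2 - 4 * a ^ 2 * (g ^ 2 - 4 * y)) := by ring
  rw [e2, e1, map_mul, quadraticChar_sq_one' hD, one_mul]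
  by_cases h : g ^ 2 - 4 * y = 0
  · rw [if_pos (by rw [h, mul_zero]), if_pos h]
  · rw [if_neg (mul_ne_zero (pow_ne_zero 2 hD) h), if_neg h]

theorem m18_S3 (h2 : (2 : K) ≠ 0) {a : K} (b : K) (ha : a ≠ 0) :
    ∑ c : K, quadraticChar K (b ^ 2 - 4 * a * c) *
      ∑ g : K, ∑ y : K, (if y ≠ 0 then mob (m18_h a b c g 0 y) else 0) = 0 := by
  have h4' : (4 : K) ≠ 0 := by
    rw [show (4 : K) = 2 * 2 by norm_num]
    exact mul_ne_zero h2 h2
  have e1 : ∀ c ∈ (Finset.univ : Finset K), quadraticChar K (b ^ 2 - 4 * a * c) *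
      ∑ g : K, ∑ y : K, (if y ≠ 0 then mob (m18_h a b c g 0 y) else 0) =
      (fun D : K => quadraticChar K D * ∑ g : K, ∑ y : K, (if y ≠ 0 then m18_T a D g y else 0))
        (-(4 * a) * c + b ^ 2) := by
    intro c _
    simp only
    rw [show -(4 * a) * c + b ^ 2 = b ^ 2 - 4 * a * c by ring]
    congr 1
    apply Finset.sum_congr rfl
    intro g _
    apply Finset.sum_congr rfl
    intro y _
    rw [m18_mob h2 b c g y ha]
  refine (Finset.sum_congr rfl e1).trans ((m21_affine (fun D : K => quadraticChar K D *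
    ∑ g : K, ∑ y : K, (if y ≠ 0 then m18_T a D g y else 0))
    (neg_ne_zero.mpr (mul_ne_zero h4' ha)) (b ^ 2)).trans ?_)
  have e2 : ∀ D ∈ (Finset.univ : Finset K), quadraticChar K D *
      ∑ g : K, ∑ y : K, (if y ≠ 0 then m18_T a D g y else 0) =
      quadraticChar K D * ∑ g : K, ∑ y : K, (if y ≠ 0 then m18_T a 1 g y else 0) := by
    intro D _
    by_cases hD : D = 0
    · rw [hD, quadraticChar_zero, zero_mul, zero_mul]
    · congr 1
      refine (m21_affine (fun g : K => ∑ y : K, (if y ≠ 0 then m18_T a D g y else 0)) hD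
        0).symm.trans ?_
      apply Finset.sum_congr rfl
      intro g _
      refine (m21_affine (fun y : K => (if y ≠ 0 then m18_T a D (D * g + 0) y else 0))
        (pow_ne_zero 2 hD) 0).symm.trans ?_
      apply Finset.sum_congr rfl
      intro y _
      simp only [add_zero]
      rw [m18_T_scale g y hD]
      by_cases hy : y = 0
      · rw [hy, mul_zero]
      · rw [if_pos hy, if_pos (mul_ne_zero (pow_ne_zero 2 hD) hy)]
  rw [Finset.sum_congr rfl e2, ← Finset.sum_mul, quadraticChar_sum_zero (m21_ringChar h2), zero_mul]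

theorem m18_B1 (h2 : (2 : K) ≠ 0) {a : K} (ha : a ≠ 0) :
    ∑ b : K, ∑ c : K, ∑ g : K, ∑ l : K, ∑ y : K, mob (m18_h a b c g l y) = 0 := by
  rw [Finset.sum_comm]
  apply Finset.sum_eq_zero
  intro c _
  refine (m18_quartic h2 (fun P => mob P) ha (fun _ => c)).trans ?_
  rw [Finset.sum_congr rfl (fun P _ => mob_C_mul (pow_ne_zero 2 ha))]
  exact sum_mob_Mon (by norm_num)

theorem m18_B2 (h2 : (2 : K) ≠ 0) {a : K} (ha : a ≠ 0) :
    ∑ b : K, ∑ c : K, ∑ g : K, ∑ l : K, ∑ y : K, mob (m18_h a b c g l y) * m18_R a b c l y =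
      (Fintype.card K : ℤ) * (1 - (Fintype.card K : ℤ)) := by
  -- bring the sum over `x` to the front
  have e1 : ∑ b : K, ∑ c : K, ∑ g : K, ∑ l : K, ∑ y : K,
      mob (m18_h a b c g l y) * m18_R a b c l y =
      ∑ x : K, ∑ b : K, ∑ c : K, ∑ g : K, ∑ l : K, ∑ y : K,
        mob (m18_h a b c g l y) * (if a * x ^ 2 + b * x + c = 0 ∧ l * x + y ≠ 0 then 1 else 0) := by
    rw [Finset.sum_comm (s := (Finset.univ : Finset K)) (t := (Finset.univ : Finset K))
      (f := fun x b => ∑ c : K, ∑ g : K, ∑ l : K, ∑ y : K,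
        mob (m18_h a b c g l y) * (if a * x ^ 2 + b * x + c = 0 ∧ l * x + y ≠ 0 then 1 else 0))]
    apply Finset.sum_congr rfl
    intro b _
    rw [Finset.sum_comm (s := (Finset.univ : Finset K)) (t := (Finset.univ : Finset K))
      (f := fun x c => ∑ g : K, ∑ l : K, ∑ y : K,
        mob (m18_h a b c g l y) * (if a * x ^ 2 + b * x + c = 0 ∧ l * x + y ≠ 0 then 1 else 0))]
    apply Finset.sum_congr rfl
    intro c _
    rw [Finset.sum_comm (s := (Finset.univ : Finset K)) (t := (Finset.univ : Finset K))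
      (f := fun x g => ∑ l : K, ∑ y : K,
        mob (m18_h a b c g l y) * (if a * x ^ 2 + b * x + c = 0 ∧ l * x + y ≠ 0 then 1 else 0))]
    apply Finset.sum_congr rfl
    intro g _
    rw [Finset.sum_comm (s := (Finset.univ : Finset K)) (t := (Finset.univ : Finset K))
      (f := fun x l => ∑ y : K,
        mob (m18_h a b c g l y) * (if a * x ^ 2 + b * x + c = 0 ∧ l * x + y ≠ 0 then 1 else 0))]
    apply Finset.sum_congr rfl
    intro l _
    rw [Finset.sum_comm (s := (Finset.univ : Finset K)) (t := (Finset.univ : Finset K))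
      (f := fun x y =>
        mob (m18_h a b c g l y) * (if a * x ^ 2 + b * x + c = 0 ∧ l * x + y ≠ 0 then 1 else 0))]
    apply Finset.sum_congr rfl
    intro y _
    unfold m18_R
    rw [Finset.mul_sum]
  rw [e1]
  have e2 : ∀ x ∈ (Finset.univ : Finset K), ∑ b : K, ∑ c : K, ∑ g : K, ∑ l : K, ∑ y : K,
        mob (m18_h a b c g l y) * (if a * x ^ 2 + b * x + c = 0 ∧ l * x + y ≠ 0 then 1 else 0) =
      1 - (Fintype.card K : ℤ) := by
    intro x _
    have e3 : ∀ b ∈ (Finset.univ : Finset K), ∑ c : K, ∑ g : K, ∑ l : K, ∑ y : K,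
        mob (m18_h a b c g l y) * (if a * x ^ 2 + b * x + c = 0 ∧ l * x + y ≠ 0 then 1 else 0) =
        ∑ g : K, ∑ l : K, ∑ y : K,
          (fun P : K[X] => if P.eval x ≠ 0 then mob P else 0)
            (m18_h a b (-(a * x ^ 2 + b * x)) g l y) := by
      intro b _
      rw [Finset.sum_eq_single (-(a * x ^ 2 + b * x))]
      · apply Finset.sum_congr rfl
        intro g _
        apply Finset.sum_congr rfl
        intro l _
        apply Finset.sum_congr rfl
        intro y _
        have h0 : a * x ^ 2 + b * x + -(a * x ^ 2 + b * x) = 0 := by ring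
        simp only [h0, true_and]
        rw [m18_h_eval a b _ g l y x h0]
        by_cases hu : l * x + y ≠ 0
        · rw [if_pos hu, if_pos hu, mul_one]
        · rw [if_neg hu, if_neg hu, mul_zero]
      · intro c _ hc
        apply Finset.sum_eq_zero
        intro g _
        apply Finset.sum_eq_zero
        intro l _
        apply Finset.sum_eq_zero
        intro y _
        rw [if_neg, mul_zero]
        rintro ⟨h, _⟩
        apply hc
        linear_combination h
      · intro h; exact absurd (Finset.mem_univ _) h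
    rw [Finset.sum_congr rfl e3]
    refine (m18_quartic h2 (fun P : K[X] => if P.eval x ≠ 0 then mob P else 0) ha
      (fun b => -(a * x ^ 2 + b * x))).trans ?_
    rw [← sum_mob_eval_ne (K := K) (n := 4) (by norm_num) x, Finset.sum_filter]
    apply Finset.sum_congr rfl
    intro P _
    rw [eval_mul, eval_C, mob_C_mul (pow_ne_zero 2 ha)]
    by_cases hP : P.eval x = 0
    · rw [hP, mul_zero]
    · rw [if_pos hP, if_pos (mul_ne_zero (pow_ne_zero 2 ha) hP)]
  rw [Finset.sum_congr rfl e2, Finset.sum_const, Finset.card_univ, nsmul_eq_mul]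

theorem m18_B3 (h2 : (2 : K) ≠ 0) {a : K} (ha : a ≠ 0) :
    ∑ b : K, ∑ c : K, ∑ g : K, ∑ l : K, ∑ y : K, mob (m18_h a b c g l y) *
      (quadraticChar K (b ^ 2 - 4 * a * c) * (if l = 0 ∧ y ≠ 0 then 1 else 0)) = 0 := by
  apply Finset.sum_eq_zero
  intro b _
  refine Eq.trans ?_ (m18_S3 h2 b ha)
  apply Finset.sum_congr rfl
  intro c _
  rw [Finset.mul_sum]
  apply Finset.sum_congr rfl
  intro g _
  rw [Finset.sum_eq_single (0 : K)]
  · rw [Finset.mul_sum]
    apply Finset.sum_congr rfl
    intro y _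
    by_cases hy : y = 0
    · rw [if_neg (fun h => h.2 hy), if_neg (not_not.mpr hy)]
      ring
    · rw [if_pos ⟨rfl, hy⟩, if_pos hy]
      ring
  · intro l _ hl
    apply Finset.sum_eq_zero
    intro y _
    rw [if_neg (fun h => hl h.1)]
    ring
  · intro h; exact absurd (Finset.mem_univ _) h

/-- summation over `ε` -/
theorem m18_eps (M : ℤ) (p : K → Prop) :
    ∑ ε ∈ (Finset.univ : Finset K).filter (fun ε => ε ≠ 0), (if p ε then 0 else M) =
      M * (((Fintype.card K : ℤ) - 1) -
        (((Finset.univ : Finset K).filter (fun ε => ε ≠ 0 ∧ p ε)).card : ℤ)) := by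
  have e1 : ∀ ε ∈ (Finset.univ : Finset K).filter (fun ε => ε ≠ 0), (if p ε then 0 else M) =
      M - (if p ε then M else 0) := by
    intro ε _
    by_cases h : p ε
    · rw [if_pos h, if_pos h, sub_self]
    · rw [if_neg h, if_neg h, sub_zero]
  have h7 : (Finset.univ : Finset K).filter (fun ν => ν ≠ 0) = Finset.univ.erase 0 := by
    ext x; simp
  rw [Finset.sum_congr rfl e1, Finset.sum_sub_distrib, ← Finset.sum_filter, Finset.filter_filter,
    Finset.sum_const, Finset.sum_const, h7, Finset.card_erase_of_mem (Finset.mem_univ _),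
    Finset.card_univ, nsmul_eq_mul, nsmul_eq_mul, Nat.cast_sub Fintype.card_pos]
  push_cast
  ring

/-- the inner sum for given `z` -/
theorem m18_inner {a : K} (b c : K) (ha : a ≠ 0) :
    ∑ m ∈ V K 2, ∑ ε ∈ (Finset.univ : Finset K).filter (fun ε => ε ≠ 0),
      (if ∃ x : Om K, (up (m21_Q a b c)).eval x = 0 ∧
        4 * (up m).eval x = algebraMap K (Om K) ε then 0 else mob (m21_Q a b c ^ 2 + m)) =
    ∑ g : K, ∑ l : K, ∑ y : K, mob (m18_h a b c g l y) *
      (((Fintype.card K : ℤ) - 1) - m18_N a b c l y) := by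
  rw [sum_V2]
  refine (m21_affine (fun m2 : K => ∑ m1 : K, ∑ m0 : K,
    ∑ ε ∈ (Finset.univ : Finset K).filter (fun ε => ε ≠ 0),
      (if ∃ x : Om K, (up (m21_Q a b c)).eval x = 0 ∧
        4 * (up (m21_Q m2 m1 m0)).eval x = algebraMap K (Om K) ε then 0
        else mob (m21_Q a b c ^ 2 + m21_Q m2 m1 m0))) ha 0).symm.trans ?_
  apply Finset.sum_congr rfl
  intro g _
  refine (m21_affine (fun m1 : K => ∑ m0 : K,
    ∑ ε ∈ (Finset.univ : Finset K).filter (fun ε => ε ≠ 0),
      (if ∃ x : Om K, (up (m21_Q a b c)).eval x = 0 ∧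
        4 * (up (m21_Q (a * g + 0) m1 m0)).eval x = algebraMap K (Om K) ε then 0
        else mob (m21_Q a b c ^ 2 + m21_Q (a * g + 0) m1 m0))) one_ne_zero (g * b)).symm.trans ?_
  apply Finset.sum_congr rfl
  intro l _
  refine (m21_affine (fun m0 : K =>
    ∑ ε ∈ (Finset.univ : Finset K).filter (fun ε => ε ≠ 0),
      (if ∃ x : Om K, (up (m21_Q a b c)).eval x = 0 ∧
        4 * (up (m21_Q (a * g + 0) (1 * l + g * b) m0)).eval x = algebraMap K (Om K) ε then 0
        else mob (m21_Q a b c ^ 2 + m21_Q (a * g + 0) (1 * l + g * b) m0)))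
        one_ne_zero (g * c)).symm.trans ?_
  apply Finset.sum_congr rfl
  intro y _
  rw [show a * g + 0 = a * g by ring, show 1 * l + g * b = g * b + l by ring,
    show 1 * y + g * c = g * c + y by ring]
  rw [m18_eps]
  unfold m18_N m18_h
  congr 4
  ext ε
  rw [Finset.mem_filter, Finset.mem_filter]
  apply and_congr_right
  intro _
  apply and_congr_right
  intro _
  apply exists_congr
  intro x
  rw [m21_eval, m21_eval]
  apply and_congr_right
  intro hx
  have : algebraMap K (Om K) (a * g) * x ^ 2 + algebraMap K (Om K) (g * b + l) * x +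
      algebraMap K (Om K) (g * c + y) =
      algebraMap K (Om K) l * x + algebraMap K (Om K) y := by
    simp only [map_mul, map_add]
    linear_combination (algebraMap K (Om K) g) * hx
  rw [this]

/-- M18 -/
theorem PC6_eq (h2 : (2 : K) ≠ 0) :
    PC6 K = (Fintype.card K : ℤ) * ((Fintype.card K : ℤ) - 1) ^ 2 := by
  unfold PC6
  rw [Finset.sum_comm]
  have e1 : ∀ z ∈ (V K 2).filter (fun z => z.coeff 2 ≠ 0),
      (∑ ε ∈ (Finset.univ : Finset K).filter (fun ε => ε ≠ 0), ∑ m ∈ V K 2,
        if ∃ x : Om K, (up z).eval x = 0 ∧ 4 * (up m).eval x = algebraMap K (Om K) ε then 0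
        else mob (z ^ 2 + m)) =
      ∑ m ∈ V K 2, ∑ ε ∈ (Finset.univ : Finset K).filter (fun ε => ε ≠ 0),
        (if ∃ x : Om K, (up z).eval x = 0 ∧ 4 * (up m).eval x = algebraMap K (Om K) ε then 0
        else mob (z ^ 2 + m)) := fun z _ => Finset.sum_comm
  rw [Finset.sum_congr rfl e1, Finset.sum_filter, sum_V2]
  have e2 : ∀ a ∈ (Finset.univ : Finset K), (∑ b : K, ∑ c : K,
      if (C a * X ^ 2 + C b * X + C c : K[X]).coeff 2 ≠ 0 then
        ∑ m ∈ V K 2, ∑ ε ∈ (Finset.univ : Finset K).filter (fun ε => ε ≠ 0),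
          (if ∃ x : Om K, (up (C a * X ^ 2 + C b * X + C c)).eval x = 0 ∧
            4 * (up m).eval x = algebraMap K (Om K) ε then 0
          else mob ((C a * X ^ 2 + C b * X + C c) ^ 2 + m)) else 0) =
      if a ≠ 0 then -((Fintype.card K : ℤ) * (1 - (Fintype.card K : ℤ))) else 0 := by
    intro a _
    by_cases ha : a = 0
    · rw [if_neg (not_not.mpr ha)]
      apply Finset.sum_eq_zero
      intro b _
      apply Finset.sum_eq_zero
      intro c _
      rw [if_neg]
      rw [show (C a * X ^ 2 + C b * X + C c : K[X]).coeff 2 = a from m21_coeff2 a b c]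
      exact not_not.mpr ha
    · rw [if_pos ha]
      have e3 : ∀ b ∈ (Finset.univ : Finset K), ∀ c ∈ (Finset.univ : Finset K),
          (if (C a * X ^ 2 + C b * X + C c : K[X]).coeff 2 ≠ 0 then
          ∑ m ∈ V K 2, ∑ ε ∈ (Finset.univ : Finset K).filter (fun ε => ε ≠ 0),
            (if ∃ x : Om K, (up (C a * X ^ 2 + C b * X + C c)).eval x = 0 ∧
              4 * (up m).eval x = algebraMap K (Om K) ε then 0
            else mob ((C a * X ^ 2 + C b * X + C c) ^ 2 + m)) else 0) =
          ∑ g : K, ∑ l : K, ∑ y : K, (((Fintype.card K : ℤ) - 1) * mob (m18_h a b c g l y) -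
            mob (m18_h a b c g l y) * m18_R a b c l y + mob (m18_h a b c g l y) *
            (quadraticChar K (b ^ 2 - 4 * a * c) * (if l = 0 ∧ y ≠ 0 then 1 else 0))) := by
        intro b _ c _
        rw [if_pos (by
          rw [show (C a * X ^ 2 + C b * X + C c : K[X]).coeff 2 = a from m21_coeff2 a b c]
          exact ha)]
        refine (m18_inner b c ha).trans ?_
        apply Finset.sum_congr rfl
        intro g _
        apply Finset.sum_congr rfl
        intro l _
        apply Finset.sum_congr rfl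
        intro y _
        rw [m18_N_eq h2 b c l y ha]
        ring
      rw [Finset.sum_congr rfl (fun b hb => Finset.sum_congr rfl (fun c hc => e3 b hb c hc))]
      have e4 : ∑ b : K, ∑ c : K, ∑ g : K, ∑ l : K, ∑ y : K,
          (((Fintype.card K : ℤ) - 1) * mob (m18_h a b c g l y) -
            mob (m18_h a b c g l y) * m18_R a b c l y + mob (m18_h a b c g l y) *
            (quadraticChar K (b ^ 2 - 4 * a * c) * (if l = 0 ∧ y ≠ 0 then 1 else 0))) =
          ((Fintype.card K : ℤ) - 1) *
            (∑ b : K, ∑ c : K, ∑ g : K, ∑ l : K, ∑ y : K, mob (m18_h a b c g l y)) -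
          (∑ b : K, ∑ c : K, ∑ g : K, ∑ l : K, ∑ y : K,
            mob (m18_h a b c g l y) * m18_R a b c l y) +
          (∑ b : K, ∑ c : K, ∑ g : K, ∑ l : K, ∑ y : K, mob (m18_h a b c g l y) *
            (quadraticChar K (b ^ 2 - 4 * a * c) * (if l = 0 ∧ y ≠ 0 then 1 else 0))) := by
        simp only [Finset.sum_add_distrib, Finset.sum_sub_distrib, Finset.mul_sum]
      rw [e4, m18_B1 h2 ha, m18_B2 h2 ha, m18_B3 h2 ha]
      ring
  rw [Finset.sum_congr rfl e2, ← Finset.add_sum_erase Finset.univ _ (Finset.mem_univ (0 : K)),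
    if_neg (not_not.mpr rfl), zero_add,
    Finset.sum_congr rfl (fun s hs => if_pos (Finset.ne_of_mem_erase hs)), Finset.sum_const,
    Finset.card_erase_of_mem (Finset.mem_univ _), Finset.card_univ, nsmul_eq_mul,
    Nat.cast_sub Fintype.card_pos]
  push_cast
  ring

end

end
end Pool.Agent.Helper19.DP1
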