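import Pool.Agent.Helper19.DP1.M2
import Pool.Agent.Helper19.DP1.Core6c

/-!
# M3: structure of quartics `WP 1 4` without square fibres over an algebraically closed field
-/

set_option autoImplicit false

namespace Pool.Agent.Helper19.DP1
open Polynomial Classical
noncomputable section

section
variable {L : Type*} [Field L]

lemma m3_exists_conic {T : Finset (Option L)} (hT : T.card < 6) (z : Option L → L) :
    ∃ (η : L) (n m : L[X]), n.natDegree ≤ 1 ∧ m.natDegree ≤ 2 ∧ (η ≠ 0 ∨ n ≠ 0 ∨ m ≠ 0) ∧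
      ∀ p ∈ T, η * z p ^ 2 + ev 1 n p * z p + ev 2 m p = 0 := by
  obtain ⟨x, hx0, hx⟩ := m2_ker (V := L × degreeLT L (1 + 1) × degreeLT L (2 + 1)) T
    (fun p => z p ^ 2 • (LinearMap.fst L _ _) +
      (z p • ((m2_evL 1 p).comp ((degreeLT L (1 + 1)).subtype.comp
        ((LinearMap.fst L _ _).comp (LinearMap.snd L _ _)))) +
      (m2_evL 2 p).comp ((degreeLT L (2 + 1)).subtype.comp
        ((LinearMap.snd L _ _).comp (LinearMap.snd L _ _)))))
    (by rw [Module.finrank_prod, Module.finrank_prod, m2_finrank, m2_finrank, Module.finrank_self]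
        omega)
  refine ⟨x.1, x.2.1, x.2.2, m2_natDegree _, m2_natDegree _, ?_, fun p hp => ?_⟩
  · by_contra hcon
    push Not at hcon
    apply hx0
    ext
    · simp [hcon.1]
    · simp [hcon.2.1]
    · simp [hcon.2.2]
  · have := hx p hp
    simp only [LinearMap.add_apply, LinearMap.smul_apply, LinearMap.comp_apply, smul_eq_mul,
      LinearMap.fst_apply, LinearMap.snd_apply, Submodule.subtype_apply] at this
    have h1 : x.1 * z p ^ 2 + ev 1 (x.2.1 : L[X]) p * z p + ev 2 (x.2.2 : L[X]) p =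
      z p ^ 2 * x.1 + (z p * m2_evL 1 p ↑x.2.1 + m2_evL 2 p ↑x.2.2) := by
      show _ = z p ^ 2 * x.1 + (z p * ev 1 (x.2.1 : L[X]) p + ev 2 (x.2.2 : L[X]) p)
      ring
    rw [h1]
    exact this

lemma m3_eval_quart {f : L[X][X]} (hf : WP 1 4 f) (s : L[X]) :
    f.eval s = s ^ 4 + f.coeff 3 * s ^ 3 + f.coeff 2 * s ^ 2 + f.coeff 1 * s + f.coeff 0 := by
  conv_lhs => rw [eq_quart hf]
  simp [quart]

lemma m3_eval_quart' {f : L[X][X]} (hf : WP 1 4 f) (s : L[X]) :
    f.derivative.eval s = 4 * s ^ 3 + 3 * f.coeff 3 * s ^ 2 + 2 * f.coeff 2 * s + f.coeff 1 := by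
  conv_lhs => rw [eq_quart hf]
  simp [quart]
  ring

end

section
variable {L : Type*} [Field L] [IsAlgClosed L] {f : L[X][X]} {T : Finset (Option L)}

/-- M3 -/
theorem quart_no4 (h2 : (2 : L) ≠ 0) (hf : WP 1 4 f) (hq : NoSq f) (hT : T.card = 4) :
    ¬ Coll f T := by
  rintro ⟨s, hs, hT'⟩
  have h0 : f.derivative.eval s = 0 := by
    apply eq_zero_of_ev (n := 3) (T := T) (natDegree_derivative_eval hf hs) (by omega)
    intro p hp
    exact ((sing_iff hf le_rfl (by norm_num) hs).1 (hT' p hp)).1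
  have h1 : f.eval s = 0 := by
    apply eq_zero_of_dv (n := 4) (T := T) (natDegree_eval hf hs) (by omega)
    intro p hp
    exact ((sing_iff hf le_rfl (by norm_num) hs).1 (hT' p hp)).2
  exact noSq_not_double h2 hf hq hs (m2_double_of_eval (d := 2) hf hs h1 h0)

lemma m3_no4 (h2 : (2 : L) ≠ 0) (hf : WP 1 4 f) (hq : NoSq f) {s : L[X]} (hs : s.natDegree ≤ 1)
    {S : Finset (Option L)} (hS : ∀ p ∈ S, Sing 1 4 f p (ev 1 s p)) : S.card ≤ 3 := by
  by_contra hcon
  push Not at hcon
  obtain ⟨S', hS', hc⟩ := Finset.exists_subset_card_eq (s := S) (n := 4) (by omega)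
  exact quart_no4 h2 hf hq hc ⟨s, hs, fun p hp => hS p (hS' hp)⟩

/-- five singular points: the case of a line (`η = 0`) gives four points on a section -/
lemma m3_linear (hf : WP 1 4 f) (hT : T.card = 5) {z : Option L → L}
    (hz : ∀ p ∈ T, Sing 1 4 f p (z p)) {l c : L[X]} (hl : l.natDegree ≤ 1) (hc : c.natDegree ≤ 2)
    (hne : l ≠ 0 ∨ c ≠ 0) (hlc : ∀ p ∈ T, ev 1 l p * z p + ev 2 c p = 0) :
    ∃ s : L[X], s.natDegree ≤ 1 ∧ ∃ S ⊆ T, S.card = 4 ∧ ∀ p ∈ S, Sing 1 4 f p (ev 1 s p) := by
  set a1 := f.coeff 3 with ha1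
  set a2 := f.coeff 2 with ha2
  set a3 := f.coeff 1 with ha3
  set a4 := f.coeff 0 with ha4
  have hd1 : a1.natDegree ≤ 1 := by simpa using hf.2.2 1 (by norm_num)
  have hd2 : a2.natDegree ≤ 2 := by simpa using hf.2.2 2 (by norm_num)
  have hd3 : a3.natDegree ≤ 3 := by simpa using hf.2.2 3 (by norm_num)
  have hd4 : a4.natDegree ≤ 4 := by simpa using hf.2.2 4 (by norm_num)
  have hG : c ^ 4 - a1 * c ^ 3 * l + a2 * c ^ 2 * l ^ 2 - a3 * c * l ^ 3 + a4 * l ^ 4 = 0 := by
    apply eq_zero_of_dv (n := 8) (T := T) _ (by rw [hT]; norm_num)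
    · intro p hp
      obtain ⟨s, hs, hsp, h3, h4⟩ := hz p hp
      have h3' : ev 3 (f.derivative.eval s) p = 0 := h3
      have h4' : dv 4 (f.eval s) p := h4
      set e := c + l * s with he
      have hed : e.natDegree ≤ 2 := (natDegree_add_le _ _).trans (max_le hc
        (natDegree_mul_le.trans (by omega)))
      have hep : ev 2 e p = 0 := by
        rw [he, ev_add, ev_mul (m := 1) (n := 1) hl hs, hsp]
        have := hlc p hp
        linear_combination this
      have hed4 : (e * e).natDegree ≤ 4 := natDegree_mul_le.trans (by omega)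
      have hfd : (f.eval s).natDegree ≤ 4 := natDegree_eval hf hs
      have hfd' : (f.derivative.eval s).natDegree ≤ 3 := natDegree_derivative_eval hf hs
      have k1 : dv 8 (f.eval s * l ^ 4) p :=
        dv_mul_right (m := 4) (n := 4) (by norm_num) hfd
          (natDegree_pow_le.trans (by omega)) h4'
      have k2 : dv 8 ((f.derivative.eval s * e) * l ^ 3) p :=
        dv_mul_right (m := 5) (n := 3) (by norm_num) (natDegree_mul_le.trans (by omega))
          (natDegree_pow_le.trans (by omega))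
          (dv_mul_of_ev (m := 3) (n := 2) (by norm_num) (by norm_num) hfd' hed h3' hep)
      have kee : dv 4 (e * e) p :=
        dv_mul_of_ev (m := 2) (n := 2) (by norm_num) (by norm_num) hed hed hep hep
      have hl2 : (l ^ 2).natDegree ≤ 2 := natDegree_pow_le.trans (by omega)
      have hs2 : (s ^ 2).natDegree ≤ 2 := natDegree_pow_le.trans (by omega)
      have hd3' : (l ^ 2 * (6 * s ^ 2 + 3 * a1 * s + a2) - l * e * (4 * s + a1) +
          e * e).natDegree ≤ 4 := by
        have g1 : (6 * s ^ 2 + 3 * a1 * s + a2).natDegree ≤ 2 := by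
          refine (natDegree_add_le _ _).trans (max_le ((natDegree_add_le _ _).trans (max_le ?_ ?_)) hd2)
          · rw [show (6 : L[X]) = C 6 from (map_ofNat C 6).symm]
            exact (natDegree_C_mul_le _ _).trans hs2
          · rw [show (3 : L[X]) = C 3 from (map_ofNat C 3).symm]
            refine natDegree_mul_le.trans ?_
            have := natDegree_C_mul_le (3 : L) a1
            omega
        have g2 : (4 * s + a1).natDegree ≤ 1 := by
          refine (natDegree_add_le _ _).trans (max_le ?_ hd1)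
          rw [show (4 : L[X]) = C 4 from (map_ofNat C 4).symm]
          exact (natDegree_C_mul_le _ _).trans hs
        refine (natDegree_add_le _ _).trans (max_le ((natDegree_sub_le _ _).trans (max_le ?_ ?_)) hed4)
        · exact natDegree_mul_le.trans (by omega)
        · refine natDegree_mul_le.trans ?_
          have := natDegree_mul_le (p := l) (q := e)
          omega
      have k3 : dv 8 ((e * e) * (l ^ 2 * (6 * s ^ 2 + 3 * a1 * s + a2) - l * e * (4 * s + a1) +
          e * e)) p :=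
        dv_mul_right (m := 4) (n := 4) (by norm_num) hed4 hd3' kee
      have k5 : c ^ 4 - a1 * c ^ 3 * l + a2 * c ^ 2 * l ^ 2 - a3 * c * l ^ 3 + a4 * l ^ 4 =
          (f.eval s * l ^ 4 + -((f.derivative.eval s * e) * l ^ 3)) +
            ((e * e) * (l ^ 2 * (6 * s ^ 2 + 3 * a1 * s + a2) - l * e * (4 * s + a1) + e * e)) := by
        rw [m3_eval_quart hf, m3_eval_quart' hf, he]
        ring
      rw [k5]
      exact dv_add (dv_add k1 (dv_neg k2)) k3
    · have q1 := natDegree_pow_le (p := c) (n := 4)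
      have q2 := natDegree_pow_le (p := c) (n := 3)
      have q3 := natDegree_pow_le (p := c) (n := 2)
      have q4 := natDegree_pow_le (p := l) (n := 2)
      have q5 := natDegree_pow_le (p := l) (n := 3)
      have q6 := natDegree_pow_le (p := l) (n := 4)
      have r1 := natDegree_mul_le (p := a1) (q := c ^ 3)
      have r2 := natDegree_mul_le (p := a1 * c ^ 3) (q := l)
      have r3 := natDegree_mul_le (p := a2) (q := c ^ 2)
      have r4 := natDegree_mul_le (p := a2 * c ^ 2) (q := l ^ 2)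
      have r5 := natDegree_mul_le (p := a3) (q := c)
      have r6 := natDegree_mul_le (p := a3 * c) (q := l ^ 3)
      have r7 := natDegree_mul_le (p := a4) (q := l ^ 4)
      refine (natDegree_add_le _ _).trans (max_le ?_ (by omega))
      refine (natDegree_sub_le _ _).trans (max_le ?_ (by omega))
      refine (natDegree_add_le _ _).trans (max_le ?_ (by omega))
      exact (natDegree_sub_le _ _).trans (max_le (by omega) (by omega))
  have hl0 : l ≠ 0 := by
    rintro rfl
    have hc0 : c = 0 := by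
      have : c ^ 4 = 0 := by linear_combination hG
      exact pow_eq_zero_iff (by norm_num) |>.1 this
    rcases hne with h | h
    · exact h rfl
    · exact h hc0
  obtain ⟨r, hrl⟩ := exists_zero (n := 1) le_rfl hl
  obtain ⟨κ, hκ⟩ := eq_C_mul_lin hl hrl
  have hκ0 : κ ≠ 0 := by
    rintro rfl
    apply hl0
    rw [hκ]; simp
  have hcr : ev 2 c r = 0 := by
    have e1 : c ^ 4 = l * (a1 * c ^ 3 - a2 * c ^ 2 * l + a3 * c * l ^ 2 - a4 * l ^ 3) := by
      linear_combination hG
    have hdd : (a1 * c ^ 3 - a2 * c ^ 2 * l + a3 * c * l ^ 2 - a4 * l ^ 3).natDegree ≤ 7 := by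
      have q2 := natDegree_pow_le (p := c) (n := 3)
      have q3 := natDegree_pow_le (p := c) (n := 2)
      have q4 := natDegree_pow_le (p := l) (n := 2)
      have q5 := natDegree_pow_le (p := l) (n := 3)
      have r1 := natDegree_mul_le (p := a1) (q := c ^ 3)
      have r3 := natDegree_mul_le (p := a2) (q := c ^ 2)
      have r4 := natDegree_mul_le (p := a2 * c ^ 2) (q := l)
      have r5 := natDegree_mul_le (p := a3) (q := c)
      have r6 := natDegree_mul_le (p := a3 * c) (q := l ^ 2)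
      have r7 := natDegree_mul_le (p := a4) (q := l ^ 3)
      refine (natDegree_sub_le _ _).trans (max_le ?_ (by omega))
      refine (natDegree_add_le _ _).trans (max_le ?_ (by omega))
      exact (natDegree_sub_le _ _).trans (max_le (by omega) (by omega))
    have e2 : ev 8 (c ^ 4) r = ev 2 c r ^ 4 := ev_pow (m := 2) hc 4
    have e3 : ev 8 (c ^ 4) r = 0 := by
      rw [e1, ev_mul (m := 1) (n := 7) hl hdd, hrl, zero_mul]
    rw [e2] at e3
    exact pow_eq_zero_iff (by norm_num) |>.1 e3
  obtain ⟨Q, hQ, hcQ⟩ := exists_mul_lin (n := 1) hc hcr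
  set s : L[X] := -(C κ⁻¹ * Q) with hs
  have hsd : s.natDegree ≤ 1 := by
    rw [hs, natDegree_neg]
    exact (natDegree_C_mul_le _ _).trans hQ
  have hκC : C κ * C κ⁻¹ = (1 : L[X]) := by rw [← C_mul, mul_inv_cancel₀ hκ0, C_1]
  have hcls : c = -(l * s) := by
    rw [hs, hκ, hcQ]
    linear_combination (-(lin r * Q)) * hκC
  refine ⟨s, hsd, ?_⟩
  have hsub : ∀ p ∈ T.erase r, Sing 1 4 f p (ev 1 s p) := by
    intro p hp
    obtain ⟨hpr, hpT⟩ := Finset.mem_erase.1 hp
    have hlp : ev 1 l p ≠ 0 := by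
      rw [hκ, ev_C_mul]
      intro h0
      rcases mul_eq_zero.1 h0 with h | h
      · exact hκ0 h
      · exact hpr ((ev_lin r).1 h)
    have hzp : z p = ev 1 s p := by
      have e1 := hlc p hpT
      have e2 : ev 2 c p = -(ev 1 l p * ev 1 s p) := by
        rw [hcls, ev_neg, ev_mul (m := 1) (n := 1) hl hsd]
      rw [e2] at e1
      have e3 : ev 1 l p * (z p - ev 1 s p) = 0 := by linear_combination e1
      rcases mul_eq_zero.1 e3 with h | h
      · exact absurd h hlp
      · exact sub_eq_zero.1 h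
    exact hzp ▸ hz p hpT
  have h5 := Finset.pred_card_le_card_erase (s := T) (a := r)
  obtain ⟨S, hS, hSc⟩ := Finset.exists_subset_card_eq (s := T.erase r) (n := 4) (by omega)
  exact ⟨S, hS.trans (Finset.erase_subset _ _), hSc, fun p hp => hsub p (hS hp)⟩

omit [IsAlgClosed L] in
lemma m3_disc (_h2 : (2 : L) ≠ 0) {n m A B : L[X]} (hn : n.natDegree ≤ 1) (hm : m.natDegree ≤ 2)
    (hns : ¬ ∃ R : L[X], R.natDegree ≤ 1 ∧ n ^ 2 - 4 * m = R ^ 2)
    (h : B ^ 2 - n * A * B + m * A ^ 2 = 0) : A = 0 ∧ B = 0 := by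
  have hA : A = 0 := by
    by_contra hA0
    have h3 : (2 * B - n * A) ^ 2 = A ^ 2 * (n ^ 2 - 4 * m) := by linear_combination 4 * h
    have h4 : A ∣ 2 * B - n * A :=
      (IsIntegrallyClosed.pow_dvd_pow_iff (n := 2) (by norm_num)).1 ⟨_, h3⟩
    obtain ⟨D, hD⟩ := h4
    have h5 : n ^ 2 - 4 * m = D ^ 2 := by
      have h6 : A ^ 2 * (n ^ 2 - 4 * m - D ^ 2) = 0 := by
        rw [hD] at h3
        linear_combination -h3
      rcases mul_eq_zero.1 h6 with h7 | h7
      · exact absurd (pow_eq_zero_iff (by norm_num) |>.1 h7) hA0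
      · exact sub_eq_zero.1 h7
    apply hns
    refine ⟨D, ?_, h5⟩
    have h6 : (D ^ 2).natDegree ≤ 2 := by
      rw [← h5]
      refine (natDegree_sub_le _ _).trans (max_le (natDegree_pow_le.trans (by omega)) ?_)
      rw [show (4 : L[X]) = C 4 from (map_ofNat C 4).symm]
      exact (natDegree_C_mul_le _ _).trans hm
    rw [natDegree_pow] at h6
    omega
  refine ⟨hA, ?_⟩
  rw [hA] at h
  have : B ^ 2 = 0 := by linear_combination h
  exact pow_eq_zero_iff (by norm_num) |>.1 this

omit [IsAlgClosed L] in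
lemma m3_WP_conic {n m : L[X]} (hn : n.natDegree ≤ 1) (hm : m.natDegree ≤ 2) :
    WP 1 2 (X ^ 2 + C n * X + C m : L[X][X]) ∧ (X ^ 2 + C n * X + C m : L[X][X]).coeff 1 = n ∧
      (X ^ 2 + C n * X + C m : L[X][X]).coeff 0 = m := by
  have h1 : (X ^ 2 + C n * X + C m : L[X][X]).coeff 1 = n := by
    simp [coeff_C]
  have h0 : (X ^ 2 + C n * X + C m : L[X][X]).coeff 0 = m := by simp
  have hdeg : (C n * X + C m : L[X][X]).degree < 2 := by
    refine (degree_add_le _ _).trans_lt (max_lt ?_ ?_)
    · exact (degree_C_mul_X_le _).trans_lt (by norm_num)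
    · exact degree_C_le.trans_lt (by norm_num)
  have hmon : (X ^ 2 + C n * X + C m : L[X][X]).Monic := by
    rw [add_assoc]
    exact monic_X_pow_add hdeg
  have hnd : (X ^ 2 + C n * X + C m : L[X][X]).natDegree = 2 := by
    rw [add_assoc, natDegree_add_eq_left_of_degree_lt (by rw [degree_X_pow]; exact hdeg),
      natDegree_X_pow]
  refine ⟨⟨hmon, hnd, ?_⟩, h1, h0⟩
  intro i hi
  have : i = 0 ∨ i = 1 ∨ i = 2 := by omega
  rcases this with rfl | rfl | rfl
  · have h5 : (X ^ 2 + C n * X + C m : L[X][X]).coeff 2 = 1 := by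
      have := hmon.coeff_natDegree
      rwa [hnd] at this
    show ((X ^ 2 + C n * X + C m : L[X][X]).coeff 2).natDegree ≤ 0
    rw [h5]; simp
  · show ((X ^ 2 + C n * X + C m : L[X][X]).coeff 1).natDegree ≤ 1
    rw [h1]; exact hn
  · show ((X ^ 2 + C n * X + C m : L[X][X]).coeff 0).natDegree ≤ 2
    rw [h0]; exact hm

lemma m3_three (h2 : (2 : L) ≠ 0) (hf : WP 1 4 f) (hq : NoSq f) (hT : T.card = 5)
    (hb : ∀ p ∈ T, Bad 1 4 f p) :
    ∃ s : L[X], s.natDegree ≤ 1 ∧ ∃ S ⊆ T, 3 ≤ S.card ∧ ∀ p ∈ S, Sing 1 4 f p (ev 1 s p) := by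
  choose! z hz using hb
  obtain ⟨η, n0, m0, hn0, hm0, hne, hlc⟩ := m3_exists_conic (T := T) (by omega) z
  by_cases hη : η = 0
  · subst hη
    obtain ⟨s, hs, S, hS, hSc, hSs⟩ := m3_linear hf hT hz hn0 hm0 (by simpa using hne)
      (fun p hp => by simpa using hlc p hp)
    exact ⟨s, hs, S, hS, by omega, hSs⟩
  set n : L[X] := C η⁻¹ * n0 with hn'
  set m : L[X] := C η⁻¹ * m0 with hm'
  have hn : n.natDegree ≤ 1 := (natDegree_C_mul_le _ _).trans hn0
  have hm : m.natDegree ≤ 2 := (natDegree_C_mul_le _ _).trans hm0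
  have hcon : ∀ p ∈ T, z p ^ 2 + ev 1 n p * z p + ev 2 m p = 0 := by
    intro p hp
    rw [hn', hm', ev_C_mul, ev_C_mul]
    have := hlc p hp
    have hi : η⁻¹ * η = 1 := inv_mul_cancel₀ hη
    linear_combination η⁻¹ * this - z p ^ 2 * hi
  obtain ⟨hC, hC1, hC0⟩ := m3_WP_conic hn hm
  set Cc : L[X][X] := X ^ 2 + C n * X + C m with hCc
  by_cases hsq : ∃ R : L[X], R.natDegree ≤ 1 ∧ n ^ 2 - 4 * m = R ^ 2
  · obtain ⟨R, hR, hRe⟩ := hsq
    obtain ⟨c, d, hc, hd, hcd⟩ := m2_split h2 hC hR (by rw [hC1, hC0]; exact hRe)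
    have e1 : n = -(c + d) := by
      rw [← hC1, hcd]
      have : (X - C c) * (X - C d) = X ^ 2 + C (-(c + d)) * X + C (c * d) := by
        simp only [C_neg, C_add, C_mul]; ring
      rw [this]
      simp [coeff_C]
    have e0 : m = c * d := by
      rw [← hC0, hcd]
      have : (X - C c) * (X - C d) = X ^ 2 + C (-(c + d)) * X + C (c * d) := by
        simp only [C_neg, C_add, C_mul]; ring
      rw [this]
      simp
    have hor : ∀ p ∈ T, z p = ev 1 c p ∨ z p = ev 1 d p := by
      intro p hp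
      have h3 := hcon p hp
      rw [e1, e0, ev_neg, ev_add, ev_mul (m := 1) (n := 1) hc hd] at h3
      have h4 : (z p - ev 1 c p) * (z p - ev 1 d p) = 0 := by linear_combination h3
      rcases mul_eq_zero.1 h4 with h | h
      · exact Or.inl (sub_eq_zero.1 h)
      · exact Or.inr (sub_eq_zero.1 h)
    have hun : T ⊆ T.filter (fun p => z p = ev 1 c p) ∪ T.filter (fun p => z p = ev 1 d p) := by
      intro p hp
      rw [Finset.mem_union, Finset.mem_filter, Finset.mem_filter]
      rcases hor p hp with h | h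
      · exact Or.inl ⟨hp, h⟩
      · exact Or.inr ⟨hp, h⟩
    have hcard := (Finset.card_le_card hun).trans (Finset.card_union_le _ _)
    rw [hT] at hcard
    by_cases h3 : 3 ≤ (T.filter (fun p => z p = ev 1 c p)).card
    · refine ⟨c, hc, _, Finset.filter_subset _ _, h3, fun p hp => ?_⟩
      obtain ⟨hpT, hzp⟩ := Finset.mem_filter.1 hp
      exact hzp ▸ hz p hpT
    · refine ⟨d, hd, _, Finset.filter_subset _ _, (show 3 ≤
        (T.filter (fun p => z p = ev 1 d p)).card by omega), fun p hp => ?_⟩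
      obtain ⟨hpT, hzp⟩ := Finset.mem_filter.1 hp
      exact hzp ▸ hz p hpT
  · exfalso
    set a1 := f.coeff 3 with ha1
    set a2 := f.coeff 2 with ha2
    set a3 := f.coeff 1 with ha3
    set a4 := f.coeff 0 with ha4
    have hd1 : a1.natDegree ≤ 1 := by simpa using hf.2.2 1 (by norm_num)
    have hd2 : a2.natDegree ≤ 2 := by simpa using hf.2.2 2 (by norm_num)
    have hd3 : a3.natDegree ≤ 3 := by simpa using hf.2.2 3 (by norm_num)
    have hd4 : a4.natDegree ≤ 4 := by simpa using hf.2.2 4 (by norm_num)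
    set g1 := a1 - n with hg1
    set g0 := a2 - n * g1 - m with hg0
    set A := a3 - n * g0 - m * g1 with hA
    set B := a4 - m * g0 with hB
    have hg1d : g1.natDegree ≤ 1 := (natDegree_sub_le _ _).trans (max_le hd1 hn)
    have hg0d : g0.natDegree ≤ 2 := by
      refine (natDegree_sub_le _ _).trans (max_le ((natDegree_sub_le _ _).trans (max_le hd2 ?_)) hm)
      exact natDegree_mul_le.trans (by omega)
    have hAd : A.natDegree ≤ 3 := by
      refine (natDegree_sub_le _ _).trans (max_le ((natDegree_sub_le _ _).trans (max_le hd3 ?_)) ?_)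
      · exact natDegree_mul_le.trans (by omega)
      · exact natDegree_mul_le.trans (by omega)
    have hBd : B.natDegree ≤ 4 :=
      (natDegree_sub_le _ _).trans (max_le hd4 (natDegree_mul_le.trans (by omega)))
    have hRes : B ^ 2 - n * A * B + m * A ^ 2 = 0 := by
      apply eq_zero_of_dv (n := 8) (T := T) _ (by rw [hT]; norm_num)
      · intro p hp
        obtain ⟨s, hs, hsp, h3, h4⟩ := hz p hp
        have h3' : ev 3 (f.derivative.eval s) p = 0 := h3
        have h4' : dv 4 (f.eval s) p := h4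
        set cs : L[X] := s ^ 2 + n * s + m with hcs
        have hss : (s ^ 2).natDegree ≤ 2 := natDegree_pow_le.trans (by omega)
        have hcsd : cs.natDegree ≤ 2 :=
          (natDegree_add_le _ _).trans (max_le ((natDegree_add_le _ _).trans (max_le hss
            (natDegree_mul_le.trans (by omega)))) hm)
        have hcsp : ev 2 cs p = 0 := by
          have h5 : ev 2 (s ^ 2) p = ev 1 s p ^ 2 := ev_pow (m := 1) hs 2
          rw [hcs, ev_add, ev_add, ev_mul (m := 1) (n := 1) hn hs, h5, hsp]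
          exact hcon p hp
        set gs : L[X] := s ^ 2 + g1 * s + g0 with hgs
        have hgsd : gs.natDegree ≤ 2 :=
          (natDegree_add_le _ _).trans (max_le ((natDegree_add_le _ _).trans (max_le hss
            (natDegree_mul_le.trans (by omega)))) hg0d)
        have hfd : (f.eval s).natDegree ≤ 4 := natDegree_eval hf hs
        have hfd' : (f.derivative.eval s).natDegree ≤ 3 := natDegree_derivative_eval hf hs
        set β := f.eval s - cs * gs with hβ
        have hβd : β.natDegree ≤ 4 :=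
          (natDegree_sub_le _ _).trans (max_le hfd (natDegree_mul_le.trans (by omega)))
        have hβp : ev 4 β p = 0 := by
          rw [hβ, ev_sub, ev_mul (m := 2) (n := 2) hcsd hgsd, hcsp, dv_ev h4']
          ring
        have k1 : dv 8 (β * β) p :=
          dv_mul_of_ev (m := 4) (n := 4) (by norm_num) (by norm_num) hβd hβd hβp hβp
        have k2 : dv 8 ((cs * f.derivative.eval s) * A) p :=
          dv_mul_right (m := 5) (n := 3) (by norm_num) (natDegree_mul_le.trans (by omega)) hAd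
            (dv_mul_of_ev (m := 2) (n := 3) (by norm_num) (by norm_num) hcsd hfd' hcsp h3')
        have c2 : ∀ q : L[X], (2 * s + q).natDegree ≤ max 1 q.natDegree := by
          intro q
          refine (natDegree_add_le _ _).trans (max_le_max ?_ le_rfl)
          rw [show (2 : L[X]) = C 2 from (map_ofNat C 2).symm]
          exact (natDegree_C_mul_le _ _).trans hs
        have c2g : (2 * s + g1).natDegree ≤ 1 := (c2 g1).trans (max_le le_rfl hg1d)
        have c2n : (2 * s + n).natDegree ≤ 1 := (c2 n).trans (max_le le_rfl hn)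
        have k3 : dv 8 ((cs * cs) * ((2 * s + g1) * A)) p :=
          dv_mul_right (m := 4) (n := 4) (by norm_num) (natDegree_mul_le.trans (by omega))
            (natDegree_mul_le.trans (by omega))
            (dv_mul_of_ev (m := 2) (n := 2) (by norm_num) (by norm_num) hcsd hcsd hcsp hcsp)
        have k4 : dv 8 (f.eval s * ((2 * s + n) * A)) p :=
          dv_mul_right (m := 4) (n := 4) (by norm_num) hfd (natDegree_mul_le.trans (by omega)) h4'
        have k5 : B ^ 2 - n * A * B + m * A ^ 2 =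
            (β * β + (cs * f.derivative.eval s) * A) +
              (-((cs * cs) * ((2 * s + g1) * A)) + -(f.eval s * ((2 * s + n) * A))) := by
          have hfs := m3_eval_quart hf s
          have hfs' := m3_eval_quart' hf s
          rw [hβ, hfs, hfs', ← ha1, ← ha2, ← ha3, ← ha4, hgs, hcs, hB, hA, hg0, hg1]
          ring
        rw [k5]
        exact dv_add (dv_add k1 k2) (dv_add (dv_neg k3) (dv_neg k4))
      · have q1 := natDegree_pow_le (p := B) (n := 2)
        have q2 := natDegree_pow_le (p := A) (n := 2)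
        have r1 := natDegree_mul_le (p := n) (q := A)
        have r2 := natDegree_mul_le (p := n * A) (q := B)
        have r3 := natDegree_mul_le (p := m) (q := A ^ 2)
        refine (natDegree_add_le _ _).trans (max_le ?_ (by omega))
        exact (natDegree_sub_le _ _).trans (max_le (by omega) (by omega))
    obtain ⟨hA0, hB0⟩ := m3_disc h2 hn hm hsq hRes
    obtain ⟨hG, hG1, hG0⟩ := m3_WP_conic hg1d hg0d
    set Gg : L[X][X] := X ^ 2 + C g1 * X + C g0 with hGg
    have hfCG : f = Cc * Gg := by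
      have e3 : a3 = n * g0 + m * g1 := by
        rw [hA] at hA0
        linear_combination hA0
      have e4 : a4 = m * g0 := by
        rw [hB] at hB0
        linear_combination hB0
      have e1 : a1 = g1 + n := by rw [hg1]; ring
      have e2 : a2 = g0 + n * g1 + m := by rw [hg0]; ring
      rw [eq_quart hf]
      simp only [quart]
      rw [← ha1, ← ha2, ← ha3, ← ha4, e1, e2, e3, e4, hCc, hGg]
      simp only [C_add, C_mul]
      ring
    -- on every point of `T` the second conic vanishes too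
    have hGz : ∀ p ∈ T, ∀ s : L[X], s.natDegree ≤ 1 → ev 1 s p = z p →
        ev 2 (Cc.eval s) p = 0 ∧ ev 2 (Gg.eval s) p = 0 := by
      intro p hp s hs hsp
      have k1 : ev 2 (Cc.eval s) p = 0 := by
        have h5 : ev 2 (s ^ 2) p = ev 1 s p ^ 2 := ev_pow (m := 1) hs 2
        have h6 : Cc.eval s = s ^ 2 + n * s + m := by rw [hCc]; simp
        rw [h6, ev_add, ev_add, ev_mul (m := 1) (n := 1) hn hs, h5, hsp]
        exact hcon p hp
      refine ⟨k1, ?_⟩
      by_contra hne'
      have k2 : (fib 1 2 Gg p).eval (z p) ≠ 0 := by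
        rw [← hsp, fib_eval hG hs]
        exact hne'
      have k3 : Sing 1 2 Cc p (z p) := by
        refine (sing_mul_left hC hG le_rfl (by norm_num) k2).1 ?_
        have := hz p hp
        rw [hfCG] at this
        exact this
      have k4 := ((sing_quad h2 hC le_rfl).1 k3).2
      rw [hC1, hC0] at k4
      obtain ⟨R, hR, hRe⟩ := m2_square (n := 1) (T := {p}) (P := n ^ 2 - 4 * m) (by
          refine (natDegree_sub_le _ _).trans (max_le (natDegree_pow_le.trans (by omega)) ?_)
          rw [show (4 : L[X]) = C 4 from (map_ofNat C 4).symm]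
          exact (natDegree_C_mul_le _ _).trans hm) (by simp) (by
          intro q hq
          rw [Finset.mem_singleton] at hq
          subst hq
          exact k4)
      exact hsq ⟨R, hR, hRe⟩
    have hRes2 : (g0 - m) ^ 2 - n * (g1 - n) * (g0 - m) + m * (g1 - n) ^ 2 = 0 := by
      have hν : (g1 - n).natDegree ≤ 1 := (natDegree_sub_le _ _).trans (max_le hg1d hn)
      have hμ : (g0 - m).natDegree ≤ 2 := (natDegree_sub_le _ _).trans (max_le hg0d hm)
      apply eq_zero_of_ev (n := 4) (T := T) _ (by rw [hT]; norm_num)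
      · intro p hp
        obtain ⟨s, hs, hsp⟩ := exists_section 1 p (z p)
        obtain ⟨k1, k2⟩ := hGz p hp s hs hsp
        have h6 : Cc.eval s = s ^ 2 + n * s + m := by rw [hCc]; simp
        have h7 : Gg.eval s = s ^ 2 + g1 * s + g0 := by rw [hGg]; simp
        have h5 : ev 2 (s ^ 2) p = ev 1 s p ^ 2 := ev_pow (m := 1) hs 2
        rw [h6, ev_add, ev_add, ev_mul (m := 1) (n := 1) hn hs, h5] at k1
        rw [h7, ev_add, ev_add, ev_mul (m := 1) (n := 1) hg1d hs, h5] at k2
        have i1 : ev 4 ((g0 - m) ^ 2) p = ev 2 (g0 - m) p ^ 2 := ev_pow (m := 2) hμ 2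
        have i2 : ev 4 (n * (g1 - n) * (g0 - m)) p =
            (ev 1 n p * ev 1 (g1 - n) p) * ev 2 (g0 - m) p := by
          rw [ev_mul (m := 2) (n := 2) (natDegree_mul_le.trans (by omega)) hμ,
            ev_mul (m := 1) (n := 1) hn hν]
        have i3 : ev 4 (m * (g1 - n) ^ 2) p = ev 2 m p * ev 1 (g1 - n) p ^ 2 := by
          rw [ev_mul (m := 2) (n := 2) hm (natDegree_pow_le.trans (by omega))]
          rw [show ev 2 ((g1 - n) ^ 2) p = ev 1 (g1 - n) p ^ 2 from ev_pow (m := 1) hν 2]
        have h8 : ev 2 (g0 - m) p = -(ev 1 (g1 - n) p * ev 1 s p) := by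
          have j1 : ev 2 (g0 - m) p = ev 2 g0 p - ev 2 m p := ev_sub
          have j2 : ev 1 (g1 - n) p = ev 1 g1 p - ev 1 n p := ev_sub
          rw [j1, j2]
          linear_combination k2 - k1
        rw [ev_add, ev_sub, i1, i2, i3, h8]
        linear_combination (ev 1 (g1 - n) p ^ 2) * k1
      · have q1 := natDegree_pow_le (p := g0 - m) (n := 2)
        have q2 := natDegree_pow_le (p := g1 - n) (n := 2)
        have r1 := natDegree_mul_le (p := n) (q := g1 - n)
        have r2 := natDegree_mul_le (p := n * (g1 - n)) (q := g0 - m)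
        have r3 := natDegree_mul_le (p := m) (q := (g1 - n) ^ 2)
        refine (natDegree_add_le _ _).trans (max_le ?_ (by omega))
        exact (natDegree_sub_le _ _).trans (max_le (by omega) (by omega))
    obtain ⟨h8, h9⟩ := m3_disc h2 hn hm hsq hRes2
    have hCG : Gg = Cc := by
      rw [hGg, hCc, sub_eq_zero.1 h8, sub_eq_zero.1 h9]
    have h10 := hq none (ev 1 n none) (ev 2 m none)
    apply h10
    rw [hfCG, hCG]
    have h11 : fib 1 (2 + 2) (Cc * Cc) none = fib 1 2 Cc none * fib 1 2 Cc none := fib_mul hC hC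
    have h12 : fib 1 2 Cc none = X ^ 2 + C (ev 1 n none) * X + C (ev 2 m none) := by
      have hC2 : Cc.coeff 2 = 1 := by
        have := hC.1.coeff_natDegree
        rwa [hC.2.1] at this
      rw [fib, Finset.sum_range_succ, Finset.sum_range_succ, Finset.sum_range_one]
      simp only [Nat.sub_zero, Nat.sub_self, one_mul, pow_zero,
        show 2 - 1 = 1 from rfl, hC2, hC1, hC0, pow_one, mul_one]
      simp [ev]
    rw [show (4 : ℕ) = 2 + 2 from rfl, h11, h12]
    ring

/-- strong form of `quart_five` -/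
lemma m3_five (h2 : (2 : L) ≠ 0) (hf : WP 1 4 f) (hq : NoSq f) (hT : T.card = 5)
    (hb : ∀ p ∈ T, Bad 1 4 f p) :
    ∃ a b : L[X], a.natDegree ≤ 1 ∧ b.natDegree ≤ 1 ∧ a ≠ b ∧
      ∃ h : L[X][X], WP 1 2 h ∧ f = (X - C a) * (X - C b) * h ∧
      ∃ S ⊆ T, S.card = 3 ∧ ∃ t0 ∈ S, ev 1 (a - b) t0 = 0 ∧
        (∀ p ∈ S, Sing 1 4 f p (ev 1 a p)) ∧ (∀ p ∈ T \ S, Sing 1 4 f p (ev 1 b p)) ∧
        ∀ p ∈ T, p ≠ t0 → ev 4 (h.eval a * h.eval b) p = 0 := by
  obtain ⟨s, hs, S', hS'T, hS'c, hS's⟩ := m3_three h2 hf hq hT hb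
  set S := T.filter (fun p => Sing 1 4 f p (ev 1 s p)) with hS
  have hSs : ∀ p ∈ S, Sing 1 4 f p (ev 1 s p) := fun p hp => (Finset.mem_filter.1 hp).2
  have hST : S ⊆ T := Finset.filter_subset _ _
  have hS3 : S.card = 3 := by
    apply le_antisymm (m3_no4 h2 hf hq hs hSs)
    refine hS'c.trans (Finset.card_le_card ?_)
    intro p hp
    exact Finset.mem_filter.2 ⟨hS'T hp, hS's p hp⟩
  have hfs : f.eval s = 0 := by
    apply eq_zero_of_dv (n := 4) (T := S) (natDegree_eval hf hs) (by omega)
    intro p hp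
    exact ((sing_iff hf le_rfl (by norm_num) hs).1 (hSs p hp)).2
  obtain ⟨g, hg, hfg⟩ := exists_factor (d := 3) hf hs hfs
  have hder : f.derivative.eval s = g.eval s := by
    rw [hfg]; simp [derivative_mul]
  have hgs0 : g.eval s ≠ 0 := by
    intro h0
    rw [← hder] at h0
    exact noSq_not_double h2 hf hq hs (m2_double_of_eval (d := 2) hf hs hfs h0)
  have hgsd : (g.eval s).natDegree ≤ 3 := natDegree_eval hg hs
  have hgS : ∀ p ∈ S, ev 3 (g.eval s) p = 0 := by
    intro p hp
    rw [← hder]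
    exact ((sing_iff hf le_rfl (by norm_num) hs).1 (hSs p hp)).1
  have hrest : (T \ S).card = 2 := by
    rw [Finset.card_sdiff_of_subset hST, hT, hS3]
  have hgsing : ∀ p ∈ T \ S, ∃ v, Sing 1 3 g p v ∧ Sing 1 4 f p v := by
    intro p hp
    obtain ⟨hpT, hpS⟩ := Finset.mem_sdiff.1 hp
    obtain ⟨v, hv⟩ := hb p hpT
    have hvs : v ≠ ev 1 s p := by
      rintro rfl
      exact hpS (Finset.mem_filter.2 ⟨hpT, hv⟩)
    refine ⟨v, ?_, hv⟩
    apply m2_residual le_rfl hg (by norm_num) hs _ hvs
    rw [← hfg]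
    exact hv
  choose! v hv hv' using hgsing
  obtain ⟨b, hbd, hbv⟩ := exists_interp (n := 1) (T := T \ S) (by omega) v
  have hgb : ∀ p ∈ T \ S, Sing 1 3 g p (ev 1 b p) := by
    intro p hp
    rw [hbv p hp]
    exact hv p hp
  have hgb0 : g.eval b = 0 := by
    apply eq_zero_of_dv (n := 3) (T := T \ S) (natDegree_eval hg hbd) (by omega)
    intro p hp
    exact ((sing_iff hg le_rfl (by norm_num) hbd).1 (hgb p hp)).2
  obtain ⟨h, hh, hgh⟩ := exists_factor (d := 2) hg hbd hgb0
  have hgse : g.eval s = (s - b) * h.eval s := by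
    rw [hgh]; simp
  have hder2 : g.derivative.eval b = h.eval b := by
    rw [hgh]; simp [derivative_mul]
  have hsb : s - b ≠ 0 := by
    intro h0
    rw [h0, zero_mul] at hgse
    exact hgs0 hgse
  have hsbd : (s - b).natDegree ≤ 1 := (natDegree_sub_le _ _).trans (max_le hs hbd)
  have hhsd : (h.eval s).natDegree ≤ 2 := natDegree_eval hh hs
  have hhbd : (h.eval b).natDegree ≤ 2 := natDegree_eval hh hbd
  obtain ⟨t0, ht0⟩ := exists_zero (n := 1) le_rfl hsbd
  have ht0S : t0 ∈ S := by
    by_contra hcon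
    apply hgs0
    apply eq_zero_of_ev (n := 3) (T := insert t0 S) hgsd
    · rw [Finset.card_insert_of_notMem hcon]; omega
    · intro p hp
      rcases Finset.mem_insert.1 hp with rfl | hp
      · rw [hgse, ev_mul (m := 1) (n := 2) hsbd hhsd, ht0, zero_mul]
      · exact hgS p hp
  refine ⟨s, b, hs, hbd, sub_ne_zero.1 hsb, h, hh, by rw [hfg, hgh]; ring, S, hST, hS3, t0, ht0S,
    ht0, hSs, fun p hp => ?_, fun p hp hpt => ?_⟩
  · rw [hbv p hp]
    exact hv' p hp
  · rw [ev_mul (m := 2) (n := 2) hhsd hhbd]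
    by_cases hpS : p ∈ S
    · have h3 := hgS p hpS
      rw [hgse, ev_mul (m := 1) (n := 2) hsbd hhsd] at h3
      rcases mul_eq_zero.1 h3 with h4 | h4
      · exfalso
        apply hsb
        apply eq_zero_of_ev (n := 1) (T := {p, t0}) hsbd
        · rw [Finset.card_pair hpt]; norm_num
        · intro q hq
          rw [Finset.mem_insert, Finset.mem_singleton] at hq
          rcases hq with rfl | rfl
          · exact h4
          · exact ht0
      · rw [h4, zero_mul]
    · have h3 := ((sing_iff hg le_rfl (by norm_num) hbd).1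
        (hgb p (Finset.mem_sdiff.2 ⟨hp, hpS⟩))).1
      have h4 : ev 2 (g.derivative.eval b) p = 0 := h3
      rw [hder2] at h4
      rw [h4, mul_zero]

/-- M3 -/
theorem quart_five (h2 : (2 : L) ≠ 0) (hf : WP 1 4 f) (hq : NoSq f) (hT : T.card = 5)
    (hb : ∀ p ∈ T, Bad 1 4 f p) :
    ∃ t0 ∈ T, ∃ a b : L[X], a.natDegree ≤ 1 ∧ b.natDegree ≤ 1 ∧ a ≠ b ∧ ev 1 (a - b) t0 = 0 ∧
      ∃ h : L[X][X], WP 1 2 h ∧ f = (X - C a) * (X - C b) * h ∧
        ∀ p ∈ T, p ≠ t0 → ev 4 (h.eval a * h.eval b) p = 0 := by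
  obtain ⟨a, b, ha, hb', hab, h, hh, hfh, S, hST, hSc, t0, ht0, ht, hS1, hS2, hfin⟩ :=
    m3_five h2 hf hq hT hb
  exact ⟨t0, hST ht0, a, b, ha, hb', hab, ht, h, hh, hfh, hfin⟩

/-- M3 -/
theorem quart_six (h2 : (2 : L) ≠ 0) (hf : WP 1 4 f) (hq : NoSq f) (hT : T.card = 6)
    (hb : ∀ p ∈ T, Bad 1 4 f p) :
    ∃ m : Fin 4 → L[X], (∀ i, (m i).natDegree ≤ 1) ∧ f = ∏ i, (X - C (m i)) ∧
      ∀ p ∈ T, ∃ i j : Fin 4, i < j ∧ ev 1 (m i - m j) p = 0 := by
  obtain ⟨T5, hT5, hT5c⟩ := Finset.exists_subset_card_eq (s := T) (n := 5) (by omega)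
  obtain ⟨a, b, ha, hb', hab, h, hh, hfh, S, hST, hSc, t0, ht0, ht, hS1, hS2, hfin⟩ :=
    m3_five h2 hf hq hT5c (fun p hp => hb p (hT5 hp))
  have hrest : (T \ T5).Nonempty := by
    rw [← Finset.card_pos, Finset.card_sdiff_of_subset hT5]
    omega
  obtain ⟨p6, hp6⟩ := hrest
  obtain ⟨hp6T, hp6T5⟩ := Finset.mem_sdiff.1 hp6
  obtain ⟨v, hv⟩ := hb p6 hp6T
  have hva : v ≠ ev 1 a p6 := by
    rintro rfl
    have h3 := m3_no4 h2 hf hq ha (S := insert p6 S) (fun p hp => by
      rcases Finset.mem_insert.1 hp with rfl | hp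
      · exact hv
      · exact hS1 p hp)
    rw [Finset.card_insert_of_notMem (fun h => hp6T5 (hST h))] at h3
    omega
  have hvb : v ≠ ev 1 b p6 := by
    rintro rfl
    have h3 := m3_no4 h2 hf hq hb' (S := insert p6 (insert t0 (T5 \ S))) (fun p hp => by
      rcases Finset.mem_insert.1 hp with rfl | hp
      · exact hv
      · rcases Finset.mem_insert.1 hp with rfl | hp
        · rw [ev_sub, sub_eq_zero] at ht
          rw [← ht]
          exact hS1 _ ht0
        · exact hS2 p hp)
    have h4 : p6 ∉ insert t0 (T5 \ S) := by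
      intro h
      rcases Finset.mem_insert.1 h with rfl | h
      · exact hp6T5 (hST ht0)
      · exact hp6T5 (Finset.mem_sdiff.1 h).1
    rw [Finset.card_insert_of_notMem h4,
      Finset.card_insert_of_notMem (fun h => (Finset.mem_sdiff.1 h).2 ht0),
      Finset.card_sdiff_of_subset hST] at h3
    omega
  have hg : WP 1 3 ((X - C b) * h) := WP_mul (WP_X_sub_C hb') hh
  have h3 : Sing 1 3 ((X - C b) * h) p6 v := by
    apply m2_residual le_rfl hg (by norm_num) ha _ hva
    rw [← mul_assoc, ← hfh]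
    exact hv
  have h4 : Sing 1 2 h p6 v := m2_residual le_rfl hh (by norm_num) hb' h3 hvb
  have h5 := ((sing_quad h2 hh le_rfl).1 h4).2
  have hh1 : (h.coeff 1).natDegree ≤ 1 := by simpa using hh.2.2 1 (by norm_num)
  have hh0 : (h.coeff 0).natDegree ≤ 2 := by simpa using hh.2.2 2 (by norm_num)
  obtain ⟨R, hR, hRe⟩ := m2_square (n := 1) (T := {p6}) (P := h.coeff 1 ^ 2 - 4 * h.coeff 0) (by
      refine (natDegree_sub_le _ _).trans (max_le (natDegree_pow_le.trans (by omega)) ?_)
      rw [show (4 : L[X]) = C 4 from (map_ofNat C 4).symm]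
      exact (natDegree_C_mul_le _ _).trans hh0) (by simp) (by
      intro q hq'
      rw [Finset.mem_singleton] at hq'
      subst hq'
      exact h5)
  obtain ⟨c, d, hc, hd, hcd⟩ := m2_split h2 hh hR hRe
  have hm : ∀ i, ((![a, b, c, d] : Fin 4 → L[X]) i).natDegree ≤ 1 := by
    intro i
    fin_cases i
    · exact ha
    · exact hb'
    · exact hc
    · exact hd
  have hfm : f = ∏ i, (X - C ((![a, b, c, d] : Fin 4 → L[X]) i)) := by
    rw [hfh, hcd, Fin.prod_univ_four]
    simp [mul_assoc]
  refine ⟨![a, b, c, d], hm, hfm, fun p hp => ?_⟩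
  apply m2_prod_sing le_rfl (by norm_num) hm
  rw [← hfm]
  exact hb p hp

/-- M3 -/
theorem quart_bad_card (h2 : (2 : L) ≠ 0) (hf : WP 1 4 f) (hq : NoSq f) :
    {p | Bad 1 4 f p}.Finite ∧ Set.ncard {p | Bad 1 4 f p} ≤ 6 := by
  apply m2_six
  intro T hT hTb
  obtain ⟨m, hm, hfm, -⟩ := quart_six h2 hf hq hT hTb
  have hne : ∀ i j, i < j → m i ≠ m j := by
    intro i j hij heq
    apply noSq_not_double h2 hf hq (hm i)
    rw [hfm, sq]
    have h3 : ∏ x ∈ ({i, j} : Finset (Fin 4)), (X - C (m x)) ∣ ∏ x, (X - C (m x)) :=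
      Finset.prod_dvd_prod_of_subset _ _ _ (Finset.subset_univ _)
    rw [Finset.prod_pair hij.ne, ← heq] at h3
    exact h3
  rw [hfm]
  exact m2_prod_card le_rfl (by norm_num) hm hne (by decide)

end

end
end Pool.Agent.Helper19.DP1
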