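import Pool.Agent.Helper19.DP1.Core7c
import Pool.Agent.Helper19.DP1.Sums
import Pool.Agent.Helper19.DP1.M3

/-! M19: four points, three of them collinear; reduction to the fourth point at infinity. -/

namespace Pool.Agent.Helper19.DP1
open Polynomial Classical
noncomputable section

section
variable {L : Type*} [Field L]

theorem m19_coll_mono {f : L[X][X]} {T T' : Finset (Option L)} (h : T' ⊆ T) (hc : Coll f T) :
    Coll f T' := by
  obtain ⟨s, hs, hT⟩ := hc
  exact ⟨s, hs, fun p hp => hT p (h hp)⟩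

theorem m19_coll_symY {f : L[X][X]} (hf : WP 1 4 f) (r : Option L) (T : Finset (Option L)) :
    Coll (symY 1 4 r f) (T.image (symP r)) ↔ Coll f T := by
  constructor
  · rintro ⟨s', hs', h⟩
    obtain ⟨s, hs, rfl⟩ := (sym_bij r 1).surjOn hs'
    refine ⟨s, hs, fun p hp => ?_⟩
    have h1 := h (symP r p) (Finset.mem_image_of_mem _ hp)
    rw [ev_sym hs] at h1
    exact (sing_symY hf le_rfl (by norm_num)).mp h1
  · rintro ⟨s, hs, h⟩
    refine ⟨sym r 1 s, natDegree_sym hs, fun p' hp' => ?_⟩
    obtain ⟨p, hp, rfl⟩ := Finset.mem_image.mp hp'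
    rw [ev_sym hs]
    exact (sing_symY hf le_rfl (by norm_num)).mpr (h p hp)

end

section
variable (K : Type*) [Field K] [Fintype K]

variable {K} in
theorem m19_coll_frob {f : K[X][X]} (hf : WP 1 4 f) {T : Finset (P1 K)}
    (h : Coll (up2 f) T) : Coll (up2 f) (T.image (frob K)) := by
  obtain ⟨s, hs, h⟩ := h
  refine ⟨phi K s, by rwa [natDegree_phi], fun p' hp' => ?_⟩
  obtain ⟨p, hp, rfl⟩ := Finset.mem_image.mp hp'
  rw [ev_phi]
  exact sing_frob hf (h p hp)

variable {K} in
/-- two collinear triples in a set of four points coincide -/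
theorem m19_triple_unique {L : Type*} [Field L] [IsAlgClosed L] (h2 : (2 : L) ≠ 0)
    {f : L[X][X]} (hf : WP 1 4 f) (hq : NoSq f) {T A B : Finset (Option L)}
    (hT : T.card = 4) (hA : A ⊆ T) (hB : B ⊆ T) (hAc : A.card = 3) (hBc : B.card = 3)
    (hAl : Coll f A) (hBl : Coll f B) : A = B := by
  by_contra hne
  obtain ⟨s, hs, hsA⟩ := hAl
  obtain ⟨t, ht, htB⟩ := hBl
  have hunion : (A ∪ B) ⊆ T := Finset.union_subset hA hB
  have hc := Finset.card_union_add_card_inter A B
  have hu : (A ∪ B).card ≤ 4 := hT ▸ Finset.card_le_card hunion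
  have hi : 2 ≤ (A ∩ B).card := by omega
  have hi3 : (A ∩ B).card < 3 := by
    by_contra h3
    push Not at h3
    have h4 : A ∩ B = A := Finset.eq_of_subset_of_card_le Finset.inter_subset_left (by omega)
    have h5 : A ∩ B = B := Finset.eq_of_subset_of_card_le Finset.inter_subset_right (by omega)
    exact hne (h4.symm.trans h5)
  have hst : s = t := by
    rw [← sub_eq_zero]
    apply eq_zero_of_ev (n := 1) (T := A ∩ B)
    · exact (natDegree_sub_le _ _).trans (max_le hs ht)
    · omega
    · intro p hp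
      rw [Finset.mem_inter] at hp
      rw [ev_sub, sub_eq_zero]
      exact sing_unique4 hf hq (hsA p hp.1) (htB p hp.2)
  have hTu : A ∪ B = T := Finset.eq_of_subset_of_card_le hunion (by omega)
  apply quart_no4 h2 hf hq hT
  refine ⟨s, hs, fun p hp => ?_⟩
  rw [← hTu, Finset.mem_union] at hp
  rcases hp with hp | hp
  · exact hsA p hp
  · rw [hst]; exact htB p hp

variable {K} in
/-- not in general position iff exactly one of the conditions `ColAt r` holds -/
theorem m19_exists_unique (h2 : (2 : K) ≠ 0) {f : K[X][X]} (hf : WP 1 4 f)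
    (hq : NoSq (up2 f)) {T : Finset (P1 K)} (hT : T ∈ Stab K 4) (h : ¬ Gen K f T) :
    ∃! r : Option K, ColAt K r f T := by
  have h2' : (2 : Om K) ≠ 0 := by
    intro h0
    apply h2
    apply (algebraMap K (Om K)).injective
    rw [map_ofNat, map_zero, h0]
  rw [mem_Stab] at hT
  obtain ⟨hst, hcard⟩ := hT
  unfold Gen at h
  push Not at h
  obtain ⟨A, hA, hAc, hAl⟩ := h
  have huniq : ∀ B ⊆ T, B.card = 3 → Coll (up2 f) B → B = A := by
    intro B hB hBc hBl
    exact m19_triple_unique h2' (WP_up2 hf) hq hcard hB hA hBc hAc hBl hAl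
  have hAimg : A.image (frob K) = A := by
    apply huniq
    · intro p' hp'
      obtain ⟨p, hp, rfl⟩ := Finset.mem_image.mp hp'
      exact hst p (hA hp)
    · rw [Finset.card_image_of_injective _ frob_injective, hAc]
    · exact m19_coll_frob hf hAl
  have hsd : (T \ A).card = 1 := by
    rw [Finset.card_sdiff_of_subset hA]
    omega
  obtain ⟨p, hp⟩ := Finset.card_eq_one.mp hsd
  have hpT : p ∈ T ∧ p ∉ A := by
    rw [← Finset.mem_sdiff, hp]
    exact Finset.mem_singleton_self p
  have hfp : frob K p ∈ T \ A := by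
    rw [Finset.mem_sdiff]
    refine ⟨hst p hpT.1, fun hmem => ?_⟩
    rw [← hAimg] at hmem
    obtain ⟨p', hp', he⟩ := Finset.mem_image.mp hmem
    have := frob_injective he
    rw [this] at hp'
    exact hpT.2 hp'
  rw [hp, Finset.mem_singleton, frob_eq_iff] at hfp
  obtain ⟨r, hr⟩ := hfp
  refine ⟨r, ⟨A, hA, hAc, hAl, by rw [hr]; exact hpT.1, by rw [hr]; exact hpT.2⟩, ?_⟩
  rintro r' ⟨B, hB, hBc, hBl, h3, h4⟩
  have hBA := huniq B hB hBc hBl
  rw [hBA] at h4
  have h5 : upP r' ∈ T \ A := Finset.mem_sdiff.mpr ⟨h3, h4⟩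
  rw [hp, Finset.mem_singleton] at h5
  apply upP_injective
  rw [h5, hr]

variable {K} in
theorem m19_colAt_not_gen {r : Option K} {f : K[X][X]} {T : Finset (P1 K)}
    (h : ColAt K r f T) : ¬ Gen K f T := by
  obtain ⟨A, hA, hAc, hAl, -, -⟩ := h
  intro hg
  exact hg A hA hAc hAl

variable {K} in
theorem m19_colAt_sym (r : Option K) {f : K[X][X]} (hf : WP 1 4 f) (T : Finset (P1 K)) :
    ColAt K r f T ↔ ColAt K none (symY 1 4 r f) (T.image (symP (upP r))) := by
  have hinj := (symP_bijective (upP r)).injective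
  unfold ColAt
  constructor
  · rintro ⟨A, hA, hAc, hAl, h1, h3⟩
    refine ⟨A.image (symP (upP r)), Finset.image_subset_image hA, ?_, ?_, ?_, ?_⟩
    · rw [Finset.card_image_of_injective _ hinj, hAc]
    · rw [up2_symY]
      exact (m19_coll_symY (WP_up2 hf) _ _).mpr hAl
    · show (none : P1 K) ∈ _
      rw [← symP_self (upP r)]
      exact Finset.mem_image_of_mem _ h1
    · show (none : P1 K) ∉ _
      rw [← symP_self (upP r)]
      intro hmem
      obtain ⟨p, hp, he⟩ := Finset.mem_image.mp hmem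
      rw [hinj he] at hp
      exact h3 hp
  · rintro ⟨A', hA', hAc, hAl, h1, h3⟩
    have h1' : (none : P1 K) ∈ T.image (symP (upP r)) := h1
    have h3' : (none : P1 K) ∉ A' := h3
    obtain ⟨A, hA, rfl⟩ := Finset.subset_image_iff.mp hA'
    refine ⟨A, hA, ?_, ?_, ?_, ?_⟩
    · rwa [Finset.card_image_of_injective _ hinj] at hAc
    · rw [up2_symY] at hAl
      exact (m19_coll_symY (WP_up2 hf) _ _).mp hAl
    · rw [← symP_self (upP r)] at h1'
      obtain ⟨p, hp, he⟩ := Finset.mem_image.mp h1'
      rwa [hinj he] at hp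
    · intro hmem
      apply h3'
      rw [← symP_self (upP r)]
      exact Finset.mem_image_of_mem _ hmem

/-- M19 -/
theorem SV_four_col_sym (h2 : (2 : K) ≠ 0) :
    SVG K 4 (fun f T => ¬ Gen K f T) =
      ((Fintype.card K : ℤ) + 1) * SVG K 4 (ColAt K none) := by
  have h1 : SVG K 4 (fun f T => ¬ Gen K f T) = ∑ r : Option K, SVG K 4 (ColAt K r) := by
    unfold SVG
    rw [Finset.sum_comm]
    apply Finset.sum_congr rfl
    intro c hc
    rw [mem_Q4] at hc
    have h3 : ∀ G : Finset (P1 K) → Prop,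
        ∑ T ∈ (Stab K 4).filter
          (fun T => (∀ p ∈ T, Bad 1 4 (up2 (quart c)) p) ∧ G T), mu K T =
        ∑ T ∈ (Stab K 4).filter (fun T => (∀ p ∈ T, Bad 1 4 (up2 (quart c)) p)),
          if G T then mu K T else 0 := by
      intro G
      rw [← Finset.filter_filter, Finset.sum_filter]
    rw [h3 (fun T => ¬ Gen K (quart c) T)]
    simp_rw [h3]
    rw [Finset.sum_comm]
    apply Finset.sum_congr rfl
    intro T hT
    rw [Finset.mem_filter] at hT
    by_cases hg : Gen K (quart c) T
    · rw [if_neg (not_not.mpr hg)]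
      symm
      apply Finset.sum_eq_zero
      intro r _
      rw [if_neg]
      intro hr
      exact m19_colAt_not_gen hr hg
    · rw [if_pos hg]
      obtain ⟨r, hr, hru⟩ := m19_exists_unique h2 hc.1 hc.2 hT.1 hg
      rw [Finset.sum_eq_single r]
      · rw [if_pos hr]
      · intro r' _ hne
        rw [if_neg]
        intro hr'
        exact hne (hru r' hr')
      · intro h
        exact absurd (Finset.mem_univ r) h
  have h3 : ∀ r : Option K, SVG K 4 (ColAt K r) = SVG K 4 (ColAt K none) := by
    intro r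
    apply SVG_sym r
    intro f T hf _ _ _
    exact m19_colAt_sym r hf T
  rw [h1]
  simp_rw [h3]
  rw [Finset.sum_const, Finset.card_univ, Fintype.card_option, nsmul_eq_mul]
  push_cast
  ring

end

end
end Pool.Agent.Helper19.DP1
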