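import Pool.Agent.Helper19.DP1.Core
import Pool.Agent.Helper19.DP1.Sums

/-! M20: four points, three of them collinear, the fourth at infinity. -/

namespace Pool.Agent.Helper19.DP1
open Polynomial Classical
noncomputable section

section
variable {L : Type*} [Field L]

theorem m20_coeffs {a3 a2 a1 a0 b3 b2 b1 b0 : L}
    (h : (X ^ 4 + C a3 * X ^ 3 + C a2 * X ^ 2 + C a1 * X + C a0 : L[X]) =
      X ^ 4 + C b3 * X ^ 3 + C b2 * X ^ 2 + C b1 * X + C b0) :
    a3 = b3 ∧ a2 = b2 ∧ a1 = b1 ∧ a0 = b0 := by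
  have g0 := congrArg (fun P => coeff P 0) h
  have g1 := congrArg (fun P => coeff P 1) h
  have g2 := congrArg (fun P => coeff P 2) h
  have g3 := congrArg (fun P => coeff P 3) h
  simp [coeff_X, coeff_C] at g0 g1 g2 g3
  exact ⟨g3, g2, g1, g0⟩

theorem m20_coeff (c : L[X] × L[X] × L[X] × L[X]) :
    (quart c).coeff 4 = 1 ∧ (quart c).coeff 3 = c.1 ∧ (quart c).coeff 2 = c.2.1 ∧
      (quart c).coeff 1 = c.2.2.1 ∧ (quart c).coeff 0 = c.2.2.2 := by
  refine ⟨?_, ?_, ?_, ?_, ?_⟩ <;> simp [quart, coeff_X, coeff_C]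

theorem m20_fib (c : L[X] × L[X] × L[X] × L[X]) (p : Option L) :
    fib 1 4 (quart c) p = X ^ 4 + C (ev 1 c.1 p) * X ^ 3 + C (ev 2 c.2.1 p) * X ^ 2
      + C (ev 3 c.2.2.1 p) * X + C (ev 4 c.2.2.2 p) := by
  obtain ⟨e4, e3, e2, e1, e0⟩ := m20_coeff c
  have h0 : ev 0 (1 : L[X]) p = 1 := by
    have := ev_C_zero (p := p) (1 : L)
    simpa using this
  unfold fib
  simp only [Finset.sum_range_succ, Finset.sum_range_zero, Nat.sub_self, Nat.sub_zero,
    show 4 - 1 = 3 from rfl, show 4 - 2 = 2 from rfl, show 4 - 3 = 1 from rfl, e4, e3, e2, e1, e0,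
    mul_zero, one_mul, h0, mul_one, map_one, zero_add, pow_zero, pow_one]

theorem m20_noSq (h2 : (2 : L) ≠ 0) (c1 c2 c3 : L[X]) :
    NoSq (quart (c1, c2, c3, 0)) ↔
      ∀ p : Option L, ¬ (ev 3 c3 p = 0 ∧ ev 1 c1 p ^ 2 = 4 * ev 2 c2 p) := by
  unfold NoSq
  constructor
  · intro h p hp
    apply h p (ev 1 c1 p / 2) 0
    rw [m20_fib]
    simp only [hp.1, ev_zero]
    have e : ev 2 c2 p = (ev 1 c1 p / 2) ^ 2 := by
      field_simp
      linear_combination -hp.2
    rw [e]
    have e1 : ev 1 c1 p = 2 * (ev 1 c1 p / 2) := by field_simp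
    nth_rewrite 1 [e1]
    simp only [map_zero, map_mul, map_pow, zero_mul, add_zero, map_ofNat]
    ring
  · intro h p a b hab
    rw [m20_fib] at hab
    simp only [ev_zero] at hab
    have hr : (X ^ 2 + C a * X + C b : L[X]) ^ 2 = X ^ 4 + C (2 * a) * X ^ 3
        + C (a ^ 2 + 2 * b) * X ^ 2 + C (2 * a * b) * X + C (b ^ 2) := by
      simp only [map_mul, map_add, map_pow, map_ofNat]
      ring
    rw [hr] at hab
    obtain ⟨g3, g2, g1, g0⟩ := m20_coeffs hab
    apply h p
    have hb : b = 0 := by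
      have := g0.symm
      exact pow_eq_zero_iff (two_ne_zero) |>.mp this
    subst hb
    constructor
    · rw [g1]; ring
    · rw [g3, g2]; ring

end

section
variable {K : Type*} [Field K] [Fintype K]

theorem m20_up_eval (f : K[X][X]) (s : K[X]) : (up2 f).eval (up s) = up (f.eval s) := by
  unfold up2 up
  rw [← coe_mapRingHom, eval_map, eval₂_at_apply]

theorem m20_derivative (f : K[X][X]) : derivative (up2 f) = up2 (derivative f) := by
  unfold up2
  rw [derivative_map]

/-- singular points over rational points -/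
theorem m20_sing_rat {f : K[X][X]} (hf : WP 1 4 f) (ν : K) :
    Sing 1 4 (up2 f) none (algebraMap K (Om K) ν) ↔
      ((f.derivative.eval (C ν * X)).coeff 3 = 0 ∧ (f.eval (C ν * X)).coeff 4 = 0 ∧
        (f.eval (C ν * X)).coeff 3 = 0) := by
  have hs : (up (C ν * X) : (Om K)[X]).natDegree ≤ 1 := by
    rw [natDegree_up]
    exact (natDegree_C_mul_le _ _).trans natDegree_X_le
  have h1 := sing_iff (p := none) (WP_up2 hf) (le_refl 1) (by norm_num) hs
  have h2 : ev 1 (up (C ν * X)) none = algebraMap K (Om K) ν := by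
    show (up (C ν * X)).coeff 1 = _
    rw [coeff_up]; simp
  rw [h2] at h1
  rw [h1, m20_derivative, m20_up_eval, m20_up_eval]
  show (up _).coeff 3 = 0 ∧ ((up _).coeff 4 = 0 ∧ (up _).coeff (4 - 1) = 0) ↔ _
  rw [coeff_up, coeff_up, coeff_up]
  simp only [map_eq_zero]

theorem m20_sing_zero {c : K[X] × K[X] × K[X] × K[X]} (hf : WP 1 4 (quart c)) (p : P1 K) :
    Sing 1 4 (up2 (quart c)) p 0 ↔ (ev 3 (up c.2.2.1) p = 0 ∧ dv 4 (up c.2.2.2) p) := by
  have hs : (0 : (Om K)[X]).natDegree ≤ 1 := by simp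
  have h1 := sing_iff (p := p) (WP_up2 hf) (le_refl 1) (by norm_num) hs
  rw [ev_zero] at h1
  rw [h1, m20_derivative, ← up_zero, m20_up_eval, m20_up_eval]
  have e1 : (derivative (quart c)).eval 0 = c.2.2.1 := by
    simp [quart]
  have e2 : (quart c).eval 0 = c.2.2.2 := by
    simp [quart]
  rw [e1, e2]

/-- `s` is the section through the singular points over `T` except the one at infinity -/
def m20R (s : K[X]) (f : K[X][X]) (T : Finset (P1 K)) : Prop :=
  none ∈ T ∧ (∀ p ∈ T, p ≠ none → Sing 1 4 (up2 f) p (ev 1 (up s) p)) ∧ Bad 1 4 (up2 f) none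

theorem m20_shift {f : K[X][X]} (hf : WP 1 4 f) {s : K[X]} (hs : s.natDegree ≤ 1)
    (T : Finset (P1 K)) : m20R 0 (f.comp (X + C s)) T ↔ m20R s f T := by
  have hs' : (up s : (Om K)[X]).natDegree ≤ 1 := by rwa [natDegree_up]
  unfold m20R
  rw [up2_comp, bad_comp (WP_up2 hf) (le_refl 1) (by norm_num) hs']
  have : ∀ p, Sing 1 4 ((up2 f).comp (X + C (up s))) p (ev 1 (up 0) p) ↔
      Sing 1 4 (up2 f) p (ev 1 (up s) p) := by
    intro p
    rw [sing_comp (WP_up2 hf) (le_refl 1) (by norm_num) hs', up_zero, ev_zero, zero_add]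
  simp only [this]

theorem m20_unique {f : K[X][X]} (hf : WP 1 4 f) (hq : NoSq (up2 f)) {T : Finset (P1 K)}
    (hT : T.card = 4) {s s' : (Om K)[X]} (hs : s.natDegree ≤ 1) (hs' : s'.natDegree ≤ 1)
    (h : ∀ p ∈ T, p ≠ none → Sing 1 4 (up2 f) p (ev 1 s p))
    (h' : ∀ p ∈ T, p ≠ none → Sing 1 4 (up2 f) p (ev 1 s' p)) : s = s' := by
  have h0 : s - s' = 0 := by
    apply eq_zero_of_ev (n := 1) (T := T.erase none)
    · exact (natDegree_sub_le _ _).trans (max_le hs hs')
    · have := Finset.pred_card_le_card_erase (s := T) (a := none)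
      omega
    · intro p hp
      rw [Finset.mem_erase] at hp
      rw [ev_sub, sub_eq_zero]
      exact sing_unique4 (WP_up2 hf) hq (h p hp.2 hp.1) (h' p hp.2 hp.1)
  exact sub_eq_zero.mp h0

theorem m20_exists {f : K[X][X]} (hf : WP 1 4 f) (hq : NoSq (up2 f)) {T : Finset (P1 K)}
    (hT : T ∈ Stab K 4) :
    ((∀ p ∈ T, Bad 1 4 (up2 f) p) ∧ ColAt K none f T) ↔ ∃ s ∈ V K 1, m20R s f T := by
  rw [mem_Stab] at hT
  constructor
  · rintro ⟨hb, T', hT', hc, ⟨s, hs, hS⟩, hn, hn'⟩
    have hn0 : (none : P1 K) ∈ T := hn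
    have hn0' : (none : P1 K) ∉ T' := hn'
    have hTe : T' = T.erase none := by
      apply Finset.eq_of_subset_of_card_le
      · intro x hx
        rw [Finset.mem_erase]
        refine ⟨?_, hT' hx⟩
        rintro rfl
        exact hn0' hx
      · rw [Finset.card_erase_of_mem hn0, hT.2, hc]
    have hsing : ∀ p ∈ T, p ≠ none → Sing 1 4 (up2 f) p (ev 1 s p) := by
      intro p hp hpn
      apply hS
      rw [hTe, Finset.mem_erase]
      exact ⟨hpn, hp⟩
    have hphi : phi K s = s := by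
      apply m20_unique hf hq hT.2 (by rwa [natDegree_phi]) hs _ hsing
      intro p hp hpn
      have him := stab_image (frob_injective (K := K)) hT.1
      rw [← him] at hp
      obtain ⟨r, hr, rfl⟩ := (@Finset.mem_image _ _ (_) _ _ _).mp hp
      rw [ev_phi]
      apply sing_frob hf
      apply hsing r hr
      rintro rfl
      exact hpn rfl
    obtain ⟨s0, hs0⟩ := phi_eq_iff.mp hphi
    refine ⟨s0, ?_, hn0, ?_, hb none hn0⟩
    · rw [mem_V, ← natDegree_up, hs0]; exact hs
    · rw [hs0]; exact hsing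
  · rintro ⟨s, hs, hn, hS, hB⟩
    constructor
    · intro p hp
      by_cases hpn : p = none
      · rw [hpn]; exact hB
      · exact ⟨_, hS p hp hpn⟩
    · refine ⟨T.erase none, Finset.erase_subset _ _, ?_, ⟨up s, ?_, ?_⟩, hn, ?_⟩
      · rw [Finset.card_erase_of_mem hn, hT.2]
      · rw [natDegree_up]; exact mem_V.mp hs
      · intro p hp
        rw [Finset.mem_erase] at hp
        exact hS p hp.2 hp.1
      · show (none : P1 K) ∉ T.erase none
        simp

/-! ### translation -/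

/-- coefficients of a quartic -/
def m20co (f : K[X][X]) : K[X] × K[X] × K[X] × K[X] := (f.coeff 3, f.coeff 2, f.coeff 1, f.coeff 0)

theorem m20_quart_co {f : K[X][X]} (hf : WP 1 4 f) : quart (m20co f) = f := (eq_quart hf).symm

theorem m20_co_quart (c : K[X] × K[X] × K[X] × K[X]) : m20co (quart c) = c := by
  obtain ⟨e4, e3, e2, e1, e0⟩ := m20_coeff c
  unfold m20co
  rw [e3, e2, e1, e0]

theorem m20_comp_comp (f : K[X][X]) (s : K[X]) :
    (f.comp (X + C s)).comp (X + C (-s)) = f := by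
  rw [comp_assoc]
  simp

theorem m20_comp_comp' (f : K[X][X]) (s : K[X]) :
    (f.comp (X + C (-s))).comp (X + C s) = f := by
  rw [comp_assoc]
  simp

theorem m20_shift_mem {c : K[X] × K[X] × K[X] × K[X]} (hc : c ∈ Q4 K) {s : K[X]}
    (hs : s.natDegree ≤ 1) : m20co ((quart c).comp (X + C s)) ∈ Q4 K := by
  rw [mem_Q4] at hc ⊢
  have hw := WP_comp hc.1 hs
  rw [m20_quart_co hw]
  refine ⟨hw, ?_⟩
  rw [up2_comp, noSq_comp (WP_up2 hc.1) (by rwa [natDegree_up])]
  exact hc.2

theorem m20_card_shift (T : Finset (P1 K)) {s : K[X]} (hs : s ∈ V K 1) :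
    ((Q4 K).filter (fun c => m20R s (quart c) T)).card =
      ((Q4 K).filter (fun c => m20R 0 (quart c) T)).card := by
  rw [mem_V] at hs
  have hs' : (-s).natDegree ≤ 1 := by rwa [natDegree_neg]
  apply Finset.card_nbij' (fun c => m20co ((quart c).comp (X + C s)))
    (fun c => m20co ((quart c).comp (X + C (-s))))
  · intro c hc
    have hc' := Finset.mem_filter.mp (Finset.mem_coe.mp hc)
    apply Finset.mem_coe.mpr
    apply Finset.mem_filter.mpr
    refine ⟨m20_shift_mem hc'.1 hs, ?_⟩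
    have hw := (mem_Q4.mp hc'.1).1
    rw [m20_quart_co (WP_comp hw hs), m20_shift hw hs]
    exact hc'.2
  · intro c hc
    have hc' := Finset.mem_filter.mp (Finset.mem_coe.mp hc)
    apply Finset.mem_coe.mpr
    apply Finset.mem_filter.mpr
    refine ⟨m20_shift_mem hc'.1 hs', ?_⟩
    have hw := (mem_Q4.mp hc'.1).1
    rw [m20_quart_co (WP_comp hw hs'), ← m20_shift (WP_comp hw hs') hs, m20_comp_comp']
    exact hc'.2
  · intro c hc
    have hc' := Finset.mem_filter.mp (Finset.mem_coe.mp hc)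
    have hw := (mem_Q4.mp hc'.1).1
    show m20co ((quart (m20co ((quart c).comp (X + C s)))).comp (X + C (-s))) = c
    rw [m20_quart_co (WP_comp hw hs), m20_comp_comp, m20_co_quart]
  · intro c hc
    have hc' := Finset.mem_filter.mp (Finset.mem_coe.mp hc)
    have hw := (mem_Q4.mp hc'.1).1
    show m20co ((quart (m20co ((quart c).comp (X + C (-s))))).comp (X + C s)) = c
    rw [m20_quart_co (WP_comp hw hs'), m20_comp_comp', m20_co_quart]

/-- number of normalised quartics -/
def m20N (T : Finset (P1 K)) : ℤ := (((Q4 K).filter (fun c => m20R 0 (quart c) T)).card : ℤ)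

theorem m20_SVG : SVG K 4 (ColAt K none) =
    (Fintype.card K : ℤ) ^ 2 * ∑ T ∈ Stab K 4, mu K T * m20N T := by
  unfold SVG
  have h1 : ∀ c ∈ Q4 K, ∑ T ∈ (Stab K 4).filter
      (fun T => (∀ p ∈ T, Bad 1 4 (up2 (quart c)) p) ∧ ColAt K none (quart c) T), mu K T =
      ∑ T ∈ Stab K 4, ∑ s ∈ V K 1, if m20R s (quart c) T then mu K T else 0 := by
    intro c hc
    obtain ⟨hw, hq⟩ := mem_Q4.mp hc
    rw [Finset.sum_filter]
    apply Finset.sum_congr rfl
    intro T hT
    by_cases h : (∀ p ∈ T, Bad 1 4 (up2 (quart c)) p) ∧ ColAt K none (quart c) T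
    · rw [if_pos h]
      obtain ⟨s, hs, hR⟩ := (m20_exists hw hq hT).mp h
      rw [Finset.sum_eq_single_of_mem s hs]
      · rw [if_pos hR]
      · intro s' hs' hne
        rw [if_neg]
        intro hR'
        apply hne
        apply up_injective
        exact m20_unique hw hq (mem_Stab.mp hT).2 (by rw [natDegree_up]; exact mem_V.mp hs')
          (by rw [natDegree_up]; exact mem_V.mp hs) hR'.2.1 hR.2.1
    · rw [if_neg h]
      symm
      apply Finset.sum_eq_zero
      intro s hs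
      rw [if_neg]
      intro hR
      exact h ((m20_exists hw hq hT).mpr ⟨s, hs, hR⟩)
  rw [Finset.sum_congr rfl h1]
  have h2 : ∑ c ∈ Q4 K, ∑ T ∈ Stab K 4, ∑ s ∈ V K 1,
      (if m20R s (quart c) T then mu K T else 0) =
      ∑ s ∈ V K 1, ∑ T ∈ Stab K 4, ∑ c ∈ Q4 K, (if m20R s (quart c) T then mu K T else 0) := by
    rw [Finset.sum_comm]
    rw [Finset.sum_congr rfl (fun T _ => Finset.sum_comm)]
    rw [Finset.sum_comm]
  rw [h2]
  have h3 : ∀ s ∈ V K 1, ∑ T ∈ Stab K 4, ∑ c ∈ Q4 K,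
      (if m20R s (quart c) T then mu K T else 0) = ∑ T ∈ Stab K 4, mu K T * m20N T := by
    intro s hs
    apply Finset.sum_congr rfl
    intro T _
    rw [← Finset.sum_filter, Finset.sum_const, m20_card_shift T hs]
    unfold m20N
    rw [nsmul_eq_mul]
    ring
  rw [Finset.sum_congr rfl h3, Finset.sum_const, card_V, nsmul_eq_mul]
  push_cast
  ring

/-- stable sets containing the point at infinity -/
theorem m20_insert (N : Finset (P1 K) → ℤ) (h0 : ∀ T, none ∉ T → N T = 0) :
    ∑ T ∈ Stab K 4, mu K T * N T =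
      - ∑ b ∈ Mon K 3, mob b * N (insert none (Zf 3 b)) := by
  rw [sum_Mon_mob (fun T => N (insert none T))]
  have h1 : ∑ T ∈ Stab K 4, mu K T * N T =
      ∑ T ∈ (Stab K 4).filter (fun T => none ∈ T), mu K T * N T := by
    rw [Finset.sum_filter]
    apply Finset.sum_congr rfl
    intro T _
    split_ifs with h
    · rfl
    · rw [h0 T h, mul_zero]
  rw [h1, ← Finset.sum_neg_distrib]
  have hf : frob K (none : P1 K) = none := rfl
  have hst : IsStabG (frob K) ({none} : Finset (P1 K)) := by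
    intro x hx
    rw [Finset.mem_singleton] at hx ⊢
    rw [hx, hf]
  symm
  refine Finset.sum_bij' (fun T _ => insert none T) (fun T _ => T.erase none) ?_ ?_ ?_ ?_ ?_
  · intro T hT
    rw [Finset.mem_filter, mem_Stab] at hT
    rw [Finset.mem_filter, mem_Stab]
    refine ⟨⟨?_, ?_⟩, Finset.mem_insert_self _ _⟩
    · intro x hx
      rw [Finset.mem_insert] at hx ⊢
      rcases hx with rfl | hx
      · exact Or.inl hf
      · exact Or.inr (hT.1.1 x hx)
    · rw [Finset.card_insert_of_notMem hT.2, hT.1.2]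
  · intro T hT
    rw [Finset.mem_filter, mem_Stab] at hT
    rw [Finset.mem_filter, mem_Stab]
    refine ⟨⟨?_, ?_⟩, Finset.notMem_erase _ _⟩
    · intro x hx
      rw [Finset.mem_erase] at hx ⊢
      refine ⟨?_, hT.1.1 x hx.2⟩
      intro h
      apply hx.1
      rw [← hf] at h
      exact frob_injective h
    · rw [Finset.card_erase_of_mem hT.2, hT.1.2]
  · intro T hT
    rw [Finset.mem_filter] at hT
    exact Finset.erase_insert hT.2
  · intro T hT
    rw [Finset.mem_filter] at hT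
    exact Finset.insert_erase hT.2
  · intro T hT
    rw [Finset.mem_filter, mem_Stab] at hT
    have h := muG_union (φ := frob K) frob_injective hst hT.1.1
      (Finset.disjoint_singleton_left.mpr hT.2)
    rw [muG_singleton hf] at h
    have h' : mu K (insert none T) = - mu K T := by
      unfold mu
      rw [Finset.insert_eq, ← neg_one_mul, ← h]
      try congr 1
      try congr!
    rw [h']
    ring

/-! ### normal form -/

omit [Fintype K] in
theorem m20_eqs (c : K[X] × K[X] × K[X] × K[X]) (ν : K) :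
    ((derivative (quart c)).eval (C ν * X)).coeff 3 = 4 * ν ^ 3 + 3 * ν ^ 2 * c.1.coeff 1
      + 2 * ν * c.2.1.coeff 2 + c.2.2.1.coeff 3 ∧
    ((quart c).eval (C ν * X)).coeff 4 = ν ^ 4 + ν ^ 3 * c.1.coeff 1 + ν ^ 2 * c.2.1.coeff 2
      + ν * c.2.2.1.coeff 3 + c.2.2.2.coeff 4 ∧
    ((quart c).eval (C ν * X)).coeff 3 = ν ^ 3 * c.1.coeff 0 + ν ^ 2 * c.2.1.coeff 1
      + ν * c.2.2.1.coeff 2 + c.2.2.2.coeff 3 := by
  have c2 : (C 2 : K[X]) = 2 := map_ofNat C 2
  have c3 : (C 3 : K[X]) = 3 := map_ofNat C 3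
  have c4 : (C 4 : K[X]) = 4 := map_ofNat C 4
  have e1 : (derivative (quart c)).eval (C ν * X) = C (4 * ν ^ 3) * X ^ 3
      + C (3 * ν ^ 2) * (c.1 * X ^ 2) + C (2 * ν) * (c.2.1 * X ^ 1) + c.2.2.1 := by
    simp [quart]
    rw [c2, c3, c4]
    ring
  have e2 : (quart c).eval (C ν * X) = C (ν ^ 4) * X ^ 4
      + C (ν ^ 3) * (c.1 * X ^ 3) + C (ν ^ 2) * (c.2.1 * X ^ 2) + C ν * (c.2.2.1 * X ^ 1)
      + c.2.2.2 := by
    simp [quart]
    ring
  rw [e1, e2]
  simp only [coeff_add, coeff_C_mul, coeff_mul_X_pow', Nat.sub_self, coeff_C_zero]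
  norm_num

/-- condition of the normal form -/
def m20cond (b : K[X]) (x : K × K × K × K) : Prop :=
  2 * x.1 + x.2.1 ≠ 0 ∧ ∀ y : Om K, (up b).eval y = 0 →
    (up ((C x.2.1 * X + C x.2.2.1) ^ 2 - 4 * (C (-3 * x.1 ^ 2 - 2 * x.2.1 * x.1) * X ^ 2
      + C (-(x.2.2.1 * x.1 + x.1 * (2 * x.1 + x.2.1) * b.coeff 2)) * X + C x.2.2.2))).eval y ≠ 0

/-- the normal form -/
def m20c (b : K[X]) (x : K × K × K × K) : K[X] × K[X] × K[X] × K[X] :=
  (C x.2.1 * X + C x.2.2.1,
    C (-3 * x.1 ^ 2 - 2 * x.2.1 * x.1) * X ^ 2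
      + C (-(x.2.2.1 * x.1 + x.1 * (2 * x.1 + x.2.1) * b.coeff 2)) * X + C x.2.2.2,
    C (x.1 ^ 2 * (2 * x.1 + x.2.1)) * b, 0)

theorem m20_WP {b : K[X]} (hb : b ∈ Mon K 3) (x : K × K × K × K) : WP 1 4 (quart (m20c b x)) := by
  rw [mem_Mon] at hb
  apply WP_quart
  · exact natDegree_linear_le
  · exact natDegree_quadratic_le
  · exact (natDegree_C_mul_le _ _).trans hb.2.le
  · simp [m20c]

theorem m20_noSq_iff (h2 : (2 : K) ≠ 0) {b : K[X]} (hb : b ∈ Mon K 3) (x : K × K × K × K)
    (hν : x.1 ≠ 0) : NoSq (up2 (quart (m20c b x))) ↔ m20cond b x := by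
  have h2' : (2 : Om K) ≠ 0 := by
    have := (map_ne_zero (algebraMap K (Om K))).mpr h2
    rwa [map_ofNat] at this
  rw [mem_Mon] at hb
  have hb3 : b.coeff 3 = 1 := by
    have := hb.1.coeff_natDegree
    rwa [hb.2] at this
  rw [up2_quart]
  show NoSq (quart (up (C x.2.1 * X + C x.2.2.1), up (C (-3 * x.1 ^ 2 - 2 * x.2.1 * x.1) * X ^ 2
      + C (-(x.2.2.1 * x.1 + x.1 * (2 * x.1 + x.2.1) * b.coeff 2)) * X + C x.2.2.2),
      up (C (x.1 ^ 2 * (2 * x.1 + x.2.1)) * b), up 0)) ↔ _
  rw [up_zero, m20_noSq h2']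
  unfold m20cond
  constructor
  · intro h
    constructor
    · intro h0
      apply h none
      show (up _).coeff 3 = 0 ∧ (up _).coeff 1 ^ 2 = 4 * (up _).coeff 2
      rw [coeff_up, coeff_up, coeff_up, coeff_C_mul, hb3, h0]
      have h0' : x.2.1 = -(2 * x.1) := by linear_combination h0
      constructor
      · simp
      · have k1 : (C x.2.1 * X + C x.2.2.1 : K[X]).coeff 1 = x.2.1 := by
          simp [coeff_X, coeff_C]
        have k2 : (C (-3 * x.1 ^ 2 - 2 * x.2.1 * x.1) * X ^ 2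
            + C (-(x.2.2.1 * x.1 + x.1 * (2 * x.1 + x.2.1) * b.coeff 2)) * X
            + C x.2.2.2 : K[X]).coeff 2 = -3 * x.1 ^ 2 - 2 * x.2.1 * x.1 := by
          simp only [coeff_add, coeff_C_mul, coeff_X_pow, coeff_X, coeff_C]
          norm_num
        rw [h0] at k2
        rw [k1, k2, h0', ← map_pow, ← map_ofNat (algebraMap K (Om K)) 4, ← map_mul]
        congr 1
        ring
    · intro y hy h0
      apply h (some y)
      show (up _).eval y = 0 ∧ (up _).eval y ^ 2 = 4 * (up _).eval y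
      constructor
      · rw [up_mul, eval_mul, hy, mul_zero]
      · rw [up_sub, up_pow, up_mul, eval_sub, eval_pow, eval_mul] at h0
        have h4 : (up (4 : K[X])).eval y = 4 := by
          have : (4 : K[X]) = C 4 := (map_ofNat C 4).symm
          rw [this, up_C, eval_C, map_ofNat]
        rw [h4] at h0
        exact sub_eq_zero.mp h0
  · rintro ⟨h0, h⟩ p ⟨hp1, hp2⟩
    cases p with
    | none =>
      change (up _).coeff 3 = 0 at hp1
      rw [coeff_up, coeff_C_mul, hb3, mul_one, map_eq_zero] at hp1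
      rcases mul_eq_zero.mp hp1 with h3 | h3
      · exact hν (pow_eq_zero_iff (two_ne_zero) |>.mp h3)
      · exact h0 h3
    | some y =>
      change (up _).eval y = 0 at hp1
      change (up _).eval y ^ 2 = 4 * (up _).eval y at hp2
      rw [up_mul, up_C, eval_mul, eval_C] at hp1
      have hy : (up b).eval y = 0 := by
        rcases mul_eq_zero.mp hp1 with h3 | h3
        · rw [map_eq_zero] at h3
          exfalso
          rcases mul_eq_zero.mp h3 with h3 | h3
          · exact hν (pow_eq_zero_iff (two_ne_zero) |>.mp h3)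
          · exact h0 h3
        · exact h3
      apply h y hy
      rw [up_sub, up_pow, up_mul, eval_sub, eval_pow, eval_mul]
      have h4 : (up (4 : K[X])).eval y = 4 := by
        have : (4 : K[X]) = C 4 := (map_ofNat C 4).symm
        rw [this, up_C, eval_C, map_ofNat]
      rw [h4]
      exact sub_eq_zero.mpr hp2

theorem m20_sing_normal {b : K[X]} (hb : b ∈ Mon K 3) (x : K × K × K × K) :
    Sing 1 4 (up2 (quart (m20c b x))) none (algebraMap K (Om K) x.1) := by
  rw [m20_sing_rat (m20_WP hb x)]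
  obtain ⟨h1, h2, h3⟩ := m20_eqs (m20c b x) x.1
  rw [h1, h2, h3]
  rw [mem_Mon] at hb
  have hb3 : b.coeff 3 = 1 := by
    have := hb.1.coeff_natDegree
    rwa [hb.2] at this
  have g1 : (m20c b x).1.coeff 1 = x.2.1 := by simp [m20c, coeff_X, coeff_C]
  have g0 : (m20c b x).1.coeff 0 = x.2.2.1 := by simp [m20c, coeff_X, coeff_C]
  have g22 : (m20c b x).2.1.coeff 2 = -3 * x.1 ^ 2 - 2 * x.2.1 * x.1 := by
    simp only [m20c, coeff_add, coeff_C_mul, coeff_X_pow, coeff_X, coeff_C]
    norm_num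
  have g21 : (m20c b x).2.1.coeff 1 =
      -(x.2.2.1 * x.1 + x.1 * (2 * x.1 + x.2.1) * b.coeff 2) := by
    simp only [m20c, coeff_add, coeff_C_mul, coeff_X_pow, coeff_X, coeff_C]
    norm_num
  have g33 : (m20c b x).2.2.1.coeff 3 = x.1 ^ 2 * (2 * x.1 + x.2.1) := by
    simp only [m20c, coeff_C_mul, hb3]
    ring
  have g32 : (m20c b x).2.2.1.coeff 2 = x.1 ^ 2 * (2 * x.1 + x.2.1) * b.coeff 2 := by
    simp only [m20c, coeff_C_mul]
  have g4 : (m20c b x).2.2.2 = 0 := rfl
  rw [g1, g0, g22, g21, g33, g32, g4]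
  simp only [coeff_zero]
  refine ⟨?_, ?_, ?_⟩ <;> ring

theorem m20_N (h2 : (2 : K) ≠ 0) {b : K[X]} (hb : b ∈ Mon K 3) (hZ : (Zf 3 b).card = 3) :
    m20N (insert none (Zf 3 b)) =
      (((Finset.univ : Finset (K × K × K × K)).filter
        (fun x => x.1 ≠ 0 ∧ m20cond b x)).card : ℤ) := by
  have hbm := mem_Mon.mp hb
  have hb0 : b ≠ 0 := hbm.1.ne_zero
  have hb3 : b.coeff 3 = 1 := by
    have := hbm.1.coeff_natDegree
    rwa [hbm.2] at this
  have hnone : (none : P1 K) ∉ Zf 3 b := by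
    rw [mem_Zf hbm.2.le hb0]
    show (up b).coeff 3 ≠ 0
    rw [coeff_up, hb3]
    simp
  unfold m20N
  congr 1
  symm
  apply Finset.card_bij (fun x _ => m20c b x)
  · intro x hx
    obtain ⟨-, hν, hc⟩ := Finset.mem_filter.mp hx
    rw [Finset.mem_filter, mem_Q4]
    refine ⟨⟨m20_WP hb x, (m20_noSq_iff h2 hb x hν).mpr hc⟩, Finset.mem_insert_self _ _, ?_,
      ⟨_, m20_sing_normal hb x⟩⟩
    intro p hp hpn
    rw [Finset.mem_insert] at hp
    have hp' := hp.resolve_left hpn
    rw [mem_Zf hbm.2.le hb0] at hp'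
    rw [up_zero, ev_zero, m20_sing_zero (m20_WP hb x)]
    constructor
    · show ev 3 (up (C _ * b)) p = 0
      rw [up_mul, up_C, ev_C_mul, hp', mul_zero]
    · show dv 4 (up 0) p
      rw [up_zero]
      exact dv_zero
  · intro x hx y hy hxy
    obtain ⟨-, hν, hc⟩ := Finset.mem_filter.mp hx
    have s1 := m20_sing_normal hb x
    have s2 := m20_sing_normal hb y
    rw [← hxy] at s2
    have e1 : x.1 = y.1 := (algebraMap K (Om K)).injective
      (sing_unique4 (WP_up2 (m20_WP hb x)) ((m20_noSq_iff h2 hb x hν).mpr hc) s1 s2)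
    have h1 : (m20c b x).1 = (m20c b y).1 := by rw [hxy]
    have h3 : (m20c b x).2.1 = (m20c b y).2.1 := by rw [hxy]
    have e2 := congrArg (fun P => coeff P 1) h1
    have e3 := congrArg (fun P => coeff P 0) h1
    have e4 := congrArg (fun P => coeff P 0) h3
    simp [m20c, coeff_X, coeff_C] at e2 e3 e4
    ext
    · exact e1
    · exact e2
    · exact e3
    · exact e4
  · intro c hc
    obtain ⟨hcQ, hn, hS, ⟨v, hv⟩⟩ := Finset.mem_filter.mp hc
    obtain ⟨hw, hq⟩ := mem_Q4.mp hcQ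
    obtain ⟨k4, k3, k2, k1, k0⟩ := m20_coeff c
    have d1 : c.1.natDegree ≤ 1 := by
      have := hw.2.2 1 (by norm_num)
      rwa [show 4 - 1 = 3 from rfl, k3] at this
    have d2 : c.2.1.natDegree ≤ 2 := by
      have := hw.2.2 2 (by norm_num)
      rwa [show 4 - 2 = 2 from rfl, k2] at this
    have d3 : c.2.2.1.natDegree ≤ 3 := by
      have := hw.2.2 3 (by norm_num)
      rwa [show 4 - 3 = 1 from rfl, k1] at this
    have d4 : c.2.2.2.natDegree ≤ 4 := by
      have := hw.2.2 4 (by norm_num)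
      rwa [show 4 - 4 = 0 from rfl, k0] at this
    have hS' : ∀ p ∈ Zf 3 b, ev 3 (up c.2.2.1) p = 0 ∧ dv 4 (up c.2.2.2) p := by
      intro p hp
      have h := hS p (Finset.mem_insert_of_mem hp) (by rintro rfl; exact hnone hp)
      rw [up_zero, ev_zero, m20_sing_zero hw] at h
      exact h
    have hc4 : c.2.2.2 = 0 := by
      apply up_injective
      rw [up_zero]
      apply eq_zero_of_dv (T := Zf 3 b) (n := 4)
      · rw [natDegree_up]; exact d4
      · rw [hZ]; norm_num
      · intro p hp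
        exact (hS' p hp).2
    have hc3 : c.2.2.1 = C (c.2.2.1.coeff 3) * b := by
      apply up_injective
      rw [← sub_eq_zero]
      apply eq_zero_of_ev (T := insert none (Zf 3 b)) (n := 3)
      · apply (natDegree_sub_le _ _).trans
        rw [natDegree_up, natDegree_up]
        exact max_le d3 ((natDegree_C_mul_le _ _).trans hbm.2.le)
      · rw [Finset.card_insert_of_notMem hnone, hZ]; norm_num
      · intro p hp
        rw [ev_sub, up_mul, up_C, ev_C_mul]
        rcases Finset.mem_insert.mp hp with rfl | hp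
        · show (up c.2.2.1).coeff 3 - _ * (up b).coeff 3 = 0
          rw [coeff_up, coeff_up, hb3]
          simp
        · rw [(hS' p hp).1, (mem_Zf hbm.2.le hb0).mp hp, mul_zero, sub_zero]
    -- the value at infinity is rational
    have hvq : v ^ Fintype.card K = v :=
      sing_unique4 (WP_up2 hw) hq (sing_frob hw hv) hv
    obtain ⟨ν, rfl⟩ := pow_card_eq_iff.mp hvq
    have hν : ν ≠ 0 := by
      rintro rfl
      rw [map_zero, m20_sing_zero hw] at hv
      have h30 : c.2.2.1.coeff 3 = 0 := by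
        have h : (up c.2.2.1).coeff 3 = 0 := hv.1
        rw [coeff_up, map_eq_zero] at h
        exact h
      rw [h30, map_zero, zero_mul] at hc3
      have h2' : (2 : Om K) ≠ 0 := by
        have := (map_ne_zero (algebraMap K (Om K))).mpr h2
        rwa [map_ofNat] at this
      apply noSq_not_double h2' (WP_up2 hw) hq (s := 0) (by simp)
      rw [up2_quart, hc3, hc4, up_zero]
      refine ⟨X ^ 2 + C (up c.1) * X + C (up c.2.1), ?_⟩
      unfold quart
      simp only [map_zero]
      ring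
    obtain ⟨q1, q2, q3⟩ := m20_eqs c ν
    rw [m20_sing_rat hw, q1, q2, q3, hc4] at hv
    obtain ⟨r1, r2, r3⟩ := hv
    simp only [coeff_zero, add_zero] at r1 r2 r3
    have r2' : ν ^ 3 + ν ^ 2 * c.1.coeff 1 + ν * c.2.1.coeff 2 + c.2.2.1.coeff 3 = 0 := by
      apply mul_left_cancel₀ hν
      linear_combination r2
    have r22 : c.2.1.coeff 2 = -3 * ν ^ 2 - 2 * c.1.coeff 1 * ν := by
      apply mul_left_cancel₀ hν
      linear_combination r1 - r2'
    have r33 : c.2.2.1.coeff 3 = ν ^ 2 * (2 * ν + c.1.coeff 1) := by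
      rw [r22] at r2'
      linear_combination r2'
    have r32 : c.2.2.1.coeff 2 = c.2.2.1.coeff 3 * b.coeff 2 := by
      conv_lhs => rw [hc3]
      rw [coeff_C_mul]
    have r21 : c.2.1.coeff 1 =
        -(c.1.coeff 0 * ν + ν * (2 * ν + c.1.coeff 1) * b.coeff 2) := by
      rw [r32, r33] at r3
      apply mul_left_cancel₀ (pow_ne_zero 2 hν)
      linear_combination r3
    have hcc : m20c b (ν, c.1.coeff 1, c.1.coeff 0, c.2.1.coeff 0) = c := by
      have e1 : C (c.1.coeff 1) * X + C (c.1.coeff 0) = c.1 :=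
        (eq_X_add_C_of_natDegree_le_one d1).symm
      have e2 : C (-3 * ν ^ 2 - 2 * c.1.coeff 1 * ν) * X ^ 2
          + C (-(c.1.coeff 0 * ν + ν * (2 * ν + c.1.coeff 1) * b.coeff 2)) * X
          + C (c.2.1.coeff 0) = c.2.1 := by
        rw [← r22, ← r21]
        conv_rhs => rw [as_sum_range_C_mul_X_pow' _ (Nat.lt_succ_of_le d2)]
        simp only [Finset.sum_range_succ, Finset.sum_range_zero]
        ring
      have e3 : C (ν ^ 2 * (2 * ν + c.1.coeff 1)) * b = c.2.2.1 := by
        rw [← r33]; exact hc3.symm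
      unfold m20c
      simp only
      rw [e1, e2, e3, ← hc4]
    refine ⟨(ν, c.1.coeff 1, c.1.coeff 0, c.2.1.coeff 0), ?_, hcc⟩
    rw [Finset.mem_filter]
    refine ⟨Finset.mem_univ _, hν, ?_⟩
    rw [← m20_noSq_iff h2 hb _ hν, hcc]
    exact hq

theorem m20_PC7 : PC7 K = ∑ b ∈ Mon K 3, mob b *
      (((Finset.univ : Finset (K × K × K × K)).filter
        (fun x => x.1 ≠ 0 ∧ m20cond b x)).card : ℤ) := by
  unfold PC7
  apply Finset.sum_congr rfl
  intro b _
  rw [Finset.card_filter]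
  push_cast
  rw [Finset.mul_sum]
  simp only [Fintype.sum_prod_type]
  rw [Finset.sum_filter]
  apply Finset.sum_congr rfl
  intro ν _
  split_ifs with hν
  · apply Finset.sum_congr rfl
    intro c11 _
    apply Finset.sum_congr rfl
    intro c10 _
    apply Finset.sum_congr rfl
    intro c20 _
    unfold m20cond
    simp only [mul_ite, mul_one, mul_zero, hν, ne_eq, not_false_eq_true, true_and]
  · simp [hν]

/-- M20 -/
theorem SV_four_col_inf (K : Type*) [Field K] [Fintype K] (h2 : (2 : K) ≠ 0) :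
    SVG K 4 (ColAt K none) = - (Fintype.card K : ℤ) ^ 2 * PC7 K := by
  rw [m20_SVG, m20_insert m20N, m20_PC7]
  · rw [mul_neg, neg_mul]
    congr 2
    apply Finset.sum_congr rfl
    intro b hb
    by_cases hZ : (Zf 3 b).card = 3
    · rw [m20_N h2 hb hZ]
    · have hbm := mem_Mon.mp hb
      rw [mob_eq_zero hbm.1.ne_zero hbm.2 hZ]
      simp
  · intro T hT
    unfold m20N
    rw [Finset.card_eq_zero.mpr]
    · rfl
    · apply Finset.filter_eq_empty_iff.mpr
      intro c _ h
      exact hT h.1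

end
end
end Pool.Agent.Helper19.DP1
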