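import Pool.Agent.Helper19.DP1.Core7c
import Pool.Agent.Helper19.DP1.Sums
import Pool.Agent.Helper19.DP1.M3

/-! M22: `SV_five_sym` (five bad points, the vertex of the line pair is rational). -/

namespace Pool.Agent.Helper19.DP1
open Polynomial Classical
noncomputable section

set_option linter.unusedSectionVars false

section
variable {L : Type*} [Field L]

/-- the vertex configuration over a field `L` -/
def m22V (F : L[X][X]) (T : Finset (Option L)) (t : Option L) (a b : L[X]) (h : L[X][X]) : Prop :=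
  a.natDegree ≤ 1 ∧ b.natDegree ≤ 1 ∧ a ≠ b ∧ ev 1 (a - b) t = 0 ∧
    t ∈ T ∧ WP 1 2 h ∧ F = (X - C a) * (X - C b) * h ∧
      ∀ p ∈ T, p ≠ t → ev 4 (h.eval a * h.eval b) p = 0

theorem m22V_swap {F : L[X][X]} {T : Finset (Option L)} {t : Option L} {a b : L[X]} {h : L[X][X]}
    (hv : m22V F T t a b h) : m22V F T t b a h := by
  obtain ⟨ha, hb, hab, ht, htT, hh, hF, hz⟩ := hv
  refine ⟨hb, ha, fun e => hab e.symm, ?_, htT, hh, ?_, ?_⟩
  · rw [← neg_sub, ev_neg, ht, neg_zero]
  · rw [hF]; ring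
  · intro p hp hpt
    rw [mul_comm]
    exact hz p hp hpt

/-- two sections which agree at two different points are equal -/
theorem m22_sec_eq {a b : L[X]} (ha : a.natDegree ≤ 1) (hb : b.natDegree ≤ 1) {S : Finset (Option L)}
    (hS : 2 ≤ S.card) (h : ∀ p ∈ S, ev 1 a p = ev 1 b p) : a = b := by
  have : a - b = 0 := by
    apply eq_zero_of_ev (n := 1) (T := S)
    · exact (natDegree_sub_le _ _).trans (max_le ha hb)
    · omega
    · intro p hp
      rw [ev_sub, h p hp, sub_self]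
  exact sub_eq_zero.mp this

/-- singular points on the first section -/
theorem m22_sing_a {F : L[X][X]} {T : Finset (Option L)} {t : Option L} {a b : L[X]} {h : L[X][X]}
    (hv : m22V F T t a b h) {p : Option L} (hp : p = t ∨ ev 2 (h.eval a) p = 0) :
    Sing 1 4 F p (ev 1 a p) := by
  obtain ⟨ha, hb, hab, ht, htT, hh, hF, hz⟩ := hv
  have hXa : WP 1 1 (X - C a : L[X][X]) := WP_X_sub_C ha
  have hXb : WP 1 1 (X - C b : L[X][X]) := WP_X_sub_C hb
  have hbh : WP 1 3 ((X - C b) * h) := WP_mul (d1 := 1) (d2 := 2) hXb hh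
  rw [hF, mul_assoc]
  refine sing_mul_of_both (d1 := 1) (d2 := 3) hXa hbh le_rfl le_rfl (by norm_num) ?_ ?_
  · rw [fib_X_sub_C ha]; simp
  · rw [show (3 : ℕ) = 1 + 2 from rfl, fib_mul hXb hh, eval_mul, fib_X_sub_C hb]
    rcases hp with rfl | hp
    · have : ev 1 a p - ev 1 b p = 0 := by rw [← ev_sub]; exact ht
      simp [this]
    · have h2 := fib_eval (p := p) hh ha
      rw [show 1 * 2 = 2 from rfl] at h2
      rw [h2, hp, mul_zero]

theorem m22_sing_or {F : L[X][X]} {T : Finset (Option L)} {t : Option L} {a b : L[X]} {h : L[X][X]}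
    (hv : m22V F T t a b h) {p : Option L} (hp : p ∈ T) :
    Sing 1 4 F p (ev 1 a p) ∨ Sing 1 4 F p (ev 1 b p) := by
  by_cases hpt : p = t
  · left
    exact m22_sing_a hv (Or.inl hpt)
  · obtain ⟨ha, hb, hab, ht, htT, hh, hF, hz⟩ := id hv
    have h1 := hz p hp hpt
    rw [show (4 : ℕ) = 2 + 2 from rfl,
      ev_mul (natDegree_eval hh ha) (natDegree_eval hh hb)] at h1
    rcases mul_eq_zero.mp h1 with h1 | h1
    · left; exact m22_sing_a hv (Or.inr h1)
    · right; exact m22_sing_a (m22V_swap hv) (Or.inr h1)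

theorem m22_eval_ne [IsAlgClosed L] (h2 : (2 : L) ≠ 0) {F : L[X][X]} {T : Finset (Option L)}
    {t : Option L} {a b : L[X]} {h : L[X][X]} (hF' : WP 1 4 F) (hq : NoSq F)
    (hv : m22V F T t a b h) : h.eval a ≠ 0 := by
  intro h0
  obtain ⟨ha, hb, hab, ht, htT, hh, hF, hz⟩ := hv
  obtain ⟨g, hg, hhg⟩ := exists_factor (d := 1) hh ha h0
  apply noSq_not_double h2 hF' hq ha
  rw [hF, hhg]
  exact ⟨(X - C b) * g, by ring⟩

/-- each of the two sections contains at least three of the singular points -/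
theorem m22_three [IsAlgClosed L] (h2 : (2 : L) ≠ 0) {F : L[X][X]} {T : Finset (Option L)}
    {t : Option L} {a b : L[X]} {h : L[X][X]} (hF' : WP 1 4 F) (hq : NoSq F) (hT : T.card = 5)
    (hv : m22V F T t a b h) : 3 ≤ (T.filter (fun p => Sing 1 4 F p (ev 1 a p))).card := by
  have hv' := m22V_swap hv
  have hna := m22_eval_ne h2 hF' hq hv
  have hnb := m22_eval_ne h2 hF' hq hv'
  obtain ⟨ha, hb, hab, ht, htT, hh, hF, hz⟩ := id hv
  have hda : (h.eval a).natDegree ≤ 2 := natDegree_eval hh ha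
  have hdb : (h.eval b).natDegree ≤ 2 := natDegree_eval hh hb
  set A := (T.erase t).filter (fun p => ev 2 (h.eval a) p = 0) with hA
  set B := (T.erase t).filter (fun p => ev 2 (h.eval b) p = 0) with hB
  have hBc : B.card ≤ 2 := by
    by_contra hcon
    push Not at hcon
    apply hnb
    exact eq_zero_of_ev (n := 2) (T := B) hdb hcon (fun p hp => (Finset.mem_filter.mp hp).2)
  have hAB : T.erase t ⊆ A ∪ B := by
    intro p hp
    have hp' := Finset.mem_erase.mp hp
    have h1 := hz p hp'.2 hp'.1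
    rw [show (4 : ℕ) = 2 + 2 from rfl, ev_mul hda hdb] at h1
    rcases mul_eq_zero.mp h1 with h1 | h1
    · exact Finset.mem_union_left _ (Finset.mem_filter.mpr ⟨hp, h1⟩)
    · exact Finset.mem_union_right _ (Finset.mem_filter.mpr ⟨hp, h1⟩)
  have hc : (T.erase t).card = 4 := by rw [Finset.card_erase_of_mem htT, hT]
  have hAc : 2 ≤ A.card := by
    have := (Finset.card_le_card hAB).trans (Finset.card_union_le A B)
    omega
  have htA : t ∉ A := by
    intro h; exact Finset.notMem_erase t T (Finset.mem_filter.mp h).1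
  have hsub : insert t A ⊆ T.filter (fun p => Sing 1 4 F p (ev 1 a p)) := by
    intro p hp
    rw [Finset.mem_filter]
    rcases Finset.mem_insert.mp hp with rfl | hp
    · exact ⟨htT, m22_sing_a hv (Or.inl rfl)⟩
    · have := Finset.mem_filter.mp hp
      exact ⟨Finset.mem_of_mem_erase this.1, m22_sing_a hv (Or.inr this.2)⟩
  have := Finset.card_le_card hsub
  rw [Finset.card_insert_of_notMem htA] at this
  omega

/-- a section through three of the five singular points is one of the two sections -/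
theorem m22_sec_mem [IsAlgClosed L] (h2 : (2 : L) ≠ 0) {F : L[X][X]} {T : Finset (Option L)}
    {t t' : Option L} {a b a' b' : L[X]} {h h' : L[X][X]} (hF' : WP 1 4 F) (hq : NoSq F)
    (hT : T.card = 5) (hv : m22V F T t a b h) (hv' : m22V F T t' a' b' h') :
    a' = a ∨ a' = b := by
  have h3 := m22_three h2 hF' hq hT hv'
  set S := T.filter (fun p => Sing 1 4 F p (ev 1 a' p)) with hS
  have hSS : S ⊆ S.filter (fun p => Sing 1 4 F p (ev 1 a p)) ∪
      S.filter (fun p => Sing 1 4 F p (ev 1 b p)) := by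
    intro p hp
    rcases m22_sing_or hv (Finset.mem_filter.mp hp).1 with h1 | h1
    · exact Finset.mem_union_left _ (Finset.mem_filter.mpr ⟨hp, h1⟩)
    · exact Finset.mem_union_right _ (Finset.mem_filter.mpr ⟨hp, h1⟩)
  have hc := (Finset.card_le_card hSS).trans (Finset.card_union_le _ _)
  have hor : 2 ≤ (S.filter (fun p => Sing 1 4 F p (ev 1 a p))).card ∨
      2 ≤ (S.filter (fun p => Sing 1 4 F p (ev 1 b p))).card := by omega
  rcases hor with h1 | h1
  · left
    refine m22_sec_eq hv'.1 hv.1 h1 ?_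
    intro p hp
    have hp1 := Finset.mem_filter.mp hp
    exact sing_unique4 hF' hq (Finset.mem_filter.mp hp1.1).2 hp1.2
  · right
    refine m22_sec_eq hv'.1 hv.2.1 h1 ?_
    intro p hp
    have hp1 := Finset.mem_filter.mp hp
    exact sing_unique4 hF' hq (Finset.mem_filter.mp hp1.1).2 hp1.2

/-- the vertex is unique -/
theorem m22_unique [IsAlgClosed L] (h2 : (2 : L) ≠ 0) {F : L[X][X]} {T : Finset (Option L)}
    {t t' : Option L} {a b a' b' : L[X]} {h h' : L[X][X]} (hF' : WP 1 4 F) (hq : NoSq F)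
    (hT : T.card = 5) (hv : m22V F T t a b h) (hv' : m22V F T t' a' b' h') : t = t' := by
  have ha' := m22_sec_mem h2 hF' hq hT hv hv'
  have hb' := m22_sec_mem h2 hF' hq hT hv (m22V_swap hv')
  have hz' : ev 1 (a - b) t' = 0 := by
    have h0 := hv'.2.2.2.1
    rcases ha' with rfl | rfl
    · rcases hb' with rfl | rfl
      · exact absurd rfl hv'.2.2.1
      · exact h0
    · rcases hb' with rfl | rfl
      · rw [← neg_sub, ev_neg, h0, neg_zero]
      · exact absurd rfl hv'.2.2.1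
  by_contra hne
  apply hv.2.2.1
  refine m22_sec_eq hv.1 hv.2.1 (S := {t, t'}) ?_ ?_
  · rw [Finset.card_pair hne]
  · intro p hp
    rw [← sub_eq_zero, ← ev_sub]
    rcases Finset.mem_insert.mp hp with rfl | hp
    · exact hv.2.2.2.1
    · rw [Finset.mem_singleton.mp hp]; exact hz'

/-! ### symmetry -/

theorem m22_sym_inj (r : Option L) {n : ℕ} {P Q : L[X]} (hP : P.natDegree ≤ n)
    (hQ : Q.natDegree ≤ n) (h : sym r n P = sym r n Q) : P = Q :=
  (sym_bij r n).injOn hP hQ h

theorem m22_sym_one (r : Option L) : sym r 0 (1 : L[X]) = 1 := by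
  cases r with
  | none => rfl
  | some c =>
    show ((1 : L[X]).comp (X + C c)).reflect 0 = 1
    rw [one_comp]
    simp

theorem m22_symY_lin (r : Option L) (a : L[X]) :
    symY 1 1 r (X - C a) = X - C (sym r 1 a) := by
  unfold symY
  rw [Finset.sum_range_succ, Finset.sum_range_one]
  have h1 : ((X - C a : L[X][X])).coeff (1 - 0) = 1 := by simp
  have h0 : ((X - C a : L[X][X])).coeff (1 - 1) = -a := by simp
  rw [h1, h0]
  have h2 : sym r (1 * 1) (-a) = - sym r 1 a := by
    have := sym_C_mul (r := r) (n := 1) (P := a) (-1)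
    simpa using this
  rw [h2]
  simp [m22_sym_one, sub_eq_add_neg]

theorem m22_symY_prod (r : Option L) {a b : L[X]} {h : L[X][X]} (ha : a.natDegree ≤ 1)
    (hb : b.natDegree ≤ 1) (hh : WP 1 2 h) :
    symY 1 4 r ((X - C a) * (X - C b) * h) =
      (X - C (sym r 1 a)) * (X - C (sym r 1 b)) * symY 1 2 r h := by
  have hXa : WP 1 1 (X - C a : L[X][X]) := WP_X_sub_C ha
  have hXb : WP 1 1 (X - C b : L[X][X]) := WP_X_sub_C hb
  have h1 := symY_mul (r := r) (w := 1) (d1 := 2) (d2 := 2) (WP_mul (d1 := 1) (d2 := 1) hXa hXb) hh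
  have h2 := symY_mul (r := r) (w := 1) (d1 := 1) (d2 := 1) hXa hXb
  rw [show (4 : ℕ) = 2 + 2 from rfl, h1, show (2 : ℕ) = 1 + 1 from rfl, h2, m22_symY_lin,
    m22_symY_lin]

theorem m22_ev_sub_sym (r p : Option L) {a b : L[X]} (ha : a.natDegree ≤ 1)
    (hb : b.natDegree ≤ 1) :
    ev 1 (sym r 1 a - sym r 1 b) (symP r p) = symU r p * ev 1 (a - b) p := by
  rw [ev_sub, ev_sym ha, ev_sym hb, ev_sub]
  ring

theorem m22_ev_prod_sym (r p : Option L) {a b : L[X]} {h : L[X][X]} (ha : a.natDegree ≤ 1)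
    (hb : b.natDegree ≤ 1) (hh : WP 1 2 h) :
    ev 4 ((symY 1 2 r h).eval (sym r 1 a) * (symY 1 2 r h).eval (sym r 1 b)) (symP r p) =
      symU r p ^ 4 * ev 4 (h.eval a * h.eval b) p := by
  have hda : (h.eval a).natDegree ≤ 2 := natDegree_eval hh ha
  have hdb : (h.eval b).natDegree ≤ 2 := natDegree_eval hh hb
  rw [symY_eval hh ha, symY_eval hh hb]
  rw [show 1 * 2 = 2 from rfl]
  rw [show (4 : ℕ) = 2 + 2 from rfl, ev_mul hda hdb, ev_mul (natDegree_sym hda) (natDegree_sym hdb),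
    ev_sym hda, ev_sym hdb]
  ring

theorem m22V_sym (r : Option L) {F : L[X][X]} {T : Finset (Option L)} {t : Option L}
    {a b : L[X]} {h : L[X][X]} (hF' : WP 1 4 F) (ha : a.natDegree ≤ 1) (hb : b.natDegree ≤ 1)
    (hh : WP 1 2 h) :
    m22V (symY 1 4 r F) (T.image (symP r)) (symP r t) (sym r 1 a) (sym r 1 b) (symY 1 2 r h) ↔
      m22V F T t a b h := by
  have hinj := (symP_bijective r).injective
  have hU : ∀ p, symU r p ≠ 0 := symU_ne_zero r
  constructor
  · rintro ⟨_, _, hab, ht, htT, _, hF, hz⟩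
    refine ⟨ha, hb, fun e => hab (by rw [e]), ?_, ?_, hh, ?_, ?_⟩
    · rw [m22_ev_sub_sym r t ha hb] at ht
      exact (mul_eq_zero.mp ht).resolve_left (hU t)
    · obtain ⟨t', ht', he⟩ := Finset.mem_image.mp htT
      rwa [← hinj he]
    · rw [← m22_symY_prod r ha hb hh] at hF
      refine (symY_bij 1 4 r).injOn hF' ?_ hF
      exact WP_mul (d1 := 2) (d2 := 2) (WP_mul (d1 := 1) (d2 := 1) (WP_X_sub_C ha) (WP_X_sub_C hb)) hh
    · intro p hp hpt
      have h1 := hz (symP r p) (Finset.mem_image_of_mem _ hp) (fun e => hpt (hinj e))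
      rw [m22_ev_prod_sym r p ha hb hh] at h1
      exact (mul_eq_zero.mp h1).resolve_left (pow_ne_zero _ (hU p))
  · rintro ⟨_, _, hab, ht, htT, _, hF, hz⟩
    refine ⟨natDegree_sym ha, natDegree_sym hb, fun e => hab (m22_sym_inj r ha hb e), ?_,
      Finset.mem_image_of_mem _ htT, WP_symY hh, ?_, ?_⟩
    · rw [m22_ev_sub_sym r t ha hb, ht, mul_zero]
    · rw [hF, m22_symY_prod r ha hb hh]
    · intro p hp hpt
      obtain ⟨p', hp', rfl⟩ := Finset.mem_image.mp hp
      rw [m22_ev_prod_sym r p' ha hb hh, hz p' hp' (fun e => hpt (by rw [e])), mul_zero]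

theorem m22V_sym_exists (r : Option L) {F : L[X][X]} {T : Finset (Option L)} {t : Option L}
    (hF' : WP 1 4 F) :
    (∃ a b : L[X], ∃ h : L[X][X], m22V (symY 1 4 r F) (T.image (symP r)) (symP r t) a b h) ↔
      ∃ a b : L[X], ∃ h : L[X][X], m22V F T t a b h := by
  constructor
  · rintro ⟨a, b, h, hv⟩
    obtain ⟨a', ha', rfl⟩ := (sym_bij r 1).surjOn hv.1
    obtain ⟨b', hb', rfl⟩ := (sym_bij r 1).surjOn hv.2.1
    obtain ⟨h', hh', rfl⟩ := (symY_bij 1 2 r).surjOn hv.2.2.2.2.2.1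
    exact ⟨a', b', h', (m22V_sym r hF' ha' hb' hh').mp hv⟩
  · rintro ⟨a, b, h, hv⟩
    exact ⟨_, _, _, (m22V_sym r hF' hv.1 hv.2.1 hv.2.2.2.2.2.1).mpr hv⟩

end

section
variable {K : Type*} [Field K] [Fintype K]

theorem m22_VtxAt_iff (r : Option K) (f : K[X][X]) (T : Finset (P1 K)) :
    VtxAt K r f T ↔ ∃ a b : (Om K)[X], ∃ h : (Om K)[X][X], m22V (up2 f) T (upP r) a b h := by
  constructor
  · rintro ⟨a, b, ha, hb, hab, ht, htT, h, hh, hF, hz⟩
    exact ⟨a, b, h, ha, hb, hab, ht, htT, hh, hF, hz⟩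
  · rintro ⟨a, b, h, ha, hb, hab, ht, htT, hh, hF, hz⟩
    exact ⟨a, b, ha, hb, hab, ht, htT, h, hh, hF, hz⟩

theorem m22_VtxAt_sym (r : Option K) {f : K[X][X]} (T : Finset (P1 K)) (hf : WP 1 4 f) :
    VtxAt K r f T ↔ VtxAt K none (symY 1 4 r f) (T.image (symP (upP r))) := by
  rw [m22_VtxAt_iff, m22_VtxAt_iff, up2_symY]
  have h0 : (upP none : P1 K) = symP (upP r) (upP r) := by rw [symP_self]; rfl
  rw [h0]
  exact (m22V_sym_exists (upP r) (WP_up2 hf)).symm

/-- Frobenius moves configurations to configurations -/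
theorem m22V_frob {f : K[X][X]} {T : Finset (P1 K)} {t : P1 K} {a b : (Om K)[X]}
    {h : (Om K)[X][X]} (hT : IsStabG (frob K) T) (hv : m22V (up2 f) T t a b h) :
    m22V (up2 f) T (frob K t) (phi K a) (phi K b) (h.map (phi K)) := by
  obtain ⟨ha, hb, hab, ht, htT, hh, hF, hz⟩ := hv
  have hda : (h.eval a).natDegree ≤ 2 := natDegree_eval hh ha
  have hdb : (h.eval b).natDegree ≤ 2 := natDegree_eval hh hb
  have hev : ∀ s : (Om K)[X], (h.map (phi K)).eval (phi K s) = phi K (h.eval s) := by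
    intro s
    rw [eval_map, eval₂_at_apply]
  refine ⟨by rwa [natDegree_phi], by rwa [natDegree_phi], fun e => hab (phi_injective e), ?_,
    hT t htT, ?_, ?_, ?_⟩
  · rw [← map_sub, ev_phi, ht, zero_pow Fintype.card_ne_zero]
  · obtain ⟨hm, hd, hc⟩ := hh
    refine ⟨hm.map _, ?_, ?_⟩
    · rw [hm.natDegree_map, hd]
    · intro i hi
      rw [coeff_map, natDegree_phi]
      exact hc i hi
  · have h1 : (up2 f).map (phi K) = up2 f := by
      ext1 i
      rw [coeff_map]
      unfold up2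
      rw [coeff_map]
      exact phi_up _
    rw [← h1]
    conv_lhs => rw [hF]
    simp [Polynomial.map_mul, Polynomial.map_sub]
  · intro p hp hpt
    have hp2 : p ∈ T.image (frob K) := by rwa [stab_image frob_injective hT]
    obtain ⟨p', hp', rfl⟩ := Finset.mem_image.mp hp2
    rw [hev, hev, ← map_mul, ev_phi, hz p' hp' (fun e => hpt (by rw [e])),
      zero_pow Fintype.card_ne_zero]

theorem m22_exists_unique (h2 : (2 : K) ≠ 0) {f : K[X][X]} {T : Finset (P1 K)} (hf : WP 1 4 f)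
    (hq : NoSq (up2 f)) (hT : T ∈ Stab K 5) (hb : ∀ p ∈ T, Bad 1 4 (up2 f) p) :
    ∃! r : Option K, VtxAt K r f T := by
  have h2' : (2 : Om K) ≠ 0 := by
    intro h
    apply h2
    have : algebraMap K (Om K) 2 = 0 := by rw [map_ofNat]; exact h
    exact (map_eq_zero _).mp this
  have hf' := WP_up2 hf
  rw [mem_Stab] at hT
  obtain ⟨t, htT, a, b, ha, hb', hab, ht, h, hh, hF, hz⟩ := quart_five h2' hf' hq hT.2 hb
  have hv : m22V (up2 f) T t a b h := ⟨ha, hb', hab, ht, htT, hh, hF, hz⟩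
  have hfr := m22_unique h2' hf' hq hT.2 (m22V_frob hT.1 hv) hv
  obtain ⟨r, rfl⟩ := frob_eq_iff.mp hfr
  refine ⟨r, (m22_VtxAt_iff r f T).mpr ⟨a, b, h, hv⟩, ?_⟩
  intro r' hr'
  obtain ⟨a', b', h', hv'⟩ := (m22_VtxAt_iff r' f T).mp hr'
  exact upP_injective (m22_unique h2' hf' hq hT.2 hv' hv)

end

section
variable (K : Type*) [Field K] [Fintype K]

theorem m22_split (h2 : (2 : K) ≠ 0) : SV K 5 = ∑ r : Option K, SVG K 5 (VtxAt K r) := by
  unfold SV SVG
  rw [Finset.sum_comm]
  apply Finset.sum_congr rfl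
  intro c hc
  rw [mem_Q4] at hc
  simp_rw [Finset.sum_filter]
  rw [Finset.sum_comm]
  apply Finset.sum_congr rfl
  intro T hT
  by_cases hb : ∀ p ∈ T, Bad 1 4 (up2 (quart c)) p
  · obtain ⟨r, hr, hu⟩ := m22_exists_unique h2 hc.1 hc.2 hT hb
    rw [Finset.sum_eq_single r]
    · rw [if_pos ⟨hb, trivial⟩, if_pos ⟨hb, hr⟩]
    · intro r' _ hne
      rw [if_neg]
      rintro ⟨_, h⟩
      exact hne (hu r' h)
    · intro h
      exact absurd (Finset.mem_univ r) h
  · rw [if_neg (fun h => hb h.1), Finset.sum_eq_zero]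
    intro r _
    rw [if_neg (fun h => hb h.1)]

/-- M22 -/
theorem SV_five_sym (h2 : (2 : K) ≠ 0) :
    SV K 5 = ((Fintype.card K : ℤ) + 1) * SVG K 5 (VtxAt K none) := by
  rw [m22_split K h2]
  have h1 : ∀ r ∈ (Finset.univ : Finset (Option K)),
      SVG K 5 (VtxAt K r) = SVG K 5 (VtxAt K none) := by
    intro r _
    apply SVG_sym r
    intro f T hf _ _ _
    exact m22_VtxAt_sym r T hf
  rw [Finset.sum_congr rfl h1, Finset.sum_const, Finset.card_univ, Fintype.card_option]
  simp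

end

end
end Pool.Agent.Helper19.DP1
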