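import Pool.Agent.Helper19.DP1.Core1a
import Pool.Agent.Helper19.DP1.Core2a
import Pool.Agent.Helper19.DP1.Core3a
import Pool.Agent.Helper19.DP1.Core3b
import Pool.Agent.Helper19.DP1.Core3c
import Pool.Agent.Helper19.DP1.Core6a
import Pool.Agent.Helper19.DP1.Core6b
import Pool.Agent.Helper19.DP1.Core6c
import Pool.Agent.Helper19.DP1.Sums

/-! M23: five singular points, the vertex of the line pair lying over infinity. -/

namespace Pool.Agent.Helper19.DP1
open Polynomial Classical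
noncomputable section

section
variable {L : Type*} [Field L]

/-- quadratic polynomial in `Y` -/
def m23_h (c1 c2 : L[X]) : L[X][X] := X ^ 2 + C c1 * X + C c2

lemma m23_coeff0 (c1 c2 : L[X]) : (m23_h c1 c2).coeff 0 = c2 := by
  simp [m23_h]

lemma m23_coeff1 (c1 c2 : L[X]) : (m23_h c1 c2).coeff 1 = c1 := by
  simp [m23_h, coeff_X, coeff_C]

lemma m23_coeff2 (c1 c2 : L[X]) : (m23_h c1 c2).coeff 2 = 1 := by
  simp [m23_h, coeff_X, coeff_C]

lemma m23_monic (c1 c2 : L[X]) : (m23_h c1 c2).Monic := by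
  unfold m23_h
  monicity!

lemma m23_natDegree (c1 c2 : L[X]) : (m23_h c1 c2).natDegree = 2 := by
  unfold m23_h
  compute_degree!

lemma m23_WP {c1 c2 : L[X]} (h1 : c1.natDegree ≤ 1) (h2 : c2.natDegree ≤ 2) :
    WP 1 2 (m23_h c1 c2) := by
  refine ⟨m23_monic _ _, m23_natDegree _ _, ?_⟩
  intro i hi
  interval_cases i
  · rw [m23_coeff2]; simp
  · rw [m23_coeff1]; simpa using h1
  · rw [m23_coeff0]; simpa using h2

lemma m23_eq {h : L[X][X]} (hh : WP 1 2 h) : h = m23_h (h.coeff 1) (h.coeff 0) := by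
  obtain ⟨hm, hd, -⟩ := hh
  ext1 n
  rcases Nat.lt_or_ge n 3 with hn | hn
  · interval_cases n
    · rw [m23_coeff0]
    · rw [m23_coeff1]
    · rw [m23_coeff2]
      have := hm.coeff_natDegree
      rwa [hd] at this
  · rw [coeff_eq_zero_of_natDegree_lt (by omega), coeff_eq_zero_of_natDegree_lt]
    rw [m23_natDegree]; omega

lemma m23_deg1 {h : L[X][X]} (hh : WP 1 2 h) : (h.coeff 1).natDegree ≤ 1 := by
  have := hh.2.2 1 (by norm_num)
  simpa using this

lemma m23_deg0 {h : L[X][X]} (hh : WP 1 2 h) : (h.coeff 0).natDegree ≤ 2 := by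
  have := hh.2.2 2 (by norm_num)
  simpa using this

lemma m23_eval (c1 c2 s : L[X]) : (m23_h c1 c2).eval s = s ^ 2 + c1 * s + c2 := by
  simp [m23_h]

lemma m23_fib (c1 c2 : L[X]) (p : Option L) :
    fib 1 2 (m23_h c1 c2) p = X ^ 2 + C (ev 1 c1 p) * X + C (ev 2 c2 p) := by
  have e0 : ev 0 (1 : L[X]) p = 1 := by
    have := ev_C_zero (p := p) (1 : L)
    simpa using this
  unfold fib
  rw [Finset.sum_range_succ, Finset.sum_range_succ, Finset.sum_range_one]
  simp [m23_coeff0, m23_coeff1, m23_coeff2, e0]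

lemma m23_coeffs {p3 p2 p1 p0 r3 r2 r1 r0 : L}
    (h : (X ^ 4 + C p3 * X ^ 3 + C p2 * X ^ 2 + C p1 * X + C p0 : L[X])
      = X ^ 4 + C r3 * X ^ 3 + C r2 * X ^ 2 + C r1 * X + C r0) :
    p3 = r3 ∧ p2 = r2 ∧ p1 = r1 ∧ p0 = r0 := by
  have h3 := congrArg (fun P : L[X] => P.coeff 3) h
  have h22 := congrArg (fun P : L[X] => P.coeff 2) h
  have h1 := congrArg (fun P : L[X] => P.coeff 1) h
  have h0 := congrArg (fun P : L[X] => P.coeff 0) h
  simp [coeff_X, coeff_C, coeff_X_pow] at h3 h22 h1 h0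
  exact ⟨h3, h22, h1, h0⟩

/-- comparison of coefficients -/
lemma m23_sq (h2 : (2 : L) ≠ 0) {κ u v α β : L}
    (h : (X ^ 2 + C (0 : L) * X + C (-κ)) * (X ^ 2 + C u * X + C v)
      = (X ^ 2 + C α * X + C β) ^ 2) :
    (κ = 0 → u ^ 2 = 4 * v) ∧ (κ ≠ 0 → u = 0 ∧ v = -κ) := by
  have e : (X ^ 2 + C (0 : L) * X + C (-κ)) * (X ^ 2 + C u * X + C v)
      = X ^ 4 + C u * X ^ 3 + C (v - κ) * X ^ 2 + C (-κ * u) * X + C (-κ * v) := by
    simp only [C_0, C_sub, C_mul, C_neg]; ring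
  have e' : (X ^ 2 + C α * X + C β) ^ 2
      = X ^ 4 + C (2 * α) * X ^ 3 + C (α ^ 2 + 2 * β) * X ^ 2 + C (2 * α * β) * X + C (β ^ 2) := by
    simp only [C_add, C_mul, C_pow]
    have : (C (2 : L)) = (2 : L[X]) := rfl
    rw [this]
    ring
  rw [e, e'] at h
  obtain ⟨h3, h22, h1, h0⟩ := m23_coeffs h
  constructor
  · rintro rfl
    have hβ : β = 0 := pow_eq_zero_iff (two_ne_zero) |>.1 (by rw [← h0]; ring)
    rw [hβ] at h22
    have : v = α ^ 2 := by linear_combination h22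
    rw [h3, this]; ring
  · intro hκ
    have h5 : 2 * α * (β + κ) = 0 := by
      rw [h3] at h1
      linear_combination -h1
    rcases mul_eq_zero.1 h5 with h6 | h6
    · have hα : α = 0 := by
        rcases mul_eq_zero.1 h6 with h | h
        · exact absurd h h2
        · exact h
      have hu : u = 0 := by rw [h3, hα]; ring
      refine ⟨hu, ?_⟩
      have h7 : v - κ = 2 * β := by rw [h22, hα]; ring
      have h8 : (v + κ) ^ 2 = 0 := by
        have : (v - κ) ^ 2 = 4 * β ^ 2 := by rw [h7]; ring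
        linear_combination this - 4 * h0
      have h9 : v + κ = 0 := pow_eq_zero_iff (two_ne_zero) |>.1 h8
      linear_combination h9
    · have hβ : β = -κ := by linear_combination h6
      have hv : v = -κ := by
        have : κ * (v + κ) = 0 := by
          rw [hβ] at h0
          linear_combination -h0
        rcases mul_eq_zero.1 this with h | h
        · exact absurd h hκ
        · linear_combination h
      have hα2 : α ^ 2 = 0 := by
        rw [hv, hβ] at h22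
        linear_combination -h22
      have hα : α = 0 := pow_eq_zero_iff (two_ne_zero) |>.1 hα2
      exact ⟨by rw [h3, hα]; ring, hv⟩

end

section
variable {L : Type*} [Field L] [IsAlgClosed L]

/-- the data of a decomposition -/
structure m23_Dec (f : L[X][X]) (T : Finset (Option L)) (a b : L[X]) (h : L[X][X]) : Prop where
  da : a.natDegree ≤ 1
  db : b.natDegree ≤ 1
  ne : a ≠ b
  e0 : ev 1 (a - b) none = 0
  wp : WP 1 2 h
  fac : f = (X - C a) * (X - C b) * h
  z : ∀ p ∈ T, p ≠ none → ev 4 (h.eval a * h.eval b) p = 0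

variable {f : L[X][X]} {T : Finset (Option L)} {a b a' b' : L[X]} {h h' : L[X][X]}

lemma m23_WP13 (hd : m23_Dec f T a b h) : WP 1 3 ((X - C b) * h) := by
  have := WP_mul (WP_X_sub_C hd.db) hd.wp
  exact this

lemma m23_fac' (hd : m23_Dec f T a b h) : f = (X - C a) * ((X - C b) * h) := by
  rw [hd.fac]; ring

lemma m23_symm (hd : m23_Dec f T a b h) : m23_Dec f T b a h where
  da := hd.db
  db := hd.da
  ne := hd.ne.symm
  e0 := by
    have : b - a = -(a - b) := by ring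
    rw [this, ev_neg, hd.e0, neg_zero]
  wp := hd.wp
  fac := by rw [hd.fac]; ring
  z := fun p hp hn => by rw [mul_comm]; exact hd.z p hp hn

lemma m23_eval_ne (h2 : (2 : L) ≠ 0) (hf : WP 1 4 f) (hq : NoSq f) (hd : m23_Dec f T a b h) :
    h.eval a ≠ 0 := by
  intro h0
  obtain ⟨g, -, hg⟩ := exists_factor (d := 1) hd.wp hd.da h0
  apply noSq_not_double h2 hf hq hd.da
  refine ⟨(X - C b) * g, ?_⟩
  rw [hd.fac, hg]; ring

lemma m23_natDeg (hd : m23_Dec f T a b h) : (h.eval a * h.eval b).natDegree ≤ 4 := by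
  have h1 := natDegree_eval hd.wp hd.da
  have h2 := natDegree_eval hd.wp hd.db
  exact natDegree_mul_le.trans (by omega)

lemma m23_prod_ne (h2 : (2 : L) ≠ 0) (hf : WP 1 4 f) (hq : NoSq f) (hd : m23_Dec f T a b h) :
    h.eval a * h.eval b ≠ 0 :=
  mul_ne_zero (m23_eval_ne h2 hf hq hd) (m23_eval_ne h2 hf hq (m23_symm hd))

lemma m23_ev_none (h2 : (2 : L) ≠ 0) (hf : WP 1 4 f) (hq : NoSq f) (hT : T.card = 5)
    (hd : m23_Dec f T a b h) : ev 4 (h.eval a * h.eval b) none ≠ 0 := by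
  intro h0
  apply m23_prod_ne h2 hf hq hd
  refine eq_zero_of_ev (T := T) (m23_natDeg hd) (by omega) ?_
  intro p hp
  by_cases hn : p = none
  · rw [hn]; exact h0
  · exact hd.z p hp hn

lemma m23_ev_mul (hd : m23_Dec f T a b h) (p : Option L) :
    ev 4 (h.eval a * h.eval b) p = ev 2 (h.eval a) p * ev 2 (h.eval b) p := by
  have h1 := natDegree_eval hd.wp hd.da
  have h2 := natDegree_eval hd.wp hd.db
  exact ev_mul (m := 2) (n := 2) (by omega) (by omega)

/-- crossing points are singular -/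
lemma m23_sing_of (hd : m23_Dec f T a b h) {p : Option L}
    (hp : ev 1 (a - b) p = 0 ∨ ev 2 (h.eval a) p = 0) : Sing 1 4 f p (ev 1 a p) := by
  have key := sing_mul_of_both (w := 1) (d1 := 1) (d2 := 3) (f := X - C a) (g := (X - C b) * h)
    (p := p) (v := ev 1 a p) (WP_X_sub_C hd.da) (m23_WP13 hd) le_rfl le_rfl (by norm_num)
    (by rw [fib_X_sub_C hd.da]; simp)
    (by
      have e1 := fib_mul (p := p) (WP_X_sub_C hd.db) hd.wp
      have e1' : fib 1 3 ((X - C b) * h) p = fib 1 1 (X - C b) p * fib 1 2 h p := e1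
      rw [e1', fib_X_sub_C hd.db, eval_mul]
      rcases hp with hp | hp
      · rw [ev_sub] at hp
        simp [hp]
      · rw [fib_eval hd.wp hd.da]
        have : ev (1 * 2) (h.eval a) p = 0 := hp
        rw [this, mul_zero])
  rw [m23_fac' hd]
  exact key

lemma m23_mem (h2 : (2 : L) ≠ 0) (hf : WP 1 4 f) (hq : NoSq f) (hT : T.card = 5)
    (hd : m23_Dec f T a b h) (hd' : m23_Dec f T a' b' h') : a' = a ∨ a' = b := by
  have e1 : ev 1 a' none = ev 1 a none :=
    sing_unique4 hf hq (m23_sing_of hd' (Or.inl hd'.e0)) (m23_sing_of hd (Or.inl hd.e0))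
  have e2 : f.eval a' = 0 := by rw [hd'.fac]; simp
  rw [hd.fac] at e2
  simp only [eval_mul, eval_sub, eval_X, eval_C] at e2
  rcases mul_eq_zero.1 e2 with e3 | e3
  · rcases mul_eq_zero.1 e3 with e4 | e4
    · left; exact sub_eq_zero.1 e4
    · right; exact sub_eq_zero.1 e4
  · exfalso
    apply m23_ev_none h2 hf hq hT hd
    rw [m23_ev_mul hd]
    have e4 := fib_eval (p := none) hd.wp hd'.da
    have e5 := fib_eval (p := none) hd.wp hd.da
    rw [e1] at e4
    rw [e5] at e4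
    have e6 : ev (1 * 2) (h.eval a) none = ev 2 (h.eval a) none := rfl
    rw [← e6, e4, e3, ev_zero, zero_mul]

/-- uniqueness of the pair of lines -/
lemma m23_unique (h2 : (2 : L) ≠ 0) (hf : WP 1 4 f) (hq : NoSq f) (hT : T.card = 5)
    (hd : m23_Dec f T a b h) (hd' : m23_Dec f T a' b' h') : a' + b' = a + b ∧ a' * b' = a * b := by
  have h1 := m23_mem h2 hf hq hT hd hd'
  have h3 := m23_mem h2 hf hq hT hd (m23_symm hd')
  have hne := hd'.ne
  rcases h1 with rfl | rfl <;> rcases h3 with rfl | rfl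
  · exact absurd rfl hne
  · exact ⟨rfl, rfl⟩
  · exact ⟨add_comm _ _, mul_comm _ _⟩
  · exact absurd rfl hne

lemma m23_unique_h (h2 : (2 : L) ≠ 0) (hf : WP 1 4 f) (hq : NoSq f) (hT : T.card = 5)
    (hd : m23_Dec f T a b h) (hd' : m23_Dec f T a' b' h') : h' = h := by
  obtain ⟨e1, e2⟩ := m23_unique h2 hf hq hT hd hd'
  have e3 : (X - C a') * (X - C b') = (X - C a) * (X - C b) := by
    have : ∀ x y : L[X], (X - C x) * (X - C y) = X ^ 2 - C (x + y) * X + C (x * y) := by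
      intro x y; simp only [C_add, C_mul]; ring
    rw [this, this, e1, e2]
  have e4 : (X - C a) * (X - C b) * h' = (X - C a) * (X - C b) * h := by
    rw [← e3, ← hd'.fac, e3, ← hd.fac]
  exact mul_left_cancel₀ (mul_ne_zero (X_sub_C_ne_zero a) (X_sub_C_ne_zero b)) e4

end

section
variable {K : Type*} [Field K] [Fintype K]

lemma m23_quad_comp {L : Type*} [Field L] (l k : L[X]) :
    (m23_h 0 (-k ^ 2)).comp (X + C (-l)) = (X - C (l + k)) * (X - C (l - k)) := by
  simp only [m23_h, add_comp, mul_comp, pow_comp, X_comp, C_comp, C_neg, C_add, C_sub, C_0,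
    C_pow, zero_comp, neg_comp]
  ring

lemma m23_comp_comp {L : Type*} [Field L] (f : L[X][X]) (l : L[X]) :
    (f.comp (X + C l)).comp (X + C (-l)) = f := by
  rw [comp_assoc]
  simp

lemma m23_comp_comp' {L : Type*} [Field L] (f : L[X][X]) (l : L[X]) :
    (f.comp (X + C (-l))).comp (X + C l) = f := by
  rw [comp_assoc]
  simp

/-- the quartic with parameters `(l, κ, c1, c2)` -/
def m23_f0 (x : K[X] × K × K[X] × K[X]) : K[X][X] :=
  (m23_h 0 (-C x.2.1) * m23_h x.2.2.1 x.2.2.2).comp (X + C (-x.1))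

/-- its quartic form -/
def m23_N (x : K[X] × K × K[X] × K[X]) : K[X] :=
  (x.2.2.2 + C x.2.1) ^ 2 - C x.2.1 * x.2.2.1 ^ 2

/-- the parameters -/
def m23_S (K : Type*) [Field K] [Fintype K] : Finset (K[X] × K × K[X] × K[X]) :=
  (V K 1 ×ˢ (Finset.univ : Finset K) ×ˢ V K 1 ×ˢ V K 2).filter (fun x =>
    x.2.1 ≠ 0 ∧ x.2.2.2.coeff 2 ≠ 0 ∧ x.2.2.1.coeff 1 ^ 2 ≠ 4 * x.2.2.2.coeff 2 ∧
      (Zf 4 (m23_N x)).card = 4)

lemma m23_mem_S {x : K[X] × K × K[X] × K[X]} : x ∈ m23_S K ↔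
    x.1.natDegree ≤ 1 ∧ x.2.2.1.natDegree ≤ 1 ∧ x.2.2.2.natDegree ≤ 2 ∧ x.2.1 ≠ 0 ∧
      x.2.2.2.coeff 2 ≠ 0 ∧ x.2.2.1.coeff 1 ^ 2 ≠ 4 * x.2.2.2.coeff 2 ∧
      (Zf 4 (m23_N x)).card = 4 := by
  unfold m23_S
  simp only [Finset.mem_filter, Finset.mem_product, mem_V, Finset.mem_univ, true_and]
  tauto

lemma m23_N_natDegree {x : K[X] × K × K[X] × K[X]} (h1 : x.2.2.1.natDegree ≤ 1)
    (h2 : x.2.2.2.natDegree ≤ 2) : (m23_N x).natDegree ≤ 4 := by
  unfold m23_N
  have e1 : (x.2.2.2 + C x.2.1).natDegree ≤ 2 := by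
    refine (natDegree_add_le _ _).trans ?_
    simp [h2]
  have e2 : ((x.2.2.2 + C x.2.1) ^ 2).natDegree ≤ 4 := natDegree_pow_le.trans (by omega)
  have e3 : (C x.2.1 * x.2.2.1 ^ 2).natDegree ≤ 4 := by
    refine (natDegree_C_mul_le _ _).trans (natDegree_pow_le.trans (by omega))
  exact (natDegree_sub_le _ _).trans (max_le e2 e3)

lemma m23_N_coeff {x : K[X] × K × K[X] × K[X]} (h1 : x.2.2.1.natDegree ≤ 1)
    (h2 : x.2.2.2.natDegree ≤ 2) : (m23_N x).coeff 4 = x.2.2.2.coeff 2 ^ 2 := by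
  unfold m23_N
  have e1 : (x.2.2.2 + C x.2.1).natDegree ≤ 2 := by
    refine (natDegree_add_le _ _).trans ?_
    simp [h2]
  have e2 : ((x.2.2.2 + C x.2.1) ^ 2).coeff 4 = (x.2.2.2 + C x.2.1).coeff 2 ^ 2 :=
    coeff_pow_of_natDegree_le (m := 2) (n := 2) e1
  have e3 : (C x.2.1 * x.2.2.1 ^ 2).coeff 4 = 0 := by
    apply coeff_eq_zero_of_natDegree_lt
    have : (C x.2.1 * x.2.2.1 ^ 2).natDegree ≤ 2 :=
      (natDegree_C_mul_le _ _).trans (natDegree_pow_le.trans (by omega))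
    omega
  rw [coeff_sub, e2, e3]
  simp [coeff_C]

lemma m23_up_N (x : K[X] × K × K[X] × K[X]) : up (m23_N x) =
    (up x.2.2.2 + C (algebraMap K (Om K) x.2.1)) ^ 2
      - C (algebraMap K (Om K) x.2.1) * up x.2.2.1 ^ 2 := by
  unfold m23_N
  rw [up_sub, up_pow, up_add, up_C, up_mul, up_C, up_pow]

lemma m23_up2_h (c1 c2 : K[X]) : up2 (m23_h c1 c2) = m23_h (up c1) (up c2) := by
  simp [up2, m23_h, up]

lemma m23_up2_f0 (x : K[X] × K × K[X] × K[X]) : up2 (m23_f0 x) =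
    (m23_h 0 (-C (algebraMap K (Om K) x.2.1)) * m23_h (up x.2.2.1) (up x.2.2.2)).comp
      (X + C (-up x.1)) := by
  unfold m23_f0
  rw [up2_comp, up2_mul, m23_up2_h, m23_up2_h, up_zero]
  congr 3
  · rw [← up_C]; congr 1; simp [up]
  · congr 1; simp [up]

lemma m23_WP_f0 {x : K[X] × K × K[X] × K[X]} (h0 : x.1.natDegree ≤ 1)
    (h1 : x.2.2.1.natDegree ≤ 1) (h2 : x.2.2.2.natDegree ≤ 2) : WP 1 4 (m23_f0 x) := by
  unfold m23_f0
  apply WP_comp
  · exact WP_mul (d1 := 2) (d2 := 2) (m23_WP (by simp) (by simp)) (m23_WP h1 h2)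
  · simpa using h0

lemma m23_eval_h {L : Type*} [Field L] (c1 c2 l s : L[X]) :
    ((m23_h c1 c2).comp (X + C (-l))).eval (l + s) = s ^ 2 + c1 * s + c2 := by
  rw [eval_comp]
  simp [m23_h]

/-- the product of the values -/
lemma m23_prod (x : K[X] × K × K[X] × K[X]) {ρ : Om K}
    (hρ : ρ ^ 2 = algebraMap K (Om K) x.2.1) :
    ((m23_h (up x.2.2.1) (up x.2.2.2)).comp (X + C (-up x.1))).eval (up x.1 + C ρ) *
    ((m23_h (up x.2.2.1) (up x.2.2.2)).comp (X + C (-up x.1))).eval (up x.1 - C ρ)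
      = up (m23_N x) := by
  rw [sub_eq_add_neg, m23_eval_h, m23_eval_h, m23_up_N, ← hρ, C_pow]
  ring

lemma m23_fac_f0 (x : K[X] × K × K[X] × K[X]) {ρ : Om K}
    (hρ : ρ ^ 2 = algebraMap K (Om K) x.2.1) :
    up2 (m23_f0 x) = (X - C (up x.1 + C ρ)) * (X - C (up x.1 - C ρ)) *
      ((m23_h (up x.2.2.1) (up x.2.2.2)).comp (X + C (-up x.1))) := by
  rw [m23_up2_f0, mul_comp, ← m23_quad_comp, ← hρ, C_pow]

lemma m23_natDegree_a {x : K[X] × K × K[X] × K[X]} (h0 : x.1.natDegree ≤ 1) (ρ : Om K) :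
    (up x.1 + C ρ).natDegree ≤ 1 := by
  refine (natDegree_add_le _ _).trans ?_
  rw [natDegree_up]
  simp [h0]

lemma m23_dec {x : K[X] × K × K[X] × K[X]} (h2 : (2 : K) ≠ 0) (hx : x ∈ m23_S K) {ρ : Om K}
    (hρ : ρ ^ 2 = algebraMap K (Om K) x.2.1) :
    m23_Dec (up2 (m23_f0 x)) (insert none (Zf 4 (m23_N x))) (up x.1 + C ρ) (up x.1 - C ρ)
      ((m23_h (up x.2.2.1) (up x.2.2.2)).comp (X + C (-up x.1))) := by
  obtain ⟨d0, d1, d2, hκ, hc, hd, hz⟩ := m23_mem_S.1 hx
  have hN : (m23_N x).natDegree ≤ 4 := m23_N_natDegree d1 d2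
  have hN4 : (m23_N x).coeff 4 ≠ 0 := by
    rw [m23_N_coeff d1 d2]
    exact pow_ne_zero 2 hc
  have hN0 : m23_N x ≠ 0 := by
    intro h; rw [h] at hN4; simp at hN4
  have h2' : (2 : Om K) ≠ 0 := by
    intro h
    apply h2
    have : algebraMap K (Om K) 2 = 0 := by rw [map_ofNat]; exact h
    exact (map_eq_zero_iff _ (algebraMap K (Om K)).injective).1 this
  refine ⟨m23_natDegree_a d0 ρ, ?_, ?_, ?_, ?_, m23_fac_f0 x hρ, ?_⟩
  · have := m23_natDegree_a d0 (-ρ)
    rwa [C_neg, ← sub_eq_add_neg] at this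
  · intro h
    have h1 : C (2 * ρ) = (0 : (Om K)[X]) := by
      have : C (2 * ρ) = C ρ + C ρ := by rw [← C_add]; ring_nf
      rw [this]
      linear_combination h
    rw [C_eq_zero] at h1
    rcases mul_eq_zero.1 h1 with h3 | h3
    · exact h2' h3
    · rw [h3] at hρ
      apply hκ
      have : algebraMap K (Om K) x.2.1 = 0 := by rw [← hρ]; ring
      exact (map_eq_zero_iff _ (algebraMap K (Om K)).injective).1 this
  · have : (up x.1 + C ρ) - (up x.1 - C ρ) = C (2 * ρ) := by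
      have : C (2 * ρ) = C ρ + C ρ := by rw [← C_add]; ring_nf
      rw [this]; ring
    rw [this]
    show (C (2 * ρ)).coeff 1 = 0
    simp [coeff_C]
  · apply WP_comp
    · exact m23_WP (by rw [natDegree_up]; exact d1) (by rw [natDegree_up]; exact d2)
    · rw [natDegree_neg, natDegree_up]; exact d0
  · intro p hp hn
    rw [m23_prod x hρ]
    rcases Finset.mem_insert.1 hp with h | h
    · exact absurd h hn
    · exact (mem_Zf hN hN0).1 h

lemma m23_two (h2 : (2 : K) ≠ 0) : (2 : Om K) ≠ 0 := by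
  intro h
  apply h2
  have : algebraMap K (Om K) 2 = 0 := by rw [map_ofNat]; exact h
  exact (map_eq_zero_iff _ (algebraMap K (Om K)).injective).1 this

lemma m23_N_facts {x : K[X] × K × K[X] × K[X]} (hx : x ∈ m23_S K) :
    (m23_N x).natDegree ≤ 4 ∧ (m23_N x).coeff 4 ≠ 0 ∧ m23_N x ≠ 0 ∧ none ∉ Zf 4 (m23_N x) := by
  obtain ⟨d0, d1, d2, hκ, hc, hd, hz⟩ := m23_mem_S.1 hx
  have hN : (m23_N x).natDegree ≤ 4 := m23_N_natDegree d1 d2
  have hN4 : (m23_N x).coeff 4 ≠ 0 := by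
    rw [m23_N_coeff d1 d2]
    exact pow_ne_zero 2 hc
  have hN0 : m23_N x ≠ 0 := by
    intro h; rw [h] at hN4; simp at hN4
  refine ⟨hN, hN4, hN0, ?_⟩
  rw [mem_Zf hN hN0]
  show (up (m23_N x)).coeff 4 ≠ 0
  rw [coeff_up]
  intro h
  exact hN4 ((map_eq_zero_iff _ (algebraMap K (Om K)).injective).1 h)

lemma m23_stab (x : K[X] × K × K[X] × K[X]) : IsStabG (frob K) (insert none (Zf 4 (m23_N x))) := by
  intro p hp
  rcases Finset.mem_insert.1 hp with h | h
  · rw [h]; exact Finset.mem_insert_self _ _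
  · exact Finset.mem_insert_of_mem (Zf_stable _ p h)

lemma m23_card {x : K[X] × K × K[X] × K[X]} (hx : x ∈ m23_S K) :
    (insert none (Zf 4 (m23_N x))).card = 5 := by
  rw [Finset.card_insert_of_notMem (m23_N_facts hx).2.2.2, (m23_mem_S.1 hx).2.2.2.2.2.2]

lemma m23_mu {x : K[X] × K × K[X] × K[X]} (hx : x ∈ m23_S K) :
    mu K (insert none (Zf 4 (m23_N x))) = - mu K (Zf 4 (m23_N x)) := by
  have h1 : (insert none (Zf 4 (m23_N x))) = {none} ∪ Zf 4 (m23_N x) := rfl
  rw [h1]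
  unfold mu
  rw [muG_union frob_injective ?_ (Zf_stable _) ?_, muG_singleton rfl]
  · ring
  · intro p hp
    rw [Finset.mem_singleton] at hp
    rw [hp]; exact Finset.mem_singleton_self _
  · rw [Finset.disjoint_singleton_left]
    exact (m23_N_facts hx).2.2.2

lemma m23_no_dv {x : K[X] × K × K[X] × K[X]} (hx : x ∈ m23_S K) (p : P1 K) :
    ¬ dv 4 (up (m23_N x)) p := by
  intro hdv
  obtain ⟨hN, hN4, hN0, hnone⟩ := m23_N_facts hx
  have hz := (m23_mem_S.1 hx).2.2.2.2.2.2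
  have hmem : p ∈ Zf 4 (m23_N x) := (mem_Zf hN hN0).2 (dv_ev hdv)
  have hdeg : (up (m23_N x)).natDegree ≤ 4 := by rw [natDegree_up]; exact hN
  have hdisj : Disjoint ({p} : Finset (P1 K)) ((Zf 4 (m23_N x)).erase p) := by
    rw [Finset.disjoint_singleton_left]
    exact Finset.notMem_erase _ _
  have hcard : 4 < 2 * ({p} : Finset (P1 K)).card + ((Zf 4 (m23_N x)).erase p).card := by
    rw [Finset.card_singleton, Finset.card_erase_of_mem hmem, hz]
    norm_num
  have h0 : up (m23_N x) = 0 := by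
    refine eq_zero_of_dv_ev hdeg hdisj hcard ?_ ?_
    · intro r hr
      rw [Finset.mem_singleton] at hr
      rw [hr]; exact hdv
    · intro r hr
      exact (mem_Zf hN hN0).1 (Finset.mem_of_mem_erase hr)
  exact hN0 (up_injective (h0.trans up_zero.symm))

lemma m23_noSq_none {x : K[X] × K × K[X] × K[X]} (hd : x.2.2.1.coeff 1 ^ 2 ≠ 4 * x.2.2.2.coeff 2)
    (key : (ev 2 (C (algebraMap K (Om K) x.2.1)) none = 0 →
      ev 1 (up x.2.2.1) none ^ 2 = 4 * ev 2 (up x.2.2.2) none)) : False := by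
  have hk : ev 2 (C (algebraMap K (Om K) x.2.1)) none = 0 := by
    show (C (algebraMap K (Om K) x.2.1)).coeff 2 = 0
    exact coeff_C_ne_zero (by norm_num)
  have := key hk
  apply hd
  apply (algebraMap K (Om K)).injective
  have e3 : ev 1 (up x.2.2.1) none = algebraMap K (Om K) (x.2.2.1.coeff 1) := coeff_up _ _
  have e4 : ev 2 (up x.2.2.2) none = algebraMap K (Om K) (x.2.2.2.coeff 2) := coeff_up _ _
  rw [e3, e4] at this
  rw [map_pow, this, map_mul, map_ofNat]

lemma m23_noSq_some {x : K[X] × K × K[X] × K[X]} (hκ : x.2.1 ≠ 0) (t : Om K)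
    (key : (ev 2 (C (algebraMap K (Om K) x.2.1)) (some t) ≠ 0 →
      ev 1 (up x.2.2.1) (some t) = 0 ∧
        ev 2 (up x.2.2.2) (some t) = -ev 2 (C (algebraMap K (Om K) x.2.1)) (some t))) :
    dv 4 (up (m23_N x)) (some t) := by
  have hk : ev 2 (C (algebraMap K (Om K) x.2.1)) (some t) = algebraMap K (Om K) x.2.1 := by
    show (C (algebraMap K (Om K) x.2.1)).eval t = _
    exact eval_C
  rw [hk] at key
  obtain ⟨e3, e4⟩ := key (fun h => hκ ((map_eq_zero_iff _ (algebraMap K (Om K)).injective).1 h))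
  have e3' : (up x.2.2.1).eval t = 0 := e3
  have e4' : (up x.2.2.2).eval t = -algebraMap K (Om K) x.2.1 := e4
  rw [m23_up_N]
  constructor
  · simp [e3', e4']
  · simp [e3', e4', derivative_pow]

lemma m23_fib_mul {L : Type*} [Field L] {f g : L[X][X]} (hf : WP 1 2 f) (hg : WP 1 2 g)
    (p : Option L) : fib 1 4 (f * g) p = fib 1 2 f p * fib 1 2 g p := by
  have h := fib_mul (p := p) hf hg
  exact h

lemma m23_WP_mul {L : Type*} [Field L] {f g : L[X][X]} (hf : WP 1 2 f) (hg : WP 1 2 g) :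
    WP 1 4 (f * g) := by
  have h := WP_mul hf hg
  exact h

lemma m23_noSq (h2 : (2 : K) ≠ 0) {x : K[X] × K × K[X] × K[X]} (hx : x ∈ m23_S K) :
    NoSq (up2 (m23_f0 x)) := by
  obtain ⟨d0, d1, d2, hκ, hc, hd, hz⟩ := m23_mem_S.1 hx
  have h2' := m23_two h2
  have w1 : WP 1 2 (m23_h 0 (-C (algebraMap K (Om K) x.2.1))) := m23_WP (by simp) (by simp)
  have w2 : WP 1 2 (m23_h (up x.2.2.1) (up x.2.2.2)) :=
    m23_WP (by rw [natDegree_up]; exact d1) (by rw [natDegree_up]; exact d2)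
  have hl : (-up x.1).natDegree ≤ 1 := by rw [natDegree_neg, natDegree_up]; exact d0
  have goal1 : NoSq (m23_h 0 (-C (algebraMap K (Om K) x.2.1)) *
      m23_h (up x.2.2.1) (up x.2.2.2)) := by
    intro p α β hh
    rw [m23_fib_mul w1 w2, m23_fib, m23_fib, ev_zero, ev_neg] at hh
    have key := m23_sq h2' hh
    cases p with
    | none => exact m23_noSq_none hd key.1
    | some t => exact m23_no_dv hx _ (m23_noSq_some hκ t key.2)
  rw [m23_up2_f0]
  exact (noSq_comp (m23_WP_mul w1 w2) hl).2 goal1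

lemma m23_bad {x : K[X] × K × K[X] × K[X]} (h2 : (2 : K) ≠ 0) (hx : x ∈ m23_S K) :
    ∀ p ∈ insert none (Zf 4 (m23_N x)), Bad 1 4 (up2 (m23_f0 x)) p := by
  obtain ⟨ρ, hρ⟩ := IsAlgClosed.exists_pow_nat_eq (algebraMap K (Om K) x.2.1) (n := 2) (by norm_num)
  have hd := m23_dec h2 hx hρ
  intro p hp
  by_cases hn : p = none
  · rw [hn]
    exact ⟨_, m23_sing_of hd (Or.inl hd.e0)⟩
  · have h1 := hd.z p hp hn
    rw [m23_ev_mul hd] at h1
    rcases mul_eq_zero.1 h1 with h | h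
    · exact ⟨_, m23_sing_of hd (Or.inr h)⟩
    · exact ⟨_, m23_sing_of (m23_symm hd) (Or.inr h)⟩

lemma m23_vtx {x : K[X] × K × K[X] × K[X]} (h2 : (2 : K) ≠ 0) (hx : x ∈ m23_S K) :
    VtxAt K none (m23_f0 x) (insert none (Zf 4 (m23_N x))) := by
  obtain ⟨ρ, hρ⟩ := IsAlgClosed.exists_pow_nat_eq (algebraMap K (Om K) x.2.1) (n := 2) (by norm_num)
  have hd := m23_dec h2 hx hρ
  exact ⟨_, _, hd.da, hd.db, hd.ne, hd.e0, Finset.mem_insert_self _ _, _, hd.wp, hd.fac, hd.z⟩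

/-- injectivity -/
lemma m23_inj {x y : K[X] × K × K[X] × K[X]} (h2 : (2 : K) ≠ 0) (hx : x ∈ m23_S K)
    (hy : y ∈ m23_S K) (hf : m23_f0 x = m23_f0 y)
    (hT : insert none (Zf 4 (m23_N x)) = insert none (Zf 4 (m23_N y))) : x = y := by
  obtain ⟨ρ, hρ⟩ := IsAlgClosed.exists_pow_nat_eq (algebraMap K (Om K) x.2.1) (n := 2) (by norm_num)
  obtain ⟨σ, hσ⟩ := IsAlgClosed.exists_pow_nat_eq (algebraMap K (Om K) y.2.1) (n := 2) (by norm_num)
  have hd := m23_dec h2 hx hρ
  have hd' := m23_dec h2 hy hσ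
  rw [← hf, ← hT] at hd'
  have h2' := m23_two h2
  obtain ⟨d0, d1, d2, -⟩ := m23_mem_S.1 hx
  have hw : WP 1 4 (up2 (m23_f0 x)) := WP_up2 (m23_WP_f0 d0 d1 d2)
  have hq := m23_noSq h2 hx
  obtain ⟨e1, e2⟩ := m23_unique h2' hw hq (m23_card hx) hd hd'
  have e3 := m23_unique_h h2' hw hq (m23_card hx) hd hd'
  have hl : up y.1 = up x.1 := by
    have : (2 : (Om K)[X]) * up y.1 = 2 * up x.1 := by linear_combination e1
    have h3 : (2 : (Om K)[X]) ≠ 0 := by
      intro h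
      apply h2'
      have : C (2 : Om K) = 0 := h
      exact C_eq_zero.1 this
    exact mul_left_cancel₀ h3 this
  have hl' : y.1 = x.1 := up_injective hl
  have hk : y.2.1 = x.2.1 := by
    apply (algebraMap K (Om K)).injective
    rw [← hσ, ← hρ]
    have : C (σ ^ 2) = C (ρ ^ 2) := by
      rw [hl] at e2
      rw [C_pow, C_pow]
      linear_combination -e2
    exact C_injective this
  have hh : m23_h (up y.2.2.1) (up y.2.2.2) = m23_h (up x.2.2.1) (up x.2.2.2) := by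
    rw [hl] at e3
    have := congrArg (fun F : (Om K)[X][X] => F.comp (X + C (up x.1))) e3
    simp only [m23_comp_comp'] at this
    exact this
  have h1 : y.2.2.1 = x.2.2.1 := by
    apply up_injective
    have := congrArg (fun F : (Om K)[X][X] => F.coeff 1) hh
    simpa only [m23_coeff1] using this
  have h0 : y.2.2.2 = x.2.2.2 := by
    apply up_injective
    have := congrArg (fun F : (Om K)[X][X] => F.coeff 0) hh
    simpa only [m23_coeff0] using this
  ext1
  · exact hl'.symm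
  · ext1
    · exact hk.symm
    · ext1
      · exact h1.symm
      · exact h0.symm

lemma m23_WP_phi {h : (Om K)[X][X]} (hh : WP 1 2 h) : WP 1 2 (h.map (phi K)) := by
  refine ⟨hh.1.map _, ?_, ?_⟩
  · rw [hh.1.natDegree_map, hh.2.1]
  · intro i hi
    rw [coeff_map, natDegree_phi]
    exact hh.2.2 i hi

lemma m23_eval_phi (h : (Om K)[X][X]) (s : (Om K)[X]) :
    (h.map (phi K)).eval (phi K s) = phi K (h.eval s) := by
  rw [eval_map, eval₂_hom]

lemma m23_dec_phi {f : K[X][X]} {T : Finset (P1 K)} (hT : IsStabG (frob K) T) {a b : (Om K)[X]}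
    {h : (Om K)[X][X]} (hd : m23_Dec (up2 f) T a b h) :
    m23_Dec (up2 f) T (phi K a) (phi K b) (h.map (phi K)) where
  da := by rw [natDegree_phi]; exact hd.da
  db := by rw [natDegree_phi]; exact hd.db
  ne := fun e => hd.ne (phi_injective e)
  e0 := by
    have h1 : ev 1 (phi K (a - b)) (frob K none) = 0 := by
      rw [ev_phi, hd.e0, zero_pow Fintype.card_ne_zero]
    rw [map_sub] at h1
    exact h1
  wp := m23_WP_phi hd.wp
  fac := by
    rw [← c6c_map_phi f, hd.fac]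
    simp only [Polynomial.map_mul, Polynomial.map_sub, map_X, map_C]
  z := by
    intro p hp hn
    rw [← stab_image frob_injective hT] at hp
    obtain ⟨r, hr, rfl⟩ := Finset.mem_image.1 hp
    have hr' : r ≠ none := by
      rintro rfl
      exact hn rfl
    rw [m23_eval_phi, m23_eval_phi, ← map_mul, ev_phi, hd.z r hr hr',
      zero_pow Fintype.card_ne_zero]

lemma m23_descent {h : (Om K)[X][X]} (hh : h.map (phi K) = h) (hw : WP 1 2 h) :
    ∃ h0 : K[X][X], WP 1 2 h0 ∧ up2 h0 = h := by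
  have h1 : phi K (h.coeff 1) = h.coeff 1 := by
    conv_rhs => rw [← hh]
    rw [coeff_map]
  have h0 : phi K (h.coeff 0) = h.coeff 0 := by
    conv_rhs => rw [← hh]
    rw [coeff_map]
  obtain ⟨c1, hc1⟩ := phi_eq_iff.1 h1
  obtain ⟨c0, hc0⟩ := phi_eq_iff.1 h0
  refine ⟨m23_h c1 c0, m23_WP ?_ ?_, ?_⟩
  · rw [← natDegree_up, hc1]; exact m23_deg1 hw
  · rw [← natDegree_up, hc0]; exact m23_deg0 hw
  · rw [m23_up2_h, hc1, hc0, ← m23_eq hw]

lemma m23_none_square {L : Type*} [Field L] (h2 : (2 : L) ≠ 0) {c1 c2 : L[X]} {κ : L}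
    (h : (c1.coeff 1) ^ 2 = 4 * c2.coeff 2) (w2 : WP 1 2 (m23_h c1 c2)) :
    ¬ NoSq (m23_h 0 (-C κ) * m23_h c1 c2) := by
  intro hq
  have w1 : WP 1 2 (m23_h 0 (-C κ)) := m23_WP (by simp) (by simp)
  apply hq none (c1.coeff 1 / 2) 0
  rw [m23_fib_mul w1 w2, m23_fib, m23_fib]
  have e1 : ev 1 (0 : L[X]) none = 0 := ev_zero
  have e2 : ev 2 (-C κ) none = 0 := by
    show (-C κ).coeff 2 = 0
    rw [coeff_neg, coeff_C_ne_zero (by norm_num), neg_zero]
  have e3 : ev 1 c1 none = c1.coeff 1 := rfl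
  have e4 : ev 2 c2 none = c2.coeff 2 := rfl
  have e5 : c2.coeff 2 = (c1.coeff 1 / 2) ^ 2 := by
    field_simp
    rw [h]
    ring
  have e6 : c1.coeff 1 = 2 * (c1.coeff 1 / 2) := by field_simp
  rw [e1, e2, e3, e4, e5]
  set w := c1.coeff 1 / 2 with hw
  rw [e6]
  have e7 : (C (2 : L) : L[X]) = 2 := rfl
  simp only [C_0, C_mul, C_pow, e7]
  ring

/-- surjectivity -/
lemma m23_surj (h2 : (2 : K) ≠ 0) {f : K[X][X]} {T : Finset (P1 K)} (hw : WP 1 4 f)
    (hq : NoSq (up2 f)) (hT : IsStabG (frob K) T) (hc : T.card = 5) (hv : VtxAt K none f T) :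
    ∃ x ∈ m23_S K, m23_f0 x = f ∧ insert none (Zf 4 (m23_N x)) = T := by
  have h2' := m23_two h2
  obtain ⟨a, b, da, db, hne, he0, hmem, h, hwp, hfac, hz⟩ := hv
  have hd : m23_Dec (up2 f) T a b h := ⟨da, db, hne, he0, hwp, hfac, hz⟩
  have hd' := m23_dec_phi hT hd
  have hw' : WP 1 4 (up2 f) := WP_up2 hw
  obtain ⟨e1, e2⟩ := m23_unique h2' hw' hq hc hd hd'
  have e3 := m23_unique_h h2' hw' hq hc hd hd'
  rw [← map_add] at e1
  rw [← map_mul] at e2
  obtain ⟨A, hA⟩ := phi_eq_iff.1 e1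
  obtain ⟨B, hB⟩ := phi_eq_iff.1 e2
  obtain ⟨h0, hwp0, hh0⟩ := m23_descent e3 hwp
  -- the difference is a constant
  have hD : a - b = C ((a - b).coeff 0) := by
    apply eq_C_of_natDegree_le_zero
    have hd1 : (a - b).natDegree ≤ 1 := (natDegree_sub_le _ _).trans (max_le da db)
    have hc1 : (a - b).coeff 1 = 0 := he0
    by_contra hcon
    have hdd : (a - b).natDegree = 1 := by omega
    have : (a - b).leadingCoeff = 0 := by
      unfold leadingCoeff
      rw [hdd]; exact hc1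
    rw [leadingCoeff_eq_zero] at this
    rw [this] at hdd
    simp at hdd
  set δ := (a - b).coeff 0 with hδ
  have hδ0 : δ ≠ 0 := by
    intro h'
    rw [h', C_0, sub_eq_zero] at hD
    exact hne hD
  have hhalf : (C (1 / 2 : K) : K[X]) * 2 = 1 := by
    have : (2 : K[X]) = C (2 : K) := rfl
    rw [this, ← C_mul, ← C_1]
    congr 1
    field_simp
  set l : K[X] := C (1 / 2) * A with hl
  have hlA : A = 2 * l := by
    rw [hl]
    linear_combination (-A) * hhalf
  set ρ : Om K := δ / 2 with hρ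
  have hρδ : C ρ + C ρ = (C δ : (Om K)[X]) := by
    rw [← C_add, hρ]
    congr 1
    field_simp
    ring
  have htwo : (2 : (Om K)[X]) ≠ 0 := by
    intro h
    apply h2'
    have : C (2 : Om K) = 0 := h
    exact C_eq_zero.1 this
  have up2' : up (2 : K[X]) = 2 := by simp [up]
  have ha : a = up l + C ρ := by
    have h3 : 2 * a = 2 * (up l + C ρ) := by
      have h4 : up A = 2 * up l := by rw [hlA, up_mul, up2']
      rw [mul_add, ← h4, hA]
      linear_combination hD - hρδ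
    exact mul_left_cancel₀ htwo h3
  have hb : b = up l - C ρ := by
    rw [eq_sub_iff_add_eq]
    have : b = a - C δ := by rw [← hD]; ring
    rw [this, ha, ← hρδ]; ring
  -- κ
  set κ : K := ((l ^ 2 - B).coeff 0) with hκdef
  have hκ : ρ ^ 2 = algebraMap K (Om K) κ := by
    have h3 : up (l ^ 2 - B) = C (ρ ^ 2) := by
      rw [up_sub, up_pow, hB, ha, hb, C_pow]
      ring
    have h4 := congrArg (fun P : (Om K)[X] => P.coeff 0) h3
    simp only [coeff_up, coeff_C_zero] at h4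
    exact h4.symm
  have hκ0 : κ ≠ 0 := by
    intro h3
    rw [h3, map_zero] at hκ
    have : ρ = 0 := pow_eq_zero_iff (two_ne_zero) |>.1 hκ
    rw [hρ] at this
    rcases div_eq_zero_iff.1 this with h4 | h4
    · exact hδ0 h4
    · exact h2' h4
  have hl1 : l.natDegree ≤ 1 := by
    have : A.natDegree ≤ 1 := by
      rw [← natDegree_up, hA]
      exact (natDegree_add_le _ _).trans (max_le da db)
    exact (natDegree_C_mul_le _ _).trans this
  -- the second factor
  have hwc : WP 1 2 (h0.comp (X + C l)) := WP_comp hwp0 hl1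
  set c1 := (h0.comp (X + C l)).coeff 1 with hc1
  set c2 := (h0.comp (X + C l)).coeff 0 with hc2
  have hm : h0.comp (X + C l) = m23_h c1 c2 := m23_eq hwc
  have dc1 : c1.natDegree ≤ 1 := m23_deg1 hwc
  have dc2 : c2.natDegree ≤ 2 := m23_deg0 hwc
  have hh : h = (m23_h (up c1) (up c2)).comp (X + C (-up l)) := by
    rw [← m23_up2_h, ← hm, up2_comp, m23_comp_comp, hh0]
  set x : K[X] × K × K[X] × K[X] := (l, κ, c1, c2) with hx
  have hfx : m23_f0 x = f := by
    apply up2_injective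
    rw [m23_fac_f0 x hκ, hfac, ha, hb, hh]
  have hprod : h.eval a * h.eval b = up (m23_N x) := by
    rw [← m23_prod x hκ, hh, ha, hb]
  have hN : (m23_N x).natDegree ≤ 4 := m23_N_natDegree dc1 dc2
  have hN0 : m23_N x ≠ 0 := by
    intro h3
    apply m23_prod_ne h2' hw' hq hd
    rw [hprod, h3, up_zero]
  have hnone : ev 4 (up (m23_N x)) none ≠ 0 := by
    rw [← hprod]; exact m23_ev_none h2' hw' hq hc hd
  have hc22 : c2.coeff 2 ≠ 0 := by
    intro h3
    apply hnone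
    show (up (m23_N x)).coeff 4 = 0
    rw [coeff_up, m23_N_coeff dc1 dc2]
    show algebraMap K (Om K) (c2.coeff 2 ^ 2) = 0
    rw [h3]; simp
  have hsub : T.erase none ⊆ Zf 4 (m23_N x) := by
    intro p hp
    rw [Finset.mem_erase] at hp
    rw [mem_Zf hN hN0, ← hprod]
    exact hz p hp.2 hp.1
  have hcard : (T.erase none).card = 4 := by
    rw [Finset.card_erase_of_mem (show none ∈ T from hmem), hc]
  have heq : T.erase none = Zf 4 (m23_N x) := by
    apply Finset.eq_of_subset_of_card_le hsub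
    rw [hcard]
    exact card_Zf_le hN hN0
  have w2 : WP 1 2 (m23_h (up c1) (up c2)) :=
    m23_WP (by rw [natDegree_up]; exact dc1) (by rw [natDegree_up]; exact dc2)
  have hneq : c1.coeff 1 ^ 2 ≠ 4 * c2.coeff 2 := by
    intro h3
    have w1 : WP 1 2 (m23_h 0 (-C (algebraMap K (Om K) κ))) := m23_WP (by simp) (by simp)
    apply m23_none_square (κ := algebraMap K (Om K) κ) h2' (c1 := up c1) (c2 := up c2) ?_ w2
    · rw [← hfx, m23_up2_f0] at hq
      exact (noSq_comp (m23_WP_mul w1 w2) (by rw [natDegree_neg, natDegree_up]; exact hl1)).1 hq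
    · rw [coeff_up, coeff_up, ← map_pow, h3, map_mul, map_ofNat]
  refine ⟨x, ?_, hfx, ?_⟩
  · rw [m23_mem_S]
    exact ⟨hl1, dc1, dc2, hκ0, hc22, hneq, by rw [← heq, hcard]⟩
  · rw [← heq]
    exact Finset.insert_erase hmem

/-- the coefficients of a quartic -/
def m23_co (f : K[X][X]) : K[X] × K[X] × K[X] × K[X] :=
  (f.coeff 3, f.coeff 2, f.coeff 1, f.coeff 0)

variable (K)

lemma m23_left (h2 : (2 : K) ≠ 0) : SVG K 5 (VtxAt K none) =
    ∑ x ∈ m23_S K, - mu K (Zf 4 (m23_N x)) := by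
  unfold SVG
  rw [Finset.sum_sigma']
  symm
  refine Finset.sum_bij (fun x _ => ⟨m23_co (m23_f0 x), insert none (Zf 4 (m23_N x))⟩) ?_ ?_ ?_ ?_
  · intro x hx
    obtain ⟨d0, d1, d2, -⟩ := m23_mem_S.1 hx
    have hw := m23_WP_f0 d0 d1 d2
    have e : quart (m23_co (m23_f0 x)) = m23_f0 x := (eq_quart hw).symm
    rw [Finset.mem_sigma, Finset.mem_filter, mem_Q4, mem_Stab]
    show (WP 1 4 (quart (m23_co (m23_f0 x))) ∧ NoSq (up2 (quart (m23_co (m23_f0 x))))) ∧
      (IsStabG (frob K) (insert none (Zf 4 (m23_N x))) ∧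
        (insert none (Zf 4 (m23_N x))).card = 5) ∧
      (∀ p ∈ insert none (Zf 4 (m23_N x)), Bad 1 4 (up2 (quart (m23_co (m23_f0 x)))) p) ∧
      VtxAt K none (quart (m23_co (m23_f0 x))) (insert none (Zf 4 (m23_N x)))
    rw [e]
    exact ⟨⟨hw, m23_noSq h2 hx⟩, ⟨m23_stab x, m23_card hx⟩, m23_bad h2 hx, m23_vtx h2 hx⟩
  · intro x hx y hy hxy
    obtain ⟨d0, d1, d2, -⟩ := m23_mem_S.1 hx
    obtain ⟨d0', d1', d2', -⟩ := m23_mem_S.1 hy
    have e : quart (m23_co (m23_f0 x)) = m23_f0 x := (eq_quart (m23_WP_f0 d0 d1 d2)).symm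
    have e' : quart (m23_co (m23_f0 y)) = m23_f0 y := (eq_quart (m23_WP_f0 d0' d1' d2')).symm
    rw [Sigma.mk.injEq] at hxy
    refine m23_inj h2 hx hy ?_ (eq_of_heq hxy.2)
    rw [← e, ← e', hxy.1]
  · rintro ⟨c, T⟩ hcT
    rw [Finset.mem_sigma, Finset.mem_filter, mem_Q4, mem_Stab] at hcT
    obtain ⟨⟨hw, hq⟩, ⟨hT, hc⟩, hb, hv⟩ := hcT
    obtain ⟨x, hx, hf, hTx⟩ := m23_surj h2 hw hq hT hc hv
    refine ⟨x, hx, ?_⟩
    have e : m23_co (m23_f0 x) = c := by
      apply quart_injective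
      rw [hf]
      exact (eq_quart hw).symm
    simp only [e, hTx]
  · intro x hx
    exact (m23_mu hx).symm

lemma m23_mob {x : K[X] × K × K[X] × K[X]} (d1 : x.2.2.1.natDegree ≤ 1)
    (d2 : x.2.2.2.natDegree ≤ 2) (hc : x.2.2.2.coeff 2 ≠ 0) :
    mob (m23_N x) = if (Zf 4 (m23_N x)).card = 4 then mu K (Zf 4 (m23_N x)) else 0 := by
  have hN : (m23_N x).natDegree ≤ 4 := m23_N_natDegree d1 d2
  have hN4 : (m23_N x).coeff 4 ≠ 0 := by
    rw [m23_N_coeff d1 d2]
    exact pow_ne_zero 2 hc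
  have hN0 : m23_N x ≠ 0 := by
    intro h; rw [h] at hN4; simp at hN4
  have hd : (m23_N x).natDegree = 4 := le_antisymm hN (le_natDegree_of_ne_zero hN4)
  split_ifs with h
  · exact mob_eq hN0 hd h
  · exact mob_eq_zero hN0 hd h

lemma m23_right : ∑ x ∈ m23_S K, mu K (Zf 4 (m23_N x)) = (Fintype.card K : ℤ) ^ 2 * PC8 K := by
  unfold m23_S
  rw [Finset.sum_filter, Finset.sum_product]
  have h1 : (Fintype.card K : ℤ) ^ 2 = ∑ _l ∈ V K 1, (1 : ℤ) := by
    rw [Finset.sum_const, card_V]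
    simp
  rw [h1, Finset.sum_mul]
  refine Finset.sum_congr rfl ?_
  intro l hl
  rw [one_mul, Finset.sum_product]
  unfold PC8
  rw [Finset.sum_filter]
  refine Finset.sum_congr rfl ?_
  intro κ _
  rw [Finset.sum_product]
  by_cases hκ : κ = 0
  · subst hκ
    simp
  rw [if_pos hκ]
  refine Finset.sum_congr rfl ?_
  intro c1 hc1
  refine Finset.sum_congr rfl ?_
  intro c2 hc2
  rw [mem_V] at hc1 hc2
  by_cases h : c2.coeff 2 ≠ 0 ∧ c1.coeff 1 ^ 2 ≠ 4 * c2.coeff 2
  · rw [if_pos h]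
    have := m23_mob K (x := (l, κ, c1, c2)) hc1 hc2 h.1
    have e : m23_N (l, κ, c1, c2) = (c2 + C κ) ^ 2 - C κ * c1 ^ 2 := rfl
    rw [← e, this]
    by_cases h' : (Zf 4 (m23_N (l, κ, c1, c2))).card = 4
    · rw [if_pos h', if_pos ⟨hκ, h.1, h.2, h'⟩]
    · rw [if_neg h', if_neg (fun hh => h' hh.2.2.2)]
  · rw [if_neg h, if_neg (fun hh => h ⟨hh.2.1, hh.2.2.1⟩)]

/-- M23 -/
theorem SV_five_inf (h2 : (2 : K) ≠ 0) :
    SVG K 5 (VtxAt K none) = - (Fintype.card K : ℤ) ^ 2 * PC8 K := by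
  rw [m23_left K h2, Finset.sum_neg_distrib, m23_right]
  ring

end

end
end Pool.Agent.Helper19.DP1
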