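import Pool.Agent.Helper19.DP1.Sums
import Pool.Agent.Helper19.DP1.Core3a
import Pool.Agent.Helper19.DP1.Core5c

/-! M24: `PC8_eq` (character sums). -/

namespace Pool.Agent.Helper19.DP1
open Polynomial Classical
noncomputable section

set_option linter.unusedSectionVars false

section
variable {K : Type*} [Field K] [Fintype K]

lemma m24_char (h2 : (2 : K) ≠ 0) : ringChar K ≠ 2 := by
  intro h
  apply h2
  have := ringChar.Nat.cast_ringChar (R := K)
  rw [h] at this
  exact_mod_cast this

lemma m24_chi_sq (a : K) : quadraticChar K (a ^ 2) = if a = 0 then 0 else 1 := by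
  split_ifs with h
  · rw [h]; simp
  · exact quadraticChar_sq_one' h

lemma m24_four (h2 : (2 : K) ≠ 0) : (4 : K) ≠ 0 := by
  have : (4 : K) = 2 * 2 := by norm_num
  rw [this]
  exact mul_ne_zero h2 h2

lemma m24_card_ne (c : K) : (∑ z : K, (if z = c then (0 : ℤ) else 1)) = Fintype.card K - 1 := by
  have h : ∀ z : K, (if z = c then (0 : ℤ) else 1) = 1 - (if z = c then 1 else 0) := by
    intro z; split_ifs <;> ring
  rw [Finset.sum_congr rfl fun z _ => h z, Finset.sum_sub_distrib, Finset.sum_ite_eq']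
  simp

lemma m24_card_sqrt (h2 : (2 : K) ≠ 0) (m : K) :
    (∑ z : K, (if z ^ 2 = m then (1 : ℤ) else 0)) = 1 + quadraticChar K m := by
  have h := quadraticChar_card_sqrts (m24_char h2) m
  rw [Finset.sum_boole]
  rw [add_comm, ← h]
  congr 2
  ext z
  simp

lemma m24_card_sq_ne (h2 : (2 : K) ≠ 0) (m : K) :
    (∑ z : K, (if z ^ 2 = m then (0 : ℤ) else 1)) =
      Fintype.card K - 1 - quadraticChar K m := by
  have h : ∀ z : K, (if z ^ 2 = m then (0 : ℤ) else 1) = 1 - (if z ^ 2 = m then 1 else 0) := by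
    intro z; split_ifs <;> ring
  rw [Finset.sum_congr rfl fun z _ => h z, Finset.sum_sub_distrib, m24_card_sqrt h2]
  simp
  ring

lemma m24_sum_chi_shift (h2 : (2 : K) ≠ 0) {κ : K} (hκ : κ ≠ 0) :
    ∑ e : K, quadraticChar K (e ^ 2 - κ) = -1 := by
  have h1 : ∀ e : K, quadraticChar K (e ^ 2 - κ) =
      (∑ z : K, (if z ^ 2 = e ^ 2 - κ then (1 : ℤ) else 0)) - 1 := by
    intro e
    rw [m24_card_sqrt h2]; ring
  rw [Finset.sum_congr rfl fun e _ => h1 e, Finset.sum_sub_distrib]
  have h3 : (∑ e : K, ∑ z : K, (if z ^ 2 = e ^ 2 - κ then (1 : ℤ) else 0)) =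
      Fintype.card K - 1 := by
    rw [← Fintype.sum_prod_type' (f := fun e z : K => if z ^ 2 = e ^ 2 - κ then (1 : ℤ) else 0)]
    rw [Finset.sum_boole]
    have h4 : (Finset.univ.filter (fun x : K × K => x.2 ^ 2 = x.1 ^ 2 - κ)).card =
        (Finset.univ.filter (fun s : K => s ≠ 0)).card := by
      refine Finset.card_nbij' (fun x => x.1 - x.2) (fun s => ((s + κ / s) / 2, (κ / s - s) / 2))
        ?_ ?_ ?_ ?_
      · rintro ⟨e, z⟩ h
        simp only [Finset.coe_filter, Finset.mem_univ, true_and, Set.mem_ofPred_eq] at h ⊢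
        intro h0
        have : e = z := sub_eq_zero.1 h0
        rw [this] at h
        apply hκ
        linear_combination h
      · intro s hs
        simp only [Finset.coe_filter, Finset.mem_univ, true_and, Set.mem_ofPred_eq] at hs ⊢
        field_simp
        ring
      · rintro ⟨e, z⟩ h
        simp only [Finset.coe_filter, Finset.mem_univ, true_and, Set.mem_ofPred_eq] at h
        have h0 : e - z ≠ 0 := by
          intro h0
          have : e = z := sub_eq_zero.1 h0
          rw [this] at h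
          apply hκ
          linear_combination h
        have h5 : κ / (e - z) = e + z := by
          rw [div_eq_iff h0]; linear_combination h
        simp only [h5, Prod.mk.injEq]
        constructor
        · field_simp; ring
        · field_simp; ring
      · intro s hs
        simp only [Finset.coe_filter, Finset.mem_univ, true_and, Set.mem_ofPred_eq] at hs
        simp only
        field_simp
        ring
    rw [h4]
    have h5 := m24_card_ne (0 : K)
    rw [← h5]
    rw [← Finset.sum_boole]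
    refine Finset.sum_congr rfl fun s _ => ?_
    split_ifs <;> simp_all
  rw [h3]
  simp

lemma m24_sum_EF (h2 : (2 : K) ≠ 0) {κ : K} (hκ : κ ≠ 0) :
    ∑ F : K, ∑ E : K, quadraticChar K (E ^ 2 - κ * F ^ 2) = 0 := by
  have h1 : ∀ F : K, ∑ E : K, quadraticChar K (E ^ 2 - κ * F ^ 2) =
      (if F = 0 then (Fintype.card K : ℤ) else 0) - 1 := by
    intro F
    split_ifs with hF
    · rw [hF]
      have : ∀ E : K, quadraticChar K (E ^ 2 - κ * 0 ^ 2) = if E = 0 then 0 else 1 := by
        intro E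
        rw [← m24_chi_sq]
        congr 1
        ring
      rw [Finset.sum_congr rfl fun E _ => this E, m24_card_ne]
    · rw [m24_sum_chi_shift h2 (mul_ne_zero hκ (pow_ne_zero 2 hF))]
      ring
  rw [Finset.sum_congr rfl fun F _ => h1 F, Finset.sum_sub_distrib, Finset.sum_ite_eq']
  simp

lemma m24_sum_chi_ne (h2 : (2 : K) ≠ 0) :
    ∑ κ ∈ (Finset.univ : Finset K).filter (fun κ => κ ≠ 0), quadraticChar K κ = 0 := by
  have h := quadraticChar_sum_zero (m24_char h2)
  rw [← h, Finset.sum_filter]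
  refine Finset.sum_congr rfl fun κ _ => ?_
  split_ifs with hk
  · rfl
  · push Not at hk
    rw [hk]; simp

lemma m24_card_filter : (((Finset.univ : Finset K).filter (fun κ => κ ≠ 0)).card : ℤ) =
    Fintype.card K - 1 := by
  rw [← m24_card_ne (0 : K), ← Finset.sum_boole]
  refine Finset.sum_congr rfl fun s _ => ?_
  split_ifs <;> simp_all

/-- affine bijection -/
def m24_aff (α β : K) (hβ : β ≠ 0) : K ≃ K where
  toFun x := α - β * x
  invFun y := (α - y) / β
  left_inv x := by field_simp; ring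
  right_inv y := by field_simp; ring

lemma m24_sum_aff (α β : K) (hβ : β ≠ 0) (f : K → ℤ) : ∑ x : K, f (α - β * x) = ∑ y : K, f y :=
  (m24_aff α β hβ).sum_comp f

/-- the summand -/
def m24_G (κ a b c d e : K) : ℤ :=
  quadraticChar K ((d ^ 2 + κ * a ^ 2 - 4 * c * (e + κ)) ^ 2 - κ * (2 * d * a - 4 * c * b) ^ 2)

lemma m24_sum_be (h2 : (2 : K) ≠ 0) {κ c : K} (hκ : κ ≠ 0) (hc : c ≠ 0) (a d : K) :
    ∑ b : K, ∑ e : K, m24_G κ a b c d e = 0 := by
  have h4c : 4 * c ≠ 0 := mul_ne_zero (m24_four h2) hc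
  have h1 : ∀ b : K, ∑ e : K, m24_G κ a b c d e =
      ∑ E : K, quadraticChar K (E ^ 2 - κ * (2 * d * a - 4 * c * b) ^ 2) := by
    intro b
    rw [← m24_sum_aff (d ^ 2 + κ * a ^ 2 - 4 * c * κ) (4 * c) h4c
      (fun E => quadraticChar K (E ^ 2 - κ * (2 * d * a - 4 * c * b) ^ 2))]
    refine Finset.sum_congr rfl fun e _ => ?_
    unfold m24_G
    congr 2
    ring
  rw [Finset.sum_congr rfl fun b _ => h1 b]
  rw [m24_sum_aff (2 * d * a) (4 * c) h4c
    (fun F => ∑ E : K, quadraticChar K (E ^ 2 - κ * F ^ 2))]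
  exact m24_sum_EF h2 hκ

lemma m24_all (h2 : (2 : K) ≠ 0) {κ : K} (hκ : κ ≠ 0) (a : K) :
    ∑ b : K, ∑ c : K, ∑ d : K, ∑ e : K,
      (if c ≠ 0 ∧ a ^ 2 ≠ 4 * c then m24_G κ a b c d e else 0) = 0 := by
  rw [Finset.sum_comm]
  refine Finset.sum_eq_zero fun c _ => ?_
  rw [Finset.sum_comm]
  refine Finset.sum_eq_zero fun d _ => ?_
  by_cases h : c ≠ 0 ∧ a ^ 2 ≠ 4 * c
  · simp only [if_pos h]
    exact m24_sum_be h2 hκ h.1 a d
  · simp only [if_neg h]
    simp

lemma m24_zero (h2 : (2 : K) ≠ 0) (κ : K) :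
    ∑ b : K, ∑ c : K, ∑ d : K, ∑ e : K,
      (if c ≠ 0 ∧ (0 : K) ^ 2 ≠ 4 * c then
        (if (0 : K) ^ 2 * (e + κ) - 0 * b * d + b ^ 2 * c = 0 then m24_G κ 0 b c d e else 0)
        else 0) = ((Fintype.card K : ℤ) - 1) ^ 2 * Fintype.card K := by
  have h4 := m24_four h2
  have hP : ∀ c : K, (c ≠ 0 ∧ (0 : K) ^ 2 ≠ 4 * c) ↔ c ≠ 0 := by
    intro c
    constructor
    · exact fun h => h.1
    · intro h
      refine ⟨h, ?_⟩
      rw [zero_pow two_ne_zero]
      exact (mul_ne_zero h4 h).symm
  rw [Finset.sum_eq_single (0 : K)]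
  · have h1 : ∀ c : K, ∑ d : K, ∑ e : K,
        (if c ≠ 0 ∧ (0 : K) ^ 2 ≠ 4 * c then
        (if (0 : K) ^ 2 * (e + κ) - 0 * 0 * d + 0 ^ 2 * c = 0 then m24_G κ 0 0 c d e else 0)
        else 0) = if c = 0 then 0 else (Fintype.card K : ℤ) * (Fintype.card K - 1) := by
      intro c
      by_cases hc : c = 0
      · rw [if_pos hc]
        simp [hc]
      · rw [if_neg hc]
        have h4c : 4 * c ≠ 0 := mul_ne_zero h4 hc
        have h3 : ∀ d : K, ∑ e : K, (if c ≠ 0 ∧ (0 : K) ^ 2 ≠ 4 * c then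
            (if (0 : K) ^ 2 * (e + κ) - 0 * 0 * d + 0 ^ 2 * c = 0 then m24_G κ 0 0 c d e else 0)
            else 0) = (Fintype.card K : ℤ) - 1 := by
          intro d
          rw [← m24_card_ne (0 : K), ← m24_sum_aff (d ^ 2 - 4 * c * κ) (4 * c) h4c
            (fun z => if z = 0 then (0 : ℤ) else 1)]
          refine Finset.sum_congr rfl fun e _ => ?_
          rw [if_pos ((hP c).2 hc), if_pos (by ring), ← m24_chi_sq]
          unfold m24_G
          congr 1
          ring
        rw [Finset.sum_congr rfl fun d _ => h3 d, Finset.sum_const, Finset.card_univ,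
          nsmul_eq_mul]
    rw [Finset.sum_congr rfl fun c _ => h1 c]
    have h5 : ∀ c : K, (if c = 0 then (0 : ℤ) else (Fintype.card K : ℤ) * (Fintype.card K - 1)) =
        (Fintype.card K : ℤ) * (Fintype.card K - 1) * (if c = 0 then 0 else 1) := by
      intro c; split_ifs <;> ring
    rw [Finset.sum_congr rfl fun c _ => h5 c, ← Finset.mul_sum, m24_card_ne]
    ring
  · intro b _ hb
    refine Finset.sum_eq_zero fun c _ => Finset.sum_eq_zero fun d _ =>
      Finset.sum_eq_zero fun e _ => ?_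
    by_cases hc : c = 0
    · simp [hc]
    · rw [if_pos ((hP c).2 hc), if_neg]
      have : (0 : K) ^ 2 * (e + κ) - 0 * b * d + b ^ 2 * c = b ^ 2 * c := by ring
      rw [this]
      exact mul_ne_zero (pow_ne_zero 2 hb) hc
  · intro h
    exact absurd (Finset.mem_univ _) h

lemma m24_card_c (h2 : (2 : K) ≠ 0) {a : K} (ha : a ≠ 0) :
    ∑ c : K, (if c ≠ 0 ∧ a ^ 2 ≠ 4 * c then (1 : ℤ) else 0) = Fintype.card K - 2 := by
  have h4 := m24_four h2
  have h0 : a ^ 2 / 4 ≠ 0 := div_ne_zero (pow_ne_zero 2 ha) h4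
  have h1 : ∀ c : K, (if c ≠ 0 ∧ a ^ 2 ≠ 4 * c then (1 : ℤ) else 0) =
      (1 - (if c = 0 then 1 else 0)) - (if c = a ^ 2 / 4 then 1 else 0) := by
    intro c
    have h3 : c = a ^ 2 / 4 ↔ a ^ 2 = 4 * c := by
      rw [eq_div_iff h4]
      constructor
      · intro h; rw [← h]; ring
      · intro h; rw [h]; ring
    by_cases hc : c = 0
    · have h5 : ¬ c = a ^ 2 / 4 := by rw [hc]; exact h0.symm
      rw [if_pos hc, if_neg h5, if_neg (by tauto)]
      ring
    · by_cases hc2 : a ^ 2 = 4 * c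
      · rw [if_neg hc, if_pos (h3.2 hc2), if_neg (by tauto)]
        ring
      · rw [if_neg hc, if_neg (fun h => hc2 (h3.1 h)), if_pos ⟨hc, hc2⟩]
        ring
  rw [Finset.sum_congr rfl fun c _ => h1 c, Finset.sum_sub_distrib, Finset.sum_sub_distrib,
    Finset.sum_ite_eq', Finset.sum_ite_eq']
  simp
  ring

lemma m24_ne (h2 : (2 : K) ≠ 0) (κ : K) {a : K} (ha : a ≠ 0) :
    ∑ b : K, ∑ c : K, ∑ d : K, ∑ e : K,
      (if c ≠ 0 ∧ a ^ 2 ≠ 4 * c then
        (if a ^ 2 * (e + κ) - a * b * d + b ^ 2 * c = 0 then m24_G κ a b c d e else 0)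
        else 0) = (Fintype.card K : ℤ) * (Fintype.card K - 2) *
          (Fintype.card K - 1 - quadraticChar K κ) := by
  have hchi : quadraticChar K (κ * a ^ 2) = quadraticChar K κ := by
    rw [map_mul, m24_chi_sq, if_neg ha, mul_one]
  have h1 : ∀ b c : K, ∑ d : K, ∑ e : K,
      (if c ≠ 0 ∧ a ^ 2 ≠ 4 * c then
        (if a ^ 2 * (e + κ) - a * b * d + b ^ 2 * c = 0 then m24_G κ a b c d e else 0)
        else 0) = (if c ≠ 0 ∧ a ^ 2 ≠ 4 * c then (1 : ℤ) else 0) *
          (Fintype.card K - 1 - quadraticChar K κ) := by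
    intro b c
    by_cases h : c ≠ 0 ∧ a ^ 2 ≠ 4 * c
    · simp only [if_pos h]
      rw [one_mul, ← hchi, ← m24_card_sq_ne h2 (κ * a ^ 2)]
      have h3 : ∀ d : K, ∑ e : K,
          (if a ^ 2 * (e + κ) - a * b * d + b ^ 2 * c = 0 then m24_G κ a b c d e else 0) =
          (if (-(2 * c * b / a) - (-1) * d) ^ 2 = κ * a ^ 2 then 0 else 1) := by
        intro d
        rw [Finset.sum_eq_single (-κ + (a * b * d - b ^ 2 * c) / a ^ 2)]
        · rw [if_pos (by field_simp; ring)]
          have e1 : ((-(2 * c * b / a) - (-1) * d) ^ 2 = κ * a ^ 2) ↔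
              ((d - 2 * c * b / a) ^ 2 - κ * a ^ 2 = 0) := by
            rw [sub_eq_zero]
            have : (-(2 * c * b / a) - (-1) * d) = d - 2 * c * b / a := by ring
            rw [this]
          simp only [e1]
          rw [← m24_chi_sq]
          unfold m24_G
          congr 1
          field_simp
          ring
        · intro e _ he
          rw [if_neg]
          intro h0
          apply he
          field_simp
          linear_combination h0
        · intro h
          exact absurd (Finset.mem_univ _) h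
      rw [Finset.sum_congr rfl fun d _ => h3 d]
      exact m24_sum_aff _ (-1) (by simp) (fun z => if z ^ 2 = κ * a ^ 2 then (0 : ℤ) else 1)
    · simp only [if_neg h]
      simp
  rw [Finset.sum_congr rfl fun b _ => Finset.sum_congr rfl fun c _ => h1 b c]
  simp only [← Finset.sum_mul]
  rw [m24_card_c h2 ha, Finset.sum_const, Finset.card_univ, nsmul_eq_mul]

end

section
variable (K : Type*) [Field K] [Fintype K]

/-- M24 -/
theorem PC8_eq (h2 : (2 : K) ≠ 0) :
    PC8 K = - (Fintype.card K : ℤ) * ((Fintype.card K : ℤ) - 1) ^ 4 := by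
  unfold PC8
  have h1 : ∀ κ ∈ (Finset.univ : Finset K).filter (fun κ => κ ≠ 0),
      (∑ c1 ∈ V K 1, ∑ c2 ∈ V K 2,
        if c2.coeff 2 ≠ 0 ∧ c1.coeff 1 ^ 2 ≠ 4 * c2.coeff 2 then
          mob ((c2 + C κ) ^ 2 - C κ * c1 ^ 2) else 0) =
      - (((Fintype.card K : ℤ) - 1) ^ 2 * Fintype.card K +
        ((Fintype.card K : ℤ) - 1) * ((Fintype.card K : ℤ) * (Fintype.card K - 2) *
          (Fintype.card K - 1 - quadraticChar K κ))) := by
    intro κ hκ
    have hκ' : κ ≠ 0 := (Finset.mem_filter.1 hκ).2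
    rw [sum_V1]
    have h3 : ∀ a : K, ∑ b : K, ∑ c2 ∈ V K 2,
        (if c2.coeff 2 ≠ 0 ∧ (C a * X + C b).coeff 1 ^ 2 ≠ 4 * c2.coeff 2 then
          mob ((c2 + C κ) ^ 2 - C κ * (C a * X + C b) ^ 2) else 0) =
        - (if a = 0 then (((Fintype.card K : ℤ) - 1) ^ 2 * Fintype.card K) else
          ((Fintype.card K : ℤ) * (Fintype.card K - 2) *
          (Fintype.card K - 1 - quadraticChar K κ))) := by
      intro a
      have h4 : ∀ b : K, ∑ c2 ∈ V K 2,
        (if c2.coeff 2 ≠ 0 ∧ (C a * X + C b).coeff 1 ^ 2 ≠ 4 * c2.coeff 2 then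
          mob ((c2 + C κ) ^ 2 - C κ * (C a * X + C b) ^ 2) else 0) =
          ∑ c : K, ∑ d : K, ∑ e : K,
            ((if c ≠ 0 ∧ a ^ 2 ≠ 4 * c then m24_G κ a b c d e else 0) -
              (if c ≠ 0 ∧ a ^ 2 ≠ 4 * c then
                (if a ^ 2 * (e + κ) - a * b * d + b ^ 2 * c = 0 then m24_G κ a b c d e else 0)
                else 0)) := by
        intro b
        rw [sum_V2]
        refine Finset.sum_congr rfl fun c _ => Finset.sum_congr rfl fun d _ =>
          Finset.sum_congr rfl fun e _ => ?_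
        have e1 : (C a * X + C b : K[X]).coeff 1 = a := by simp
        have e2 : (C c * X ^ 2 + C d * X + C e : K[X]).coeff 2 = c := by
          simp
        rw [e1, e2]
        by_cases h : c ≠ 0 ∧ a ^ 2 ≠ 4 * c
        · simp only [if_pos h]
          have e3 : (C c * X ^ 2 + C d * X + C e + C κ : K[X]) =
              C c * X ^ 2 + C d * X + C (e + κ) := by
            rw [C_add]; ring
          rw [e3, mob_quad h2 c d (e + κ) a b κ h.1 hκ']
          unfold m24_G
          split_ifs <;> ring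
        · simp only [if_neg h]
          ring
      rw [Finset.sum_congr rfl fun b _ => h4 b]
      simp only [Finset.sum_sub_distrib]
      rw [m24_all h2 hκ' a, zero_sub]
      congr 1
      split_ifs with ha
      · rw [ha]
        exact m24_zero h2 κ
      · exact m24_ne h2 κ ha
    rw [Finset.sum_congr rfl fun a _ => h3 a, Finset.sum_neg_distrib]
    congr 1
    have h5 : ∀ a : K, (if a = 0 then (((Fintype.card K : ℤ) - 1) ^ 2 * Fintype.card K) else
          ((Fintype.card K : ℤ) * (Fintype.card K - 2) *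
          (Fintype.card K - 1 - quadraticChar K κ))) =
        (if a = 0 then (((Fintype.card K : ℤ) - 1) ^ 2 * Fintype.card K) else 0) +
        ((Fintype.card K : ℤ) * (Fintype.card K - 2) *
          (Fintype.card K - 1 - quadraticChar K κ)) * (if a = 0 then 0 else 1) := by
      intro a; split_ifs <;> ring
    rw [Finset.sum_congr rfl fun a _ => h5 a, Finset.sum_add_distrib, ← Finset.mul_sum,
      m24_card_ne, Finset.sum_ite_eq']
    simp
    ring
  rw [Finset.sum_congr rfl h1]
  have h6 : ∀ κ : K, - (((Fintype.card K : ℤ) - 1) ^ 2 * Fintype.card K +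
        ((Fintype.card K : ℤ) - 1) * ((Fintype.card K : ℤ) * (Fintype.card K - 2) *
          (Fintype.card K - 1 - quadraticChar K κ))) =
      - (((Fintype.card K : ℤ) - 1) ^ 3 * Fintype.card K) +
        ((Fintype.card K : ℤ) - 1) * ((Fintype.card K : ℤ) * (Fintype.card K - 2)) *
          quadraticChar K κ := by
    intro κ; ring
  rw [Finset.sum_congr rfl fun κ _ => h6 κ, Finset.sum_add_distrib, ← Finset.mul_sum,
    m24_sum_chi_ne h2, Finset.sum_const, nsmul_eq_mul, m24_card_filter]
  ring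

end

end
end Pool.Agent.Helper19.DP1
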