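import Pool.Agent.Helper19.DP1.Core1b
import Pool.Agent.Helper19.DP1.Core3b
import Pool.Agent.Helper19.DP1.Core6c
import Pool.Agent.Helper19.DP1.Sums
import Pool.Agent.Helper19.DP1.M3

/-! M25: six bad points. -/

namespace Pool.Agent.Helper19.DP1
open Polynomial Classical
noncomputable section

/-! ### the six pairs -/

/-- the six pairs in `Fin 4` -/
def m25_P (k : Fin 6) : Fin 4 × Fin 4 := ![(0,1),(0,2),(0,3),(1,2),(1,3),(2,3)] k

theorem m25_P_lt (k : Fin 6) : (m25_P k).1 < (m25_P k).2 := by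
  revert k; decide

theorem m25_P_inj : Function.Injective m25_P := by
  decide

theorem m25_P_surj (i j : Fin 4) (h : i < j) : ∃ k, m25_P k = (i, j) := by
  revert i j; decide

theorem m25_swap (x y : Fin 4) (h : x ≠ y) :
    ∃ a b c d : Fin 6, a ≠ b ∧ c ≠ d ∧
      ∀ k, (Equiv.swap x y (m25_P k).1, Equiv.swap x y (m25_P k).2) =
          m25_P (Equiv.swap a b (Equiv.swap c d k)) ∨
        (Equiv.swap x y (m25_P k).2, Equiv.swap x y (m25_P k).1) =
          m25_P (Equiv.swap a b (Equiv.swap c d k)) := by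
  have key : ∀ x y : Fin 4, x ≠ y → ∃ t ∈ ([(1,3,2,4),(0,3,2,5),(0,4,1,5),(0,1,4,5),(0,2,3,5),
      (1,2,3,4)] : List (Fin 6 × Fin 6 × Fin 6 × Fin 6)), t.1 ≠ t.2.1 ∧ t.2.2.1 ≠ t.2.2.2 ∧
      ∀ k, (Equiv.swap x y (m25_P k).1, Equiv.swap x y (m25_P k).2) =
          m25_P (Equiv.swap t.1 t.2.1 (Equiv.swap t.2.2.1 t.2.2.2 k)) ∨
        (Equiv.swap x y (m25_P k).2, Equiv.swap x y (m25_P k).1) =
          m25_P (Equiv.swap t.1 t.2.1 (Equiv.swap t.2.2.1 t.2.2.2 k)) := by
    decide
  obtain ⟨t, -, h1, h2, h3⟩ := key x y h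
  exact ⟨t.1, t.2.1, t.2.2.1, t.2.2.2, h1, h2, h3⟩

theorem m25_perm (σ : Equiv.Perm (Fin 4)) :
    ∃ τ : Equiv.Perm (Fin 6), Equiv.Perm.sign τ = 1 ∧
      ∀ k, (σ (m25_P k).1, σ (m25_P k).2) = m25_P (τ k) ∨
        (σ (m25_P k).2, σ (m25_P k).1) = m25_P (τ k) := by
  induction σ using Equiv.Perm.swap_induction_on with
  | one => exact ⟨1, by simp, fun k => Or.inl rfl⟩
  | swap_mul f x y hxy ih =>
    obtain ⟨τ, h1, h2⟩ := ih
    obtain ⟨a, b, c, d, hab, hcd, h3⟩ := m25_swap x y hxy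
    refine ⟨Equiv.swap a b * Equiv.swap c d * τ, ?_, fun k => ?_⟩
    · simp [Equiv.Perm.sign_swap hab, Equiv.Perm.sign_swap hcd, h1]
    · simp only [Equiv.Perm.mul_apply]
      rcases h2 k with h | h
      · rcases h3 (τ k) with h' | h'
        · left; rw [← h', ← h]
        · right; rw [← h', ← h]
      · rcases h3 (τ k) with h' | h'
        · right; rw [← h', ← h]
        · left; rw [← h', ← h]

/-! ### zeros of linear forms -/

section
variable {L : Type*} [Field L]

/-- the zero of a linear form -/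
def m25_z (P : L[X]) : Option L :=
  if P.coeff 1 = 0 then none else some (-P.coeff 0 / P.coeff 1)

theorem m25_lin {P : L[X]} (hP : P.natDegree ≤ 1) : P = C (P.coeff 1) * X + C (P.coeff 0) := by
  exact Polynomial.eq_X_add_C_of_natDegree_le_one hP

theorem m25_ev {P : L[X]} (hP : P.natDegree ≤ 1) (h0 : P ≠ 0) (p : Option L) :
    ev 1 P p = 0 ↔ p = m25_z P := by
  have hl := m25_lin hP
  unfold m25_z
  by_cases h1 : P.coeff 1 = 0
  · rw [if_pos h1]
    cases p with
    | none => simp [ev, h1]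
    | some t =>
      simp only [ev, reduceCtorEq, iff_false]
      intro h
      apply h0
      rw [hl, h1] at h ⊢
      simp at h ⊢
      exact h
  · rw [if_neg h1]
    cases p with
    | none => simp [ev, h1]
    | some t =>
      simp only [ev, Option.some.injEq]
      rw [eq_div_iff h1]
      conv_lhs => rw [hl]
      simp only [eval_add, eval_mul, eval_C, eval_X]
      constructor
      · intro h; linear_combination h
      · intro h; linear_combination h

theorem m25_det {P Q : L[X]} (hP : P.natDegree ≤ 1) (hQ : Q.natDegree ≤ 1) (h0 : P ≠ 0)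
    (h0' : Q ≠ 0) : det1 P Q ≠ 0 ↔ m25_z P ≠ m25_z Q := by
  rw [not_iff_not]
  have e1 := m25_ev hP h0
  have e2 := m25_ev hQ h0'
  unfold det1
  by_cases h1 : P.coeff 1 = 0
  · have hz : m25_z P = none := by simp [m25_z, h1]
    have hc : P.coeff 0 ≠ 0 := by
      intro hc; apply h0; rw [m25_lin hP, h1, hc]; simp
    rw [hz, h1]
    have := e2 none
    simp only [ev] at this
    rw [← this]
    simp [hc]
  · by_cases h2 : Q.coeff 1 = 0
    · have hz : m25_z Q = none := by simp [m25_z, h2]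
      have hc : Q.coeff 0 ≠ 0 := by
        intro hc; apply h0'; rw [m25_lin hQ, h2, hc]; simp
      rw [hz, h2]
      have := e1 none
      simp only [ev] at this
      rw [eq_comm (b := none), ← this]
      simp [hc]
    · simp only [m25_z, if_neg h1, if_neg h2, Option.some.injEq]
      rw [div_eq_div_iff h1 h2]
      constructor
      · intro h; linear_combination h
      · intro h; linear_combination h

theorem m25_det_ne {P Q : L[X]} (h : det1 P Q ≠ 0) : P ≠ 0 ∧ Q ≠ 0 := by
  constructor <;> rintro rfl <;> simp [det1] at h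

theorem m25_z_neg {P : L[X]} : m25_z (-P) = m25_z P := by
  simp only [m25_z, coeff_neg, neg_eq_zero, neg_div_neg_eq]

/-- good quadruples -/
def m25_good (m : Fin 4 → L[X]) : Prop :=
  ∀ i j k l : Fin 4, i < j → k < l → (i, j) ≠ (k, l) → det1 (m i - m j) (m k - m l) ≠ 0

/-- the abscissae -/
def m25_x (m : Fin 4 → L[X]) (k : Fin 6) : Option L := m25_z (m (m25_P k).1 - m (m25_P k).2)


theorem m25_card_eq {x : Fin 4 → L[X]} (hd : ∀ i, (x i).natDegree ≤ 1)
    (hx : Function.Injective x) {T : Finset (Option L)} (hT : T.card = 6)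
    (h : ∀ p ∈ T, ∃ i j : Fin 4, i < j ∧ ev 1 (x i - x j) p = 0) :
    Function.Injective (m25_x x) ∧ T = Finset.univ.image (m25_x x) := by
  have hsub : T ⊆ Finset.univ.image (m25_x x) := by
    intro p hp
    obtain ⟨i, j, hij, h0⟩ := h p hp
    obtain ⟨k, hk⟩ := m25_P_surj i j hij
    have hd' : (x i - x j).natDegree ≤ 1 :=
      (natDegree_sub_le _ _).trans (max_le (hd i) (hd j))
    have hne : x i - x j ≠ 0 := sub_ne_zero.mpr (fun h => hij.ne (hx h))
    rw [m25_ev hd' hne] at h0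
    rw [Finset.mem_image]
    refine ⟨k, Finset.mem_univ _, ?_⟩
    rw [m25_x, hk, h0]
  have hcard : (Finset.univ.image (m25_x x)).card ≤ 6 := by
    refine Finset.card_image_le.trans ?_
    simp
  have heq : T = Finset.univ.image (m25_x x) :=
    Finset.eq_of_subset_of_card_le hsub (by rw [hT]; exact hcard)
  refine ⟨?_, heq⟩
  have : (Finset.univ.image (m25_x x)).card = (Finset.univ : Finset (Fin 6)).card := by
    rw [← heq, hT]; simp
  rw [Finset.card_image_iff] at this
  intro a b hab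
  exact this (by simp) (by simp) hab

theorem m25_good_inj {x : Fin 4 → L[X]} (hg : m25_good x) : Function.Injective x := by
  have key : ∀ i j : Fin 4, i < j → x i ≠ x j := by
    intro i j hij h
    have : ∃ k l : Fin 4, k < l ∧ (i, j) ≠ (k, l) := by
      clear h hij; revert i j; decide
    obtain ⟨k, l, hkl, hne⟩ := this
    have := hg i j k l hij hkl hne
    rw [h, sub_self] at this
    simp [det1] at this
  intro i j hij
  by_contra hne
  rcases lt_or_gt_of_ne hne with h | h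
  · exact key i j h hij
  · exact key j i h hij.symm

theorem m25_good_iff {x : Fin 4 → L[X]} (hd : ∀ i, (x i).natDegree ≤ 1)
    (hx : Function.Injective x) : m25_good x ↔ Function.Injective (m25_x x) := by
  have hd' : ∀ i j, (x i - x j).natDegree ≤ 1 := fun i j =>
      (natDegree_sub_le _ _).trans (max_le (hd i) (hd j))
  have hne : ∀ i j, i < j → x i - x j ≠ 0 := fun i j hij =>
    sub_ne_zero.mpr (fun h => hij.ne (hx h))
  constructor
  · intro hg a b hab
    by_contra hab'
    have h1 := hg _ _ _ _ (m25_P_lt a) (m25_P_lt b) (fun h => hab' (m25_P_inj h))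
    rw [m25_det (hd' _ _) (hd' _ _) (hne _ _ (m25_P_lt a)) (hne _ _ (m25_P_lt b))] at h1
    exact h1 hab
  · intro hi i j k l hij hkl hne'
    obtain ⟨a, ha⟩ := m25_P_surj i j hij
    obtain ⟨b, hb⟩ := m25_P_surj k l hkl
    rw [m25_det (hd' _ _) (hd' _ _) (hne _ _ hij) (hne _ _ hkl)]
    intro h
    have : a = b := by
      apply hi
      simp only [m25_x, ha, hb]
      exact h
    subst this
    exact hne' (ha.symm.trans hb)

theorem m25_WP_prod {ι : Type*} (s : Finset ι) (x : ι → L[X]) (hd : ∀ i ∈ s, (x i).natDegree ≤ 1) :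
    WP 1 s.card (∏ i ∈ s, (X - C (x i))) := by
  induction s using Finset.induction_on with
  | empty =>
    simp only [Finset.card_empty, Finset.prod_empty]
    refine ⟨monic_one, natDegree_one, ?_⟩
    intro i hi
    obtain rfl : i = 0 := by omega
    simp
  | insert a s ha ih =>
    rw [Finset.prod_insert ha, Finset.card_insert_of_notMem ha, add_comm]
    exact WP_mul (WP_X_sub_C (hd a (Finset.mem_insert_self a s)))
      (ih (fun i hi => hd i (Finset.mem_insert_of_mem hi)))

theorem m25_fib_prod {ι : Type*} (s : Finset ι) (x : ι → L[X])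
    (hd : ∀ i ∈ s, (x i).natDegree ≤ 1) (p : Option L) :
    fib 1 s.card (∏ i ∈ s, (X - C (x i))) p = ∏ i ∈ s, (X - C (ev 1 (x i) p)) := by
  induction s using Finset.induction_on with
  | empty =>
    simp only [Finset.card_empty, Finset.prod_empty]
    unfold fib
    cases p <;> simp [ev]
  | insert a s ha ih =>
    rw [Finset.prod_insert ha, Finset.prod_insert ha, Finset.card_insert_of_notMem ha,
      add_comm s.card 1]
    have hda : (x a).natDegree ≤ 1 := hd a (Finset.mem_insert_self a s)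
    have hds : ∀ i ∈ s, (x i).natDegree ≤ 1 := fun i hi => hd i (Finset.mem_insert_of_mem hi)
    rw [fib_mul (WP_X_sub_C hda) (m25_WP_prod s x hds), fib_X_sub_C hda, ih hds]

theorem m25_ev_sub {P Q : L[X]} {n : ℕ} {p : Option L} :
    ev n (P - Q) p = ev n P p - ev n Q p := by
  cases p <;> simp [ev]

theorem m25_noSq {x : Fin 4 → L[X]} (hd : ∀ i, (x i).natDegree ≤ 1) (hg : m25_good x) :
    NoSq (∏ i, (X - C (x i))) := by
  intro p a b hab
  have hfib : fib 1 4 (∏ i, (X - C (x i))) p = ∏ i, (X - C (ev 1 (x i) p)) := by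
    have := m25_fib_prod Finset.univ x (fun i _ => hd i) p
    simpa using this
  rw [hfib] at hab
  set v : Fin 4 → L := fun i => ev 1 (x i) p with hv
  have hQ : ∀ i, (X ^ 2 + C a * X + C b : L[X]).eval (v i) = 0 := by
    intro i
    have h1 := congrArg (fun P => P.eval (v i)) hab
    simp only [eval_prod, eval_pow] at h1
    have h2 : ∏ j, ((X - C (ev 1 (x j) p) : L[X]).eval (v i)) = 0 :=
      Finset.prod_eq_zero (Finset.mem_univ i) (by simp [hv])
    rw [h2] at h1
    exact pow_eq_zero_iff (two_ne_zero) |>.mp h1.symm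
  have hD : ∀ i, ∃ j, j ≠ i ∧ v j = v i := by
    intro i
    have h1 : (derivative (∏ i, (X - C (ev 1 (x i) p) : L[X]))).eval (v i) =
        (derivative ((X ^ 2 + C a * X + C b) ^ 2 : L[X])).eval (v i) := by rw [hab]
    rw [← Finset.mul_prod_erase Finset.univ (fun j => (X - C (ev 1 (x j) p) : L[X]))
      (Finset.mem_univ i)] at h1
    rw [derivative_mul, derivative_pow] at h1
    simp only [eval_add, eval_mul, eval_sub, eval_X, eval_C] at h1
    simp only [derivative_sub, derivative_X, derivative_C, sub_zero, eval_one, one_mul] at h1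
    have h3 : (eval (v i) (∏ j ∈ Finset.univ.erase i, (X - C (ev 1 (x j) p) : L[X]))) = 0 := by
      have : v i - ev 1 (x i) p = 0 := by simp [hv]
      rw [this] at h1
      simpa [hQ] using h1
    rw [eval_prod, Finset.prod_eq_zero_iff] at h3
    obtain ⟨j, hj, h4⟩ := h3
    refine ⟨j, Finset.ne_of_mem_erase hj, ?_⟩
    simp only [eval_sub, eval_X, eval_C] at h4
    exact (sub_eq_zero.mp h4).symm
  have hone : ∀ i j k l : Fin 4, i < j → k < l → v i = v j → v k = v l → (i, j) = (k, l) := by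
    intro i j k l hij hkl h1 h2
    by_contra hne
    have hdet := hg i j k l hij hkl hne
    have hne' := m25_det_ne hdet
    have hd' : ∀ i j, (x i - x j).natDegree ≤ 1 := fun i j =>
      (natDegree_sub_le _ _).trans (max_le (hd i) (hd j))
    rw [m25_det (hd' _ _) (hd' _ _) hne'.1 hne'.2] at hdet
    apply hdet
    have e1 : ev 1 (x i - x j) p = 0 := by rw [m25_ev_sub, sub_eq_zero]; exact h1
    have e2 : ev 1 (x k - x l) p = 0 := by rw [m25_ev_sub, sub_eq_zero]; exact h2
    rw [m25_ev (hd' _ _) hne'.1] at e1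
    rw [m25_ev (hd' _ _) hne'.2] at e2
    rw [← e1, ← e2]
  have hone' : ∀ i j k l : Fin 4, i ≠ j → k ≠ l → v i = v j → v k = v l →
      (i = k ∧ j = l) ∨ (i = l ∧ j = k) := by
    intro i j k l hij hkl h1 h2
    rcases lt_or_gt_of_ne hij with h | h <;> rcases lt_or_gt_of_ne hkl with h' | h'
    · have := hone _ _ _ _ h h' h1 h2
      simp only [Prod.mk.injEq] at this; left; exact this
    · have := hone _ _ _ _ h h' h1 h2.symm
      simp only [Prod.mk.injEq] at this; right; exact this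
    · have := hone _ _ _ _ h h' h1.symm h2
      simp only [Prod.mk.injEq] at this; right; exact ⟨this.2, this.1⟩
    · have := hone _ _ _ _ h h' h1.symm h2.symm
      simp only [Prod.mk.injEq] at this; left; exact ⟨this.2, this.1⟩
  obtain ⟨j, hj, h1⟩ := hD 0
  have : ∃ k : Fin 4, k ≠ 0 ∧ k ≠ j := by clear h1 hj; revert j; decide
  obtain ⟨k, hk0, hkj⟩ := this
  obtain ⟨l, hl, h2⟩ := hD k
  rcases hone' j 0 l k hj hl h1 h2 with h | h
  · exact hk0 h.2.symm
  · exact hkj h.1.symm

theorem m25_bad {x : Fin 4 → L[X]} (hd : ∀ i, (x i).natDegree ≤ 1) {i j : Fin 4} (hij : i ≠ j)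
    {p : Option L} (h : ev 1 (x i) p = ev 1 (x j) p) : Bad 1 4 (∏ i, (X - C (x i))) p := by
  refine ⟨ev 1 (x i) p, ?_⟩
  rw [← Finset.mul_prod_erase Finset.univ (fun j => (X - C (x j) : L[X][X]))
      (Finset.mem_univ i)]
  have hc : (Finset.univ.erase i).card = 3 := by
    rw [Finset.card_erase_of_mem (Finset.mem_univ i)]; simp
  have h1 := m25_WP_prod (Finset.univ.erase i) x (fun i _ => hd i)
  have h2 := m25_fib_prod (Finset.univ.erase i) x (fun i _ => hd i) p
  rw [hc] at h1 h2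
  refine sing_mul_of_both (d1 := 1) (d2 := 3) (WP_X_sub_C (hd i)) h1 le_rfl le_rfl (by norm_num)
    ?_ ?_
  · rw [fib_X_sub_C (hd i)]; simp
  · rw [h2, eval_prod]
    exact Finset.prod_eq_zero (i := j) (by simp [hij.symm]) (by simp [h])

theorem m25_roots {x : Fin 4 → L[X]} (hx : Function.Injective x) :
    (∏ i, (X - C (x i)) : L[X][X]).roots.toFinset = Finset.univ.image x := by
  have h : (∏ i, (X - C (x i)) : L[X][X]) = ∏ a ∈ Finset.univ.image x, (X - C a) := by
    rw [Finset.prod_image (fun a _ b _ h => hx h)]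
  rw [h, roots_prod_X_sub_C, Finset.val_toFinset]

theorem m25_mem_of_root {x : Fin 4 → L[X]} {r : L[X]}
    (h : (∏ i, (X - C (x i)) : L[X][X]).eval r = 0) : ∃ i, r = x i := by
  rw [eval_prod, Finset.prod_eq_zero_iff] at h
  obtain ⟨i, -, h⟩ := h
  exact ⟨i, by simpa [sub_eq_zero] using h⟩

theorem m25_root_mem {x : Fin 4 → L[X]} (i : Fin 4) :
    (∏ i, (X - C (x i)) : L[X][X]).eval (x i) = 0 := by
  rw [eval_prod]
  exact Finset.prod_eq_zero (Finset.mem_univ i) (by simp)

theorem m25_inj_of_noSq [IsAlgClosed L] (h2 : (2 : L) ≠ 0) {x : Fin 4 → L[X]}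
    (hd : ∀ i, (x i).natDegree ≤ 1) (hq : NoSq (∏ i, (X - C (x i)))) : Function.Injective x := by
  intro i j hij
  by_contra hne
  have hW : WP 1 4 (∏ i, (X - C (x i)) : L[X][X]) := by
    have := m25_WP_prod Finset.univ x (fun i _ => hd i)
    simpa using this
  apply noSq_not_double h2 hW hq (hd i)
  rw [← Finset.mul_prod_erase Finset.univ (fun j => (X - C (x j) : L[X][X]))
      (Finset.mem_univ i)]
  rw [← Finset.mul_prod_erase (Finset.univ.erase i) (fun j => (X - C (x j) : L[X][X]))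
      (a := j) (by simp [Ne.symm hne])]
  rw [← hij, ← mul_assoc, ← sq]
  exact dvd_mul_right _ _

end

section
variable {K : Type*} [Field K] [Fintype K]

omit [Fintype K] in
theorem m25_two (h2 : (2 : K) ≠ 0) : (2 : Om K) ≠ 0 := by
  intro h
  apply h2
  apply (algebraMap K (Om K)).injective
  rw [map_ofNat, map_zero]
  exact h

theorem m25_frob_z {P Q : (Om K)[X]} (hP : P.natDegree ≤ 1) (h0 : P ≠ 0) (h : phi K P = Q) :
    frob K (m25_z P) = m25_z Q := by
  subst h
  have h1 : ev 1 P (m25_z P) = 0 := (m25_ev hP h0 _).mpr rfl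
  have h2 : ev 1 (phi K P) (frob K (m25_z P)) = 0 := by
    rw [ev_phi, h1, zero_pow (Fintype.card_ne_zero)]
  rwa [m25_ev (by rw [natDegree_phi]; exact hP)
    (by rw [Ne, map_eq_zero_iff _ phi_injective]; exact h0)] at h2

theorem m25_mu {x : Fin 4 → (Om K)[X]} (hd : ∀ i, (x i).natDegree ≤ 1)
    (hx : Function.Injective x) (hi : Function.Injective (m25_x x)) {σ : Equiv.Perm (Fin 4)}
    (hσ : ∀ i, phi K (x i) = x (σ i)) :
    mu K (Finset.univ.image (m25_x x)) = 1 ∧
      IsStabG (frob K) (Finset.univ.image (m25_x x)) := by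
  obtain ⟨τ, hτ, h⟩ := m25_perm σ
  have hd' : ∀ i j, (x i - x j).natDegree ≤ 1 := fun i j =>
    (natDegree_sub_le _ _).trans (max_le (hd i) (hd j))
  have hne : ∀ i j, i < j → x i - x j ≠ 0 := fun i j hij =>
    sub_ne_zero.mpr (fun h => hij.ne (hx h))
  have key : ∀ k, frob K (m25_x x k) = m25_x x (τ k) := by
    intro k
    have h1 : phi K (x (m25_P k).1 - x (m25_P k).2) =
        x (σ (m25_P k).1) - x (σ (m25_P k).2) := by
      rw [map_sub, hσ, hσ]
    rw [m25_x, m25_frob_z (hd' _ _) (hne _ _ (m25_P_lt k)) h1, m25_x]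
    rcases h k with h' | h'
    · rw [← h']
    · rw [← h', ← neg_sub, m25_z_neg]
  constructor
  · have h1 := muG_label (m25_x x) hi τ key
    have h3 : ((-1 : ℤ)) ^ 6 * ((1 : ℤˣ) : ℤ) = 1 := by simp
    rw [hτ, h3] at h1
    rw [mu]
    convert h1
  · intro p hp
    rw [Finset.mem_image] at hp ⊢
    obtain ⟨k, -, rfl⟩ := hp
    exact ⟨τ k, Finset.mem_univ _, (key k).symm⟩

theorem m25_phi_up2 (f : K[X][X]) : (up2 f).map (phi K) = up2 f := by
  ext1 n
  rw [coeff_map]
  simp only [up2, coeff_map]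
  exact phi_up _

theorem m25_phi_root {f : K[X][X]} {r : (Om K)[X]} (h : (up2 f).eval r = 0) :
    (up2 f).eval (phi K r) = 0 := by
  rw [← m25_phi_up2 f, eval_map, eval₂_at_apply, h, map_zero]

theorem m25_WP_of_up2 {w d : ℕ} {f : K[X][X]} (h : WP w d (up2 f)) : WP w d f := by
  have hinj : Function.Injective (mapRingHom (algebraMap K (Om K))) := by
    intro a b hab; exact up_injective hab
  obtain ⟨h1, h2, h3⟩ := h
  refine ⟨?_, ?_, ?_⟩
  · exact monic_of_injective hinj h1
  · rw [up2, natDegree_map_eq_of_injective hinj] at h2; exact h2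
  · intro i hi
    have := h3 i hi
    rw [up2, coeff_map] at this
    rw [← natDegree_up]; exact this

theorem m25_descend {x : Fin 4 → (Om K)[X]} {σ : Equiv.Perm (Fin 4)}
    (hσ : ∀ i, phi K (x i) = x (σ i)) :
    ∃ f : K[X][X], up2 f = ∏ i, (X - C (x i)) := by
  have hphi : (∏ i, (X - C (x i)) : (Om K)[X][X]).map (phi K) = ∏ i, (X - C (x i)) := by
    rw [Polynomial.map_prod]
    simp only [Polynomial.map_sub, map_X, map_C, hσ]
    exact Equiv.prod_comp σ (fun i => (X - C (x i) : (Om K)[X][X]))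
  have hl : (∏ i, (X - C (x i)) : (Om K)[X][X]) ∈
      Polynomial.lifts (mapRingHom (algebraMap K (Om K))) := by
    rw [Polynomial.lifts_iff_coeff_lifts]
    intro n
    have h1 := congrArg (fun f => coeff f n) hphi
    simp only [coeff_map] at h1
    obtain ⟨P0, hP0⟩ := phi_eq_iff.mp h1
    exact ⟨P0, hP0⟩
  obtain ⟨f, hf⟩ := (Polynomial.mem_lifts _).mp hl
  exact ⟨f, hf⟩

variable (K) in
/-- the quartics with six bad points -/
def m25_S : Finset (K[X] × K[X] × K[X] × K[X]) :=
  (Q4 K).filter (fun c => ∃ T ∈ Stab K 6, ∀ p ∈ T, Bad 1 4 (up2 (quart c)) p)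

/-- the roots -/
def m25_R (c : K[X] × K[X] × K[X] × K[X]) : Finset (Om K)[X] :=
  (up2 (quart c)).roots.toFinset

theorem m25_pairs (h2 : (2 : K) ≠ 0) {c : K[X] × K[X] × K[X] × K[X]} (hc : c ∈ Q4 K)
    {T : Finset (P1 K)} (hT : T ∈ Stab K 6) (hb : ∀ p ∈ T, Bad 1 4 (up2 (quart c)) p)
    {x : Fin 4 → (Om K)[X]} (hx : up2 (quart c) = ∏ i, (X - C (x i))) :
    ∀ p ∈ T, ∃ i j : Fin 4, i < j ∧ ev 1 (x i - x j) p = 0 := by
  obtain ⟨hW, hq⟩ := mem_Q4.mp hc
  have h2' : (2 : Om K) ≠ 0 := m25_two h2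
  obtain ⟨m, hd, hm, h⟩ := quart_six h2' (WP_up2 hW) hq (mem_Stab.mp hT).2 hb
  have hminj : Function.Injective m := m25_inj_of_noSq h2' hd (by rw [← hm]; exact hq)
  intro p hp
  obtain ⟨i, j, hij, h0⟩ := h p hp
  have hr : ∀ i, ∃ i', m i = x i' := by
    intro i
    apply m25_mem_of_root
    rw [← hx, hm]
    exact m25_root_mem i
  obtain ⟨i', hi'⟩ := hr i
  obtain ⟨j', hj'⟩ := hr j
  have hne : i' ≠ j' := by
    rintro rfl
    exact hij.ne (hminj (hi'.trans hj'.symm))
  rw [hi', hj'] at h0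
  rcases lt_or_gt_of_ne hne with h' | h'
  · exact ⟨i', j', h', h0⟩
  · refine ⟨j', i', h', ?_⟩
    rw [m25_ev_sub] at h0 ⊢
    linear_combination -h0

theorem m25_main (h2 : (2 : K) ≠ 0) {c : K[X] × K[X] × K[X] × K[X]} (hc : c ∈ m25_S K) :
    ∃ x : Fin 4 → (Om K)[X], (∀ i, (x i).natDegree ≤ 1) ∧ Function.Injective x ∧
      up2 (quart c) = ∏ i, (X - C (x i)) ∧ m25_good x ∧
      (∃ σ : Equiv.Perm (Fin 4), ∀ i, phi K (x i) = x (σ i)) ∧
      (∀ T ∈ Stab K 6, (∀ p ∈ T, Bad 1 4 (up2 (quart c)) p) →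
        T = Finset.univ.image (m25_x x)) := by
  rw [m25_S, Finset.mem_filter] at hc
  obtain ⟨hc, T, hT, hb⟩ := hc
  obtain ⟨hW, hq⟩ := mem_Q4.mp hc
  have h2' : (2 : Om K) ≠ 0 := m25_two h2
  obtain ⟨x, hd, hx, -⟩ := quart_six h2' (WP_up2 hW) hq (mem_Stab.mp hT).2 hb
  have hinj : Function.Injective x := m25_inj_of_noSq h2' hd (by rw [← hx]; exact hq)
  have h1 := m25_card_eq hd hinj (mem_Stab.mp hT).2 (m25_pairs h2 hc hT hb hx)
  refine ⟨x, hd, hinj, hx, (m25_good_iff hd hinj).mpr h1.1, ?_, ?_⟩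
  · have hst : IsStabG (phi K) (Finset.univ.image x) := by
      intro r hr
      rw [Finset.mem_image] at hr ⊢
      obtain ⟨i, -, rfl⟩ := hr
      have := m25_phi_root (f := quart c) (r := x i) (by rw [hx]; exact m25_root_mem i)
      rw [hx] at this
      obtain ⟨j, hj⟩ := m25_mem_of_root this
      exact ⟨j, Finset.mem_univ _, hj.symm⟩
    obtain ⟨σ, hσ, -⟩ := exists_label phi_injective x hinj (by convert hst)
    exact ⟨σ, hσ⟩
  · intro T' hT' hb'
    exact (m25_card_eq hd hinj (mem_Stab.mp hT').2 (m25_pairs h2 hc hT' hb' hx)).2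

theorem m25_inner (h2 : (2 : K) ≠ 0) {c : K[X] × K[X] × K[X] × K[X]} (hc : c ∈ Q4 K) :
    ∑ T ∈ (Stab K 6).filter
      (fun T => (∀ p ∈ T, Bad 1 4 (up2 (quart c)) p) ∧ True), mu K T =
      if c ∈ m25_S K then 1 else 0 := by
  by_cases hS : c ∈ m25_S K
  · rw [if_pos hS]
    obtain ⟨x, hd, hinj, hx, hg, ⟨σ, hσ⟩, hT⟩ := m25_main h2 hS
    have h0 : ∃ T ∈ Stab K 6, ∀ p ∈ T, Bad 1 4 (up2 (quart c)) p := by
      rw [m25_S, Finset.mem_filter] at hS; exact hS.2
    obtain ⟨T0, hT0, hb0⟩ := h0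
    have hfil : (Stab K 6).filter
      (fun T => (∀ p ∈ T, Bad 1 4 (up2 (quart c)) p) ∧ True) = {T0} := by
      ext T
      rw [Finset.mem_filter, Finset.mem_singleton]
      constructor
      · rintro ⟨h1, h3, -⟩
        rw [hT T h1 h3, hT T0 hT0 hb0]
      · rintro rfl
        exact ⟨hT0, hb0, trivial⟩
    rw [hfil, Finset.sum_singleton, hT T0 hT0 hb0]
    exact (m25_mu hd hinj ((m25_good_iff hd hinj).mp hg) hσ).1
  · rw [if_neg hS]
    apply Finset.sum_eq_zero
    intro T hT
    exfalso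
    apply hS
    rw [Finset.mem_filter] at hT
    rw [m25_S, Finset.mem_filter]
    exact ⟨hc, T, hT.1, hT.2.1⟩

theorem m25_SV (h2 : (2 : K) ≠ 0) : SV K 6 = ((m25_S K).card : ℤ) := by
  have h0 : SV K 6 = ∑ c ∈ Q4 K, (if c ∈ m25_S K then 1 else 0) := by
    unfold SV SVG
    apply Finset.sum_congr rfl
    intro c hc
    convert m25_inner h2 hc
  rw [h0, ← Finset.sum_filter]
  rw [Finset.sum_const, nsmul_eq_mul, mul_one]
  congr 2
  ext c
  rw [Finset.mem_filter]
  constructor
  · exact fun h => h.2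
  · intro h
    refine ⟨?_, h⟩
    rw [m25_S, Finset.mem_filter] at h
    exact h.1

omit [Fintype K] in
theorem m25_R_eq {c : K[X] × K[X] × K[X] × K[X]} {x : Fin 4 → (Om K)[X]}
    (hinj : Function.Injective x) (hx : up2 (quart c) = ∏ i, (X - C (x i))) :
    m25_R c = Finset.univ.image x := by
  rw [m25_R, hx, m25_roots hinj]

theorem m25_prod_eq {L : Type*} [Field L] {x y : Fin 4 → L[X]} (hx : Function.Injective x)
    (hy : Function.Injective y) (h : ∀ r, (∃ j, y j = r) ↔ ∃ i, x i = r) :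
    (∏ i, (X - C (y i)) : L[X][X]) = ∏ i, (X - C (x i)) := by
  have e : ∀ y : Fin 4 → L[X], Function.Injective y →
      (∏ i, (X - C (y i)) : L[X][X]) = ∏ a ∈ Finset.univ.image y, (X - C a) := by
    intro y hy
    rw [Finset.prod_image (fun a _ b _ h => hy h)]
  rw [e x hx, e y hy]
  congr 1
  ext r
  simp only [Finset.mem_image, Finset.mem_univ, true_and]
  exact h r

theorem m25_R_injOn (h2 : (2 : K) ≠ 0) :
    Set.InjOn (m25_R (K := K)) (m25_S K : Set (K[X] × K[X] × K[X] × K[X])) := by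
  intro c hc c' hc' h
  obtain ⟨x, hd, hinj, hx, -⟩ := m25_main h2 hc
  obtain ⟨x', hd', hinj', hx', -⟩ := m25_main h2 hc'
  rw [m25_R_eq hinj hx, m25_R_eq hinj' hx'] at h
  apply quart_injective
  apply up2_injective
  rw [hx, hx']
  apply m25_prod_eq hinj' hinj
  intro r
  have := congrArg (fun s => r ∈ s) h
  simpa using this

theorem m25_fam (h2 : (2 : K) ≠ 0) : ∀ T ∈ (m25_S K).image m25_R,
    IsStabG (phi K) T ∧ T.card = 4 := by
  intro T hT
  rw [Finset.mem_image] at hT
  obtain ⟨c, hc, rfl⟩ := hT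
  obtain ⟨x, hd, hinj, hx, -, ⟨σ, hσ⟩, -⟩ := m25_main h2 hc
  rw [m25_R_eq hinj hx]
  constructor
  · intro r hr
    rw [Finset.mem_image] at hr ⊢
    obtain ⟨i, -, rfl⟩ := hr
    exact ⟨σ i, Finset.mem_univ _, (hσ i).symm⟩
  · rw [Finset.card_image_of_injective _ hinj]; simp

theorem m25_Lab (h2 : (2 : K) ≠ 0) (σ : Equiv.Perm (Fin 4)) :
    Lab (phi K) 4 ((m25_S K).image m25_R) σ = Qu K σ := by
  ext x
  simp only [Lab, Qu, Set.mem_ofPred_eq]
  constructor
  · rintro ⟨hinj, hF, hσ⟩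
    rw [Finset.mem_image] at hF
    obtain ⟨c, hc, hR⟩ := hF
    obtain ⟨y, hd, hinj', hy, hg, -, hT⟩ := m25_main h2 hc
    rw [m25_R_eq hinj' hy] at hR
    have hmem' : ∀ r, (∃ j, y j = r) ↔ ∃ i, x i = r := by
      intro r
      have := congrArg (fun s => r ∈ s) hR
      simpa using this
    have hmem : ∀ i, ∃ j, y j = x i := fun i => (hmem' (x i)).mpr ⟨i, rfl⟩
    have hdx : ∀ i, (x i).natDegree ≤ 1 := by
      intro i
      obtain ⟨j, hj⟩ := hmem i
      rw [← hj]; exact hd j
    have hx : up2 (quart c) = ∏ i, (X - C (x i)) := by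
      rw [hy]
      exact m25_prod_eq hinj hinj' hmem'
    have h0 := hc
    rw [m25_S, Finset.mem_filter] at h0
    obtain ⟨hcQ, T, hT, hb⟩ := h0
    have h1 := m25_card_eq hdx hinj (mem_Stab.mp hT).2 (m25_pairs h2 hcQ hT hb hx)
    exact ⟨hdx, hσ, (m25_good_iff hdx hinj).mpr h1.1⟩
  · rintro ⟨hd, hσ, hg⟩
    have hg : m25_good x := hg
    have hinj := m25_good_inj hg
    refine ⟨hinj, ?_, hσ⟩
    obtain ⟨f, hf⟩ := m25_descend hσ
    have hW : WP 1 4 (∏ i, (X - C (x i)) : (Om K)[X][X]) := by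
      have := m25_WP_prod Finset.univ x (fun i _ => hd i)
      simpa using this
    have hWf : WP 1 4 f := m25_WP_of_up2 (by rw [hf]; exact hW)
    set c := (f.coeff 3, f.coeff 2, f.coeff 1, f.coeff 0) with hcdef
    have hfc : f = quart c := eq_quart hWf
    have hcQ : c ∈ Q4 K := by
      rw [mem_Q4, ← hfc, hf]
      exact ⟨hWf, m25_noSq hd hg⟩
    have hi := (m25_good_iff hd hinj).mp hg
    have hmu := m25_mu hd hinj hi hσ
    have hcS : c ∈ m25_S K := by
      rw [m25_S, Finset.mem_filter]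
      refine ⟨hcQ, Finset.univ.image (m25_x x), ?_, ?_⟩
      · rw [mem_Stab]
        refine ⟨hmu.2, ?_⟩
        rw [Finset.card_image_of_injective _ hi]; simp
      · intro p hp
        rw [Finset.mem_image] at hp
        obtain ⟨k, -, rfl⟩ := hp
        rw [← hfc, hf]
        have hlt := m25_P_lt k
        apply m25_bad hd hlt.ne
        have hd' : (x (m25_P k).1 - x (m25_P k).2).natDegree ≤ 1 :=
          (natDegree_sub_le _ _).trans (max_le (hd _) (hd _))
        have h0 : ev 1 (x (m25_P k).1 - x (m25_P k).2) (m25_x x k) = 0 :=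
          (m25_ev hd' (sub_ne_zero.mpr (fun h => hlt.ne (hinj h))) _).mpr rfl
        rw [m25_ev_sub, sub_eq_zero] at h0
        exact h0
    have h6 : up2 (quart c) = ∏ i, (X - C (x i)) := by rw [← hfc, hf]
    clear_value c
    have h5 := m25_R_eq hinj h6
    have h7 : ∀ r, r ∈ m25_R c ↔ ∃ i, x i = r := by intro r; rw [h5]; simp
    refine Finset.mem_image.mpr ⟨c, hcS, ?_⟩
    ext r
    rw [h7]; simp

/-- M25 -/
theorem SV_six_aux (K : Type*) [Field K] [Fintype K] (h2 : (2 : K) ≠ 0) :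
    24 * SV K 6 = ∑ σ : Equiv.Perm (Fin 4), (Set.ncard (Qu K σ) : ℤ) := by
  have h := sum_Lab (φ := phi K) phi_injective 4 ((m25_S K).image m25_R) (m25_fam h2)
    (fun _ => (1 : ℤ))
  have h1 : ∀ σ : Equiv.Perm (Fin 4),
      ∑ x ∈ (Lab_finite (φ := phi K) 4 ((m25_S K).image m25_R) σ).toFinset, (1 : ℤ) =
      (Set.ncard (Qu K σ) : ℤ) := by
    intro σ
    rw [Finset.sum_const, nsmul_eq_mul, mul_one, ← Set.ncard_eq_toFinset_card _ (Lab_finite (φ := phi K) 4 _ σ), m25_Lab h2 σ]
  rw [Finset.sum_congr rfl (fun σ _ => h1 σ)] at h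
  rw [h, Finset.sum_const, Finset.card_image_of_injOn (m25_R_injOn h2), nsmul_eq_mul, mul_one,
    m25_SV h2]
  norm_num [Nat.factorial]

end

end
end Pool.Agent.Helper19.DP1
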