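import Pool.Agent.Helper19.DP1.Core1b
import Pool.Agent.Helper19.DP1.Core8
import Pool.Agent.Helper19.DP1.Sums

/-! M26: the sum over quadruples of lines, `sum_Qu`. -/

namespace Pool.Agent.Helper19.DP1
open Polynomial Classical
noncomputable section

set_option linter.unusedSectionVars false

section alg
variable {L : Type*} [Field L]

/-- signed minors of the matrix with rows `1`, `a`, `b` -/
def m26_d (a b : Fin 4 → L) : Fin 4 → L :=
  ![(a 1 - a 3) * (b 2 - b 3) - (a 2 - a 3) * (b 1 - b 3),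
    -((a 0 - a 3) * (b 2 - b 3) - (a 2 - a 3) * (b 0 - b 3)),
    (a 0 - a 3) * (b 1 - b 3) - (a 1 - a 3) * (b 0 - b 3),
    -((a 0 - a 2) * (b 1 - b 2) - (a 1 - a 2) * (b 0 - b 2))]

theorem m26_d0 (a b : Fin 4 → L) :
    m26_d a b 0 = (a 1 - a 3) * (b 2 - b 3) - (a 2 - a 3) * (b 1 - b 3) := rfl
theorem m26_d1 (a b : Fin 4 → L) :
    m26_d a b 1 = -((a 0 - a 3) * (b 2 - b 3) - (a 2 - a 3) * (b 0 - b 3)) := rfl
theorem m26_d2 (a b : Fin 4 → L) :
    m26_d a b 2 = (a 0 - a 3) * (b 1 - b 3) - (a 1 - a 3) * (b 0 - b 3) := rfl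
theorem m26_d3 (a b : Fin 4 → L) :
    m26_d a b 3 = -((a 0 - a 2) * (b 1 - b 2) - (a 1 - a 2) * (b 0 - b 2)) := rfl

/-- the three linear equations -/
def m26_E (a b x : Fin 4 → L) : Prop :=
  ∑ i, x i = 0 ∧ ∑ i, x i * a i = 0 ∧ ∑ i, x i * b i = 0

theorem m26_E_d (a b : Fin 4 → L) : m26_E a b (m26_d a b) := by
  refine ⟨?_, ?_, ?_⟩ <;>
  · simp only [Fin.sum_univ_four, m26_d0, m26_d1, m26_d2, m26_d3]
    ring

theorem m26_prop (a b x : Fin 4 → L) (h : m26_E a b x) (i j : Fin 4) :
    x i * m26_d a b j = x j * m26_d a b i := by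
  obtain ⟨h1, h2, h3⟩ := h
  simp only [Fin.sum_univ_four] at h1 h2 h3
  have e01 : x 0 * m26_d a b 1 = x 1 * m26_d a b 0 := by
    rw [m26_d0, m26_d1]
    linear_combination (-(a 2 * b 3 - a 3 * b 2)) * h1 + (b 3 - b 2) * h2 - (a 3 - a 2) * h3
  have e02 : x 0 * m26_d a b 2 = x 2 * m26_d a b 0 := by
    rw [m26_d0, m26_d2]
    linear_combination ((a 1 * b 3 - a 3 * b 1)) * h1 - (b 3 - b 1) * h2 + (a 3 - a 1) * h3
  have e03 : x 0 * m26_d a b 3 = x 3 * m26_d a b 0 := by
    rw [m26_d0, m26_d3]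
    linear_combination (-(a 1 * b 2 - a 2 * b 1)) * h1 + (b 2 - b 1) * h2 - (a 2 - a 1) * h3
  have e12 : x 1 * m26_d a b 2 = x 2 * m26_d a b 1 := by
    rw [m26_d1, m26_d2]
    linear_combination (-(a 0 * b 3 - a 3 * b 0)) * h1 + (b 3 - b 0) * h2 - (a 3 - a 0) * h3
  have e13 : x 1 * m26_d a b 3 = x 3 * m26_d a b 1 := by
    rw [m26_d1, m26_d3]
    linear_combination ((a 0 * b 2 - a 2 * b 0)) * h1 - (b 2 - b 0) * h2 + (a 2 - a 0) * h3
  have e23 : x 2 * m26_d a b 3 = x 3 * m26_d a b 2 := by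
    rw [m26_d2, m26_d3]
    linear_combination (-(a 0 * b 1 - a 1 * b 0)) * h1 + (b 1 - b 0) * h2 - (a 1 - a 0) * h3
  fin_cases i <;> fin_cases j
  · rfl
  · exact e01
  · exact e02
  · exact e03
  · exact e01.symm
  · rfl
  · exact e12
  · exact e13
  · exact e02.symm
  · exact e12.symm
  · rfl
  · exact e23
  · exact e03.symm
  · exact e13.symm
  · exact e23.symm
  · rfl

/-- good vectors -/
def m26_Good (x : Fin 4 → L) : Prop :=
  ∑ i, x i = 0 ∧ (∀ i, x i ≠ 0) ∧ ∀ i j, i ≠ j → x i + x j ≠ 0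

theorem m26_Good_iff (x : Fin 4 → L) : m26_Good x ↔
    (x 0 + x 1 + x 2 + x 3 = 0 ∧ x 0 ≠ 0 ∧ x 1 ≠ 0 ∧ x 2 ≠ 0 ∧ x 3 ≠ 0 ∧
      x 0 + x 1 ≠ 0 ∧ x 0 + x 2 ≠ 0 ∧ x 0 + x 3 ≠ 0) := by
  unfold m26_Good
  rw [Fin.sum_univ_four]
  constructor
  · rintro ⟨h, h1, h2⟩
    exact ⟨h, h1 0, h1 1, h1 2, h1 3, h2 0 1 (by decide), h2 0 2 (by decide), h2 0 3 (by decide)⟩
  · rintro ⟨h, h0, h1, h2, h3, h01, h02, h03⟩
    have h23 : x 2 + x 3 ≠ 0 := fun e => h01 (by linear_combination h - e)
    have h13 : x 1 + x 3 ≠ 0 := fun e => h02 (by linear_combination h - e)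
    have h12 : x 1 + x 2 ≠ 0 := fun e => h03 (by linear_combination h - e)
    refine ⟨h, ?_, ?_⟩
    · intro i
      fin_cases i
      · exact h0
      · exact h1
      · exact h2
      · exact h3
    · intro i j hij
      fin_cases i <;> fin_cases j
      · exact absurd rfl hij
      · exact h01
      · exact h02
      · exact h03
      · exact fun e => h01 (by rw [add_comm]; exact e)
      · exact absurd rfl hij
      · exact h12
      · exact h13
      · exact fun e => h02 (by rw [add_comm]; exact e)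
      · exact fun e => h12 (by rw [add_comm]; exact e)
      · exact absurd rfl hij
      · exact h23
      · exact fun e => h03 (by rw [add_comm]; exact e)
      · exact fun e => h13 (by rw [add_comm]; exact e)
      · exact fun e => h23 (by rw [add_comm]; exact e)
      · exact absurd rfl hij

theorem m26_Good_smul (x y : Fin 4 → L) (c : L) (hc : c ≠ 0) (hy : ∀ i, y i = c * x i)
    (hx : m26_Good x) : m26_Good y := by
  obtain ⟨h, h1, h2⟩ := hx
  refine ⟨?_, ?_, ?_⟩
  · simp only [hy]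
    rw [← Finset.mul_sum, h, mul_zero]
  · intro i
    rw [hy]
    exact mul_ne_zero hc (h1 i)
  · intro i j hij
    rw [hy, hy, ← mul_add]
    exact mul_ne_zero hc (h2 i j hij)

/-- the nondegeneracy condition of `Qu` in coordinates -/
def m26_Q (a b : Fin 4 → L) : Prop :=
  ∀ i j k l : Fin 4, i < j → k < l → (i, j) ≠ (k, l) →
    (a i - a j) * (b k - b l) - (b i - b j) * (a k - a l) ≠ 0

theorem m26_Q_iff (a b : Fin 4 → L) : m26_Q a b ↔ m26_Good (m26_d a b) := by
  rw [m26_Good_iff]
  constructor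
  · intro h
    refine ⟨?_, ?_, ?_, ?_, ?_, ?_, ?_, ?_⟩
    · have := (m26_E_d a b).1
      rwa [Fin.sum_univ_four] at this
    · intro e
      rw [m26_d0] at e
      exact h 1 3 2 3 (by decide) (by decide) (by decide) (by linear_combination e)
    · intro e
      rw [m26_d1] at e
      exact h 0 3 2 3 (by decide) (by decide) (by decide) (by linear_combination -e)
    · intro e
      rw [m26_d2] at e
      exact h 0 3 1 3 (by decide) (by decide) (by decide) (by linear_combination e)
    · intro e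
      rw [m26_d3] at e
      exact h 0 2 1 2 (by decide) (by decide) (by decide) (by linear_combination -e)
    · intro e
      rw [m26_d0, m26_d1] at e
      exact h 0 1 2 3 (by decide) (by decide) (by decide) (by linear_combination -e)
    · intro e
      rw [m26_d0, m26_d2] at e
      exact h 0 2 1 3 (by decide) (by decide) (by decide) (by linear_combination e)
    · intro e
      rw [m26_d0, m26_d3] at e
      exact h 0 3 1 2 (by decide) (by decide) (by decide) (by linear_combination -e)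
  · rintro ⟨-, h0, h1, h2, h3, h01, h02, h03⟩
    rw [m26_d0] at h0 h01 h02 h03
    rw [m26_d1] at h1 h01
    rw [m26_d2] at h2 h02
    rw [m26_d3] at h3 h03
    intro i j k l hij hkl hne
    fin_cases i <;> fin_cases j <;> first | exact absurd hij (by decide) | skip
    all_goals
      fin_cases k <;> fin_cases l <;> first | exact absurd hkl (by decide) | exact absurd rfl hne | skip
    all_goals
      simp only [Fin.zero_eta, Fin.mk_one, Fin.reduceFinMk]
      intro e
      first
        | exact h0 (by linear_combination e)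
        | exact h0 (by linear_combination -e)
        | exact h1 (by linear_combination e)
        | exact h1 (by linear_combination -e)
        | exact h2 (by linear_combination e)
        | exact h2 (by linear_combination -e)
        | exact h3 (by linear_combination e)
        | exact h3 (by linear_combination -e)
        | exact h01 (by linear_combination e)
        | exact h01 (by linear_combination -e)
        | exact h02 (by linear_combination e)
        | exact h02 (by linear_combination -e)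
        | exact h03 (by linear_combination e)
        | exact h03 (by linear_combination -e)

end alg

section fin
variable (K : Type*) [Field K] [Fintype K]

theorem m26_Rs_finite (σ : Equiv.Perm (Fin 4)) : (Rs K σ).Finite := by
  apply Set.finite_of_ncard_ne_zero
  rw [ncard_Rs]
  exact pow_ne_zero _ Fintype.card_ne_zero

/-- `Rs σ` as a finset -/
def m26_R (σ : Equiv.Perm (Fin 4)) : Finset (Fin 4 → Om K) := (m26_Rs_finite K σ).toFinset

variable {K}

theorem m26_mem_R {σ : Equiv.Perm (Fin 4)} {x : Fin 4 → Om K} :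
    x ∈ m26_R K σ ↔ ∀ i, x i ^ Fintype.card K = x (σ i) := by
  unfold m26_R
  rw [Set.Finite.mem_toFinset]
  rfl

theorem m26_one_lt : 1 < Fintype.card K := Fintype.one_lt_card

/-- the hyperplane orthogonal to `x` -/
def m26_H (σ : Equiv.Perm (Fin 4)) (x : Fin 4 → Om K) : Finset (Fin 4 → Om K) :=
  (m26_R K σ).filter (fun r => ∑ i, x i * r i = 0)

theorem m26_mem_H {σ : Equiv.Perm (Fin 4)} {x r : Fin 4 → Om K} :
    r ∈ m26_H σ x ↔ r ∈ m26_R K σ ∧ ∑ i, x i * r i = 0 := by
  unfold m26_H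
  rw [Finset.mem_filter]

theorem m26_card_H (σ : Equiv.Perm (Fin 4)) (x : Fin 4 → Om K) (hx : x ∈ m26_R K σ)
    (h0 : x 0 ≠ 0) : (m26_H σ x).card = Fintype.card K ^ 3 := by
  have h := ncard_Rs_trace σ x (m26_mem_R.mp hx) (by norm_num) ⟨0, h0⟩ (0 : K)
  rw [show 4 - 1 = 3 from rfl] at h
  rw [← h, ← Set.ncard_coe_finset]
  congr 1
  ext r
  rw [Finset.mem_coe, m26_mem_H, m26_mem_R, Set.mem_ofPred_eq, map_zero]
  rfl

/-- the affine functions of `a` with coefficients in `K` -/
def m26_aff (a : Fin 4 → Om K) (c : K × K) : Fin 4 → Om K :=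
  fun i => algebraMap K (Om K) c.1 * a i + algebraMap K (Om K) c.2

theorem m26_alg_pow (c : K) : (algebraMap K (Om K) c) ^ Fintype.card K = algebraMap K (Om K) c :=
  pow_card_eq_iff.mpr ⟨c, rfl⟩

theorem m26_aff_mem_R {σ : Equiv.Perm (Fin 4)} {a : Fin 4 → Om K} (ha : a ∈ m26_R K σ)
    (c : K × K) : m26_aff a c ∈ m26_R K σ := by
  rw [m26_mem_R] at ha ⊢
  intro i
  show (algebraMap K (Om K) c.1 * a i + algebraMap K (Om K) c.2) ^ Fintype.card K =
    algebraMap K (Om K) c.1 * a (σ i) + algebraMap K (Om K) c.2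
  rw [pow_card_add, mul_pow, m26_alg_pow, m26_alg_pow, ha]

theorem m26_aff_mem_H {σ : Equiv.Perm (Fin 4)} {x a : Fin 4 → Om K} (hx : ∑ i, x i = 0)
    (ha : a ∈ m26_H σ x) (c : K × K) : m26_aff a c ∈ m26_H σ x := by
  rw [m26_mem_H] at ha ⊢
  refine ⟨m26_aff_mem_R ha.1 c, ?_⟩
  have h1 : ∑ i, x i * m26_aff a c i =
      algebraMap K (Om K) c.1 * ∑ i, x i * a i + algebraMap K (Om K) c.2 * ∑ i, x i := by
    rw [Finset.mul_sum, Finset.mul_sum, ← Finset.sum_add_distrib]
    refine Finset.sum_congr rfl fun i _ => ?_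
    unfold m26_aff
    ring
  rw [h1, ha.2, hx]
  ring

/-- vanishing of all minors with a nonconstant first vector -/
theorem m26_d_eq_zero {σ : Equiv.Perm (Fin 4)} {a b : Fin 4 → Om K} (ha : a ∈ m26_R K σ)
    (hb : b ∈ m26_R K σ) (hne : ∃ i, a i ≠ a 0) (hd : m26_d a b = 0) :
    ∃ c : K × K, m26_aff a c = b := by
  obtain ⟨i, hi⟩ := hne
  have hi' : a i - a 0 ≠ 0 := sub_ne_zero.mpr hi
  have d1 : m26_d a b 1 = 0 := by rw [hd]; rfl
  have d2 : m26_d a b 2 = 0 := by rw [hd]; rfl
  have d3 : m26_d a b 3 = 0 := by rw [hd]; rfl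
  rw [m26_d1] at d1
  rw [m26_d2] at d2
  rw [m26_d3] at d3
  have key : ∀ j k, (a j - a 0) * (b k - b 0) = (a k - a 0) * (b j - b 0) := by
    have k12 : (a 1 - a 0) * (b 2 - b 0) = (a 2 - a 0) * (b 1 - b 0) := by
      linear_combination -d3
    have k13 : (a 1 - a 0) * (b 3 - b 0) = (a 3 - a 0) * (b 1 - b 0) := by
      linear_combination d2
    have k23 : (a 2 - a 0) * (b 3 - b 0) = (a 3 - a 0) * (b 2 - b 0) := by
      linear_combination -d1
    intro j k
    fin_cases j <;> fin_cases k <;>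
      first
        | rfl
        | exact k12
        | exact k12.symm
        | exact k13
        | exact k13.symm
        | exact k23
        | exact k23.symm
        | (simp only [Fin.zero_eta, Fin.mk_one, Fin.reduceFinMk]; ring)
  set lam := (b i - b 0) / (a i - a 0) with hlam
  set mu' := b 0 - lam * a 0 with hmu
  have hbk : ∀ k, b k = lam * a k + mu' := by
    intro k
    have h1 := key i k
    have h2 : b k - b 0 = lam * (a k - a 0) := by
      rw [hlam, div_mul_eq_mul_div, eq_div_iff hi']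
      linear_combination h1
    rw [hmu]
    linear_combination h2
  rw [m26_mem_R] at ha hb
  have hrel : ∀ k, (lam ^ Fintype.card K - lam) * a k + (mu' ^ Fintype.card K - mu') = 0 := by
    intro k
    have h1 := hb (σ.symm k)
    rw [Equiv.apply_symm_apply] at h1
    have h2 := ha (σ.symm k)
    rw [Equiv.apply_symm_apply] at h2
    rw [hbk (σ.symm k), pow_card_add, mul_pow, h2, hbk k] at h1
    linear_combination h1
  have hl : lam ^ Fintype.card K = lam := by
    have h1 := hrel i
    have h2 := hrel 0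
    have h3 : (lam ^ Fintype.card K - lam) * (a i - a 0) = 0 := by linear_combination h1 - h2
    exact sub_eq_zero.mp ((mul_eq_zero.mp h3).resolve_right hi')
  have hm : mu' ^ Fintype.card K = mu' := by
    have h1 := hrel 0
    rw [hl] at h1
    linear_combination h1
  obtain ⟨l0, hl0⟩ := pow_card_eq_iff.mp hl
  obtain ⟨m0, hm0⟩ := pow_card_eq_iff.mp hm
  refine ⟨(l0, m0), ?_⟩
  funext k
  show algebraMap K (Om K) l0 * a k + algebraMap K (Om K) m0 = b k
  rw [hl0, hm0, hbk]

theorem m26_d_aff (a : Fin 4 → Om K) (c : K × K) : m26_d a (m26_aff a c) = 0 := by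
  funext i
  fin_cases i
  · show m26_d a (m26_aff a c) 0 = 0
    rw [m26_d0]
    unfold m26_aff
    ring
  · show m26_d a (m26_aff a c) 1 = 0
    rw [m26_d1]
    unfold m26_aff
    ring
  · show m26_d a (m26_aff a c) 2 = 0
    rw [m26_d2]
    unfold m26_aff
    ring
  · show m26_d a (m26_aff a c) 3 = 0
    rw [m26_d3]
    unfold m26_aff
    ring

theorem m26_aff_injective (a : Fin 4 → Om K) (hne : ∃ i, a i ≠ a 0) :
    Function.Injective (m26_aff a) := by
  obtain ⟨i, hi⟩ := hne
  rintro ⟨c1, c2⟩ ⟨e1, e2⟩ h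
  have h0 := congrFun h 0
  have h1 := congrFun h i
  simp only [m26_aff] at h0 h1
  have h2 : (algebraMap K (Om K) c1 - algebraMap K (Om K) e1) * (a i - a 0) = 0 := by
    linear_combination h1 - h0
  have h3 := sub_eq_zero.mp ((mul_eq_zero.mp h2).resolve_right (sub_ne_zero.mpr hi))
  have h4 : c1 = e1 := (algebraMap K (Om K)).injective h3
  subst h4
  have h5 : c2 = e2 := (algebraMap K (Om K)).injective (add_left_cancel h0)
  rw [h5]

/-- constants -/
def m26_K1 (K : Type*) [Field K] [Fintype K] : Finset (Fin 4 → Om K) :=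
  Finset.univ.image (fun c : K => (fun _ : Fin 4 => algebraMap K (Om K) c))

theorem m26_card_K1 : (m26_K1 K).card = Fintype.card K := by
  unfold m26_K1
  rw [Finset.card_image_of_injective, Finset.card_univ]
  intro c d h
  exact (algebraMap K (Om K)).injective (congrFun h 0)

theorem m26_not_K1 {σ : Equiv.Perm (Fin 4)} {a : Fin 4 → Om K} (ha : a ∈ m26_R K σ)
    (h : a ∉ m26_K1 K) : ∃ i, a i ≠ a 0 := by
  by_contra hcon
  push Not at hcon
  apply h
  rw [m26_mem_R] at ha
  have h1 := ha 0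
  rw [hcon (σ 0)] at h1
  obtain ⟨c, hc⟩ := pow_card_eq_iff.mp h1
  unfold m26_K1
  rw [Finset.mem_image]
  refine ⟨c, Finset.mem_univ _, ?_⟩
  funext i
  rw [hc, hcon i]

theorem m26_K1_d {a : Fin 4 → Om K} (h : a ∈ m26_K1 K) (b : Fin 4 → Om K) :
    m26_d a b = 0 := by
  unfold m26_K1 at h
  rw [Finset.mem_image] at h
  obtain ⟨c, -, rfl⟩ := h
  funext i
  fin_cases i
  · show m26_d _ b 0 = 0
    rw [m26_d0]
    ring
  · show m26_d _ b 1 = 0
    rw [m26_d1]
    ring
  · show m26_d _ b 2 = 0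
    rw [m26_d2]
    ring
  · show m26_d _ b 3 = 0
    rw [m26_d3]
    ring

theorem m26_K1_sub {σ : Equiv.Perm (Fin 4)} {x : Fin 4 → Om K} (hx : ∑ i, x i = 0) :
    m26_K1 K ⊆ m26_H σ x := by
  intro a ha
  unfold m26_K1 at ha
  rw [Finset.mem_image] at ha
  obtain ⟨c, -, rfl⟩ := ha
  rw [m26_mem_H, m26_mem_R]
  refine ⟨fun i => m26_alg_pow c, ?_⟩
  rw [← Finset.sum_mul, hx, zero_mul]

theorem m26_card_b {σ : Equiv.Perm (Fin 4)} {x : Fin 4 → Om K} (hx : x ∈ m26_R K σ)
    (hg : m26_Good x) {a : Fin 4 → Om K} (ha : a ∈ m26_H σ x) (ha1 : a ∉ m26_K1 K) :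
    ((m26_H σ x).filter (fun b => m26_d a b ≠ 0)).card =
      Fintype.card K ^ 3 - Fintype.card K ^ 2 := by
  have hne := m26_not_K1 (m26_mem_H.mp ha).1 ha1
  have h1 : (m26_H σ x).filter (fun b => m26_d a b = 0) =
      (Finset.univ : Finset (K × K)).image (m26_aff a) := by
    ext b
    rw [Finset.mem_filter, Finset.mem_image]
    constructor
    · rintro ⟨hb, hd⟩
      obtain ⟨c, hc⟩ := m26_d_eq_zero (m26_mem_H.mp ha).1 (m26_mem_H.mp hb).1 hne hd
      exact ⟨c, Finset.mem_univ _, hc⟩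
    · rintro ⟨c, -, rfl⟩
      exact ⟨m26_aff_mem_H hg.1 ha c, m26_d_aff a c⟩
  have h2 : ((m26_H σ x).filter (fun b => m26_d a b = 0)).card = Fintype.card K ^ 2 := by
    rw [h1, Finset.card_image_of_injective _ (m26_aff_injective a hne), Finset.card_univ,
      Fintype.card_prod, sq]
  have h3 := Finset.card_filter_add_card_filter_not (s := m26_H σ x) (fun b => m26_d a b = 0)
  rw [h2, m26_card_H σ x hx (hg.2.1 0)] at h3
  have h4 : ((m26_H σ x).filter (fun b => m26_d a b ≠ 0)).card =
      ((m26_H σ x).filter (fun b => ¬ m26_d a b = 0)).card := rfl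
  omega

theorem m26_Q_of {a b x : Fin 4 → Om K} (hg : m26_Good x) (hE : m26_E a b x) :
    m26_Q a b ↔ m26_d a b ≠ 0 := by
  rw [m26_Q_iff]
  constructor
  · intro h e
    exact h.2.1 0 (by rw [e]; rfl)
  · intro h
    obtain ⟨j, hj⟩ := Function.ne_iff.mp h
    have hj' : m26_d a b j ≠ 0 := hj
    refine m26_Good_smul x _ (m26_d a b j / x j) (div_ne_zero hj' (hg.2.1 j)) ?_ hg
    intro i
    rw [div_mul_eq_mul_div, eq_div_iff (hg.2.1 j)]
    have := m26_prop a b x hE i j
    linear_combination -this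

theorem m26_count_ab {σ : Equiv.Perm (Fin 4)} {x : Fin 4 → Om K} (hx : x ∈ m26_R K σ)
    (hg : m26_Good x) :
    ((m26_R K σ ×ˢ m26_R K σ).filter
      (fun ab => m26_Q ab.1 ab.2 ∧ m26_E ab.1 ab.2 x)).card =
      (Fintype.card K ^ 3 - Fintype.card K) * (Fintype.card K ^ 3 - Fintype.card K ^ 2) := by
  have h1 : (m26_R K σ ×ˢ m26_R K σ).filter
      (fun ab => m26_Q ab.1 ab.2 ∧ m26_E ab.1 ab.2 x) =
      (m26_H σ x ×ˢ m26_H σ x).filter (fun ab => m26_d ab.1 ab.2 ≠ 0) := by
    ext ⟨a, b⟩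
    rw [Finset.mem_filter, Finset.mem_filter, Finset.mem_product, Finset.mem_product, m26_mem_H,
      m26_mem_H]
    constructor
    · rintro ⟨⟨h1, h2⟩, h3, h4⟩
      exact ⟨⟨⟨h1, h4.2.1⟩, ⟨h2, h4.2.2⟩⟩, (m26_Q_of hg h4).mp h3⟩
    · rintro ⟨⟨⟨h1, h2⟩, ⟨h3, h4⟩⟩, h5⟩
      have hE : m26_E a b x := ⟨hg.1, h2, h4⟩
      exact ⟨⟨h1, h3⟩, (m26_Q_of hg hE).mpr h5, hE⟩
  rw [h1, Finset.card_filter, Finset.sum_product]
  have h2 : ∀ a ∈ m26_H σ x, (∑ b ∈ m26_H σ x, if m26_d a b ≠ 0 then 1 else 0) =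
      if a ∈ m26_K1 K then 0 else Fintype.card K ^ 3 - Fintype.card K ^ 2 := by
    intro a ha
    split_ifs with h
    · apply Finset.sum_eq_zero
      intro b _
      rw [if_neg]
      rw [not_not]
      exact m26_K1_d h b
    · rw [← Finset.card_filter]
      exact m26_card_b hx hg ha h
  rw [Finset.sum_congr rfl h2, Finset.sum_ite, Finset.sum_const_zero, zero_add, Finset.sum_const,
    smul_eq_mul]
  congr 1
  rw [Finset.filter_notMem_eq_sdiff, Finset.card_sdiff_of_subset (m26_K1_sub hg.1), m26_card_K1,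
    m26_card_H σ x hx (hg.2.1 0)]

/-- existence of a rational solution -/
theorem m26_exists_x {σ : Equiv.Perm (Fin 4)} {a b : Fin 4 → Om K} (ha : a ∈ m26_R K σ)
    (hb : b ∈ m26_R K σ) (hQ : m26_Q a b) :
    ∃ x ∈ m26_R K σ, m26_Good x ∧ m26_E a b x := by
  have hq0 : Fintype.card K ≠ 0 := Fintype.card_ne_zero
  have hy : m26_Good (m26_d a b) := (m26_Q_iff a b).mp hQ
  have hE := m26_E_d a b
  set y := m26_d a b with hydef
  rw [m26_mem_R] at ha hb
  -- the Frobenius twist of `y`
  set F : Fin 4 → Om K := fun i => y (σ.symm i) ^ Fintype.card K with hF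
  have hsum : ∀ r : Fin 4 → Om K, (∀ i, r i ^ Fintype.card K = r (σ i)) → ∑ i, y i * r i = 0 →
      ∑ i, F i * r i = 0 := by
    intro r hr hyr
    have h1 : ∑ i, F i * r i = ∑ i, F (σ i) * r (σ i) :=
      (Equiv.sum_comp σ (fun i => F i * r i)).symm
    rw [h1]
    have h2 : ∀ i, F (σ i) * r (σ i) = (FiniteField.frobeniusAlgHom K (Om K)) (y i * r i) := by
      intro i
      show y (σ.symm (σ i)) ^ Fintype.card K * r (σ i) = (y i * r i) ^ Fintype.card K
      rw [Equiv.symm_apply_apply, mul_pow, hr]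
    rw [Finset.sum_congr rfl fun i _ => h2 i, ← map_sum, hyr, map_zero]
  have hFE : m26_E a b F := by
    refine ⟨?_, hsum a ha hE.2.1, hsum b hb hE.2.2⟩
    have h1 := hsum (fun _ => 1) (fun i => one_pow _) (by simpa using hE.1)
    simpa using h1
  have hprop := m26_prop a b F hFE
  have hy0 : y 0 ≠ 0 := hy.2.1 0
  have hF0 : F 0 ≠ 0 := pow_ne_zero _ (hy.2.1 _)
  have hlam : F 0 / y 0 ≠ 0 := div_ne_zero hF0 hy0
  obtain ⟨c, hc⟩ := IsAlgClosed.exists_pow_nat_eq ((F 0 / y 0)⁻¹)
    (n := Fintype.card K - 1) (by have := m26_one_lt (K := K); omega)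
  have hc0 : c ≠ 0 := by
    intro e
    rw [e, zero_pow (by have := m26_one_lt (K := K); omega)] at hc
    exact inv_ne_zero hlam hc.symm
  have hcq : c ^ Fintype.card K * (F 0 / y 0) = c := by
    have h1 : c ^ Fintype.card K = c ^ (Fintype.card K - 1) * c := by
      rw [← pow_succ]
      congr 1
      have := m26_one_lt (K := K)
      omega
    rw [h1, hc]
    field_simp
  have hFy : ∀ i, F i = (F 0 / y 0) * y i := by
    intro i
    have h1 := hprop i 0
    rw [← hydef] at h1
    rw [div_mul_eq_mul_div, eq_div_iff hy0]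
    exact h1
  refine ⟨fun i => c * y i, ?_, m26_Good_smul y _ c hc0 (fun i => rfl) hy, ?_⟩
  · rw [m26_mem_R]
    intro i
    show (c * y i) ^ Fintype.card K = c * y (σ i)
    have h1 : F (σ i) = y i ^ Fintype.card K := by
      show y (σ.symm (σ i)) ^ Fintype.card K = y i ^ Fintype.card K
      rw [Equiv.symm_apply_apply]
    rw [mul_pow, ← h1, hFy (σ i), ← mul_assoc, hcq]
  · refine ⟨?_, ?_, ?_⟩
    · rw [← Finset.mul_sum, hE.1, mul_zero]
    · have h1 : ∀ i, c * y i * a i = c * (y i * a i) := fun i => by ring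
      rw [Finset.sum_congr rfl fun i _ => h1 i, ← Finset.mul_sum, hE.2.1, mul_zero]
    · have h1 : ∀ i, c * y i * b i = c * (y i * b i) := fun i => by ring
      rw [Finset.sum_congr rfl fun i _ => h1 i, ← Finset.mul_sum, hE.2.2, mul_zero]

theorem m26_prop' {a b x y : Fin 4 → Om K} (hQ : m26_Q a b) (hx : m26_E a b x)
    (hy : m26_E a b y) (i j : Fin 4) : x i * y j = x j * y i := by
  have hd : m26_Good (m26_d a b) := (m26_Q_iff a b).mp hQ
  have h1 := m26_prop a b x hx i 0
  have h2 := m26_prop a b x hx j 0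
  have h3 := m26_prop a b y hy i 0
  have h4 := m26_prop a b y hy j 0
  have hd0 := hd.2.1 0
  have h5 : (x i * y j - x j * y i) * (m26_d a b 0 * m26_d a b 0) = 0 := by
    have e1 : (x i * m26_d a b 0) * (y j * m26_d a b 0) =
      (x 0 * m26_d a b i) * (y 0 * m26_d a b j) := by rw [h1, h4]
    have e2 : (x j * m26_d a b 0) * (y i * m26_d a b 0) =
      (x 0 * m26_d a b j) * (y 0 * m26_d a b i) := by rw [h2, h3]
    linear_combination e1 - e2
  exact sub_eq_zero.mp ((mul_eq_zero.mp h5).resolve_right (mul_ne_zero hd0 hd0))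

theorem m26_count_x {σ : Equiv.Perm (Fin 4)} {a b : Fin 4 → Om K} (ha : a ∈ m26_R K σ)
    (hb : b ∈ m26_R K σ) (hQ : m26_Q a b) :
    ((m26_R K σ).filter (fun x => m26_Good x ∧ m26_E a b x)).card = Fintype.card K - 1 := by
  obtain ⟨x0, hx0, hg0, hE0⟩ := m26_exists_x ha hb hQ
  have h1 : (m26_R K σ).filter (fun x => m26_Good x ∧ m26_E a b x) =
      ((Finset.univ : Finset K).filter (fun c => c ≠ 0)).image
        (fun c => fun i => algebraMap K (Om K) c * x0 i) := by
    ext x
    rw [Finset.mem_filter, Finset.mem_image]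
    constructor
    · rintro ⟨hx, hg, hE⟩
      have hxi : ∀ i, x i = (x 0 / x0 0) * x0 i := by
        intro i
        rw [div_mul_eq_mul_div, eq_div_iff (hg0.2.1 0)]
        exact m26_prop' hQ hE hE0 i 0
      rw [m26_mem_R] at hx hx0
      have hc : (x 0 / x0 0) ^ Fintype.card K = x 0 / x0 0 := by
        have e1 := hx 0
        rw [hxi (σ 0)] at e1
        conv_lhs at e1 => rw [hxi 0]
        rw [mul_pow, hx0 0] at e1
        exact mul_right_cancel₀ (hg0.2.1 (σ 0)) e1
      obtain ⟨c, hc⟩ := pow_card_eq_iff.mp hc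
      refine ⟨c, ?_, ?_⟩
      · rw [Finset.mem_filter]
        refine ⟨Finset.mem_univ _, ?_⟩
        rintro rfl
        rw [map_zero] at hc
        exact div_ne_zero (hg.2.1 0) (hg0.2.1 0) hc.symm
      · funext i
        rw [hc]
        exact (hxi i).symm
    · rintro ⟨c, hc, rfl⟩
      rw [Finset.mem_filter] at hc
      have hc' : algebraMap K (Om K) c ≠ 0 := fun e =>
        hc.2 ((map_eq_zero_iff _ (algebraMap K (Om K)).injective).mp e)
      refine ⟨?_, m26_Good_smul x0 _ _ hc' (fun i => rfl) hg0, ?_⟩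
      · rw [m26_mem_R] at hx0 ⊢
        intro i
        rw [mul_pow, m26_alg_pow, hx0]
      · refine ⟨?_, ?_, ?_⟩
        · rw [← Finset.mul_sum, hE0.1, mul_zero]
        · have h1 : ∀ i, algebraMap K (Om K) c * x0 i * a i =
            algebraMap K (Om K) c * (x0 i * a i) := fun i => by ring
          rw [Finset.sum_congr rfl fun i _ => h1 i, ← Finset.mul_sum, hE0.2.1, mul_zero]
        · have h1 : ∀ i, algebraMap K (Om K) c * x0 i * b i =
            algebraMap K (Om K) c * (x0 i * b i) := fun i => by ring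
          rw [Finset.sum_congr rfl fun i _ => h1 i, ← Finset.mul_sum, hE0.2.2, mul_zero]
  rw [h1, Finset.card_image_of_injective]
  · rw [Finset.filter_ne', Finset.card_erase_of_mem (Finset.mem_univ _), Finset.card_univ]
  · intro c d h
    exact (algebraMap K (Om K)).injective (mul_right_cancel₀ (hg0.2.1 0) (congrFun h 0))

/-- double counting -/
theorem m26_double (σ : Equiv.Perm (Fin 4)) :
    ((m26_R K σ).filter m26_Good).card *
      ((Fintype.card K ^ 3 - Fintype.card K) * (Fintype.card K ^ 3 - Fintype.card K ^ 2)) =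
    ((m26_R K σ ×ˢ m26_R K σ).filter (fun ab => m26_Q ab.1 ab.2)).card *
      (Fintype.card K - 1) := by
  refine Finset.card_mul_eq_card_mul (fun (x : Fin 4 → Om K)
    (ab : (Fin 4 → Om K) × (Fin 4 → Om K)) => m26_E ab.1 ab.2 x) ?_ ?_
  · intro x hx
    rw [Finset.mem_filter] at hx
    rw [← m26_count_ab hx.1 hx.2, Finset.bipartiteAbove, Finset.filter_filter]
  · rintro ⟨a, b⟩ hab
    rw [Finset.mem_filter, Finset.mem_product] at hab
    rw [← m26_count_x hab.1.1 hab.1.2 hab.2, Finset.bipartiteBelow, Finset.filter_filter]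

theorem m26_det1 (a b : Fin 4 → Om K) (i j k l : Fin 4) :
    det1 ((C (a i) * X + C (b i)) - (C (a j) * X + C (b j)))
      ((C (a k) * X + C (b k)) - (C (a l) * X + C (b l)) : (Om K)[X]) =
    (a i - a j) * (b k - b l) - (b i - b j) * (a k - a l) := by
  unfold det1
  simp [coeff_X_zero, coeff_C_succ]

theorem m26_ncard_Qu (σ : Equiv.Perm (Fin 4)) :
    Set.ncard (Qu K σ) =
      ((m26_R K σ ×ˢ m26_R K σ).filter (fun ab => m26_Q ab.1 ab.2)).card := by
  have hinj : Function.Injective (fun (ab : (Fin 4 → Om K) × (Fin 4 → Om K)) =>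
      (fun i => C (ab.1 i) * X + C (ab.2 i) : Fin 4 → (Om K)[X])) := by
    rintro ⟨a, b⟩ ⟨a', b'⟩ h
    have h1 : a = a' := by
      funext i
      have := congrArg (fun P : (Om K)[X] => P.coeff 1) (congrFun h i)
      simpa [coeff_C_succ] using this
    have h2 : b = b' := by
      funext i
      have := congrArg (fun P : (Om K)[X] => P.coeff 0) (congrFun h i)
      simpa using this
    rw [h1, h2]
  rw [← Set.ncard_coe_finset, ← Set.ncard_image_of_injective _ hinj]
  congr 1
  ext m
  constructor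
  · rintro ⟨h1, h2, h3⟩
    have hm : ∀ i, m i = C ((m i).coeff 1) * X + C ((m i).coeff 0) := fun i =>
      eq_X_add_C_of_natDegree_le_one (h1 i)
    refine ⟨(fun i => (m i).coeff 1, fun i => (m i).coeff 0), ?_, ?_⟩
    · rw [Finset.mem_coe, Finset.mem_filter, Finset.mem_product, m26_mem_R, m26_mem_R]
      refine ⟨⟨fun i => ?_, fun i => ?_⟩, ?_⟩
      · show (m i).coeff 1 ^ Fintype.card K = (m (σ i)).coeff 1
        rw [← phi_coeff, h2]
      · show (m i).coeff 0 ^ Fintype.card K = (m (σ i)).coeff 0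
        rw [← phi_coeff, h2]
      · intro i j k l hij hkl hne
        have h4 := h3 i j k l hij hkl hne
        rw [hm i, hm j, hm k, hm l] at h4
        intro e
        exact h4 ((m26_det1 (fun i => (m i).coeff 1) (fun i => (m i).coeff 0) i j k l).trans e)
    · funext i
      exact (hm i).symm
  · rintro ⟨⟨a, b⟩, hab, rfl⟩
    rw [Finset.mem_coe, Finset.mem_filter, Finset.mem_product, m26_mem_R, m26_mem_R] at hab
    obtain ⟨⟨ha, hb⟩, hQ⟩ := hab
    refine ⟨fun i => natDegree_linear_le, fun i => ?_, ?_⟩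
    · show phi K (C (a i) * X + C (b i)) = C (a (σ i)) * X + C (b (σ i))
      have hX : phi K (X : (Om K)[X]) = X := by
        unfold phi
        rw [coe_mapRingHom, map_X]
      rw [map_add, map_mul, phi_C, phi_C, hX, ha, hb]
    · intro i j k l hij hkl hne
      have := hQ i j k l hij hkl hne
      show det1 ((C (a i) * X + C (b i)) - (C (a j) * X + C (b j)))
        ((C (a k) * X + C (b k)) - (C (a l) * X + C (b l)) : (Om K)[X]) ≠ 0
      rw [m26_det1]
      exact this

/-! ### counting the good twisted vectors -/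

/-- the monic quartics with vanishing cubic coefficient -/
def m26_P {L : Type*} [Field L] (t : L × L × L) : L[X] :=
  X ^ 4 + C t.1 * X ^ 2 + C t.2.1 * X + C t.2.2

theorem m26_P_coeff {L : Type*} [Field L] (t : L × L × L) :
    (m26_P t).coeff 3 = 0 ∧ (m26_P t).coeff 2 = t.1 ∧ (m26_P t).coeff 1 = t.2.1 ∧
      (m26_P t).coeff 0 = t.2.2 := by
  unfold m26_P
  refine ⟨?_, ?_, ?_, ?_⟩ <;> simp [coeff_X, coeff_C, coeff_X_pow]

theorem m26_P_degree {L : Type*} [Field L] (t : L × L × L) :
    (m26_P t).natDegree = 4 ∧ (m26_P t).Monic := by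
  have h : m26_P t = X ^ 4 + (C t.1 * X ^ 2 + C t.2.1 * X + C t.2.2) := by
    unfold m26_P
    ring
  have hd : (C t.1 * X ^ 2 + C t.2.1 * X + C t.2.2 : L[X]).degree < ((4 : ℕ) : WithBot ℕ) :=
    lt_of_le_of_lt degree_quadratic_le (by norm_num)
  have hd' : (C t.1 * X ^ 2 + C t.2.1 * X + C t.2.2 : L[X]).degree < (X ^ 4 : L[X]).degree := by
    rw [degree_X_pow]
    exact hd
  rw [h]
  refine ⟨?_, monic_X_pow_add hd⟩
  apply natDegree_eq_of_degree_eq_some
  rw [degree_add_eq_left_of_degree_lt hd', degree_X_pow]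

theorem m26_up_P (t : K × K × K) :
    up (m26_P t) = m26_P (algebraMap K (Om K) t.1, algebraMap K (Om K) t.2.1,
      algebraMap K (Om K) t.2.2) := by
  unfold m26_P up
  simp

/-- Vieta for `∑ x = 0` -/
theorem m26_vieta {L : Type*} [Field L] (x : Fin 4 → L) :
    ((∏ i, (X - C (x i))) : L[X]) =
      X ^ 4 - C (x 0 + x 1 + x 2 + x 3) * X ^ 3 +
        C (x 0 * x 1 + x 0 * x 2 + x 0 * x 3 + x 1 * x 2 + x 1 * x 3 + x 2 * x 3) * X ^ 2 -
        C (x 0 * x 1 * x 2 + x 0 * x 1 * x 3 + x 0 * x 2 * x 3 + x 1 * x 2 * x 3) * X +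
        C (x 0 * x 1 * x 2 * x 3) := by
  rw [Fin.prod_univ_four]
  simp only [map_add, map_mul]
  ring

theorem m26_vieta_coeff {L : Type*} [Field L] (x : Fin 4 → L) :
    ((∏ i, (X - C (x i))) : L[X]).coeff 3 = -(x 0 + x 1 + x 2 + x 3) ∧
    ((∏ i, (X - C (x i))) : L[X]).coeff 2 =
      x 0 * x 1 + x 0 * x 2 + x 0 * x 3 + x 1 * x 2 + x 1 * x 3 + x 2 * x 3 ∧
    ((∏ i, (X - C (x i))) : L[X]).coeff 1 =
      -(x 0 * x 1 * x 2 + x 0 * x 1 * x 3 + x 0 * x 2 * x 3 + x 1 * x 2 * x 3) ∧
    ((∏ i, (X - C (x i))) : L[X]).coeff 0 = x 0 * x 1 * x 2 * x 3 := by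
  rw [m26_vieta]
  generalize x 0 + x 1 + x 2 + x 3 = e1
  generalize x 0 * x 1 + x 0 * x 2 + x 0 * x 3 + x 1 * x 2 + x 1 * x 3 + x 2 * x 3 = e2
  generalize x 0 * x 1 * x 2 + x 0 * x 1 * x 3 + x 0 * x 2 * x 3 + x 1 * x 2 * x 3 = e3
  generalize x 0 * x 1 * x 2 * x 3 = e4
  refine ⟨?_, ?_, ?_, ?_⟩ <;> simp [coeff_X, coeff_C, coeff_X_pow]

theorem m26_Good_of_P {L : Type*} [Field L] (x : Fin 4 → L) (t : L × L × L)
    (h : ∏ i, (X - C (x i)) = m26_P t) : m26_Good x ↔ (t.2.1 ≠ 0 ∧ t.2.2 ≠ 0) := by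
  obtain ⟨v3, v2, v1, v0⟩ := m26_vieta_coeff x
  obtain ⟨p3, p2, p1, p0⟩ := m26_P_coeff t
  rw [h] at v3 v2 v1 v0
  have e3 : x 0 + x 1 + x 2 + x 3 = 0 := by
    rw [p3] at v3
    linear_combination v3
  have e1 : t.2.1 = -((x 0 + x 1) * (x 0 + x 2) * (x 0 + x 3)) := by
    rw [← p1, v1]
    linear_combination (x 0) ^ 2 * e3
  have e0 : t.2.2 = x 0 * x 1 * x 2 * x 3 := by rw [← p0, v0]
  rw [m26_Good_iff, e1, e0]
  constructor
  · rintro ⟨-, h0, h1, h2, h3, h01, h02, h03⟩
    exact ⟨neg_ne_zero.mpr (mul_ne_zero (mul_ne_zero h01 h02) h03),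
      mul_ne_zero (mul_ne_zero (mul_ne_zero h0 h1) h2) h3⟩
  · rintro ⟨h1, h2⟩
    rw [neg_ne_zero, mul_ne_zero_iff, mul_ne_zero_iff] at h1
    rw [mul_ne_zero_iff, mul_ne_zero_iff, mul_ne_zero_iff] at h2
    exact ⟨e3, h2.1.1.1, h2.1.1.2, h2.1.2, h2.2, h1.1.1, h1.1.2, h1.2⟩

theorem m26_phi_prod (x : Fin 4 → Om K) :
    phi K (∏ i, (X - C (x i))) = ∏ i, (X - C (x i ^ Fintype.card K)) := by
  rw [map_prod]
  refine Finset.prod_congr rfl fun i _ => ?_
  have hX : phi K (X : (Om K)[X]) = X := by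
    unfold phi
    rw [coe_mapRingHom, map_X]
  rw [map_sub, phi_C, hX]

theorem m26_roots_prod (x : Fin 4 → Om K) :
    (∏ i, (X - C (x i)) : (Om K)[X]).roots = (Finset.univ : Finset (Fin 4)).val.map x := by
  have h : (∏ i, (X - C (x i)) : (Om K)[X]) =
      (((Finset.univ : Finset (Fin 4)).val.map x).map (fun a => X - C a)).prod := by
    rw [Multiset.map_map]
    rfl
  rw [h, roots_multiset_prod_X_sub_C]

theorem m26_exists_label (P : (Om K)[X]) (hm : P.Monic) (hd : P.natDegree = 4) :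
    ∃ x : Fin 4 → Om K, P = ∏ i, (X - C (x i)) := by
  have hs : P.Splits := IsAlgClosed.splits P
  have hc : P.roots.card = 4 := by rw [← hs.natDegree_eq_card_roots, hd]
  obtain ⟨l, hl⟩ := Quot.exists_rep P.roots
  have hl' : (l : Multiset (Om K)) = P.roots := hl
  have hlen : l.length = 4 := by
    rw [← hc, ← hl', Multiset.coe_card]
  have h := hs.eq_prod_roots_of_monic hm
  refine ⟨fun i => l.get (Fin.cast hlen.symm i), ?_⟩
  rw [h, ← hl', Multiset.map_coe, Multiset.prod_coe]
  rw [← List.prod_ofFn]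
  congr 1
  apply List.ext_get
  · rw [List.length_map, List.length_ofFn, hlen]
  · intro n h1 h2
    simp only [List.get_eq_getElem, List.getElem_map, List.getElem_ofFn, Fin.val_cast]

/-- the set of stable multisets counted by `card_twisted` -/
theorem m26_count_P :
    Set.ncard {s : Multiset (Om K) | s.map (fun x => x ^ Fintype.card K) = s ∧
        ∃ x ∈ {x : Fin 4 → Om K | m26_Good x}, s = (Finset.univ : Finset (Fin 4)).val.map x} =
      Fintype.card K * (Fintype.card K - 1) ^ 2 := by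
  have hinj : Function.Injective (fun t : K × K × K => (up (m26_P t)).roots) := by
    intro t t' h
    have h1 : up (m26_P t) = up (m26_P t') := by
      have hs : (up (m26_P t)).Splits := IsAlgClosed.splits _
      have hs' : (up (m26_P t')).Splits := IsAlgClosed.splits _
      have hm : (up (m26_P t)).Monic := (m26_P_degree t).2.map _
      have hm' : (up (m26_P t')).Monic := (m26_P_degree t').2.map _
      rw [hs.eq_prod_roots_of_monic hm, hs'.eq_prod_roots_of_monic hm']
      have h' : (up (m26_P t)).roots = (up (m26_P t')).roots := h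
      rw [h']
    have h2 := up_injective h1
    obtain ⟨-, c2, c1, c0⟩ := m26_P_coeff t
    obtain ⟨-, c2', c1', c0'⟩ := m26_P_coeff t'
    rw [h2] at c2 c1 c0
    have e1 : t.1 = t'.1 := c2.symm.trans c2'
    have e2 : t.2.1 = t'.2.1 := c1.symm.trans c1'
    have e3 : t.2.2 = t'.2.2 := c0.symm.trans c0'
    exact Prod.ext e1 (Prod.ext e2 e3)
  have hset : {s : Multiset (Om K) | s.map (fun x => x ^ Fintype.card K) = s ∧
        ∃ x ∈ {x : Fin 4 → Om K | m26_Good x},
          s = (Finset.univ : Finset (Fin 4)).val.map x} =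
      (fun t : K × K × K => (up (m26_P t)).roots) ''
        (((Finset.univ : Finset K) ×ˢ ((Finset.univ : Finset K).filter (fun c => c ≠ 0)) ×ˢ
          ((Finset.univ : Finset K).filter (fun c => c ≠ 0)) : Finset (K × K × K)) :
            Set (K × K × K)) := by
    ext s
    constructor
    · rintro ⟨hs, x, hx, rfl⟩
      have hx' : m26_Good x := hx
      have hphi : phi K (∏ i, (X - C (x i))) = ∏ i, (X - C (x i)) := by
        rw [m26_phi_prod]
        have h1 : (∏ i, (X - C (x i ^ Fintype.card K)) : (Om K)[X]) =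
            ((((Finset.univ : Finset (Fin 4)).val.map x).map
              (fun x => x ^ Fintype.card K)).map (fun a => X - C a)).prod := by
          rw [Multiset.map_map, Multiset.map_map]
          rfl
        have h2 : (∏ i, (X - C (x i)) : (Om K)[X]) =
            (((Finset.univ : Finset (Fin 4)).val.map x).map (fun a => X - C a)).prod := by
          rw [Multiset.map_map]
          rfl
        rw [h1, h2, hs]
      obtain ⟨P0, hP0⟩ := phi_eq_iff.mp hphi
      have hmon : (∏ i, (X - C (x i)) : (Om K)[X]).Monic :=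
        monic_prod_of_monic _ _ fun i _ => monic_X_sub_C _
      have hdeg : (∏ i, (X - C (x i)) : (Om K)[X]).natDegree = 4 := by
        rw [natDegree_prod_of_monic _ _ fun i _ => monic_X_sub_C _]
        simp
      have hmon0 : P0.Monic := by
        rw [← hP0] at hmon
        exact monic_of_injective (algebraMap K (Om K)).injective hmon
      have hdeg0 : P0.natDegree = 4 := by rw [← natDegree_up, hP0, hdeg]
      have hc3 : P0.coeff 3 = 0 := by
        have h3 := (m26_vieta_coeff x).1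
        rw [← hP0, coeff_up] at h3
        have h4 : x 0 + x 1 + x 2 + x 3 = 0 := ((m26_Good_iff x).mp hx').1
        rw [h4, neg_zero] at h3
        exact (map_eq_zero_iff _ (algebraMap K (Om K)).injective).mp h3
      have hP0eq : P0 = m26_P (P0.coeff 2, P0.coeff 1, P0.coeff 0) := by
        have h5 := hmon0.as_sum
        rw [hdeg0] at h5
        conv_lhs => rw [h5]
        simp only [Finset.sum_range_succ, Finset.range_zero, Finset.sum_empty, hc3, m26_P]
        simp only [map_zero]
        ring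
      refine ⟨(P0.coeff 2, P0.coeff 1, P0.coeff 0), ?_, ?_⟩
      · have h6 := m26_Good_of_P x (algebraMap K (Om K) (P0.coeff 2),
          algebraMap K (Om K) (P0.coeff 1), algebraMap K (Om K) (P0.coeff 0))
          (by rw [← hP0, hP0eq, m26_up_P, ← hP0eq])
        obtain ⟨h7, h8⟩ := h6.mp hx'
        rw [Finset.mem_coe, Finset.mem_product, Finset.mem_product, Finset.mem_filter,
          Finset.mem_filter]
        refine ⟨Finset.mem_univ _, ⟨Finset.mem_univ _, ?_⟩, ⟨Finset.mem_univ _, ?_⟩⟩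
        · intro e
          apply h7
          show algebraMap K (Om K) (P0.coeff 1) = 0
          have e' : P0.coeff 1 = 0 := e
          rw [e', map_zero]
        · intro e
          apply h8
          show algebraMap K (Om K) (P0.coeff 0) = 0
          have e' : P0.coeff 0 = 0 := e
          rw [e', map_zero]
      · show (up (m26_P (P0.coeff 2, P0.coeff 1, P0.coeff 0))).roots =
          (Finset.univ : Finset (Fin 4)).val.map x
        rw [← hP0eq, hP0, m26_roots_prod]
    · rintro ⟨t, ht, rfl⟩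
      rw [Finset.mem_coe, Finset.mem_product, Finset.mem_product, Finset.mem_filter,
        Finset.mem_filter] at ht
      have hm : (up (m26_P t)).Monic := (m26_P_degree t).2.map _
      have hd : (up (m26_P t)).natDegree = 4 := by rw [natDegree_up, (m26_P_degree t).1]
      obtain ⟨x, hx⟩ := m26_exists_label _ hm hd
      have hroots : (up (m26_P t)).roots = (Finset.univ : Finset (Fin 4)).val.map x := by
        rw [hx, m26_roots_prod]
      refine ⟨?_, x, ?_, hroots⟩
      · show (up (m26_P t)).roots.map (fun x => x ^ Fintype.card K) = (up (m26_P t)).roots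
        have h1 : phi K (up (m26_P t)) = up (m26_P t) := phi_up _
        have h2 : (up (m26_P t)).roots =
            (Finset.univ : Finset (Fin 4)).val.map (fun i => x i ^ Fintype.card K) := by
          conv_lhs => rw [← h1, hx, m26_phi_prod]
          rw [m26_roots_prod (fun i => x i ^ Fintype.card K)]
        conv_rhs => rw [h2]
        rw [hroots, Multiset.map_map]
        rfl
      · have h3 := m26_Good_of_P x (algebraMap K (Om K) t.1, algebraMap K (Om K) t.2.1,
          algebraMap K (Om K) t.2.2) (by rw [← hx, m26_up_P])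
        apply h3.mpr
        refine ⟨fun e => ht.2.1.2 ?_, fun e => ht.2.2.2 ?_⟩
        · exact (map_eq_zero_iff _ (algebraMap K (Om K)).injective).mp e
        · exact (map_eq_zero_iff _ (algebraMap K (Om K)).injective).mp e
  rw [hset, Set.ncard_image_of_injective _ hinj, Set.ncard_coe_finset, Finset.card_product,
    Finset.card_product, Finset.filter_ne', Finset.card_erase_of_mem (Finset.mem_univ _),
    Finset.card_univ, sq]

theorem m26_sum_Good :
    ∑ σ : Equiv.Perm (Fin 4), ((m26_R K σ).filter m26_Good).card =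
      24 * (Fintype.card K * (Fintype.card K - 1) ^ 2) := by
  have hct := card_twisted (φ := fun x : Om K => x ^ Fintype.card K) pow_card_injective 4
    {x : Fin 4 → Om K | m26_Good x} ?_ ?_
  · rw [m26_count_P] at hct
    rw [show (24 : ℕ) = Nat.factorial 4 from rfl, ← hct]
    refine Finset.sum_congr rfl fun σ _ => ?_
    have hset : {x : Fin 4 → Om K | x ∈ {x : Fin 4 → Om K | m26_Good x} ∧
        ∀ i, (fun x : Om K => x ^ Fintype.card K) (x i) = x (σ i)} =
        (((m26_R K σ).filter m26_Good : Finset (Fin 4 → Om K)) : Set (Fin 4 → Om K)) := by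
      ext x
      rw [Finset.mem_coe, Finset.mem_filter, m26_mem_R]
      constructor
      · rintro ⟨h1, h2⟩
        exact ⟨h2, h1⟩
      · rintro ⟨h1, h2⟩
        exact ⟨h2, h1⟩
    rw [hset, Set.ncard_coe_finset]
  · rintro x ⟨h1, h2, h3⟩ τ
    refine ⟨?_, fun i => h2 _, fun i j hij => h3 _ _ fun e => hij (τ.injective e)⟩
    rw [← h1]
    exact Equiv.sum_comp τ x
  · apply Set.Finite.subset (Set.finite_iUnion fun σ : Equiv.Perm (Fin 4) => m26_Rs_finite K σ)
    rintro x ⟨-, σ, hσ⟩
    rw [Set.mem_iUnion]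
    exact ⟨σ, hσ⟩

end fin

section
variable (K : Type*) [Field K] [Fintype K]

/-- M26 -/
theorem sum_Qu (h2 : (2 : K) ≠ 0) :
    ∑ σ : Equiv.Perm (Fin 4), (Set.ncard (Qu K σ) : ℤ) =
      24 * ((Fintype.card K : ℤ) ^ 3 * ((Fintype.card K : ℤ) - 1) * G2 K) := by
  have hq : 1 < Fintype.card K := Fintype.one_lt_card
  have h1 : (∑ σ : Equiv.Perm (Fin 4), Set.ncard (Qu K σ)) * (Fintype.card K - 1) =
      24 * (Fintype.card K * (Fintype.card K - 1) ^ 2) *
      ((Fintype.card K ^ 3 - Fintype.card K) * (Fintype.card K ^ 3 - Fintype.card K ^ 2)) := by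
    rw [← m26_sum_Good, Finset.sum_mul, Finset.sum_mul]
    refine Finset.sum_congr rfl fun σ _ => ?_
    rw [m26_ncard_Qu, m26_double]
  have h13 : Fintype.card K ≤ Fintype.card K ^ 3 := Nat.le_self_pow (by norm_num) _
  have h23 : Fintype.card K ^ 2 ≤ Fintype.card K ^ 3 := Nat.pow_le_pow_right (by omega) (by norm_num)
  have h3 : ((∑ σ : Equiv.Perm (Fin 4), (Set.ncard (Qu K σ) : ℤ))) *
      ((Fintype.card K : ℤ) - 1) = 24 * ((Fintype.card K : ℤ) * ((Fintype.card K : ℤ) - 1) ^ 2) *
      (((Fintype.card K : ℤ) ^ 3 - (Fintype.card K : ℤ)) *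
        ((Fintype.card K : ℤ) ^ 3 - (Fintype.card K : ℤ) ^ 2)) := by
    have h4 := congrArg (fun n : ℕ => (n : ℤ)) h1
    simp only [Nat.cast_mul, Nat.cast_sum, Nat.cast_pow, Nat.cast_sub h13, Nat.cast_sub h23,
      Nat.cast_sub hq.le, Nat.cast_one, Nat.cast_ofNat] at h4
    exact h4
  have h5 : ((Fintype.card K : ℤ) - 1) ≠ 0 := by
    have : (1 : ℤ) < (Fintype.card K : ℤ) := by exact_mod_cast hq
    omega
  apply mul_right_cancel₀ h5
  rw [h3]
  unfold G2
  ring

end

end
end Pool.Agent.Helper19.DP1
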