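import Pool.Agent.Helper19.DP1.Sums
import Pool.Agent.Helper19.DP1.Core4
import Pool.Agent.Helper19.DP1.Core7c

/-! M9: the number of quartics without square fibres (`SV_zero`) and the contribution of one
singular point (`SV_one`). -/

namespace Pool.Agent.Helper19.DP1
open Polynomial Classical
noncomputable section

section
variable {L : Type*} [Field L]

/-- the coordinates `(α,β,A,B)` : the quartic `(Y^2+αY+β)^2+AY+B` -/
def m9q (x : L[X] × L[X] × L[X] × L[X]) : L[X] × L[X] × L[X] × L[X] :=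
  (2 * x.1, x.1 ^ 2 + 2 * x.2.1, 2 * x.1 * x.2.1 + x.2.2.1, x.2.1 ^ 2 + x.2.2.2)

/-- the inverse of `m9q` -/
def m9i (c : L[X] × L[X] × L[X] × L[X]) : L[X] × L[X] × L[X] × L[X] :=
  (C (2⁻¹ : L) * c.1, C (2⁻¹ : L) * (c.2.1 - (C (2⁻¹ : L) * c.1) ^ 2),
    c.2.2.1 - 2 * (C (2⁻¹ : L) * c.1) * (C (2⁻¹ : L) * (c.2.1 - (C (2⁻¹ : L) * c.1) ^ 2)),
    c.2.2.2 - (C (2⁻¹ : L) * (c.2.1 - (C (2⁻¹ : L) * c.1) ^ 2)) ^ 2)

theorem m9_half (h2 : (2 : L) ≠ 0) : (C (2⁻¹ : L) : L[X]) * 2 = 1 := by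
  rw [show (2 : L[X]) = C (2 : L) from (C_ofNat 2).symm, ← C_mul, inv_mul_cancel₀ h2, C_1]

theorem m9_qi (h2 : (2 : L) ≠ 0) (c : L[X] × L[X] × L[X] × L[X]) : m9q (m9i c) = c := by
  obtain ⟨c1, c2, c3, c4⟩ := c
  have h := m9_half h2
  unfold m9q m9i
  refine Prod.ext ?_ (Prod.ext ?_ (Prod.ext ?_ ?_)) <;> simp only
  · linear_combination c1 * h
  · linear_combination (c2 - (C (2⁻¹ : L) * c1) ^ 2) * h
  · ring
  · ring

theorem m9_iq (h2 : (2 : L) ≠ 0) (x : L[X] × L[X] × L[X] × L[X]) : m9i (m9q x) = x := by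
  obtain ⟨a, b, A, B⟩ := x
  have h := m9_half h2
  have h1 : C (2⁻¹ : L) * (2 * a) = a := by linear_combination a * h
  have h3 : C (2⁻¹ : L) * (a ^ 2 + 2 * b - a ^ 2) = b := by linear_combination b * h
  unfold m9q m9i
  simp only [h1, h3]
  refine Prod.ext rfl (Prod.ext rfl (Prod.ext ?_ ?_)) <;> simp only <;> ring

theorem m9_quart (x : L[X] × L[X] × L[X] × L[X]) :
    quart (m9q x) = (X ^ 2 + C x.1 * X + C x.2.1) ^ 2 + C x.2.2.1 * X + C x.2.2.2 := by
  unfold quart m9q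
  simp only [C_add, C_mul, C_pow]
  rw [show (C (2 : L[X]) : L[X][X]) = 2 from C_ofNat 2]
  ring

end

section
variable {K : Type*} [Field K] [Fintype K]

omit [Fintype K] in
theorem m9_deg {n : ℕ} {P Q : K[X]} (hP : P.natDegree ≤ n) (hQ : Q.natDegree ≤ n) :
    (P + Q).natDegree ≤ n := (natDegree_add_le _ _).trans (max_le hP hQ)

omit [Fintype K] in
theorem m9_deg_sub {n : ℕ} {P Q : K[X]} (hP : P.natDegree ≤ n) (hQ : Q.natDegree ≤ n) :
    (P - Q).natDegree ≤ n := (natDegree_sub_le _ _).trans (max_le hP hQ)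

omit [Fintype K] in
theorem m9_deg_mul {m n : ℕ} {P Q : K[X]} (hP : P.natDegree ≤ m) (hQ : Q.natDegree ≤ n) :
    (P * Q).natDegree ≤ m + n := natDegree_mul_le.trans (Nat.add_le_add hP hQ)

omit [Fintype K] in
theorem m9_deg_two {n : ℕ} {P : K[X]} (hP : P.natDegree ≤ n) : (2 * P).natDegree ≤ n := by
  rw [show (2 : K[X]) = C (2 : K) from (C_ofNat 2).symm]
  exact (natDegree_C_mul_le _ _).trans hP

omit [Fintype K] in
theorem m9_deg_pow {n : ℕ} {P : K[X]} (hP : P.natDegree ≤ n) : (P ^ 2).natDegree ≤ 2 * n :=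
  natDegree_pow_le.trans (Nat.mul_le_mul_left 2 hP)

/-- the four coefficient spaces -/
def m9V (K : Type*) [Field K] [Fintype K] : Finset (K[X] × K[X] × K[X] × K[X]) :=
  V K 1 ×ˢ V K 2 ×ˢ V K 3 ×ˢ V K 4

theorem m9_mem {x : K[X] × K[X] × K[X] × K[X]} : x ∈ m9V K ↔
    x.1.natDegree ≤ 1 ∧ x.2.1.natDegree ≤ 2 ∧ x.2.2.1.natDegree ≤ 3 ∧ x.2.2.2.natDegree ≤ 4 := by
  unfold m9V
  simp only [Finset.mem_product, mem_V]

theorem m9q_mem {x : K[X] × K[X] × K[X] × K[X]} (hx : x ∈ m9V K) : m9q x ∈ m9V K := by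
  rw [m9_mem] at hx ⊢
  obtain ⟨h1, h2, h3, h4⟩ := hx
  refine ⟨m9_deg_two h1, m9_deg (m9_deg_pow h1) (m9_deg_two h2),
    m9_deg (m9_deg_mul (m9_deg_two h1) h2) h3, m9_deg (m9_deg_pow h2) h4⟩

theorem m9i_mem {x : K[X] × K[X] × K[X] × K[X]} (hx : x ∈ m9V K) : m9i x ∈ m9V K := by
  rw [m9_mem] at hx ⊢
  obtain ⟨h1, h2, h3, h4⟩ := hx
  have k1 : (C (2⁻¹ : K) * x.1).natDegree ≤ 1 := (natDegree_C_mul_le _ _).trans h1
  have k2 : (C (2⁻¹ : K) * (x.2.1 - (C (2⁻¹ : K) * x.1) ^ 2)).natDegree ≤ 2 :=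
    (natDegree_C_mul_le _ _).trans (m9_deg_sub h2 (m9_deg_pow k1))
  exact ⟨k1, k2, m9_deg_sub h3 (m9_deg_mul (m9_deg_two k1) k2), m9_deg_sub h4 (m9_deg_pow k2)⟩

theorem m9_sum_change (h2 : (2 : K) ≠ 0) (F : K[X] × K[X] × K[X] × K[X] → ℤ) :
    ∑ c ∈ m9V K, F c = ∑ x ∈ m9V K, F (m9q x) := by
  symm
  apply Finset.sum_nbij' m9q m9i
  · intro x hx; exact m9q_mem hx
  · intro x hx; exact m9i_mem hx
  · intro x _; exact m9_iq h2 x
  · intro x _; exact m9_qi h2 x
  · intro x _; rfl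

omit [Fintype K] in
theorem m9_two (h2 : (2 : K) ≠ 0) : (2 : Om K) ≠ 0 := by
  intro h
  apply h2
  apply (algebraMap K (Om K)).injective
  rw [map_ofNat, map_zero, h]

omit [Fintype K] in
theorem m9_up_two : up (2 : K[X]) = 2 := by
  unfold up
  simp

theorem m9_noSq (h2 : (2 : K) ≠ 0) {x : K[X] × K[X] × K[X] × K[X]} (hx : x ∈ m9V K) :
    NoSq (up2 (quart (m9q x))) ↔ Cop x.2.2.1 x.2.2.2 := by
  rw [m9_mem] at hx
  obtain ⟨h1, hb, h3, h4⟩ := hx
  have he : up2 (quart (m9q x)) =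
      (X ^ 2 + C (up x.1) * X + C (up x.2.1)) ^ 2 + C (up x.2.2.1) * X + C (up x.2.2.2) := by
    rw [up2_quart]
    have : ((up (m9q x).1, up (m9q x).2.1, up (m9q x).2.2.1, up (m9q x).2.2.2) :
        (Om K)[X] × (Om K)[X] × (Om K)[X] × (Om K)[X]) =
        m9q (up x.1, up x.2.1, up x.2.2.1, up x.2.2.2) := by
      unfold m9q
      simp only [up_add, up_mul, up_pow, m9_up_two]
    rw [this, m9_quart]
  rw [he, noSq_iff (m9_two h2) (by rw [natDegree_up]; exact h1) (by rw [natDegree_up]; exact hb)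
    (by rw [natDegree_up]; exact h3) (by rw [natDegree_up]; exact h4)]
  rfl

theorem m9_Q4_card (h2 : (2 : K) ≠ 0) (R : K[X] × K[X] × K[X] × K[X] → Prop) :
    ((((Q4 K).filter R).card : ℕ) : ℤ) =
      ∑ x ∈ m9V K, if Cop x.2.2.1 x.2.2.2 ∧ R (m9q x) then (1 : ℤ) else 0 := by
  have h : (Q4 K).filter R = (m9V K).filter (fun c => NoSq (up2 (quart c)) ∧ R c) := by
    unfold Q4 m9V
    rw [Finset.filter_filter]
  rw [h, Finset.card_filter]
  push_cast
  rw [m9_sum_change h2]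
  apply Finset.sum_congr rfl
  intro x hx
  simp only [m9_noSq h2 hx]

/-! ### coprime pairs -/

/-- the common zeros of `A` (degree 3) and `B` (degree 4) -/
def m9Z (A B : K[X]) : Finset (P1 K) :=
  if A = 0 then (Zf 4 B).filter (fun p => ev 3 (up A) p = 0 ∧ ev 4 (up B) p = 0)
  else (Zf 3 A).filter (fun p => ev 3 (up A) p = 0 ∧ ev 4 (up B) p = 0)

theorem m9Z_mem {A B : K[X]} (hA : A.natDegree ≤ 3) (hB : B.natDegree ≤ 4)
    (h : ¬ (A = 0 ∧ B = 0)) {p : P1 K} :
    p ∈ m9Z A B ↔ ev 3 (up A) p = 0 ∧ ev 4 (up B) p = 0 := by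
  unfold m9Z
  by_cases hA0 : A = 0
  · rw [if_pos hA0]
    have hB0 : B ≠ 0 := fun hB0 => h ⟨hA0, hB0⟩
    rw [Finset.mem_filter, mem_Zf hB hB0]
    tauto
  · rw [if_neg hA0, Finset.mem_filter, mem_Zf hA hA0]
    tauto

theorem m9Z_card {A B : K[X]} (hA : A.natDegree ≤ 3) (hB : B.natDegree ≤ 4)
    (h : ¬ (A = 0 ∧ B = 0)) : (m9Z A B).card ≤ 4 := by
  unfold m9Z
  by_cases hA0 : A = 0
  · rw [if_pos hA0]
    have hB0 : B ≠ 0 := fun hB0 => h ⟨hA0, hB0⟩
    exact (Finset.card_filter_le _ _).trans (card_Zf_le hB hB0)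
  · rw [if_neg hA0]
    exact (Finset.card_filter_le _ _).trans ((card_Zf_le hA hA0).trans (by norm_num))

theorem m9Z_stab {A B : K[X]} (hA : A.natDegree ≤ 3) (hB : B.natDegree ≤ 4)
    (h : ¬ (A = 0 ∧ B = 0)) : IsStabG (frob K) (m9Z A B) := by
  intro p hp
  rw [m9Z_mem hA hB h] at hp ⊢
  rw [ev_up_frob, ev_up_frob, hp.1, hp.2]
  have : Fintype.card K ≠ 0 := Fintype.card_ne_zero
  simp [this]

/-- the vanishing of the pair on a set -/
def m9v (x : K[X] × K[X]) (T : Finset (P1 K)) : Prop :=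
  ∀ p ∈ T, ev 3 (up x.1) p = 0 ∧ ev 4 (up x.2) p = 0

theorem m9_cop_one {A B : K[X]} (hA : A.natDegree ≤ 3) (hB : B.natDegree ≤ 4) :
    (if Cop A B then (1 : ℤ) else 0) =
      ∑ l ∈ Finset.range 5, ∑ T ∈ (Stab K l).filter (fun T => m9v (A, B) T), mu K T := by
  by_cases h : A = 0 ∧ B = 0
  · obtain ⟨rfl, rfl⟩ := h
    have hc : ¬ Cop (0 : K[X]) 0 := by
      intro hc
      apply hc none
      simp [up_zero, ev_zero]
    rw [if_neg hc]
    have hf : ∀ l, ∑ T ∈ (Stab K l).filter (fun T => m9v ((0 : K[X]), (0 : K[X])) T), mu K T =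
        MS K ∅ l := by
      intro l
      rw [← sum_Stab_mu]
      congr 1
      apply Finset.filter_true_of_mem
      intro T _ p _
      simp [up_zero, ev_zero]
    simp only [hf, Finset.sum_range_succ, Finset.sum_range_zero]
    rw [MS_empty_zero, MS_empty_one, MS_empty_two, MS_empty_ge (le_refl 3),
      MS_empty_ge (by norm_num : 3 ≤ 4)]
    ring
  · have hs := sum_mu_subsets (m9Z_stab hA hB h) (m9Z_card hA hB h)
    have hf : ∀ l, (Stab K l).filter (fun T => m9v (A, B) T) =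
        (Stab K l).filter (fun T => T ⊆ m9Z A B) := by
      intro l
      apply Finset.filter_congr
      intro T _
      constructor
      · intro hT p hp
        rw [m9Z_mem hA hB h]
        exact hT p hp
      · intro hT p hp
        have := hT hp
        rwa [m9Z_mem hA hB h] at this
    simp only [hf]
    rw [hs]
    by_cases hc : Cop A B
    · rw [if_pos hc, if_pos]
      rw [Finset.eq_empty_iff_forall_notMem]
      intro p hp
      rw [m9Z_mem hA hB h] at hp
      exact hc p hp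
    · rw [if_neg hc, if_neg]
      intro he
      apply hc
      intro p hp
      rw [← m9Z_mem hA hB h, he] at hp
      exact absurd hp (Finset.notMem_empty _)

theorem m9_cop_sum (S : Finset (K[X] × K[X]))
    (hS : ∀ x ∈ S, x.1.natDegree ≤ 3 ∧ x.2.natDegree ≤ 4) :
    ∑ x ∈ S, (if Cop x.1 x.2 then (1 : ℤ) else 0) =
      ∑ l ∈ Finset.range 5, ∑ T ∈ Stab K l, mu K T * ((S.filter (fun x => m9v x T)).card : ℤ) := by
  have h1 : ∀ x ∈ S, (if Cop x.1 x.2 then (1 : ℤ) else 0) =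
      ∑ l ∈ Finset.range 5, ∑ T ∈ Stab K l, if m9v x T then mu K T else 0 := by
    intro x hx
    rw [m9_cop_one (hS x hx).1 (hS x hx).2]
    apply Finset.sum_congr rfl
    intro l _
    rw [Finset.sum_filter]
  rw [Finset.sum_congr rfl h1, Finset.sum_comm]
  apply Finset.sum_congr rfl
  intro l _
  rw [Finset.sum_comm]
  apply Finset.sum_congr rfl
  intro T _
  rw [Finset.card_filter]
  push_cast
  rw [Finset.mul_sum]
  apply Finset.sum_congr rfl
  intro x _
  split_ifs <;> simp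

theorem m9_cop_total :
    ∑ x ∈ V K 3 ×ˢ V K 4, (if Cop x.1 x.2 then (1 : ℤ) else 0) =
      (Fintype.card K : ℤ) ^ 5 * G2 K := by
  rw [m9_cop_sum _ (by
    intro x hx
    rw [Finset.mem_product, mem_V, mem_V] at hx
    exact hx)]
  have h1 : ∀ l ∈ Finset.range 5, ∑ T ∈ Stab K l,
      mu K T * (((V K 3 ×ˢ V K 4).filter (fun x => m9v x T)).card : ℤ) =
      (Fintype.card K : ℤ) ^ (4 - l) * (Fintype.card K : ℤ) ^ (5 - l) * MS K ∅ l := by
    intro l hl
    rw [Finset.mem_range] at hl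
    rw [← sum_Stab_mu, Finset.mul_sum]
    apply Finset.sum_congr rfl
    intro T hT
    rw [mem_Stab] at hT
    have hc : ((V K 3 ×ˢ V K 4).filter (fun x => m9v x T)) =
        ((V K 3).filter (fun P => ∀ p ∈ T, ev 3 (up P) p = 0)) ×ˢ
        ((V K 4).filter (fun P => ∀ p ∈ T, ev 4 (up P) p = 0)) := by
      ext x
      simp only [Finset.mem_filter, Finset.mem_product, m9v]
      constructor
      · rintro ⟨⟨ha, hb⟩, hc⟩
        exact ⟨⟨ha, fun p hp => (hc p hp).1⟩, ⟨hb, fun p hp => (hc p hp).2⟩⟩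
      · rintro ⟨⟨ha, hc⟩, ⟨hb, hd⟩⟩
        exact ⟨⟨ha, hb⟩, fun p hp => ⟨hc p hp, hd p hp⟩⟩
    rw [hc, Finset.card_product, card_vanish hT.1 (by omega), card_vanish hT.1 (by omega), hT.2]
    push_cast
    ring
  rw [Finset.sum_congr rfl h1]
  simp only [Finset.sum_range_succ, Finset.sum_range_zero]
  rw [MS_empty_zero, MS_empty_one, MS_empty_two, MS_empty_ge (le_refl 3),
    MS_empty_ge (by norm_num : 3 ≤ 4)]
  unfold G2
  norm_num
  ring

/-- coprime pairs with given nonzero leading coefficient of `B` -/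
theorem m9_cop_lead {b : K} (hb : b ≠ 0) :
    ∑ x ∈ V K 3 ×ˢ (V K 4).filter (fun B => B.coeff 4 = b), (if Cop x.1 x.2 then (1 : ℤ) else 0) =
      (Fintype.card K : ℤ) ^ 7 * ((Fintype.card K : ℤ) - 1) := by
  rw [m9_cop_sum _ (by
    intro x hx
    rw [Finset.mem_product, Finset.mem_filter, mem_V, mem_V] at hx
    exact ⟨hx.1, hx.2.1⟩)]
  have h1 : ∀ l ∈ Finset.range 5, ∑ T ∈ Stab K l,
      mu K T * (((V K 3 ×ˢ (V K 4).filter (fun B => B.coeff 4 = b)).filter
        (fun x => m9v x T)).card : ℤ) =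
      (Fintype.card K : ℤ) ^ (4 - l) * (Fintype.card K : ℤ) ^ (4 - l) * MS K {upP none} l := by
    intro l hl
    rw [Finset.mem_range] at hl
    unfold MS
    rw [Finset.mul_sum, Finset.sum_filter]
    apply Finset.sum_congr rfl
    intro T hT
    rw [mem_Stab] at hT
    have hc : ((V K 3 ×ˢ (V K 4).filter (fun B => B.coeff 4 = b)).filter (fun x => m9v x T)) =
        ((V K 3).filter (fun P => ∀ p ∈ T, ev 3 (up P) p = 0)) ×ˢ
        ((V K 4).filter (fun P => (∀ p ∈ T, ev 4 (up P) p = 0) ∧ P.coeff 4 = b)) := by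
      ext x
      simp only [Finset.mem_filter, Finset.mem_product, m9v]
      constructor
      · rintro ⟨⟨ha, hb, hb'⟩, hc⟩
        exact ⟨⟨ha, fun p hp => (hc p hp).1⟩, ⟨hb, fun p hp => (hc p hp).2, hb'⟩⟩
      · rintro ⟨⟨ha, hc⟩, ⟨hb, hd, hb'⟩⟩
        exact ⟨⟨ha, hb, hb'⟩, fun p hp => ⟨hc p hp, hd p hp⟩⟩
    rw [hc, Finset.card_product, card_vanish hT.1 (by omega)]
    have hup : (upP (none : Option K) : P1 K) = none := rfl
    rw [hup]
    by_cases hn : (none : P1 K) ∈ T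
    · have he : ((V K 4).filter (fun P => (∀ p ∈ T, ev 4 (up P) p = 0) ∧ P.coeff 4 = b)) = ∅ := by
        rw [Finset.filter_eq_empty_iff]
        rintro P _ ⟨h3, h4⟩
        have h5 := h3 none hn
        have h6 : algebraMap K (Om K) (P.coeff 4) = 0 := by
          rw [← coeff_up]; exact h5
        rw [h4] at h6
        exact hb ((map_eq_zero _).mp h6)
      have hd : ¬ Disjoint T {(none : P1 K)} := by
        rw [Finset.disjoint_singleton_right]
        exact fun h => h hn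
      rw [he, if_neg hd]
      simp
    · have hd : Disjoint T {(none : P1 K)} := by
        rw [Finset.disjoint_singleton_right]
        exact hn
      rw [if_pos hd]
      have hT' : IsStabG (frob K) (insert none T) := by
        intro p hp
        rw [Finset.mem_insert] at hp ⊢
        rcases hp with rfl | hp
        · left; rfl
        · right; exact hT.1 p hp
      have hcard : (insert none T).card = l + 1 := by
        rw [Finset.card_insert_of_notMem hn, hT.2]
      have hi := card_interp (n := 4) hT' (by omega)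
        (fun p => if p = none then algebraMap K (Om K) b else 0) (by
          intro p hp
          by_cases hp0 : p = none
          · subst hp0
            rw [if_pos rfl, if_pos (show frob K none = none from rfl)]
            exact (pow_card_eq_iff.mpr ⟨b, rfl⟩).symm
          · have : frob K p ≠ none := by
              intro h
              apply hp0
              apply frob_injective
              rw [h]; rfl
            rw [if_neg hp0, if_neg this]
            have : Fintype.card K ≠ 0 := Fintype.card_ne_zero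
            simp [this])
      have he : ((V K 4).filter (fun P => (∀ p ∈ T, ev 4 (up P) p = 0) ∧ P.coeff 4 = b)) =
          ((V K 4).filter (fun P => ∀ p ∈ insert none T, ev 4 (up P) p =
            (fun p => if p = none then algebraMap K (Om K) b else 0) p)) := by
        apply Finset.filter_congr
        intro P _
        constructor
        · rintro ⟨h3, h4⟩ p hp
          rw [Finset.mem_insert] at hp
          by_cases hp0 : p = none
          · subst hp0
            simp only [if_true]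
            show (up P).coeff 4 = _
            rw [coeff_up, h4]
          · simp only [if_neg hp0]
            exact h3 p (hp.resolve_left hp0)
        · intro h3
          constructor
          · intro p hp
            have := h3 p (Finset.mem_insert_of_mem hp)
            have hp0 : p ≠ none := fun h => hn (h ▸ hp)
            simp only [if_neg hp0] at this
            exact this
          · have := h3 none (Finset.mem_insert_self _ _)
            simp only [if_true] at this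
            apply (algebraMap K (Om K)).injective
            rw [← coeff_up]
            exact this
      rw [he, hi, hcard, hT.2]
      have : 4 + 1 - (l + 1) = 4 - l := by omega
      rw [this, show 3 + 1 - l = 4 - l by omega]
      push_cast
      ring
  rw [Finset.sum_congr rfl h1]
  simp only [Finset.sum_range_succ, Finset.sum_range_zero]
  rw [MS_zero, MS_rat_one, MS_rat_ge none (le_refl 2), MS_rat_ge none (by norm_num : 2 ≤ 3),
    MS_rat_ge none (by norm_num : 2 ≤ 4)]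
  norm_num
  ring

theorem m9_Q4_total (h2 : (2 : K) ≠ 0) :
    ((Q4 K).card : ℤ) = (Fintype.card K : ℤ) ^ 10 * G2 K := by
  have h : ((Q4 K).card : ℤ) =
      ∑ x ∈ m9V K, if Cop x.2.2.1 x.2.2.2 then (1 : ℤ) else 0 := by
    unfold Q4
    rw [Finset.card_filter]
    push_cast
    have h0 := m9_sum_change h2 (fun c => if NoSq (up2 (quart c)) then (1 : ℤ) else 0)
    unfold m9V at h0 ⊢
    rw [h0]
    apply Finset.sum_congr rfl
    intro x hx
    simp only [m9_noSq h2 (show x ∈ m9V K from hx)]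
  rw [h]
  unfold m9V
  rw [Finset.sum_product]
  have h4 : ∀ x ∈ V K 1, (∑ y ∈ V K 2 ×ˢ V K 3 ×ˢ V K 4,
      if Cop (x, y).2.2.1 (x, y).2.2.2 then (1 : ℤ) else 0) =
      (Fintype.card K : ℤ) ^ 8 * G2 K := by
    intro x _
    rw [Finset.sum_product]
    have h5 : ∀ y ∈ V K 2, (∑ z ∈ V K 3 ×ˢ V K 4,
      if Cop (x, (y, z)).2.2.1 (x, (y, z)).2.2.2 then (1 : ℤ) else 0) =
      (Fintype.card K : ℤ) ^ 5 * G2 K := fun y _ => m9_cop_total
    rw [Finset.sum_congr rfl h5, Finset.sum_const, card_V, nsmul_eq_mul]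
    push_cast
    ring
  rw [Finset.sum_congr rfl h4, Finset.sum_const, card_V, nsmul_eq_mul]
  push_cast
  ring

/-! ### the singular point at infinity -/

theorem m9_sing_zero {c : K[X] × K[X] × K[X] × K[X]} (hc : c ∈ m9V K) :
    Sing 1 4 (up2 (quart c)) none 0 ↔
      c.2.2.1.coeff 3 = 0 ∧ c.2.2.2.coeff 4 = 0 ∧ c.2.2.2.coeff 3 = 0 := by
  rw [m9_mem] at hc
  have hw : WP 1 4 (up2 (quart c)) := WP_up2 (WP_quart hc.1 hc.2.1 hc.2.2.1 hc.2.2.2)
  have h := sing_iff (s := (0 : (Om K)[X])) (p := none) hw (le_refl 1) (by norm_num) (by simp)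
  rw [ev_zero] at h
  rw [h, up2_quart]
  have h0 : (quart (up c.1, up c.2.1, up c.2.2.1, up c.2.2.2)).eval 0 = up c.2.2.2 := by
    unfold quart
    simp
  have h1 : (quart (up c.1, up c.2.1, up c.2.2.1, up c.2.2.2)).derivative.eval 0 =
      up c.2.2.1 := by
    unfold quart
    simp
  rw [h0, h1]
  show (up c.2.2.1).coeff 3 = 0 ∧ ((up c.2.2.2).coeff 4 = 0 ∧ (up c.2.2.2).coeff 3 = 0) ↔ _
  rw [coeff_up, coeff_up, coeff_up, map_eq_zero, map_eq_zero, map_eq_zero]

theorem m9_lin_sum (h2 : (2 : K) ≠ 0) {b : K} (hb : b ≠ 0) (x : K) :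
    ∑ a : K, (if 2 * a * b + x = 0 then (1 : ℤ) else 0) = 1 := by
  rw [Finset.sum_eq_single (-x / (2 * b))]
  · rw [if_pos]
    field_simp
    ring
  · intro a _ ha
    rw [if_neg]
    intro h
    apply ha
    field_simp
    linear_combination h
  · intro h
    exact absurd (Finset.mem_univ _) h

omit [Fintype K] in
theorem m9_coef (a1 a0 b2 b1 b0 : K) (A B : K[X]) :
    (m9q (C a1 * X + C a0, C b2 * X ^ 2 + C b1 * X + C b0, A, B)).2.2.1.coeff 3 =
      2 * a1 * b2 + A.coeff 3 ∧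
    (m9q (C a1 * X + C a0, C b2 * X ^ 2 + C b1 * X + C b0, A, B)).2.2.2.coeff 4 =
      b2 ^ 2 + B.coeff 4 ∧
    (m9q (C a1 * X + C a0, C b2 * X ^ 2 + C b1 * X + C b0, A, B)).2.2.2.coeff 3 =
      2 * b1 * b2 + B.coeff 3 := by
  have e1 : 2 * (C a1 * X + C a0) * (C b2 * X ^ 2 + C b1 * X + C b0) =
      C (2 * a1 * b2) * X ^ 3 + C (2 * (a1 * b1 + a0 * b2)) * X ^ 2
      + C (2 * (a1 * b0 + a0 * b1)) * X + C (2 * (a0 * b0)) := by
    simp only [C_mul, C_add]
    rw [show (C (2 : K) : K[X]) = 2 from C_ofNat 2]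
    ring
  have e2 : (C b2 * X ^ 2 + C b1 * X + C b0) ^ 2 =
      C (b2 ^ 2) * X ^ 4 + C (2 * b1 * b2) * X ^ 3 + C (b1 ^ 2 + 2 * b2 * b0) * X ^ 2
      + C (2 * b1 * b0) * X + C (b0 ^ 2) := by
    simp only [C_mul, C_add, C_pow]
    rw [show (C (2 : K) : K[X]) = 2 from C_ofNat 2]
    ring
  unfold m9q
  simp only [e1, e2, coeff_add, coeff_C_mul_X_pow, coeff_C_mul_X, coeff_C]
  norm_num

theorem m9_inner (h2 : (2 : K) ≠ 0) (b2 : K) :
    ∑ a1 : K, ∑ b1 : K, ∑ x ∈ V K 3 ×ˢ V K 4,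
      (if Cop x.1 x.2 ∧ (2 * a1 * b2 + x.1.coeff 3 = 0 ∧ b2 ^ 2 + x.2.coeff 4 = 0 ∧
        2 * b1 * b2 + x.2.coeff 3 = 0) then (1 : ℤ) else 0) =
      if b2 = 0 then 0 else (Fintype.card K : ℤ) ^ 7 * ((Fintype.card K : ℤ) - 1) := by
  by_cases hb : b2 = 0
  · rw [if_pos hb]
    apply Finset.sum_eq_zero
    intro a1 _
    apply Finset.sum_eq_zero
    intro b1 _
    apply Finset.sum_eq_zero
    rintro ⟨A, B⟩ _
    rw [if_neg]
    rintro ⟨h1, h3, h4, _⟩
    subst hb
    apply h1 none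
    constructor
    · show (up A).coeff 3 = 0
      rw [coeff_up, map_eq_zero]
      simpa using h3
    · show (up B).coeff 4 = 0
      rw [coeff_up, map_eq_zero]
      simpa using h4
  · rw [if_neg hb]
    have hsw : ∀ a1 : K, ∑ b1 : K, ∑ x ∈ V K 3 ×ˢ V K 4,
      (if Cop x.1 x.2 ∧ (2 * a1 * b2 + x.1.coeff 3 = 0 ∧ b2 ^ 2 + x.2.coeff 4 = 0 ∧
        2 * b1 * b2 + x.2.coeff 3 = 0) then (1 : ℤ) else 0) =
      ∑ x ∈ V K 3 ×ˢ V K 4, ∑ b1 : K,
      (if Cop x.1 x.2 ∧ (2 * a1 * b2 + x.1.coeff 3 = 0 ∧ b2 ^ 2 + x.2.coeff 4 = 0 ∧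
        2 * b1 * b2 + x.2.coeff 3 = 0) then (1 : ℤ) else 0) := fun a1 => Finset.sum_comm
    rw [Finset.sum_congr rfl (fun a1 _ => hsw a1), Finset.sum_comm]
    have hb2 : -b2 ^ 2 ≠ 0 := by
      rw [neg_ne_zero]; exact pow_ne_zero 2 hb
    rw [← m9_cop_lead hb2]
    have hin : ∀ x ∈ V K 3 ×ˢ V K 4, ∑ a1 : K, ∑ b1 : K,
      (if Cop x.1 x.2 ∧ (2 * a1 * b2 + x.1.coeff 3 = 0 ∧ b2 ^ 2 + x.2.coeff 4 = 0 ∧
        2 * b1 * b2 + x.2.coeff 3 = 0) then (1 : ℤ) else 0) =
        if x.2.coeff 4 = -b2 ^ 2 then (if Cop x.1 x.2 then (1 : ℤ) else 0) else 0 := by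
      intro x _
      by_cases h4 : x.2.coeff 4 = -b2 ^ 2
      · rw [if_pos h4]
        by_cases hc : Cop x.1 x.2
        · rw [if_pos hc]
          have h5 : b2 ^ 2 + x.2.coeff 4 = 0 := by rw [h4]; ring
          have h6 : ∀ a1 b1 : K, (if Cop x.1 x.2 ∧ (2 * a1 * b2 + x.1.coeff 3 = 0 ∧
              b2 ^ 2 + x.2.coeff 4 = 0 ∧ 2 * b1 * b2 + x.2.coeff 3 = 0) then (1 : ℤ) else 0) =
              (if 2 * a1 * b2 + x.1.coeff 3 = 0 then (1 : ℤ) else 0) *
              (if 2 * b1 * b2 + x.2.coeff 3 = 0 then (1 : ℤ) else 0) := by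
            intro a1 b1
            by_cases h7 : 2 * a1 * b2 + x.1.coeff 3 = 0 <;>
            by_cases h8 : 2 * b1 * b2 + x.2.coeff 3 = 0 <;> simp [hc, h5, h7, h8]
          simp only [h6]
          simp only [← Finset.mul_sum]
          rw [m9_lin_sum h2 hb]
          simp only [mul_one]
          rw [m9_lin_sum h2 hb]
        · rw [if_neg hc]
          apply Finset.sum_eq_zero
          intro a1 _
          apply Finset.sum_eq_zero
          intro b1 _
          rw [if_neg]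
          exact fun h => hc h.1
      · rw [if_neg h4]
        apply Finset.sum_eq_zero
        intro a1 _
        apply Finset.sum_eq_zero
        intro b1 _
        rw [if_neg]
        rintro ⟨_, _, h, _⟩
        exact h4 (by linear_combination h)
    rw [Finset.sum_congr rfl hin, Finset.sum_product, Finset.sum_product]
    apply Finset.sum_congr rfl
    intro A _
    rw [Finset.sum_filter]

theorem m9_count_zero (h2 : (2 : K) ≠ 0) :
    ((((Q4 K).filter (fun c => Sing 1 4 (up2 (quart c)) none 0)).card : ℕ) : ℤ) =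
      (Fintype.card K : ℤ) ^ 9 * ((Fintype.card K : ℤ) - 1) ^ 2 := by
  rw [m9_Q4_card h2]
  have h1 : ∀ x ∈ m9V K, (if Cop x.2.2.1 x.2.2.2 ∧ Sing 1 4 (up2 (quart (m9q x))) none 0
      then (1 : ℤ) else 0) =
      if Cop x.2.2.1 x.2.2.2 ∧ ((m9q x).2.2.1.coeff 3 = 0 ∧ (m9q x).2.2.2.coeff 4 = 0 ∧
        (m9q x).2.2.2.coeff 3 = 0) then (1 : ℤ) else 0 := by
    intro x hx
    simp only [m9_sing_zero (m9q_mem hx)]
  rw [Finset.sum_congr rfl h1]
  unfold m9V
  rw [Finset.sum_product, sum_V1]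
  have h3 : ∀ a1 a0 : K, (∑ y ∈ V K 2 ×ˢ V K 3 ×ˢ V K 4,
      if Cop (C a1 * X + C a0, y).2.2.1 (C a1 * X + C a0, y).2.2.2 ∧
        ((m9q (C a1 * X + C a0, y)).2.2.1.coeff 3 = 0 ∧
        (m9q (C a1 * X + C a0, y)).2.2.2.coeff 4 = 0 ∧
        (m9q (C a1 * X + C a0, y)).2.2.2.coeff 3 = 0) then (1 : ℤ) else 0) =
      ∑ b2 : K, ∑ b1 : K, ∑ _b0 : K, ∑ x ∈ V K 3 ×ˢ V K 4,
      (if Cop x.1 x.2 ∧ (2 * a1 * b2 + x.1.coeff 3 = 0 ∧ b2 ^ 2 + x.2.coeff 4 = 0 ∧
        2 * b1 * b2 + x.2.coeff 3 = 0) then (1 : ℤ) else 0) := by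
    intro a1 a0
    rw [Finset.sum_product, sum_V2]
    apply Finset.sum_congr rfl
    intro b2 _
    apply Finset.sum_congr rfl
    intro b1 _
    apply Finset.sum_congr rfl
    intro b0 _
    apply Finset.sum_congr rfl
    rintro ⟨A, B⟩ _
    obtain ⟨c1, c2, c3⟩ := m9_coef a1 a0 b2 b1 b0 A B
    rw [c1, c2, c3]
  simp only [h3]
  simp only [Finset.sum_const, Finset.card_univ, nsmul_eq_mul, ← Finset.mul_sum]
  have h4 : ∑ a1 : K, ∑ b2 : K, ∑ b1 : K, ∑ x ∈ V K 3 ×ˢ V K 4,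
      (if Cop x.1 x.2 ∧ (2 * a1 * b2 + x.1.coeff 3 = 0 ∧ b2 ^ 2 + x.2.coeff 4 = 0 ∧
        2 * b1 * b2 + x.2.coeff 3 = 0) then (1 : ℤ) else 0) =
      ((Fintype.card K : ℤ) - 1) * ((Fintype.card K : ℤ) ^ 7 * ((Fintype.card K : ℤ) - 1)) := by
    rw [Finset.sum_comm, Finset.sum_congr rfl (fun b2 _ => m9_inner h2 b2)]
    have h5 : ∀ b2 : K, (if b2 = 0 then 0 else
        (Fintype.card K : ℤ) ^ 7 * ((Fintype.card K : ℤ) - 1)) =
        (Fintype.card K : ℤ) ^ 7 * ((Fintype.card K : ℤ) - 1) -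
        (if b2 = 0 then (Fintype.card K : ℤ) ^ 7 * ((Fintype.card K : ℤ) - 1) else 0) := by
      intro b2
      split_ifs <;> ring
    simp only [h5, Finset.sum_sub_distrib, Finset.sum_const, Finset.card_univ, nsmul_eq_mul,
      Finset.sum_ite_eq', Finset.mem_univ, if_true]
    ring
  rw [h4]
  ring

/-! ### translation -/

/-- translation of the quartic by the section `s` -/
def m9t (s : K[X]) (c : K[X] × K[X] × K[X] × K[X]) : K[X] × K[X] × K[X] × K[X] :=
  (((quart c).comp (X + C s)).coeff 3, ((quart c).comp (X + C s)).coeff 2,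
    ((quart c).comp (X + C s)).coeff 1, ((quart c).comp (X + C s)).coeff 0)

omit [Fintype K] in
theorem m9t_quart {s : K[X]} (hs : s.natDegree ≤ 1) {c : K[X] × K[X] × K[X] × K[X]}
    (hc : WP 1 4 (quart c)) : quart (m9t s c) = (quart c).comp (X + C s) :=
  (eq_quart (WP_comp hc hs)).symm

theorem m9t_mem {s : K[X]} (hs : s.natDegree ≤ 1) {c : K[X] × K[X] × K[X] × K[X]}
    (hc : c ∈ Q4 K) : m9t s c ∈ Q4 K := by
  rw [mem_Q4] at hc ⊢
  rw [m9t_quart hs hc.1]
  refine ⟨WP_comp hc.1 hs, ?_⟩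
  rw [up2_comp, noSq_comp (WP_up2 hc.1) (by rw [natDegree_up]; exact hs)]
  exact hc.2

theorem m9t_inv {s t : K[X]} (hs : s.natDegree ≤ 1) (ht : t.natDegree ≤ 1) (hst : s + t = 0)
    {c : K[X] × K[X] × K[X] × K[X]} (hc : c ∈ Q4 K) : m9t t (m9t s c) = c := by
  have h1 : WP 1 4 (quart (m9t s c)) := (mem_Q4.mp (m9t_mem hs hc)).1
  apply quart_injective
  rw [m9t_quart ht h1, m9t_quart hs (mem_Q4.mp hc).1, comp_assoc]
  have : ((X + C s : K[X][X])).comp (X + C t) = X := by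
    simp only [add_comp, X_comp, C_comp]
    rw [add_assoc, ← C_add, add_comm t s, hst, C_0, add_zero]
  rw [this, comp_X]

theorem m9_trans (a : K) :
    ((Q4 K).filter (fun c => Sing 1 4 (up2 (quart c)) none (algebraMap K (Om K) a))).card =
    ((Q4 K).filter (fun c => Sing 1 4 (up2 (quart c)) none 0)).card := by
  have hd : ∀ b : K, (C b * X : K[X]).natDegree ≤ 1 := fun b => (natDegree_C_mul_le _ _).trans natDegree_X_le
  have hS : ∀ (b : K) (c : K[X] × K[X] × K[X] × K[X]) (v : Om K), c ∈ Q4 K →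
      (Sing 1 4 (up2 (quart (m9t (C b * X) c))) none v ↔
        Sing 1 4 (up2 (quart c)) none (v + algebraMap K (Om K) b)) := by
    intro b c v hc
    have hw := (mem_Q4.mp hc).1
    rw [m9t_quart (hd b) hw, up2_comp, sing_comp (WP_up2 hw) (le_refl 1) (by norm_num)
      (by rw [natDegree_up]; exact hd b)]
    have : ev 1 (up (C b * X)) (none : P1 K) = algebraMap K (Om K) b := by
      show (up (C b * X)).coeff 1 = _
      rw [coeff_up]
      simp
    rw [this]
  apply Finset.card_nbij' (m9t (C a * X)) (m9t (C (-a) * X))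
  · intro c hc
    rw [Finset.mem_coe, Finset.mem_filter] at hc ⊢
    refine ⟨m9t_mem (hd a) hc.1, ?_⟩
    rw [hS a c 0 hc.1, zero_add]
    exact hc.2
  · intro c hc
    rw [Finset.mem_coe, Finset.mem_filter] at hc ⊢
    refine ⟨m9t_mem (hd (-a)) hc.1, ?_⟩
    rw [hS (-a) c _ hc.1, map_neg, add_neg_cancel]
    exact hc.2
  · intro c hc
    rw [Finset.mem_coe, Finset.mem_filter] at hc
    exact m9t_inv (hd a) (hd (-a)) (by rw [C_neg]; ring) hc.1
  · intro c hc
    rw [Finset.mem_coe, Finset.mem_filter] at hc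
    exact m9t_inv (hd (-a)) (hd a) (by rw [C_neg]; ring) hc.1

theorem m9_bad_iff {c : K[X] × K[X] × K[X] × K[X]} (hc : c ∈ Q4 K) :
    (if Bad 1 4 (up2 (quart c)) none then (1 : ℤ) else 0) =
      ∑ a : K, if Sing 1 4 (up2 (quart c)) none (algebraMap K (Om K) a) then (1 : ℤ) else 0 := by
  obtain ⟨hw, hq⟩ := mem_Q4.mp hc
  by_cases hb : Bad 1 4 (up2 (quart c)) none
  · rw [if_pos hb]
    obtain ⟨v, hv⟩ := hb
    have h1 := sing_frob hw hv
    have h2 : v ^ Fintype.card K = v := sing_unique4 (WP_up2 hw) hq h1 hv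
    obtain ⟨a, rfl⟩ := pow_card_eq_iff.mp h2
    rw [Finset.sum_eq_single a]
    · rw [if_pos hv]
    · intro b _ hb
      rw [if_neg]
      intro h
      exact hb ((algebraMap K (Om K)).injective (sing_unique4 (WP_up2 hw) hq h hv))
    · intro h
      exact absurd (Finset.mem_univ _) h
  · rw [if_neg hb]
    symm
    apply Finset.sum_eq_zero
    intro a _
    rw [if_neg]
    exact fun h => hb ⟨_, h⟩

theorem m9_bad_card (h2 : (2 : K) ≠ 0) :
    ∑ c ∈ Q4 K, (if Bad 1 4 (up2 (quart c)) none then (1 : ℤ) else 0) =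
      (Fintype.card K : ℤ) ^ 10 * ((Fintype.card K : ℤ) - 1) ^ 2 := by
  rw [Finset.sum_congr rfl (fun c hc => m9_bad_iff hc), Finset.sum_comm]
  have h3 : ∀ a : K, ∑ c ∈ Q4 K, (if Sing 1 4 (up2 (quart c)) none (algebraMap K (Om K) a)
      then (1 : ℤ) else 0) = (Fintype.card K : ℤ) ^ 9 * ((Fintype.card K : ℤ) - 1) ^ 2 := by
    intro a
    rw [← m9_count_zero h2, ← m9_trans a, Finset.card_filter]
    push_cast
    rfl
  simp only [h3, Finset.sum_const, Finset.card_univ, nsmul_eq_mul]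
  ring

end

section
variable (K : Type*) [Field K] [Fintype K]

/-- M9 -/
theorem SV_zero (h2 : (2 : K) ≠ 0) : SV K 0 = (Fintype.card K : ℤ) ^ 10 * G2 K := by
  rw [← m9_Q4_total h2]
  unfold SV SVG
  refine Eq.trans (b := ∑ c ∈ Q4 K, (1 : ℤ)) (Finset.sum_congr rfl ?_) (by simp)
  intro c _
  rw [Finset.sum_filter, sum_Stab_zero, if_pos, mu_empty]
  exact ⟨fun p hp => absurd hp (Finset.notMem_empty _), trivial⟩

theorem m9_mu_rat (r : Option K) : mu K {upP r} = -1 := muG_singleton (frob_upP r)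

theorem m9_SV_split :
    SV K 1 = ∑ r : Option K, SVG K 1 (fun _ T => T = {upP r}) := by
  unfold SV SVG
  rw [Finset.sum_comm]
  apply Finset.sum_congr rfl
  intro c _
  rw [Finset.sum_filter, sum_Stab_one]
  apply Finset.sum_congr rfl
  intro r _
  rw [Finset.sum_filter, sum_Stab_one, Finset.sum_eq_single r]
  · simp
  · intro r' _ hr'
    rw [if_neg]
    rintro ⟨_, h⟩
    exact hr' (upP_injective (Finset.singleton_injective h))
  · intro h
    exact absurd (Finset.mem_univ _) h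

theorem m9_SVG_none (h2 : (2 : K) ≠ 0) :
    SVG K 1 (fun _ T => T = {upP (none : Option K)}) =
      - ((Fintype.card K : ℤ) ^ 10 * ((Fintype.card K : ℤ) - 1) ^ 2) := by
  rw [← m9_bad_card h2]
  unfold SVG
  rw [← Finset.sum_neg_distrib]
  apply Finset.sum_congr rfl
  intro c _
  rw [Finset.sum_filter, sum_Stab_one, Finset.sum_eq_single none]
  · rw [m9_mu_rat]
    have hup : (upP (none : Option K) : P1 K) = none := rfl
    simp only [hup, Finset.mem_singleton, forall_eq, and_true]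
    split_ifs <;> simp
  · intro r' _ hr'
    rw [if_neg]
    rintro ⟨_, h⟩
    exact hr' (upP_injective (Finset.singleton_injective h))
  · intro h
    exact absurd (Finset.mem_univ _) h

/-- M9 -/
theorem SV_one (h2 : (2 : K) ≠ 0) : SV K 1 = - (Fintype.card K : ℤ) ^ 9 * G2 K := by
  rw [m9_SV_split]
  have h3 : ∀ r : Option K, SVG K 1 (fun _ T => T = {upP r}) =
      SVG K 1 (fun _ T => T = {upP (none : Option K)}) := by
    intro r
    apply SVG_sym r
    intro f T _ _ _ _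
    have hup : (upP (none : Option K) : P1 K) = none := rfl
    constructor
    · intro h
      subst h
      rw [hup, Finset.image_singleton, symP_self]
    · intro h
      have h4 : T.image (symP (upP r)) = ({upP r} : Finset (P1 K)).image (symP (upP r)) := by
        rw [h, hup, Finset.image_singleton, symP_self]
      exact Finset.image_injective (symP_bijective (upP r)).injective h4
  simp only [h3, m9_SVG_none K h2, Finset.sum_const, Finset.card_univ, nsmul_eq_mul,
    Fintype.card_option]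
  unfold G2
  push_cast
  ring

end

end
end Pool.Agent.Helper19.DP1
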