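import Pool.Agent.Helper19.DP1.M8
import Pool.Agent.Helper19.DP1.M9
import Pool.Agent.Helper19.DP1.M10
import Pool.Agent.Helper19.DP1.M11
import Pool.Agent.Helper19.DP1.M12
import Pool.Agent.Helper19.DP1.M13
import Pool.Agent.Helper19.DP1.M14
import Pool.Agent.Helper19.DP1.M15
import Pool.Agent.Helper19.DP1.M16
import Pool.Agent.Helper19.DP1.M17
import Pool.Agent.Helper19.DP1.M18
import Pool.Agent.Helper19.DP1.M19
import Pool.Agent.Helper19.DP1.M20
import Pool.Agent.Helper19.DP1.M21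
import Pool.Agent.Helper19.DP1.M22
import Pool.Agent.Helper19.DP1.M23
import Pool.Agent.Helper19.DP1.M24
import Pool.Agent.Helper19.DP1.M25
import Pool.Agent.Helper19.DP1.M26

/-! M27: the number of smooth quartics. -/

namespace Pool.Agent.Helper19.DP1
open Polynomial Classical
noncomputable section

section
variable (K : Type*) [Field K] [Fintype K]

/-- splitting of the sums according to a condition -/
theorem m27_split (l : ℕ) (G : K[X][X] → Finset (P1 K) → Prop) :
    SV K l = SVG K l G + SVG K l (fun f T => ¬ G f T) := by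
  unfold SV SVG
  rw [← Finset.sum_add_distrib]
  apply Finset.sum_congr rfl
  intro c _
  have h := (Finset.sum_filter_add_sum_filter_not ((Stab K l).filter
    (fun T => (∀ p ∈ T, Bad 1 4 (up2 (quart c)) p))) (fun T => G (quart c) T) (fun T => mu K T))
  rw [Finset.filter_filter, Finset.filter_filter] at h
  refine Eq.trans (Eq.trans ?_ h.symm) (congrArg₂ (· + ·) ?_ ?_)
  · apply Finset.sum_congr _ (fun _ _ => rfl)
    ext T
    simp only [Finset.mem_filter, and_true]
  · apply Finset.sum_congr _ (fun _ _ => rfl)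
    ext T
    simp only [Finset.mem_filter]
  · apply Finset.sum_congr _ (fun _ _ => rfl)
    ext T
    simp only [Finset.mem_filter]

theorem m27_three (h2 : (2 : K) ≠ 0) :
    SV K 3 = - (Fintype.card K : ℤ) ^ 4 * ((Fintype.card K : ℤ) - 1) * G2 K -
      (Fintype.card K : ℤ) ^ 2 * G2 K *
        (((Fintype.card K : ℤ) - 1) * ((Fintype.card K : ℤ) - 2) ^ 2) := by
  rw [m27_split K 3 (fun f T => Coll (up2 f) T), SV_three_coll K h2]
  have h := SV_three_nc_aux K h2
  have h3 : ∑ σ : Equiv.Perm (Fin 3), (Equiv.Perm.sign σ : ℤ) * (Set.ncard (Fr K σ) : ℤ) *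
        (Ec K σ : ℤ) = (Fintype.card K : ℤ) ^ 2 * G2 K *
        ∑ σ : Equiv.Perm (Fin 3), (Equiv.Perm.sign σ : ℤ) * (Ec K σ : ℤ) := by
    rw [Finset.mul_sum]
    apply Finset.sum_congr rfl
    intro σ _
    rw [ncard_Fr K h2 σ]
    ring
  rw [h3, sum_Ec K h2] at h
  linarith

theorem m27_two (h2 : (2 : K) ≠ 0) :
    SV K 2 = (Fintype.card K : ℤ) ^ 3 * ((Fintype.card K : ℤ) - 1) *
      ((Fintype.card K : ℤ) ^ 2 - (Fintype.card K : ℤ) + 1) * G2 K := by
  have h := SV_two_aux K h2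
  rw [PC3_eq K h2] at h
  have h1 : ((Fintype.card K : ℤ) - 1) ≠ 0 := by
    have : (1 : ℤ) < Fintype.card K := by exact_mod_cast Fintype.one_lt_card
    linarith
  apply mul_left_cancel₀ h1
  rw [h]; ring

theorem m27_four (h2 : (2 : K) ≠ 0) :
    SV K 4 = ((Fintype.card K : ℤ) + 1) * ((Fintype.card K : ℤ) ^ 2 *
        ((Fintype.card K : ℤ) * ((Fintype.card K : ℤ) - 1) ^ 2)) +
      ((Fintype.card K : ℤ) + 1) * (- (Fintype.card K : ℤ) ^ 2 *
        ((Fintype.card K : ℤ) * ((Fintype.card K : ℤ) - 1) ^ 2 *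
      (-2 * (Fintype.card K : ℤ) ^ 2 + 4 * (Fintype.card K : ℤ) - 1))) := by
  rw [m27_split K 4 (Gen K), SV_four_gen_sym K h2, SV_four_gen_inf K h2, PC6_eq h2,
    SV_four_col_sym K h2, SV_four_col_inf K h2, PC7_eq h2]

theorem m27_five (h2 : (2 : K) ≠ 0) :
    SV K 5 = ((Fintype.card K : ℤ) + 1) * (- (Fintype.card K : ℤ) ^ 2 *
      (- (Fintype.card K : ℤ) * ((Fintype.card K : ℤ) - 1) ^ 4)) := by
  rw [SV_five_sym K h2, SV_five_inf K h2, PC8_eq K h2]

theorem m27_six (h2 : (2 : K) ≠ 0) :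
    SV K 6 = (Fintype.card K : ℤ) ^ 3 * ((Fintype.card K : ℤ) - 1) * G2 K := by
  have h := SV_six_aux K h2
  rw [sum_Qu K h2] at h
  linarith

/-- M27 -/
theorem card_smooth_quart (h2 : (2 : K) ≠ 0) :
    (((Q4 K).filter (fun c => ∀ p, ¬ Bad 1 4 (up2 (quart c)) p)).card : ℤ) =
      (Fintype.card K : ℤ) ^ 2 * G2 K * ((Fintype.card K : ℤ) ^ 8 - (Fintype.card K : ℤ) ^ 7 +
        ((Fintype.card K : ℤ) - 1) ^ 2 *
          ((Fintype.card K : ℤ) ^ 2 - 2 * (Fintype.card K : ℤ) + 7)) := by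
  have hO : (2 : Om K) ≠ 0 := by
    have := (map_ne_zero (algebraMap K (Om K))).mpr h2
    rwa [map_ofNat] at this
  have h1 : ∀ c ∈ Q4 K, ∑ l ∈ Finset.range 7,
      ∑ T ∈ (Stab K l).filter (fun T => (∀ p ∈ T, Bad 1 4 (up2 (quart c)) p) ∧ True), mu K T =
      if ∀ p, ¬ Bad 1 4 (up2 (quart c)) p then 1 else 0 := by
    intro c hc
    obtain ⟨hf, hq⟩ := mem_Q4.mp hc
    obtain ⟨h3, h4⟩ := quart_bad_card hO (WP_up2 hf) hq
    simp only [and_true]
    exact m8_one hf h3 h4
  have h4 : (((Q4 K).filter (fun c => ∀ p, ¬ Bad 1 4 (up2 (quart c)) p)).card : ℤ) =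
      ∑ l ∈ Finset.range 7, SV K l := by
    rw [Finset.card_filter]
    push_cast
    rw [← Finset.sum_congr rfl h1, Finset.sum_comm]
    refine Finset.sum_congr rfl (fun l _ => ?_)
    unfold SV SVG
    refine Finset.sum_congr rfl (fun c _ => ?_)
    apply Finset.sum_congr _ (fun _ _ => rfl)
    ext T
    simp only [Finset.mem_filter, and_true]
  rw [h4, Finset.sum_range_succ, Finset.sum_range_succ, Finset.sum_range_succ, Finset.sum_range_succ,
    Finset.sum_range_succ, Finset.sum_range_succ, Finset.sum_range_succ, Finset.sum_range_zero,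
    SV_zero K h2, SV_one K h2, m27_two K h2, m27_three K h2, m27_four K h2, m27_five K h2,
    m27_six K h2]
  unfold G2
  ring

end

end

end Pool.Agent.Helper19.DP1
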