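import Pool.Agent.Helper19.DP1.FCount
import Pool.Agent.Helper19.DP1.M27

/-! The average number of lines. -/

namespace Pool.Agent.Helper19.DP1

noncomputable section

section
variable (K : Type*) [Field K] [Fintype K]

/-- `A_1`: the sum of the numbers of lines over the isomorphism classes, weighted by `1/#Aut`,
divided by the sum of the weights. -/
def A1 : ℚ := wsum K (fun a => ((lines (sext a.1)).ncard : ℚ)) / wsum K (fun _ => 1)

variable {K}

theorem two_ne_of_odd (hq : Odd (Fintype.card K)) : (2 : K) ≠ 0 := by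
  intro h
  haveI : CharP K 2 := CharTwo.of_one_ne_zero_of_two_eq_zero one_ne_zero h
  have h1 : (ringChar K) = 2 := ringChar.eq K 2 ▸ rfl
  have h2 : 2 ∣ Fintype.card K := by
    have := (CharP.cast_eq_zero_iff K 2 (Fintype.card K)).1 (Nat.cast_card_eq_zero K)
    exact this
  exact (Nat.not_even_iff_odd.mpr hq) (even_iff_two_dvd.mpr h2)

theorem sum_one (h2 : (2 : K) ≠ 0) :
    ((C3s K).card : ℤ) = (Fintype.card K : ℤ) ^ 11 * G2 K := card_smooth_cub K h2

theorem card_G3 (h2 : (2 : K) ≠ 0) :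
    ((G3 K).card : ℤ) = G2 K * ((Fintype.card K : ℤ) ^ 8 - (Fintype.card K : ℤ) ^ 7 +
        ((Fintype.card K : ℤ) - 1) ^ 2 *
          ((Fintype.card K : ℤ) ^ 2 - 2 * (Fintype.card K : ℤ) + 7)) := by
  have h := transfer K h2
  have h1 := card_smooth_quart K h2
  rw [← h] at h1
  push_cast at h1
  have h3 : ((Fintype.card K : ℤ)) ^ 2 ≠ 0 := by
    have : 0 < (Fintype.card K : ℤ) := by exact_mod_cast Fintype.card_pos
    positivity
  apply mul_left_cancel₀ h3
  rw [← mul_assoc, ← h1]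
  rfl

theorem wsum_const (h2 : (2 : K) ≠ 0) : wsum K (fun _ => 1) = (Fintype.card K : ℚ) ^ 8 := by
  rw [wsum_eq _ (fun _ _ _ => rfl), sum_surf h2 _ (fun _ => 1) (fun _ => rfl)]
  have h1 : (∑ _x ∈ C3s K, (1 : ℚ)) = ((C3s K).card : ℤ) := by
    rw [Finset.sum_const, nsmul_eq_mul, mul_one]; rfl
  have h3 : ((Nat.card (subGroup K) : ℕ) : ℚ) = ((Nat.card (subGroup K) : ℤ) : ℚ) := by norm_cast
  rw [h1, h3, sum_one h2, card_subGroup K]
  unfold G2
  have hq : (1 : ℚ) < Fintype.card K := by exact_mod_cast Fintype.one_lt_card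
  have q0 : (Fintype.card K : ℚ) ≠ 0 := by positivity
  have q1 : (Fintype.card K : ℚ) - 1 ≠ 0 := by linarith
  have q2 : (Fintype.card K : ℚ) + 1 ≠ 0 := by positivity
  push_cast
  have e1 : (Fintype.card K : ℚ) ^ 2 - 1 = ((Fintype.card K : ℚ) - 1) * ((Fintype.card K : ℚ) + 1) := by
    ring
  have e2 : (Fintype.card K : ℚ) ^ 2 - (Fintype.card K : ℚ) =
      (Fintype.card K : ℚ) * ((Fintype.card K : ℚ) - 1) := by ring
  rw [e1, e2]
  field_simp

theorem wsum_lines (h2 : (2 : K) ≠ 0) : wsum K (fun a => ((lines (sext a.1)).ncard : ℚ)) =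
    (Fintype.card K : ℚ) ^ 8 - (Fintype.card K : ℚ) ^ 7 + ((Fintype.card K : ℚ) - 1) ^ 2 *
      ((Fintype.card K : ℚ) ^ 2 - 2 * (Fintype.card K : ℚ) + 7) := by
  rw [wsum_eq _ (fun a a' h => by
      show ((lines (sext a.1)).ncard : ℚ) = ((lines (sext a'.1)).ncard : ℚ)
      rw [lines_ncard_of_iso h]),
    sum_surf h2 _ (fun x => ((Ln x).card : ℚ)) (fun a => by
      show ((lines (sext a.1)).ncard : ℚ) = _
      rw [lines_ncard])]
  have h1 : (∑ x ∈ C3s K, ((Ln x).card : ℚ)) = (Fintype.card K : ℚ) ^ 3 * ((G3 K).card : ℤ) := by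
    have := sum_Ln (K := K)
    rw [Int.cast_natCast]
    exact_mod_cast this
  have h3 : ((Nat.card (subGroup K) : ℕ) : ℚ) = ((Nat.card (subGroup K) : ℤ) : ℚ) := by norm_cast
  rw [h1, h3, card_G3 h2, card_subGroup K]
  unfold G2
  have hq : (1 : ℚ) < Fintype.card K := by exact_mod_cast Fintype.one_lt_card
  have q0 : (Fintype.card K : ℚ) ≠ 0 := by positivity
  have q1 : (Fintype.card K : ℚ) - 1 ≠ 0 := by linarith
  have q2 : (Fintype.card K : ℚ) + 1 ≠ 0 := by positivity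
  push_cast
  have e1 : (Fintype.card K : ℚ) ^ 2 - 1 = ((Fintype.card K : ℚ) - 1) * ((Fintype.card K : ℚ) + 1) := by
    ring
  have e2 : (Fintype.card K : ℚ) ^ 2 - (Fintype.card K : ℚ) =
      (Fintype.card K : ℚ) * ((Fintype.card K : ℚ) - 1) := by ring
  rw [e1, e2]
  generalize (Fintype.card K : ℚ) ^ 8 - (Fintype.card K : ℚ) ^ 7 + ((Fintype.card K : ℚ) - 1) ^ 2 *
      ((Fintype.card K : ℚ) ^ 2 - 2 * (Fintype.card K : ℚ) + 7) = M
  field_simp

theorem A1_eq (h2 : (2 : K) ≠ 0) : A1 K = 1 - 1 / (Fintype.card K : ℚ) +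
    ((Fintype.card K : ℚ) - 1) ^ 2 * ((Fintype.card K : ℚ) ^ 2 - 2 * (Fintype.card K : ℚ) + 7) /
      (Fintype.card K : ℚ) ^ 8 := by
  unfold A1
  rw [wsum_lines h2, wsum_const h2]
  have hq : (1 : ℚ) < Fintype.card K := by exact_mod_cast Fintype.one_lt_card
  have q0 : (Fintype.card K : ℚ) ≠ 0 := by positivity
  field_simp

end

end

end Pool.Agent.Helper19.DP1
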