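import Pool.Agent.Helper19.DP1.FDefs

/-! The group of substitutions acting on the sextics. -/

namespace Pool.Agent.Helper19.DP1

open MvPolynomial

noncomputable section

section
variable {K : Type*} [Field K]

/-- substitution of linear forms in binary forms -/
def sub2 (g : Matrix.GeneralLinearGroup (Fin 2) K) :
    MvPolynomial (Fin 2) K →ₐ[K] MvPolynomial (Fin 2) K := aeval (lin2 g)

theorem inc_injective : Function.Injective (inc : MvPolynomial (Fin 2) K →ₐ[K] _) := by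
  apply rename_injective
  intro i j h
  fin_cases i <;> fin_cases j <;> simp_all

theorem inc_X0 : inc (X 0 : MvPolynomial (Fin 2) K) = X 0 := by simp [inc]
theorem inc_X1 : inc (X 1 : MvPolynomial (Fin 2) K) = X 1 := by simp [inc]
theorem inc_C (c : K) : inc (C c : MvPolynomial (Fin 2) K) = C c := by simp [inc]

theorem sub2_lin2 (g h : Matrix.GeneralLinearGroup (Fin 2) K) (i : Fin 2) :
    sub2 g (lin2 h i) = lin2 (h * g) i := by
  unfold sub2
  conv_lhs => rw [lin2]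
  simp only [map_add, map_mul, aeval_X, algHom_C, algebraMap_eq]
  unfold lin2
  simp only [Matrix.GeneralLinearGroup.coe_mul, Matrix.mul_apply, Fin.sum_univ_two, map_add, map_mul]
  ring

theorem lin2_one (i : Fin 2) : lin2 (1 : Matrix.GeneralLinearGroup (Fin 2) K) i = X i := by
  fin_cases i <;> simp [lin2]

theorem sub2_one : sub2 (1 : Matrix.GeneralLinearGroup (Fin 2) K) = AlgHom.id K _ := by
  apply MvPolynomial.algHom_ext
  intro i
  simp [sub2, lin2_one]

theorem sub2_sub2 (g h : Matrix.GeneralLinearGroup (Fin 2) K) (P : MvPolynomial (Fin 2) K) :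
    sub2 g (sub2 h P) = sub2 (h * g) P := by
  have : (sub2 g).comp (sub2 h) = sub2 (h * g) := by
    apply MvPolynomial.algHom_ext
    intro i
    rw [AlgHom.comp_apply]
    conv_lhs => rw [sub2, sub2, aeval_X]
    rw [← sub2, sub2_lin2]
    simp [sub2]
  exact DFunLike.congr_fun this P

theorem sub2_inv_sub2 (g : Matrix.GeneralLinearGroup (Fin 2) K) (P : MvPolynomial (Fin 2) K) :
    sub2 g⁻¹ (sub2 g P) = P := by
  rw [sub2_sub2, mul_inv_cancel, sub2_one]; rfl

theorem sub2_sub2_inv (g : Matrix.GeneralLinearGroup (Fin 2) K) (P : MvPolynomial (Fin 2) K) :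
    sub2 g (sub2 g⁻¹ P) = P := by
  rw [sub2_sub2, inv_mul_cancel, sub2_one]; rfl

theorem lin2_homog (g : Matrix.GeneralLinearGroup (Fin 2) K) (i : Fin 2) :
    (lin2 g i).IsHomogeneous 1 := by
  unfold lin2
  apply IsHomogeneous.add
  · simpa using (isHomogeneous_C (Fin 2) (g i 0)).mul (isHomogeneous_X K (0 : Fin 2))
  · simpa using (isHomogeneous_C (Fin 2) (g i 1)).mul (isHomogeneous_X K (1 : Fin 2))

theorem sub2_homog (g : Matrix.GeneralLinearGroup (Fin 2) K) {n : ℕ}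
    {P : MvPolynomial (Fin 2) K} (hP : P.IsHomogeneous n) : (sub2 g P).IsHomogeneous n := by
  have := hP.aeval (lin2 g) (lin2_homog g)
  rw [one_mul] at this
  exact this

theorem bf_homog (n : ℕ) (c : Fin (n + 1) → K) : (bf n c).IsHomogeneous n := by
  unfold bf
  apply IsHomogeneous.sum
  intro i _
  have h1 := ((isHomogeneous_C (Fin 2) (c i)).mul (isHomogeneous_X_pow (R := K) (0 : Fin 2) (i : ℕ))).mul
    (isHomogeneous_X_pow (R := K) (1 : Fin 2) (n - (i : ℕ)))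
  have h2 : 0 + (i : ℕ) + (n - (i : ℕ)) = n := by have := i.2; omega
  rwa [h2] at h1

theorem coeff_bf (n : ℕ) (c : Fin (n + 1) → K) (i : Fin (n + 1)) :
    coeff (Finsupp.single 0 (i : ℕ) + Finsupp.single 1 (n - (i : ℕ))) (bf n c) = c i := by
  unfold bf
  rw [coeff_sum, Finset.sum_eq_single i]
  · rw [mul_assoc, coeff_C_mul, X_pow_eq_monomial, X_pow_eq_monomial, monomial_mul, coeff_monomial]
    simp
  · intro j _ hj
    rw [mul_assoc, coeff_C_mul, X_pow_eq_monomial, X_pow_eq_monomial, monomial_mul, coeff_monomial,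
      if_neg, mul_zero]
    intro h
    apply hj
    have := DFunLike.congr_fun h (0 : Fin 2)
    simp at this
    exact Fin.ext this
  · intro h
    exact absurd (Finset.mem_univ _) h

theorem bf_injective (n : ℕ) : Function.Injective (bf n : (Fin (n + 1) → K) → _) := by
  intro c c' h
  funext i
  rw [← coeff_bf n c i, h, coeff_bf]

theorem exists_bf {n : ℕ} {P : MvPolynomial (Fin 2) K} (hP : P.IsHomogeneous n) :
    ∃ c : Fin (n + 1) → K, P = bf n c := by
  refine ⟨fun i => coeff (Finsupp.single 0 (i : ℕ) + Finsupp.single 1 (n - (i : ℕ))) P, ?_⟩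
  ext m
  by_cases hm : m.degree = n
  · have hsum : m 0 + m 1 = n := by
      rw [← hm, Finsupp.degree_eq_sum, Fin.sum_univ_two]
    have hm' : m = Finsupp.single 0 (m 0) + Finsupp.single 1 (n - m 0) := by
      ext i
      fin_cases i
      · simp
      · simp; omega
    have hlt : m 0 < n + 1 := by omega
    have := coeff_bf n (fun i => coeff (Finsupp.single 0 (i : ℕ) + Finsupp.single 1 (n - (i : ℕ))) P)
      ⟨m 0, hlt⟩
    simp only at this
    rw [hm', this]
  · rw [hP.coeff_eq_zero hm, (bf_homog n _).coeff_eq_zero hm]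

theorem IsSub.inc_apply {ψ : MvPolynomial (Fin 4) K ≃ₐ[K] MvPolynomial (Fin 4) K}
    {g : Matrix.GeneralLinearGroup (Fin 2) K} {e : Kˣ} {s : Fin 3 → K} (h : IsSub ψ g e s)
    (P : MvPolynomial (Fin 2) K) : ψ (inc P) = inc (sub2 g P) := by
  have : (ψ : MvPolynomial (Fin 4) K →ₐ[K] MvPolynomial (Fin 4) K).comp inc =
      inc.comp (sub2 g) := by
    apply MvPolynomial.algHom_ext
    intro i
    rw [AlgHom.comp_apply, AlgHom.comp_apply]
    fin_cases i
    · show ψ (inc (X 0)) = inc (sub2 g (X 0))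
      rw [inc_X0, h.1]
      simp [sub2]
    · show ψ (inc (X 1)) = inc (sub2 g (X 1))
      rw [inc_X1, h.2.1]
      simp [sub2]
  exact DFunLike.congr_fun this P

theorem algEquiv_C (ψ : MvPolynomial (Fin 4) K ≃ₐ[K] MvPolynomial (Fin 4) K) (c : K) :
    ψ (C c) = C c := by
  rw [← MvPolynomial.algebraMap_eq, AlgEquiv.commutes]

theorem IsSub.one : IsSub (1 : MvPolynomial (Fin 4) K ≃ₐ[K] MvPolynomial (Fin 4) K) 1 1 0 := by
  refine ⟨?_, ?_, ?_, ?_⟩
  · rw [lin2_one, inc_X0]; rfl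
  · rw [lin2_one, inc_X1]; rfl
  · simp [bf]
  · simp

theorem IsSub.mul {ψ ψ' : MvPolynomial (Fin 4) K ≃ₐ[K] MvPolynomial (Fin 4) K}
    {g g' : Matrix.GeneralLinearGroup (Fin 2) K} {e e' : Kˣ} {s s' : Fin 3 → K}
    (h : IsSub ψ g e s) (h' : IsSub ψ' g' e' s') :
    ∃ s'', IsSub (ψ * ψ') (g' * g) (e * e') s'' := by
  obtain ⟨s'', hs''⟩ := exists_bf (n := 2)
    (P := C ((e' : K) ^ 2) * bf 2 s + sub2 g (bf 2 s')) (by
      apply IsHomogeneous.add
      · have := (isHomogeneous_C (Fin 2) ((e' : K) ^ 2)).mul (bf_homog 2 s)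
        rwa [zero_add] at this
      · exact sub2_homog g (bf_homog 2 s'))
  refine ⟨s'', ?_, ?_, ?_, ?_⟩
  · show ψ (ψ' (X 0)) = _
    rw [h'.1, h.inc_apply, sub2_lin2]
  · show ψ (ψ' (X 1)) = _
    rw [h'.2.1, h.inc_apply, sub2_lin2]
  · show ψ (ψ' (X 2)) = _
    rw [h'.2.2.1, map_add, map_mul, h.inc_apply, h.2.2.1, ← hs'', algEquiv_C, map_add, map_mul,
      inc_C, Units.val_mul, mul_pow, C_mul]
    ring
  · show ψ (ψ' (X 3)) = _
    rw [h'.2.2.2, map_mul, h.2.2.2, algEquiv_C, Units.val_mul, mul_pow, C_mul]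
    ring

theorem IsSub.inv {ψ : MvPolynomial (Fin 4) K ≃ₐ[K] MvPolynomial (Fin 4) K}
    {g : Matrix.GeneralLinearGroup (Fin 2) K} {e : Kˣ} {s : Fin 3 → K}
    (h : IsSub ψ g e s) : ∃ s', IsSub ψ⁻¹ g⁻¹ e⁻¹ s' := by
  have h1 : ∀ n : ℕ, C (((e⁻¹ : Kˣ) : K) ^ n) * C ((e : K) ^ n) = (1 : MvPolynomial (Fin 4) K) := by
    intro n
    rw [← map_mul, ← mul_pow, Units.inv_mul, one_pow, map_one]
  obtain ⟨s', hs'⟩ := exists_bf (n := 2)
    (P := - (C (((e⁻¹ : Kˣ) : K) ^ 2) * sub2 g⁻¹ (bf 2 s))) (by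
      apply IsHomogeneous.neg
      have := (isHomogeneous_C (Fin 2) (((e⁻¹ : Kˣ) : K) ^ 2)).mul
        (sub2_homog g⁻¹ (bf_homog 2 s))
      rwa [zero_add] at this)
  refine ⟨s', ?_, ?_, ?_, ?_⟩
  · show ψ.symm (X 0) = _
    rw [AlgEquiv.symm_apply_eq, h.inc_apply, sub2_lin2, inv_mul_cancel, lin2_one, inc_X0]
  · show ψ.symm (X 1) = _
    rw [AlgEquiv.symm_apply_eq, h.inc_apply, sub2_lin2, inv_mul_cancel, lin2_one, inc_X1]
  · show ψ.symm (X 2) = _
    have h2 : sub2 g (C (((e⁻¹ : Kˣ) : K) ^ 2)) = C (((e⁻¹ : Kˣ) : K) ^ 2) := by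
      simp [sub2]
    rw [AlgEquiv.symm_apply_eq, map_add, map_mul, h.2.2.1, algEquiv_C, h.inc_apply, ← hs',
      map_neg, map_mul, map_neg, map_mul, sub2_sub2_inv, h2, inc_C]
    linear_combination (-(X 2 : MvPolynomial (Fin 4) K)) * h1 2
  · show ψ.symm (X 3) = _
    rw [AlgEquiv.symm_apply_eq, map_mul, h.2.2.2, algEquiv_C]
    linear_combination (-(X 3 : MvPolynomial (Fin 4) K)) * h1 3

/-- the group of all substitutions `(x0,x1) ↦ g (x0,x1)`, `z ↦ e^2 z + s(x0,x1)`, `y ↦ e^3 y` -/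
def subGroup (K : Type*) [Field K] :
    Subgroup (MvPolynomial (Fin 4) K ≃ₐ[K] MvPolynomial (Fin 4) K) where
  carrier := {ψ | ∃ g e s, IsSub ψ g e s}
  one_mem' := ⟨1, 1, 0, IsSub.one⟩
  mul_mem' := by
    rintro ψ ψ' ⟨g, e, s, h⟩ ⟨g', e', s', h'⟩
    obtain ⟨s'', hs⟩ := h.mul h'
    exact ⟨_, _, s'', hs⟩
  inv_mem' := by
    rintro ψ ⟨g, e, s, h⟩
    obtain ⟨s', hs⟩ := h.inv
    exact ⟨_, _, s', hs⟩

theorem mem_subGroup {ψ : MvPolynomial (Fin 4) K ≃ₐ[K] MvPolynomial (Fin 4) K} :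
    ψ ∈ subGroup K ↔ ∃ g e s, IsSub ψ g e s := Iff.rfl

end

end

end Pool.Agent.Helper19.DP1
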