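import Pool.Agent.Helper19.DP1.FAct

/-! Invariance of smoothness and of the number of lines; the order of the group. -/

namespace Pool.Agent.Helper19.DP1

open MvPolynomial

noncomputable section

section
variable {K : Type*} [Field K]

/-- chain rule -/
theorem pderiv_algHom (ψ : MvPolynomial (Fin 4) K →ₐ[K] MvPolynomial (Fin 4) K)
    (F : MvPolynomial (Fin 4) K) (j : Fin 4) :
    pderiv j (ψ F) = ∑ i, ψ (pderiv i F) * pderiv j (ψ (X i)) := by
  induction F using MvPolynomial.induction_on with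
  | C c =>
    have : ψ (C c) = C c := by rw [← MvPolynomial.algebraMap_eq, AlgHom.commutes]
    rw [this]
    simp
  | add p q hp hq =>
    simp only [map_add, add_mul, Finset.sum_add_distrib, hp, hq]
  | mul_X p n hp =>
    have hx : ∀ x : Fin 4, ψ (pderiv x (X n : MvPolynomial (Fin 4) K)) = if x = n then 1 else 0 := by
      intro x
      by_cases h : x = n
      · subst h; rw [pderiv_X_self, map_one, if_pos rfl]
      · rw [pderiv_X_of_ne (Ne.symm h), map_zero, if_neg h]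
    have hL : ∀ x : Fin 4, ψ (pderiv x (p * X n)) * pderiv j (ψ (X x)) =
        ψ p * ((if x = n then 1 else 0) * pderiv j (ψ (X x))) +
          ψ (X n) * (ψ (pderiv x p) * pderiv j (ψ (X x))) := by
      intro x
      rw [Derivation.leibniz, smul_eq_mul, smul_eq_mul, map_add, map_mul, map_mul, hx]
      ring
    rw [map_mul, Derivation.leibniz, hp, smul_eq_mul, smul_eq_mul, Finset.sum_congr rfl (fun x _ => hL x),
      Finset.sum_add_distrib, ← Finset.mul_sum, ← Finset.mul_sum]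
    congr 2
    simp

theorem aeval_algHom_point (ψ : MvPolynomial (Fin 4) K →ₐ[K] MvPolynomial (Fin 4) K)
    (P : Fin 4 → AlgebraicClosure K) (F : MvPolynomial (Fin 4) K) :
    aeval P (ψ F) = aeval (fun i => aeval P (ψ (X i))) F := by
  have : (aeval P).comp ψ = aeval (fun i => aeval P (ψ (X i))) := by
    apply MvPolynomial.algHom_ext
    intro i
    simp
  exact DFunLike.congr_fun this F

theorem IsSub.aeval_zero {ψ : MvPolynomial (Fin 4) K ≃ₐ[K] MvPolynomial (Fin 4) K}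
    {g : Matrix.GeneralLinearGroup (Fin 2) K} {e : Kˣ} {s : Fin 3 → K} (h : IsSub ψ g e s)
    (i : Fin 4) : aeval (0 : Fin 4 → AlgebraicClosure K) (ψ (X i)) = 0 := by
  have h2 : aeval (0 : Fin 4 → AlgebraicClosure K) (inc (bf 2 s)) = 0 := by
    unfold bf
    rw [map_sum, map_sum]
    apply Finset.sum_eq_zero
    intro j _
    simp only [map_mul, map_pow, inc_X0, inc_X1, inc_C, aeval_X, Pi.zero_apply]
    have : (j : ℕ) ≠ 0 ∨ 2 - (j : ℕ) ≠ 0 := by omega
    rcases this with h | h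
    · simp [zero_pow h]
    · simp [zero_pow h]
  fin_cases i
  · show aeval _ (ψ (X 0)) = 0
    rw [h.1]; simp [lin2, inc_X0, inc_X1]
  · show aeval _ (ψ (X 1)) = 0
    rw [h.2.1]; simp [lin2, inc_X0, inc_X1]
  · show aeval _ (ψ (X 2)) = 0
    rw [h.2.2.1, map_add, h2]; simp
  · show aeval _ (ψ (X 3)) = 0
    rw [h.2.2.2]; simp

theorem smooth4_of_equiv {ψ : MvPolynomial (Fin 4) K ≃ₐ[K] MvPolynomial (Fin 4) K}
    (h0 : ∀ i, aeval (0 : Fin 4 → AlgebraicClosure K) (ψ.symm (X i)) = 0)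
    {F : MvPolynomial (Fin 4) K} (hF : Smooth4 F) : Smooth4 (ψ F) := by
  intro P hP hPF
  set Q : Fin 4 → AlgebraicClosure K := fun i => aeval P (ψ (X i)) with hQ
  have hev : ∀ G : MvPolynomial (Fin 4) K, aeval P (ψ G) = aeval Q G := fun G =>
    aeval_algHom_point (ψ : MvPolynomial (Fin 4) K →ₐ[K] MvPolynomial (Fin 4) K) P G
  have hQ0 : Q ≠ 0 := by
    intro hQ0
    apply hP
    funext i
    have h1 : aeval P (X i : MvPolynomial (Fin 4) K) = aeval P (ψ (ψ.symm (X i))) := by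
      rw [AlgEquiv.apply_symm_apply]
    rw [aeval_X, hev, hQ0] at h1
    rw [h1]
    exact h0 i
  obtain ⟨i0, hi0⟩ := hF Q hQ0 (by rw [← hev]; exact hPF)
  by_contra hcon
  push Not at hcon
  -- the Jacobian matrices
  let v : Fin 4 → AlgebraicClosure K := fun i => aeval Q (pderiv i F)
  let J : Matrix (Fin 4) (Fin 4) (AlgebraicClosure K) := fun i j => aeval P (pderiv j (ψ (X i)))
  let A : Matrix (Fin 4) (Fin 4) (AlgebraicClosure K) :=
    fun k i => aeval P (ψ (pderiv i (ψ.symm (X k))))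
  have hvJ : Matrix.vecMul v J = 0 := by
    funext j
    have h1 := pderiv_algHom (ψ : MvPolynomial (Fin 4) K →ₐ[K] MvPolynomial (Fin 4) K) F j
    have h2 := congrArg (aeval P) h1
    rw [map_sum] at h2
    have h3 : aeval P (pderiv j (ψ F)) = 0 := hcon j
    show ∑ i, v i * J i j = 0
    rw [← h3]
    refine Eq.trans ?_ h2.symm
    apply Finset.sum_congr rfl
    intro i _
    rw [map_mul]
    show aeval Q (pderiv i F) * _ = aeval P (ψ (pderiv i F)) * _
    rw [hev]
    rfl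
  have hAJ : A * J = 1 := by
    ext k j
    have h1 := pderiv_algHom (ψ : MvPolynomial (Fin 4) K →ₐ[K] MvPolynomial (Fin 4) K) (ψ.symm (X k)) j
    have h2 := congrArg (aeval P) h1
    rw [map_sum] at h2
    have h3 : (ψ : MvPolynomial (Fin 4) K →ₐ[K] MvPolynomial (Fin 4) K) (ψ.symm (X k)) = X k :=
      ψ.apply_symm_apply _
    rw [h3] at h2
    show ∑ i, A k i * J i j = _
    have h4 : aeval P (pderiv j (X k : MvPolynomial (Fin 4) K)) =
        (1 : Matrix (Fin 4) (Fin 4) (AlgebraicClosure K)) k j := by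
      rw [pderiv_X, Matrix.one_apply]
      by_cases hkj : k = j
      · subst hkj; simp
      · rw [Pi.single_eq_of_ne hkj, if_neg hkj]
        simp
    rw [← h4, h2]
    apply Finset.sum_congr rfl
    intro i _
    rw [map_mul]
    rfl
  have hJA : J * A = 1 := mul_eq_one_comm.mp hAJ
  have hv : v = 0 := by
    calc v = Matrix.vecMul v (J * A) := by rw [hJA, Matrix.vecMul_one]
      _ = Matrix.vecMul (Matrix.vecMul v J) A := by rw [Matrix.vecMul_vecMul]
      _ = 0 := by rw [hvJ, Matrix.zero_vecMul]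
  exact hi0 (congrFun hv i0)

theorem smooth4_of_mem {ψ : MvPolynomial (Fin 4) K ≃ₐ[K] MvPolynomial (Fin 4) K}
    (hψ : ψ ∈ subGroup K) {F : MvPolynomial (Fin 4) K} (hF : Smooth4 F) : Smooth4 (ψ F) := by
  obtain ⟨g', e', s', h'⟩ := (subGroup K).inv_mem hψ
  exact smooth4_of_equiv (fun i => h'.aeval_zero i) hF

theorem smooth4_C_mul {F : MvPolynomial (Fin 4) K} {c : K} (hc : c ≠ 0) :
    Smooth4 (C c * F) ↔ Smooth4 F := by
  have hc' : algebraMap K (AlgebraicClosure K) c ≠ 0 := by simpa using hc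
  have key : ∀ (P : Fin 4 → AlgebraicClosure K) (G : MvPolynomial (Fin 4) K),
      aeval P (C c * G) = algebraMap K (AlgebraicClosure K) c * aeval P G := by
    intro P G; simp
  have key2 : ∀ i, pderiv i (C c * F) = C c * pderiv i F := by
    intro i; simp [Derivation.leibniz]
  unfold Smooth4
  simp only [key, key2, mul_eq_zero, hc', false_or, ne_eq]

/-- lines are transported by substitutions -/
theorem lines_le [Finite K] {ψ : MvPolynomial (Fin 4) K ≃ₐ[K] MvPolynomial (Fin 4) K}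
    (hψ : ψ ∈ subGroup K) (F : MvPolynomial (Fin 4) K) :
    (lines (ψ F)).ncard ≤ (lines F).ncard := by
  obtain ⟨g, e, s, h⟩ := hψ
  have hhom : ∀ (n : ℕ) (c : K) {P : MvPolynomial (Fin 2) K}, P.IsHomogeneous n → (C c * P).IsHomogeneous n := by
    intro n c P hP
    have := (isHomogeneous_C (Fin 2) c).mul hP
    rwa [zero_add] at this
  have h2 : ∀ b : Fin 3 → K, ∃ c : Fin 3 → K, bf 2 c = sub2 g⁻¹ (C ((e : K) ^ 2) * bf 2 b + bf 2 s) := by
    intro b
    obtain ⟨c, hc⟩ := exists_bf (n := 2) (sub2_homog g⁻¹ ((hhom 2 ((e : K) ^ 2) (bf_homog 2 b)).add (bf_homog 2 s)))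
    exact ⟨c, hc.symm⟩
  have h3 : ∀ b : Fin 4 → K, ∃ c : Fin 4 → K, bf 3 c = sub2 g⁻¹ (C ((e : K) ^ 3) * bf 3 b) := by
    intro b
    obtain ⟨c, hc⟩ := exists_bf (n := 3) (sub2_homog g⁻¹ (hhom 3 ((e : K) ^ 3) (bf_homog 3 b)))
    exact ⟨c, hc.symm⟩
  choose f2 hf2 using h2
  choose f3 hf3 using h3
  have hinj : Function.Injective (fun b : (Fin 3 → K) × (Fin 4 → K) => (f2 b.1, f3 b.2)) := by
    rintro ⟨b2, b3⟩ ⟨b2', b3'⟩ hb
    simp only [Prod.mk.injEq] at hb
    have i2 : sub2 g⁻¹ (C ((e : K) ^ 2) * bf 2 b2 + bf 2 s) = sub2 g⁻¹ (C ((e : K) ^ 2) * bf 2 b2' + bf 2 s) := by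
      rw [← hf2, ← hf2, hb.1]
    have i3 : sub2 g⁻¹ (C ((e : K) ^ 3) * bf 3 b3) = sub2 g⁻¹ (C ((e : K) ^ 3) * bf 3 b3') := by
      rw [← hf3, ← hf3, hb.2]
    have j2 := congrArg (sub2 g) i2
    have j3 := congrArg (sub2 g) i3
    rw [sub2_sub2_inv, sub2_sub2_inv] at j2 j3
    have he2 : (C ((e : K) ^ 2) : MvPolynomial (Fin 2) K) ≠ 0 := by
      rw [Ne, C_eq_zero]; exact pow_ne_zero 2 e.ne_zero
    have he3 : (C ((e : K) ^ 3) : MvPolynomial (Fin 2) K) ≠ 0 := by
      rw [Ne, C_eq_zero]; exact pow_ne_zero 3 e.ne_zero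
    have k2 := bf_injective 2 (mul_left_cancel₀ he2 (add_right_cancel j2))
    have k3 := bf_injective 3 (mul_left_cancel₀ he3 j3)
    rw [k2, k3]
  apply Set.ncard_le_ncard_of_injOn _ _ (hinj.injOn) (Set.toFinite _)
  rintro ⟨b2, b3⟩ hb
  have hb' : aeval ![X 0, X 1, bf 2 b2, bf 3 b3] (ψ F) = (0 : MvPolynomial (Fin 2) K) := hb
  show aeval ![X 0, X 1, bf 2 (f2 b2), bf 3 (f3 b3)] F = (0 : MvPolynomial (Fin 2) K)
  have hinc : ∀ (c2 : MvPolynomial (Fin 2) K) (c3 : MvPolynomial (Fin 2) K) (P : MvPolynomial (Fin 2) K),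
      aeval ![X 0, X 1, c2, c3] (inc P) = P := by
    intro c2 c3 P
    have : (aeval ![X 0, X 1, c2, c3]).comp (inc : MvPolynomial (Fin 2) K →ₐ[K] _) = AlgHom.id K _ := by
      apply MvPolynomial.algHom_ext
      intro i
      rw [AlgHom.comp_apply]
      fin_cases i
      · show aeval _ (inc (X 0)) = _
        rw [inc_X0]; simp
      · show aeval _ (inc (X 1)) = _
        rw [inc_X1]; simp
    exact DFunLike.congr_fun this P
  have hcomp : (aeval ![X 0, X 1, bf 2 b2, bf 3 b3]).comp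
      (ψ : MvPolynomial (Fin 4) K →ₐ[K] MvPolynomial (Fin 4) K) =
      (sub2 g).comp (aeval ![X 0, X 1, bf 2 (f2 b2), bf 3 (f3 b3)]) := by
    apply MvPolynomial.algHom_ext
    intro i
    rw [AlgHom.comp_apply, AlgHom.comp_apply]
    fin_cases i
    · show aeval _ (ψ (X 0)) = sub2 g (aeval _ (X 0))
      rw [h.1, hinc]; simp [sub2]
    · show aeval _ (ψ (X 1)) = sub2 g (aeval _ (X 1))
      rw [h.2.1, hinc]; simp [sub2]
    · show aeval _ (ψ (X 2)) = sub2 g (aeval _ (X 2))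
      rw [h.2.2.1, map_add, hinc, aeval_X]
      simp only [map_mul, aeval_X, algHom_C, algebraMap_eq]
      show C ((e : K) ^ 2) * bf 2 b2 + bf 2 s = sub2 g (bf 2 (f2 b2))
      rw [hf2, sub2_sub2_inv]
    · show aeval _ (ψ (X 3)) = sub2 g (aeval _ (X 3))
      rw [h.2.2.2, aeval_X]
      simp only [map_mul, aeval_X, algHom_C, algebraMap_eq]
      show C ((e : K) ^ 3) * bf 3 b3 = sub2 g (bf 3 (f3 b3))
      rw [hf3, sub2_sub2_inv]
  have h4 := DFunLike.congr_fun hcomp F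
  rw [AlgHom.comp_apply, AlgHom.comp_apply] at h4
  have h5 : sub2 g (aeval ![X 0, X 1, bf 2 (f2 b2), bf 3 (f3 b3)] F) = 0 := by
    rw [← h4]; exact hb'
  rw [← sub2_inv_sub2 g (aeval ![X 0, X 1, bf 2 (f2 b2), bf 3 (f3 b3)] F), h5, map_zero]

theorem lines_eq [Finite K] {ψ : MvPolynomial (Fin 4) K ≃ₐ[K] MvPolynomial (Fin 4) K}
    (hψ : ψ ∈ subGroup K) (F : MvPolynomial (Fin 4) K) :
    (lines (ψ F)).ncard = (lines F).ncard := by
  apply le_antisymm (lines_le hψ F)
  have := lines_le ((subGroup K).inv_mem hψ) (ψ F)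
  have h2 : (ψ⁻¹ : MvPolynomial (Fin 4) K ≃ₐ[K] MvPolynomial (Fin 4) K) (ψ F) = F :=
    ψ.symm_apply_apply F
  rwa [h2] at this

theorem lines_C_mul {F : MvPolynomial (Fin 4) K} {c : K} (hc : c ≠ 0) :
    lines (C c * F) = lines F := by
  ext b
  unfold lines
  simp only [Set.mem_ofPred_eq, map_mul, algHom_C, algebraMap_eq, mul_eq_zero, C_eq_zero, hc, false_or]

end

end

end Pool.Agent.Helper19.DP1
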