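import Pool.Agent.Helper19.DP1.FCard

/-! Isomorphism classes, automorphism numbers, weighted averages. -/

namespace Pool.Agent.Helper19.DP1

open MvPolynomial

noncomputable section

section
variable (K : Type*) [Field K] [Fintype K]

/-- smooth sextics in normal form, given by the coefficients of `a2`, `a4`, `a6` -/
abbrev Surf := {a : (Fin 3 → K) × (Fin 5 → K) × (Fin 7 → K) // Smooth4 (sext a)}

variable {K}

/-- the substitutions carrying the surface of `a` to the surface of `a'` -/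
def Isos (a a' : Surf K) : Set (subGroup K) :=
  {ψ | ∃ c : K, ψ.1 (sext a.1) = C c * sext a'.1}

theorem sext_ne_zero (a : Surf K) : sext a.1 ≠ 0 := by
  intro h
  have h1 : C (1 : K) * sext a.1 = C 0 * sext a.1 := by rw [h]; simp
  have := (C_mul_sext_injective h1 one_ne_zero).1
  exact one_ne_zero this

theorem Isos_c_ne {a a' : Surf K} {ψ : subGroup K} {c : K}
    (h : ψ.1 (sext a.1) = C c * sext a'.1) : c ≠ 0 := by
  rintro rfl
  rw [C_0, zero_mul] at h
  exact sext_ne_zero a ((map_eq_zero_iff _ ψ.1.injective).mp h)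

theorem Isos_refl (a : Surf K) : (1 : subGroup K) ∈ Isos a a := ⟨1, by simp⟩

theorem Isos_inv {a a' : Surf K} {ψ : subGroup K} (h : ψ ∈ Isos a a') : ψ⁻¹ ∈ Isos a' a := by
  obtain ⟨c, hc⟩ := h
  have hc0 := Isos_c_ne hc
  refine ⟨c⁻¹, ?_⟩
  show ψ.1.symm (sext a'.1) = _
  rw [AlgEquiv.symm_apply_eq, map_mul, algEquiv_C, hc, ← mul_assoc, ← C_mul, inv_mul_cancel₀ hc0,
    C_1, one_mul]

theorem Isos_mul {a a' a'' : Surf K} {ψ ψ' : subGroup K} (h : ψ ∈ Isos a a')
    (h' : ψ' ∈ Isos a' a'') : ψ' * ψ ∈ Isos a a'' := by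
  obtain ⟨c, hc⟩ := h
  obtain ⟨c', hc'⟩ := h'
  refine ⟨c * c', ?_⟩
  show ψ'.1 (ψ.1 (sext a.1)) = _
  rw [hc, map_mul, algEquiv_C, hc', ← mul_assoc, ← C_mul]

/-- isomorphism of surfaces -/
def isoSetoid (K : Type*) [Field K] [Fintype K] : Setoid (Surf K) where
  r a a' := (Isos a a').Nonempty
  iseqv :=
    { refl := fun a => ⟨1, Isos_refl a⟩
      symm := fun ⟨ψ, h⟩ => ⟨ψ⁻¹, Isos_inv h⟩
      trans := fun ⟨ψ, h⟩ ⟨ψ', h'⟩ => ⟨ψ' * ψ, Isos_mul h h'⟩ }

/-- The number of automorphisms of the surface: the substitutions preserving the surface, modulo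
the `q - 1` scalars `(x0,x1,z,y) ↦ (tx0,tx1,t^2z,t^3y)`, which act trivially on `P(1,1,2,3)`. -/
def autNum (a : Surf K) : ℚ := ((Isos a a).ncard : ℚ) / ((Fintype.card K : ℚ) - 1)

/-- sum of `f` over the isomorphism classes of surfaces, weighted by `1/#Aut` -/
def wsum (K : Type*) [Field K] [Fintype K] (f : Surf K → ℚ) : ℚ :=
  ∑ᶠ x : Quotient (isoSetoid K), f x.out / autNum x.out

theorem Isos_ncard_eq {a a' : Surf K} (h : (Isos a a').Nonempty) :
    (Isos a a').ncard = (Isos a a).ncard := by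
  obtain ⟨ψ, hψ⟩ := h
  apply Set.ncard_congr (fun φ _ => ψ⁻¹ * φ)
  · intro φ hφ
    exact Isos_mul hφ (Isos_inv hψ)
  · intro φ φ' _ _ h
    exact mul_left_cancel h
  · intro φ hφ
    refine ⟨ψ * φ, Isos_mul hφ hψ, ?_⟩
    simp

theorem exists_target (a : Surf K) (ψ : subGroup K) : ∃! a' : Surf K, ψ ∈ Isos a a' := by
  obtain ⟨g, e, s, h⟩ := ψ.2
  obtain ⟨b, hb⟩ := h.apply_sext a.1
  have he : (e : K) ^ 6 ≠ 0 := pow_ne_zero 6 e.ne_zero
  have hsm : Smooth4 (sext b) := by
    have := smooth4_of_mem ψ.2 a.2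
    rw [hb, smooth4_C_mul he] at this
    exact this
  refine ⟨⟨b, hsm⟩, ⟨_, hb⟩, ?_⟩
  rintro ⟨b', hb's⟩ ⟨c, hc⟩
  apply Subtype.ext
  have h1 : C ((e : K) ^ 6) * sext b = C c * sext b' := by rw [← hb]; exact hc
  exact ((C_mul_sext_injective h1 he).2).symm

theorem class_card (a : Surf K) :
    Nat.card {a' : Surf K // (isoSetoid K).r a a'} * (Isos a a).ncard = Nat.card (subGroup K) := by
  classical
  haveI : Fintype (subGroup K) := Fintype.ofFinite _
  haveI : Fintype (Surf K) := Fintype.ofFinite _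
  choose t ht1 ht2 using exists_target a
  have h1 : Fintype.card (subGroup K) = ∑ a' : Surf K, (Finset.univ.filter (fun ψ => t ψ = a')).card := by
    rw [← Finset.card_univ]
    exact Finset.card_eq_sum_card_fiberwise (fun ψ _ => Finset.mem_univ _)
  have h2 : ∀ a' : Surf K, (Finset.univ.filter (fun ψ => t ψ = a')).card = (Isos a a').ncard := by
    intro a'
    rw [← Set.ncard_coe_finset]
    congr 1
    ext ψ
    simp only [Finset.coe_filter, Finset.mem_univ, true_and, Set.mem_ofPred_eq]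
    constructor
    · rintro rfl; exact ht1 ψ
    · intro h; exact (ht2 ψ a' h).symm
  rw [Nat.card_eq_fintype_card (α := subGroup K), h1, Finset.sum_congr rfl (fun a' _ => h2 a')]
  have h3 : ∀ a' : Surf K, (Isos a a').ncard = if (isoSetoid K).r a a' then (Isos a a).ncard else 0 := by
    intro a'
    split_ifs with h
    · exact Isos_ncard_eq h
    · rw [Set.ncard_eq_zero]
      exact Set.not_nonempty_iff_eq_empty.mp h
  rw [Finset.sum_congr rfl (fun a' _ => h3 a'), ← Finset.sum_filter, Finset.sum_const, smul_eq_mul,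
    Nat.card_eq_fintype_card, Fintype.card_subtype]

theorem lines_ncard_of_iso {a a' : Surf K} (h : (isoSetoid K).r a a') :
    (lines (sext a.1)).ncard = (lines (sext a'.1)).ncard := by
  obtain ⟨ψ, c, hc⟩ := h
  rw [← lines_eq ψ.2, hc, lines_C_mul (Isos_c_ne hc)]

/-- the weighted sum over isomorphism classes as a plain sum over all surfaces -/
theorem wsum_eq (f : Surf K → ℚ) (hf : ∀ a a' : Surf K, (isoSetoid K).r a a' → f a = f a') :
    wsum K f = ((Fintype.card K : ℚ) - 1) / (Nat.card (subGroup K) : ℚ) *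
      ∑ᶠ a : Surf K, f a := by
  classical
  haveI : Fintype (Surf K) := Fintype.ofFinite _
  haveI : Fintype (Quotient (isoSetoid K)) := Fintype.ofFinite _
  have hΓ : (Nat.card (subGroup K) : ℚ) ≠ 0 := by
    have : 0 < Nat.card (subGroup K) := Nat.card_pos
    exact_mod_cast this.ne'
  unfold wsum
  rw [finsum_eq_sum_of_fintype, finsum_eq_sum_of_fintype]
  have h1 : ∑ a : Surf K, f a = ∑ x : Quotient (isoSetoid K),
      ∑ a ∈ Finset.univ.filter (fun a : Surf K => (⟦a⟧ : Quotient (isoSetoid K)) = x), f a := by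
    rw [Finset.sum_fiberwise]
  rw [h1, Finset.mul_sum]
  apply Finset.sum_congr rfl
  intro x _
  have h2 : ∑ a ∈ Finset.univ.filter (fun a : Surf K => (⟦a⟧ : Quotient (isoSetoid K)) = x), f a =
      (Nat.card {a' : Surf K // (isoSetoid K).r x.out a'} : ℚ) * f x.out := by
    rw [Finset.sum_congr rfl (g := fun _ => f x.out), Finset.sum_const, nsmul_eq_mul]
    · congr 1
      rw [Nat.card_eq_fintype_card, Fintype.card_subtype]
      congr 2
      apply Finset.filter_congr
      intro a _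
      constructor
      · intro h
        have h3 : (⟦x.out⟧ : Quotient (isoSetoid K)) = ⟦a⟧ := by rw [Quotient.out_eq, h]
        exact Quotient.exact h3
      · intro h
        have h3 : (⟦x.out⟧ : Quotient (isoSetoid K)) = ⟦a⟧ := Quotient.sound h
        rw [← h3, Quotient.out_eq]
    · intro a ha
      rw [Finset.mem_filter] at ha
      apply hf
      have h3 : (⟦a⟧ : Quotient (isoSetoid K)) = ⟦x.out⟧ := by rw [Quotient.out_eq, ha.2]
      exact Quotient.exact h3
  rw [h2]
  have h4 := class_card x.out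
  have h5 : (Nat.card {a' : Surf K // (isoSetoid K).r x.out a'} : ℚ) * ((Isos x.out x.out).ncard : ℚ) =
      (Nat.card (subGroup K) : ℚ) := by exact_mod_cast h4
  have h6 : ((Isos x.out x.out).ncard : ℚ) ≠ 0 := by
    intro h0
    rw [h0, mul_zero] at h5
    exact hΓ h5.symm
  have h7 : (Fintype.card K : ℚ) - 1 ≠ 0 := by
    have : (1 : ℚ) < Fintype.card K := by exact_mod_cast Fintype.one_lt_card
    linarith
  unfold autNum
  rw [← h5] at hΓ ⊢
  have h8 := left_ne_zero_of_mul hΓ
  field_simp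

end

end

end Pool.Agent.Helper19.DP1
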