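import Pool.Agent.Helper19.DP1.FMass
import Pool.Agent.Helper19.DP1.Core6c

/-! Jacobian criterion: smoothness of the sextic in terms of `Bad`. -/

namespace Pool.Agent.Helper19.DP1

noncomputable section

section
variable {K : Type*} [Field K] [Fintype K]

/-- dehomogenisation -/
def pl (n : ℕ) (c : Fin (n + 1) → K) : Polynomial K :=
  ∑ i : Fin (n + 1), Polynomial.C (c i) * Polynomial.X ^ (i : ℕ)

/-- value of the binary form -/
def bval (n : ℕ) (c : Fin (n + 1) → K) (x y : Om K) : Om K :=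
  ∑ i : Fin (n + 1), algebraMap K (Om K) (c i) * x ^ (i : ℕ) * y ^ (n - (i : ℕ))

/-- value of the derivative with respect to the first variable -/
def bval0 (n : ℕ) (c : Fin (n + 1) → K) (x y : Om K) : Om K :=
  ∑ i : Fin (n + 1), algebraMap K (Om K) (c i) * ((i : ℕ) * x ^ ((i : ℕ) - 1)) * y ^ (n - (i : ℕ))

/-- value of the derivative with respect to the second variable -/
def bval1 (n : ℕ) (c : Fin (n + 1) → K) (x y : Om K) : Om K :=
  ∑ i : Fin (n + 1), algebraMap K (Om K) (c i) * x ^ (i : ℕ) *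
    ((n - (i : ℕ) : ℕ) * y ^ (n - (i : ℕ) - 1))

omit [Fintype K] in
theorem inc_bf (n : ℕ) (c : Fin (n + 1) → K) : inc (bf n c) = ∑ i : Fin (n + 1),
    (MvPolynomial.C (c i) * MvPolynomial.X 0 ^ (i : ℕ) * MvPolynomial.X 1 ^ (n - (i : ℕ)) :
      MvPolynomial (Fin 4) K) := by
  unfold bf
  rw [map_sum]
  apply Finset.sum_congr rfl
  intro i _
  rw [map_mul inc, map_mul inc, map_pow inc, map_pow inc, inc_C, inc_X0, inc_X1]

omit [Fintype K] in
theorem aeval_inc_bf (n : ℕ) (c : Fin (n + 1) → K) (P : Fin 4 → Om K) :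
    MvPolynomial.aeval P (inc (bf n c)) = bval n c (P 0) (P 1) := by
  rw [inc_bf, bval, map_sum]
  apply Finset.sum_congr rfl
  intro i _
  simp

omit [Fintype K] in
theorem aeval_pderiv0 (n : ℕ) (c : Fin (n + 1) → K) (P : Fin 4 → Om K) :
    MvPolynomial.aeval P (MvPolynomial.pderiv 0 (inc (bf n c))) = bval0 n c (P 0) (P 1) := by
  rw [inc_bf, bval0, map_sum, map_sum]
  apply Finset.sum_congr rfl
  intro i _
  simp only [Derivation.leibniz, MvPolynomial.pderiv_C, Derivation.leibniz_pow,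
    MvPolynomial.pderiv_X_self, MvPolynomial.pderiv_X_of_ne (show (1 : Fin 4) ≠ 0 by decide)]
  simp
  ring

omit [Fintype K] in
theorem aeval_pderiv1 (n : ℕ) (c : Fin (n + 1) → K) (P : Fin 4 → Om K) :
    MvPolynomial.aeval P (MvPolynomial.pderiv 1 (inc (bf n c))) = bval1 n c (P 0) (P 1) := by
  rw [inc_bf, bval1, map_sum, map_sum]
  apply Finset.sum_congr rfl
  intro i _
  simp only [Derivation.leibniz, MvPolynomial.pderiv_C, Derivation.leibniz_pow,
    MvPolynomial.pderiv_X_self, MvPolynomial.pderiv_X_of_ne (show (0 : Fin 4) ≠ 1 by decide)]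
  simp

omit [Fintype K] in
theorem pderiv_inc_ne (j : Fin 4) (h0 : j ≠ 0) (h1 : j ≠ 1) (P : MvPolynomial (Fin 2) K) :
    MvPolynomial.pderiv j (inc P) = 0 := by
  induction P using MvPolynomial.induction_on with
  | C c => rw [inc_C, MvPolynomial.pderiv_C]
  | add p q hp hq => rw [map_add, map_add, hp, hq, add_zero]
  | mul_X p n hp =>
    rw [map_mul, Derivation.leibniz, hp]
    fin_cases n
    · show inc p • MvPolynomial.pderiv j (inc (MvPolynomial.X 0)) + _ = 0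
      rw [inc_X0, MvPolynomial.pderiv_X_of_ne h0.symm]; simp
    · show inc p • MvPolynomial.pderiv j (inc (MvPolynomial.X 1)) + _ = 0
      rw [inc_X1, MvPolynomial.pderiv_X_of_ne h1.symm]; simp

omit [Fintype K] in
/-- Euler's relation -/
theorem euler (n : ℕ) (c : Fin (n + 1) → K) (x y : Om K) :
    x * bval0 n c x y + y * bval1 n c x y = n * bval n c x y := by
  unfold bval bval0 bval1
  rw [Finset.mul_sum, Finset.mul_sum, Finset.mul_sum, ← Finset.sum_add_distrib]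
  apply Finset.sum_congr rfl
  intro i _
  have hi := i.2
  have h1 : x * ((i : ℕ) * x ^ ((i : ℕ) - 1)) = ((i : ℕ) : Om K) * x ^ (i : ℕ) := by
    rcases Nat.eq_zero_or_pos (i : ℕ) with h | h
    · rw [h]; simp
    · obtain ⟨k, hk⟩ : ∃ k, (i : ℕ) = k + 1 := ⟨(i : ℕ) - 1, by omega⟩
      rw [hk, Nat.add_sub_cancel, pow_succ]; ring
  have h2 : y * (((n - (i : ℕ) : ℕ) : Om K) * y ^ (n - (i : ℕ) - 1)) =
      ((n - (i : ℕ) : ℕ) : Om K) * y ^ (n - (i : ℕ)) := by
    rcases Nat.eq_zero_or_pos (n - (i : ℕ)) with h | h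
    · rw [h]; simp
    · obtain ⟨k, hk⟩ : ∃ k, n - (i : ℕ) = k + 1 := ⟨n - (i : ℕ) - 1, by omega⟩
      rw [hk, Nat.add_sub_cancel, pow_succ]; ring
  have h3 : ((i : ℕ) : Om K) + ((n - (i : ℕ) : ℕ) : Om K) = (n : Om K) := by
    rw [← Nat.cast_add]; congr 1; omega
  calc x * (algebraMap K (Om K) (c i) * ((i : ℕ) * x ^ ((i : ℕ) - 1)) * y ^ (n - (i : ℕ))) +
        y * (algebraMap K (Om K) (c i) * x ^ (i : ℕ) * ((n - (i : ℕ) : ℕ) * y ^ (n - (i : ℕ) - 1)))
      = algebraMap K (Om K) (c i) * (x * ((i : ℕ) * x ^ ((i : ℕ) - 1))) * y ^ (n - (i : ℕ)) +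
        algebraMap K (Om K) (c i) * x ^ (i : ℕ) *
          (y * (((n - (i : ℕ) : ℕ) : Om K) * y ^ (n - (i : ℕ) - 1))) := by ring
    _ = algebraMap K (Om K) (c i) * x ^ (i : ℕ) * y ^ (n - (i : ℕ)) *
          (((i : ℕ) : Om K) + ((n - (i : ℕ) : ℕ) : Om K)) := by rw [h1, h2]; ring
    _ = _ := by rw [h3]; ring

omit [Fintype K] in
theorem bval_smul (n : ℕ) (c : Fin (n + 1) → K) (t x y : Om K) :
    bval n c (t * x) (t * y) = t ^ n * bval n c x y := by
  unfold bval
  rw [Finset.mul_sum]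
  apply Finset.sum_congr rfl
  intro i _
  have : t ^ n = t ^ (i : ℕ) * t ^ (n - (i : ℕ)) := by rw [← pow_add]; congr 1; have := i.2; omega
  rw [this, mul_pow, mul_pow]; ring

omit [Fintype K] in
theorem bval0_smul (n : ℕ) (c : Fin (n + 1) → K) (t x y : Om K) :
    t * bval0 n c (t * x) (t * y) = t ^ n * bval0 n c x y := by
  unfold bval0
  rw [Finset.mul_sum, Finset.mul_sum]
  apply Finset.sum_congr rfl
  intro i _
  rcases Nat.eq_zero_or_pos (i : ℕ) with h | h
  · rw [h]; simp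
  · obtain ⟨k, hk⟩ : ∃ k, (i : ℕ) = k + 1 := ⟨(i : ℕ) - 1, by omega⟩
    have : t ^ n = t * t ^ k * t ^ (n - (i : ℕ)) := by
      rw [← pow_succ', ← pow_add]; congr 1; have := i.2; omega
    rw [this, hk, Nat.add_sub_cancel, mul_pow, mul_pow]; ring

omit [Fintype K] in
theorem bval1_smul (n : ℕ) (c : Fin (n + 1) → K) (t x y : Om K) :
    t * bval1 n c (t * x) (t * y) = t ^ n * bval1 n c x y := by
  unfold bval1
  rw [Finset.mul_sum, Finset.mul_sum]
  apply Finset.sum_congr rfl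
  intro i _
  rcases Nat.eq_zero_or_pos (n - (i : ℕ)) with h | h
  · rw [h]; simp
  · obtain ⟨k, hk⟩ : ∃ k, n - (i : ℕ) = k + 1 := ⟨n - (i : ℕ) - 1, by omega⟩
    have : t ^ n = t * t ^ k * t ^ (i : ℕ) := by
      rw [← pow_succ', ← pow_add]; congr 1; have := i.2; omega
    rw [this, hk, Nat.add_sub_cancel, mul_pow, mul_pow]; ring

omit [Fintype K] in
theorem natDegree_pl (n : ℕ) (c : Fin (n + 1) → K) : (pl n c).natDegree ≤ n := by
  unfold pl
  apply Polynomial.natDegree_sum_le_of_forall_le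
  intro i _
  refine (Polynomial.natDegree_C_mul_X_pow_le _ _).trans ?_
  have := i.2
  omega

omit [Fintype K] in
theorem coeff_pl (n : ℕ) (c : Fin (n + 1) → K) (i : Fin (n + 1)) :
    (pl n c).coeff (i : ℕ) = c i := by
  unfold pl
  rw [Polynomial.finsetSum_coeff, Finset.sum_eq_single i]
  · simp
  · intro j _ hj
    rw [Polynomial.coeff_C_mul_X_pow, if_neg]
    intro h
    exact hj (Fin.ext h.symm)
  · intro h; exact absurd (Finset.mem_univ _) h

omit [Fintype K] in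
theorem eval_up_pl (n : ℕ) (c : Fin (n + 1) → K) (t : Om K) :
    (up (pl n c)).eval t = bval n c t 1 := by
  unfold up pl bval
  rw [Polynomial.map_sum, Polynomial.eval_finsetSum]
  apply Finset.sum_congr rfl
  intro i _
  simp

omit [Fintype K] in
theorem derivative_up_pl (n : ℕ) (c : Fin (n + 1) → K) (t : Om K) :
    (Polynomial.derivative (up (pl n c))).eval t = bval0 n c t 1 := by
  unfold up pl bval0
  rw [Polynomial.map_sum, Polynomial.derivative_sum, Polynomial.eval_finsetSum]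
  apply Finset.sum_congr rfl
  intro i _
  simp [Polynomial.derivative_X_pow]

theorem coeff_up_pl_top (n : ℕ) (c : Fin (n + 1) → K) : (up (pl n c)).coeff n = bval n c 1 0 := by
  rw [coeff_up]
  have h := coeff_pl n c (Fin.last n)
  rw [Fin.val_last] at h
  rw [h]
  unfold bval
  rw [Finset.sum_eq_single (Fin.last n)]
  · simp
  · intro j _ hj
    have : n - (j : ℕ) ≠ 0 := by
      have := j.2
      intro h0
      apply hj
      apply Fin.ext
      rw [Fin.val_last]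
      omega
    rw [zero_pow this, mul_zero]
  · intro h; exact absurd (Finset.mem_univ _) h

theorem coeff_up_pl_pred (n : ℕ) (hn : 1 ≤ n) (c : Fin (n + 1) → K) :
    (up (pl n c)).coeff (n - 1) = bval1 n c 1 0 := by
  rw [coeff_up]
  have hlt : n - 1 < n + 1 := by omega
  have h := coeff_pl n c ⟨n - 1, hlt⟩
  simp only at h
  rw [h]
  unfold bval1
  rw [Finset.sum_eq_single ⟨n - 1, hlt⟩]
  · have h1 : n - (n - 1) = 1 := by omega
    simp [h1]
  · intro j _ hj
    by_cases h0 : n - (j : ℕ) = 0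
    · rw [h0]; simp
    · have : n - (j : ℕ) - 1 ≠ 0 := by
        have := j.2
        intro h1
        apply hj
        apply Fin.ext
        simp only
        omega
      rw [zero_pow this, mul_zero, mul_zero]
  · intro h; exact absurd (Finset.mem_univ _) h

/-- the cubic in `Y` attached to a surface -/
def cubA (a : (Fin 3 → K) × (Fin 5 → K) × (Fin 7 → K)) : Polynomial (Polynomial K) :=
  cub (pl 2 a.1, pl 4 a.2.1, pl 6 a.2.2)

theorem WP_cubA (a : (Fin 3 → K) × (Fin 5 → K) × (Fin 7 → K)) : WP 2 3 (cubA a) :=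
  WP_cub (natDegree_pl 2 _) (natDegree_pl 4 _) (natDegree_pl 6 _)

theorem up2_cubA (a : (Fin 3 → K) × (Fin 5 → K) × (Fin 7 → K)) :
    up2 (cubA a) = cub (up (pl 2 a.1), up (pl 4 a.2.1), up (pl 6 a.2.2)) := up2_cub _

theorem fs_ev_none (n : ℕ) (P : Polynomial (Om K)) : ev n P none = P.coeff n := rfl

theorem fs_dv_none (n : ℕ) (P : Polynomial (Om K)) :
    dv n P none ↔ P.coeff n = 0 ∧ P.coeff (n - 1) = 0 := Iff.rfl

theorem sing_fin (a : (Fin 3 → K) × (Fin 5 → K) × (Fin 7 → K)) (t v : Om K) :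
    Sing 2 3 (up2 (cubA a)) (some t) v ↔
      3 * v ^ 2 + 2 * bval 2 a.1 t 1 * v + bval 4 a.2.1 t 1 = 0 ∧
      v ^ 3 + bval 2 a.1 t 1 * v ^ 2 + bval 4 a.2.1 t 1 * v + bval 6 a.2.2 t 1 = 0 ∧
      bval0 2 a.1 t 1 * v ^ 2 + bval0 4 a.2.1 t 1 * v + bval0 6 a.2.2 t 1 = 0 := by
  have h := sing_iff (w := 2) (d := 3) (p := some t) (s := (Polynomial.C v : Polynomial (Om K)))
    (WP_up2 (WP_cubA a)) (by norm_num) (by norm_num) (by simp)
  have hev : ev 2 (Polynomial.C v : Polynomial (Om K)) (some t) = v := by simp [ev]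
  rw [hev] at h
  rw [h, up2_cubA]
  have h1 : ev (2 * (3 - 1)) ((Polynomial.derivative (cub (up (pl 2 a.1), up (pl 4 a.2.1),
      up (pl 6 a.2.2)))).eval (Polynomial.C v)) (some t) =
      3 * v ^ 2 + 2 * bval 2 a.1 t 1 * v + bval 4 a.2.1 t 1 := by
    simp only [ev, cub, Polynomial.derivative_add, Polynomial.derivative_mul, Polynomial.derivative_C,
      Polynomial.derivative_X_pow, Polynomial.derivative_X, Polynomial.eval_add, Polynomial.eval_mul,
      Polynomial.eval_C, Polynomial.eval_X, Polynomial.eval_pow, Polynomial.eval_zero,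
      Polynomial.eval_one, eval_up_pl, Polynomial.eval_natCast]
    push_cast
    ring
  have h2 : dv (2 * 3) ((cub (up (pl 2 a.1), up (pl 4 a.2.1), up (pl 6 a.2.2))).eval
      (Polynomial.C v)) (some t) ↔
      v ^ 3 + bval 2 a.1 t 1 * v ^ 2 + bval 4 a.2.1 t 1 * v + bval 6 a.2.2 t 1 = 0 ∧
      bval0 2 a.1 t 1 * v ^ 2 + bval0 4 a.2.1 t 1 * v + bval0 6 a.2.2 t 1 = 0 := by
    simp only [dv, cub, Polynomial.eval_add, Polynomial.eval_mul,
      Polynomial.eval_C, Polynomial.eval_X, Polynomial.eval_pow, eval_up_pl,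
      ← Polynomial.C_pow,
      Polynomial.derivative_add, Polynomial.derivative_mul, Polynomial.derivative_C,
      Polynomial.eval_zero, derivative_up_pl,
      mul_zero, add_zero, zero_add]
  rw [h1, h2]

theorem sing_inf (a : (Fin 3 → K) × (Fin 5 → K) × (Fin 7 → K)) (v : Om K) :
    Sing 2 3 (up2 (cubA a)) none v ↔
      3 * v ^ 2 + 2 * bval 2 a.1 1 0 * v + bval 4 a.2.1 1 0 = 0 ∧
      v ^ 3 + bval 2 a.1 1 0 * v ^ 2 + bval 4 a.2.1 1 0 * v + bval 6 a.2.2 1 0 = 0 ∧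
      bval1 2 a.1 1 0 * v ^ 2 + bval1 4 a.2.1 1 0 * v + bval1 6 a.2.2 1 0 = 0 := by
  have hs : (Polynomial.C v * Polynomial.X ^ 2 : Polynomial (Om K)).natDegree ≤ 2 :=
    Polynomial.natDegree_C_mul_X_pow_le _ _
  have h := sing_iff (w := 2) (d := 3) (p := none)
    (s := (Polynomial.C v * Polynomial.X ^ 2 : Polynomial (Om K)))
    (WP_up2 (WP_cubA a)) (by norm_num) (by norm_num) hs
  have hev : ev 2 (Polynomial.C v * Polynomial.X ^ 2 : Polynomial (Om K)) none = v := by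
    simp [ev]
  rw [hev] at h
  rw [h, up2_cubA]
  have e1 : (Polynomial.derivative (cub (up (pl 2 a.1), up (pl 4 a.2.1),
      up (pl 6 a.2.2)))).eval (Polynomial.C v * Polynomial.X ^ 2) =
      Polynomial.C (3 * v ^ 2) * Polynomial.X ^ 4 +
        Polynomial.C (2 * v) * (up (pl 2 a.1) * Polynomial.X ^ 2) + up (pl 4 a.2.1) := by
    simp only [cub, Polynomial.derivative_add, Polynomial.derivative_mul, Polynomial.derivative_C,
      Polynomial.derivative_X_pow, Polynomial.derivative_X, Polynomial.eval_add, Polynomial.eval_mul,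
      Polynomial.eval_C, Polynomial.eval_X, Polynomial.eval_pow, Polynomial.eval_zero,
      Polynomial.eval_one, Polynomial.C_mul, Polynomial.C_pow]
    have hC2 : (Polynomial.C (2 : Om K)) = 2 := rfl
    have hC3 : (Polynomial.C (3 : Om K)) = 3 := rfl
    rw [hC2, hC3]
    push_cast
    ring
  have e2 : (cub (up (pl 2 a.1), up (pl 4 a.2.1), up (pl 6 a.2.2))).eval
      (Polynomial.C v * Polynomial.X ^ 2) =
      Polynomial.C (v ^ 3) * Polynomial.X ^ 6 +
        Polynomial.C (v ^ 2) * (up (pl 2 a.1) * Polynomial.X ^ 4) +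
        Polynomial.C v * (up (pl 4 a.2.1) * Polynomial.X ^ 2) + up (pl 6 a.2.2) := by
    simp only [cub, Polynomial.eval_add, Polynomial.eval_mul,
      Polynomial.eval_C, Polynomial.eval_X, Polynomial.eval_pow, Polynomial.C_mul, Polynomial.C_pow]
    ring
  have c24 : (up (pl 2 a.1) * Polynomial.X ^ 2).coeff 4 = bval 2 a.1 1 0 :=
    (Polynomial.coeff_mul_X_pow _ 2 2).trans (coeff_up_pl_top 2 a.1)
  have c26 : (up (pl 2 a.1) * Polynomial.X ^ 4).coeff 6 = bval 2 a.1 1 0 :=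
    (Polynomial.coeff_mul_X_pow _ 4 2).trans (coeff_up_pl_top 2 a.1)
  have c25 : (up (pl 2 a.1) * Polynomial.X ^ 4).coeff 5 = bval1 2 a.1 1 0 :=
    (Polynomial.coeff_mul_X_pow _ 4 1).trans (coeff_up_pl_pred 2 (by norm_num) a.1)
  have c46 : (up (pl 4 a.2.1) * Polynomial.X ^ 2).coeff 6 = bval 4 a.2.1 1 0 :=
    (Polynomial.coeff_mul_X_pow _ 2 4).trans (coeff_up_pl_top 4 a.2.1)
  have c45 : (up (pl 4 a.2.1) * Polynomial.X ^ 2).coeff 5 = bval1 4 a.2.1 1 0 :=
    (Polynomial.coeff_mul_X_pow _ 2 3).trans (coeff_up_pl_pred 4 (by norm_num) a.2.1)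
  have c44 : (up (pl 4 a.2.1)).coeff 4 = bval 4 a.2.1 1 0 := coeff_up_pl_top 4 a.2.1
  have c66 : (up (pl 6 a.2.2)).coeff 6 = bval 6 a.2.2 1 0 := coeff_up_pl_top 6 a.2.2
  have c65 : (up (pl 6 a.2.2)).coeff 5 = bval1 6 a.2.2 1 0 := coeff_up_pl_pred 6 (by norm_num) a.2.2
  have h1 : ev (2 * (3 - 1)) (Polynomial.C (3 * v ^ 2) * Polynomial.X ^ 4 +
        Polynomial.C (2 * v) * (up (pl 2 a.1) * Polynomial.X ^ 2) + up (pl 4 a.2.1)) none =
      3 * v ^ 2 + 2 * bval 2 a.1 1 0 * v + bval 4 a.2.1 1 0 := by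
    rw [show 2 * (3 - 1) = 4 from rfl, fs_ev_none, Polynomial.coeff_add, Polynomial.coeff_add, Polynomial.coeff_C_mul_X_pow, Polynomial.coeff_C_mul,
      c24, c44, if_pos rfl]
    ring
  have h2 : dv (2 * 3) (Polynomial.C (v ^ 3) * Polynomial.X ^ 6 +
        Polynomial.C (v ^ 2) * (up (pl 2 a.1) * Polynomial.X ^ 4) +
        Polynomial.C v * (up (pl 4 a.2.1) * Polynomial.X ^ 2) + up (pl 6 a.2.2)) none ↔
      v ^ 3 + bval 2 a.1 1 0 * v ^ 2 + bval 4 a.2.1 1 0 * v + bval 6 a.2.2 1 0 = 0 ∧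
      bval1 2 a.1 1 0 * v ^ 2 + bval1 4 a.2.1 1 0 * v + bval1 6 a.2.2 1 0 = 0 := by
    rw [show 2 * 3 = 6 from rfl, fs_dv_none, show 6 - 1 = 5 from rfl, Polynomial.coeff_add, Polynomial.coeff_add, Polynomial.coeff_add, Polynomial.coeff_C_mul_X_pow,
      Polynomial.coeff_C_mul, Polynomial.coeff_C_mul, c26, c46, c66, if_pos rfl,
      Polynomial.coeff_add, Polynomial.coeff_add, Polynomial.coeff_add, Polynomial.coeff_C_mul_X_pow,
      Polynomial.coeff_C_mul, Polynomial.coeff_C_mul, c25, c45, c65, if_neg (by norm_num), zero_add,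
      mul_comm (v ^ 2), mul_comm v (bval 4 a.2.1 1 0), mul_comm (v ^ 2), mul_comm v (bval1 4 a.2.1 1 0)]
  rw [e1, e2, h1, h2]

omit [Fintype K] in
theorem aeval_sext (a : (Fin 3 → K) × (Fin 5 → K) × (Fin 7 → K)) (P : Fin 4 → Om K) :
    MvPolynomial.aeval P (sext a) = P 3 ^ 2 - (P 2 ^ 3 + bval 2 a.1 (P 0) (P 1) * P 2 ^ 2 +
      bval 4 a.2.1 (P 0) (P 1) * P 2 + bval 6 a.2.2 (P 0) (P 1)) := by
  unfold sext
  simp only [map_sub, map_add, map_mul, map_pow, MvPolynomial.aeval_X, aeval_inc_bf]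

omit [Fintype K] in
theorem aeval_pd3 (a : (Fin 3 → K) × (Fin 5 → K) × (Fin 7 → K)) (P : Fin 4 → Om K) :
    MvPolynomial.aeval P (MvPolynomial.pderiv 3 (sext a)) = 2 * P 3 := by
  unfold sext
  simp only [map_sub, map_add, Derivation.leibniz, Derivation.leibniz_pow,
    pderiv_inc_ne (3 : Fin 4) (by decide) (by decide), MvPolynomial.pderiv_X_self,
    MvPolynomial.pderiv_X_of_ne (show (2 : Fin 4) ≠ 3 by decide)]
  simp

omit [Fintype K] in
theorem aeval_pd2 (a : (Fin 3 → K) × (Fin 5 → K) × (Fin 7 → K)) (P : Fin 4 → Om K) :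
    MvPolynomial.aeval P (MvPolynomial.pderiv 2 (sext a)) = -(3 * P 2 ^ 2 +
      2 * bval 2 a.1 (P 0) (P 1) * P 2 + bval 4 a.2.1 (P 0) (P 1)) := by
  unfold sext
  simp only [map_sub, map_add, Derivation.leibniz, Derivation.leibniz_pow,
    pderiv_inc_ne (2 : Fin 4) (by decide) (by decide), MvPolynomial.pderiv_X_self,
    MvPolynomial.pderiv_X_of_ne (show (3 : Fin 4) ≠ 2 by decide)]
  simp [aeval_inc_bf]
  ring

omit [Fintype K] in
theorem aeval_pd0 (a : (Fin 3 → K) × (Fin 5 → K) × (Fin 7 → K)) (P : Fin 4 → Om K) :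
    MvPolynomial.aeval P (MvPolynomial.pderiv 0 (sext a)) = -(bval0 2 a.1 (P 0) (P 1) * P 2 ^ 2 +
      bval0 4 a.2.1 (P 0) (P 1) * P 2 + bval0 6 a.2.2 (P 0) (P 1)) := by
  unfold sext
  simp only [map_sub, map_add, Derivation.leibniz, Derivation.leibniz_pow,
    MvPolynomial.pderiv_X_of_ne (show (2 : Fin 4) ≠ 0 by decide),
    MvPolynomial.pderiv_X_of_ne (show (3 : Fin 4) ≠ 0 by decide)]
  simp [aeval_pderiv0]
  ring

omit [Fintype K] in
theorem aeval_pd1 (a : (Fin 3 → K) × (Fin 5 → K) × (Fin 7 → K)) (P : Fin 4 → Om K) :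
    MvPolynomial.aeval P (MvPolynomial.pderiv 1 (sext a)) = -(bval1 2 a.1 (P 0) (P 1) * P 2 ^ 2 +
      bval1 4 a.2.1 (P 0) (P 1) * P 2 + bval1 6 a.2.2 (P 0) (P 1)) := by
  unfold sext
  simp only [map_sub, map_add, Derivation.leibniz, Derivation.leibniz_pow,
    MvPolynomial.pderiv_X_of_ne (show (2 : Fin 4) ≠ 1 by decide),
    MvPolynomial.pderiv_X_of_ne (show (3 : Fin 4) ≠ 1 by decide)]
  simp [aeval_pderiv1]
  ring

end

end

end Pool.Agent.Helper19.DP1
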