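import Pool.Agent.Helper19.DP1.FSmooth

/-! Jacobian criterion: smoothness of the sextic in terms of `Bad`, conclusion. -/

namespace Pool.Agent.Helper19.DP1

noncomputable section

section
variable {K : Type*} [Field K]

/-- the equations of a singular point with `y = 0` -/
def SP (a : (Fin 3 → K) × (Fin 5 → K) × (Fin 7 → K)) (x y z : Om K) : Prop :=
  z ^ 3 + bval 2 a.1 x y * z ^ 2 + bval 4 a.2.1 x y * z + bval 6 a.2.2 x y = 0 ∧
  3 * z ^ 2 + 2 * bval 2 a.1 x y * z + bval 4 a.2.1 x y = 0 ∧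
  bval0 2 a.1 x y * z ^ 2 + bval0 4 a.2.1 x y * z + bval0 6 a.2.2 x y = 0 ∧
  bval1 2 a.1 x y * z ^ 2 + bval1 4 a.2.1 x y * z + bval1 6 a.2.2 x y = 0

theorem SP_smul {a : (Fin 3 → K) × (Fin 5 → K) × (Fin 7 → K)} {x y z : Om K} (h : SP a x y z)
    {t : Om K} (ht : t ≠ 0) : SP a (t * x) (t * y) (t ^ 2 * z) := by
  obtain ⟨h1, h2, h3, h4⟩ := h
  refine ⟨?_, ?_, ?_, ?_⟩
  · rw [bval_smul, bval_smul, bval_smul]
    linear_combination t ^ 6 * h1
  · rw [bval_smul, bval_smul]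
    linear_combination t ^ 4 * h2
  · apply mul_left_cancel₀ ht
    linear_combination t ^ 6 * h3 + t ^ 4 * z ^ 2 * bval0_smul 2 a.1 t x y +
      t ^ 2 * z * bval0_smul 4 a.2.1 t x y + bval0_smul 6 a.2.2 t x y
  · apply mul_left_cancel₀ ht
    linear_combination t ^ 6 * h4 + t ^ 4 * z ^ 2 * bval1_smul 2 a.1 t x y +
      t ^ 2 * z * bval1_smul 4 a.2.1 t x y + bval1_smul 6 a.2.2 t x y

theorem bval_zero (n : ℕ) (hn : n ≠ 0) (c : Fin (n + 1) → K) : bval n c 0 0 = 0 := by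
  have h := bval_smul n c 0 0 0
  rw [mul_zero, zero_pow hn, zero_mul] at h
  exact h

theorem SP_zero {a : (Fin 3 → K) × (Fin 5 → K) × (Fin 7 → K)} {z : Om K} (h : SP a 0 0 z) :
    z = 0 := by
  have h1 := h.1
  rw [bval_zero 2 (by norm_num), bval_zero 4 (by norm_num), bval_zero 6 (by norm_num)] at h1
  have h2 : z ^ 3 = 0 := by linear_combination h1
  exact pow_eq_zero_iff (by norm_num) |>.mp h2

theorem SP_of_sing (h2 : (2 : K) ≠ 0) {a : (Fin 3 → K) × (Fin 5 → K) × (Fin 7 → K)}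
    {P : Fin 4 → Om K} (h : MvPolynomial.aeval P (sext a) = 0)
    (hp : ∀ i, MvPolynomial.aeval P (MvPolynomial.pderiv i (sext a)) = 0) :
    P 3 = 0 ∧ SP a (P 0) (P 1) (P 2) := by
  have hO : (2 : Om K) ≠ 0 := by
    have := (map_ne_zero (algebraMap K (Om K))).mpr h2
    rwa [map_ofNat] at this
  have h3 : P 3 = 0 := by
    have := hp 3
    rw [aeval_pd3] at this
    exact (mul_eq_zero.mp this).resolve_left hO
  refine ⟨h3, ?_, ?_, ?_, ?_⟩
  · rw [aeval_sext, h3] at h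
    linear_combination -h
  · have := hp 2
    rw [aeval_pd2] at this
    exact neg_eq_zero.mp this
  · have := hp 0
    rw [aeval_pd0] at this
    exact neg_eq_zero.mp this
  · have := hp 1
    rw [aeval_pd1] at this
    exact neg_eq_zero.mp this

theorem not_smooth_of_SP {a : (Fin 3 → K) × (Fin 5 → K) × (Fin 7 → K)} {x y z : Om K}
    (h : SP a x y z) (hxy : x ≠ 0 ∨ y ≠ 0) : ¬ Smooth4 (sext a) := by
  intro hs
  obtain ⟨h1, h2, h3, h4⟩ := h
  have hP : (![x, y, z, 0] : Fin 4 → Om K) ≠ 0 := by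
    intro h
    rcases hxy with hx | hy
    · exact hx (congrFun h 0)
    · exact hy (congrFun h 1)
  obtain ⟨i, hi⟩ := hs ![x, y, z, 0] hP (by
    rw [aeval_sext]
    show (0 : Om K) ^ 2 - (z ^ 3 + bval 2 a.1 x y * z ^ 2 + bval 4 a.2.1 x y * z + bval 6 a.2.2 x y) = 0
    rw [h1]; ring)
  apply hi
  fin_cases i
  · refine (aeval_pd0 a _).trans ?_
    show -(bval0 2 a.1 x y * z ^ 2 + bval0 4 a.2.1 x y * z + bval0 6 a.2.2 x y) = 0
    rw [h3, neg_zero]
  · refine (aeval_pd1 a _).trans ?_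
    show -(bval1 2 a.1 x y * z ^ 2 + bval1 4 a.2.1 x y * z + bval1 6 a.2.2 x y) = 0
    rw [h4, neg_zero]
  · refine (aeval_pd2 a _).trans ?_
    show -(3 * z ^ 2 + 2 * bval 2 a.1 x y * z + bval 4 a.2.1 x y) = 0
    rw [h2, neg_zero]
  · refine (aeval_pd3 a _).trans ?_
    show (2 : Om K) * 0 = 0
    rw [mul_zero]

end

section
variable {K : Type*} [Field K] [Fintype K]

theorem smooth_iff (h2 : (2 : K) ≠ 0) (a : (Fin 3 → K) × (Fin 5 → K) × (Fin 7 → K)) :
    Smooth4 (sext a) ↔ ∀ p, ¬ Bad 2 3 (up2 (cubA a)) p := by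
  constructor
  · rintro hs (_ | t) ⟨v, hv⟩
    · rw [sing_inf] at hv
      obtain ⟨e2, e1, e4⟩ := hv
      refine not_smooth_of_SP (a := a) (x := 1) (y := 0) (z := v) ⟨e1, e2, ?_, e4⟩
        (Or.inl one_ne_zero) hs
      have u2 := euler 2 a.1 1 0
      have u4 := euler 4 a.2.1 1 0
      have u6 := euler 6 a.2.2 1 0
      push_cast at u2 u4 u6
      linear_combination v ^ 2 * u2 + v * u4 + u6 + 6 * e1 - 2 * v * e2
    · rw [sing_fin] at hv
      obtain ⟨e2, e1, e3⟩ := hv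
      refine not_smooth_of_SP (a := a) (x := t) (y := 1) (z := v) ⟨e1, e2, e3, ?_⟩
        (Or.inr one_ne_zero) hs
      have u2 := euler 2 a.1 t 1
      have u4 := euler 4 a.2.1 t 1
      have u6 := euler 6 a.2.2 t 1
      push_cast at u2 u4 u6
      linear_combination v ^ 2 * u2 + v * u4 + u6 + 6 * e1 - 2 * v * e2 - t * e3
  · intro hb P hP hF
    by_contra hcon
    push Not at hcon
    obtain ⟨h3, hSP⟩ := SP_of_sing h2 hF hcon
    by_cases hy : P 1 = 0
    · by_cases hx : P 0 = 0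
      · rw [hx, hy] at hSP
        have hz := SP_zero hSP
        apply hP
        funext i
        fin_cases i
        · exact hx
        · exact hy
        · exact hz
        · exact h3
      · have h := SP_smul hSP (inv_ne_zero hx)
        rw [inv_mul_cancel₀ hx, hy, mul_zero] at h
        apply hb none
        refine ⟨(P 0)⁻¹ ^ 2 * P 2, ?_⟩
        rw [sing_inf]
        exact ⟨h.2.1, h.1, h.2.2.2⟩
    · have h := SP_smul hSP (inv_ne_zero hy)
      rw [inv_mul_cancel₀ hy] at h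
      apply hb (some ((P 1)⁻¹ * P 0))
      refine ⟨(P 1)⁻¹ ^ 2 * P 2, ?_⟩
      rw [sing_fin]
      exact ⟨h.2.1, h.1, h.2.2.1⟩

end

end

end Pool.Agent.Helper19.DP1
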