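import Pool.Agent.Helper19.DP1.Core3a

/-! M1: similitudes of binary quadratic forms over a finite field. -/

namespace Pool.Agent.Helper19.DP1
open Polynomial Classical
noncomputable section

set_option linter.unusedSectionVars false

section
variable {K : Type*} [Field K] [Fintype K]

theorem m1_card_odd (h2 : (2 : K) ≠ 0) : Fintype.card K % 2 = 1 := by
  apply FiniteField.odd_card_of_char_ne_two
  intro h
  apply h2
  have := ringChar.Nat.cast_ringChar (R := K)
  rw [h] at this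
  exact_mod_cast this

/-- a nondegenerate binary quadratic form over a finite field represents everything -/
theorem m1_repr (h2 : (2 : K) ≠ 0) (α β γ ν : K) (hΔ : β ^ 2 - 4 * α * γ ≠ 0) :
    ∃ u v : K, u ^ 2 + β * u * v + α * γ * v ^ 2 = ν := by
  have hf : (X ^ 2 - C (4 * ν) : K[X]).degree = 2 := by
    simpa using degree_X_pow_sub_C (n := 2) (by norm_num) (4 * ν)
  have hg : (C (-(β ^ 2 - 4 * α * γ)) * X ^ 2 : K[X]).degree = 2 := by
    rw [degree_C_mul_X_pow 2 (neg_ne_zero.mpr hΔ)]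
    rfl
  obtain ⟨x, y, hxy⟩ := FiniteField.exists_root_sum_quadratic hf hg (m1_card_odd h2)
  simp only [eval_sub, eval_pow, eval_X, eval_C, eval_mul] at hxy
  refine ⟨(x - β * y) / 2, y, ?_⟩
  field_simp
  linear_combination hxy

theorem m1_disc (u v : K) (a b : K[X]) :
    disc2 (C u * a + C v * b) = u ^ 2 * disc2 a + u * v * pol2 a b + v ^ 2 * disc2 b := by
  simp only [disc2, pol2, coeff_add, coeff_C_mul]
  ring

theorem m1_pol (u v u' v' : K) (a b : K[X]) :
    pol2 (C u * a + C v * b) (C u' * a + C v' * b) =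
      2 * u * u' * disc2 a + (u * v' + v * u') * pol2 a b + 2 * v * v' * disc2 b := by
  simp only [disc2, pol2, coeff_add, coeff_C_mul]
  ring

/-- M1 (similitudes of binary quadratic forms) -/
theorem sum_sim (h2 : (2 : K) ≠ 0) (Φ : K → K → K → ℤ) (ν : K) (hν : ν ≠ 0)
    (hΦ : ∀ α β γ, Φ (ν * α) (ν * β) (ν * γ) = - Φ α β γ) :
    ∑ a ∈ V K 2, ∑ b ∈ V K 2,
      (if pol2 a b ^ 2 - 4 * disc2 a * disc2 b ≠ 0 then Φ (disc2 a) (pol2 a b) (disc2 b) else 0)
      = 0 := by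
  classical
  -- choice of the similitude
  have hex : ∀ α β γ : K, ∃ w : K × K, β ^ 2 - 4 * α * γ ≠ 0 →
      w.1 ^ 2 + β * w.1 * w.2 + α * γ * w.2 ^ 2 = ν := by
    intro α β γ
    by_cases h : β ^ 2 - 4 * α * γ ≠ 0
    · obtain ⟨u, v, huv⟩ := m1_repr h2 α β γ ν h
      exact ⟨(u, v), fun _ => huv⟩
    · exact ⟨0, fun h' => absurd h' h⟩
  choose w hw using hex
  let W : K[X] × K[X] → K × K := fun x => w (disc2 x.1) (pol2 x.1 x.2) (disc2 x.2)
  let F : K[X] × K[X] → K[X] × K[X] := fun x =>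
    (C (W x).1 * x.1 + C (disc2 x.1 * (W x).2) * x.2,
      C (-(disc2 x.2 * (W x).2)) * x.1 + C ((W x).1 + pol2 x.1 x.2 * (W x).2) * x.2)
  set S : Finset (K[X] × K[X]) := (V K 2 ×ˢ V K 2).filter
    (fun x => pol2 x.1 x.2 ^ 2 - 4 * disc2 x.1 * disc2 x.2 ≠ 0) with hS
  have hWx : ∀ x ∈ S, (W x).1 ^ 2 + pol2 x.1 x.2 * (W x).1 * (W x).2 +
      disc2 x.1 * disc2 x.2 * (W x).2 ^ 2 = ν := by
    intro x hx
    rw [hS, Finset.mem_filter] at hx
    exact hw _ _ _ hx.2
  have hF1 : ∀ x ∈ S, disc2 (F x).1 = ν * disc2 x.1 := by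
    intro x hx
    simp only [F]
    rw [m1_disc, ← hWx x hx]
    ring
  have hF2 : ∀ x ∈ S, disc2 (F x).2 = ν * disc2 x.2 := by
    intro x hx
    simp only [F]
    rw [m1_disc, ← hWx x hx]
    ring
  have hF3 : ∀ x ∈ S, pol2 (F x).1 (F x).2 = ν * pol2 x.1 x.2 := by
    intro x hx
    simp only [F]
    rw [m1_pol, ← hWx x hx]
    ring
  have hFS : ∀ x ∈ S, F x ∈ S := by
    intro x hx
    have hx' := hx
    rw [hS, Finset.mem_filter, Finset.mem_product, mem_V, mem_V] at hx'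
    obtain ⟨⟨ha, hb⟩, hΔ⟩ := hx'
    have hd : ∀ u v : K, (C u * x.1 + C v * x.2).natDegree ≤ 2 := by
      intro u v
      refine (natDegree_add_le _ _).trans (max_le ?_ ?_)
      · exact (natDegree_C_mul_le _ _).trans ha
      · exact (natDegree_C_mul_le _ _).trans hb
    rw [hS, Finset.mem_filter, Finset.mem_product, mem_V, mem_V]
    refine ⟨⟨hd _ _, hd _ _⟩, ?_⟩
    rw [hF1 x hx, hF2 x hx, hF3 x hx]
    have : (ν * pol2 x.1 x.2) ^ 2 - 4 * (ν * disc2 x.1) * (ν * disc2 x.2) =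
        ν ^ 2 * (pol2 x.1 x.2 ^ 2 - 4 * disc2 x.1 * disc2 x.2) := by ring
    rw [this]
    exact mul_ne_zero (pow_ne_zero _ hν) hΔ
  have hFinj : ∀ x ∈ S, ∀ y ∈ S, F x = F y → x = y := by
    intro x hx y hy hxy
    have e1 : disc2 x.1 = disc2 y.1 := by
      apply mul_left_cancel₀ hν
      rw [← hF1 x hx, ← hF1 y hy, hxy]
    have e2 : disc2 x.2 = disc2 y.2 := by
      apply mul_left_cancel₀ hν
      rw [← hF2 x hx, ← hF2 y hy, hxy]
    have e3 : pol2 x.1 x.2 = pol2 y.1 y.2 := by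
      apply mul_left_cancel₀ hν
      rw [← hF3 x hx, ← hF3 y hy, hxy]
    have eW : W x = W y := by
      simp only [W]
      rw [e1, e2, e3]
    have h1 : (F x).1 = (F y).1 := by rw [hxy]
    have h2' : (F x).2 = (F y).2 := by rw [hxy]
    have hνx := hWx x hx
    simp only [F] at h1 h2'
    rw [← eW, ← e1] at h1
    rw [← eW, ← e2, ← e3] at h2'
    simp only [C_add, C_mul, C_neg] at h1 h2'
    have hC : (C (W x).1) ^ 2 + C (pol2 x.1 x.2) * C (W x).1 * C (W x).2 +
      C (disc2 x.1) * C (disc2 x.2) * C (W x).2 ^ 2 = C ν := by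
      rw [← hνx]
      simp only [C_add, C_mul, C_pow]
    have hCν : (C ν : K[X]) ≠ 0 := C_ne_zero.mpr hν
    apply Prod.ext
    · apply mul_left_cancel₀ hCν
      rw [← hC]
      linear_combination (C (W x).1 + C (pol2 x.1 x.2) * C (W x).2) * h1 -
        (C (disc2 x.1) * C (W x).2) * h2'
    · apply mul_left_cancel₀ hCν
      rw [← hC]
      linear_combination (C (disc2 x.2) * C (W x).2) * h1 + (C (W x).1) * h2'
  have hsum : ∑ x ∈ S, Φ (disc2 (F x).1) (pol2 (F x).1 (F x).2) (disc2 (F x).2) =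
      ∑ x ∈ S, Φ (disc2 x.1) (pol2 x.1 x.2) (disc2 x.2) := by
    have hinj : Set.InjOn F S := fun x hx y hy h => hFinj x hx y hy h
    have himg : S.image F = S := by
      apply Finset.eq_of_subset_of_card_le
      · intro y hy
        obtain ⟨x, hx, rfl⟩ := Finset.mem_image.mp hy
        exact hFS x hx
      · rw [Finset.card_image_of_injOn hinj]
    conv_rhs => rw [← himg]
    rw [Finset.sum_image hinj]
  have hneg : ∑ x ∈ S, Φ (disc2 (F x).1) (pol2 (F x).1 (F x).2) (disc2 (F x).2) =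
      - ∑ x ∈ S, Φ (disc2 x.1) (pol2 x.1 x.2) (disc2 x.2) := by
    rw [← Finset.sum_neg_distrib]
    apply Finset.sum_congr rfl
    intro x hx
    rw [hF1 x hx, hF2 x hx, hF3 x hx, hΦ]
  have hzero : ∑ x ∈ S, Φ (disc2 x.1) (pol2 x.1 x.2) (disc2 x.2) = 0 := by
    linarith [hsum, hneg]
  rw [← Finset.sum_product' (V K 2) (V K 2) (fun a b =>
    if pol2 a b ^ 2 - 4 * disc2 a * disc2 b ≠ 0 then Φ (disc2 a) (pol2 a b) (disc2 b) else 0),
    ← Finset.sum_filter]
  exact hzero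

end

end
end Pool.Agent.Helper19.DP1
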