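import Pool.Agent.Helper19.DP1.Core2a
import Pool.Agent.Helper19.DP1.Core2b
import Pool.Agent.Helper19.DP1.Core6a
import Pool.Agent.Helper19.DP1.Core6b

/-!
# M2: structure of the singular cubic covers `WP 2 3` over an algebraically closed field
-/

set_option autoImplicit false

namespace Pool.Agent.Helper19.DP1
open Polynomial Classical
noncomputable section

section
variable {L : Type*} [Field L]

/-- evaluation as a linear map -/
def m2_evL (n : ℕ) (p : Option L) : L[X] →ₗ[L] L where
  toFun P := ev n P p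
  map_add' _ _ := ev_add
  map_smul' c P := by
    rw [smul_eq_C_mul, ev_C_mul]
    rfl

lemma m2_natDegree {n : ℕ} (x : degreeLT L (n + 1)) : (x : L[X]).natDegree ≤ n := by
  have h := mem_degreeLT.1 x.2
  by_cases h0 : (x : L[X]) = 0
  · simp [h0]
  · have := (natDegree_lt_iff_degree_lt h0).2 h
    omega

lemma m2_ker {V : Type*} [AddCommGroup V] [Module L V] [FiniteDimensional L V]
    (T : Finset (Option L)) (φ : Option L → V →ₗ[L] L) (h : T.card < Module.finrank L V) :
    ∃ x : V, x ≠ 0 ∧ ∀ p ∈ T, φ p x = 0 := by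
  have h1 : LinearMap.ker (LinearMap.pi (fun p : T => φ p)) ≠ ⊥ := by
    apply LinearMap.ker_ne_bot_of_finrank_lt
    simpa using h
  obtain ⟨x, hx, hx0⟩ := Submodule.exists_mem_ne_zero_of_ne_bot h1
  refine ⟨x, hx0, fun p hp => ?_⟩
  have h2 := congrFun (LinearMap.mem_ker.1 hx) ⟨p, hp⟩
  exact h2

lemma m2_finrank (n : ℕ) : Module.finrank L (degreeLT L n) = n := by
  rw [LinearEquiv.finrank_eq (degreeLTEquiv L n)]
  simp

instance m2_fd (n : ℕ) : FiniteDimensional L (degreeLT L n) :=
  Module.Finite.equiv (degreeLTEquiv L n).symm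

lemma m2_exists_pair {T : Finset (Option L)} {m n : ℕ} (hT : T.card < (m + 1) + (n + 1))
    (z : Option L → L) :
    ∃ l c : L[X], l.natDegree ≤ m ∧ c.natDegree ≤ n ∧ (l ≠ 0 ∨ c ≠ 0) ∧
      ∀ p ∈ T, ev m l p * z p + ev n c p = 0 := by
  obtain ⟨x, hx0, hx⟩ := m2_ker (V := degreeLT L (m + 1) × degreeLT L (n + 1)) T
    (fun p => z p • ((m2_evL m p).comp ((degreeLT L (m + 1)).subtype.comp (LinearMap.fst L _ _))) +
      (m2_evL n p).comp ((degreeLT L (n + 1)).subtype.comp (LinearMap.snd L _ _)))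
    (by rw [Module.finrank_prod, m2_finrank, m2_finrank]; exact hT)
  refine ⟨x.1, x.2, m2_natDegree _, m2_natDegree _, ?_, fun p hp => ?_⟩
  · by_contra hcon
    push Not at hcon
    apply hx0
    ext
    · simp [hcon.1]
    · simp [hcon.2]
  · have := hx p hp
    simp only [LinearMap.add_apply, LinearMap.smul_apply, LinearMap.comp_apply, smul_eq_mul,
      LinearMap.fst_apply, LinearMap.snd_apply, Submodule.subtype_apply] at this
    rw [mul_comm]
    exact this

/-- a bad point of a product of sections is an intersection of two of them -/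
lemma m2_prod_sing {w n : ℕ} (hw : 1 ≤ w) (hn : 1 ≤ n) {m : Fin n → L[X]}
    (hm : ∀ i, (m i).natDegree ≤ w) {p : Option L} (hb : Bad w n (∏ i, (X - C (m i))) p) :
    ∃ i j : Fin n, i < j ∧ ev w (m i - m j) p = 0 := by
  have hWP : ∀ k : ℕ, ∀ g : Fin k → L[X], (∀ i, (g i).natDegree ≤ w) →
      WP w k (∏ i, (X - C (g i))) ∧
        fib w k (∏ i, (X - C (g i))) p = ∏ i, (X - C (ev w (g i) p)) := by
    intro k
    induction k with
    | zero =>
      intro g _
      refine ⟨⟨by simp, by simp, ?_⟩, ?_⟩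
      · intro i hi
        have : i = 0 := by omega
        subst this
        simp
      · simp [fib]
        cases p <;> simp [ev]
    | succ k ih =>
      intro g hg
      obtain ⟨h1, h2⟩ := ih (fun i => g i.castSucc) (fun i => hg _)
      have h3 := WP_X_sub_C (hg (Fin.last k))
      rw [Fin.prod_univ_castSucc, Fin.prod_univ_castSucc]
      exact ⟨WP_mul h1 h3, by rw [fib_mul h1 h3, h2, fib_X_sub_C (hg _)]⟩
  obtain ⟨h1, h2⟩ := hWP n m hm
  obtain ⟨v, hv⟩ := hb
  have h3 := sing_fib h1 hw hn hv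
  rw [h2] at h3
  by_contra hcon
  push Not at hcon
  have hinj : Function.Injective (fun i => ev w (m i) p) := by
    intro i j hij
    by_contra hne
    simp only at hij
    rcases lt_or_gt_of_ne hne with h | h
    · apply hcon i j h
      rw [ev_sub, hij, sub_self]
    · apply hcon j i h
      rw [ev_sub, hij, sub_self]
  have h4 := (separable_prod_X_sub_C_iff.2 hinj).squarefree
  have h5 := h4 (X - C v) (by rw [← sq]; exact h3)
  exact (irreducible_X_sub_C v).not_isUnit h5

/-- count of bad points for products of sections -/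
lemma m2_prod_card {w n N : ℕ} (hw : 1 ≤ w) (hn : 1 ≤ n) {m : Fin n → L[X]}
    (hm : ∀ i, (m i).natDegree ≤ w) (hne : ∀ i j, i < j → m i ≠ m j)
    (hN : ((Finset.univ : Finset (Fin n × Fin n)).filter (fun x => x.1 < x.2)).card * w ≤ N) :
    {p | Bad w n (∏ i, (X - C (m i))) p}.Finite ∧
      Set.ncard {p | Bad w n (∏ i, (X - C (m i))) p} ≤ N := by
  set I := (Finset.univ : Finset (Fin n × Fin n)).filter (fun x => x.1 < x.2) with hI
  have hdeg : ∀ i j, (m i - m j).natDegree ≤ w := fun i j =>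
    (natDegree_sub_le _ _).trans (max_le (hm i) (hm j))
  have hsub : {p | Bad w n (∏ i, (X - C (m i))) p} ⊆
      ⋃ x ∈ I, {p | ev w (m x.1 - m x.2) p = 0} := by
    intro p hp
    obtain ⟨i, j, hij, h⟩ := m2_prod_sing hw hn hm hp
    simp only [Set.mem_iUnion]
    exact ⟨(i, j), by simp [hI, hij], h⟩
  have hfin : ∀ x ∈ I, {p | ev w (m x.1 - m x.2) p = 0}.Finite := by
    intro x hx
    simp only [hI, Finset.mem_filter] at hx
    exact finite_zeros (hdeg _ _) (sub_ne_zero.2 (hne _ _ hx.2))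
  have hfin' : (⋃ x ∈ I, {p | ev w (m x.1 - m x.2) p = 0}).Finite := I.finite_toSet.biUnion hfin
  refine ⟨hfin'.subset hsub, ?_⟩
  refine (Set.ncard_le_ncard hsub hfin').trans ?_
  refine (Finset.set_ncard_biUnion_le I _).trans ?_
  refine (Finset.sum_le_card_nsmul I _ w ?_).trans (by simpa using hN)
  intro x hx
  simp only [hI, Finset.mem_filter] at hx
  exact ncard_zeros (hdeg _ _) (sub_ne_zero.2 (hne _ _ hx.2))

/-- a set with a finite subset of six elements which forces finiteness, or a small set -/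
lemma m2_six {α : Type*} {S : Set α}
    (h : ∀ T : Finset α, T.card = 6 → (∀ p ∈ T, p ∈ S) → S.Finite ∧ S.ncard ≤ 6) :
    S.Finite ∧ S.ncard ≤ 6 := by
  by_cases hT : ∃ T : Finset α, T.card = 6 ∧ ∀ p ∈ T, p ∈ S
  · obtain ⟨T, h1, h2⟩ := hT
    exact h T h1 h2
  · push Not at hT
    have hfin : S.Finite := by
      by_contra hinf
      obtain ⟨T, hTS, hT6⟩ := Set.Infinite.exists_subset_card_eq hinf 6
      obtain ⟨p, hp, hp'⟩ := hT T hT6
      exact hp' (hTS hp)
    refine ⟨hfin, ?_⟩
    by_contra hcon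
    push Not at hcon
    rw [Set.ncard_eq_toFinset_card S hfin] at hcon
    obtain ⟨T, hTS, hT6⟩ := Finset.exists_subset_card_eq hcon.le
    obtain ⟨p, hp, hp'⟩ := hT T hT6
    exact hp' (hfin.mem_toFinset.1 (hTS hp))

/-- over an algebraically closed field a form with `n` double zeros and degree `2n` is a square -/
lemma m2_square [IsAlgClosed L] {n : ℕ} {P : L[X]} (hP : P.natDegree ≤ 2 * n)
    {T : Finset (Option L)} (hT : T.card = n) (h : ∀ p ∈ T, dv (2 * n) P p) :
    ∃ R : L[X], R.natDegree ≤ n ∧ P = R ^ 2 := by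
  obtain ⟨Q, hQ, hPQ⟩ := exists_mul_BT_sq (T := T) hP (by rw [hT]) h
  rw [hT, Nat.sub_self] at hQ
  have hQC := eq_C_of_natDegree_le_zero hQ
  obtain ⟨u, hu⟩ := IsAlgClosed.exists_pow_nat_eq (Q.coeff 0) (show 0 < 2 by norm_num)
  refine ⟨C u * BT T, ?_, ?_⟩
  · refine (natDegree_C_mul_le _ _).trans ?_
    rw [← hT]
    exact natDegree_BT T
  · rw [hPQ, hQC, ← hu, C_pow]
    ring

/-- completing the square -/
lemma m2_split (h2 : (2 : L) ≠ 0) {w : ℕ} {g : L[X][X]} (hg : WP w 2 g) {R : L[X]}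
    (hR : R.natDegree ≤ w) (h : g.coeff 1 ^ 2 - 4 * g.coeff 0 = R ^ 2) :
    ∃ c d : L[X], c.natDegree ≤ w ∧ d.natDegree ≤ w ∧ g = (X - C c) * (X - C d) := by
  have hg1 : (g.coeff 1).natDegree ≤ w := by simpa using hg.2.2 1 (by norm_num)
  have h2' : C (2⁻¹ : L) * 2 = 1 := by
    rw [show (2 : L[X]) = C 2 from (map_ofNat C 2).symm, ← C_mul, inv_mul_cancel₀ h2, C_1]
  refine ⟨C 2⁻¹ * (-g.coeff 1 + R), C 2⁻¹ * (-g.coeff 1 - R), ?_, ?_, ?_⟩
  · refine (natDegree_C_mul_le _ _).trans ?_
    refine (natDegree_add_le _ _).trans (max_le ?_ hR)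
    rwa [natDegree_neg]
  · refine (natDegree_C_mul_le _ _).trans ?_
    refine (natDegree_sub_le _ _).trans (max_le ?_ hR)
    rwa [natDegree_neg]
  · have hgg : g = X ^ 2 + C (g.coeff 1) * X + C (g.coeff 0) := by
      have h3 := hg.1.as_sum
      rw [hg.2.1] at h3
      rw [Finset.sum_range_succ, Finset.sum_range_one] at h3
      rw [h3]
      simp [add_comm, add_left_comm]
    have h4 : g.coeff 0 = C 2⁻¹ * (-g.coeff 1 + R) * (C 2⁻¹ * (-g.coeff 1 - R)) := by
      have h5 : C (2⁻¹ : L) * C 2⁻¹ * 4 = 1 := by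
        linear_combination (C (2⁻¹ : L) * 2 + 1) * h2'
      linear_combination (-(C (2⁻¹ : L) * C 2⁻¹)) * h + (-(g.coeff 0)) * h5
    have h6 : g.coeff 1 = -(C 2⁻¹ * (-g.coeff 1 + R) + C 2⁻¹ * (-g.coeff 1 - R)) := by
      linear_combination (-(g.coeff 1)) * h2'
    have h7 : g = X ^ 2 + C (-(C 2⁻¹ * (-g.coeff 1 + R) + C 2⁻¹ * (-g.coeff 1 - R))) * X +
        C (C 2⁻¹ * (-g.coeff 1 + R) * (C 2⁻¹ * (-g.coeff 1 - R))) := by
      rw [← h6, ← h4]; exact hgg
    refine h7.trans ?_
    simp only [C_neg, C_add, C_mul]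
    ring

end

section
variable {L : Type*} [Field L] [IsAlgClosed L] {f : L[X][X]} {T : Finset (Option L)}

omit [IsAlgClosed L] in
lemma m2_double_of_eval {w d : ℕ} (hf : WP w (d + 2) f) {s : L[X]} (hs : s.natDegree ≤ w)
    (h0 : f.eval s = 0) (h1 : f.derivative.eval s = 0) : (X - C s) ^ 2 ∣ f := by
  obtain ⟨g, hg, hfg⟩ := exists_factor (d := d + 1) hf hs h0
  have h2 : f.derivative.eval s = g.eval s := by
    rw [hfg]; simp [derivative_mul]
  rw [h2] at h1
  obtain ⟨h, hh, hgh⟩ := exists_factor hg hs h1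
  exact ⟨h, by rw [hfg, hgh]; ring⟩

/-- M2 -/
theorem cub_five (_h2 : (2 : L) ≠ 0) (hf : WP 2 3 f) (hT : T.card = 5)
    (hb : ∀ p ∈ T, Bad 2 3 f p) (hr : ∃ p, ¬ Bad 2 3 f p) :
    ∃ s : L[X], s.natDegree ≤ 2 ∧ f.eval s = 0 ∧
      (T.filter (fun p => Sing 2 3 f p (ev 2 s p))).card = 4 := by
  obtain ⟨p0, hp0⟩ := hr
  choose! z hz using hb
  obtain ⟨l, c, hl, hc, hne, hlc⟩ := m2_exists_pair (T := T) (m := 1) (n := 3)
    (by rw [hT]; norm_num) z
  set a2 := f.coeff 2 with ha2
  set a4 := f.coeff 1 with ha4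
  set a6 := f.coeff 0 with ha6
  have hd2 : a2.natDegree ≤ 2 := by simpa using hf.2.2 1 (by norm_num)
  have hd4 : a4.natDegree ≤ 4 := by simpa using hf.2.2 2 (by norm_num)
  have hd6 : a6.natDegree ≤ 6 := by simpa using hf.2.2 3 (by norm_num)
  have hfe := eq_cub hf
  have hfs : ∀ s : L[X], f.eval s = s ^ 3 + a2 * s ^ 2 + a4 * s + a6 := by
    intro s
    conv_lhs => rw [hfe]
    simp [cub, ha2, ha4, ha6]
  have hfs' : ∀ s : L[X], f.derivative.eval s = 3 * s ^ 2 + 2 * a2 * s + a4 := by
    intro s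
    conv_lhs => rw [hfe]
    simp [cub, ha2, ha4]
    ring
  have hG : -c ^ 3 + a2 * c ^ 2 * l - a4 * c * l ^ 2 + a6 * l ^ 3 = 0 := by
    apply eq_zero_of_dv (n := 9) (T := T) _ (by rw [hT]; norm_num)
    · intro p hp
      obtain ⟨s, hs, hsp, h3, h4⟩ := hz p hp
      have h3' : ev 4 (f.derivative.eval s) p = 0 := h3
      have h4' : dv 6 (f.eval s) p := h4
      set e := c + l * s with he
      have hed : e.natDegree ≤ 3 := (natDegree_add_le _ _).trans (max_le hc
        (natDegree_mul_le.trans (by omega)))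
      have hep : ev 3 e p = 0 := by
        rw [he, ev_add, ev_mul (m := 1) (n := 2) hl hs, hsp]
        have := hlc p hp
        linear_combination this
      have hed6 : (e * e).natDegree ≤ 6 := natDegree_mul_le.trans (by omega)
      have hfd : (f.eval s).natDegree ≤ 6 := natDegree_eval hf hs
      have hfd' : (f.derivative.eval s).natDegree ≤ 4 := natDegree_derivative_eval hf hs
      have k1 : dv 9 (f.eval s * l ^ 3) p :=
        dv_mul_right (m := 6) (n := 3) (by norm_num) hfd
          (natDegree_pow_le.trans (by omega)) h4'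
      have k2 : dv 9 ((f.derivative.eval s * e) * l ^ 2) p :=
        dv_mul_right (m := 7) (n := 2) (by norm_num) (natDegree_mul_le.trans (by omega))
          (natDegree_pow_le.trans (by omega))
          (dv_mul_of_ev (m := 4) (n := 3) (by norm_num) (by norm_num) hfd' hed h3' hep)
      have kee : dv 6 (e * e) p :=
        dv_mul_of_ev (m := 3) (n := 3) (by norm_num) (by norm_num) hed hed hep hep
      have hd3 : (l * (3 * s + a2)).natDegree ≤ 3 := by
        refine natDegree_mul_le.trans ?_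
        have h5 : (3 * s + a2).natDegree ≤ 2 := by
          refine (natDegree_add_le _ _).trans (max_le ?_ hd2)
          refine (natDegree_mul_le).trans ?_
          rw [show (3 : L[X]) = C 3 from (map_ofNat C 3).symm, natDegree_C]
          omega
        omega
      have k3 : dv 9 ((e * e) * (l * (3 * s + a2))) p :=
        dv_mul_right (m := 6) (n := 3) (by norm_num) hed6 hd3 kee
      have k4 : dv 9 ((e * e) * e) p := dv_mul_right (m := 6) (n := 3) (by norm_num) hed6 hed kee
      have k5 : -c ^ 3 + a2 * c ^ 2 * l - a4 * c * l ^ 2 + a6 * l ^ 3 =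
          (f.eval s * l ^ 3 + -((f.derivative.eval s * e) * l ^ 2)) +
            ((e * e) * (l * (3 * s + a2)) + -((e * e) * e)) := by
        rw [hfs, hfs', he]
        ring
      rw [k5]
      exact dv_add (dv_add k1 (dv_neg k2)) (dv_add k3 (dv_neg k4))
    · have e1 : (-c ^ 3).natDegree ≤ 9 := by
        rw [natDegree_neg]; exact natDegree_pow_le.trans (by omega)
      have e2 : (a2 * c ^ 2 * l).natDegree ≤ 9 := by
        have := natDegree_pow_le (p := c) (n := 2)
        refine natDegree_mul_le.trans ?_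
        have := natDegree_mul_le (p := a2) (q := c ^ 2)
        omega
      have e3 : (a4 * c * l ^ 2).natDegree ≤ 9 := by
        have := natDegree_pow_le (p := l) (n := 2)
        refine natDegree_mul_le.trans ?_
        have := natDegree_mul_le (p := a4) (q := c)
        omega
      have e4 : (a6 * l ^ 3).natDegree ≤ 9 := by
        have := natDegree_pow_le (p := l) (n := 3)
        refine natDegree_mul_le.trans ?_
        omega
      refine (natDegree_add_le _ _).trans (max_le ?_ e4)
      refine (natDegree_sub_le _ _).trans (max_le ?_ e3)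
      exact (natDegree_add_le _ _).trans (max_le e1 e2)
  have hl0 : l ≠ 0 := by
    rintro rfl
    have hc0 : c = 0 := by
      have : c ^ 3 = 0 := by linear_combination -hG
      exact pow_eq_zero_iff (by norm_num) |>.1 this
    rcases hne with h | h
    · exact h rfl
    · exact h hc0
  obtain ⟨r, hrl⟩ := exists_zero (n := 1) le_rfl hl
  obtain ⟨κ, hκ⟩ := eq_C_mul_lin hl hrl
  have hκ0 : κ ≠ 0 := by
    rintro rfl
    apply hl0
    rw [hκ]; simp
  have hcr : ev 3 c r = 0 := by
    have e1 : c ^ 3 = l * (a2 * c ^ 2 - a4 * c * l + a6 * l ^ 2) := by linear_combination -hG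
    have hdd : (a2 * c ^ 2 - a4 * c * l + a6 * l ^ 2).natDegree ≤ 8 := by
      have f1 := natDegree_pow_le (p := c) (n := 2)
      have f2 := natDegree_pow_le (p := l) (n := 2)
      have f3 := natDegree_mul_le (p := a2) (q := c ^ 2)
      have f4 := natDegree_mul_le (p := a4 * c) (q := l)
      have f5 := natDegree_mul_le (p := a4) (q := c)
      have f6 := natDegree_mul_le (p := a6) (q := l ^ 2)
      refine (natDegree_add_le _ _).trans (max_le ((natDegree_sub_le _ _).trans (max_le ?_ ?_)) ?_)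
      all_goals omega
    have e2 : ev 9 (c ^ 3) r = ev 3 c r ^ 3 := ev_pow (m := 3) hc 3
    have e3 : ev 9 (c ^ 3) r = 0 := by
      rw [e1, ev_mul (m := 1) (n := 8) hl hdd, hrl, zero_mul]
    rw [e2] at e3
    exact pow_eq_zero_iff (by norm_num) |>.1 e3
  obtain ⟨Q, hQ, hcQ⟩ := exists_mul_lin (n := 2) hc hcr
  set s : L[X] := -(C κ⁻¹ * Q) with hs
  have hsd : s.natDegree ≤ 2 := by
    rw [hs, natDegree_neg]
    exact (natDegree_C_mul_le _ _).trans hQ
  have hκC : C κ * C κ⁻¹ = (1 : L[X]) := by rw [← C_mul, mul_inv_cancel₀ hκ0, C_1]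
  have hcls : c = -(l * s) := by
    rw [hs, hκ, hcQ]
    linear_combination (-(lin r * Q)) * hκC
  have hfs0 : f.eval s = 0 := by
    have e1 : l ^ 3 * f.eval s = 0 := by
      rw [hfs]
      rw [hcls] at hG
      linear_combination hG
    rcases mul_eq_zero.1 e1 with h | h
    · exact absurd (pow_eq_zero_iff (by norm_num) |>.1 h) hl0
    · exact h
  refine ⟨s, hsd, hfs0, ?_⟩
  set S := T.filter (fun p => Sing 2 3 f p (ev 2 s p)) with hS
  apply le_antisymm
  · -- at most four
    by_contra hcon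
    push Not at hcon
    have h1 : f.derivative.eval s = 0 := by
      apply eq_zero_of_ev (n := 4) (T := S) (natDegree_derivative_eval hf hsd) hcon
      intro p hp
      have := (Finset.mem_filter.1 hp).2
      exact ((sing_iff hf (by norm_num) (by norm_num) hsd).1 this).1
    exact hp0 (bad_of_double hf (by norm_num) hsd (m2_double_of_eval (d := 1) hf hsd hfs0 h1) p0)
  · -- at least four
    have hsub : T.erase r ⊆ S := by
      intro p hp
      obtain ⟨hpr, hpT⟩ := Finset.mem_erase.1 hp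
      have hlp : ev 1 l p ≠ 0 := by
        rw [hκ, ev_C_mul]
        intro h0
        rcases mul_eq_zero.1 h0 with h | h
        · exact hκ0 h
        · exact hpr ((ev_lin r).1 h)
      have hzp : z p = ev 2 s p := by
        have e1 := hlc p hpT
        have e2 : ev 3 c p = -(ev 1 l p * ev 2 s p) := by
          rw [hcls, ev_neg, ev_mul (m := 1) (n := 2) hl hsd]
        rw [e2] at e1
        have e3 : ev 1 l p * (z p - ev 2 s p) = 0 := by linear_combination e1
        rcases mul_eq_zero.1 e3 with h | h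
        · exact absurd h hlp
        · exact sub_eq_zero.1 h
      rw [hS, Finset.mem_filter]
      exact ⟨hpT, hzp ▸ hz p hpT⟩
    have := Finset.card_le_card hsub
    have h5 := Finset.pred_card_le_card_erase (s := T) (a := r)
    omega

omit [IsAlgClosed L] in
/-- a singular point off a section which is contained in the curve -/
lemma m2_residual {w d : ℕ} {g : L[X][X]} (hw : 1 ≤ w) (hg : WP w d g) (hd : 1 ≤ d) {s : L[X]}
    (hs : s.natDegree ≤ w) {p : Option L} {v : L} (h : Sing w (1 + d) ((X - C s) * g) p v)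
    (hv : v ≠ ev w s p) : Sing w d g p v := by
  refine (sing_mul_right (WP_X_sub_C hs) hg hw hd ?_).1 h
  rw [fib_X_sub_C hs]
  simpa [sub_eq_zero] using hv

/-- M2 -/
theorem cub_six (h2 : (2 : L) ≠ 0) (hf : WP 2 3 f) (hT : T.card = 6)
    (hb : ∀ p ∈ T, Bad 2 3 f p) (hr : ∃ p, ¬ Bad 2 3 f p) :
    ∃ m : Fin 3 → L[X], (∀ i, (m i).natDegree ≤ 2) ∧ f = ∏ i, (X - C (m i)) ∧
      ∀ p ∈ T, ∃ i j : Fin 3, i < j ∧ ev 2 (m i - m j) p = 0 := by
  obtain ⟨T5, hT5, hT5c⟩ := Finset.exists_subset_card_eq (s := T) (n := 5) (by omega)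
  obtain ⟨s, hs, hfs, hS5⟩ := cub_five h2 hf hT5c (fun p hp => hb p (hT5 hp)) hr
  obtain ⟨p0, hp0⟩ := hr
  obtain ⟨Q, hQ, hfQ⟩ := exists_factor (d := 2) hf hs hfs
  set S := T.filter (fun p => Sing 2 3 f p (ev 2 s p)) with hS
  have hS4 : S.card = 4 := by
    apply le_antisymm
    · by_contra hcon
      push Not at hcon
      have h1 : f.derivative.eval s = 0 := by
        apply eq_zero_of_ev (n := 4) (T := S) (natDegree_derivative_eval hf hs) hcon
        intro p hp
        have := (Finset.mem_filter.1 hp).2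
        exact ((sing_iff hf (by norm_num) (by norm_num) hs).1 this).1
      exact hp0 (bad_of_double hf (by norm_num) hs (m2_double_of_eval (d := 1) hf hs hfs h1) p0)
    · rw [← hS5]
      exact Finset.card_le_card (Finset.filter_subset_filter _ hT5)
  have hrest : (T \ S).card = 2 := by
    have hsub : S ⊆ T := Finset.filter_subset _ _
    rw [Finset.card_sdiff_of_subset hsub, hT, hS4]
  have hdisc : ∀ p ∈ T \ S, dv (2 * 2) (Q.coeff 1 ^ 2 - 4 * Q.coeff 0) p := by
    intro p hp
    obtain ⟨hpT, hpS⟩ := Finset.mem_sdiff.1 hp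
    obtain ⟨v, hv⟩ := hb p hpT
    have hvs : v ≠ ev 2 s p := by
      rintro rfl
      exact hpS (Finset.mem_filter.2 ⟨hpT, hv⟩)
    have h3 : Sing 2 2 Q p v := by
      apply m2_residual (by norm_num) hQ (by norm_num) hs _ hvs
      rw [← hfQ]
      exact hv
    exact ((sing_quad h2 hQ (by norm_num)).1 h3).2
  have hQ1 : (Q.coeff 1).natDegree ≤ 2 := by simpa using hQ.2.2 1 (by norm_num)
  have hQ0 : (Q.coeff 0).natDegree ≤ 4 := by simpa using hQ.2.2 2 (by norm_num)
  have hdeg : (Q.coeff 1 ^ 2 - 4 * Q.coeff 0).natDegree ≤ 2 * 2 := by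
    refine (natDegree_sub_le _ _).trans (max_le ?_ ?_)
    · exact natDegree_pow_le.trans (by omega)
    · rw [show (4 : L[X]) = C 4 from (map_ofNat C 4).symm]
      exact (natDegree_C_mul_le _ _).trans hQ0
  obtain ⟨R, hR, hRe⟩ := m2_square hdeg hrest hdisc
  obtain ⟨c, d, hc, hd, hcd⟩ := m2_split h2 hQ hR hRe
  have hm : ∀ i, ((![s, c, d] : Fin 3 → L[X]) i).natDegree ≤ 2 := by
    intro i
    fin_cases i
    · exact hs
    · exact hc
    · exact hd
  have hfm : f = ∏ i, (X - C ((![s, c, d] : Fin 3 → L[X]) i)) := by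
    rw [hfQ, hcd, Fin.prod_univ_three]
    simp [mul_assoc]
  refine ⟨![s, c, d], hm, hfm, fun p hp => ?_⟩
  apply m2_prod_sing (by norm_num) (by norm_num) hm
  rw [← hfm]
  exact hb p hp

/-- M2 -/
theorem cub_bad_card (h2 : (2 : L) ≠ 0) (hf : WP 2 3 f) (hr : ∃ p, ¬ Bad 2 3 f p) :
    {p | Bad 2 3 f p}.Finite ∧ Set.ncard {p | Bad 2 3 f p} ≤ 6 := by
  apply m2_six
  intro T hT hTb
  obtain ⟨m, hm, hfm, -⟩ := cub_six h2 hf hT hTb hr
  have hne : ∀ i j, i < j → m i ≠ m j := by
    intro i j hij heq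
    obtain ⟨p0, hp0⟩ := hr
    apply hp0
    apply bad_of_double hf (by norm_num) (hm i)
    rw [hfm, sq]
    have h3 : ∏ x ∈ ({i, j} : Finset (Fin 3)), (X - C (m x)) ∣ ∏ x, (X - C (m x)) :=
      Finset.prod_dvd_prod_of_subset _ _ _ (Finset.subset_univ _)
    rw [Finset.prod_pair hij.ne, ← heq] at h3
    exact h3
  rw [hfm]
  exact m2_prod_card (by norm_num) (by norm_num) hm hne (by decide)

end

end
end Pool.Agent.Helper19.DP1
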