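import Pool.Agent.Helper19.DP1.Sums
import Pool.Agent.Helper19.DP1.Core4
import Pool.Agent.Helper19.DP1.Core5b

/-! M21: the sum `PC7`. -/

namespace Pool.Agent.Helper19.DP1
open Polynomial Classical
noncomputable section

section
variable {K : Type*} [Field K] [Fintype K]

/-- quadratic form in coordinates -/
def m21_Q (a b c : K) : K[X] := C a * X ^ 2 + C b * X + C c

theorem m21_natDegree (a b c : K) : (m21_Q a b c).natDegree ≤ 2 := by
  unfold m21_Q
  compute_degree

theorem m21_coeff2 (a b c : K) : (m21_Q a b c).coeff 2 = a := by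
  unfold m21_Q
  simp [coeff_X, coeff_C]

theorem m21_coeff1 (a b c : K) : (m21_Q a b c).coeff 1 = b := by
  unfold m21_Q
  simp [coeff_X, coeff_C]

theorem m21_coeff0 (a b c : K) : (m21_Q a b c).coeff 0 = c := by
  unfold m21_Q
  simp [coeff_X, coeff_C]

theorem m21_disc (a b c : K) : disc2 (m21_Q a b c) = b ^ 2 - 4 * a * c := by
  unfold disc2
  rw [m21_coeff0, m21_coeff1, m21_coeff2]

theorem m21_ne (a b c : K) (h : ¬ (a = 0 ∧ b = 0 ∧ c = 0)) : m21_Q a b c ≠ 0 := by
  intro h0
  apply h
  refine ⟨?_, ?_, ?_⟩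
  · rw [← m21_coeff2 a b c, h0, coeff_zero]
  · rw [← m21_coeff1 a b c, h0, coeff_zero]
  · rw [← m21_coeff0 a b c, h0, coeff_zero]

theorem m21_eval (a b c : K) (x : Om K) : (up (m21_Q a b c)).eval x =
    algebraMap K (Om K) a * x ^ 2 + algebraMap K (Om K) b * x + algebraMap K (Om K) c := by
  unfold m21_Q up
  simp

/-- sum of `mob` over monic cubics without common root with the quadratic form -/
def m21_A (a b c : K) : ℤ :=
  ∑ P ∈ Mon K 3, if ∀ x : Om K, (up P).eval x = 0 → (up (m21_Q a b c)).eval x ≠ 0 then mob P else 0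

theorem m21_A_zero : m21_A (0 : K) 0 0 = 0 := by
  unfold m21_A
  apply Finset.sum_eq_zero
  intro P hP
  rw [if_neg]
  intro h
  obtain ⟨h1, h2⟩ := mem_Mon.mp hP
  obtain ⟨x, hx⟩ : ∃ x, (up P).IsRoot x := by
    apply IsAlgClosed.exists_root
    apply degree_ne_of_natDegree_ne
    rw [natDegree_up, h2]; norm_num
  apply h x hx
  rw [m21_eval]
  simp

theorem m21_A_ne {a b c : K} (h : ¬ (a = 0 ∧ b = 0 ∧ c = 0)) :
    m21_A a b c = MS K (insert none (Zf 2 (m21_Q a b c))) 3 := by
  have hne := m21_ne a b c h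
  rw [← sum_mob_disjoint (Zf_stable _) 3]
  unfold m21_A
  rw [Finset.sum_filter]
  apply Finset.sum_congr rfl
  intro P hP
  obtain ⟨h1, h2⟩ := mem_Mon.mp hP
  have hP0 : P ≠ 0 := h1.ne_zero
  have hiff : (∀ x : Om K, (up P).eval x = 0 → (up (m21_Q a b c)).eval x ≠ 0) ↔
      Disjoint (Zf 3 P) (Zf 2 (m21_Q a b c)) := by
    rw [Finset.disjoint_left]
    constructor
    · intro hx p hp hp'
      rw [mem_Zf h2.le hP0] at hp
      rw [mem_Zf (m21_natDegree a b c) hne] at hp'
      cases p with
      | none =>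
        simp only [ev, coeff_up] at hp
        rw [← h2, h1.coeff_natDegree, map_one] at hp
        exact one_ne_zero hp
      | some x => exact hx x hp hp'
    · intro hd x hx hx'
      exact hd (a := some x) ((mem_Zf h2.le hP0).mpr hx) ((mem_Zf (m21_natDegree a b c) hne).mpr hx')
  by_cases hd : Disjoint (Zf 3 P) (Zf 2 (m21_Q a b c))
  · rw [if_pos (hiff.mpr hd), if_pos hd]
  · rw [if_neg (fun hx => hd (hiff.mp hx)), if_neg hd]

theorem m21_mem {a b c : K} (h : ¬ (a = 0 ∧ b = 0 ∧ c = 0)) (p : P1 K) :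
    p ∈ Zf 2 (m21_Q a b c) ↔ ev 2 (up (m21_Q a b c)) p = 0 :=
  mem_Zf (m21_natDegree a b c) (m21_ne a b c h)

theorem m21_none {a b c : K} (h : ¬ (a = 0 ∧ b = 0 ∧ c = 0)) :
    (none : P1 K) ∈ Zf 2 (m21_Q a b c) ↔ a = 0 := by
  rw [m21_mem h]
  simp only [ev, coeff_up, m21_coeff2]
  exact map_eq_zero _

theorem m21_some {a b c : K} (h : ¬ (a = 0 ∧ b = 0 ∧ c = 0)) (x : Om K) :
    (some x : P1 K) ∈ Zf 2 (m21_Q a b c) ↔
      algebraMap K (Om K) a * x ^ 2 + algebraMap K (Om K) b * x + algebraMap K (Om K) c = 0 := by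
  rw [m21_mem h]
  simp only [ev, m21_eval]

/-- value for `a ≠ 0` -/
theorem m21_A_two (h2 : (2 : K) ≠ 0) {a : K} (b c : K) (ha : a ≠ 0) :
    m21_A a b c = (1 - (Fintype.card K : ℤ)) * (1 + quadraticChar K (b ^ 2 - 4 * a * c) ^ 2) +
      (2 - (Fintype.card K : ℤ)) * quadraticChar K (b ^ 2 - 4 * a * c) := by
  have hh : ¬ (a = 0 ∧ b = 0 ∧ c = 0) := fun h => ha h.1
  rw [m21_A_ne hh]
  have h4' : (4 : K) ≠ 0 := by
    rw [show (4 : K) = 2 * 2 by norm_num]
    exact mul_ne_zero h2 h2
  have ha' : (algebraMap K (Om K)) a ≠ 0 := by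
    rw [Ne, map_eq_zero]; exact ha
  have hfac : ∀ r s : K, a * (r + s) = -b → a * r * s = c → ∀ x : Om K,
      algebraMap K (Om K) a * x ^ 2 + algebraMap K (Om K) b * x + algebraMap K (Om K) c =
        algebraMap K (Om K) a * ((x - algebraMap K (Om K) r) * (x - algebraMap K (Om K) s)) := by
    intro r s h3 h4 x
    have h5 : b = -(a * (r + s)) := by rw [h3, neg_neg]
    rw [h5, ← h4]
    simp only [map_neg, map_mul, map_add]
    ring
  have hset : ∀ r s : K, a * (r + s) = -b → a * r * s = c →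
      Zf 2 (m21_Q a b c) = {upP (some r), upP (some s)} := by
    intro r s h3 h4
    ext p
    rw [Finset.mem_insert, Finset.mem_singleton]
    cases p with
    | none => rw [m21_none hh]; simp [upP, ha]
    | some x =>
      rw [m21_some hh, hfac r s h3 h4 x, mul_eq_zero, mul_eq_zero]
      simp only [upP, Option.map_some, Option.some.injEq]
      rw [sub_eq_zero, sub_eq_zero]
      constructor
      · rintro (h6 | h6)
        · exact absurd h6 ha'
        · exact h6
      · intro h6; exact Or.inr h6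
  have hup : (none : P1 K) = upP none := rfl
  by_cases hD : b ^ 2 - 4 * a * c = 0
  · rw [hD, quadraticChar_zero]
    have h3 : a * (-b / (2 * a) + -b / (2 * a)) = -b := by field_simp; ring
    have h4 : a * (-b / (2 * a)) * (-b / (2 * a)) = c := by
      have : b ^ 2 = 4 * a * c := sub_eq_zero.mp hD
      field_simp
      rw [this]; ring
    rw [hset _ _ h3 h4, Finset.insert_eq_of_mem (Finset.mem_singleton_self _), hup,
      MS_two_rat (by simp) (by norm_num)]
    ring
  · rcases quadraticChar_dichotomy hD with hχ | hχ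
    · rw [hχ]
      obtain ⟨e, he⟩ := (quadraticChar_one_iff_isSquare hD).mp hχ
      have he0 : e ≠ 0 := by rintro rfl; exact hD (by rw [he, mul_zero])
      have h3 : a * ((-b + e) / (2 * a) + (-b - e) / (2 * a)) = -b := by field_simp; ring
      have h4 : a * ((-b + e) / (2 * a)) * ((-b - e) / (2 * a)) = c := by
        have h5 : e * e = b ^ 2 - 4 * a * c := he.symm
        have h6 : (-b + e) * (-b - e) = 4 * a * c := by
          have : (-b + e) * (-b - e) = b ^ 2 - e * e := by ring
          rw [this, h5]; ring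
        field_simp
        rw [h6]; ring
      have hrs : (-b + e) / (2 * a) ≠ (-b - e) / (2 * a) := by
        intro h5
        have h6 : -b + e = -b - e := by
          have h7 : (2 * a) ≠ 0 := mul_ne_zero h2 ha
          field_simp at h5
          exact h5
        have h7 : 2 * e = 0 := by linear_combination h6
        exact (mul_ne_zero h2 he0) h7
      rw [hset _ _ h3 h4, hup, MS_three_rat (by simp) (by simp) (by simpa using hrs)]
      push_cast
      ring
    · rw [hχ]
      have hd2 : disc2 (m21_Q a b c) ≠ 0 := by rw [m21_disc]; exact hD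
      have hn : (none : P1 K) ∉ Zf 2 (m21_Q a b c) := by rw [m21_none hh]; exact ha
      have hcard : (Zf 2 (m21_Q a b c)).card = 2 := by
        rw [card_Zf_two h2 (m21_natDegree a b c) (m21_ne a b c hh), if_neg hd2]
      have hmu : mu K (Zf 2 (m21_Q a b c)) = -1 := by
        rw [mu_Zf_two h2 (m21_natDegree a b c) hd2, m21_disc, hχ]
      have := MS_rat_conj (r := (none : Option K)) (Zf_stable (m21_Q a b c)) hn hcard hmu 3
      rw [show (upP (none : Option K) : P1 K) = none from rfl] at this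
      rw [this, if_neg (by decide)]
      ring

/-- value for `a = 0`, `b ≠ 0` -/
theorem m21_A_one {b : K} (c : K) (hb : b ≠ 0) :
    m21_A 0 b c = 1 - (Fintype.card K : ℤ) := by
  have hh : ¬ ((0 : K) = 0 ∧ b = 0 ∧ c = 0) := fun h => hb h.2.1
  rw [m21_A_ne hh]
  have hb' : (algebraMap K (Om K)) b ≠ 0 := by
    rw [Ne, map_eq_zero]; exact hb
  have hset : Zf 2 (m21_Q 0 b c) = {upP (none : Option K), upP (some (-c / b))} := by
    ext p
    rw [Finset.mem_insert, Finset.mem_singleton]
    cases p with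
    | none => rw [m21_none hh]; simp [upP]
    | some x =>
      rw [m21_some hh]
      simp only [upP, Option.map_none, Option.map_some, Option.some.injEq, map_zero, zero_mul,
        zero_add, map_div₀, map_neg]
      rw [eq_div_iff hb']
      constructor
      · intro h; right; linear_combination h
      · rintro (h | h)
        · cases h
        · linear_combination h
  rw [hset, show (none : P1 K) = upP (none : Option K) from rfl, Finset.insert_eq_of_mem (by simp),
    MS_two_rat (by simp) (by norm_num)]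

/-- value for nonzero constants -/
theorem m21_A_const {c : K} (hc : c ≠ 0) : m21_A 0 0 c = 0 := by
  have hh : ¬ ((0 : K) = 0 ∧ (0 : K) = 0 ∧ c = 0) := fun h => hc h.2.2
  rw [m21_A_ne hh]
  have hset : Zf 2 (m21_Q 0 0 c) = {upP (none : Option K)} := by
    ext p
    rw [Finset.mem_singleton]
    cases p with
    | none => rw [m21_none hh]; simp [upP]
    | some x =>
      rw [m21_some hh]
      simp [upP, hc]
  rw [hset, show (none : P1 K) = upP (none : Option K) from rfl, Finset.insert_eq_of_mem (by simp),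
    MS_rat_ge _ (by norm_num)]

/-- sum over the lower coefficients -/
def m21_B (a : K) : ℤ := ∑ b : K, ∑ c : K, m21_A a b c

theorem m21_B_zero : m21_B (0 : K) =
    (Fintype.card K : ℤ) * ((Fintype.card K : ℤ) - 1) * (1 - (Fintype.card K : ℤ)) := by
  unfold m21_B
  rw [← Finset.add_sum_erase _ _ (Finset.mem_univ (0 : K))]
  have h0 : ∑ c : K, m21_A 0 0 c = 0 := by
    apply Finset.sum_eq_zero
    intro c _
    by_cases hc : c = 0
    · rw [hc, m21_A_zero]
    · exact m21_A_const hc
  rw [h0, zero_add]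
  have h1 : ∀ b ∈ (Finset.univ : Finset K).erase 0, ∑ c : K, m21_A 0 b c =
      (Fintype.card K : ℤ) * (1 - (Fintype.card K : ℤ)) := by
    intro b hb
    rw [Finset.sum_congr rfl (fun c _ => m21_A_one c (Finset.ne_of_mem_erase hb)),
      Finset.sum_const, Finset.card_univ, nsmul_eq_mul]
  rw [Finset.sum_congr rfl h1, Finset.sum_const, Finset.card_erase_of_mem (Finset.mem_univ _),
    Finset.card_univ, nsmul_eq_mul, Nat.cast_sub Fintype.card_pos]
  push_cast
  ring

omit [Fintype K] in
theorem m21_ringChar (h2 : (2 : K) ≠ 0) : ringChar K ≠ 2 := by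
  intro h
  apply h2
  have := ringChar.Nat.cast_ringChar (R := K)
  rw [h] at this
  exact_mod_cast this

/-- affine substitution -/
theorem m21_affine {M : Type*} [AddCommMonoid M] (f : K → M) {α : K} (hα : α ≠ 0) (β : K) :
    ∑ x : K, f (α * x + β) = ∑ x : K, f x := by
  have hb : Function.Bijective (fun x : K => α * x + β) := by
    rw [← Finite.injective_iff_bijective]
    intro x y h
    simp only [add_left_inj] at h
    exact mul_left_cancel₀ hα h
  exact hb.sum_comp f

theorem m21_sum_sq : ∑ t : K, quadraticChar K t ^ 2 = (Fintype.card K : ℤ) - 1 := by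
  rw [← Finset.add_sum_erase _ _ (Finset.mem_univ (0 : K)), quadraticChar_zero]
  rw [Finset.sum_congr rfl (fun t ht => quadraticChar_sq_one (Finset.ne_of_mem_erase ht)),
    Finset.sum_const, Finset.card_erase_of_mem (Finset.mem_univ _), Finset.card_univ, nsmul_eq_mul,
    Nat.cast_sub Fintype.card_pos]
  push_cast
  ring

theorem m21_B_ne (h2 : (2 : K) ≠ 0) {a : K} (ha : a ≠ 0) : m21_B a =
    (Fintype.card K : ℤ) * ((1 - (Fintype.card K : ℤ)) * (2 * (Fintype.card K : ℤ) - 1)) := by
  have h4 : (4 : K) ≠ 0 := by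
    rw [show (4 : K) = 2 * 2 by norm_num]
    exact mul_ne_zero h2 h2
  unfold m21_B
  have h1 : ∀ b ∈ (Finset.univ : Finset K), ∑ c : K, m21_A a b c =
      (1 - (Fintype.card K : ℤ)) * (2 * (Fintype.card K : ℤ) - 1) := by
    intro b _
    have h3 : ∀ c ∈ (Finset.univ : Finset K), m21_A a b c =
        (fun t : K => (1 - (Fintype.card K : ℤ)) * (1 + quadraticChar K t ^ 2) +
          (2 - (Fintype.card K : ℤ)) * quadraticChar K t) ((-(4 * a)) * c + b ^ 2) := by
      intro c _
      rw [m21_A_two h2 b c ha]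
      simp only
      rw [show -(4 * a) * c + b ^ 2 = b ^ 2 - 4 * a * c by ring]
    refine (Finset.sum_congr rfl h3).trans
      ((m21_affine (fun t : K => (1 - (Fintype.card K : ℤ)) * (1 + quadraticChar K t ^ 2) +
          (2 - (Fintype.card K : ℤ)) * quadraticChar K t)
          (neg_ne_zero.mpr (mul_ne_zero h4 ha)) (b ^ 2)).trans ?_)
    rw [Finset.sum_add_distrib, ← Finset.mul_sum, ← Finset.mul_sum, Finset.sum_add_distrib,
      m21_sum_sq, quadraticChar_sum_zero (m21_ringChar h2), Finset.sum_const, Finset.card_univ,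
      nsmul_eq_mul]
    ring
  rw [Finset.sum_congr rfl h1, Finset.sum_const, Finset.card_univ, nsmul_eq_mul]

/-- the polynomial occurring in `PC7` -/
theorem m21_poly (ν c11 c10 c20 β : K) :
    ((C c11 * X + C c10) ^ 2 - 4 * (C (-3 * ν ^ 2 - 2 * c11 * ν) * X ^ 2
          + C (-(c10 * ν + ν * (2 * ν + c11) * β)) * X + C c20) : K[X]) =
      m21_Q ((2 * ν + c11) * ((2 * ν + c11) + 4 * ν))
        (2 * (2 * ν + c11) * c10 + 4 * ν * (2 * ν + c11) * β) (-4 * c20 + c10 ^ 2) := by
  unfold m21_Q
  simp only [map_add, map_sub, map_mul, map_pow, map_neg, map_ofNat]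
  ring

/-- M21 -/
theorem PC7_eq (h2 : (2 : K) ≠ 0) :
    PC7 K = (Fintype.card K : ℤ) * ((Fintype.card K : ℤ) - 1) ^ 2 *
      (-2 * (Fintype.card K : ℤ) ^ 2 + 4 * (Fintype.card K : ℤ) - 1) := by
  have h4 : (4 : K) ≠ 0 := by
    rw [show (4 : K) = 2 * 2 by norm_num]
    exact mul_ne_zero h2 h2
  unfold PC7
  -- substitution in the last two variables
  have h1 : ∀ b ∈ Mon K 3, ∀ ν ∈ (Finset.univ : Finset K).filter (fun ν => ν ≠ 0),
      ∀ c11 ∈ (Finset.univ : Finset K),
      (∑ c10 : K, ∑ c20 : K,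
        if 2 * ν + c11 ≠ 0 ∧ ∀ x : Om K, (up b).eval x = 0 →
          (up ((C c11 * X + C c10) ^ 2 - 4 * (C (-3 * ν ^ 2 - 2 * c11 * ν) * X ^ 2
            + C (-(c10 * ν + ν * (2 * ν + c11) * b.coeff 2)) * X + C c20))).eval x ≠ 0
        then mob b else 0) =
      if 2 * ν + c11 ≠ 0 then ∑ d1 : K, ∑ d0 : K,
        (if ∀ x : Om K, (up b).eval x = 0 →
          (up (m21_Q ((2 * ν + c11) * ((2 * ν + c11) + 4 * ν)) d1 d0)).eval x ≠ 0 then mob b
          else 0) else 0 := by
    intro b _ ν _ c11 _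
    by_cases hs : 2 * ν + c11 = 0
    · rw [if_neg (not_not.mpr hs)]
      apply Finset.sum_eq_zero
      intro c10 _
      apply Finset.sum_eq_zero
      intro c20 _
      rw [if_neg (fun h => h.1 hs)]
    · rw [if_pos hs]
      refine Eq.trans ?_ (m21_affine (fun d1 : K => ∑ d0 : K,
        (if ∀ x : Om K, (up b).eval x = 0 →
          (up (m21_Q ((2 * ν + c11) * ((2 * ν + c11) + 4 * ν)) d1 d0)).eval x ≠ 0 then mob b
          else 0)) (mul_ne_zero h2 hs) (4 * ν * (2 * ν + c11) * b.coeff 2))
      apply Finset.sum_congr rfl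
      intro c10 _
      refine Eq.trans ?_ (m21_affine (fun d0 : K =>
        (if ∀ x : Om K, (up b).eval x = 0 →
          (up (m21_Q ((2 * ν + c11) * ((2 * ν + c11) + 4 * ν))
            (2 * (2 * ν + c11) * c10 + 4 * ν * (2 * ν + c11) * b.coeff 2) d0)).eval x ≠ 0 then mob b
          else 0)) (neg_ne_zero.mpr h4) (c10 ^ 2))
      apply Finset.sum_congr rfl
      intro c20 _
      rw [m21_poly]
      by_cases hx : ∀ x : Om K, (up b).eval x = 0 →
          (up (m21_Q ((2 * ν + c11) * ((2 * ν + c11) + 4 * ν))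
            (2 * (2 * ν + c11) * c10 + 4 * ν * (2 * ν + c11) * b.coeff 2)
            (-4 * c20 + c10 ^ 2))).eval x ≠ 0
      · rw [if_pos ⟨hs, hx⟩, if_pos hx]
      · rw [if_neg (fun h => hx h.2), if_neg hx]
  rw [Finset.sum_congr rfl (fun b hb => Finset.sum_congr rfl (fun ν hν =>
    Finset.sum_congr rfl (fun c11 hc => h1 b hb ν hν c11 hc)))]
  -- exchange
  rw [Finset.sum_comm]
  have h3 : ∀ ν ∈ (Finset.univ : Finset K).filter (fun ν => ν ≠ 0),
      (∑ b ∈ Mon K 3, ∑ c11 : K, if 2 * ν + c11 ≠ 0 then ∑ d1 : K, ∑ d0 : K,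
        (if ∀ x : Om K, (up b).eval x = 0 →
          (up (m21_Q ((2 * ν + c11) * ((2 * ν + c11) + 4 * ν)) d1 d0)).eval x ≠ 0 then mob b
          else 0) else 0) =
      ∑ s : K, if s ≠ 0 then m21_B (s * (s + 4 * ν)) else 0 := by
    intro ν _
    rw [Finset.sum_comm]
    have h5 : ∀ c11 ∈ (Finset.univ : Finset K),
        (∑ b ∈ Mon K 3, if 2 * ν + c11 ≠ 0 then ∑ d1 : K, ∑ d0 : K,
          (if ∀ x : Om K, (up b).eval x = 0 →
            (up (m21_Q ((2 * ν + c11) * ((2 * ν + c11) + 4 * ν)) d1 d0)).eval x ≠ 0 then mob b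
            else 0) else 0) =
        (fun s : K => if s ≠ 0 then m21_B (s * (s + 4 * ν)) else 0) (1 * c11 + 2 * ν) := by
      intro c11 _
      simp only
      rw [show 1 * c11 + 2 * ν = 2 * ν + c11 by ring]
      by_cases hs : 2 * ν + c11 = 0
      · rw [if_neg (not_not.mpr hs)]
        apply Finset.sum_eq_zero
        intro b _
        rw [if_neg (not_not.mpr hs)]
      · rw [if_pos hs]
        unfold m21_B m21_A
        rw [Finset.sum_congr rfl (fun b _ => if_pos hs), Finset.sum_comm]
        apply Finset.sum_congr rfl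
        intro d1 _
        rw [Finset.sum_comm]
    exact (Finset.sum_congr rfl h5).trans (m21_affine
      (fun s : K => if s ≠ 0 then m21_B (s * (s + 4 * ν)) else 0) one_ne_zero (2 * ν))
  rw [Finset.sum_congr rfl h3, Finset.sum_comm]
  -- for fixed `s`
  have h6 : ∀ s ∈ (Finset.univ : Finset K), (∑ ν ∈ (Finset.univ : Finset K).filter (fun ν => ν ≠ 0),
      if s ≠ 0 then m21_B (s * (s + 4 * ν)) else 0) =
      if s ≠ 0 then (∑ t : K, m21_B t) - m21_B (1 : K) else 0 := by
    intro s _
    by_cases hs : s = 0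
    · rw [if_neg (not_not.mpr hs)]
      apply Finset.sum_eq_zero
      intro b _
      rw [if_neg (not_not.mpr hs)]
    · rw [if_pos hs, Finset.sum_congr rfl (fun b _ => if_pos hs)]
      have h7 : (Finset.univ : Finset K).filter (fun ν => ν ≠ 0) = Finset.univ.erase 0 := by
        ext x; simp
      have e1 := m21_affine (fun t : K => m21_B t) (mul_ne_zero h4 hs) (s ^ 2)
      have e2 := Finset.add_sum_erase Finset.univ (fun x : K => m21_B (4 * s * x + s ^ 2))
        (Finset.mem_univ (0 : K))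
      have e3 : m21_B (4 * s * 0 + s ^ 2) = m21_B (1 : K) := by
        rw [mul_zero, zero_add, m21_B_ne h2 (one_ne_zero (α := K)), m21_B_ne h2 (pow_ne_zero 2 hs)]
      have e4 : ∑ ν ∈ (Finset.univ : Finset K).erase 0, m21_B (s * (s + 4 * ν)) =
          ∑ x ∈ (Finset.univ : Finset K).erase 0, m21_B (4 * s * x + s ^ 2) := by
        apply Finset.sum_congr rfl
        intro x _
        rw [show s * (s + 4 * x) = 4 * s * x + s ^ 2 by ring]
      rw [h7, e4]
      linarith
  rw [Finset.sum_congr rfl h6]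
  rw [← Finset.add_sum_erase Finset.univ _ (Finset.mem_univ (0 : K)),
    if_neg (not_not.mpr rfl), zero_add,
    Finset.sum_congr rfl (fun s hs => if_pos (Finset.ne_of_mem_erase hs)), Finset.sum_const,
    Finset.card_erase_of_mem (Finset.mem_univ _), Finset.card_univ, nsmul_eq_mul,
    Nat.cast_sub Fintype.card_pos]
  have h8 : ∑ t : K, m21_B t = m21_B (0 : K) + ((Fintype.card K : ℤ) - 1) * m21_B (1 : K) := by
    rw [← Finset.add_sum_erase Finset.univ _ (Finset.mem_univ (0 : K))]
    congr 1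
    rw [Finset.sum_congr rfl (fun t ht => by
      rw [m21_B_ne h2 (Finset.ne_of_mem_erase ht), ← m21_B_ne h2 (one_ne_zero (α := K))]),
      Finset.sum_const, Finset.card_erase_of_mem (Finset.mem_univ _), Finset.card_univ,
      nsmul_eq_mul, Nat.cast_sub Fintype.card_pos]
    push_cast
    ring
  rw [h8, m21_B_zero, m21_B_ne h2 one_ne_zero]
  push_cast
  ring

end

end
end Pool.Agent.Helper19.DP1
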