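import Pool.Agent.Helper19.DP1.Core4
import Pool.Agent.Helper19.DP1.Core6c

/-! M4: the sums `SU 0`, ..., `SU 3`. -/

namespace Pool.Agent.Helper19.DP1
open Polynomial Classical
noncomputable section

section
variable {L : Type*} [Field L] {m n : ℕ} {P Q : L[X]} {p : Option L}

/-- second jet coordinate of a form of degree `n` at a point -/
def m4_dd (n : ℕ) (P : L[X]) : Option L → L
  | none => P.coeff (n - 1)
  | some t => P.derivative.eval t

theorem m4_dv_iff : dv n P p ↔ ev n P p = 0 ∧ m4_dd n P p = 0 := by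
  cases p <;> rfl

/-- a simple section with a prescribed value -/
def m4_sec (p : Option L) (v : L) : L[X] :=
  match p with
  | none => C v * X ^ 2
  | some _ => C v

theorem m4_sec_natDegree (p : Option L) (v : L) : (m4_sec p v).natDegree ≤ 2 := by
  cases p with
  | none => exact natDegree_C_mul_X_pow_le _ _
  | some t => simp [m4_sec]

theorem m4_sec_ev (p : Option L) (v : L) : ev 2 (m4_sec p v) p = v := by
  cases p with
  | none => simp [m4_sec, ev]
  | some t => simp [m4_sec, ev]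

theorem m4_sing_iff {a : L[X] × L[X] × L[X]} (h1 : a.1.natDegree ≤ 2) (h2 : a.2.1.natDegree ≤ 4)
    (h3 : a.2.2.natDegree ≤ 6) (v : L) :
    Sing 2 3 (cub a) p v ↔
      3 * v ^ 2 + 2 * ev 2 a.1 p * v + ev 4 a.2.1 p = 0 ∧
      v ^ 3 + ev 2 a.1 p * v ^ 2 + ev 4 a.2.1 p * v + ev 6 a.2.2 p = 0 ∧
      m4_dd 2 a.1 p * v ^ 2 + m4_dd 4 a.2.1 p * v + m4_dd 6 a.2.2 p = 0 := by
  have key := sing_iff (p := p) (WP_cub h1 h2 h3) (by norm_num) (by norm_num)
    (m4_sec_natDegree p v)
  rw [m4_sec_ev] at key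
  rw [key, m4_dv_iff]
  have e1 : ev (2 * (3 - 1)) ((cub a).derivative.eval (m4_sec p v)) p =
      3 * v ^ 2 + 2 * ev 2 a.1 p * v + ev 4 a.2.1 p := by
    cases p with
    | none =>
      have : (cub a).derivative.eval (m4_sec none v) =
          C (3 * v ^ 2) * X ^ 4 + C (2 * v) * (a.1 * X ^ 2) + a.2.1 := by
        simp only [cub, m4_sec, derivative_add, derivative_mul, derivative_C, derivative_X_pow,
          derivative_X, eval_add, eval_mul, eval_C, eval_pow, eval_X, C_mul, C_pow, map_ofNat]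
        simp
        ring
      rw [this]
      simp only [ev, coeff_add, coeff_C_mul, coeff_mul_X_pow']
      norm_num
      rw [← C_pow, coeff_C_zero]
      ring
    | some t =>
      simp only [cub, m4_sec, derivative_add, derivative_mul, derivative_C, derivative_X_pow,
          derivative_X, eval_add, eval_mul, eval_C, eval_pow, eval_X, ev]
      simp
      ring
  have e2 : ev (2 * 3) ((cub a).eval (m4_sec p v)) p =
      v ^ 3 + ev 2 a.1 p * v ^ 2 + ev 4 a.2.1 p * v + ev 6 a.2.2 p := by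
    cases p with
    | none =>
      have : (cub a).eval (m4_sec none v) =
          C (v ^ 3) * X ^ 6 + C (v ^ 2) * (a.1 * X ^ 4) + C v * (a.2.1 * X ^ 2) + a.2.2 := by
        simp only [cub, m4_sec, eval_add, eval_mul, eval_C, eval_pow, eval_X, C_pow]
        ring
      rw [this]
      simp only [ev, coeff_add, coeff_C_mul, coeff_mul_X_pow']
      norm_num
      rw [← C_pow, coeff_C_zero]
      ring
    | some t =>
      simp only [cub, m4_sec, eval_add, eval_mul, eval_C, eval_pow, eval_X, ev]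
  have e3 : m4_dd (2 * 3) ((cub a).eval (m4_sec p v)) p =
      m4_dd 2 a.1 p * v ^ 2 + m4_dd 4 a.2.1 p * v + m4_dd 6 a.2.2 p := by
    cases p with
    | none =>
      have : (cub a).eval (m4_sec none v) =
          C (v ^ 3) * X ^ 6 + C (v ^ 2) * (a.1 * X ^ 4) + C v * (a.2.1 * X ^ 2) + a.2.2 := by
        simp only [cub, m4_sec, eval_add, eval_mul, eval_C, eval_pow, eval_X, C_pow]
        ring
      rw [this]
      simp only [m4_dd, coeff_add, coeff_C_mul, coeff_mul_X_pow']
      norm_num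
      ring
    | some t =>
      simp only [cub, m4_sec, eval_add, eval_mul, eval_C, eval_pow, eval_X, m4_dd,
        derivative_add, derivative_mul, derivative_C, derivative_pow]
      simp
  rw [e1, e2, e3]

theorem m4_sing_zero {a : L[X] × L[X] × L[X]} (h1 : a.1.natDegree ≤ 2) (h2 : a.2.1.natDegree ≤ 4)
    (h3 : a.2.2.natDegree ≤ 6) :
    Sing 2 3 (cub a) p 0 ↔ ev 4 a.2.1 p = 0 ∧ dv 6 a.2.2 p := by
  rw [m4_sing_iff h1 h2 h3, m4_dv_iff]
  simp

end

section
variable {K : Type*} [Field K] [Fintype K] {l : ℕ}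

theorem m4_mem_C3 {a : K[X] × K[X] × K[X]} :
    a ∈ C3 K ↔ a.1.natDegree ≤ 2 ∧ a.2.1.natDegree ≤ 4 ∧ a.2.2.natDegree ≤ 6 := by
  simp [C3, mem_V]

/-- translation -/
def m4_tr (s : K[X]) (a : K[X] × K[X] × K[X]) : K[X] × K[X] × K[X] :=
  (((cub a).comp (X + C s)).coeff 2, ((cub a).comp (X + C s)).coeff 1,
    ((cub a).comp (X + C s)).coeff 0)

theorem m4_cub_tr {s : K[X]} (hs : s.natDegree ≤ 2) {a : K[X] × K[X] × K[X]} (ha : a ∈ C3 K) :
    cub (m4_tr s a) = (cub a).comp (X + C s) := by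
  rw [m4_mem_C3] at ha
  exact (eq_cub (WP_comp (WP_cub ha.1 ha.2.1 ha.2.2) hs)).symm

theorem m4_tr_mem {s : K[X]} (hs : s.natDegree ≤ 2) {a : K[X] × K[X] × K[X]} (ha : a ∈ C3 K) :
    m4_tr s a ∈ C3 K := by
  rw [mem_C3, m4_cub_tr hs ha]
  rw [m4_mem_C3] at ha
  exact WP_comp (WP_cub ha.1 ha.2.1 ha.2.2) hs

theorem m4_tr_tr {s t : K[X]} (hs : s.natDegree ≤ 2) (ht : t.natDegree ≤ 2) (h : t + s = 0)
    {a : K[X] × K[X] × K[X]}
    (ha : a ∈ C3 K) : m4_tr t (m4_tr s a) = a := by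
  apply cub_injective
  rw [m4_cub_tr ht (m4_tr_mem hs ha), m4_cub_tr hs ha, comp_assoc]
  have : (X + C s : K[X][X]).comp (X + C t) = X := by
    simp only [add_comp, X_comp, C_comp]
    rw [add_assoc, ← C_add, h, C_0, add_zero]
  rw [this, comp_X]

theorem m4_sing_tr {s : K[X]} (hs : s.natDegree ≤ 2) {a : K[X] × K[X] × K[X]} (ha : a ∈ C3 K)
    (p : P1 K) (v : Om K) :
    Sing 2 3 (up2 (cub (m4_tr s a))) p v ↔ Sing 2 3 (up2 (cub a)) p (v + ev 2 (up s) p) := by
  rw [m4_cub_tr hs ha, up2_comp]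
  have hW : WP 2 3 (up2 (cub a)) := WP_up2 (mem_C3.1 ha)
  exact sing_comp hW (by norm_num) (by norm_num) (by rw [natDegree_up]; exact hs)

theorem m4_card_trans (T : Finset (P1 K)) {s : K[X]} (hs : s.natDegree ≤ 2) :
    ((C3 K).filter (fun a => ∀ p ∈ T, Sing 2 3 (up2 (cub a)) p (ev 2 (up s) p))).card =
      ((C3 K).filter (fun a => ∀ p ∈ T, Sing 2 3 (up2 (cub a)) p 0)).card := by
  have hs' : (-s).natDegree ≤ 2 := by rwa [natDegree_neg]
  refine Finset.card_bij' (fun a _ => m4_tr s a) (fun a _ => m4_tr (-s) a) ?_ ?_ ?_ ?_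
  · intro a ha
    rw [Finset.mem_filter] at ha ⊢
    refine ⟨m4_tr_mem hs ha.1, fun p hp => ?_⟩
    rw [m4_sing_tr hs ha.1, zero_add]
    exact ha.2 p hp
  · intro a ha
    rw [Finset.mem_filter] at ha ⊢
    refine ⟨m4_tr_mem hs' ha.1, fun p hp => ?_⟩
    rw [m4_sing_tr hs' ha.1]
    have : ev 2 (up s) p + ev 2 (up (-s)) p = 0 := by
      rw [← ev_add, ← up_add, add_neg_cancel, up_zero, ev_zero]
    rw [this]
    exact ha.2 p hp
  · intro a ha
    rw [Finset.mem_filter] at ha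
    exact m4_tr_tr hs hs' (neg_add_cancel s) ha.1
  · intro a ha
    rw [Finset.mem_filter] at ha
    exact m4_tr_tr hs' hs (add_neg_cancel s) ha.1

theorem m4_up2_cub_sing {a : K[X] × K[X] × K[X]} (ha : a ∈ C3 K) (p : P1 K) :
    Sing 2 3 (up2 (cub a)) p 0 ↔ ev 4 (up a.2.1) p = 0 ∧ dv 6 (up a.2.2) p := by
  rw [m4_mem_C3] at ha
  rw [up2_cub]
  exact m4_sing_zero (a := (up a.1, up a.2.1, up a.2.2)) (by simpa [natDegree_up] using ha.1)
    (by simpa [natDegree_up] using ha.2.1) (by simpa [natDegree_up] using ha.2.2)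

theorem m4_card_zero (T : Finset (P1 K)) :
    ((C3 K).filter (fun a => ∀ p ∈ T, Sing 2 3 (up2 (cub a)) p 0)).card =
      Fintype.card K ^ 3 * ((V K 4).filter (fun P => ∀ p ∈ T, ev 4 (up P) p = 0)).card *
        ((V K 6).filter (fun P => ∀ p ∈ T, dv 6 (up P) p)).card := by
  have : (C3 K).filter (fun a => ∀ p ∈ T, Sing 2 3 (up2 (cub a)) p 0) =
      V K 2 ×ˢ ((V K 4).filter (fun P => ∀ p ∈ T, ev 4 (up P) p = 0)) ×ˢ
        ((V K 6).filter (fun P => ∀ p ∈ T, dv 6 (up P) p)) := by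
    ext a
    rw [Finset.mem_filter, Finset.mem_product, Finset.mem_product, Finset.mem_filter,
      Finset.mem_filter]
    constructor
    · rintro ⟨ha, h⟩
      have ha' := ha
      rw [C3, Finset.mem_product, Finset.mem_product] at ha'
      refine ⟨ha'.1, ⟨ha'.2.1, fun p hp => ?_⟩, ⟨ha'.2.2, fun p hp => ?_⟩⟩
      · exact ((m4_up2_cub_sing ha p).1 (h p hp)).1
      · exact ((m4_up2_cub_sing ha p).1 (h p hp)).2
    · rintro ⟨h1, ⟨h2, h3⟩, ⟨h4, h5⟩⟩
      have ha : a ∈ C3 K := by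
        rw [C3, Finset.mem_product, Finset.mem_product]
        exact ⟨h1, h2, h4⟩
      exact ⟨ha, fun p hp => (m4_up2_cub_sing ha p).2 ⟨h3 p hp, h5 p hp⟩⟩
  rw [this, Finset.card_product, Finset.card_product, card_V, mul_assoc]

/-- the singular values are Frobenius compatible -/
theorem m4_values {T : Finset (P1 K)} (hT : IsStabG (frob K) T) {a : K[X] × K[X] × K[X]}
    (ha : a ∈ C3 K) (hb : ∀ p ∈ T, Bad 2 3 (up2 (cub a)) p) :
    ∃ g : P1 K → Om K, (∀ p ∈ T, Sing 2 3 (up2 (cub a)) p (g p)) ∧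
      ∀ p ∈ T, g (frob K p) = g p ^ Fintype.card K := by
  have hW : WP 2 3 (up2 (cub a)) := WP_up2 (mem_C3.1 ha)
  refine ⟨fun p => if h : Bad 2 3 (up2 (cub a)) p then Classical.choose h else 0, ?_, ?_⟩
  · intro p hp
    have h := hb p hp
    simp only [h, dif_pos]
    exact Classical.choose_spec h
  · intro p hp
    have h := hb p hp
    have h' := hb _ (hT p hp)
    simp only [h, h', dif_pos]
    exact sing_unique3 hW (by norm_num) (Classical.choose_spec h')
      (sing_frob (mem_C3.1 ha) (Classical.choose_spec h))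

theorem m4_card_bad {T : Finset (P1 K)} (hT : IsStabG (frob K) T) (hc : T.card ≤ 3) :
    ((C3 K).filter (fun a => ∀ p ∈ T, Bad 2 3 (up2 (cub a)) p)).card =
      Fintype.card K ^ (15 - 2 * T.card) := by
  have hq : 0 < Fintype.card K := Fintype.card_pos
  -- double counting
  have h1 : ∑ s ∈ V K 2, ((C3 K).filter
      (fun a => ∀ p ∈ T, Sing 2 3 (up2 (cub a)) p (ev 2 (up s) p))).card =
      Fintype.card K ^ 3 * (Fintype.card K ^ 3 * Fintype.card K ^ (5 - T.card) *
        Fintype.card K ^ (7 - 2 * T.card)) := by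
    rw [Finset.sum_congr rfl (fun s hs => m4_card_trans T (mem_V.1 hs)), Finset.sum_const,
      card_V, m4_card_zero, card_vanish hT (by omega), card_dv hT (by omega), smul_eq_mul]
  have h2 : ∑ s ∈ V K 2, ((C3 K).filter
      (fun a => ∀ p ∈ T, Sing 2 3 (up2 (cub a)) p (ev 2 (up s) p))).card =
      ∑ a ∈ C3 K, ((V K 2).filter
      (fun s => ∀ p ∈ T, Sing 2 3 (up2 (cub a)) p (ev 2 (up s) p))).card := by
    simp only [Finset.card_filter]
    exact Finset.sum_comm
  have h3 : ∑ a ∈ C3 K, ((V K 2).filter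
      (fun s => ∀ p ∈ T, Sing 2 3 (up2 (cub a)) p (ev 2 (up s) p))).card =
      ∑ a ∈ (C3 K).filter (fun a => ∀ p ∈ T, Bad 2 3 (up2 (cub a)) p),
        Fintype.card K ^ (3 - T.card) := by
    rw [Finset.sum_filter]
    refine Finset.sum_congr rfl fun a ha => ?_
    split_ifs with hb
    · obtain ⟨g, hg, hgf⟩ := m4_values hT ha hb
      have hW : WP 2 3 (up2 (cub a)) := WP_up2 (mem_C3.1 ha)
      rw [← card_interp (n := 2) hT (by omega) g hgf]
      congr 1
      refine Finset.filter_congr fun s _ => ?_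
      refine forall₂_congr fun p hp => ?_
      constructor
      · intro h
        exact sing_unique3 hW (by norm_num) h (hg p hp)
      · intro h
        rw [h]
        exact hg p hp
    · rw [Finset.card_eq_zero, Finset.filter_eq_empty_iff]
      intro s _ h
      exact hb fun p hp => ⟨_, h p hp⟩
  rw [h2, h3, Finset.sum_const, smul_eq_mul] at h1
  have h4 : Fintype.card K ^ 3 * (Fintype.card K ^ 3 * Fintype.card K ^ (5 - T.card) *
        Fintype.card K ^ (7 - 2 * T.card)) =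
      Fintype.card K ^ (15 - 2 * T.card) * Fintype.card K ^ (3 - T.card) := by
    rw [← pow_add, ← pow_add, ← pow_add, ← pow_add]
    congr 1
    omega
  rw [h4] at h1
  exact Nat.eq_of_mul_eq_mul_right (pow_pos hq _) h1

theorem m4_SU_of_const (l : ℕ) (c : ℤ) (h : ∀ T ∈ Stab K l,
    (((C3 K).filter (fun a => ∀ p ∈ T, Bad 2 3 (up2 (cub a)) p)).card : ℤ) = c) :
    SU K l = c * MS K ∅ l := by
  rw [SU]
  simp only [Finset.sum_filter]
  rw [Finset.sum_comm, ← sum_Stab_mu, Finset.mul_sum]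
  refine Finset.sum_congr rfl fun T hT => ?_
  rw [← h T hT, ← Finset.sum_filter, Finset.sum_const, nsmul_eq_mul]

theorem m4_SU (hl : l ≤ 3) : SU K l = (Fintype.card K : ℤ) ^ (15 - 2 * l) * MS K ∅ l := by
  refine m4_SU_of_const l _ fun T hT => ?_
  rw [mem_Stab] at hT
  rw [m4_card_bad hT.1 (by omega), hT.2]
  push_cast
  rfl

end

section
variable (K : Type*) [Field K] [Fintype K]

theorem SU_zero (_h2 : (2 : K) ≠ 0) : SU K 0 = (Fintype.card K : ℤ) ^ 15 := by
  rw [m4_SU (by norm_num), MS_empty_zero]; simp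

theorem SU_one (_h2 : (2 : K) ≠ 0) :
    SU K 1 = -((Fintype.card K : ℤ) + 1) * (Fintype.card K : ℤ) ^ 13 := by
  rw [m4_SU (by norm_num), MS_empty_one]; ring

theorem SU_two (_h2 : (2 : K) ≠ 0) : SU K 2 = (Fintype.card K : ℤ) ^ 12 := by
  rw [m4_SU (by norm_num), MS_empty_two]; ring

theorem SU_three (_h2 : (2 : K) ≠ 0) : SU K 3 = 0 := by
  rw [m4_SU (by norm_num), MS_empty_ge (by norm_num)]; ring

end

end
end Pool.Agent.Helper19.DP1
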