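import Pool.Agent.Helper19.DP1.M4

/-! M5: the sum `SU 4`. -/

namespace Pool.Agent.Helper19.DP1
open Polynomial Classical
noncomputable section

section
variable {L : Type*} [Field L] {m n : ℕ} {P Q : L[X]} {p : Option L}

theorem m5_dd_mul (hm : 1 ≤ m) (hP : P.natDegree ≤ m) (hQ : Q.natDegree ≤ n)
    (h : ev m P p = 0) : m4_dd (m + n) (P * Q) p = m4_dd m P p * ev n Q p := by
  cases p with
  | none =>
    simp only [ev] at h
    have hP' : P.natDegree ≤ m - 1 := by
      rw [natDegree_le_iff_coeff_eq_zero] at hP ⊢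
      intro N hN
      rcases Nat.lt_or_ge m N with h1 | h1
      · exact hP N h1
      · have : N = m := by omega
        rw [this, h]
    simp only [m4_dd, ev]
    have e : m + n - 1 = (m - 1) + n := by omega
    rw [e]
    exact coeff_mul_add_eq_of_natDegree_le hP' hQ
  | some t =>
    simp only [ev] at h
    simp only [m4_dd, ev, derivative_mul, eval_add, eval_mul, h]
    ring

theorem m5_dd_sub : m4_dd n (P - Q) p = m4_dd n P p - m4_dd n Q p := by
  cases p <;> simp [m4_dd]

theorem m5_dd_C_mul (c : L) : m4_dd n (C c * P) p = c * m4_dd n P p := by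
  cases p <;> simp [m4_dd]

theorem m5_dd_BT {T : Finset (Option L)} (hT : T.card = 4) (hp : p ∈ T) :
    m4_dd 4 (BT T) p ≠ 0 := by
  intro h
  have hev : ∀ r ∈ T, ev 4 (BT T) r = 0 := by
    intro r hr
    have := (ev_BT (p := r) T).2 hr
    rwa [hT] at this
  apply BT_ne_zero T
  refine eq_zero_of_dv_ev (n := 4) (S := {p}) (T := T.erase p) (hT ▸ natDegree_BT T) ?_ ?_ ?_ ?_
  · rw [Finset.disjoint_singleton_left]
    exact Finset.notMem_erase p T
  · rw [Finset.card_singleton, Finset.card_erase_of_mem hp, hT]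
    norm_num
  · intro r hr
    rw [Finset.mem_singleton] at hr
    subst hr
    exact m4_dv_iff.2 ⟨hev r hp, h⟩
  · intro r hr
    exact hev r (Finset.mem_of_mem_erase hr)

/-- the linear system of the singularity conditions is injective unless the values are those
of a section -/
theorem m5_inj {T : Finset (Option L)} (hT : T.card = 4) (hP : P.natDegree ≤ 4)
    (hQ : Q.natDegree ≤ 6) (g : Option L → L)
    (hg : ¬ ∃ s : L[X], s.natDegree ≤ 2 ∧ ∀ p ∈ T, ev 2 s p = g p)
    (h1 : ∀ p ∈ T, ev 4 P p = 0) (h2 : ∀ p ∈ T, ev 4 P p * g p + ev 6 Q p = 0)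
    (h3 : ∀ p ∈ T, m4_dd 4 P p * g p + m4_dd 6 Q p = 0) : P = 0 ∧ Q = 0 := by
  have h2' : ∀ p ∈ T, ev 6 Q p = 0 := by
    intro p hp
    have := h2 p hp
    rwa [h1 p hp, zero_mul, zero_add] at this
  obtain ⟨A, hA, hPA⟩ := exists_mul_BT hP (by omega) h1
  obtain ⟨S, hS, hQS⟩ := exists_mul_BT hQ (by omega) h2'
  rw [hT] at hA hS
  norm_num at hA hS
  obtain ⟨κ, rfl⟩ : ∃ κ : L, A = C κ := ⟨A.coeff 0, eq_C_of_natDegree_eq_zero hA⟩
  have hB : (BT T).natDegree ≤ 4 := hT ▸ natDegree_BT T
  have hevB : ∀ p ∈ T, ev 4 (BT T) p = 0 := by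
    intro r hr
    have := (ev_BT (p := r) T).2 hr
    rwa [hT] at this
  have h4 : ∀ p ∈ T, κ * g p + ev 2 S p = 0 := by
    intro p hp
    have h := h3 p hp
    have e1 : m4_dd 4 P p = κ * m4_dd 4 (BT T) p := by
      rw [hPA, mul_comm, m5_dd_C_mul]
    have e2 : m4_dd 6 Q p = m4_dd 4 (BT T) p * ev 2 S p := by
      rw [hQS]
      exact m5_dd_mul (m := 4) (n := 2) (by norm_num) hB hS (hevB p hp)
    rw [e1, e2] at h
    have h' : m4_dd 4 (BT T) p * (κ * g p + ev 2 S p) = 0 := by
      rw [← h]; ring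
    exact (mul_eq_zero.1 h').resolve_left (m5_dd_BT hT hp)
  have hκ : κ = 0 := by
    by_contra hκ
    apply hg
    refine ⟨C (-κ⁻¹) * S, (natDegree_C_mul_le _ _).trans hS, fun p hp => ?_⟩
    rw [ev_C_mul]
    have := h4 p hp
    have h5 : ev 2 S p = -(κ * g p) := by
      rw [eq_neg_iff_add_eq_zero, add_comm]; exact this
    rw [h5]
    field_simp
  subst hκ
  have hS0 : S = 0 := by
    apply eq_zero_of_ev hS (T := T) (by omega)
    intro p hp
    have := h4 p hp
    rwa [zero_mul, zero_add] at this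
  constructor
  · rw [hPA, C_0, mul_zero]
  · rw [hQS, hS0, mul_zero]

end

section
variable {K : Type*} [Field K] [Fintype K] {n : ℕ}

/-- Frobenius as a ring homomorphism -/
def m5_fr (K : Type*) [Field K] [Fintype K] : Om K →+* Om K :=
  (FiniteField.frobeniusAlgHom K (Om K)).toRingHom

theorem m5_fr_apply (x : Om K) : m5_fr K x = x ^ Fintype.card K := rfl

theorem m5_fr_algebraMap (x : K) : m5_fr K (algebraMap K (Om K) x) = algebraMap K (Om K) x := by
  rw [m5_fr_apply, ← map_pow, FiniteField.pow_card]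

theorem m5_dd_frob (P : K[X]) (p : P1 K) :
    m4_dd n (up P) (frob K p) = m5_fr K (m4_dd n (up P) p) := by
  cases p with
  | none =>
    have : frob K none = none := rfl
    rw [this]
    simp only [m4_dd]
    rw [coeff_up, m5_fr_algebraMap]
  | some t =>
    have := ev_up_frob (n := n) (derivative P) (some t)
    have e : frob K (some t) = some (t ^ Fintype.card K) := rfl
    rw [e] at this ⊢
    simp only [m4_dd, ev, derivative_up] at this ⊢
    rw [m5_fr_apply]
    exact this

theorem m5_ev_frob (P : K[X]) (p : P1 K) :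
    ev n (up P) (frob K p) = m5_fr K (ev n (up P) p) := by
  rw [m5_fr_apply]; exact ev_up_frob P p

/-- a section over `Ω` with Frobenius compatible values on at least three points is over `K` -/
theorem m5_descent {T : Finset (P1 K)} (hT : IsStabG (frob K) T) (hc : 2 < T.card)
    (g : P1 K → Om K) (hg : ∀ p ∈ T, g (frob K p) = g p ^ Fintype.card K)
    {s : (Om K)[X]} (hs : s.natDegree ≤ 2) (h : ∀ p ∈ T, ev 2 s p = g p) :
    ∃ s0 ∈ V K 2, up s0 = s := by
  have key : phi K s = s := by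
    rw [← sub_eq_zero]
    apply eq_zero_of_ev (n := 2) (T := T)
    · refine (natDegree_sub_le _ _).trans (max_le ?_ hs)
      rw [natDegree_phi]; exact hs
    · exact hc
    · intro p hp
      have hp' := hp
      rw [← stab_image frob_injective hT, Finset.mem_image] at hp'
      obtain ⟨r, hr, rfl⟩ := hp'
      rw [ev_sub, ev_phi, h r hr, h _ hp, hg r hr, sub_self]
  obtain ⟨s0, hs0⟩ := phi_eq_iff.1 key
  refine ⟨s0, ?_, hs0⟩
  rw [mem_V, ← natDegree_up, hs0]
  exact hs

/-- the finite set of Frobenius compatible functions on `T` -/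
def m5_E {T : Finset (P1 K)} (hT : IsStabG (frob K) T) : Set (T → Om K) :=
  {g : T → Om K | ∀ p : T, g ⟨frob K p, hT p p.2⟩ = g p ^ Fintype.card K}

theorem m5_E_finite {T : Finset (P1 K)} (hT : IsStabG (frob K) T) : (m5_E hT).Finite := by
  apply Set.finite_of_ncard_pos
  rw [m5_E, card_equivariant hT]
  exact pow_pos Fintype.card_pos _

/-- finset version -/
def m5_F {T : Finset (P1 K)} (hT : IsStabG (frob K) T) : Finset (T → Om K) :=
  (m5_E_finite hT).toFinset

theorem m5_mem_F {T : Finset (P1 K)} (hT : IsStabG (frob K) T) {g : T → Om K} :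
    g ∈ m5_F hT ↔ ∀ p : T, g ⟨frob K p, hT p p.2⟩ = m5_fr K (g p) := by
  rw [m5_F, Set.Finite.mem_toFinset]
  rfl

theorem m5_card_F {T : Finset (P1 K)} (hT : IsStabG (frob K) T) :
    (m5_F hT).card = Fintype.card K ^ T.card := by
  rw [m5_F, ← Set.ncard_eq_toFinset_card _ (m5_E_finite hT), m5_E, card_equivariant hT]

/-- restriction of a section to `T` -/
def m5_res (T : Finset (P1 K)) (s : K[X]) : T → Om K := fun p => ev 2 (up s) p

/-- the sections among the compatible functions -/
def m5_S (T : Finset (P1 K)) : Finset (T → Om K) := (V K 2).image (m5_res T)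

theorem m5_S_sub {T : Finset (P1 K)} (hT : IsStabG (frob K) T) : m5_S T ⊆ m5_F hT := by
  intro g hg
  rw [m5_S, Finset.mem_image] at hg
  obtain ⟨s, _, rfl⟩ := hg
  rw [m5_mem_F]
  intro p
  exact m5_ev_frob s p

theorem m5_card_S {T : Finset (P1 K)} (hc : 2 < T.card) :
    (m5_S T).card = Fintype.card K ^ 3 := by
  rw [m5_S, Finset.card_image_of_injOn, card_V]
  intro s hs t ht h
  have hs' : s.natDegree ≤ 2 := mem_V.1 hs
  have ht' : t.natDegree ≤ 2 := mem_V.1 ht
  apply up_injective
  rw [← sub_eq_zero, ← up_sub]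
  apply eq_zero_of_ev (n := 2) (T := T)
  · rw [natDegree_up]
    exact (natDegree_sub_le _ _).trans (max_le hs' ht')
  · exact hc
  · intro p hp
    have := congrFun h ⟨p, hp⟩
    simp only [m5_res] at this
    rw [up_sub, ev_sub, this, sub_self]

/-- the cubics with prescribed singular values -/
def m5_C (T : Finset (P1 K)) (g : T → Om K) : Finset (K[X] × K[X] × K[X]) :=
  (C3 K).filter (fun a => ∀ p : T, Sing 2 3 (up2 (cub a)) p (g p))

theorem m5_card_C_sec {T : Finset (P1 K)} (hT : IsStabG (frob K) T) (hc : T.card = 4)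
    {g : T → Om K} (hg : g ∈ m5_S T) : (m5_C T g).card = Fintype.card K ^ 4 := by
  rw [m5_S, Finset.mem_image] at hg
  obtain ⟨s, hs, rfl⟩ := hg
  have e : m5_C T (m5_res T s) =
      (C3 K).filter (fun a => ∀ p ∈ T, Sing 2 3 (up2 (cub a)) p (ev 2 (up s) p)) := by
    rw [m5_C]
    refine Finset.filter_congr fun a _ => ?_
    constructor
    · intro h p hp
      exact h ⟨p, hp⟩
    · intro h p
      exact h p p.2
  rw [e, m4_card_trans T (mem_V.1 hs), m4_card_zero, card_vanish hT (by omega), hc]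
  have : (V K 6).filter (fun P => ∀ p ∈ T, dv 6 (up P) p) = {0} := by
    ext P
    rw [Finset.mem_filter, Finset.mem_singleton]
    constructor
    · rintro ⟨hP, h⟩
      apply up_injective
      rw [up_zero]
      exact eq_zero_of_dv (n := 6) (T := T) (by rw [natDegree_up]; exact mem_V.1 hP)
        (by omega) h
    · rintro rfl
      refine ⟨mem_V.2 (by simp), fun p _ => ?_⟩
      rw [up_zero]
      exact dv_zero
  rw [this, Finset.card_singleton]
  ring

/-- the conditions on `(a4, a6)` -/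
def m5_J (T : Finset (P1 K)) (g : T → Om K) (b : K[X] × K[X]) :
    (T → Om K) × (T → Om K) × (T → Om K) :=
  (fun p => ev 4 (up b.1) p, fun p => ev 4 (up b.1) p * g p + ev 6 (up b.2) p,
    fun p => m4_dd 4 (up b.1) p * g p + m4_dd 6 (up b.2) p)

theorem m5_J_inj {T : Finset (P1 K)} (hT : IsStabG (frob K) T) (hc : T.card = 4)
    {g : T → Om K} (hg : g ∈ m5_F hT) (hgS : g ∉ m5_S T) :
    Set.InjOn (m5_J T g) ((V K 4 ×ˢ V K 6 : Finset (K[X] × K[X])) : Set (K[X] × K[X])) := by
  intro b hb b' hb' h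
  rw [Finset.mem_coe, Finset.mem_product, mem_V, mem_V] at hb hb'
  set g' : P1 K → Om K := fun p => if hp : p ∈ T then g ⟨p, hp⟩ else 0 with hg'
  have hg'T : ∀ (p : P1 K) (hp : p ∈ T), g' p = g ⟨p, hp⟩ := by
    intro p hp
    simp only [hg', hp, dif_pos]
  have hns : ¬ ∃ s : (Om K)[X], s.natDegree ≤ 2 ∧ ∀ p ∈ T, ev 2 s p = g' p := by
    rintro ⟨s, hs, h⟩
    obtain ⟨s0, hs0, rfl⟩ := m5_descent hT (by omega) g' (fun p hp => by
      rw [hg'T _ (hT p hp), hg'T p hp]
      exact (m5_mem_F hT).1 hg ⟨p, hp⟩) hs h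
    apply hgS
    rw [m5_S, Finset.mem_image]
    refine ⟨s0, hs0, ?_⟩
    funext p
    rw [m5_res, h p p.2, hg'T p p.2]
  simp only [m5_J, Prod.mk.injEq] at h
  obtain ⟨e1, e2, e3⟩ := h
  have := m5_inj (P := up (b.1 - b'.1)) (Q := up (b.2 - b'.2)) hc
    (by rw [natDegree_up]; exact (natDegree_sub_le _ _).trans (max_le hb.1 hb'.1))
    (by rw [natDegree_up]; exact (natDegree_sub_le _ _).trans (max_le hb.2 hb'.2)) g' hns
    (by
      intro p hp
      have := congrFun e1 ⟨p, hp⟩
      simp only at this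
      rw [up_sub, ev_sub, this, sub_self])
    (by
      intro p hp
      have := congrFun e2 ⟨p, hp⟩
      simp only at this
      rw [up_sub, ev_sub, up_sub, ev_sub, hg'T p hp]
      linear_combination this)
    (by
      intro p hp
      have := congrFun e3 ⟨p, hp⟩
      simp only at this
      rw [up_sub, m5_dd_sub, up_sub, m5_dd_sub, hg'T p hp]
      linear_combination this)
  have h1 : b.1 - b'.1 = 0 := up_injective (by rw [this.1, up_zero])
  have h2 : b.2 - b'.2 = 0 := up_injective (by rw [this.2, up_zero])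
  exact Prod.ext (sub_eq_zero.1 h1) (sub_eq_zero.1 h2)

theorem m5_J_maps {T : Finset (P1 K)} (hT : IsStabG (frob K) T)
    {g : T → Om K} (hg : g ∈ m5_F hT) (b : K[X] × K[X]) :
    m5_J T g b ∈ m5_F hT ×ˢ m5_F hT ×ˢ m5_F hT := by
  rw [m5_mem_F] at hg
  rw [Finset.mem_product, Finset.mem_product, m5_mem_F, m5_mem_F, m5_mem_F]
  refine ⟨fun p => ?_, fun p => ?_, fun p => ?_⟩
  · exact m5_ev_frob _ _
  · simp only [m5_J]
    rw [hg p, m5_ev_frob, m5_ev_frob, map_add, map_mul]
  · simp only [m5_J]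
    rw [hg p, m5_dd_frob, m5_dd_frob, map_add, map_mul]

theorem m5_card_C_non {T : Finset (P1 K)} (hT : IsStabG (frob K) T) (hc : T.card = 4)
    {g : T → Om K} (hg : g ∈ m5_F hT) (hgS : g ∉ m5_S T) :
    (m5_C T g).card = Fintype.card K ^ 3 := by
  have hinj := m5_J_inj hT hc hg hgS
  have hsurj : Set.SurjOn (m5_J T g) ((V K 4 ×ˢ V K 6 : Finset (K[X] × K[X])) : Set (K[X] × K[X]))
      ((m5_F hT ×ˢ m5_F hT ×ˢ m5_F hT : Finset _) : Set _) := by
    apply Finset.surjOn_of_injOn_of_card_le _ (fun b _ => m5_J_maps hT hg b) hinj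
    rw [Finset.card_product, Finset.card_product, Finset.card_product, m5_card_F, hc, card_V,
      card_V, ← pow_add, ← pow_add, ← pow_add]
  -- the condition in terms of `m5_J`
  have hcond : ∀ a ∈ C3 K, (∀ p : T, Sing 2 3 (up2 (cub a)) p (g p)) ↔
      m5_J T g (a.2.1, a.2.2) =
        (fun p : T => -(3 * g p ^ 2 + 2 * ev 2 (up a.1) p * g p),
         fun p : T => -(g p ^ 3 + ev 2 (up a.1) p * g p ^ 2),
         fun p : T => -(m4_dd 2 (up a.1) p * g p ^ 2)) := by
    intro a ha
    rw [m4_mem_C3] at ha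
    have key : ∀ p : T, Sing 2 3 (up2 (cub a)) p (g p) ↔
        3 * g p ^ 2 + 2 * ev 2 (up a.1) p * g p + ev 4 (up a.2.1) p = 0 ∧
        g p ^ 3 + ev 2 (up a.1) p * g p ^ 2 + ev 4 (up a.2.1) p * g p + ev 6 (up a.2.2) p = 0 ∧
        m4_dd 2 (up a.1) p * g p ^ 2 + m4_dd 4 (up a.2.1) p * g p +
          m4_dd 6 (up a.2.2) p = 0 := fun p => by
      rw [up2_cub]
      exact m4_sing_iff (a := (up a.1, up a.2.1, up a.2.2)) (by simpa [natDegree_up] using ha.1)
        (by simpa [natDegree_up] using ha.2.1) (by simpa [natDegree_up] using ha.2.2) (g p)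
    simp only [m5_J, Prod.mk.injEq, funext_iff]
    constructor
    · intro h
      refine ⟨fun p => ?_, fun p => ?_, fun p => ?_⟩
      · linear_combination ((key p).1 (h p)).1
      · linear_combination ((key p).1 (h p)).2.1
      · linear_combination ((key p).1 (h p)).2.2
    · rintro ⟨h1, h2, h3⟩ p
      refine (key p).2 ⟨?_, ?_, ?_⟩
      · linear_combination h1 p
      · linear_combination h2 p
      · linear_combination h3 p
  rw [← card_V (K := K) (n := 2)]
  refine Finset.card_bij (fun a _ => a.1) ?_ ?_ ?_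
  · intro a ha
    rw [m5_C, Finset.mem_filter, C3, Finset.mem_product] at ha
    exact ha.1.1
  · intro a ha b hb hab
    rw [m5_C, Finset.mem_filter] at ha hb
    have ha2 := (hcond a ha.1).1 ha.2
    have hb2 := (hcond b hb.1).1 hb.2
    rw [hab, ← hb2] at ha2
    have ha1 := ha.1
    have hb1 := hb.1
    rw [C3, Finset.mem_product] at ha1 hb1
    have := hinj (Finset.mem_coe.2 ha1.2) (Finset.mem_coe.2 hb1.2) ha2
    exact Prod.ext hab this
  · intro s hs
    have hmem : ((fun p : T => -(3 * g p ^ 2 + 2 * ev 2 (up s) p * g p),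
         fun p : T => -(g p ^ 3 + ev 2 (up s) p * g p ^ 2),
         fun p : T => -(m4_dd 2 (up s) p * g p ^ 2)) :
          (T → Om K) × (T → Om K) × (T → Om K)) ∈ m5_F hT ×ˢ m5_F hT ×ˢ m5_F hT := by
      rw [m5_mem_F] at hg
      rw [Finset.mem_product, Finset.mem_product, m5_mem_F, m5_mem_F, m5_mem_F]
      refine ⟨fun p => ?_, fun p => ?_, fun p => ?_⟩
      · simp only
        rw [hg p, m5_ev_frob]
        simp only [map_add, map_mul, map_neg, map_pow, map_ofNat]
      · simp only
        rw [hg p, m5_ev_frob]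
        simp only [map_add, map_mul, map_neg, map_pow]
      · simp only
        rw [hg p, m5_dd_frob]
        simp only [map_mul, map_neg, map_pow]
    obtain ⟨b, hb, hb2⟩ := hsurj (Finset.mem_coe.2 hmem)
    have hC : (s, b) ∈ C3 K := by
      rw [C3, Finset.mem_product]
      exact ⟨hs, Finset.mem_coe.1 hb⟩
    refine ⟨(s, b), ?_, rfl⟩
    rw [m5_C, Finset.mem_filter]
    exact ⟨hC, (hcond (s, b) hC).2 hb2⟩

theorem m5_card_bad {T : Finset (P1 K)} (hT : IsStabG (frob K) T) (hc : T.card = 4) :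
    (((C3 K).filter (fun a => ∀ p ∈ T, Bad 2 3 (up2 (cub a)) p)).card : ℤ) =
      2 * (Fintype.card K : ℤ) ^ 7 - (Fintype.card K : ℤ) ^ 6 := by
  have h1 : ((C3 K).filter (fun a => ∀ p ∈ T, Bad 2 3 (up2 (cub a)) p)).card =
      ∑ g ∈ m5_F hT, (m5_C T g).card := by
    have hunion : (C3 K).filter (fun a => ∀ p ∈ T, Bad 2 3 (up2 (cub a)) p) =
        (m5_F hT).biUnion (m5_C T) := by
      ext a
      rw [Finset.mem_filter, Finset.mem_biUnion]
      constructor
      · rintro ⟨ha, hb⟩
        obtain ⟨g, hg, hgf⟩ := m4_values hT ha hb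
        refine ⟨fun p : T => g (p : P1 K), ?_, ?_⟩
        · rw [m5_mem_F]
          intro p
          exact hgf p p.2
        · rw [m5_C, Finset.mem_filter]
          exact ⟨ha, fun p => hg p p.2⟩
      · rintro ⟨g, _, ha⟩
        rw [m5_C, Finset.mem_filter] at ha
        exact ⟨ha.1, fun p hp => ⟨_, ha.2 ⟨p, hp⟩⟩⟩
    rw [hunion, Finset.card_biUnion]
    intro g _ g' _ hne
    rw [Function.onFun, Finset.disjoint_left]
    intro a ha ha'
    rw [m5_C, Finset.mem_filter] at ha ha'
    apply hne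
    funext p
    have hW : WP 2 3 (up2 (cub a)) := WP_up2 (mem_C3.1 ha.1)
    exact sing_unique3 hW (by norm_num) (ha.2 p) (ha'.2 p)
  have hsub := m5_S_sub hT
  rw [h1, ← Finset.sum_sdiff hsub,
    Finset.sum_congr rfl (fun g hg => m5_card_C_sec hT hc hg),
    Finset.sum_congr rfl (fun g hg => m5_card_C_non hT hc (Finset.mem_sdiff.1 hg).1
      (Finset.mem_sdiff.1 hg).2), Finset.sum_const, Finset.sum_const,
    Finset.card_sdiff_of_subset hsub, m5_card_S (by omega), m5_card_F, hc, smul_eq_mul, smul_eq_mul]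
  have hle : Fintype.card K ^ 3 ≤ Fintype.card K ^ 4 :=
    Nat.pow_le_pow_right Fintype.card_pos (by norm_num)
  push_cast [Nat.cast_sub hle]
  ring

end

section
variable (K : Type*) [Field K] [Fintype K]

theorem SU_four (_h2 : (2 : K) ≠ 0) : SU K 4 = 0 := by
  rw [m4_SU_of_const 4 _ (fun T hT => m5_card_bad (mem_Stab.1 hT).1 (mem_Stab.1 hT).2),
    MS_empty_ge (by norm_num), mul_zero]

end

end
end Pool.Agent.Helper19.DP1
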