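import Pool.Agent.Helper19.DP1.M2
import Pool.Agent.Helper19.DP1.Core4
import Pool.Agent.Helper19.DP1.Core6c
import Pool.Agent.Helper19.DP1.Sums

/-! M6: the sum for five points in the family of all sextics. -/

namespace Pool.Agent.Helper19.DP1
open Polynomial Classical
noncomputable section

section loc
variable {F : Type*} [Field F]

/-- a quadratic form with value `1` at `r` whose square agrees with `B/B(r)` to first order -/
theorem m6_root (h2 : (2 : F) ≠ 0) (r : Option F) (B : F[X]) (hB : ev 4 B r ≠ 0) :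
    ∃ U : F[X], U.natDegree ≤ 2 ∧ ev 2 U r = 1 ∧ dv 4 (U ^ 2 - C (ev 4 B r)⁻¹ * B) r := by
  cases r with
  | none =>
    have hB' : B.coeff 4 ≠ 0 := hB
    refine ⟨X ^ 2 + C (B.coeff 3 / (2 * B.coeff 4)) * X, ?_, ?_, ?_⟩
    · compute_degree
    · show (X ^ 2 + C (B.coeff 3 / (2 * B.coeff 4)) * X : F[X]).coeff 2 = 1
      simp
    · set c := B.coeff 3 / (2 * B.coeff 4) with hc
      have h1 : (X ^ 2 + C c * X : F[X]) ^ 2 = X ^ 4 + C (2 * c) * X ^ 3 + C (c ^ 2) * X ^ 2 := by
        simp only [C_mul, C_pow, map_ofNat]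
        ring
      have h2' : (C (ev 4 B none)⁻¹ : F[X]) = C (B.coeff 4)⁻¹ := rfl
      rw [h1, h2']
      constructor
      · simp only [coeff_sub, coeff_add, coeff_X_pow, coeff_C_mul]
        simp [hB']
      · simp only [coeff_sub, coeff_add, coeff_X_pow, coeff_C_mul]
        simp [hc]
        field_simp
        ring
  | some t =>
    have hB' : B.eval t ≠ 0 := hB
    refine ⟨1 + C (B.derivative.eval t / (2 * B.eval t)) * (X - C t), ?_, ?_, ?_⟩
    · compute_degree
      norm_num
    · show (1 + C (B.derivative.eval t / (2 * B.eval t)) * (X - C t) : F[X]).eval t = 1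
      simp
    · have h2' : (C (ev 4 B (some t))⁻¹ : F[X]) = C (B.eval t)⁻¹ := rfl
      rw [h2']
      constructor
      · simp [hB']
      · simp [derivative_pow]
        field_simp
        ring

end loc

section count
variable {K : Type*} [Field K] [Fintype K]

theorem m6_two (h2 : (2 : K) ≠ 0) : (2 : Om K) ≠ 0 := by
  have : (2 : Om K) = algebraMap K (Om K) 2 := (map_ofNat (algebraMap K (Om K)) 2).symm
  rw [this]
  exact (_root_.map_ne_zero _).mpr h2

/-- the possible pairs `(A2, A4)` -/
def m6E (T' : Finset (P1 K)) (r : Option K) : Finset (K[X] × K[X]) :=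
  (V K 2 ×ˢ V K 4).filter (fun x => x.2 ≠ 0 ∧ (∀ p ∈ T', ev 4 (up x.2) p = 0) ∧
    dv 4 (x.1 ^ 2 - 4 * x.2) r)

theorem m6_card_E (h2 : (2 : K) ≠ 0) {T' : Finset (P1 K)} (hT : IsStabG (frob K) T')
    (hc : T'.card = 4) (r : Option K) (hr : upP r ∉ T') :
    (m6E T' r).card = (Fintype.card K - 1) * Fintype.card K := by
  have h4 : (4 : K) ≠ 0 := by
    have : (4 : K) = 2 * 2 := by norm_num
    rw [this]
    exact mul_ne_zero h2 h2
  obtain ⟨B, hB⟩ := exists_BTK hT
  have hBd : B.natDegree ≤ 4 := by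
    rw [← natDegree_up, hB, ← hc]
    exact natDegree_BT T'
  have hb0 : ev 4 B r ≠ 0 := by
    intro h0
    apply hr
    have h1 := ev_upP (n := 4) B r
    rw [h0, map_zero, hB] at h1
    have h3 := (ev_BT (p := upP r) T')
    rw [hc] at h3
    exact h3.mp h1
  obtain ⟨U, hUd, hU1, hU2⟩ := m6_root h2 r B hb0
  set b0 := ev 4 B r with hb0d
  have hB0 : B ≠ 0 := by
    intro h0
    apply hb0
    rw [hb0d, h0, ev_zero]
  set Ψ : K × K → K[X] × K[X] := fun x => (C x.1 * U + C x.2 * lin r ^ 2, C (x.1 ^ 2 / (4 * b0)) * B)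
    with hΨ
  have hlin : (lin r ^ 2 : K[X]).natDegree ≤ 2 := by
    refine natDegree_pow_le.trans ?_
    have := natDegree_lin r
    omega
  have hlin0 : ev 2 (lin r ^ 2 : K[X]) r = 0 := by
    have h1 := ev_pow (p := r) (natDegree_lin r) 2
    rw [show (1 * 2 : ℕ) = 2 from rfl] at h1
    rw [h1, (ev_lin r).mpr rfl]
    ring
  have himg : m6E T' r = (((Finset.univ : Finset K).filter (fun x => x ≠ 0)) ×ˢ
      (Finset.univ : Finset K)).image Ψ := by
    ext ⟨A2, A4⟩
    simp only [m6E, Finset.mem_filter, Finset.mem_product, mem_V, Finset.mem_image, Finset.mem_univ,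
      true_and, and_true, Prod.exists]
    constructor
    · rintro ⟨⟨hA2, hA4⟩, hA40, hz, hdv⟩
      obtain ⟨Q, hQd, hQ⟩ := exists_mul_BT (P := up A4) (n := 4) (T := T') (by rwa [natDegree_up])
        (by omega) hz
      obtain ⟨c, rfl⟩ : ∃ c, Q = C c := ⟨Q.coeff 0, by
        apply eq_C_of_natDegree_le_zero
        omega⟩
      have hκ : c = algebraMap K (Om K) (ev 4 A4 r / b0) := by
        have h1 : ev 4 (up A4) (upP r) = c * ev 4 (up B) (upP r) := by
          rw [hQ, ← hB, mul_comm, ev_C_mul]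
        rw [ev_upP, ev_upP] at h1
        rw [map_div₀, h1, ← hb0d, mul_div_assoc, div_self, mul_one]
        exact (_root_.map_ne_zero _).mpr hb0
      set κ := ev 4 A4 r / b0 with hκd
      have hA4κ : A4 = C κ * B := by
        apply up_injective
        rw [up_mul, up_C, hB, hQ, hκ, mul_comm]
      have hκ0 : κ ≠ 0 := by
        intro h0
        apply hA40
        rw [hA4κ, h0]
        simp
      set α := ev 2 A2 r with hα
      have hα2 : α ^ 2 = 4 * κ * b0 := by
        have h1 := dv_ev hdv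
        rw [ev_sub] at h1
        have h3 := ev_pow (p := r) hA2 2
        rw [show (2 * 2 : ℕ) = 4 from rfl] at h3
        rw [h3] at h1
        have h5 : (4 * A4 : K[X]) = C (4 * κ) * B := by
          rw [hA4κ, C_mul, map_ofNat]; ring
        rw [h5, ev_C_mul, ← hb0d] at h1
        linear_combination h1
      have hα0 : α ≠ 0 := by
        intro h0
        rw [h0] at hα2
        have : 4 * κ * b0 ≠ 0 := mul_ne_zero (mul_ne_zero h4 hκ0) hb0
        apply this
        rw [← hα2]; ring
      have hκe : κ = α ^ 2 / (4 * b0) := by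
        rw [hα2]
        field_simp
      have hd : dv 4 ((A2 + C α * U) * (A2 - C α * U)) r := by
        have h1 : (A2 + C α * U) * (A2 - C α * U) =
            (A2 ^ 2 - 4 * A4) + -(C (α ^ 2) * (U ^ 2 - C b0⁻¹ * B)) := by
          have h5 : (4 * A4 : K[X]) = C (α ^ 2) * (C b0⁻¹ * B) := by
            have h6 : (4 : K[X]) * (C κ * B) = C (4 * κ) * B := by
              rw [C_mul, map_ofNat]; ring
            have h7 : C (α ^ 2) * (C b0⁻¹ * B) = C (α ^ 2 * b0⁻¹) * B := by
              rw [C_mul]; ring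
            rw [hA4κ, h6, h7]
            congr 2
            rw [hα2]
            field_simp
          rw [h5, C_pow]
          ring
        rw [h1]
        exact dv_add hdv (dv_neg (dv_C_mul _ hU2))
      have hW : dv 2 (A2 - C α * U) r := by
        apply dv_of_dv_mul (m := 2) (n := 2) (by norm_num) _ _ hd
        · rw [ev_add, ev_C_mul, hU1, ← hα]
          intro h0
          apply mul_ne_zero h2 hα0
          linear_combination h0
        · refine (natDegree_add_le _ _).trans (max_le hA2 ?_)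
          exact (natDegree_C_mul_le _ _).trans hUd
        · refine (natDegree_sub_le _ _).trans (max_le hA2 ?_)
          exact (natDegree_C_mul_le _ _).trans hUd
      obtain ⟨Q, hQd, hQ⟩ := (dv_iff le_rfl ((natDegree_sub_le _ _).trans (max_le hA2
          ((natDegree_C_mul_le _ _).trans hUd)))).mp hW
      obtain ⟨γ, rfl⟩ : ∃ γ, Q = C γ := ⟨Q.coeff 0, by
        apply eq_C_of_natDegree_le_zero
        omega⟩
      refine ⟨α, γ, hα0, ?_⟩
      rw [hΨ]
      simp only [Prod.mk.injEq]
      constructor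
      · linear_combination -hQ
      · rw [← hκe, hA4κ]
    · rintro ⟨α, γ, hα0, he⟩
      rw [hΨ] at he
      simp only [Prod.mk.injEq] at he
      obtain ⟨rfl, rfl⟩ := he
      have hκ0 : α ^ 2 / (4 * b0) ≠ 0 := div_ne_zero (pow_ne_zero 2 hα0) (mul_ne_zero h4 hb0)
      refine ⟨⟨?_, ?_⟩, ?_, ?_, ?_⟩
      · refine (natDegree_add_le _ _).trans (max_le ((natDegree_C_mul_le _ _).trans hUd) ?_)
        exact (natDegree_C_mul_le _ _).trans hlin
      · exact (natDegree_C_mul_le _ _).trans hBd
      · exact mul_ne_zero (by rwa [Ne, C_eq_zero]) hB0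
      · intro p hp
        rw [up_mul, up_C, ev_C_mul, hB]
        have h3 := (ev_BT (p := p) T')
        rw [hc] at h3
        rw [h3.mpr hp, mul_zero]
      · have h1 : (C α * U + C γ * lin r ^ 2) ^ 2 - 4 * (C (α ^ 2 / (4 * b0)) * B) =
            C (α ^ 2) * (U ^ 2 - C b0⁻¹ * B) +
              lin r ^ 2 * (C (2 * α * γ) * U + C (γ ^ 2) * lin r ^ 2) := by
          have h5 : (4 * (C (α ^ 2 / (4 * b0)) * B) : K[X]) = C (α ^ 2) * (C b0⁻¹ * B) := by
            have h6 : (4 : K[X]) * (C (α ^ 2 / (4 * b0)) * B) = C (4 * (α ^ 2 / (4 * b0))) * B := by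
              rw [C_mul, map_ofNat]; ring
            have h7 : C (α ^ 2) * (C b0⁻¹ * B) = C (α ^ 2 * b0⁻¹) * B := by
              rw [C_mul]; ring
            rw [h6, h7]
            congr 2
            field_simp
          rw [h5, C_pow, C_mul, C_mul, C_pow, map_ofNat]
          ring
        rw [h1]
        apply dv_add (dv_C_mul _ hU2)
        have hR : (C (2 * α * γ) * U + C (γ ^ 2) * lin r ^ 2 : K[X]).natDegree ≤ 2 := by
          refine (natDegree_add_le _ _).trans (max_le ((natDegree_C_mul_le _ _).trans hUd) ?_)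
          exact (natDegree_C_mul_le _ _).trans hlin
        have hLR : (lin r ^ 2 * (C (2 * α * γ) * U + C (γ ^ 2) * lin r ^ 2) : K[X]).natDegree ≤ 4 := by
          refine natDegree_mul_le.trans ?_
          omega
        rw [dv_iff (by norm_num) hLR]
        exact ⟨_, hR, rfl⟩
  rw [himg, Finset.card_image_of_injective]
  · rw [Finset.card_product]
    congr 1
    rw [Finset.filter_ne', Finset.card_erase_of_mem (Finset.mem_univ _), Finset.card_univ]
  · rintro ⟨α, γ⟩ ⟨α', γ'⟩ he
    rw [hΨ] at he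
    simp only [Prod.mk.injEq] at he
    obtain ⟨h1, -⟩ := he
    have hαe : α = α' := by
      have h3 := congrArg (fun P => ev 2 P r) h1
      simp only [ev_add, ev_C_mul, hU1, hlin0, mul_one, mul_zero, add_zero] at h3
      exact h3
    subst hαe
    have h3 : C γ * (lin r ^ 2 : K[X]) = C γ' * lin r ^ 2 := add_left_cancel h1
    have h5 := mul_right_cancel₀ (pow_ne_zero 2 (lin_ne_zero r)) h3
    rw [C_inj] at h5
    rw [h5]

end count

section geo
variable {L : Type*} [Field L] {f : L[X][X]} {T : Finset (Option L)} {P Q : L[X]} {p : Option L}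

theorem m6_unique (hf : WP 2 3 f) (hT : T.card = 5) {s s' : L[X]} (hs : s.natDegree ≤ 2)
    (hs' : s'.natDegree ≤ 2) (h : 4 ≤ (T.filter (fun p => Sing 2 3 f p (ev 2 s p))).card)
    (h' : 4 ≤ (T.filter (fun p => Sing 2 3 f p (ev 2 s' p))).card) : s = s' := by
  set A := T.filter (fun p => Sing 2 3 f p (ev 2 s p)) with hA
  set B := T.filter (fun p => Sing 2 3 f p (ev 2 s' p)) with hB
  have h1 : (A ∪ B).card + (A ∩ B).card = A.card + B.card := Finset.card_union_add_card_inter A B
  have h2 : (A ∪ B).card ≤ T.card := Finset.card_le_card (Finset.union_subset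
    (Finset.filter_subset _ _) (Finset.filter_subset _ _))
  rw [← sub_eq_zero]
  apply eq_zero_of_ev (n := 2) (T := A ∩ B) ((natDegree_sub_le _ _).trans (max_le hs hs'))
    (by omega)
  intro p hp
  rw [Finset.mem_inter, hA, hB, Finset.mem_filter, Finset.mem_filter] at hp
  rw [ev_sub, sing_unique3 hf (by norm_num) hp.1.2 hp.2.2, sub_self]

theorem m6_cub_eq : cub (P, Q, (0 : L[X])) = (X - C 0) * (X ^ 2 + C P * X + C Q) := by
  simp only [cub, C_0]
  ring

theorem m6_WP_quad (hP : P.natDegree ≤ 2) (hQ : Q.natDegree ≤ 4) :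
    WP 2 2 (X ^ 2 + C P * X + C Q : L[X][X]) := by
  have hd : (X ^ 2 + C P * X + C Q : L[X][X]).natDegree = 2 := by
    compute_degree!
  refine ⟨?_, hd, ?_⟩
  · rw [Monic, leadingCoeff, hd]
    simp
  · intro i hi
    interval_cases i
    · simp
    · simpa using hP
    · simpa using hQ

theorem m6_sing_zero (hP : P.natDegree ≤ 2) (hQ : Q.natDegree ≤ 4) :
    Sing 2 3 (cub (P, Q, (0 : L[X]))) p 0 ↔ ev 4 Q p = 0 := by
  have hW : WP 2 3 (cub (P, Q, (0 : L[X]))) := WP_cub hP hQ (by simp)
  have h := sing_iff (p := p) (s := (0 : L[X])) hW (by norm_num) (by norm_num) (by simp)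
  rw [ev_zero] at h
  rw [h]
  have h1 : (cub (P, Q, (0 : L[X]))).derivative.eval 0 = Q := by
    simp [cub]
  have h2 : (cub (P, Q, (0 : L[X]))).eval 0 = 0 := by
    simp [cub]
  rw [h1, h2]
  exact ⟨fun h => h.1, fun h => ⟨h, dv_zero⟩⟩

theorem m6_sing_ne (h2 : (2 : L) ≠ 0) (hP : P.natDegree ≤ 2) (hQ : Q.natDegree ≤ 4) {v : L}
    (hv : v ≠ 0) :
    Sing 2 3 (cub (P, Q, (0 : L[X]))) p v ↔ 2 * v + ev 2 P p = 0 ∧ dv 4 (P ^ 2 - 4 * Q) p := by
  have hW1 : WP 2 1 (X - C (0 : L[X]) : L[X][X]) := WP_X_sub_C (by simp)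
  have hW2 := m6_WP_quad hP hQ
  rw [m6_cub_eq]
  have h := sing_mul_right (p := p) (v := v) hW1 hW2 (by norm_num) (by norm_num) (by
    rw [fib_X_sub_C (by simp), ev_zero]
    simpa using hv)
  have h' : Sing 2 3 ((X - C 0) * (X ^ 2 + C P * X + C Q)) p v ↔
      Sing 2 2 (X ^ 2 + C P * X + C Q) p v := h
  rw [h', sing_quad h2 hW2 (by norm_num)]
  simp

theorem m6_bad (h2 : (2 : L) ≠ 0) (hP : P.natDegree ≤ 2) (hQ : Q.natDegree ≤ 4) :
    Bad 2 3 (cub (P, Q, (0 : L[X]))) p ↔ ev 4 Q p = 0 ∨ dv 4 (P ^ 2 - 4 * Q) p := by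
  constructor
  · rintro ⟨v, hv⟩
    by_cases h0 : v = 0
    · left
      rw [h0] at hv
      exact (m6_sing_zero hP hQ).mp hv
    · right
      exact ((m6_sing_ne h2 hP hQ h0).mp hv).2
  · intro h
    by_cases h0 : ev 4 Q p = 0
    · exact ⟨0, (m6_sing_zero hP hQ).mpr h0⟩
    · rcases h with h | h
      · exact absurd h h0
      have h4 : (4 : L) ≠ 0 := by
        have : (4 : L) = 2 * 2 := by norm_num
        rw [this]
        exact mul_ne_zero h2 h2
      have hv : -(ev 2 P p) / 2 ≠ 0 := by
        intro hc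
        have h3 : ev 2 P p = 0 := by
          have := (div_eq_zero_iff.mp hc).resolve_right h2
          linear_combination -this
        have h5 := dv_ev h
        rw [ev_sub] at h5
        have h6 := ev_pow (p := p) hP 2
        rw [show (2 * 2 : ℕ) = 4 from rfl] at h6
        have h7 : (4 * Q : L[X]) = C 4 * Q := by rw [map_ofNat]
        rw [h6, h3, h7, ev_C_mul] at h5
        have h8 : (4 : L) * ev 4 Q p = 0 := by linear_combination -h5
        exact h0 ((mul_eq_zero.mp h8).resolve_left h4)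
      refine ⟨-(ev 2 P p) / 2, (m6_sing_ne h2 hP hQ hv).mpr ⟨?_, h⟩⟩
      field_simp
      ring

end geo

section main
variable {K : Type*} [Field K] [Fintype K]

/-- the cubic with section `s` and residual double cover `(A2, A4)` -/
def m6P (x : K[X] × K[X] × K[X]) : K[X] × K[X] × K[X] :=
  (x.2.1 - 3 * x.1, x.2.2 - 2 * x.2.1 * x.1 + 3 * x.1 ^ 2,
    - x.1 ^ 3 + x.2.1 * x.1 ^ 2 - x.2.2 * x.1)

theorem m6P_cub (x : K[X] × K[X] × K[X]) :
    (cub (m6P x)).comp (X + C x.1) = cub (x.2.1, x.2.2, 0) := by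
  obtain ⟨s, P, Q⟩ := x
  simp only [cub, m6P, add_comp, mul_comp, pow_comp, X_comp, C_comp]
  simp only [map_sub, map_add, map_mul, map_neg, map_pow, map_ofNat, map_zero]
  ring

theorem m6P_inj {x x' : K[X] × K[X] × K[X]} (h1 : x.1 = x'.1) (h : m6P x = m6P x') : x = x' := by
  have h2 : cub (x.2.1, x.2.2, (0 : K[X])) = cub (x'.2.1, x'.2.2, (0 : K[X])) := by
    rw [← m6P_cub, ← m6P_cub, h, h1]
  have h3 := cub_injective h2
  simp only [Prod.mk.injEq] at h3
  exact Prod.ext h1 (Prod.ext h3.1 h3.2.1)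

theorem m6P_surj (a : K[X] × K[X] × K[X]) (s : K[X]) (h : (cub a).eval s = 0) :
    a = m6P (s, a.1 + 3 * s, a.2.1 + 2 * a.1 * s + 3 * s ^ 2) := by
  obtain ⟨a2, a4, a6⟩ := a
  simp only [cub, m6P, eval_add, eval_mul, eval_pow, eval_X, eval_C] at h ⊢
  simp only [Prod.mk.injEq]
  refine ⟨by ring, by ring, ?_⟩
  linear_combination h

theorem m6P_mem {x : K[X] × K[X] × K[X]} (h1 : x.1.natDegree ≤ 2) (h2 : x.2.1.natDegree ≤ 2)
    (h3 : x.2.2.natDegree ≤ 4) : m6P x ∈ C3 K := by
  rw [mem_C3]
  have h4 : cub (m6P x) = (cub (x.2.1, x.2.2, 0)).comp (X + C (-x.1)) := by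
    rw [← m6P_cub, comp_assoc]
    simp
  rw [h4]
  exact WP_comp (WP_cub h2 h3 (by simp)) (by rwa [natDegree_neg])

/-- translation to the normal form, over the algebraic closure -/
theorem m6_sing_up {x : K[X] × K[X] × K[X]} (h1 : x.1.natDegree ≤ 2) (h2 : x.2.1.natDegree ≤ 2)
    (h3 : x.2.2.natDegree ≤ 4) (p : P1 K) :
    (Sing 2 3 (up2 (cub (m6P x))) p (ev 2 (up x.1) p) ↔ ev 4 (up x.2.2) p = 0) := by
  have hW : WP 2 3 (up2 (cub (m6P x))) := WP_up2 (mem_C3.mp (m6P_mem h1 h2 h3))
  have hs : (up x.1).natDegree ≤ 2 := by rwa [natDegree_up]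
  have h := sing_comp (p := p) (v := 0) hW (by norm_num) (by norm_num) hs
  rw [zero_add] at h
  rw [← h, ← up2_comp, m6P_cub, up2_cub]
  simp only [up_zero]
  exact m6_sing_zero (by rwa [natDegree_up]) (by rwa [natDegree_up])

theorem m6_bad_up (hK : (2 : K) ≠ 0) {x : K[X] × K[X] × K[X]} (h1 : x.1.natDegree ≤ 2)
    (h2 : x.2.1.natDegree ≤ 2) (h3 : x.2.2.natDegree ≤ 4) (p : P1 K) :
    (Bad 2 3 (up2 (cub (m6P x))) p ↔
      ev 4 (up x.2.2) p = 0 ∨ dv 4 (up (x.2.1 ^ 2 - 4 * x.2.2)) p) := by
  have hW : WP 2 3 (up2 (cub (m6P x))) := WP_up2 (mem_C3.mp (m6P_mem h1 h2 h3))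
  have hs : (up x.1).natDegree ≤ 2 := by rwa [natDegree_up]
  rw [← bad_comp hW (by norm_num) (by norm_num) hs, ← up2_comp, m6P_cub, up2_cub]
  simp only [up_zero]
  rw [m6_bad (m6_two hK) (by rwa [natDegree_up]) (by rwa [natDegree_up])]
  have h4 : up (x.2.1 ^ 2 - 4 * x.2.2) = up x.2.1 ^ 2 - 4 * up x.2.2 := by
    have : (4 : K[X]) = C 4 := (map_ofNat C 4).symm
    rw [up_sub, up_pow, up_mul, this, up_C]
    have h9 : algebraMap K (Om K) 4 = 4 := map_ofNat _ 4
    rw [h9, map_ofNat]
  rw [h4]

/-- the count of the reduced sextics singular over the five points of `T` -/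
theorem m6_N (hK : (2 : K) ≠ 0) {T : Finset (P1 K)} (hT : T ∈ Stab K 5) :
    ((C3 K).filter (fun a => (∃ p, ¬ Bad 2 3 (up2 (cub a)) p) ∧
      ∀ p ∈ T, Bad 2 3 (up2 (cub a)) p)).card =
    ((Finset.univ : Finset (Option K)).filter (fun r => upP r ∈ T)).card *
      (Fintype.card K ^ 3 * ((Fintype.card K - 1) * Fintype.card K)) := by
  obtain ⟨hTs, hTc⟩ := mem_Stab.mp hT
  have herase : ∀ r : Option K, upP r ∈ T → IsStabG (frob K) (T.erase (upP r)) := by
    intro r hr
    rw [← Finset.sdiff_singleton_eq_erase]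
    apply stab_sdiff frob_injective hTs
    intro x hx
    rw [Finset.mem_singleton] at hx ⊢
    rw [hx, frob_upP]
  have hcard : ∀ r ∈ (Finset.univ : Finset (Option K)).filter (fun r => upP r ∈ T),
      (V K 2 ×ˢ m6E (T.erase (upP r)) r).card =
        Fintype.card K ^ 3 * ((Fintype.card K - 1) * Fintype.card K) := by
    intro r hr
    rw [Finset.mem_filter] at hr
    rw [Finset.card_product, card_V, m6_card_E hK (herase r hr.2)]
    · rw [Finset.card_erase_of_mem hr.2, hTc]
    · exact Finset.notMem_erase _ _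
  rw [← smul_eq_mul, ← Finset.sum_const, ← Finset.sum_congr rfl hcard, ← Finset.card_sigma]
  symm
  apply Finset.card_bij (fun y _ => m6P y.2)
  · rintro ⟨r, s, A2, A4⟩ hy
    simp only [Finset.mem_sigma, Finset.mem_filter, Finset.mem_univ, true_and, Finset.mem_product,
      mem_V, m6E] at hy
    obtain ⟨hr, hs, ⟨h2, h4⟩, h0, hz, hd⟩ := hy
    rw [Finset.mem_filter]
    refine ⟨m6P_mem hs h2 h4, ?_, ?_⟩
    · by_contra hcon
      push Not at hcon
      have hall : ∀ p : P1 K, ev 8 (up (A4 * (A2 ^ 2 - 4 * A4))) p = 0 := by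
        intro p
        have hD : (A2 ^ 2 - 4 * A4).natDegree ≤ 4 := by
          refine (natDegree_sub_le _ _).trans (max_le ?_ ?_)
          · refine natDegree_pow_le.trans ?_
            omega
          · have : (4 * A4 : K[X]) = C 4 * A4 := by rw [map_ofNat]
            rw [this]
            exact (natDegree_C_mul_le _ _).trans h4
        have h8 : ev (4 + 4) (up A4 * up (A2 ^ 2 - 4 * A4)) p =
            ev 4 (up A4) p * ev 4 (up (A2 ^ 2 - 4 * A4)) p :=
          ev_mul (by rwa [natDegree_up]) (by rwa [natDegree_up])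
        rw [up_mul, show (8 : ℕ) = 4 + 4 from rfl, h8]
        rcases (m6_bad_up hK (x := (s, A2, A4)) hs h2 h4 p).mp (hcon p) with h | h
        · rw [h, zero_mul]
        · rw [dv_ev h, mul_zero]
      have hprod : A4 * (A2 ^ 2 - 4 * A4) = 0 := by
        apply up_injective
        rw [up_zero]
        by_contra hne
        have hfin := finite_zeros (n := 8) (P := up (A4 * (A2 ^ 2 - 4 * A4))) (by
          rw [natDegree_up]
          refine natDegree_mul_le.trans ?_
          have : (A2 ^ 2 - 4 * A4).natDegree ≤ 4 := by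
            refine (natDegree_sub_le _ _).trans (max_le ?_ ?_)
            · refine natDegree_pow_le.trans ?_
              omega
            · have : (4 * A4 : K[X]) = C 4 * A4 := by rw [map_ofNat]
              rw [this]
              exact (natDegree_C_mul_le _ _).trans h4
          omega) hne
        have huniv : {p | ev 8 (up (A4 * (A2 ^ 2 - 4 * A4))) p = 0} = Set.univ := by
          ext p
          simp [hall p]
        rw [huniv] at hfin
        have : Infinite (P1 K) := inferInstance
        exact Set.infinite_univ hfin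
      have hA : A2 ^ 2 - 4 * A4 = 0 := (mul_eq_zero.mp hprod).resolve_left h0
      have hA2 : A2 = 0 := by
        apply up_injective
        rw [up_zero]
        apply eq_zero_of_ev (n := 2) (T := T.erase (upP r)) (by rwa [natDegree_up])
          (by rw [Finset.card_erase_of_mem hr, hTc]; norm_num)
        intro p hp
        have h5 := hz p hp
        have h6 : up A2 ^ 2 = C 4 * up A4 := by
          have h7 := congrArg up hA
          have : (4 * A4 : K[X]) = C 4 * A4 := by rw [map_ofNat]
          rw [this, up_sub, up_pow, up_mul, up_C, up_zero] at h7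
          have h9 : algebraMap K (Om K) 4 = 4 := map_ofNat _ 4
          rw [h9] at h7
          linear_combination h7
        have h7 := ev_pow (P := up A2) (m := 2) (p := p) (by rwa [natDegree_up]) 2
        rw [show (2 * 2 : ℕ) = 4 from rfl, h6, ev_C_mul, h5, mul_zero] at h7
        exact pow_eq_zero_iff (two_ne_zero) |>.mp h7.symm
      apply h0
      rw [hA2] at hA
      have h4ne : (4 : K) ≠ 0 := by
        have : (4 : K) = 2 * 2 := by norm_num
        rw [this]
        exact mul_ne_zero hK hK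
      have h5 : C (4 : K) * A4 = 0 := by
        rw [map_ofNat]
        linear_combination -hA
      exact (mul_eq_zero.mp h5).resolve_left (by rwa [C_eq_zero])
    · intro p hp
      rw [m6_bad_up hK (x := (s, A2, A4)) hs h2 h4 p]
      by_cases hpr : p = upP r
      · right
        rw [hpr, dv_upP]
        exact hd
      · left
        exact hz p (Finset.mem_erase.mpr ⟨hpr, hp⟩)
  · rintro ⟨r, s, A2, A4⟩ hy ⟨r', s', A2', A4'⟩ hy' he
    simp only [Finset.mem_sigma, Finset.mem_filter, Finset.mem_univ, true_and, Finset.mem_product,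
      mem_V, m6E] at hy hy'
    obtain ⟨hr, hs, ⟨h2, h4⟩, h0, hz, hd⟩ := hy
    obtain ⟨hr', hs', ⟨h2', h4'⟩, h0', hz', hd'⟩ := hy'
    simp only at he
    have hW : WP 2 3 (up2 (cub (m6P (s, A2, A4)))) := WP_up2 (mem_C3.mp (m6P_mem hs h2 h4))
    have hss : up s = up s' := by
      apply m6_unique hW hTc (by rwa [natDegree_up]) (by rwa [natDegree_up])
      · have : (T.erase (upP r)).card ≤
            (T.filter (fun p => Sing 2 3 (up2 (cub (m6P (s, A2, A4)))) p (ev 2 (up s) p))).card := by
          apply Finset.card_le_card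
          intro p hp
          rw [Finset.mem_filter]
          exact ⟨Finset.mem_of_mem_erase hp,
            (m6_sing_up (x := (s, A2, A4)) hs h2 h4 p).mpr (hz p hp)⟩
        rw [Finset.card_erase_of_mem hr, hTc] at this
        exact this
      · rw [he]
        have : (T.erase (upP r')).card ≤
            (T.filter (fun p => Sing 2 3 (up2 (cub (m6P (s', A2', A4')))) p
              (ev 2 (up s') p))).card := by
          apply Finset.card_le_card
          intro p hp
          rw [Finset.mem_filter]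
          exact ⟨Finset.mem_of_mem_erase hp,
            (m6_sing_up (x := (s', A2', A4')) hs' h2' h4' p).mpr (hz' p hp)⟩
        rw [Finset.card_erase_of_mem hr', hTc] at this
        exact this
    have hx : ((s, A2, A4) : K[X] × K[X] × K[X]) = (s', A2', A4') :=
      m6P_inj (up_injective hss) he
    have hrr : r = r' := by
      by_contra hne
      apply h0
      apply up_injective
      rw [up_zero]
      apply eq_zero_of_ev (n := 4) (T := T) (by rwa [natDegree_up]) (by omega)
      intro p hp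
      by_cases hpr : p = upP r
      · simp only [Prod.mk.injEq] at hx
        rw [hx.2.2]
        apply hz'
        rw [Finset.mem_erase]
        refine ⟨?_, hp⟩
        rw [hpr]
        intro h
        exact hne (upP_injective h)
      · exact hz p (Finset.mem_erase.mpr ⟨hpr, hp⟩)
    subst hrr
    rw [hx]
  · intro a ha
    rw [Finset.mem_filter] at ha
    obtain ⟨haC, hred, hbad⟩ := ha
    have hW : WP 2 3 (up2 (cub a)) := WP_up2 (mem_C3.mp haC)
    obtain ⟨s, hs, hfs, hsc⟩ := cub_five (m6_two hK) hW hTc hbad hred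
    have hphi : phi K s = s := by
      apply m6_unique hW hTc (by rwa [natDegree_phi]) hs _ hsc.ge
      rw [← hsc]
      apply Finset.card_le_card_of_injOn (frob K)
      · intro p hp
        rw [Finset.mem_coe, Finset.mem_filter] at hp ⊢
        refine ⟨hTs p hp.1, ?_⟩
        rw [ev_phi]
        exact sing_frob (mem_C3.mp haC) hp.2
      · exact frob_injective.injOn
    obtain ⟨s0, rfl⟩ := phi_eq_iff.mp hphi
    have hs0 : s0.natDegree ≤ 2 := by rwa [natDegree_up] at hs
    have hfs0 : (cub a).eval s0 = 0 := by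
      apply up_injective
      rw [up_zero, ← hfs, up2_cub]
      simp only [cub, eval_add, eval_mul, eval_pow, eval_X, eval_C, up_add, up_mul, up_pow]
    have hsurj := m6P_surj a s0 hfs0
    set A2 := a.1 + 3 * s0 with hA2
    set A4 := a.2.1 + 2 * a.1 * s0 + 3 * s0 ^ 2 with hA4
    have hWa := mem_C3.mp haC
    have hWc : WP 2 3 (cub (A2, A4, (0 : K[X]))) := by
      have := WP_comp hWa hs0
      rw [hsurj] at this
      have h2 := m6P_cub (s0, A2, A4)
      simp only at h2
      rwa [h2] at this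
    have h2 : A2.natDegree ≤ 2 := by
      have := hWc.2.2 1 (by norm_num)
      simpa [cub] using this
    have h4 : A4.natDegree ≤ 4 := by
      have := hWc.2.2 2 (by norm_num)
      simpa [cub] using this
    rw [hsurj] at hbad hred hsc
    have hsc' : (T.filter (fun p => ev 4 (up A4) p = 0)).card = 4 := by
      refine Eq.trans ?_ hsc
      congr 1
      apply Finset.filter_congr
      intro p _
      exact (m6_sing_up (x := (s0, A2, A4)) hs0 h2 h4 p).symm
    have h40 : A4 ≠ 0 := by
      intro h0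
      obtain ⟨p, hp⟩ := hred
      apply hp
      rw [m6_bad_up hK (x := (s0, A2, A4)) hs0 h2 h4 p]
      left
      rw [h0, up_zero, ev_zero]
    set T4 := T.filter (fun p => ev 4 (up A4) p = 0) with hT4
    have hT4s : IsStabG (frob K) T4 := by
      intro p hp
      rw [hT4, Finset.mem_filter] at hp ⊢
      refine ⟨hTs p hp.1, ?_⟩
      rw [ev_up_frob, hp.2, zero_pow Fintype.card_ne_zero]
    have hsd : (T \ T4).card = 1 := by
      rw [Finset.card_sdiff_of_subset (Finset.filter_subset _ _), hTc, hsc']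
    obtain ⟨p5, hp5⟩ := Finset.card_eq_one.mp hsd
    have hfix : frob K p5 = p5 := by
      have := stab_sdiff frob_injective hTs hT4s p5 (by rw [hp5]; exact Finset.mem_singleton_self _)
      rw [hp5, Finset.mem_singleton] at this
      exact this
    obtain ⟨r, hr⟩ := frob_eq_iff.mp hfix
    have hp5m : p5 ∈ T \ T4 := by rw [hp5]; exact Finset.mem_singleton_self _
    rw [Finset.mem_sdiff] at hp5m
    have hz : ∀ p ∈ T.erase (upP r), ev 4 (up A4) p = 0 := by
      intro p hp
      by_contra hne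
      have hp' : p ∈ T \ T4 := by
        rw [Finset.mem_sdiff, hT4, Finset.mem_filter]
        exact ⟨Finset.mem_of_mem_erase hp, fun h => hne h.2⟩
      rw [hp5, Finset.mem_singleton] at hp'
      rw [hr, hp'] at hp
      exact Finset.notMem_erase _ _ hp
    have hd : dv 4 (A2 ^ 2 - 4 * A4) r := by
      have hb5 := hbad p5 hp5m.1
      rw [m6_bad_up hK (x := (s0, A2, A4)) hs0 h2 h4 p5] at hb5
      rcases hb5 with h | h
      · exact absurd (by rw [hT4, Finset.mem_filter]; exact ⟨hp5m.1, h⟩) hp5m.2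
      · rw [← hr, dv_upP] at h
        exact h
    refine ⟨⟨r, (s0, A2, A4)⟩, ?_, ?_⟩
    · simp only [Finset.mem_sigma, Finset.mem_filter, Finset.mem_univ, true_and, Finset.mem_product,
        mem_V, m6E]
      exact ⟨by rw [hr]; exact hp5m.1, hs0, ⟨h2, h4⟩, h40, hz, hd⟩
    · exact hsurj.symm

end main

section final
variable (K : Type*) [Field K] [Fintype K]

/-- M6 -/
theorem SU_five (h2 : (2 : K) ≠ 0) : SU K 5 = 0 := by
  have hempty : ∑ T ∈ Stab K 5, mu K T = 0 := by
    rw [sum_Stab_mu, MS_empty_ge (by norm_num)]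
  unfold SU
  rw [← Finset.sum_filter_add_sum_filter_not (C3 K) (fun a => ∃ p, ¬ Bad 2 3 (up2 (cub a)) p)]
  have hnon : ∑ a ∈ (C3 K).filter (fun a => ¬ ∃ p, ¬ Bad 2 3 (up2 (cub a)) p),
      ∑ T ∈ (Stab K 5).filter (fun T => ∀ p ∈ T, Bad 2 3 (up2 (cub a)) p), mu K T = 0 := by
    apply Finset.sum_eq_zero
    intro a ha
    rw [Finset.mem_filter] at ha
    push Not at ha
    rw [Finset.filter_true_of_mem (fun T _ p _ => ha.2 p), hempty]
  rw [hnon, add_zero]
  simp_rw [Finset.sum_filter]
  have hpush : (∑ a ∈ C3 K, if ∃ p, ¬ Bad 2 3 (up2 (cub a)) p then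
      (∑ T ∈ Stab K 5, if ∀ p ∈ T, Bad 2 3 (up2 (cub a)) p then mu K T else 0) else 0) =
      ∑ a ∈ C3 K, ∑ T ∈ Stab K 5, (if ∃ p, ¬ Bad 2 3 (up2 (cub a)) p then
      (if ∀ p ∈ T, Bad 2 3 (up2 (cub a)) p then mu K T else 0) else 0) := by
    apply Finset.sum_congr rfl
    intro a _
    by_cases hA : ∃ p, ¬ Bad 2 3 (up2 (cub a)) p
    · simp only [if_pos hA]
    · simp only [if_neg hA, Finset.sum_const_zero]
  rw [hpush, Finset.sum_comm]
  have hT : ∀ T ∈ Stab K 5, (∑ a ∈ C3 K, if ∃ p, ¬ Bad 2 3 (up2 (cub a)) p then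
      (if ∀ p ∈ T, Bad 2 3 (up2 (cub a)) p then mu K T else 0) else 0) =
      ∑ r : Option K, (if upP r ∈ T then mu K T else 0) *
        ((Fintype.card K ^ 3 * ((Fintype.card K - 1) * Fintype.card K) : ℕ) : ℤ) := by
    intro T hT
    have h1 := m6_N h2 hT
    have h3 : (∑ a ∈ C3 K, if ∃ p, ¬ Bad 2 3 (up2 (cub a)) p then
      (if ∀ p ∈ T, Bad 2 3 (up2 (cub a)) p then mu K T else 0) else 0) =
        (((C3 K).filter (fun a => (∃ p, ¬ Bad 2 3 (up2 (cub a)) p) ∧
          ∀ p ∈ T, Bad 2 3 (up2 (cub a)) p)).card : ℤ) * mu K T := by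
      rw [← nsmul_eq_mul, ← Finset.sum_const, Finset.sum_filter]
      apply Finset.sum_congr rfl
      intro a _
      by_cases hA : ∃ p, ¬ Bad 2 3 (up2 (cub a)) p
      · by_cases hB : ∀ p ∈ T, Bad 2 3 (up2 (cub a)) p
        · rw [if_pos hA, if_pos hB, if_pos ⟨hA, hB⟩]
        · rw [if_pos hA, if_neg hB, if_neg (fun h => hB h.2)]
      · rw [if_neg hA, if_neg (fun h => hA h.1)]
    rw [h3, h1, ← Finset.sum_mul, ← Finset.sum_filter, Finset.sum_const, nsmul_eq_mul]
    push_cast
    ring
  rw [Finset.sum_congr rfl hT, Finset.sum_comm]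
  apply Finset.sum_eq_zero
  intro r _
  rw [← Finset.sum_mul]
  have hr : ∑ T ∈ Stab K 5, (if upP r ∈ T then mu K T else 0) = 0 := by
    have h1 : ∑ T ∈ Stab K 5, (if upP r ∈ T then mu K T else 0) + MS K {upP r} 5 = 0 := by
      refine Eq.trans ?_ hempty
      rw [MS, Finset.sum_filter, ← Finset.sum_add_distrib]
      apply Finset.sum_congr rfl
      intro T _
      by_cases h : upP r ∈ T
      · rw [if_pos h, if_neg, add_zero]
        rw [Finset.disjoint_singleton_right]
        exact not_not.mpr h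
      · rw [if_neg h, if_pos, zero_add]
        rwa [Finset.disjoint_singleton_right]
    rwa [MS_rat_ge r (by norm_num), add_zero] at h1
  rw [hr, zero_mul]

end final
end
end Pool.Agent.Helper19.DP1
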