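import Pool.Agent.Helper19.DP1.M1
import Pool.Agent.Helper19.DP1.M2
import Pool.Agent.Helper19.DP1.Core
import Pool.Agent.Helper19.DP1.Core6c
import Pool.Agent.Helper19.DP1.Sums

/-! M7: the sum over six points. -/

namespace Pool.Agent.Helper19.DP1
open Polynomial Classical
noncomputable section

section
variable {L : Type*} [Field L]

/-- the three differences -/
def m7_D {R : Type*} [Sub R] (x : Fin 3 → R) (k : Fin 3) : R := x (k + 1) - x (k + 2)

theorem m7_D0 {R : Type*} [Sub R] (x : Fin 3 → R) : m7_D x 0 = x 1 - x 2 := rfl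
theorem m7_D1 {R : Type*} [Sub R] (x : Fin 3 → R) : m7_D x 1 = x 2 - x 0 := rfl
theorem m7_D2 {R : Type*} [Sub R] (x : Fin 3 → R) : m7_D x 2 = x 0 - x 1 := rfl

/-- the resultant of the differences -/
def m7_R (x : Fin 3 → L[X]) : L :=
  pol2 (m7_D x 0) (m7_D x 1) ^ 2 - 4 * disc2 (m7_D x 0) * disc2 (m7_D x 1)

/-- the product of the discriminants -/
def m7_P (x : Fin 3 → L[X]) : L :=
  disc2 (m7_D x 0) * disc2 (m7_D x 1) * disc2 (m7_D x 2)

/-- six distinct zeros -/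
def m7_good (x : Fin 3 → L[X]) : Prop := m7_R x ≠ 0 ∧ m7_P x ≠ 0

theorem m7_sum (x : Fin 3 → L[X]) : m7_D x 0 + m7_D x 1 + m7_D x 2 = 0 := by
  rw [m7_D0, m7_D1, m7_D2]; ring

theorem m7_natDegree {x : Fin 3 → L[X]} (hx : ∀ i, (x i).natDegree ≤ 2) (k : Fin 3) :
    (m7_D x k).natDegree ≤ 2 :=
  le_trans (natDegree_sub_le _ _) (max_le (hx _) (hx _))

theorem m7_common {x : Fin 3 → L[X]} {p : Option L} {i j : Fin 3} (hij : i ≠ j)
    (h1 : ev 2 (m7_D x i) p = 0) (h2 : ev 2 (m7_D x j) p = 0) :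
    ev 2 (m7_D x 0) p = 0 ∧ ev 2 (m7_D x 1) p = 0 := by
  have hs : ev 2 (m7_D x 0) p + ev 2 (m7_D x 1) p + ev 2 (m7_D x 2) p = 0 := by
    rw [← ev_add, ← ev_add, m7_sum, ev_zero]
  fin_cases i <;> fin_cases j <;> simp_all

theorem m7_disc_ne {x : Fin 3 → L[X]} (h : m7_P x ≠ 0) (k : Fin 3) : disc2 (m7_D x k) ≠ 0 := by
  unfold m7_P at h
  intro h0
  apply h
  fin_cases k <;> simp_all

theorem m7_two [IsAlgClosed L] (h2 : (2 : L) ≠ 0) {P : L[X]} (hP : P.natDegree ≤ 2)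
    (hd : disc2 P ≠ 0) : ∃ S : Finset (Option L), S.card = 2 ∧ ∀ p, p ∈ S ↔ ev 2 P p = 0 := by
  obtain ⟨r, s, hrs, c, hc, rfl⟩ := (disc2_ne_iff h2 hP).1 hd
  refine ⟨{r, s}, Finset.card_pair hrs, fun p => ?_⟩
  rw [ev_C_mul, show (2 : ℕ) = 1 + 1 from rfl, ev_mul (natDegree_lin r) (natDegree_lin s)]
  simp only [Finset.mem_insert, Finset.mem_singleton, mul_eq_zero, hc, false_or, ev_lin]

theorem m7_exists_T [IsAlgClosed L] (h2 : (2 : L) ≠ 0) {x : Fin 3 → L[X]}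
    (hx : ∀ i, (x i).natDegree ≤ 2) (hg : m7_good x) :
    ∃ T : Finset (Option L), T.card = 6 ∧ ∀ p, p ∈ T ↔ ∃ k, ev 2 (m7_D x k) p = 0 := by
  have h := fun k => m7_two h2 (m7_natDegree hx k) (m7_disc_ne hg.2 k)
  choose S hS hS' using h
  have hcz : ∀ p, ¬ (ev 2 (m7_D x 0) p = 0 ∧ ev 2 (m7_D x 1) p = 0) := by
    intro p hp
    have := (common_zero_iff h2 (m7_natDegree hx 0) (m7_natDegree hx 1)).1 ⟨p, hp⟩
    apply hg.1
    unfold m7_R
    rw [this, sub_self]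
  refine ⟨Finset.univ.biUnion S, ?_, fun p => by simp [hS']⟩
  rw [Finset.card_biUnion]
  · simp [hS]
  · intro i _ j _ hij
    change Disjoint (S i) (S j)
    rw [Finset.disjoint_left]
    intro p hpi hpj
    exact hcz p (m7_common hij ((hS' i p).1 hpi) ((hS' j p).1 hpj))

theorem m7_good_of_T [IsAlgClosed L] (h2 : (2 : L) ≠ 0) {x : Fin 3 → L[X]}
    (hx : ∀ i, (x i).natDegree ≤ 2) (hinj : Function.Injective x) {T : Finset (Option L)}
    (hT : T.card = 6) (hz : ∀ p ∈ T, ∃ k, ev 2 (m7_D x k) p = 0) : m7_good x := by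
  have hD0 : ∀ k, m7_D x k ≠ 0 := by
    intro k hk
    have h1 := hinj (sub_eq_zero.1 hk)
    revert h1
    fin_cases k <;> decide
  let S : Fin 3 → Finset (Option L) := fun k => T.filter (fun p => ev 2 (m7_D x k) p = 0)
  have hS : ∀ k, (S k).card ≤ 2 := by
    intro k
    by_contra hc
    push Not at hc
    exact hD0 k (eq_zero_of_ev (m7_natDegree hx k) hc fun p hp => (Finset.mem_filter.1 hp).2)
  have hTS : T ⊆ (S 0 ∪ S 1) ∪ S 2 := by
    intro p hp
    obtain ⟨k, hk⟩ := hz p hp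
    have : p ∈ S k := Finset.mem_filter.2 ⟨hp, hk⟩
    fin_cases k <;> simp_all
  have h6 := Finset.card_le_card hTS
  have h3 := Finset.card_union_le (S 0 ∪ S 1) (S 2)
  have h4 := Finset.card_union_add_card_inter (S 0) (S 1)
  have c0 := hS 0
  have c1 := hS 1
  have c2 := hS 2
  have hcard : ∀ k, (S k).card = 2 := by
    intro k
    fin_cases k
    · change (S 0).card = 2; omega
    · change (S 1).card = 2; omega
    · change (S 2).card = 2; omega
  have hzero : ∀ k p, ev 2 (m7_D x k) p = 0 → p ∈ S k := by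
    intro k p hp
    by_contra hpS
    have : (insert p (S k)).card = 3 := by rw [Finset.card_insert_of_notMem hpS, hcard]
    apply hD0 k
    refine eq_zero_of_ev (m7_natDegree hx k) (T := insert p (S k)) (by omega) ?_
    intro r hr
    rcases Finset.mem_insert.1 hr with rfl | hr
    · exact hp
    · exact (Finset.mem_filter.1 hr).2
  constructor
  · intro hR
    have : ∃ p, ev 2 (m7_D x 0) p = 0 ∧ ev 2 (m7_D x 1) p = 0 := by
      rw [common_zero_iff h2 (m7_natDegree hx 0) (m7_natDegree hx 1)]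
      exact sub_eq_zero.1 hR
    obtain ⟨p, hp0, hp1⟩ := this
    have hmem : p ∈ S 0 ∩ S 1 := Finset.mem_inter.2 ⟨hzero 0 p hp0, hzero 1 p hp1⟩
    have := Finset.card_pos.2 ⟨p, hmem⟩
    omega
  · have hd : ∀ k, disc2 (m7_D x k) ≠ 0 := by
      intro k hk
      obtain ⟨r, c, hc, hr⟩ := (disc2_eq_iff h2 (m7_natDegree hx k) (hD0 k)).1 hk
      have hsub : S k ⊆ {r} := by
        intro p hp
        have hp := (Finset.mem_filter.1 hp).2
        rw [hr, ev_C_mul, pow_two, show (2 : ℕ) = 1 + 1 from rfl,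
          ev_mul (natDegree_lin r) (natDegree_lin r)] at hp
        simp only [mul_eq_zero, hc, false_or, ev_lin, or_self] at hp
        simpa using hp
      have := Finset.card_le_card hsub
      rw [hcard k] at this
      simp at this
    exact mul_ne_zero (mul_ne_zero (hd 0) (hd 1)) (hd 2)

theorem m7_prod_rot (x : Fin 3 → L[X]) (k : Fin 3) :
    (∏ i, (X - C (x i)) : L[X][X]) =
      (X - C (x (k + 1))) * ((X - C (x (k + 2))) * (X - C (x k))) := by
  rw [Fin.prod_univ_three]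
  fin_cases k
  · change _ = (X - C (x 1)) * ((X - C (x 2)) * (X - C (x 0))); ring
  · change _ = (X - C (x 2)) * ((X - C (x 0)) * (X - C (x 1))); ring
  · change _ = (X - C (x 0)) * ((X - C (x 1)) * (X - C (x 2))); ring

theorem m7_bad_iff {x : Fin 3 → L[X]} (hx : ∀ i, (x i).natDegree ≤ 2) {p : Option L} :
    Bad 2 3 (∏ i, (X - C (x i))) p ↔ ∃ k, ev 2 (m7_D x k) p = 0 := by
  have hw : ∀ i, WP 2 1 (X - C (x i)) := fun i => WP_X_sub_C (hx i)
  have hw2 : ∀ i j, WP 2 2 ((X - C (x i)) * (X - C (x j))) := fun i j => WP_mul (hw i) (hw j)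
  have hw3 : WP 2 3 (∏ i, (X - C (x i))) := by
    rw [m7_prod_rot x 0]
    exact WP_mul (d1 := 1) (d2 := 2) (hw _) (hw2 _ _)
  constructor
  · rintro ⟨v, hv⟩
    have h := sing_fib hw3 (by norm_num) (by norm_num) hv
    have hfib : fib 2 3 (∏ i, (X - C (x i))) p =
        (X - C (ev 2 (x 1) p)) * ((X - C (ev 2 (x 2) p)) * (X - C (ev 2 (x 0) p))) := by
      rw [m7_prod_rot x 0]
      have e1 := fib_mul (p := p) (hw 1) (hw2 2 0)
      have e2 := fib_mul (p := p) (hw 2) (hw 0)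
      rw [fib_X_sub_C (hx 1)] at e1
      rw [fib_X_sub_C (hx 2), fib_X_sub_C (hx 0)] at e2
      have e1' : fib 2 3 ((X - C (x 1)) * ((X - C (x 2)) * (X - C (x 0)))) p = _ := e1
      have e2' : fib 2 2 ((X - C (x 2)) * (X - C (x 0))) p = _ := e2
      rw [e2'] at e1'
      exact e1'
    rw [hfib] at h
    obtain ⟨g, hg⟩ := h
    have h0 := congrArg (eval v) hg
    have h1 := congrArg (fun P => eval v (derivative P)) hg
    simp only [eval_mul, eval_sub, eval_X, eval_C, eval_pow, sub_self, ne_eq, OfNat.ofNat_ne_zero,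
      not_false_eq_true, zero_pow, zero_mul] at h0
    simp only [derivative_mul, derivative_sub, derivative_X, derivative_C, derivative_pow,
      eval_add, eval_mul, eval_sub, eval_X, eval_C, eval_pow, sub_self, eval_one, sub_zero] at h1
    have hev : ∀ i j : Fin 3, ev 2 (x i - x j) p = ev 2 (x i) p - ev 2 (x j) p :=
      fun i j => ev_sub
    by_contra hc
    push Not at hc
    have c0 := hc 0
    have c1 := hc 1
    have c2 := hc 2
    rw [m7_D0, hev] at c0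
    rw [m7_D1, hev] at c1
    rw [m7_D2, hev] at c2
    rcases mul_eq_zero.1 h0 with h | h
    · have hv' : v = ev 2 (x 1) p := sub_eq_zero.1 h
      subst hv'
      apply mul_ne_zero c0 c2
      linear_combination (-1 : L) * h1
    · rcases mul_eq_zero.1 h with h | h
      · have hv' : v = ev 2 (x 2) p := sub_eq_zero.1 h
        subst hv'
        apply mul_ne_zero c0 c1
        linear_combination (-1 : L) * h1
      · have hv' : v = ev 2 (x 0) p := sub_eq_zero.1 h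
        subst hv'
        apply mul_ne_zero c1 c2
        linear_combination (-1 : L) * h1
  · rintro ⟨k, hk⟩
    unfold m7_D at hk
    rw [ev_sub, sub_eq_zero] at hk
    refine ⟨ev 2 (x (k + 1)) p, ?_⟩
    rw [m7_prod_rot x k]
    refine sing_mul_of_both (d1 := 1) (d2 := 2) (hw _) (hw2 _ _) (by norm_num) (by norm_num)
      (by norm_num) ?_ ?_
    · rw [fib_X_sub_C (hx _)]; simp
    · have e2 := fib_mul (p := p) (hw (k + 2)) (hw k)
      rw [fib_X_sub_C (hx _), fib_X_sub_C (hx _)] at e2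
      have e2' : fib 2 2 ((X - C (x (k + 2))) * (X - C (x k))) p = _ := e2
      rw [e2', hk]
      simp

/-- image -/
def m7_im {R : Type*} (x : Fin 3 → R) : Finset R := Finset.univ.image x

/-- root set -/
def m7_rs {R : Type*} [CommRing R] [IsDomain R] (f : R[X]) : Finset R := f.roots.toFinset

theorem m7_im_eq {R : Type*} {inst : DecidableEq R} (x : Fin 3 → R) :
    @Finset.image _ _ inst x Finset.univ = m7_im x := by
  unfold m7_im
  ext s
  simp only [Finset.mem_image]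

theorem mem_m7_im {R : Type*} {x : Fin 3 → R} {s : R} : s ∈ m7_im x ↔ ∃ i, x i = s := by
  simp [m7_im]

theorem mem_m7_rs {R : Type*} [CommRing R] [IsDomain R] {f : R[X]} {s : R} :
    s ∈ m7_rs f ↔ s ∈ f.roots := by
  simp [m7_rs]

theorem card_m7_im {R : Type*} {x : Fin 3 → R} (hx : Function.Injective x) :
    (m7_im x).card = 3 := by
  unfold m7_im
  rw [Finset.card_image_of_injective _ hx]
  rfl

theorem m7_prod_im {R : Type*} [CommRing R] {x : Fin 3 → R} (hinj : Function.Injective x) :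
    ∏ s ∈ m7_im x, (X - C s : R[X]) = ∏ i, (X - C (x i)) := by
  unfold m7_im
  rw [Finset.prod_image]
  intro i _ j _ h
  exact hinj h

theorem m7_roots (x : Fin 3 → L[X]) :
    m7_rs (∏ i, (X - C (x i)) : L[X][X]) = m7_im x := by
  unfold m7_rs m7_im
  have : (∏ i, (X - C (x i)) : L[X][X]) =
      (((Finset.univ : Finset (Fin 3)).val.map x).map (fun a => X - C a)).prod := by
    rw [Multiset.map_map]; rfl
  rw [this, roots_multiset_prod_X_sub_C]
  rfl

theorem m7_image {x : Fin 3 → L[X]} (hx : Function.Injective x) {p : Option L} :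
    (∃ s ∈ m7_im x, ∃ t ∈ m7_im x, s ≠ t ∧ ev 2 (s - t) p = 0) ↔
      ∃ k, ev 2 (m7_D x k) p = 0 := by
  constructor
  · rintro ⟨s, hs, t, ht, hst, h⟩
    obtain ⟨i, rfl⟩ := mem_m7_im.1 hs
    obtain ⟨j, rfl⟩ := mem_m7_im.1 ht
    rw [ev_sub, sub_eq_zero] at h
    have hij : i ≠ j := fun hij => hst (by rw [hij])
    have key : ∀ i j : Fin 3, i ≠ j → ∃ k : Fin 3, (k + 1 = i ∧ k + 2 = j) ∨
      (k + 1 = j ∧ k + 2 = i) := by decide
    obtain ⟨k, hk | hk⟩ := key i j hij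
    · refine ⟨k, ?_⟩
      unfold m7_D
      rw [ev_sub, hk.1, hk.2, h, sub_self]
    · refine ⟨k, ?_⟩
      unfold m7_D
      rw [ev_sub, hk.1, hk.2, h, sub_self]
  · rintro ⟨k, hk⟩
    refine ⟨x (k + 1), mem_m7_im.2 ⟨_, rfl⟩, x (k + 2), mem_m7_im.2 ⟨_, rfl⟩, fun h => ?_, hk⟩
    have h1 := hx h
    revert h1
    fin_cases k <;> decide

theorem m7_f2 (f : L →+* L) : f 2 = 2 := map_ofNat f 2
theorem m7_f4 (f : L →+* L) : f 4 = 4 := map_ofNat f 4

theorem m7_disc2_map (f : L →+* L) (P : L[X]) : disc2 (P.map f) = f (disc2 P) := by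
  simp [disc2, coeff_map, m7_f4]

theorem m7_pol2_map (f : L →+* L) (P Q : L[X]) : pol2 (P.map f) (Q.map f) = f (pol2 P Q) := by
  simp [pol2, coeff_map, m7_f2, m7_f4]

theorem m7_D_map (f : L →+* L) (x : Fin 3 → L[X]) (k : Fin 3) :
    m7_D (fun i => (x i).map f) k = (m7_D x k).map f := by
  unfold m7_D; rw [Polynomial.map_sub]

theorem m7_R_map (f : L →+* L) (x : Fin 3 → L[X]) :
    m7_R (fun i => (x i).map f) = f (m7_R x) := by
  unfold m7_R
  rw [m7_D_map, m7_D_map, m7_disc2_map, m7_disc2_map, m7_pol2_map]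
  simp [m7_f4]

theorem m7_P_map (f : L →+* L) (x : Fin 3 → L[X]) :
    m7_P (fun i => (x i).map f) = f (m7_P x) := by
  unfold m7_P
  rw [m7_D_map, m7_D_map, m7_D_map, m7_disc2_map, m7_disc2_map, m7_disc2_map]
  simp

theorem m7_map_half (f : L →+* L) : f (2⁻¹) = 2⁻¹ := by simp [m7_f2]

theorem m7_perm (σ : Equiv.Perm (Fin 3)) : ∃ ε : ℤ, (ε = 1 ∨ ε = -1) ∧ ∀ x : Fin 3 → L[X],
    m7_D (x ∘ σ) 0 * m7_D (x ∘ σ) 1 * m7_D (x ∘ σ) 2 =
      C (ε : L) * (m7_D x 0 * m7_D x 1 * m7_D x 2) ∧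
    m7_R (x ∘ σ) = m7_R x ∧ m7_P (x ∘ σ) = m7_P x := by
  have h01 : σ 0 ≠ σ 1 := fun h => by simpa using σ.injective h
  have h02 : σ 0 ≠ σ 2 := fun h => by simpa using σ.injective h
  have h12 : σ 1 ≠ σ 2 := fun h => by simpa using σ.injective h
  simp only [m7_R, m7_P, m7_D0, m7_D1, m7_D2, Function.comp_apply]
  generalize σ 0 = a at *
  generalize σ 1 = b at *
  generalize σ 2 = c at *
  have hpos : a = 0 ∧ b = 1 ∧ c = 2 ∨ a = 1 ∧ b = 2 ∧ c = 0 ∨ a = 2 ∧ b = 0 ∧ c = 1 ∨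
      (a = 0 ∧ b = 2 ∧ c = 1 ∨ a = 1 ∧ b = 0 ∧ c = 2 ∨ a = 2 ∧ b = 1 ∧ c = 0) := by
    revert a b c; decide
  rcases hpos with ⟨rfl, rfl, rfl⟩ | ⟨rfl, rfl, rfl⟩ | ⟨rfl, rfl, rfl⟩ | ⟨rfl, rfl, rfl⟩ |
    ⟨rfl, rfl, rfl⟩ | ⟨rfl, rfl, rfl⟩
  · refine ⟨1, Or.inl rfl, fun x => ⟨by simp, by simp, by simp⟩⟩
  · refine ⟨1, Or.inl rfl, fun x => ⟨by simp; ring, ?_, ?_⟩⟩ <;>
      simp only [pol2, disc2, coeff_sub] <;> ring
  · refine ⟨1, Or.inl rfl, fun x => ⟨by simp; ring, ?_, ?_⟩⟩ <;>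
      simp only [pol2, disc2, coeff_sub] <;> ring
  · refine ⟨-1, Or.inr rfl, fun x => ⟨by simp; ring, ?_, ?_⟩⟩ <;>
      simp only [pol2, disc2, coeff_sub] <;> ring
  · refine ⟨-1, Or.inr rfl, fun x => ⟨by simp; ring, ?_, ?_⟩⟩ <;>
      simp only [pol2, disc2, coeff_sub] <;> ring
  · refine ⟨-1, Or.inr rfl, fun x => ⟨by simp; ring, ?_, ?_⟩⟩ <;>
      simp only [pol2, disc2, coeff_sub] <;> ring

end

section
variable {K : Type*} [Field K] [Fintype K]

theorem m7_two_ne (h2 : (2 : K) ≠ 0) : (2 : Om K) ≠ 0 := by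
  intro h
  apply h2
  apply (algebraMap K (Om K)).injective
  rw [map_ofNat, map_zero, h]

/-- Frobenius as a ring homomorphism -/
def m7_fr (K : Type*) [Field K] [Fintype K] : Om K →+* Om K :=
  (FiniteField.frobeniusAlgHom K (Om K)).toRingHom

theorem m7_fr_apply (a : Om K) : m7_fr K a = a ^ Fintype.card K := rfl

theorem m7_D_phi (x : Fin 3 → (Om K)[X]) (k : Fin 3) :
    m7_D (fun i => phi K (x i)) k = phi K (m7_D x k) := by
  unfold m7_D; rw [map_sub]

theorem m7_R_phi (x : Fin 3 → (Om K)[X]) :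
    m7_R (fun i => phi K (x i)) = m7_R x ^ Fintype.card K :=
  m7_R_map (m7_fr K) x

theorem m7_P_phi (x : Fin 3 → (Om K)[X]) :
    m7_P (fun i => phi K (x i)) = m7_P x ^ Fintype.card K :=
  m7_P_map (m7_fr K) x

/-- `mu` of the zero set of a twisted triple -/
theorem m7_mu (h2 : (2 : K) ≠ 0) (σ : Equiv.Perm (Fin 3)) (ε : ℤ) (hε : ε = 1 ∨ ε = -1)
    (hσ : ∀ x : Fin 3 → (Om K)[X], m7_D (x ∘ σ) 0 * m7_D (x ∘ σ) 1 * m7_D (x ∘ σ) 2 =
      C (ε : Om K) * (m7_D x 0 * m7_D x 1 * m7_D x 2) ∧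
      m7_R (x ∘ σ) = m7_R x ∧ m7_P (x ∘ σ) = m7_P x)
    {x : Fin 3 → (Om K)[X]} (hx : ∀ i, (x i).natDegree ≤ 2) (hphi : ∀ i, phi K (x i) = x (σ i))
    (hg : m7_good x) {T : Finset (P1 K)} (hTs : IsStabG (frob K) T) (hT : T.card = 6)
    (hz : ∀ p ∈ T, ∃ k, ev 2 (m7_D x k) p = 0) :
    ∃ d : K, algebraMap K (Om K) d = m7_P x ∧ mu K T = ε * quadraticChar K d := by
  have hcomp : (fun i => phi K (x i)) = x ∘ σ := funext hphi
  have hR : m7_R x ^ Fintype.card K = m7_R x := by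
    rw [← m7_R_phi, hcomp, (hσ x).2.1]
  have hP : m7_P x ^ Fintype.card K = m7_P x := by
    rw [← m7_P_phi, hcomp, (hσ x).2.2]
  obtain ⟨r, hr⟩ := pow_card_eq_iff.1 hR
  obtain ⟨d, hd⟩ := pow_card_eq_iff.1 hP
  refine ⟨d, hd, mu_three h2 (m7_D x) (m7_natDegree hx) (m7_sum x) T hTs hT hz r ?_ hr d hd ε hε ?_⟩
  · rintro rfl
    apply hg.1
    rw [← hr, map_zero]
  · rw [map_mul, map_mul, ← m7_D_phi, ← m7_D_phi, ← m7_D_phi, hcomp]
    exact (hσ x).1

theorem m7_stab {x : Fin 3 → (Om K)[X]} {σ : Equiv.Perm (Fin 3)}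
    (hphi : ∀ i, phi K (x i) = x (σ i)) {p : P1 K} (h : ∃ k, ev 2 (m7_D x k) p = 0) :
    ∃ k, ev 2 (m7_D x k) (frob K p) = 0 := by
  obtain ⟨k, hk⟩ := h
  have h1 : ev 2 (phi K (m7_D x k)) (frob K p) = 0 := by
    rw [ev_phi, hk, zero_pow Fintype.card_ne_zero]
  unfold m7_D at h1
  rw [map_sub, hphi, hphi, ev_sub, sub_eq_zero] at h1
  have hne : σ (k + 1) ≠ σ (k + 2) := by
    intro h
    have h1 := σ.injective h
    revert h1
    fin_cases k <;> decide
  have key : ∀ i j : Fin 3, i ≠ j → ∃ k : Fin 3, (k + 1 = i ∧ k + 2 = j) ∨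
    (k + 1 = j ∧ k + 2 = i) := by decide
  obtain ⟨l, hl | hl⟩ := key _ _ hne
  · refine ⟨l, ?_⟩
    unfold m7_D
    rw [ev_sub, hl.1, hl.2, h1, sub_self]
  · refine ⟨l, ?_⟩
    unfold m7_D
    rw [ev_sub, hl.1, hl.2, h1, sub_self]

/-- reduced cubics with six bad points -/
def m7_A (K : Type*) [Field K] [Fintype K] : Finset (K[X] × K[X] × K[X]) :=
  (C3 K).filter (fun a => (∃ p, ¬ Bad 2 3 (up2 (cub a)) p) ∧
    ∃ T ∈ Stab K 6, ∀ p ∈ T, Bad 2 3 (up2 (cub a)) p)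

/-- the roots -/
def m7_rt (a : K[X] × K[X] × K[X]) : Finset (Om K)[X] := m7_rs (up2 (cub a))

theorem m7_struct (h2 : (2 : K) ≠ 0) {a : K[X] × K[X] × K[X]} (ha : a ∈ m7_A K) :
    ∃ x : Fin 3 → (Om K)[X], (∀ i, (x i).natDegree ≤ 2) ∧ Function.Injective x ∧
      up2 (cub a) = ∏ i, (X - C (x i)) := by
  obtain ⟨haC, hr, T, hT, hTb⟩ := Finset.mem_filter.1 ha
  have hw : WP 2 3 (up2 (cub a)) := WP_up2 (mem_C3.1 haC)
  obtain ⟨x, hx, hf, -⟩ := cub_six (m7_two_ne h2) hw (mem_Stab.1 hT).2 hTb hr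
  refine ⟨x, hx, ?_, hf⟩
  intro i j hij
  by_contra hne
  obtain ⟨p, hp⟩ := hr
  apply hp
  refine bad_of_double hw (by norm_num) (hx i) ?_ p
  rw [hf, pow_two]
  have key : ∀ i j : Fin 3, i ≠ j → ∃ k : Fin 3, (k + 1 = i ∧ k + 2 = j) ∨
    (k + 1 = j ∧ k + 2 = i) := by decide
  obtain ⟨k, hk⟩ := key i j hne
  rw [m7_prod_rot x k]
  have h1 : x (k + 1) = x i := by
    rcases hk with hk | hk
    · rw [hk.1]
    · rw [hk.1, hij]
  have h2 : x (k + 2) = x i := by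
    rcases hk with hk | hk
    · rw [hk.2, hij]
    · rw [hk.2]
  rw [h1, h2, ← mul_assoc]
  exact Dvd.intro _ rfl

theorem m7_good' (h2 : (2 : K) ≠ 0) {a : K[X] × K[X] × K[X]} (ha : a ∈ m7_A K)
    {x : Fin 3 → (Om K)[X]} (hx : ∀ i, (x i).natDegree ≤ 2) (hinj : Function.Injective x)
    (hf : up2 (cub a) = ∏ i, (X - C (x i))) : m7_good x := by
  obtain ⟨haC, hr, T, hT, hTb⟩ := Finset.mem_filter.1 ha
  refine m7_good_of_T (m7_two_ne h2) hx hinj (mem_Stab.1 hT).2 fun p hp => ?_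
  rw [← m7_bad_iff hx, ← hf]
  exact hTb p hp

theorem m7_rt_eq {a : K[X] × K[X] × K[X]} {x : Fin 3 → (Om K)[X]}
    (hf : up2 (cub a) = ∏ i, (X - C (x i))) : m7_rt a = m7_im x := by
  unfold m7_rt
  rw [hf, m7_roots]

/-- the summand as a function of the set of roots -/
def m7_h (K : Type*) [Field K] [Fintype K] (S : Finset (Om K)[X]) : ℤ :=
  ∑ T ∈ (Stab K 6).filter (fun T => ∀ p ∈ T, ∃ s ∈ S, ∃ t ∈ S, s ≠ t ∧ ev 2 (s - t) p = 0),
    mu K T

theorem m7_sum_A (h2 : (2 : K) ≠ 0) : SU K 6 = ∑ a ∈ m7_A K, m7_h K (m7_rt a) := by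
  unfold SU
  rw [← Finset.sum_subset (Finset.filter_subset _ _ : m7_A K ⊆ C3 K)]
  · refine Finset.sum_congr rfl fun a ha => ?_
    obtain ⟨x, hx, hinj, hf⟩ := m7_struct h2 ha
    unfold m7_h
    refine Finset.sum_congr ?_ fun _ _ => rfl
    refine Finset.filter_congr fun T _ => ?_
    refine forall₂_congr fun p _ => ?_
    rw [m7_rt_eq hf, m7_image hinj, hf, m7_bad_iff hx]
  · intro a haC haA
    by_cases hr : ∃ p, ¬ Bad 2 3 (up2 (cub a)) p
    · have : (Stab K 6).filter (fun T => ∀ p ∈ T, Bad 2 3 (up2 (cub a)) p) = ∅ := by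
        rw [Finset.filter_eq_empty_iff]
        intro T hT hb
        exact haA (Finset.mem_filter.2 ⟨haC, hr, T, hT, hb⟩)
      rw [this, Finset.sum_empty]
    · push Not at hr
      have : (Stab K 6).filter (fun T => ∀ p ∈ T, Bad 2 3 (up2 (cub a)) p) = Stab K 6 := by
        rw [Finset.filter_eq_self]
        intro T _ p _
        exact hr p
      rw [this, sum_Stab_mu, MS_empty_ge (by norm_num)]

/-- the family of root sets -/
def m7_F (K : Type*) [Field K] [Fintype K] : Finset (Finset (Om K)[X]) := (m7_A K).image m7_rt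

theorem m7_F_stab (h2 : (2 : K) ≠ 0) {S : Finset (Om K)[X]} (hS : S ∈ m7_F K) :
    IsStabG (phi K) S ∧ S.card = 3 := by
  obtain ⟨a, ha, rfl⟩ := Finset.mem_image.1 hS
  obtain ⟨x, hx, hinj, hf⟩ := m7_struct h2 ha
  constructor
  · intro s hs
    unfold m7_rt at hs ⊢
    rw [mem_m7_rs] at hs ⊢
    have h0 : up2 (cub a) ≠ 0 := (WP_up2 (mem_C3.1 (Finset.mem_filter.1 ha).1)).1.ne_zero
    rw [mem_roots h0, IsRoot.def] at hs ⊢
    rw [up2_cub] at hs ⊢
    simp only [cub, eval_add, eval_mul, eval_pow, eval_X, eval_C] at hs ⊢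
    have := congrArg (phi K) hs
    simpa only [map_add, map_mul, map_pow, phi_up, map_zero] using this
  · rw [m7_rt_eq hf, card_m7_im hinj]

theorem m7_sum_F (h2 : (2 : K) ≠ 0) : SU K 6 = ∑ S ∈ m7_F K, m7_h K S := by
  rw [m7_sum_A h2, m7_F, Finset.sum_image]
  intro a ha b hb hab
  obtain ⟨x, hx, hinj, hf⟩ := m7_struct h2 ha
  obtain ⟨y, hy, hinj', hf'⟩ := m7_struct h2 hb
  have h1 : m7_rt a = m7_rt b := hab
  rw [m7_rt_eq hf, m7_rt_eq hf'] at h1
  apply cub_injective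
  apply up2_injective
  rw [hf, hf', ← m7_prod_im hinj, ← m7_prod_im hinj', h1]

theorem m7_mem_Lab (h2 : (2 : K) ≠ 0) (σ : Equiv.Perm (Fin 3)) (x : Fin 3 → (Om K)[X]) :
    x ∈ Lab (phi K) 3 (m7_F K) σ ↔
      ((∀ i, (x i).natDegree ≤ 2) ∧ ∀ i, phi K (x i) = x (σ i)) ∧ m7_good x := by
  constructor
  · rintro ⟨hinj, hF, hphi⟩
    have hF' : m7_im x ∈ m7_F K := by rw [← m7_im_eq]; exact hF
    obtain ⟨a, ha, hax⟩ := Finset.mem_image.1 hF'
    obtain ⟨y, hy, hinj', hf'⟩ := m7_struct h2 ha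
    rw [m7_rt_eq hf'] at hax
    have hf : up2 (cub a) = ∏ i, (X - C (x i)) := by
      rw [hf', ← m7_prod_im hinj, ← m7_prod_im hinj', hax]
    have hx : ∀ i, (x i).natDegree ≤ 2 := by
      intro i
      have : x i ∈ m7_im y := by
        rw [hax]; exact mem_m7_im.2 ⟨_, rfl⟩
      obtain ⟨j, hj⟩ := mem_m7_im.1 this
      rw [← hj]; exact hy j
    exact ⟨⟨hx, hphi⟩, m7_good' h2 ha hx hinj hf⟩
  · rintro ⟨⟨hx, hphi⟩, hg⟩
    have hinj : Function.Injective x := by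
      intro i j hij
      by_contra hne
      have key : ∀ i j : Fin 3, i ≠ j → ∃ k : Fin 3, (k + 1 = i ∧ k + 2 = j) ∨
        (k + 1 = j ∧ k + 2 = i) := by decide
      obtain ⟨k, hk⟩ := key i j hne
      apply m7_disc_ne hg.2 k
      have : m7_D x k = 0 := by
        unfold m7_D
        rcases hk with hk | hk
        · rw [hk.1, hk.2, hij, sub_self]
        · rw [hk.1, hk.2, hij, sub_self]
      rw [this]
      simp [disc2]
    refine ⟨hinj, ?_, hphi⟩
    obtain ⟨T, hT, hTz⟩ := m7_exists_T (m7_two_ne h2) hx hg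
    have hpr : ∀ g : (Fin 3 → (Om K)[X]) → (Om K)[X], (g (x ∘ σ) = g x) →
        (phi K (g x) = g (fun i => phi K (x i))) → ∃ P0 : K[X], up P0 = g x := by
      intro g h1 h3
      rw [← phi_eq_iff, h3, show (fun i => phi K (x i)) = x ∘ σ from funext hphi, h1]
    obtain ⟨a1, ha1⟩ := hpr (fun y => - ∑ i, y i) (by
      simp only [Function.comp_apply]; rw [Equiv.sum_comp σ]) (by simp)
    obtain ⟨a2, ha2⟩ := hpr (fun y => ((∑ i, y i) ^ 2 - ∑ i, y i ^ 2) * C (2⁻¹ : Om K)) (by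
      simp only [Function.comp_apply]
      rw [Equiv.sum_comp σ, Equiv.sum_comp σ (fun i => x i ^ 2)]) (by
      simp only [map_mul, map_sub, map_pow, map_sum, phi_C]
      congr 2
      rw [← C_pow]
      exact congrArg C (m7_map_half (m7_fr K)))
    obtain ⟨a3, ha3⟩ := hpr (fun y => - ∏ i, y i) (by
      simp only [Function.comp_apply]; rw [Equiv.prod_comp σ]) (by simp)
    have h22 : (C (2 : Om K) * C (2⁻¹ : Om K) : (Om K)[X]) = 1 := by
      rw [← C_mul, mul_inv_cancel₀ (m7_two_ne h2), C_1]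
    have hsum2 : ((∑ i, x i) ^ 2 - ∑ i, x i ^ 2) * C (2⁻¹ : Om K) =
        x 0 * x 1 + x 1 * x 2 + x 2 * x 0 := by
      rw [Fin.sum_univ_three, Fin.sum_univ_three]
      have h22' : (2 : (Om K)[X]) * C (2⁻¹ : Om K) = 1 := by
        rw [← h22]; rfl
      linear_combination (x 0 * x 1 + x 1 * x 2 + x 2 * x 0) * h22'
    have hf : up2 (cub (a1, a2, a3)) = ∏ i, (X - C (x i)) := by
      rw [up2_cub]
      simp only [ha1, ha2, ha3, cub, hsum2]
      rw [Fin.prod_univ_three, Fin.sum_univ_three, Fin.prod_univ_three]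
      simp only [map_add, map_mul, map_neg]
      ring
    have hmemC : (a1, a2, a3) ∈ C3 K := by
      have hw : WP 2 3 (up2 (cub (a1, a2, a3))) := by
        rw [hf, m7_prod_rot x 0]
        exact WP_mul (d1 := 1) (d2 := 2) (WP_X_sub_C (hx _))
          (WP_mul (d1 := 1) (d2 := 1) (WP_X_sub_C (hx _)) (WP_X_sub_C (hx _)))
      have h1 : (up a1).natDegree ≤ 2 := by
        rw [ha1]
        refine le_trans (natDegree_neg_le_of_le (natDegree_sum_le_of_forall_le _ _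
          fun i _ => hx i)) le_rfl
      have hmul : ∀ i j, (x i * x j).natDegree ≤ 4 := fun i j =>
        le_trans natDegree_mul_le (by have := hx i; have := hx j; omega)
      have h3 : (up a2).natDegree ≤ 4 := by
        rw [ha2]
        rw [hsum2]
        exact natDegree_add_le_of_degree_le (natDegree_add_le_of_degree_le (hmul _ _) (hmul _ _))
          (hmul _ _)
      have h4 : (up a3).natDegree ≤ 6 := by
        rw [ha3, natDegree_neg, Fin.prod_univ_three]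
        refine le_trans natDegree_mul_le ?_
        have := hmul 0 1
        have := hx 2
        omega
      rw [natDegree_up] at h1 h3 h4
      exact Finset.mem_product.2 ⟨mem_V.2 h1, Finset.mem_product.2 ⟨mem_V.2 h3, mem_V.2 h4⟩⟩
    have hA : (a1, a2, a3) ∈ m7_A K := by
      refine Finset.mem_filter.2 ⟨hmemC, ?_, T, ?_, ?_⟩
      · have hinf : Infinite (P1 K) := by
          have : Infinite (Om K) := IsAlgClosed.instInfinite
          infer_instance
        obtain ⟨p, hp⟩ := Infinite.exists_notMem_finset T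
        refine ⟨p, ?_⟩
        rw [hf, m7_bad_iff hx, ← hTz]
        exact hp
      · rw [mem_Stab]
        refine ⟨fun p hp => ?_, hT⟩
        rw [hTz] at hp ⊢
        exact m7_stab hphi hp
      · intro p hp
        rw [hf, m7_bad_iff hx, ← hTz]
        exact hp
    have hF' : m7_im x ∈ m7_F K := Finset.mem_image.2 ⟨_, hA, m7_rt_eq hf⟩
    rw [m7_im_eq]
    exact hF'

/-- the value of the summand on a labelled set -/
theorem m7_h_eq (h2 : (2 : K) ≠ 0) (σ : Equiv.Perm (Fin 3)) (ε : ℤ) (hε : ε = 1 ∨ ε = -1)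
    (hσ : ∀ x : Fin 3 → (Om K)[X], m7_D (x ∘ σ) 0 * m7_D (x ∘ σ) 1 * m7_D (x ∘ σ) 2 =
      C (ε : Om K) * (m7_D x 0 * m7_D x 1 * m7_D x 2) ∧
      m7_R (x ∘ σ) = m7_R x ∧ m7_P (x ∘ σ) = m7_P x)
    {x : Fin 3 → (Om K)[X]} (hinj : Function.Injective x)
    (hx : ∀ i, (x i).natDegree ≤ 2) (hphi : ∀ i, phi K (x i) = x (σ i)) (hg : m7_good x) :
    ∃ d : K, algebraMap K (Om K) d = m7_P x ∧
      m7_h K (m7_im x) = ε * quadraticChar K d := by
  obtain ⟨T, hT, hTz⟩ := m7_exists_T (m7_two_ne h2) hx hg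
  have hTs : IsStabG (frob K) T := by
    intro p hp
    rw [hTz] at hp ⊢
    exact m7_stab hphi hp
  obtain ⟨d, hd, hmu⟩ := m7_mu h2 σ ε hε hσ hx hphi hg hTs hT (fun p hp => (hTz p).1 hp)
  refine ⟨d, hd, ?_⟩
  rw [← hmu]
  unfold m7_h
  have key : ∀ F : Finset (Finset (P1 K)), (∀ T', T' ∈ F ↔ T' = T) →
      ∑ T ∈ F, mu K T = mu K T := by
    intro F hF
    rw [show F = {T} from Finset.ext fun T' => by rw [hF, Finset.mem_singleton],
      Finset.sum_singleton]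
  apply key
  intro T'
  rw [Finset.mem_filter, mem_Stab]
  constructor
  · rintro ⟨⟨-, hc⟩, hb⟩
    refine Finset.eq_of_subset_of_card_le (fun p hp => ?_) (by rw [hT, hc])
    rw [hTz, ← m7_image hinj]
    exact hb p hp
  · rintro rfl
    refine ⟨⟨hTs, hT⟩, fun p hp => ?_⟩
    rw [m7_image hinj, ← hTz]
    exact hp

/-- coordinates -/
def m7_x (e : Fin 3 → (Fin 3 → Om K)) (w : K[X] × K[X] × K[X]) (i : Fin 3) : (Om K)[X] :=
  C (e 0 i) * up w.1 + C (e 1 i) * up w.2.1 + C (e 2 i) * up w.2.2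

theorem m7_D_x (e : Fin 3 → (Fin 3 → Om K)) (he0 : e 0 = fun _ => 1) (w : K[X] × K[X] × K[X])
    (k : Fin 3) : m7_D (m7_x e w) k =
      C (m7_D (e 1) k) * up w.2.1 + C (m7_D (e 2) k) * up w.2.2 := by
  unfold m7_D m7_x
  rw [he0]
  simp only [C_sub]
  ring

theorem m7_disc_comb {L : Type*} [Field L] (u v : L) (P Q : L[X]) :
    disc2 (C u * P + C v * Q) = u ^ 2 * disc2 P + u * v * pol2 P Q + v ^ 2 * disc2 Q := by
  simp only [disc2, pol2, coeff_add, coeff_C_mul]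
  ring

theorem m7_res_comb {L : Type*} [Field L] (u v u' v' : L) (P Q : L[X]) :
    pol2 (C u * P + C v * Q) (C u' * P + C v' * Q) ^ 2 -
      4 * disc2 (C u * P + C v * Q) * disc2 (C u' * P + C v' * Q) =
      (u * v' - u' * v) ^ 2 * (pol2 P Q ^ 2 - 4 * disc2 P * disc2 Q) := by
  simp only [disc2, pol2, coeff_add, coeff_C_mul]
  ring

/-- one factor of the cubic form -/
def m7_f (u v α β γ : Om K) : Om K := u ^ 2 * α + u * v * β + v ^ 2 * γ

/-- the product of the discriminants in terms of the Gram triple -/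
def m7_G (e : Fin 3 → (Fin 3 → Om K)) (α β γ : K) : Om K :=
  m7_f (m7_D (e 1) 0) (m7_D (e 2) 0) (algebraMap K (Om K) α) (algebraMap K (Om K) β)
      (algebraMap K (Om K) γ) *
    m7_f (m7_D (e 1) 1) (m7_D (e 2) 1) (algebraMap K (Om K) α) (algebraMap K (Om K) β)
      (algebraMap K (Om K) γ) *
    m7_f (m7_D (e 1) 2) (m7_D (e 2) 2) (algebraMap K (Om K) α) (algebraMap K (Om K) β)
      (algebraMap K (Om K) γ)

theorem m7_P_x (e : Fin 3 → (Fin 3 → Om K)) (he0 : e 0 = fun _ => 1) (w : K[X] × K[X] × K[X]) :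
    m7_P (m7_x e w) = m7_G e (disc2 w.2.1) (pol2 w.2.1 w.2.2) (disc2 w.2.2) := by
  unfold m7_P m7_G m7_f
  rw [m7_D_x e he0, m7_D_x e he0, m7_D_x e he0, m7_disc_comb, m7_disc_comb, m7_disc_comb,
    disc2_up, disc2_up, pol2_up]

theorem m7_det (e : Fin 3 → (Fin 3 → Om K)) (he0 : e 0 = fun _ => 1)
    (hl : LinearIndependent (Om K) e) :
    m7_D (e 1) 0 * m7_D (e 2) 1 - m7_D (e 1) 1 * m7_D (e 2) 0 ≠ 0 := by
  have h1 : IsUnit (Matrix.of e) := by
    rw [← Matrix.linearIndependent_rows_iff_isUnit]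
    exact hl
  have h3 := (Matrix.isUnit_iff_isUnit_det _).1 h1
  have h4 := h3.ne_zero
  rw [Matrix.det_fin_three] at h4
  simp only [Matrix.of_apply, he0, one_mul] at h4
  intro h
  apply h4
  rw [m7_D0, m7_D0, m7_D1, m7_D1] at h
  linear_combination h

theorem m7_R_x (e : Fin 3 → (Fin 3 → Om K)) (he0 : e 0 = fun _ => 1)
    (hl : LinearIndependent (Om K) e) (w : K[X] × K[X] × K[X]) :
    m7_R (m7_x e w) ≠ 0 ↔ pol2 w.2.1 w.2.2 ^ 2 - 4 * disc2 w.2.1 * disc2 w.2.2 ≠ 0 := by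
  have h : m7_R (m7_x e w) = (m7_D (e 1) 0 * m7_D (e 2) 1 - m7_D (e 1) 1 * m7_D (e 2) 0) ^ 2 *
      algebraMap K (Om K) (pol2 w.2.1 w.2.2 ^ 2 - 4 * disc2 w.2.1 * disc2 w.2.2) := by
    unfold m7_R
    rw [m7_D_x e he0, m7_D_x e he0, m7_res_comb, disc2_up, disc2_up, pol2_up]
    simp only [map_sub, map_mul, map_pow]
    congr 4
  rw [h, mul_ne_zero_iff, map_ne_zero_iff _ (algebraMap K (Om K)).injective]
  constructor
  · exact fun h => h.2
  · exact fun h => ⟨pow_ne_zero _ (m7_det e he0 hl), h⟩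

/-- the summand as a function of the Gram triple -/
def m7_Phi (e : Fin 3 → (Fin 3 → Om K)) (ε : ℤ) (α β γ : K) : ℤ :=
  if h : ∃ d : K, algebraMap K (Om K) d = m7_G e α β γ then ε * quadraticChar K h.choose else 0

theorem m7_Phi_eq (e : Fin 3 → (Fin 3 → Om K)) (ε : ℤ) (α β γ : K) {d : K}
    (hd : algebraMap K (Om K) d = m7_G e α β γ) :
    m7_Phi e ε α β γ = ε * quadraticChar K d := by
  have h : ∃ d : K, algebraMap K (Om K) d = m7_G e α β γ := ⟨d, hd⟩
  unfold m7_Phi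
  rw [dif_pos h]
  have := h.choose_spec.trans hd.symm
  rw [(algebraMap K (Om K)).injective this]

theorem m7_G_smul (e : Fin 3 → (Fin 3 → Om K)) (ν α β γ : K) :
    m7_G e (ν * α) (ν * β) (ν * γ) = algebraMap K (Om K) (ν ^ 3) * m7_G e α β γ := by
  unfold m7_G m7_f
  simp only [map_mul, map_pow]
  ring

theorem m7_Phi_smul (e : Fin 3 → (Fin 3 → Om K)) (ε : ℤ) {ν : K} (hν : ν ≠ 0)
    (hχ : quadraticChar K ν = -1) (α β γ : K) :
    m7_Phi e ε (ν * α) (ν * β) (ν * γ) = - m7_Phi e ε α β γ := by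
  by_cases h : ∃ d : K, algebraMap K (Om K) d = m7_G e α β γ
  · obtain ⟨d, hd⟩ := h
    rw [m7_Phi_eq e ε α β γ hd,
      m7_Phi_eq e ε (ν * α) (ν * β) (ν * γ) (d := ν ^ 3 * d) (by rw [m7_G_smul, map_mul, hd])]
    rw [map_mul, map_pow, hχ]
    ring
  · have h' : ¬ ∃ d : K, algebraMap K (Om K) d = m7_G e (ν * α) (ν * β) (ν * γ) := by
      rintro ⟨d, hd⟩
      apply h
      refine ⟨(ν ^ 3)⁻¹ * d, ?_⟩
      rw [m7_G_smul] at hd
      rw [map_mul, hd, ← mul_assoc, ← map_mul, inv_mul_cancel₀ (pow_ne_zero _ hν), map_one,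
        one_mul]
    unfold m7_Phi
    rw [dif_neg h, dif_neg h', neg_zero]

theorem m7_Lab_eq (h2 : (2 : K) ≠ 0) (σ : Equiv.Perm (Fin 3)) (e : Fin 3 → (Fin 3 → Om K))
    (he : ∀ j, e j ∈ Rs K σ) (hl : LinearIndependent (Om K) e) :
    (Lab_finite (φ := phi K) 3 (m7_F K) σ).toFinset =
      ((V K 2 ×ˢ V K 2 ×ˢ V K 2).filter (fun w => m7_good (m7_x e w))).image (m7_x e) := by
  ext x
  rw [Set.Finite.mem_toFinset, m7_mem_Lab h2, mem_Rs_forms_iff σ e he hl 2 x, Finset.mem_image]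
  constructor
  · rintro ⟨⟨c, hc, hx⟩, hg⟩
    have hx' : m7_x e (c 0, c 1, c 2) = x := by
      funext i
      rw [hx i, Fin.sum_univ_three]
      rfl
    refine ⟨(c 0, c 1, c 2), ?_, hx'⟩
    rw [Finset.mem_filter, hx']
    exact ⟨Finset.mem_product.2 ⟨mem_V.2 (hc 0), Finset.mem_product.2 ⟨mem_V.2 (hc 1),
      mem_V.2 (hc 2)⟩⟩, hg⟩
  · rintro ⟨w, hw, rfl⟩
    obtain ⟨hw, hg⟩ := Finset.mem_filter.1 hw
    obtain ⟨h0, h12⟩ := Finset.mem_product.1 hw
    obtain ⟨h1, h2⟩ := Finset.mem_product.1 h12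
    refine ⟨⟨![w.1, w.2.1, w.2.2], ?_, ?_⟩, hg⟩
    · intro j
      fin_cases j
      · exact mem_V.1 h0
      · exact mem_V.1 h1
      · exact mem_V.1 h2
    · intro i
      rw [Fin.sum_univ_three]
      rfl

theorem m7_x_inj (e : Fin 3 → (Fin 3 → Om K)) (hl : LinearIndependent (Om K) e)
    {w w' : K[X] × K[X] × K[X]} (h : m7_x e w = m7_x e w') : w = w' := by
  have := forms_coord_unique e hl ![w.1, w.2.1, w.2.2] ![w'.1, w'.2.1, w'.2.2] (by
    intro i
    rw [Fin.sum_univ_three, Fin.sum_univ_three]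
    exact congrFun h i)
  have h0 := congrFun this 0
  have h1 := congrFun this 1
  have h2 := congrFun this 2
  exact Prod.ext h0 (Prod.ext h1 h2)

theorem m7_sigma (h2 : (2 : K) ≠ 0) (σ : Equiv.Perm (Fin 3)) :
    ∑ x ∈ (Lab_finite (φ := phi K) 3 (m7_F K) σ).toFinset, m7_h K (m7_im x) = 0 := by
  obtain ⟨e, he, he0, hl⟩ := exists_Rs_basis (K := K) (n := 2) σ
  obtain ⟨ε, hε, hσ⟩ := m7_perm (L := Om K) σ
  have h1 : ∀ x ∈ (Lab_finite (φ := phi K) 3 (m7_F K) σ).toFinset, ∃ d : K,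
      algebraMap K (Om K) d = m7_P x ∧ m7_h K (m7_im x) = ε * quadraticChar K d := by
    intro x hx
    rw [Set.Finite.mem_toFinset] at hx
    have hinj := hx.1
    rw [m7_mem_Lab h2] at hx
    exact m7_h_eq h2 σ ε hε hσ hinj hx.1.1 hx.1.2 hx.2
  rw [m7_Lab_eq h2 σ e he hl] at h1 ⊢
  rw [Finset.sum_image (fun w _ w' _ h => m7_x_inj e hl h)]
  have h3 : ∀ w ∈ (V K 2 ×ˢ V K 2 ×ˢ V K 2).filter (fun w => m7_good (m7_x e w)),
      m7_h K (m7_im (m7_x e w)) =
        m7_Phi e ε (disc2 w.2.1) (pol2 w.2.1 w.2.2) (disc2 w.2.2) := by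
    intro w hw
    obtain ⟨d, hd, hh⟩ := h1 _ (Finset.mem_image_of_mem _ hw)
    rw [hh, m7_Phi_eq e ε _ _ _ (d := d) (by rw [hd, m7_P_x e he0])]
  rw [Finset.sum_congr rfl h3, Finset.sum_filter]
  have h4 : ∀ w : K[X] × K[X] × K[X], (if m7_good (m7_x e w) then
      m7_Phi e ε (disc2 w.2.1) (pol2 w.2.1 w.2.2) (disc2 w.2.2) else 0) =
      (if pol2 w.2.1 w.2.2 ^ 2 - 4 * disc2 w.2.1 * disc2 w.2.2 ≠ 0 then
        m7_Phi e ε (disc2 w.2.1) (pol2 w.2.1 w.2.2) (disc2 w.2.2) else 0) := by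
    intro w
    by_cases hR : pol2 w.2.1 w.2.2 ^ 2 - 4 * disc2 w.2.1 * disc2 w.2.2 ≠ 0
    · rw [if_pos hR]
      by_cases hP : m7_P (m7_x e w) = 0
      · rw [if_neg (fun h => h.2 hP), m7_Phi_eq e ε _ _ _ (d := 0) (by
          rw [← m7_P_x e he0, hP, map_zero])]
        simp
      · rw [if_pos ⟨(m7_R_x e he0 hl w).2 hR, hP⟩]
    · rw [if_neg hR, if_neg (fun h => hR ((m7_R_x e he0 hl w).1 h.1))]
  rw [Finset.sum_congr rfl (fun w _ => h4 w), Finset.sum_product]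
  refine Finset.sum_eq_zero fun w0 _ => ?_
  rw [Finset.sum_product]
  have hchar : ringChar K ≠ 2 := by
    intro h
    apply h2
    have := ringChar.Nat.cast_ringChar (R := K)
    rw [h] at this
    exact_mod_cast this
  obtain ⟨ν, hν⟩ := FiniteField.exists_nonsquare hchar
  have hν0 : ν ≠ 0 := by
    rintro rfl
    exact hν (IsSquare.zero)
  exact sum_sim h2 (m7_Phi e ε) ν hν0
    (m7_Phi_smul e ε hν0 (quadraticChar_neg_one_iff_not_isSquare.2 hν))

end

section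
variable (K : Type*) [Field K] [Fintype K]

/-- M7 -/
theorem SU_six (h2 : (2 : K) ≠ 0) : SU K 6 = 0 := by
  have h := sum_Lab (φ := phi K) phi_injective 3 (m7_F K) (fun S hS => m7_F_stab h2 hS) (m7_h K)
  rw [← m7_sum_F h2] at h
  have h0 : ∑ σ : Equiv.Perm (Fin 3), ∑ x ∈ (Lab_finite (φ := phi K) 3 (m7_F K) σ).toFinset,
      m7_h K (m7_im x) = 0 := Finset.sum_eq_zero fun σ _ => m7_sigma h2 σ
  have h1 : ((Nat.factorial 3 : ℕ) : ℤ) * SU K 6 = 0 := by
    rw [← h, ← h0]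
    refine Finset.sum_congr rfl (fun σ _ => Finset.sum_congr rfl (fun x _ => ?_))
    rw [m7_im_eq]
  have h3 : ((Nat.factorial 3 : ℕ) : ℤ) ≠ 0 := by decide
  exact (mul_eq_zero.1 h1).resolve_left h3

end

end
end Pool.Agent.Helper19.DP1
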