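import Pool.Agent.Helper19.DP1.M5
import Pool.Agent.Helper19.DP1.M6
import Pool.Agent.Helper19.DP1.M7

/-! M8: the number of smooth sextics. -/

namespace Pool.Agent.Helper19.DP1
open Polynomial Classical
noncomputable section

section
variable {K : Type*} [Field K] [Fintype K]

/-- inclusion-exclusion for the bad points of one curve -/
theorem m8_one {w d : ℕ} {f : K[X][X]} (hf : WP w d f)
    (hfin : {p : P1 K | Bad w d (up2 f) p}.Finite)
    (hcard : Set.ncard {p : P1 K | Bad w d (up2 f) p} ≤ 6) :
    ∑ l ∈ Finset.range 7, ∑ T ∈ (Stab K l).filter (fun T => ∀ p ∈ T, Bad w d (up2 f) p), mu K T =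
      if ∀ p, ¬ Bad w d (up2 f) p then 1 else 0 := by
  have hS : IsStabG (frob K) hfin.toFinset := by
    intro p hp
    rw [Set.Finite.mem_toFinset] at hp ⊢
    exact bad_frob hf hp
  have hN : hfin.toFinset.card ≤ 6 := by
    rw [← Set.ncard_eq_toFinset_card _ hfin]; exact hcard
  have h := sum_mu_subsets hS hN
  have h1 : ∀ l, (Stab K l).filter (fun T => T ⊆ hfin.toFinset) =
      (Stab K l).filter (fun T => ∀ p ∈ T, Bad w d (up2 f) p) := by
    intro l
    apply Finset.filter_congr
    intro T _
    constructor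
    · intro h p hp
      have := h hp
      rwa [Set.Finite.mem_toFinset] at this
    · intro h p hp
      rw [Set.Finite.mem_toFinset]
      exact h p hp
  rw [Finset.sum_congr rfl (fun l _ => by rw [← h1 l])]
  rw [h]
  have h2 : hfin.toFinset = ∅ ↔ ∀ p, ¬ Bad w d (up2 f) p := by
    rw [Finset.eq_empty_iff_forall_notMem]
    apply forall_congr'
    intro p
    rw [Set.Finite.mem_toFinset]
    rfl
  simp only [h2]

end

section
variable (K : Type*) [Field K] [Fintype K]

/-- M8 -/
theorem card_smooth_cub (h2 : (2 : K) ≠ 0) :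
    (((C3 K).filter (fun a => ∀ p, ¬ Bad 2 3 (up2 (cub a)) p)).card : ℤ) =
      (Fintype.card K : ℤ) ^ 11 * G2 K := by
  have hO : (2 : Om K) ≠ 0 := by
    have := (map_ne_zero (algebraMap K (Om K))).mpr h2
    rwa [map_ofNat] at this
  have h1 : ∀ a ∈ C3 K, ∑ l ∈ Finset.range 7,
      ∑ T ∈ (Stab K l).filter (fun T => ∀ p ∈ T, Bad 2 3 (up2 (cub a)) p), mu K T =
      if ∀ p, ¬ Bad 2 3 (up2 (cub a)) p then 1 else 0 := by
    intro a ha
    have hf := mem_C3.mp ha
    by_cases hr : ∃ p, ¬ Bad 2 3 (up2 (cub a)) p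
    · obtain ⟨h3, h4⟩ := cub_bad_card hO (WP_up2 hf) hr
      exact m8_one hf h3 h4
    · push Not at hr
      rw [if_neg (by intro h; exact h none (hr none))]
      have h3 : ∀ l, (Stab K l).filter (fun T => ∀ p ∈ T, Bad 2 3 (up2 (cub a)) p) = Stab K l := by
        intro l
        apply Finset.filter_true_of_mem
        intro T _ p _
        exact hr p
      rw [Finset.sum_congr rfl (fun l _ => by rw [h3 l, sum_Stab_mu])]
      rw [Finset.sum_range_succ, Finset.sum_range_succ, Finset.sum_range_succ, Finset.sum_range_succ,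
        Finset.sum_range_succ, Finset.sum_range_succ, Finset.sum_range_succ, Finset.sum_range_zero,
        MS_empty_zero, MS_empty_one, MS_empty_two, MS_empty_ge (by norm_num), MS_empty_ge (by norm_num),
        MS_empty_ge (by norm_num), MS_empty_ge (by norm_num)]
      ring
  have h4 : (((C3 K).filter (fun a => ∀ p, ¬ Bad 2 3 (up2 (cub a)) p)).card : ℤ) =
      ∑ l ∈ Finset.range 7, SU K l := by
    rw [Finset.card_filter]
    push_cast
    rw [← Finset.sum_congr rfl h1, Finset.sum_comm]
    rfl
  rw [h4, Finset.sum_range_succ, Finset.sum_range_succ, Finset.sum_range_succ, Finset.sum_range_succ,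
    Finset.sum_range_succ, Finset.sum_range_succ, Finset.sum_range_succ, Finset.sum_range_zero,
    SU_zero K h2, SU_one K h2, SU_two K h2, SU_three K h2, SU_four K h2, SU_five K h2, SU_six K h2]
  unfold G2
  ring

end

end

end Pool.Agent.Helper19.DP1
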