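import Mathlib

/-!
# Degree 1 del Pezzo surfaces as smooth sextics in `P(1,1,2,3)`

`K` is a field, `q` its cardinality (in the theorem `K` is a finite field of odd order). The
homogeneous coordinates of `P(1,1,2,3)` are `x0 = X 0`, `x1 = X 1` (weight 1), `z = X 2` (weight 2),
`y = X 3` (weight 3).
-/

namespace Pool.Agent.Helper19.DP1W

open MvPolynomial

noncomputable section

section
variable {K : Type*} [Field K]

/-- the weights of `x0, x1, z, y` -/
def wt : Fin 4 → ℕ := ![1, 1, 2, 3]

/-- The hypersurface `F = 0` is geometrically smooth: at every geometric point of `F = 0` (different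
from the origin) some partial derivative is nonzero. -/
def Smooth4 (F : MvPolynomial (Fin 4) K) : Prop :=
  ∀ P : Fin 4 → AlgebraicClosure K, P ≠ 0 → aeval P F = 0 → ∃ i, aeval P (pderiv i F) ≠ 0

variable (K) in
/-- Degree 1 del Pezzo surfaces: smooth hypersurfaces of degree 6 in `P(1,1,2,3)`, given by their
equations. -/
def Sextic : Type _ := {F : MvPolynomial (Fin 4) K // IsWeightedHomogeneous wt F 6 ∧ Smooth4 F}

/-- the binary form `∑ c_i x0^i x1^(n-i)` -/
def bf (n : ℕ) (c : Fin (n + 1) → K) : MvPolynomial (Fin 2) K :=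
  ∑ i : Fin (n + 1), C (c i) * X 0 ^ (i : ℕ) * X 1 ^ (n - (i : ℕ))

/-- The `K`-lines of the surface `F = 0`: the curves `z = b2(x0,x1)`, `y = b3(x0,x1)` (`b2`, `b3`
binary forms over `K` of degrees 2, 3) contained in it. -/
def lines (F : MvPolynomial (Fin 4) K) : Set ((Fin 3 → K) × (Fin 4 → K)) :=
  {b | aeval ![X 0, X 1, bf 2 b.1, bf 3 b.2] F = (0 : MvPolynomial (Fin 2) K)}

variable (K) in
/-- the group of the automorphisms of the graded algebra `K[x0,x1,z,y]` -/
def gradedAut : Subgroup (MvPolynomial (Fin 4) K ≃ₐ[K] MvPolynomial (Fin 4) K) where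
  carrier := {ψ | ∀ (n : ℕ) (f : MvPolynomial (Fin 4) K),
    IsWeightedHomogeneous wt (ψ f) n ↔ IsWeightedHomogeneous wt f n}
  mul_mem' := fun {a b} ha hb n f => (ha n (b f)).trans (hb n f)
  one_mem' := fun n f => Iff.rfl
  inv_mem' := fun {a} ha n f => by
    have h := ha n (a⁻¹ f)
    have h1 : a (a⁻¹ f) = f := a.apply_symm_apply f
    rw [h1] at h
    exact h.symm

/-- the graded automorphisms carrying the surface `F = 0` to the surface `F' = 0` -/
def Isos (F F' : Sextic K) : Set (gradedAut K) := {ψ | ∃ c : K, ψ.1 F.1 = C c * F'.1}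

theorem Sextic.ne_zero (F : Sextic K) : F.1 ≠ 0 := by
  intro h
  have h1 := F.2.2 (fun _ => 1) (by
    intro h0
    exact one_ne_zero (congrFun h0 0)) (by rw [h]; simp)
  obtain ⟨i, hi⟩ := h1
  rw [h] at hi
  simp at hi

theorem algEquiv_C' (ψ : MvPolynomial (Fin 4) K ≃ₐ[K] MvPolynomial (Fin 4) K) (c : K) :
    ψ (C c) = C c := ψ.commutes c

theorem Isos_c_ne {F F' : Sextic K} {ψ : gradedAut K} {c : K} (h : ψ.1 F.1 = C c * F'.1) :
    c ≠ 0 := by
  rintro rfl
  rw [C_0, zero_mul] at h
  exact F.ne_zero ((map_eq_zero_iff _ ψ.1.injective).mp h)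

theorem Isos_refl (F : Sextic K) : (1 : gradedAut K) ∈ Isos F F :=
  ⟨1, by rw [C_1, one_mul]; rfl⟩

theorem Isos_inv {F F' : Sextic K} {ψ : gradedAut K} (h : ψ ∈ Isos F F') : ψ⁻¹ ∈ Isos F' F := by
  obtain ⟨c, hc⟩ := h
  have hc0 := Isos_c_ne hc
  refine ⟨c⁻¹, ?_⟩
  show ψ.1.symm F'.1 = _
  rw [AlgEquiv.symm_apply_eq, map_mul, algEquiv_C', hc, ← mul_assoc, ← C_mul, inv_mul_cancel₀ hc0,
    C_1, one_mul]

theorem Isos_mul {F F' F'' : Sextic K} {ψ ψ' : gradedAut K} (h : ψ ∈ Isos F F')
    (h' : ψ' ∈ Isos F' F'') : ψ' * ψ ∈ Isos F F'' := by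
  obtain ⟨c, hc⟩ := h
  obtain ⟨c', hc'⟩ := h'
  refine ⟨c * c', ?_⟩
  show ψ'.1 (ψ.1 F.1) = _
  rw [hc, map_mul, algEquiv_C', hc', ← mul_assoc, ← C_mul]

variable (K) in
/-- isomorphism of surfaces -/
def isoSetoid : Setoid (Sextic K) where
  r F F' := (Isos F F').Nonempty
  iseqv :=
    { refl := fun F => ⟨1, Isos_refl F⟩
      symm := fun ⟨ψ, h⟩ => ⟨ψ⁻¹, Isos_inv h⟩
      trans := fun ⟨ψ, h⟩ ⟨ψ', h'⟩ => ⟨ψ' * ψ, Isos_mul h h'⟩ }

/-- the graded automorphisms preserving the surface `F = 0` -/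
def stab (F : Sextic K) : Subgroup (gradedAut K) where
  carrier := Isos F F
  mul_mem' := fun ha hb => Isos_mul hb ha
  one_mem' := Isos_refl F
  inv_mem' := fun ha => Isos_inv ha

/-- the scalar `t`, acting by `(x0,x1,z,y) ↦ (tx0,tx1,t^2z,t^3y)` -/
def scalHom (t : K) : MvPolynomial (Fin 4) K →ₐ[K] MvPolynomial (Fin 4) K :=
  aeval (fun i => C (t ^ wt i) * X i)

theorem scalHom_comp (s t : K) : (scalHom s).comp (scalHom t) = scalHom (s * t) := by
  apply MvPolynomial.algHom_ext
  intro i
  simp only [AlgHom.comp_apply, scalHom, aeval_X, map_mul, algHom_C, algebraMap_eq, mul_pow]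
  ring

theorem scalHom_one : scalHom (1 : K) = AlgHom.id K _ := by
  apply MvPolynomial.algHom_ext
  intro i
  simp [scalHom]

/-- scalars multiply a polynomial of weight `n` by `t^n` -/
theorem scalHom_apply (t : K) {n : ℕ} {f : MvPolynomial (Fin 4) K}
    (hf : IsWeightedHomogeneous wt f n) : scalHom t f = C (t ^ n) * f := by
  induction hf using IsWeightedHomogeneous.induction_on with
  | zero => simp
  | add p q hp hq ihp ihq => rw [map_add, ihp, ihq, mul_add]
  | monomial d r hr =>
    have h1 : ∏ i, scalHom t (X i ^ d i) = C (t ^ n) * ∏ i : Fin 4, X i ^ d i := by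
      rw [← hr, Finsupp.weight_apply, Finsupp.sum_fintype _ _ (by intro i; simp),
        ← Finset.prod_pow_eq_pow_sum, map_prod, ← Finset.prod_mul_distrib]
      apply Finset.prod_congr rfl
      intro i _
      rw [map_pow, scalHom, aeval_X, smul_eq_mul, mul_comm (d i), pow_mul, C_pow, C_pow, mul_pow, C_pow]
    rw [monomial_eq, map_mul, algHom_C, algebraMap_eq, Finsupp.prod_fintype _ _ (by intro i; simp),
      map_prod, h1]
    ring

/-- the scalar `t`, as an automorphism -/
def scalEquiv (t : Kˣ) : MvPolynomial (Fin 4) K ≃ₐ[K] MvPolynomial (Fin 4) K :=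
  AlgEquiv.ofAlgHom (scalHom (t : K)) (scalHom ((t⁻¹ : Kˣ) : K))
    (by rw [scalHom_comp, Units.mul_inv, scalHom_one])
    (by rw [scalHom_comp, Units.inv_mul, scalHom_one])

variable (K) in
/-- the scalars, as a group homomorphism -/
def scal : Kˣ →* gradedAut K where
  toFun t := ⟨scalEquiv t, fun n f => by
    constructor
    · intro h
      have h1 := scalHom_apply ((t⁻¹ : Kˣ) : K) h
      have h2 : scalHom ((t⁻¹ : Kˣ) : K) (scalEquiv t f) = f := (scalEquiv t).symm_apply_apply f
      rw [h2] at h1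
      rw [h1]
      exact h.C_mul _
    · intro h
      have h1 : scalEquiv t f = C ((t : K) ^ n) * f := scalHom_apply (t : K) h
      rw [h1]
      exact h.C_mul _⟩
  map_one' := by
    apply Subtype.ext
    apply AlgEquiv.ext
    intro f
    show scalHom ((1 : Kˣ) : K) f = f
    rw [Units.val_one, scalHom_one]; rfl
  map_mul' := fun s t => by
    apply Subtype.ext
    apply AlgEquiv.ext
    intro f
    show scalHom ((s * t : Kˣ) : K) f = scalHom (s : K) (scalHom (t : K) f)
    rw [Units.val_mul, ← scalHom_comp]; rfl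

/-- The number of `K`-automorphisms of the surface: the order of the group of the graded
automorphisms preserving the surface, modulo the scalars (which act trivially on `P(1,1,2,3)`). -/
def autNum (F : Sextic K) : ℕ := Nat.card (stab F ⧸ (scal K).range.subgroupOf (stab F))

variable (K) in
/-- sum of `f` over the isomorphism classes of surfaces, weighted by `1/#Aut` -/
def wsum (f : Sextic K → ℚ) : ℚ := ∑ᶠ x : Quotient (isoSetoid K), f x.out / (autNum x.out : ℚ)

variable (K) in
/-- the average number of `K`-lines on a degree 1 del Pezzo surface -/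
def A1 : ℚ := wsum K (fun F => ((lines F.1).ncard : ℚ)) / wsum K (fun _ => 1)

end

end

end Pool.Agent.Helper19.DP1W
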