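import Pool.Agent.Helper19.DP1.WLines
import Pool.Agent.Helper19.DP1.FFinal

/-! The weighted sums over all smooth sextics. -/

namespace Pool.Agent.Helper19.DP1W

open MvPolynomial

noncomputable section

section
variable {K : Type*} [Field K]

open DP1 (inc inc_X0 inc_X1 inc_C sext lin2 sub2)

theorem scal_mem_stab (F : Sextic K) : (scal K).range ≤ stab F := by
  rintro _ ⟨t, rfl⟩
  exact ⟨(t : K) ^ 6, scalHom_apply (t : K) F.2.1⟩

theorem scal_injective : Function.Injective (scal K) := by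
  intro s t h
  have h1 : (scal K s).1 (X 0) = (scal K t).1 (X 0) := by rw [h]
  have h2 : scalHom (s : K) (X 0) = scalHom (t : K) (X 0) := h1
  rw [scalHom, scalHom, aeval_X, aeval_X] at h2
  have h3 := congrArg (coeff (Finsupp.single 0 1)) h2
  rw [coeff_C_mul, coeff_C_mul, coeff_X] at h3
  simp [wt] at h3
  exact Units.ext h3

theorem autNum_eq [Fintype K] (F : Sextic K) :
    (autNum F : ℚ) = ((Isos F F).ncard : ℚ) / ((Fintype.card K : ℚ) - 1) := by
  classical
  have h1 := Subgroup.card_eq_card_quotient_mul_card_subgroup ((scal K).range.subgroupOf (stab F))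
  have h2 : Nat.card ((scal K).range.subgroupOf (stab F)) = Fintype.card K - 1 := by
    rw [Nat.card_congr (Subgroup.subgroupOfEquivOfLe (scal_mem_stab F)).toEquiv,
      ← Nat.card_congr (MonoidHom.ofInjective (scal_injective (K := K))).toEquiv,
      Nat.card_eq_fintype_card, Fintype.card_units]
  have h3 : Nat.card (stab F) = (Isos F F).ncard := Nat.card_coe_set_eq _
  have hq : 1 < Fintype.card K := Fintype.one_lt_card
  have hq' : (1 : ℚ) < Fintype.card K := by exact_mod_cast hq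
  rw [h2, h3] at h1
  rw [h1, eq_div_iff (by linarith)]
  unfold autNum
  push_cast [Nat.cast_sub hq.le]
  ring

theorem Isos_ncard_conj {F F' : Sextic K} (h : (isoSetoid K).r F F') :
    (Isos F F).ncard = (Isos F' F').ncard := by
  obtain ⟨ψ, hψ⟩ := h
  apply Set.ncard_congr (fun φ _ => ψ * φ * ψ⁻¹)
  · intro φ hφ
    exact Isos_mul (Isos_inv hψ) (Isos_mul hφ hψ)
  · intro φ φ' _ _ h
    exact mul_left_cancel (mul_right_cancel h)
  · intro φ hφ
    refine ⟨ψ⁻¹ * φ * ψ, Isos_mul hψ (Isos_mul hφ (Isos_inv hψ)), ?_⟩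
    group

/-- normal forms as surfaces -/
def toW (a : DP1.Surf K) : Sextic K := ⟨sext a.1, sext_homog a.1, a.2⟩

theorem toW_iso (h2 : (2 : K) ≠ 0) (a a' : DP1.Surf K) :
    (Isos (toW a) (toW a')).Nonempty ↔ (DP1.Isos a a').Nonempty := by
  constructor
  · rintro ⟨ψ, c, hc⟩
    exact ⟨⟨ψ.1, mem_sub_of_graded h2 ψ.2 hc⟩, c, hc⟩
  · rintro ⟨ψ, c, hc⟩
    exact ⟨⟨ψ.1, graded_of_sub ψ.2⟩, c, hc⟩

theorem toW_ncard (h2 : (2 : K) ≠ 0) (a : DP1.Surf K) :
    (Isos (toW a) (toW a)).ncard = (DP1.Isos a a).ncard := by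
  symm
  apply Set.ncard_congr (fun ψ _ => (⟨ψ.1, graded_of_sub ψ.2⟩ : gradedAut K))
  · intro ψ hψ
    exact hψ
  · intro ψ ψ' _ _ h
    apply Subtype.ext
    exact congrArg (fun φ : gradedAut K => φ.1) h
  · rintro ψ ⟨c, hc⟩
    exact ⟨⟨ψ.1, mem_sub_of_graded h2 ψ.2 hc⟩, ⟨c, hc⟩, rfl⟩

theorem toW_surj (h2 : (2 : K) ≠ 0) (F : Sextic K) : ∃ a : DP1.Surf K, (isoSetoid K).r F (toW a) := by
  obtain ⟨ψ, hψ, c, a, hc, h⟩ := exists_normal h2 F
  have hs := smooth4_of_graded hψ F.2.2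
  rw [h] at hs
  have hs' : DP1.Smooth4 (sext a) := (DP1.smooth4_C_mul hc).1 hs
  exact ⟨⟨a, hs'⟩, ⟨⟨ψ, hψ⟩, c, h⟩⟩

/-- the map of isomorphism classes -/
def cls (h2 : (2 : K) ≠ 0) [Fintype K] : Quotient (DP1.isoSetoid K) → Quotient (isoSetoid K) :=
  Quotient.map toW (fun a a' h => (toW_iso h2 a a').2 h)

theorem cls_bijective (h2 : (2 : K) ≠ 0) [Fintype K] : Function.Bijective (cls h2) := by
  constructor
  · intro x y
    refine Quotient.inductionOn₂ x y (fun a a' h => ?_)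
    have h1 : (isoSetoid K).r (toW a) (toW a') := Quotient.exact h
    exact Quotient.sound ((toW_iso h2 a a').1 h1)
  · intro x
    refine Quotient.inductionOn x (fun F => ?_)
    obtain ⟨a, ha⟩ := toW_surj h2 F
    refine ⟨⟦a⟧, ?_⟩
    exact (Quotient.sound ha).symm

theorem wsum_eq (h2 : (2 : K) ≠ 0) [Fintype K] (f : Sextic K → ℚ)
    (hf : ∀ F F', (isoSetoid K).r F F' → f F = f F') :
    wsum K f = DP1.wsum K (fun a => f (toW a)) := by
  unfold wsum DP1.wsum
  rw [← finsum_comp_equiv (Equiv.ofBijective _ (cls_bijective h2))]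
  apply finsum_congr
  intro y
  have h1 : (isoSetoid K).r ((Equiv.ofBijective _ (cls_bijective h2)) y).out (toW y.out) := by
    apply Quotient.exact
    rw [Quotient.out_eq]
    show cls h2 y = _
    conv_lhs => rw [← Quotient.out_eq y]
    rfl
  rw [hf _ _ h1, autNum_eq, Isos_ncard_conj h1, toW_ncard h2]
  rfl

theorem A1_eq_A1 (h2 : (2 : K) ≠ 0) [Fintype K] : A1 K = DP1.A1 K := by
  unfold A1 DP1.A1
  rw [wsum_eq h2 (fun _ => 1) (fun _ _ _ => rfl),
    wsum_eq h2 (fun F => ((lines F.1).ncard : ℚ)) (fun F F' h => by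
      show ((lines F.1).ncard : ℚ) = ((lines F'.1).ncard : ℚ)
      rw [lines_ncard_of_iso h])]
  rfl

theorem A1_formula (h2 : (2 : K) ≠ 0) [Fintype K] : A1 K = 1 - 1 / (Fintype.card K : ℚ) +
    ((Fintype.card K : ℚ) - 1) ^ 2 * ((Fintype.card K : ℚ) ^ 2 - 2 * (Fintype.card K : ℚ) + 7) /
      (Fintype.card K : ℚ) ^ 8 := by
  rw [A1_eq_A1 h2, DP1.A1_eq h2]

end

end

end Pool.Agent.Helper19.DP1W
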