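import Pool.Agent.Helper19.DP1.WStruct

/-! Structure of graded automorphisms. -/

namespace Pool.Agent.Helper19.DP1W

open MvPolynomial

noncomputable section

section
variable {K : Type*} [Field K]

open DP1 (inc inc_X0 inc_X1 inc_C)

/-- a map with weighted homogeneous values on the variables preserves the grading -/
theorem graded_of_X {φ : MvPolynomial (Fin 4) K →ₐ[K] MvPolynomial (Fin 4) K}
    (h : ∀ i, IsWeightedHomogeneous wt (φ (X i)) (wt i)) {n : ℕ} {f : MvPolynomial (Fin 4) K}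
    (hf : IsWeightedHomogeneous wt f n) : IsWeightedHomogeneous wt (φ f) n := by
  induction hf using IsWeightedHomogeneous.induction_on with
  | zero => rw [map_zero]; exact isWeightedHomogeneous_zero _ _ _
  | add p q hp hq ihp ihq => rw [map_add]; exact ihp.add ihq
  | monomial d r hr =>
    rw [monomial_eq, map_mul, algHom_C, algebraMap_eq, Finsupp.prod_fintype _ _ (by intro i; simp),
      map_prod]
    apply IsWeightedHomogeneous.C_mul
    rw [← hr, Finsupp.weight_apply, Finsupp.sum_fintype _ _ (by intro i; simp)]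
    apply IsWeightedHomogeneous.prod
    intro i _
    rw [map_pow]
    exact (h i).pow (d i)

theorem mem_gradedAut {ψ : MvPolynomial (Fin 4) K ≃ₐ[K] MvPolynomial (Fin 4) K}
    (h : ∀ i, IsWeightedHomogeneous wt (ψ (X i)) (wt i))
    (h' : ∀ i, IsWeightedHomogeneous wt (ψ.symm (X i)) (wt i)) : ψ ∈ gradedAut K := by
  intro n f
  constructor
  · intro hf
    have h1 := graded_of_X (φ := (ψ.symm : MvPolynomial (Fin 4) K →ₐ[K] MvPolynomial (Fin 4) K)) h' hf
    have h2 : (ψ.symm : MvPolynomial (Fin 4) K →ₐ[K] MvPolynomial (Fin 4) K) (ψ f) = f :=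
      ψ.symm_apply_apply f
    rwa [h2] at h1
  · intro hf
    exact graded_of_X (φ := (ψ : MvPolynomial (Fin 4) K →ₐ[K] MvPolynomial (Fin 4) K)) h hf

theorem graded_X {ψ : MvPolynomial (Fin 4) K ≃ₐ[K] MvPolynomial (Fin 4) K}
    (h : ψ ∈ gradedAut K) (i : Fin 4) : IsWeightedHomogeneous wt (ψ (X i)) (wt i) :=
  (h _ _).2 (isWeightedHomogeneous_X K wt i)

theorem graded_symm {ψ : MvPolynomial (Fin 4) K ≃ₐ[K] MvPolynomial (Fin 4) K}
    (h : ψ ∈ gradedAut K) : ψ.symm ∈ gradedAut K := (gradedAut K).inv_mem h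

/-- polynomials of positive weight vanish at the origin -/
theorem aeval_zero_of_homog {A : Type*} [CommRing A] [Algebra K A] {n : ℕ} (hn : n ≠ 0)
    {f : MvPolynomial (Fin 4) K} (hf : IsWeightedHomogeneous wt f n) : aeval (0 : Fin 4 → A) f = 0 := by
  induction hf using IsWeightedHomogeneous.induction_on with
  | zero => simp
  | add p q hp hq ihp ihq => rw [map_add, ihp, ihq, add_zero]
  | monomial d r hr =>
    have hd : d ≠ 0 := by
      rintro rfl
      rw [map_zero] at hr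
      exact hn hr.symm
    obtain ⟨i, hi⟩ : ∃ i, d i ≠ 0 := by
      by_contra hcon
      push Not at hcon
      exact hd (Finsupp.ext hcon)
    rw [aeval_monomial, Finsupp.prod_fintype _ _ (by intro i; simp),
      Finset.prod_eq_zero (Finset.mem_univ i), mul_zero]
    simp [zero_pow hi]

theorem smooth4_of_graded {ψ : MvPolynomial (Fin 4) K ≃ₐ[K] MvPolynomial (Fin 4) K}
    (h : ψ ∈ gradedAut K) {F : MvPolynomial (Fin 4) K} (hF : Smooth4 F) : Smooth4 (ψ F) := by
  apply DP1.smooth4_of_equiv _ hF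
  intro i
  apply aeval_zero_of_homog _ (graded_X (graded_symm h) i)
  fin_cases i <;> simp [wt]

/-- graded automorphisms are injective on points -/
theorem point_inj {ψ : MvPolynomial (Fin 4) K ≃ₐ[K] MvPolynomial (Fin 4) K} {P P' : Fin 4 → K}
    (h : ∀ i, aeval P (ψ (X i)) = aeval P' (ψ (X i))) : P = P' := by
  have h1 : (aeval P).comp (ψ : MvPolynomial (Fin 4) K →ₐ[K] MvPolynomial (Fin 4) K) =
      (aeval P').comp (ψ : MvPolynomial (Fin 4) K →ₐ[K] MvPolynomial (Fin 4) K) := by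
    apply MvPolynomial.algHom_ext
    intro i
    exact h i
  funext i
  have h2 := DFunLike.congr_fun h1 (ψ.symm (X i))
  have h3 : (ψ : MvPolynomial (Fin 4) K →ₐ[K] MvPolynomial (Fin 4) K) (ψ.symm (X i)) = X i :=
    ψ.apply_symm_apply _
  rw [AlgHom.comp_apply, AlgHom.comp_apply, h3, aeval_X, aeval_X] at h2
  exact h2

theorem aeval_inc {A : Type*} [CommRing A] [Algebra K A] (P : Fin 4 → A) (f : MvPolynomial (Fin 2) K) :
    aeval P (inc f) = aeval ![P 0, P 1] f := by
  have : (aeval P).comp (inc : MvPolynomial (Fin 2) K →ₐ[K] _) = aeval ![P 0, P 1] := by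
    apply MvPolynomial.algHom_ext
    intro i
    rw [AlgHom.comp_apply]
    fin_cases i
    · show aeval P (inc (X 0)) = _
      rw [inc_X0, aeval_X, aeval_X]; rfl
    · show aeval P (inc (X 1)) = _
      rw [inc_X1, aeval_X, aeval_X]; rfl
  exact DFunLike.congr_fun this f

theorem aeval_form_zero {A : Type*} [CommRing A] [Algebra K A] {n : ℕ} (hn : n ≠ 0)
    {f : MvPolynomial (Fin 2) K} (hf : f.IsHomogeneous n) : aeval (![0, 0] : Fin 2 → A) f = 0 := by
  have h := aeval_zero_of_homog (A := A) hn (inc_homog hf)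
  rw [aeval_inc] at h
  exact h

theorem lin_form {P : MvPolynomial (Fin 2) K} (hP : P.IsHomogeneous 1) :
    ∃ a b : K, P = C a * X 0 + C b * X 1 := by
  obtain ⟨c, rfl⟩ := DP1.exists_bf hP
  refine ⟨c 1, c 0, ?_⟩
  simp [DP1.bf, Fin.sum_univ_two]
  ring

/-- structure of graded automorphisms -/
theorem graded_struct {ψ : MvPolynomial (Fin 4) K ≃ₐ[K] MvPolynomial (Fin 4) K}
    (h : ψ ∈ gradedAut K) : ∃ (g : Matrix.GeneralLinearGroup (Fin 2) K) (α β : K)
      (S L P : MvPolynomial (Fin 2) K), α ≠ 0 ∧ β ≠ 0 ∧ S.IsHomogeneous 2 ∧ L.IsHomogeneous 1 ∧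
      P.IsHomogeneous 3 ∧ ψ (X 0) = inc (DP1.lin2 g 0) ∧ ψ (X 1) = inc (DP1.lin2 g 1) ∧
      ψ (X 2) = C α * X 2 + inc S ∧ ψ (X 3) = C β * X 3 + (inc L * X 2 + inc P) := by
  obtain ⟨P0, hP0, e0⟩ := struct1 (graded_X h 0)
  obtain ⟨P1, hP1, e1⟩ := struct1 (graded_X h 1)
  obtain ⟨α, S, hS, e2⟩ := struct2 (graded_X h 2)
  obtain ⟨β, L, P, hL, hP, e3⟩ := struct3 (graded_X h 3)
  obtain ⟨a, b, rfl⟩ := lin_form hP0
  obtain ⟨c, d, rfl⟩ := lin_form hP1
  have v0 : ∀ Q : Fin 4 → K, aeval Q (ψ (X 0)) = a * Q 0 + b * Q 1 := by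
    intro Q; rw [e0, aeval_inc]; simp
  have v1 : ∀ Q : Fin 4 → K, aeval Q (ψ (X 1)) = c * Q 0 + d * Q 1 := by
    intro Q; rw [e1, aeval_inc]; simp
  have v2 : ∀ Q : Fin 4 → K, aeval Q (ψ (X 2)) = α * Q 2 + aeval ![Q 0, Q 1] S := by
    intro Q; rw [e2, map_add, aeval_inc]; simp
  have v3 : ∀ Q : Fin 4 → K, aeval Q (ψ (X 3)) = β * Q 3 + (aeval ![Q 0, Q 1] L * Q 2 +
      aeval ![Q 0, Q 1] P) := by
    intro Q; rw [e3, map_add, map_add, map_mul, map_mul, aeval_inc, aeval_inc]; simp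
  have key : ∀ Q : Fin 4 → K, a * Q 0 + b * Q 1 = 0 → c * Q 0 + d * Q 1 = 0 →
      α * Q 2 + aeval ![Q 0, Q 1] S = 0 →
      β * Q 3 + (aeval ![Q 0, Q 1] L * Q 2 + aeval ![Q 0, Q 1] P) = 0 → Q = 0 := by
    intro Q h0 h1 h2 h3
    apply point_inj (ψ := ψ)
    intro i
    have hz : aeval (0 : Fin 4 → K) (ψ (X i)) = 0 := by
      apply aeval_zero_of_homog _ (graded_X h i)
      fin_cases i <;> simp [wt]
    rw [hz]
    fin_cases i
    · exact (v0 Q).trans h0
    · exact (v1 Q).trans h1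
    · exact (v2 Q).trans h2
    · exact (v3 Q).trans h3
  have hS0 : aeval (![0, 0] : Fin 2 → K) S = 0 := aeval_form_zero (by norm_num) hS
  have hL0 : aeval (![0, 0] : Fin 2 → K) L = 0 := aeval_form_zero (by norm_num) hL
  have hP00 : aeval (![0, 0] : Fin 2 → K) P = 0 := aeval_form_zero (by norm_num) hP
  have hβ : β ≠ 0 := by
    intro hβ
    have := key ![0, 0, 0, 1] (by simp) (by simp) (by simpa using hS0) (by simpa [hβ] using hP00)
    exact one_ne_zero (congrFun this 3)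
  have hα : α ≠ 0 := by
    intro hα
    have := key ![0, 0, 1, 0] (by simp) (by simp) (by simpa [hα] using hS0)
      (by
        show β * 0 + (aeval (![0, 0] : Fin 2 → K) L * 1 + aeval (![0, 0] : Fin 2 → K) P) = 0
        rw [hL0, hP00]; ring)
    exact one_ne_zero (congrFun this 2)
  have hdet : (!![a, b; c, d] : Matrix (Fin 2) (Fin 2) K).det ≠ 0 := by
    intro hdet
    obtain ⟨v, hv, hMv⟩ := Matrix.exists_mulVec_eq_zero_iff.mpr hdet
    have m0 : a * v 0 + b * v 1 = 0 := by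
      have := congrFun hMv 0
      simpa [Matrix.mulVec, dotProduct, Fin.sum_univ_two] using this
    have m1 : c * v 0 + d * v 1 = 0 := by
      have := congrFun hMv 1
      simpa [Matrix.mulVec, dotProduct, Fin.sum_univ_two] using this
    set z0 : K := -(α⁻¹ * aeval ![v 0, v 1] S) with hz0
    set y0 : K := -(β⁻¹ * (aeval ![v 0, v 1] L * z0 + aeval ![v 0, v 1] P)) with hy0
    have := key ![v 0, v 1, z0, y0] m0 m1 (by
        show α * z0 + aeval ![v 0, v 1] S = 0
        rw [hz0, mul_neg, ← mul_assoc, mul_inv_cancel₀ hα, one_mul, neg_add_cancel]) (by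
        show β * y0 + (aeval ![v 0, v 1] L * z0 + aeval ![v 0, v 1] P) = 0
        rw [hy0, mul_neg, ← mul_assoc, mul_inv_cancel₀ hβ, one_mul, neg_add_cancel])
    apply hv
    funext i
    fin_cases i
    · exact congrFun this 0
    · exact congrFun this 1
  refine ⟨Matrix.GeneralLinearGroup.mkOfDetNeZero _ hdet, α, β, S, L, P, hα, hβ, hS, hL, hP,
    ?_, ?_, e2, e3⟩
  · rw [e0]
    simp [DP1.lin2, Matrix.GeneralLinearGroup.mkOfDetNeZero]
  · rw [e1]
    simp [DP1.lin2, Matrix.GeneralLinearGroup.mkOfDetNeZero]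

end

end

end Pool.Agent.Helper19.DP1W
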