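import Pool.Agent.Helper19.DP1.WGroup
import Pool.Agent.Helper19.DP1.FSmooth

/-! Graded isomorphisms between normal forms. -/

namespace Pool.Agent.Helper19.DP1W

open MvPolynomial

noncomputable section

section
variable {K : Type*} [Field K]

open DP1 (inc inc_X0 inc_X1 inc_C sext lin2 sub2)

/-- the involution `y ↦ -y` -/
def tau : MvPolynomial (Fin 4) K →ₐ[K] MvPolynomial (Fin 4) K := aeval ![X 0, X 1, X 2, -X 3]

theorem tau_inc (f : MvPolynomial (Fin 2) K) : tau (inc f) = inc f := by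
  have : (tau : MvPolynomial (Fin 4) K →ₐ[K] MvPolynomial (Fin 4) K).comp inc = inc := by
    apply MvPolynomial.algHom_ext
    intro i
    rw [AlgHom.comp_apply]
    fin_cases i
    · show tau (inc (X 0)) = inc (X 0)
      rw [inc_X0, tau, aeval_X]; rfl
    · show tau (inc (X 1)) = inc (X 1)
      rw [inc_X1, tau, aeval_X]; rfl
  exact DFunLike.congr_fun this f

theorem tau_X2 : tau (X 2 : MvPolynomial (Fin 4) K) = X 2 := by rw [tau, aeval_X]; rfl
theorem tau_X3 : tau (X 3 : MvPolynomial (Fin 4) K) = -X 3 := by rw [tau, aeval_X]; rfl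
theorem tau_C (c : K) : tau (C c : MvPolynomial (Fin 4) K) = C c := by simp [tau]

theorem tau_sext (a : (Fin 3 → K) × (Fin 5 → K) × (Fin 7 → K)) : tau (sext a) = sext a := by
  unfold sext
  simp only [map_sub, map_add, map_mul, map_pow, tau_inc, tau_X2, tau_X3]
  ring

theorem inc_of_X {ψ : MvPolynomial (Fin 4) K ≃ₐ[K] MvPolynomial (Fin 4) K}
    {g : Matrix.GeneralLinearGroup (Fin 2) K} (h0 : ψ (X 0) = inc (lin2 g 0))
    (h1 : ψ (X 1) = inc (lin2 g 1)) (P : MvPolynomial (Fin 2) K) : ψ (inc P) = inc (sub2 g P) := by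
  have : (ψ : MvPolynomial (Fin 4) K →ₐ[K] MvPolynomial (Fin 4) K).comp inc =
      inc.comp (sub2 g) := by
    apply MvPolynomial.algHom_ext
    intro i
    rw [AlgHom.comp_apply, AlgHom.comp_apply]
    fin_cases i
    · show ψ (inc (X 0)) = inc (sub2 g (X 0))
      rw [inc_X0, h0]
      simp [sub2]
    · show ψ (inc (X 1)) = inc (sub2 g (X 1))
      rw [inc_X1, h1]
      simp [sub2]
  exact DFunLike.congr_fun this P

/-- a graded automorphism carrying a normal form to a normal form is one of the substitutions of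
`subGroup K` -/
theorem mem_sub_of_graded (h2 : (2 : K) ≠ 0)
    {ψ : MvPolynomial (Fin 4) K ≃ₐ[K] MvPolynomial (Fin 4) K} (h : ψ ∈ gradedAut K)
    {a a' : (Fin 3 → K) × (Fin 5 → K) × (Fin 7 → K)} {c : K} (hc : ψ (sext a) = C c * sext a') :
    ψ ∈ DP1.subGroup K := by
  obtain ⟨g, α, β, S, L, P, hα, hβ, hS, hL, hP, e0, e1, e2, e3⟩ := graded_struct h
  have hinc := inc_of_X e0 e1
  have hψ : ψ (sext a) = ψ (X 3) ^ 2 - (ψ (X 2) ^ 3 + inc (sub2 g (DP1.bf 2 a.1)) * ψ (X 2) ^ 2 +
      inc (sub2 g (DP1.bf 4 a.2.1)) * ψ (X 2) + inc (sub2 g (DP1.bf 6 a.2.2))) := by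
    unfold sext
    simp only [map_sub, map_add, map_mul, map_pow, hinc]
  have ht : tau (ψ (sext a)) = ψ (sext a) := by
    rw [hc, map_mul, tau_C, tau_sext]
  have ht2 : tau (ψ (X 2)) = ψ (X 2) := by
    rw [e2, map_add, map_mul, tau_C, tau_X2, tau_inc]
  have ht3 : tau (ψ (X 3)) = -(C β * X 3) + (inc L * X 2 + inc P) := by
    rw [e3, map_add, map_add, map_mul, map_mul, tau_C, tau_X3, tau_inc, tau_X2, tau_inc]
    ring
  have hsq : tau (ψ (X 3)) ^ 2 = ψ (X 3) ^ 2 := by
    rw [hψ] at ht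
    simp only [map_sub, map_add, map_mul, map_pow, ht2, tau_inc] at ht
    exact sub_left_injective ht
  have hW : inc L * X 2 + inc P = (0 : MvPolynomial (Fin 4) K) := by
    rw [ht3, e3] at hsq
    have h4 : (C (4 * β) * X 3 : MvPolynomial (Fin 4) K) * (inc L * X 2 + inc P) = 0 := by
      have c4 : (C (4 : K) : MvPolynomial (Fin 4) K) = 4 := rfl
      rw [C_mul, c4]
      linear_combination -hsq
    have h4' : (4 : K) ≠ 0 := by
      have : (4 : K) = 2 * 2 := by norm_num
      rw [this]; exact mul_ne_zero h2 h2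
    rcases mul_eq_zero.mp h4 with h5 | h5
    · rcases mul_eq_zero.mp h5 with h6 | h6
      · rw [C_eq_zero] at h6
        exact absurd h6 (mul_ne_zero h4' hβ)
      · exact absurd h6 (X_ne_zero _)
    · exact h5
  rw [hW, add_zero] at e3
  -- evaluation at two points
  have hzero : ∀ {n : ℕ} (_ : n ≠ 0) (b : Fin (n + 1) → K), aeval (![0, 0] : Fin 2 → K) (DP1.bf n b) = 0 :=
    fun hn b => aeval_form_zero hn (DP1.bf_homog _ b)
  have hS0 : aeval (![0, 0] : Fin 2 → K) S = 0 := aeval_form_zero (by norm_num) hS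
  have hsext : ∀ (b : (Fin 3 → K) × (Fin 5 → K) × (Fin 7 → K)) (z y : K),
      aeval ![0, 0, z, y] (sext b) = y ^ 2 - z ^ 3 := by
    intro b z y
    unfold sext
    simp only [map_sub, map_add, map_mul, map_pow, aeval_X, aeval_inc]
    show y ^ 2 - (z ^ 3 + aeval (![0, 0] : Fin 2 → K) (DP1.bf 2 b.1) * z ^ 2 +
      aeval (![0, 0] : Fin 2 → K) (DP1.bf 4 b.2.1) * z + aeval (![0, 0] : Fin 2 → K) (DP1.bf 6 b.2.2)) = _
    rw [hzero (by norm_num), hzero (by norm_num), hzero (by norm_num)]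
    ring
  have hcomp : ∀ z y : K, aeval ![0, 0, z, y] (ψ (sext a)) = β ^ 2 * y ^ 2 - α ^ 3 * z ^ 3 := by
    intro z y
    have h3 : (aeval ![0, 0, z, y] : MvPolynomial (Fin 4) K →ₐ[K] K).comp
        (ψ : MvPolynomial (Fin 4) K →ₐ[K] MvPolynomial (Fin 4) K) =
        (aeval ![0, 0, α * z, β * y] : MvPolynomial (Fin 4) K →ₐ[K] K) := by
      apply MvPolynomial.algHom_ext
      intro i
      rw [AlgHom.comp_apply, aeval_X]
      fin_cases i
      · show aeval ![0, 0, z, y] (ψ (X 0)) = 0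
        rw [e0, aeval_inc]; simp [lin2]
      · show aeval ![0, 0, z, y] (ψ (X 1)) = 0
        rw [e1, aeval_inc]; simp [lin2]
      · show aeval ![0, 0, z, y] (ψ (X 2)) = α * z
        rw [e2, map_add, map_mul, aeval_X, aeval_inc, aeval_C]
        show α * z + aeval (![0, 0] : Fin 2 → K) S = α * z
        rw [hS0, add_zero]
      · show aeval ![0, 0, z, y] (ψ (X 3)) = β * y
        rw [e3, map_mul, aeval_X, aeval_C]
        rfl
    have h4 := DFunLike.congr_fun h3 (sext a)
    rw [AlgHom.comp_apply, hsext] at h4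
    rw [← show (aeval ![0, 0, z, y] : MvPolynomial (Fin 4) K →ₐ[K] K)
      ((ψ : MvPolynomial (Fin 4) K →ₐ[K] MvPolynomial (Fin 4) K) (sext a)) =
        aeval ![0, 0, z, y] (ψ (sext a)) from rfl, h4]
    ring
  have hcb : c = β ^ 2 := by
    have := hcomp 0 1
    rw [hc, map_mul, aeval_C, hsext] at this
    simp only [Algebra.algebraMap_self, RingHom.id_apply] at this
    linear_combination this
  have hca : c = α ^ 3 := by
    have := hcomp 1 0
    rw [hc, map_mul, aeval_C, hsext] at this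
    simp only [Algebra.algebraMap_self, RingHom.id_apply] at this
    linear_combination -this
  have hab : β ^ 2 = α ^ 3 := by rw [← hcb, hca]
  have he : β / α ≠ 0 := div_ne_zero hβ hα
  have he2 : (β / α) ^ 2 = α := by
    rw [div_pow, hab]; field_simp
  have he3 : (β / α) ^ 3 = β := by
    rw [pow_succ, he2]; field_simp
  obtain ⟨s, rfl⟩ := DP1.exists_bf hS
  refine ⟨g, Units.mk0 (β / α) he, s, e0, e1, ?_, ?_⟩
  · rw [Units.val_mk0, he2]; exact e2
  · rw [Units.val_mk0, he3]; exact e3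

/-- substitutions are graded automorphisms -/
theorem graded_of_sub {ψ : MvPolynomial (Fin 4) K ≃ₐ[K] MvPolynomial (Fin 4) K}
    (h : ψ ∈ DP1.subGroup K) : ψ ∈ gradedAut K := by
  have key : ∀ {φ : MvPolynomial (Fin 4) K ≃ₐ[K] MvPolynomial (Fin 4) K}, φ ∈ DP1.subGroup K →
      ∀ i, IsWeightedHomogeneous wt (φ (X i)) (wt i) := by
    rintro φ ⟨g, e, s, h0, h1, h2, h3⟩ i
    fin_cases i
    · show IsWeightedHomogeneous wt (φ (X 0)) 1
      rw [h0]; exact inc_homog (DP1.lin2_homog g 0)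
    · show IsWeightedHomogeneous wt (φ (X 1)) 1
      rw [h1]; exact inc_homog (DP1.lin2_homog g 1)
    · show IsWeightedHomogeneous wt (φ (X 2)) 2
      rw [h2]
      exact (IsWeightedHomogeneous.C_mul (isWeightedHomogeneous_X K wt 2) _).add
        (inc_homog (DP1.bf_homog 2 s))
    · show IsWeightedHomogeneous wt (φ (X 3)) 3
      rw [h3]
      exact (IsWeightedHomogeneous.C_mul (isWeightedHomogeneous_X K wt 3) _)
  exact mem_gradedAut (key h) (key ((DP1.subGroup K).inv_mem h))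

theorem sext_homog (a : (Fin 3 → K) × (Fin 5 → K) × (Fin 7 → K)) :
    IsWeightedHomogeneous wt (sext a) 6 := by
  have x2 : IsWeightedHomogeneous wt (X 2 : MvPolynomial (Fin 4) K) 2 := isWeightedHomogeneous_X K wt 2
  have x3 : IsWeightedHomogeneous wt (X 3 : MvPolynomial (Fin 4) K) 3 := isWeightedHomogeneous_X K wt 3
  unfold sext
  exact (x3.pow 2).sub ((((x2.pow 3).add ((inc_homog (DP1.bf_homog 2 a.1)).mul (x2.pow 2))).add
    ((inc_homog (DP1.bf_homog 4 a.2.1)).mul x2)).add (inc_homog (DP1.bf_homog 6 a.2.2)))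

end

end

end Pool.Agent.Helper19.DP1W
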