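import Pool.Agent.Helper19.DP1.WNorm

/-! Lines are preserved by graded automorphisms. -/

namespace Pool.Agent.Helper19.DP1W

open MvPolynomial

noncomputable section

section
variable {K : Type*} [Field K]

open DP1 (inc inc_X0 inc_X1 inc_C sext lin2 sub2)

/-- restriction to a section -/
def resb (b : (Fin 3 → K) × (Fin 4 → K)) : MvPolynomial (Fin 4) K →ₐ[K] MvPolynomial (Fin 2) K :=
  aeval ![X 0, X 1, bf 2 b.1, bf 3 b.2]

theorem resb_homog (b : (Fin 3 → K) × (Fin 4 → K)) {n : ℕ} {f : MvPolynomial (Fin 4) K}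
    (hf : IsWeightedHomogeneous wt f n) : (resb b f).IsHomogeneous n := by
  induction hf using IsWeightedHomogeneous.induction_on with
  | zero => rw [map_zero]; exact isHomogeneous_zero _ _ _
  | add p q hp hq ihp ihq => rw [map_add]; exact ihp.add ihq
  | monomial d r hr =>
    rw [wt_weight] at hr
    have h0 : (resb b (X 0)).IsHomogeneous 1 := by
      rw [resb, aeval_X]; exact isHomogeneous_X K (0 : Fin 2)
    have h1 : (resb b (X 1)).IsHomogeneous 1 := by
      rw [resb, aeval_X]; exact isHomogeneous_X K (1 : Fin 2)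
    have h2 : (resb b (X 2)).IsHomogeneous 2 := by
      rw [resb, aeval_X]; exact DP1.bf_homog 2 b.1
    have h3 : (resb b (X 3)).IsHomogeneous 3 := by
      rw [resb, aeval_X]; exact DP1.bf_homog 3 b.2
    rw [monomial_eq, map_mul, algHom_C, algebraMap_eq, Finsupp.prod_fintype _ _ (by intro i; simp),
      map_prod, Fin.prod_univ_four, map_pow, map_pow, map_pow, map_pow]
    have h := (isHomogeneous_C (Fin 2) r).mul ((((h0.pow (d 0)).mul (h1.pow (d 1))).mul
      (h2.pow (d 2))).mul (h3.pow (d 3)))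
    have e : 0 + (1 * d 0 + 1 * d 1 + 2 * d 2 + 3 * d 3) = n := by omega
    rwa [e] at h

theorem resb_inc (b : (Fin 3 → K) × (Fin 4 → K)) (f : MvPolynomial (Fin 2) K) :
    resb b (inc f) = f := by
  have : (resb b).comp inc = AlgHom.id K (MvPolynomial (Fin 2) K) := by
    apply MvPolynomial.algHom_ext
    intro i
    rw [AlgHom.comp_apply]
    fin_cases i
    · show resb b (inc (X 0)) = X 0
      rw [inc_X0, resb, aeval_X]; rfl
    · show resb b (inc (X 1)) = X 1
      rw [inc_X1, resb, aeval_X]; rfl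
  exact DFunLike.congr_fun this f

/-- transport of sections -/
theorem exists_resb {ψ : MvPolynomial (Fin 4) K ≃ₐ[K] MvPolynomial (Fin 4) K}
    (h : ψ ∈ gradedAut K) : ∃ g : Matrix.GeneralLinearGroup (Fin 2) K,
      ∀ b, ∃ b', ∀ f, resb b' f = sub2 g⁻¹ (resb b (ψ f)) := by
  obtain ⟨g, α, β, S, L, P, hα, hβ, hS, hL, hP, e0, e1, e2, e3⟩ := graded_struct h
  refine ⟨g, fun b => ?_⟩
  obtain ⟨b2, hb2⟩ := DP1.exists_bf (DP1.sub2_homog g⁻¹ (resb_homog b (graded_X h 2)))
  obtain ⟨b3, hb3⟩ := DP1.exists_bf (DP1.sub2_homog g⁻¹ (resb_homog b (graded_X h 3)))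
  refine ⟨(b2, b3), ?_⟩
  have key : resb (b2, b3) = (sub2 g⁻¹).comp ((resb b).comp
      (ψ : MvPolynomial (Fin 4) K →ₐ[K] MvPolynomial (Fin 4) K)) := by
    apply MvPolynomial.algHom_ext
    intro i
    rw [AlgHom.comp_apply, AlgHom.comp_apply, resb, aeval_X]
    fin_cases i
    · show X 0 = sub2 g⁻¹ (resb b (ψ (X 0)))
      rw [e0, resb_inc, DP1.sub2_lin2, mul_inv_cancel, DP1.lin2_one]
    · show X 1 = sub2 g⁻¹ (resb b (ψ (X 1)))
      rw [e1, resb_inc, DP1.sub2_lin2, mul_inv_cancel, DP1.lin2_one]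
    · exact hb2.symm
    · exact hb3.symm
  intro f
  exact DFunLike.congr_fun key f

theorem resb_injective {b b' : (Fin 3 → K) × (Fin 4 → K)} (h : ∀ f, resb b f = resb b' f) :
    b = b' := by
  have h2 := h (X 2)
  have h3 := h (X 3)
  rw [resb, resb, aeval_X, aeval_X] at h2 h3
  exact Prod.ext (DP1.bf_injective 2 h2) (DP1.bf_injective 3 h3)

theorem lines_le [Finite K] {ψ : MvPolynomial (Fin 4) K ≃ₐ[K] MvPolynomial (Fin 4) K}
    (h : ψ ∈ gradedAut K) (F : MvPolynomial (Fin 4) K) :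
    (lines (ψ F)).ncard ≤ (lines F).ncard := by
  obtain ⟨g, hg⟩ := exists_resb h
  choose b' hb' using hg
  apply Set.ncard_le_ncard_of_injOn b'
  · intro b hb
    have h1 : resb b (ψ F) = 0 := hb
    show resb (b' b) F = 0
    rw [hb', h1, map_zero]
  · intro b1 _ b2 _ he
    apply resb_injective
    intro f
    have h1 := hb' b1 (ψ.symm f)
    have h2 := hb' b2 (ψ.symm f)
    rw [AlgEquiv.apply_symm_apply] at h1 h2
    rw [he, h2] at h1
    have h3 := congrArg (sub2 g) h1
    rw [DP1.sub2_sub2_inv, DP1.sub2_sub2_inv] at h3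
    exact h3.symm

theorem lines_eq [Finite K] {ψ : MvPolynomial (Fin 4) K ≃ₐ[K] MvPolynomial (Fin 4) K}
    (h : ψ ∈ gradedAut K) (F : MvPolynomial (Fin 4) K) :
    (lines (ψ F)).ncard = (lines F).ncard := by
  apply le_antisymm (lines_le h F)
  have := lines_le (graded_symm h) (ψ F)
  rwa [AlgEquiv.symm_apply_apply] at this

theorem lines_ncard_of_iso [Finite K] {F F' : Sextic K} (h : (isoSetoid K).r F F') :
    (lines F.1).ncard = (lines F'.1).ncard := by
  obtain ⟨ψ, c, hc⟩ := h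
  have hc0 := Isos_c_ne hc
  rw [← lines_eq ψ.2 F.1, hc]
  exact congrArg Set.ncard (DP1.lines_C_mul hc0)

end

end

end Pool.Agent.Helper19.DP1W
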