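import Pool.Agent.Helper19.DP1.WIso
import Mathlib.RingTheory.MvPolynomial.EulerIdentity

/-! Every smooth sextic is isomorphic to one in normal form. -/

namespace Pool.Agent.Helper19.DP1W

open MvPolynomial

noncomputable section

section
variable {K : Type*} [Field K]

open DP1 (inc inc_X0 inc_X1 inc_C sext lin2 sub2)

/-- triangular substitutions -/
def triHom (α β : K) (L P : MvPolynomial (Fin 2) K) :
    MvPolynomial (Fin 4) K →ₐ[K] MvPolynomial (Fin 4) K :=
  aeval ![X 0, X 1, C α * X 2, C β * X 3 + (inc L * X 2 + inc P)]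

theorem triHom_X0 (α β : K) (L P : MvPolynomial (Fin 2) K) : triHom α β L P (X 0) = X 0 := by
  rw [triHom, aeval_X]; rfl
theorem triHom_X1 (α β : K) (L P : MvPolynomial (Fin 2) K) : triHom α β L P (X 1) = X 1 := by
  rw [triHom, aeval_X]; rfl
theorem triHom_X2 (α β : K) (L P : MvPolynomial (Fin 2) K) :
    triHom α β L P (X 2) = C α * X 2 := by
  rw [triHom, aeval_X]; rfl
theorem triHom_X3 (α β : K) (L P : MvPolynomial (Fin 2) K) :
    triHom α β L P (X 3) = C β * X 3 + (inc L * X 2 + inc P) := by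
  rw [triHom, aeval_X]; rfl
theorem triHom_C (α β : K) (L P : MvPolynomial (Fin 2) K) (c : K) :
    triHom α β L P (C c) = C c := by simp [triHom]

theorem triHom_inc (α β : K) (L P f : MvPolynomial (Fin 2) K) :
    triHom α β L P (inc f) = inc f := by
  have : (triHom α β L P).comp inc = inc := by
    apply MvPolynomial.algHom_ext
    intro i
    rw [AlgHom.comp_apply]
    fin_cases i
    · show triHom α β L P (inc (X 0)) = inc (X 0)
      rw [inc_X0, triHom_X0]
    · show triHom α β L P (inc (X 1)) = inc (X 1)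
      rw [inc_X1, triHom_X1]
  exact DFunLike.congr_fun this f

theorem triHom_comp (α β α' β' : K) (L P L' P' : MvPolynomial (Fin 2) K) :
    (triHom α β L P).comp (triHom α' β' L' P') =
      triHom (α * α') (β * β') (C β' * L + C α * L') (C β' * P + P') := by
  apply MvPolynomial.algHom_ext
  intro i
  rw [AlgHom.comp_apply]
  fin_cases i
  · show triHom α β L P (triHom α' β' L' P' (X 0)) = triHom _ _ _ _ (X 0)
    rw [triHom_X0, triHom_X0, triHom_X0]
  · show triHom α β L P (triHom α' β' L' P' (X 1)) = triHom _ _ _ _ (X 1)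
    rw [triHom_X1, triHom_X1, triHom_X1]
  · show triHom α β L P (triHom α' β' L' P' (X 2)) = triHom _ _ _ _ (X 2)
    rw [triHom_X2, triHom_X2, map_mul, triHom_C, triHom_X2, C_mul]
    ring
  · show triHom α β L P (triHom α' β' L' P' (X 3)) = triHom _ _ _ _ (X 3)
    rw [triHom_X3, triHom_X3, map_add, map_add, map_mul, map_mul, triHom_C, triHom_X3, triHom_inc,
      triHom_X2, triHom_inc, map_add, map_mul, map_mul, map_add, map_mul, inc_C, inc_C, map_mul,
      inc_C]
    ring

theorem triHom_one : triHom (1 : K) 1 0 0 = AlgHom.id K _ := by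
  apply MvPolynomial.algHom_ext
  intro i
  fin_cases i
  · exact triHom_X0 _ _ _ _
  · exact triHom_X1 _ _ _ _
  · show triHom (1 : K) 1 0 0 (X 2) = X 2
    rw [triHom_X2]; simp
  · show triHom (1 : K) 1 0 0 (X 3) = X 3
    rw [triHom_X3]; simp

/-- triangular automorphisms -/
def triEquiv {α β : K} (hα : α ≠ 0) (hβ : β ≠ 0) (L P : MvPolynomial (Fin 2) K) :
    MvPolynomial (Fin 4) K ≃ₐ[K] MvPolynomial (Fin 4) K :=
  AlgEquiv.ofAlgHom (triHom α β L P)
    (triHom α⁻¹ β⁻¹ (-(C (β⁻¹ * α⁻¹) * L)) (-(C β⁻¹ * P)))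
    (by
      rw [triHom_comp, mul_inv_cancel₀ hα, mul_inv_cancel₀ hβ, ← triHom_one]
      congr 1
      · rw [mul_neg, ← mul_assoc, ← C_mul, mul_comm β⁻¹ α⁻¹, ← mul_assoc, mul_inv_cancel₀ hα,
          one_mul, add_neg_cancel]
      · rw [add_neg_cancel])
    (by
      rw [triHom_comp, inv_mul_cancel₀ hα, inv_mul_cancel₀ hβ, ← triHom_one]
      congr 1
      · rw [mul_neg, ← mul_assoc, ← C_mul, ← mul_assoc, mul_inv_cancel₀ hβ, one_mul, neg_add_cancel]
      · rw [mul_neg, ← mul_assoc, ← C_mul, mul_inv_cancel₀ hβ, C_1, one_mul, neg_add_cancel])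

theorem triHom_homog {α β : K} {L P : MvPolynomial (Fin 2) K} (hL : L.IsHomogeneous 1)
    (hP : P.IsHomogeneous 3) (i : Fin 4) :
    IsWeightedHomogeneous wt (triHom α β L P (X i)) (wt i) := by
  have x0 : IsWeightedHomogeneous wt (X 0 : MvPolynomial (Fin 4) K) 1 := isWeightedHomogeneous_X K wt 0
  have x1 : IsWeightedHomogeneous wt (X 1 : MvPolynomial (Fin 4) K) 1 := isWeightedHomogeneous_X K wt 1
  have x2 : IsWeightedHomogeneous wt (X 2 : MvPolynomial (Fin 4) K) 2 := isWeightedHomogeneous_X K wt 2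
  have x3 : IsWeightedHomogeneous wt (X 3 : MvPolynomial (Fin 4) K) 3 := isWeightedHomogeneous_X K wt 3
  fin_cases i
  · show IsWeightedHomogeneous wt (triHom α β L P (X 0)) 1
    rw [triHom_X0]; exact x0
  · show IsWeightedHomogeneous wt (triHom α β L P (X 1)) 1
    rw [triHom_X1]; exact x1
  · show IsWeightedHomogeneous wt (triHom α β L P (X 2)) 2
    rw [triHom_X2]; exact x2.C_mul _
  · show IsWeightedHomogeneous wt (triHom α β L P (X 3)) 3
    rw [triHom_X3]
    exact (x3.C_mul _).add (((inc_homog hL).mul x2).add (inc_homog hP))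

theorem triEquiv_mem {α β : K} (hα : α ≠ 0) (hβ : β ≠ 0) {L P : MvPolynomial (Fin 2) K}
    (hL : L.IsHomogeneous 1) (hP : P.IsHomogeneous 3) : triEquiv hα hβ L P ∈ gradedAut K := by
  apply mem_gradedAut
  · intro i
    exact triHom_homog hL hP i
  · intro i
    apply triHom_homog
    · rw [← neg_mul, ← C_neg]
      have := (isHomogeneous_C (Fin 2) (-(β⁻¹ * α⁻¹))).mul hL
      rwa [zero_add] at this
    · rw [← neg_mul, ← C_neg]
      have := (isHomogeneous_C (Fin 2) (-β⁻¹)).mul hP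
      rwa [zero_add] at this

/-- values at `(0,0,0,1)` -/
theorem eval_y {A : Type*} [CommRing A] [Algebra K A] {n : ℕ} (hn : ¬ 3 ∣ n)
    {f : MvPolynomial (Fin 4) K} (hf : IsWeightedHomogeneous wt f n) :
    aeval (![0, 0, 0, 1] : Fin 4 → A) f = 0 := by
  induction hf using IsWeightedHomogeneous.induction_on with
  | zero => simp
  | add p q hp hq ihp ihq => rw [map_add, ihp, ihq, add_zero]
  | monomial d r hr =>
    rw [wt_weight] at hr
    rw [aeval_monomial, Finsupp.prod_fintype _ _ (by intro i; simp), Fin.prod_univ_four]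
    have : d 0 ≠ 0 ∨ d 1 ≠ 0 ∨ d 2 ≠ 0 := by
      by_contra hcon
      push Not at hcon
      apply hn
      rw [← hr, hcon.1, hcon.2.1, hcon.2.2]
      exact ⟨d 3, by ring⟩
    rcases this with h | h | h <;> simp [zero_pow h]

/-- values at `(0,0,1,0)` -/
theorem eval_z {A : Type*} [CommRing A] [Algebra K A] {n : ℕ} (hn : ¬ 2 ∣ n)
    {f : MvPolynomial (Fin 4) K} (hf : IsWeightedHomogeneous wt f n) :
    aeval (![0, 0, 1, 0] : Fin 4 → A) f = 0 := by
  induction hf using IsWeightedHomogeneous.induction_on with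
  | zero => simp
  | add p q hp hq ihp ihq => rw [map_add, ihp, ihq, add_zero]
  | monomial d r hr =>
    rw [wt_weight] at hr
    rw [aeval_monomial, Finsupp.prod_fintype _ _ (by intro i; simp), Fin.prod_univ_four]
    have : d 0 ≠ 0 ∨ d 1 ≠ 0 ∨ d 3 ≠ 0 := by
      by_contra hcon
      push Not at hcon
      apply hn
      rw [← hr, hcon.1, hcon.2.1, hcon.2.2]
      exact ⟨d 2, by ring⟩
    rcases this with h | h | h <;> simp [zero_pow h]

theorem lead_ne_zero {c α : K} {L P3 P2 P4 P6 : MvPolynomial (Fin 2) K} (hL : L.IsHomogeneous 1)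
    (hP3 : P3.IsHomogeneous 3) (hP2 : P2.IsHomogeneous 2) (hP4 : P4.IsHomogeneous 4)
    (hP6 : P6.IsHomogeneous 6)
    (hs : Smooth4 (C c * X 3 ^ 2 + X 3 * (inc L * X 2 + inc P3) +
        (C α * X 2 ^ 3 + inc P2 * X 2 ^ 2 + inc P4 * X 2 + inc P6))) : c ≠ 0 ∧ α ≠ 0 := by
  have x2 : IsWeightedHomogeneous wt (X 2 : MvPolynomial (Fin 4) K) 2 := isWeightedHomogeneous_X K wt 2
  have x3 : IsWeightedHomogeneous wt (X 3 : MvPolynomial (Fin 4) K) 3 := isWeightedHomogeneous_X K wt 3
  have hL0 : aeval (![0, 0] : Fin 2 → AlgebraicClosure K) L = 0 := aeval_form_zero (by norm_num) hL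
  have h30 : aeval (![0, 0] : Fin 2 → AlgebraicClosure K) P3 = 0 := aeval_form_zero (by norm_num) hP3
  have h20 : aeval (![0, 0] : Fin 2 → AlgebraicClosure K) P2 = 0 := aeval_form_zero (by norm_num) hP2
  have h40 : aeval (![0, 0] : Fin 2 → AlgebraicClosure K) P4 = 0 := aeval_form_zero (by norm_num) hP4
  have h60 : aeval (![0, 0] : Fin 2 → AlgebraicClosure K) P6 = 0 := aeval_form_zero (by norm_num) hP6
  set F : MvPolynomial (Fin 4) K := C c * X 3 ^ 2 + X 3 * (inc L * X 2 + inc P3) +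
        (C α * X 2 ^ 3 + inc P2 * X 2 ^ 2 + inc P4 * X 2 + inc P6) with hFdef
  have hF : IsWeightedHomogeneous wt F 6 := by
    exact (((x3.pow 2).C_mul c).add (x3.mul (((inc_homog hL).mul x2).add (inc_homog hP3)))).add
      (((((x2.pow 3).C_mul α).add ((inc_homog hP2).mul (x2.pow 2))).add
        ((inc_homog hP4).mul x2)).add (inc_homog hP6))
  have hd0 : IsWeightedHomogeneous wt (pderiv 0 F) 5 := hF.pderiv rfl
  have hd1 : IsWeightedHomogeneous wt (pderiv 1 F) 5 := hF.pderiv rfl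
  have hd2 : IsWeightedHomogeneous wt (pderiv 2 F) 4 := hF.pderiv rfl
  have hd3 : IsWeightedHomogeneous wt (pderiv 3 F) 3 := hF.pderiv rfl
  have hval : ∀ z y : AlgebraicClosure K, aeval ![0, 0, z, y] F =
      algebraMap K _ c * y ^ 2 + algebraMap K _ α * z ^ 3 := by
    intro z y
    rw [hFdef]
    simp only [map_add, map_mul, map_pow, aeval_X, aeval_inc, aeval_C]
    show algebraMap K _ c * y ^ 2 + y * (aeval (![0, 0] : Fin 2 → AlgebraicClosure K) L * z +
      aeval (![0, 0] : Fin 2 → AlgebraicClosure K) P3) + (algebraMap K _ α * z ^ 3 +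
      aeval (![0, 0] : Fin 2 → AlgebraicClosure K) P2 * z ^ 2 +
      aeval (![0, 0] : Fin 2 → AlgebraicClosure K) P4 * z +
      aeval (![0, 0] : Fin 2 → AlgebraicClosure K) P6) = _
    rw [hL0, h30, h20, h40, h60]
    ring
  have h3val : ∀ z y : AlgebraicClosure K, aeval ![0, 0, z, y] (pderiv 3 F) =
      2 * algebraMap K _ c * y := by
    intro z y
    rw [hFdef]
    simp only [map_add, Derivation.leibniz, Derivation.leibniz_pow, pderiv_C,
      DP1.pderiv_inc_ne (3 : Fin 4) (by decide) (by decide), pderiv_X_self,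
      pderiv_X_of_ne (show (2 : Fin 4) ≠ 3 by decide)]
    simp only [smul_eq_mul, map_add, map_mul, aeval_X, aeval_inc, aeval_C, mul_zero,
      add_zero, zero_add, mul_one, smul_zero, map_zero, Nat.add_one_sub_one, pow_one,
      nsmul_eq_mul, Nat.cast_ofNat, map_ofNat]
    show algebraMap K _ c * (2 * y) + (aeval (![0, 0] : Fin 2 → AlgebraicClosure K) L * z +
      aeval (![0, 0] : Fin 2 → AlgebraicClosure K) P3) = _
    rw [hL0, h30]
    ring
  have h2val : ∀ z y : AlgebraicClosure K, aeval ![0, 0, z, y] (pderiv 2 F) =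
      3 * algebraMap K _ α * z ^ 2 := by
    intro z y
    rw [hFdef]
    simp only [map_add, Derivation.leibniz, Derivation.leibniz_pow, pderiv_C,
      DP1.pderiv_inc_ne (2 : Fin 4) (by decide) (by decide), pderiv_X_self,
      pderiv_X_of_ne (show (3 : Fin 4) ≠ 2 by decide)]
    simp only [smul_eq_mul, map_add, map_mul, map_pow, aeval_X, aeval_inc, aeval_C, mul_zero,
      add_zero, zero_add, mul_one, smul_zero, map_zero, Nat.add_one_sub_one, pow_one,
      nsmul_eq_mul, Nat.cast_ofNat, map_ofNat]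
    show y * aeval (![0, 0] : Fin 2 → AlgebraicClosure K) L + (algebraMap K _ α * (3 * z ^ 2) +
      aeval (![0, 0] : Fin 2 → AlgebraicClosure K) P2 * (2 * z) +
      aeval (![0, 0] : Fin 2 → AlgebraicClosure K) P4) = _
    rw [hL0, h20, h40]
    ring
  constructor
  · intro hc
    obtain ⟨i, hi⟩ := hs ![0, 0, 0, 1] (by
      intro h; exact one_ne_zero (congrFun h 3)) (by rw [hval, hc]; simp)
    apply hi
    fin_cases i
    · exact eval_y (by norm_num) hd0
    · exact eval_y (by norm_num) hd1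
    · exact eval_y (by norm_num) hd2
    · exact (h3val 0 1).trans (by rw [hc]; simp)
  · intro hα
    obtain ⟨i, hi⟩ := hs ![0, 0, 1, 0] (by
      intro h; exact one_ne_zero (congrFun h 2)) (by rw [hval, hα]; simp)
    apply hi
    fin_cases i
    · exact eval_z (by norm_num) hd0
    · exact eval_z (by norm_num) hd1
    · exact (h2val 1 0).trans (by rw [hα]; simp)
    · exact eval_z (by norm_num) hd3

/-- normal form -/
theorem exists_normal (h2 : (2 : K) ≠ 0) (F : Sextic K) :
    ∃ ψ ∈ gradedAut K, ∃ (c : K) (a : (Fin 3 → K) × (Fin 5 → K) × (Fin 7 → K)), c ≠ 0 ∧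
      ψ F.1 = C c * sext a := by
  obtain ⟨F, hF, hs⟩ := F
  obtain ⟨c, α, L, P3, P2, P4, P6, hL, hP3, hP2, hP4, hP6, rfl⟩ := struct6 hF
  obtain ⟨hc, hα⟩ := lead_ne_zero hL hP3 hP2 hP4 hP6 hs
  have hu : -(c * α) ≠ 0 := neg_ne_zero.mpr (mul_ne_zero hc hα)
  have hv : c * α ^ 2 ≠ 0 := mul_ne_zero hc (pow_ne_zero 2 hα)
  have hc' : c ^ 3 * α ^ 4 ≠ 0 := mul_ne_zero (pow_ne_zero 3 hc) (pow_ne_zero 4 hα)
  set k : K := (2 * c)⁻¹ with hk
  set d : K := (c ^ 3 * α ^ 4)⁻¹ with hd
  have HK : 2 * c * k = 1 := mul_inv_cancel₀ (mul_ne_zero h2 hc)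
  have HD : c ^ 3 * α ^ 4 * d = 1 := mul_inv_cancel₀ hc'
  have cmul : ∀ {n : ℕ} {Q : MvPolynomial (Fin 2) K} (t : K), Q.IsHomogeneous n →
      (C t * Q).IsHomogeneous n := by
    intro n Q t hQ
    have := (isHomogeneous_C (Fin 2) t).mul hQ
    rwa [zero_add] at this
  have hL2 : (L ^ 2).IsHomogeneous 2 := hL.pow 2
  have hLP : (L * P3).IsHomogeneous 4 := hL.mul hP3
  have hPP : (P3 ^ 2).IsHomogeneous 6 := hP3.pow 2
  obtain ⟨b2, e2⟩ := DP1.exists_bf ((cmul (-d * (c * α) ^ 2) hP2).add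
    (cmul (d * c * k ^ 2 * (c * α) ^ 2) hL2))
  obtain ⟨b4, e4⟩ := DP1.exists_bf ((cmul (d * (c * α)) hP4).add
    (cmul (-2 * d * c * k ^ 2 * (c * α)) hLP))
  obtain ⟨b6, e6⟩ := DP1.exists_bf ((cmul (-d) hP6).add (cmul (d * c * k ^ 2) hPP))
  have hL' : (C (c * α * k) * L).IsHomogeneous 1 := cmul _ hL
  have hP' : (C (-k) * P3).IsHomogeneous 3 := cmul _ hP3
  refine ⟨triEquiv hu hv (C (c * α * k) * L) (C (-k) * P3), triEquiv_mem hu hv hL' hP',
    c ^ 3 * α ^ 4, (b2, b4, b6), hc', ?_⟩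
  show triHom (-(c * α)) (c * α ^ 2) (C (c * α * k) * L) (C (-k) * P3) _ = _
  unfold sext
  rw [← e2, ← e4, ← e6]
  simp only [map_add, map_mul, map_pow, triHom_C, triHom_X3, triHom_inc, triHom_X2, inc_C, C_mul,
    C_pow, C_neg, map_neg]
  have HK' : 2 * (C c : MvPolynomial (Fin 4) K) * C k = 1 := by
    have := congrArg (C : K → MvPolynomial (Fin 4) K) HK
    rw [C_mul, C_mul, C_1] at this
    exact this
  have HD' : (C c : MvPolynomial (Fin 4) K) ^ 3 * C α ^ 4 * C d = 1 := by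
    have := congrArg (C : K → MvPolynomial (Fin 4) K) HD
    rwa [C_mul, C_mul, C_pow, C_pow, C_1] at this
  have c2 : (C (2 : K) : MvPolynomial (Fin 4) K) = 2 := rfl
  rw [c2]
  generalize (C c : MvPolynomial (Fin 4) K) = c at *
  generalize (C α : MvPolynomial (Fin 4) K) = α at *
  generalize (C k : MvPolynomial (Fin 4) K) = k at *
  generalize (C d : MvPolynomial (Fin 4) K) = d at *
  generalize inc L = L at *
  generalize inc P3 = P3 at *
  generalize inc P2 = P2 at *
  generalize inc P4 = P4 at *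
  generalize inc P6 = P6 at *
  linear_combination (-X 3 * (-(c * α) * L * X 2 + P3) * (c * α ^ 2) +
      (-(c * α) * L * X 2 + P3) ^ 2 * k) * HK' +
    ((-P2 * (c * α) ^ 2 + c * k ^ 2 * L ^ 2 * (c * α) ^ 2) * X 2 ^ 2 +
      (P4 * (c * α) - 2 * c * k ^ 2 * (c * α) * L * P3) * X 2 + (-P6 + c * k ^ 2 * P3 ^ 2)) * HD'

end

end

end Pool.Agent.Helper19.DP1W
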