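import Pool.Agent.Helper19.DP1.WDefs
import Pool.Agent.Helper19.DP1.FMass

/-! Structure of weighted homogeneous polynomials and of graded automorphisms. -/

namespace Pool.Agent.Helper19.DP1W

open MvPolynomial

noncomputable section

section
variable {K : Type*} [Field K]

open DP1 (inc inc_X0 inc_X1 inc_C)

theorem wt_weight (d : Fin 4 →₀ ℕ) : Finsupp.weight wt d = d 0 + d 1 + 2 * d 2 + 3 * d 3 := by
  rw [Finsupp.weight_apply, Finsupp.sum_fintype _ _ (by intro i; simp), Fin.sum_univ_four]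
  simp [wt]
  ring

/-- a monomial, factored -/
theorem monomial_eq_inc (d : Fin 4 →₀ ℕ) (r : K) : monomial d r =
    inc (monomial (Finsupp.single 0 (d 0) + Finsupp.single 1 (d 1)) r) * X 2 ^ d 2 * X 3 ^ d 3 := by
  have h1 : (monomial (Finsupp.single (0 : Fin 2) (d 0) + Finsupp.single (1 : Fin 2) (d 1)) r :
      MvPolynomial (Fin 2) K) = C r * X 0 ^ d 0 * X 1 ^ d 1 := by
    rw [X_pow_eq_monomial, X_pow_eq_monomial, mul_assoc, monomial_mul, C_mul_monomial]
    simp
  rw [h1, map_mul, map_mul, map_pow, map_pow, inc_X0, inc_X1, inc_C, monomial_eq]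
  rw [Finsupp.prod_fintype _ _ (by intro i; simp), Fin.prod_univ_four]
  ring

/-- decomposition of weighted homogeneous polynomials -/
theorem decomp {n : ℕ} (hn : n ≤ 6) {F : MvPolynomial (Fin 4) K} (hF : IsWeightedHomogeneous wt F n) :
    ∃ P : ℕ → ℕ → MvPolynomial (Fin 2) K,
      (∀ j k, 2 * j + 3 * k ≤ n → (P j k).IsHomogeneous (n - (2 * j + 3 * k))) ∧
      (∀ j k, n < 2 * j + 3 * k → P j k = 0) ∧
      F = ∑ j ∈ Finset.range 4, ∑ k ∈ Finset.range 3, inc (P j k) * X 2 ^ j * X 3 ^ k := by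
  induction hF using IsWeightedHomogeneous.induction_on with
  | zero =>
    refine ⟨fun _ _ => 0, fun _ _ _ => isHomogeneous_zero _ _ _, fun _ _ _ => rfl, ?_⟩
    simp
  | add p q hp hq ihp ihq =>
    obtain ⟨P, h1, h2, h3⟩ := ihp
    obtain ⟨Q, g1, g2, g3⟩ := ihq
    refine ⟨fun j k => P j k + Q j k, fun j k h => (h1 j k h).add (g1 j k h), fun j k h => ?_, ?_⟩
    · show P j k + Q j k = 0
      rw [h2 j k h, g2 j k h, add_zero]
    · rw [h3, g3, ← Finset.sum_add_distrib]
      apply Finset.sum_congr rfl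
      intro j _
      rw [← Finset.sum_add_distrib]
      apply Finset.sum_congr rfl
      intro k _
      rw [map_add]; ring
  | monomial d r hr =>
    rw [wt_weight] at hr
    refine ⟨fun j k => if j = d 2 ∧ k = d 3 then
      monomial (Finsupp.single 0 (d 0) + Finsupp.single 1 (d 1)) r else 0, ?_, ?_, ?_⟩
    · intro j k h
      show IsHomogeneous (if j = d 2 ∧ k = d 3 then
        monomial (Finsupp.single 0 (d 0) + Finsupp.single 1 (d 1)) r else 0) _
      split_ifs with hjk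
      · apply isHomogeneous_monomial
        obtain ⟨rfl, rfl⟩ := hjk
        rw [Finsupp.degree_eq_sum, Fin.sum_univ_two]
        simp
        omega
      · exact isHomogeneous_zero _ _ _
    · intro j k h
      show (if j = d 2 ∧ k = d 3 then
        monomial (Finsupp.single 0 (d 0) + Finsupp.single 1 (d 1)) r else 0) = 0
      rw [if_neg]
      rintro ⟨rfl, rfl⟩
      omega
    · rw [Finset.sum_eq_single (d 2), Finset.sum_eq_single (d 3)]
      · beta_reduce
        rw [if_pos ⟨rfl, rfl⟩]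
        exact monomial_eq_inc d r
      · intro k _ hk
        beta_reduce
        rw [if_neg (fun h => hk h.2)]
        simp
      · intro h
        exact absurd (Finset.mem_range.mpr (by omega)) h
      · intro j _ hj
        apply Finset.sum_eq_zero
        intro k _
        beta_reduce
        rw [if_neg (fun h => hj h.1)]
        simp
      · intro h
        exact absurd (Finset.mem_range.mpr (by omega)) h

theorem inc_homog {n : ℕ} {P : MvPolynomial (Fin 2) K} (hP : P.IsHomogeneous n) :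
    IsWeightedHomogeneous wt (inc P) n := by
  obtain ⟨c, rfl⟩ := DP1.exists_bf hP
  unfold DP1.bf
  rw [map_sum]
  apply IsWeightedHomogeneous.sum
  intro i _
  rw [map_mul, map_mul, map_pow, map_pow, inc_X0, inc_X1, inc_C]
  have h0 : IsWeightedHomogeneous wt (X 0 : MvPolynomial (Fin 4) K) 1 := isWeightedHomogeneous_X K wt 0
  have h1 : IsWeightedHomogeneous wt (X 1 : MvPolynomial (Fin 4) K) 1 := isWeightedHomogeneous_X K wt 1
  have h := ((isWeightedHomogeneous_C wt (c i)).mul (h0.pow (i : ℕ))).mul (h1.pow (n - (i : ℕ)))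
  have e : 0 + (i : ℕ) • 1 + (n - (i : ℕ)) • 1 = n := by
    have := i.2
    simp only [smul_eq_mul]; omega
  rwa [e] at h

theorem struct1 {F : MvPolynomial (Fin 4) K} (hF : IsWeightedHomogeneous wt F 1) :
    ∃ P : MvPolynomial (Fin 2) K, P.IsHomogeneous 1 ∧ F = inc P := by
  obtain ⟨P, h1, h2, rfl⟩ := decomp (by norm_num) hF
  refine ⟨P 0 0, h1 0 0 (by norm_num), ?_⟩
  simp only [Finset.sum_range_succ, Finset.sum_range_zero]
  rw [h2 0 1 (by norm_num), h2 0 2 (by norm_num), h2 1 0 (by norm_num), h2 1 1 (by norm_num),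
    h2 1 2 (by norm_num), h2 2 0 (by norm_num), h2 2 1 (by norm_num), h2 2 2 (by norm_num),
    h2 3 0 (by norm_num), h2 3 1 (by norm_num), h2 3 2 (by norm_num)]
  simp

theorem homog_zero {P : MvPolynomial (Fin 2) K} (hP : P.IsHomogeneous 0) : ∃ c : K, P = C c := by
  obtain ⟨c, rfl⟩ := DP1.exists_bf hP
  refine ⟨c 0, ?_⟩
  simp [DP1.bf]

theorem struct2 {F : MvPolynomial (Fin 4) K} (hF : IsWeightedHomogeneous wt F 2) :
    ∃ (α : K) (P : MvPolynomial (Fin 2) K), P.IsHomogeneous 2 ∧ F = C α * X 2 + inc P := by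
  obtain ⟨P, h1, h2, rfl⟩ := decomp (by norm_num) hF
  obtain ⟨α, hα⟩ := homog_zero (h1 1 0 (by norm_num))
  refine ⟨α, P 0 0, h1 0 0 (by norm_num), ?_⟩
  simp only [Finset.sum_range_succ, Finset.sum_range_zero]
  rw [h2 0 1 (by norm_num), h2 0 2 (by norm_num), hα, h2 1 1 (by norm_num),
    h2 1 2 (by norm_num), h2 2 0 (by norm_num), h2 2 1 (by norm_num), h2 2 2 (by norm_num),
    h2 3 0 (by norm_num), h2 3 1 (by norm_num), h2 3 2 (by norm_num), inc_C]
  simp
  ring

theorem struct3 {F : MvPolynomial (Fin 4) K} (hF : IsWeightedHomogeneous wt F 3) :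
    ∃ (β : K) (L P : MvPolynomial (Fin 2) K), L.IsHomogeneous 1 ∧ P.IsHomogeneous 3 ∧
      F = C β * X 3 + (inc L * X 2 + inc P) := by
  obtain ⟨P, h1, h2, rfl⟩ := decomp (by norm_num) hF
  obtain ⟨β, hβ⟩ := homog_zero (h1 0 1 (by norm_num))
  refine ⟨β, P 1 0, P 0 0, h1 1 0 (by norm_num), h1 0 0 (by norm_num), ?_⟩
  simp only [Finset.sum_range_succ, Finset.sum_range_zero]
  rw [hβ, h2 0 2 (by norm_num), h2 1 1 (by norm_num),
    h2 1 2 (by norm_num), h2 2 0 (by norm_num), h2 2 1 (by norm_num), h2 2 2 (by norm_num),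
    h2 3 0 (by norm_num), h2 3 1 (by norm_num), h2 3 2 (by norm_num), inc_C]
  simp
  ring

theorem struct6 {F : MvPolynomial (Fin 4) K} (hF : IsWeightedHomogeneous wt F 6) :
    ∃ (c α : K) (L P3 P2 P4 P6 : MvPolynomial (Fin 2) K), L.IsHomogeneous 1 ∧ P3.IsHomogeneous 3 ∧
      P2.IsHomogeneous 2 ∧ P4.IsHomogeneous 4 ∧ P6.IsHomogeneous 6 ∧
      F = C c * X 3 ^ 2 + X 3 * (inc L * X 2 + inc P3) +
        (C α * X 2 ^ 3 + inc P2 * X 2 ^ 2 + inc P4 * X 2 + inc P6) := by
  obtain ⟨P, h1, h2, rfl⟩ := decomp (by norm_num) hF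
  obtain ⟨c, hc⟩ := homog_zero (h1 0 2 (by norm_num))
  obtain ⟨α, hα⟩ := homog_zero (h1 3 0 (by norm_num))
  refine ⟨c, α, P 1 1, P 0 1, P 2 0, P 1 0, P 0 0, h1 1 1 (by norm_num), h1 0 1 (by norm_num),
    h1 2 0 (by norm_num), h1 1 0 (by norm_num), h1 0 0 (by norm_num), ?_⟩
  simp only [Finset.sum_range_succ, Finset.sum_range_zero]
  rw [hc, hα, h2 1 2 (by norm_num), h2 2 1 (by norm_num), h2 2 2 (by norm_num),
    h2 3 1 (by norm_num), h2 3 2 (by norm_num), inc_C, inc_C]
  simp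
  ring

end

end

end Pool.Agent.Helper19.DP1W
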